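import Pool.Agent.Work.MP_c146e2_gt.KG.Defs

set_option autoImplicit false

noncomputable section

open scoped Classical

namespace KG

variable {V V' : Type}

theorem rch_symm {G : Cx V} {S : Set V} {a b : V} (h : Rch G S a b) : Rch G S b a := by
  induction h with
  | refl => exact Relation.ReflTransGen.refl
  | tail _ hbc ih => exact Relation.ReflTransGen.head ⟨hbc.2.1, hbc.1, G.symm _ _ hbc.2.2⟩ ih

theorem rch_mono {G : Cx V} {S T : Set V} (hST : S ⊆ T) {a b : V} (h : Rch G S a b) :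
    Rch G T a b := by
  induction h with
  | refl => exact Relation.ReflTransGen.refl
  | tail _ hbc ih => exact Relation.ReflTransGen.tail ih ⟨hST hbc.1, hST hbc.2.1, hbc.2.2⟩

theorem rch_step {G : Cx V} {S : Set V} {a b : V} (ha : a ∈ S) (hb : b ∈ S) (h : G.r a b) :
    Rch G S a b := by
  exact Relation.ReflTransGen.single ⟨ha, hb, h⟩

theorem rch_mem {G : Cx V} {S : Set V} {a b : V} (h : Rch G S a b) (ha : a ∈ S) : b ∈ S := by
  induction h with
  | refl => exact ha
  | tail _ hbc _ => exact hbc.2.1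

theorem rch_const {G : Cx V} {S : Set V} {α : Type} {f : V → α}
    (hf : ∀ a ∈ S, ∀ b ∈ S, G.r a b → f a = f b) {a b : V} (h : Rch G S a b) : f a = f b := by
  induction h with
  | refl => rfl
  | tail _ hbc ih => exact ih.trans (hf _ hbc.1 _ hbc.2.1 hbc.2.2)

theorem bas_trans {G : Cx V} {S : Set V} {a b c : V} (h : Rch G S a b) (h' : Rch G S b c) :
    Rch G S a c := Relation.ReflTransGen.trans h h'

theorem bas_refl (G : Cx V) (S : Set V) (a : V) : Rch G S a a := Relation.ReflTransGen.refl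

theorem rch_map {G' : Cx V'} {G : Cx V} {S' : Set V'} {S : Set V} {f : V' → V}
    (hf : ∀ a ∈ S', ∀ b ∈ S', G'.r a b → Rch G S (f a) (f b)) {a b : V'} (h : Rch G' S' a b) :
    Rch G S (f a) (f b) := by
  induction h with
  | refl => exact bas_refl _ _ _
  | tail _ hbc ih => exact bas_trans ih (hf _ hbc.1 _ hbc.2.1 hbc.2.2)

theorem conn_iff {G : Cx V} {S : Set V} : Conn G S ↔ ∀ f : V → Bool,
    (∀ a ∈ S, ∀ b ∈ S, G.r a b → f a = f b) → ∀ a ∈ S, ∀ b ∈ S, f a = f b := by
  constructor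
  · intro h f hf a ha b hb
    exact rch_const hf (h a ha b hb)
  · intro h a ha b hb
    have := h (fun x => decide (Rch G S a x)) (fun x hx y hy hxy => by
      simp only [decide_eq_decide]
      exact ⟨fun h1 => bas_trans h1 (rch_step hx hy hxy),
        fun h1 => bas_trans h1 (rch_step hy hx (G.symm _ _ hxy))⟩) a ha b hb
    simp only [decide_eq_decide] at this
    exact this.1 (bas_refl _ _ _)

theorem conn_of_base {G : Cx V} {S : Set V} (c : V) (h : ∀ a ∈ S, Rch G S a c) : Conn G S := by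
  exact fun a ha b hb => bas_trans (h a ha) (rch_symm (h b hb))

theorem conn_of_cone {G : Cx V} {S : Set V} {c : V} (hc : c ∈ S) (h : ∀ a ∈ S, G.r a c) :
    Conn G S := by
  exact conn_of_base c fun a ha => rch_step ha hc (h a ha)

theorem Conn.image {G' : Cx V'} {G : Cx V} {S' : Set V'} {f : V' → V} (h : Conn G' S')
    (hf : ∀ a ∈ S', ∀ b ∈ S', G'.r a b → G.r (f a) (f b)) : Conn G (f '' S') := by
  rintro _ ⟨a, ha, rfl⟩ _ ⟨b, hb, rfl⟩
  exact rch_map (fun x hx y hy hxy =>
    rch_step (Set.mem_image_of_mem f hx) (Set.mem_image_of_mem f hy) (hf x hx y hy hxy)) (h a ha b hb)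

theorem Conn.union {G : Cx V} {A B : Set V} (hA : Conn G A) (hB : Conn G B) {a b : V}
    (ha : a ∈ A) (hb : b ∈ B) (hab : G.r a b) : Conn G (A ∪ B) := by
  refine conn_of_base b fun x hx => ?_
  rcases hx with hx | hx
  · exact bas_trans (rch_mono Set.subset_union_left (hA x hx a ha))
      (rch_step (Or.inl ha) (Or.inr hb) hab)
  · exact rch_mono Set.subset_union_right (hB x hx b hb)

/-- Every point of `S` is joined inside `S` to the connected subset `A`. -/
theorem Conn.of_sub {G : Cx V} {A S : Set V} (hA : Conn G A) (hAS : A ⊆ S)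
    (h : ∀ x ∈ S, ∃ a ∈ A, Rch G S x a) : Conn G S := by
  intro x hx y hy
  obtain ⟨a, ha, hxa⟩ := h x hx
  obtain ⟨b, hb, hyb⟩ := h y hy
  exact bas_trans (bas_trans hxa (rch_mono hAS (hA a ha b hb))) (rch_symm hyb)

theorem bas_cls {G : Cx V} {S : Set V} {a b : V} :
    {x | Rch G S a x} = {x | Rch G S b x} ↔ Rch G S a b := by
  constructor
  · intro h
    have : b ∈ {x | Rch G S b x} := bas_refl _ _ _
    rw [← h] at this
    exact this
  · intro h
    ext x
    exact ⟨fun h1 => bas_trans (rch_symm h) h1, fun h1 => bas_trans h h1⟩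

theorem bas_roots (G : Cx V) (S : Set V) : ∃ R ⊆ S, R.ncard = kc G S ∧
    (∀ a ∈ S, ∃ x ∈ R, Rch G S a x) ∧ ∀ x ∈ R, ∀ y ∈ R, Rch G S x y → x = y := by
  obtain ⟨R, hR, hb⟩ := Set.exists_subset_bijOn S (fun a => {b | Rch G S a b})
  refine ⟨R, hR, ?_, fun a ha => ?_, fun x hx y hy hxy => hb.injOn hx hy (bas_cls.2 hxy)⟩
  · rw [kc, ← hb.image_eq, hb.injOn.ncard_image]
  · obtain ⟨x, hx, h⟩ := hb.surjOn (Set.mem_image_of_mem _ ha)
    exact ⟨x, hx, bas_cls.1 h.symm⟩

theorem bas_le_one [Fintype V] {G : Cx V} {S : Set V} : kc G S ≤ 1 ↔ Conn G S := by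
  rw [kc, Set.ncard_le_one (Set.toFinite _)]
  constructor
  · intro h a ha b hb
    exact bas_cls.1 (h _ (Set.mem_image_of_mem _ ha) _ (Set.mem_image_of_mem _ hb))
  · rintro h _ ⟨a, ha, rfl⟩ _ ⟨b, hb, rfl⟩
    exact bas_cls.2 (h a ha b hb)

theorem bas_pos [Fintype V] {G : Cx V} {S : Set V} : 0 < kc G S ↔ S.Nonempty := by
  rw [kc, Set.ncard_pos (Set.toFinite _), Set.image_nonempty]

theorem kc_empty (G : Cx V) : kc G ∅ = 0 := by
  simp [kc]

theorem kc_eq_one [Fintype V] {G : Cx V} {S : Set V} : kc G S = 1 ↔ S.Nonempty ∧ Conn G S := by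
  rw [← bas_le_one, ← bas_pos (G := G)]
  omega

theorem kc_pos [Fintype V] {G : Cx V} {S : Set V} (h : S.Nonempty) : 0 < kc G S := by
  exact bas_pos.2 h

theorem kc_le_one [Fintype V] {G : Cx V} {S : Set V} : kc G S ≤ 1 ↔ Conn G S := by
  exact bas_le_one

theorem kc_union_le [Fintype V] (G : Cx V) (A B : Set V) : kc G (A ∪ B) ≤ kc G A + kc G B := by
  obtain ⟨R, -, hR, hR1, -⟩ := bas_roots G A
  obtain ⟨T, -, hT, hT1, -⟩ := bas_roots G B
  rw [← hR, ← hT]
  refine le_trans ?_ (Set.ncard_union_le R T)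
  refine le_trans ?_ (Set.ncard_image_le (f := fun a => {b | Rch G (A ∪ B) a b}) (Set.toFinite _))
  refine Set.ncard_le_ncard ?_ (Set.toFinite _)
  rintro _ ⟨a, ha | ha, rfl⟩
  · obtain ⟨x, hx, h⟩ := hR1 a ha
    exact ⟨x, Or.inl hx, (bas_cls.2 (rch_mono Set.subset_union_left h)).symm⟩
  · obtain ⟨x, hx, h⟩ := hT1 a ha
    exact ⟨x, Or.inr hx, (bas_cls.2 (rch_mono Set.subset_union_right h)).symm⟩

theorem bas_sep {G : Cx V} {A B : Set V} (h : Sep G A B) {a : V} (ha : a ∈ A) :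
    {x | Rch G (A ∪ B) a x} = {x | Rch G A a x} := by
  ext x
  refine ⟨fun h1 => ?_, fun h1 => rch_mono Set.subset_union_left h1⟩
  replace h1 : Rch G (A ∪ B) a x := h1
  show Rch G A a x
  induction h1 with
  | refl => exact bas_refl _ _ _
  | tail _ hbc ih =>
    have hb := rch_mem ih ha
    rcases hbc.2.1 with hc | hc
    · exact bas_trans ih (rch_step hb hc hbc.2.2)
    · exact absurd hbc.2.2 (h _ hb _ hc)

theorem kc_union [Fintype V] {G : Cx V} {A B : Set V} (h : Sep G A B) :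
    kc G (A ∪ B) = kc G A + kc G B := by
  have h' : Sep G B A := fun b hb a ha hr => h a ha b hb (G.symm _ _ hr)
  have e1 : (fun a => {b | Rch G (A ∪ B) a b}) '' A = (fun a => {b | Rch G A a b}) '' A :=
    Set.image_congr fun a ha => bas_sep h ha
  have e2 : (fun a => {b | Rch G (A ∪ B) a b}) '' B = (fun a => {b | Rch G B a b}) '' B :=
    Set.image_congr fun a ha => by rw [Set.union_comm]; exact bas_sep h' ha
  rw [kc, kc, kc, Set.image_union, e1, e2]
  refine Set.ncard_union_eq ?_ (Set.toFinite _) (Set.toFinite _)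
  rw [Set.disjoint_left]
  rintro _ ⟨a, ha, rfl⟩ ⟨b, hb, hab⟩
  have h1 : a ∈ {x | Rch G B b x} := by
    have hab : {x | Rch G B b x} = {x | Rch G A a x} := hab
    rw [hab]
    exact bas_refl _ _ _
  exact h a ha a (rch_mem h1 hb) (G.refl a)

theorem kc_eq_of_map [Fintype V] [Fintype V'] {G' : Cx V'} {G : Cx V} {S' : Set V'} {S : Set V}
    (f : V' → V) (hm : ∀ a ∈ S', f a ∈ S) (hs : ∀ b ∈ S, ∃ a ∈ S', Rch G S (f a) b)
    (hr : ∀ a ∈ S', ∀ b ∈ S', Rch G' S' a b ↔ Rch G S (f a) (f b)) : kc G' S' = kc G S := by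
  obtain ⟨R, hRS, hR, hR1, hR2⟩ := bas_roots G' S'
  have hi : Set.InjOn (fun a => {b | Rch G S (f a) b}) R := fun x hx y hy hxy =>
    hR2 x hx y hy ((hr x (hRS hx) y (hRS hy)).2 (bas_cls.1 hxy))
  rw [← hR, ← hi.ncard_image, kc]
  congr 1
  ext X
  constructor
  · rintro ⟨x, hx, rfl⟩
    exact ⟨f x, hm x (hRS hx), rfl⟩
  · rintro ⟨b, hb, rfl⟩
    obtain ⟨a, ha, hab⟩ := hs b hb
    obtain ⟨x, hx, hax⟩ := hR1 a ha
    exact ⟨x, hx, bas_cls.2 (bas_trans (rch_symm ((hr a ha x (hRS hx)).1 hax)) hab)⟩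

theorem exists_roots [Fintype V] (G : Cx V) (S : Set V) : ∃ R ⊆ S, R.ncard = kc G S ∧
    (∀ a ∈ S, ∃ x ∈ R, Rch G S a x) ∧ ∀ x ∈ R, ∀ y ∈ R, Rch G S x y → x = y := by
  exact bas_roots G S

/-- Reaching `R` in a given number of steps. -/
def basP (G : Cx V) (S R : Set V) : ℕ → V → Prop
  | 0, v => v ∈ R
  | n + 1, v => ∃ w ∈ S, G.r v w ∧ basP G S R n w

theorem bas_P {G : Cx V} {S R : Set V} {a x : V} (h : Rch G S a x) (hx : x ∈ R) :
    ∃ n, basP G S R n a := by
  induction h using Relation.ReflTransGen.head_induction_on with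
  | refl => exact ⟨0, hx⟩
  | head hab _ ih =>
    obtain ⟨n, hn⟩ := ih
    exact ⟨n + 1, _, hab.2.1, hab.2.2, hn⟩

theorem exists_forest {G : Cx V} {S R : Set V} (h : ∀ a ∈ S, ∃ x ∈ R, Rch G S a x) :
    ∃ p, Forest G S (S \ R) p := by
  have key : ∀ v, ∃ w, v ∈ S \ R → w ∈ S ∧ G.r v w ∧
      sInf {n | basP G S R n w} < sInf {n | basP G S R n v} := by
    intro v
    by_cases hv : v ∈ S \ R
    · obtain ⟨x, hx, hvx⟩ := h v hv.1
      have h1 : basP G S R (sInf {n | basP G S R n v}) v :=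
        Nat.sInf_mem (s := {n | basP G S R n v}) (bas_P hvx hx)
      generalize sInf {n | basP G S R n v} = m at h1
      cases m with
      | zero => exact absurd h1 hv.2
      | succ m =>
        obtain ⟨w, hw, hvw, hm⟩ := h1
        exact ⟨w, fun _ => ⟨hw, hvw, Nat.lt_succ_of_le (Nat.sInf_le hm)⟩⟩
    · exact ⟨v, fun h1 => absurd h1 hv⟩
  choose p hp using key
  exact ⟨p, fun v => sInf {n | basP G S R n v}, fun v hv =>
    ⟨(hp v hv).1, (hp v hv).2.1, fun _ => (hp v hv).2.2⟩⟩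

/-- Induction from the roots of a forest. -/
theorem Forest.ind {G : Cx V} {S B : Set V} {p : V → V} (h : Forest G S B p) {Q : V → Prop}
    (h0 : ∀ v ∈ S, v ∉ B → Q v) (h1 : ∀ v ∈ B, Q (p v) → Q v) : ∀ v, v ∈ S ∨ v ∈ B → Q v := by
  obtain ⟨rk, hrk⟩ := h
  have key : ∀ n v, rk v = n → v ∈ B → Q v := by
    intro n
    induction n using Nat.strong_induction_on with
    | _ n ih =>
      intro v hn hv
      refine h1 v hv ?_
      by_cases hp : p v ∈ B
      · exact ih _ (hn ▸ (hrk v hv).2.2 hp) _ rfl hp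
      · exact h0 _ (hrk v hv).1 hp
  intro v hv
  by_cases hb : v ∈ B
  · exact key _ v rfl hb
  · exact h0 v (hv.resolve_right hb) hb

/-- Recursion along a forest. -/
def basRec {α : Type} (B : Set V) (p : V → V) (rk : V → ℕ) (g : V → α) (u : V → α → α)
    (v : V) : α :=
  if v ∈ B then (if p v ∈ B ∧ rk (p v) < rk v then u v (basRec B p rk g u (p v))
    else u v (g (p v))) else g v
termination_by rk v
decreasing_by
  rename_i h
  exact h.2

/-- A function with prescribed values off `B` and a prescribed recursion along the forest. -/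
theorem Forest.rec_fun {G : Cx V} {S B : Set V} {p : V → V} (h : Forest G S B p) {α : Type}
    (g : V → α) (u : V → α → α) :
    ∃ f : V → α, (∀ v ∉ B, f v = g v) ∧ ∀ v ∈ B, f v = u v (f (p v)) := by
  obtain ⟨rk, hrk⟩ := h
  have h0 : ∀ v ∉ B, basRec B p rk g u v = g v := fun v hv => by
    rw [basRec, if_neg hv]
  refine ⟨basRec B p rk g u, h0, fun v hv => ?_⟩
  by_cases hp : p v ∈ B
  · conv_lhs => rw [basRec, if_pos hv, if_pos ⟨hp, (hrk v hv).2.2 hp⟩]
  · conv_lhs => rw [basRec, if_pos hv, if_neg fun h => hp h.1]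
    rw [h0 _ hp]

/-- Locally constant functions on `S`, extended by zero. -/
def LC (G : Cx V) (S : Set V) : Submodule (ZMod 2) (V → ZMod 2) where
  carrier := {f | (∀ a ∈ S, ∀ b ∈ S, G.r a b → f a = f b) ∧ ∀ a ∉ S, f a = 0}
  add_mem' := fun hf hg => ⟨fun a ha b hb h => by
    simp only [Pi.add_apply, hf.1 a ha b hb h, hg.1 a ha b hb h], fun a ha => by
    simp only [Pi.add_apply, hf.2 a ha, hg.2 a ha, add_zero]⟩
  zero_mem' := ⟨fun _ _ _ _ _ => rfl, fun _ _ => rfl⟩
  smul_mem' := fun r f hf => ⟨fun a ha b hb h => by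
    simp only [Pi.smul_apply, hf.1 a ha b hb h], fun a ha => by
    simp only [Pi.smul_apply, hf.2 a ha, smul_zero]⟩

theorem lc_finrank [Fintype V] (G : Cx V) (S : Set V) :
    Module.finrank (ZMod 2) (LC G S) = kc G S := by
  obtain ⟨R, hRS, hR, hR1, hR2⟩ := bas_roots G S
  let res : LC G S →ₗ[ZMod 2] (R → ZMod 2) :=
    { toFun := fun f x => f.1 x.1
      map_add' := fun _ _ => rfl
      map_smul' := fun _ _ => rfl }
  have hinj : Function.Injective res := by
    intro f g hfg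
    ext a
    by_cases ha : a ∈ S
    · obtain ⟨x, hx, hax⟩ := hR1 a ha
      rw [rch_const f.2.1 hax, rch_const g.2.1 hax]
      exact congrFun hfg ⟨x, hx⟩
    · rw [f.2.2 a ha, g.2.2 a ha]
  have hsur : Function.Surjective res := by
    intro g
    choose rt hrt hrt' using hR1
    refine ⟨⟨fun a => if ha : a ∈ S then g ⟨rt a ha, hrt a ha⟩ else 0, fun a ha b hb hab => ?_,
      fun a ha => dif_neg ha⟩, ?_⟩
    · have : rt a ha = rt b hb := hR2 _ (hrt a ha) _ (hrt b hb)
        (bas_trans (bas_trans (rch_symm (hrt' a ha)) (rch_step ha hb hab)) (hrt' b hb))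
      simp only [dif_pos ha, dif_pos hb, this]
    · funext x
      have hx : x.1 ∈ S := hRS x.2
      have : rt x.1 hx = x.1 := (hR2 _ x.2 _ (hrt _ hx) (hrt' _ hx)).symm
      show (if ha : x.1 ∈ S then g ⟨rt x.1 ha, hrt x.1 ha⟩ else 0) = g x
      simp only [dif_pos hx, this]
  rw [(LinearEquiv.ofBijective res ⟨hinj, hsur⟩).finrank_eq, Module.finrank_fintype_fun_eq_card,
    ← hR, ← Nat.card_coe_set_eq, Nat.card_eq_fintype_card]

theorem Cl.mono {G : Cx V} {A A' : V → V → Prop} (h : ∀ a b, A a b → Cl G A' a b) {a b : V}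
    (hc : Cl G A a b) : Cl G A' a b := by
  induction hc with
  | base h1 => exact h _ _ h1
  | refl a => exact Cl.refl a
  | symm _ ih => exact ih.symm
  | tri h1 h2 h3 _ _ ih1 ih2 => exact Cl.tri h1 h2 h3 ih1 ih2

/-- Both ends of a proper closure edge lie in any set that contains the ends of the `A` edges. -/
theorem Cl.mem {G : Cx V} {A : V → V → Prop} {S : Set V} (h : ∀ a b, A a b → a ∈ S ∧ b ∈ S)
    {a b : V} (hc : Cl G A a b) : a = b ∨ (a ∈ S ∧ b ∈ S) := by
  induction hc with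
  | base h1 => exact Or.inr (h _ _ h1)
  | refl a => exact Or.inl rfl
  | symm _ ih => exact ih.elim (fun e => Or.inl e.symm) fun e => Or.inr e.symm
  | tri _ _ _ _ _ ih1 ih2 =>
    rcases ih1 with rfl | ih1
    · exact ih2
    · rcases ih2 with rfl | ih2
      · exact Or.inr ih1
      · exact Or.inr ⟨ih1.1, ih2.2⟩

theorem Cl.const {G : Cx V} {A : V → V → Prop} {α : Type} {f : V → α}
    (h : ∀ a b, A a b → f a = f b) {a b : V} (hc : Cl G A a b) : f a = f b := by
  induction hc with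
  | base h1 => exact h _ _ h1
  | refl a => rfl
  | symm _ ih => exact ih.symm
  | tri _ _ _ _ _ ih1 ih2 => exact ih1.trans ih2

/-- If the edges inside the connected set `S` of neighbours of `v` and one edge from `v` to `S`
are closure edges, so are all edges from `v` to `S`. -/
theorem Cl.fan {G : Cx V} {A : V → V → Prop} {S : Set V} {v w : V} (hv : ∀ x ∈ S, G.r v x)
    (hS : ∀ x ∈ S, ∀ y ∈ S, G.r x y → Cl G A x y) (hw : w ∈ S) (h0 : Cl G A v w) {x : V}
    (hx : Rch G S w x) : Cl G A v x := by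
  induction hx with
  | refl => exact h0
  | tail _ hbc ih =>
    exact Cl.tri (hv _ hbc.1) hbc.2.2 (hv _ hbc.2.1) ih (hS _ hbc.1 _ hbc.2.1 hbc.2.2)

theorem Col.cl {G : Cx V} {A : V → V → Prop} {c : V → V → Bool} (hc : Col G A c) {a b : V}
    (h : Cl G A a b) : c a b = false := by
  induction h with
  | base h1 => exact Bool.eq_false_iff.2 fun h2 => (hc.supp _ _ h2).2.2 h1
  | refl a => exact Bool.eq_false_iff.2 fun h2 => (hc.supp _ _ h2).2.1 rfl
  | symm _ ih => rw [hc.symm, ih]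
  | tri h1 h2 h3 _ _ ih1 ih2 => exact hc.tri _ _ _ h1 h2 h3 ih1 ih2

theorem bas_col {G : Cx V} {A A' : V → V → Prop} (h' : ∀ a b, G.r a b → A' a b → Cl G A a b)
    {c : V → V → Bool} (hc : Col G A c) : Col G A' c :=
  ⟨hc.symm, fun a b hab => ⟨(hc.supp a b hab).1, (hc.supp a b hab).2.1, fun h1 => by
    have := hc.cl (h' a b (hc.supp a b hab).1 h1)
    rw [hab] at this
    exact absurd this (by decide)⟩, hc.tri⟩

theorem SS_congr [Fintype V] {G : Cx V} {A A' : V → V → Prop}
    (h : ∀ a b, G.r a b → A a b → Cl G A' a b) (h' : ∀ a b, G.r a b → A' a b → Cl G A a b) :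
    SS G A = SS G A' := by
  refine Finset.sum_congr rfl fun c _ => ?_
  exact if_congr ⟨bas_col h', bas_col h⟩ rfl rfl

theorem Flat.self {H : Type} [Group H] {G : Cx V} {U : Set V} {η : V → V → H} (h : Flat G U η)
    {a : V} (ha : a ∈ U) : η a a = 1 := by
  exact mul_eq_left.1 (h a ha a ha a ha (G.refl a) (G.refl a) (G.refl a))

theorem Flat.inv {H : Type} [Group H] {G : Cx V} {U : Set V} {η : V → V → H} (h : Flat G U η)
    {a b : V} (ha : a ∈ U) (hb : b ∈ U) (hab : G.r a b) : η b a = (η a b)⁻¹ := by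
  have := h a ha b hb a ha hab (G.symm _ _ hab) (G.refl a)
  rw [h.self ha] at this
  exact eq_inv_of_mul_eq_one_right this

theorem Flat.gauge {H : Type} [Group H] {G : Cx V} {U : Set V} {η : V → V → H} (h : Flat G U η)
    (β : V → H) : Flat G U fun a b => β a * η a b * (β b)⁻¹ := by
  intro a ha b hb c hc hab hbc hac
  show β a * η a b * (β b)⁻¹ * (β b * η b c * (β c)⁻¹) = β a * η a c * (β c)⁻¹
  rw [← h a ha b hb c hc hab hbc hac]
  group

theorem Flat.cl {H : Type} [Group H] {G : Cx V} {U : Set V} {η : V → V → H} (h : Flat G U η)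
    {A : V → V → Prop} (hA : ∀ a b, A a b → a ∈ U ∧ b ∈ U ∧ (G.r a b → η a b = 1)) {a b : V}
    (hc : Cl G A a b) (ha : a ∈ U) (hab : G.r a b) : η a b = 1 := by
  have hm : ∀ {x y}, Cl G A x y → x = y ∨ (x ∈ U ∧ y ∈ U) := fun hxy =>
    Cl.mem (fun a b h1 => ⟨(hA a b h1).1, (hA a b h1).2.1⟩) hxy
  induction hc with
  | base h1 => exact (hA _ _ h1).2.2 hab
  | refl a => exact h.self ha
  | symm h1 ih =>
    rcases hm h1 with rfl | h2
    · exact h.self ha
    · rw [h.inv h2.1 h2.2 (G.symm _ _ hab), ih h2.1 (G.symm _ _ hab), inv_one]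
  | tri h1 h2 h3 c1 c2 ih1 ih2 =>
    have hb := (hm c1).elim (fun e => e ▸ ha) fun e => e.2
    have hd := (hm c2).elim (fun e => e ▸ hb) fun e => e.2
    rw [← h _ ha _ hb _ hd h1 h2 h3, ih1 ha h1, ih2 hb h2, one_mul]

theorem Coc.self {G : Cx V} {U : Set V} {η : V → V → ZMod 2} (h : Coc G U η) {a : V}
    (ha : a ∈ U) : η a a = 0 := by
  exact add_eq_left.1 (h a ha a ha a ha (G.refl a) (G.refl a) (G.refl a))

theorem Coc.symm {G : Cx V} {U : Set V} {η : V → V → ZMod 2} (h : Coc G U η) {a b : V}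
    (ha : a ∈ U) (hb : b ∈ U) (hab : G.r a b) : η b a = η a b := by
  have := h a ha b hb a ha hab (G.symm _ _ hab) (G.refl a)
  rw [h.self ha] at this
  revert this
  generalize η a b = x
  generalize η b a = y
  revert x y
  decide

theorem coc_iff_flat {G : Cx V} {U : Set V} {η : V → V → ZMod 2} :
    Coc G U η ↔ Flat G U fun a b => Multiplicative.ofAdd (η a b) := by
  exact Iff.rfl

/-- The exponent sum of a generator modulo two. -/
def basE {g : ℕ} (i : Fin g) : FreeGroup (Fin g) →* Multiplicative (ZMod 2) :=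
  FreeGroup.lift fun j => Multiplicative.ofAdd (if i = j then 1 else 0)

theorem bas_E {g : ℕ} (θ : FreeGroup (Fin g) →* Multiplicative (ZMod 2)) (w : FreeGroup (Fin g)) :
    (θ w).toAdd = ∑ i, (θ (FreeGroup.of i)).toAdd * (basE i w).toAdd := by
  induction w using FreeGroup.induction_on with
  | C1 => simp
  | of j => simp [basE]
  | inv_of j ih => simp only [map_inv, toAdd_inv, ih, mul_neg, Finset.sum_neg_distrib]
  | mul x y hx hy => simp only [map_mul, toAdd_mul, hx, hy, mul_add, Finset.sum_add_distrib]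

theorem Free.b1le {G : Cx V} {U : Set V} {g : ℕ} (h : Free G U g) : B1le G U g := by
  obtain ⟨l, -, hl⟩ := h
  refine ⟨fun i a b => (basE i (l a b)).toAdd, fun η hη => ?_⟩
  obtain ⟨θ, β, hβ⟩ := hl (Multiplicative (ZMod 2)) _ (coc_iff_flat.1 hη)
  refine ⟨fun i => (θ (FreeGroup.of i)).toAdd, fun a => (β a).toAdd, fun a ha b hb hab => ?_⟩
  have h1 := congrArg Multiplicative.toAdd (hβ a ha b hb hab)
  simp only [toAdd_ofAdd, toAdd_mul, toAdd_inv] at h1
  show η a b + ∑ i, (θ (FreeGroup.of i)).toAdd * (basE i (l a b)).toAdd =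
    (β a).toAdd + (β b).toAdd
  rw [← bas_E, h1]
  generalize (β a).toAdd = x
  generalize (β b).toAdd = y
  generalize (θ (l a b)).toAdd = z
  revert x y z
  decide

theorem H1.union {G : Cx V} {A B : Set V} (hA : H1 G A) (hB : H1 G B) (hc : Conn G (A ∩ B))
    (h : ∀ a ∈ A ∪ B, ∀ b ∈ A ∪ B, G.r a b → (a ∈ A ∧ b ∈ A) ∨ (a ∈ B ∧ b ∈ B)) :
    H1 G (A ∪ B) := by
  intro η hη
  obtain ⟨f, hf⟩ := hA η fun a ha b hb c hc => hη a (Or.inl ha) b (Or.inl hb) c (Or.inl hc)
  obtain ⟨g, hg⟩ := hB η fun a ha b hb c hc => hη a (Or.inr ha) b (Or.inr hb) c (Or.inr hc)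
  have z1 : ∀ x y z w : ZMod 2, x + y = z + w → x + z = y + w := by decide
  have z2 : ∀ x y k : ZMod 2, x + y = k → x = y + k := by decide
  have z3 : ∀ x y k : ZMod 2, x + y = x + k + (y + k) := by decide
  obtain ⟨k, hk⟩ : ∃ k, ∀ a ∈ A ∩ B, f a + g a = k := by
    rcases (A ∩ B).eq_empty_or_nonempty with he | ⟨x, hx⟩
    · exact ⟨0, fun a ha => by rw [he] at ha; exact ha.elim⟩
    · refine ⟨f x + g x, fun a ha => ?_⟩
      refine rch_const (f := fun a => f a + g a) (fun a ha b hb hab => ?_) (hc a ha x hx)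
      exact z1 _ _ _ _ ((hf a ha.1 b hb.1 hab).symm.trans (hg a ha.2 b hb.2 hab))
  have hB' : ∀ a ∈ B, (if a ∈ A then f a else g a + k) = g a + k := fun a ha => by
    split_ifs with h1
    · exact z2 _ _ _ (hk a ⟨h1, ha⟩)
    · rfl
  refine ⟨fun a => if a ∈ A then f a else g a + k, fun a ha b hb hab => ?_⟩
  rcases h a ha b hb hab with h1 | h1
  · simp only [if_pos h1.1, if_pos h1.2]
    exact hf a h1.1 b h1.2 hab
  · simp only [hB' a h1.1, hB' b h1.2]
    rw [hg a h1.1 b h1.2 hab]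
    exact z3 _ _ _

/-- A union of components. -/
theorem H1.comp {G : Cx V} {S T : Set V} (h : H1 G S) (hT : T ⊆ S) (hs : Sep G T (S \ T)) :
    H1 G T := by
  intro η hη
  have hi : ∀ a ∈ S, ∀ b ∈ S, G.r a b → (a ∈ T ↔ b ∈ T) := fun a ha b hb hab =>
    ⟨fun h1 => by_contra fun h2 => hs a h1 b ⟨hb, h2⟩ hab,
      fun h1 => by_contra fun h2 => hs b h1 a ⟨ha, h2⟩ (G.symm _ _ hab)⟩
  obtain ⟨f, hf⟩ := h (fun a b => if a ∈ T then η a b else 0) fun a ha b hb c hc hab hbc hac => by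
    by_cases h1 : a ∈ T
    · have h2 := (hi a ha b hb hab).1 h1
      simp only [if_pos h1, if_pos h2]
      exact hη a h1 b h2 c ((hi a ha c hc hac).1 h1) hab hbc hac
    · have h2 : b ∉ T := fun h2 => h1 ((hi a ha b hb hab).2 h2)
      simp only [if_neg h1, if_neg h2, add_zero]
  refine ⟨f, fun a ha b hb hab => ?_⟩
  have := hf a (hT ha) b (hT hb) hab
  simp only [if_pos ha] at this
  exact this

theorem bas_meets {s : Finset V} {U U' : Set V} (hU : U' ⊆ U) (h : Meets s U') : Meets s U :=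
  h.imp fun _ ha => ⟨ha.1, hU ha.2⟩

theorem PMan.mono {G : Cx V} {U U' : Set V} (h : PMan G U) (hU : U' ⊆ U) : PMan G U' := by
  exact ⟨fun s hs hm => h.dim s hs (bas_meets hU hm), fun s hs hm => h.tri s hs (bas_meets hU hm),
    fun s hs hm => h.con s hs (bas_meets hU hm)⟩

theorem Man.mono [Fintype V] {G : Cx V} {U U' : Set V} (h : Man G U) (hU : U' ⊆ U) :
    Man G U' := by
  exact ⟨h.toPMan.mono hU, fun v hv => h.sph v (hU hv)⟩

theorem bas_lk (G : Cx V) (s : Finset V) (v : V) :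
    lk G s ∩ lk G {v} = lk G (insert v s) := by
  ext w
  simp only [lk, Set.mem_inter_iff, Set.mem_ofPred_eq, Finset.mem_singleton, Finset.mem_insert,
    forall_eq, forall_eq_or_imp, not_or]
  tauto

theorem bas_ins {G : Cx V} {s : Finset V} {v : V} (hs : Clq G s) (hi : Ins s (lk G {v})) :
    Clq G (insert v s) ∧ (insert v s).card = s.card + 1 := by
  have h1 : ∀ a ∈ s, G.r a v := fun a ha => (hi a ha).2 v (Finset.mem_singleton_self v)
  refine ⟨⟨Finset.insert_nonempty _ _, fun a ha b hb => ?_⟩,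
    Finset.card_insert_of_notMem fun hv => (hi v hv).1 (Finset.mem_singleton_self v)⟩
  rcases Finset.mem_insert.1 ha with e | ha <;> rcases Finset.mem_insert.1 hb with e' | hb
  · rw [e, e']
    exact G.refl _
  · rw [e]
    exact G.symm _ _ (h1 b hb)
  · rw [e']
    exact h1 a ha
  · exact hs.2 a ha b hb

theorem PMan.surf {G : Cx V} {U : Set V} (h : PMan G U) {v : V} (hv : v ∈ U) :
    Surf G (lk G {v}) := by
  have hm : ∀ s : Finset V, Meets (insert v s) U := fun s => ⟨v, Finset.mem_insert_self _ _, hv⟩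
  refine ⟨fun s hs hi => ?_, fun s hs hi hc => ?_, fun w hw => ?_⟩
  · have := h.dim _ (bas_ins hs hi).1 (hm s)
    rw [(bas_ins hs hi).2] at this
    omega
  · rw [bas_lk]
    exact h.tri _ (bas_ins hs hi).1 (hm s) (by rw [(bas_ins hs hi).2, hc])
  · have hs : Clq G {w} := ⟨Finset.singleton_nonempty w, fun a ha b hb => by
      rw [Finset.mem_singleton.1 ha, Finset.mem_singleton.1 hb]; exact G.refl w⟩
    have hi : Ins {w} (lk G {v}) := fun a ha => by rw [Finset.mem_singleton.1 ha]; exact hw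
    rw [bas_lk]
    exact h.con _ (bas_ins hs hi).1 (hm _) (by rw [(bas_ins hs hi).2, Finset.card_singleton])

theorem Surf.thin {G : Cx V} {S : Set V} (h : Surf G S) {T : Set V} (hT : T ⊆ S) : Thin G T := by
  refine ⟨fun s hs hi => h.dim s hs fun a ha => hT (hi a ha), fun s hs hi hc => ?_⟩
  have h2 := h.edg s hs (fun a ha => hT (hi a ha)) hc
  rw [← h2]
  exact Set.ncard_le_ncard (Set.inter_subset_inter_right _ hT)
    (Set.finite_of_ncard_ne_zero (by omega))

theorem ph_pos : 0 < ph := by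
  exact Real.goldenRatio_pos

theorem ph_sq : ph ^ 2 = ph + 1 := by
  exact Real.goldenRatio_sq

theorem ph_inv : ph⁻¹ = ph - 1 := by
  refine inv_eq_of_mul_eq_one_right ?_
  have := ph_sq
  linear_combination this

theorem one_lt_D2 : 1 < D2 := by
  have := ph_pos
  unfold D2
  linarith

theorem tv_univ [Fintype V] (G : Cx V) : tv G Set.univ = 1 := by
  rw [tv, Set.compl_univ, Set.ncard_empty, pow_zero, div_one, SS,
    Finset.sum_eq_single (fun _ _ => false)]
  · rw [if_pos ⟨fun _ _ => rfl, fun _ _ h => absurd h (by decide), fun _ _ _ _ _ _ _ _ => rfl⟩]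
    refine Finset.prod_eq_one fun s _ => ?_
    have : ¬ act (fun _ _ => false) s := fun ⟨_, _, _, _, h⟩ => Bool.false_ne_true h
    simp only [w1, if_neg this, ite_self]
  · intro c _ hc
    refine if_neg fun h => hc ?_
    funext a b
    exact Bool.eq_false_iff.2 fun h1 => (h.supp a b h1).2.2 ⟨trivial, trivial⟩
  · intro h
    exact absurd (Finset.mem_univ _) h

end KG
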