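import Pool.Agent.Work.MP_c146e2_gt.KG.KL2
import Pool.Agent.Work.MP_c146e2_gt.KG.Bas

set_option autoImplicit false

noncomputable section

open scoped Classical

namespace KG

variable {V V' : Type}

open RankGenus

theorem kl3_box {N L : ℕ} {ty : ℤ → ℤ → CT} (hg : Grid N L ty) {c : ℤ × ℤ × ℤ}
    (h : onK ty c = true) : (0 ≤ c.1 ∧ c.1 ≤ 2 * N + 2) ∧ (0 ≤ c.2.1 ∧ c.2.1 ≤ 6) ∧
      (0 ≤ c.2.2 ∧ c.2.2 ≤ 2 * L + 2) := by
  have h1 := mt (hg.out (c.1 / 2) (c.2.2 / 2)) fun e => by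
    simp [onK, e, CT.lf, CT.rt, CT.up, CT.dn, CT.corner] at h
  have h2 : c.2.1 = 2 ∨ c.2.1 = 3 ∨ c.2.1 = 4 := by
    by_contra! k
    simp [onK, k] at h
  omega

theorem kl3_ee (ty : ℤ → ℤ → CT) (i y k : ℤ) : onK ty (2 * i, y, 2 * k) =
    ((y == 2 && ((ty i k).lf || (ty i k).rt)) || (y == 4 && ((ty i k).up || (ty i k).dn)) ||
      (y == 3 && (ty i k).corner)) := by simp [onK]

theorem kl3_eo (ty : ℤ → ℤ → CT) (i y k : ℤ) :
    onK ty (2 * i, y, 2 * k + 1) = (y == 4 && (ty i k).dn) := by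
  simp [onK, show (2 * k + 1) / 2 = k by omega]

theorem kl3_oe (ty : ℤ → ℤ → CT) (i y k : ℤ) :
    onK ty (2 * i + 1, y, 2 * k) = (y == 2 && (ty i k).rt) := by
  simp [onK, show (2 * i + 1) / 2 = i by omega]

theorem kl3_oo (ty : ℤ → ℤ → CT) (i y k : ℤ) : onK ty (2 * i + 1, y, 2 * k + 1) = false := by
  simp [onK]

theorem kl3_row {g : Kind × ℕ} {w : Word} {top : List Bool} {rows : List (List CT)}
    (h : Lay top (g :: w) rows) : ∃ i, (tyOf rows i 1).rt = true := by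
  cases h with
  | cons h _ =>
    have key : ∀ (A B : List CT) (t : CT) rows, tyOf ((A ++ t :: B) :: rows) (A.length + 1) 1 = t :=
      fun A B t rows => by simp [tyOf]
    cases h <;> exact ⟨_, congrArg _ (key ..)⟩

theorem grid_elab {N L : ℕ} {ty : ℤ → ℤ → CT} (hg : Grid N L ty) {f : Gr N L → Bool}
    (hf : ∀ a ∈ Kc N L ty, ∀ b ∈ Kc N L ty, (ord (Gr N L)).r a b → f a = f b) :
    ∃ v h, ELab boolSys ty v h ∧ ∀ x, (∀ i k, ((ty i k).dn = true → v i k = x) ∧
      ((ty i k).rt = true → h i k = x)) → ∀ a ∈ Kc N L ty, f a = x := by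
  obtain ⟨F, hF⟩ : ∃ F : ℤ × ℤ × ℤ → Bool, ∀ a : Gr N L, F a.1 = f a :=
    ⟨Function.extend Subtype.val f default, fun a => Subtype.val_injective.extend_apply f _ a⟩
  have st : ∀ c e, onK ty c = true → onK ty e = true → zle c.1 e.1 → zle c.2.1 e.2.1 →
      zle c.2.2 e.2.2 → F e = F c := fun c e hc he a b d =>
    (hF ⟨e, kl3_box hg he⟩).trans ((hf ⟨c, kl3_box hg hc⟩ hc _ he (.inl ⟨a, b, d⟩)).symm.trans
      (hF _).symm)
  have z0 := zle_refl
  have z1 : ∀ i, zle (2 * i) (2 * i + 1) := fun i => .inr ⟨even_two_mul i, .inl rfl⟩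
  have z2 : ∀ i, zle (2 * i) (2 * (i - 1) + 1) := fun i => .inr ⟨even_two_mul i, .inr (by ring)⟩
  have vt : ∀ i k, (ty i (k - 1)).dn = (ty i k).up := fun i k => by rw [hg.vert, sub_add_cancel]
  have hz : ∀ i k, (ty (i - 1) k).rt = (ty i k).lf := fun i k => by rw [hg.hor, sub_add_cancel]
  have D : ∀ i k, (ty i k).dn = true → F (2 * i, 4, 2 * k + 1) = F (2 * i, 4, 2 * k) :=
    fun i k h => st _ _ (by simp [kl3_ee, h]) (by simp [kl3_eo, h]) (z0 _) (z0 _) (z1 _)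
  have U : ∀ i k, (ty i k).up = true → F (2 * i, 4, 2 * (k - 1) + 1) = F (2 * i, 4, 2 * k) :=
    fun i k h => st _ _ (by simp [kl3_ee, h]) (by simp [kl3_eo, vt, h]) (z0 _) (z0 _) (z2 _)
  have R : ∀ i k, (ty i k).rt = true → F (2 * i + 1, 2, 2 * k) = F (2 * i, 2, 2 * k) :=
    fun i k h => st _ _ (by simp [kl3_ee, h]) (by simp [kl3_oe, h]) (z1 _) (z0 _) (z0 _)
  have Lf : ∀ i k, (ty i k).lf = true → F (2 * (i - 1) + 1, 2, 2 * k) = F (2 * i, 2, 2 * k) :=
    fun i k h => st _ _ (by simp [kl3_ee, h]) (by simp [kl3_oe, hz, h]) (z2 _) (z0 _) (z0 _)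
  have C : ∀ i k, (ty i k).corner = true → F (2 * i, 3, 2 * k) = F (2 * i, 2, 2 * k) ∧
      F (2 * i, 3, 2 * k) = F (2 * i, 4, 2 * k) := fun i k h => by
    have : ((ty i k).lf || (ty i k).rt) = true ∧ ((ty i k).up || (ty i k).dn) = true := by
      revert h
      cases ty i k <;> decide
    exact ⟨st _ _ (by simp [kl3_ee, this]) (by simp [kl3_ee, h]) (z0 _) (z1 1) (z0 _),
      st _ _ (by simp [kl3_ee, this]) (by simp [kl3_ee, h]) (z0 _) (z2 2) (z0 _)⟩
  refine ⟨fun i k => F (2 * i, 4, 2 * k + 1), fun i k => F (2 * i + 1, 2, 2 * k), ?_,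
    fun x hx ⟨⟨p, y, q⟩, ha⟩ hk => ?_⟩
  · have cc : ∀ i k, (ty i k).corner = true → F (2 * i, 4, 2 * k) = F (2 * i, 2, 2 * k) :=
      fun i k h => (C i k h).2.symm.trans (C i k h).1
    exact ⟨fun i k e => (U i k (congrArg CT.up e :)).trans (D i k (congrArg CT.dn e :)).symm,
      fun i k e => (Lf i k (congrArg CT.lf e :)).trans (R i k (congrArg CT.rt e :)).symm,
      fun i k e => ⟨(U i k (congrArg CT.up e :)).trans (D i k (congrArg CT.dn e :)).symm,
        (Lf i k (congrArg CT.lf e :)).trans (R i k (congrArg CT.rt e :)).symm,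
        (R i k (congrArg CT.rt e :)).trans (Lf i k (congrArg CT.lf e :)).symm⟩,
      fun i k e => (D i k (congrArg CT.dn e :)).trans
        ((cc i k (congrArg CT.corner e :)).trans (R i k (congrArg CT.rt e :)).symm),
      fun i k e => (D i k (congrArg CT.dn e :)).trans
        ((cc i k (congrArg CT.corner e :)).trans (Lf i k (congrArg CT.lf e :)).symm),
      fun i k e => (R i k (congrArg CT.rt e :)).trans
        ((cc i k (congrArg CT.corner e :)).symm.trans (U i k (congrArg CT.up e :)).symm),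
      fun i k e => (U i k (congrArg CT.up e :)).trans
        ((cc i k (congrArg CT.corner e :)).trans (Lf i k (congrArg CT.lf e :)).symm)⟩
  rw [← hF]
  change onK ty (p, y, q) = true at hk
  have v4 : ∀ i k, ((ty i k).up || (ty i k).dn) = true → F (2 * i, 4, 2 * k) = x := fun i k h =>
    (Bool.or_eq_true _ _ ▸ h :).elim (fun h => (U i k h).symm.trans ((hx _ _).1 (vt i k ▸ h)))
      fun h => (D i k h).symm.trans ((hx _ _).1 h)
  have h2 : ∀ i k, ((ty i k).lf || (ty i k).rt) = true → F (2 * i, 2, 2 * k) = x := fun i k h =>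
    (Bool.or_eq_true _ _ ▸ h :).elim (fun h => (Lf i k h).symm.trans ((hx _ _).2 (hz i k ▸ h)))
      fun h => (R i k h).symm.trans ((hx _ _).2 h)
  obtain ⟨i, rfl | rfl⟩ := p.even_or_odd' <;> obtain ⟨k, rfl | rfl⟩ := q.even_or_odd' <;>
    simp only [kl3_ee, kl3_eo, kl3_oe, kl3_oo, Bool.or_eq_true _ (_ && _), Bool.and_eq_true,
      beq_iff_eq, Bool.false_eq_true] at hk
  · rcases hk with (⟨rfl, h⟩ | ⟨rfl, h⟩) | ⟨rfl, h⟩
    exacts [h2 i k h, v4 i k h, (C i k h).1.trans (h2 i k (by revert h; cases ty i k <;> decide))]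
  · exact hk.1 ▸ (hx i k).1 hk.2
  · exact hk.1 ▸ (hx i k).2 hk.2

theorem lay_conn {T : Word} (hT : IsKnot T) {top : List Bool} {rows : List (List CT)}
    (hl : Lay top (close T) rows) (h0 : top.count true = 0) (hne : top ≠ []) :
    (Kc top.length rows.length (tyOf rows)).Nonempty ∧
      Conn (ord (Gr top.length rows.length)) (Kc top.length rows.length (tyOf rows)) := by
  have hg := hl.grid h0 hne (List.cons_ne_nil _ _)
  obtain ⟨i, hi⟩ := kl3_row hl
  have : onK (tyOf rows) (2 * i + 1, 2, 2 * 1) = true := by rw [kl3_oe, hi]; rfl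
  refine ⟨⟨⟨_, kl3_box hg this⟩, this⟩, conn_iff.2 fun f hf a ha b hb => ?_⟩
  obtain ⟨v, h, he, k⟩ := grid_elab hg hf
  obtain ⟨x, cs, M, hr, hP⟩ := lay_close (fun _ => rfl) hT hl h0 he
  have := k x (hP (· = x) ⟨fun _ hx => hx, fun _ _ _ hb => hb, fun _ _ ha _ => ha⟩ rfl
    fun c hc => ?_)
  · rw [this a ha, this b hb]
  cases x
  · exact hT.2 _ _ hr c hc
  · simpa using hT.2 _ _ (Run.map (S' := boolSys) (Sys.closed_true _) not (fun _ _ => rfl)
      (fun _ _ _ _ => rfl) (fun _ _ _ _ => rfl) hr (fun _ _ => trivial) fun _ _ => trivial) _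
      (List.mem_map_of_mem hc)

end KG
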