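import Pool.Agent.Work.MP_c146e2_gt.KG.Bas

set_option autoImplicit false

noncomputable section

open scoped Classical

namespace KG

variable {V : Type}

/-- The triangles of the full subcomplex on `S`. -/
def scTri (G : Cx V) (S : Set V) (t : Finset V) : Prop := Clq G t ∧ Ins t S ∧ t.card = 3

theorem sc_zmod (x : ZMod 2) : x = 0 ∨ x = 1 := by
  revert x; decide

theorem sc_add_self (x : ZMod 2) : x + x = 0 := by
  revert x; decide

theorem sc_pc {a b c : V} (hab : a ≠ b) (hbc : b ≠ c) (hac : a ≠ c) :
    Finset.powersetCard 2 ({a, b, c} : Finset V) = {{a, b}, {b, c}, {a, c}} := by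
  ext e
  simp only [Finset.mem_powersetCard, Finset.mem_insert, Finset.mem_singleton]
  constructor
  · rintro ⟨h1, h2⟩
    obtain ⟨x, y, hxy, rfl⟩ := Finset.card_eq_two.1 h2
    have hx := h1 (Finset.mem_insert_self x {y})
    have hy := h1 (Finset.mem_insert_of_mem (Finset.mem_singleton_self y))
    simp only [Finset.mem_insert, Finset.mem_singleton] at hx hy
    rcases hx with rfl | rfl | rfl <;> rcases hy with rfl | rfl | rfl <;>
      first
      | exact absurd rfl hxy
      | simp [Finset.pair_comm]
  · rintro (rfl | rfl | rfl)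
    · exact ⟨by intro x; simp; tauto, Finset.card_pair hab⟩
    · exact ⟨by intro x; simp; tauto, Finset.card_pair hbc⟩
    · exact ⟨by intro x; simp; tauto, Finset.card_pair hac⟩

theorem sc_sum3 {M : Type} [AddCommMonoid M] {a b c : V} (hab : a ≠ b) (hbc : b ≠ c)
    (hac : a ≠ c) (F : Finset V → M) :
    ∑ e ∈ Finset.powersetCard 2 ({a, b, c} : Finset V), F e = F {a, b} + F {b, c} + F {a, c} := by
  have h1 : ({a, b} : Finset V) ≠ {b, c} := by
    intro h
    have : a ∈ ({b, c} : Finset V) := h ▸ Finset.mem_insert_self a {b}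
    simp [hab, hac] at this
  have h2 : ({a, b} : Finset V) ≠ {a, c} := by
    intro h
    have : b ∈ ({a, c} : Finset V) := h ▸ Finset.mem_insert_of_mem (Finset.mem_singleton_self b)
    simp [hab.symm, hbc] at this
  have h3 : ({b, c} : Finset V) ≠ {a, c} := by
    intro h
    have : b ∈ ({a, c} : Finset V) := h ▸ Finset.mem_insert_self b {c}
    simp [hab.symm, hbc] at this
  rw [sc_pc hab hbc hac, Finset.sum_insert (by simp [h1, h2]), Finset.sum_pair h3, add_assoc]

theorem sc_tri_mk {G : Cx V} {S : Set V} {a b c : V} (ha : a ∈ S) (hb : b ∈ S) (hc : c ∈ S)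
    (hab : a ≠ b) (hbc : b ≠ c) (hac : a ≠ c) (r1 : G.r a b) (r2 : G.r b c) (r3 : G.r a c) :
    scTri G S {a, b, c} := by
  refine ⟨⟨⟨a, by simp⟩, ?_⟩, ?_, ?_⟩
  · intro x hx y hy
    simp only [Finset.mem_insert, Finset.mem_singleton] at hx hy
    rcases hx with rfl | rfl | rfl <;> rcases hy with rfl | rfl | rfl <;>
      first
      | exact G.refl _
      | assumption
      | exact G.symm _ _ (by assumption)
  · intro x hx
    simp only [Finset.mem_insert, Finset.mem_singleton] at hx
    rcases hx with rfl | rfl | rfl <;> assumption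
  · exact Finset.card_eq_three.2 ⟨a, b, c, hab, hac, hbc, rfl⟩

theorem sc_edge_mk {G : Cx V} {S : Set V} {a b : V} (ha : a ∈ S) (hb : b ∈ S) (r1 : G.r a b) :
    Clq G {a, b} ∧ Ins {a, b} S := by
  refine ⟨⟨⟨a, by simp⟩, ?_⟩, ?_⟩
  · intro x hx y hy
    simp only [Finset.mem_insert, Finset.mem_singleton] at hx hy
    rcases hx with rfl | rfl <;> rcases hy with rfl | rfl <;>
      first
      | exact G.refl _
      | assumption
      | exact G.symm _ _ (by assumption)
  · intro x hx
    simp only [Finset.mem_insert, Finset.mem_singleton] at hx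
    rcases hx with rfl | rfl <;> assumption

/-- A function on edges with zero sum around each triangle is a cocycle. -/
theorem sc_coc {G : Cx V} {S : Set V} (Φ : Finset V → ZMod 2)
    (h : ∀ t, scTri G S t → ∑ e ∈ Finset.powersetCard 2 t, Φ e = 0) :
    Coc G S fun a b => if a = b then 0 else Φ {a, b} := by
  intro a ha b hb c hc r1 r2 r3
  by_cases hab : a = b
  · subst hab; simp
  by_cases hbc : b = c
  · subst hbc; simp
  by_cases hac : a = c
  · subst hac
    simp only [if_neg hab, if_neg hbc, if_true]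
    rw [Finset.pair_comm b a]
    exact sc_add_self _
  simp only [if_neg hab, if_neg hbc, if_neg hac]
  have := h _ (sc_tri_mk ha hb hc hab hbc hac r1 r2 r3)
  rw [sc_sum3 hab hbc hac] at this
  have h2 := sc_add_self (Φ {a, c})
  linear_combination this - h2

theorem sc_sub_edge {G : Cx V} {S : Set V} {t e : Finset V} (ht : scTri G S t) (he : e ⊆ t)
    (h2 : e.card = 2) : Clq G e ∧ Ins e S :=
  ⟨⟨Finset.card_pos.1 (by omega), fun a ha b hb => ht.1.2 a (he ha) b (he hb)⟩,
    fun a ha => ht.2.1 a (he ha)⟩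

/-- The number of triangles on an edge. -/
theorem sc_tc [Fintype V] {G : Cx V} {S : Set V} {e : Finset V} (he : Clq G e) (hi : Ins e S)
    (h2 : e.card = 2) :
    (Finset.univ.filter fun t => scTri G S t ∧ e ⊆ t).card = (lk G e ∩ S).ncard := by
  rw [Set.ncard_eq_toFinset_card']
  symm
  refine Finset.card_bij (fun w _ => insert w e) ?_ ?_ ?_
  · intro w hw
    simp only [Set.mem_toFinset, Set.mem_inter_iff, lk, Set.mem_ofPred_eq] at hw
    simp only [Finset.mem_filter, Finset.mem_univ, true_and]
    refine ⟨⟨⟨⟨w, by simp⟩, ?_⟩, ?_, ?_⟩, Finset.subset_insert _ _⟩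
    · intro x hx y hy
      rcases Finset.mem_insert.1 hx with h | h <;> rcases Finset.mem_insert.1 hy with h' | h'
      · rw [h, h']; exact G.refl _
      · rw [h]; exact hw.1.2 _ h'
      · rw [h']; exact G.symm _ _ (hw.1.2 _ h)
      · exact he.2 _ h _ h'
    · intro x hx
      rcases Finset.mem_insert.1 hx with rfl | hx
      · exact hw.2
      · exact hi _ hx
    · rw [Finset.card_insert_of_notMem hw.1.1, h2]
  · intro w hw w' hw' h
    simp only [Set.mem_toFinset, Set.mem_inter_iff, lk, Set.mem_ofPred_eq] at hw hw'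
    have : w ∈ insert w' e := h ▸ Finset.mem_insert_self w e
    rcases Finset.mem_insert.1 this with h | h
    · exact h
    · exact absurd h hw.1.1
  · intro t ht
    simp only [Finset.mem_filter, Finset.mem_univ, true_and] at ht
    have hc : (t \ e).card = 1 := by rw [Finset.card_sdiff_of_subset ht.2, ht.1.2.2, h2]
    obtain ⟨w, hw⟩ := Finset.card_eq_one.1 hc
    have hw' : w ∈ t \ e := hw ▸ Finset.mem_singleton_self w
    rw [Finset.mem_sdiff] at hw'
    refine ⟨w, ?_, ?_⟩
    · simp only [Set.mem_toFinset, Set.mem_inter_iff, lk, Set.mem_ofPred_eq]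
      exact ⟨⟨hw'.2, fun a ha => ht.1.1.2 _ hw'.1 _ (ht.2 ha)⟩, ht.1.2.1 _ hw'.1⟩
    · rw [← Finset.sdiff_union_of_subset ht.2, hw]
      rfl

/-- Exchange of the two sums over triangles and their edges. -/
theorem sc_swap [Fintype V] {M : Type} [AddCommMonoid M] (T : Finset (Finset V))
    (F : Finset V → M) :
    ∑ t ∈ T, ∑ e ∈ Finset.powersetCard 2 t, F e =
      ∑ e ∈ Finset.univ.filter (fun e : Finset V => e.card = 2),
        (T.filter fun t => e ⊆ t).card • F e := by
  rw [Finset.sum_comm' (t' := Finset.univ.filter (fun e : Finset V => e.card = 2))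
    (s' := fun e => T.filter fun t => e ⊆ t)]
  · simp only [Finset.sum_const]
  · intro t e
    simp only [Finset.mem_powersetCard, Finset.mem_filter, Finset.mem_univ, true_and]
    tauto

theorem sc_ker {α β : Type} (N : Finset α) (T : Finset β) (I : β → Finset α)
    (h : T.card < N.card) : ∃ Φ : α → ZMod 2, (∀ e, e ∉ N → Φ e = 0) ∧ (∃ e ∈ N, Φ e ≠ 0) ∧
      ∀ t ∈ T, ∑ e ∈ I t, Φ e = 0 := by
  let ext : (N → ZMod 2) →ₗ[ZMod 2] (α → ZMod 2) :=
    { toFun := fun x e => if h : e ∈ N then x ⟨e, h⟩ else 0
      map_add' := fun x y => by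
        funext e
        by_cases h : e ∈ N <;> simp [h]
      map_smul' := fun r x => by
        funext e
        by_cases h : e ∈ N <;> simp [h] }
  let d : (α → ZMod 2) →ₗ[ZMod 2] (T → ZMod 2) :=
    { toFun := fun Φ t => ∑ e ∈ I t, Φ e
      map_add' := fun x y => by
        funext t
        simp [Finset.sum_add_distrib]
      map_smul' := fun r x => by
        funext t
        simp [Finset.mul_sum] }
  have : Fact (Nat.Prime 2) := ⟨Nat.prime_two⟩
  have hk := LinearMap.ker_ne_bot_of_finrank_lt (f := d ∘ₗ ext) (by simpa using h)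
  obtain ⟨x, hx, hx0⟩ := Submodule.exists_mem_ne_zero_of_ne_bot hk
  refine ⟨ext x, fun e he => by simp [ext, he], ?_, fun t ht => ?_⟩
  · by_contra hne
    push Not at hne
    apply hx0
    funext e
    have := hne e.1 e.2
    simpa [ext, e.2] using this
  · have := congrFun (LinearMap.mem_ker.1 hx) ⟨t, ht⟩
    simpa [d] using this

end KG
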