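import Pool.Agent.Work.MP_c146e2_gt.KG.Bas
import Pool.Agent.Work.MP_c146e2_gt.KG.SCa

set_option autoImplicit false

noncomputable section

open scoped Classical

namespace KG

variable {V V' : Type}

theorem sc_closed [Fintype V] {G : Cx V} {S : Set V} (ht : Thin G S) (h1 : H1 G S)
    {R : V → V → Prop} (hr : ∀ a, R a a) (hs : ∀ a b, R a b → R b a)
    (htri : ∀ a ∈ S, ∀ b ∈ S, ∀ d ∈ S, G.r a b → G.r b d → G.r a d → R a b → R b d → R a d)
    (hc : ∀ f : V → ZMod 2, (∀ a ∈ S, ∀ b ∈ S, G.r a b → R a b → f a = f b) →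
      ∀ a ∈ S, ∀ b ∈ S, G.r a b → f a = f b) :
    ∀ a ∈ S, ∀ b ∈ S, G.r a b → R a b := by
  set N : Finset (Finset V) := Finset.univ.filter fun e =>
    Clq G e ∧ Ins e S ∧ e.card = 2 ∧ ∃ a ∈ e, ∃ b ∈ e, ¬ R a b with hN
  have memN : ∀ a ∈ S, ∀ b ∈ S, G.r a b → a ≠ b → (({a, b} : Finset V) ∈ N ↔ ¬ R a b) := by
    intro a ha b hb hab hne
    obtain ⟨e1, e2⟩ := sc_edge_mk ha hb hab
    simp only [hN, Finset.mem_filter, Finset.mem_univ, true_and, e1, e2, Finset.card_pair hne]
    constructor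
    · rintro ⟨x, hx, y, hy, hxy⟩ h
      simp only [Finset.mem_insert, Finset.mem_singleton] at hx hy
      rcases hx with rfl | rfl <;> rcases hy with rfl | rfl
      · exact hxy (hr _)
      · exact hxy h
      · exact hxy (hs _ _ h)
      · exact hxy (hr _)
    · exact fun h => ⟨a, by simp, b, by simp, h⟩
  -- a kernel element vanishes
  have key : ∀ Φ : Finset V → ZMod 2, (∀ e, e ∉ N → Φ e = 0) →
      (∀ t, scTri G S t → ∑ e ∈ Finset.powersetCard 2 t, Φ e = 0) → ∀ e ∈ N, Φ e = 0 := by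
    intro Φ h0 hk e he
    obtain ⟨f, hf⟩ := h1 _ (sc_coc Φ hk)
    have hcf := hc f fun a ha b hb hab hR => by
      by_cases hne : a = b
      · rw [hne]
      have h2 := hf a ha b hb hab
      simp only [if_neg hne] at h2
      rw [h0 _ (fun h => (memN a ha b hb hab hne).1 h hR)] at h2
      have := sc_add_self (f b)
      linear_combination -h2 - this
    simp only [hN, Finset.mem_filter, Finset.mem_univ, true_and] at he
    obtain ⟨x, y, hxy, rfl⟩ := Finset.card_eq_two.1 he.2.2.1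
    have hx : x ∈ S := he.2.1 x (by simp)
    have hy : y ∈ S := he.2.1 y (by simp)
    have hr' : G.r x y := he.1.2 x (by simp) y (by simp)
    have h2 := hf x hx y hy hr'
    simp only [if_neg hxy] at h2
    rw [h2, hcf x hx y hy hr']
    exact sc_add_self _
  intro a ha b hb hab
  by_contra hR
  have hne : a ≠ b := fun h => hR (h ▸ hr a)
  have hab' := (memN a ha b hb hab hne).2 hR
  set cnt : Finset V → ℕ := fun t => ∑ e ∈ Finset.powersetCard 2 t, if e ∈ N then 1 else 0
    with hcnt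
  have cnt1 : ∀ t, scTri G S t → cnt t ≠ 1 := by
    intro t ht'
    obtain ⟨x, y, z, hxy, hxz, hyz, rfl⟩ := Finset.card_eq_three.1 ht'.2.2
    have hx : x ∈ S := ht'.2.1 x (by simp)
    have hy : y ∈ S := ht'.2.1 y (by simp)
    have hz : z ∈ S := ht'.2.1 z (by simp)
    have r1 : G.r x y := ht'.1.2 x (by simp) y (by simp)
    have r2 : G.r y z := ht'.1.2 y (by simp) z (by simp)
    have r3 : G.r x z := ht'.1.2 x (by simp) z (by simp)
    simp only [hcnt]
    rw [sc_sum3 hxy hyz hxz]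
    simp only [memN x hx y hy r1 hxy, memN y hy z hz r2 hyz, memN x hx z hz r3 hxz]
    have a1 := htri x hx y hy z hz r1 r2 r3
    have a2 := fun h => htri y hy x hx z hz (G.symm _ _ r1) r3 r2 (hs x y h)
    have a3 := fun h h' => htri x hx z hz y hy r3 (G.symm _ _ r2) r1 h (hs y z h')
    by_cases b1 : R x y <;> by_cases b2 : R y z <;> by_cases b3 : R x z
    · simp [b1, b2, b3]
    · exact absurd (a1 b1 b2) b3
    · exact absurd (a2 b1 b3) b2
    · simp [b1, b2, b3]
    · exact absurd (a3 b3 b2) b1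
    · simp [b1, b2, b3]
    · simp [b1, b2, b3]
    · simp [b1, b2, b3]
  by_cases hall : ∀ t, scTri G S t → cnt t = 0 ∨ cnt t = 2
  · have := key (fun e => if e ∈ N then 1 else 0) (fun e he => if_neg he) (fun t ht' => by
      have h2 : (∑ e ∈ Finset.powersetCard 2 t, if e ∈ N then (1 : ZMod 2) else 0) =
          ((cnt t : ℕ) : ZMod 2) := by
        simp only [hcnt, Nat.cast_sum, Nat.cast_ite, Nat.cast_one, Nat.cast_zero]
      rw [h2]
      rcases hall t ht' with h | h <;> rw [h]
      · rfl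
      · rfl) _ hab'
    simp [hab'] at this
  · push Not at hall
    obtain ⟨t0, ht0, h0, h2⟩ := hall
    set T : Finset (Finset V) := Finset.univ.filter fun t => scTri G S t ∧ cnt t ≠ 0 with hT
    have hlt : T.card < N.card := by
      have e1 : ∑ t ∈ T, 2 < ∑ t ∈ T, cnt t := by
        refine Finset.sum_lt_sum (fun t ht' => ?_) ⟨t0, by simp [hT, ht0, h0], ?_⟩
        · simp only [hT, Finset.mem_filter, Finset.mem_univ, true_and] at ht'
          have := cnt1 t ht'.1
          omega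
        · have := cnt1 t0 ht0
          omega
      have e2 : ∑ t ∈ T, cnt t ≤ ∑ e : Finset V, if e ∈ N then 2 else 0 := by
        simp only [hcnt]
        rw [sc_swap]
        refine le_trans (Finset.sum_le_sum fun e _ => ?_)
          (Finset.sum_le_sum_of_subset (Finset.filter_subset _ _))
        by_cases he : e ∈ N
        · simp only [if_pos he, smul_eq_mul, mul_one]
          simp only [hN, Finset.mem_filter, Finset.mem_univ, true_and] at he
          refine le_trans ?_ (ht.edg e he.1 he.2.1 he.2.2.1)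
          rw [← sc_tc he.1 he.2.1 he.2.2.1]
          refine Finset.card_le_card fun t => ?_
          simp only [hT, Finset.mem_filter, Finset.mem_univ, true_and]
          tauto
        · simp [he]
      simp only [Finset.sum_const, smul_eq_mul, Finset.sum_ite_mem, Finset.univ_inter] at e1 e2
      omega
    obtain ⟨Φ, hΦ0, ⟨e, he, hΦe⟩, hΦ⟩ := sc_ker N T (Finset.powersetCard 2) hlt
    refine hΦe (key Φ hΦ0 (fun t ht' => ?_) e he)
    by_cases hc0 : cnt t = 0
    · refine Finset.sum_eq_zero fun e he => hΦ0 e fun hN' => ?_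
      simp only [hcnt] at hc0
      have := Finset.sum_eq_zero_iff.1 hc0 e he
      simp [hN'] at this
    · exact hΦ t (by simp [hT, ht', hc0])

theorem flat_triv [Fintype V] {G : Cx V} {S : Set V} (ht : Thin G S) (h1 : H1 G S) {H : Type}
    [Group H] {η : V → V → H} (h : Flat G S η) :
    ∃ β : V → H, ∀ a ∈ S, ∀ b ∈ S, G.r a b → η a b = (β a)⁻¹ * β b := by
  obtain ⟨Rt, hRS, -, hR, hRi⟩ := exists_roots G S
  obtain ⟨p, hp⟩ := exists_forest hR
  obtain ⟨β, hβ0, hβ⟩ := hp.rec_fun (fun _ => (1 : H)) fun v x => x * η (p v) v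
  obtain ⟨rk, hrk⟩ := id hp
  have hg := h.gauge β
  have key := sc_closed ht h1
    (R := fun a b => a ∈ S → b ∈ S → G.r a b → β a * η a b * (β b)⁻¹ = 1)
    (fun a ha _ _ => hg.self ha)
    (fun a b hab hb ha r => by
      have := hg.inv ha hb (G.symm _ _ r)
      rw [this, hab ha hb (G.symm _ _ r), inv_one])
    (fun a ha b hb d hd r1 r2 r3 e1 e2 _ _ _ => by
      have := hg a ha b hb d hd r1 r2 r3
      simp only at this
      rw [← this, e1 ha hb r1, e2 hb hd r2, one_mul])
    (fun f hf => by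
      have hroot : ∀ v, v ∈ S ∨ v ∈ S \ Rt → ∃ x ∈ Rt, Rch G S v x ∧ f v = f x := by
        refine hp.ind (fun v hv hv' => ⟨v, ?_, Relation.ReflTransGen.refl, rfl⟩) ?_
        · by_contra hn
          exact hv' ⟨hv, hn⟩
        · rintro v hv ⟨x, hx, hx1, hx2⟩
          obtain ⟨q1, q2, -⟩ := hrk v hv
          refine ⟨x, hx, (rch_step hv.1 q1 q2).trans hx1, ?_⟩
          rw [← hx2]
          refine (hf (p v) q1 v hv.1 (G.symm _ _ q2) fun _ _ _ => ?_).symm
          rw [hβ v hv]
          group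
      intro a ha b hb r
      obtain ⟨x, hx, hx1, hx2⟩ := hroot a (Or.inl ha)
      obtain ⟨y, hy, hy1, hy2⟩ := hroot b (Or.inl hb)
      have := hRi x hx y hy (((rch_symm hx1).trans (rch_step ha hb r)).trans hy1)
      rw [hx2, hy2, this])
  refine ⟨β, fun a ha b hb r => ?_⟩
  have := key a ha b hb r ha hb r
  calc η a b = (β a)⁻¹ * (β a * η a b * (β b)⁻¹) * β b := by group
    _ = (β a)⁻¹ * β b := by rw [this, mul_one]

/-- Functions on triangles that are coboundaries of functions on the edges not inside `S`. -/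
def scBd (G : Cx V) (W S : Set V) (g : Finset V → ZMod 2) : Prop :=
  ∃ Φ : Finset V → ZMod 2, (∀ e, Ins e S → Φ e = 0) ∧
    ∀ t, scTri G W t → ∑ e ∈ Finset.powersetCard 2 t, Φ e = g t

theorem scBd_zero (G : Cx V) (W S : Set V) : scBd G W S 0 :=
  ⟨0, fun _ _ => rfl, fun _ _ => by simp⟩

theorem scBd_add {G : Cx V} {W S : Set V} {g g' : Finset V → ZMod 2} (h : scBd G W S g)
    (h' : scBd G W S g') : scBd G W S (g + g') := by
  obtain ⟨Φ, h1, h2⟩ := h
  obtain ⟨Φ', h1', h2'⟩ := h'
  refine ⟨Φ + Φ', fun e he => by simp [h1 e he, h1' e he], fun t ht => ?_⟩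
  simp only [Pi.add_apply, Finset.sum_add_distrib, h2 t ht, h2' t ht]

theorem scBd_sum {G : Cx V} {W S : Set V} {ι : Type} (s : Finset ι) (g : ι → Finset V → ZMod 2)
    (h : ∀ i ∈ s, scBd G W S (g i)) : scBd G W S (∑ i ∈ s, g i) :=
  Finset.sum_induction g (scBd G W S) (fun _ _ => scBd_add) (scBd_zero G W S) h

theorem scBd_edge [Fintype V] {G : Cx V} {W S : Set V} (hW : Surf G W) {e t t' : Finset V}
    (h2 : e.card = 2) (he : ¬ Ins e S) (ht : scTri G W t) (ht' : scTri G W t') (s : e ⊆ t)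
    (s' : e ⊆ t') : scBd G W S (Pi.single t 1 + Pi.single t' 1) := by
  by_cases htt : t = t'
  · subst htt
    have : (Pi.single t 1 + Pi.single t 1 : Finset V → ZMod 2) = 0 := by
      funext x
      exact sc_add_self _
    rw [this]
    exact scBd_zero G W S
  obtain ⟨c1, c2⟩ := sc_sub_edge ht s h2
  have hc := sc_tc c1 c2 h2
  rw [hW.edg e c1 c2 h2] at hc
  have hset : (Finset.univ.filter fun t => scTri G W t ∧ e ⊆ t) = {t, t'} := by
    symm
    refine Finset.eq_of_subset_of_card_le ?_ (by rw [hc, Finset.card_pair htt])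
    intro x hx
    simp only [Finset.mem_insert, Finset.mem_singleton] at hx
    rcases hx with rfl | rfl <;> simp [*]
  refine ⟨Pi.single e 1, fun x hx => ?_, fun u hu => ?_⟩
  · have : x ≠ e := fun h => he (h ▸ hx)
    simp [this]
  · have hm : u ∈ ({t, t'} : Finset (Finset V)) ↔ e ⊆ u := by
      rw [← hset]
      simp [hu]
    simp only [Finset.mem_insert, Finset.mem_singleton] at hm
    rw [Finset.sum_pi_single']
    simp only [Finset.mem_powersetCard, h2, and_true, Pi.add_apply, Pi.single_apply]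
    by_cases e1 : u = t
    · subst e1
      simp [s, htt]
    · by_cases e2 : u = t'
      · subst e2
        simp [s', e1]
      · have : ¬ e ⊆ u := fun h => by rcases hm.2 h with h | h <;> contradiction
        simp [this, e1, e2]

theorem sc_ex_tri [Fintype V] {G : Cx V} {W : Set V} (hW : Surf G W) {a b : V} (ha : a ∈ W)
    (hb : b ∈ W) (r : G.r a b) (hab : a ≠ b) : ∃ t, scTri G W t ∧ {a, b} ⊆ t := by
  obtain ⟨c1, c2⟩ := sc_edge_mk ha hb r
  have hc := sc_tc c1 c2 (Finset.card_pair hab)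
  rw [hW.edg _ c1 c2 (Finset.card_pair hab)] at hc
  obtain ⟨t, ht⟩ := Finset.card_pos.1 (hc ▸ (by norm_num : 0 < 2))
  exact ⟨t, by simpa using ht⟩

theorem scBd_tri [Fintype V] {G : Cx V} {W S : Set V} (hW : Surf G W) (hc : Conn G (W \ S))
    {t0 t : Finset V} (ht0 : scTri G W t0) (ht : scTri G W t) (h0 : ¬ Ins t0 S) (h : ¬ Ins t S) :
    scBd G W S (Pi.single t 1 + Pi.single t0 1) := by
  set A : Finset V → Prop := fun u => scBd G W S (Pi.single u 1 + Pi.single t0 1) with hA
  have L1 : ∀ e u u' : Finset V, e.card = 2 → ¬ Ins e S → scTri G W u → scTri G W u' → e ⊆ u →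
      e ⊆ u' → A u → A u' := by
    intro e u u' h2 he hu hu' s s' hAu
    have := scBd_add (scBd_edge hW h2 he hu' hu s' s) hAu
    have e1 : (Pi.single u' 1 + Pi.single u 1 + (Pi.single u 1 + Pi.single t0 1) :
        Finset V → ZMod 2) = Pi.single u' 1 + Pi.single t0 1 := by
      funext x
      have := sc_add_self ((Pi.single u 1 : Finset V → ZMod 2) x)
      simp only [Pi.add_apply]
      linear_combination this
    rwa [e1] at this
  have L2 : ∀ v ∈ W \ S, ∀ u u' : Finset V, scTri G W u → scTri G W u' → v ∈ u → v ∈ u' →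
      A u → A u' := by
    intro v hv u u' hu hu' m m' hAu
    have hex : ∀ x : Finset V, scTri G W x → v ∈ x → ∃ w ∈ lk G {v} ∩ W, {v, w} ⊆ x := by
      intro x hx mx
      obtain ⟨w, hw, hwv⟩ := Finset.exists_mem_ne (s := x) (by rw [hx.2.2]; norm_num) v
      refine ⟨w, ⟨⟨by simpa using hwv, fun a ha => ?_⟩, hx.2.1 w hw⟩, ?_⟩
      · rw [Finset.mem_singleton.1 ha]
        exact hx.1.2 _ hw _ mx
      · intro y hy
        simp only [Finset.mem_insert, Finset.mem_singleton] at hy
        rcases hy with rfl | rfl <;> assumption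
    have hne : ∀ w ∈ lk G {v} ∩ W, v ≠ w := fun w hw e => hw.1.1 (by simp [e])
    have hni : ∀ w, ¬ Ins ({v, w} : Finset V) S := fun w hi => hv.2 (hi v (by simp))
    have hiff : ∀ w ∈ lk G {v} ∩ W, ∀ x, scTri G W x → {v, w} ⊆ x →
        ((∀ y, scTri G W y → {v, w} ⊆ y → A y) ↔ A x) := fun w hw x hx s =>
      ⟨fun H => H x hx s, fun H y hy s' =>
        L1 _ x y (Finset.card_pair (hne w hw)) (hni w) hx hy s s' H⟩
    obtain ⟨w, hw, s⟩ := hex u hu m
    obtain ⟨w', hw', s'⟩ := hex u' hu' m'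
    have := rch_const (f := fun w => ∀ y, scTri G W y → {v, w} ⊆ y → A y)
      (fun a ha b hb r => by
        by_cases hab : a = b
        · rw [hab]
        have htri := sc_tri_mk hv.1 ha.2 hb.2 (hne a ha) hab (hne b hb)
          (G.symm _ _ (ha.1.2 v (by simp))) r (G.symm _ _ (hb.1.2 v (by simp)))
        exact propext ((hiff a ha _ htri (by intro x; simp; tauto)).trans
          (hiff b hb _ htri (by intro x; simp; tauto)).symm))
      ((hW.vtx v hv.1).2 w hw w' hw')
    rw [← hiff w' hw' u' hu' s', ← this, hiff w hw u hu s]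
    exact hAu
  have hiff : ∀ v ∈ W \ S, ∀ x, scTri G W x → v ∈ x →
      ((∀ y, scTri G W y → v ∈ y → A y) ↔ A x) := fun v hv x hx s =>
    ⟨fun H => H x hx s, fun H y hy s' => L2 v hv x y hx hy s s' H⟩
  have hex : ∀ x : Finset V, scTri G W x → ¬ Ins x S → ∃ v ∈ W \ S, v ∈ x := by
    intro x hx hn
    simp only [Ins, not_forall] at hn
    obtain ⟨v, hv, hv'⟩ := hn
    exact ⟨v, ⟨hx.2.1 v hv, hv'⟩, hv⟩
  obtain ⟨v0, hv0, m0⟩ := hex t0 ht0 h0
  obtain ⟨v, hv, m⟩ := hex t ht h
  have := rch_const (f := fun v => ∀ y, scTri G W y → v ∈ y → A y)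
    (fun a ha b hb r => by
      by_cases hab : a = b
      · rw [hab]
      obtain ⟨x, hx, s⟩ := sc_ex_tri hW ha.1 hb.1 r hab
      exact propext ((hiff a ha x hx (s (by simp))).trans (hiff b hb x hx (s (by simp))).symm))
    (hc v0 hv0 v hv)
  change A t
  rw [← hiff v hv t ht m, ← this, hiff v0 hv0 t0 ht0 m0]
  have e1 : (Pi.single t0 1 + Pi.single t0 1 : Finset V → ZMod 2) = 0 := by
    funext x
    exact sc_add_self _
  simp only [hA, e1]
  exact scBd_zero G W S

theorem h1_dual [Fintype V] {G : Cx V} {W S : Set V} (hW : Surf G W) (h1 : H1 G W) (hS : S ⊆ W)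
    (hc : Conn G (W \ S)) : H1 G S := by
  intro η hη
  set Ψ : Finset V → ZMod 2 := fun e => if Ins e S ∧ ∃ a ∈ e, ∃ b ∈ e, η a b ≠ 0 then 1 else 0
    with hΨ
  have hΨe : ∀ a ∈ S, ∀ b ∈ S, G.r a b → Ψ {a, b} = η a b := by
    intro a ha b hb r
    have hi := (sc_edge_mk ha hb r).2
    rcases sc_zmod (η a b) with h | h
    · rw [h]
      refine if_neg ?_
      rintro ⟨-, x, hx, y, hy, hxy⟩
      simp only [Finset.mem_insert, Finset.mem_singleton] at hx hy
      rcases hx with rfl | rfl <;> rcases hy with rfl | rfl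
      · exact hxy (hη.self ha)
      · exact hxy h
      · exact hxy ((hη.symm ha hb r).trans h)
      · exact hxy (hη.self hb)
    · rw [h]
      exact if_pos ⟨hi, a, by simp, b, by simp, by rw [h]; exact one_ne_zero⟩
  set g : Finset V → ZMod 2 := fun t => ∑ e ∈ Finset.powersetCard 2 t, Ψ e with hg
  have hg0 : ∀ t, scTri G W t → Ins t S → g t = 0 := by
    intro t ht hi
    obtain ⟨x, y, z, hxy, hxz, hyz, rfl⟩ := Finset.card_eq_three.1 ht.2.2
    have hx : x ∈ S := hi x (by simp)
    have hy : y ∈ S := hi y (by simp)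
    have hz : z ∈ S := hi z (by simp)
    have r1 : G.r x y := ht.1.2 x (by simp) y (by simp)
    have r2 : G.r y z := ht.1.2 y (by simp) z (by simp)
    have r3 : G.r x z := ht.1.2 x (by simp) z (by simp)
    simp only [hg]
    rw [sc_sum3 hxy hyz hxz, hΨe x hx y hy r1, hΨe y hy z hz r2, hΨe x hx z hz r3,
      hη x hx y hy z hz r1 r2 r3]
    exact sc_add_self _
  set T : Finset (Finset V) := Finset.univ.filter fun t => scTri G W t with hT
  have hsum : ∑ t ∈ T, g t = 0 := by
    simp only [hg]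
    rw [sc_swap]
    refine Finset.sum_eq_zero fun e he => ?_
    have h2 : e.card = 2 := by simpa using he
    by_cases hem : (T.filter fun t => e ⊆ t) = ∅
    · rw [hem]; simp
    obtain ⟨t, ht⟩ := Finset.nonempty_iff_ne_empty.2 hem
    simp only [hT, Finset.mem_filter, Finset.mem_univ, true_and] at ht
    obtain ⟨c1, c2⟩ := sc_sub_edge ht.1 ht.2 h2
    have hc := sc_tc c1 c2 h2
    rw [hW.edg e c1 c2 h2] at hc
    rw [hT, Finset.filter_filter, hc, two_smul]
    exact sc_add_self _
  have hbd : ∃ g', scBd G W S g' ∧ ∀ t, scTri G W t → g' t = g t := by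
    by_cases hall : ∀ t, scTri G W t → Ins t S
    · exact ⟨0, scBd_zero G W S, fun t ht => (hg0 t ht (hall t ht)).symm⟩
    push Not at hall
    obtain ⟨t0, ht0, h0⟩ := hall
    refine ⟨∑ t ∈ T, g t • (Pi.single t 1 + Pi.single t0 1), scBd_sum _ _ fun t ht => ?_,
      fun u hu => ?_⟩
    · have ht' : scTri G W t := by simpa [hT] using ht
      rcases sc_zmod (g t) with h | h
      · rw [h, zero_smul]
        exact scBd_zero G W S
      · rw [h, one_smul]
        refine scBd_tri hW hc ht0 ht' h0 fun hi => ?_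
        rw [hg0 t ht' hi] at h
        exact zero_ne_one h
    · simp only [smul_add, Finset.sum_add_distrib]
      rw [← Finset.sum_smul, hsum, zero_smul, add_zero, Finset.sum_apply]
      rw [Finset.sum_eq_single u]
      · simp
      · intro b _ hb
        simp [hb.symm]
      · intro hu'
        exact absurd (by simpa [hT] using hu) hu'
  obtain ⟨g', ⟨Φ, hΦ0, hΦ⟩, hg'⟩ := hbd
  obtain ⟨f, hf⟩ := h1 _ (sc_coc (Ψ + Φ) fun t ht => by
    simp only [Pi.add_apply, Finset.sum_add_distrib]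
    rw [hΦ t ht, hg' t ht]
    exact sc_add_self _)
  refine ⟨f, fun a ha b hb r => ?_⟩
  have := hf a (hS ha) b (hS hb) r
  by_cases hab : a = b
  · subst hab
    rw [hη.self ha, sc_add_self]
  · simp only [if_neg hab, Pi.add_apply] at this
    rw [← this, hΨe a ha b hb r, hΦ0 _ (sc_edge_mk ha hb r).2, add_zero]

/-- The outer neighbours of a connected set with connected complement, all of one colour, lie in
one component of that colour. -/
theorem nbr_comp {G : Cx V} {W Q : Set V} (h1 : H1 G W) (hQ : Q ⊆ W) (hc : Conn G Q)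
    (hc' : Conn G (W \ Q)) (z : V → Bool) (x : Bool)
    (hz : ∀ q ∈ Q, ∀ n ∈ W \ Q, G.r q n → z n = x) {q q' n n' : V} (hq : q ∈ Q) (hq' : q' ∈ Q)
    (hn : n ∈ W \ Q) (hn' : n' ∈ W \ Q) (h : G.r q n) (h' : G.r q' n') :
    Rch G {y | y ∈ W \ Q ∧ z y = x} n n' := by
  set C : V → Prop := fun y => Rch G {y | y ∈ W \ Q ∧ z y = x} n y with hC
  have hCQ : ∀ y, y ∈ Q → ¬ C y := fun y hy hcy =>
    (rch_mem hcy ⟨hn, hz q hq n hn h⟩).1.2 hy
  have hCC : ∀ p ∈ Q, ∀ u ∈ W, ∀ v ∈ W, u ∉ Q → v ∉ Q → G.r p u → G.r p v → G.r u v →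
      (C u ↔ C v) := by
    intro p hp u hu v hv hu' hv' r1 r2 r3
    have e : Rch G {y | y ∈ W \ Q ∧ z y = x} u v :=
      rch_step ⟨⟨hu, hu'⟩, hz p hp u ⟨hu, hu'⟩ r1⟩ ⟨⟨hv, hv'⟩, hz p hp v ⟨hv, hv'⟩ r2⟩ r3
    exact ⟨fun H => H.trans e, fun H => H.trans (rch_symm e)⟩
  obtain ⟨f, hf⟩ := h1 (fun a b => if (a ∈ Q ∧ C b) ∨ (b ∈ Q ∧ C a) then 1 else 0) (by
    intro a ha b hb c hc r1 r2 r3
    have e1 := hCQ a
    have e2 := hCQ b
    have e3 := hCQ c
    have o : (1 : ZMod 2) + 1 = 0 := rfl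
    by_cases qa : a ∈ Q <;> by_cases qb : b ∈ Q <;> by_cases qc : c ∈ Q
    · simp [e1 qa, e2 qb, e3 qc]
    · simp [qa, qb, qc, e1 qa, e2 qb]
    · by_cases cb : C b <;> simp [qa, qb, qc, e1 qa, e3 qc, cb, o]
    · have := hCC a qa b hb c hc qb qc r1 r3 r2
      simp [qa, qb, qc, this]
    · simp [qa, qb, qc, e2 qb, e3 qc]
    · have := hCC b qb a ha c hc qa qc (G.symm _ _ r1) r2 r3
      by_cases cc : C c <;> simp [qa, qb, qc, this, cc, o]
    · have := hCC c qc a ha b hb qa qb (G.symm _ _ r3) (G.symm _ _ r2) r1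
      simp [qa, qb, qc, this]
    · simp [qa, qb, qc])
  have eqz : ∀ u v : ZMod 2, 0 = u + v → u = v := by decide
  have f1 : f q = f q' := rch_const (f := f) (fun a ha b hb r => eqz _ _ (by
    have := hf a (hQ ha) b (hQ hb) r
    simpa [hCQ a ha, hCQ b hb] using this)) (hc q hq q' hq')
  have f2 : f n = f n' := rch_const (f := f) (fun a ha b hb r => eqz _ _ (by
    have := hf a ha.1 b hb.1 r
    simpa [ha.2, hb.2] using this)) (hc' n hn n' hn')
  have g1 := hf q (hQ hq) n hn.1 h
  have g2 := hf q' (hQ hq') n' hn'.1 h'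
  have cn : C n := Relation.ReflTransGen.refl
  simp only [hq, cn, hn.2, hq', hn'.2, true_and, false_and, or_false, if_true] at g1 g2
  by_contra hne
  rw [if_neg hne, ← f1, ← f2, ← g1] at g2
  exact zero_ne_one g2

end KG
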