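import Pool.Agent.Work.MP_c146e2_gt.KG.G6
import Pool.Agent.Work.MP_c146e2_gt.KG.SC

set_option autoImplicit false

noncomputable section

open scoped Classical

namespace KG

variable {V V' : Type}

theorem abs_ncard [Fintype V] {Z Z' : Set V} (h : Z ⊆ Z') :
    Zᶜ.ncard = Z'ᶜ.ncard + (Z' \ Z).ncard := by
  rw [← Set.ncard_union_eq (s := Z'ᶜ) (t := Z' \ Z) (Set.disjoint_left.2 fun a h1 h2 => h1 h2.1)]
  congr 1
  ext a
  have := @h a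
  simp only [Set.mem_compl_iff, Set.mem_union, Set.mem_sdiff]
  tauto

theorem abs_const {G : Cx V} {A : V → V → Prop} {α : Type} {f : V → α}
    (h : ∀ a b, A a b → G.r a b → f a = f b) {a b : V} (hc : Cl G A a b) (hab : G.r a b) :
    f a = f b := by
  induction hc with
  | base h1 => exact h _ _ h1 hab
  | refl => rfl
  | symm _ ih => exact (ih (G.symm _ _ hab)).symm
  | tri h1 h2 _ _ _ ih ih' => exact (ih h1).trans (ih' h2)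

theorem abs_map {G : Cx V} {Z Z' : Set V} (h : Absorb G Z Z') : ∃ f : V → V,
    (∀ a ∈ Z, f a = a) ∧ (∀ a ∈ Z', f a ∈ Z ∧ Rch G Z' a (f a)) ∧
      ∀ a ∈ Z', ∀ b ∈ Z', G.r a b → Rch G Z (f a) (f b) := by
  obtain ⟨-, p, hp, hc⟩ := h
  obtain ⟨f, h1, h2⟩ := hp.rec_fun id fun _ x => x
  have h0 : ∀ a ∈ Z, f a = a := fun a ha => h1 a fun h => h.2 ha
  refine ⟨f, h0, fun a ha => hp.ind (Q := fun a => f a ∈ Z ∧ Rch G Z' a (f a))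
    (fun v hv h => ?_) (fun v hv h => ?_) a (Or.inl ha), fun a ha b hb hab => ?_⟩
  · rw [h1 v h]
    exact ⟨not_not.1 fun h3 => h ⟨hv, h3⟩, Relation.ReflTransGen.refl⟩
  · rw [h2 v hv]
    have := hp.choose_spec v hv
    exact ⟨h.1, (rch_step hv.1 this.1 this.2.1).trans h.2⟩
  · have h3 : {x | Rch G Z (f a) x} = {x | Rch G Z (f b) x} := by
      refine abs_const (f := fun a => {x | Rch G Z (f a) x}) (fun x y h hxy => ?_)
        (hc a ha b hb hab) hab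
      rcases h with h | ⟨h, rfl⟩
      · have h4 := rch_step h.1 h.2 hxy
        rw [h0 x h.1, h0 y h.2]
        exact Set.ext fun z => ⟨(rch_symm h4).trans, h4.trans⟩
      · rw [h2 x h]
    exact (Set.ext_iff.1 h3 (f b)).2 Relation.ReflTransGen.refl

theorem Absorb.tv [Fintype V] {G : Cx V} {Z Z' : Set V} (h : Absorb G Z Z') (hm : Man G (Z' \ Z)) :
    tv G Z' = tv G Z := by
  obtain ⟨hZ, p, hp, hc⟩ := h
  have h1 := gauge_forest hm hp (A := inZ Z) fun v hv x _ => ⟨fun h => hv.2 h.1, fun h => hv.2 h.2⟩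
  have h2 : SS G (inZ Z') = SS G fun a b => inZ Z a b ∨ par (Z' \ Z) p a b := by
    refine SS_congr (fun a b hab h => hc a h.1 b h.2 hab) fun a b _ h => Cl.base ?_
    rcases h with h | ⟨h, rfl⟩
    · exact ⟨hZ h.1, hZ h.2⟩
    · exact ⟨h.1, (hp.choose_spec a h).1⟩
  have h3 : D2 ≠ 0 := (one_pos.trans one_lt_D2).ne'
  rw [KG.tv, KG.tv, h1, h2, abs_ncard hZ, pow_add]
  field_simp

theorem Absorb.kc [Fintype V] {G : Cx V} {Z Z' : Set V} (h : Absorb G Z Z') :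
    kc G Z' = kc G Z := by
  obtain ⟨f, h0, h1, h2⟩ := abs_map h
  refine kc_eq_of_map f (fun a ha => (h1 a ha).1)
    (fun b hb => ⟨b, h.1 hb, (h0 b hb).symm ▸ Relation.ReflTransGen.refl⟩)
    fun a ha b hb => ⟨rch_map h2, fun h3 => ?_⟩
  exact ((h1 a ha).2.trans (rch_mono h.1 h3)).trans (rch_symm (h1 b hb).2)

theorem Absorb.conn {G : Cx V} {Z Z' : Set V} (h : Absorb G Z Z') (hc : Conn G Z) : Conn G Z' := by
  obtain ⟨f, -, h1, -⟩ := abs_map h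
  exact hc.of_sub h.1 fun x hx => ⟨f x, h1 x hx⟩

theorem Absorb.flat {G : Cx V} {Z Z' : Set V} (h : Absorb G Z Z') {H : Type} [Group H]
    {η : V → V → H} (hη : Flat G Z' η) {β : V → H}
    (hβ : ∀ a ∈ Z, ∀ b ∈ Z, G.r a b → η a b = (β a)⁻¹ * β b) :
    ∃ β' : V → H, (∀ a ∈ Z, β' a = β a) ∧
      ∀ a ∈ Z', ∀ b ∈ Z', G.r a b → η a b = (β' a)⁻¹ * β' b := by
  obtain ⟨hZ, p, hp, hc⟩ := h
  obtain ⟨β', h1, h2⟩ := hp.rec_fun β fun v x => x * (η v (p v))⁻¹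
  have h0 : ∀ a ∈ Z, β' a = β a := fun a ha => h1 a fun h => h.2 ha
  refine ⟨β', h0, fun a ha b hb hab => ?_⟩
  have h3 := (hη.gauge β').cl (fun x y h => ?_) (hc a ha b hb hab) ha hab
  · rw [eq_inv_mul_iff_mul_eq, ← mul_inv_eq_one, h3]
  rcases h with h | ⟨h, rfl⟩
  · refine ⟨hZ h.1, hZ h.2, fun hxy => ?_⟩
    simp [h0 x h.1, h0 y h.2, hβ x h.1 y h.2 hxy]
  · exact ⟨h.1, (hp.choose_spec x h).1, fun _ => by simp [h2 x h]⟩

theorem Absorb.h1 {G : Cx V} {Z Z' : Set V} (h : Absorb G Z Z') (h1 : H1 G Z) : H1 G Z' := by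
  intro η hη
  obtain ⟨f, hf⟩ := h1 η fun a ha b hb c hc => hη a (h.1 ha) b (h.1 hb) c (h.1 hc)
  obtain ⟨β, -, hβ⟩ := h.flat (coc_iff_flat.1 hη) (β := fun a => Multiplicative.ofAdd (f a))
    fun a ha b hb hab => by
      rw [hf a ha b hb hab, ← ofAdd_neg, ZMod.neg_eq_self_mod_two, ofAdd_add]
  refine ⟨fun a => (β a).toAdd, fun a ha b hb hab => ?_⟩
  have := congrArg Multiplicative.toAdd (hβ a ha b hb hab)
  rwa [toAdd_mul, toAdd_inv, ZMod.neg_eq_self_mod_two] at this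

theorem absorb_refl (G : Cx V) (Z : Set V) : Absorb G Z Z := by
  exact ⟨subset_rfl, id, ⟨fun _ => 0, fun v hv => absurd hv.1 hv.2⟩,
    fun a ha b hb _ => Cl.base (Or.inl ⟨ha, hb⟩)⟩

/-- It is enough to check the edges with a new vertex. -/
theorem absorb_of {G : Cx V} {Z B : Set V} {p : V → V} (hp : Forest G (Z ∪ B) (B \ Z) p)
    (h : ∀ a ∈ B \ Z, ∀ b ∈ Z ∪ B, G.r a b →
      Cl G (fun x y => inZ Z x y ∨ par (B \ Z) p x y) a b) : Absorb G Z (Z ∪ B) := by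
  refine ⟨Set.subset_union_left, p, ?_⟩
  rw [Set.union_sdiff_left]
  refine ⟨hp, fun a ha b hb hab => ?_⟩
  by_cases h1 : a ∈ Z
  · by_cases h2 : b ∈ Z
    · exact Cl.base (Or.inl ⟨h1, h2⟩)
    · exact (h b ⟨hb.resolve_left h2, h2⟩ a ha (G.symm _ _ hab)).symm
  · exact h a ⟨ha.resolve_left h1, h1⟩ b hb hab

theorem abs_lk {G : Cx V} {a c : V} : c ∈ lk G {a} ↔ c ≠ a ∧ G.r c a := by
  simp [lk]

theorem abs_many {G : Cx V} {Z B : Set V} (hB : ∀ a ∈ B, ∀ b ∈ B, G.r a b → a = b)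
    (h : ∀ v ∈ B, (lk G {v} ∩ Z).Nonempty ∧ Conn G (lk G {v} ∩ Z)) : Absorb G Z (Z ∪ B) := by
  have h1 : ∀ v, ∃ w, v ∈ B → w ∈ lk G {v} ∩ Z := fun v => by
    by_cases hv : v ∈ B
    · exact (h v hv).1.imp fun w hw _ => hw
    · exact ⟨v, fun h => absurd h hv⟩
  choose p hp using h1
  refine absorb_of (p := p) ⟨fun _ => 0, fun v hv => ⟨Or.inl (hp v hv.1).2,
    G.symm _ _ (abs_lk.1 (hp v hv.1).1).2, fun h2 => absurd (hp v hv.1).2 h2.2⟩⟩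
    fun a ha b hb hab => ?_
  by_cases e : b = a
  · exact e ▸ Cl.refl b
  have h2 : b ∈ lk G {a} ∩ Z :=
    ⟨abs_lk.2 ⟨e, G.symm _ _ hab⟩, hb.resolve_right fun h2 => e (hB a ha.1 b h2 hab).symm⟩
  exact Cl.fan (S := lk G {a} ∩ Z) (fun x hx => G.symm _ _ (abs_lk.1 hx.1).2)
    (fun x hx y hy _ => Cl.base (Or.inl ⟨hx.2, hy.2⟩)) (hp a ha.1) (Cl.base (Or.inr ⟨ha, rfl⟩))
    ((h a ha.1).2 _ (hp a ha.1) b h2)

theorem abs_flip {G : Cx V} {Z : Set V} {v : V} (hne : (lk G {v} ∩ Z).Nonempty)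
    (hc : Conn G (lk G {v} ∩ Z)) : Absorb G Z (insert v Z) := by
  rw [← Set.union_singleton]
  exact abs_many (fun a ha b hb _ => ha.trans hb.symm) fun w hw => hw ▸ ⟨hne, hc⟩

/-- Many pairwise non adjacent flips. -/
theorem abs_flips {G : Cx V} {Z B : Set V} (hB : ∀ a ∈ B, ∀ b ∈ B, G.r a b → a = b)
    (h : ∀ v ∈ B, (lk G {v} ∩ Z).Nonempty ∧ Conn G (lk G {v} ∩ Z)) : Absorb G Z (Z ∪ B) := by
  exact abs_many hB h

theorem abs_ret {G : Cx V} {Z Z' : Set V} (ρ : V → V) (hZ : Z ⊆ Z') (hm : ∀ x ∈ Z', ρ x ∈ Z)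
    (hr : ∀ x ∈ Z', G.r x (ρ x))
    (h : ∀ x ∈ Z', ∀ y ∈ Z', G.r x y → G.r (ρ x) (ρ y) ∧ (G.r x (ρ y) ∨ G.r y (ρ x))) :
    Absorb G Z Z' := by
  refine ⟨hZ, ρ, ⟨fun _ => 0, fun v hv => ⟨hZ (hm v hv.1), hr v hv.1,
    fun h1 => absurd (hm v hv.1) h1.2⟩⟩, fun x hx y hy hxy => ?_⟩
  have h1 : ∀ x ∈ Z', Cl G (fun x y => inZ Z x y ∨ par (Z' \ Z) ρ x y) x (ρ x) := fun x hx => by
    by_cases e : x ∈ Z
    · exact Cl.base (Or.inl ⟨e, hm x hx⟩)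
    · exact Cl.base (Or.inr ⟨⟨hx, e⟩, rfl⟩)
  have h2 : ∀ x ∈ Z', ∀ y ∈ Z', G.r x y → G.r x (ρ y) →
      Cl G (fun x y => inZ Z x y ∨ par (Z' \ Z) ρ x y) x y := fun x hx y hy hxy e =>
    Cl.tri e (G.symm _ _ (hr y hy)) hxy (Cl.tri (hr x hx) (h x hx y hy hxy).1 e (h1 x hx)
      (Cl.base (Or.inl ⟨hm x hx, hm y hy⟩))) (h1 y hy).symm
  exact (h x hx y hy hxy).2.elim (h2 x hx y hy hxy) fun e => (h2 y hy x hx (G.symm _ _ hxy) e).symm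

theorem abs_defl {P : Type} [PartialOrder P] {Z Z' : Set P} (ρ : P → P) (hZ : Z ⊆ Z')
    (hm : ∀ x ∈ Z', ρ x ∈ Z) (hle : ∀ x ∈ Z', ρ x ≤ x)
    (hmono : ∀ x ∈ Z', ∀ y ∈ Z', x ≤ y → ρ x ≤ ρ y) : Absorb (ord P) Z Z' := by
  refine abs_ret ρ hZ hm (fun x hx => Or.inr (hle x hx)) fun x hx y hy h => ?_
  rcases h with h | h
  · exact ⟨Or.inl (hmono x hx y hy h), Or.inr (Or.inr ((hle x hx).trans h))⟩
  · exact ⟨Or.inr (hmono y hy x hx h), Or.inl (Or.inr ((hle y hy).trans h))⟩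

theorem abs_infl {P : Type} [PartialOrder P] {Z Z' : Set P} (ρ : P → P) (hZ : Z ⊆ Z')
    (hm : ∀ x ∈ Z', ρ x ∈ Z) (hle : ∀ x ∈ Z', x ≤ ρ x)
    (hmono : ∀ x ∈ Z', ∀ y ∈ Z', x ≤ y → ρ x ≤ ρ y) : Absorb (ord P) Z Z' := by
  refine abs_ret ρ hZ hm (fun x hx => Or.inl (hle x hx)) fun x hx y hy h => ?_
  rcases h with h | h
  · exact ⟨Or.inl (hmono x hx y hy h), Or.inl (Or.inl (h.trans (hle y hy)))⟩
  · exact ⟨Or.inr (hmono y hy x hx h), Or.inr (Or.inl (h.trans (hle x hx)))⟩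

/-- The same for a complex: `ρ` moves every vertex to a neighbour in `Z`, and of two adjacent
vertices one is adjacent to the image of the other. -/
theorem abs_retr {G : Cx V} {Z Z' : Set V} (ρ : V → V) (hZ : Z ⊆ Z') (hm : ∀ x ∈ Z', ρ x ∈ Z)
    (hr : ∀ x ∈ Z', G.r x (ρ x))
    (h : ∀ x ∈ Z', ∀ y ∈ Z', G.r x y → G.r (ρ x) (ρ y) ∧ (G.r x (ρ y) ∨ G.r y (ρ x))) :
    Absorb G Z Z' := by
  exact abs_ret ρ hZ hm hr h

theorem abs_thin [Fintype V] {G : Cx V} {Y S : Set V} (ht : Thin G S) (h1 : H1 G S)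
    (hr : ∀ a ∈ S, ∃ y ∈ S ∩ Y, Rch G S a y)
    (hY : ∀ y ∈ S ∩ Y, ∀ y' ∈ S ∩ Y, ∀ a ∈ S \ Y, ∀ a' ∈ S \ Y, G.r a y → G.r a' y' →
      Rch G (S \ Y) a a' → Rch G (S ∩ Y) y y')
    (hout : ∀ a ∈ S \ Y, ∀ y ∈ Y \ S, G.r a y → ∃ x ∈ S ∩ Y, G.r a x ∧ G.r x y) :
    Absorb G Y (Y ∪ S) := by
  obtain ⟨p, hp⟩ := exists_forest hr
  rw [Set.sdiff_self_inter] at hp
  have key : ∀ a ∈ S, ∀ b ∈ S, G.r a b → Cl G (fun x y => inZ Y x y ∨ par (S \ Y) p x y) a b := by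
    refine sc_closed ht h1 Cl.refl (fun _ _ => Cl.symm) (fun _ _ _ _ _ _ => Cl.tri) fun f hf => ?_
    have h2 : ∀ {y y'}, Rch G (S ∩ Y) y y' → f y = f y' :=
      rch_const fun a ha b hb e => hf a ha.1 b hb.1 e (Cl.base (Or.inl ⟨ha.2, hb.2⟩))
    have h3 : ∀ a ∈ S \ Y, ∃ a' ∈ S \ Y, ∃ y ∈ S ∩ Y, G.r a' y ∧ Rch G (S \ Y) a a' ∧ f a = f y := by
      refine fun a ha => hp.ind (Q := fun a => a ∈ S \ Y → ∃ a' ∈ S \ Y, ∃ y ∈ S ∩ Y,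
        G.r a' y ∧ Rch G (S \ Y) a a' ∧ f a = f y) (fun v _ h h' => absurd h' h)
        (fun v hv ih _ => ?_) a (Or.inr ha) ha
      obtain ⟨h4, h5, -⟩ := hp.choose_spec v hv
      have h6 := hf v hv.1 _ h4 h5 (Cl.base (Or.inr ⟨hv, rfl⟩))
      by_cases e : p v ∈ Y
      · exact ⟨v, hv, p v, ⟨h4, e⟩, h5, Relation.ReflTransGen.refl, h6⟩
      · obtain ⟨a', ha', y, hy, h7, h8, h9⟩ := ih ⟨h4, e⟩
        exact ⟨a', ha', y, hy, h7, (rch_step hv ⟨h4, e⟩ h5).trans h8, h6.trans h9⟩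
    have h4 : ∀ a ∈ S \ Y, ∀ b ∈ S ∩ Y, G.r a b → f a = f b := fun a ha b hb e => by
      obtain ⟨a', ha', y, hy, h7, h8, h9⟩ := h3 a ha
      exact h9.trans (h2 (hY b hb y hy a ha a' ha' e h7 h8)).symm
    intro a ha b hb e
    by_cases e1 : a ∈ Y <;> by_cases e2 : b ∈ Y
    · exact h2 (rch_step ⟨ha, e1⟩ ⟨hb, e2⟩ e)
    · exact (h4 b ⟨hb, e2⟩ a ⟨ha, e1⟩ (G.symm _ _ e)).symm
    · exact h4 a ⟨ha, e1⟩ b ⟨hb, e2⟩ e
    · obtain ⟨a', ha', y, hy, h5, h6, h7⟩ := h3 a ⟨ha, e1⟩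
      obtain ⟨b', hb', y', hy', h8, h9, h10⟩ := h3 b ⟨hb, e2⟩
      exact (h7.trans (h2 (hY y hy y' hy' a' ha' b' hb' h5 h8
        (((rch_symm h6).trans (rch_step ⟨ha, e1⟩ ⟨hb, e2⟩ e)).trans h9)))).trans h10.symm
  refine absorb_of (p := p) (hp.imp fun rk h v hv => ⟨Or.inr (h v hv).1, (h v hv).2⟩)
    fun a ha b hb e => ?_
  by_cases h2 : b ∈ S
  · exact key a ha.1 b h2 e
  · obtain ⟨x, hx, h3, h4⟩ := hout a ha b ⟨hb.resolve_right h2, h2⟩ e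
    exact Cl.tri h3 h4 e (key a ha.1 x hx.1 h3) (Cl.base (Or.inl ⟨hx.2, hb.resolve_right h2⟩))

theorem abs_roots [Fintype V] {G : Cx V} {Z₀ S : Set V} (hm : Man G S) (ht : Thin G S)
    (h1 : H1 G S) (hs : Sep G Z₀ S) : tv G (Z₀ ∪ S) = D2 ^ kc G S * tv G Z₀ := by
  obtain ⟨R, hR, h2, h3, h4⟩ := exists_roots G S
  have h5 : ∀ y ∈ S ∩ (Z₀ ∪ R), y ∈ R := fun y hy =>
    hy.2.resolve_left fun h => hs y h y hy.1 (G.refl y)
  have h6 := (abs_thin (Y := Z₀ ∪ R) ht h1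
    (fun a ha => (h3 a ha).imp fun x hx => ⟨⟨hR hx.1, Or.inr hx.1⟩, hx.2⟩)
    (fun y hy y' hy' a ha a' ha' e e' h => h4 y (h5 y hy) y' (h5 y' hy')
      (((rch_step hy.1 ha.1 (G.symm _ _ e)).trans (rch_mono Set.sdiff_subset h)).trans
        (rch_step ha'.1 hy'.1 e')) ▸ Relation.ReflTransGen.refl)
    fun a ha y hy e => absurd (G.symm _ _ e)
      (hs y (hy.1.resolve_right fun h => hy.2 (hR h)) a ha.1)).tv
    (hm.mono fun x hx => hx.1.resolve_left hx.2)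
  have h7 : SS G (inZ (Z₀ ∪ R)) = SS G (inZ Z₀) := by
    refine SS_congr (fun a b e h => ?_) fun a b _ h => Cl.base ⟨Or.inl h.1, Or.inl h.2⟩
    rcases h with ⟨ha | ha, hb | hb⟩
    · exact Cl.base ⟨ha, hb⟩
    · exact absurd e (hs a ha b (hR hb))
    · exact absurd (G.symm _ _ e) (hs b hb a (hR ha))
    · exact h4 a ha b hb (rch_step (hR ha) (hR hb) e) ▸ Cl.refl a
  have h8 : (Z₀ ∪ R) \ Z₀ = R := by
    rw [Set.union_sdiff_left]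
    exact Set.Subset.antisymm Set.sdiff_subset fun x hx => ⟨hx, fun h => hs x h x (hR hx) (G.refl x)⟩
  have h9 : D2 ≠ 0 := (one_pos.trans one_lt_D2).ne'
  rw [Set.union_assoc, Set.union_eq_self_of_subset_left hR] at h6
  rw [h6, tv, tv, h7, abs_ncard (Z := Z₀) (Z' := Z₀ ∪ R) Set.subset_union_left, h8, h2, pow_add]
  field_simp

/-- Absorbing the part `S \ Y` of a thin set `S` without first cohomology. -/
theorem abs_sc [Fintype V] {G : Cx V} {Y S : Set V} (ht : Thin G S) (h1 : H1 G S)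
    (hr : ∀ a ∈ S, ∃ y ∈ S ∩ Y, Rch G S a y)
    (hY : ∀ y ∈ S ∩ Y, ∀ y' ∈ S ∩ Y, ∀ a ∈ S \ Y, ∀ a' ∈ S \ Y, G.r a y → G.r a' y' →
      Rch G (S \ Y) a a' → Rch G (S ∩ Y) y y')
    (hout : ∀ a ∈ S \ Y, ∀ y ∈ Y \ S, G.r a y → ∃ x ∈ S ∩ Y, G.r a x ∧ G.r x y) :
    Absorb G Y (Y ∪ S) := by
  exact abs_thin ht h1 hr hY hout

end KG
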