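import Pool.Agent.Work.MP_c146e2_gt.KG.KL0
import Pool.Agent.Work.MP_c146e2_gt.KG.Abs

set_option autoImplicit false

noncomputable section

open scoped Classical

namespace KG

variable {V V' : Type}

variable {N L : ℕ} {ty : ℤ → ℤ → CT}

theorem kl4_cls (x y z : ℤ) (h1 : 0 < y) (h2 : y < 6) :
    (¬ onK ty (x, y, z) = true ↔
      isP ty (x, y, z) = true ∨ isQ ty (x, y, z) = true ∨ isM ty (x, y, z) = true) ∧
      ¬ (isP ty (x, y, z) = true ∧ isQ ty (x, y, z) = true) ∧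
      ¬ (isP ty (x, y, z) = true ∧ isM ty (x, y, z) = true) ∧
      ¬ (isQ ty (x, y, z) = true ∧ isM ty (x, y, z) = true) := by
  simp only [isP, isQ, isM, vrt, hrz, onK]
  have hx := Int.emod_two_eq_zero_or_one x
  have hz := Int.emod_two_eq_zero_or_one z
  generalize ty (x / 2) (z / 2) = t
  generalize x % 2 = p at hx ⊢
  generalize z % 2 = r at hz ⊢
  rcases hx with rfl | rfl <;> rcases hz with rfl | rfl <;> interval_cases y <;> cases t <;>
    exact of_decide_eq_true rfl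

theorem uc_cls (c : Gr N L) (hc : c ∈ inner N L) :
    (c ∈ Uc N L ty ↔ isP ty c.1 = true ∨ isQ ty c.1 = true ∨ isM ty c.1 = true) ∧
      ¬ (isP ty c.1 = true ∧ isQ ty c.1 = true) ∧ ¬ (isP ty c.1 = true ∧ isM ty c.1 = true) ∧
      ¬ (isQ ty c.1 = true ∧ isM ty c.1 = true) := by
  have h := kl4_cls (ty := ty) c.1.1 c.1.2.1 c.1.2.2 hc.2.1.1 hc.2.1.2
  exact ⟨(and_iff_right hc).trans h.1, h.2⟩

/-- The connection is a pure gauge on `S`. -/
def kl4T {H : Type} [Group H] (η : Gr N L → Gr N L → H) (S : Set (Gr N L)) : Prop :=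
  ∃ β : Gr N L → H, ∀ a ∈ S, ∀ b ∈ S, (ord (Gr N L)).r a b → η a b = (β a)⁻¹ * β b

theorem kl4_mono {H : Type} [Group H] {η : Gr N L → Gr N L → H} {S U : Set (Gr N L)}
    (hη : Flat (ord (Gr N L)) U η) (h : S ⊆ U) : Flat (ord (Gr N L)) S η :=
  fun a ha b hb c hc => hη a (h ha) b (h hb) c (h hc)

theorem kl4_step {H : Type} [Group H] {η : Gr N L → Gr N L → H} {Z Z' : Set (Gr N L)}
    (hη : Flat (ord (Gr N L)) Z' η) (ρ : Gr N L → Gr N L) (hZ : Z ⊆ Z') (hm : ∀ x ∈ Z', ρ x ∈ Z)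
    (hle : (∀ x ∈ Z', ρ x ≤ x) ∨ ∀ x ∈ Z', x ≤ ρ x)
    (hmono : ∀ x ∈ Z', ∀ y ∈ Z', x ≤ y → ρ x ≤ ρ y) (h : kl4T η Z) : kl4T η Z' := by
  obtain ⟨β, hβ⟩ := h
  rcases hle with hle | hle
  · exact ((abs_defl ρ hZ hm hle hmono).flat hη hβ).imp fun _ h => h.2
  · exact ((abs_infl ρ hZ hm hle hmono).flat hη hβ).imp fun _ h => h.2

/-- Cut the column number off at `j`. -/
def kl4x (j : ℕ) (c : Gr N L) : Gr N L :=
  ⟨(min c.1.1 j, c.1.2.1, c.1.2.2), by have := c.2.1; dsimp only; omega, c.2.2⟩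

/-- Cut the row number off at `j`. -/
def kl4z (j : ℕ) (c : Gr N L) : Gr N L :=
  ⟨(c.1.1, c.1.2.1, min c.1.2.2 j), c.2.1, c.2.2.1, by have := c.2.2.2; dsimp only; omega⟩

/-- Force the height into the interval from `i` to `j`. -/
def kl4y (i j : Fin 7) (c : Gr N L) : Gr N L :=
  ⟨(c.1.1, max (i.1 : ℤ) (min c.1.2.1 j.1), c.1.2.2), c.2.1,
    by have := i.2; have := j.2; dsimp only; omega, c.2.2.2⟩

theorem kl4_xv (j : ℕ) (c : Gr N L) : (kl4x j c).1 = (min c.1.1 j, c.1.2.1, c.1.2.2) := rfl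

theorem kl4_zv (j : ℕ) (c : Gr N L) : (kl4z j c).1 = (c.1.1, c.1.2.1, min c.1.2.2 j) := rfl

theorem kl4_yv (i j : Fin 7) (c : Gr N L) :
    (kl4y i j c).1 = (c.1.1, max (i.1 : ℤ) (min c.1.2.1 j.1), c.1.2.2) := rfl

theorem kl4_col {H : Type} [Group H] {y : ℤ} {η : Gr N L → Gr N L → H}
    (hη : Flat (ord (Gr N L)) {c | c ∈ inner N L ∧ c.1.2.1 = y} η) (j : ℕ) :
    kl4T η {c | (c ∈ inner N L ∧ c.1.2.1 = y) ∧ c.1.1 ≤ 1 ∧ c.1.2.2 ≤ j + 1} := by
  induction j with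
  | zero =>
    refine ⟨fun _ => 1, fun a ha b hb hab => ?_⟩
    obtain rfl : a = b := by
      refine Subtype.ext (Prod.ext ?_ (Prod.ext (ha.1.2.trans hb.1.2.symm) ?_)) <;>
        simp only [inner, Set.mem_ofPred_eq] at ha hb <;> omega
    simpa using hη a ha.1 a ha.1 a ha.1 hab hab hab
  | succ j ih =>
    refine kl4_step (kl4_mono hη fun _ h => h.1) (kl4z (j + 1)) (fun x hx => ?_) (fun x hx => ?_)
      ((Nat.even_or_odd j).symm.imp (fun h x hx => ?_) fun h x hx => ?_) (fun x hx y hy h => ?_) ih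
    all_goals
      simp only [inner, kl4_zv, Set.mem_ofPred_eq, Gr.le_iff, zle, Int.even_iff, Nat.even_iff,
        Nat.odd_iff, true_or, true_and, and_true] at *
      omega

theorem kl4_lay {H : Type} [Group H] {y : ℤ} {η : Gr N L → Gr N L → H}
    (hη : Flat (ord (Gr N L)) {c | c ∈ inner N L ∧ c.1.2.1 = y} η) (j : ℕ) :
    kl4T η {c | (c ∈ inner N L ∧ c.1.2.1 = y) ∧ c.1.1 ≤ j + 1} := by
  induction j with
  | zero =>
    obtain ⟨β, hβ⟩ := kl4_col hη (2 * L + 1)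
    have k : ∀ a : Gr N L, a.1.2.2 ≤ ((2 * L + 1 : ℕ) : ℤ) + 1 := fun a => by
      have := a.2.2.2.2
      omega
    exact ⟨β, fun a ha b hb => hβ a ⟨ha.1, ha.2, k a⟩ b ⟨hb.1, hb.2, k b⟩⟩
  | succ j ih =>
    refine kl4_step (kl4_mono hη fun _ h => h.1) (kl4x (j + 1)) (fun x hx => ?_) (fun x hx => ?_)
      ((Nat.even_or_odd j).symm.imp (fun h x hx => ?_) fun h x hx => ?_) (fun x hx y hy h => ?_) ih
    all_goals
      simp only [inner, kl4_xv, Set.mem_ofPred_eq, Gr.le_iff, zle, Int.even_iff, Nat.even_iff,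
        Nat.odd_iff, true_or, true_and, and_true] at *
      omega

theorem kl4_P {c : ℤ × ℤ × ℤ} :
    isP ty c = true ↔ 5 ≤ c.2.1 ∨ (3 ≤ c.2.1 ∧ (vrt ty c).toNat = 0) := by
  unfold isP
  cases vrt ty c <;> simp

theorem kl4_Q {c : ℤ × ℤ × ℤ} : isQ ty c = true ↔ c.2.1 ≤ 1 ∨
    ((hrz ty c).toNat = 0 ∧ (c.2.1 = 2 ∨ (c.2.1 = 3 ∧ (vrt ty c).toNat = 1))) := by
  unfold isQ
  cases vrt ty c <;> cases hrz ty c <;> simp

theorem kl4_vy (i j : Fin 7) (c : Gr N L) : vrt ty (kl4y i j c).1 = vrt ty c.1 := rfl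

theorem kl4_hy (i j : Fin 7) (c : Gr N L) : hrz ty (kl4y i j c).1 = hrz ty c.1 := rfl

theorem flat_layer {H : Type} [Group H] {y : ℤ} (hy : y = 1 ∨ y = 5) {η : Gr N L → Gr N L → H}
    (hη : Flat (ord (Gr N L)) {c | c ∈ inner N L ∧ c.1.2.1 = y} η) : ∃ β : Gr N L → H,
      ∀ a ∈ {c | c ∈ inner N L ∧ c.1.2.1 = y}, ∀ b ∈ {c | c ∈ inner N L ∧ c.1.2.1 = y},
        (ord (Gr N L)).r a b → η a b = (β a)⁻¹ * β b := by
  obtain ⟨β, hβ⟩ := kl4_lay hη (2 * N + 1)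
  have k : ∀ a : Gr N L, a.1.1 ≤ ((2 * N + 1 : ℕ) : ℤ) + 1 := fun a => by
    have := a.2.1.2
    omega
  exact ⟨β, fun a ha b hb => hβ a ⟨ha, k a⟩ b ⟨hb, k b⟩⟩

theorem flat_P {H : Type} [Group H] {η : Gr N L → Gr N L → H}
    (hη : Flat (ord (Gr N L)) {c | c ∈ inner N L ∧ isP ty c.1 = true} η) : ∃ β : Gr N L → H,
      ∀ a ∈ {c | c ∈ inner N L ∧ isP ty c.1 = true}, ∀ b ∈ {c | c ∈ inner N L ∧ isP ty c.1 = true},
        (ord (Gr N L)).r a b → η a b = (β a)⁻¹ * β b := by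
  refine kl4_step (Z := {c | (c ∈ inner N L ∧ isP ty c.1 = true) ∧ 4 ≤ c.1.2.1}) hη (kl4y 4 5)
    (fun _ h => h.1) (fun x hx => ?_) (Or.inl fun x hx => ?_) (fun x hx y hy h => ?_)
    (kl4_step (kl4_mono hη fun _ h => h.1) (kl4y 5 5) (fun x hx => ?_) (fun x hx => ?_)
      (Or.inr fun x hx => ?_) (fun x hx y hy h => ?_)
      (flat_layer (Or.inr rfl) (kl4_mono hη fun x hx => ?_)))
  all_goals
    simp only [Set.mem_ofPred_eq, kl4_P, kl4_vy] at *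
    simp only [inner, kl4_yv, Set.mem_ofPred_eq, Gr.le_iff, zle, Int.even_iff,
      Fin.coe_ofNat_eq_mod, true_or, true_and, and_true] at *
    omega

theorem flat_Q {H : Type} [Group H] {η : Gr N L → Gr N L → H}
    (hη : Flat (ord (Gr N L)) {c | c ∈ inner N L ∧ isQ ty c.1 = true} η) : ∃ β : Gr N L → H,
      ∀ a ∈ {c | c ∈ inner N L ∧ isQ ty c.1 = true}, ∀ b ∈ {c | c ∈ inner N L ∧ isQ ty c.1 = true},
        (ord (Gr N L)).r a b → η a b = (β a)⁻¹ * β b := by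
  refine kl4_step (Z := {c | (c ∈ inner N L ∧ isQ ty c.1 = true) ∧ c.1.2.1 ≤ 2}) hη (kl4y 1 2)
    (fun _ h => h.1) (fun x hx => ?_) (Or.inl fun x hx => ?_) (fun x hx y hy h => ?_)
    (kl4_step (kl4_mono hη fun _ h => h.1) (kl4y 1 1) (fun x hx => ?_) (fun x hx => ?_)
      (Or.inr fun x hx => ?_) (fun x hx y hy h => ?_)
      (flat_layer (Or.inl rfl) (kl4_mono hη fun x hx => ?_)))
  all_goals
    simp only [Set.mem_ofPred_eq, kl4_Q, kl4_vy, kl4_hy] at *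
    simp only [inner, kl4_yv, Set.mem_ofPred_eq, Gr.le_iff, zle, Int.even_iff,
      Fin.coe_ofNat_eq_mod, true_or, true_and, and_true] at *
    omega

theorem kl4_vrt (hg : Grid N L ty) {c e : ℤ × ℤ × ℤ} (h1 : zle c.1 e.1) (h2 : zle c.2.2 e.2.2)
    (h : vrt ty e = true) : vrt ty c = true := by
  obtain ⟨x, y, z⟩ := c
  obtain ⟨x', y', z'⟩ := e
  simp only [zle, Int.even_iff] at h1 h2
  simp only [vrt, onK] at h ⊢
  by_cases hx : x' % 2 = 0
  · obtain rfl : x = x' := by omega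
    rcases h2 with rfl | ⟨hz, rfl | rfl⟩
    · exact h
    · rw [if_pos hx, if_neg (by omega), show (z + 1) / 2 = z / 2 by omega] at h
      simp_all
    · rw [if_pos hx, if_neg (by omega), hg.vert, show (z - 1) / 2 + 1 = z / 2 by omega] at h
      simp_all
  · rw [if_neg hx] at h
    split_ifs at h
    simp at h

theorem pq_le (hg : Grid N L ty) {c e : Gr N L} (h : c ≤ e) :
    ¬ (isP ty c.1 = true ∧ isQ ty e.1 = true ∧ c ∈ inner N L) ∧
      (isQ ty c.1 = true → isP ty e.1 = true → e.1.2.1 = 3 ∧ (c.1.2.1 = 2 ∨ c.1.2.1 = 3)) := by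
  have h1 : (vrt ty e.1).toNat = 1 → (vrt ty c.1).toNat = 1 := fun k => by
    rw [kl4_vrt hg h.1 h.2.2 (Bool.toNat_eq_one.1 k)]
    rfl
  have h2 := h.2.1
  simp only [kl4_P, kl4_Q, zle, Int.even_iff] at *
  refine ⟨fun k => ?_, fun k k' => ?_⟩
  · have := k.1
    have := k.2.1
    omega
  · omega

end KG
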