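import Pool.Agent.Work.MP_c146e2_gt.KG.KL2
import Pool.Agent.Work.MP_c146e2_gt.KG.KL4

set_option autoImplicit false

noncomputable section

open scoped Classical

namespace KG

variable {V V' : Type}

open RankGenus

section

variable {N L : ℕ} {ty : ℤ → ℤ → CT} {H : Type} [Group H] {η : Gr N L → Gr N L → H}
  {a b c e F : Gr N L}

/-- The cell of height three over a face. -/
def kl5F (N L : ℕ) (i k : ℤ) : Gr N L :=
  ⟨(2 * max 0 (min i N) + 1, 3, 2 * max 0 (min k L) + 1), by dsimp only; omega⟩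

/-- The cell of height two in the same column. -/
def kl5g (c : Gr N L) : Gr N L := ⟨(c.1.1, 2, c.1.2.2), c.2.1, by dsimp only; omega, c.2.2.2⟩

def kl5P (ty : ℤ → ℤ → CT) (c : Gr N L) : Prop := c ∈ inner N L ∧ isP ty c.1 = true

def kl5Q (ty : ℤ → ℤ → CT) (c : Gr N L) : Prop := c ∈ inner N L ∧ isQ ty c.1 = true

def kl5Fc (F : Gr N L) : Prop := F.1.1 % 2 = 1 ∧ F.1.2.1 = 3 ∧ F.1.2.2 % 2 = 1

/-- Flat and trivial on both sides of the diagram. -/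
structure kl5T (ty : ℤ → ℤ → CT) (η : Gr N L → Gr N L → H) : Prop where
  fl : Flat (ord (Gr N L)) (Uc N L ty) η
  p : ∀ a b, kl5P ty a → kl5P ty b → (ord (Gr N L)).r a b → η a b = 1
  q : ∀ a b, kl5Q ty a → kl5Q ty b → (ord (Gr N L)).r a b → η a b = 1

theorem kl5_le : c ≤ e ↔ (c.1.1 = e.1.1 ∨ c.1.1 % 2 = 0 ∧ (e.1.1 = c.1.1 + 1 ∨ e.1.1 = c.1.1 - 1)) ∧
    (c.1.2.1 = e.1.2.1 ∨ c.1.2.1 % 2 = 0 ∧ (e.1.2.1 = c.1.2.1 + 1 ∨ e.1.2.1 = c.1.2.1 - 1)) ∧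
    (c.1.2.2 = e.1.2.2 ∨ c.1.2.2 % 2 = 0 ∧ (e.1.2.2 = c.1.2.2 + 1 ∨ e.1.2.2 = c.1.2.2 - 1)) := by
  simp only [Gr.le_iff, zle, Int.even_iff]

theorem kl5_ex (N L : ℕ) (x y z : ℤ)
    (h : (0 < x ∧ x < 2 * N + 2) ∧ (0 < y ∧ y < 6) ∧ 0 < z ∧ z < 2 * L + 2) :
    ∃ c ∈ inner N L, c.1.1 = x ∧ c.1.2.1 = y ∧ c.1.2.2 = z :=
  ⟨⟨(x, y, z), by dsimp only; omega⟩, h, rfl, rfl, rfl⟩

theorem kl5_leF {i k : ℤ} (h : c.1.2.1 = 3) (hi : 0 ≤ i ∧ i ≤ N) (hk : 0 ≤ k ∧ k ≤ L)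
    (h1 : 2 * i ≤ c.1.1 ∧ c.1.1 ≤ 2 * i + 2) (h2 : 2 * k ≤ c.1.2.2 ∧ c.1.2.2 ≤ 2 * k + 2) :
    c ≤ kl5F N L i k := kl5_le.2 (by dsimp only [kl5F]; omega)

theorem kl5_fc (i k : ℤ) : kl5Fc (kl5F N L i k) := by
  dsimp only [kl5Fc, kl5F]
  omega

theorem kl5P.uc (h : kl5P ty c) : c ∈ Uc N L ty := (uc_cls c h.1).1.2 (Or.inl h.2)

theorem kl5Q.uc (h : kl5Q ty c) : c ∈ Uc N L ty := (uc_cls c h.1).1.2 (Or.inr (Or.inl h.2))

theorem kl5_P1 (h : c.1.2.1 = 3) (hx : c.1.1 % 2 = 1) : isP ty c.1 = true := by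
  simp [isP, vrt, onK, h, hx]

theorem kl5_vrt {i k : ℤ} (hx : c.1.1 = 2 * i) (hz : c.1.2.2 = 2 * k + 1) :
    vrt ty c.1 = (ty i k).dn := by
  simp [vrt, onK, hx, hz, show (2 * k + 1) / 2 = k by omega]

theorem kl5_hrz {i k : ℤ} (hx : c.1.1 = 2 * i + 1) (hz : c.1.2.2 = 2 * k) :
    hrz ty c.1 = (ty i k).rt := by
  simp [hrz, onK, hx, hz, show (2 * i + 1) / 2 = i by omega]

theorem kl5_hrz' (hz : c.1.2.2 % 2 = 1) : hrz ty c.1 = false := by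
  simp [hrz, onK, hz]

theorem kl5_Qg (hc : c ∈ inner N L) (h : hrz ty c.1 = false) : kl5Q ty (kl5g c) :=
  ⟨⟨hc.1, by simp [kl5g], hc.2.2⟩, by simpa [isQ, kl5g, hrz] using h⟩

theorem kl5Fc.p (h : kl5Fc F) : kl5P ty F :=
  ⟨by have := F.2; obtain ⟨h1, h2, h3⟩ := h; dsimp only [inner, Set.mem_ofPred_eq]; omega,
    kl5_P1 h.2.1 h.1⟩

theorem kl5T.fa (h : kl5T ty η) (hF : kl5Fc F) (hc : kl5Q ty c) (hle : c ≤ F) :
    η F c = η F (kl5g F) := by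
  have h1 := kl5_le.1 hle
  have h2 := hF.2.1
  have h3 : hrz ty c.1 = false ∧ c.1.2.1 ≤ 3 := by
    have h3 := hc.2
    simp only [isQ, Bool.or_eq_true, Bool.and_eq_true, decide_eq_true_eq, beq_iff_eq,
      Bool.not_eq_true'] at h3
    exact ⟨(h3.resolve_left (by omega)).1, by omega⟩
  have h4 := kl5_Qg hc.1 h3.1
  have h5 := kl5_Qg (ty := ty) (hF.p (ty := ty)).1 (kl5_hrz' hF.2.2)
  have h6 : kl5g c ≤ c := kl5_le.2 (by dsimp only [kl5g]; omega)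
  have h7 : kl5g c ≤ kl5g F := kl5_le.2 (by dsimp only [kl5g]; omega)
  have h8 : kl5g F ≤ F := kl5_le.2 (by dsimp only [kl5g]; omega)
  have h9 := h.fl _ hF.p.uc _ hc.uc _ h4.uc (Or.inr hle) (Or.inr h6) (Or.inr (h6.trans hle))
  rw [← h.fl _ hF.p.uc _ h5.uc _ h4.uc (Or.inr h8) (Or.inr h7) (Or.inr (h6.trans hle)),
    h.q _ _ hc h4 (Or.inr h6), h.q _ _ h5 h4 (Or.inr h7)] at h9
  exact mul_right_cancel h9

theorem kl5T.fb (h : kl5T ty η) (hF : kl5Fc F) (he : kl5P ty e) (hc : kl5Q ty c) (h1 : c ≤ e)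
    (h2 : e ≤ F) : η e c = η F (kl5g F) := by
  rw [← h.fa hF hc (h1.trans h2), ← h.fl _ hF.p.uc _ he.uc _ hc.uc (Or.inr h2) (Or.inr h1)
    (Or.inr (h1.trans h2)), h.p _ _ hF.p he (Or.inr h2), one_mul]

theorem kl5T.fc (h : kl5T ty η) (hF : kl5Fc F) (ha : a ∈ Uc N L ty) (hb : kl5P ty b) (h1 : a ≤ b)
    (h2 : b ≤ F) : η a b = η a F := by
  rw [← h.fl _ ha _ hb.uc _ hF.p.uc (Or.inl h1) (Or.inl h2) (Or.inl (h1.trans h2)),
    h.p _ _ hb hF.p (Or.inl h2), mul_one]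

theorem kl5T.d (h : kl5T ty η) (hF : kl5Fc F) (ha : a ∈ Uc N L ty) (hb : kl5Q ty b) (h1 : a ≤ b)
    (h2 : b ≤ F) : η a b = η a F * η F (kl5g F) := by
  rw [← h.fa hF hb h2, h.fl _ ha _ hF.p.uc _ hb.uc (Or.inl (h1.trans h2)) (Or.inr h2) (Or.inl h1)]

/-- The label of a face. -/
def kl5r (η : Gr N L → Gr N L → H) (i k : ℤ) : H := η (kl5F N L i k) (kl5g (kl5F N L i k))

theorem kl5T.dn (h : kl5T ty η) (hg : Grid N L ty) (i k : ℤ) (hd : (ty i k).dn = false) :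
    kl5r η (i - 1) k = kl5r η i k := by
  by_cases hi : 0 < i ∧ i ≤ N
  swap
  · simp only [kl5r, kl5F, show max 0 (min (i - 1) N) = max 0 (min i N) by omega]
  wlog hk : 0 ≤ k ∧ k ≤ L generalizing k
  · have h1 := this (max 0 (min k L)) ?_ (by omega)
    · simpa only [kl5r, kl5F, show max 0 (min (max 0 (min k L)) L) = max 0 (min k L) by omega]
        using h1
    · rw [hg.vert]
      rcases lt_or_ge k 0 with h2 | h2
      · rw [← hg.vert, hg.out _ _ (by omega)]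
        rfl
      · rw [hg.out _ _ (by omega)]
        rfl
  obtain ⟨e, e0, e1, e2, e3⟩ := kl5_ex N L (2 * i) 3 (2 * k + 1) (by omega)
  have h1 : kl5P ty e := ⟨e0, by simp [isP, e2, kl5_vrt e1 e3, hd]⟩
  have h2 := kl5_Qg (ty := ty) e0 (kl5_hrz' (by omega))
  have h3 : kl5g e ≤ e := kl5_le.2 (by dsimp only [kl5g]; omega)
  exact (h.fb (kl5_fc _ _) h1 h2 h3 (kl5_leF e2 (by omega) hk (by omega) (by omega))).symm.trans
    (h.fb (kl5_fc _ _) h1 h2 h3 (kl5_leF e2 (by omega) hk (by omega) (by omega)))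

theorem kl5T.rt (h : kl5T ty η) (hg : Grid N L ty) (i k : ℤ) (hd : (ty i k).rt = false) :
    kl5r η i (k - 1) = kl5r η i k := by
  by_cases hk : 0 < k ∧ k ≤ L
  swap
  · simp only [kl5r, kl5F, show max 0 (min (k - 1) L) = max 0 (min k L) by omega]
  wlog hi : 0 ≤ i ∧ i ≤ N generalizing i
  · have h1 := this (max 0 (min i N)) ?_ (by omega)
    · simpa only [kl5r, kl5F, show max 0 (min (max 0 (min i N)) N) = max 0 (min i N) by omega]
        using h1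
    · rw [hg.hor]
      rcases lt_or_ge i 0 with h2 | h2
      · rw [← hg.hor, hg.out _ _ (by omega)]
        rfl
      · rw [hg.out _ _ (by omega)]
        rfl
  obtain ⟨e, e0, e1, e2, e3⟩ := kl5_ex N L (2 * i + 1) 3 (2 * k) (by omega)
  have h1 : kl5P ty e := ⟨e0, kl5_P1 e2 (by omega)⟩
  have h2 := kl5_Qg e0 ((kl5_hrz e1 e3).trans hd)
  have h3 : kl5g e ≤ e := kl5_le.2 (by dsimp only [kl5g]; omega)
  exact (h.fb (kl5_fc _ _) h1 h2 h3 (kl5_leF e2 hi (by omega) (by omega) (by omega))).symm.trans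
    (h.fb (kl5_fc _ _) h1 h2 h3 (kl5_leF e2 hi (by omega) (by omega) (by omega)))

theorem kl5T.x (h : kl5T ty η) (hg : Grid N L ty) {i k : ℤ} (hX : ty i k = .X)
    (ha : a ∈ Uc N L ty) (a1 : a.1.1 = 2 * i) (a2 : a.1.2.1 = 3) (a3 : a.1.2.2 = 2 * k) :
    η a (kl5F N L (i - 1) k) = η a (kl5F N L (i - 1) (k - 1)) ∧
      η a (kl5F N L i k) = η a (kl5F N L i (k - 1)) ∧
      η a (kl5F N L (i - 1) (k - 1)) * kl5r η (i - 1) (k - 1) =
        η a (kl5F N L i (k - 1)) * kl5r η i (k - 1) ∧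
      η a (kl5F N L (i - 1) k) * kl5r η (i - 1) k = η a (kl5F N L i k) * kl5r η i k := by
  obtain ⟨⟨h1, h2, h3⟩, -⟩ := id ha
  have k1 : ∀ j, j = i - 1 ∨ j = i → η a (kl5F N L j k) = η a (kl5F N L j (k - 1)) := fun j hj => by
    obtain ⟨e, e0, e1, e2, e3⟩ := kl5_ex N L (2 * j + 1) 3 (2 * k) (by omega)
    have h4 : kl5P ty e := ⟨e0, kl5_P1 e2 (by omega)⟩
    have h5 : a ≤ e := kl5_le.2 (by omega)
    exact (h.fc (kl5_fc _ _) ha h4 h5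
      (kl5_leF e2 (by omega) (by omega) (by omega) (by omega))).symm.trans
      (h.fc (kl5_fc _ _) ha h4 h5 (kl5_leF e2 (by omega) (by omega) (by omega) (by omega)))
  have k2 : ∀ j, j = k - 1 ∨ j = k → η a (kl5F N L (i - 1) j) * kl5r η (i - 1) j =
      η a (kl5F N L i j) * kl5r η i j := fun j hj => by
    obtain ⟨e, e0, e1, e2, e3⟩ := kl5_ex N L (2 * i) 3 (2 * j + 1) (by omega)
    have h6 : (ty i j).dn = true := by
      rcases hj with rfl | rfl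
      · rw [hg.vert, sub_add_cancel, hX]
        rfl
      · rw [hX]
        rfl
    have h4 : kl5Q ty e :=
      ⟨e0, by simp [isQ, e2, kl5_vrt e1 e3, h6, kl5_hrz' (show e.1.2.2 % 2 = 1 by omega)]⟩
    have h5 : a ≤ e := kl5_le.2 (by omega)
    exact (h.d (kl5_fc _ _) ha h4 h5
      (kl5_leF e2 (by omega) (by omega) (by omega) (by omega))).symm.trans
      (h.d (kl5_fc _ _) ha h4 h5 (kl5_leF e2 (by omega) (by omega) (by omega) (by omega)))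
  exact ⟨k1 _ (Or.inl rfl), k1 _ (Or.inr rfl), k2 _ (Or.inl rfl), k2 _ (Or.inr rfl)⟩

theorem kl5_M (h : isM ty a.1 = true) :
    ∃ i k, ty i k = .X ∧ a.1.1 = 2 * i ∧ a.1.2.1 = 3 ∧ a.1.2.2 = 2 * k := by
  simp only [isM, Bool.and_eq_true, beq_iff_eq] at h
  exact ⟨_, _, h.2, by omega, by omega, by omega⟩

theorem kl5_M_eq (ha : a ∈ Uc N L ty) (h : isM ty b.1 = true) (hle : a ≤ b) : a = b := by
  obtain ⟨i, k, hX, b1, b2, b3⟩ := kl5_M h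
  have h1 := kl5_le.1 hle
  have a1 : a.1.1 = 2 * i := by omega
  have a3 : a.1.2.2 = 2 * k := by omega
  by_contra hn
  have a2 : a.1.2.1 = 2 ∨ a.1.2.1 = 4 := by
    by_contra h2
    exact hn (Subtype.ext (Prod.ext (by omega) (Prod.ext (by omega) (by omega))))
  refine ha.2 ?_
  rcases a2 with a2 | a2 <;> simp [Kc, onK, a1, a2, a3, hX, CT.lf, CT.up]

/-- The gauge at the cells between the strands of a crossing. -/
def kl5m (ty : ℤ → ℤ → CT) (η : Gr N L → Gr N L → H) (c : Gr N L) : H :=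
  if isM ty c.1 = true then (η c (kl5F N L ((c.1.1 - 1) / 2) ((c.1.2.2 - 1) / 2)))⁻¹ else 1

theorem kl5T.mem (h : kl5T ty η) (hg : Grid N L ty) {S : Subgroup H} (hS : ∀ i k, kl5r η i k ∈ S)
    (ha : a ∈ Uc N L ty) (hb : b ∈ Uc N L ty) (hle : a ≤ b) :
    kl5m ty η a * η a b * (kl5m ty η b)⁻¹ ∈ S := by
  by_cases hM : isM ty b.1 = true
  · obtain rfl := kl5_M_eq ha hM hle
    rw [h.fl.self ha, mul_one, mul_inv_cancel]
    exact S.one_mem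
  have ca := uc_cls (ty := ty) a ha.1
  have cb := (uc_cls (ty := ty) b hb.1).1.1 hb
  have hF : b.1.2.1 = 3 → b ≤ kl5F N L ((b.1.1 - 1) / 2) ((b.1.2.2 - 1) / 2) := fun h3 => by
    obtain ⟨⟨h1, -, h2⟩, -⟩ := hb
    exact kl5_leF h3 (by omega) (by omega) (by omega) (by omega)
  rw [kl5m, kl5m, if_neg hM, inv_one, mul_one]
  split_ifs with hM'
  · obtain ⟨i, k, hX, a1, a2, a3⟩ := kl5_M hM'
    obtain ⟨x1, x2, x3, -⟩ := h.x hg hX ha a1 a2 a3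
    have h1 := kl5_le.1 hle
    have h2 : (η a (kl5F N L ((a.1.1 - 1) / 2) ((a.1.2.2 - 1) / 2)))⁻¹ *
        η a (kl5F N L ((b.1.1 - 1) / 2) ((b.1.2.2 - 1) / 2)) ∈ S := by
      have h3 : (η a (kl5F N L (i - 1) (k - 1)))⁻¹ * η a (kl5F N L i (k - 1)) ∈ S := by
        rw [eq_mul_inv_of_mul_eq x3.symm, mul_assoc, inv_mul_cancel_left]
        exact S.mul_mem (hS _ _) (S.inv_mem (hS _ _))
      rw [show (a.1.1 - 1) / 2 = i - 1 by omega, show (a.1.2.2 - 1) / 2 = k - 1 by omega]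
      rcases (by omega : (b.1.1 - 1) / 2 = i - 1 ∨ (b.1.1 - 1) / 2 = i) with e1 | e1 <;>
        rcases (by omega : (b.1.2.2 - 1) / 2 = k - 1 ∨ (b.1.2.2 - 1) / 2 = k) with e2 | e2 <;>
        simp only [e1, e2, x1, x2, inv_mul_cancel, S.one_mem, h3]
    rcases cb with cb | cb | cb
    · rwa [h.fc (kl5_fc _ _) ha ⟨hb.1, cb⟩ hle (hF (by omega))]
    · rw [h.d (kl5_fc _ _) ha ⟨hb.1, cb⟩ hle (hF (by omega)), ← mul_assoc]
      exact S.mul_mem h2 (hS _ _)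
    · exact (hM cb).elim
  · rw [one_mul]
    rcases ca.1.1 ha with c1 | c1 | c1 <;> rcases cb with cb | cb | cb <;>
      try contradiction
    · exact h.p _ _ ⟨ha.1, c1⟩ ⟨hb.1, cb⟩ (Or.inl hle) ▸ S.one_mem
    · exact ((pq_le hg hle).1 ⟨c1, cb, ha.1⟩).elim
    · rw [h.fl.inv hb ha (Or.inr hle), h.fb (kl5_fc _ _) ⟨hb.1, cb⟩ ⟨ha.1, c1⟩ hle
        (hF ((pq_le hg hle).2 c1 cb).1)]
      exact S.inv_mem (hS _ _)
    · exact h.q _ _ ⟨ha.1, c1⟩ ⟨hb.1, cb⟩ (Or.inl hle) ▸ S.one_mem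

end

theorem grid_faces {N L : ℕ} {ty : ℤ → ℤ → CT} (hg : Grid N L ty) {H : Type} [Group H]
    {η : Gr N L → Gr N L → H} (hη : Flat (ord (Gr N L)) (Uc N L ty) η) :
    ∃ (ρ : ℤ → ℤ → H) (β : Gr N L → H), ρ 0 0 = 1 ∧
      (∀ i k, (ty i k).dn = false → ρ (i - 1) k = ρ i k) ∧
      (∀ i k, (ty i k).rt = false → ρ i (k - 1) = ρ i k) ∧
      (∀ i k, ty i k = .X → ρ (i - 1) (k - 1) * (ρ i (k - 1))⁻¹ = ρ (i - 1) k * (ρ i k)⁻¹) ∧
      ∀ S : Subgroup H, (∀ i k, ρ i k ∈ S) → ∀ a ∈ Uc N L ty, ∀ b ∈ Uc N L ty,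
        (ord (Gr N L)).r a b → β a * η a b * (β b)⁻¹ ∈ S := by
  obtain ⟨βP, hP⟩ := flat_P (ty := ty) fun a ha b hb c hc =>
    hη a (kl5P.uc ha) b (kl5P.uc hb) c (kl5P.uc hc)
  obtain ⟨βQ, hQ⟩ := flat_Q (ty := ty) fun a ha b hb c hc =>
    hη a (kl5Q.uc ha) b (kl5Q.uc hb) c (kl5Q.uc hc)
  let β : Gr N L → H := fun c => if isP ty c.1 = true then βP c else
    βP (kl5F N L 0 0) * η (kl5F N L 0 0) (kl5g (kl5F N L 0 0)) * (βQ (kl5g (kl5F N L 0 0)))⁻¹ * βQ c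
  have hn : ∀ c : Gr N L, kl5Q ty c → ¬ isP ty c.1 = true := fun c hc h =>
    (uc_cls c hc.1).2.1 ⟨h, hc.2⟩
  have h : kl5T ty fun a b => β a * η a b * (β b)⁻¹ := ⟨hη.gauge β, fun a b ha hb r => by
    simp [β, ha.2, hb.2, hP a ha b hb r], fun a b ha hb r => by
    simp [β, hn a ha, hn b hb, hQ a ha b hb r, mul_assoc]⟩
  refine ⟨kl5r _, fun c => kl5m ty (fun a b => β a * η a b * (β b)⁻¹) c * β c, ?_, h.dn hg, h.rt hg,
    fun i k hX => ?_, fun S hS => ?_⟩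
  · have h1 := (kl5_fc (N := N) (L := L) 0 0).p (ty := ty)
    simp [kl5r, β, h1.2, hn _ (kl5_Qg h1.1 (kl5_hrz' (kl5_fc 0 0).2.2)), mul_assoc]
  · have h1 : ¬ (i ≤ 0 ∨ k ≤ 0 ∨ (N : ℤ) < i ∨ (L : ℤ) < k) := fun h1 => by
      rw [hg.out i k h1] at hX
      cases hX
    obtain ⟨a, a0, a1, a2, a3⟩ := kl5_ex N L (2 * i) 3 (2 * k) (by omega)
    obtain ⟨x1, x2, x3, x4⟩ := h.x hg hX ((uc_cls a a0).1.2 (Or.inr (Or.inr (by
      simp [isM, a1, a2, a3, hX])))) a1 a2 a3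
    rw [x1, x2] at x4
    rw [eq_inv_mul_of_mul_eq x3, eq_inv_mul_of_mul_eq x4]
    simp only [mul_assoc, mul_inv_cancel]
  · have h1 : ∀ a ∈ Uc N L ty, ∀ b ∈ Uc N L ty, a ≤ b → _ := fun a ha b hb r => h.mem hg hS ha hb r
    intro a ha b hb r
    rcases r with r | r
    · simpa only [mul_inv_rev, mul_assoc] using h1 a ha b hb r
    · rw [hη.inv hb ha (Or.inl r)]
      simpa only [mul_inv_rev, mul_assoc, inv_inv] using S.inv_mem (h1 b hb a ha r)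

theorem kl5_ind {p : ℤ → Prop} (h : ∀ i, p (i - 1) ↔ p i) (h0 : p 0) (i : ℤ) : p i := by
  induction i using Int.induction_on with
  | zero => exact h0
  | succ i ih => exact (h _).1 (by rwa [add_sub_cancel_right])
  | pred i ih => exact (h _).2 ih

theorem lay_gen {T : Word} (hT : IsKnot T) {m : ℕ} (hG : Gen T m) {top : List Bool}
    {rows : List (List CT)} (hl : Lay top (close T) rows) (h0 : top.count true = 0)
    (hne : top ≠ []) : GenN (ord (Gr top.length rows.length))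
      (Uc top.length rows.length (tyOf rows)) (m + 1) := by
  intro H _ η hη
  have hg := hl.grid h0 hne (List.cons_ne_nil _ _)
  obtain ⟨ρ, β, r0, r1, r2, r3, r4⟩ := grid_faces hg hη
  have r5 : ∀ i k, (tyOf rows i k).up = false → ρ (i - 1) (k - 1) = ρ i (k - 1) := fun i k h =>
    r1 _ _ (by rwa [hg.vert, sub_add_cancel])
  have r6 : ∀ i k, (tyOf rows i k).lf = false → ρ (i - 1) (k - 1) = ρ (i - 1) k := fun i k h =>
    r2 _ _ (by rwa [hg.hor, sub_add_cancel])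
  obtain ⟨x, cs, M, h1, h2⟩ := lay_close (S := grpSys H) inv_inv hT hl h0
    (v := fun i k => ρ (i - 1) k * (ρ i k)⁻¹) (h := fun i k => ρ i (k - 1) * (ρ i k)⁻¹)
    ⟨fun i k h => by rw [r2 i k (h ▸ rfl), r6 i k (h ▸ rfl)],
      fun i k h => by rw [r1 i k (h ▸ rfl), r5 i k (h ▸ rfl)],
      fun i k h => ⟨r3 i k h, by
        rw [eq_mul_of_mul_inv_eq (r3 i k h)]
        simp [grpSys, mul_assoc], by
        rw [eq_mul_of_mul_inv_eq (r3 i k h)]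
        simp [grpSys, mul_assoc]⟩,
      fun i k h => by rw [← r5 i k (h ▸ rfl), r6 i k (h ▸ rfl)],
      fun i k h => by simp [grpSys, r5 i k (h ▸ rfl), r2 i k (h ▸ rfl)],
      fun i k h => by simp [grpSys, r6 i k (h ▸ rfl), r1 i k (h ▸ rfl)],
      fun i k h => by rw [r1 i k (h ▸ rfl), r2 i k (h ▸ rfl)]⟩
  obtain ⟨ys, rfl, h3⟩ := hG H x cs M h1
  refine ⟨β, (x :: ys).get, r4 _ fun i k => ?_⟩
  set S := Subgroup.closure (Set.range (x :: ys).get)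
  have h4 : ∀ y ∈ x :: ys, y ∈ S := fun y hy => Subgroup.subset_closure (List.mem_iff_get.1 hy)
  have h5 := h2 (· ∈ S) ⟨fun _ => S.inv_mem, fun _ _ a b => S.mul_mem (S.mul_mem a b) (S.inv_mem a),
    fun _ _ a b => S.mul_mem (S.mul_mem (S.inv_mem b) a) b⟩ (h4 _ List.mem_cons_self)
    (h3 S (h4 _ List.mem_cons_self) fun y hy => h4 y (List.mem_cons_of_mem _ hy))
  have h6 : ∀ a b : H, a * b⁻¹ ∈ S → (a ∈ S ↔ b ∈ S) := fun a b h =>
    ⟨fun k => S.inv_mem_iff.1 ((S.mul_mem_cancel_left k).1 h),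
      fun k => (S.mul_mem_cancel_right (S.inv_mem k)).1 h⟩
  refine kl5_ind (p := fun i => ρ i k ∈ S) (fun i => ?_)
    (kl5_ind (p := fun k => ρ 0 k ∈ S) (fun k => ?_) (r0 ▸ S.one_mem) k) i
  · cases h : (tyOf rows i k).dn
    · rw [r1 i k h]
    · exact h6 _ _ ((h5 i k).1 h)
  · cases h : (tyOf rows 0 k).rt
    · rw [r2 0 k h]
    · exact h6 _ _ ((h5 0 k).2 h)

end KG
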