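import Pool.Agent.Work.MP_c146e2_gt.KG.KMa

set_option autoImplicit false

namespace KG

open RankGenus RankGenus.Kind

theorem km_un : ∀ b ∈ eB3, okB b = true → kmB un b = true :=
  km_of (by decide +kernel)

end KG
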