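import Pool.Agent.Work.MP_c146e2_gt.KG.KR1

set_option autoImplicit false

noncomputable section

open scoped Classical

namespace KG

open RankGenus

theorem SL_succ (n : ℕ) (F : List BB → Cy) : SL (n + 1) F = ∑ a, SL n fun l => F (a :: l) := by
  unfold SL
  rw [← (Fin.consEquiv fun _ : Fin (n + 1) => BB).sum_comp, Fintype.sum_prod_type]
  refine Finset.sum_congr rfl fun a _ => Finset.sum_congr rfl fun v _ => ?_
  simp [Fin.consEquiv, List.ofFn_succ]

theorem kr2_wE {act : Bool} {u : BB} {r r' : Bool} (h : wE act u r r' ≠ 0) :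
    indE act u r r' = true := by
  by_contra h'
  exact h (by rw [wE, if_neg h'])

theorem rowW_vld {r : List CT} {L : BB} {nw sw : Bool} {up mid dn : List BB}
    (h : rowW r L nw sw up mid dn ≠ 0) : vld (r.map CT.dn) sw dn := by
  fun_induction rowW r L nw sw up mid dn with
  | case1 t r L nw sw U ne up u R mid D se dn ih =>
    refine ⟨kr2_wE fun h' => h ?_, ih fun h' => h ?_⟩
    · rw [h']; simp
    · rw [h']; simp
  | case2 L nw sw U u D =>
    exact kr2_wE fun h' => h (by rw [h']; simp)
  | case3 => exact absurd rfl h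

theorem kr2_SL_mul (n : ℕ) (k : Cy) (F : List BB → Cy) :
    (SL n fun l => k * F l) = k * SL n F := by
  unfold SL
  rw [Finset.mul_sum]

theorem kr2_SL_sum {ι : Type} [Fintype ι] (n : ℕ) (F : ι → List BB → Cy) :
    (SL n fun l => ∑ i, F i l) = ∑ i, SL n (F i) := by
  unfold SL
  rw [Finset.sum_comm]

theorem RT_cons (t : CT) (r : List CT) (L : BB) (nw sw : Bool) (U ne : BB) (up : List BB)
    (G : List B3 → Cy) : RT (t :: r) L nw sw (U :: ne :: up) G = ∑ u, ∑ R, ∑ D, ∑ se : Bool,
      wV t u U D L R nw ne.1 sw se * wE t.rt R ne.1 se * (wE t.dn D sw se * ddC se) *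
        RT r R ne.1 se up fun c => G (if t.dn then (D.1, D.2, se) :: c else c) := by
  have e : 2 * (t :: r).length + 1 = 2 * r.length + 1 + 1 + 1 := by
    rw [List.length_cons]; ring
  rw [RT, e, SL_succ]
  refine Finset.sum_congr rfl fun u _ => ?_
  rw [SL_succ]
  refine Finset.sum_congr rfl fun R _ => ?_
  simp only [SL_succ (2 * r.length + 1 + 1), SL_succ (2 * r.length + 1), kr2_SL_sum]
  refine Finset.sum_congr rfl fun D _ => ?_
  rw [Fintype.sum_prod_type]
  refine Finset.sum_congr rfl fun se _ => ?_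
  rw [Fintype.sum_bool, RT, ← kr2_SL_mul]
  have h0 : (SL (2 * r.length + 1) fun mid => SL (2 * r.length + 1) fun dn =>
      rowW (t :: r) L nw sw (U :: ne :: up) (u :: R :: mid) (D :: (se, true) :: dn) *
        G (lets (List.map CT.dn (t :: r)) (D :: (se, true) :: dn))) = 0 := by
    have h1 : wF (se, true) = 0 := rfl
    simp only [rowW, h1, mul_zero, zero_mul, SL, Finset.sum_const_zero]
  rw [h0, zero_add]
  congr 1
  funext mid
  rw [← kr2_SL_mul]
  congr 1
  funext dn
  rw [rowW, List.map_cons, lets]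
  cases t.dn <;> simp [wF, mul_assoc]

theorem kr2_single (c : BB → BB → BB → Bool → Cy) (F : BB → BB → Bool → Cy) (R0 D0 : BB)
    (s0 : Bool) (k : Cy) (h : ∀ u R D se, c u R D se =
      if u = (false, false) ∧ R = R0 ∧ D = D0 ∧ se = s0 then k else 0) :
    ∑ u, ∑ R, ∑ D, ∑ se, c u R D se * F R D se = k * F R0 D0 s0 := by
  simp only [h, ite_and, ite_mul, zero_mul, Finset.sum_ite_irrel, Finset.sum_const_zero,
    Finset.sum_ite_eq', Finset.mem_univ, if_true]

variable {r : List CT} {L U ne : BB} {l nw sw : Bool} {up : List BB} {G : List B3 → Cy}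

theorem kr2_col (t : CT) (R0 D0 : BB) (s0 : Bool) (k : Cy) (h : ∀ u R D se,
    wV t u U D L R nw ne.1 sw se * wE t.rt R ne.1 se * (wE t.dn D sw se * ddC se) =
      if u = (false, false) ∧ R = R0 ∧ D = D0 ∧ se = s0 then k else 0) :
    RT (t :: r) L nw sw (U :: ne :: up) G =
      k * RT r R0 ne.1 s0 up fun c => G (if t.dn then (D0.1, D0.2, s0) :: c else c) := by
  rw [RT_cons]
  exact kr2_single _ (fun R D se => RT r R ne.1 se up fun c =>
    G (if t.dn then (D.1, D.2, se) :: c else c)) R0 D0 s0 k h

theorem RT_nil (h : indE false U l false = true) : RT [] L l l [U] G = G [] := by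
  have h1 : l = false := by
    revert h; cases l <;> simp [indE]
  subst h1
  simp only [RT, List.length_nil, Nat.mul_zero, SL_succ 0]
  simp [SL, rowW, lets, wV, wE, indE, Fintype.sum_prod_type, ddC, diC]

theorem RT_E (h : indE false U l ne.1 = true) :
    RT (.E :: r) L l l (U :: ne :: up) G = RT r (false, false) ne.1 ne.1 up G := by
  refine (kr2_col .E (false, false) (false, false) ne.1 1 ?_).trans (one_mul _)
  simp only [wV, CT.rt, CT.dn]
  generalize ne.1 = n at h ⊢
  revert U l n
  decide +kernel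

theorem RT_V (h : indE true U l ne.1 = true) : RT (.V :: r) L l l (U :: ne :: up) G =
    RT r (false, false) ne.1 ne.1 up fun c => G ((U.1, U.2, ne.1) :: c) := by
  refine (kr2_col .V (false, false) U ne.1 1 ?_).trans (one_mul _)
  simp only [wV, CT.rt, CT.dn]
  generalize ne.1 = n at h ⊢
  revert U l n
  decide +kernel

theorem RT_H (h : indE false U nw ne.1 = true) (hL : indE true L nw sw = true) :
    RT (.H :: r) L nw sw (U :: ne :: up) G = RT r L ne.1 sw up G := by
  have h1 : nw = ne.1 := by
    revert h; cases nw <;> cases ne.1 <;> simp [indE]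
  refine (kr2_col .H L (false, false) sw 1 ?_).trans (one_mul _)
  simp only [wV, CT.rt, CT.dn]
  rw [h1] at hL
  generalize ne.1 = n at hL ⊢
  clear h h1
  revert L sw n
  decide +kernel

theorem RT_DL (h : indE false U nw ne.1 = true) (hL : indE true L nw sw = true) :
    RT (.DL :: r) L nw sw (U :: ne :: up) G =
      RT r (false, false) ne.1 ne.1 up fun c => G ((L.1, L.2, ne.1) :: c) := by
  have h1 : nw = ne.1 := by
    revert h; cases nw <;> cases ne.1 <;> simp [indE]
  refine (kr2_col .DL (false, false) L ne.1 1 ?_).trans (one_mul _)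
  simp only [wV, CT.rt, CT.dn]
  rw [h1] at hL
  generalize ne.1 = n at hL ⊢
  clear h h1
  revert L sw n
  decide +kernel

theorem RT_UL : RT (.UL :: r) L nw sw (U :: ne :: up) G =
    (if U = L ∧ ne.1 = sw then vvC L * diC sw else 0) * RT r (false, false) ne.1 ne.1 up G := by
  refine kr2_col .UL (false, false) (false, false) ne.1 _ ?_
  simp only [wV, CT.rt, CT.dn]
  generalize ne.1 = n
  revert U L sw n
  decide +kernel

theorem RT_DR (h : indE false U l ne.1 = true) : RT (.DR :: r) L l l (U :: ne :: up) G =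
    ∑ p : B3, (if okT l p then ddC p.2.2 * wwC (ab p) else 0) *
      RT r (ab p) ne.1 p.2.2 up fun c => G (p :: c) := by
  have h1 : l = ne.1 := by
    revert h; cases l <;> cases ne.1 <;> simp [indE]
  have key : ∀ (n : Bool) (u R D : BB) (se : Bool),
      wS u D R * wE true R n se * (wE true D n se * ddC se) =
        if u = (false, false) then (if R = D then
          (if okT n (D.1, D.2, se) then ddC se * wwC D else 0) else 0) else 0 := by
    decide +kernel
  rw [RT_cons]
  simp only [wV, CT.rt, CT.dn, h1, key, ite_mul, zero_mul, Finset.sum_ite_irrel,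
    Finset.sum_const_zero, Finset.sum_ite_eq', Finset.sum_ite_eq, Finset.mem_univ, if_true]
  simp only [Fintype.sum_prod_type, ab]

theorem RT_UR (h : indE true U l ne.1 = true) :
    RT (.UR :: r) L l l (U :: ne :: up) G = RT r U ne.1 l up G := by
  refine (kr2_col .UR U (false, false) l 1 ?_).trans (one_mul _)
  simp only [wV, CT.rt, CT.dn]
  generalize ne.1 = n at h ⊢
  revert U l n
  decide +kernel

theorem kr2_mul (x y : ℤ × ℤ) : toCy (g1M x y) = toCy x * toCy y := by
  ext <;> simp [toCy, g1M] <;> ring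

theorem kr2_add (x y : ℤ × ℤ) : toCy (g1A x y) = toCy x + toCy y := by
  ext <;> simp [toCy, g1A] <;> ring

theorem kr2_d (a : Bool) : toCy (g1d a) = ddC a := by revert a; decide

theorem kr2_i (a : Bool) : toCy (g1i a) = diC a := by revert a; decide

theorem kr2_t (a b c : Bool) : toCy (g1t a b c) = thC a b c := by revert a b c; decide

theorem kr2_T (a b c d e f : Bool) : toCy (g1T a b c d e f) = ttC a b c d e f := by
  revert a b c d e f; decide +kernel

theorem kr2_Y (U D L R : BB) (nw ne sw se s : Bool) :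
    toCy (g1Y U D L R nw ne sw se s) = wV .X (s, false) U D L R nw ne sw se := by
  simp only [g1Y, wV, Bool.not_false, Bool.true_and]
  split_ifs
  · have h1 : toCy (1, 0) = 1 := rfl
    simp only [g1P, List.foldr, kr2_mul, kr2_d, kr2_i, kr2_t, kr2_T, h1]
    ring
  · rfl

theorem kr2_X (U D L R : BB) (nw ne sw se : Bool) :
    ∑ u, wV .X u U D L R nw ne sw se = toCy (g1X U D L R nw ne sw se) := by
  rw [g1X, kr2_add, kr2_Y, kr2_Y, Fintype.sum_prod_type, Fintype.sum_bool, Fintype.sum_bool,
    Fintype.sum_bool]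
  simp [wV, add_comm]

theorem kr2_tt {a b c d e f : Bool} (h : ttC a b c d e f ≠ 0) :
    adm b c f = true ∧ adm d e f = true := by
  revert a b c d e f; decide +kernel

theorem g1X_adm {U D L R : BB} {nw ne sw se : Bool} (h : toCy (g1X U D L R nw ne sw se) ≠ 0) :
    indE true R ne se = true ∧ indE true D sw se = true ∧ indE true L nw sw = true := by
  rw [← kr2_X] at h
  obtain ⟨u, -, hu⟩ := Finset.exists_ne_zero_of_sum_ne_zero h
  simp only [wV] at hu
  split_ifs at hu with hc
  · simp only [Bool.and_eq_true, beq_iff_eq] at hc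
    obtain ⟨⟨-, h1⟩, h2⟩ := hc
    have a1 := kr2_tt (left_ne_zero_of_mul (right_ne_zero_of_mul (left_ne_zero_of_mul hu)))
    have a2 := kr2_tt (right_ne_zero_of_mul (right_ne_zero_of_mul (left_ne_zero_of_mul hu)))
    have a3 := kr2_tt (left_ne_zero_of_mul (right_ne_zero_of_mul hu))
    have a4 := kr2_tt (right_ne_zero_of_mul (right_ne_zero_of_mul hu))
    simp only [indE, if_true, ← h1, ← h2, a1, a2, a3, a4, Bool.and_self, and_self]
  · exact absurd rfl hu

theorem kr2_ww {R : BB} {a b : Bool} (h : indE true R a b = true) : wE true R a b = wwC R := by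
  revert R a b; decide +kernel

theorem RT_X : RT (.X :: r) L nw sw (U :: ne :: up) G = ∑ p : B3, ∑ R : BB,
    toCy (g1X U (ab p) L R nw ne.1 sw p.2.2) * (wwC R * wwC (ab p) * ddC p.2.2) *
      RT r R ne.1 p.2.2 up fun c => G (p :: c) := by
  have key : ∀ (R D : BB) (se : Bool) (F : Cy),
      ∑ u, wV .X u U D L R nw ne.1 sw se * wE true R ne.1 se * (wE true D sw se * ddC se) * F =
        toCy (g1X U D L R nw ne.1 sw se) * (wwC R * wwC D * ddC se) * F := by
    intro R D se F
    rw [← Finset.sum_mul, ← Finset.sum_mul, ← Finset.sum_mul, kr2_X]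
    by_cases h : toCy (g1X U D L R nw ne.1 sw se) = 0
    · rw [h]; simp
    · obtain ⟨h1, h2, -⟩ := g1X_adm h
      rw [kr2_ww h1, kr2_ww h2]
      ring
  rw [RT_cons, Finset.sum_comm, Finset.sum_comm (s := (Finset.univ : Finset B3))]
  refine Finset.sum_congr rfl fun R _ => ?_
  rw [Finset.sum_comm]
  have e : ∀ f : B3 → Cy, ∑ p, f p = ∑ D : BB, ∑ se, f (D.1, D.2, se) := by
    intro f
    simp only [Fintype.sum_prod_type]
  rw [e]
  refine Finset.sum_congr rfl fun D _ => ?_
  rw [Finset.sum_comm]
  exact Finset.sum_congr rfl fun se _ => key R D se _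

end KG
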