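import Pool.Agent.Work.MP_c146e2_gt.KG.KR1
import Pool.Agent.Work.MP_c146e2_gt.KG.KR2
import Pool.Agent.Work.MP_c146e2_gt.PosB

set_option autoImplicit false

noncomputable section

open scoped Classical

namespace KG

open RankGenus

theorem vld_cons {m nw : Bool} {ms : List Bool} {up : List BB} (h : vld (m :: ms) nw up) :
    ∃ U ne up', up = U :: ne :: up' ∧ indE m U nw ne.1 = true ∧ vld ms ne.1 up' := by
  rcases up with _ | ⟨U, _ | ⟨ne, up⟩⟩
  · exact h.elim
  · exact h.elim
  · exact ⟨U, ne, up, rfl, h⟩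

theorem kr3_eq {U : BB} {a b : Bool} (h : indE false U a b = true) : b = a := by
  revert h
  rcases U with ⟨_ | _, _ | _⟩ <;> cases a <;> cases b <;> decide

variable {A B r : List CT} {L : BB} {l nw sw : Bool}

theorem RQ_pre {Φ : ℕ → Bool → List B3 → (List B3 → Cy) → Cy}
    (hΦ : ∀ i l s c G, Φ (i + 1) l (s :: c) G = Φ i s.2.2 c fun u => G (s :: u))
    (h : ∀ L l, RQ r L l l (Φ 0 l)) (hA : ∀ t ∈ A, t = .E ∨ t = .V) :
    ∀ L l, RQ (A ++ r) L l l (Φ (A.count .V) l) := by
  induction A with
  | nil => exact h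
  | cons t A ih =>
    intro L l up G hv
    have ih' := ih fun x hx => hA x (List.mem_cons_of_mem _ hx)
    obtain ⟨U, ne, up, rfl, h1, h2⟩ := vld_cons hv
    rcases hA t List.mem_cons_self with rfl | rfl
    · rw [List.cons_append, RT_E h1, ih' _ _ up G h2, kr3_eq h1]
      rfl
    · rw [List.cons_append, RT_V h1, ih' _ _ up _ h2, List.count_cons_self]
      exact (hΦ _ l (U.1, U.2, ne.1) _ G).symm

theorem RQ_idle (hB : ∀ t ∈ B, t = .E ∨ t = .V) (L : BB) (l : Bool) :
    RQ B L l l fun c G => G c := by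
  have := RQ_pre (r := []) (Φ := fun _ _ c G => G c) (fun _ _ _ _ _ => rfl)
    (fun L l up G hv => by
      rcases up with _ | ⟨U, _ | ⟨ne, up⟩⟩
      exacts [hv.elim, RT_nil hv, hv.elim]) hB L l
  rwa [List.append_nil] at this

theorem RQ_H {Φ : List B3 → (List B3 → Cy) → Cy} (hL : indE true L nw sw = true)
    (h : RQ r L nw sw Φ) (n : ℕ) : RQ (List.replicate n .H ++ r) L nw sw Φ := by
  induction n with
  | zero => exact h
  | succ n ih =>
    intro up G hv
    obtain ⟨U, ne, up, rfl, h1, h2⟩ := vld_cons hv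
    have e := kr3_eq h1
    rw [e] at h2
    rw [List.replicate_succ, List.cons_append, RT_H h1 hL, e, ih up G h2]
    rfl

theorem RQ_DL (hB : ∀ t ∈ B, t = .E ∨ t = .V) (hL : indE true L nw sw = true) (n : ℕ) :
    RQ (List.replicate n .H ++ .DL :: B) L nw sw fun c G => G ((L.1, L.2, nw) :: c) := by
  refine RQ_H hL (fun up G hv => ?_) n
  obtain ⟨U, ne, up, rfl, h1, h2⟩ := vld_cons hv
  rw [RT_DL h1 hL, RQ_idle hB _ _ up _ h2, kr3_eq h1]
  rfl

def ulF (L : BB) (sw : Bool) : List B3 → (List B3 → Cy) → Cy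
  | t :: c, G => (if ab t = L ∧ t.2.2 = sw then vvC L * diC sw else 0) * G c
  | [], _ => 0

theorem RQ_UL (hB : ∀ t ∈ B, t = .E ∨ t = .V) (hL : indE true L nw sw = true) (n : ℕ) :
    RQ (List.replicate n .H ++ .UL :: B) L nw sw (ulF L sw) := by
  refine RQ_H hL (fun up G hv => ?_) n
  obtain ⟨U, ne, up, rfl, h1, h2⟩ := vld_cons hv
  rw [RT_UL, RQ_idle hB _ _ up _ h2]
  rfl

def xF (Φ : BB → Bool → Bool → List B3 → (List B3 → Cy) → Cy) (L : BB) (nw sw : Bool) :
    List B3 → (List B3 → Cy) → Cy
  | s :: c, G => ∑ p : B3, ∑ R : BB, toCy (g1X (ab s) (ab p) L R nw s.2.2 sw p.2.2) *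
      (wwC R * wwC (ab p) * ddC p.2.2) * Φ R s.2.2 p.2.2 c fun u => G (p :: u)
  | [], _ => 0

theorem RQ_X {Φ : BB → Bool → Bool → List B3 → (List B3 → Cy) → Cy}
    (h : ∀ R ne se, indE true R ne se = true → RQ r R ne se (Φ R ne se))
    (hL : indE true L nw sw = true) (n : ℕ) :
    RQ (List.replicate n .H ++ .X :: r) L nw sw (xF Φ L nw sw) := by
  refine RQ_H hL (fun up G hv => ?_) n
  obtain ⟨U, ne, up, rfl, h1, h2⟩ := vld_cons hv
  rw [RT_X]
  refine Finset.sum_congr rfl fun p _ => Finset.sum_congr rfl fun R _ => ?_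
  by_cases e : toCy (g1X U (ab p) L R nw ne.1 sw p.2.2) = 0
  · rw [e, show toCy (g1X (ab (U.1, U.2, ne.1)) (ab p) L R nw ne.1 sw p.2.2) = 0 from e]
    simp
  · rw [h R _ _ (g1X_adm e).1 up _ h2]
    rfl

theorem RQ_DR {Φ : B3 → List B3 → (List B3 → Cy) → Cy}
    (h : ∀ p : B3, okT l p = true → RQ r (ab p) l p.2.2 (Φ p)) : RQ (.DR :: r) L l l fun c G =>
      ∑ p : B3, (if okT l p then ddC p.2.2 * wwC (ab p) else 0) * Φ p c fun u => G (p :: u) := by
  intro up G hv
  obtain ⟨U, ne, up, rfl, h1, h2⟩ := vld_cons hv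
  have e := kr3_eq h1
  rw [e] at h2
  rw [RT_DR h1, e]
  refine Finset.sum_congr rfl fun p _ => ?_
  split_ifs with q
  · rw [h p q up _ h2]
    rfl
  · simp

theorem RQ_UR {Φ : B3 → List B3 → (List B3 → Cy) → Cy} {Ψ : List B3 → (List B3 → Cy) → Cy}
    (h : ∀ p : B3, okT l p = true → RQ r (ab p) p.2.2 l (Φ p))
    (hΨ : ∀ p c G, okT l p = true → Φ p c G = Ψ (p :: c) G) : RQ (.UR :: r) L l l Ψ := by
  intro up G hv
  obtain ⟨U, ne, up, rfl, h1, h2⟩ := vld_cons hv
  rw [RT_UR h1]
  exact (h (U.1, U.2, ne.1) h1 up G h2).trans (hΨ _ _ G h1)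

theorem kr3_p3 {β : Type} (f : B3 → Cy × β) (F : β → Cy) :
    pair (eB3.map f) F = ∑ p, (f p).1 * F (f p).2 := by
  simp only [eB3, eB2, eB, List.flatMap_cons, List.flatMap_nil, List.map_cons, List.map_nil,
    List.cons_append, List.nil_append, List.append_nil, pair_cons, pair_nil,
    Fintype.sum_prod_type, Fintype.sum_bool]
  ring

theorem kr3_p5 {β : Type} (f : B3 → B2 → Cy × β) (F : β → Cy) :
    pair (eB3.flatMap fun p => eB2.map (f p)) F = ∑ p, ∑ q, (f p q).1 * F (f p q).2 := by
  simp only [eB3, eB2, eB, List.flatMap_cons, List.flatMap_nil, List.map_cons, List.map_nil,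
    List.cons_append, List.nil_append, List.append_nil, pair_cons, pair_nil,
    Fintype.sum_prod_type, Fintype.sum_bool]
  ring

theorem kr3_mul (x y : ℤ × ℤ) : toCy (g1M x y) = toCy x * toCy y := by
  ext <;> simp [toCy, g1M] <;> ring

theorem kr3_P (x : ℤ × ℤ) (p q : BB) (s : Bool) :
    toCy (g1P [x, g1w p, g1w q, g1d s]) = toCy x * (wwC p * wwC q * ddC s) := by
  have h1 : ∀ p, toCy (g1w p) = wwC p := by decide
  have h2 : ∀ s, toCy (g1M (g1d s) (1, 0)) = ddC s := by decide
  simp only [g1P, List.foldr, kr3_mul x, kr3_mul (g1w _), h1, h2, mul_assoc]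

theorem kr3_sw {p : B3} (h : okT l p = true) : indE true (ab p) p.2.2 l = true := by
  simpa [okT, indE, ab, and_comm] using h

theorem kr3_ok {p : B3} (h : okT l p = true) : indE true (ab p) l p.2.2 = true := h

theorem kr3_short (k : Kind) (hk : k.inn = 2) (l : Bool) (G : List B3 → Cy) {c : List B3}
    (hc : c.length < 2) : sysT.step (k, 0) l G c = 0 := by
  rw [LS.step, LS.act, if_neg (by rw [hk]; omega), pair_nil]

theorem RowOf.rq {g : Kind × ℕ} (h : RowOf g r) (L : BB) (l : Bool) :
    RQ r L l l fun c G => sysT.step g l G c := by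
  have pre := fun (k : Kind) (r A : List CT) =>
    RQ_pre (r := r) (A := A) (Φ := fun i l c G => sysT.step (k, i) l G c)
      fun i l s c G => posb_step_cons sysT k i l s c G
  cases h with
  | cre A B n hA hB =>
    refine pre _ _ _ (fun L l up G hv => ?_) hA L l
    rw [RQ_DR (fun p hp => RQ_DL hB (kr3_ok hp) n) up G hv]
    refine Eq.trans ?_ (posb_act_zero sysT .cre l [] _ rfl G).symm
    refine Eq.trans (Finset.sum_congr rfl fun p _ => ?_) (kr3_p3 (fun p =>
      (if okT l p then toCy (g1M (g1d p.2.2) (g1w (ab p))) else 0, [p, (p.1, p.2.1, l)])) _).symm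
    have : ∀ p : B3, toCy (g1M (g1d p.2.2) (g1w (ab p))) = ddC p.2.2 * wwC (ab p) := by decide
    simp only [this]
    rfl
  | ann A B n hA hB =>
    refine pre _ _ _ (fun L l => RQ_UR (fun p hp => RQ_UL hB (kr3_sw hp) n) ?_) hA L l
    rintro s (_ | ⟨t, c⟩) G hs
    · exact (kr3_short .ann rfl l G (by simp)).symm
    refine Eq.trans ?_ (posb_act_zero sysT .ann l [s, t] c rfl G).symm
    have : ∀ (l : Bool) (s t : B3), okT l s = true →
        (if ab t = ab s ∧ t.2.2 = l then vvC (ab s) * diC l else 0) =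
          if okT l s && t == (s.1, s.2.1, l) then toCy (g1M (g1i l) (g1v (ab s))) else 0 := by
      decide +kernel
    rw [ulF, this l s t hs]
    exact (add_zero _).symm
  | ov A B n n' hA hB =>
    refine pre _ _ _ (fun L l up G hv => ?_) hA L l
    rw [RQ_DR (fun p hp => RQ_X (Φ := fun R _ se => ulF R se)
      (fun R ne se hR => RQ_UL hB hR n') (kr3_ok hp) n) up G hv]
    generalize lets _ up = c
    beta_reduce
    rcases c with _ | ⟨s, _ | ⟨t, c⟩⟩
    · rw [kr3_short .ov rfl l G (by simp)]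
      simp [xF]
    · rw [kr3_short .ov rfl l G (by simp)]
      simp [xF, ulF]
    refine Eq.trans ?_ (posb_act_zero sysT .ov l [s, t] c rfl G).symm
    refine Eq.trans (Finset.sum_congr rfl fun p _ => ?_) (kr3_p5 (fun p q =>
      (toCy (g1P [g1X (ab s) q (ab p) (ab t) l s.2.2 p.2.2 t.2.2, g1w (ab p), g1w q, g1d p.2.2]),
        [p, (q.1, q.2, t.2.2)])) _).symm
    have e3 : ∀ F : B3 → Cy, ∑ q, F q = ∑ q : BB, ∑ x, F (q.1, q.2, x) := fun F => by
      simp only [Fintype.sum_prod_type]
    have e4 : ∀ (p : BB) (x : Bool), wwC p * vvC p = 1 ∧ ddC x * diC x = 1 := by decide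
    rw [xF, e3, Finset.mul_sum]
    refine Finset.sum_congr rfl fun q _ => ?_
    rw [Fintype.sum_eq_single t.2.2 fun x hx => by simp [ulF, hx.symm],
      Fintype.sum_eq_single (ab t) fun x hx => by simp [ulF, hx.symm], ulF,
      if_pos (c := _ ∧ _) ⟨rfl, rfl⟩, kr3_P]
    have e5 := e4 (ab t) t.2.2
    by_cases e : toCy (g1X (ab s) q (ab p) (ab t) l s.2.2 p.2.2 t.2.2) = 0
    · simp [ab] at e ⊢
      simp [e]
    · rw [if_pos (show okT l p = true from (g1X_adm e).2.2)]
      dsimp only [ab, List.cons_append, List.nil_append] at e5 ⊢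
      generalize G _ = x
      generalize toCy _ = y
      linear_combination ddC p.2.2 * wwC (p.1, p.2.1) * y * wwC q * x *
        (ddC t.2.2 * diC t.2.2 * e5.1 + e5.2)
  | un A B n n' hA hB =>
    refine pre _ _ _ (fun L l => RQ_UR (fun p hp => RQ_X (Φ := fun R ne _ c G => G ((R.1, R.2, ne) :: c))
      (fun R ne se hR => RQ_DL hB hR n') (kr3_sw hp) n) ?_) hA L l
    rintro s (_ | ⟨t, c⟩) G hs
    · exact (kr3_short .un rfl l G (by simp)).symm
    refine Eq.trans ?_ (posb_act_zero sysT .un l [s, t] c rfl G).symm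
    refine Eq.trans (Finset.sum_congr rfl fun p _ => Finset.sum_congr rfl fun q _ => ?_)
      (kr3_p5 (fun p q =>
        (toCy (g1P [g1X (ab t) (ab p) (ab s) q s.2.2 t.2.2 l p.2.2, g1w (ab p), g1w q, g1d p.2.2]),
          [p, (q.1, q.2, t.2.2)])) _).symm
    simp only [kr3_P, mul_comm (wwC q)]
    rfl

theorem kr3_bot (n : ℕ) : ∀ (L : BB) (up : List BB), vld (List.replicate n false) false up →
    SL (2 * n + 1) (fun mid => rowW (List.replicate n .E) L false false up mid
      (List.replicate (2 * n + 1) (false, false))) = 1 := by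
  induction n with
  | zero =>
    intro L up hv
    rcases up with _ | ⟨U, _ | ⟨ne, up⟩⟩
    · exact hv.elim
    · rw [SL_succ]
      simp only [SL, Fintype.sum_prod_type, Fintype.sum_bool]
      simp [rowW, wV, wE, indE, ddC, diC]
    · exact hv.elim
  | succ n ih =>
    intro L up hv
    obtain ⟨U, ne, up, rfl, h1, h2⟩ := vld_cons hv
    have e := kr3_eq h1
    rw [e] at h2
    have key : ∀ u R : BB, SL (2 * n + 1) (fun mid => rowW (List.replicate (n + 1) .E) L false false
        (U :: ne :: up) (u :: R :: mid) (List.replicate (2 * n + 1 + 1 + 1) (false, false))) =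
        wV .E u U (false, false) L R false false false false * wE false R false false := by
      intro u R
      have := ih R up h2
      simp only [SL, List.replicate_succ (n := n), List.replicate_succ (n := 2 * n + 1 + 1),
        List.replicate_succ (n := 2 * n + 1), rowW, e, ← Finset.mul_sum] at this ⊢
      rw [this]
      simp [wE, wF, indE, ddC, diC, CT.dn, CT.rt]
    rw [show 2 * (n + 1) + 1 = 2 * n + 1 + 1 + 1 from rfl, SL_succ]
    simp only [SL_succ (2 * n + 1), key, Fintype.sum_prod_type, Fintype.sum_bool]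
    simp [wV, wE, indE, ddC, diC]

theorem kr3_row {N : ℕ} (hr : r.length = N) {rows : List (List CT)} {F : List B3 → Cy}
    (h : ∀ dn, vld (false :: r.map CT.dn) false dn →
      ZZ N rows dn = F (lets (false :: r.map CT.dn) dn)) (up : List BB) :
    ZZ N (r :: rows) up = RT (.E :: r) (false, false) false false up F := by
  subst hr
  refine Finset.sum_congr rfl fun mid _ => Finset.sum_congr rfl fun dn _ => ?_
  by_cases e : rowW (.E :: r) (false, false) false false up (List.ofFn mid) (List.ofFn dn) = 0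
  · simp only [e, zero_mul]
  · exact congrArg _ (h _ (rowW_vld e))

theorem kr3_lets (n : ℕ) : ∀ up, lets (List.replicate n false) up = [] := by
  induction n with
  | zero => intro up; rfl
  | succ n ih =>
    rintro (_ | ⟨U, _ | ⟨ne, up⟩⟩)
    exacts [rfl, rfl, ih up]

theorem Lay.zz {top : List Bool} {w : Word} {rows : List (List CT)} (h : Lay top w rows) :
    ∀ up, vld (false :: top) false up → ZZ top.length rows up =
      sysT.back w false (fun _ => 1) (lets (false :: top) up) := by
  induction h with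
  | nil top h0 =>
    intro up hv
    rw [List.eq_replicate_of_mem h0] at hv
    exact kr3_bot (top.length + 1) _ up hv
  | @cons g r w rows hr _ ih =>
    intro up hv
    simp only [List.length_map] at ih ⊢
    rw [kr3_row rfl ih]
    obtain ⟨U, ne, up, rfl, h1, h2⟩ := vld_cons hv
    rw [RT_E h1, hr.rq _ _ up _ h2, kr3_eq h1]
    rfl

theorem kr3_top (n : ℕ) :
    vld (List.replicate n false) false (List.replicate (2 * n + 1) (false, false)) := by
  induction n with
  | zero => rfl
  | succ n ih => exact ⟨rfl, ih⟩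

theorem shadow_lay {top : List Bool} {w : Word} {rows : List (List CT)} (h : Lay top w rows)
    (h0 : top.count true = 0) : shadow top.length rows.length (tyOf rows) = evT w := by
  have e : top = List.replicate top.length false := List.eq_replicate_of_mem fun b hb => by
    cases b
    · rfl
    · exact absurd hb (List.count_eq_zero.1 h0)
  have e1 : (List.replicate top.length CT.E).map CT.dn = top := by
    rw [List.map_replicate]
    exact e.symm
  have e2 : (CT.E :: List.replicate top.length CT.E).map CT.up =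
      List.replicate (top.length + 1) false := by
    rw [← List.replicate_succ, List.map_replicate]
    rfl
  rw [shadow_ZZ h.len.2, kr3_row (List.length_replicate) (by rw [e1]; exact h.zz),
    RQ_idle (by simp) _ _ _ _ (by rw [e2]; exact kr3_top _), e2, kr3_lets]
  rfl

end KG
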