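import Pool.Agent.Work.MP_c146e2_gt.KG.KS4b

set_option autoImplicit false

noncomputable section

open scoped Classical

namespace KG

variable {V V' : Type}

variable {s : ℤ → ℤ → CT} {val : ℤ → ℤ → BB} {x z : ℤ}

theorem ks4_face : (∀ i ∈ ks4L [(1, 1, false)] (fun _ _ => .E) 1 1, ∀ k ∈ i, k ≤ 1) ∧
    ∀ u, ks4V (ks4L [(1, 1, false)] (fun _ _ => .E) 1 1) [u] = wF (u, false) := by
  decide +kernel

def ks4vN : List Ks4N := [(1, 1, false), (3, 1, false), (2, 1, false), (2, 1, true)]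

def ks4vS (act : Bool) (i _k : ℤ) : CT := if i = 2 then (if act then .V else .E) else .E

theorem ks4_vert : ∀ act, (∀ i ∈ ks4L ks4vN (ks4vS act) 2 1, ∀ k ∈ i, k ≤ 4) ∧
    ∀ r r' a b, (act = false → a = false ∧ b = false) →
      ks4V (ks4L ks4vN (ks4vS act) 2 1) [r, r', a, b] = wE act (a, b) r r' := by
  decide +kernel

def ks4hN : List Ks4N := [(1, 1, false), (1, 3, false), (1, 2, false), (1, 2, true)]

def ks4hS (act : Bool) (_i k : ℤ) : CT := if k = 2 then (if act then .H else .E) else .E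

theorem ks4_hor : ∀ act, (∀ i ∈ ks4L ks4hN (ks4hS act) 1 2, ∀ k ∈ i, k ≤ 4) ∧
    ∀ r r' a b, (act = false → a = false ∧ b = false) →
      ks4V (ks4L ks4hN (ks4hS act) 1 2) [r, r', a, b] = wE act (a, b) r r' := by
  decide +kernel

theorem ks4_one {i : ℤ} : i ∈ nbz 1 ↔ i = 1 := by simp [nbz]

theorem ks4_two {i : ℤ} : i ∈ nbz 2 ↔ i = 2 ∨ i = 1 ∨ i = 3 := by simp [nbz]

theorem ks4_m (d : ℤ) : 2 + d - 1 = 1 + d := by ring

theorem ks4_p (d : ℤ) : 2 + d + 1 = 3 + d := by ring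

theorem tab_face (hx : x % 2 = 1) (hz : z % 2 = 1) (h : s x z = .E) (hu : (val x z).2 = false) :
    LSt (cz s val) x z = wF (val x z) := by
  obtain ⟨d, rfl⟩ : ∃ d, x = 1 + d := ⟨x - 1, by ring⟩
  obtain ⟨d', rfl⟩ : ∃ d', z = 1 + d' := ⟨z - 1, by ring⟩
  rw [ks4_red val (by omega) (by omega) (fun i hi k hk => by
    rw [ks4_one.1 hi, ks4_one.1 hk, h]) ks4_face.1]
  exact (ks4_face.2 (val (1 + d) (1 + d')).1).trans (by rw [← hu])

theorem tab_vert (hx : x % 2 = 0) (hz : z % 2 = 1) {act : Bool} (h : s x z = if act then .V else .E)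
    (h1 : s (x - 1) z = .E) (h2 : s (x + 1) z = .E) (hu : Unu s val x z) :
    LSt (cz s val) x z = wE act (val x z) (val (x - 1) z).1 (val (x + 1) z).1 := by
  have hu' : act = false → (val x z).1 = false ∧ (val x z).2 = false := by
    rintro rfl
    exact ⟨hu.1 (by simp [used, hx, hz, h]), hu.2 (by simp [used, hx, hz, h])⟩
  obtain ⟨d, rfl⟩ : ∃ d, x = 2 + d := ⟨x - 2, by ring⟩
  obtain ⟨d', rfl⟩ : ∃ d', z = 1 + d' := ⟨z - 1, by ring⟩
  rw [ks4_m, ks4_p] at *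
  rw [ks4_red val (by omega) (by omega) (fun i hi k hk => by
    rw [ks4_one.1 hk]
    rcases ks4_two.1 hi with rfl | rfl | rfl
    exacts [h, h1, h2]) (ks4_vert act).1]
  exact (ks4_vert act).2 _ _ _ _ hu'

theorem tab_hor (hx : x % 2 = 1) (hz : z % 2 = 0) {act : Bool} (h : s x z = if act then .H else .E)
    (h1 : s x (z - 1) = .E) (h2 : s x (z + 1) = .E) (hu : Unu s val x z) :
    LSt (cz s val) x z = wE act (val x z) (val x (z - 1)).1 (val x (z + 1)).1 := by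
  have hu' : act = false → (val x z).1 = false ∧ (val x z).2 = false := by
    rintro rfl
    exact ⟨hu.1 (by simp [used, hx, hz, h]), hu.2 (by simp [used, hx, hz, h])⟩
  obtain ⟨d, rfl⟩ : ∃ d, x = 1 + d := ⟨x - 1, by ring⟩
  obtain ⟨d', rfl⟩ : ∃ d', z = 2 + d' := ⟨z - 2, by ring⟩
  rw [ks4_m, ks4_p] at *
  rw [ks4_red val (by omega) (by omega) (fun i hi k hk => by
    rw [ks4_one.1 hi]
    rcases ks4_two.1 hk with rfl | rfl | rfl
    exacts [h, h1, h2]) (ks4_hor act).1]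
  exact (ks4_hor act).2 _ _ _ _ hu'

theorem tab_pt (hx : x % 2 = 0) (hz : z % 2 = 0) {t : CT} (h : s x z = t)
    (hU : s x (z - 1) = if t.up then .V else .E) (hD : s x (z + 1) = if t.dn then .V else .E)
    (hL : s (x - 1) z = if t.lf then .H else .E) (hR : s (x + 1) z = if t.rt then .H else .E)
    (hF : s (x - 1) (z - 1) = .E ∧ s (x + 1) (z - 1) = .E ∧ s (x - 1) (z + 1) = .E ∧
      s (x + 1) (z + 1) = .E) (hu : Unu s val x z)
    (iU : indE t.up (val x (z - 1)) (val (x - 1) (z - 1)).1 (val (x + 1) (z - 1)).1 = true)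
    (iD : indE t.dn (val x (z + 1)) (val (x - 1) (z + 1)).1 (val (x + 1) (z + 1)).1 = true)
    (iL : indE t.lf (val (x - 1) z) (val (x - 1) (z - 1)).1 (val (x - 1) (z + 1)).1 = true)
    (iR : indE t.rt (val (x + 1) z) (val (x + 1) (z - 1)).1 (val (x + 1) (z + 1)).1 = true) :
    LSt (cz s val) x z = wV t (val x z) (val x (z - 1)) (val x (z + 1)) (val (x - 1) z)
      (val (x + 1) z) (val (x - 1) (z - 1)).1 (val (x + 1) (z - 1)).1 (val (x - 1) (z + 1)).1
      (val (x + 1) (z + 1)).1 := by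
  have h1 : t ≠ .X → (val x z).1 = false := fun k => hu.1 (by simp [used, hx, hz, h, k])
  have h2 : (val x z).2 = false := hu.2 (by simp [used, hx, hz])
  obtain ⟨d, rfl⟩ : ∃ d, x = 2 + d := ⟨x - 2, by ring⟩
  obtain ⟨d', rfl⟩ : ∃ d', z = 2 + d' := ⟨z - 2, by ring⟩
  simp only [ks4_m, ks4_p] at hU hD hL hR hF iU iD iL iR ⊢
  rw [ks4_red val (by omega) (by omega) (fun i hi k hk => by
    rcases ks4_two.1 hi with rfl | rfl | rfl <;> rcases ks4_two.1 hk with rfl | rfl | rfl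
    exacts [h, hU, hD, hL, hF.1, hF.2.2.1, hR, hF.2.1, hF.2.2.2]) (ks4_all t).1]
  exact ((ks4_all t).2 _ _ _ _ _ _ iU _ _ iD _ _ iL _ _ iR _ h1).trans (by rw [← h2])

end KG
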