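import Pool.Agent.Work.MP_c146e2_gt.KG.KS2
import Pool.Agent.Work.MP_c146e2_gt.KG.KS4
import Pool.Agent.Work.MP_c146e2_gt.KG.KMov
import Pool.Agent.Work.MP_c146e2_gt.KG.KMun
import Pool.Agent.Work.MP_c146e2_gt.PosB
import Pool.Agent.Work.MP_c146e2_gt.CabB
import Pool.Agent.Work.MP_c146e2_gt.KG.KL3
import Pool.Agent.Work.MP_c146e2_gt.KG.KL5
import Pool.Agent.Work.MP_c146e2_gt.KG.KR3
import Pool.Agent.Work.MP_c146e2_gt.GenT
import Pool.Agent.Work.MP_c146e2_gt.Tab

-- merged part: Pool.Agent.Work.MP_c146e2_gt.KG.KS3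
section
set_option autoImplicit false

noncomputable section

open scoped Classical

namespace KG

variable {V V' : Type}

def nest {P : Type} [Fintype P] [PartialOrder P] (c : P → P → Bool) (a : P) : ℝ :=
  ∏ e : P, if a < e then dd (c a e) * ∏ f : P, if e < f then
    (if adm (c a e) (c a f) (c e f) then th (c a e) (c a f) (c e f) else 0) *
      ∏ g : P, if f < g then TT (c a e) (c a f) (c a g) (c e f) (c e g) (c f g) else 1
    else 1 else 1

/-- Product over the chains inside `S`, the empty chain included. -/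
def ks3W {P : Type} [Fintype P] [PartialOrder P] (S : Set P) (g : Finset P → ℝ) : ℝ :=
  ∏ s : Finset P, if (∀ a ∈ s, ∀ b ∈ s, a ≤ b ∨ b ≤ a) ∧ Ins s S then g s else 1

theorem ks3_min {P : Type} [PartialOrder P] {s : Finset P} (hs : s.Nonempty)
    (h : ∀ a ∈ s, ∀ b ∈ s, a ≤ b ∨ b ≤ a) : ∃ a ∈ s, ∀ b ∈ s, a ≤ b := by
  obtain ⟨a, ha⟩ := s.exists_minimal hs
  exact ⟨a, ha.1, fun b hb => (h a ha.1 b hb).elim id fun e => ha.2 hb e⟩

theorem ks3_step {P : Type} [Fintype P] [PartialOrder P] {S : Set P} (hS : IsUpperSet S)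
    (g : Finset P → ℝ) : ks3W S g =
      g ∅ * ∏ a : P, if a ∈ S then ks3W (Set.Ioi a) (fun t => g (insert a t)) else 1 := by
  have h1 : ∀ s : Finset P, s ≠ ∅ →
      (if (∀ a ∈ s, ∀ b ∈ s, a ≤ b ∨ b ≤ a) ∧ Ins s S then g s else 1) = ∏ a : P,
        if ((∀ a ∈ s, ∀ b ∈ s, a ≤ b ∨ b ≤ a) ∧ Ins s S) ∧ a ∈ s ∧ ∀ b ∈ s, a ≤ b then g s
        else 1 := fun s hs => by
    by_cases h : (∀ a ∈ s, ∀ b ∈ s, a ≤ b ∨ b ≤ a) ∧ Ins s S
    · obtain ⟨a, ha, h2⟩ := ks3_min (Finset.nonempty_iff_ne_empty.2 hs) h.1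
      rw [if_pos h, Finset.prod_eq_single a (fun b _ hb => if_neg fun e =>
        hb (le_antisymm (e.2.2 a ha) (h2 b e.2.1))) fun e => absurd (Finset.mem_univ a) e,
        if_pos ⟨h, ha, h2⟩]
    · rw [if_neg h, Finset.prod_eq_one fun a _ => if_neg fun e => h e.1]
  rw [ks3W, ← Finset.mul_prod_erase _ _ (Finset.mem_univ ∅), if_pos ⟨by simp, by simp [Ins]⟩,
    Finset.prod_congr rfl fun s hs => h1 s (Finset.ne_of_mem_erase hs),
    Finset.prod_erase (a := ∅) _
      (by exact Finset.prod_eq_one fun a _ => if_neg fun e => by simpa using e.2.1),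
    Finset.prod_comm]
  refine congrArg (g ∅ * ·) (Finset.prod_congr rfl fun a _ => ?_)
  rw [g6_split a, Finset.prod_eq_one fun s _ => by
    by_cases h : a ∈ s
    · exact if_neg (not_not.2 h)
    · rw [if_pos h, if_neg fun e => h e.2.1], one_mul]
  by_cases ha : a ∈ S
  · rw [if_pos ha, ks3W]
    refine Finset.prod_congr rfl fun t _ => ?_
    rw [← ite_and]
    refine if_congr ⟨fun h => ⟨fun x hx y hy => h.2.1.1 x (Finset.mem_insert_of_mem hx) y
      (Finset.mem_insert_of_mem hy), fun x hx => lt_of_le_of_ne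
        (h.2.2.2 x (Finset.mem_insert_of_mem hx)) fun e => h.1 (e ▸ hx)⟩, fun h => ?_⟩ rfl rfl
    have h2 : ∀ b ∈ insert a t, a ≤ b := fun b hb =>
      (Finset.mem_insert.1 hb).elim (fun e => e.ge) fun e => (h.2 b e).le
    refine ⟨fun e => lt_irrefl a (h.2 a e), ⟨fun x hx y hy => ?_, fun x hx => hS (h2 x hx) ha⟩,
      Finset.mem_insert_self _ _, h2⟩
    rcases Finset.mem_insert.1 hx with rfl | hx'
    · exact Or.inl (h2 y hy)
    · rcases Finset.mem_insert.1 hy with rfl | hy'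
      · exact Or.inr (h2 x hx)
      · exact h.1 x hx' y hy'
  · rw [if_neg ha]
    refine Finset.prod_eq_one fun t _ => ?_
    rw [if_neg (c := _ ∧ _) fun e => ha (e.1.2 a e.2.1), ite_self]

theorem ks3_five {P : Type} [PartialOrder P] (h4 : ∀ s, Clq (ord P) s → s.card ≤ 4)
    {a e f g h : P} (h1 : a < e) (h2 : e < f) (h3 : f < g) (h5 : g < h) : False := by
  have hc : [a, e, f, g, h].Pairwise (· < ·) := List.isChain_iff_pairwise.1 (by simp [*])
  have : Std.Symm fun x y : P => x ≤ y ∨ y ≤ x := ⟨fun _ _ => Or.symm⟩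
  have h6 := h4 [a, e, f, g, h].toFinset ⟨⟨a, by simp⟩, fun x hx y hy =>
    (hc.imp fun e => Or.inl e.le).forall_of_forall (R := fun x y => x ≤ y ∨ y ≤ x)
      (fun _ _ => Or.inl le_rfl) (List.mem_toFinset.1 hx) (List.mem_toFinset.1 hy)⟩
  rw [List.toFinset_card_of_nodup (hc.imp ne_of_lt)] at h6
  exact absurd h6 (by simp)

theorem wt_nest {P : Type} [Fintype P] [PartialOrder P] (h4 : ∀ s, Clq (ord P) s → s.card ≤ 4)
    {c : P → P → Bool} (hs : ∀ a b, c a b = c b a) (h0 : ∀ a, c a a = false) :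
    (if ∀ a e f, a < e → e < f → adm (c a e) (c a f) (c e f) = true then wt (ord P) c else 0) =
      ∏ a : P, nest c a := by
  split_ifs with h
  · have h1 : wt (ord P) c = ks3W Set.univ (w1 c) := by
      refine Finset.prod_congr rfl fun s _ => ?_
      rcases s.eq_empty_or_nonempty with rfl | hn
      · simp [Clq, w1, act]
      · exact if_congr ⟨fun e => ⟨e.2, fun _ _ => trivial⟩, fun e => ⟨hn, e.1⟩⟩ rfl rfl
    rw [h1, ks3_step isUpperSet_univ, show w1 c ∅ = 1 by simp [w1, act], one_mul]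
    refine Finset.prod_congr rfl fun a _ => ?_
    rw [if_pos (Set.mem_univ a), ks3_step (isUpperSet_Ioi a), insert_empty_eq, w1_one h0, one_mul]
    refine Finset.prod_congr rfl fun e _ => if_ctx_congr Iff.rfl (fun h1 => ?_) fun _ => rfl
    rw [ks3_step (isUpperSet_Ioi e), insert_empty_eq, w1_two hs h0 h1.ne]
    refine congrArg _ (Finset.prod_congr rfl fun f _ =>
      if_ctx_congr Iff.rfl (fun h2 => ?_) fun _ => rfl)
    rw [ks3_step (isUpperSet_Ioi f), insert_empty_eq, w1_three hs h0 h1.ne (h1.trans h2).ne h2.ne,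
      if_pos (h a e f h1 h2)]
    refine congrArg _ (Finset.prod_congr rfl fun g _ =>
      if_ctx_congr Iff.rfl (fun h3 => ?_) fun _ => rfl)
    rw [ks3_step (isUpperSet_Ioi g), insert_empty_eq, w1_four hs h0 h1.ne (h1.trans h2).ne
      ((h1.trans h2).trans h3).ne h2.ne (h2.trans h3).ne h3.ne (h a e f h1 h2)
      (h a e g h1 (h2.trans h3)) (h a f g (h1.trans h2) h3) (h e f g h2 h3)]
    exact (congrArg _ (Finset.prod_eq_one fun x _ =>
      if_neg fun h5 => ks3_five h4 h1 h2 h3 h5)).trans (mul_one _)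
  · simp only [not_forall] at h
    obtain ⟨a, e, f, h1, h2, h3⟩ := h
    refine (Finset.prod_eq_zero (Finset.mem_univ a) (Finset.prod_eq_zero (Finset.mem_univ e) ?_)).symm
    rw [if_pos h1, Finset.prod_eq_zero (Finset.mem_univ f), mul_zero]
    rw [if_pos h2, if_neg h3, zero_mul]

theorem col_ord {P : Type} [PartialOrder P] {A : P → P → Prop} {c : P → P → Bool}
    (hs : ∀ a b, c a b = c b a) (h1 : ∀ a b, c a b = true → (a < b ∨ b < a) ∧ ¬ A a b) :
    Col (ord P) A c ↔ ∀ a e f, a < e → e < f → adm (c a e) (c a f) (c e f) = true := by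
  constructor
  · intro h a e f h2 h3
    have r1 : (ord P).r a e := Or.inl h2.le
    have r2 : (ord P).r e f := Or.inl h3.le
    have r3 : (ord P).r a f := Or.inl (h2.trans h3).le
    exact (g6_adm _ _ _).2 ⟨fun p q => h.tri e a f r1.symm r3 r2 (hs a e ▸ p) q,
      h.tri a e f r1 r2 r3, fun q r => h.tri a f e r3 r2.symm r1 q (hs e f ▸ r)⟩
  · intro h
    have key := fun x y z h2 h3 => (g6_adm _ _ _).1 (h x y z h2 h3)
    refine ⟨hs, fun a b e => ⟨(h1 a b e).1.imp le_of_lt le_of_lt,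
      (h1 a b e).1.elim ne_of_lt ne_of_gt, (h1 a b e).2⟩, fun a b d r1 r2 r3 p q => ?_⟩
    by_cases e1 : a = b
    · exact e1 ▸ q
    by_cases e2 : b = d
    · exact e2 ▸ p
    by_cases e3 : a = d
    · exact e3 ▸ Bool.eq_false_iff.2 fun e => (h1 a a e).1.elim (lt_irrefl a) (lt_irrefl a)
    have p' : c b a = false := hs a b ▸ p
    have q' : c d b = false := hs b d ▸ q
    rcases r1.imp (lt_of_le_of_ne · e1) (lt_of_le_of_ne · (Ne.symm e1)) with l1 | l1 <;>
      rcases r2.imp (lt_of_le_of_ne · e2) (lt_of_le_of_ne · (Ne.symm e2)) with l2 | l2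
    · exact (key a b d l1 l2).2.1 p q
    · rcases r3.imp (lt_of_le_of_ne · e3) (lt_of_le_of_ne · (Ne.symm e3)) with l3 | l3
      · exact (key a d b l3 l2).2.2 p q'
      · exact hs d a ▸ (key d a b l3 l1).2.2 q' p
    · rcases r3.imp (lt_of_le_of_ne · e3) (lt_of_le_of_ne · (Ne.symm e3)) with l3 | l3
      · exact (key b a d l1 l3).1 p' q
      · exact hs d a ▸ (key b d a l2 l3).1 q p'
    · exact hs d a ▸ (key d b a l2 l1).2.1 q' p'

theorem nest_zero {P : Type} [Fintype P] [PartialOrder P] {c : P → P → Bool} {a : P}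
    (h : ∀ e f, a ≤ e → e < f → c e f = false) : nest c a = 1 := by
  refine Finset.prod_eq_one fun e _ => ite_eq_right_iff.2 fun h1 => ?_
  rw [h a e le_rfl h1, Finset.prod_eq_one fun f _ => ite_eq_right_iff.2 fun h2 => ?_]
  · simp [dd]
  rw [h a f le_rfl (h1.trans h2), h e f h1.le h2,
    Finset.prod_eq_one fun g _ => ite_eq_right_iff.2 fun h3 => ?_]
  · simp [adm, th]
  rw [h a g le_rfl ((h1.trans h2).trans h3), h e g h1.le (h2.trans h3), h f g (h1.trans h2).le h3]
  simp [TT, adm]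

theorem gr_dim (N L : ℕ) (s : Finset (Gr N L)) (hs : Clq (ord (Gr N L)) s) : s.card ≤ 4 := by
  have key : ∀ {i j : ℤ}, zle i j → i % 2 ≤ j % 2 ∧ (i % 2 = j % 2 → i = j) := fun h => by
    simp only [zle, Int.even_iff] at h
    omega
  have k2 : ∀ a b : Gr N L, a ≤ b → a.1.1 % 2 + a.1.2.1 % 2 + a.1.2.2 % 2 =
      b.1.1 % 2 + b.1.2.1 % 2 + b.1.2.2 % 2 → a = b := fun a b h e => by
    have h1 := key h.1
    have h2 := key h.2.1
    have h3 := key h.2.2
    exact Subtype.ext (Prod.ext (by omega) (Prod.ext (by omega) (by omega)))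
  refine Finset.card_le_card_of_injOn (t := Finset.Icc (0 : ℤ) 3)
    (fun a => a.1.1 % 2 + a.1.2.1 % 2 + a.1.2.2 % 2)
    (fun a _ => Finset.mem_coe.2 (Finset.mem_Icc.2 ⟨?_, ?_⟩)) fun a ha b hb e =>
      (hs.2 a ha b hb).elim (fun h => k2 a b h e) fun h => (k2 b a h e.symm).symm
  all_goals
    beta_reduce
    omega

theorem ks3_ph : RankGenus.Cy.emb RankGenus.Cy.ph = (ph : ℝ) := RankGenus.Cy.emb_ph

theorem ks3_phi : RankGenus.Cy.emb RankGenus.Cy.phi = (ph⁻¹ : ℝ) := by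
  rw [RankGenus.Cy.emb_phi, ph_inv, ph, Real.goldenRatio]
  exact congrArg _ (by ring)

theorem ks3_dd (a : Bool) : (dd a : ℂ) = RankGenus.Cy.emb (ddC a) := by
  cases a <;> simp [dd, ddC, ks3_ph]

theorem ks3_th (a b c : Bool) : ((if adm a b c then th a b c else 0 : ℝ) : ℂ) =
    RankGenus.Cy.emb (if adm a b c then thC a b c else 0) := by
  unfold th thC
  split_ifs <;> simp [ks3_phi]

theorem ks3_TT (a b c d e f : Bool) :
    (TT a b c d e f : ℂ) = RankGenus.Cy.emb (ttC a b c d e f) := by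
  unfold TT ttC
  split_ifs <;> simp [ks3_ph]

theorem ks3_ups {N L : ℕ} {a : Gr N L} (hx : 0 < a.1.1 ∧ a.1.1 < 2 * (N : ℤ) + 2)
    (hz : 0 < a.1.2.2 ∧ a.1.2.2 < 2 * (L : ℤ) + 2) {F : Gr N L → ℝ} {G : Z3 → RankGenus.Cy}
    (h : ∀ e, a < e → (0 < e.1.1 ∧ e.1.1 < 2 * (N : ℤ) + 2) →
      (0 < e.1.2.2 ∧ e.1.2.2 < 2 * (L : ℤ) + 2) → (F e : ℂ) = RankGenus.Cy.emb (G e.1)) :
    ((∏ e, if a < e then F e else 1 : ℝ) : ℂ) = RankGenus.Cy.emb ((ups a.1).map G).prod := by
  have key : ∀ {i j : ℤ} {n : ℕ}, zle i j → 0 < i ∧ i < 2 * (n : ℤ) + 2 →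
      0 < j ∧ j < 2 * (n : ℤ) + 2 := fun h h' => by
    simp only [zle, Int.even_iff] at h
    omega
  rw [← List.prod_toFinset _ (nodup_ups a.1), map_prod, ← Finset.prod_filter, Complex.ofReal_prod]
  refine Finset.prod_bij (fun e _ => e.1) (fun e he => ?_) (fun e _ e' _ => Subtype.ext)
    (fun e he => ?_) fun e he => ?_
  · have h1 := (Finset.mem_filter.1 he).2
    exact List.mem_toFinset.2 (mem_ups.2
      ⟨fun e' => h1.ne' (Subtype.ext e'), h1.le.1, h1.le.2.1, h1.le.2.2, e.2.2.1⟩)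
  · obtain ⟨h1, h2, h3, h4, h5⟩ := mem_ups.1 (List.mem_toFinset.1 he)
    have h6 := key h2 hx
    have h7 := key h4 hz
    exact ⟨⟨e, ⟨h6.1.le, h6.2.le⟩, h5, h7.1.le, h7.2.le⟩, Finset.mem_filter.2 ⟨Finset.mem_univ _,
      lt_of_le_of_ne ⟨h2, h3, h4⟩ fun e' => h1 (congrArg Subtype.val e').symm⟩, rfl⟩
  · have h1 := (Finset.mem_filter.1 he).2
    exact h e h1 (key h1.le.1 hx) (key h1.le.2.2 hz)

theorem nest_LW {N L : ℕ} (ty : ℤ → ℤ → CT) (val : ℤ → ℤ → BB) {a : Gr N L}
    (hx : 0 < a.1.1 ∧ a.1.1 < 2 * (N : ℤ) + 2) (hz : 0 < a.1.2.2 ∧ a.1.2.2 < 2 * (L : ℤ) + 2) :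
    ((nest (mkC ty val) a : ℝ) : ℂ) = RankGenus.Cy.emb (LW (cz (stk ty) val) a.1) := by
  have m : ∀ {x y : Gr N L}, x < y → mkC ty val x y = cz (stk ty) val x.1 y.1 := fun h => if_pos h
  refine ks3_ups hx hz fun e h1 ex ez => ?_
  rw [Complex.ofReal_mul, map_mul, ks3_dd, m h1]
  refine congrArg _ (ks3_ups ex ez fun f h2 fx fz => ?_)
  rw [Complex.ofReal_mul, map_mul, ks3_th, m h2, m (h1.trans h2)]
  refine congrArg _ (ks3_ups fx fz fun g h3 _ _ => ?_)
  rw [ks3_TT, m h3, m (h2.trans h3), m ((h1.trans h2).trans h3)]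

end KG
end
end

-- merged part: Pool.Agent.Work.MP_c146e2_gt.KG.KS5
section
set_option autoImplicit false

noncomputable section

open scoped Classical

namespace KG

variable {V V' : Type}

variable {N L : ℕ} {ty : ℤ → ℤ → CT}

open RankGenus

theorem ks5_out (v : Fin (2 * L + 3) → Fin (2 * N + 3) → BB) {x z : ℤ}
    (h : ¬ ((0 ≤ x ∧ x ≤ 2 * (N : ℤ) + 2) ∧ 0 ≤ z ∧ z ≤ 2 * (L : ℤ) + 2)) :
    extV v x z = (false, false) := dif_neg (by omega)

theorem ks5_in (v : Fin (2 * L + 3) → Fin (2 * N + 3) → BB) (z : Fin (2 * L + 3))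
    (x : Fin (2 * N + 3)) : extV v (x : ℕ) (z : ℕ) = v z x := by
  unfold extV
  rw [dif_pos ⟨by omega, by simp, by omega, by simp⟩]
  rfl

theorem ks5_zero {M : Type} [CommMonoidWithZero M] {f : ℤ → ℤ → M} {x z : ℤ}
    (h : (0 ≤ x ∧ x ≤ 2 * (N : ℤ) + 2) ∧ 0 ≤ z ∧ z ≤ 2 * (L : ℤ) + 2) (h0 : f x z = 0) :
    ∏ z : Fin (2 * L + 3), ∏ x : Fin (2 * N + 3), f (x : ℕ) (z : ℕ) = 0 := by
  refine Finset.prod_eq_zero (Finset.mem_univ ⟨z.toNat, by omega⟩)
    (Finset.prod_eq_zero (Finset.mem_univ ⟨x.toNat, by omega⟩) ?_)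
  simp only [Int.toNat_of_nonneg h.1.1, Int.toNat_of_nonneg h.2.1, h0]

theorem ks5_unu {val : ℤ → ℤ → BB} {x z : ℤ} (h : ¬ Unu (stk ty) val x z) :
    wB ty val x z = 0 := by
  unfold Unu used stk at h
  unfold wB
  generalize val x z = u at h ⊢
  obtain ⟨a, b⟩ := u
  by_cases hx : x % 2 = 0 <;> by_cases hz : z % 2 = 0 <;> simp only [hx, hz, if_true, if_false] at h ⊢
  · generalize ty (x / 2) (z / 2) = t at h ⊢
    cases t <;> cases a <;> cases b <;> simp [wV, wS] at h ⊢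
  · generalize (ty (x / 2) (z / 2)).dn = t at h ⊢
    cases t <;> cases a <;> cases b <;> simp [wE, indE] at h ⊢
  · generalize (ty (x / 2) (z / 2)).rt = t at h ⊢
    cases t <;> cases a <;> cases b <;> simp [wE, indE] at h ⊢
  · cases a <;> cases b <;> simp [wF] at h ⊢

theorem ks5_wE (u : BB) : wE false u true false = 0 ∧ wE false u false true = 0 := by
  simp [wE, indE]

theorem ks5_bd (hg : Grid N L ty) (v : Fin (2 * L + 3) → Fin (2 * N + 3) → BB) {x z : ℤ}
    (hx : x % 2 = 1) (hz : z % 2 = 1)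
    (h : x ≤ 1 ∨ 2 * (N : ℤ) + 1 ≤ x ∨ z ≤ 1 ∨ 2 * (L : ℤ) + 1 ≤ z) (h1 : (extV v x z).1 = true)
    (hb : (0 ≤ x ∧ x ≤ 2 * (N : ℤ) + 2) ∧ 0 ≤ z ∧ z ≤ 2 * (L : ℤ) + 2) :
    ∏ z : Fin (2 * L + 3), ∏ x : Fin (2 * N + 3), wB ty (extV v) (x : ℕ) (z : ℕ) = 0 := by
  rcases h with h | h | h | h
  · refine ks5_zero (x := x - 1) (z := z) (by omega) ?_
    rw [wB, if_pos (by omega), if_neg (by omega), hg.out _ _ (by omega), sub_add_cancel, h1,
      ks5_out v (x := x - 1 - 1) (by omega)]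
    exact (ks5_wE _).2
  · refine ks5_zero (x := x + 1) (z := z) (by omega) ?_
    rw [wB, if_pos (by omega), if_neg (by omega), hg.out _ _ (by omega), add_sub_cancel_right, h1,
      ks5_out v (x := x + 1 + 1) (by omega)]
    exact (ks5_wE _).1
  · refine ks5_zero (x := x) (z := z - 1) (by omega) ?_
    rw [wB, if_neg (by omega), if_pos (by omega), hg.out _ _ (by omega), sub_add_cancel, h1,
      ks5_out v (z := z - 1 - 1) (by omega)]
    exact (ks5_wE _).2
  · refine ks5_zero (x := x) (z := z + 1) (by omega) ?_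
    rw [wB, if_neg (by omega), if_pos (by omega), hg.out _ _ (by omega), add_sub_cancel_right, h1,
      ks5_out v (z := z + 1 + 1) (by omega)]
    exact (ks5_wE _).1

theorem ks5_ff {val : ℤ → ℤ → BB} {x z : ℤ} (hu : Unu (stk ty) val x z) (h : stk ty x z = .E)
    (h2 : x % 2 = 0 ∨ z % 2 = 0) : val x z = (false, false) := by
  have a : ∀ b, used (stk ty) x z b = false := fun b => by
    unfold used
    rw [h]
    split_ifs
    · rfl
    · rfl
    · rfl
    · omega
  exact Prod.ext (hu.1 (a _)) (hu.2 (a _))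

theorem ks5_wall (hg : Grid N L ty) {val : ℤ → ℤ → BB} (hb : BdZ N L val) {x z : ℤ}
    (hu : Unu (stk ty) val x z)
    (h : x = 0 ∨ x = 2 * (N : ℤ) + 2 ∨ z = 0 ∨ z = 2 * (L : ℤ) + 2) : wB ty val x z = 1 := by
  have h1 := ks5_ff hu (stk_wall hg (by omega)) (by omega)
  unfold wB
  rw [h1, hg.out _ _ (by omega)]
  split_ifs with hx hz hz
  · rw [hb (x - 1) (z - 1) (by omega) (by omega) (by omega)]
    rfl
  · rw [hb (x - 1) z (by omega) (by omega) (by omega), hb (x + 1) z (by omega) (by omega) (by omega)]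
    rfl
  · rw [hb x (z - 1) (by omega) (by omega) (by omega), hb x (z + 1) (by omega) (by omega) (by omega)]
    rfl
  · omega

theorem ks5_nest (hg : Grid N L ty) {val : ℤ → ℤ → BB} (hb : BdZ N L val) {a : Gr N L}
    (h : a.1.1 = 0 ∨ a.1.1 = 2 * (N : ℤ) + 2 ∨ a.1.2.2 = 0 ∨ a.1.2.2 = 2 * (L : ℤ) + 2) :
    nest (mkC ty val) a = 1 := by
  refine nest_zero fun e f h1 h2 => ?_
  have key : ∀ e : Gr N L, a ≤ e → (0 ≤ e.1.1 ∧ e.1.1 ≤ 1) ∨ 2 * (N : ℤ) + 1 ≤ e.1.1 ∨
      (0 ≤ e.1.2.2 ∧ e.1.2.2 ≤ 1) ∨ 2 * (L : ℤ) + 1 ≤ e.1.2.2 := fun e he => by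
    have a1 := he.1
    have a2 := he.2.2
    have a3 := e.2
    unfold zle at a1 a2
    omega
  have e1 := key e h1
  have f1 := key f (h1.trans h2.le)
  have k : ∀ y, kl .E y ≤ 1 := fun y => by
    unfold kl
    dsimp only
    split_ifs <;> omega
  rw [mkC, if_pos h2, cz, nm, stk_wall hg (by omega), stk_wall hg (by omega)]
  unfold nm0
  dsimp only
  rw [if_pos ⟨k _, k _⟩]
  split_ifs
  · rfl
  · refine hb (odd1 f.1.1) (odd1 f.1.2.2) ?_ ?_ ?_ <;> unfold odd1 <;> split_ifs <;> omega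

theorem ks5_odd (ty : ℤ → ℤ → CT) {x z : ℤ} (hx : x % 2 = 1) (hz : z % 2 = 1) :
    stk ty x z = .E := by
  rw [stk, if_neg (by omega), if_neg (by omega)]

theorem ks5_edge {val : ℤ → ℤ → BB} {x z : ℤ} (hu : Unu (stk ty) val x z)
    (h : x % 2 = 1 ∨ z % 2 = 1) : LSt (cz (stk ty) val) x z = wB ty val x z := by
  unfold wB
  split_ifs with hx hz hz
  · omega
  · exact tab_vert hx (by omega) (by rw [stk, if_pos hx, if_neg hz])
      (ks5_odd ty (by omega) (by omega)) (ks5_odd ty (by omega) (by omega)) hu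
  · exact tab_hor (by omega) hz (by rw [stk, if_neg hx, if_pos hz])
      (ks5_odd ty (by omega) (by omega)) (ks5_odd ty (by omega) (by omega)) hu
  · exact tab_face (by omega) (by omega) (ks5_odd ty (by omega) (by omega))
      (hu.2 (by rw [used, if_neg hx, if_neg hz]; rfl))

theorem ks5_ind {act : Bool} {u : BB} {r r' : Bool} (h : wE act u r r' ≠ 0) :
    indE act u r r' = true := by_contra fun c => h (if_neg c)

theorem ks5_pt (hg : Grid N L ty) {val : ℤ → ℤ → BB} {x z : ℤ} (hu : Unu (stk ty) val x z)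
    (hx : x % 2 = 0) (hz : z % 2 = 0) (h1 : wB ty val x (z - 1) ≠ 0) (h2 : wB ty val x (z + 1) ≠ 0)
    (h3 : wB ty val (x - 1) z ≠ 0) (h4 : wB ty val (x + 1) z ≠ 0) :
    LSt (cz (stk ty) val) x z = wB ty val x z := by
  have e1 : (ty (x / 2) ((z - 1) / 2)).dn = (ty (x / 2) (z / 2)).up := by
    rw [hg.vert, show (z - 1) / 2 + 1 = z / 2 by omega]
  have e2 : (z + 1) / 2 = z / 2 := by omega
  have e3 : (ty ((x - 1) / 2) (z / 2)).rt = (ty (x / 2) (z / 2)).lf := by
    rw [hg.hor, show (x - 1) / 2 + 1 = x / 2 by omega]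
  have e4 : (x + 1) / 2 = x / 2 := by omega
  rw [wB, if_pos hx, if_neg (by omega), e1] at h1
  rw [wB, if_pos hx, if_neg (by omega), e2] at h2
  rw [wB, if_neg (by omega), if_pos hz, e3] at h3
  rw [wB, if_neg (by omega), if_pos hz, e4] at h4
  rw [wB, if_pos hx, if_pos hz]
  exact tab_pt hx hz (by rw [stk, if_pos hx, if_pos hz])
    (by rw [stk, if_pos hx, if_neg (by omega), e1]) (by rw [stk, if_pos hx, if_neg (by omega), e2])
    (by rw [stk, if_neg (by omega), if_pos hz, e3]) (by rw [stk, if_neg (by omega), if_pos hz, e4])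
    ⟨ks5_odd ty (by omega) (by omega), ks5_odd ty (by omega) (by omega),
      ks5_odd ty (by omega) (by omega), ks5_odd ty (by omega) (by omega)⟩ hu
    (ks5_ind h1) (ks5_ind h2) (ks5_ind h3) (ks5_ind h4)

/-- The product over the stack of cells over `(x, z)`. -/
def ks5T (F : Gr N L → ℂ) (x z : ℤ) : ℂ :=
  ∏ y : Fin 7, if h : inB N L (x, (y : ℕ), z) then F ⟨_, h⟩ else 1

theorem ks5_prod (F : Gr N L → ℂ) :
    ∏ a, F a = ∏ z : Fin (2 * L + 3), ∏ x : Fin (2 * N + 3), ks5T F (x : ℕ) (z : ℕ) := by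
  have hin : ∀ p : Fin (2 * L + 3) × Fin (2 * N + 3) × Fin 7,
      inB N L ((p.2.1 : ℕ), (p.2.2 : ℕ), (p.1 : ℕ)) := fun p => by
    unfold inB
    dsimp only
    omega
  unfold ks5T
  simp only [← Fintype.prod_prod_type']
  let φ : Fin (2 * L + 3) × Fin (2 * N + 3) × Fin 7 → Gr N L := fun p => ⟨_, hin p⟩
  refine (Fintype.prod_bijective φ ⟨fun p q e => ?_, fun a => ?_⟩
    _ F fun p => dif_pos (hin p)).symm
  · have e' := congrArg Subtype.val e
    simp only [φ, Prod.mk.injEq, Nat.cast_inj, Fin.val_inj] at e'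
    exact Prod.ext e'.2.2 (Prod.ext e'.1 e'.2.1)
  · obtain ⟨⟨x, y, z⟩, h⟩ := a
    dsimp only at h
    refine ⟨(⟨z.toNat, by omega⟩, ⟨x.toNat, by omega⟩, ⟨y.toNat, by omega⟩), Subtype.ext ?_⟩
    simp only [φ, Int.toNat_of_nonneg h.1.1, Int.toNat_of_nonneg h.2.1.1,
      Int.toNat_of_nonneg h.2.2.1]

theorem ks5_inner (ty : ℤ → ℤ → CT) (val : ℤ → ℤ → BB) {x z : ℤ}
    (hx : 0 < x ∧ x < 2 * (N : ℤ) + 2) (hz : 0 < z ∧ z < 2 * (L : ℤ) + 2) :
    ks5T (N := N) (L := L) (fun a => (nest (mkC ty val) a : ℝ)) x z =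
      Cy.emb (LSt (cz (stk ty) val) x z) := by
  have h : ∀ y : Fin 7, (if h : inB N L (x, (y : ℕ), z) then
      ((nest (mkC (N := N) (L := L) ty val) ⟨_, h⟩ : ℝ) : ℂ) else 1) =
      Cy.emb (LW (cz (stk ty) val) (x, (y : ℕ), z)) := fun y => by
    rw [dif_pos (by unfold inB; dsimp only; omega)]
    exact nest_LW ty val hx hz
  unfold ks5T
  simp only [h]
  simp [LSt, Fin.prod_univ_succ]

theorem shadow_term (hg : Grid N L ty) (v : Fin (2 * L + 3) → Fin (2 * N + 3) → BB) :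
    (((if (∀ x z, Unu (stk ty) (extV v) x z) ∧ Col (ord (Gr N L)) (AG N L ty) (mkC ty (extV v)) then
        wt (ord (Gr N L)) (mkC ty (extV v)) else 0 : ℝ)) : ℂ) =
      RankGenus.Cy.emb (∏ z : Fin (2 * L + 3), ∏ x : Fin (2 * N + 3),
        wB ty (extV v) (x : ℕ) (z : ℕ)) := by
  by_cases hu : ∀ x z, Unu (stk ty) (extV v) x z
  swap
  · rw [if_neg fun c => hu c.1]
    obtain ⟨x, hx⟩ := not_forall.1 hu
    obtain ⟨z, hz⟩ := not_forall.1 hx
    rw [ks5_zero (by_contra fun c => hz (by rw [Unu, ks5_out v c]; simp)) (ks5_unu hz)]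
    simp
  by_cases hb : BdZ N L (extV v)
  swap
  · unfold BdZ at hb
    push Not at hb
    obtain ⟨x, z, hx, hz, h, h1⟩ := hb
    have h2 : (0 ≤ x ∧ x ≤ 2 * (N : ℤ) + 2) ∧ 0 ≤ z ∧ z ≤ 2 * (L : ℤ) + 2 :=
      by_contra fun c => h1 (by rw [ks5_out v c])
    rw [if_neg fun c => h1 (by
      rw [← vars_mk hg h2.1 h2.2 (hu x z)]
      exact vars_bd hg c.2 x z hx hz h), ks5_bd hg v hx hz h (by simpa using h1) h2]
    simp
  have hs : ∀ a b : Gr N L, mkC ty (extV v) a b = mkC ty (extV v) b a := fun a b => by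
    unfold mkC
    by_cases h : a < b
    · rw [if_pos h, if_neg (lt_asymm h), if_pos h]
    · rw [if_neg h, if_neg h]
  have h1 := col_ord (A := AG N L ty) hs fun a b h => ⟨by_contra fun c => by
    rw [not_or] at c
    rw [mkC, if_neg c.1, if_neg c.2] at h
    exact Bool.false_ne_true h, fun c => Bool.false_ne_true ((mkC_AG hg hb c).symm.trans h)⟩
  have h2 := wt_nest (gr_dim N L) hs fun a => by
    rw [mkC, if_neg (lt_irrefl a), if_neg (lt_irrefl a)]
  rw [if_congr ((and_iff_right hu).trans h1) rfl rfl, h2, Complex.ofReal_prod, ks5_prod]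
  by_cases h0 : ∃ x z : ℤ, (0 < x ∧ x < 2 * (N : ℤ) + 2) ∧ (0 < z ∧ z < 2 * (L : ℤ) + 2) ∧
      (x % 2 = 1 ∨ z % 2 = 1) ∧ wB ty (extV v) x z = 0
  · obtain ⟨x, z, hx, hz, a1, a2⟩ := h0
    rw [ks5_zero (x := x) (z := z) (by omega) a2, ks5_zero (x := x) (z := z) (by omega)
      (by rw [ks5_inner ty _ hx hz, ks5_edge (hu x z) a1, a2, map_zero]), map_zero]
  push Not at h0
  simp only [map_prod]
  refine Finset.prod_congr rfl fun z _ => Finset.prod_congr rfl fun x _ => ?_
  have hx : ((x : ℕ) : ℤ) ≤ 2 * (N : ℤ) + 2 := by omega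
  have hz : ((z : ℕ) : ℤ) ≤ 2 * (L : ℤ) + 2 := by omega
  have hx' := Int.natCast_nonneg x
  have hz' := Int.natCast_nonneg z
  generalize ((x : ℕ) : ℤ) = x, ((z : ℕ) : ℤ) = z at hx hz hx' hz'
  by_cases hw : x = 0 ∨ x = 2 * (N : ℤ) + 2 ∨ z = 0 ∨ z = 2 * (L : ℤ) + 2
  · rw [ks5_wall hg hb (hu x z) hw, map_one]
    refine Finset.prod_eq_one fun y _ => ?_
    split_ifs with h
    · exact (congrArg _ (ks5_nest hg hb hw)).trans Complex.ofReal_one
    · rfl
  rw [ks5_inner ty _ (by omega) (by omega)]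
  by_cases ho : x % 2 = 1 ∨ z % 2 = 1
  · rw [ks5_edge (hu x z) ho]
  · rw [ks5_pt hg (hu x z) (by omega) (by omega) (h0 _ _ (by omega) (by omega) (by omega))
      (h0 _ _ (by omega) (by omega) (by omega)) (h0 _ _ (by omega) (by omega) (by omega))
      (h0 _ _ (by omega) (by omega) (by omega))]

theorem tv_shadow (hg : Grid N L ty) (hm : Man (ord (Gr N L)) (inner N L)) :
    ((tv (ord (Gr N L)) (Uc N L ty)ᶜ : ℝ) : ℂ) = RankGenus.Cy.emb (shadow N L ty) := by
  rw [tv_gauge hm, shadow, map_sum, ← Finset.sum_congr rfl fun v _ => shadow_term hg v,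
    ← Complex.ofReal_sum, SS]
  refine congrArg _ (Eq.trans (g5_sum (fun v : Fin (2 * L + 3) → Fin (2 * N + 3) → BB => mkC ty (extV v))
    (fun v => (∀ x z, Unu (stk ty) (extV v) x z) ∧
      Col (ord (Gr N L)) (AG N L ty) (mkC ty (extV v)))
    (fun v w hv hw e => funext fun z => funext fun x => ?_) (fun c => ⟨fun hc => ?_, ?_⟩) _)
    (Finset.sum_congr rfl fun v _ => by congr))
  · rw [← ks5_in v, ← ks5_in w, ← vars_mk hg (by omega) (by omega) (hv.1 _ _),
      ← vars_mk hg (by omega) (by omega) (hw.1 _ _), e]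
  · have e : extV (N := N) (L := L) (fun z x => varsZ ty c (x : ℕ) (z : ℕ)) = varsZ ty c := by
      funext x z
      by_cases h : (0 ≤ x ∧ x ≤ 2 * (N : ℤ) + 2) ∧ 0 ≤ z ∧ z ≤ 2 * (L : ℤ) + 2
      · unfold extV
        rw [dif_pos (by omega)]
        simp only [Int.toNat_of_nonneg h.1.1, Int.toNat_of_nonneg h.2.1]
      · rw [ks5_out _ h, vars_out ty c h]
    refine ⟨fun z x => varsZ ty c (x : ℕ) (z : ℕ), ?_⟩
    rw [e, mk_vars hg hc]
    exact ⟨⟨fun x z => ⟨fun h => by simp [varsZ, h], fun h => by simp [varsZ, h]⟩, hc⟩, rfl⟩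
  · rintro ⟨v, hv, rfl⟩
    exact hv.2

end KG
end
end

-- merged part: Pool.Agent.Work.MP_c146e2_gt.KG.KM
section
/-! The shadow model and the doubled model have the same values on links. -/

set_option autoImplicit false

namespace KG

open RankGenus RankGenus.Kind

def Psi (b : B3) (f : List B3 → Cy) (c : List B3) : Cy := pair (exsM b c) fun q => f q.2

theorem km_cons (b t : B3) (c : List B3) (F : B3 × List B3 → Cy) :
    pair (exsM b (t :: c)) F =
      pair (exM b t) fun d => pair (exsM (nb t d) c) fun q => F (q.1, d :: q.2) := by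
  have h := pair_bind (exM b t)
    (fun d => (exsM (nb t d) c).map fun q => (q.1, (q.2.1, d :: q.2.2))) F
  simp only [List.map_map, Function.comp_def] at h
  rw [exsM, h]
  exact pair_congr fun p _ => pair_map _ (fun q : B3 × List B3 => (q.1, p.2 :: q.2)) F

theorem km_append (a c : List B3) : ∀ (b : B3) (F : B3 × List B3 → Cy),
    pair (exsM b (a ++ c)) F =
      pair (exsM b a) fun p => pair (exsM p.1 c) fun q => F (q.1, p.2 ++ q.2) := by
  induction a with
  | nil => intro b F; simp [exsM]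
  | cons t a ih =>
    intro b F
    rw [List.cons_append, km_cons, km_cons]
    simp only [ih, List.cons_append]

theorem km_len (c : List B3) : ∀ b : B3, ∀ p ∈ exsM b c, p.2.2.length = c.length := by
  induction c with
  | nil => simp [exsM]
  | cons t c ih =>
    intro b p hp
    simp only [exsM, List.mem_flatMap, List.mem_map] at hp
    obtain ⟨u, -, q, hq, rfl⟩ := hp
    simp [ih _ q hq]

theorem pair_nz {β : Type} (L : List (Cy × β)) (f : β → Cy) : pair (nz L) f = pair L f := by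
  induction L with
  | nil => rfl
  | cons p L ih =>
    rw [nz, List.filter_cons]
    split_ifs with h
    · rw [pair_cons, pair_cons, ← ih, nz]
    · rw [pair_cons, ← ih, nz, show p.1 = 0 by simpa using h, zero_mul, zero_add]

theorem km_loc {k : Kind} (hk : k ∈ [cre, ann, ov, un]) {b : B3} (hb : okB b = true) {a : List B3}
    (ha : a.length = k.inn) (F : B3 × List B3 → Cy) :
    uK k * pair (kmL k b a) F = vK k * pair (kmR k b a) F := by
  have h : kmB k b = true := by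
    simp only [List.mem_cons, List.not_mem_nil, or_false] at hk
    rcases hk with rfl | rfl | rfl | rfl
    exacts [km_ca _ (by simp) b (mem_eB3 b) hb, km_ca _ (by simp) b (mem_eB3 b) hb,
      km_ov b (mem_eB3 b) hb, km_un b (mem_eB3 b) hb]
  have h1 := pair_of_zeroB (List.all_eq_true.1 h a (ha ▸ mem_allL mem_eB3 a)) F
  rw [pair_append, ls_scale, ls_scale] at h1
  linear_combination h1

theorem km_step {k : Kind} (hk : k ∈ [cre, ann, ov, un]) (i : ℕ) : ∀ (b : B3), okB b = true →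
    ∀ (f : List B3 → Cy) (c : List B3), uK k * Psi b (sysD.step (k, i) (ab b) f) c =
      vK k * sysT.step (k, i) b.2.2 (Psi b f) c := by
  induction i with
  | zero =>
    intro b hb f c
    by_cases hl : k.inn ≤ c.length
    · obtain ⟨a, t, rfl, ha⟩ : ∃ a t, c = a ++ t ∧ a.length = k.inn :=
        ⟨c.take k.inn, c.drop k.inn, (List.take_append_drop _ _).symm, by simp [hl]⟩
      have h := km_loc hk hb ha fun p => pair (exsM p.1 t) fun q => f (p.2 ++ q.2)
      rw [kmL, pair_bind (exsM b a) fun p => (sysD.rule k (ab b) p.2).map fun q => (q.1, p.1, q.2),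
        kmR, pair_bind _ (exsM b), pair_nz] at h
      rw [posb_act_zero _ _ _ _ _ ha, Psi, km_append]
      refine Eq.trans (congrArg _ (pair_congr fun p hp => ?_)) (h.trans (congrArg _ ?_))
      · rw [pair_map _ fun q => (p.2.1, q)]
        dsimp only
        rw [pair_comm (sysD.rule k (ab b) p.2.2)]
        exact pair_congr fun q _ => posb_act_zero _ _ _ _ _ ((km_len a b p hp).trans ha) f
      · exact pair_congr fun p _ => (km_append p.2 t b fun q => f q.2).symm
    · rw [LS.step, LS.act, if_neg hl, pair_nil, mul_zero, Psi,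
        pair_congr (g := fun _ => 0) fun p hp => by
          rw [LS.step, LS.act, if_neg (km_len c b p hp ▸ hl), pair_nil], pair_zero, mul_zero]
  | succ i ih =>
    intro b hb f c
    obtain _ | ⟨t, c⟩ := c
    · simp [Psi, exsM, LS.step, LS.act]
    rw [posb_step_cons, Psi, km_cons, ← pair_mul]
    simp only [posb_step_cons]
    refine (pair_congr (g := fun d => vK k *
      sysT.step (k, i) t.2.2 (Psi (nb t d) fun u => f (d :: u)) c) fun p hp =>
        ih (nb t p.2) (km_ok b (mem_eB3 b) t (mem_eB3 t) p hp) (fun u => f (p.2 :: u)) c).trans ?_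
    rw [pair_mul]
    simp only [LS.step]
    rw [pair_comm]
    exact congrArg _ (pair_congr fun p _ => (km_cons b t _ fun q => f q.2).symm)

theorem km_word {b : B3} (hb : okB b = true) (f : List B3 → Cy) {L cs M : List Bool} {w : Word}
    (h : Run boolSys L w cs M) : ∀ c, Cy.D2 ^ nc w * Psi b (sysD.back w (ab b) f) c =
      Cy.D2 ^ na w * sysT.back w b.2.2 (Psi b f) c := by
  have key : ∀ {k : Kind} (i : ℕ) {w : Word}, k ∈ [cre, ann, ov, un] →
      (∀ c, Cy.D2 ^ nc w * Psi b (sysD.back w (ab b) f) c =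
        Cy.D2 ^ na w * sysT.back w b.2.2 (Psi b f) c) →
      ∀ c, Cy.D2 ^ nc w * uK k * Psi b (sysD.back ((k, i) :: w) (ab b) f) c =
        Cy.D2 ^ na w * vK k * sysT.back ((k, i) :: w) b.2.2 (Psi b f) c := by
    intro k i w hk ih c
    rw [LS.back, LS.back, mul_assoc, km_step hk i b hb, mul_left_comm, LS.step, LS.step,
      ← pair_mul, funext ih, pair_mul]
    ring
  induction h with
  | nil L => exact fun c => rfl
  | cre P Q x _ ih => simpa [uK, vK, nc, na, pow_succ] using key P.length (k := cre) (by simp) ih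
  | ann P Q x _ ih => simpa [uK, vK, nc, na, pow_succ] using key P.length (k := ann) (by simp) ih
  | ov P Q x y _ ih => simpa [uK, vK, nc, na] using key P.length (k := ov) (by simp) ih
  | un P Q x y _ ih => simpa [uK, vK, nc, na] using key P.length (k := un) (by simp) ih

theorem ruleT_len {k : Kind} {l : Bool} {a : List B3} {q : Cy × List B3} (h : q ∈ ruleT k l a) :
    q.2.length = k.out := by
  unfold ruleT at h
  split at h <;> simp only [List.mem_flatMap, List.mem_map, List.mem_singleton,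
    List.not_mem_nil] at h
  · obtain ⟨_, -, rfl⟩ := h
    rfl
  · rw [h]
    rfl
  · obtain ⟨_, -, _, -, rfl⟩ := h
    rfl
  · obtain ⟨_, -, _, -, rfl⟩ := h
    rfl

theorem backT_congr {L cs M : List Bool} {w : Word} (h : Run boolSys L w cs M) {l : Bool}
    {f g : List B3 → Cy} (hfg : ∀ x, x.length = M.length → f x = g x) :
    ∀ c, c.length = L.length → sysT.back w l f c = sysT.back w l g c := by
  induction h with
  | nil L => exact hfg
  | cre P Q x _ ih | ann P Q x _ ih | ov P Q x y _ ih | un P Q x y _ ih =>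
    intro c hc
    refine pair_congr fun p hp => ih hfg _ ?_
    obtain ⟨P', a, Q', l', q, rfl, -, h2, h3, h4⟩ := cabb_mem _ _ _ _ _ _ hp
    have h5 := ruleT_len h3
    simp only [h4, List.length_append, List.length_cons, h2, h5, Kind.inn, Kind.out] at hc ⊢
    omega

theorem evT_eq {cs : List Bool} {w : Word} (h : Run boolSys [] w cs []) :
    Cy.emb (evT w) = Cy.emb (evD w) := by
  have h1 := km_word (b := (false, false, false)) rfl (fun _ => 1) h []
  have h2 : nc w = na w := by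
    have := h.count.2
    simp only [List.length_nil] at this
    omega
  rw [h2, backT_congr h (g := fun _ => 1) (fun x hx => by
    rw [List.length_eq_zero_iff.1 hx]
    simp [Psi, exsM]) [] rfl] at h1
  have h3 : Cy.emb Cy.D2 ≠ 0 := by
    rw [Cy.emb_D2]
    exact Complex.ofReal_ne_zero.2 (by positivity)
  have h4 := congrArg Cy.emb h1
  simp only [Psi, exsM, pair_cons, pair_nil, one_mul, add_zero, map_mul, map_pow] at h4
  exact (mul_left_cancel₀ (pow_ne_zero _ h3) h4).symm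

end KG
end

-- merged part: Pool.Agent.Work.MP_c146e2_gt.KG.CMain
section
set_option autoImplicit false

noncomputable section

open scoped Classical

namespace KG

variable {V V' : Type}

open RankGenus in
theorem grid_main {T : Word} (hT : IsKnot T) {m : ℕ} (hG : Gen T m) :
    ∃ (N L : ℕ) (ty : ℤ → ℤ → CT), Grid N L ty ∧ (Kc N L ty).Nonempty ∧
      Conn (ord (Gr N L)) (Kc N L ty) ∧ GenN (ord (Gr N L)) (Uc N L ty) (m + 1) ∧
      (Man (ord (Gr N L)) (inner N L) →
        tv (ord (Gr N L)) (Uc N L ty)ᶜ = (Cy.emb (evD (close T))).re) := by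
  obtain ⟨cs, h⟩ := hT.1
  have h1 : Run boolSys [false, false] (T ++ [(.ann, 0)]) (cs ++ []) [] :=
    (h.suffix [false]).append (Run.ann [] [] false (Run.nil []))
  have h2 : Run boolSys [] (close T) _ [] := Run.cre (S := boolSys) [] [] false h1
  obtain ⟨top, rows, hl, h0, hne⟩ := exists_lay h2
  have hg := hl.grid h0 hne (List.cons_ne_nil _ _)
  refine ⟨_, _, _, hg, (lay_conn hT hl h0 hne).1, (lay_conn hT hl h0 hne).2,
    lay_gen hT hG hl h0 hne, fun hm => ?_⟩
  rw [← evT_eq h2, ← shadow_lay hl h0, ← tv_shadow hg hm, Complex.ofReal_re]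

end KG
end
end
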