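import Pool.Agent.Work.MP_c146e2_gt.KG.BMain
import Pool.Agent.Work.MP_c146e2_gt.KG.CMain
import Pool.Agent.Work.MP_c146e2_gt.Num
import Pool.Agent.Work.MP_c146e2_gt.Pos

set_option autoImplicit false

namespace RankGenus

open Cy Kind

theorem fin_sub {Lb cb Mb : List Bool} {w : Word} (h : Run boolSys Lb w cb Mb) (hM : Mb = []) :
    Sub (List.replicate Lb.length true) w w := by
  have key : ∀ (k : Kind) (p q : ℕ) (a b : List Bool) {w : Word}, (k, a, b, some k) ∈ marks →
      Sub (List.replicate p true ++ b ++ List.replicate q true) w w →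
      Sub (List.replicate p true ++ a ++ List.replicate q true) ((k, p) :: w) ((k, p) :: w) := by
    intro k p q a b w hm h
    simpa using Sub.step (List.replicate p true) (List.replicate q true) a b k (some k) hm h
  have e2 : ∀ p q : ℕ, List.replicate (p + (q + 1 + 1)) true =
      List.replicate p true ++ [true, true] ++ List.replicate q true := by
    intro p q
    rw [List.replicate_add, List.append_assoc]
    rfl
  have e0 : ∀ p q : ℕ, List.replicate (p + q) true =
      List.replicate p true ++ [] ++ List.replicate q true := by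
    intro p q
    rw [List.replicate_add, List.append_nil]
  induction h with
  | nil L =>
    subst hM
    exact Sub.nil
  | cre P Q x _ ih =>
    have := ih hM
    simp only [List.length_append, List.length_cons] at this ⊢
    rw [e2] at this
    rw [e0]
    exact key _ _ _ _ _ (by decide) this
  | ann P Q x _ ih =>
    have := ih hM
    simp only [List.length_append, List.length_cons] at this ⊢
    rw [e0] at this
    rw [e2]
    exact key _ _ _ _ _ (by decide) this
  | ov P Q a b _ ih =>
    have := ih hM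
    simp only [List.length_append, List.length_cons] at this ⊢
    rw [e2] at this ⊢
    exact key _ _ _ _ _ (by decide) this
  | un P Q a b _ ih =>
    have := ih hM
    simp only [List.length_append, List.length_cons] at this ⊢
    rw [e2] at this ⊢
    exact key _ _ _ _ _ (by decide) this

theorem fin_close {T : Word} (hT : IsKnot T) : Sub [] (close T) (close T) := by
  obtain ⟨cs, h⟩ := hT.1
  have h1 : Run boolSys [false, false] (T ++ [(ann, 0)]) (cs ++ []) [] :=
    (h.suffix [false]).append (Run.ann [] [] false (Run.nil []))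
  exact fin_sub (Run.cre (S := boolSys) [] [] false h1) rfl

theorem fin_evU {T : Word} (hT : IsKnot T) : evU (close T) = ph * scal T := by
  obtain ⟨g, hg⟩ : ∃ g, g = sysU.back [(ann, 0)] false (fun _ => 1) := ⟨_, rfl⟩
  have g1 : g [true, false] = 1 := by
    rw [hg, LS.back_eq_pair]
    decide +kernel
  have h1 := wfU.back_suffix false g (c := [true]) hT.width [false]
  rw [hT.back_scal] at h1
  have hp : sysU.paths [(cre, 0)] false [] = [(ph, [true, false])] := by decide +kernel
  have e : close T = [(cre, 0)] ++ (T ++ [(ann, 0)]) := rfl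
  rw [evU, e, LS.back_append, LS.back_append, ← hg, LS.back_eq_pair, hp]
  simp only [pair_cons, pair_nil, List.cons_append, List.nil_append] at h1 ⊢
  rw [h1, g1]
  ring

def finE : Cy := ph * ((⟨2507, 960, 952, 2517⟩ : Cy) ^ 12 * scal kink)

theorem fin_pos : posB (finE * bar finE - 2 * D2 ^ 37) = true := by decide +kernel

theorem fin_big : 2 * KG.D2 ^ 37 < (emb (evD (close T0))).re := by
  have e : evU (close T0) = finE := by
    rw [fin_evU isKnot_T0, T0, scal_append (isKnot_T1.pow 12), scal_pow isKnot_T1, scal_T1]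
    rfl
  have h := pos_of_posB fin_pos
  have h1 := sub_le (fin_close isKnot_T0)
  have h2 : KG.D2 = (5 + √5) / 2 := by
    rw [KG.D2, KG.ph, Real.goldenRatio]
    ring
  rw [map_sub, Complex.sub_re, map_mul emb 2, map_pow, emb_D2, map_ofNat,
    ← Complex.ofReal_pow, ← Complex.ofReal_ofNat, ← Complex.ofReal_mul, Complex.ofReal_re] at h
  rw [e] at h1
  rw [h2]
  linarith

end RankGenus

namespace KG

open RankGenus in
theorem final :
    ∃ K : Set (ℝ × ℝ × ℝ),
      (∃ S : Finset ((ℝ × ℝ × ℝ) × (ℝ × ℝ × ℝ)), K = ⋃ p ∈ S, segment ℝ p.1 p.2) ∧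
      Nonempty (K ≃ₜ Circle) ∧
      ∃ x : (Kᶜ : Set (ℝ × ℝ × ℝ)), ∃ n : ℕ,
        (∃ f : Fin n → FundamentalGroup (Kᶜ : Set (ℝ × ℝ × ℝ)) x,
          Subgroup.closure (Set.range f) = ⊤) ∧
        ∀ Γ : Set (ℝ × ℝ × ℝ), ∀ g : ℕ,
          (∃ T : Finset ((ℝ × ℝ × ℝ) × (ℝ × ℝ × ℝ)), Γ = ⋃ p ∈ T, segment ℝ p.1 p.2) →
          K ⊆ Γ →
          Nonempty ((Γᶜ : Set (ℝ × ℝ × ℝ)) ≃ₜ
            (({y : ℝ × ℝ × ℝ | y.2.2 = 0 ∧ ∃ i : ℕ, i < g ∧
                (y.1 - (2 * (i : ℝ) + 1)) ^ 2 + y.2.1 ^ 2 = 1}ᶜ : Set (ℝ × ℝ × ℝ)))) →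
          n < g := by
  obtain ⟨N, L, ty, h1, h2, h3, h4, h5⟩ := grid_main isKnot_T0 gen_T0
  refine bridge h1 h2 h3 h4 ?_
  have h6 := fin_big
  have h7 : 0 < D2 ^ 37 := pow_pos (zero_lt_one.trans one_lt_D2) _
  rw [h5 (man_grid N L), show 2 * (36 + 1) = 37 + 37 from rfl, pow_add]
  nlinarith

end KG
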