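import Pool.Agent.Work.MP_c146e2_gt.KG.BDef
import Pool.Agent.Work.MP_c146e2_gt.KG.Bas

set_option autoImplicit false

noncomputable section

open scoped Classical

namespace KG

open Topology

variable {A : Finset Fn}

/-- Composition of sign vectors. -/
def cmp (s t : Fn → SignType) : Fn → SignType := fun l => if s l = 0 then t l else s l

theorem Cell.le_iff {s t : Cell A} : s ≤ t ↔ sle s.1 t.1 := Iff.rfl

theorem Cell.zero (s : Cell A) {l : Fn} (h : l ∉ A) : s.1 l = 0 := by
  obtain ⟨x, -, e⟩ := s.2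
  rw [← e, sv, if_neg h]

theorem sle_cmp (s t : Fn → SignType) : sle s (cmp s t) := fun l => by
  by_cases h : s l = 0
  · exact Or.inl h
  · exact Or.inr (by rw [cmp, if_neg h])

theorem cmp_of_sle {s t : Fn → SignType} (h : sle s t) : cmp s t = t := funext fun l => by
  unfold cmp
  split_ifs with h0
  · rfl
  · exact (h l).resolve_left h0

theorem cmp_comm {s t u : Fn → SignType} (h : sle s u) (h' : sle t u) : cmp s t = cmp t s := funext fun l => by
  unfold cmp
  split_ifs with h0 h1 h1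
  · rw [h0, h1]
  · rfl
  · rfl
  · rw [(h l).resolve_left h0, (h' l).resolve_left h1]

theorem cmp_sle {s t u : Fn → SignType} (h : sle s u) (h' : sle t u) : sle (cmp s t) u := fun l => by
  unfold cmp
  split_ifs with h0
  exacts [h' l, h l]

theorem cmp_mono (s : Fn → SignType) {t u : Fn → SignType} (h : sle t u) :
    sle (cmp s t) (cmp s u) := fun l => by
  unfold cmp
  split_ifs with h0
  exacts [h l, Or.inr rfl]

theorem barr_near (A : Finset Fn) (x : E4) : ∀ᶠ y in 𝓝 x, sle (sv A x) (sv A y) := by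
  have h : ∀ l ∈ A, ∀ᶠ y in 𝓝 x, sv A x l = 0 ∨ sv A x l = sv A y l := fun l hl => by
    have hc : Continuous l := l.continuous_of_finiteDimensional
    simp only [sv, if_pos hl]
    rcases lt_trichotomy (l x) 0 with h | h | h
    · filter_upwards [hc.continuousAt.eventually_lt continuousAt_const h] with y hy
      exact Or.inr (by rw [sign_neg h, sign_neg hy])
    · exact Filter.Eventually.of_forall fun y => Or.inl (by rw [h, sign_zero])
    · filter_upwards [continuousAt_const.eventually_lt hc.continuousAt h] with y hy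
      exact Or.inr (by rw [sign_pos h, sign_pos hy])
  filter_upwards [(Filter.eventually_all_finset A).2 h] with y hy l
  by_cases hl : l ∈ A
  · exact hy l hl
  · exact Or.inl (by rw [sv, if_neg hl])

theorem barr_zero (A : Finset Fn) (l : Fn) : sv A 0 l = 0 := by simp [sv]

theorem barr_four : Module.finrank ℝ E4 = 4 := by simp [Module.finrank_prod]

theorem sv_cmp (A : Finset Fn) (x y : E4) :
    ∃ ε : ℝ, 0 < ε ∧ ∀ t : ℝ, 0 < t → t ≤ ε → sv A (x + t • y) = cmp (sv A x) (sv A y) := by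
  have h : ∀ᶠ t : ℝ in 𝓝 0, sle (sv A x) (sv A (x + t • y)) := by
    have : Filter.Tendsto (fun t : ℝ => x + t • y) (𝓝 0) (𝓝 x) :=
      Continuous.tendsto' (by fun_prop) _ _ (by simp)
    exact this.eventually (barr_near A x)
  obtain ⟨ε, hε, h⟩ := Metric.eventually_nhds_iff.1 h
  refine ⟨ε / 2, by positivity, fun t ht hte => funext fun l => ?_⟩
  have h1 := h (y := t) (by rw [Real.dist_eq, sub_zero, abs_of_pos ht]; linarith) l
  unfold cmp
  split_ifs with h0
  · unfold sv at h0 ⊢
    split_ifs with hl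
    · rw [if_pos hl, sign_eq_zero_iff] at h0
      rw [map_add, h0, zero_add, map_smul, smul_eq_mul, sign_mul, sign_pos ht, one_mul]
    · rfl
  · exact ((h1.resolve_left h0)).symm

theorem sv_near (A : Finset Fn) (x : E4) : ∀ᶠ y in 𝓝 x, sle (sv A x) (sv A y) := barr_near A x

theorem sv_smul (A : Finset Fn) {t : ℝ} (ht : 0 < t) (x : E4) : sv A (t • x) = sv A x := funext fun l => by
  unfold sv
  rw [map_smul, smul_eq_mul, sign_mul, sign_pos ht, one_mul]

theorem sv_add {x y : E4} (h : sle (sv A x) (sv A y)) : sv A (x + y) = sv A y := funext fun l => by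
  have := h l
  unfold sv at this ⊢
  split_ifs at this ⊢ with hl
  · rw [map_add]
    rcases this with h0 | h0
    · rw [sign_eq_zero_iff.1 h0, zero_add]
    · rcases lt_trichotomy (l y) 0 with h1 | h1 | h1
      · rw [sign_neg h1, sign_eq_neg_one_iff] at h0
        rw [sign_neg h1, sign_neg (add_neg h0 h1)]
      · rw [h1, sign_zero, sign_eq_zero_iff] at h0
        rw [h0, zero_add]
      · rw [sign_pos h1, sign_eq_one_iff] at h0
        rw [sign_pos h1, sign_pos (add_pos h0 h1)]
  · rfl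

theorem Ess.fw_mem (hA : Ess A) : fw ∈ A := hA.1 (by simp [A0])

theorem Ess.eq_zero (hA : Ess A) {x : E4} (h : ∀ l ∈ A, l x = 0) : x = 0 := by
  have h0 := h fw (hA.1 (by simp [A0]))
  have h1 := h (af lx 0) (hA.1 (by simp [A0]))
  have h2 := h (af ly 0) (hA.1 (by simp [A0]))
  have h3 := h (af lz 0) (hA.1 (by simp [A0]))
  simp only [af, fw, lx, ly, lz, zero_smul, sub_zero, LinearMap.comp_apply, LinearMap.fst_apply,
    LinearMap.snd_apply] at h0 h1 h2 h3
  exact Prod.ext h0 (Prod.ext h1 (Prod.ext h2 h3))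

theorem Ess.sv_ne (hA : Ess A) {x : E4} (h : x ≠ 0) : sv A x ≠ sv A 0 := fun e =>
  h (hA.eq_zero fun l hl => by
    have := congrFun e l
    rwa [sv, sv, if_pos hl, if_pos hl, map_zero, sign_zero, sign_eq_zero_iff] at this)

theorem Ess.mono {B C : Finset Fn} (hA : Ess A) (hC : Ess C) (h : A ⊆ B) (h' : B ⊆ C) : Ess B := ⟨hA.1.trans h, fun h0 => hC.2 (h' h0)⟩

theorem ess_A0 : Ess A0 := by
  refine ⟨Finset.Subset.refl _, ?_⟩
  simp only [A0, Finset.mem_insert, Finset.mem_singleton, not_or]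
  refine ⟨fun h => ?_, fun h => ?_, fun h => ?_, fun h => ?_⟩ <;>
  · have := congrArg (fun l : Fn => l (1, 1, 1, 1)) h
    simp [af, fw, lx, ly, lz] at this

theorem exists_cmp (hA : Ess A) (a : Cell A) (y : E4) : ∃ b : Cell A, b.1 = cmp a.1 (sv A y) := by
  obtain ⟨x, hx, e⟩ := a.2
  obtain ⟨ε, hε, h⟩ := sv_cmp A x y
  refine ⟨⟨_, x + ε • y, fun h0 => hA.sv_ne hx (funext fun l => ?_), rfl⟩, by
    rw [← e]; exact h ε hε le_rfl⟩
  have h1 := sle_cmp (sv A x) (sv A y) l
  rw [← h ε hε le_rfl, h0] at h1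
  rw [barr_zero] at h1 ⊢
  exact h1.elim id id

theorem barr_generic (A : Finset Fn) (h : (0 : Fn) ∉ A) : ∃ x : E4, ∀ l ∈ A, l x ≠ 0 := by
  have key : ∀ B : Finset Fn, B ⊆ A → ∃ x : E4, ∀ l ∈ B, sv A x l ≠ 0 := by
    intro B
    induction B using Finset.induction_on with
    | empty => exact fun _ => ⟨0, by simp⟩
    | insert m B _ ih =>
      intro hB
      obtain ⟨x, hx⟩ := ih ((Finset.subset_insert _ _).trans hB)
      have hm : m ∈ A := hB (Finset.mem_insert_self _ _)
      obtain ⟨y, hy⟩ : ∃ y, m y ≠ 0 := by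
        by_contra hc
        push Not at hc
        exact h ((LinearMap.ext hc : m = 0) ▸ hm)
      obtain ⟨ε, hε, e⟩ := sv_cmp A x y
      refine ⟨x + ε • y, fun l hl => ?_⟩
      rw [e ε hε le_rfl, cmp]
      split_ifs with h0
      · rcases Finset.mem_insert.1 hl with rfl | hl
        · rw [sv, if_pos hm]
          exact fun h1 => hy (sign_eq_zero_iff.1 h1)
        · exact (hx l hl h0).elim
      · exact h0
  obtain ⟨x, hx⟩ := key A (Finset.Subset.refl _)
  exact ⟨x, fun l hl h0 => hx l hl (by rw [sv, if_pos hl, h0, sign_zero])⟩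

theorem exists_generic (hA : Ess A) : ∃ x : E4, ∀ l ∈ A, l x ≠ 0 := barr_generic A hA.2

theorem conn_usc {T P : Type} [TopologicalSpace T] [PartialOrder P] {C : Set T}
    (hC : IsPreconnected C) (φ : T → P) (h : ∀ x ∈ C, ∀ᶠ y in 𝓝[C] x, φ x ≤ φ y) :
    Conn (ord P) (φ '' C) := by
  rw [conn_iff]
  intro f hf
  have hc : ContinuousOn (fun x => f (φ x)) C := fun x hx => by
    refine (continuousWithinAt_const (b := f (φ x))).congr_of_eventuallyEq ?_ rfl
    filter_upwards [h x hx, self_mem_nhdsWithin] with y hy hyC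
    exact (hf _ ⟨x, hx, rfl⟩ _ ⟨y, hyC, rfl⟩ (Or.inl hy)).symm
  rintro _ ⟨x, hx, rfl⟩ _ ⟨y, hy, rfl⟩
  exact hC.constant hc hx hy

theorem mem_spn {s : Fn → SignType} {x : E4} : x ∈ spn A s ↔ ∀ l ∈ A, s l = 0 → l x = 0 := by
  simp [spn, Submodule.mem_iInf]

theorem self_mem_spn (x : E4) : x ∈ spn A (sv A x) := mem_spn.2 fun l hl h => by
  rwa [sv, if_pos hl, sign_eq_zero_iff] at h

theorem spn_mono {s t : Fn → SignType} (h : sle s t) : spn A s ≤ spn A t := fun _ hx =>
  mem_spn.2 fun l hl h0 => mem_spn.1 hx l hl ((h l).elim id fun e => e.trans h0)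

theorem dm_zero (hA : Ess A) : dm A (sv A 0) = 0 := by
  have : spn A (sv A 0) = ⊥ := eq_bot_iff.2 fun x hx =>
    hA.eq_zero fun l hl => mem_spn.1 hx l hl (barr_zero A l)
  rw [dm, this, finrank_bot]

theorem dm_pos (s : Cell A) : 0 < dm A s.1 := by
  obtain ⟨x, hx, e⟩ := s.2
  rw [dm, ← e, Module.finrank_pos_iff_exists_ne_zero]
  exact ⟨⟨x, self_mem_spn x⟩, fun h => hx (congrArg Subtype.val h)⟩

theorem dm_le (s : Fn → SignType) : dm A s ≤ 4 := (Submodule.finrank_le _).trans barr_four.le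

theorem dm_lt {x y : E4} (h : sle (sv A x) (sv A y)) (hne : sv A x ≠ sv A y) :
    dm A (sv A x) < dm A (sv A y) := by
  refine Submodule.finrank_lt_finrank_of_lt (lt_of_le_of_ne (spn_mono h) fun e => hne ?_)
  funext l
  refine (h l).elim (fun h0 => ?_) id
  by_cases hl : l ∈ A
  · have hy : y ∈ spn A (sv A x) := by rw [e]; exact self_mem_spn y
    have := mem_spn.1 hy l hl h0
    rw [h0, sv, if_pos hl, this, sign_zero]
  · rw [sv, sv, if_neg hl, if_neg hl]

theorem crk_mono : StrictMono (crk A) := fun s t hst => by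
  have h0 := dm_pos s
  obtain ⟨x, -, e⟩ := s.2
  obtain ⟨y, -, e'⟩ := t.2
  have : dm A s.1 < dm A t.1 := by
    rw [← e, ← e']
    exact dm_lt (by rw [e, e']; exact hst.le) (by rw [e, e']; exact fun h => hst.ne (Subtype.ext h))
  unfold crk
  omega

theorem tope_iff (hA : Ess A) (X : Cell A) : Tope X ↔ dm A X.1 = 4 := by
  rw [dm, ← barr_four, ← Submodule.eq_top_iff_finrank_eq]
  refine ⟨fun h => eq_top_iff.2 fun x _ => mem_spn.2 fun l hl h0 => (h l hl h0).elim,
    fun h l hl h0 => hA.2 ?_⟩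
  have : l = 0 := LinearMap.ext fun x => mem_spn.1 (h ▸ Submodule.mem_top) l hl h0
  exact this ▸ hl

theorem Tope.max {X : Cell A} (h : Tope X) {z : Cell A} (hz : X ≤ z) : z = X := Subtype.ext <|
  funext fun l => by
    by_cases hl : l ∈ A
    · exact ((hz l).resolve_left (h l hl)).symm
    · rw [z.zero hl, X.zero hl]

theorem aff_iff (hA : Ess A) (s : Cell A) : s ∈ Aff A ↔ ∃ p, fc A p = s := by
  constructor
  · intro h
    obtain ⟨x, -, e⟩ := s.2
    have h1 : 0 < x.1 := by
      have : s.1 fw = 1 := h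
      rwa [← e, sv, if_pos hA.fw_mem, sign_eq_one_iff] at this
    refine ⟨x.1⁻¹ • x.2, Subtype.ext ?_⟩
    rw [← e, ← sv_smul A (inv_pos.2 h1) x]
    change sv A (1, x.1⁻¹ • x.2) = sv A (x.1⁻¹ * x.1, x.1⁻¹ • x.2)
    rw [inv_mul_cancel₀ h1.ne']
  · rintro ⟨p, rfl⟩
    change sv A (1, p) fw = 1
    rw [sv, if_pos hA.fw_mem]
    exact sign_pos (show (0 : ℝ) < 1 from one_pos)

theorem aff_upper : IsUpperSet (Aff A) := fun s t hst hs => by
  have h : s.1 fw = 1 := hs
  refine (hst fw).elim (fun h0 => ?_) fun e => e.symm.trans h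
  rw [h] at h0
  exact absurd h0 (by decide)

theorem Cell.neg_neg (s : Cell A) : s.neg.neg = s := Subtype.ext (funext fun _ => _root_.neg_neg _)

theorem Tope.neg {X : Cell A} (h : Tope X) : Tope X.neg := fun l hl h0 =>
  h l hl (by
    have : -X.1 l = 0 := h0
    revert this
    cases X.1 l <;> decide)

theorem res_fc {B : Finset Fn} (h : A ⊆ B) (p : E3) : res h (fc B p) = fc A p := Subtype.ext <|
  funext fun l => by
    change (if l ∈ A then sv B (1, p) l else 0) = sv A (1, p) l
    unfold sv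
    split_ifs with h1 h2
    exacts [rfl, (h2 (h h1)).elim, rfl]

theorem res_res {B C : Finset Fn} (h : A ⊆ B) (h' : B ⊆ C) (s : Cell C) :
    res h (res h' s) = res (h.trans h') s := Subtype.ext <| funext fun l => by
  change (if l ∈ A then (if l ∈ B then s.1 l else 0) else 0) = if l ∈ A then s.1 l else 0
  split_ifs with h1 h2
  exacts [rfl, (h2 (h h1)).elim, rfl]

theorem res_self (s : Cell A) : res (Finset.Subset.refl A) s = s := Subtype.ext <| funext fun l => by
  change (if l ∈ A then s.1 l else 0) = s.1 l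
  split_ifs with h1
  exacts [rfl, (s.zero h1).symm]

theorem aff_res (hA : Ess A) {B : Finset Fn} (h : A ⊆ B) : res h ⁻¹' Aff A = Aff B := Set.ext fun s => by
  change (if fw ∈ A then s.1 fw else 0) = 1 ↔ s.1 fw = 1
  rw [if_pos hA.fw_mem]

end KG
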