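import Pool.Agent.Work.MP_c146e2_gt.KG.Bas

set_option autoImplicit false

noncomputable section

open scoped Classical

namespace KG

variable {V : Type}

def bcycAdj (G : Cx V) (S : Set V) (a b : V) : Prop := a ∈ S ∧ b ∈ S ∧ a ≠ b ∧ G.r a b

theorem bcyc_symm {G : Cx V} {S : Set V} {a b : V} (h : bcycAdj G S a b) : bcycAdj G S b a :=
  ⟨h.2.1, h.1, h.2.2.1.symm, G.symm _ _ h.2.2.2⟩

theorem bcyc_two {G : Cx V} {S : Set V} (h2 : ∀ v ∈ S, (lk G {v} ∩ S).ncard = 2) {b : V}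
    (hb : b ∈ S) : ∃ x y, x ≠ y ∧ ∀ d, bcycAdj G S b d ↔ d = x ∨ d = y := by
  obtain ⟨x, y, hxy, e⟩ := Set.ncard_eq_two.1 (h2 b hb)
  refine ⟨x, y, hxy, fun d => ?_⟩
  have : d ∈ lk G {b} ∩ S ↔ d = x ∨ d = y := by rw [e]; simp
  rw [← this]
  simp only [bcycAdj, lk, Set.mem_inter_iff, Set.mem_ofPred_eq, Finset.mem_singleton, forall_eq]
  exact ⟨fun h => ⟨⟨h.2.2.1.symm, G.symm _ _ h.2.2.2⟩, h.2.1⟩,
    fun h => ⟨hb, h.2, Ne.symm h.1.1, G.symm _ _ h.1.2⟩⟩

theorem bcyc_next {G : Cx V} {S : Set V} (h2 : ∀ v ∈ S, (lk G {v} ∩ S).ncard = 2) (a b : V) :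
    ∃ c, bcycAdj G S a b →
      bcycAdj G S b c ∧ c ≠ a ∧ ∀ d, bcycAdj G S b d → d = a ∨ d = c := by
  by_cases h : bcycAdj G S a b
  · obtain ⟨x, y, hxy, e⟩ := bcyc_two h2 h.2.1
    rcases (e a).1 (bcyc_symm h) with rfl | rfl
    · exact ⟨y, fun _ => ⟨(e y).2 (Or.inr rfl), hxy.symm, fun d hd => (e d).1 hd⟩⟩
    · exact ⟨x, fun _ => ⟨(e x).2 (Or.inl rfl), hxy, fun d hd => ((e d).1 hd).symm⟩⟩
  · exact ⟨a, fun h' => absurd h' h⟩

theorem bcyc_walk {G : Cx V} {S : Set V} (hne : S.Nonempty)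
    (h2 : ∀ v ∈ S, (lk G {v} ∩ S).ncard = 2) :
    ∃ v : ℕ → V, (∀ i, bcycAdj G S (v i) (v (i + 1))) ∧ (∀ i, v (i + 2) ≠ v i) ∧
      ∀ i d, bcycAdj G S (v (i + 1)) d → d = v i ∨ d = v (i + 2) := by
  obtain ⟨a, ha⟩ := hne
  obtain ⟨x, y, -, e⟩ := bcyc_two h2 ha
  choose nx hnx using bcyc_next h2
  let w : ℕ → V × V := fun n => Nat.rec (a, x) (fun _ p => (p.2, nx p.1 p.2)) n
  have hw : ∀ n, bcycAdj G S (w n).1 (w n).2 := by
    intro n
    induction n with
    | zero => exact (e x).2 (Or.inl rfl)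
    | succ n ih => exact (hnx _ _ ih).1
  exact ⟨fun n => (w n).1, hw, fun i => (hnx _ _ (hw i)).2.1, fun i => (hnx _ _ (hw i)).2.2⟩

theorem bcyc_period [Fintype V] {G : Cx V} {S : Set V} {v : ℕ → V}
    (hA : ∀ i, bcycAdj G S (v i) (v (i + 1))) (hB : ∀ i, v (i + 2) ≠ v i)
    (hC : ∀ i d, bcycAdj G S (v (i + 1)) d → d = v i ∨ d = v (i + 2)) :
    ∃ m, 3 ≤ m ∧ (∀ i, v (i + m) = v i) ∧ Set.InjOn v (Set.Iio m) := by
  have hex : ∃ m, ∃ j < m, v j = v m := by
    obtain ⟨i, j, hij, e⟩ := Finite.exists_ne_map_eq_of_infinite v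
    rcases lt_or_gt_of_ne hij with h | h
    · exact ⟨j, i, h, e⟩
    · exact ⟨i, j, h, e.symm⟩
  obtain ⟨j, hj, e⟩ := Nat.find_spec hex
  have hmin : ∀ k < Nat.find hex, ∀ i < k, v i ≠ v k := fun k hk i hi h =>
    Nat.find_min hex hk ⟨i, hi, h⟩
  generalize Nat.find hex = m at hj e hmin
  have hinj : ∀ i < m, ∀ k < m, v i = v k → i = k := by
    intro i hi k hk h
    rcases lt_trichotomy i k with h1 | h1 | h1
    · exact absurd h (hmin k hk i h1)
    · exact h1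
    · exact absurd h.symm (hmin i hi k h1)
  obtain ⟨m', rfl⟩ : ∃ m', m = m' + 1 := ⟨m - 1, by omega⟩
  have hj0 : j = 0 := by
    by_contra hn
    obtain ⟨j', rfl⟩ : ∃ j', j = j' + 1 := ⟨j - 1, by omega⟩
    have h1 := bcyc_symm (hA m')
    rw [← e] at h1
    rcases hC j' _ h1 with h | h
    · have := hinj m' (by omega) j' (by omega) h
      omega
    · by_cases hl : j' + 2 < m' + 1
      · have := hinj m' (by omega) _ hl h
        subst this
        exact hB (j' + 1) e.symm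
      · have : m' = j' + 1 := by omega
        subst this
        exact (hA (j' + 1)).2.2.1 e
  subst hj0
  have h3 : 3 ≤ m' + 1 := by
    by_contra hn
    have : m' = 0 ∨ m' = 1 := by omega
    rcases this with rfl | rfl
    · exact (hA 0).2.2.1 e
    · exact hB 0 e.symm
  have h1 : v (m' + 2) = v 1 := by
    have h := hA 0
    rw [e] at h
    rcases hC m' _ h with h | h
    · have := hinj (0 + 1) (by omega) m' (by omega) h
      omega
    · exact h.symm
  have hp : ∀ i, v (i + (m' + 1)) = v i ∧ v (i + (m' + 1) + 1) = v (i + 1) := by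
    intro i
    induction i with
    | zero => exact ⟨by rw [zero_add]; exact e.symm, by rw [zero_add]; exact h1⟩
    | succ i ih =>
      have e1 : i + 1 + (m' + 1) = i + (m' + 1) + 1 := by ring
      rw [e1]
      refine ⟨ih.2, ?_⟩
      have h := hA (i + (m' + 1) + 1)
      rw [ih.2] at h
      rcases hC i _ h with h | h
      · exact absurd (h.trans ih.1.symm) (hB (i + (m' + 1)))
      · exact h
  exact ⟨m' + 1, h3, fun i => (hp i).1, fun i hi k hk h => hinj i hi k hk h⟩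

/-- A connected graph in which every vertex has two neighbours is a cycle. -/
theorem exists_cycle [Fintype V] {G : Cx V} {S : Set V} (hne : S.Nonempty) (hc : Conn G S)
    (h2 : ∀ v ∈ S, (lk G {v} ∩ S).ncard = 2) :
    ∃ (m : ℕ) (v : ℕ → V), 3 ≤ m ∧ (∀ i, v (i + m) = v i) ∧ Set.BijOn v (Set.Iio m) S ∧
      (∀ i, G.r (v i) (v (i + 1))) ∧
      ∀ a ∈ S, ∀ b ∈ S, G.r a b → a = b ∨ ∃ i < m,
        (a = v i ∧ b = v (i + 1)) ∨ (b = v i ∧ a = v (i + 1)) := by
  obtain ⟨v, hA, hB, hC⟩ := bcyc_walk hne h2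
  obtain ⟨m, h3, hp, hinj⟩ := bcyc_period hA hB hC
  have hmod : ∀ k, v (k % m) = v k := Function.Periodic.map_mod_nat (f := v) hp
  have hmod1 : ∀ k, v (k % m + 1) = v (k + 1) :=
    Function.Periodic.map_mod_nat (f := fun k => v (k + 1)) fun k => by
      show v (k + m + 1) = v (k + 1)
      rw [add_right_comm, hp]
  have hnb : ∀ i d, bcycAdj G S (v i) d → d = v (i + m - 1) ∨ d = v (i + 1) := by
    intro i d hd
    have e1 : i + m - 1 + 1 = i + m := by omega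
    have e2 : i + m - 1 + 2 = i + 1 + m := by omega
    have := hC (i + m - 1) d (by rwa [e1, hp])
    rwa [e2, hp] at this
  have hsur : ∀ a ∈ S, ∃ i < m, v i = a := by
    intro a ha
    have key : ∀ b, Rch G S (v 0) b → ∃ i, v i = b := by
      intro b hb
      induction hb with
      | refl => exact ⟨0, rfl⟩
      | @tail b c _ hbc ih =>
        obtain ⟨i, rfl⟩ := ih
        by_cases e : v i = c
        · exact ⟨i, e⟩
        · rcases hnb i c ⟨hbc.1, hbc.2.1, e, hbc.2.2⟩ with h | h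
          · exact ⟨_, h.symm⟩
          · exact ⟨_, h.symm⟩
    obtain ⟨i, hi⟩ := key a (hc _ (hA 0).1 a ha)
    exact ⟨i % m, Nat.mod_lt _ (by omega), (hmod i).trans hi⟩
  refine ⟨m, v, h3, hp, ⟨fun i _ => (hA i).1, hinj, fun a ha => hsur a ha⟩,
    fun i => (hA i).2.2.2, fun a ha b hb hab => ?_⟩
  by_cases e : a = b
  · exact Or.inl e
  right
  obtain ⟨i, hi, rfl⟩ := hsur a ha
  rcases hnb i b ⟨ha, hb, e, hab⟩ with h | h
  · refine ⟨(i + m - 1) % m, Nat.mod_lt _ (by omega), Or.inr ⟨h.trans (hmod _).symm, ?_⟩⟩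
    have e1 : i + m - 1 + 1 = i + m := by omega
    rw [hmod1, e1, hp]
  · exact ⟨i, hi, Or.inl ⟨rfl, h⟩⟩

end KG
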