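import Pool.Agent.Work.MP_c146e2_gt.KG.Defs
import Pool.Agent.Work.MP_5036cb_gt.Rep

set_option autoImplicit false

noncomputable section

open scoped Classical

namespace KG

open Pool.Agent.Work.MP_5036cb_gt

abbrev E3 : Type := ℝ × ℝ × ℝ

abbrev E4 : Type := ℝ × E3

abbrev Fn : Type := E4 →ₗ[ℝ] ℝ

/-! Representations of the fundamental groupoid. -/

/-- The set `X` carries a universal representation with values in `L`. -/
def URep (X : Set E3) (L : Type) [Group L] : Prop :=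
  ∃ R₀ : (unitInterval → E3) → L, IsRep X R₀ ∧
    ∀ (H : Type) [Group H] (R : (unitInterval → E3) → H), IsRep X R →
      ∃ (θ : L →* H) (β : E3 → H), ∀ γ, Valid X γ → R γ = (β (γ 0))⁻¹ * θ (R₀ γ) * β (γ 1)

def stdS (g : ℕ) : Set E3 :=
  {y : ℝ × ℝ × ℝ | y.2.2 = 0 ∧ ∃ i : ℕ, i < g ∧ (y.1 - (2 * (i : ℝ) + 1)) ^ 2 + y.2.1 ^ 2 = 1}

/-- A decomposition of `X` into cells with convex open stars. -/
structure Cells {P : Type} [PartialOrder P] (X : Set E3) (U : Set P) (F : E3 → P) : Prop where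
  mem : ∀ x, x ∈ X ↔ F x ∈ U
  sur : ∀ a ∈ U, ∃ x, F x = a
  upp : ∀ a ∈ U, ∀ b, a ≤ b → b ∈ U
  opn : ∀ a ∈ U, IsOpen {x | a ≤ F x}
  cvx : ∀ a ∈ U, Convex ℝ {x | a ≤ F x}

/-! Central arrangements in dimension four. -/

def sv (A : Finset Fn) (x : E4) : Fn → SignType :=
  fun l => if l ∈ A then SignType.sign (l x) else 0

def sle (s t : Fn → SignType) : Prop := ∀ l, s l = 0 ∨ s l = t l

def Cell (A : Finset Fn) : Type := {s : Fn → SignType // ∃ x : E4, x ≠ 0 ∧ sv A x = s}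

instance (A : Finset Fn) : PartialOrder (Cell A) where
  le s t := sle s.1 t.1
  le_refl _ _ := Or.inr rfl
  le_trans _ _ _ h h' l := (h l).elim Or.inl fun e => e ▸ h' l
  le_antisymm s t h h' := Subtype.ext (funext fun l => (h l).elim
    (fun e => (h' l).elim (fun e' => e.trans e'.symm) Eq.symm) id)

instance (A : Finset Fn) : Finite (Cell A) :=
  Finite.of_injective (fun (s : Cell A) (l : A) => s.1 l.1) fun s t h => Subtype.ext <|
    funext fun l => by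
      by_cases hl : l ∈ A
      · exact congrFun h ⟨l, hl⟩
      · obtain ⟨x, -, e⟩ := s.2
        obtain ⟨y, -, e'⟩ := t.2
        rw [← e, ← e', sv, sv, if_neg hl, if_neg hl]

instance (A : Finset Fn) : Fintype (Cell A) := Fintype.ofFinite _

def fw : Fn := LinearMap.fst ℝ ℝ E3

def lx : E3 →ₗ[ℝ] ℝ := LinearMap.fst ℝ ℝ (ℝ × ℝ)

def ly : E3 →ₗ[ℝ] ℝ := (LinearMap.fst ℝ ℝ ℝ).comp (LinearMap.snd ℝ ℝ (ℝ × ℝ))

def lz : E3 →ₗ[ℝ] ℝ := (LinearMap.snd ℝ ℝ ℝ).comp (LinearMap.snd ℝ ℝ (ℝ × ℝ))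

/-- The functional `(w, p) ↦ l p - c w`. -/
def af (l : E3 →ₗ[ℝ] ℝ) (c : ℝ) : Fn := l.comp (LinearMap.snd ℝ ℝ E3) - c • fw

def A0 : Finset Fn := {fw, af lx 0, af ly 0, af lz 0}

def Ess (A : Finset Fn) : Prop := A0 ⊆ A ∧ (0 : Fn) ∉ A

/-- The linear span of a cell. -/
def spn (A : Finset Fn) (s : Fn → SignType) : Submodule ℝ E4 :=
  ⨅ l ∈ {l | l ∈ A ∧ s l = 0}, LinearMap.ker l

def dm (A : Finset Fn) (s : Fn → SignType) : ℕ := Module.finrank ℝ (spn A s)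

def crk (A : Finset Fn) (s : Cell A) : ℕ := dm A s.1 - 1

/-- The cell of a point of three-space. -/
def fc (A : Finset Fn) (p : E3) : Cell A :=
  ⟨sv A (1, p), (1, p), fun h => one_ne_zero (congrArg Prod.fst h), rfl⟩

def Aff (A : Finset Fn) : Set (Cell A) := {s | s.1 fw = 1}

def On (A : Finset Fn) (Γ : Set E3) : Set (Cell A) := fc A '' Γ

def res {A B : Finset Fn} (h : A ⊆ B) (s : Cell B) : Cell A :=
  ⟨fun l => if l ∈ A then s.1 l else 0, by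
    obtain ⟨x, hx, e⟩ := s.2
    refine ⟨x, hx, funext fun l => ?_⟩
    by_cases hl : l ∈ A
    · rw [if_pos hl, ← e, sv, sv, if_pos hl, if_pos (h hl)]
    · rw [if_neg hl, sv, if_neg hl]⟩

def Cell.neg {A : Finset Fn} (s : Cell A) : Cell A :=
  ⟨fun l => -s.1 l, by
    obtain ⟨x, hx, e⟩ := s.2
    refine ⟨-x, neg_ne_zero.2 hx, funext fun l => ?_⟩
    rw [← e, sv, sv]
    split_ifs
    · rw [map_neg, Left.sign_neg]
    · rfl⟩

def Tope {A : Finset Fn} (X : Cell A) : Prop := ∀ l ∈ A, X.1 l ≠ 0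

/-- `Γ` is a compact graph made of cells. -/
structure Grf (A : Finset Fn) (Γ : Set E3) : Prop where
  adapt : ∀ p q, fc A p = fc A q → p ∈ Γ → q ∈ Γ
  low : IsLowerSet (On A Γ)
  dim : ∀ s, Clq (ord (Cell A)) s → Ins s (On A Γ) → s.card ≤ 2

/-- The planes that cut out a segment. -/
def segF (p q : E3) : Finset Fn :=
  ({af lx p.1, af lx q.1, af ly p.2.1, af ly q.2.1, af lz p.2.2, af lz q.2.2,
    (q.2.1 - p.2.1) • af lx p.1 - (q.1 - p.1) • af ly p.2.1,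
    (q.2.2 - p.2.2) • af lx p.1 - (q.1 - p.1) • af lz p.2.2,
    (q.2.2 - p.2.2) • af ly p.2.1 - (q.2.1 - p.2.1) • af lz p.2.2} : Finset Fn).erase 0

/-! The cubical grid with planes at `0, …, n` in each direction. -/

def ZI (n : ℕ) : Type := {i : ℤ // -1 ≤ i ∧ i ≤ 2 * n + 1}

instance (n : ℕ) : PartialOrder (ZI n) where
  le i j := zle i.1 j.1
  le_refl _ := Or.inl rfl
  le_trans i j k h h' := by
    simp only [zle, Int.even_iff] at h h' ⊢
    omega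
  le_antisymm i j h h' := Subtype.ext (by
    simp only [zle, Int.even_iff] at h h'
    omega)

theorem ZI.le_iff {n : ℕ} {i j : ZI n} : i ≤ j ↔ zle i.1 j.1 := Iff.rfl

instance (n : ℕ) : Finite (ZI n) := (Set.finite_Icc (-1 : ℤ) (2 * n + 1)).to_subtype

instance (n : ℕ) : Fintype (ZI n) := Fintype.ofFinite _

abbrev Box (n : ℕ × ℕ × ℕ) : Type := ZI n.1 × ZI n.2.1 × ZI n.2.2

def ZI.out {n : ℕ} (i : ZI n) : Prop := i.1 = -1 ∨ i.1 = 2 * n + 1

/-- The unbounded cells. -/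
def Outr (n : ℕ × ℕ × ℕ) : Set (Box n) := {c | c.1.out ∨ c.2.1.out ∨ c.2.2.out}

def zc1 (n : ℕ) (x : ℝ) : ZI n :=
  ⟨max (-1) (min (2 * n + 1) (⌊x⌋ + ⌈x⌉)), le_max_left _ _, max_le (by omega) (min_le_left _ _)⟩

def zc (n : ℕ × ℕ × ℕ) (p : E3) : Box n := (zc1 n.1 p.1, zc1 n.2.1 p.2.1, zc1 n.2.2 p.2.2)

def bpt {n : ℕ × ℕ × ℕ} (c : Box n) : E3 :=
  ((c.1.1 : ℝ) / 2, (c.2.1.1 : ℝ) / 2, (c.2.2.1 : ℝ) / 2)

def geo {n : ℕ × ℕ × ℕ} (K : Set (Box n)) : Set E3 := {p | zc n p ∈ K}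

/-- A closed curve in the one-skeleton of the grid. -/
structure GK {n : ℕ × ℕ × ℕ} (K : Set (Box n)) : Prop where
  low : IsLowerSet K
  one : ∀ c ∈ K, (Even c.1.1 ∧ Even c.2.1.1) ∨ (Even c.1.1 ∧ Even c.2.2.1) ∨
    (Even c.2.1.1 ∧ Even c.2.2.1)
  ne : K.Nonempty
  conn : Conn (ord (Box n)) K
  two : ∀ v ∈ K, (lk (ord (Box n)) {v} ∩ K).ncard = 2
  sep : Sep (ord (Box n)) K (Outr n)

/-- The planes of the grid. -/
def grA (n : ℕ × ℕ × ℕ) : Finset Fn :=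
  insert fw (((Finset.range (n.1 + 1)).image fun j : ℕ => af lx j) ∪
    ((Finset.range (n.2.1 + 1)).image fun j : ℕ => af ly j) ∪
    (Finset.range (n.2.2 + 1)).image fun j : ℕ => af lz j)

end KG
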