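import Pool.Agent.Work.MP_c146e2_gt.KG.Chi

set_option autoImplicit false

noncomputable section

open scoped Classical

namespace KG

variable {V V' : Type}

section

variable {P : Type} [PartialOrder P] {rk : P → ℕ} {U : Set P}

/-- Intervals, with the empty case. -/
def manoJ (S : Set P) (n : ℕ) : Prop := (n = 0 → S = ∅) ∧ Itv S n

theorem manoJ.ne {S : Set P} {n : ℕ} (h : manoJ S n) (hn : n ≠ 0) : S.Nonempty := by
  rcases (show n = 1 ∨ 2 ≤ n by omega) with h1 | h1
  · exact Set.nonempty_of_ncard_ne_zero ((h.2.1 h1).trans_ne two_ne_zero)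
  · exact (h.2.2 h1).1

theorem manoJ.join {A B : Set P} {n m : ℕ} (hA : manoJ A n) (hB : manoJ B m)
    (h : ∀ a ∈ A, ∀ b ∈ B, a < b) : manoJ (A ∪ B) (n + m) := by
  rcases eq_or_ne n 0 with rfl | hn
  · rwa [hA.1 rfl, Set.empty_union, zero_add]
  rcases eq_or_ne m 0 with rfl | hm
  · rwa [hB.1 rfl, Set.union_empty, add_zero]
  obtain ⟨a, ha⟩ := hA.ne hn
  obtain ⟨b, hb⟩ := hB.ne hm
  have h1 : ∀ x ∈ B, Rch (ord P) (A ∪ B) x a := fun x hx =>
    rch_step (Or.inr hx) (Or.inl ha) (Or.inr (h a ha x hx).le)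
  refine ⟨fun h0 => by omega, fun h0 => by omega, fun _ => ⟨⟨a, Or.inl ha⟩, conn_of_base a ?_⟩⟩
  rintro x (hx | hx)
  · exact (rch_step (G := ord P) (Or.inl hx) (Or.inr hb) (Or.inl (h x hx b hb).le)).trans (h1 b hb)
  · exact h1 x hx

theorem manoJ.congr {S T : Set P} {n m : ℕ} (h : manoJ S n) (hT : ∀ z, z ∈ T ↔ z ∈ S)
    (hm : m = n) : manoJ T m := by
  rwa [Set.ext hT, hm]

theorem mano_low (h : GP rk U) {u b : P} (hu : u ∈ U) (hb : b ≤ u) : manoJ {z | z < b} (rk b) :=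
  ⟨fun h0 => Set.eq_empty_of_forall_notMem fun z hz => by
    have := h.mono hz
    omega, h.low u hu b hb⟩

theorem mano_mid (h : GP rk U) {u a b : P} (hu : u ∈ U) (hb : b ≤ u) (ha : a < b) :
    manoJ {z | a < z ∧ z < b} (rk b - rk a - 1) :=
  ⟨fun h0 => Set.eq_empty_of_forall_notMem fun z hz => by
    have := h.mono hz.1
    have := h.mono hz.2
    omega, h.mid u hu b hb a ha⟩

theorem mano_top (h : GP rk U) {a : P} (ha : a ∈ U) : manoJ {z | a < z} (3 - rk a) :=
  ⟨fun h0 => Set.eq_empty_of_forall_notMem fun z hz => by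
    have := h.mono hz
    have := h.le3 z (h.upp a ha z hz.le)
    omega, h.top a ha⟩

theorem mano_lt (h : StrictMono rk) {a b : P} (hr : (ord P).r a b) (hn : a ≠ b)
    (hle : rk a ≤ rk b) : a < b :=
  hr.elim (fun h1 => lt_of_le_of_ne h1 hn) fun h1 =>
    absurd (h (lt_of_le_of_ne h1 hn.symm)) hle.not_gt

theorem mano_ins {s : Finset P} {a z : P} (hs : ∀ x ∈ s, x < a) :
    z ∈ lk (ord P) (insert a s) ↔ (z < a ∧ z ∈ lk (ord P) s) ∨ a < z := by
  simp only [lk, Set.mem_ofPred_eq, Finset.mem_insert, not_or, forall_eq_or_imp]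
  constructor
  · rintro ⟨⟨h1, h2⟩, h3 | h3, h4⟩
    · exact Or.inl ⟨lt_of_le_of_ne h3 h1, h2, h4⟩
    · exact Or.inr (lt_of_le_of_ne h3 (Ne.symm h1))
  · rintro (⟨h1, h2, h3⟩ | h1)
    · exact ⟨⟨h1.ne, h2⟩, Or.inl h1.le, h3⟩
    · exact ⟨⟨h1.ne', fun h2 => lt_asymm h1 (hs z h2)⟩, Or.inr h1.le,
        fun x hx => Or.inr ((hs x hx).trans h1).le⟩

theorem mano_lk1 {v z : P} : z ∈ lk (ord P) {v} ↔ z < v ∨ v < z := by
  refine (mano_ins (s := ∅) (by simp)).trans ?_
  simp [lk]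

theorem mano_ind (h : GP rk U) {u : P} (hu : u ∈ U) (s : Finset P) :
    (∀ x ∈ s, ∀ y ∈ s, (ord P).r x y) → ∀ b ≤ u, (∀ x ∈ s, x < b) →
      s.card ≤ rk b ∧ manoJ {z | z < b ∧ z ∈ lk (ord P) s} (rk b - s.card) := by
  induction s using Finset.induction_on_max_value rk with
  | empty => exact fun _ b hb _ => ⟨by simp, (mano_low h hu hb).congr (by simp [lk]) (by simp)⟩
  | insert a s ha hm ih =>
    intro hc b hb hs
    have h1 : a < b := hs a (Finset.mem_insert_self _ _)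
    have h2 : ∀ x ∈ s, x < a := fun x hx => mano_lt h.mono
      (hc x (Finset.mem_insert_of_mem hx) a (Finset.mem_insert_self _ _))
      (fun e => ha (e ▸ hx)) (hm x hx)
    obtain ⟨h3, h4⟩ := ih (fun x hx y hy => hc x (Finset.mem_insert_of_mem hx) y
      (Finset.mem_insert_of_mem hy)) a (h1.le.trans hb) h2
    have h5 := h.mono h1
    rw [Finset.card_insert_of_notMem ha]
    refine ⟨by omega, (h4.join (mano_mid h hu hb h1) fun x hx y hy => hx.1.trans hy.1).congr
      (fun z => ?_) (by omega)⟩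
    simp only [Set.mem_ofPred_eq, Set.mem_union, mano_ins h2]
    exact ⟨fun hz => hz.2.imp_right fun h6 => ⟨h6, hz.1⟩, fun hz => hz.elim
      (fun h6 => ⟨h6.1.trans h1, Or.inl h6⟩) fun h6 => ⟨h6.2, Or.inr h6.1⟩⟩

theorem mano_lk (h : GP rk U) {s : Finset P} (hs : Clq (ord P) s) (hU : Meets s U) :
    s.card ≤ 4 ∧ manoJ (lk (ord P) s) (4 - s.card) := by
  obtain ⟨u, hu, hm⟩ := s.exists_max_image rk hs.1
  have h1 : ∀ x ∈ s.erase u, x < u := fun x hx => mano_lt h.mono
    (hs.2 x (Finset.mem_of_mem_erase hx) u hu) (Finset.ne_of_mem_erase hx)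
    (hm x (Finset.mem_of_mem_erase hx))
  have h2 : u ∈ U := by
    obtain ⟨a, ha, h2⟩ := hU
    rcases eq_or_ne a u with rfl | h3
    · exact h2
    · exact h.upp a h2 u (h1 a (Finset.mem_erase.2 ⟨h3, ha⟩)).le
  obtain ⟨h3, h4⟩ := mano_ind h h2 (s.erase u) (fun x hx y hy =>
    hs.2 x (Finset.mem_of_mem_erase hx) y (Finset.mem_of_mem_erase hy)) u le_rfl h1
  have h5 := h.le3 u h2
  have h6 := Finset.card_erase_add_one hu
  refine ⟨by omega, (h4.join (mano_top h h2) fun x hx y hy => hx.1.trans hy).congr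
    (fun z => ?_) (by omega)⟩
  conv_lhs => rw [← Finset.insert_erase hu]
  exact mano_ins h1

variable [Fintype P]

theorem mano_chi (h : StrictMono rk) {S : Set P} {n : ℕ} (r : ℕ) (hn : n ≤ 2) (hS : manoJ S n)
    (hr : ∀ z ∈ S, r ≤ rk z ∧ rk z < r + n)
    (h2 : ∀ y ∈ S, manoJ {z | z ∈ S ∧ z < y} (rk y - r) ∧
      manoJ {z | z ∈ S ∧ y < z} (r + n - rk y - 1)) : 1 - chi (ord P) S = (-1) ^ n := by
  obtain rfl | rfl | rfl : n = 0 ∨ n = 1 ∨ n = 2 := by omega
  · rw [hS.1 rfl, chi_empty]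
    rfl
  · have h3 : chi (ord P) S = S.ncard := by
      rw [chi_top, Set.ncard_eq_toFinset_card', ← Finset.filter_mem_eq_inter.trans
        (Finset.univ_inter S.toFinset), ← Finset.sum_boole]
      refine Finset.sum_congr rfl fun x _ => if_ctx_congr Set.mem_toFinset.symm (fun hx => ?_)
        fun _ => rfl
      have := hr x (Set.mem_toFinset.1 hx)
      rw [(h2 x (Set.mem_toFinset.1 hx)).1.1 (by omega), chi_empty, sub_zero]
    rw [h3, hS.2.1 rfl]
    rfl
  · rw [chi_cycle (fun s hs hI => ?_) fun y hy => ?_]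
    · rfl
    · refine (Finset.card_le_card_of_injOn (t := Finset.Ico r (r + 2)) rk
        (fun x hx => Finset.mem_Ico.2 (hr x (hI x hx))) fun x hx y hy e => ?_).trans (by simp)
      by_contra hxy
      exact (h (mano_lt h (hs.2 x hx y hy) hxy e.le)).ne e
    · have := hr y hy
      refine (((h2 y hy).1.join (h2 y hy).2 fun a ha b hb => ha.2.trans hb.2).congr
        (fun z => ?_) rfl).2.1 (by omega)
      simp only [Set.mem_inter_iff, mano_lk1, Set.mem_union, Set.mem_ofPred_eq]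
      tauto

theorem mano_chi_low (h : GP rk U) {u b : P} (hu : u ∈ U) (hb : b ≤ u) (hn : rk b ≤ 2) :
    1 - chi (ord P) {z | z < b} = (-1) ^ rk b :=
  mano_chi h.mono 0 hn (mano_low h hu hb) (fun z hz => by simpa using h.mono hz) fun y hy =>
    ⟨(mano_low h hu (hy.le.trans hb)).congr
      (fun z => and_iff_right_of_imp fun hz => hz.trans hy) rfl,
    (mano_mid h hu hb hy).congr (fun z => and_comm) (by omega)⟩

theorem mano_chi_mid (h : GP rk U) {a b : P} (hb : b ∈ U) (ha : a < b)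
    (hn : rk b - rk a - 1 ≤ 2) :
    1 - chi (ord P) {z | a < z ∧ z < b} = (-1) ^ (rk b - rk a - 1) := by
  have h0 := h.mono ha
  refine mano_chi h.mono (rk a + 1) hn (mano_mid h hb le_rfl ha) (fun z hz => ?_) fun y hy =>
    ⟨(mano_mid h hb hy.2.le hy.1).congr
      (fun z => ⟨fun hz => ⟨hz.1.1, hz.2⟩, fun hz => ⟨⟨hz.1, hz.2.trans hy.2⟩, hz.2⟩⟩) rfl,
    (mano_mid h hb le_rfl hy.2).congr
      (fun z => ⟨fun hz => ⟨hz.2, hz.1.2⟩, fun hz => ⟨⟨hy.1.trans hz.1, hz.2⟩, hz.1⟩⟩) (by omega)⟩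
  have := h.mono hz.1
  have := h.mono hz.2
  omega

theorem mano_chi_top (h : GP rk U) {a : P} (ha : a ∈ U) (hn : 3 - rk a ≤ 2) :
    1 - chi (ord P) {z | a < z} = (-1) ^ (3 - rk a) := by
  have h0 := h.le3 a ha
  refine mano_chi h.mono (rk a + 1) hn (mano_top h ha) (fun z hz => ?_) fun y hy =>
    ⟨(mano_mid h (h.upp a ha y hy.le) le_rfl hy).congr (fun z => Iff.rfl) rfl,
    (mano_top h (h.upp a ha y hy.le)).congr
      (fun z => and_iff_right_of_imp fun hz => hy.trans hz) (by omega)⟩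
  have := h.mono hz
  have := h.le3 z (h.upp a ha z hz.le)
  omega

end

theorem GP.pman {P : Type} [Fintype P] [PartialOrder P] {rk : P → ℕ} {U : Set P} (h : GP rk U) :
    PMan (ord P) U := by
  refine ⟨fun s hs hU => (mano_lk h hs hU).1, fun s hs hU h3 => (mano_lk h hs hU).2.2.1 (by omega),
    fun s hs hU h2 => (mano_lk h hs hU).2.2.2 (by omega)⟩

theorem GP.man {P : Type} [Fintype P] [PartialOrder P] {rk : P → ℕ} {U : Set P} (h : GP rk U)
    (h0 : ∀ v ∈ U, rk v = 0 → (∑ z : P, if v < z then (-1 : ℤ) ^ (rk z + 1) else 0) = 2)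
    (h3 : ∀ v ∈ U, rk v = 3 → (∑ z : P, if z < v then (-1 : ℤ) ^ rk z else 0) = 2) :
    Man (ord P) U := by
  refine ⟨h.pman, fun v hv => ?_⟩
  have hr := h.le3 v hv
  have hA : 1 - chi (ord P) {z | z < v} = (-1) ^ rk v := by
    rcases hr.eq_or_lt with h4 | h4
    · rw [chi_top, Finset.sum_congr rfl fun x _ => ?_, h3 v hv h4, h4]
      · rfl
      refine if_ctx_congr Iff.rfl (fun hx => ?_) fun _ => rfl
      have h5 := h.mono hx
      rw [← mano_chi_low h hv hx.le (by omega)]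
      exact congrArg (1 - chi (ord P) ·) (Set.ext fun z => and_iff_right_of_imp fun hz => hz.trans hx)
    · exact mano_chi_low h hv le_rfl (by omega)
  have hB : 1 - chi (ord P) {z | v < z} = (-1) ^ (3 - rk v) := by
    rcases (rk v).eq_zero_or_pos with h4 | h4
    · rw [chi_top, Finset.sum_congr rfl fun x _ => ?_, h0 v hv h4, h4]
      · rfl
      refine if_ctx_congr Iff.rfl (fun hx => ?_) fun _ => rfl
      have h5 := h.mono hx
      have h6 := h.upp v hv x hx.le
      have h7 := h.le3 x h6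
      refine (mano_chi_mid h h6 hx (by omega)).trans ?_
      rw [show rk x + 1 = rk x - rk v - 1 + 2 by omega, pow_add]
      simp
    · exact mano_chi_top h hv (by omega)
  have h4 := chi_join (G := ord P) (A := {z | z < v}) (B := {z | v < z})
    (Set.disjoint_left.2 fun z h5 h6 => lt_asymm h5 h6) fun a ha b hb => Or.inl (ha.trans hb).le
  rw [hA, hB, ← pow_add, Nat.add_sub_cancel' hr] at h4
  rw [show lk (ord P) {v} = {z | z < v} ∪ {z | v < z} from Set.ext fun z => mano_lk1]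
  linarith

end KG
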