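import Pool.Agent.Work.MP_c146e2_gt.KG.BItv
import Pool.Agent.Work.MP_c146e2_gt.KG.ManO

set_option autoImplicit false

noncomputable section

open scoped Classical

namespace KG

variable {A : Finset Fn}

theorem bgp_out {s : Fn → SignType} {y : E4} (h : y ∉ spn A s) :
    ∃ l ∈ A, s l = 0 ∧ l y ≠ 0 := by
  rw [mem_spn] at h
  push Not at h
  exact h

theorem bgp_img (a : Cell A) (φ : E4 → Cell A) (hφ : ∀ y, (φ y).1 = cmp a.1 (sv A y)) :
    {z | a < z} = φ '' ((spn A a.1 : Set E4)ᶜ) := by
  ext z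
  constructor
  · intro hz
    have hz' : a < z := hz
    obtain ⟨y, -, e⟩ := z.2
    have hle : sle a.1 z.1 := hz'.le
    refine ⟨y, fun hy => hz'.ne (Subtype.ext (funext fun l => ?_)), Subtype.ext ?_⟩
    · rcases hle l with h | h
      · rw [h, ← e, sv]
        split_ifs with hl
        · rw [mem_spn.1 hy l hl h, sign_zero]
        · rfl
      · exact h
    · rw [hφ, e, cmp_of_sle hle]
  · rintro ⟨y, hy, rfl⟩
    obtain ⟨l, hl, h0, h1⟩ := bgp_out hy
    have hle : a ≤ φ y := Cell.le_iff.2 (hφ y ▸ sle_cmp _ _)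
    refine (lt_of_le_of_ne hle fun e => ?_ : a < φ y)
    have := congrFun (congrArg Subtype.val e) l
    rw [hφ, cmp, if_pos h0, h0, sv, if_pos hl] at this
    exact h1 (sign_eq_zero_iff.1 this.symm)

theorem bgp_rank : Module.finrank ℝ E4 = 4 := by
  simp [E4, E3]

theorem bgp_shift {s : Fn → SignType} {w u : E4} (hw : w ∈ spn A s) {r : ℝ} (hr : 0 < r) :
    cmp s (sv A (w + r • u)) = cmp s (sv A u) := by
  funext l
  rw [cmp, cmp]
  split_ifs with h
  · rw [sv, sv]
    split_ifs with hl
    · rw [map_add, mem_spn.1 hw l hl h, zero_add, map_smul, smul_eq_mul, sign_mul, sign_pos hr,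
        one_mul]
    · rfl
  · rfl

theorem itv_top (hA : Ess A) (a : Cell A) : Itv {z | a < z} (4 - dm A a.1) := by
  choose φ hφ using exists_cmp hA a
  rw [bgp_img a φ hφ]
  have hq := Submodule.finrank_quotient_add_finrank (spn A a.1)
  rw [bgp_rank] at hq
  have hex : dm A a.1 < 4 → ∃ u, u ∉ spn A a.1 := fun h => by
    by_contra c
    push Not at c
    have : spn A a.1 = ⊤ := eq_top_iff.2 fun x _ => c x
    rw [dm, this, finrank_top, bgp_rank] at h
    omega
  constructor
  · intro h
    obtain ⟨u, hu⟩ := hex (by omega)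
    have hsup : spn A a.1 ⊔ Submodule.span ℝ {u} = ⊤ := by
      apply Submodule.eq_top_of_finrank_eq
      have h1 : spn A a.1 < spn A a.1 ⊔ Submodule.span ℝ {u} :=
        lt_of_le_of_ne le_sup_left fun e =>
          hu (e ▸ Submodule.mem_sup_right (Submodule.mem_span_singleton_self u))
      have h2 := Submodule.finrank_lt_finrank_of_lt h1
      have h3 := Submodule.finrank_le (spn A a.1 ⊔ Submodule.span ℝ {u})
      rw [bgp_rank] at h3 ⊢
      unfold dm at h
      omega
    have himg : φ '' ((spn A a.1 : Set E4)ᶜ) = {φ u, φ (-u)} := by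
      ext z
      constructor
      · rintro ⟨y, hy, rfl⟩
        have hy' : y ∈ spn A a.1 ⊔ Submodule.span ℝ {u} := hsup ▸ Submodule.mem_top
        obtain ⟨w, hw, v, hv, rfl⟩ := Submodule.mem_sup.1 hy'
        obtain ⟨r, rfl⟩ := Submodule.mem_span_singleton.1 hv
        rcases lt_trichotomy r 0 with hr | hr | hr
        · refine Or.inr (Subtype.ext ?_)
          rw [hφ, hφ, show r • u = (-r) • (-u) by simp, bgp_shift hw (neg_pos.2 hr)]
        · subst hr
          exact absurd (by simpa using hw) hy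
        · refine Or.inl (Subtype.ext ?_)
          rw [hφ, hφ, bgp_shift hw hr]
      · rintro (rfl | rfl)
        · exact ⟨u, hu, rfl⟩
        · exact ⟨-u, fun c => hu (by simpa using (spn A a.1).neg_mem c), rfl⟩
    rw [himg]
    refine Set.ncard_pair fun e => ?_
    obtain ⟨l, hl, h0, h1⟩ := bgp_out hu
    have := congrFun (congrArg Subtype.val e) l
    rw [hφ, hφ, cmp, cmp, if_pos h0, if_pos h0, sv, sv, if_pos hl, if_pos hl, map_neg,
      Left.sign_neg] at this
    rcases lt_or_gt_of_ne h1 with c | c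
    · rw [sign_neg c] at this
      exact absurd this (by decide)
    · rw [sign_pos c] at this
      exact absurd this (by decide)
  · intro h
    obtain ⟨u, hu⟩ := hex (by omega)
    refine ⟨⟨φ u, u, hu, rfl⟩, conn_usc (isConnected_compl_of_one_lt_codim ?_).isPreconnected φ ?_⟩
    · rw [← Module.finrank_eq_rank]
      unfold dm at h
      exact_mod_cast (by omega : 1 < Module.finrank ℝ (E4 ⧸ spn A a.1))
    · intro x _
      refine ((sv_near A x).filter_mono nhdsWithin_le_nhds).mono fun y hy => ?_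
      change sle (φ x).1 (φ y).1
      rw [hφ, hφ]
      exact cmp_mono _ hy

theorem bgp_zero (s : Fn → SignType) : sle (sv A 0) s := fun l => Or.inl (by
  rw [sv]
  split_ifs
  · rw [map_zero, sign_zero]
  · rfl)

theorem bgp_ne (hA : Ess A) (z : Cell A) : sv A 0 ≠ z.1 := by
  obtain ⟨x, hx, e⟩ := z.2
  rw [← e]
  exact (hA.sv_ne hx).symm

theorem gp_cell (hA : Ess A) : GP (crk A) Set.univ := by
  refine ⟨crk_mono, fun u _ => ?_, fun _ _ _ _ => trivial, fun _ _ b _ => ?_,
    fun _ _ b _ a hab => ?_, fun a _ => ?_⟩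
  · have := dm_le (A := A) u.1
    unfold crk
    omega
  · have h := itv_mid (A := A) (x := 0) (b := b) (bgp_zero _) (bgp_ne hA b)
    rw [dm_zero hA, Nat.sub_zero] at h
    have e : {z : Cell A | sle (sv A 0) z.1 ∧ sv A 0 ≠ z.1 ∧ z < b} = {z | z < b} := by
      ext z
      exact ⟨fun c => c.2.2, fun c => ⟨bgp_zero _, bgp_ne hA z, c⟩⟩
    rw [e] at h
    exact h
  · obtain ⟨x, hx, ex⟩ := a.2
    have h := itv_mid (A := A) (x := x) (b := b) (ex ▸ hab.le)
      (fun c => hab.ne (Subtype.ext (ex ▸ c)))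
    have e : {z : Cell A | sle (sv A x) z.1 ∧ sv A x ≠ z.1 ∧ z < b} = {z | a < z ∧ z < b} := by
      ext z
      rw [ex]
      exact ⟨fun c => ⟨lt_of_le_of_ne c.1 fun q => c.2.1 (congrArg Subtype.val q), c.2.2⟩,
        fun c => ⟨c.1.le, fun q => c.1.ne (Subtype.ext q), c.2⟩⟩
    rw [e, ex] at h
    have h1 := dm_pos a
    have h2 := dm_pos b
    have e2 : crk A b - crk A a - 1 = dm A b.1 - dm A a.1 - 1 := by
      unfold crk
      omega
    rw [e2]
    exact h
  · have h1 := dm_pos a
    have e2 : 3 - crk A a = 4 - dm A a.1 := by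
      unfold crk
      omega
    rw [e2]
    exact itv_top hA a

theorem pman_cell (hA : Ess A) : PMan (ord (Cell A)) Set.univ := (gp_cell hA).pman

end KG
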