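import Pool.Agent.Work.MP_c146e2_gt.KG.BArr

set_option autoImplicit false

noncomputable section

open scoped Classical

namespace KG

variable {n : ℕ × ℕ × ℕ}

theorem bgra_lt {m : ℕ} (x : ℝ) {j : ℕ} (hj : j ≤ m) :
    (x < j ↔ (zc1 m x).1 < 2 * j) ∧ ((j : ℝ) < x ↔ 2 * j < (zc1 m x).1) := by
  have e : (zc1 m x).1 = max (-1 : ℤ) (min (2 * (m : ℤ) + 1) (⌊x⌋ + ⌈x⌉)) := rfl
  have a1 : x < j ↔ ⌊x⌋ < j := by rw [Int.floor_lt]; rfl
  have a2 : (j : ℝ) < x ↔ (j : ℤ) < ⌈x⌉ := by rw [Int.lt_ceil]; rfl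
  have a3 : x < j → ¬ (j : ℝ) < x := lt_asymm
  have a4 := Int.floor_le_ceil x
  rw [a1, a2] at a3
  rw [e, a1, a2]
  constructor <;> constructor <;> intro h <;> omega

theorem bgra_half {m : ℕ} (i : ZI m) : zc1 m ((i.1 : ℝ) / 2) = i := by
  refine Subtype.ext ?_
  have e : (zc1 m ((i.1 : ℝ) / 2)).1 =
    max (-1 : ℤ) (min (2 * (m : ℤ) + 1) (⌊(i.1 : ℝ) / 2⌋ + ⌈(i.1 : ℝ) / 2⌉)) := rfl
  have h : ⌊(i.1 : ℝ) / 2⌋ + ⌈(i.1 : ℝ) / 2⌉ = i.1 := by
    obtain ⟨k, hk | hk⟩ := Int.even_or_odd' i.1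
    · have : (i.1 : ℝ) / 2 = k := by rw [hk]; push_cast; ring
      rw [this, Int.floor_intCast, Int.ceil_intCast]
      omega
    · have : (i.1 : ℝ) / 2 = k + 1 / 2 := by rw [hk]; push_cast; ring
      have a1 : ⌊(i.1 : ℝ) / 2⌋ = k := Int.floor_eq_iff.2 ⟨by linarith, by linarith⟩
      have a2 : ⌈(i.1 : ℝ) / 2⌉ = k + 1 :=
        Int.ceil_eq_iff.2 ⟨by push_cast; linarith, by push_cast; linarith⟩
      omega
  have := i.2
  rw [e, h]
  omega

theorem bgra_zle {m : ℕ} (i i' : ZI m) :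
    (∀ j : ℕ, j ≤ m → (i.1 < 2 * j → i'.1 < 2 * j) ∧ (2 * j < i.1 → 2 * j < i'.1)) ↔ i ≤ i' := by
  have h1 := i.2
  have h2 := i'.2
  rw [ZI.le_iff, zle, Int.even_iff]
  constructor
  · intro h
    by_contra hc
    rcases lt_trichotomy i.1 i'.1 with e | e | e
    · have := h ((i.1 + 2) / 2).toNat (by omega)
      omega
    · omega
    · have := h ((i.1 - 1) / 2).toNat (by omega)
      omega
  · intro h j _
    omega

theorem bgra_one {m : ℕ} (x y : ℝ) :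
    (∀ j : ℕ, j ≤ m → (x - j < 0 → y - j < 0) ∧ (0 < x - j → 0 < y - j)) ↔ zc1 m x ≤ zc1 m y := by
  rw [← bgra_zle]
  refine forall_congr' fun j => forall_congr' fun hj => ?_
  rw [sub_neg, sub_neg, sub_pos, sub_pos, (bgra_lt x hj).1, (bgra_lt x hj).2, (bgra_lt y hj).1,
    (bgra_lt y hj).2]

theorem bgra_sle {A : Finset Fn} {u v : E4} : sle (sv A u) (sv A v) ↔
    ∀ l ∈ A, (l u < 0 → l v < 0) ∧ (0 < l u → 0 < l v) := by
  refine forall_congr' fun l => ?_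
  unfold sv
  by_cases hl : l ∈ A
  · simp only [hl, if_true, forall_true_left]
    rcases lt_trichotomy (l u) 0 with h | h | h
    · simp [h, sign_neg h, h.not_gt, eq_comm (b := SignType.sign (l v)), sign_eq_neg_one_iff]
    · simp [h]
    · simp [h, sign_pos h, h.not_gt, eq_comm (b := SignType.sign (l v)), sign_eq_one_iff]
  · simp [hl]

theorem bgra_all (n : ℕ × ℕ × ℕ) (P : Fn → Prop) : (∀ l ∈ grA n, P l) ↔ P fw ∧
    (∀ j : ℕ, j ≤ n.1 → P (af lx j)) ∧ (∀ j : ℕ, j ≤ n.2.1 → P (af ly j)) ∧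
    ∀ j : ℕ, j ≤ n.2.2 → P (af lz j) := by
  simp only [grA, Finset.forall_mem_insert, Finset.forall_mem_union, Finset.forall_mem_image,
    Finset.mem_range, Nat.lt_succ_iff, and_assoc]

theorem bgra_fw (w : ℝ) (p : E3) : fw (w, p) = w := rfl

theorem bgra_x (c w : ℝ) (p : E3) : af lx c (w, p) = p.1 - c * w := rfl

theorem bgra_y (c w : ℝ) (p : E3) : af ly c (w, p) = p.2.1 - c * w := rfl

theorem bgra_z (c w : ℝ) (p : E3) : af lz c (w, p) = p.2.2 - c * w := rfl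

theorem bgra_fc {p q : E3} : fc (grA n) p ≤ fc (grA n) q ↔ zc n p ≤ zc n q := by
  refine bgra_sle.trans ((bgra_all n _).trans ?_)
  simp only [bgra_fw, bgra_x, bgra_y, bgra_z, mul_one, bgra_one]
  exact ⟨fun h => h.2, fun h => ⟨⟨id, id⟩, h⟩⟩

theorem bgra_open (A : Finset Fn) (p : E3) : IsOpen {x | fc A p ≤ fc A x} := by
  refine isOpen_iff_mem_nhds.2 fun x hx => ?_
  have hc : Continuous fun y : E3 => ((1, y) : E4) := continuous_const.prodMk continuous_id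
  filter_upwards [hc.continuousAt.eventually (sv_near A (1, x))] with y hy
  exact le_trans hx (show fc A x ≤ fc A y from hy)

theorem bgra_cvx (A : Finset Fn) (p : E3) : Convex ℝ {x | fc A p ≤ fc A x} := by
  intro x hx y hy a b ha hb hab
  refine bgra_sle.2 fun l hl => ?_
  have h1 := bgra_sle.1 hx l hl
  have h2 := bgra_sle.1 hy l hl
  have e : l (1, a • x + b • y) = a * l (1, x) + b * l (1, y) := by
    rw [← smul_eq_mul, ← smul_eq_mul, ← map_smul, ← map_smul, ← map_add]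
    congr 1
    refine Prod.ext ?_ rfl
    simp [hab]
  rw [e]
  exact ⟨fun h => convex_Iio (𝕜 := ℝ) (0 : ℝ) (h1.1 h) (h2.1 h) ha hb hab,
    fun h => convex_Ioi (𝕜 := ℝ) (0 : ℝ) (h1.2 h) (h2.2 h) ha hb hab⟩

/-- The direction to infinity. -/
def bgraD {m : ℕ} (i : ZI m) : ℝ := if i.1 = -1 then -1 else if i.1 = 2 * m + 1 then 1 else 0

theorem bgra_D0 {m : ℕ} {i : ZI m} (h : i.out) : bgraD i ≠ 0 := by
  unfold bgraD
  split_ifs with h1 h2
  · norm_num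
  · norm_num
  · exact (h.elim h1 h2).elim

theorem bgra_D1 {m : ℕ} (i : ZI m) {j : ℕ} (hj : j ≤ m) :
    (bgraD i < 0 → (i.1 : ℝ) / 2 - j < 0) ∧ (0 < bgraD i → 0 < (i.1 : ℝ) / 2 - j) := by
  have a1 : (0 : ℝ) ≤ j := Nat.cast_nonneg j
  have a2 : (j : ℝ) ≤ m := by exact_mod_cast hj
  unfold bgraD
  split_ifs with h1 h2
  · rw [h1]
    push_cast
    exact ⟨fun _ => by linarith, fun _ => by linarith⟩
  · rw [h2]
    push_cast
    exact ⟨fun _ => by linarith, fun _ => by linarith⟩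
  · exact ⟨fun h => absurd h (lt_irrefl _), fun h => absurd h (lt_irrefl _)⟩

theorem bgra_D2 {m : ℕ} {i : ZI m} {t : ℝ} (h : (t < 0 → i.1 = -1) ∧ (0 < t → i.1 = 2 * m + 1)) :
    (t < 0 → bgraD i < 0) ∧ (0 < t → 0 < bgraD i) := by
  unfold bgraD
  refine ⟨fun e => ?_, fun e => ?_⟩
  · rw [if_pos (h.1 e)]; norm_num
  · have := h.2 e
    rw [if_neg (by omega), if_pos this]; norm_num

theorem bgra_end {m : ℕ} (i : ZI m) {t : ℝ}
    (h : ∀ j : ℕ, j ≤ m → (t < 0 → (i.1 : ℝ) / 2 - j < 0) ∧ (0 < t → 0 < (i.1 : ℝ) / 2 - j)) :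
    (t < 0 → i.1 = -1) ∧ (0 < t → i.1 = 2 * m + 1) := by
  have a := i.2
  refine ⟨fun e => ?_, fun e => ?_⟩
  · have h1 := (h 0 (Nat.zero_le _)).1 e
    have h2 : (i.1 : ℝ) < 0 := by push_cast at h1; linarith
    have h3 : i.1 < 0 := by exact_mod_cast h2
    omega
  · have h1 := (h m le_rfl).2 e
    have h2 : 2 * (m : ℝ) < i.1 := by linarith
    have h3 : 2 * (m : ℤ) < i.1 := by exact_mod_cast h2
    omega

def gphi (n : ℕ × ℕ × ℕ) (c : Box n) : Cell (grA n) := fc (grA n) (bpt c)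

theorem ess_grA (n : ℕ × ℕ × ℕ) : Ess (grA n) := by
  constructor
  · intro l hl
    simp only [A0, Finset.mem_insert, Finset.mem_singleton] at hl
    obtain ⟨a0, a1, a2, a3⟩ := (bgra_all n (· ∈ grA n)).1 fun _ h => h
    rcases hl with rfl | rfl | rfl | rfl
    · exact a0
    · simpa using a1 0 (Nat.zero_le _)
    · simpa using a2 0 (Nat.zero_le _)
    · simpa using a3 0 (Nat.zero_le _)
  · intro h
    refine (bgra_all n (· ≠ 0)).2 ⟨fun e => ?_, fun j _ e => ?_, fun j _ e => ?_, fun j _ e => ?_⟩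
      0 h rfl
    · simpa [bgra_fw] using LinearMap.congr_fun e (1, 0)
    · simpa [bgra_x] using LinearMap.congr_fun e (0, 1, 0, 0)
    · simpa [bgra_y] using LinearMap.congr_fun e (0, 0, 1, 0)
    · simpa [bgra_z] using LinearMap.congr_fun e (0, 0, 0, 1)

theorem zc_bpt (c : Box n) : zc n (bpt c) = c := by
  exact Prod.ext (bgra_half c.1) (Prod.ext (bgra_half c.2.1) (bgra_half c.2.2))

theorem gphi_zc (p : E3) : gphi n (zc n p) = fc (grA n) p := by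
  refine le_antisymm (bgra_fc.2 ?_) (bgra_fc.2 ?_) <;> rw [zc_bpt]

theorem gphi_le {c c' : Box n} : gphi n c ≤ gphi n c' ↔ c ≤ c' := by
  rw [gphi, gphi, bgra_fc, zc_bpt, zc_bpt]

theorem gphi_range : Set.range (gphi n) = Aff (grA n) := by
  ext s
  rw [aff_iff (ess_grA n)]
  exact ⟨fun ⟨c, hc⟩ => ⟨bpt c, hc⟩, fun ⟨p, hp⟩ => ⟨zc n p, (gphi_zc p).trans hp⟩⟩

theorem bgra_inf {c : Box n} {z : Cell (grA n)} (hz : z ≤ gphi n c) (h : z ∉ Aff (grA n)) :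
    ∃ y : E3, y ≠ 0 ∧ z.1 = sv (grA n) (0, y) ∧
      ((y.1 < 0 → c.1.1 = -1) ∧ (0 < y.1 → c.1.1 = 2 * n.1 + 1)) ∧
      ((y.2.1 < 0 → c.2.1.1 = -1) ∧ (0 < y.2.1 → c.2.1.1 = 2 * n.2.1 + 1)) ∧
      ((y.2.2 < 0 → c.2.2.1 = -1) ∧ (0 < y.2.2 → c.2.2.1 = 2 * n.2.2 + 1)) := by
  obtain ⟨⟨w, y⟩, hx, e⟩ := z.2
  rw [Cell.le_iff, ← e] at hz
  obtain ⟨a0, a1, a2, a3⟩ := (bgra_all n _).1 (bgra_sle.1 hz)
  obtain rfl : w = 0 := by
    refine le_antisymm (not_lt.1 fun hw => h ?_) (not_lt.1 fun hw => ?_)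
    · show z.1 fw = 1
      rw [← e, sv, if_pos (ess_grA n).fw_mem, bgra_fw, sign_pos hw]
    · exact absurd (a0.1 hw) (by rw [bgra_fw]; norm_num)
  refine ⟨y, fun hy => hx (by rw [hy]; rfl), e.symm, bgra_end c.1 fun j hj => ?_,
    bgra_end c.2.1 fun j hj => ?_, bgra_end c.2.2 fun j hj => ?_⟩
  · simpa only [bgra_x, mul_zero, sub_zero, mul_one, bpt] using a1 j hj
  · simpa only [bgra_y, mul_zero, sub_zero, mul_one, bpt] using a2 j hj
  · simpa only [bgra_z, mul_zero, sub_zero, mul_one, bpt] using a3 j hj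

theorem gphi_low {c : Box n} (hc : c ∉ Outr n) {z : Cell (grA n)}
    (hz : z ≤ gphi n c) : z ∈ Aff (grA n) := by
  by_contra h
  obtain ⟨y, hy, -, h1, h2, h3⟩ := bgra_inf hz h
  have key : ∀ {m : ℕ} {i : ZI m} {t : ℝ}, ¬ i.out →
      (t < 0 → i.1 = -1) ∧ (0 < t → i.1 = 2 * m + 1) → t = 0 := fun hi ht =>
    le_antisymm (not_lt.1 fun e => hi (Or.inr (ht.2 e))) (not_lt.1 fun e => hi (Or.inl (ht.1 e)))
  exact hy (Prod.ext (key (fun e => hc (Or.inl e)) h1) (Prod.ext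
    (key (fun e => hc (Or.inr (Or.inl e))) h2) (key (fun e => hc (Or.inr (Or.inr e))) h3)))

/-- The largest face at infinity of an outer cell. -/
theorem gphi_out : ∃ ρ : Box n → Cell (grA n), ∀ c ∈ Outr n,
    ρ c ∉ Aff (grA n) ∧ ρ c ≤ gphi n c ∧ ∀ z ≤ gphi n c, z ∉ Aff (grA n) → z ≤ ρ c := by
  have hne : ∀ c ∈ Outr n, ((0, bgraD c.1, bgraD c.2.1, bgraD c.2.2) : E4) ≠ 0 := by
    intro c hc e
    simp only [Prod.mk_eq_zero] at e
    rcases hc with hc | hc | hc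
    · exact bgra_D0 hc e.2.1
    · exact bgra_D0 hc e.2.2.1
    · exact bgra_D0 hc e.2.2.2
  obtain ⟨ρ, hρ⟩ : ∃ ρ : Box n → Cell (grA n), ∀ c ∈ Outr n,
      (ρ c).1 = sv (grA n) (0, bgraD c.1, bgraD c.2.1, bgraD c.2.2) :=
    ⟨fun c => if h : c ∈ Outr n then ⟨_, _, hne c h, rfl⟩ else gphi n c, fun c hc => by
      simp only [dif_pos hc]⟩
  refine ⟨ρ, fun c hc => ⟨fun h => ?_, ?_, fun z hz h => ?_⟩⟩
  · have h1 : (ρ c).1 fw = 1 := h
    rw [hρ c hc, sv, if_pos (ess_grA n).fw_mem, bgra_fw, sign_zero] at h1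
    exact absurd h1 (by decide)
  · rw [Cell.le_iff, hρ c hc]
    refine bgra_sle.2 ((bgra_all n _).2 ⟨?_, fun j hj => ?_, fun j hj => ?_, fun j hj => ?_⟩)
    · simp [bgra_fw]
    · simpa only [bgra_x, mul_zero, sub_zero, mul_one, bpt] using bgra_D1 c.1 hj
    · simpa only [bgra_y, mul_zero, sub_zero, mul_one, bpt] using bgra_D1 c.2.1 hj
    · simpa only [bgra_z, mul_zero, sub_zero, mul_one, bpt] using bgra_D1 c.2.2 hj
  · obtain ⟨y, -, hy, h1, h2, h3⟩ := bgra_inf hz h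
    rw [Cell.le_iff, hρ c hc, hy]
    refine bgra_sle.2 ((bgra_all n _).2 ⟨?_, fun j _ => ?_, fun j _ => ?_, fun j _ => ?_⟩)
    · simp [bgra_fw]
    · simpa only [bgra_x, mul_zero, sub_zero] using bgra_D2 h1
    · simpa only [bgra_y, mul_zero, sub_zero] using bgra_D2 h2
    · simpa only [bgra_z, mul_zero, sub_zero] using bgra_D2 h3

theorem cells_box {K : Set (Box n)} (hK : IsLowerSet K) :
    Cells (geo K)ᶜ Kᶜ (zc n) := by
  have e : ∀ a : Box n, {x | a ≤ zc n x} = {x | fc (grA n) (bpt a) ≤ fc (grA n) x} := fun a => by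
    ext x
    rw [Set.mem_ofPred_eq, Set.mem_ofPred_eq, bgra_fc, zc_bpt]
  refine ⟨fun _ => Iff.rfl, fun a _ => ⟨bpt a, zc_bpt a⟩, fun a ha b hab hb => ha (hK hab hb),
    fun a _ => ?_, fun a _ => ?_⟩
  · rw [e]; exact bgra_open _ _
  · rw [e]; exact bgra_cvx _ _

theorem on_geo {A : Finset Fn} (h : grA n ⊆ A) (hA : Ess A) (K : Set (Box n)) :
    On A (geo K) = res h ⁻¹' (gphi n '' K) := by
  ext s
  constructor
  · rintro ⟨p, hp, rfl⟩
    exact ⟨zc n p, hp, by rw [gphi_zc, res_fc]⟩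
  · rintro ⟨c, hc, e⟩
    have h1 : s ∈ Aff A := by
      rw [← aff_res (ess_grA n) h, Set.mem_preimage, ← e, ← gphi_range]
      exact ⟨c, rfl⟩
    obtain ⟨p, rfl⟩ := (aff_iff hA s).1 h1
    rw [res_fc, ← gphi_zc] at e
    have h2 : zc n p = c := le_antisymm (gphi_le.1 e.ge) (gphi_le.1 e.le)
    exact ⟨p, show zc n p ∈ K from h2 ▸ hc, rfl⟩

end KG
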