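import Pool.Agent.Work.MP_c146e2_gt.KG.Bas

set_option autoImplicit false

noncomputable section

open scoped Classical

namespace KG

variable {V V' : Type}

theorem chi_split [Fintype V] (v : V) (f : Finset V → ℤ) :
    ∑ s, f s = ∑ s ∈ (Finset.univ.erase v).powerset, (f s + f (insert v s)) := by
  rw [Finset.sum_add_distrib, ← Finset.sum_powerset_insert (Finset.notMem_erase v _),
    Finset.insert_erase (Finset.mem_univ v), Finset.powerset_univ]

/-- The reduced characteristic with a sign. -/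
def chiR [Fintype V] (G : Cx V) (S : Set V) : ℤ :=
  ∑ s : Finset V, if (∀ a ∈ s, ∀ b ∈ s, G.r a b) ∧ Ins s S then (-1) ^ s.card else 0

theorem chi_R [Fintype V] (G : Cx V) (S : Set V) : chi G S = 1 - chiR G S := by
  have h1 : (1 : ℤ) = ∑ s : Finset V, if s = ∅ then 1 else 0 := by simp
  rw [chi, chiR, h1, ← Finset.sum_sub_distrib]
  refine Finset.sum_congr rfl fun s _ => ?_
  by_cases hs : s = ∅
  · subst hs
    simp [Clq, Ins]
  · have := Finset.nonempty_iff_ne_empty.2 hs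
    simp only [Clq, this, true_and, if_neg hs, pow_succ]
    split_ifs <;> simp

theorem chi_ins_iff {G : Cx V} {s : Finset V} {v : V} :
    (∀ a ∈ insert v s, ∀ b ∈ insert v s, G.r a b) ↔
      (∀ a ∈ s, ∀ b ∈ s, G.r a b) ∧ ∀ a ∈ s, G.r a v := by
  simp only [Finset.mem_insert, forall_eq_or_imp]
  exact ⟨fun h => ⟨fun a ha => (h.2 a ha).2, fun a ha => (h.2 a ha).1⟩,
    fun h => ⟨⟨G.refl v, fun a ha => G.symm _ _ (h.2 a ha)⟩, fun a ha => ⟨h.2 a ha, h.1 a ha⟩⟩⟩

theorem chi_empty [Fintype V] (G : Cx V) : chi G ∅ = 0 := by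
  refine Finset.sum_eq_zero fun s _ => if_neg fun h => ?_
  obtain ⟨a, ha⟩ := h.1.1
  exact h.2 a ha

theorem chi_insert [Fintype V] (G : Cx V) {S : Set V} {v : V} (hv : v ∉ S) :
    chi G (insert v S) = chi G S + 1 - chi G (lk G {v} ∩ S) := by
  have key : chiR G (insert v S) = chiR G S - chiR G (lk G {v} ∩ S) := by
    unfold chiR
    rw [chi_split v, chi_split v, chi_split v, ← Finset.sum_sub_distrib]
    refine Finset.sum_congr rfl fun s hs => ?_
    have h1 : v ∉ s := fun h => Finset.notMem_erase v _ (Finset.mem_powerset.1 hs h)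
    have h2 : ¬ Ins (insert v s) S := fun h => hv (h v (Finset.mem_insert_self _ _))
    have h3 : ¬ Ins (insert v s) (lk G {v} ∩ S) := fun h => hv (h v (Finset.mem_insert_self _ _)).2
    have h4 : Ins s (insert v S) ↔ Ins s S :=
      ⟨fun h a ha => (h a ha).resolve_left fun e => h1 (e ▸ ha), fun h a ha => Or.inr (h a ha)⟩
    have h5 : Ins (insert v s) (insert v S) ↔ Ins s S := by
      rw [← h4]
      simp [Ins]
    have h6 : Ins s (lk G {v} ∩ S) ↔ (∀ a ∈ s, G.r a v) ∧ Ins s S :=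
      ⟨fun h => ⟨fun a ha => (h a ha).1.2 v (Finset.mem_singleton_self v), fun a ha => (h a ha).2⟩,
        fun h a ha => ⟨⟨fun e => h1 (Finset.mem_singleton.1 e ▸ ha), fun b hb =>
          Finset.mem_singleton.1 hb ▸ h.1 a ha⟩, h.2 a ha⟩⟩
    simp only [h2, h3, h4, h5, h6, chi_ins_iff, and_false, if_false, add_zero, and_assoc,
      Finset.card_insert_of_notMem h1, pow_succ]
    split_ifs <;> ring
  rw [chi_R, chi_R, chi_R, key]
  ring

theorem chi_cone [Fintype V] {G : Cx V} {S : Set V} {c : V} (hc : c ∈ S) (h : ∀ a ∈ S, G.r a c) :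
    chi G S = 1 := by
  have h1 : S = insert c (S \ {c}) := by
    rw [Set.insert_sdiff_singleton, Set.insert_eq_of_mem hc]
  have h2 : lk G {c} ∩ (S \ {c}) = S \ {c} := Set.inter_eq_right.2 fun a ha =>
    ⟨fun e => ha.2 (Finset.mem_singleton.1 e), fun b hb => Finset.mem_singleton.1 hb ▸ h a ha.1⟩
  rw [h1, chi_insert G fun e => e.2 rfl, h2]
  ring

theorem chi_union [Fintype V] {G : Cx V} {A B : Set V}
    (h : ∀ s, Clq G s → Ins s (A ∪ B) → Ins s A ∨ Ins s B) :
    chi G (A ∪ B) + chi G (A ∩ B) = chi G A + chi G B := by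
  unfold chi
  rw [← Finset.sum_add_distrib, ← Finset.sum_add_distrib]
  refine Finset.sum_congr rfl fun s _ => ?_
  by_cases hs : Clq G s
  · have h1 : Ins s (A ∪ B) ↔ Ins s A ∨ Ins s B := ⟨h s hs, fun h => h.elim
      (fun h a ha => Or.inl (h a ha)) fun h a ha => Or.inr (h a ha)⟩
    have h2 : Ins s (A ∩ B) ↔ Ins s A ∧ Ins s B :=
      ⟨fun h => ⟨fun a ha => (h a ha).1, fun a ha => (h a ha).2⟩, fun h a ha => ⟨h.1 a ha, h.2 a ha⟩⟩
    by_cases e1 : Ins s A <;> by_cases e2 : Ins s B <;> simp [hs, h1, h2, e1, e2]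
  · simp [hs]

theorem chi_sep [Fintype V] {G : Cx V} {A B : Set V} (h : Sep G A B) :
    chi G (A ∪ B) = chi G A + chi G B := by
  have h1 : A ∩ B = ∅ := Set.eq_empty_of_forall_notMem fun a ha => h a ha.1 a ha.2 (G.refl a)
  rw [← chi_union, h1, chi_empty, add_zero]
  intro s hs hi
  by_cases e : Ins s A
  · exact Or.inl e
  · simp only [Ins, not_forall] at e
    obtain ⟨b, hb, hbA⟩ := e
    exact Or.inr fun a ha => (hi a ha).resolve_left fun haA =>
      h a haA b ((hi b hb).resolve_left hbA) (hs.2 a ha b hb)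

theorem chi_iso [Fintype V] [Fintype V'] {G' : Cx V'} {G : Cx V} {S' : Set V'} {S : Set V}
    {f : V' → V} (hb : Set.BijOn f S' S)
    (hr : ∀ a ∈ S', ∀ b ∈ S', G'.r a b ↔ G.r (f a) (f b)) : chi G' S' = chi G S := by
  unfold chi
  rw [← Finset.sum_filter, ← Finset.sum_filter]
  refine Finset.sum_bij (fun s _ => s.image f) (fun s hs => ?_) (fun s hs t ht e => ?_)
    (fun t ht => ?_) fun s hs => ?_
  · simp only [Finset.mem_filter, Finset.mem_univ, true_and] at hs ⊢
    refine ⟨⟨hs.1.1.image f, fun a ha b hb' => ?_⟩, fun a ha => ?_⟩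
    · obtain ⟨a', ha', rfl⟩ := Finset.mem_image.1 ha
      obtain ⟨b', hb'', rfl⟩ := Finset.mem_image.1 hb'
      exact (hr _ (hs.2 _ ha') _ (hs.2 _ hb'')).1 (hs.1.2 _ ha' _ hb'')
    · obtain ⟨a', ha', rfl⟩ := Finset.mem_image.1 ha
      exact hb.mapsTo (hs.2 _ ha')
  · simp only [Finset.mem_filter, Finset.mem_univ, true_and] at hs ht
    have key : ∀ s t : Finset V', Ins s S' → Ins t S' → s.image f = t.image f → s ⊆ t := by
      intro s t hs ht e a ha
      obtain ⟨b, hb', e'⟩ := Finset.mem_image.1 (e ▸ Finset.mem_image_of_mem f ha)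
      exact hb.injOn (ht b hb') (hs a ha) e' ▸ hb'
    exact (key s t hs.2 ht.2 e).antisymm (key t s ht.2 hs.2 e.symm)
  · simp only [Finset.mem_filter, Finset.mem_univ, true_and] at ht ⊢
    refine ⟨Finset.univ.filter fun a => a ∈ S' ∧ f a ∈ t, ⟨⟨?_, fun a ha b hb' => ?_⟩,
      fun a ha => (Finset.mem_filter.1 ha).2.1⟩, ?_⟩
    · obtain ⟨b, hb'⟩ := ht.1.1
      obtain ⟨a, ha, rfl⟩ := hb.surjOn (ht.2 b hb')
      exact ⟨a, Finset.mem_filter.2 ⟨Finset.mem_univ _, ha, hb'⟩⟩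
    · have h1 := (Finset.mem_filter.1 ha).2
      have h2 := (Finset.mem_filter.1 hb').2
      exact (hr a h1.1 b h2.1).2 (ht.1.2 _ h1.2 _ h2.2)
    · ext b
      simp only [Finset.mem_image, Finset.mem_filter, Finset.mem_univ, true_and]
      refine ⟨fun ⟨a, ha, e⟩ => e ▸ ha.2, fun hb' => ?_⟩
      obtain ⟨a, ha, rfl⟩ := hb.surjOn (ht.2 b hb')
      exact ⟨a, ⟨ha, hb'⟩, rfl⟩
  · simp only [Finset.mem_filter, Finset.mem_univ, true_and] at hs
    rw [Finset.card_image_of_injOn (hb.injOn.mono fun a ha => hs.2 a ha)]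

theorem chi_lk {G : Cx V} {v w : V} : w ∈ lk G {v} ↔ w ≠ v ∧ G.r w v := by
  simp [lk]

/-- The join of two full subcomplexes. -/
theorem chi_join [Fintype V] {G : Cx V} {A B : Set V} (hd : Disjoint A B)
    (h : ∀ a ∈ A, ∀ b ∈ B, G.r a b) :
    1 - chi G (A ∪ B) = (1 - chi G A) * (1 - chi G B) := by
  induction B using WellFoundedLT.induction with
  | _ B ih =>
    rcases B.eq_empty_or_nonempty with rfl | ⟨v, hv⟩
    · rw [Set.union_empty, chi_empty]
      ring
    have hvA : v ∉ A := fun e => Set.disjoint_left.1 hd e hv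
    have h1 : B = insert v (B \ {v}) := by
      rw [Set.insert_sdiff_singleton, Set.insert_eq_of_mem hv]
    have h2 : lk G {v} ∩ (A ∪ B \ {v}) = A ∪ lk G {v} ∩ (B \ {v}) := by
      have h5 : A ⊆ lk G {v} := fun a ha => chi_lk.2 ⟨fun e => hvA (e ▸ ha), h a ha v hv⟩
      rw [Set.inter_union_distrib_left, Set.inter_eq_right.2 h5]
    have key : ∀ C ⊆ B \ {v}, 1 - chi G (A ∪ C) = (1 - chi G A) * (1 - chi G C) := fun C hC =>
      ih C (lt_of_le_of_lt hC (Set.sdiff_singleton_ssubset.2 hv))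
        (hd.mono_right fun x hx => (hC hx).1) fun a ha b hb => h a ha b (hC hb).1
    have h3 := key _ subset_rfl
    have h4 := key (lk G {v} ∩ (B \ {v})) Set.inter_subset_right
    rw [h1, Set.union_insert, chi_insert G (S := A ∪ B \ {v}) fun e => e.elim hvA fun e => e.2 rfl,
      chi_insert G (S := B \ {v}) fun e => e.2 rfl, h2]
    linear_combination h3 - h4

theorem chi_top {P : Type} [Fintype P] [PartialOrder P] (S : Set P) :
    chi (ord P) S = ∑ x : P, if x ∈ S then 1 - chi (ord P) {y | y ∈ S ∧ y < x} else 0 := by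
  induction S using WellFoundedLT.induction with
  | _ S ih =>
    rcases S.eq_empty_or_nonempty with rfl | hne
    · simp [chi_empty]
    obtain ⟨v, hv, hmax⟩ := (wellFounded_gt (α := P)).has_min S hne
    have h1 : S = insert v (S \ {v}) := by
      rw [Set.insert_sdiff_singleton, Set.insert_eq_of_mem hv]
    have h2 : lk (ord P) {v} ∩ (S \ {v}) = {y | y ∈ S ∧ y < v} := by
      ext y
      refine ⟨fun h => ⟨h.2.1, lt_of_le_of_ne ?_ h.2.2⟩, fun h =>
        ⟨chi_lk.2 ⟨h.2.ne, Or.inl h.2.le⟩, h.1, h.2.ne⟩⟩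
      exact (chi_lk.1 h.1).2.resolve_right fun e =>
        hmax y h.2.1 (lt_of_le_of_ne e (Ne.symm h.2.2))
    have h3 : chi (ord P) S = chi (ord P) (S \ {v}) + 1 - chi (ord P) {y | y ∈ S ∧ y < v} := by
      rw [← h2, ← chi_insert _ fun e => e.2 rfl, ← h1]
    rw [h3, ih _ (Set.sdiff_singleton_ssubset.2 hv), ← Finset.add_sum_erase _ _ (Finset.mem_univ v),
      ← Finset.add_sum_erase _ _ (Finset.mem_univ v), if_pos hv, if_neg fun e => e.2 rfl,
      zero_add, add_sub_assoc, add_comm]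
    congr 1
    refine Finset.sum_congr rfl fun x hx => ?_
    by_cases e : x ∈ S
    · rw [if_pos e, if_pos ⟨e, (Finset.mem_erase.1 hx).1⟩]
      congr 2
      ext y
      exact ⟨fun h => ⟨h.1.1, h.2⟩, fun h => ⟨⟨h.1, fun e' => hmax x e (e' ▸ h.2)⟩, h.2⟩⟩
    · rw [if_neg e, if_neg fun h => e h.1]

theorem chi_below {P : Type} [Fintype P] [PartialOrder P] (S : Set P) {Q : P → Prop}
    (hQ : ∀ x y, y < x → Q x → Q y) : chi (ord P) {y | y ∈ S ∧ Q y} =
      ∑ x : P, if x ∈ S ∧ Q x then 1 - chi (ord P) {y | y ∈ S ∧ y < x} else 0 := by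
  rw [chi_top]
  refine Finset.sum_congr rfl fun x _ => ?_
  by_cases e : x ∈ S ∧ Q x
  · rw [if_pos e, if_pos (show x ∈ {y | y ∈ S ∧ Q y} from e)]
    congr 2
    ext y
    exact ⟨fun h => ⟨h.1.1, h.2⟩, fun h => ⟨⟨h.1, hQ x y h.2 e.2⟩, h.2⟩⟩
  · rw [if_neg e, if_neg (show x ∉ {y | y ∈ S ∧ Q y} from e)]

theorem chi_mu {P : Type} [Fintype P] [PartialOrder P] {S : Set P} (μ : P → ℤ)
    (h : ∀ x ∈ S, (∑ y : P, if y ∈ S ∧ y ≤ x then μ y else 0) = 1) :
    chi (ord P) S = ∑ x : P, if x ∈ S then μ x else 0 := by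
  have key : ∀ x, x ∈ S → μ x = 1 - chi (ord P) {y | y ∈ S ∧ y < x} := by
    intro x
    induction x using WellFoundedLT.induction with
    | _ x ih =>
      intro hx
      have h1 := h x hx
      rw [← Finset.add_sum_erase _ _ (Finset.mem_univ x), if_pos ⟨hx, le_rfl⟩] at h1
      rw [chi_below S (Q := fun y => y < x) fun _ _ h h' => h.trans h',
        ← Finset.add_sum_erase _ _ (Finset.mem_univ x), if_neg fun e => lt_irrefl _ e.2, ← h1,
        zero_add, eq_sub_iff_add_eq]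
      congr 1
      refine Finset.sum_congr rfl fun y hy => ?_
      by_cases e : y ∈ S ∧ y < x
      · rw [if_pos e, if_pos ⟨e.1, e.2.le⟩, ih y e.2 e.1, h1]
      · rw [if_neg e, if_neg fun h => e ⟨h.1, lt_of_le_of_ne h.2 (Finset.mem_erase.1 hy).1⟩]
  rw [chi_top]
  refine Finset.sum_congr rfl fun x _ => ?_
  by_cases e : x ∈ S
  · rw [if_pos e, if_pos e, key x e]
  · rw [if_neg e, if_neg e]

theorem chi_defl {P : Type} [Fintype P] [PartialOrder P] {S T : Set P} (ρ : P → P) (hT : T ⊆ S)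
    (hm : ∀ x ∈ S, ρ x ∈ T) (hle : ∀ x ∈ S, ρ x ≤ x) (hid : ∀ x ∈ T, ρ x = x)
    (hmono : ∀ x ∈ S, ∀ y ∈ S, x ≤ y → ρ x ≤ ρ y) : chi (ord P) S = chi (ord P) T := by
  rw [chi_mu (S := S) (fun y => if y ∈ T then 1 - chi (ord P) {z | z ∈ T ∧ z < y} else 0),
    chi_top T]
  · refine Finset.sum_congr rfl fun x _ => ?_
    by_cases e : x ∈ T
    · rw [if_pos (hT e)]
    · simp [e]
  · intro x hx
    refine Eq.trans ?_ (chi_cone (G := ord P) (S := {y | y ∈ T ∧ y ≤ ρ x}) (c := ρ x)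
      ⟨hm x hx, le_rfl⟩ fun a ha => Or.inl ha.2)
    rw [chi_below T (Q := fun y => y ≤ ρ x) fun _ _ h h' => h.le.trans h']
    refine Finset.sum_congr rfl fun y _ => ?_
    by_cases e : y ∈ T
    · rw [if_pos e]
      exact if_congr ⟨fun h => ⟨e, hid y e ▸ hmono y h.1 x hx h.2⟩,
        fun h => ⟨hT e, h.2.trans (hle x hx)⟩⟩ rfl rfl
    · simp [e]

theorem chi_infl {P : Type} [Fintype P] [PartialOrder P] {S T : Set P} (ρ : P → P) (hT : T ⊆ S)
    (hm : ∀ x ∈ S, ρ x ∈ T) (hle : ∀ x ∈ S, x ≤ ρ x) (hid : ∀ x ∈ T, ρ x = x)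
    (hmono : ∀ x ∈ S, ∀ y ∈ S, x ≤ y → ρ x ≤ ρ y) : chi (ord P) S = chi (ord P) T := by
  have key : ∀ W : Set P, chi (ord Pᵒᵈ) W = chi (ord P) W := fun W =>
    chi_iso (V' := Pᵒᵈ) (f := id) (Set.bijOn_id W) fun _ _ _ _ => or_comm
  rw [← key, ← key]
  exact chi_defl (P := Pᵒᵈ) ρ hT hm hle hid fun x hx y hy h => hmono y hy x hx h

theorem chi_fc [Fintype V] (G : Cx V) (f : Finset V → ℤ) :
    ∑ s : Fc G, f s.1 = ∑ s : Finset V, if Clq G s then f s else 0 := by
  rw [← Finset.sum_filter]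
  exact (Finset.sum_subtype (p := Clq G) _ (by simp) f).symm

theorem chi_faces [Fintype V] (G : Cx V) (W : Finset V → Prop) [DecidablePred W]
    (μ : Finset V → ℤ)
    (h : ∀ x, Clq G x → W x → ∑ t ∈ x.powerset, (if t.Nonempty ∧ W t then μ t else 0) = 1) :
    chi (sd G) {s | W s.1} = ∑ s : Finset V, if Clq G s ∧ W s then μ s else 0 := by
  rw [sd, chi_mu (S := {s : Fc G | W s.1}) fun s => μ s.1]
  · refine Eq.trans (Finset.sum_congr rfl fun y _ => by congr 1)
      ((chi_fc G fun s => if W s then μ s else 0).trans ?_)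
    refine Finset.sum_congr rfl fun s _ => ?_
    rw [ite_and]
  · intro x hx
    refine Eq.trans (Finset.sum_congr rfl fun y _ => by congr 1)
      ((chi_fc G fun s => if W s ∧ s ⊆ x.1 then μ s else 0).trans (Eq.trans ?_ (h x.1 x.2 hx)))
    symm
    refine (Finset.sum_congr rfl fun t ht => ?_).trans
      (Finset.sum_subset (Finset.subset_univ _) fun t _ ht => ?_)
    · have h1 := Finset.mem_powerset.1 ht
      have h2 : Clq G t ↔ t.Nonempty :=
        ⟨And.left, fun e => ⟨e, fun a ha b hb => x.2.2 a (h1 ha) b (h1 hb)⟩⟩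
      simp only [h2, h1, and_true, ite_and]
    · have h1 : ¬ t ⊆ x.1 := fun e => ht (Finset.mem_powerset.2 e)
      simp [h1]

theorem chi_alt {x : Finset V} {U : Set V} (h : Meets x U) :
    ∑ t ∈ x.powerset, (if Ins t U then (-1 : ℤ) ^ t.card else 0) = 0 := by
  obtain ⟨a, ha, haU⟩ := h
  rw [← Finset.sum_filter, ← Finset.sum_powerset_neg_one_pow_card_of_nonempty
    (x := x.filter fun a => a ∈ U) ⟨a, Finset.mem_filter.2 ⟨ha, haU⟩⟩]
  refine Finset.sum_congr ?_ fun _ _ => rfl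
  ext t
  simp only [Finset.mem_filter, Finset.mem_powerset, Finset.subset_iff, Ins]
  exact ⟨fun h a ha => ⟨h.1 ha, h.2 a ha⟩, fun h => ⟨fun a ha => (h ha).1, fun a ha => (h ha).2⟩⟩

theorem chi_one (x : Finset V) : ∑ t ∈ x.powerset, (if t = ∅ then (1 : ℤ) else 0) = 1 := by
  simp

theorem chi_meets {t : Finset V} {U : Set V} (ht : t.Nonempty) (h : Ins t U) : Meets t U :=
  ht.imp fun a ha => ⟨ha, h a ha⟩

theorem chi_in {x : Finset V} {U : Set V} (h : Meets x U) :
    ∑ t ∈ x.powerset, (if t.Nonempty ∧ Ins t U then (-1 : ℤ) ^ (t.card + 1) else 0) = 1 := by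
  refine Eq.trans ?_ ((congrArg₂ (· - ·) (chi_one x) (chi_alt h)).trans (sub_zero _))
  rw [← Finset.sum_sub_distrib]
  refine Finset.sum_congr rfl fun t _ => ?_
  rcases t.eq_empty_or_nonempty with rfl | ht
  · simp [Ins]
  · simp only [ht, true_and, if_neg ht.ne_empty, pow_succ]
    split_ifs <;> ring

theorem chi_dn [Fintype V] (G : Cx V) (S : Set V) : chi (sd G) (dn G S) = chi G S := by
  exact chi_faces G (fun s => Ins s S) (fun s => (-1) ^ (s.card + 1)) fun x hx h =>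
    chi_in (chi_meets hx.1 h)

theorem chi_up [Fintype V] (G : Cx V) (S : Set V) : chi (sd G) (up G S) = chi G S := by
  refine (chi_faces G (fun s => Meets s S)
    (fun s => if Ins s S then (-1) ^ (s.card + 1) else 0) fun x _ h => ?_).trans
    (Finset.sum_congr rfl fun s _ => ?_)
  · refine Eq.trans (Finset.sum_congr rfl fun t _ => ?_) (chi_in h)
    by_cases e : t.Nonempty ∧ Ins t S
    · rw [if_pos e, if_pos ⟨e.1, chi_meets e.1 e.2⟩, if_pos e.2]
    · rw [if_neg e]
      split_ifs with h1 h2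
      · exact absurd ⟨h1.1, h2⟩ e
      · rfl
      · rfl
  · by_cases e : Clq G s ∧ Ins s S
    · rw [if_pos e, if_pos ⟨e.1, chi_meets e.1.1 e.2⟩, if_pos e.2]
    · rw [if_neg e]
      split_ifs with h1 h2
      · exact absurd ⟨h1.1, h2⟩ e
      · rfl
      · rfl

theorem chi_tri {A B : Set V} (hd : Disjoint A B) {t : Finset V} (hi : Ins t (A ∪ B)) :
    (Ins t A ↔ ¬ Meets t B) ∧ (Ins t B ↔ ¬ Meets t A) :=
  ⟨⟨fun h ⟨a, ha, hb⟩ => Set.disjoint_left.1 hd (h a ha) hb,
      fun h a ha => (hi a ha).resolve_right fun e => h ⟨a, ha, e⟩⟩,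
    fun h ⟨a, ha, hb⟩ => Set.disjoint_left.1 hd hb (h a ha),
      fun h a ha => (hi a ha).resolve_left fun e => h ⟨a, ha, e⟩⟩

theorem chi_or {A B : Set V} {t : Finset V} (ht : t.Nonempty) (hi : Ins t (A ∪ B)) :
    Meets t A ∨ Meets t B := by
  obtain ⟨a, ha⟩ := ht
  exact (hi a ha).imp (fun e => ⟨a, ha, e⟩) fun e => ⟨a, ha, e⟩

theorem chi_cr [Fintype V] (G : Cx V) {A B : Set V} (hd : Disjoint A B) :
    chi (sd G) {s | Ins s.1 (A ∪ B) ∧ Meets s.1 A ∧ Meets s.1 B} =
      ∑ s : Finset V, if Clq G s ∧ Ins s (A ∪ B) ∧ Meets s A ∧ Meets s B then (-1) ^ s.card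
        else 0 := by
  refine chi_faces G (fun s => Ins s (A ∪ B) ∧ Meets s A ∧ Meets s B) (fun s => (-1) ^ s.card)
    fun x hx h => ?_
  have h1 := chi_in h.2.1
  have h2 := chi_in h.2.2
  have h3 := chi_in (chi_meets hx.1 h.1)
  refine Eq.trans ?_ ((congrArg₂ (· - ·) (congrArg₂ (· + ·) h1 h2) h3).trans (by norm_num))
  rw [← Finset.sum_add_distrib, ← Finset.sum_sub_distrib]
  refine Finset.sum_congr rfl fun t ht => ?_
  have hi : Ins t (A ∪ B) := fun a ha => h.1 a (Finset.mem_powerset.1 ht ha)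
  by_cases e : t.Nonempty
  · have h4 := chi_or e hi
    simp only [e, hi, true_and, (chi_tri hd hi).1, (chi_tri hd hi).2, pow_succ]
    by_cases e1 : Meets t A <;> by_cases e2 : Meets t B <;> simp_all
  · simp [e]

theorem chi_xs_sum [Fintype V] (G : Cx V) (U : Set V) : chi (sd G) (Xs G U) =
    ∑ s : Finset V, if Clq G s ∧ Meets s U ∧ Meets s Uᶜ then (-1) ^ s.card else 0 := by
  have h := chi_cr G (disjoint_compl_right (a := U))
  have h1 : ∀ s : Finset V, Ins s (U ∪ Uᶜ) := fun s a _ => by simp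
  simp only [h1, true_and] at h
  exact h

theorem chi_cross [Fintype V] (G : Cx V) {A B : Set V} (hd : Disjoint A B) :
    chi (sd G) {s | Ins s.1 (A ∪ B) ∧ Meets s.1 A ∧ Meets s.1 B} =
      chi G A + chi G B - chi G (A ∪ B) := by
  rw [chi_cr G hd, chi, chi, chi, ← Finset.sum_add_distrib, ← Finset.sum_sub_distrib]
  refine Finset.sum_congr rfl fun s _ => ?_
  by_cases hs : Clq G s
  · by_cases hi : Ins s (A ∪ B)
    · have h1 := chi_or hs.1 hi
      simp only [hs, hi, true_and, (chi_tri hd hi).1, (chi_tri hd hi).2, pow_succ]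
      by_cases e1 : Meets s A <;> by_cases e2 : Meets s B <;> simp_all
    · have h1 : ¬ Ins s A := fun h => hi fun a ha => Or.inl (h a ha)
      have h2 : ¬ Ins s B := fun h => hi fun a ha => Or.inr (h a ha)
      simp [hi, h1, h2]
  · simp [hs]

theorem chi_pts [Fintype V] {G : Cx V} {D : Set V} (h : ∀ a ∈ D, ∀ b ∈ D, G.r a b → a = b) :
    chi G D = D.ncard := by
  induction D, D.toFinite using Set.Finite.induction_on with
  | empty => simp [chi_empty]
  | @insert v D hv hD ih =>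
    have h1 : lk G {v} ∩ D = ∅ := Set.eq_empty_of_forall_notMem fun a ha =>
      (chi_lk.1 ha.1).1 (h a (Or.inr ha.2) v (Or.inl rfl) (chi_lk.1 ha.1).2)
    rw [chi_insert G hv, h1, chi_empty, Set.ncard_insert_of_notMem hv hD,
      ih fun a ha b hb => h a (Or.inr ha) b (Or.inr hb)]
    simp

theorem chi_step [Fintype V] (G : Cx V) {S B : Set V} {v : V} (hv : v ∉ B) (hS : v ∈ S) :
    chi G (S \ B) = chi G (S \ insert v B) + 1 - chi G ((lk G {v} ∩ S) \ (lk G {v} ∩ B)) := by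
  have h1 : S \ B = insert v (S \ insert v B) := by
    ext x
    simp only [Set.mem_sdiff, Set.mem_insert_iff]
    by_cases e : x = v
    · simp [e, hv, hS]
    · simp [e]
  have h2 : lk G {v} ∩ (S \ insert v B) = (lk G {v} ∩ S) \ (lk G {v} ∩ B) := by
    ext x
    simp only [Set.mem_sdiff, Set.mem_insert_iff, Set.mem_inter_iff, chi_lk]
    tauto
  rw [h1, chi_insert G fun e => e.2 (Or.inl rfl), h2]

theorem chi_link {G : Cx V} {S : Set V} {v : V} (hv : v ∈ S) {s : Finset V} (hs : Clq G s)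
    (hi : Ins s (lk G {v} ∩ S)) :
    Clq G (insert v s) ∧ Ins (insert v s) S ∧ (insert v s).card = s.card + 1 :=
  ⟨(bas_ins hs fun a ha => (hi a ha).1).1, fun a ha => (Finset.mem_insert.1 ha).elim
    (fun e => e ▸ hv) fun e => (hi a e).2, (bas_ins hs fun a ha => (hi a ha).1).2⟩

theorem chi_arc [Fintype V] {G : Cx V} {S : Set V} (hd : ∀ s, Clq G s → Ins s S → s.card ≤ 2)
    (h : ∀ v ∈ S, (lk G {v} ∩ S).ncard = 2) {B : Set V} (hB : B ⊆ S) :
    chi G B - chi G (S \ B) = - chi G S := by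
  induction B, B.toFinite using Set.Finite.induction_on with
  | empty => simp [chi_empty]
  | @insert v B hv _ ih =>
    have hS : v ∈ S := hB (Or.inl rfl)
    have hB' : B ⊆ S := fun x hx => hB (Or.inr hx)
    have h1 : ∀ a ∈ lk G {v} ∩ S, ∀ b ∈ lk G {v} ∩ S, G.r a b → a = b := by
      intro a ha b hb hab
      by_contra e
      have h2 : Clq G {a, b} := ⟨Finset.insert_nonempty _ _, chi_ins_iff.2 (by
        simp [G.refl, G.symm _ _ hab])⟩
      obtain ⟨k1, k2, k3⟩ := chi_link hS h2 fun x hx => (Finset.mem_insert.1 hx).elim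
        (fun e => e ▸ ha) fun e => Finset.mem_singleton.1 e ▸ hb
      have := hd _ k1 k2
      rw [k3, Finset.card_pair e] at this
      omega
    have h2 : lk G {v} ∩ B ⊆ lk G {v} ∩ S := Set.inter_subset_inter_right _ hB'
    have h3 := Set.ncard_sdiff_add_ncard_of_subset h2 (Set.toFinite _)
    rw [h v hS] at h3
    rw [← ih hB', chi_insert G hv, chi_step G hv hS,
      chi_pts (D := lk G {v} ∩ B) fun a ha b hb => h1 a (h2 ha) b (h2 hb),
      chi_pts (D := (lk G {v} ∩ S) \ (lk G {v} ∩ B)) fun a ha b hb => h1 a ha.1 b hb.1]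
    omega

theorem chi_cyc [Fintype V] {G : Cx V} {S : Set V} (hd : ∀ s, Clq G s → Ins s S → s.card ≤ 2)
    (h : ∀ v ∈ S, (lk G {v} ∩ S).ncard = 2) : chi G S = 0 := by
  have := chi_arc hd h subset_rfl
  rw [Set.sdiff_self, chi_empty] at this
  omega

/-- On a closed surface the curves dual to a partition have Euler characteristic zero. -/
theorem Surf.chi_add [Fintype V] {G : Cx V} {S B : Set V} (h : Surf G S) (hB : B ⊆ S) :
    chi G S = chi G B + chi G (S \ B) := by
  induction B, B.toFinite using Set.Finite.induction_on with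
  | empty => simp [chi_empty]
  | @insert v B hv _ ih =>
    have hS : v ∈ S := hB (Or.inl rfl)
    have hB' : B ⊆ S := fun x hx => hB (Or.inr hx)
    have h1 : ∀ s, Clq G s → Ins s (lk G {v} ∩ S) → s.card ≤ 2 := fun s hs hi => by
      obtain ⟨k1, k2, k3⟩ := chi_link hS hs hi
      have := h.dim _ k1 k2
      omega
    have h2 : ∀ w ∈ lk G {v} ∩ S, (lk G {w} ∩ (lk G {v} ∩ S)).ncard = 2 := fun w hw => by
      have hs : Clq G {w} := ⟨Finset.singleton_nonempty w, by simp [G.refl]⟩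
      obtain ⟨k1, k2, k3⟩ := chi_link hS hs fun a ha => Finset.mem_singleton.1 ha ▸ hw
      rw [← Set.inter_assoc, bas_lk]
      exact h.edg _ k1 k2 (by rw [k3, Finset.card_singleton])
    have h3 := chi_arc h1 h2 (Set.inter_subset_inter_right _ hB')
    rw [chi_cyc h1 h2] at h3
    rw [ih hB', chi_insert G hv, chi_step G hv hS]
    omega

/-- A closed curve. -/
theorem chi_cycle [Fintype V] {G : Cx V} {S : Set V} (hd : ∀ s, Clq G s → Ins s S → s.card ≤ 2)
    (h : ∀ v ∈ S, (lk G {v} ∩ S).ncard = 2) : chi G S = 0 := by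
  exact chi_cyc hd h

end KG
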