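import Pool.Agent.Work.MP_c146e2_gt.KG.G6

set_option autoImplicit false

noncomputable section

open scoped Classical

namespace KG

variable {V V' : Type}

theorem Contr.lift [Fintype V'] {G' : Cx V'} {G : Cx V} {U' : Set V'} {U : Set V} {f : V' → V}
    (h : Contr G' G U' U f) {s : Finset V} (hs : Clq G s) (hU : Meets s U) :
    ∃ s', Clq G' s' ∧ Meets s' U' ∧ Img f s' s := by
  have h1 := h.eul s hs hU
  obtain ⟨s', -, h2⟩ := Finset.exists_ne_zero_of_sum_ne_zero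
    (h1.trans_ne (pow_ne_zero _ (by norm_num)))
  exact ⟨s', by_contra fun e => h2 (if_neg e)⟩

theorem cta_false {G : Cx V} {A : V → V → Prop} {c : V → V → Bool} (hc : Col G A c) {a b : V}
    (h : ¬ (G.r a b ∧ a ≠ b ∧ ¬ A a b)) : c a b = false :=
  Bool.eq_false_iff.2 fun e => h (hc.supp a b e)

theorem cta_tri {G : Cx V} {A : V → V → Prop} {c : V → V → Bool} (hc : Col G A c) {a b d : V}
    (h1 : G.r a b) (h2 : G.r b d) (h3 : G.r a d) (h : c a b = false) : c a d = c b d :=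
  Bool.eq_iff_iff.2 (by
    have e1 := hc.tri a b d h1 h2 h3 h
    have e2 := hc.tri b a d (G.symm _ _ h1) h3 h2 ((hc.symm b a).trans h)
    constructor
    · exact fun k => by_contra fun k' => by simp [e1 (Bool.eq_false_iff.2 k')] at k
    · exact fun k => by_contra fun k' => by simp [e2 (Bool.eq_false_iff.2 k')] at k)

theorem cta_zpow {ι : Type} (t : Finset ι) {w : ℝ} (hw : w ≠ 0) (e : ι → ℤ) :
    ∏ i ∈ t, w ^ e i = w ^ ∑ i ∈ t, e i := by
  induction t using Finset.induction_on with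
  | empty => simp
  | insert i t hi ih => rw [Finset.prod_insert hi, Finset.sum_insert hi, zpow_add₀ hw, ih]

theorem cta_img {f : V' → V} {s' : Finset V'} {s : Finset V} : Img f s' s ↔ s'.image f = s := by
  simp only [Img, Finset.ext_iff, Finset.mem_image]
  exact forall_congr' fun _ => Iff.comm

/-- The pull back of a colouring. -/
def ctaP (G' : Cx V') (U' : Set V') (f : V' → V) (c : V → V → Bool) (x y : V') : Bool :=
  decide (G'.r x y ∧ (x ∈ U' ∨ y ∈ U') ∧ c (f x) (f y) = true)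

/-- The push forward of a colouring. -/
def ctaQ (f : V' → V) (c' : V' → V' → Bool) (a b : V) : Bool :=
  decide (∃ x y, c' x y = true ∧ f x = a ∧ f y = b)

theorem ctaQ_iff {f : V' → V} {c' : V' → V' → Bool} {a b : V} :
    ctaQ f c' a b = true ↔ ∃ x y, c' x y = true ∧ f x = a ∧ f y = b := decide_eq_true_iff

section

variable [Fintype V'] {G' : Cx V'} {G : Cx V} {U' : Set V'} {U : Set V} {f : V' → V}
  {c : V → V → Bool} {c' : V' → V' → Bool}

theorem cta_K (h : Contr G' G U' U f) (hc : Col G (inZ Uᶜ) c) {u x y : V'} (hu : u ∈ U')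
    (hx : G'.r u x) (hy : G'.r u y) (hxy : G'.r x y) : ctaP G' U' f c x y = c (f x) (f y) := by
  by_cases e : x ∈ U' ∨ y ∈ U'
  · simp [ctaP, hxy, e]
  · rw [cta_false hc fun k => k.2.2
      ⟨h.nmem u hu x hx fun k => e (Or.inl k), h.nmem u hu y hy fun k => e (Or.inr k)⟩]
    simp [ctaP, e]

theorem cta_lift3 (h : Contr G' G U' U f) {a b d : V} (h1 : G.r a b) (h2 : G.r b d)
    (h3 : G.r a d) (hU : ¬ inZ Uᶜ a d) : ∃ u ∈ U', ∃ x y z, G'.r u x ∧ G'.r u y ∧ G'.r u z ∧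
      G'.r x y ∧ G'.r y z ∧ G'.r x z ∧ f x = a ∧ f y = b ∧ f z = d := by
  obtain ⟨s', q1, ⟨u, hu, hu'⟩, q3⟩ := h.lift (s := {a, b, d}) ⟨Finset.insert_nonempty _ _, by
    simp [G.refl, h1, h2, h3, G.symm _ _ h1, G.symm _ _ h2, G.symm _ _ h3]⟩ (by
    by_contra k
    exact hU ⟨fun e => k ⟨a, by simp, e⟩, fun e => k ⟨d, by simp, e⟩⟩)
  obtain ⟨x, hx, ex⟩ := (q3 a).1 (by simp)
  obtain ⟨y, hy, ey⟩ := (q3 b).1 (by simp)
  obtain ⟨z, hz, ez⟩ := (q3 d).1 (by simp)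
  exact ⟨u, hu', x, y, z, q1.2 u hu x hx, q1.2 u hu y hy, q1.2 u hu z hz, q1.2 x hx y hy,
    q1.2 y hy z hz, q1.2 x hx z hz, ex, ey, ez⟩

theorem cta_col (h : Contr G' G U' U f) {B : Set V'} {p : V' → V'} (hp : ∀ x ∈ B, f (p x) = f x)
    (hc : Col G (inZ Uᶜ) c) :
    Col G' (fun a b => inZ U'ᶜ a b ∨ par B p a b) (ctaP G' U' f c) := by
  refine ⟨fun a b => ?_, fun a b k => ?_, fun a b d h1 h2 h3 k1 k2 => ?_⟩
  · unfold ctaP
    rw [hc.symm (f a), decide_eq_decide]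
    exact ⟨fun k => ⟨G'.symm _ _ k.1, k.2.1.symm, k.2.2⟩, fun k => ⟨G'.symm _ _ k.1, k.2.1.symm, k.2.2⟩⟩
  · obtain ⟨k1, k2, k3⟩ := of_decide_eq_true k
    have k4 := (hc.supp _ _ k3).2.1
    refine ⟨k1, fun e => k4 (by rw [e]), ?_⟩
    rintro (e | e)
    · exact k2.elim e.1 e.2
    · exact k4 (by rw [e.2, hp a e.1])
  · refine Bool.eq_false_iff.2 fun k => ?_
    obtain ⟨u, hu, r1, r2, r3⟩ : ∃ u ∈ U', G'.r u a ∧ G'.r u b ∧ G'.r u d :=
      (of_decide_eq_true k).2.1.elim (fun e => ⟨a, e, G'.refl _, h1, h3⟩)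
        fun e => ⟨d, e, G'.symm _ _ h3, G'.symm _ _ h2, G'.refl _⟩
    rw [cta_K h hc hu r1 r2 h1] at k1
    rw [cta_K h hc hu r2 r3 h2] at k2
    rw [cta_K h hc hu r1 r3 h3, hc.tri _ _ _ (h.map u hu a b r1 r2 h1) (h.map u hu b d r2 r3 h2)
      (h.map u hu a d r1 r3 h3) k1 k2] at k
    exact Bool.false_ne_true k

theorem cta_inj (h : Contr G' G U' U f) {c1 c2 : V → V → Bool} (h1 : Col G (inZ Uᶜ) c1)
    (h2 : Col G (inZ Uᶜ) c2) (e : ctaP G' U' f c1 = ctaP G' U' f c2) : c1 = c2 := by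
  funext a b
  by_cases k : G.r a b ∧ a ≠ b ∧ ¬ inZ Uᶜ a b
  · obtain ⟨u, hu, x, -, z, r1, -, r3, -, -, r6, rfl, -, rfl⟩ :=
      cta_lift3 h (G.refl a) k.1 k.1 k.2.2
    rw [← cta_K h h1 hu r1 r3 r6, ← cta_K h h2 hu r1 r3 r6, e]
  · rw [cta_false h1 k, cta_false h2 k]

theorem cta_surj (h : Contr G' G U' U f) {A : V' → V' → Prop}
    (hA : ∀ x ∈ U', ∀ y ∈ U', G'.r x y → f x = f y → Cl G' A x y)
    (hc : Col G' (fun a b => inZ U'ᶜ a b ∨ A a b) c') :
    Col G (inZ Uᶜ) (ctaQ f c') ∧ ctaP G' U' f (ctaQ f c') = c' := by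
  have hS : ∀ x y, c' x y = true → G'.r x y ∧ (x ∈ U' ∨ y ∈ U') := fun x y k =>
    ⟨(hc.supp x y k).1, by_contra fun e => (hc.supp x y k).2.2
      (Or.inl ⟨fun e' => e (Or.inl e'), fun e' => e (Or.inr e')⟩)⟩
  have hF : ∀ u ∈ U', ∀ x y, G'.r u x → G'.r u y → f x = f y → c' x y = false := by
    intro u hu x y r1 r2 e
    refine Bool.eq_false_iff.2 fun k => ?_
    obtain ⟨r3, k1⟩ := hS x y k
    have k2 : x ∈ U' ∧ y ∈ U' := k1.elim
      (fun k2 => ⟨k2, by_contra fun k3 => h.nmem u hu y r2 k3 (e ▸ h.mem x k2)⟩)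
      fun k2 => ⟨by_contra fun k3 => h.nmem u hu x r1 k3 (e ▸ h.mem y k2), k2⟩
    rw [hc.cl ((hA x k2.1 y k2.2 r3 e).mono fun a b k => Cl.base (Or.inr k))] at k
    exact Bool.false_ne_true k
  have hN : ∀ x y, c' x y = true → f x ≠ f y := fun x y k e => by
    obtain ⟨r, k1 | k1⟩ := hS x y k
    · exact Bool.false_ne_true ((hF x k1 x y (G'.refl _) r e).symm.trans k)
    · exact Bool.false_ne_true ((hF y k1 x y (G'.symm _ _ r) (G'.refl _) e).symm.trans k)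
  have hE : ∀ e e' : V' × V', Relation.ReflTransGen (EStep G' U' f) e e' →
      c' e.1 e.2 = c' e'.1 e'.2 := by
    intro e e' k
    induction k with
    | refl => rfl
    | @tail e1 e2 _ k ih =>
      obtain ⟨k1, -, k3, k4, k5, k6, k7 | k7⟩ := k
      · rw [ih, ← k7.1]
        exact cta_tri hc k7.2 (k7.1 ▸ k4) k3 (hF _ k1 _ _ (G'.refl _) k7.2 k5)
      · rw [ih, ← k7.1, hc.symm, hc.symm e1.1]
        exact cta_tri hc k7.2 (G'.symm _ _ (k7.1 ▸ k4)) (G'.symm _ _ k3)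
          (hF _ k1 _ _ k3 (k7.1 ▸ k4) k6)
  have hW1 : ∀ x ∈ U', ∀ y x' y', G'.r x y → c' x' y' = true → f x' = f x → f y' = f y →
      c' x y = true := by
    intro x hx y x' y' r k e1 e2
    obtain ⟨r', k1⟩ := hS x' y' k
    have hx' : x' ∈ U' := by_contra fun k2 =>
      h.nmem y' (k1.resolve_left k2) x' (G'.symm _ _ r') k2 (e1 ▸ h.mem x hx)
    exact (hE _ _ (h.econn x' hx' x hx y' y r' r e1 e2 (hN x' y' k))).symm.trans k
  have hW : ∀ x y, G'.r x y → x ∈ U' ∨ y ∈ U' → ctaQ f c' (f x) (f y) = c' x y := by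
    intro x y r k
    refine Bool.eq_iff_iff.2 ⟨fun k1 => ?_, fun k1 => ctaQ_iff.2 ⟨x, y, k1, rfl, rfl⟩⟩
    obtain ⟨x', y', k2, e1, e2⟩ := ctaQ_iff.1 k1
    rcases k with k | k
    · exact hW1 x k y x' y' r k2 e1 e2
    · exact (hc.symm x y).trans (hW1 y k x y' x' (G'.symm _ _ r) ((hc.symm y' x').trans k2) e2 e1)
  have hQ : ∀ a b, ctaQ f c' a b = true → G.r a b ∧ a ≠ b ∧ ¬ inZ Uᶜ a b := by
    intro a b k
    obtain ⟨x, y, k1, rfl, rfl⟩ := ctaQ_iff.1 k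
    obtain ⟨r, k2⟩ := hS x y k1
    refine ⟨k2.elim (fun e => h.map x e x y (G'.refl _) r r)
      fun e => h.map y e x y (G'.symm _ _ r) (G'.refl _) r, hN x y k1, fun e => ?_⟩
    exact k2.elim (fun k3 => e.1 (h.mem x k3)) fun k3 => e.2 (h.mem y k3)
  have hW' : ∀ u ∈ U', ∀ x y, G'.r u x → G'.r u y → G'.r x y →
      ctaQ f c' (f x) (f y) = c' x y := by
    intro u hu x y r1 r2 r3
    by_cases e : x ∈ U' ∨ y ∈ U'
    · exact hW x y r3 e
    · rw [Bool.eq_false_iff.2 fun k => e (hS x y k).2]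
      exact Bool.eq_false_iff.2 fun k => (hQ _ _ k).2.2
        ⟨h.nmem u hu x r1 fun k => e (Or.inl k), h.nmem u hu y r2 fun k => e (Or.inr k)⟩
  refine ⟨⟨fun a b => ?_, hQ, fun a b d h1 h2 h3 k1 k2 => ?_⟩, ?_⟩
  · unfold ctaQ
    rw [decide_eq_decide]
    exact ⟨fun ⟨x, y, k, e1, e2⟩ => ⟨y, x, (hc.symm y x).trans k, e2, e1⟩,
      fun ⟨x, y, k, e1, e2⟩ => ⟨y, x, (hc.symm y x).trans k, e2, e1⟩⟩
  · refine Bool.eq_false_iff.2 fun k => ?_
    obtain ⟨u, hu, x, y, z, r1, r2, r3, r4, r5, r6, rfl, rfl, rfl⟩ :=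
      cta_lift3 h h1 h2 h3 (hQ _ _ k).2.2
    rw [hW' u hu x y r1 r2 r4] at k1
    rw [hW' u hu y z r2 r3 r5] at k2
    rw [hW' u hu x z r1 r3 r6, hc.tri x y z r4 r5 r6 k1 k2] at k
    exact Bool.false_ne_true k
  · funext x y
    by_cases e : G'.r x y ∧ (x ∈ U' ∨ y ∈ U')
    · rw [← hW x y e.1 e.2]
      simp [ctaP, e.1, e.2]
    · rw [Bool.eq_false_iff.2 fun k => e (hS x y k)]
      exact decide_eq_false fun k => e ⟨k.1, k.2.1⟩

theorem cta_fib (h : Contr G' G U' U f) (hm : PMan G' U') (hc : Col G (inZ Uᶜ) c) {s : Finset V}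
    (hs : Clq G s) (hU : Meets s U) :
    (∏ s' : Finset V', if Clq G' s' ∧ Meets s' U' ∧ Img f s' s then w1 (ctaP G' U' f c) s' else 1) =
      w1 c s := by
  have hK : ∀ s', Clq G' s' ∧ Meets s' U' ∧ Img f s' s → ∀ x ∈ s', ∀ y ∈ s',
      ctaP G' U' f c x y = c (f x) (f y) := by
    rintro s' ⟨q1, ⟨u, hu, hu'⟩, -⟩ x hx y hy
    exact cta_K h hc hu' (q1.2 u hu x hx) (q1.2 u hu y hy) (q1.2 x hx y hy)
  have hact : ∀ s', Clq G' s' ∧ Meets s' U' ∧ Img f s' s →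
      (act (ctaP G' U' f c) s' ↔ act c s) := fun s' q => by
    constructor
    · rintro ⟨x, hx, y, hy, k⟩
      exact ⟨f x, (q.2.2 _).2 ⟨x, hx, rfl⟩, f y, (q.2.2 _).2 ⟨y, hy, rfl⟩,
        (hK s' q x hx y hy).symm.trans k⟩
    · rintro ⟨a, ha, b, hb, k⟩
      obtain ⟨x, hx, rfl⟩ := (q.2.2 a).1 ha
      obtain ⟨y, hy, rfl⟩ := (q.2.2 b).1 hb
      exact ⟨x, hx, y, hy, (hK s' q x hx y hy).trans k⟩
  have hcard : ∀ s', Clq G' s' ∧ Meets s' U' ∧ Img f s' s → s.card ≤ s'.card ∧ s'.card ≤ 4 :=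
    fun s' q => ⟨cta_img.1 q.2.2 ▸ Finset.card_image_le, hm.dim s' q.1 q.2.1⟩
  have hful : ∀ s', Clq G' s' ∧ Meets s' U' ∧ Img f s' s →
      (ful (ctaP G' U' f c) s' ↔ ful c s ∧ s.card = s'.card) := fun s' q => by
    rw [show s.card = s'.card ↔ Set.InjOn f s' from cta_img.1 q.2.2 ▸ Finset.card_image_iff]
    constructor
    · refine fun k => ⟨fun a ha b hb n => ?_, fun x hx y hy e => by_contra fun n => ?_⟩
      · obtain ⟨x, hx, rfl⟩ := (q.2.2 a).1 ha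
        obtain ⟨y, hy, rfl⟩ := (q.2.2 b).1 hb
        exact (hK s' q x hx y hy).symm.trans (k x hx y hy fun e => n (by rw [e]))
      · exact (hc.supp _ _ ((hK s' q x hx y hy).symm.trans (k x hx y hy n))).2.1 e
    · exact fun k x hx y hy n => (hK s' q x hx y hy).trans (k.1 _ ((q.2.2 _).2 ⟨x, hx, rfl⟩) _
        ((q.2.2 _).2 ⟨y, hy, rfl⟩) fun e => n (k.2 hx hy e))
  have key : ∀ w : ℝ, w ≠ 0 → (∀ s', Clq G' s' ∧ Meets s' U' ∧ Img f s' s →
      w1 (ctaP G' U' f c) s' = w ^ ((-1 : ℤ) ^ s'.card)) → w ^ ((-1 : ℤ) ^ s.card) = w1 c s →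
      (∏ s' : Finset V', if Clq G' s' ∧ Meets s' U' ∧ Img f s' s then w1 (ctaP G' U' f c) s'
        else 1) = w1 c s := by
    intro w hw k1 k2
    rw [← k2, ← h.eul s hs hU, ← cta_zpow _ hw]
    refine Finset.prod_congr rfl fun s' _ => ?_
    split_ifs with q
    · exact k1 s' q
    · rfl
  by_cases ha : act c s
  swap
  · exact key 1 one_ne_zero (fun s' q => by rw [w1, if_neg (mt (hact s' q).1 ha), one_zpow])
      (by rw [w1, if_neg ha, one_zpow])
  have h2 : 2 ≤ s.card := by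
    obtain ⟨a, ha, b, hb, k⟩ := ha
    exact Finset.one_lt_card.2 ⟨a, ha, b, hb, (hc.supp a b k).2.1⟩
  by_cases h3 : s.card ≤ 3
  · refine key ph ph_pos.ne' (fun s' q => ?_) ?_
    · have k1 := hcard s' q
      have k2 := hful s' q
      rw [w1, if_pos ((hact s' q).2 ha)]
      obtain k | k | k : s'.card = 2 ∨ s'.card = 3 ∨ s'.card = 4 := by omega
      · simp [k]
      · rw [k]
        norm_num
      · rw [if_neg (by omega), if_neg (by omega), if_neg fun e => by have := (k2.1 e).2; omega, k]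
        norm_num
    · rw [w1, if_pos ha]
      obtain k | k : s.card = 2 ∨ s.card = 3 := by omega
      · simp [k]
      · rw [k]
        norm_num
  · obtain ⟨s0, q0⟩ := h.lift hs hU
    have h4 : s.card = 4 := by have := hcard s0 q0; omega
    refine key (w1 c s) ?_ (fun s' q => ?_) (by rw [h4]; norm_num)
    · unfold w1
      split_ifs
      exacts [ph_pos.ne', inv_ne_zero ph_pos.ne', by norm_num, ph_pos.ne']
    · have k : s'.card = 4 := by have := hcard s' q; omega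
      rw [w1, w1, if_pos ((hact s' q).2 ha), if_pos ha, k, h4,
        if_congr ((hful s' q).trans (and_iff_left (h4.trans k.symm))) rfl rfl]
      norm_num

theorem cta_wt [Fintype V] (h : Contr G' G U' U f) (hm : PMan G' U') (hc : Col G (inZ Uᶜ) c) :
    wt G c = wt G' (ctaP G' U' f c) := by
  unfold wt
  rw [← Finset.prod_fiberwise (s := Finset.univ) (g := fun s' : Finset V' => s'.image f)]
  refine Finset.prod_congr rfl fun s _ => ?_
  have h1 : ∏ s' ∈ Finset.univ.filter (fun s' : Finset V' => s'.image f = s),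
      (if Clq G' s' then w1 (ctaP G' U' f c) s' else 1) = ∏ s' : Finset V',
        if Clq G' s' ∧ Meets s' U' ∧ Img f s' s then w1 (ctaP G' U' f c) s' else 1 := by
    rw [Finset.prod_filter]
    refine Finset.prod_congr rfl fun s' _ => ?_
    by_cases q1 : s'.image f = s
    swap
    · rw [if_neg q1, if_neg fun k => q1 (cta_img.1 k.2.2)]
    by_cases q2 : Clq G' s'
    swap
    · rw [if_pos q1, if_neg q2, if_neg fun k => q2 k.1]
    rw [if_pos q1, if_pos q2]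
    by_cases q3 : Meets s' U'
    · rw [if_pos ⟨q2, q3, cta_img.2 q1⟩]
    · rw [if_neg fun k => q3 k.2.1, w1, if_neg]
      rintro ⟨x, hx, y, hy, k⟩
      exact (of_decide_eq_true k).2.1.elim (fun e => q3 ⟨x, hx, e⟩) fun e => q3 ⟨y, hy, e⟩
  refine Eq.trans ?_ (by convert h1.symm)
  by_cases q : Clq G s ∧ Meets s U
  · rw [cta_fib h hm hc q.1 q.2, if_pos q.1]
  · rw [Finset.prod_eq_one]
    · split_ifs with q1
      · rw [w1, if_neg]
        rintro ⟨a, ha, b, hb, k⟩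
        exact (hc.supp a b k).2.2 ⟨fun e => q ⟨q1, a, ha, e⟩, fun e => q ⟨q1, b, hb, e⟩⟩
      · rfl
    · refine fun s' _ => if_neg ?_
      rintro ⟨q1, ⟨u, hu, hu'⟩, q3⟩
      have k : f u ∈ s := (q3 _).2 ⟨u, hu, rfl⟩
      refine q ⟨⟨⟨_, k⟩, fun a ha b hb => ?_⟩, _, k, h.mem u hu'⟩
      obtain ⟨x, hx, rfl⟩ := (q3 a).1 ha
      obtain ⟨y, hy, rfl⟩ := (q3 b).1 hb
      exact h.map u hu' x y (q1.2 u hu x hx) (q1.2 u hu y hy) (q1.2 x hx y hy)

end

theorem Contr.tv [Fintype V] [Fintype V'] {G' : Cx V'} {G : Cx V} {U' : Set V'} {U : Set V}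
    {f : V' → V} (h : Contr G' G U' U f) (hm : Man G' U') : tv G' U'ᶜ = tv G Uᶜ := by
  obtain ⟨R, p, hR, hinj, hF, hp, hcl⟩ := h.fib
  have h1 := gauge_forest (hm.mono Set.sdiff_subset) hF (A := inZ U'ᶜ)
    fun v hv x _ => ⟨fun k => k.1 hv.1, fun k => k.2 hv.1⟩
  have h2 : f '' R = U := by
    refine Set.Subset.antisymm (by rintro _ ⟨x, hx, rfl⟩; exact h.mem x (hR hx)) fun u hu => ?_
    obtain ⟨s', -, ⟨x, hx, hx'⟩, q⟩ := h.lift (s := {u})
      ⟨Finset.singleton_nonempty u, by simpa using G.refl u⟩ ⟨u, Finset.mem_singleton_self u, hu⟩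
    rw [← Finset.mem_singleton.1 ((q _).2 ⟨x, hx, rfl⟩)]
    refine hF.ind (Q := fun v => f v ∈ f '' R) (fun v hv k => ⟨v, by_contra fun e => k ⟨hv, e⟩, rfl⟩)
      (fun v hv k => hp v hv ▸ k) x (Or.inl hx')
  have h3 : U'.ncard = (U' \ R).ncard + U.ncard := by
    rw [← h2, hinj.ncard_image, Set.ncard_sdiff_add_ncard_of_subset hR]
  have h4 : SS G (inZ Uᶜ) = SS G' fun a b => inZ U'ᶜ a b ∨ par (U' \ R) p a b := by
    unfold SS
    rw [← Finset.sum_filter, ← Finset.sum_filter]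
    refine Finset.sum_nbij (ctaP G' U' f) (fun c hc => Finset.mem_filter.2 ⟨Finset.mem_univ _,
      cta_col h hp (Finset.mem_filter.1 hc).2⟩) (fun c1 k1 c2 k2 e => cta_inj h
        (Finset.mem_filter.1 k1).2 (Finset.mem_filter.1 k2).2 e) (fun c' hc => ?_)
      fun c hc => cta_wt h hm.toPMan (Finset.mem_filter.1 hc).2
    obtain ⟨k1, k2⟩ := cta_surj h hcl (Finset.mem_filter.1 hc).2
    exact ⟨_, Finset.mem_filter.2 ⟨Finset.mem_univ _, k1⟩, k2⟩
  have h5 : D2 ≠ 0 := (one_pos.trans one_lt_D2).ne'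
  unfold KG.tv
  rw [compl_compl, compl_compl, h1, h3, h4, pow_add, mul_div_mul_left _ _ (pow_ne_zero _ h5)]

end KG
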