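import Pool.Agent.Work.MP_c146e2_gt.KG.CtA

set_option autoImplicit false

noncomputable section

open scoped Classical

namespace KG

variable {V V' : Type}

variable [Fintype V'] {G' : Cx V'} {G : Cx V} {U' : Set V'} {U : Set V} {f : V' → V}

theorem ctb_map (h : Contr G' G U' U f) {x y : V'} (hx : x ∈ U') (r : G'.r x y) :
    G.r (f x) (f y) := h.map x hx x y (G'.refl x) r r

theorem ctb_lift (h : Contr G' G U' U f) {a b c : V} (ha : a ∈ U) (hb : b ∈ U) (hc : c ∈ U)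
    (hab : G.r a b) (hbc : G.r b c) (hac : G.r a c) : ∃ x ∈ U', ∃ y ∈ U', ∃ z ∈ U',
      G'.r x y ∧ G'.r y z ∧ G'.r x z ∧ f x = a ∧ f y = b ∧ f z = c := by
  have hs : Clq G {a, b, c} := ⟨⟨a, by simp⟩, by
    simp [G.refl, hab, hbc, hac, G.symm _ _ hab, G.symm _ _ hbc, G.symm _ _ hac]⟩
  obtain ⟨s', h1, ⟨u, hu, hu'⟩, h3⟩ := h.lift hs ⟨a, by simp, ha⟩
  have h4 : ∀ x ∈ s', f x ∈ U → x ∈ U' := fun x hx e =>
    by_contra fun n => h.nmem u hu' x (h1.2 u hu x hx) n e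
  obtain ⟨x, hx, rfl⟩ := (h3 a).1 (by simp)
  obtain ⟨y, hy, rfl⟩ := (h3 b).1 (by simp)
  obtain ⟨z, hz, rfl⟩ := (h3 c).1 (by simp)
  exact ⟨x, h4 x hx ha, y, h4 y hy hb, z, h4 z hz hc, h1.2 x hx y hy, h1.2 y hy z hz,
    h1.2 x hx z hz, rfl, rfl, rfl⟩

theorem ctb_lift2 (h : Contr G' G U' U f) {a b : V} (ha : a ∈ U) (hb : b ∈ U) (hab : G.r a b) :
    ∃ x ∈ U', ∃ y ∈ U', G'.r x y ∧ f x = a ∧ f y = b := by
  obtain ⟨x, hx, y, hy, -, -, r, -, -, e1, e2, -⟩ := ctb_lift h ha hb hb hab (G.refl b) hab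
  exact ⟨x, hx, y, hy, r, e1, e2⟩

theorem ctb_fib (h : Contr G' G U' U f) {x y : V'} (hx : x ∈ U') (hy : y ∈ U') (e : f x = f y) :
    Rch G' {z | z ∈ U' ∧ f z = f x} x y := by
  obtain ⟨R, p, -, hi, hF, hp, -⟩ := h.fib
  have key := hF.ind (Q := fun v => ∃ r ∈ R, f r = f v ∧ Rch G' {z | z ∈ U' ∧ f z = f v} v r)
    (fun v hv n => ⟨v, by_contra fun n' => n ⟨hv, n'⟩, rfl, Relation.ReflTransGen.refl⟩)
    fun v hv ⟨r, r1, r2, r3⟩ => by
      obtain ⟨rk, hrk⟩ := hF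
      rw [hp v hv] at r2 r3
      exact ⟨r, r1, r2, r3.head ⟨⟨hv.1, rfl⟩, ⟨(hrk v hv).1, hp v hv⟩, (hrk v hv).2.1⟩⟩
  obtain ⟨r, r1, r2, r3⟩ := key x (Or.inl hx)
  obtain ⟨r', s1, s2, s3⟩ := key y (Or.inl hy)
  rw [← e, ← hi r1 s1 (r2.trans (e.trans s2.symm))] at s3
  exact r3.trans (rch_symm s3)

theorem ctb_rch (h : Contr G' G U' U f) {x y : V'} (hx : x ∈ U') (hy : y ∈ U') :
    Rch G' U' x y ↔ Rch G U (f x) (f y) := by
  refine ⟨rch_map fun a ha b hb r => rch_step (h.mem a ha) (h.mem b hb) (ctb_map h ha r),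
    fun r => ?_⟩
  have key : ∀ c, Rch G U (f x) c → ∀ z ∈ U', f z = c → Rch G' U' x z := by
    intro c hc
    induction hc with
    | refl => exact fun z hz e => rch_mono (fun _ h => h.1) (ctb_fib h hx hz e.symm)
    | tail _ st ih =>
      intro z hz e
      obtain ⟨u, hu, v, hv, r', e1, e2⟩ := ctb_lift2 h st.1 st.2.1 st.2.2
      exact ((ih u hu e1).tail ⟨hu, hv, r'⟩).trans
        (rch_mono (fun _ h => h.1) (ctb_fib h hv hz (e2.trans e.symm)))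
  exact key _ r y hy rfl

theorem Contr.pull (h : Contr G' G U' U f) {H : Type} [Group H] {η : V → V → H} (hη : Flat G U η) :
    Flat G' U' fun x y => η (f x) (f y) := by
  intro a ha b hb c hc hab hbc hac
  exact hη _ (h.mem a ha) _ (h.mem b hb) _ (h.mem c hc) (ctb_map h ha hab) (ctb_map h hb hbc)
    (ctb_map h ha hac)

theorem Contr.desc (h : Contr G' G U' U f) {H : Type} [Group H] {η' : V' → V' → H}
    (hη : Flat G' U' η') : ∃ (η : V → V → H) (β : V' → H), Flat G U η ∧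
      ∀ x ∈ U', ∀ y ∈ U', G'.r x y → η' x y = (β x)⁻¹ * η (f x) (f y) * β y := by
  obtain ⟨R, p, -, -, hF, -, hcl⟩ := h.fib
  obtain ⟨β, -, hβ⟩ := hF.rec_fun (fun _ => (1 : H)) fun v g => g * (η' v (p v))⁻¹
  obtain ⟨rk, hrk⟩ := hF
  have hζ := hη.gauge β
  obtain ⟨ζ, hζ'⟩ : ∃ ζ : V' → V' → H, ζ = fun a b => β a * η' a b * (β b)⁻¹ := ⟨_, rfl⟩
  rw [← hζ'] at hζ
  have h1 : ∀ x ∈ U', ∀ y ∈ U', G'.r x y → f x = f y → ζ x y = 1 := fun x hx y hy r e => by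
    refine hζ.cl ?_ (hcl x hx y hy r e) hx r
    rintro a _ ⟨ha, rfl⟩
    refine ⟨ha.1, (hrk a ha).1, fun _ => ?_⟩
    rw [hζ']
    dsimp only
    rw [hβ a ha]
    group
  have h2 : ∀ x ∈ U', ∀ y ∈ U', ∀ x' ∈ U', ∀ y' ∈ U', G'.r x y → G'.r x' y' → f x = f x' →
      f y = f y' → ζ x y = ζ x' y' := by
    intro x hx y hy x' hx' y' hy' r r' e1 e2
    by_cases e : f x = f y
    · rw [h1 x hx y hy r e, h1 x' hx' y' hy' r' (e1.symm.trans (e.trans e2))]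
    have key : ∀ q, Relation.ReflTransGen (EStep G' U' f) (x, y) q →
        q.2 ∈ U' ∧ ζ x y = ζ q.1 q.2 := by
      intro q hq
      induction hq with
      | refl => exact ⟨hy, rfl⟩
      | @tail q q' _ st ih =>
        obtain ⟨a1, a2, a3, a4, a5, a6, a7⟩ := st
        have a8 : q'.2 ∈ U' := by_contra fun n => h.nmem _ a2 _ a4 n (a6 ▸ h.mem _ ih.1)
        refine ⟨a8, ih.2.trans ?_⟩
        rcases a7 with ⟨b1, b2⟩ | ⟨b1, b2⟩
        · rw [b1] at a3 ⊢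
          rw [← hζ _ a1 _ a2 _ a8 b2 a4 a3, h1 _ a1 _ a2 b2 a5, one_mul]
        · rw [b1] at a3 ⊢
          rw [← hζ _ a2 _ ih.1 _ a8 a3 b2 a4, h1 _ ih.1 _ a8 b2 a6, mul_one]
    exact (key _ (h.econn x hx x' hx' y y' r r' e1 e2 e)).2
  have h3 : ∀ a b, ∃ g : H, ∀ x ∈ U', ∀ y ∈ U', G'.r x y → f x = a → f y = b → g = ζ x y := by
    intro a b
    by_cases e : ∃ x ∈ U', ∃ y ∈ U', G'.r x y ∧ f x = a ∧ f y = b
    · obtain ⟨x, hx, y, hy, r, rfl, rfl⟩ := e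
      exact ⟨ζ x y, fun x' hx' y' hy' r' e1 e2 => h2 x hx y hy x' hx' y' hy' r r' e1.symm e2.symm⟩
    · exact ⟨1, fun x hx y hy r e1 e2 => (e ⟨x, hx, y, hy, r, e1, e2⟩).elim⟩
  choose η h3 using h3
  refine ⟨η, β, fun a ha b hb c hc hab hbc hac => ?_, fun x hx y hy r => ?_⟩
  · obtain ⟨x, hx, y, hy, z, hz, r1, r2, r3, e1, e2, e3⟩ := ctb_lift h ha hb hc hab hbc hac
    rw [h3 a b x hx y hy r1 e1 e2, h3 b c y hy z hz r2 e2 e3, h3 a c x hx z hz r3 e1 e3]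
    exact hζ x hx y hy z hz r1 r2 r3
  · rw [h3 _ _ x hx y hy r rfl rfl, hζ']
    dsimp only
    group

theorem Contr.refl_gauge (h : Contr G' G U' U f) {H : Type} [Group H] {η₁ η₂ : V → V → H}
    (h1 : Flat G U η₁) (h2 : Flat G U η₂) {β' : V' → H}
    (hb : ∀ x ∈ U', ∀ y ∈ U', G'.r x y → η₁ (f x) (f y) = (β' x)⁻¹ * η₂ (f x) (f y) * β' y) :
    ∃ β : V → H, ∀ a ∈ U, ∀ b ∈ U, G.r a b → η₁ a b = (β a)⁻¹ * η₂ a b * β b := by
  have c1 : ∀ x ∈ U', ∀ y ∈ U', f x = f y → β' x = β' y := fun x hx y hy e => by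
    refine rch_const (fun a ha b hb' r => ?_) (ctb_fib h hx hy e)
    have := hb a ha.1 b hb'.1 r
    rw [ha.2, hb'.2, h1.self (h.mem x hx), h2.self (h.mem x hx), mul_one] at this
    exact inv_mul_eq_one.1 this.symm
  have c2 : ∀ a, ∃ g : H, ∀ x ∈ U', f x = a → g = β' x := fun a => by
    by_cases e : ∃ x ∈ U', f x = a
    · obtain ⟨x, hx, rfl⟩ := e
      exact ⟨β' x, fun y hy e => c1 x hx y hy e.symm⟩
    · exact ⟨1, fun x hx e' => (e ⟨x, hx, e'⟩).elim⟩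
  choose β c2 using c2
  refine ⟨β, fun a ha b hb' r => ?_⟩
  obtain ⟨x, hx, y, hy, r', rfl, rfl⟩ := ctb_lift2 h ha hb' r
  rw [c2 _ x hx rfl, c2 _ y hy rfl]
  exact hb x hx y hy r'

theorem Contr.univ (h : Contr G' G U' U f) {L : Type} [Group L] {l : V → V → L} (hl : Univ G U l) :
    Univ G' U' fun x y => l (f x) (f y) := by
  refine ⟨h.pull hl.1, fun H _ η' hη => ?_⟩
  obtain ⟨η, β, h1, h2⟩ := h.desc hη
  obtain ⟨θ, γ, h3⟩ := hl.2 H η h1
  refine ⟨θ, fun x => γ (f x) * β x, fun x hx y hy r => ?_⟩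
  rw [h2 x hx y hy r, h3 _ (h.mem x hx) _ (h.mem y hy) (ctb_map h hx r)]
  group

theorem Contr.free (h : Contr G' G U' U f) {g : ℕ} (hf : Free G U g) : Free G' U' g := by
  obtain ⟨l, hl⟩ := hf
  exact ⟨_, h.univ hl⟩

theorem Contr.genN (h : Contr G' G U' U f) {n : ℕ} (hg : GenN G U n) : GenN G' U' n := by
  intro H _ η' hη
  obtain ⟨η, β, h1, h2⟩ := h.desc hη
  obtain ⟨γ, g, h3⟩ := hg H η h1
  refine ⟨fun x => γ (f x) * β x, g, fun x hx y hy r => ?_⟩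
  convert h3 _ (h.mem x hx) _ (h.mem y hy) (ctb_map h hx r) using 1
  rw [h2 x hx y hy r]
  group

theorem ctb_desc (h : Contr G' G U' U f) {η' : V' → V' → ZMod 2} (hη : Coc G' U' η') :
    ∃ (η : V → V → ZMod 2) (β : V' → ZMod 2), Coc G U η ∧
      ∀ x ∈ U', ∀ y ∈ U', G'.r x y → η' x y = η (f x) (f y) + (β x + β y) := by
  obtain ⟨η, β, h1, h2⟩ := h.desc (coc_iff_flat.1 hη)
  refine ⟨fun a b => (η a b).toAdd, fun x => (β x).toAdd, coc_iff_flat.2 h1, fun x hx y hy r => ?_⟩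
  have := congrArg Multiplicative.toAdd (h2 x hx y hy r)
  simp only [toAdd_ofAdd, toAdd_mul, toAdd_inv, ZMod.neg_eq_self_mod_two] at this
  linear_combination this

theorem Contr.b1le (h : Contr G' G U' U f) {n : ℕ} (hb : B1le G U n) : B1le G' U' n := by
  obtain ⟨g, hg⟩ := hb
  refine ⟨fun i x y => g i (f x) (f y), fun η' hη => ?_⟩
  obtain ⟨η, β, h1, h2⟩ := ctb_desc h hη
  obtain ⟨t, γ, h3⟩ := hg η h1
  refine ⟨t, fun x => γ (f x) + β x, fun x hx y hy r => ?_⟩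
  have := h3 _ (h.mem x hx) _ (h.mem y hy) (ctb_map h hx r)
  dsimp only at this ⊢
  linear_combination this + h2 x hx y hy r

theorem Contr.cob (h : Contr G' G U' U f) {η : V → V → ZMod 2} (hη : Coc G U η)
    (hc : Cob G' U' fun x y => η (f x) (f y)) : Cob G U η := by
  obtain ⟨g, hg⟩ := hc
  obtain ⟨β, hβ⟩ := h.refl_gauge (coc_iff_flat.1 hη) (η₂ := fun _ _ => 1)
    (fun _ _ _ _ _ _ _ _ _ => mul_one 1) (β' := fun x => Multiplicative.ofAdd (g x))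
    fun x hx y hy r => by
      rw [mul_one, ← ofAdd_neg, ← ofAdd_add, ZMod.neg_eq_self_mod_two]
      exact congrArg _ (hg x hx y hy r)
  refine ⟨fun a => (β a).toAdd, fun a ha b hb r => ?_⟩
  have := congrArg Multiplicative.toAdd (hβ a ha b hb r)
  simpa [ZMod.neg_eq_self_mod_two] using this

theorem Contr.h1 (h : Contr G' G U' U f) : H1 G' U' ↔ H1 G U := by
  refine ⟨fun h1 η hη => h.cob hη (h1 _ (coc_iff_flat.2 (h.pull (coc_iff_flat.1 hη)))),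
    fun h1 η' hη => ?_⟩
  obtain ⟨η, β, h2, h3⟩ := ctb_desc h hη
  obtain ⟨γ, h4⟩ := h1 η h2
  refine ⟨fun x => γ (f x) + β x, fun x hx y hy r => ?_⟩
  linear_combination h4 _ (h.mem x hx) _ (h.mem y hy) (ctb_map h hx r) + h3 x hx y hy r

theorem Contr.kc [Fintype V] (h : Contr G' G U' U f) : kc G' U' = kc G U := by
  refine kc_eq_of_map f h.mem (fun b hb => ?_) fun a ha b hb => ctb_rch h ha hb
  obtain ⟨x, hx, -, -, -, rfl, -⟩ := ctb_lift2 h hb hb (G.refl b)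
  exact ⟨x, hx, Relation.ReflTransGen.refl⟩

theorem Contr.conn (h : Contr G' G U' U f) : Conn G' U' ↔ Conn G U := by
  refine ⟨fun hc a ha b hb => ?_,
    fun hc x hx y hy => (ctb_rch h hx hy).2 (hc _ (h.mem x hx) _ (h.mem y hy))⟩
  obtain ⟨x, hx, -, -, -, rfl, -⟩ := ctb_lift2 h ha ha (G.refl a)
  obtain ⟨y, hy, -, -, -, rfl, -⟩ := ctb_lift2 h hb hb (G.refl b)
  exact (ctb_rch h hx hy).1 (hc x hx y hy)

theorem Contr.chi [Fintype V] (h : Contr G' G U' U f) : chi G' U' = chi G U := by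
  have h1 : ∀ s : Finset V, (if Clq G s ∧ Ins s U then (-1 : ℤ) ^ (s.card + 1) else 0) =
      ∑ s' : Finset V', if s = s'.image f then
        (if Clq G' s' ∧ Ins s' U' then (-1 : ℤ) ^ (s'.card + 1) else 0) else 0 := by
    intro s
    have him : ∀ s' : Finset V', Img f s' s ↔ s = s'.image f := fun s' => by
      simp only [Img, Finset.ext_iff, Finset.mem_image]
    split_ifs with hs
    · obtain ⟨a, ha⟩ := hs.1.1
      rw [pow_succ, ← h.eul s hs.1 ⟨a, ha, hs.2 a ha⟩, Finset.sum_mul]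
      refine Finset.sum_congr rfl fun s' _ => ?_
      rw [← ite_and, ite_mul, zero_mul, pow_succ]
      refine if_congr ?_ rfl rfl
      rw [him]
      constructor
      · rintro ⟨a1, ⟨u, hu, hu'⟩, rfl⟩
        exact ⟨rfl, a1, fun x hx => by_contra fun n =>
          h.nmem u hu' x (a1.2 u hu x hx) n (hs.2 _ (Finset.mem_image_of_mem f hx))⟩
      · rintro ⟨e, a1, a2⟩
        obtain ⟨u, hu⟩ := a1.1
        exact ⟨a1, ⟨u, hu, a2 u hu⟩, e⟩
    · refine (Finset.sum_eq_zero fun s' _ => ?_).symm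
      rw [← ite_and, if_neg]
      rintro ⟨rfl, a1, a2⟩
      refine hs ⟨⟨a1.1.image f, ?_⟩, ?_⟩
      · simp only [Finset.forall_mem_image]
        exact fun x hx y hy => ctb_map h (a2 x hx) (a1.2 x hx y hy)
      · intro b hb
        obtain ⟨x, hx, rfl⟩ := Finset.mem_image.1 hb
        exact h.mem x (a2 x hx)
  unfold KG.chi
  rw [Finset.sum_congr rfl fun s _ => h1 s, Finset.sum_comm]
  simp only [Finset.sum_ite_eq', Finset.mem_univ, if_true]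

end KG
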