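import Pool.Agent.Work.MP_c146e2_gt.KG.Chi

set_option autoImplicit false

noncomputable section

open scoped Classical

namespace KG

variable {V V' : Type}

theorem Contr.restrict [Fintype V'] {G' : Cx V'} {G : Cx V} {U' : Set V'} {U : Set V} {f : V' → V}
    (h : Contr G' G U' U f) {W : Set V} (hW : W ⊆ U) : Contr G' G (U' ∩ f ⁻¹' W) W f := by
  obtain ⟨R, p, h1, h2, ⟨rk, h3⟩, h4, h5⟩ := h.fib
  have hd : ∀ v, v ∈ (U' ∩ f ⁻¹' W) \ (R ∩ f ⁻¹' W) ↔ v ∈ U' \ R ∧ f v ∈ W := fun v => by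
    simp only [Set.mem_sdiff, Set.mem_inter_iff, Set.mem_preimage]
    tauto
  refine ⟨fun x hx => hx.2, fun u hu x hx hn hw => ?_, fun u hu => h.map u hu.1, fun s hs hm => ?_,
    ⟨R ∩ f ⁻¹' W, p, Set.inter_subset_inter_left _ h1, h2.mono Set.inter_subset_left,
      ⟨rk, fun v hv => ?_⟩, fun x hx => h4 x ((hd x).1 hx).1, fun x hx y hy hr e => ?_⟩,
    fun x hx x' hx' y y' a1 a2 a3 a4 a5 => ?_⟩
  · exact h.nmem u hu.1 x hx (fun hx' => hn ⟨hx', hw⟩) (hW hw)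
  · obtain ⟨w, hw, hw'⟩ := hm
    rw [← h.eul s hs ⟨w, hw, hW hw'⟩]
    refine Finset.sum_congr rfl fun s' _ => if_congr (and_congr_right fun hc =>
      and_congr_left fun hi => ⟨fun ⟨a, ha, ha'⟩ => ⟨a, ha, ha'.1⟩, fun ⟨u, hu, hu'⟩ => ?_⟩) rfl rfl
    obtain ⟨a, ha, rfl⟩ := (hi w).1 hw
    exact ⟨a, ha, by_contra fun hn => h.nmem u hu' a (hc.2 u hu a ha) hn (hW hw'), hw'⟩
  · obtain ⟨a1, a2⟩ := (hd v).1 hv
    exact ⟨⟨(h3 v a1).1, (congrArg (· ∈ W) (h4 v a1)).mpr a2⟩, (h3 v a1).2.1,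
      fun hp => (h3 v a1).2.2 ((hd _).1 hp).1⟩
  · have hc : ∀ {a b}, Cl G' (par (U' \ R) p) a b → f a = f b := fun hab =>
      Cl.const (fun a b hab => by rw [hab.2, h4 a hab.1]) hab
    have key : ∀ {a b}, Cl G' (par (U' \ R) p) a b → f a ∈ W →
        Cl G' (par ((U' ∩ f ⁻¹' W) \ (R ∩ f ⁻¹' W)) p) a b := by
      intro a b hab
      induction hab with
      | base hp => exact fun ha => Cl.base ⟨(hd _).2 ⟨hp.1, ha⟩, hp.2⟩
      | refl a => exact fun _ => Cl.refl a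
      | symm hab ih => exact fun hb => (ih (hc hab ▸ hb)).symm
      | tri r1 r2 r3 hab _ ih ih' => exact fun ha => Cl.tri r1 r2 r3 (ih ha) (ih' (hc hab ▸ ha))
    exact key (h5 x hx.1 y hy.1 hr e) hx.2
  · have key : ∀ e, Relation.ReflTransGen (EStep G' U' f) (x, y) e → f e.1 ∈ W ∧
        Relation.ReflTransGen (EStep G' (U' ∩ f ⁻¹' W) f) (x, y) e := by
      intro e he
      induction he with
      | refl => exact ⟨hx.2, Relation.ReflTransGen.refl⟩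
      | tail _ hs ih =>
        have hw := hs.2.2.2.2.1 ▸ ih.1
        exact ⟨hw, ih.2.tail ⟨⟨hs.1, ih.1⟩, ⟨hs.2.1, hw⟩, hs.2.2⟩⟩
    exact (key _ (h.econn x hx.1 x' hx'.1 y y' a1 a2 a3 a4 a5)).2

theorem ctc_img {f : V' → V} {s' : Finset V'} {s : Finset V} : Img f s' s ↔ s = s'.image f := by
  simp only [Img, Finset.ext_iff, Finset.mem_image]

theorem ctc_eul [Fintype V'] {G' : Cx V'} {G : Cx V} {U' : Set V'} {U : Set V} {f : V' → V}
    (hc : ∀ u ∈ U', ∀ x, G'.r u x → x ∈ U')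
    (h : ∀ s : Finset V, Clq G s → Ins s U → chi G' (U' ∩ f ⁻¹' (s : Set V)) = 1) (s : Finset V)
    (hs : Clq G s) (hm : Ins s U) :
    (∑ s' : Finset V', if Clq G' s' ∧ Meets s' U' ∧ Img f s' s then (-1 : ℤ) ^ s'.card else 0) =
      (-1) ^ s.card := by
  induction s using Finset.strongInduction with
  | H s ih =>
    have h1 : ∑ r ∈ s.powerset, (∑ s' : Finset V',
        if Clq G' s' ∧ Meets s' U' ∧ Img f s' r then (-1 : ℤ) ^ s'.card else 0) = -1 := by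
      refine Eq.trans ?_ (congrArg Neg.neg (h s hs hm))
      rw [chi, Finset.sum_comm, ← Finset.sum_neg_distrib]
      refine Finset.sum_congr rfl fun s' _ => ?_
      by_cases h' : Clq G' s' ∧ Ins s' (U' ∩ f ⁻¹' (s : Set V))
      · obtain ⟨a, ha⟩ := h'.1.1
        rw [if_pos h', Finset.sum_eq_single_of_mem (s'.image f) (Finset.mem_powerset.2
          (Finset.image_subset_iff.2 fun x hx => (h'.2 x hx).2)) fun r _ hr =>
            if_neg fun k => hr (ctc_img.1 k.2.2),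
          if_pos ⟨h'.1, ⟨a, ha, (h'.2 a ha).1⟩, ctc_img.2 rfl⟩, pow_succ, mul_neg_one, neg_neg]
      · rw [if_neg h', neg_zero]
        refine Finset.sum_eq_zero fun r hr => if_neg ?_
        rintro ⟨k1, ⟨u, hu, hu'⟩, k3⟩
        exact h' ⟨k1, fun x hx => ⟨hc u hu' x (k1.2 u hu x hx),
          Finset.mem_powerset.1 hr ((k3 _).2 ⟨x, hx, rfl⟩)⟩⟩
    have h2 := Finset.sum_powerset_neg_one_pow_card_of_nonempty hs.1
    have h3 := congrArg₂ (· - ·) h1 h2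
    rw [← Finset.sum_sub_distrib, Finset.sum_eq_add_of_mem ∅ s (Finset.empty_mem_powerset s)
      (Finset.mem_powerset_self s) hs.1.ne_empty.symm fun r hr hr' => ?_,
      Finset.sum_eq_zero (s := Finset.univ) fun s' _ => if_neg ?_, Finset.card_empty] at h3
    · linarith
    · rintro ⟨⟨⟨a, ha⟩, -⟩, -, k⟩
      exact Finset.notMem_empty _ ((k _).2 ⟨a, ha, rfl⟩)
    · have hr := Finset.mem_powerset.1 hr
      exact sub_eq_zero.2 (ih r (Finset.ssubset_iff_subset_ne.2 ⟨hr, hr'.2⟩)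
        ⟨Finset.nonempty_iff_ne_empty.2 hr'.1, fun a ha b hb => hs.2 a (hr ha) b (hr hb)⟩
        fun a ha => hm a (hr ha))

theorem eul_of_chi [Fintype V'] {G' : Cx V'} {G : Cx V} {f : V' → V}
    (h : ∀ s : Finset V, Clq G s → chi G' (f ⁻¹' (s : Set V)) = 1) (s : Finset V) (hs : Clq G s) :
    (∑ s' : Finset V', if Clq G' s' ∧ Meets s' Set.univ ∧ Img f s' s then (-1 : ℤ) ^ s'.card
      else 0) = (-1) ^ s.card := by
  exact ctc_eul (U' := Set.univ) (U := Set.univ) (fun _ _ _ _ => Set.mem_univ _)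
    (fun s hs _ => by rw [Set.univ_inter, h s hs]) s hs fun _ _ => Set.mem_univ _

/-- The same relative to a set `U'` of valid vertices. -/
theorem eul_of_chi' [Fintype V'] {G' : Cx V'} {G : Cx V} {U' : Set V'} {U : Set V} {f : V' → V}
    (hc : ∀ u ∈ U', ∀ x, G'.r u x → x ∈ U') (hU : ∀ u ∈ U, ∀ x, G.r u x → x ∈ U)
    (h : ∀ s : Finset V, Clq G s → Ins s U → chi G' (U' ∩ f ⁻¹' (s : Set V)) = 1) (s : Finset V)
    (hs : Clq G s) (hm : Meets s U) :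
    (∑ s' : Finset V', if Clq G' s' ∧ Meets s' U' ∧ Img f s' s then (-1 : ℤ) ^ s'.card else 0) =
      (-1) ^ s.card := by
  obtain ⟨u, hu, hu'⟩ := hm
  exact ctc_eul hc h s hs fun x hx => hU u hu' x (hs.2 u hu x hx)

section star

variable {G' : Cx V'} {G : Cx V} {f : V' → V} {x : V'}

theorem ctc_image (h : StarIso G' G f x) {s' : Finset V'} (hs : Clq G' s') (hx : x ∈ s') :
    Clq G (s'.image f) ∧ (s'.image f).card = s'.card := by
  refine ⟨⟨hs.1.image f, fun a ha b hb => ?_⟩, Finset.card_image_of_injOn fun a ha b hb e =>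
    h.inj a b (hs.2 x hx a ha) (hs.2 x hx b hb) e⟩
  obtain ⟨a', ha', rfl⟩ := Finset.mem_image.1 ha
  obtain ⟨b', hb', rfl⟩ := Finset.mem_image.1 hb
  exact (h.adj a' b' (hs.2 x hx a' ha') (hs.2 x hx b' hb')).1 (hs.2 a' ha' b' hb')

theorem ctc_lift [Fintype V'] (h : StarIso G' G f x) {s : Finset V} (hs : Clq G s) (hx : f x ∈ s) :
    ∃ s', Clq G' s' ∧ x ∈ s' ∧ s = s'.image f ∧
      ∀ t, Clq G' t → x ∈ t → s = t.image f → t = s' := by
  have hm : ∀ y, y ∈ Finset.univ.filter (fun y => G'.r x y ∧ f y ∈ s) ↔ G'.r x y ∧ f y ∈ s := by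
    simp
  refine ⟨Finset.univ.filter fun y => G'.r x y ∧ f y ∈ s, ⟨⟨x, (hm x).2 ⟨G'.refl x, hx⟩⟩,
    fun a ha b hb => ?_⟩, (hm x).2 ⟨G'.refl x, hx⟩, Finset.ext fun b => ?_, fun t ht hxt e =>
      Finset.ext fun y => ?_⟩
  · rw [hm] at ha hb
    exact (h.adj a b ha.1 hb.1).2 (hs.2 _ ha.2 _ hb.2)
  · rw [Finset.mem_image]
    refine ⟨fun hb => ?_, fun ⟨a, ha, e⟩ => e ▸ ((hm a).1 ha).2⟩
    obtain ⟨y, hy, rfl⟩ := h.sur b (hs.2 _ hx b hb)
    exact ⟨y, (hm y).2 ⟨hy, hb⟩, rfl⟩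
  · rw [hm, e]
    refine ⟨fun hy => ⟨ht.2 x hxt y hy, Finset.mem_image_of_mem f hy⟩, fun hy => ?_⟩
    obtain ⟨a, ha, e'⟩ := Finset.mem_image.1 hy.2
    exact h.inj a y (ht.2 x hxt a ha) hy.1 e' ▸ ha

theorem ctc_lk [Fintype V] [Fintype V'] (h : StarIso G' G f x) {s' : Finset V'} (hs : Clq G' s')
    (hx : x ∈ s') : (lk G' s').ncard = (lk G (s'.image f)).ncard ∧
      ((lk G' s').Nonempty ∧ Conn G' (lk G' s') ↔
        (lk G (s'.image f)).Nonempty ∧ Conn G (lk G (s'.image f))) ∧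
      chi G' (lk G' s') = chi G (lk G (s'.image f)) := by
  have h0 : ∀ w ∈ lk G' s', G'.r x w := fun w hw => G'.symm _ _ (hw.2 x hx)
  have hr : ∀ a ∈ lk G' s', ∀ b ∈ lk G' s', G'.r a b ↔ G.r (f a) (f b) := fun a ha b hb =>
    h.adj a b (h0 a ha) (h0 b hb)
  have hb : Set.BijOn f (lk G' s') (lk G (s'.image f)) := by
    refine ⟨fun w hw => ⟨fun k => ?_, fun b hb => ?_⟩,
      fun a ha b hb e => h.inj a b (h0 a ha) (h0 b hb) e, fun b hb => ?_⟩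
    · obtain ⟨a, ha, e⟩ := Finset.mem_image.1 k
      exact hw.1 (h.inj a w (hs.2 x hx a ha) (h0 w hw) e ▸ ha)
    · obtain ⟨a, ha, rfl⟩ := Finset.mem_image.1 hb
      exact (h.adj w a (h0 w hw) (hs.2 x hx a ha)).1 (hw.2 a ha)
    · obtain ⟨y, hy, rfl⟩ := h.sur b (G.symm _ _ (hb.2 _ (Finset.mem_image_of_mem f hx)))
      exact ⟨y, ⟨fun k => hb.1 (Finset.mem_image_of_mem f k), fun a ha =>
        (h.adj y a hy (hs.2 x hx a ha)).2 (hb.2 _ (Finset.mem_image_of_mem f ha))⟩, rfl⟩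
  refine ⟨by rw [← hb.image_eq, hb.injOn.ncard_image],
    and_congr (by rw [← hb.image_eq, Set.image_nonempty]) ⟨fun k => ?_, fun k => ?_⟩,
    chi_iso hb hr⟩
  · rw [← hb.image_eq]
    exact k.image fun a ha b hb => (hr a ha b hb).1
  · have : Nonempty V' := ⟨x⟩
    have hi := hb.invOn_invFunOn
    have hb' := hb.symm hi.symm
    rw [← hb'.image_eq]
    refine k.image fun a ha b hb'' e => (hr _ (hb'.mapsTo ha) _ (hb'.mapsTo hb'')).2 ?_
    rwa [hi.2 ha, hi.2 hb'']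

end star

theorem LocIso.contr [Fintype V'] {G' : Cx V'} {G : Cx V} {U' : Set V'} {U : Set V} {f : V' → V}
    (h : LocIso G' G U' U f) : Contr G' G U' U f := by
  refine ⟨h.bij.mapsTo, h.nmem, fun u hu x y hx hy => ((h.star u hu).adj x y hx hy).1,
    fun s hs ⟨b, hb, hb'⟩ => ?_, ⟨U', id, le_rfl, h.bij.injOn, ⟨fun _ => 0, fun v hv =>
      absurd hv.1 hv.2⟩, fun _ _ => rfl, fun x hx y hy _ e => h.bij.injOn hx hy e ▸ Cl.refl x⟩,
    fun x hx x' hx' y y' a1 a2 a3 a4 _ => ?_⟩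
  · obtain ⟨u, hu, rfl⟩ := h.bij.surjOn hb'
    obtain ⟨s', a1, a2, a3, a4⟩ := ctc_lift (h.star u hu) hs hb
    rw [Finset.sum_eq_single_of_mem s' (Finset.mem_univ _) fun t _ ht => if_neg ?_,
      if_pos ⟨a1, ⟨u, a2, hu⟩, ctc_img.2 a3⟩, a3, (ctc_image (h.star u hu) a1 a2).2]
    rintro ⟨k1, ⟨v, hv, hv'⟩, k3⟩
    obtain ⟨a, ha, e⟩ := (k3 _).1 hb
    have ha' : a ∈ U' := by_contra fun hn => h.nmem v hv' a (k1.2 v hv a ha) hn (e ▸ hb')
    exact ht (a4 t k1 (h.bij.injOn ha' hu e ▸ ha) (ctc_img.1 k3))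
  · obtain rfl := h.bij.injOn hx hx' a3
    obtain rfl := (h.star x hx).inj y y' a1 a2 a4
    exact Relation.ReflTransGen.refl

theorem ctc_one (G : Cx V) (v : V) : Clq G {v} :=
  ⟨Finset.singleton_nonempty v, fun a ha b hb => by
    rw [Finset.mem_singleton.1 ha, Finset.mem_singleton.1 hb]
    exact G.refl v⟩

theorem man_pull [Fintype V] [Fintype V'] {G' : Cx V'} {G : Cx V} {U' : Set V'} {U : Set V}
    {f : V' → V} (h : ∀ x ∈ U', f x ∈ U ∧ StarIso G' G f x) (hm : Man G U) : Man G' U' := by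
  refine ⟨⟨fun s hs ⟨x, hx, hx'⟩ => ?_, fun s hs ⟨x, hx, hx'⟩ hc => ?_,
    fun s hs ⟨x, hx, hx'⟩ hc => ?_⟩, fun v hv => ?_⟩
  · obtain ⟨a1, a2⟩ := ctc_image (h x hx').2 hs hx
    exact a2 ▸ hm.dim _ a1 ⟨_, Finset.mem_image_of_mem f hx, (h x hx').1⟩
  · obtain ⟨a1, a2⟩ := ctc_image (h x hx').2 hs hx
    exact (ctc_lk (h x hx').2 hs hx).1.trans
      (hm.tri _ a1 ⟨_, Finset.mem_image_of_mem f hx, (h x hx').1⟩ (a2.trans hc))
  · obtain ⟨a1, a2⟩ := ctc_image (h x hx').2 hs hx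
    exact (ctc_lk (h x hx').2 hs hx).2.1.2
      (hm.con _ a1 ⟨_, Finset.mem_image_of_mem f hx, (h x hx').1⟩ (a2.trans_le hc))
  · rw [(ctc_lk (h v hv).2 (ctc_one G' v) (Finset.mem_singleton_self v)).2.2,
      Finset.image_singleton]
    exact hm.sph _ (h v hv).1

theorem man_push [Fintype V] [Fintype V'] {G' : Cx V'} {G : Cx V} {U' : Set V'} {U : Set V}
    {f : V' → V} (h : ∀ u ∈ U, ∃ x ∈ U', f x = u ∧ StarIso G' G f x) (hm : Man G' U') :
    Man G U := by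
  have key : ∀ s, Clq G s → Meets s U → ∃ x s', StarIso G' G f x ∧ Clq G' s' ∧ x ∈ s' ∧
      Meets s' U' ∧ s = s'.image f ∧ s.card = s'.card := by
    rintro s hs ⟨u, hu, hu'⟩
    obtain ⟨x, hx, rfl, hst⟩ := h u hu'
    obtain ⟨s', a1, a2, a3, -⟩ := ctc_lift hst hs hu
    exact ⟨x, s', hst, a1, a2, ⟨x, a2, hx⟩, a3, a3 ▸ (ctc_image hst a1 a2).2⟩
  refine ⟨⟨fun s hs hU => ?_, fun s hs hU hc => ?_, fun s hs hU hc => ?_⟩, fun v hv => ?_⟩
  · obtain ⟨x, s', -, a1, -, a3, -, a5⟩ := key s hs hU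
    exact a5 ▸ hm.dim _ a1 a3
  · obtain ⟨x, s', a0, a1, a2, a3, rfl, a5⟩ := key s hs hU
    exact (ctc_lk a0 a1 a2).1.symm.trans (hm.tri _ a1 a3 (a5.symm.trans hc))
  · obtain ⟨x, s', a0, a1, a2, a3, rfl, a5⟩ := key s hs hU
    exact (ctc_lk a0 a1 a2).2.1.1 (hm.con _ a1 a3 (a5.symm.trans_le hc))
  · obtain ⟨x, hx, rfl, hst⟩ := h v hv
    rw [← Finset.image_singleton,
      ← (ctc_lk hst (ctc_one G' x) (Finset.mem_singleton_self x)).2.2]
    exact hm.sph x hx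

end KG
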