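import Pool.Agent.Work.MP_c146e2_gt.KG.Bas

set_option autoImplicit false

noncomputable section

open scoped Classical

namespace KG

variable {V V' : Type}

/-- The simplices with `k` vertices inside `S`. -/
def linS (G : Cx V) (S : Set V) (k : ℕ) : Type :=
  {s : Finset V // Clq G s ∧ Ins s S ∧ s.card = k}

instance lin_fintype [Fintype V] (G : Cx V) (S : Set V) (k : ℕ) : Fintype (linS G S k) :=
  inferInstanceAs (Fintype {s : Finset V // Clq G s ∧ Ins s S ∧ s.card = k})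

/-- The incidence matrix. -/
def linM (G : Cx V) (S : Set V) (k : ℕ) : Matrix (linS G S (k + 1)) (linS G S k) (ZMod 2) :=
  fun t s => if s.1 ⊆ t.1 then 1 else 0

/-- Extension by zero. -/
def linE {G : Cx V} {S : Set V} {k : ℕ} (g : linS G S k → ZMod 2) (s : Finset V) : ZMod 2 :=
  if h : Clq G s ∧ Ins s S ∧ s.card = k then g ⟨s, h⟩ else 0

/-- Sum over the vertices. -/
def linV (G : Cx V) (S : Set V) (k : ℕ) : (V → ZMod 2) →ₗ[ZMod 2] linS G S k → ZMod 2 where
  toFun f s := ∑ v ∈ s.1, f v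
  map_add' _ _ := funext fun _ => Finset.sum_add_distrib
  map_smul' _ _ := funext fun _ => (Finset.mul_sum _ _ _).symm

theorem lin_add_self (x : ZMod 2) : x + x = 0 := CharTwo.add_self_eq_zero x

theorem lin_one {x : ZMod 2} (h : x ≠ 0) : x = 1 := by
  revert x
  decide

section

variable {G : Cx V} {S : Set V}

theorem linE_val {k : ℕ} (g : linS G S k → ZMod 2) (s : linS G S k) : linE g s.1 = g s :=
  dif_pos s.2

theorem linE_ne {k : ℕ} {g : linS G S k → ZMod 2} {s : Finset V} (h : linE g s ≠ 0) :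
    Clq G s ∧ Ins s S ∧ s.card = k := by
  by_contra e
  exact h (dif_neg e)

theorem lin_vtx {a : V} (ha : a ∈ S) : Clq G {a} ∧ Ins {a} S ∧ ({a} : Finset V).card = 1 :=
  ⟨⟨Finset.singleton_nonempty a, by simpa using G.refl a⟩, by simpa [Ins] using ha, rfl⟩

theorem lin_edge {a b : V} (ha : a ∈ S) (hb : b ∈ S) (h : G.r a b) (hn : a ≠ b) :
    Clq G {a, b} ∧ Ins {a, b} S ∧ ({a, b} : Finset V).card = 2 :=
  ⟨⟨Finset.insert_nonempty _ _, by simp [G.refl, h, G.symm _ _ h]⟩, by simp [Ins, ha, hb],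
    Finset.card_pair hn⟩

theorem lin_tri {e : Finset V} {w : V} (he : Clq G e) (hi : Ins e S) (h2 : e.card = 2)
    (hw : w ∈ lk G e ∩ S) :
    Clq G (insert w e) ∧ Ins (insert w e) S ∧ (insert w e).card = 3 := by
  refine ⟨⟨Finset.insert_nonempty _ _, fun a ha b hb => ?_⟩, fun a ha => ?_,
    by rw [Finset.card_insert_of_notMem hw.1.1, h2]⟩
  · rcases Finset.mem_insert.1 ha with h1 | h1 <;> rcases Finset.mem_insert.1 hb with h3 | h3
    · rw [h1, h3]
      exact G.refl _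
    · exact h1 ▸ hw.1.2 b h3
    · exact h3 ▸ G.symm _ _ (hw.1.2 a h1)
    · exact he.2 a h1 b h3
  · rcases Finset.mem_insert.1 ha with rfl | ha
    · exact hw.2
    · exact hi a ha

theorem lin_lk {a b c : V} (hc : c ∈ S) (h1 : G.r c a) (h2 : G.r c b) (n1 : c ≠ a) (n2 : c ≠ b) :
    c ∈ lk G {a, b} ∩ S := ⟨⟨by simp [n1, n2], by simp [h1, h2]⟩, hc⟩

theorem lin_lk1 {a c : V} : c ∈ lk G {a} ↔ c ≠ a ∧ G.r c a := by simp [lk]

theorem lin_edge_cases (e : linS G S 2) : ∃ a ∈ S, ∃ b ∈ S, G.r a b ∧ a ≠ b ∧ e.1 = {a, b} := by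
  obtain ⟨a, b, hn, h⟩ := Finset.card_eq_two.1 e.2.2.2
  exact ⟨a, e.2.2.1 a (by simp [h]), b, e.2.2.1 b (by simp [h]),
    e.2.1.2 a (by simp [h]) b (by simp [h]), hn, h⟩

theorem lin_tri_cases {t : Finset V} (ht : Clq G t ∧ Ins t S ∧ t.card = 3) {a : V} (ha : a ∈ t) :
    ∃ b ∈ S, ∃ c ∈ S, G.r a b ∧ G.r b c ∧ G.r a c ∧ a ≠ b ∧ b ≠ c ∧ a ≠ c ∧ t = {c, a, b} := by
  obtain ⟨b, c, hn, h⟩ := Finset.card_eq_two.1
    (show (t.erase a).card = 2 by rw [Finset.card_erase_of_mem ha, ht.2.2])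
  have hb : b ∈ t.erase a := by simp [h]
  have hc : c ∈ t.erase a := by simp [h]
  rw [Finset.mem_erase] at hb hc
  refine ⟨b, ht.2.1 b hb.2, c, ht.2.1 c hc.2, ht.1.2 a ha b hb.2, ht.1.2 b hb.2 c hc.2,
    ht.1.2 a ha c hc.2, hb.1.symm, hn, hc.1.symm, ?_⟩
  rw [← Finset.insert_erase ha, h]
  ext x
  simp only [Finset.mem_insert, Finset.mem_singleton]
  tauto

theorem linE_V1 (f : V → ZMod 2) {a : V} (ha : a ∈ S) : linE (linV G S 1 f) {a} = f a :=
  (linE_val (linV G S 1 f) ⟨{a}, lin_vtx ha⟩).trans (Finset.sum_singleton _ _)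

theorem lin_sub {T : Set (Finset V)} (hT : ∀ s ∈ T, Clq G s ∧ Ins s S ∧ s.card = 3)
    {e : Finset V} (h2 : e.card = 2) :
    {s | s ∈ T ∧ e ⊆ s} ⊆ (fun w => insert w e) '' (lk G e ∩ S) := by
  rintro s ⟨hs, hes⟩
  obtain ⟨h1, h3, h4⟩ := hT s hs
  obtain ⟨a, ha, rfl⟩ := Finset.exists_eq_insert_iff.2 ⟨hes, by rw [h2, h4]⟩
  exact ⟨a, ⟨⟨ha, fun x hx => h1.2 a (Finset.mem_insert_self _ _) x (hes hx)⟩,
    h3 a (Finset.mem_insert_self _ _)⟩, rfl⟩

theorem lin_even {T : Set (Finset V)} {e : Finset V} (h : ∀ s ∈ T, ¬ e ⊆ s) :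
    Even {s | s ∈ T ∧ e ⊆ s}.ncard := by
  rw [show {s | s ∈ T ∧ e ⊆ s} = ∅ from Set.eq_empty_of_forall_notMem fun s hs => h s hs.1 hs.2,
    Set.ncard_empty]
  exact Even.zero

/-- Membership in `T` is constant on the triangles over an edge. -/
def linH (G : Cx V) (S : Set V) (T : Set (Finset V)) : Prop :=
  ∀ e, Clq G e → Ins e S → e.card = 2 → ∀ u ∈ lk G e ∩ S, ∀ w ∈ lk G e ∩ S,
    insert u e ∈ T → insert w e ∈ T

theorem lin_prop {T : Set (Finset V)} (hT : ∀ s ∈ T, Clq G s ∧ Ins s S ∧ s.card = 3)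
    (hH : linH G S T) {v c : V} (hv : Conn G (lk G {v} ∩ S)) (hc : c ∈ lk G {v} ∩ S)
    (h : ∃ t ∈ T, v ∈ t) : ∃ d ∈ lk G {v, c} ∩ S, insert d {v, c} ∈ T := by
  obtain ⟨t, ht, hvt⟩ := h
  have hvS := (hT t ht).2.1 v hvt
  obtain ⟨a, ha, b, hb, r1, r2, r3, n1, n2, n3, rfl⟩ := lin_tri_cases (hT t ht) hvt
  have h1 := hv a ⟨lin_lk1.2 ⟨n1.symm, G.symm _ _ r1⟩, ha⟩ c hc
  clear hc
  induction h1 with
  | refl => exact ⟨b, lin_lk hb (G.symm _ _ r3) (G.symm _ _ r2) n3.symm n2.symm, ht⟩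
  | @tail c' c _ h2 ih =>
    by_cases e : c' = c
    · exact e ▸ ih
    · obtain ⟨d, hd, hdT⟩ := ih
      obtain ⟨⟨p1, p2⟩, ⟨p3, p4⟩, p5⟩ := h2
      rw [lin_lk1] at p1 p3
      obtain ⟨q1, q2, q3⟩ := lin_edge hvS p2 (G.symm _ _ p1.2) p1.1.symm
      have h3 := hH _ q1 q2 q3 d hd c (lin_lk p4 p3.2 (G.symm _ _ p5) p3.1 (Ne.symm e)) hdT
      refine ⟨c', lin_lk p2 p1.2 p5 p1.1 e, ?_⟩
      rwa [Finset.insert_comm, Finset.pair_comm c, ← Finset.insert_comm] at h3

theorem lin_rch {T : Set (Finset V)} (hT : ∀ s ∈ T, Clq G s ∧ Ins s S ∧ s.card = 3)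
    (hH : linH G S T) (hv : ∀ v ∈ S, Conn G (lk G {v} ∩ S)) {a b : V} (h : Rch G S a b)
    (ha : ∃ t ∈ T, a ∈ t) : ∃ t ∈ T, b ∈ t := by
  induction h with
  | refl => exact ha
  | @tail c' c _ h2 ih =>
    by_cases e : c = c'
    · exact e ▸ ih
    · obtain ⟨d, -, hd⟩ := lin_prop hT hH (hv c' h2.1)
        ⟨lin_lk1.2 ⟨e, G.symm _ _ h2.2.2⟩, h2.2.1⟩ ih
      exact ⟨_, hd, by simp⟩

variable [Fintype V]

theorem lin_two {T : Set (Finset V)} {e s : Finset V} (h : Even {s | s ∈ T ∧ e ⊆ s}.ncard)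
    (hs : s ∈ T) (hes : e ⊆ s) : 2 ≤ {s | s ∈ T ∧ e ⊆ s}.ncard :=
  Nat.le_of_dvd ((Set.ncard_pos (Set.toFinite _)).2 ⟨s, hs, hes⟩) h.two_dvd

theorem lin_H (h : Thin G S) {T : Set (Finset V)} (hT : ∀ s ∈ T, Clq G s ∧ Ins s S ∧ s.card = 3)
    (hE : ∀ e, Clq G e → Ins e S → e.card = 2 → Even {s | s ∈ T ∧ e ⊆ s}.ncard) :
    linH G S T := by
  intro e h1 h2 h3 u _ w hw hu
  have h4 := Set.eq_of_subset_of_ncard_le (lin_sub hT h3)
    (((Set.ncard_image_le (Set.toFinite _)).trans (h.edg e h1 h2 h3)).trans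
      (lin_two (hE e h1 h2 h3) hu (Finset.subset_insert _ _))) (Set.toFinite _)
  exact (h4.ge ⟨w, hw, rfl⟩).1

theorem lin_mulVec {k : ℕ} (hk : 1 ≤ k) (g : linS G S k → ZMod 2) (t : linS G S (k + 1)) :
    (linM G S k).mulVec g t = ∑ v ∈ t.1, linE g (t.1.erase v) := by
  have h1 : ∀ v ∈ t.1, Clq G (t.1.erase v) ∧ Ins (t.1.erase v) S ∧ (t.1.erase v).card = k := by
    intro v hv
    have h2 : (t.1.erase v).card = k := by rw [Finset.card_erase_of_mem hv, t.2.2.2]; rfl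
    exact ⟨⟨Finset.card_pos.1 (by omega), fun a ha b hb => t.2.1.2 a (Finset.mem_of_mem_erase ha)
      b (Finset.mem_of_mem_erase hb)⟩, fun a ha => t.2.2.1 a (Finset.mem_of_mem_erase ha), h2⟩
  simp only [Matrix.mulVec, dotProduct, linM, ite_mul, one_mul, zero_mul]
  rw [← Finset.sum_filter]
  refine (Finset.sum_bij (fun v hv => (⟨t.1.erase v, h1 v hv⟩ : linS G S k)) ?_ ?_ ?_ ?_).symm
  · exact fun v _ => Finset.mem_filter.2 ⟨Finset.mem_univ _, Finset.erase_subset _ _⟩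
  · exact fun v hv w hw h => (Finset.erase_inj t.1 hv).1 (congrArg Subtype.val h)
  · intro s hs
    obtain ⟨a, ha, h⟩ := Finset.exists_eq_insert_iff.2
      ⟨(Finset.mem_filter.1 hs).2, by rw [s.2.2.2, t.2.2.2]⟩
    refine ⟨a, h ▸ Finset.mem_insert_self _ _, Subtype.ext ?_⟩
    change t.1.erase a = s.1
    rw [← h, Finset.erase_insert ha]
  · exact fun v hv => dif_pos (h1 v hv)

theorem lin_d0 (g : linS G S 1 → ZMod 2) (e : linS G S 2) {a b : V} (hn : a ≠ b)
    (h : e.1 = {a, b}) : (linM G S 1).mulVec g e = linE g {a} + linE g {b} := by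
  rw [lin_mulVec le_rfl, h, Finset.sum_pair hn, Finset.erase_insert (by simpa using hn),
    Finset.pair_comm, Finset.erase_insert (by simpa using hn.symm), add_comm]

theorem lin_d0' (g : linS G S 1 → ZMod 2) {a b : V} (ha : a ∈ S) (hb : b ∈ S) (h : G.r a b) :
    linE ((linM G S 1).mulVec g) {a, b} = linE g {a} + linE g {b} := by
  by_cases hn : a = b
  · rw [hn, lin_add_self]
    exact dif_neg (by simp)
  · exact (linE_val _ ⟨_, lin_edge ha hb h hn⟩).trans (lin_d0 g _ hn rfl)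

theorem lin_d1 (g : linS G S 2 → ZMod 2) (t : linS G S 3) {a b c : V} (h1 : a ≠ b) (h2 : b ≠ c)
    (h3 : a ≠ c) (h : t.1 = {c, a, b}) :
    (linM G S 2).mulVec g t = linE g {a, b} + (linE g {b, c} + linE g {a, c}) := by
  rw [lin_mulVec one_le_two, h, Finset.sum_insert (by simp [h2.symm, h3.symm]), Finset.sum_pair h1,
    Finset.erase_insert (by simp [h2.symm, h3.symm]), Finset.erase_insert_of_ne h3.symm,
    Finset.erase_insert (by simpa using h1), Finset.erase_insert_of_ne h2.symm,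
    Finset.pair_comm a b, Finset.erase_insert (by simpa using h1.symm), Finset.pair_comm c,
    Finset.pair_comm c]

theorem lin_ker0 : Module.finrank (ZMod 2) (LinearMap.ker (linM G S 1).mulVecLin) = kc G S := by
  rw [← lc_finrank, ← LinearMap.finrank_range_of_inj (f := (linV G S 1).domRestrict (LC G S))]
  · refine congrArg (fun p : Submodule (ZMod 2) _ => Module.finrank (ZMod 2) p) ?_
    ext g
    rw [LinearMap.mem_ker, LinearMap.mem_range]
    constructor
    · intro hg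
      refine ⟨⟨fun v => linE g {v}, fun a ha b hb h => ?_, fun a ha => dif_neg fun h =>
        ha (h.2.1 a (Finset.mem_singleton_self a))⟩, funext fun s => ?_⟩
      · have h1 := lin_d0' g ha hb h
        rw [show (linM G S 1).mulVec g = 0 from hg] at h1
        refine CharTwo.add_eq_zero.1 (h1.symm.trans ?_)
        unfold linE
        split_ifs <;> rfl
      · obtain ⟨a, ha⟩ := Finset.card_eq_one.1 s.2.2.2
        change ∑ v ∈ s.1, linE g {v} = g s
        rw [← linE_val g s, ha, Finset.sum_singleton]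
    · rintro ⟨f, rfl⟩
      funext e
      obtain ⟨a, ha, b, hb, h, hn, he⟩ := lin_edge_cases e
      refine (lin_d0 (linV G S 1 f) e hn he).trans ?_
      rw [linE_V1 _ ha, linE_V1 _ hb, f.2.1 a ha b hb h, lin_add_self]
      rfl
  · intro f f' h
    refine Subtype.ext (funext fun a => ?_)
    by_cases ha : a ∈ S
    · rw [← linE_V1 (G := G) f.1 ha, ← linE_V1 (G := G) f'.1 ha]
      exact congrArg (linE · {a}) h
    · rw [f.2.2 a ha, f'.2.2 a ha]

theorem lin_ker1 {g : linS G S 2 → ZMod 2} :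
    g ∈ LinearMap.ker (linM G S 2).mulVecLin ↔ Coc G S fun a b => linE g {a, b} := by
  have h0 : ∀ a, linE g {a, a} = 0 := fun a => dif_neg (by simp)
  constructor
  · intro hg a ha b hb c hc r1 r2 r3
    beta_reduce
    by_cases n1 : a = b
    · rw [n1, h0, zero_add]
    by_cases n2 : b = c
    · rw [n2, h0, add_zero]
    by_cases n3 : a = c
    · rw [n3, h0, Finset.pair_comm, lin_add_self]
    obtain ⟨q1, q2, q3⟩ := lin_edge ha hb r1 n1
    have h1 := lin_d1 g ⟨_, lin_tri q1 q2 q3 (lin_lk hc (G.symm _ _ r3) (G.symm _ _ r2)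
      (Ne.symm n3) (Ne.symm n2))⟩ n1 n2 n3 rfl
    rw [show (linM G S 2).mulVec g = 0 from hg, ← add_assoc] at h1
    exact CharTwo.add_eq_zero.1 h1.symm
  · intro h
    funext t
    obtain ⟨a, ha⟩ := t.2.1.1
    obtain ⟨b, hb, c, hc, r1, r2, r3, n1, n2, n3, ht⟩ := lin_tri_cases t.2 ha
    refine (lin_d1 g t n1 n2 n3 ht).trans ?_
    rw [← add_assoc]
    exact CharTwo.add_eq_zero.2 (h a (t.2.2.1 a ha) b hb c hc r1 r2 r3)

theorem lin_le :
    LinearMap.range (linM G S 1).mulVecLin ≤ LinearMap.ker (linM G S 2).mulVecLin := by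
  rintro _ ⟨g, rfl⟩
  refine lin_ker1.2 fun a ha b hb c hc r1 r2 r3 => ?_
  simp only [Matrix.mulVecLin_apply]
  rw [lin_d0' g ha hb r1, lin_d0' g hb hc r2, lin_d0' g ha hc r3, add_assoc,
    ← add_assoc (linE g {b}), lin_add_self, zero_add]

theorem lin_h1 :
    LinearMap.range (linM G S 1).mulVecLin = LinearMap.ker (linM G S 2).mulVecLin ↔ H1 G S := by
  constructor
  · intro h η hη
    choose x hx y hy hr hn he using lin_edge_cases (G := G) (S := S)
    have h1 : ∀ a ∈ S, ∀ b ∈ S, G.r a b → linE (fun e => η (x e) (y e)) {a, b} = η a b := by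
      intro a ha b hb r
      by_cases n : a = b
      · rw [n, hη.self hb]
        exact dif_neg (by simp)
      · have h2 := he ⟨_, lin_edge ha hb r n⟩
        refine (linE_val (fun e => η (x e) (y e)) ⟨_, lin_edge ha hb r n⟩).trans ?_
        rcases Set.pair_eq_pair_iff.1 (show ({a, b} : Set V) = {x _, y _} by
          simpa using congrArg (fun s : Finset V => (s : Set V)) h2) with h3 | h3
        · rw [← h3.1, ← h3.2]
        · rw [← h3.1, ← h3.2, hη.symm ha hb r]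
    obtain ⟨f, hf⟩ := h.ge (lin_ker1.2 (show Coc G S fun a b =>
      linE (fun e => η (x e) (y e)) {a, b} from fun a ha b hb c hc r1 r2 r3 => by
        beta_reduce
        rw [h1 a ha b hb r1, h1 b hb c hc r2, h1 a ha c hc r3]
        exact hη a ha b hb c hc r1 r2 r3))
    refine ⟨fun v => linE f {v}, fun a ha b hb r => ?_⟩
    rw [← h1 a ha b hb r, ← hf]
    exact lin_d0' f ha hb r
  · intro h
    refine le_antisymm lin_le fun g hg => ?_
    obtain ⟨f, hf⟩ := h _ (lin_ker1.1 hg)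
    refine ⟨linV G S 1 f, funext fun e => ?_⟩
    obtain ⟨a, ha, b, hb, r, hn, he⟩ := lin_edge_cases e
    refine (lin_d0 (linV G S 1 f) e hn he).trans ?_
    rw [linE_V1 _ ha, linE_V1 _ hb, ← hf a ha b hb r, ← linE_val g e, he]

theorem lin_chi (hd : ∀ s, Clq G s → Ins s S → s.card ≤ 3) : chi G S =
    Fintype.card (linS G S 1) - Fintype.card (linS G S 2) + Fintype.card (linS G S 3) := by
  have h : ∀ k, (Fintype.card (linS G S k) : ℤ) =
      ∑ s : Finset V, if Clq G s ∧ Ins s S ∧ s.card = k then 1 else 0 := fun k => by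
    rw [Finset.sum_boole]
    exact congrArg _ (Fintype.card_of_subtype _ (by simp))
  rw [h, h, h, ← Finset.sum_sub_distrib, ← Finset.sum_add_distrib, chi]
  refine Finset.sum_congr rfl fun s _ => ?_
  by_cases hs : Clq G s ∧ Ins s S
  · have h1 := hd s hs.1 hs.2
    have h2 := Finset.card_pos.2 hs.1.1
    simp only [hs, true_and, if_true]
    obtain h3 | h3 | h3 : s.card = 1 ∨ s.card = 2 ∨ s.card = 3 := by omega
    all_goals simp [h3]
  · simp only [← and_assoc, hs, false_and, if_false]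
    rfl

theorem lin_main (hd : ∀ s, Clq G s → Ins s S → s.card ≤ 3) : ∃ x : ℕ, (x = 0 ↔ H1 G S) ∧
    chi G S + x = kc G S +
      Module.finrank (ZMod 2) (LinearMap.ker (linM G S 2).transpose.mulVecLin) := by
  have h1 := (linM G S 1).mulVecLin.finrank_range_add_finrank_ker
  have h2 := (linM G S 2).mulVecLin.finrank_range_add_finrank_ker
  have h3 := (linM G S 2).transpose.mulVecLin.finrank_range_add_finrank_ker
  have h4 : Module.finrank (ZMod 2) (LinearMap.range (linM G S 2).transpose.mulVecLin) =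
      Module.finrank (ZMod 2) (LinearMap.range (linM G S 2).mulVecLin) :=
    Matrix.rank_transpose (linM G S 2)
  rw [Module.finrank_fintype_fun_eq_card] at h1 h2 h3
  obtain ⟨x, hx⟩ := Nat.exists_eq_add_of_le (Submodule.finrank_mono (lin_le (G := G) (S := S)))
  refine ⟨x, ⟨fun h => lin_h1.1 (Submodule.eq_of_le_of_finrank_eq lin_le (by omega)),
    fun h => ?_⟩, ?_⟩
  · rw [lin_h1.2 h] at hx
    omega
  · rw [lin_chi hd, ← lin_ker0, ← h1, ← h2, ← h3, h4, hx]
    push_cast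
    ring

theorem lin_cyc {z : linS G S 3 → ZMod 2} :
    z ∈ LinearMap.ker (linM G S 2).transpose.mulVecLin ↔ ∀ e, Clq G e → Ins e S → e.card = 2 →
      Even {s | s ∈ {s | linE z s ≠ 0} ∧ e ⊆ s}.ncard := by
  have h : ∀ e : linS G S 2, (linM G S 2).transpose.mulVec z e =
      ({s | s ∈ {s | linE z s ≠ 0} ∧ e.1 ⊆ s}.ncard : ZMod 2) := fun e => by
    have h1 : {s | s ∈ {s | linE z s ≠ 0} ∧ e.1 ⊆ s} = (fun t : linS G S 3 => t.1) ''
        (Finset.univ.filter fun t : linS G S 3 => z t ≠ 0 ∧ e.1 ⊆ t.1 : Finset (linS G S 3)) := by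
      ext s
      constructor
      · rintro ⟨h2, h3⟩
        exact ⟨⟨s, linE_ne h2⟩, Finset.mem_coe.2 (Finset.mem_filter.2 ⟨Finset.mem_univ _,
          (linE_val z ⟨s, linE_ne h2⟩) ▸ h2, h3⟩), rfl⟩
      · rintro ⟨t, ht, rfl⟩
        obtain ⟨-, h2, h3⟩ := Finset.mem_filter.1 (Finset.mem_coe.1 ht)
        exact ⟨(linE_val z t).trans_ne h2, h3⟩
    rw [h1, Set.ncard_image_of_injective (f := fun t : linS G S 3 => t.1) _ Subtype.val_injective,
      Set.ncard_coe_finset, ← Finset.sum_boole]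
    refine Finset.sum_congr rfl fun t _ => ?_
    change (if e.1 ⊆ t.1 then 1 else 0) * z t = _
    by_cases h2 : z t = 0
    · simp [h2]
    · simp [lin_one h2]
  constructor
  · intro hz e h1 h2 h3
    exact ZMod.natCast_eq_zero_iff_even.1 ((h ⟨e, h1, h2, h3⟩).symm.trans (congrFun hz _))
  · exact fun hz => funext fun e =>
      (h e).trans (ZMod.natCast_eq_zero_iff_even.2 (hz e.1 e.2.1 e.2.2.1 e.2.2.2))

omit [Fintype V] in
theorem lin_V3 {f : V → ZMod 2} (hf : f ∈ LC G S) (t : linS G S 3) {a : V} (ha : a ∈ t.1) :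
    linV G S 3 f t = f a := by
  change ∑ v ∈ t.1, f v = f a
  rw [Finset.sum_congr rfl fun v hv => hf.1 v (t.2.2.1 v hv) a (t.2.2.1 a ha) (t.2.1.2 v hv a ha),
    Finset.sum_const, t.2.2.2, succ_nsmul, two_nsmul, lin_add_self, zero_add]

theorem lin_surf (h : Surf G S) :
    Module.finrank (ZMod 2) (LinearMap.ker (linM G S 2).transpose.mulVecLin) = kc G S := by
  rw [← lc_finrank, ← LinearMap.finrank_range_of_inj (f := (linV G S 3).domRestrict (LC G S))]
  · refine congrArg (fun p : Submodule (ZMod 2) _ => Module.finrank (ZMod 2) p) ?_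
    ext z
    rw [lin_cyc, LinearMap.mem_range]
    constructor
    · intro hz
      have hT : ∀ s ∈ {s | linE z s ≠ 0}, Clq G s ∧ Ins s S ∧ s.card = 3 := fun s hs => linE_ne hs
      have hH := lin_H (h.thin le_rfl) hT hz
      have hf : (fun v => if ∃ t ∈ {s | linE z s ≠ 0}, v ∈ t then (1 : ZMod 2) else 0) ∈ LC G S := by
        refine ⟨fun a ha b hb r => if_congr
          ⟨lin_rch hT hH (fun v hv => (h.vtx v hv).2) (rch_step ha hb r),
            lin_rch hT hH (fun v hv => (h.vtx v hv).2) (rch_step hb ha (G.symm _ _ r))⟩ rfl rfl,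
          fun a ha => if_neg ?_⟩
        rintro ⟨t, ht, hat⟩
        exact ha ((hT t ht).2.1 a hat)
      refine ⟨⟨_, hf⟩, funext fun t => ?_⟩
      obtain ⟨a, ha⟩ := t.2.1.1
      refine (lin_V3 hf t ha).trans ?_
      by_cases h0 : z t = 0
      · rw [h0]
        refine if_neg fun hq => ?_
        have haS := t.2.2.1 a ha
        obtain ⟨b, hb, c, hc, r1, r2, r3, n1, n2, n3, ht⟩ := lin_tri_cases t.2 ha
        obtain ⟨d, hd, hdT⟩ := lin_prop hT hH (h.vtx a haS).2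
          ⟨lin_lk1.2 ⟨n1.symm, G.symm _ _ r1⟩, hb⟩ hq
        obtain ⟨q1, q2, q3⟩ := lin_edge haS hb r1 n1
        have h3 := hH _ q1 q2 q3 d hd c
          (lin_lk hc (G.symm _ _ r3) (G.symm _ _ r2) n3.symm n2.symm) hdT
        rw [← ht] at h3
        exact h3 ((linE_val z t).trans h0)
      · rw [lin_one h0]
        exact if_pos ⟨t.1, (linE_val z t).trans_ne h0, ha⟩
    · rintro ⟨f, rfl⟩ e h1 h2 h3
      obtain ⟨a, ha⟩ := h1.1
      have h4 : ∀ s (hs : Clq G s ∧ Ins s S ∧ s.card = 3), e ⊆ s →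
          linE ((linV G S 3).domRestrict (LC G S) f) s = f.1 a := fun s hs hes =>
        (linE_val _ ⟨s, hs⟩).trans (lin_V3 f.2 _ (hes ha))
      by_cases h0 : f.1 a = 0
      · exact lin_even fun s hs hes => hs ((h4 s (linE_ne hs) hes).trans h0)
      · rw [Set.Subset.antisymm (lin_sub (T := {s | linE ((linV G S 3).domRestrict (LC G S) f) s ≠ 0})
          (fun s hs => linE_ne hs) h3), Set.InjOn.ncard_image, h.edg e h1 h2 h3]
        · exact even_two
        · exact fun u hu w _ huw => ((Finset.insert_inj hu.1.1).1 huw)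
        · rintro _ ⟨w, hw, rfl⟩
          exact ⟨(h4 _ (lin_tri h1 h2 h3 hw) (Finset.subset_insert _ _)).trans_ne h0,
            Finset.subset_insert _ _⟩
  · rw [injective_iff_map_eq_zero]
    intro f hf
    refine Subtype.ext (funext fun a => ?_)
    by_cases ha : a ∈ S
    · obtain ⟨w, hw, hwS⟩ := (h.vtx a ha).1
      rw [lin_lk1] at hw
      obtain ⟨q1, q2, q3⟩ := lin_edge hwS ha hw.2 hw.1
      obtain ⟨u, hu⟩ := Set.nonempty_of_ncard_ne_zero ((h.edg _ q1 q2 q3).trans_ne two_ne_zero)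
      exact (lin_V3 f.2 ⟨_, lin_tri q1 q2 q3 hu⟩ (by simp)).symm.trans
        (congrFun (show linV G S 3 f.1 = 0 from hf) _)
    · exact f.2.2 a ha

end

theorem chi_le_kc [Fintype V] {G : Cx V} {S : Set V} (hd : ∀ s, Clq G s → Ins s S → s.card ≤ 3)
    (hn : NoCyc G S) : chi G S ≤ kc G S ∧ (chi G S = kc G S ↔ H1 G S) := by
  obtain ⟨x, h1, h2⟩ := lin_main hd
  have h3 : LinearMap.ker (linM G S 2).transpose.mulVecLin = ⊥ := by
    refine (Submodule.eq_bot_iff _).2 fun z hz => funext fun t => ?_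
    by_contra h
    exact (hn _ (fun s hs => linE_ne hs) (lin_cyc.1 hz)).le ((linE_val z t).trans_ne h)
  rw [h3, finrank_bot] at h2
  rw [← h1]
  omega

theorem Surf.chi_le [Fintype V] {G : Cx V} {S : Set V} (h : Surf G S) :
    chi G S ≤ 2 * kc G S ∧ (chi G S = 2 * kc G S ↔ H1 G S) := by
  obtain ⟨x, h1, h2⟩ := lin_main h.dim
  rw [lin_surf h] at h2
  rw [← h1]
  omega

theorem noCyc_sub [Fintype V] {G : Cx V} {S B : Set V} (h : Surf G S) (hB : B ⊆ S)
    (hp : ∀ b ∈ B, ∃ x ∈ S, x ∉ B ∧ Rch G S b x) : NoCyc G B := by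
  intro T hT hE
  have hT' : ∀ s ∈ T, Clq G s ∧ Ins s S ∧ s.card = 3 := fun s hs =>
    ⟨(hT s hs).1, fun a ha => hB ((hT s hs).2.1 a ha), (hT s hs).2.2⟩
  have hH := lin_H (h.thin le_rfl) hT' fun e h1 _ h3 => by
    by_cases h4 : Ins e B
    · exact hE e h1 h4 h3
    · exact lin_even fun s hs hes => h4 fun a ha => (hT s hs).2.1 a (hes ha)
  refine Set.eq_empty_of_forall_notMem fun t ht => ?_
  obtain ⟨b, hb⟩ := (hT t ht).1.1
  obtain ⟨x, -, hx, hr⟩ := hp b ((hT t ht).2.1 b hb)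
  obtain ⟨t', ht', hxt⟩ := lin_rch hT' hH (fun v hv => (h.vtx v hv).2) hr ⟨t, ht, hb⟩
  exact hx ((hT t' ht').2.1 x hxt)

theorem noCyc_bd [Fintype V] {G : Cx V} {S : Set V} (h : Thin G S) (hc : Conn G S)
    (hv : ∀ v ∈ S, Conn G (lk G {v} ∩ S))
    (hb : ∃ e, Clq G e ∧ Ins e S ∧ e.card = 2 ∧ (lk G e ∩ S).ncard = 1) : NoCyc G S := by
  intro T hT hE
  have hH := lin_H h hT hE
  obtain ⟨e, h1, h2, h3, h4⟩ := hb
  refine Set.eq_empty_of_forall_notMem fun t ht => ?_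
  obtain ⟨v, hvt⟩ := (hT t ht).1.1
  obtain ⟨a, ha, b, hb, r, n, he⟩ := lin_edge_cases ⟨e, h1, h2, h3⟩
  obtain rfl : e = {a, b} := he
  obtain ⟨d, -, hd⟩ := lin_prop hT hH (hv a ha) ⟨lin_lk1.2 ⟨n.symm, G.symm _ _ r⟩, hb⟩
    (lin_rch hT hH hv (hc v ((hT t ht).2.1 v hvt) a ha) ⟨t, ht, hvt⟩)
  have h5 := (lin_two (hE _ h1 h2 h3) hd (Finset.subset_insert _ _)).trans
    ((Set.ncard_le_ncard (lin_sub hT h3) (Set.toFinite _)).trans
      (Set.ncard_image_le (Set.toFinite _)))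
  omega

end KG
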