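import Pool.Agent.Work.MP_c146e2_gt.KG.CtB
import Pool.Agent.Work.MP_c146e2_gt.KG.CtC
import Pool.Agent.Work.MP_c146e2_gt.KG.Lin

set_option autoImplicit false

noncomputable section

open scoped Classical

namespace KG

variable {V V' : Type}

theorem ctsd_mv1 {G' : Cx V'} {f : V' → V} {x x' y : V'} (h1 : G'.r x y) (h2 : G'.r x' y)
    (h3 : G'.r x x') (h4 : f x = f x') : EStep G' Set.univ f (x, y) (x', y) :=
  ⟨trivial, trivial, h1, h2, h4, rfl, Or.inl ⟨rfl, h3⟩⟩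

theorem ctsd_mv2 {G' : Cx V'} {f : V' → V} {x y y' : V'} (h1 : G'.r x y) (h2 : G'.r x y')
    (h3 : G'.r y y') (h4 : f y = f y') : EStep G' Set.univ f (x, y) (x, y') :=
  ⟨trivial, trivial, h1, h2, rfl, h4, Or.inr ⟨rfl, h3⟩⟩

theorem ctsd_symm {G' : Cx V'} {f : V' → V} {e e' : V' × V'}
    (h : Relation.ReflTransGen (EStep G' Set.univ f) e e') :
    Relation.ReflTransGen (EStep G' Set.univ f) e' e := by
  induction h with
  | refl => exact .refl
  | tail _ h ih =>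
    obtain ⟨-, -, h1, h2, h3, h4, h5⟩ := h
    exact .head ⟨trivial, trivial, h2, h1, h3.symm, h4.symm,
      h5.imp (fun h => ⟨h.1.symm, G'.symm _ _ h.2⟩) fun h => ⟨h.1.symm, G'.symm _ _ h.2⟩⟩ ih

theorem ctsd_swap {G' : Cx V'} {f : V' → V} {e e' : V' × V'}
    (h : Relation.ReflTransGen (EStep G' Set.univ f) e e') :
    Relation.ReflTransGen (EStep G' Set.univ f) e.swap e'.swap := by
  induction h with
  | refl => exact .refl
  | tail _ h ih =>
    obtain ⟨-, -, h1, h2, h3, h4, h5⟩ := h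
    exact ih.tail ⟨trivial, trivial, G'.symm _ _ h1, G'.symm _ _ h2, h4, h3, h5.symm⟩

/-- The simplex with one vertex. -/
def ctsdV (G : Cx V) (v : V) : Fc G :=
  ⟨{v}, Finset.singleton_nonempty v, fun a ha b hb => by
    rw [Finset.mem_singleton.1 ha, Finset.mem_singleton.1 hb]; exact G.refl v⟩

theorem ctsdV_le {G : Cx V} {v : V} {s : Fc G} (h : v ∈ s.1) : ctsdV G v ≤ s :=
  Finset.singleton_subset_iff.2 h

theorem ctsd_chi [Fintype V] (G : Cx V) {m : Fc G → V} (hm : ∀ s, m s ∈ s.1) (T : Finset V)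
    (hT : Clq G T) : chi (sd G) (m ⁻¹' (T : Set V)) = 1 := by
  have hc : ∀ s : Fc G, (s.1 ∩ T).Nonempty → Clq G (s.1 ∩ T) := fun s h =>
    ⟨h, fun a ha b hb => hT.2 a (Finset.mem_inter.1 ha).2 b (Finset.mem_inter.1 hb).2⟩
  let ρ : Fc G → Fc G := fun s => if h : (s.1 ∩ T).Nonempty then ⟨s.1 ∩ T, hc s h⟩ else s
  have hρ : ∀ s ∈ m ⁻¹' (T : Set V), (ρ s).1 = s.1 ∩ T := fun s hs => by
    have h : (s.1 ∩ T).Nonempty := ⟨m s, Finset.mem_inter.2 ⟨hm s, hs⟩⟩
    simp only [ρ, dif_pos h]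
  have h1 : ∀ s ∈ {s : Fc G | s.1 ⊆ T}, s ∈ m ⁻¹' (T : Set V) := fun s hs => hs (hm s)
  refine (chi_defl (T := {s : Fc G | s.1 ⊆ T}) ρ h1 (fun s hs => ?_) (fun s hs => ?_)
    (fun s hs => Subtype.ext ?_) fun s hs t ht hst => ?_).trans
    (chi_cone (c := ⟨T, hT⟩) (Finset.Subset.refl T) fun s hs => Or.inl hs)
  · exact (hρ s hs).le.trans Finset.inter_subset_right
  · exact Fc.le_iff.2 ((hρ s hs).le.trans Finset.inter_subset_left)
  · exact (hρ s (h1 s hs)).trans (Finset.inter_eq_left.2 hs)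
  · rw [Fc.le_iff, hρ s hs, hρ t ht]
    exact Finset.inter_subset_inter_right hst

theorem ctsd_can {G : Cx V} {m : Fc G → V} (hm : ∀ s, m s ∈ s.1) {x y e : Fc G} (h : x ≤ y)
    (he : e.1 = {m x, m y}) : Relation.ReflTransGen (EStep (sd G) Set.univ m) (x, y)
      (if m e = m x then (e, ctsdV G (m y)) else (ctsdV G (m x), e)) := by
  have hv : ∀ v, m (ctsdV G v) = v := fun v => Finset.mem_singleton.1 (hm (ctsdV G v))
  have h1 : e ≤ y := by
    rw [Fc.le_iff, he]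
    exact Finset.insert_subset (h (hm x)) (Finset.singleton_subset_iff.2 (hm y))
  have h2 : ctsdV G (m x) ≤ e := ctsdV_le (by simp [he])
  have h3 : ctsdV G (m y) ≤ e := ctsdV_le (by simp [he])
  refine .head (ctsd_mv1 (Or.inl h) (Or.inl (h2.trans h1)) (Or.inr (ctsdV_le (hm x))) (hv _).symm) ?_
  split_ifs with h4
  · exact .head (ctsd_mv1 (Or.inl (h2.trans h1)) (Or.inl h1) (Or.inl h2) ((hv _).trans h4.symm))
      (.single (ctsd_mv2 (Or.inl h1) (Or.inr h3) (Or.inr (h3.trans h1)) (hv _).symm))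
  · have h5 := hm e
    rw [he, Finset.mem_insert, Finset.mem_singleton] at h5
    exact .single (ctsd_mv2 (Or.inl (h2.trans h1)) (Or.inl h2) (Or.inr h1)
      (h5.resolve_left h4).symm)

theorem ctsd_can' {G : Cx V} {m : Fc G → V} (hm : ∀ s, m s ∈ s.1) {x y e : Fc G}
    (h : (sd G).r x y) (hn : m x ≠ m y)
    (he : e.1 = {m x, m y}) : Relation.ReflTransGen (EStep (sd G) Set.univ m) (x, y)
      (if m e = m x then (e, ctsdV G (m y)) else (ctsdV G (m x), e)) := by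
  rcases h with h | h
  · exact ctsd_can hm h he
  · have h1 := ctsd_swap (ctsd_can hm h (he.trans (Finset.pair_comm _ _)))
    have h5 := hm e
    rw [he, Finset.mem_insert, Finset.mem_singleton] at h5
    split_ifs with h4
    · rwa [if_neg fun h6 => hn (h4.symm.trans h6)] at h1
    · rwa [if_pos (h5.resolve_left h4)] at h1

theorem contr_sd [Fintype V] (G : Cx V) {m : Fc G → V} (hm : ∀ s, m s ∈ s.1) :
    Contr (sd G) G Set.univ Set.univ m := by
  have hv : ∀ v, m (ctsdV G v) = v := fun v => Finset.mem_singleton.1 (hm (ctsdV G v))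
  have hmap : ∀ x y, (sd G).r x y → G.r (m x) (m y) := by
    rintro x y (h | h)
    · exact y.2.2 _ (h (hm x)) _ (hm y)
    · exact x.2.2 _ (hm x) _ (h (hm y))
  refine ⟨fun _ _ => trivial, fun _ _ _ _ h => (h trivial).elim, fun _ _ x y _ _ => hmap x y,
    fun s hs _ => eul_of_chi (ctsd_chi G hm) s hs,
    ⟨{s | s = ctsdV G (m s)}, fun s => ctsdV G (m s), Set.subset_univ _, fun x hx y hy h => ?_,
      ⟨fun _ => 0, fun v _ => ⟨trivial, Or.inr (ctsdV_le (hm v)), fun h => (h.2 ?_).elim⟩⟩,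
      fun x _ => hv _, fun x _ y _ h1 h2 => ?_⟩, fun x _ x' _ y y' h h' h1 h2 hn => ?_⟩
  · rw [hx, hy, h]
  · exact congrArg _ (hv _).symm
  · have h3 : ∀ z : Fc G, Cl (sd G) (par (Set.univ \ {s | s = ctsdV G (m s)})
        fun s => ctsdV G (m s)) z (ctsdV G (m z)) := fun z => by
      by_cases hz : z = ctsdV G (m z)
      · exact hz ▸ Cl.refl z
      · exact Cl.base ⟨⟨trivial, hz⟩, rfl⟩
    exact Cl.tri (Or.inr (ctsdV_le (hm x))) (Or.inl (ctsdV_le (h2 ▸ hm y))) h1 (h3 x)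
      (h2 ▸ (h3 y).symm)
  · have h3 := hmap x y h
    have hc : Clq G {m x, m y} := ⟨by simp, by simp [G.refl, h3, G.symm _ _ h3]⟩
    have h4 := ctsd_can' hm (e := ⟨_, hc⟩) h' (h1 ▸ h2 ▸ hn) (by rw [← h1, ← h2])
    rw [← h1, ← h2] at h4
    exact (ctsd_can' hm (e := ⟨_, hc⟩) h hn rfl).trans (ctsd_symm h4)

theorem exists_sel (G : Cx V) (U : Set V) : ∃ m, Sel G U m := by
  have h : ∀ s : Fc G, ∃ v, v ∈ s.1 ∧ (Meets s.1 U → v ∈ U) := fun s => by
    by_cases h : Meets s.1 U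
    · exact h.imp fun v hv => ⟨hv.1, fun _ => hv.2⟩
    · exact s.2.1.imp fun v hv => ⟨hv, fun h' => (h h').elim⟩
  choose m hm using h
  exact ⟨m, hm⟩

theorem Sel.contr_up [Fintype V] {G : Cx V} {U : Set V} {m : Fc G → V} (h : Sel G U m) :
    Contr (sd G) G (up G U) U m := by
  have e : up G U = Set.univ ∩ m ⁻¹' U :=
    Set.ext fun s => ⟨fun hs => ⟨trivial, (h s).2 hs⟩, fun hs => ⟨_, (h s).1, hs.2⟩⟩
  exact e ▸ (contr_sd G fun s => (h s).1).restrict (Set.subset_univ U)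

theorem Sel.contr_dn [Fintype V] {G : Cx V} {U : Set V} {m : Fc G → V} (h : Sel G U m) :
    Contr (sd G) G (dn G Uᶜ) Uᶜ m := by
  have e : dn G Uᶜ = Set.univ ∩ m ⁻¹' Uᶜ :=
    Set.ext fun s => ⟨fun hs => ⟨trivial, hs _ (h s).1⟩,
      fun hs a ha hU => hs.2 ((h s).2 ⟨a, ha, hU⟩)⟩
  exact e ▸ (contr_sd G fun s => (h s).1).restrict (Set.subset_univ Uᶜ)

theorem up_compl (G : Cx V) (U : Set V) : (up G U)ᶜ = dn G Uᶜ :=
  Set.ext fun _ => ⟨fun hs a ha hU => hs ⟨a, ha, hU⟩, fun hs ⟨a, ha, hU⟩ => hs a ha hU⟩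

theorem dn_compl (G : Cx V) (U : Set V) : (dn G U)ᶜ = up G Uᶜ := by
  rw [← compl_compl (up G Uᶜ), up_compl, compl_compl]

theorem ctsd_zle {i j : ℤ} : zle i j ∨ zle j i ↔ i ≤ j + 1 ∧ j ≤ i + 1 := by
  simp only [zle, Int.even_iff]
  omega

theorem contr_zig {P' P : Type} [Fintype P'] [PartialOrder P'] [PartialOrder P] (f : P' → P)
    (hg : P' → ℤ) (a b : P → ℤ) (hab : ∀ s, a s ≤ b s)
    (hle : ∀ x y, x ≤ y ↔ f x ≤ f y ∧ zle (hg x) (hg y))
    (hin : ∀ x, a (f x) ≤ hg x ∧ hg x ≤ b (f x))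
    (hsur : ∀ s j, a s ≤ j → j ≤ b s → ∃ x, f x = s ∧ hg x = j)
    (hup : ∀ x s, f x ≤ s → ∃ y, f y = s ∧ x ≤ y) :
    Contr (ord P') (ord P) Set.univ Set.univ f := by
  have hq : ∀ s j, ∃ x, f x = s ∧ hg x = max (a s) (min j (b s)) := fun s j =>
    hsur s _ (le_max_left _ _) (max_le (hab s) (min_le_right _ _))
  choose q hq1 hq2 using hq
  have hext : ∀ x y, f x = f y → hg x = hg y → x = y := fun x y h1 h2 =>
    le_antisymm ((hle _ _).2 ⟨h1.le, Or.inl h2⟩) ((hle _ _).2 ⟨h1.ge, Or.inl h2.symm⟩)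
  have hr : ∀ x y, f x = f y → ((ord P').r x y ↔ hg x ≤ hg y + 1 ∧ hg y ≤ hg x + 1) := by
    intro x y h
    rw [← ctsd_zle]
    exact or_congr ((hle _ _).trans (and_iff_right h.le)) ((hle _ _).trans (and_iff_right h.ge))
  have hqq : ∀ x, q (f x) (hg x) = x := fun x => hext _ _ (hq1 _ _) (by
    have := hin x
    rw [hq2]
    omega)
  have hle' : ∀ x t, f x ≤ t → x ≤ q t (hg x) := fun x t h => by
    obtain ⟨y, rfl, hy⟩ := hup x t h
    have h1 := ((hle _ _).1 hy).2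
    have h2 := hin y
    refine (hle _ _).2 ⟨by rwa [hq1], ?_⟩
    rw [hq2]
    simp only [zle, Int.even_iff] at h1 ⊢
    omega
  have hfib : ∀ t, ∀ j, a t ≤ j → j ≤ b t → chi (ord P') {x | f x = t ∧ hg x ≤ j} = 1 := by
    intro t j hj
    have h0 := hab t
    induction j, hj using Int.le_induction with
    | base =>
      refine fun _ => chi_cone (c := q t (a t)) ⟨hq1 _ _, by rw [hq2]; omega⟩ fun x hx => ?_
      obtain ⟨rfl, hx⟩ := hx
      have := hin x
      rw [hr _ _ (hq1 _ _).symm, hq2]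
      omega
    | succ j hj ih =>
      intro hb
      have e : {x | f x = t ∧ hg x ≤ j + 1} = insert (q t (j + 1)) {x | f x = t ∧ hg x ≤ j} := by
        ext x
        refine ⟨fun h => (h.2.eq_or_lt).imp (fun h1 => hext _ _ (h.1.trans (hq1 _ _).symm) ?_)
          fun h1 => ⟨h.1, by omega⟩, ?_⟩
        · rw [hq2]; omega
        · rintro (rfl | h)
          · exact ⟨hq1 _ _, by rw [hq2]; omega⟩
          · exact ⟨h.1, h.2.trans (by omega)⟩
      have h1 : q t (j + 1) ∉ {x | f x = t ∧ hg x ≤ j} := fun h => by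
        have := h.2
        rw [hq2] at this
        omega
      have h2 : q t j ∈ {x | f x = t ∧ hg x ≤ j} := ⟨hq1 _ _, by rw [hq2]; omega⟩
      have h5 : q t j ∈ lk (ord P') {q t (j + 1)} ∩ {x | f x = t ∧ hg x ≤ j} :=
        ⟨lin_lk1.2 ⟨fun h => h1 (h ▸ h2),
          by rw [hr _ _ ((hq1 _ _).trans (hq1 _ _).symm), hq2, hq2]; omega⟩, h2⟩
      rw [e, chi_insert _ h1, ih (by omega), chi_cone h5 fun x hx => ?_]
      · rfl
      · have h3 := (hr _ _ (hx.2.1.trans (hq1 _ _).symm)).1 (lin_lk1.1 hx.1).2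
        have h4 := hx.2.2
        rw [hq2] at h3
        rw [hr _ _ (hx.2.1.trans (hq1 _ _).symm), hq2]
        omega
  have hA : ∀ x y, x ≤ y → EStep (ord P') Set.univ f (x, y) (x, q (f y) (hg x)) := by
    intro x y h
    have h1 := (hle _ _).1 h
    refine ctsd_mv2 (Or.inl h) (Or.inl (hle' _ _ h1.1)) ?_ (hq1 _ _).symm
    have h2 := ctsd_zle.1 (Or.inl h1.2)
    have := hin y
    rw [hr _ _ (hq1 _ _).symm, hq2]
    omega
  have hB : ∀ t x x', x ≤ x' → f x = f x' → f x' ≤ t → Relation.ReflTransGen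
      (EStep (ord P') Set.univ f) (x', q t (hg x')) (x, q t (hg x)) := by
    intro t x x' h1 h2 h3
    have h4 := hle' _ _ h3
    have h5 := hA _ _ (h1.trans h4)
    rw [hq1] at h5
    exact .head (ctsd_mv1 (Or.inl h4) (Or.inl (h1.trans h4)) (Or.inr h1) h2.symm) (.single h5)
  have hC : ∀ s t, s ≤ t → ∀ j, a s ≤ j → ∀ x, f x = s → hg x = j → Relation.ReflTransGen
      (EStep (ord P') Set.univ f) (x, q t (hg x)) (q s (a s), q t (hg (q s (a s)))) := by
    intro s t hst j hj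
    have h0 := hab s
    induction j, hj using Int.le_induction with
    | base =>
      intro x h1 h2
      rw [hext x (q s (a s)) (h1.trans (hq1 _ _).symm) (by rw [hq2]; omega)]
    | succ j hj ih =>
      rintro x rfl h2
      have h3 := hin x
      refine .trans ?_ (ih (q (f x) j) (hq1 _ _) (by rw [hq2]; omega))
      rcases (hr x (q (f x) j) (hq1 _ _).symm).2 (by rw [hq2]; omega) with h | h
      · exact ctsd_symm (hB _ _ _ h (hq1 _ _).symm ((hq1 _ _).trans_le hst))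
      · exact hB _ _ _ h (hq1 _ _) hst
  have hD : ∀ x x' y y', x ≤ y → (ord P').r x' y' → f x = f x' → f y = f y' → f x ≠ f y →
      Relation.ReflTransGen (EStep (ord P') Set.univ f) (x, y) (x', y') := by
    intro x x' y y' h h' h1 h2 hn
    have h3 := ((hle _ _).1 h).1
    have h4 : x' ≤ y' := h'.resolve_right fun h4 =>
      hn (le_antisymm h3 (h1 ▸ h2 ▸ ((hle _ _).1 h4).1))
    exact .head (hA _ _ h) ((hC _ _ h3 _ (hin x).1 x rfl rfl).trans (ctsd_symm
      (.head (hA _ _ h4) (h2 ▸ hC _ _ h3 _ (h1 ▸ (hin x').1) x' h1.symm rfl))))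
  refine ⟨fun _ _ => trivial, fun _ _ _ _ h => (h trivial).elim,
    fun _ _ x y _ _ h => h.imp (fun h => ((hle _ _).1 h).1) fun h => ((hle _ _).1 h).1,
    fun s hs _ => eul_of_chi (fun T hT => ?_) s hs,
    ⟨{x | hg x = a (f x)}, fun x => q (f x) (hg x - 1), Set.subset_univ _,
      fun x hx y hy h => hext _ _ h (hx.trans (h ▸ hy.symm)),
      ⟨fun x => (hg x - a (f x)).toNat, fun x hx => ?_⟩,
      fun x _ => hq1 _ _, fun x _ y _ h1 h2 => ?_⟩, fun x _ x' _ y y' h h' h1 h2 hn => ?_⟩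
  · obtain ⟨t, ht⟩ := T.exists_maximal hT.1
    have h1 : ∀ s ∈ T, s ≤ t := fun s hs => (hT.2 s hs t ht.1).elim id (ht.2 hs)
    refine (chi_infl (S := f ⁻¹' (T : Set P)) (T := {x | f x = t ∧ hg x ≤ b t})
      (fun x => q t (hg x)) (fun x hx => ?_) (fun x _ => ⟨hq1 _ _, ?_⟩)
      (fun x hx => hle' _ _ (h1 _ hx)) (fun x hx => hx.1 ▸ hqq x) fun x _ y hy h => ?_).trans
      (hfib t (b t) (hab t) le_rfl)
    · exact Set.mem_preimage.2 (hx.1 ▸ ht.1)
    · have := hab t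
      rw [hq2]
      omega
    · have h2 := ((hle _ _).1 h).2
      have h3 := ((hle _ _).1 (hle' _ _ (h1 _ hy))).2
      refine (hle _ _).2 ⟨by rw [hq1, hq1], ?_⟩
      simp only [zle, Int.even_iff, hq2] at h2 h3 ⊢
      omega
  · have h1 := hin x
    have h2 : hg x ≠ a (f x) := hx.2
    refine ⟨trivial, ?_, fun _ => ?_⟩
    · rw [hr _ _ (hq1 _ _).symm, hq2]
      omega
    · simp only [hq1, hq2]
      omega
  · have h3 : ∀ x y, f x = f y → hg x = hg y + 1 → Cl (ord P')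
        (par (Set.univ \ {x | hg x = a (f x)}) fun x => q (f x) (hg x - 1)) x y := by
      intro x y h1 h2
      have h4 := hin y
      refine Cl.base ⟨⟨trivial, fun h : hg x = a (f x) => ?_⟩, ?_⟩
      · rw [h1] at h
        omega
      · simp only [h1, h2, add_sub_cancel_right, hqq]
    have h4 := (hr _ _ h2).1 h1
    rcases lt_trichotomy (hg x) (hg y) with h | h | h
    · exact (h3 y x h2.symm (by omega)).symm
    · exact hext _ _ h2 h ▸ Cl.refl x
    · exact h3 x y h2 (by omega)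
  · rcases h with h | h
    · exact hD _ _ _ _ h h' h1 h2 hn
    · exact ctsd_swap (hD _ _ _ _ h h'.symm h2 h1 hn.symm)

end KG
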