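import Pool.Agent.Work.MP_c146e2_gt.KG.Bas

set_option autoImplicit false

noncomputable section

open scoped Classical

namespace KG

variable {V V' : Type}

theorem xs_clq_sub {G : Cx V} {s t : Finset V} (hs : Clq G s) (ht : t ⊆ s) (hne : t.Nonempty) :
    Clq G t := ⟨hne, fun a ha b hb => hs.2 a (ht ha) b (ht hb)⟩

theorem xs_clq_insert {G : Cx V} {s : Finset V} (hs : Clq G s) {w : V} (hw : w ∈ lk G s) :
    Clq G (insert w s) := by
  refine ⟨Finset.insert_nonempty _ _, fun a ha b hb => ?_⟩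
  rcases Finset.mem_insert.1 ha with ea | ha' <;> rcases Finset.mem_insert.1 hb with eb | hb'
  · rw [ea, eb]; exact G.refl _
  · rw [ea]; exact hw.2 b hb'
  · rw [eb]; exact G.symm _ _ (hw.2 a ha')
  · exact hs.2 a ha' b hb'

theorem xs_meets_mono {s t : Finset V} {U : Set V} (h : Meets s U) (hst : s ⊆ t) : Meets t U := by
  obtain ⟨a, ha, haU⟩ := h
  exact ⟨a, hst ha, haU⟩

theorem xs_mem_lk {G : Cx V} {s t : Finset V} (ht : Clq G t) (hst : s ⊆ t) {w : V} (hw : w ∈ t)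
    (hn : w ∉ s) : w ∈ lk G s := ⟨hn, fun a ha => ht.2 w hw a (hst ha)⟩

theorem xs_lk_insert {G : Cx V} {s : Finset V} {a b : V} (hb : b ∈ lk G s) (hab : a ≠ b)
    (ha : a ∈ lk G s) (hr : G.r a b) : a ∈ lk G (insert b s) := by
  refine ⟨fun h => ?_, fun x hx => ?_⟩
  · rcases Finset.mem_insert.1 h with h | h
    · exact hab h
    · exact ha.1 h
  · rcases Finset.mem_insert.1 hx with rfl | hx
    · exact hr
    · exact ha.2 x hx

theorem xs_two_le {s : Finset V} {U : Set V} (h1 : Meets s U) (h2 : Meets s Uᶜ) : 2 ≤ s.card := by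
  obtain ⟨a, ha, haU⟩ := h1
  obtain ⟨b, hb, hbU⟩ := h2
  exact Finset.one_lt_card.2 ⟨a, ha, b, hb, fun e => hbU (e ▸ haU)⟩

theorem xs_card {G : Cx V} {U : Set V} (h : PMan G U) {x : Fc G} (hx : x ∈ Xs G U) :
    2 ≤ x.1.card ∧ x.1.card ≤ 4 := ⟨xs_two_le hx.1 hx.2, h.dim _ x.2 hx.1⟩

theorem xs_eq_of_card {G : Cx V} {x y : Fc G} (h : (sd G).r x y) (hc : x.1.card = y.1.card) :
    x = y := by
  rcases h with h | h
  · exact Subtype.ext (Finset.eq_of_subset_of_card_le (Fc.le_iff.1 h) hc.ge)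
  · exact Subtype.ext (Finset.eq_of_subset_of_card_le (Fc.le_iff.1 h) hc.le).symm

theorem xs_sub_of_card {G : Cx V} {x y : Fc G} (h : (sd G).r x y) (hc : x.1.card < y.1.card) :
    x.1 ⊆ y.1 := by
  rcases h with h | h
  · exact Fc.le_iff.1 h
  · exact absurd (Finset.card_le_card (Fc.le_iff.1 h)) (by omega)

theorem xs_r_of_sub {G : Cx V} {x y : Fc G} (h : x.1 ⊆ y.1) : (sd G).r x y := Or.inl h

theorem xs_r_of_sup {G : Cx V} {x y : Fc G} (h : y.1 ⊆ x.1) : (sd G).r x y := Or.inr h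

theorem xs_ne_of_card {G : Cx V} {x y : Fc G} (h : x.1.card ≠ y.1.card) : x ≠ y :=
  fun e => h (e ▸ rfl)

theorem xs_mem_lk1 {G : Cx V} {U : Set V} {v z : Fc G} :
    z ∈ lk (sd G) {v} ∩ Xs G U ↔ z ≠ v ∧ (sd G).r z v ∧ z ∈ Xs G U := by
  simp only [lk, Set.mem_inter_iff, Set.mem_ofPred_eq, Finset.mem_singleton, forall_eq, and_assoc]

theorem xs_mem_lk2 {G : Cx V} {U : Set V} {x y z : Fc G} :
    z ∈ lk (sd G) {x, y} ∩ Xs G U ↔
      z ≠ x ∧ z ≠ y ∧ (sd G).r z x ∧ (sd G).r z y ∧ z ∈ Xs G U := by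
  simp only [lk, Set.mem_inter_iff, Set.mem_ofPred_eq, Finset.mem_insert, Finset.mem_singleton,
    forall_eq_or_imp, forall_eq, not_or, and_assoc]

theorem xs_pair {z : Finset V} {U : Set V} (hc : z.card = 2) (h1 : Meets z U) (h2 : Meets z Uᶜ) :
    ∃ p ∈ U, ∃ q ∉ U, z = {p, q} := by
  obtain ⟨a, ha, haU⟩ := h1
  obtain ⟨b, hb, hbU⟩ := h2
  have hab : a ≠ b := fun e => hbU (e ▸ haU)
  refine ⟨a, haU, b, hbU, (Finset.eq_of_subset_of_card_le ?_ ?_).symm⟩
  · intro x hx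
    rcases Finset.mem_insert.1 hx with rfl | hx
    · exact ha
    · rw [Finset.mem_singleton.1 hx]; exact hb
  · rw [Finset.card_pair hab]; omega

theorem xs_meets_pair {U : Set V} {p q : V} (hp : p ∈ U) (hq : q ∉ U) :
    Meets ({p, q} : Finset V) U ∧ Meets ({p, q} : Finset V) Uᶜ :=
  ⟨⟨p, by simp, hp⟩, ⟨q, by simp, hq⟩⟩

/-- A crossing triangle has exactly two crossing edges. -/
theorem xs_tri_edges {x : Finset V} {U : Set V} (hc : x.card = 3) (h1 : Meets x U)
    (h2 : Meets x Uᶜ) : ∃ e₁ e₂ : Finset V, e₁ ≠ e₂ ∧ ∀ z : Finset V,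
      (z ⊆ x ∧ z.card = 2 ∧ Meets z U ∧ Meets z Uᶜ) ↔ z = e₁ ∨ z = e₂ := by
  obtain ⟨a, ha, haU⟩ := h1
  obtain ⟨b, hb, hbU⟩ := h2
  have hbU' : b ∉ U := hbU
  have hab : a ≠ b := fun e => hbU (e ▸ haU)
  have hsub : ({a, b} : Finset V) ⊆ x := by
    intro y hy
    rcases Finset.mem_insert.1 hy with rfl | hy
    · exact ha
    · rw [Finset.mem_singleton.1 hy]; exact hb
  obtain ⟨c, hcn, hx⟩ := Finset.exists_eq_insert_iff.2
    ⟨hsub, by rw [Finset.card_pair hab]; omega⟩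
  have hca : c ≠ a := fun e => hcn (by simp [e])
  have hcb : c ≠ b := fun e => hcn (by simp [e])
  have hmem : ∀ y ∈ x, y = c ∨ y = a ∨ y = b := by
    intro y hy
    rw [← hx] at hy
    simpa using hy
  have hcx : c ∈ x := by rw [← hx]; simp
  have hps : ∀ p ∈ x, ∀ q ∈ x, ({p, q} : Finset V) ⊆ x := by
    intro p hp q hq y hy
    rcases Finset.mem_insert.1 hy with rfl | hy
    · exact hp
    · rw [Finset.mem_singleton.1 hy]; exact hq
  by_cases hcU : c ∈ U
  · refine ⟨{a, b}, {c, b}, fun e => ?_, fun z => ⟨fun ⟨hz, hz2, hz3, hz4⟩ => ?_, fun hz => ?_⟩⟩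
    · have : c ∈ ({a, b} : Finset V) := by rw [e]; simp
      exact hcn this
    · obtain ⟨p, hp, q, hq, rfl⟩ := xs_pair hz2 hz3 hz4
      have hq' : q = b := by
        rcases hmem q (hz (by simp)) with e | e | e
        · exact absurd (e ▸ hcU) hq
        · exact absurd (e ▸ haU) hq
        · exact e
      rcases hmem p (hz (by simp)) with e | e | e
      · right; rw [e, hq']
      · left; rw [e, hq']
      · exact absurd (e ▸ hp) hbU'
    · rcases hz with rfl | rfl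
      · exact ⟨hsub, Finset.card_pair hab, xs_meets_pair haU hbU'⟩
      · exact ⟨hps c hcx b hb, Finset.card_pair hcb, xs_meets_pair hcU hbU'⟩
  · refine ⟨{a, b}, {a, c}, fun e => ?_, fun z => ⟨fun ⟨hz, hz2, hz3, hz4⟩ => ?_, fun hz => ?_⟩⟩
    · have : c ∈ ({a, b} : Finset V) := by rw [e]; simp
      exact hcn this
    · obtain ⟨p, hp, q, hq, rfl⟩ := xs_pair hz2 hz3 hz4
      have hp' : p = a := by
        rcases hmem p (hz (by simp)) with e | e | e
        · exact absurd (e ▸ hp) hcU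
        · exact e
        · exact absurd (e ▸ hp) hbU'
      rcases hmem q (hz (by simp)) with e | e | e
      · right; rw [e, hp']
      · exact absurd (e ▸ haU) hq
      · left; rw [e, hp']
    · rcases hz with rfl | rfl
      · exact ⟨hsub, Finset.card_pair hab, xs_meets_pair haU hbU'⟩
      · exact ⟨hps a ha c hcx, Finset.card_pair hca.symm, xs_meets_pair haU hcU⟩

theorem xs_up {G : Cx V} {U : Set V} {x z : Fc G} (hx : x ∈ Xs G U) (h : x.1 ⊆ z.1) :
    z ∈ Xs G U := ⟨xs_meets_mono hx.1 h, xs_meets_mono hx.2 h⟩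

theorem xs_edg {G : Cx V} {U : Set V} (h : PMan G U) {x y : Fc G} (hx : x ∈ Xs G U)
    (hy : y ∈ Xs G U) (hxy : x.1 ⊆ y.1) (hlt : x.1.card < y.1.card) :
    (lk (sd G) {x, y} ∩ Xs G U).ncard = 2 := by
  have cx := xs_card h hx
  have cy := xs_card h hy
  have key : ∀ z ∈ lk (sd G) {x, y} ∩ Xs G U, z.1.card ≠ x.1.card ∧ z.1.card ≠ y.1.card ∧
      2 ≤ z.1.card ∧ z.1.card ≤ 4 := by
    intro z hz
    obtain ⟨h1, h2, h3, h4, h5⟩ := xs_mem_lk2.1 hz
    exact ⟨fun e => h1 (xs_eq_of_card h3 e), fun e => h2 (xs_eq_of_card h4 e), xs_card h h5⟩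
  rw [Set.ncard_eq_two]
  by_cases hy3 : y.1.card = 3
  · obtain ⟨a, b, hab, hl⟩ := Set.ncard_eq_two.1 (h.tri _ y.2 hy.1 hy3)
    have ha : a ∈ lk G y.1 := by rw [hl]; simp
    have hb : b ∈ lk G y.1 := by rw [hl]; simp
    refine ⟨⟨insert a y.1, xs_clq_insert y.2 ha⟩, ⟨insert b y.1, xs_clq_insert y.2 hb⟩,
      fun e => ?_, Set.Subset.antisymm (fun z hz => ?_) fun z hz => ?_⟩
    · have e' : insert a y.1 = insert b y.1 := congrArg Subtype.val e
      have : a ∈ insert b y.1 := by rw [← e']; simp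
      rcases Finset.mem_insert.1 this with e | e
      · exact hab e
      · exact ha.1 e
    · obtain ⟨k1, k2, k3, k4⟩ := key z hz
      obtain ⟨-, -, -, h4, -⟩ := xs_mem_lk2.1 hz
      have hsub : y.1 ⊆ z.1 := xs_sub_of_card ((sd G).symm _ _ h4) (by omega)
      obtain ⟨w, hw, hz'⟩ := Finset.exists_eq_insert_iff.2 ⟨hsub, by omega⟩
      have hwl : w ∈ lk G y.1 := xs_mem_lk z.2 hsub (by rw [← hz']; simp) hw
      rw [hl] at hwl
      rcases hwl with e | e
      · left; exact Subtype.ext (by rw [← hz', e])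
      · right; exact Subtype.ext (by rw [← hz', Set.mem_singleton_iff.1 e])
    · have aux : ∀ w, ∀ hw : w ∈ lk G y.1, (⟨insert w y.1, xs_clq_insert y.2 hw⟩ : Fc G) ∈
          lk (sd G) {x, y} ∩ Xs G U := by
        intro w hw
        have hc : (insert w y.1).card = 4 := by rw [Finset.card_insert_of_notMem hw.1, hy3]
        have hs : y.1 ⊆ insert w y.1 := Finset.subset_insert _ _
        exact xs_mem_lk2.2 ⟨xs_ne_of_card (by rw [hc]; omega), xs_ne_of_card (by rw [hc]; omega),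
          xs_r_of_sup (hxy.trans hs), xs_r_of_sup hs, xs_up hy hs⟩
      rcases hz with rfl | hz
      · exact aux a ha
      · rw [Set.mem_singleton_iff.1 hz]; exact aux b hb
  by_cases hx2 : x.1.card = 2
  · have hd : (y.1 \ x.1).card = 2 := by rw [Finset.card_sdiff_of_subset hxy]; omega
    obtain ⟨a, b, hab, hl⟩ := Finset.card_eq_two.1 hd
    have ha : a ∈ y.1 \ x.1 := by rw [hl]; simp
    have hb : b ∈ y.1 \ x.1 := by rw [hl]; simp
    have hlk : ∀ w ∈ y.1 \ x.1, w ∈ lk G x.1 := fun w hw =>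
      xs_mem_lk y.2 hxy (Finset.mem_sdiff.1 hw).1 (Finset.mem_sdiff.1 hw).2
    refine ⟨⟨insert a x.1, xs_clq_insert x.2 (hlk a ha)⟩,
      ⟨insert b x.1, xs_clq_insert x.2 (hlk b hb)⟩,
      fun e => ?_, Set.Subset.antisymm (fun z hz => ?_) fun z hz => ?_⟩
    · have e' : insert a x.1 = insert b x.1 := congrArg Subtype.val e
      have : a ∈ insert b x.1 := by rw [← e']; simp
      rcases Finset.mem_insert.1 this with e | e
      · exact hab e
      · exact (hlk a ha).1 e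
    · obtain ⟨k1, k2, k3, k4⟩ := key z hz
      obtain ⟨-, -, h3, h4, -⟩ := xs_mem_lk2.1 hz
      have hsub : x.1 ⊆ z.1 := xs_sub_of_card ((sd G).symm _ _ h3) (by omega)
      have hsub' : z.1 ⊆ y.1 := xs_sub_of_card h4 (by omega)
      obtain ⟨w, hw, hz'⟩ := Finset.exists_eq_insert_iff.2 ⟨hsub, by omega⟩
      have hwl : w ∈ y.1 \ x.1 := Finset.mem_sdiff.2 ⟨hsub' (by rw [← hz']; simp), hw⟩
      rw [hl] at hwl
      rcases Finset.mem_insert.1 hwl with e | e
      · left; exact Subtype.ext (by rw [← hz', e])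
      · right; exact Subtype.ext (by rw [← hz', Finset.mem_singleton.1 e])
    · have aux : ∀ w, ∀ hw : w ∈ y.1 \ x.1,
          (⟨insert w x.1, xs_clq_insert x.2 (hlk w hw)⟩ : Fc G) ∈ lk (sd G) {x, y} ∩ Xs G U := by
        intro w hw
        have hc : (insert w x.1).card = 3 := by
          rw [Finset.card_insert_of_notMem (hlk w hw).1, hx2]
        have hs : x.1 ⊆ insert w x.1 := Finset.subset_insert _ _
        exact xs_mem_lk2.2 ⟨xs_ne_of_card (by rw [hc]; omega), xs_ne_of_card (by rw [hc]; omega),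
          xs_r_of_sup hs, xs_r_of_sub (Finset.insert_subset (Finset.mem_sdiff.1 hw).1 hxy),
          xs_up hx hs⟩
      rcases hz with rfl | hz
      · exact aux a ha
      · rw [Set.mem_singleton_iff.1 hz]; exact aux b hb
  · have hx3 : x.1.card = 3 := by omega
    obtain ⟨e₁, e₂, hne, he⟩ := xs_tri_edges hx3 hx.1 hx.2
    have h1 := (he e₁).2 (Or.inl rfl)
    have h2 := (he e₂).2 (Or.inr rfl)
    have hcl : ∀ e : Finset V, e ⊆ x.1 ∧ e.card = 2 ∧ Meets e U ∧ Meets e Uᶜ → Clq G e :=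
      fun e he => xs_clq_sub x.2 he.1 (Finset.card_pos.1 (by omega))
    refine ⟨⟨e₁, hcl _ h1⟩, ⟨e₂, hcl _ h2⟩, fun e => hne (congrArg Subtype.val e),
      Set.Subset.antisymm (fun z hz => ?_) fun z hz => ?_⟩
    · obtain ⟨k1, k2, k3, k4⟩ := key z hz
      obtain ⟨-, -, h3, -, h5⟩ := xs_mem_lk2.1 hz
      rcases (he z.1).1 ⟨xs_sub_of_card h3 (by omega), by omega, h5.1, h5.2⟩ with e | e
      · left; exact Subtype.ext e
      · right; exact Subtype.ext e
    · have aux : ∀ e : Finset V, ∀ he : e ⊆ x.1 ∧ e.card = 2 ∧ Meets e U ∧ Meets e Uᶜ,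
          (⟨e, hcl e he⟩ : Fc G) ∈ lk (sd G) {x, y} ∩ Xs G U := by
        intro e he
        exact xs_mem_lk2.2 ⟨xs_ne_of_card (by rw [he.2.1]; omega),
          xs_ne_of_card (by rw [he.2.1]; omega), xs_r_of_sub he.1, xs_r_of_sub (he.1.trans hxy),
          he.2.2⟩
      rcases hz with rfl | hz
      · exact aux e₁ h1
      · rw [Set.mem_singleton_iff.1 hz]; exact aux e₂ h2

theorem xs_vtx2 {G : Cx V} {U : Set V} (h : PMan G U) {v : Fc G} (hv : v ∈ Xs G U)
    (hc : v.1.card = 2) :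
    (lk (sd G) {v} ∩ Xs G U).Nonempty ∧ Conn (sd G) (lk (sd G) {v} ∩ Xs G U) := by
  obtain ⟨⟨w₀, hw₀⟩, hcon⟩ := h.con _ v.2 hv.1 hc.le
  have habove : ∀ z : Fc G, v.1 ⊆ z.1 → v.1.card < z.1.card → z ∈ lk (sd G) {v} ∩ Xs G U :=
    fun z hz hl => xs_mem_lk1.2 ⟨xs_ne_of_card hl.ne', xs_r_of_sup hz, xs_up hv hz⟩
  let f : V → Fc G := fun w =>
    if hw : w ∈ lk G v.1 then ⟨insert w v.1, xs_clq_insert v.2 hw⟩ else v
  have hf : ∀ w ∈ lk G v.1, (f w).1 = insert w v.1 := fun w hw => by simp only [f, dif_pos hw]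
  have hfm : ∀ w ∈ lk G v.1, f w ∈ lk (sd G) {v} ∩ Xs G U := fun w hw =>
    habove _ (by rw [hf w hw]; exact Finset.subset_insert _ _)
      (by rw [hf w hw, Finset.card_insert_of_notMem hw.1]; omega)
  refine ⟨⟨f w₀, hfm w₀ hw₀⟩, conn_of_base (f w₀) fun z hz => ?_⟩
  obtain ⟨h1, h2, h3⟩ := xs_mem_lk1.1 hz
  have hlt : v.1.card < z.1.card := by
    have := (xs_card h h3).1
    have : z.1.card ≠ v.1.card := fun e => h1 (xs_eq_of_card h2 e)
    omega
  have hsub : v.1 ⊆ z.1 := xs_sub_of_card ((sd G).symm _ _ h2) hlt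
  obtain ⟨w, hwz, hwv⟩ := Finset.exists_mem_notMem_of_card_lt_card hlt
  have hw : w ∈ lk G v.1 := xs_mem_lk z.2 hsub hwz hwv
  refine Relation.ReflTransGen.trans (rch_step hz (hfm w hw) (xs_r_of_sup ?_))
    (rch_map (f := f) (fun a ha b hb hab => ?_) (hcon w hw w₀ hw₀))
  · rw [hf w hw]; exact Finset.insert_subset hwz hsub
  · by_cases e : a = b
    · rw [e]; exact Relation.ReflTransGen.refl
    have hal := xs_lk_insert hb e ha hab
    let t : Fc G := ⟨insert a (insert b v.1), xs_clq_insert (xs_clq_insert v.2 hb) hal⟩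
    have ht : t ∈ lk (sd G) {v} ∩ Xs G U := by
      refine habove t ((Finset.subset_insert _ _).trans (Finset.subset_insert _ _)) ?_
      show v.1.card < (insert a (insert b v.1)).card
      rw [Finset.card_insert_of_notMem hal.1, Finset.card_insert_of_notMem hb.1]; omega
    refine Relation.ReflTransGen.trans (rch_step (hfm a ha) ht (xs_r_of_sub ?_))
      (rch_step ht (hfm b hb) (xs_r_of_sup ?_))
    · rw [hf a ha]; exact Finset.insert_subset_insert _ (Finset.subset_insert _ _)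
    · rw [hf b hb]; exact Finset.subset_insert _ _

theorem xs_vtx3 {G : Cx V} {U : Set V} (h : PMan G U) {v : Fc G} (hv : v ∈ Xs G U)
    (hc : v.1.card = 3) :
    (lk (sd G) {v} ∩ Xs G U).Nonempty ∧ Conn (sd G) (lk (sd G) {v} ∩ Xs G U) := by
  obtain ⟨a, b, -, hl⟩ := Set.ncard_eq_two.1 (h.tri _ v.2 hv.1 hc)
  have ha : a ∈ lk G v.1 := by rw [hl]; simp
  obtain ⟨e₁, e₂, -, he⟩ := xs_tri_edges hc hv.1 hv.2
  have h1 := (he e₁).2 (Or.inl rfl)
  let t : Fc G := ⟨insert a v.1, xs_clq_insert v.2 ha⟩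
  let e : Fc G := ⟨e₁, xs_clq_sub v.2 h1.1 (Finset.card_pos.1 (by omega))⟩
  have hvt : v.1 ⊆ t.1 := Finset.subset_insert _ _
  have hev : e.1 ⊆ v.1 := h1.1
  have ht : t ∈ lk (sd G) {v} ∩ Xs G U := by
    refine xs_mem_lk1.2 ⟨xs_ne_of_card ?_, xs_r_of_sup hvt, xs_up hv hvt⟩
    show (insert a v.1).card ≠ v.1.card
    rw [Finset.card_insert_of_notMem ha.1]; omega
  have hem : e ∈ lk (sd G) {v} ∩ Xs G U := by
    refine xs_mem_lk1.2 ⟨xs_ne_of_card ?_, xs_r_of_sub hev, h1.2.2⟩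
    show e₁.card ≠ v.1.card
    omega
  refine ⟨⟨t, ht⟩, conn_of_base t fun z hz => ?_⟩
  rcases (xs_mem_lk1.1 hz).2.1 with h2 | h2
  · exact rch_step hz ht (xs_r_of_sub ((Fc.le_iff.1 h2).trans hvt))
  · exact Relation.ReflTransGen.trans
      (rch_step hz hem (xs_r_of_sup (hev.trans (Fc.le_iff.1 h2))))
      (rch_step hem ht (xs_r_of_sub (hev.trans hvt)))

theorem xs_vtx4 {G : Cx V} {U : Set V} (h : PMan G U) {v : Fc G} (hv : v ∈ Xs G U)
    (hc : v.1.card = 4) :
    (lk (sd G) {v} ∩ Xs G U).Nonempty ∧ Conn (sd G) (lk (sd G) {v} ∩ Xs G U) := by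
  let f : Finset V → Fc G := fun s => if hs : Clq G s then ⟨s, hs⟩ else v
  have hf : ∀ s ⊆ v.1, s.Nonempty → (f s).1 = s := fun s hs hn => by
    simp only [f, dif_pos (xs_clq_sub v.2 hs hn)]
  have hfm : ∀ s ⊆ v.1, s.card ≤ 3 → Meets s U → Meets s Uᶜ →
      f s ∈ lk (sd G) {v} ∩ Xs G U := by
    intro s hs hcs m1 m2
    have hn : s.Nonempty := Finset.card_pos.1 (by have := xs_two_le m1 m2; omega)
    refine xs_mem_lk1.2 ⟨xs_ne_of_card (by rw [hf s hs hn]; omega),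
      xs_r_of_sub (by rw [hf s hs hn]; exact hs), ?_⟩
    show Meets (f s).1 U ∧ Meets (f s).1 Uᶜ
    rw [hf s hs hn]; exact ⟨m1, m2⟩
  have step : ∀ s t : Finset V, s ⊆ t → t ⊆ v.1 → t.card ≤ 3 → Meets s U → Meets s Uᶜ →
      Rch (sd G) (lk (sd G) {v} ∩ Xs G U) (f s) (f t) := by
    intro s t hst ht hct m1 m2
    have hn : s.Nonempty := Finset.card_pos.1 (by have := xs_two_le m1 m2; omega)
    refine rch_step (hfm s (hst.trans ht) ((Finset.card_le_card hst).trans hct) m1 m2)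
      (hfm t ht hct (xs_meets_mono m1 hst) (xs_meets_mono m2 hst)) (xs_r_of_sub ?_)
    rw [hf s (hst.trans ht) hn, hf t ht (hn.mono hst)]; exact hst
  obtain ⟨p', hp', hpU'⟩ := hv.1
  obtain ⟨q', hq', hqU'⟩ := hv.2
  have s3 : ∀ a ∈ v.1, ∀ b ∈ v.1, ∀ c ∈ v.1, ({a, b, c} : Finset V) ⊆ v.1 := by
    intro a ha b hb c hc y hy
    simp only [Finset.mem_insert, Finset.mem_singleton] at hy
    rcases hy with rfl | rfl | rfl <;> assumption
  have m0 := xs_meets_pair hpU' hqU'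
  refine ⟨⟨f {p', q'}, hfm _ ((Finset.subset_insert p' _).trans (s3 p' hp' p' hp' q' hq'))
    (Finset.card_le_two.trans (by omega)) m0.1 m0.2⟩, conn_of_base (f {p', q'}) fun z hz => ?_⟩
  obtain ⟨h1, h2, h3⟩ := xs_mem_lk1.1 hz
  have hlt : z.1.card < v.1.card := by
    have := (xs_card h h3).2
    have : z.1.card ≠ v.1.card := fun e => h1 (xs_eq_of_card h2 e)
    omega
  have hsub : z.1 ⊆ v.1 := xs_sub_of_card h2 hlt
  obtain ⟨p, hp, hpU⟩ := h3.1
  obtain ⟨q, hq, hqU⟩ := h3.2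
  have m1 := xs_meets_pair hpU hqU
  have m2 := xs_meets_pair hpU' hqU
  have hz' : f z.1 = z := Subtype.ext (hf _ hsub z.2.1)
  have a1 := step {p, q} z.1 (Finset.insert_subset hp (Finset.singleton_subset_iff.2 hq)) hsub
    (by omega) m1.1 m1.2
  have a2 := step {p, q} {p', p, q} (Finset.subset_insert _ _)
    (s3 p' hp' p (hsub hp) q (hsub hq)) Finset.card_le_three m1.1 m1.2
  have a3 := step {p', q} {p', p, q} (Finset.insert_subset_insert _ (Finset.subset_insert _ _))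
    (s3 p' hp' p (hsub hp) q (hsub hq)) Finset.card_le_three m2.1 m2.2
  have a4 := step {p', q} {p', q', q} (Finset.insert_subset_insert _ (Finset.subset_insert _ _))
    (s3 p' hp' q' hq' q (hsub hq)) Finset.card_le_three m2.1 m2.2
  have a5 := step {p', q'} {p', q', q}
    (Finset.insert_subset_insert _ (Finset.singleton_subset_iff.2 (Finset.mem_insert_self _ _)))
    (s3 p' hp' q' hq' q (hsub hq)) Finset.card_le_three m0.1 m0.2
  rw [hz'] at a1
  exact ((((rch_symm a1).trans a2).trans (rch_symm a3)).trans a4).trans (rch_symm a5)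

theorem xs_surf {G : Cx V} {U : Set V} (h : PMan G U) : Surf (sd G) (Xs G U) := by
  refine ⟨fun s hs hi => ?_, fun s hs hi hc => ?_, fun v hv => ?_⟩
  · have : s.card ≤ ({2, 3, 4} : Finset ℕ).card := by
      refine Finset.card_le_card_of_injOn (fun x => x.1.card) (fun x hx => ?_)
        fun x hx y hy e => xs_eq_of_card (hs.2 x hx y hy) e
      have := xs_card h (hi x hx)
      simp only [Finset.coe_insert, Finset.coe_singleton, Set.mem_insert_iff,
        Set.mem_singleton_iff]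
      omega
    simpa using this
  · obtain ⟨x, y, hxy, rfl⟩ := Finset.card_eq_two.1 hc
    have hx : x ∈ Xs G U := hi x (by simp)
    have hy : y ∈ Xs G U := hi y (by simp)
    have hr : (sd G).r x y := hs.2 x (by simp) y (by simp)
    have hne : x.1.card ≠ y.1.card := fun e => hxy (xs_eq_of_card hr e)
    rcases lt_or_gt_of_ne hne with hl | hl
    · exact xs_edg h hx hy (xs_sub_of_card hr hl) hl
    · rw [Finset.pair_comm]
      exact xs_edg h hy hx (xs_sub_of_card ((sd G).symm _ _ hr) hl) hl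
  · have := xs_card h hv
    have h3 : v.1.card = 2 ∨ v.1.card = 3 ∨ v.1.card = 4 := by omega
    rcases h3 with e | e | e
    · exact xs_vtx2 h hv e
    · exact xs_vtx3 h hv e
    · exact xs_vtx4 h hv e

end KG
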