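import Pool.Agent.Work.MP_c146e2_gt.KG.Chi
import Pool.Agent.Work.MP_c146e2_gt.KG.Lin
import Pool.Agent.Work.MP_c146e2_gt.KG.XSa

set_option autoImplicit false

noncomputable section

open scoped Classical

namespace KG

variable {V V' : Type}

theorem surf_xs [Fintype V] {G : Cx V} {U : Set V} (h : PMan G U) : Surf (sd G) (Xs G U) :=
  xs_surf h

theorem xs_compl (G : Cx V) (U : Set V) : Xs G Uᶜ = Xs G U := by
  ext s
  simp only [Xs, Set.mem_ofPred_eq, compl_compl]
  exact and_comm

theorem xs_clq_union {G : Cx V} {r t : Finset V} (hr : Clq G r) (ht : ∀ a ∈ t, ∀ b ∈ t, G.r a b)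
    (hi : Ins t (lk G r)) : Clq G (r ∪ t) := by
  refine ⟨hr.1.mono Finset.subset_union_left, fun a ha b hb => ?_⟩
  rcases Finset.mem_union.1 ha with ha | ha <;> rcases Finset.mem_union.1 hb with hb | hb
  · exact hr.2 a ha b hb
  · exact G.symm _ _ ((hi b hb).2 a ha)
  · exact (hi a ha).2 b hb
  · exact ht a ha b hb

theorem xs_disj {G : Cx V} {r t : Finset V} (hi : Ins t (lk G r)) : Disjoint r t :=
  Finset.disjoint_right.2 fun a ha => (hi a ha).1

theorem xs_chi_lk3 [Fintype V] {G : Cx V} {U : Set V} (h : PMan G U) {s : Finset V}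
    (hs : Clq G s) (hU : Meets s U) (hc : s.card = 3) : chi G (lk G s) = 2 := by
  obtain ⟨a, b, hab, hl⟩ := Set.ncard_eq_two.1 (h.tri s hs hU hc)
  have ha : a ∈ lk G s := by rw [hl]; simp
  have hb : b ∈ lk G s := by rw [hl]; simp
  have hn : ¬ G.r a b := by
    intro hr
    have hal := xs_lk_insert hb hab ha hr
    have := h.dim _ (xs_clq_insert (xs_clq_insert hs hb) hal)
      (xs_meets_mono hU ((Finset.subset_insert _ _).trans (Finset.subset_insert _ _)))
    rw [Finset.card_insert_of_notMem hal.1, Finset.card_insert_of_notMem hb.1] at this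
    omega
  have h1 : ∀ c : V, chi G {c} = 1 := fun c =>
    chi_cone (c := c) rfl fun x hx => by rw [Set.mem_singleton_iff.1 hx]; exact G.refl _
  have hsep : Sep G {a} {b} := fun x hx y hy => by
    rw [Set.mem_singleton_iff.1 hx, Set.mem_singleton_iff.1 hy]; exact hn
  have := chi_sep hsep
  rw [h1, h1, Set.singleton_union] at this
  rw [hl, this]; rfl

theorem Man.chi_lk [Fintype V] {G : Cx V} {U : Set V} (h : Man G U) {s : Finset V} (hs : Clq G s)
    (hU : Meets s U) : chi G (lk G s) = 1 - (-1) ^ s.card := by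
  have h4 := h.dim s hs hU
  have h0 := Finset.card_pos.2 hs.1
  have hc : s.card = 1 ∨ s.card = 2 ∨ s.card = 3 ∨ s.card = 4 := by omega
  rcases hc with hc | hc | hc | hc
  · obtain ⟨v, rfl⟩ := Finset.card_eq_one.1 hc
    obtain ⟨a, ha, haU⟩ := hU
    rw [Finset.mem_singleton.1 ha] at haU
    rw [h.sph v haU, hc]; norm_num
  · rw [chi_cycle, hc]
    · norm_num
    · intro t ht hi
      have := h.dim _ (xs_clq_union hs ht.2 hi) (xs_meets_mono hU Finset.subset_union_left)
      rw [Finset.card_union_of_disjoint (xs_disj hi)] at this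
      omega
    · intro v hv
      have e : lk G {v} ∩ lk G s = lk G (insert v s) := by
        ext w
        simp only [lk, Set.mem_inter_iff, Set.mem_ofPred_eq, Finset.mem_singleton, forall_eq,
          Finset.mem_insert, not_or, forall_eq_or_imp]
        tauto
      rw [e]
      exact h.tri _ (xs_clq_insert hs hv) (xs_meets_mono hU (Finset.subset_insert _ _))
        (by rw [Finset.card_insert_of_notMem hv.1, hc])
  · rw [xs_chi_lk3 h.toPMan hs hU hc, hc]; norm_num
  · have e : lk G s = ∅ := by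
      refine Set.eq_empty_of_forall_notMem fun w hw => ?_
      have := h.dim _ (xs_clq_insert hs hw) (xs_meets_mono hU (Finset.subset_insert _ _))
      rw [Finset.card_insert_of_notMem hw.1] at this
      omega
    rw [e, chi_empty, hc]; norm_num

/-- The alternating count of the cliques that contain a clique. -/
theorem xs_star [Fintype V] {G : Cx V} {r : Finset V} (hr : Clq G r) :
    (∑ s : Finset V, if Clq G s ∧ r ⊆ s then (-1 : ℤ) ^ s.card else 0) =
      (-1) ^ r.card * (1 - chi G (lk G r)) := by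
  have e1 : 1 - chi G (lk G r) = ∑ t : Finset V,
      if (∀ a ∈ t, ∀ b ∈ t, G.r a b) ∧ Ins t (lk G r) then (-1 : ℤ) ^ t.card else 0 := by
    have e0 : (1 : ℤ) = ∑ t : Finset V, if t = ∅ then (1 : ℤ) else 0 := by simp
    rw [chi]
    conv_lhs => enter [1]; rw [e0]
    rw [← Finset.sum_sub_distrib]
    refine Finset.sum_congr rfl fun t _ => ?_
    by_cases ht : t = ∅
    · subst ht
      simp [Clq, Ins]
    · have hn : t.Nonempty := Finset.nonempty_iff_ne_empty.2 ht
      simp only [if_neg ht, Clq, hn, true_and]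
      split_ifs
      · ring
      · ring
  rw [e1, Finset.mul_sum, ← Finset.sum_filter]
  simp only [mul_ite, mul_zero]
  rw [← Finset.sum_filter]
  refine Finset.sum_nbij' (fun s => s \ r) (fun t => r ∪ t) (fun s hs => ?_) (fun t ht => ?_)
    (fun s hs => ?_) (fun t ht => ?_) fun s hs => ?_
  · obtain ⟨h1, h2⟩ := (Finset.mem_filter.1 hs).2
    refine Finset.mem_filter.2 ⟨Finset.mem_univ _, fun a ha b hb =>
      h1.2 a (Finset.mem_sdiff.1 ha).1 b (Finset.mem_sdiff.1 hb).1, fun a ha => ?_⟩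
    exact xs_mem_lk h1 h2 (Finset.mem_sdiff.1 ha).1 (Finset.mem_sdiff.1 ha).2
  · obtain ⟨h1, h2⟩ := (Finset.mem_filter.1 ht).2
    exact Finset.mem_filter.2 ⟨Finset.mem_univ _, xs_clq_union hr h1 h2, Finset.subset_union_left⟩
  · exact Finset.union_sdiff_of_subset (Finset.mem_filter.1 hs).2.2
  · exact Finset.union_sdiff_cancel_left (xs_disj (Finset.mem_filter.1 ht).2.2)
  · have h2 := (Finset.mem_filter.1 hs).2.2
    rw [← pow_add, Finset.card_sdiff_of_subset h2, Nat.add_sub_cancel' (Finset.card_le_card h2)]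

theorem xs_alt [Fintype V] {G : Cx V} {U : Set V} {s : Finset V} (hs : Clq G s) :
    (∑ r : Finset V, if (Clq G r ∧ Ins r U) ∧ r ⊆ s then (-1 : ℤ) ^ (r.card + 1) else 0) =
      if Meets s U then 1 else 0 := by
  have e0 : (1 : ℤ) = ∑ t : Finset V, if t = ∅ then (1 : ℤ) else 0 := by simp
  have e1 := Finset.sum_powerset_neg_one_pow_card (x := s.filter (· ∈ U))
  have e2 : (∑ m ∈ (s.filter (· ∈ U)).powerset, (-1 : ℤ) ^ m.card) =
      ∑ r : Finset V, if r ⊆ s.filter (· ∈ U) then (-1 : ℤ) ^ r.card else 0 := by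
    rw [← Finset.sum_filter]
    refine Finset.sum_congr ?_ fun _ _ => rfl
    ext r; simp
  have e3 : (∑ r : Finset V, if (Clq G r ∧ Ins r U) ∧ r ⊆ s then (-1 : ℤ) ^ (r.card + 1) else 0) =
      1 - ∑ r : Finset V, if r ⊆ s.filter (· ∈ U) then (-1 : ℤ) ^ r.card else 0 := by
    conv_rhs => enter [1]; rw [e0]
    rw [← Finset.sum_sub_distrib]
    refine Finset.sum_congr rfl fun t _ => ?_
    by_cases ht : t = ∅
    · subst ht
      simp [Clq]
    · have hn : t.Nonempty := Finset.nonempty_iff_ne_empty.2 ht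
      have hi : (Clq G t ∧ Ins t U) ∧ t ⊆ s ↔ t ⊆ s.filter (· ∈ U) := by
        constructor
        · rintro ⟨⟨-, h2⟩, h3⟩ a ha
          exact Finset.mem_filter.2 ⟨h3 ha, h2 a ha⟩
        · intro h1
          have h3 : t ⊆ s := h1.trans (Finset.filter_subset _ _)
          exact ⟨⟨xs_clq_sub hs h3 hn, fun a ha => (Finset.mem_filter.1 (h1 ha)).2⟩, h3⟩
      simp only [if_neg ht, hi]
      split_ifs
      · ring
      · ring
  rw [e3, ← e2, e1]
  by_cases hm : Meets s U
  · obtain ⟨a, ha, haU⟩ := id hm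
    rw [if_pos hm, if_neg (Finset.ne_empty_of_mem (Finset.mem_filter.2 ⟨ha, haU⟩))]; rfl
  · rw [if_neg hm, if_pos (Finset.filter_eq_empty_iff.2 fun a ha haU => hm ⟨a, ha, haU⟩)]; rfl

theorem Man.sum_meets [Fintype V] {G : Cx V} {U : Set V} (h : Man G U) :
    (∑ s : Finset V, if Clq G s ∧ Meets s U then (-1 : ℤ) ^ s.card else 0) = chi G U := by
  have e1 : chi G U = ∑ r : Finset V, ∑ s : Finset V,
      if Clq G s then (-1 : ℤ) ^ s.card *
        (if (Clq G r ∧ Ins r U) ∧ r ⊆ s then (-1 : ℤ) ^ (r.card + 1) else 0) else 0 := by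
    rw [chi]
    refine Finset.sum_congr rfl fun r _ => ?_
    by_cases hr : Clq G r ∧ Ins r U
    · obtain ⟨a, ha⟩ := hr.1.1
      have hst := xs_star hr.1
      rw [h.chi_lk hr.1 ⟨a, ha, hr.2 a ha⟩, sub_sub_cancel, ← pow_add,
        Even.neg_one_pow ⟨_, rfl⟩] at hst
      rw [if_pos hr]
      refine ((mul_one _).symm.trans (congrArg (_ * ·) hst.symm)).trans ?_
      rw [Finset.mul_sum]
      refine Finset.sum_congr rfl fun s _ => ?_
      by_cases h1 : Clq G s <;> by_cases h2 : r ⊆ s <;> simp [h1, h2, hr, mul_comm]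
    · simp [hr]
  rw [e1, Finset.sum_comm]
  refine Finset.sum_congr rfl fun s _ => ?_
  by_cases hs : Clq G s
  · simp only [hs, true_and, if_true]
    rw [← Finset.mul_sum, xs_alt hs]
    split_ifs <;> simp
  · simp [hs]

theorem Man.chi_xs [Fintype V] {G : Cx V} {U : Set V} (h : Man G U) :
    chi (sd G) (Xs G U) = 2 * chi G U := by
  rw [chi_xs_sum, two_mul]
  conv_rhs => rw [← h.sum_meets]; enter [2]; rw [h.sum_meets, chi]
  rw [← Finset.sum_add_distrib]
  refine Finset.sum_congr rfl fun s _ => ?_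
  by_cases hs : Clq G s
  · by_cases hi : Ins s U
    · obtain ⟨a, ha⟩ := hs.1
      have h1 : Meets s U := ⟨a, ha, hi a ha⟩
      have h2 : ¬ Meets s Uᶜ := fun ⟨b, hb, hbU⟩ => hbU (hi b hb)
      simp [hs, hi, h1, h2, pow_succ]
    · have h2 : Meets s Uᶜ := by
        by_contra hc
        exact hi fun a ha => by_contra fun hn => hc ⟨a, ha, hn⟩
      simp [hs, hi, h2]
  · simp [hs]

theorem Man.chi_zero [Fintype V] {G : Cx V} (h : Man G Set.univ) : chi G Set.univ = 0 := by
  have e : Xs G Set.univ = ∅ :=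
    Set.eq_empty_of_forall_notMem fun s ⟨_, a, _, ha⟩ => ha (Set.mem_univ a)
  have := h.chi_xs
  rw [e, chi_empty] at this
  omega

theorem xs_choose [Fintype V] (G : Cx V) {k : ℕ} (hk : 0 < k) :
    (∑ r : Finset V, if Clq G r ∧ r.card = k then (-1 : ℤ) ^ k * (1 - chi G (lk G r)) else 0) =
      ∑ s : Finset V, if Clq G s then (-1 : ℤ) ^ s.card * (s.card.choose k) else 0 := by
  have e1 : ∀ r : Finset V,
      (if Clq G r ∧ r.card = k then (-1 : ℤ) ^ k * (1 - chi G (lk G r)) else 0) =
      ∑ s : Finset V, if Clq G s then (-1 : ℤ) ^ s.card *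
        (if (Clq G r ∧ r.card = k) ∧ r ⊆ s then (1 : ℤ) else 0) else 0 := by
    intro r
    by_cases hr : Clq G r ∧ r.card = k
    · rw [if_pos hr, ← hr.2, ← xs_star hr.1]
      refine Finset.sum_congr rfl fun s _ => ?_
      by_cases h1 : Clq G s <;> by_cases h2 : r ⊆ s <;> simp [h1, h2, hr.1]
    · simp [hr]
  rw [Finset.sum_congr rfl fun r _ => e1 r, Finset.sum_comm]
  refine Finset.sum_congr rfl fun s _ => ?_
  by_cases hs : Clq G s
  · simp only [hs, if_true]
    rw [← Finset.mul_sum, Finset.sum_boole, ← Finset.card_powersetCard]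
    congr 3
    ext r
    simp only [Finset.mem_filter, Finset.mem_univ, true_and, Finset.mem_powersetCard]
    constructor
    · rintro ⟨⟨-, h2⟩, h3⟩
      exact ⟨h3, h2⟩
    · rintro ⟨h3, h2⟩
      exact ⟨⟨xs_clq_sub hs h3 (Finset.card_pos.1 (by omega)), h2⟩, h3⟩
  · simp [hs]

theorem man_of_chi [Fintype V] {G : Cx V} (h : PMan G Set.univ) (h0 : chi G Set.univ = 0) :
    Man G Set.univ := by
  have hm : ∀ s, Clq G s → Meets s Set.univ := fun s hs => by
    obtain ⟨a, ha⟩ := hs.1
    exact ⟨a, ha, Set.mem_univ a⟩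
  have c1 := xs_choose G (k := 1) (by omega)
  have c3 := xs_choose G (k := 3) (by omega)
  have hsum : 2 * (∑ r : Finset V, if Clq G r ∧ r.card = 1 then 2 - chi G (lk G r) else 0) =
      4 * chi G Set.univ := by
    have e : 2 * (∑ r : Finset V, if Clq G r ∧ r.card = 1 then 2 - chi G (lk G r) else 0) -
        4 * chi G Set.univ + 2 * ((∑ r : Finset V, if Clq G r ∧ r.card = 1 then
          (-1 : ℤ) ^ 1 * (1 - chi G (lk G r)) else 0) -
          ∑ s : Finset V, if Clq G s then (-1 : ℤ) ^ s.card * (s.card.choose 1) else 0) -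
        ((∑ r : Finset V, if Clq G r ∧ r.card = 3 then
          (-1 : ℤ) ^ 3 * (1 - chi G (lk G r)) else 0) -
          ∑ s : Finset V, if Clq G s then (-1 : ℤ) ^ s.card * (s.card.choose 3) else 0) = 0 := by
      conv_lhs => enter [1, 1, 2, 2]; rw [chi]
      simp only [Finset.mul_sum, ← Finset.sum_sub_distrib, ← Finset.sum_add_distrib]
      refine Finset.sum_eq_zero fun s _ => ?_
      by_cases hs : Clq G s
      · have h4 := h.dim s hs (hm s hs)
        have h1 := Finset.card_pos.2 hs.1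
        have hi : Ins s Set.univ := fun a _ => Set.mem_univ a
        have hc : s.card = 1 ∨ s.card = 2 ∨ s.card = 3 ∨ s.card = 4 := by omega
        rcases hc with hc | hc | hc | hc
        · simp only [hs, hi, hc]; norm_num [Nat.choose]; ring
        · simp only [hs, hi, hc]; norm_num [Nat.choose]
        · rw [xs_chi_lk3 h hs (hm s hs) hc]; simp only [hs, hi, hc]; norm_num [Nat.choose]
        · simp only [hs, hi, hc]; norm_num [Nat.choose]
      · simp [hs]
    rw [c1, c3] at e
    linarith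
  have hnn : ∀ r ∈ (Finset.univ : Finset (Finset V)),
      0 ≤ if Clq G r ∧ r.card = 1 then 2 - chi G (lk G r) else 0 := by
    intro r _
    split_ifs with hr
    · obtain ⟨v, rfl⟩ := Finset.card_eq_one.1 hr.2
      have h1 := (h.surf (Set.mem_univ v)).chi_le.1
      rw [kc_eq_one.2 (h.con _ hr.1 (hm _ hr.1) (by omega))] at h1
      push_cast at h1
      omega
    · exact le_rfl
  have hz := (Finset.sum_eq_zero_iff_of_nonneg hnn).1 (by rw [h0] at hsum; omega)
  refine { h with sph := fun v _ => ?_ }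
  have hv : Clq G {v} := ⟨Finset.singleton_nonempty v, fun a ha b hb => by
    rw [Finset.mem_singleton.1 ha, Finset.mem_singleton.1 hb]; exact G.refl v⟩
  have := hz {v} (Finset.mem_univ _)
  rw [if_pos ⟨hv, Finset.card_singleton v⟩] at this
  omega

end KG
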