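import Pool.Agent.Work.MP_c146e2_gt.KG.BGP
import Pool.Agent.Work.MP_c146e2_gt.KG.CtSd
import Pool.Agent.Work.MP_c146e2_gt.KG.CtA
import Pool.Agent.Work.MP_c146e2_gt.KG.CtB
import Pool.Agent.Work.MP_c146e2_gt.KG.CtC
import Pool.Agent.Work.MP_c146e2_gt.KG.XS
import Pool.Agent.Work.MP_c146e2_gt.KG.Chi

set_option autoImplicit false

noncomputable section

open scoped Classical

namespace KG

variable {A : Finset Fn}

/-- The cell of a point. -/
def brefMk (B : Finset Fn) (p : E4) (hp : p ≠ 0) : Cell B := ⟨sv B p, p, hp, rfl⟩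

theorem bref_ex (s : Cell A) : ∃ p hp, s = brefMk A p hp := by
  obtain ⟨p, hp, e⟩ := s.2
  exact ⟨p, hp, Subtype.ext e.symm⟩

theorem bref_res {B : Finset Fn} (h : A ⊆ B) (p : E4) (hp : p ≠ 0) :
    res h (brefMk B p hp) = brefMk A p hp := by
  refine Subtype.ext (funext fun l => ?_)
  by_cases hl : l ∈ A
  · simp only [res, brefMk, sv, if_pos hl, if_pos (h hl)]
  · simp only [res, brefMk, sv, if_neg hl]

theorem bref_zle (s t : SignType) : zle (s : ℤ) (t : ℤ) ↔ s = 0 ∨ s = t := by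
  rcases SignType.trichotomy s with rfl | rfl | rfl <;>
    rcases SignType.trichotomy t with rfl | rfl | rfl <;> simp [zle]

theorem contr_ins (hA : Ess A) (l : Fn) :
    Contr (ord (Cell (insert l A))) (ord (Cell A)) Set.univ Set.univ
      (res (Finset.subset_insert l A)) := by
  have hs := Finset.subset_insert l A
  have hl : ∀ p : E4, sv (insert l A) p l = SignType.sign (l p) := fun p =>
    if_pos (Finset.mem_insert_self l A)
  let At : Cell A → SignType → Prop := fun s σ => ∃ x, res hs x = s ∧ x.1 l = σ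
  have hin : ∀ x : Cell (insert l A),
      (if At (res hs x) (-1) then -1 else if At (res hs x) 0 then 0 else 1 : ℤ) ≤ (x.1 l : ℤ) ∧
      (x.1 l : ℤ) ≤ if At (res hs x) 1 then 1 else if At (res hs x) 0 then 0 else -1 := by
    intro x
    have h : At (res hs x) (x.1 l) := ⟨x, rfl, rfl⟩
    rcases SignType.trichotomy (x.1 l) with e | e | e <;> rw [e] at h ⊢ <;> simp only [h] <;>
      constructor <;> (try split_ifs) <;> simp
  refine contr_zig (res hs) (fun x => (x.1 l : ℤ))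
    (fun s => if At s (-1) then -1 else if At s 0 then 0 else 1)
    (fun s => if At s 1 then 1 else if At s 0 then 0 else -1) (fun s => ?_) (fun x y => ?_) hin
    (fun s j h1 h2 => ?_) fun x s h => ?_
  · obtain ⟨p, hp, rfl⟩ := bref_ex s
    have := hin (brefMk _ p hp)
    rw [bref_res] at this
    exact this.1.trans this.2
  · rw [bref_zle]
    refine ⟨fun h => ⟨fun k => ?_, h l⟩, fun h k => ?_⟩
    · by_cases hk : k ∈ A
      · simpa only [res, if_pos hk] using h k
      · exact Or.inl (if_neg hk)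
    · by_cases hk : k ∈ A
      · simpa only [res, if_pos hk] using h.1 k
      · by_cases e : k = l
        · exact e ▸ h.2
        · exact Or.inl (x.zero fun h' => (Finset.mem_insert.1 h').elim e hk)
  · have h0 : At s (-1) → At s 1 → At s 0 := by
      rintro ⟨x, rfl, hx⟩ ⟨y, e, hy⟩
      obtain ⟨p, hp, rfl⟩ := bref_ex x
      obtain ⟨q, hq, rfl⟩ := bref_ex y
      rw [bref_res, bref_res] at e
      have e' : sv A q = sv A p := congrArg Subtype.val e
      have h3 : l p < 0 := sign_eq_neg_one_iff.1 ((hl p).symm.trans hx)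
      have h4 : 0 < l q := sign_eq_one_iff.1 ((hl q).symm.trans hy)
      have h5 : sv A ((-l p) • q + l q • p) = sv A p := by
        rw [sv_add, sv_smul A h4]
        rw [sv_smul A h4, sv_smul A (neg_pos.2 h3), e']
        exact fun _ => Or.inr rfl
      have h6 : (-l p) • q + l q • p ≠ 0 := fun e0 => hA.sv_ne hp (by rw [← h5, e0])
      refine ⟨brefMk _ _ h6, ?_, (hl _).trans ?_⟩
      · rw [bref_res, bref_res]
        exact Subtype.ext h5
      · rw [sign_eq_zero_iff, map_add, map_smul, map_smul, smul_eq_mul, smul_eq_mul]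
        ring
    have key : ∃ σ : SignType, At s σ ∧ (σ : ℤ) = j := by
      by_cases a : At s (-1) <;> by_cases b : At s 0 <;> by_cases c : At s 1 <;>
        simp only [a, b, c, if_true, if_false] at h1 h2 <;>
        (try exact absurd (h0 a c) b) <;> interval_cases j <;>
        first | exact ⟨-1, a, rfl⟩ | exact ⟨0, b, rfl⟩ | exact ⟨1, c, rfl⟩
    obtain ⟨σ, ⟨x, e1, e2⟩, e3⟩ := key
    exact ⟨x, e1, e2 ▸ e3⟩
  · obtain ⟨p, hp, rfl⟩ := bref_ex x
    obtain ⟨q, hq, rfl⟩ := bref_ex s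
    rw [bref_res] at h
    obtain ⟨ε, hε, h1⟩ := sv_cmp (insert l A) p q
    have h2 : sv A (p + ε • q) = sv A q := by
      rw [sv_add, sv_smul A hε]
      rw [sv_smul A hε]
      exact h
    have h3 : p + ε • q ≠ 0 := fun e0 => hA.sv_ne hq (by rw [← h2, e0])
    refine ⟨brefMk _ _ h3, ?_, ?_⟩
    · rw [bref_res]
      exact Subtype.ext h2
    · change sle (sv _ p) (sv _ (p + ε • q))
      rw [h1 ε hε le_rfl]
      exact sle_cmp _ _

theorem bref_contr {B : Finset Fn} (hB : Ess B) (h : A ⊆ B) (l : Fn) (Z : Set (Cell A)) :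
    Contr (ord (Cell (insert l B))) (ord (Cell B))
      (res (h.trans (Finset.subset_insert l B)) ⁻¹' Z) (res h ⁻¹' Z)
      (res (Finset.subset_insert l B)) := by
  have e : res (h.trans (Finset.subset_insert l B)) ⁻¹' Z =
      Set.univ ∩ res (Finset.subset_insert l B) ⁻¹' (res h ⁻¹' Z) := by
    ext s
    simp only [Set.mem_preimage, Set.univ_inter, res_res]
  rw [e]
  exact (contr_ins hB l).restrict (Set.subset_univ _)

theorem bref_ind (hA : Ess A) {Q : (B : Finset Fn) → A ⊆ B → Prop}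
    (h0 : Q A (Finset.Subset.refl A))
    (h1 : ∀ B (h : A ⊆ B) l, Ess B → Ess (insert l B) → Q B h →
      Q (insert l B) (h.trans (Finset.subset_insert l B))) (B : Finset Fn) (hB : Ess B)
    (h : A ⊆ B) : Q B h := by
  have key : ∀ C B : Finset Fn, Ess B → ∀ h : A ⊆ B, B = A ∪ C → Q B h := by
    intro C
    induction C using Finset.induction_on with
    | empty =>
      intro B _ h e
      rw [Finset.union_empty] at e
      subst e
      exact h0
    | insert l C _ ih =>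
      intro B hB h e
      rw [Finset.union_insert] at e
      subst e
      have hC := hA.mono hB Finset.subset_union_left (Finset.subset_insert l _)
      exact h1 _ Finset.subset_union_left l hC hB (ih _ hC _ rfl)
  exact key B B hB h (Finset.union_eq_right.2 h).symm

theorem bref_self (Z : Set (Cell A)) : res (Finset.Subset.refl A) ⁻¹' Z = Z := by
  ext s
  rw [Set.mem_preimage, res_self]

theorem chi_res (hA : Ess A) {B : Finset Fn} (hB : Ess B) (h : A ⊆ B) (Z : Set (Cell A)) :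
    chi (ord (Cell B)) (res h ⁻¹' Z) = chi (ord (Cell A)) Z := by
  refine bref_ind hA (Q := fun B h => chi (ord (Cell B)) (res h ⁻¹' Z) = chi (ord (Cell A)) Z)
    (by rw [bref_self]) (fun B h l hB _ ih => ?_) B hB h
  exact (bref_contr hB h l Z).chi.trans ih

theorem conn_res (hA : Ess A) {B : Finset Fn} (hB : Ess B) (h : A ⊆ B) (Z : Set (Cell A)) :
    Conn (ord (Cell B)) (res h ⁻¹' Z) ↔ Conn (ord (Cell A)) Z := by
  refine bref_ind hA (Q := fun B h => Conn (ord (Cell B)) (res h ⁻¹' Z) ↔ Conn (ord (Cell A)) Z)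
    (by rw [bref_self]) (fun B h l hB _ ih => ?_) B hB h
  exact (bref_contr hB h l Z).conn.trans ih

theorem bref_sv {e : E4} {k : Fn} (hk : k ∈ A) (he : ∀ l ∈ A, l ≠ k → l e = 0) (l : Fn) :
    sv A e l = if l = k then SignType.sign (k e) else 0 := by
  by_cases h : l = k
  · rw [if_pos h, h, sv, if_pos hk]
  · rw [if_neg h, sv]
    split_ifs with hl
    · rw [he l hl h, sign_zero]
    · rfl

theorem bref_sign {σ τ : SignType} (h : σ ≠ 0) (h1 : τ ≠ 0) (h2 : τ ≠ -σ) : τ = σ := by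
  revert σ τ
  decide

theorem bref_half (hA : Ess A) {e : E4} {k : Fn} (hk : k ∈ A) (h0 : k e ≠ 0)
    (he : ∀ l ∈ A, l ≠ k → l e = 0) (J : Set Fn) (hJ : ∀ l ∈ J, l e = 0) :
    chi (ord (Cell A)) {s | (∀ l ∈ J, s.1 l = 0) ∧ s.1 k ≠ -SignType.sign (k e)} = 1 ∧
      Conn (ord (Cell A)) {s | (∀ l ∈ J, s.1 l = 0) ∧ s.1 k ≠ -SignType.sign (k e)} := by
  obtain ⟨σ, hσ⟩ : ∃ σ, σ = SignType.sign (k e) := ⟨_, rfl⟩
  have hv := bref_sv hk he
  rw [← hσ] at hv ⊢
  have hσ0 : σ ≠ 0 := fun h => h0 (sign_eq_zero_iff.1 (hσ ▸ h))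
  have hσ1 : σ ≠ -σ := fun h => hσ0 (SignType.self_eq_neg_iff.1 h)
  have hkJ : ∀ l ∈ J, l ≠ k := fun l hl h => h0 (h ▸ hJ l hl)
  choose ρ hρ using fun s : Cell A => exists_cmp hA s e
  have hρ' : ∀ s : Cell A, s.1 k ≠ -σ → ∀ l, (ρ s).1 l = if l = k then σ else s.1 l := by
    intro s hs l
    rw [hρ, cmp, hv]
    by_cases h : l = k
    · rw [if_pos h, if_pos h, h]
      split_ifs with h1
      · rfl
      · exact bref_sign hσ0 h1 hs
    · rw [if_neg h, if_neg h]
      split_ifs with h1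
      · exact h1.symm
      · rfl
  have he0 : e ≠ 0 := fun h => h0 (by rw [h, map_zero])
  have hc : ∀ a : Cell A, a.1 k = σ → brefMk A e he0 ≤ a := fun a ha l => by
    change sv A e l = 0 ∨ sv A e l = a.1 l
    rw [hv]
    split_ifs with h
    · exact Or.inr (by rw [h, ha])
    · exact Or.inl rfl
  have hT : {s : Cell A | (∀ l ∈ J, s.1 l = 0) ∧ s.1 k = σ} ⊆
      {s | (∀ l ∈ J, s.1 l = 0) ∧ s.1 k ≠ -σ} := fun s hs => ⟨hs.1, hs.2 ▸ hσ1⟩
  have hm : ∀ s ∈ {s : Cell A | (∀ l ∈ J, s.1 l = 0) ∧ s.1 k ≠ -σ},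
      ρ s ∈ {s : Cell A | (∀ l ∈ J, s.1 l = 0) ∧ s.1 k = σ} := fun s hs =>
    ⟨fun l hl => by rw [hρ' s hs.2, if_neg (hkJ l hl), hs.1 l hl], by rw [hρ' s hs.2, if_pos rfl]⟩
  have hle : ∀ s : Cell A, s ≤ ρ s := fun s => by
    rw [Cell.le_iff, hρ]
    exact sle_cmp _ _
  have hcT : brefMk A e he0 ∈ {s : Cell A | (∀ l ∈ J, s.1 l = 0) ∧ s.1 k = σ} :=
    ⟨fun l hl => (hv l).trans (if_neg (hkJ l hl)), (hv k).trans (if_pos rfl)⟩
  constructor
  · rw [chi_infl ρ hT hm (fun s _ => hle s) (fun s hs => Subtype.ext (funext fun l => ?_))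
      fun x hx y hy hxy l => ?_]
    · exact chi_cone hcT fun a ha => Or.inr (hc a ha.2)
    · rw [hρ' s (hT hs).2]
      split_ifs with h
      · rw [h, hs.2]
      · rfl
    · rw [hρ' x hx.2, hρ' y hy.2]
      split_ifs with h
      · exact Or.inr rfl
      · exact hxy l
  · exact conn_of_base (brefMk A e he0) fun a ha => bas_trans
      (rch_step ha (hT (hm a ha)) (Or.inl (hle a)))
      (rch_step (hT (hm a ha)) (hT hcT) (Or.inr (hc _ (hm a ha).2)))

theorem bref_step (hA : Ess A) {e : E4} {k : Fn} (hk : k ∈ A) (h0 : 0 < k e)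
    (he : ∀ l ∈ A, l ≠ k → l e = 0) (J : Set Fn) (hJ : ∀ l ∈ J, l e = 0) :
    chi (ord (Cell A)) {s | ∀ l ∈ J, s.1 l = 0} +
      chi (ord (Cell A)) {s | ∀ l ∈ insert k J, s.1 l = 0} = 2 := by
  have h1 := (bref_half hA hk h0.ne' he J hJ).1
  have h2 := (bref_half hA (e := -e) hk (by rw [map_neg]; exact neg_ne_zero.2 h0.ne')
    (fun l hl h => by rw [map_neg, he l hl h, neg_zero]) J
    (fun l hl => by rw [map_neg, hJ l hl, neg_zero])).1
  rw [sign_pos h0] at h1
  rw [map_neg, Left.sign_neg, neg_neg, sign_pos h0] at h2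
  have h3 := chi_union (G := ord (Cell A)) (A := {s | (∀ l ∈ J, s.1 l = 0) ∧ s.1 k ≠ -1})
    (B := {s | (∀ l ∈ J, s.1 l = 0) ∧ s.1 k ≠ 1}) fun s hs hi => by
      by_contra hn
      obtain ⟨n1, n2⟩ := not_or.1 hn
      have hJ' : ∀ a ∈ s, ∀ l ∈ J, a.1 l = 0 := fun a ha => (hi a ha).elim And.left And.left
      obtain ⟨a, ha, ea⟩ : ∃ a ∈ s, a.1 k = -1 := by
        by_contra hc
        exact n1 fun a ha => ⟨hJ' a ha, fun h => hc ⟨a, ha, h⟩⟩
      obtain ⟨b, hb, eb⟩ : ∃ b ∈ s, b.1 k = 1 := by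
        by_contra hc
        exact n2 fun a ha => ⟨hJ' a ha, fun h => hc ⟨a, ha, h⟩⟩
      rcases hs.2 a ha b hb with h | h <;> have h' := h k <;> rw [ea, eb] at h' <;>
        simp at h'
  have e1 : {s : Cell A | (∀ l ∈ J, s.1 l = 0) ∧ s.1 k ≠ -1} ∪
      {s | (∀ l ∈ J, s.1 l = 0) ∧ s.1 k ≠ 1} = {s | ∀ l ∈ J, s.1 l = 0} := by
    refine Set.Subset.antisymm (fun s hs => hs.elim And.left And.left) fun s hs => ?_
    by_cases h : s.1 k = -1
    · exact Or.inr ⟨hs, by rw [h]; simp⟩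
    · exact Or.inl ⟨hs, h⟩
  have e2 : {s : Cell A | (∀ l ∈ J, s.1 l = 0) ∧ s.1 k ≠ -1} ∩
      {s | (∀ l ∈ J, s.1 l = 0) ∧ s.1 k ≠ 1} = {s | ∀ l ∈ insert k J, s.1 l = 0} := by
    refine Set.Subset.antisymm (fun s hs l hl => ?_) fun s hs => ?_
    · rcases hl with rfl | hl
      · rcases SignType.trichotomy (s.1 l) with h | h | h
        · exact absurd h hs.1.2
        · exact h
        · exact absurd h hs.2.2
      · exact hs.1.1 l hl
    · have h := hs k (Set.mem_insert k J)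
      have h' : ∀ l ∈ J, s.1 l = 0 := fun l hl => hs l (Set.mem_insert_of_mem k hl)
      exact ⟨⟨h', by rw [h]; simp⟩, h', by rw [h]; simp⟩
  rw [e1, e2, h1, h2] at h3
  exact h3

theorem bref_e0 {c : ℝ} : ∀ l ∈ A0, l ≠ fw → l ((c, 0, 0, 0) : E4) = 0 := by
  simp +contextual [A0, af, lx, ly, lz]

theorem bref_inf : chi (ord (Cell A0)) (Aff A0)ᶜ = 1 ∧ Conn (ord (Cell A0)) (Aff A0)ᶜ := by
  have h := bref_half ess_A0 (e := (-1, 0, 0, 0)) ess_A0.fw_mem (by simp [fw]) bref_e0 ∅ (by simp)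
  have e : {s : Cell A0 | (∀ l ∈ (∅ : Set Fn), s.1 l = 0) ∧
      s.1 fw ≠ -SignType.sign (fw ((-1, 0, 0, 0) : E4))} = (Aff A0)ᶜ := by
    have : -SignType.sign (fw ((-1, 0, 0, 0) : E4)) = 1 := by simp [fw]
    rw [this]
    ext s
    simp [Aff]
  rwa [e] at h

theorem chi_A0 : chi (ord (Cell A0)) Set.univ = 0 ∧ chi (ord (Cell A0)) (Aff A0)ᶜ = 1 := by
  refine ⟨?_, bref_inf.1⟩
  have m0 : fw ∈ A0 := by simp [A0]
  have m1 : af lx 0 ∈ A0 := by simp [A0]
  have m2 : af ly 0 ∈ A0 := by simp [A0]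
  have m3 : af lz 0 ∈ A0 := by simp [A0]
  have h0 := bref_step ess_A0 (e := (1, 0, 0, 0)) m0 (by simp [fw]) bref_e0 ∅ (by simp)
  have h1 := bref_step ess_A0 (e := (0, 1, 0, 0)) m1 (by simp [af, lx, fw])
    (by simp +contextual [A0, af, lx, ly, lz, fw]) (insert fw ∅) (by simp [fw])
  have h2 := bref_step ess_A0 (e := (0, 0, 1, 0)) m2 (by simp [af, ly, fw])
    (by simp +contextual [A0, af, lx, ly, lz, fw]) (insert (af lx 0) (insert fw ∅))
    (by simp [af, lx, fw])
  have h3 := bref_step ess_A0 (e := (0, 0, 0, 1)) m3 (by simp [af, lz, fw])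
    (by simp +contextual [A0, af, lx, ly, lz, fw])
    (insert (af ly 0) (insert (af lx 0) (insert fw ∅))) (by simp [af, lx, ly, fw])
  have e0 : {s : Cell A0 | ∀ l ∈ (∅ : Set Fn), s.1 l = 0} = Set.univ := by simp
  have e4 : {s : Cell A0 | ∀ l ∈ insert (af lz 0) (insert (af ly 0) (insert (af lx 0)
      (insert fw (∅ : Set Fn)))), s.1 l = 0} = ∅ := by
    refine Set.eq_empty_of_forall_notMem fun s hs => ?_
    obtain ⟨p, hp, rfl⟩ := bref_ex s
    refine hp (ess_A0.eq_zero fun l hl => sign_eq_zero_iff.1 ((if_pos hl).symm.trans (hs l ?_)))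
    simp only [A0, Finset.mem_insert, Finset.mem_singleton] at hl
    rcases hl with rfl | rfl | rfl | rfl <;> simp
  rw [e0] at h0
  rw [e4, chi_empty] at h3
  linarith

theorem man_cell (hA : Ess A) : Man (ord (Cell A)) Set.univ := by
  refine man_of_chi (pman_cell hA) ?_
  rw [← chi_A0.1, ← chi_res ess_A0 hA hA.1, Set.preimage_univ]

theorem tv_res (hA : Ess A) {B : Finset Fn} (hB : Ess B) (h : A ⊆ B) (Z : Set (Cell A)) :
    tv (ord (Cell B)) (res h ⁻¹' Z) = tv (ord (Cell A)) Z := by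
  refine bref_ind hA (Q := fun B h => tv (ord (Cell B)) (res h ⁻¹' Z) = tv (ord (Cell A)) Z)
    (by rw [bref_self]) (fun B h l hB hB' ih => ?_) B hB h
  have := (bref_contr hB h l Zᶜ).tv ((man_cell hB').mono (Set.subset_univ _))
  rw [Set.preimage_compl, Set.preimage_compl, compl_compl, compl_compl] at this
  exact this.trans ih

theorem chi_inf (hA : Ess A) : chi (ord (Cell A)) (Aff A)ᶜ = 1 := by
  rw [← aff_res ess_A0 hA.1, ← Set.preimage_compl, chi_res ess_A0 hA]
  exact chi_A0.2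

theorem conn_inf (hA : Ess A) : Conn (ord (Cell A)) (Aff A)ᶜ := by
  rw [← aff_res ess_A0 hA.1, ← Set.preimage_compl, conn_res ess_A0 hA]
  exact bref_inf.2

theorem conn_aff (hA : Ess A) : Conn (ord (Cell A)) (Aff A) := by
  rw [← aff_res ess_A0 hA.1, conn_res ess_A0 hA]
  have hv := bref_sv (e := (1, 0, 0, 0)) ess_A0.fw_mem bref_e0
  have e : SignType.sign (fw ((1, 0, 0, 0) : E4)) = 1 := by simp [fw]
  rw [e] at hv
  refine conn_of_cone (c := brefMk A0 (1, 0, 0, 0) (by simp)) ((hv fw).trans (if_pos rfl))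
    fun a ha => Or.inr fun l => ?_
  change sv A0 _ l = 0 ∨ sv A0 _ l = a.1 l
  rw [hv]
  split_ifs with h
  · exact Or.inr (h ▸ ha.symm)
  · exact Or.inl rfl

end KG
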