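import Pool.Agent.Work.MP_c146e2_gt.KG.Bas

set_option autoImplicit false

noncomputable section

open scoped Classical

namespace KG

variable {V V' : Type}

theorem exists_top {P : Type} [PartialOrder P] (s : Fc (ord P)) : ∃ t ∈ s.1, ∀ x ∈ s.1, x ≤ t := by
  obtain ⟨t, ht⟩ := Finset.exists_maximal s.2.1
  refine ⟨t, ht.1, fun x hx => ?_⟩
  rcases s.2.2 x hx t ht.1 with h | h
  · exact h
  · exact ht.2 hx h

theorem exists_bot {P : Type} [PartialOrder P] (s : Fc (ord P)) : ∃ t ∈ s.1, ∀ x ∈ s.1, t ≤ x := by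
  obtain ⟨t, ht⟩ := Finset.exists_minimal s.2.1
  refine ⟨t, ht.1, fun x hx => ?_⟩
  rcases s.2.2 x hx t ht.1 with h | h
  · exact ht.2 hx h
  · exact h

/-- The top element of a chain. -/
def ctop {P : Type} [PartialOrder P] (s : Fc (ord P)) : P := (exists_top s).choose

theorem ctop_mem {P : Type} [PartialOrder P] (s : Fc (ord P)) : ctop s ∈ s.1 :=
  (exists_top s).choose_spec.1

theorem le_ctop {P : Type} [PartialOrder P] {s : Fc (ord P)} {x : P} (h : x ∈ s.1) : x ≤ ctop s :=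
  (exists_top s).choose_spec.2 x h

theorem clq_single (G : Cx V) (a : V) : Clq G {a} := by
  refine ⟨Finset.singleton_nonempty a, fun x hx y hy => ?_⟩
  rw [Finset.mem_singleton.1 hx, Finset.mem_singleton.1 hy]
  exact G.refl a

theorem clq_pair {G : Cx V} {a b : V} (h : G.r a b) : Clq G {a, b} := by
  refine ⟨Finset.insert_nonempty _ _, fun x hx y hy => ?_⟩
  simp only [Finset.mem_insert, Finset.mem_singleton] at hx hy
  rcases hx with rfl | rfl <;> rcases hy with rfl | rfl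
  · exact G.refl _
  · exact h
  · exact G.symm _ _ h
  · exact G.refl _

theorem Clq.sub {G : Cx V} {s t : Finset V} (h : Clq G s) (ht : t ⊆ s) (hne : t.Nonempty) :
    Clq G t := by
  exact ⟨hne, fun a ha b hb => h.2 a (ht ha) b (ht hb)⟩

theorem h1_iso {G' : Cx V'} {G : Cx V} {S' : Set V'} {S : Set V} {f : V' → V}
    (hb : Set.BijOn f S' S) (hr : ∀ a ∈ S', ∀ b ∈ S', G'.r a b ↔ G.r (f a) (f b)) :
    H1 G' S' ↔ H1 G S := by
  have hsur : ∀ b, b ∈ S → ∃ a ∈ S', f a = b := fun b hb' => hb.surjOn hb'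
  choose g hg hfg using hsur
  constructor
  · intro h η hη
    obtain ⟨φ, hφ⟩ := h (fun a b => η (f a) (f b)) fun a ha b hb' c hc h1 h2 h3 =>
      hη _ (hb.mapsTo ha) _ (hb.mapsTo hb') _ (hb.mapsTo hc) ((hr a ha b hb').1 h1)
        ((hr b hb' c hc).1 h2) ((hr a ha c hc).1 h3)
    refine ⟨fun b => if h : b ∈ S then φ (g b h) else 0, fun a ha b hb' hab => ?_⟩
    have := hφ _ (hg a ha) _ (hg b hb') ((hr _ (hg a ha) _ (hg b hb')).2
      (by rw [hfg, hfg]; exact hab))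
    simp only [hfg] at this
    simp only [dif_pos ha, dif_pos hb']
    exact this
  · intro h η hη
    have hrr : ∀ a ha b hb', G.r a b → G'.r (g a ha) (g b hb') := fun a ha b hb' hab =>
      (hr _ (hg a ha) _ (hg b hb')).2 (by rw [hfg, hfg]; exact hab)
    obtain ⟨φ, hφ⟩ := h (fun a b => if ha : a ∈ S then if hb' : b ∈ S then η (g a ha) (g b hb')
      else 0 else 0) fun a ha b hb' c hc h1 h2 h3 => by
        simp only [dif_pos ha, dif_pos hb', dif_pos hc]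
        exact hη _ (hg a ha) _ (hg b hb') _ (hg c hc) (hrr _ _ _ _ h1) (hrr _ _ _ _ h2)
          (hrr _ _ _ _ h3)
    refine ⟨fun a => φ (f a), fun a ha b hb' hab => ?_⟩
    have := hφ _ (hb.mapsTo ha) _ (hb.mapsTo hb') ((hr a ha b hb').1 hab)
    simp only [dif_pos (hb.mapsTo ha), dif_pos (hb.mapsTo hb')] at this
    rw [hb.injOn (hg _ (hb.mapsTo ha)) ha (hfg _ _),
      hb.injOn (hg _ (hb.mapsTo hb')) hb' (hfg _ _)] at this
    exact this

theorem ct_rch {G' : Cx V'} {G : Cx V} {S' : Set V'} {S : Set V} {f : V' → V}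
    (hb : Set.BijOn f S' S) (hr : ∀ a ∈ S', ∀ b ∈ S', G'.r a b ↔ G.r (f a) (f b)) :
    ∀ a ∈ S', ∀ b ∈ S', Rch G' S' a b ↔ Rch G S (f a) (f b) := by
  intro a ha b hb'
  constructor
  · exact rch_map fun x hx y hy hxy =>
      rch_step (hb.mapsTo hx) (hb.mapsTo hy) ((hr x hx y hy).1 hxy)
  · have key : ∀ y, Rch G S (f a) y → ∀ b ∈ S', f b = y → Rch G' S' a b := by
      intro y hy
      induction hy with
      | refl =>
        intro b hb' e1
        rw [hb.injOn hb' ha e1]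
        exact Relation.ReflTransGen.refl
      | tail _ h2 ih =>
        intro b hb' e1
        obtain ⟨c, hc, e2⟩ := hb.surjOn h2.1
        exact (ih c hc e2).tail ⟨hc, hb', (hr c hc b hb').2 (by rw [e1, e2]; exact h2.2.2)⟩
    exact fun h => key _ h b hb' rfl

theorem conn_iso {G' : Cx V'} {G : Cx V} {S' : Set V'} {S : Set V} {f : V' → V}
    (hb : Set.BijOn f S' S) (hr : ∀ a ∈ S', ∀ b ∈ S', G'.r a b ↔ G.r (f a) (f b)) :
    Conn G' S' ↔ Conn G S := by
  constructor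
  · intro h a ha b hb'
    obtain ⟨a', ha', rfl⟩ := hb.surjOn ha
    obtain ⟨b', hb'', rfl⟩ := hb.surjOn hb'
    exact (ct_rch hb hr a' ha' b' hb'').1 (h a' ha' b' hb'')
  · intro h a ha b hb'
    exact (ct_rch hb hr a ha b hb').2 (h _ (hb.mapsTo ha) _ (hb.mapsTo hb'))

theorem kc_iso [Fintype V] [Fintype V'] {G' : Cx V'} {G : Cx V} {S' : Set V'} {S : Set V}
    {f : V' → V} (hb : Set.BijOn f S' S)
    (hr : ∀ a ∈ S', ∀ b ∈ S', G'.r a b ↔ G.r (f a) (f b)) : kc G' S' = kc G S := by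
  refine kc_eq_of_map f (fun a ha => hb.mapsTo ha) (fun b hb' => ?_) (ct_rch hb hr)
  obtain ⟨a, ha, rfl⟩ := hb.surjOn hb'
  exact ⟨a, ha, Relation.ReflTransGen.refl⟩

theorem thin_iso {G' : Cx V'} {G : Cx V} {S' : Set V'} {S : Set V} {f : V' → V}
    (hb : Set.BijOn f S' S) (hr : ∀ a ∈ S', ∀ b ∈ S', G'.r a b ↔ G.r (f a) (f b))
    (h : Thin G S) : Thin G' S' := by
  have key : ∀ s, Clq G' s → Ins s S' → Clq G (s.image f) ∧ Ins (s.image f) S ∧
      (s.image f).card = s.card := by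
    intro s h1 h2
    refine ⟨⟨h1.1.image f, fun a ha b hb' => ?_⟩, fun a ha => ?_, ?_⟩
    · obtain ⟨a', ha', rfl⟩ := Finset.mem_image.1 ha
      obtain ⟨b', hb'', rfl⟩ := Finset.mem_image.1 hb'
      exact (hr _ (h2 _ ha') _ (h2 _ hb'')).1 (h1.2 _ ha' _ hb'')
    · obtain ⟨a', ha', rfl⟩ := Finset.mem_image.1 ha
      exact hb.mapsTo (h2 _ ha')
    · exact Finset.card_image_of_injOn (hb.injOn.mono fun a ha => h2 a ha)
  refine ⟨fun s h1 h2 => ?_, fun s h1 h2 h3 => ?_⟩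
  · obtain ⟨k1, k2, k3⟩ := key s h1 h2
    rw [← k3]
    exact h.dim _ k1 k2
  · obtain ⟨k1, k2, k3⟩ := key s h1 h2
    have e1 : lk G (s.image f) ∩ S = f '' (lk G' s ∩ S') := by
      ext w
      constructor
      · rintro ⟨⟨w1, w2⟩, w3⟩
        obtain ⟨v, hv, rfl⟩ := hb.surjOn w3
        refine ⟨v, ⟨⟨fun hh => w1 (Finset.mem_image_of_mem f hh), fun a ha => ?_⟩, hv⟩, rfl⟩
        exact (hr v hv a (h2 a ha)).2 (w2 _ (Finset.mem_image_of_mem f ha))
      · rintro ⟨v, ⟨⟨w1, w2⟩, hv⟩, rfl⟩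
        refine ⟨⟨fun hh => ?_, fun a ha => ?_⟩, hb.mapsTo hv⟩
        · obtain ⟨a, ha, hav⟩ := Finset.mem_image.1 hh
          exact w1 (hb.injOn (h2 a ha) hv hav ▸ ha)
        · obtain ⟨a', ha', rfl⟩ := Finset.mem_image.1 ha
          exact (hr v hv a' (h2 a' ha')).1 (w2 a' ha')
    have e2 := h.edg _ k1 k2 (k3.trans h3)
    rwa [e1, Set.InjOn.ncard_image (hb.injOn.mono Set.inter_subset_right)] at e2

/-- The order on the double of a poset along a lower set. -/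
@[reducible] def dbO {P : Type} [PartialOrder P] (L X : Set P) (hL : IsLowerSet L)
    (hd : Disjoint L X) : PartialOrder (P × Bool) where
  le x y := x = y ∨ (x ∈ dbV L X ∧ y ∈ dbV L X ∧ x.1 ≤ y.1 ∧ (y.1 ∈ L → x.2 = y.2))
  lt x y := (x = y ∨ (x ∈ dbV L X ∧ y ∈ dbV L X ∧ x.1 ≤ y.1 ∧ (y.1 ∈ L → x.2 = y.2))) ∧
    ¬ (y = x ∨ (y ∈ dbV L X ∧ x ∈ dbV L X ∧ y.1 ≤ x.1 ∧ (x.1 ∈ L → y.2 = x.2)))
  lt_iff_le_not_ge _ _ := Iff.rfl
  le_refl _ := Or.inl rfl
  le_trans := by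
    rintro x y z (rfl | h1) h2
    · exact h2
    · rcases h2 with rfl | h2
      · exact Or.inr h1
      · exact Or.inr ⟨h1.1, h2.2.1, h1.2.2.1.trans h2.2.2.1, fun hz =>
          (h1.2.2.2 (hL h2.2.2.1 hz)).trans (h2.2.2.2 hz)⟩
  le_antisymm := by
    have _ := hd
    rintro x y (rfl | h1) h2
    · rfl
    · rcases h2 with rfl | h2
      · rfl
      · have e1 : x.1 = y.1 := le_antisymm h1.2.2.1 h2.2.2.1
        refine Prod.ext e1 ?_
        by_cases hy : y.1 ∈ L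
        · exact h1.2.2.2 hy
        · have a1 := (h1.1.resolve_left (e1 ▸ hy)).2
          have a2 := (h1.2.1.resolve_left hy).2
          rw [a1, a2]

theorem ct_ext {G H : Cx V} (h : ∀ a b, G.r a b ↔ H.r a b) : G = H := by
  obtain ⟨r, _, _⟩ := G
  obtain ⟨r', _, _⟩ := H
  obtain rfl : r = r' := funext fun a => funext fun b => propext (h a b)
  rfl

theorem db_eq_ord {P : Type} [PartialOrder P] {L X : Set P} (hL : IsLowerSet L)
    (hd : Disjoint L X) : Db (ord P) L X = @ord (P × Bool) (dbO L X hL hd) := by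
  refine ct_ext fun x y => ⟨?_, ?_⟩
  · rintro (rfl | ⟨h1, h2, h3 | h3, h4⟩)
    · exact Or.inl (Or.inl rfl)
    · exact Or.inl (Or.inr ⟨h1, h2, h3, fun hy => h4 (hL h3 hy) hy⟩)
    · exact Or.inr (Or.inr ⟨h2, h1, h3, fun hx => (h4 hx (hL h3 hx)).symm⟩)
  · rintro ((rfl | ⟨h1, h2, h3, h4⟩) | (rfl | ⟨h1, h2, h3, h4⟩))
    · exact Or.inl rfl
    · exact Or.inr ⟨h1, h2, Or.inl h3, fun _ hy => h4 hy⟩
    · exact Or.inl rfl
    · exact Or.inr ⟨h2, h1, Or.inr h3, fun hx _ => (h4 hx).symm⟩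

theorem dn_lower (G : Cx V) (U : Set V) : IsLowerSet (dn G U) := by
  intro s t hts hs a ha
  exact hs a (Fc.le_iff.1 hts ha)

theorem dn_xs_disj (G : Cx V) (U : Set V) : Disjoint (dn G U) (Xs G U) := by
  rw [Set.disjoint_left]
  rintro s h1 ⟨-, a, ha, h2⟩
  exact h2 (h1 a ha)

theorem dn_union_xs (G : Cx V) (U : Set V) : dn G U ∪ Xs G U = up G U := by
  ext s
  constructor
  · rintro (h | h)
    · obtain ⟨a, ha⟩ := s.2.1
      exact ⟨a, ha, h a ha⟩
    · exact h.1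
  · intro h
    by_cases h1 : Ins s.1 U
    · exact Or.inl h1
    · refine Or.inr ⟨h, ?_⟩
      by_contra h2
      exact h1 fun a ha => by_contra fun h3 => h2 ⟨a, ha, h3⟩

theorem db_sep (G : Cx V) (L X : Set V) : Sep (Db G L X) (dbV L X)ᶜ (dbV L X) := by
  rintro a ha b hb (rfl | h)
  · exact ha hb
  · exact ha h.1

/-- Proper cofaces of `s` whose new vertices lie in `T`. -/
theorem conn_cof {G : Cx V} {s : Finset V} (hs : Clq G s) {T : Set V}
    (hne : (lk G s ∩ T).Nonempty) (hc : Conn G (lk G s ∩ T)) :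
    {t : Fc G | s ⊂ t.1 ∧ ∀ v ∈ t.1, v ∉ s → v ∈ T}.Nonempty ∧
      Conn (sd G) {t : Fc G | s ⊂ t.1 ∧ ∀ v ∈ t.1, v ∉ s → v ∈ T} := by
  obtain ⟨C, hC⟩ : ∃ C : Set (Fc G), C = {t : Fc G | s ⊂ t.1 ∧ ∀ v ∈ t.1, v ∉ s → v ∈ T} :=
    ⟨_, rfl⟩
  rw [← hC]
  have hmem : ∀ t : Fc G, t ∈ C ↔ s ⊂ t.1 ∧ ∀ v ∈ t.1, v ∉ s → v ∈ T := fun t => by
    rw [hC]; rfl
  have hins : ∀ (w : V) (r : Finset V), Clq G r → (∀ a ∈ r, G.r w a) → Clq G (insert w r) := by
    intro w r h1 h2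
    refine ⟨Finset.insert_nonempty _ _, fun a ha b hb => ?_⟩
    rcases Finset.mem_insert.1 ha with ha | ha <;> rcases Finset.mem_insert.1 hb with hb | hb
    · rw [ha, hb]; exact G.refl _
    · rw [ha]; exact h2 b hb
    · rw [hb]; exact G.symm _ _ (h2 a ha)
    · exact h1.2 a ha b hb
  obtain ⟨F, hF⟩ : ∃ F : V → Fc G, ∀ w ∈ lk G s ∩ T, (F w).1 = insert w s :=
    ⟨fun w => if h : Clq G (insert w s) then ⟨insert w s, h⟩ else ⟨s, hs⟩, fun w hw => by
      simp only [dif_pos (hins w s hs hw.1.2)]⟩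
  have hFC : ∀ w ∈ lk G s ∩ T, F w ∈ C := by
    intro w hw
    rw [hmem, hF w hw]
    refine ⟨Finset.ssubset_insert hw.1.1, fun v hv hvs => ?_⟩
    rw [(Finset.mem_insert.1 hv).resolve_right hvs]
    exact hw.2
  obtain ⟨w₀, hw₀⟩ := hne
  refine ⟨⟨F w₀, hFC w₀ hw₀⟩, conn_of_base (F w₀) fun t ht => ?_⟩
  obtain ⟨h1, h2⟩ := (hmem t).1 ht
  obtain ⟨w, hwt, hws⟩ := Finset.exists_of_ssubset h1
  have hw : w ∈ lk G s ∩ T := ⟨⟨hws, fun a ha => t.2.2 w hwt a (h1.1 ha)⟩, h2 w hwt hws⟩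
  have s1 : Rch (sd G) C t (F w) := rch_step ht (hFC w hw)
    (Or.inr (Fc.le_iff.2 (by rw [hF w hw]; exact Finset.insert_subset hwt h1.1)))
  refine s1.trans (rch_map (G' := G) (S' := lk G s ∩ T) (fun a ha b hb hab => ?_) (hc w hw w₀ hw₀))
  have hcl : Clq G (insert a (insert b s)) := hins a _ (hins b s hs hb.1.2) fun v hv => by
    rcases Finset.mem_insert.1 hv with hv | hv
    · rw [hv]; exact hab
    · exact ha.1.2 v hv
  obtain ⟨m, hmm⟩ : ∃ m : Fc G, m.1 = insert a (insert b s) := ⟨⟨_, hcl⟩, rfl⟩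
  have hm : m ∈ C := by
    rw [hmem, hmm]
    refine ⟨(Finset.ssubset_insert hb.1.1).trans_subset (Finset.subset_insert _ _),
      fun v hv hvs => ?_⟩
    rcases Finset.mem_insert.1 hv with hv | hv
    · rw [hv]; exact ha.2
    · rw [(Finset.mem_insert.1 hv).resolve_right hvs]; exact hb.2
  have s2 : Rch (sd G) C (F a) m := rch_step (hFC a ha) hm
    (Or.inl (Fc.le_iff.2 (by
      rw [hF a ha, hmm]; exact Finset.insert_subset_insert a (Finset.subset_insert _ _))))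
  have s3 : Rch (sd G) C m (F b) := rch_step hm (hFC b hb)
    (Or.inr (Fc.le_iff.2 (by rw [hF b hb, hmm]; exact Finset.subset_insert _ _)))
  exact s2.trans s3

end KG
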