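import Pool.Agent.Work.MP_c146e2_gt.KG.BGrA
import Pool.Agent.Work.MP_c146e2_gt.KG.BRef
import Pool.Agent.Work.MP_c146e2_gt.KG.Abs
import Pool.Agent.Work.MP_c146e2_gt.KG.CT

set_option autoImplicit false

noncomputable section

open scoped Classical

namespace KG

variable {n : ℕ × ℕ × ℕ}

theorem bgrb_inj : Function.Injective (gphi n) := fun _ _ e =>
  le_antisymm (gphi_le.1 e.le) (gphi_le.1 e.ge)

theorem bgrb_adj {a b : Box n} :
    (ord (Box n)).r a b ↔ (ord (Cell (grA n))).r (gphi n a) (gphi n b) :=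
  or_congr gphi_le.symm gphi_le.symm

theorem bgrb_aff (c : Box n) : gphi n c ∈ Aff (grA n) := gphi_range ▸ Set.mem_range_self c

theorem bgrb_sur {z : Cell (grA n)} (h : z ∈ Aff (grA n)) : ∃ c, gphi n c = z := by
  rw [← gphi_range] at h
  exact h

theorem bgrb_star {c : Box n} (hc : c ∉ Outr n) :
    StarIso (ord (Box n)) (ord (Cell (grA n))) (gphi n) c := by
  refine ⟨fun y z _ _ e => bgrb_inj e, fun y z _ _ => bgrb_adj, fun b hb => ?_⟩
  have h1 : b ∈ Aff (grA n) := hb.elim (fun h => aff_upper h (bgrb_aff c)) (gphi_low hc)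
  obtain ⟨y, rfl⟩ := bgrb_sur h1
  exact ⟨y, bgrb_adj.2 hb, rfl⟩

theorem man_box (n : ℕ × ℕ × ℕ) : Man (ord (Box n)) (Outr n)ᶜ :=
  man_pull (U := Set.univ) (fun _ hx => ⟨Set.mem_univ _, bgrb_star hx⟩) (man_cell (ess_grA n))

theorem bgrb_abs {K : Set (Box n)} (hK : GK K) :
    Absorb (ord (Cell (grA n))) (gphi n '' K ∪ (Aff (grA n))ᶜ)
      ((gphi n '' K ∪ (Aff (grA n))ᶜ) ∪ gphi n '' Outr n) := by
  obtain ⟨ρ, hρ⟩ := gphi_out (n := n)
  have h1 : ∀ z : Cell (grA n), ∃ w, (z ∉ gphi n '' Outr n → w = z) ∧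
      ∀ c ∈ Outr n, gphi n c = z → w = ρ c := fun z => by
    by_cases hz : z ∈ gphi n '' Outr n
    · obtain ⟨c, hc, rfl⟩ := hz
      exact ⟨ρ c, fun h => absurd ⟨c, hc, rfl⟩ h, fun c' _ e => bgrb_inj e ▸ rfl⟩
    · exact ⟨z, fun _ => rfl, fun c hc e => absurd ⟨c, hc, e⟩ hz⟩
  choose σ h2 h3 using h1
  have h4 : ∀ x, σ x ≤ x := fun x => by
    by_cases hz : x ∈ gphi n '' Outr n
    · obtain ⟨c, hc, rfl⟩ := hz
      rw [h3 _ c hc rfl]
      exact (hρ c hc).2.1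
    · exact (h2 x hz).le
  have h5 : ∀ x ∈ (gphi n '' K ∪ (Aff (grA n))ᶜ) ∪ gphi n '' Outr n,
      σ x ∈ gphi n '' K ∪ (Aff (grA n))ᶜ := fun x hx => by
    by_cases hz : x ∈ gphi n '' Outr n
    · obtain ⟨c, hc, rfl⟩ := hz
      rw [h3 _ c hc rfl]
      exact Or.inr (hρ c hc).1
    · rw [h2 x hz]
      exact hx.resolve_right hz
  refine abs_defl σ Set.subset_union_left h5 (fun x _ => h4 x) fun x hx y _ hxy => ?_
  by_cases hz : y ∈ gphi n '' Outr n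
  · obtain ⟨c, hc, rfl⟩ := hz
    rw [h3 _ c hc rfl]
    rcases h5 x hx with ⟨k, hk, e⟩ | h6
    · exact absurd (Or.inl (gphi_le.1 (e.le.trans ((h4 x).trans hxy)))) (hK.sep k hk c hc)
    · exact (hρ c hc).2.2 _ ((h4 x).trans hxy) h6
  · rw [h2 y hz]
    exact (h4 x).trans hxy

theorem bgrb_loc (K : Set (Box n)) :
    LocIso (ord (Box n)) (ord (Cell (grA n))) (K ∪ Outr n)ᶜ
      ((gphi n '' K ∪ (Aff (grA n))ᶜ) ∪ gphi n '' Outr n)ᶜ (gphi n) := by
  have h1 : ∀ c, gphi n c ∈ (gphi n '' K ∪ (Aff (grA n))ᶜ) ∪ gphi n '' Outr n ↔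
      c ∈ K ∪ Outr n := fun c => by
    constructor
    · rintro ((⟨k, hk, e⟩ | h) | ⟨k, hk, e⟩)
      · exact Or.inl (bgrb_inj e ▸ hk)
      · exact absurd (bgrb_aff c) h
      · exact Or.inr (bgrb_inj e ▸ hk)
    · rintro (h | h)
      · exact Or.inl (Or.inl ⟨c, h, rfl⟩)
      · exact Or.inr ⟨c, h, rfl⟩
  refine ⟨⟨fun c hc h => hc ((h1 c).1 h), bgrb_inj.injOn, fun z hz => ?_⟩,
    fun u _ x _ hx h => h ((h1 x).2 (not_not.1 hx)), fun x hx => bgrb_star fun h => hx (Or.inr h)⟩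
  obtain ⟨c, rfl⟩ := bgrb_sur (z := z) (not_not.1 fun h => hz (Or.inl (Or.inr h)))
  exact ⟨c, fun h => hz ((h1 c).2 h), rfl⟩

theorem tv_grid {K : Set (Box n)} (hK : GK K) :
    tv (ord (Cell (grA n))) (gphi n '' K ∪ (Aff (grA n))ᶜ) =
      tv (ord (Box n)) (K ∪ Outr n) := by
  have h1 := (bgrb_abs hK).tv ((man_cell (ess_grA n)).mono (Set.subset_univ _))
  have h2 := (bgrb_loc K).contr.tv ((man_box n).mono fun x hx h => hx (Or.inr h))
  rw [compl_compl, compl_compl] at h2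
  exact h1.symm.trans h2.symm

theorem bgrb_eq {K : Set (Box n)} (hK : GK K) {a b : Box n} (ha : a ∈ K) (hb : b ∈ K) (h : a ≤ b)
    (e : (Even a.1.1 ∧ Even a.2.1.1 ∧ Even a.2.2.1) ↔ (Even b.1.1 ∧ Even b.2.1.1 ∧ Even b.2.2.1)) :
    a = b := by
  have h1 := hK.one a ha
  have h2 := hK.one b hb
  obtain ⟨k1, k2, k3⟩ := h
  rw [ZI.le_iff] at k1 k2 k3
  simp only [zle, Int.even_iff] at h1 h2 k1 k2 k3 e
  refine Prod.ext (Subtype.ext ?_) (Prod.ext (Subtype.ext ?_) (Subtype.ext ?_)) <;> omega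

theorem GK.chi {K : Set (Box n)} (hK : GK K) : chi (ord (Box n)) K = 0 := by
  refine chi_cycle (fun s hs hi => ?_) hK.two
  have h1 : s.card ≤ (Finset.univ : Finset Prop).card := by
    refine Finset.card_le_card_of_injOn (fun a => Even a.1.1 ∧ Even a.2.1.1 ∧ Even a.2.2.1)
      (fun _ _ => Finset.mem_coe.2 (Finset.mem_univ _)) fun a ha b hb e => ?_
    rcases hs.2 a ha b hb with h | h
    · exact bgrb_eq hK (hi a ha) (hi b hb) h (iff_of_eq e)
    · exact (bgrb_eq hK (hi b hb) (hi a ha) h (iff_of_eq e.symm)).symm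
  simpa using h1

theorem grid_knot {K : Set (Box n)} (hK : GK K) :
    Conn (ord (Cell (grA n))) (gphi n '' K) ∧ chi (ord (Cell (grA n))) (gphi n '' K) = 0 := by
  have h1 : Set.BijOn (gphi n) K (gphi n '' K) := bgrb_inj.injOn.bijOn_image
  exact ⟨(conn_iso h1 fun a _ b _ => bgrb_adj).1 hK.conn,
    (chi_iso h1 fun a _ b _ => bgrb_adj).symm.trans hK.chi⟩

theorem bgrb_cl {V H : Type} [Group H] {G : Cx V} {U : Set V} {η : V → V → H} (h : Flat G U η)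
    (S : Subgroup H) {A : V → V → Prop}
    (hA : ∀ a b, A a b → a ∈ U ∧ b ∈ U ∧ (G.r a b → η a b ∈ S)) {a b : V}
    (hc : Cl G A a b) (ha : a ∈ U) (hab : G.r a b) : η a b ∈ S := by
  have hm : ∀ {x y}, Cl G A x y → x = y ∨ (x ∈ U ∧ y ∈ U) := fun hxy =>
    Cl.mem (fun a b h1 => ⟨(hA a b h1).1, (hA a b h1).2.1⟩) hxy
  induction hc with
  | base h1 => exact (hA _ _ h1).2.2 hab
  | refl a => rw [h.self ha]; exact S.one_mem
  | @symm a b h1 ih =>
    have hb : a ∈ U := (hm h1).elim (fun e => e ▸ ha) fun e => e.1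
    rw [h.inv hb ha (G.symm _ _ hab)]
    exact S.inv_mem (ih hb (G.symm _ _ hab))
  | @tri a b d h1 h2 h3 h4 h5 ih ih' =>
    have hb : b ∈ U := (hm h4).elim (fun e => e ▸ ha) fun e => e.2
    have hd : d ∈ U := (hm h5).elim (fun e => e ▸ hb) fun e => e.2
    rw [← h a ha b hb d hd h1 h2 h3]
    exact S.mul_mem (ih ha h1) (ih' hb h2)

theorem Absorb.genN {V : Type} {G : Cx V} {U U' : Set V} (h : Absorb G U U') {m : ℕ}
    (hg : GenN G U m) : GenN G U' m := by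
  intro H _ η hη
  obtain ⟨hZ, p, hp, hc⟩ := h
  obtain ⟨β, f, hβ⟩ := hg H η fun a ha b hb c hc => hη a (hZ ha) b (hZ hb) c (hZ hc)
  obtain ⟨β', h1, h2⟩ := hp.rec_fun β fun v x => x * (η v (p v))⁻¹
  have h0 : ∀ a ∈ U, β' a = β a := fun a ha => h1 a fun h => h.2 ha
  refine ⟨β', f, fun a ha b hb hab => ?_⟩
  refine bgrb_cl (hη.gauge β') _ (fun x y h => ?_) (hc a ha b hb hab) ha hab
  rcases h with h | ⟨h, rfl⟩
  · refine ⟨hZ h.1, hZ h.2, fun hxy => ?_⟩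
    rw [h0 x h.1, h0 y h.2]
    exact hβ x h.1 y h.2 hxy
  · refine ⟨h.1, (hp.choose_spec x h).1, fun _ => ?_⟩
    simp [h2 x h]

end KG
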