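import Pool.Agent.Work.MP_c146e2_gt.KG.Defs

/-! Grid diagrams as sets of cells of a box. -/

set_option autoImplicit false

noncomputable section

open scoped Classical

namespace KG

/-- The picture at a lattice point: empty, vertical, horizontal, crossing (vertical strand over)
and the four corners. -/
inductive CT
  | E | V | H | X | UL | UR | DL | DR
  deriving DecidableEq

def CT.up : CT → Bool
  | .V => true | .X => true | .UL => true | .UR => true | _ => false

def CT.dn : CT → Bool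
  | .V => true | .X => true | .DL => true | .DR => true | _ => false

def CT.lf : CT → Bool
  | .H => true | .X => true | .UL => true | .DL => true | _ => false

def CT.rt : CT → Bool
  | .H => true | .X => true | .UR => true | .DR => true | _ => false

def CT.corner : CT → Bool
  | .UL => true | .UR => true | .DL => true | .DR => true | _ => false

/-- `ty i k` is the picture in column `i` and row `k`; rows are counted downwards. -/
structure Grid (N L : ℕ) (ty : ℤ → ℤ → CT) : Prop where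
  posN : 0 < N
  posL : 0 < L
  vert : ∀ i k, (ty i k).dn = (ty i (k + 1)).up
  hor : ∀ i k, (ty i k).rt = (ty (i + 1) k).lf
  out : ∀ i k, i ≤ 0 ∨ k ≤ 0 ∨ (N : ℤ) < i ∨ (L : ℤ) < k → ty i k = .E

/-- Cells of the closed box: an even coordinate is a plane, an odd one an open interval. The
coordinates are column, height, row. -/
def Gr (N L : ℕ) : Type :=
  {c : ℤ × ℤ × ℤ // (0 ≤ c.1 ∧ c.1 ≤ 2 * N + 2) ∧ (0 ≤ c.2.1 ∧ c.2.1 ≤ 6) ∧
    (0 ≤ c.2.2 ∧ c.2.2 ≤ 2 * L + 2)}

theorem zle_refl (i : ℤ) : zle i i := Or.inl rfl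

theorem zle_trans {i j k : ℤ} (h : zle i j) (h' : zle j k) : zle i k := by
  unfold zle at *
  simp only [Int.even_iff] at *
  omega

theorem zle_antisymm {i j : ℤ} (h : zle i j) (h' : zle j i) : i = j := by
  unfold zle at *
  simp only [Int.even_iff] at *
  omega

instance (N L : ℕ) : PartialOrder (Gr N L) where
  le c e := zle c.1.1 e.1.1 ∧ zle c.1.2.1 e.1.2.1 ∧ zle c.1.2.2 e.1.2.2
  le_refl _ := ⟨zle_refl _, zle_refl _, zle_refl _⟩
  le_trans _ _ _ h h' := ⟨zle_trans h.1 h'.1, zle_trans h.2.1 h'.2.1, zle_trans h.2.2 h'.2.2⟩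
  le_antisymm _ _ h h' := Subtype.ext (Prod.ext (zle_antisymm h.1 h'.1)
    (Prod.ext (zle_antisymm h.2.1 h'.2.1) (zle_antisymm h.2.2 h'.2.2)))

theorem Gr.le_iff {N L : ℕ} {c e : Gr N L} :
    c ≤ e ↔ zle c.1.1 e.1.1 ∧ zle c.1.2.1 e.1.2.1 ∧ zle c.1.2.2 e.1.2.2 := Iff.rfl

instance (N L : ℕ) : Finite (Gr N L) := by
  have : (Set.Icc (0 : ℤ) (2 * N + 2) ×ˢ Set.Icc (0 : ℤ) 6 ×ˢ Set.Icc (0 : ℤ) (2 * L + 2)).Finite :=
    (Set.finite_Icc _ _).prod ((Set.finite_Icc _ _).prod (Set.finite_Icc _ _))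
  exact this.to_subtype

instance (N L : ℕ) : Fintype (Gr N L) := Fintype.ofFinite _

/-- The cells of the open box. -/
def inner (N L : ℕ) : Set (Gr N L) :=
  {c | (0 < c.1.1 ∧ c.1.1 < 2 * N + 2) ∧ (0 < c.1.2.1 ∧ c.1.2.1 < 6) ∧
    (0 < c.1.2.2 ∧ c.1.2.2 < 2 * L + 2)}

/-- The cells of the link: horizontal strands at height `2`, vertical ones at height `4`. -/
def onK (ty : ℤ → ℤ → CT) (c : ℤ × ℤ × ℤ) : Bool :=
  let t := ty (c.1 / 2) (c.2.2 / 2)
  if c.1 % 2 = 0 then
    if c.2.2 % 2 = 0 then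
      (c.2.1 == 2 && (t.lf || t.rt)) || (c.2.1 == 4 && (t.up || t.dn)) || (c.2.1 == 3 && t.corner)
    else c.2.1 == 4 && t.dn
  else if c.2.2 % 2 = 0 then c.2.1 == 2 && t.rt else false

def Kc (N L : ℕ) (ty : ℤ → ℤ → CT) : Set (Gr N L) := {c | onK ty c.1 = true}

/-- The cells of the exterior. -/
def Uc (N L : ℕ) (ty : ℤ → ℤ → CT) : Set (Gr N L) := inner N L \ Kc N L ty

end KG
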