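import Pool.Agent.Work.MP_c146e2_gt.KG.Grid

/-! Equation lemmas realised once, so that no two modules realise them separately. -/

theorem Pool.Agent.Eqs.h482653658753 : type_of% @KG.CT.corner.eq_5 := @KG.CT.corner.eq_5
theorem Pool.Agent.Eqs.hb25064b874ac : type_of% @KG.CT.dn.eq_5 := @KG.CT.dn.eq_5
theorem Pool.Agent.Eqs.ha7ede9ccb7bd : type_of% @KG.CT.lf.eq_5 := @KG.CT.lf.eq_5
theorem Pool.Agent.Eqs.h5bea593b6941 : type_of% @KG.CT.rt.eq_5 := @KG.CT.rt.eq_5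
theorem Pool.Agent.Eqs.haff1fdf6b986 : type_of% @KG.CT.up.eq_5 := @KG.CT.up.eq_5
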