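import Pool.Agent.Work.MP_c146e2_gt.KG.BDef
import Pool.Agent.Work.MP_c146e2_gt.KG.GridEqs
import Pool.Agent.Work.MP_c146e2_gt.KG.Grid
import Pool.Agent.Work.MP_c146e2_gt.KG.CT

set_option autoImplicit false

noncomputable section

open scoped Classical

namespace KG

variable {N L : ℕ} {ty : ℤ → ℤ → CT}

/-- The closed box inside the grid with unbounded cells. -/
def gio (N L : ℕ) (c : Gr N L) : Box (N + 1, 3, L + 1) :=
  (⟨c.1.1, by have := c.2.1; push_cast; omega⟩, ⟨c.1.2.1, by have := c.2.2.1; push_cast; omega⟩,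
    ⟨c.1.2.2, by have := c.2.2.2; push_cast; omega⟩)

theorem gio_le {c e : Gr N L} : gio N L c ≤ gio N L e ↔ c ≤ e := Iff.rfl

theorem gio_inj : Function.Injective (gio N L) := by
  intro c e h
  exact le_antisymm (gio_le.1 h.le) (gio_le.1 h.ge)

theorem gio_range : Set.range (gio N L) = (Outr (N + 1, 3, L + 1))ᶜ := by
  ext b
  constructor
  · rintro ⟨c, rfl⟩ h
    have h1 := c.2.1
    have h2 := c.2.2.1
    have h3 := c.2.2.2
    simp only [Outr, ZI.out, gio, Set.mem_ofPred_eq] at h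
    push_cast at h
    omega
  · intro h
    obtain ⟨⟨x, hx⟩, ⟨y, hy⟩, ⟨z, hz⟩⟩ := b
    simp only [Outr, ZI.out, Set.mem_compl_iff, Set.mem_ofPred_eq] at h
    push_cast at h hx hy hz
    exact ⟨⟨(x, y, z), by simp only; omega⟩, rfl⟩

theorem bgrc_ee (i y k : ℤ) : onK ty (2 * i, y, 2 * k) = true ↔
    (y = 2 ∧ ((ty i k).lf = true ∨ (ty i k).rt = true)) ∨
      (y = 4 ∧ ((ty i k).up = true ∨ (ty i k).dn = true)) ∨ (y = 3 ∧ (ty i k).corner = true) := by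
  have e1 : 2 * i / 2 = i := by omega
  have e2 : 2 * k / 2 = k := by omega
  have e3 : 2 * i % 2 = 0 := by omega
  have e4 : 2 * k % 2 = 0 := by omega
  simp only [onK, e1, e2, e3, e4, if_true]
  simp [or_assoc]

theorem bgrc_eo (i y k : ℤ) : onK ty (2 * i, y, 2 * k + 1) = true ↔
    y = 4 ∧ (ty i k).dn = true := by
  have e1 : 2 * i / 2 = i := by omega
  have e2 : (2 * k + 1) / 2 = k := by omega
  have e3 : 2 * i % 2 = 0 := by omega
  have e4 : ¬ (2 * k + 1) % 2 = 0 := by omega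
  simp only [onK, e1, e2, e3, e4, if_true, if_false]
  simp

theorem bgrc_oe (i y k : ℤ) : onK ty (2 * i + 1, y, 2 * k) = true ↔
    y = 2 ∧ (ty i k).rt = true := by
  have e1 : (2 * i + 1) / 2 = i := by omega
  have e2 : 2 * k / 2 = k := by omega
  have e3 : ¬ (2 * i + 1) % 2 = 0 := by omega
  have e4 : 2 * k % 2 = 0 := by omega
  simp only [onK, e1, e2, e3, e4, if_true, if_false]
  simp

theorem bgrc_oo (i y k : ℤ) : ¬ onK ty (2 * i + 1, y, 2 * k + 1) = true := by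
  have e3 : ¬ (2 * i + 1) % 2 = 0 := by omega
  have e4 : ¬ (2 * k + 1) % 2 = 0 := by omega
  simp only [onK, e3, e4, if_false]
  simp

/-- The five kinds of cells of the link. -/
theorem bgrc_kind {x y z : ℤ} (h : onK ty (x, y, z) = true) :
    (∃ i k, x = 2 * i ∧ y = 2 ∧ z = 2 * k ∧ ((ty i k).lf = true ∨ (ty i k).rt = true)) ∨
    (∃ i k, x = 2 * i ∧ y = 4 ∧ z = 2 * k ∧ ((ty i k).up = true ∨ (ty i k).dn = true)) ∨
    (∃ i k, x = 2 * i ∧ y = 3 ∧ z = 2 * k ∧ (ty i k).corner = true) ∨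
    (∃ i k, x = 2 * i ∧ y = 4 ∧ z = 2 * k + 1 ∧ (ty i k).dn = true) ∨
    (∃ i k, x = 2 * i + 1 ∧ y = 2 ∧ z = 2 * k ∧ (ty i k).rt = true) := by
  obtain ⟨i, rfl | rfl⟩ : ∃ i, x = 2 * i ∨ x = 2 * i + 1 := ⟨x / 2, by omega⟩ <;>
    obtain ⟨k, rfl | rfl⟩ : ∃ k, z = 2 * k ∨ z = 2 * k + 1 := ⟨z / 2, by omega⟩
  · rcases (bgrc_ee i y k).1 h with h | h | h
    · exact Or.inl ⟨i, k, rfl, h.1, rfl, h.2⟩
    · exact Or.inr (Or.inl ⟨i, k, rfl, h.1, rfl, h.2⟩)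
    · exact Or.inr (Or.inr (Or.inl ⟨i, k, rfl, h.1, rfl, h.2⟩))
  · have h := (bgrc_eo i y k).1 h
    exact Or.inr (Or.inr (Or.inr (Or.inl ⟨i, k, rfl, h.1, rfl, h.2⟩)))
  · have h := (bgrc_oe i y k).1 h
    exact Or.inr (Or.inr (Or.inr (Or.inr ⟨i, k, rfl, h.1, rfl, h.2⟩)))
  · exact absurd h (bgrc_oo i y k)

theorem bgrc_ne (h : Grid N L ty) {i k : ℤ} (ht : ty i k ≠ .E) :
    1 ≤ i ∧ i ≤ N ∧ 1 ≤ k ∧ k ≤ L := by
  by_contra hh
  exact ht (h.out i k (by omega))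

theorem bgrc_in (h : Grid N L ty) {x y z : ℤ} (hc : onK ty (x, y, z) = true) :
    (2 ≤ x ∧ x ≤ 2 * N) ∧ (2 ≤ y ∧ y ≤ 4) ∧ (2 ≤ z ∧ z ≤ 2 * L) := by
  rcases bgrc_kind hc with ⟨i, k, rfl, rfl, rfl, ht⟩ | ⟨i, k, rfl, rfl, rfl, ht⟩ |
    ⟨i, k, rfl, rfl, rfl, ht⟩ | ⟨i, k, rfl, rfl, rfl, ht⟩ | ⟨i, k, rfl, rfl, rfl, ht⟩
  · have := bgrc_ne h (i := i) (k := k) fun e => by rw [e] at ht; simp [CT.lf, CT.rt] at ht
    omega
  · have := bgrc_ne h (i := i) (k := k) fun e => by rw [e] at ht; simp [CT.up, CT.dn] at ht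
    omega
  · have := bgrc_ne h (i := i) (k := k) fun e => by rw [e] at ht; simp [CT.corner] at ht
    omega
  · have h1 := bgrc_ne h (i := i) (k := k) fun e => by rw [e] at ht; simp [CT.dn] at ht
    rw [h.vert] at ht
    have h2 := bgrc_ne h (i := i) (k := k + 1) fun e => by rw [e] at ht; simp [CT.up] at ht
    omega
  · have h1 := bgrc_ne h (i := i) (k := k) fun e => by rw [e] at ht; simp [CT.rt] at ht
    rw [h.hor] at ht
    have h2 := bgrc_ne h (i := i + 1) (k := k) fun e => by rw [e] at ht; simp [CT.lf] at ht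
    omega

theorem bgrc_c1 {t : CT} (h : t.corner = true) : t.lf = true ∨ t.rt = true := by
  cases t <;> simp_all [CT.corner, CT.lf, CT.rt]

theorem bgrc_c2 {t : CT} (h : t.corner = true) : t.up = true ∨ t.dn = true := by
  cases t <;> simp_all [CT.corner, CT.up, CT.dn]

theorem bgrc_A {i k : ℤ} (h : (ty i k).lf = true ∨ (ty i k).rt = true) :
    onK ty (2 * i, 2, 2 * k) = true := (bgrc_ee i 2 k).2 (Or.inl ⟨rfl, h⟩)

theorem bgrc_B {i k : ℤ} (h : (ty i k).up = true ∨ (ty i k).dn = true) :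
    onK ty (2 * i, 4, 2 * k) = true := (bgrc_ee i 4 k).2 (Or.inr (Or.inl ⟨rfl, h⟩))

theorem bgrc_C {i k : ℤ} (h : (ty i k).corner = true) :
    onK ty (2 * i, 3, 2 * k) = true := (bgrc_ee i 3 k).2 (Or.inr (Or.inr ⟨rfl, h⟩))

theorem bgrc_D {i k : ℤ} (h : (ty i k).dn = true) :
    onK ty (2 * i, 4, 2 * k + 1) = true := (bgrc_eo i 4 k).2 ⟨rfl, h⟩

theorem bgrc_E {i k : ℤ} (h : (ty i k).rt = true) :
    onK ty (2 * i + 1, 2, 2 * k) = true := (bgrc_oe i 2 k).2 ⟨rfl, h⟩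

theorem bgrc_D' (h : Grid N L ty) {i k : ℤ} (ht : (ty i k).up = true) :
    onK ty (2 * i, 4, 2 * k - 1) = true := by
  have e : 2 * k - 1 = 2 * (k - 1) + 1 := by ring
  rw [e]
  exact bgrc_D (by rw [h.vert, sub_add_cancel]; exact ht)

theorem bgrc_E' (h : Grid N L ty) {i k : ℤ} (ht : (ty i k).lf = true) :
    onK ty (2 * i - 1, 2, 2 * k) = true := by
  have e : 2 * i - 1 = 2 * (i - 1) + 1 := by ring
  rw [e]
  exact bgrc_E (by rw [h.hor, sub_add_cancel]; exact ht)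

theorem bgrc_B' (h : Grid N L ty) {i k : ℤ} (ht : (ty i k).dn = true) :
    onK ty (2 * i, 4, 2 * k + 2) = true := by
  have e : 2 * k + 2 = 2 * (k + 1) := by ring
  rw [e]
  exact bgrc_B (Or.inl (by rw [← h.vert]; exact ht))

theorem bgrc_A' (h : Grid N L ty) {i k : ℤ} (ht : (ty i k).rt = true) :
    onK ty (2 * i + 2, 2, 2 * k) = true := by
  have e : 2 * i + 2 = 2 * (i + 1) := by ring
  rw [e]
  exact bgrc_A (Or.inl (by rw [← h.hor]; exact ht))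

theorem bgrc_low (h : Grid N L ty) {x y z a b c : ℤ} (hc : onK ty (x, y, z) = true)
    (h1 : zle a x) (h2 : zle b y) (h3 : zle c z) : onK ty (a, b, c) = true := by
  simp only [zle, Int.even_iff] at h1 h2 h3
  rcases bgrc_kind hc with ⟨i, k, rfl, rfl, rfl, ht⟩ | ⟨i, k, rfl, rfl, rfl, ht⟩ |
    ⟨i, k, rfl, rfl, rfl, ht⟩ | ⟨i, k, rfl, rfl, rfl, ht⟩ | ⟨i, k, rfl, rfl, rfl, ht⟩
  · obtain rfl : a = 2 * i := by omega
    obtain rfl : b = 2 := by omega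
    obtain rfl : c = 2 * k := by omega
    exact hc
  · obtain rfl : a = 2 * i := by omega
    obtain rfl : b = 4 := by omega
    obtain rfl : c = 2 * k := by omega
    exact hc
  · obtain rfl : a = 2 * i := by omega
    obtain rfl : c = 2 * k := by omega
    obtain rfl | rfl | rfl : b = 2 ∨ b = 3 ∨ b = 4 := by omega
    · exact bgrc_A (bgrc_c1 ht)
    · exact hc
    · exact bgrc_B (bgrc_c2 ht)
  · obtain rfl : a = 2 * i := by omega
    obtain rfl : b = 4 := by omega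
    obtain rfl | rfl | rfl : c = 2 * k ∨ c = 2 * k + 1 ∨ c = 2 * k + 2 := by omega
    · exact bgrc_B (Or.inr ht)
    · exact hc
    · exact bgrc_B' h ht
  · obtain rfl : b = 2 := by omega
    obtain rfl : c = 2 * k := by omega
    obtain rfl | rfl | rfl : a = 2 * i ∨ a = 2 * i + 1 ∨ a = 2 * i + 2 := by omega
    · exact bgrc_A (Or.inr ht)
    · exact hc
    · exact bgrc_A' h ht

/-- The neighbours of a cell in the link. -/
def bgrcNb (ty : ℤ → ℤ → CT) (p : ℤ × ℤ × ℤ) : Set (ℤ × ℤ × ℤ) :=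
  {q | q ≠ p ∧ ((zle q.1 p.1 ∧ zle q.2.1 p.2.1 ∧ zle q.2.2 p.2.2) ∨
    (zle p.1 q.1 ∧ zle p.2.1 q.2.1 ∧ zle p.2.2 q.2.2)) ∧ onK ty q = true}

theorem bgrc_pair {p a b : ℤ × ℤ × ℤ} (hab : a ≠ b) (ha : a ∈ bgrcNb ty p) (hb : b ∈ bgrcNb ty p)
    (h : ∀ q ∈ bgrcNb ty p, q = a ∨ q = b) : (bgrcNb ty p).ncard = 2 := by
  have e : bgrcNb ty p = {a, b} := by
    ext q
    constructor
    · exact h q
    · rintro (rfl | rfl)
      · exact ha
      · exact hb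
  rw [e, Set.ncard_pair hab]

theorem bgrc_zle {a b : ℤ} : zle a b ↔ a - b = 0 ∨ (a % 2 = 0 ∧ (b - a = 1 ∨ a - b = 1)) := by
  simp only [zle, Int.even_iff]
  omega

theorem bgrc_mem {x y z a b c : ℤ} (h : onK ty (a, b, c) = true)
    (h' : (a - x ≠ 0 ∨ b - y ≠ 0 ∨ c - z ≠ 0) ∧
      ((zle a x ∧ zle b y ∧ zle c z) ∨ (zle x a ∧ zle y b ∧ zle z c))) :
    (a, b, c) ∈ bgrcNb ty (x, y, z) := by
  refine ⟨fun e => ?_, h'.2, h⟩
  have := h'.1
  simp only [Prod.mk.injEq] at e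
  omega

theorem bgrc_dec {x y z a b c : ℤ} (h : (a, b, c) ∈ bgrcNb ty (x, y, z)) :
    (a ≠ x ∨ b ≠ y ∨ c ≠ z) ∧ ((zle a x ∧ zle b y ∧ zle c z) ∨ (zle x a ∧ zle y b ∧ zle z c)) ∧
      onK ty (a, b, c) = true := by
  refine ⟨?_, h.2.1, h.2.2⟩
  by_contra hh
  push Not at hh
  exact h.1 (by rw [hh.1, hh.2.1, hh.2.2])

theorem bgrc_nA (h : Grid N L ty) {i k : ℤ} {q : ℤ × ℤ × ℤ} (hq : q ∈ bgrcNb ty (2 * i, 2, 2 * k)) :
    (q = (2 * i + 1, 2, 2 * k) ∧ (ty i k).rt = true) ∨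
      (q = (2 * i - 1, 2, 2 * k) ∧ (ty i k).lf = true) ∨
      (q = (2 * i, 3, 2 * k) ∧ (ty i k).corner = true) := by
  obtain ⟨a, b, c⟩ := q
  obtain ⟨h1, h2, h3⟩ := bgrc_dec hq
  simp only [zle, Int.even_iff] at h2
  rcases bgrc_kind h3 with ⟨j, l, rfl, rfl, rfl, ht⟩ | ⟨j, l, rfl, rfl, rfl, ht⟩ |
    ⟨j, l, rfl, rfl, rfl, ht⟩ | ⟨j, l, rfl, rfl, rfl, ht⟩ | ⟨j, l, rfl, rfl, rfl, ht⟩
  · omega
  · omega
  · obtain rfl : j = i := by omega
    obtain rfl : l = k := by omega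
    exact Or.inr (Or.inr ⟨rfl, ht⟩)
  · omega
  · obtain rfl : l = k := by omega
    obtain rfl | rfl : j = i ∨ i = j + 1 := by omega
    · exact Or.inl ⟨rfl, ht⟩
    · exact Or.inr (Or.inl ⟨by congr 1; ring, by rw [← h.hor]; exact ht⟩)

theorem bgrc_nB (h : Grid N L ty) {i k : ℤ} {q : ℤ × ℤ × ℤ} (hq : q ∈ bgrcNb ty (2 * i, 4, 2 * k)) :
    (q = (2 * i, 4, 2 * k + 1) ∧ (ty i k).dn = true) ∨
      (q = (2 * i, 4, 2 * k - 1) ∧ (ty i k).up = true) ∨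
      (q = (2 * i, 3, 2 * k) ∧ (ty i k).corner = true) := by
  obtain ⟨a, b, c⟩ := q
  obtain ⟨h1, h2, h3⟩ := bgrc_dec hq
  simp only [zle, Int.even_iff] at h2
  rcases bgrc_kind h3 with ⟨j, l, rfl, rfl, rfl, ht⟩ | ⟨j, l, rfl, rfl, rfl, ht⟩ |
    ⟨j, l, rfl, rfl, rfl, ht⟩ | ⟨j, l, rfl, rfl, rfl, ht⟩ | ⟨j, l, rfl, rfl, rfl, ht⟩
  · omega
  · omega
  · obtain rfl : j = i := by omega
    obtain rfl : l = k := by omega
    exact Or.inr (Or.inr ⟨rfl, ht⟩)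
  · obtain rfl : j = i := by omega
    obtain rfl | rfl : l = k ∨ k = l + 1 := by omega
    · exact Or.inl ⟨rfl, ht⟩
    · exact Or.inr (Or.inl ⟨by congr 2; ring, by rw [← h.vert]; exact ht⟩)
  · omega

theorem bgrc_nC {i k : ℤ} {q : ℤ × ℤ × ℤ} (hq : q ∈ bgrcNb ty (2 * i, 3, 2 * k)) :
    q = (2 * i, 2, 2 * k) ∨ q = (2 * i, 4, 2 * k) := by
  obtain ⟨a, b, c⟩ := q
  obtain ⟨h1, h2, h3⟩ := bgrc_dec hq
  simp only [zle, Int.even_iff] at h2
  simp only [Prod.mk.injEq]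
  rcases bgrc_kind h3 with ⟨j, l, rfl, rfl, rfl, ht⟩ | ⟨j, l, rfl, rfl, rfl, ht⟩ |
    ⟨j, l, rfl, rfl, rfl, ht⟩ | ⟨j, l, rfl, rfl, rfl, ht⟩ | ⟨j, l, rfl, rfl, rfl, ht⟩ <;> omega

theorem bgrc_nD {i k : ℤ} {q : ℤ × ℤ × ℤ} (hq : q ∈ bgrcNb ty (2 * i, 4, 2 * k + 1)) :
    q = (2 * i, 4, 2 * k) ∨ q = (2 * i, 4, 2 * k + 2) := by
  obtain ⟨a, b, c⟩ := q
  obtain ⟨h1, h2, h3⟩ := bgrc_dec hq
  simp only [zle, Int.even_iff] at h2
  simp only [Prod.mk.injEq]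
  rcases bgrc_kind h3 with ⟨j, l, rfl, rfl, rfl, ht⟩ | ⟨j, l, rfl, rfl, rfl, ht⟩ |
    ⟨j, l, rfl, rfl, rfl, ht⟩ | ⟨j, l, rfl, rfl, rfl, ht⟩ | ⟨j, l, rfl, rfl, rfl, ht⟩ <;> omega

theorem bgrc_nE {i k : ℤ} {q : ℤ × ℤ × ℤ} (hq : q ∈ bgrcNb ty (2 * i + 1, 2, 2 * k)) :
    q = (2 * i, 2, 2 * k) ∨ q = (2 * i + 2, 2, 2 * k) := by
  obtain ⟨a, b, c⟩ := q
  obtain ⟨h1, h2, h3⟩ := bgrc_dec hq
  simp only [zle, Int.even_iff] at h2
  simp only [Prod.mk.injEq]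
  rcases bgrc_kind h3 with ⟨j, l, rfl, rfl, rfl, ht⟩ | ⟨j, l, rfl, rfl, rfl, ht⟩ |
    ⟨j, l, rfl, rfl, rfl, ht⟩ | ⟨j, l, rfl, rfl, rfl, ht⟩ | ⟨j, l, rfl, rfl, rfl, ht⟩ <;> omega

theorem bgrc_h {t : CT} (h : t.lf = true ∨ t.rt = true) :
    (t.lf = true ∧ t.rt = true ∧ ¬ t.corner = true) ∨ (t.lf = true ∧ ¬ t.rt = true ∧ t.corner = true) ∨
      (¬ t.lf = true ∧ t.rt = true ∧ t.corner = true) := by
  cases t <;> simp_all [CT.corner, CT.lf, CT.rt]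

theorem bgrc_v {t : CT} (h : t.up = true ∨ t.dn = true) :
    (t.up = true ∧ t.dn = true ∧ ¬ t.corner = true) ∨ (t.up = true ∧ ¬ t.dn = true ∧ t.corner = true) ∨
      (¬ t.up = true ∧ t.dn = true ∧ t.corner = true) := by
  cases t <;> simp_all [CT.corner, CT.up, CT.dn]

theorem bgrc_two (h : Grid N L ty) {x y z : ℤ} (hc : onK ty (x, y, z) = true) :
    (bgrcNb ty (x, y, z)).ncard = 2 := by
  rcases bgrc_kind hc with ⟨i, k, rfl, rfl, rfl, ht⟩ | ⟨i, k, rfl, rfl, rfl, ht⟩ |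
    ⟨i, k, rfl, rfl, rfl, ht⟩ | ⟨i, k, rfl, rfl, rfl, ht⟩ | ⟨i, k, rfl, rfl, rfl, ht⟩
  · have m1 : (ty i k).rt = true → (2 * i + 1, 2, 2 * k) ∈ bgrcNb ty (2 * i, 2, 2 * k) := fun t =>
      bgrc_mem (bgrc_E t) (by simp only [bgrc_zle]; omega)
    have m2 : (ty i k).lf = true → (2 * i - 1, 2, 2 * k) ∈ bgrcNb ty (2 * i, 2, 2 * k) := fun t =>
      bgrc_mem (bgrc_E' h t) (by simp only [bgrc_zle]; omega)
    have m3 : (ty i k).corner = true → (2 * i, 3, 2 * k) ∈ bgrcNb ty (2 * i, 2, 2 * k) := fun t =>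
      bgrc_mem (bgrc_C t) (by simp only [bgrc_zle]; omega)
    rcases bgrc_h ht with ⟨t1, t2, t3⟩ | ⟨t1, t2, t3⟩ | ⟨t1, t2, t3⟩
    · refine bgrc_pair (by simp only [ne_eq, Prod.mk.injEq]; omega) (m1 t2) (m2 t1) fun q hq => ?_
      rcases bgrc_nA h hq with e | e | e
      exacts [Or.inl e.1, Or.inr e.1, absurd e.2 t3]
    · refine bgrc_pair (by simp only [ne_eq, Prod.mk.injEq]; omega) (m2 t1) (m3 t3) fun q hq => ?_
      rcases bgrc_nA h hq with e | e | e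
      exacts [absurd e.2 t2, Or.inl e.1, Or.inr e.1]
    · refine bgrc_pair (by simp only [ne_eq, Prod.mk.injEq]; omega) (m1 t2) (m3 t3) fun q hq => ?_
      rcases bgrc_nA h hq with e | e | e
      exacts [Or.inl e.1, absurd e.2 t1, Or.inr e.1]
  · have m1 : (ty i k).dn = true → (2 * i, 4, 2 * k + 1) ∈ bgrcNb ty (2 * i, 4, 2 * k) := fun t =>
      bgrc_mem (bgrc_D t) (by simp only [bgrc_zle]; omega)
    have m2 : (ty i k).up = true → (2 * i, 4, 2 * k - 1) ∈ bgrcNb ty (2 * i, 4, 2 * k) := fun t =>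
      bgrc_mem (bgrc_D' h t) (by simp only [bgrc_zle]; omega)
    have m3 : (ty i k).corner = true → (2 * i, 3, 2 * k) ∈ bgrcNb ty (2 * i, 4, 2 * k) := fun t =>
      bgrc_mem (bgrc_C t) (by simp only [bgrc_zle]; omega)
    rcases bgrc_v ht with ⟨t1, t2, t3⟩ | ⟨t1, t2, t3⟩ | ⟨t1, t2, t3⟩
    · refine bgrc_pair (by simp only [ne_eq, Prod.mk.injEq]; omega) (m1 t2) (m2 t1) fun q hq => ?_
      rcases bgrc_nB h hq with e | e | e
      exacts [Or.inl e.1, Or.inr e.1, absurd e.2 t3]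
    · refine bgrc_pair (by simp only [ne_eq, Prod.mk.injEq]; omega) (m2 t1) (m3 t3) fun q hq => ?_
      rcases bgrc_nB h hq with e | e | e
      exacts [absurd e.2 t2, Or.inl e.1, Or.inr e.1]
    · refine bgrc_pair (by simp only [ne_eq, Prod.mk.injEq]; omega) (m1 t2) (m3 t3) fun q hq => ?_
      rcases bgrc_nB h hq with e | e | e
      exacts [Or.inl e.1, absurd e.2 t1, Or.inr e.1]
  · exact bgrc_pair (by simp only [ne_eq, Prod.mk.injEq]; omega)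
      (bgrc_mem (bgrc_A (bgrc_c1 ht)) (by simp only [bgrc_zle]; omega))
      (bgrc_mem (bgrc_B (bgrc_c2 ht)) (by simp only [bgrc_zle]; omega))
      fun q hq => bgrc_nC hq
  · exact bgrc_pair (by simp only [ne_eq, Prod.mk.injEq]; omega)
      (bgrc_mem (bgrc_B (Or.inr ht)) (by simp only [bgrc_zle]; omega))
      (bgrc_mem (bgrc_B' h ht) (by simp only [bgrc_zle]; omega))
      fun q hq => bgrc_nD hq
  · exact bgrc_pair (by simp only [ne_eq, Prod.mk.injEq]; omega)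
      (bgrc_mem (bgrc_A (Or.inr ht)) (by simp only [bgrc_zle]; omega))
      (bgrc_mem (bgrc_A' h ht) (by simp only [bgrc_zle]; omega))
      fun q hq => bgrc_nE hq

theorem bgrc_one {x y z : ℤ} (hc : onK ty (x, y, z) = true) :
    (Even x ∧ Even y) ∨ (Even x ∧ Even z) ∨ (Even y ∧ Even z) := by
  simp only [Int.even_iff]
  rcases bgrc_kind hc with ⟨i, k, rfl, rfl, rfl, -⟩ | ⟨i, k, rfl, rfl, rfl, -⟩ |
    ⟨i, k, rfl, rfl, rfl, -⟩ | ⟨i, k, rfl, rfl, rfl, -⟩ | ⟨i, k, rfl, rfl, rfl, -⟩ <;> omega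

/-- The cells of the link keep away from the walls. -/
theorem Grid.kc_in (h : Grid N L ty) {c : Gr N L} (hc : c ∈ Kc N L ty) :
    (2 ≤ c.1.1 ∧ c.1.1 ≤ 2 * N) ∧ (2 ≤ c.1.2.1 ∧ c.1.2.1 ≤ 4) ∧
      (2 ≤ c.1.2.2 ∧ c.1.2.2 ≤ 2 * L) := by
  exact bgrc_in h hc

theorem Grid.kc_low (h : Grid N L ty) : IsLowerSet (Kc N L ty) := by
  intro c e hec hc
  exact bgrc_low h hc hec.1 hec.2.1 hec.2.2

theorem Grid.kc_two (h : Grid N L ty) {v : Gr N L} (hv : v ∈ Kc N L ty) :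
    (lk (ord (Gr N L)) {v} ∩ Kc N L ty).ncard = 2 := by
  have e : Subtype.val '' (lk (ord (Gr N L)) {v} ∩ Kc N L ty) = bgrcNb ty v.1 := by
    ext q
    constructor
    · rintro ⟨w, ⟨⟨w1, w2⟩, w3⟩, rfl⟩
      exact ⟨fun e => w1 (Finset.mem_singleton.2 (Subtype.ext e)),
        w2 v (Finset.mem_singleton_self v), w3⟩
    · rintro ⟨q1, q2, q3⟩
      have hb := bgrc_in (x := q.1) (y := q.2.1) (z := q.2.2) h q3
      refine ⟨⟨q, by omega⟩, ⟨⟨fun e => q1 (congrArg Subtype.val (Finset.mem_singleton.1 e)),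
        fun a ha => ?_⟩, q3⟩, rfl⟩
      rw [Finset.mem_singleton.1 ha]
      exact q2
  have e2 := Set.ncard_image_of_injective (lk (ord (Gr N L)) {v} ∩ Kc N L ty)
    (f := fun c : Gr N L => c.1) Subtype.val_injective
  rw [← e2]
  exact e ▸ bgrc_two h hv

theorem Grid.gk (h : Grid N L ty) (hne : (Kc N L ty).Nonempty)
    (hc : Conn (ord (Gr N L)) (Kc N L ty)) : GK (gio N L '' Kc N L ty) := by
  have hsep : Sep (ord (Box (N + 1, 3, L + 1))) (gio N L '' Kc N L ty) (Outr (N + 1, 3, L + 1)) := by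
    rintro _ ⟨c, hc', rfl⟩ b hb hr
    have hin := h.kc_in hc'
    obtain ⟨⟨x, hx⟩, ⟨y, hy⟩, ⟨z, hz⟩⟩ := b
    have hr' : (zle c.1.1 x ∧ zle c.1.2.1 y ∧ zle c.1.2.2 z) ∨
      (zle x c.1.1 ∧ zle y c.1.2.1 ∧ zle z c.1.2.2) := hr
    simp only [Outr, ZI.out, Set.mem_ofPred_eq] at hb
    simp only [zle, Int.even_iff] at hr'
    push_cast at hb
    omega
  have hrg : ∀ b, b ∉ Outr (N + 1, 3, L + 1) → ∃ c, gio N L c = b := fun b hb => by
    have : b ∈ Set.range (gio N L) := by rw [gio_range]; exact hb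
    exact this
  refine ⟨?_, ?_, hne.image _, hc.image fun a _ b _ hab => hab, ?_, hsep⟩
  · rintro _ b hba ⟨a, ha, rfl⟩
    obtain ⟨c, rfl⟩ := hrg b fun hb => hsep _ ⟨a, ha, rfl⟩ b hb (Or.inr hba)
    exact ⟨c, h.kc_low (gio_le.1 hba) ha, rfl⟩
  · rintro _ ⟨a, ha, rfl⟩
    exact bgrc_one (x := a.1.1) (y := a.1.2.1) (z := a.1.2.2) ha
  · rintro _ ⟨v, hv, rfl⟩
    have e : lk (ord (Box (N + 1, 3, L + 1))) {gio N L v} ∩ gio N L '' Kc N L ty =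
        gio N L '' (lk (ord (Gr N L)) {v} ∩ Kc N L ty) := by
      ext b
      constructor
      · rintro ⟨⟨b1, b2⟩, w, hw, rfl⟩
        refine ⟨w, ⟨⟨fun e => b1 ?_, fun a ha => ?_⟩, hw⟩, rfl⟩
        · rw [Finset.mem_singleton.1 e]
          exact Finset.mem_singleton_self _
        · rw [Finset.mem_singleton.1 ha]
          exact b2 _ (Finset.mem_singleton_self _)
      · rintro ⟨w, ⟨⟨w1, w2⟩, w3⟩, rfl⟩
        refine ⟨⟨fun e => w1 (Finset.mem_singleton.2 (gio_inj (Finset.mem_singleton.1 e))),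
          fun a ha => ?_⟩, w, w3, rfl⟩
        rw [Finset.mem_singleton.1 ha]
        exact w2 v (Finset.mem_singleton_self v)
    rw [e, Set.ncard_image_of_injective _ gio_inj]
    exact h.kc_two hv

end KG
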