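import Pool.Agent.Work.MP_c146e2_gt.KG.BGrB
import Pool.Agent.Work.MP_c146e2_gt.KG.BGrC

set_option autoImplicit false

noncomputable section

open scoped Classical

namespace KG

variable {N L : ℕ} {ty : ℤ → ℤ → CT}

theorem bgrd_abs {P : Type} [PartialOrder P] {Z B : Set P} (p : P → P)
    (h1 : ∀ a ∈ B \ Z, a ≤ p a ∧ p a ∈ Z)
    (h2 : ∀ a ∈ B \ Z, ∀ y ∈ Z, (ord P).r a y → ∃ z ∈ Z, a ≤ z ∧ z ≤ y ∧ z ≤ p a) :
    Absorb (ord P) Z (Z ∪ B) := by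
  have k0 : ∀ a ∈ B \ Z, Cl (ord P) (fun x y => inZ Z x y ∨ par (B \ Z) p x y) a (p a) :=
    fun a ha => Cl.base (Or.inr ⟨ha, rfl⟩)
  have k1 : ∀ a ∈ B \ Z, ∀ y ∈ Z, (ord P).r a y →
      Cl (ord P) (fun x y => inZ Z x y ∨ par (B \ Z) p x y) a y := fun a ha y hy r => by
    obtain ⟨z, hz, e1, e2, e3⟩ := h2 a ha y hy r
    exact Cl.tri (Or.inl e1) (Or.inl e2) r
      (Cl.tri (Or.inl (h1 a ha).1) (Or.inr e3) (Or.inl e1) (k0 a ha)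
        (Cl.base (Or.inl ⟨(h1 a ha).2, hz⟩))) (Cl.base (Or.inl ⟨hz, hy⟩))
  have k2 : ∀ a ∈ B \ Z, ∀ b ∈ B \ Z, a ≤ b →
      Cl (ord P) (fun x y => inZ Z x y ∨ par (B \ Z) p x y) a b := fun a ha b hb e =>
    Cl.tri (Or.inl (e.trans (h1 b hb).1)) (Or.inr (h1 b hb).1) (Or.inl e)
      (k1 a ha _ (h1 b hb).2 (Or.inl (e.trans (h1 b hb).1))) (k0 b hb).symm
  refine absorb_of (p := p) ⟨fun _ => 0, fun v hv => ⟨Or.inl (h1 v hv).2, Or.inl (h1 v hv).1,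
    fun h => absurd (h1 v hv).2 h.2⟩⟩ fun a ha b hb r => ?_
  by_cases e : b ∈ Z
  · exact k1 a ha b e r
  · have hb' : b ∈ B \ Z := ⟨hb.resolve_left e, e⟩
    exact r.elim (k2 a ha b hb') fun r => (k2 b hb' a ha r).symm

theorem bgrd_img {V V' : Type} {G' : Cx V'} {G : Cx V} {U' : Set V'} {f : V' → V}
    (hf : Function.Injective f) (hr : ∀ a b, G'.r a b ↔ G.r (f a) (f b)) {m : ℕ}
    (hg : GenN G' U' m) : GenN G (f '' U') m := by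
  intro H _ η hη
  obtain ⟨β, g, h⟩ := hg H (fun x y => η (f x) (f y)) fun a ha b hb c hc r1 r2 r3 =>
    hη _ ⟨a, ha, rfl⟩ _ ⟨b, hb, rfl⟩ _ ⟨c, hc, rfl⟩ ((hr _ _).1 r1) ((hr _ _).1 r2) ((hr _ _).1 r3)
  refine ⟨Function.extend f β fun _ => 1, g, ?_⟩
  rintro _ ⟨a, ha, rfl⟩ _ ⟨b, hb, rfl⟩ r
  rw [hf.extend_apply, hf.extend_apply]
  exact h a ha b hb ((hr _ _).2 r)

/-- Push a wall coordinate outwards. -/
def bgrdP {n : ℕ} (i : ZI n) : ZI n :=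
  ⟨if i.1 = 0 then -1 else if i.1 = 2 * n then 2 * n + 1 else i.1, by
    have := i.2
    split_ifs <;> omega⟩

/-- Pull an unbounded coordinate to the wall. -/
def bgrdQ {n : ℕ} (i : ZI n) : ZI n :=
  ⟨if i.1 = -1 then 0 else if i.1 = 2 * n + 1 then 2 * n else i.1, by
    have := i.2
    split_ifs <;> omega⟩

/-- Pull a wall coordinate inwards. -/
def bgrdR (n i : ℤ) : ℤ := if i = 0 then 1 else if i = 2 * n + 2 then 2 * n + 1 else i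

theorem bgrd_leP {n : ℕ} (i : ZI n) : i ≤ bgrdP i := by
  simp only [ZI.le_iff, zle, Int.even_iff, bgrdP]
  split_ifs <;> omega

theorem bgrd_outP {n : ℕ} {i : ZI n} (h : ¬ (0 < i.1 ∧ i.1 < 2 * n)) : (bgrdP i).out := by
  have := i.2
  simp only [ZI.out, bgrdP]
  split_ifs <;> omega

theorem bgrd_eqP {n : ℕ} {i j : ZI (n + 1)} (hi : ¬ i.out) (hj : j.out) (h : i ≤ j) :
    j ≤ bgrdP i := by
  refine Or.inl ?_
  have := i.2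
  simp only [ZI.le_iff, zle, Int.even_iff, bgrdP, ZI.out] at *
  omega

theorem bgrd_up {n : ℕ} {i j : ZI n} (hj : j.out) (h : j ≤ i) : i.out := by
  simp only [ZI.le_iff, zle, Int.even_iff, ZI.out] at *
  omega

theorem bgrd_near {n : ℕ} {i j : ZI n} (hj : 2 ≤ j.1 ∧ j.1 ≤ 2 * n - 2) (h : i ≤ j ∨ j ≤ i) :
    0 < i.1 ∧ i.1 < 2 * n := by
  simp only [ZI.le_iff, zle, Int.even_iff] at *
  omega

theorem bgrd_near' {n : ℕ} {i j : ZI n} (hj : 0 < j.1 ∧ j.1 < 2 * n) (h : j ≤ i ∨ i ≤ j) :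
    ¬ i.out := by
  simp only [ZI.le_iff, zle, Int.even_iff, ZI.out] at *
  omega

theorem bgrd_Qle {n : ℕ} (i : ZI n) : bgrdQ i ≤ i := by
  simp only [ZI.le_iff, zle, Int.even_iff, bgrdQ]
  split_ifs <;> omega

theorem bgrd_Qmono {n : ℕ} {i j : ZI n} (h : i ≤ j) : bgrdQ i ≤ bgrdQ j := by
  have := i.2
  have := j.2
  simp only [ZI.le_iff, zle, Int.even_iff, bgrdQ] at *
  split_ifs <;> omega

theorem bgrd_Qout {n : ℕ} (i : ZI n) : ¬ (bgrdQ i).out := by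
  simp only [ZI.out, bgrdQ]
  omega

theorem bgrd_Qfix {n : ℕ} {i : ZI n} (h : 2 ≤ (bgrdQ i).1 ∧ (bgrdQ i).1 ≤ 2 * n - 2) :
    bgrdQ i = i := by
  apply Subtype.ext
  simp only [bgrdQ] at *
  split_ifs at * <;> omega

theorem bgrd_leR (n i : ℤ) : zle i (bgrdR n i) := by
  simp only [zle, Int.even_iff, bgrdR]
  split_ifs <;> omega

theorem bgrd_Rin {n i : ℤ} (hn : 0 ≤ n) (h : 0 ≤ i ∧ i ≤ 2 * n + 2) :
    0 < bgrdR n i ∧ bgrdR n i < 2 * n + 2 := by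
  simp only [bgrdR]
  split_ifs <;> omega

theorem bgrd_Rmono {n i j : ℤ} (hj : 0 ≤ j ∧ j ≤ 2 * n + 2) (h : zle i j) :
    zle (bgrdR n i) (bgrdR n j) := by
  simp only [zle, Int.even_iff, bgrdR] at *
  split_ifs <;> omega

theorem bgrd_in {a : Box (N + 1, 3, L + 1)} : a ∈ gio N L '' inner N L ↔
    (0 < a.1.1 ∧ a.1.1 < 2 * (N + 1 : ℕ)) ∧ (0 < a.2.1.1 ∧ a.2.1.1 < 2 * (3 : ℕ)) ∧
      (0 < a.2.2.1 ∧ a.2.2.1 < 2 * (L + 1 : ℕ)) := by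
  push_cast
  constructor
  · rintro ⟨c, ⟨h1, h2, h3⟩, rfl⟩
    simp only [gio]
    omega
  · intro h
    exact ⟨⟨(a.1.1, a.2.1.1, a.2.2.1), by dsimp only; omega⟩,
      ⟨by dsimp only; omega, by dsimp only; omega, by dsimp only; omega⟩, rfl⟩

theorem bgrd_K (h : Grid N L ty) {a : Box (N + 1, 3, L + 1)} (ha : a ∈ gio N L '' Kc N L ty) :
    (2 ≤ a.1.1 ∧ a.1.1 ≤ 2 * (N + 1 : ℕ) - 2) ∧ (2 ≤ a.2.1.1 ∧ a.2.1.1 ≤ 2 * (3 : ℕ) - 2) ∧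
      (2 ≤ a.2.2.1 ∧ a.2.2.1 ≤ 2 * (L + 1 : ℕ) - 2) := by
  obtain ⟨c, hc, rfl⟩ := ha
  have := h.kc_in hc
  push_cast
  simp only [gio]
  omega

theorem bgrd_r {n : ℕ × ℕ × ℕ} {a b : Box n} (h : (ord (Box n)).r a b) :
    (a.1 ≤ b.1 ∨ b.1 ≤ a.1) ∧ (a.2.1 ≤ b.2.1 ∨ b.2.1 ≤ a.2.1) ∧ (a.2.2 ≤ b.2.2 ∨ b.2.2 ≤ a.2.2) :=
  h.elim (fun h => ⟨Or.inl h.1, Or.inl h.2.1, Or.inl h.2.2⟩)
    fun h => ⟨Or.inr h.1, Or.inr h.2.1, Or.inr h.2.2⟩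

theorem gio_star {c : Gr N L} (hc : c ∈ inner N L) :
    StarIso (ord (Gr N L)) (ord (Box (N + 1, 3, L + 1))) (gio N L) c := by
  refine ⟨fun y z _ _ e => gio_inj e, fun y z _ _ => Iff.rfl, fun b hb => ?_⟩
  have h1 := bgrd_in.1 ⟨c, hc, rfl⟩
  have h2 := bgrd_r hb
  have h3 : b ∈ Set.range (gio N L) := by
    rw [gio_range]
    rintro (h | h | h)
    · exact bgrd_near' h1.1 h2.1 h
    · exact bgrd_near' h1.2.1 h2.2.1 h
    · exact bgrd_near' h1.2.2 h2.2.2 h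
  obtain ⟨y, rfl⟩ := h3
  exact ⟨y, hb, rfl⟩

theorem bgrd_nout (c : Gr N L) : gio N L c ∈ (Outr (N + 1, 3, L + 1))ᶜ :=
  gio_range (N := N) (L := L) ▸ Set.mem_range_self c

theorem man_gr (N L : ℕ) : Man (ord (Gr N L)) (inner N L) :=
  man_pull (fun x hx => ⟨bgrd_nout x, gio_star hx⟩) (man_box _)

theorem Grid.tv_eq (h : Grid N L ty) :
    tv (ord (Box (N + 1, 3, L + 1))) (gio N L '' Kc N L ty ∪ Outr (N + 1, 3, L + 1)) =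
      tv (ord (Gr N L)) (Uc N L ty)ᶜ := by
  have h1 : Absorb (ord (Box (N + 1, 3, L + 1))) (gio N L '' Kc N L ty ∪ Outr (N + 1, 3, L + 1))
      (gio N L '' Kc N L ty ∪ Outr (N + 1, 3, L + 1) ∪ (gio N L '' inner N L)ᶜ) := by
    refine bgrd_abs (fun a => (bgrdP a.1, bgrdP a.2.1, bgrdP a.2.2))
      (fun a ha => ⟨⟨bgrd_leP _, bgrd_leP _, bgrd_leP _⟩, Or.inr ?_⟩) fun a ha y hy r => ?_
    · by_contra k
      refine ha.1 (bgrd_in.2 ⟨?_, ?_, ?_⟩)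
      · exact by_contra fun e => k (Or.inl (bgrd_outP e))
      · exact by_contra fun e => k (Or.inr (Or.inl (bgrd_outP e)))
      · exact by_contra fun e => k (Or.inr (Or.inr (bgrd_outP e)))
    · have k : a ∉ Outr (N + 1, 3, L + 1) := fun e => ha.2 (Or.inr e)
      rcases hy with hy | hy
      · have e1 := bgrd_K h hy
        have e2 := bgrd_r r
        exact absurd (bgrd_in.2 ⟨bgrd_near e1.1 e2.1, bgrd_near e1.2.1 e2.2.1,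
          bgrd_near e1.2.2 e2.2.2⟩) ha.1
      · rcases r with r | r
        · rcases hy with hy | hy | hy
          · exact ⟨(y.1, a.2.1, a.2.2), Or.inr (Or.inl hy), ⟨r.1, le_rfl⟩, ⟨le_rfl, r.2⟩,
              bgrd_eqP (fun e => k (Or.inl e)) hy r.1, bgrd_leP _, bgrd_leP _⟩
          · exact ⟨(a.1, y.2.1, a.2.2), Or.inr (Or.inr (Or.inl hy)), ⟨le_rfl, r.2.1, le_rfl⟩,
              ⟨r.1, le_rfl, r.2.2⟩, bgrd_leP _,
              bgrd_eqP (n := 2) (fun e => k (Or.inr (Or.inl e))) hy r.2.1, bgrd_leP _⟩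
          · exact ⟨(a.1, a.2.1, y.2.2), Or.inr (Or.inr (Or.inr hy)), ⟨le_rfl, le_rfl, r.2.2⟩,
              ⟨r.1, r.2.1, le_rfl⟩, bgrd_leP _, bgrd_leP _,
              bgrd_eqP (fun e => k (Or.inr (Or.inr e))) hy r.2.2⟩
        · exact absurd (hy.imp (fun e => bgrd_up e r.1)
            (Or.imp (fun e => bgrd_up e r.2.1) fun e => bgrd_up e r.2.2)) k
  have h2 : gio N L '' Kc N L ty ∪ Outr (N + 1, 3, L + 1) ∪ (gio N L '' inner N L)ᶜ =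
      (gio N L '' Uc N L ty)ᶜ := by
    rw [Uc, Set.image_sdiff gio_inj]
    ext a
    have : a ∈ Outr (N + 1, 3, L + 1) → a ∉ gio N L '' inner N L := by
      rintro e ⟨c, -, rfl⟩
      exact bgrd_nout c e
    simp only [Set.mem_union, Set.mem_compl_iff, Set.mem_sdiff]
    tauto
  have h3 : LocIso (ord (Gr N L)) (ord (Box (N + 1, 3, L + 1))) (Uc N L ty)
      (gio N L '' Uc N L ty) (gio N L) :=
    ⟨gio_inj.injOn.bijOn_image, fun u _ x _ hx e => hx (gio_inj.mem_set_image.1 e),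
      fun x hx => gio_star hx.1⟩
  rw [← h1.tv ((man_box _).mono fun x hx e => hx.2 (Or.inr e)), h2,
    h3.contr.tv ((man_gr N L).mono Set.sdiff_subset)]

theorem Grid.genN (h : Grid N L ty) {m : ℕ} (hg : GenN (ord (Gr N L)) (Uc N L ty) m) :
    GenN (ord (Box (N + 1, 3, L + 1))) (gio N L '' Kc N L ty)ᶜ m := by
  have a1 : ∀ c : Gr N L, (0 < bgrdR N c.1.1 ∧ bgrdR N c.1.1 < 2 * N + 2) ∧
      (0 < bgrdR 2 c.1.2.1 ∧ bgrdR 2 c.1.2.1 < 6) ∧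
      (0 < bgrdR L c.1.2.2 ∧ bgrdR L c.1.2.2 < 2 * L + 2) := fun c =>
    ⟨bgrd_Rin (Int.natCast_nonneg N) c.2.1, bgrd_Rin (n := 2) zero_le_two c.2.2.1,
      bgrd_Rin (Int.natCast_nonneg L) c.2.2.2⟩
  let ρ : Gr N L → Gr N L := fun c => ⟨(bgrdR N c.1.1, bgrdR 2 c.1.2.1, bgrdR L c.1.2.2),
    ⟨(a1 c).1.1.le, (a1 c).1.2.le⟩, ⟨(a1 c).2.1.1.le, (a1 c).2.1.2.le⟩,
    ⟨(a1 c).2.2.1.le, (a1 c).2.2.2.le⟩⟩
  have a2 : ∀ c, c ≤ ρ c := fun c => ⟨bgrd_leR _ _, bgrd_leR _ _, bgrd_leR _ _⟩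
  have h1 : Absorb (ord (Gr N L)) (Uc N L ty) (Kc N L ty)ᶜ :=
    abs_infl ρ (fun x hx => hx.2) (fun x hx => ⟨a1 x, fun e => hx (h.kc_low (a2 x) e)⟩)
      (fun x _ => a2 x) fun x _ y _ e => ⟨bgrd_Rmono y.2.1 e.1,
        bgrd_Rmono (n := 2) y.2.2.1 e.2.1, bgrd_Rmono y.2.2.2 e.2.2⟩
  have h2 := bgrd_img (G := ord (Box (N + 1, 3, L + 1))) gio_inj (fun _ _ => Iff.rfl) (h1.genN hg)
  refine Absorb.genN (abs_defl (fun a => (bgrdQ a.1, bgrdQ a.2.1, bgrdQ a.2.2)) ?_ (fun a ha => ?_)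
    (fun a _ => And.intro (bgrd_Qle _) ⟨bgrd_Qle _, bgrd_Qle _⟩)
    fun x _ y _ e => And.intro (bgrd_Qmono e.1) ⟨bgrd_Qmono e.2.1, bgrd_Qmono e.2.2⟩) h2
  · rintro _ ⟨c, hc, rfl⟩ e
    exact hc (gio_inj.mem_set_image.1 e)
  · have h3 : (bgrdQ a.1, bgrdQ a.2.1, bgrdQ a.2.2) ∈ Set.range (gio N L) := by
      rw [gio_range]
      rintro (e | e | e) <;> exact bgrd_Qout _ e
    obtain ⟨c, hc⟩ := h3
    refine ⟨c, fun e => ha ⟨c, e, ?_⟩, hc⟩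
    have h4 := bgrd_K h ⟨c, e, hc⟩
    rw [hc]
    exact Prod.ext (bgrd_Qfix h4.1) (Prod.ext (bgrd_Qfix h4.2.1) (bgrd_Qfix h4.2.2))

end KG
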