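import Pool.Agent.Work.MP_c146e2_gt.KG.BArr

set_option autoImplicit false

noncomputable section

open scoped Classical

namespace KG

variable {A : Finset Fn}

section aux

variable {x β y y' : E4} {l : Fn}

theorem bitv_sign {a b : ℝ} (hb : b ≠ 0) :
    0 ≤ a / b ↔ SignType.sign a = 0 ∨ SignType.sign a = SignType.sign b := by
  rcases eq_or_ne a 0 with rfl | ha
  · simp
  rcases ha.lt_or_gt with h | h <;> rcases hb.lt_or_gt with k | k <;>
    simp [div_nonneg_iff, h, k, h.le, k.le, h.not_ge, k.not_ge]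

theorem bitv_sv (h : l ∈ A) : sv A x l = SignType.sign (l x) := if_pos h

theorem bitv_zero : sv A x l = 0 ↔ (l ∈ A → l x = 0) := by
  by_cases h : l ∈ A <;> simp [sv, h]

theorem bitv_spn : y ∈ spn A (sv A x) ↔ ∀ l ∈ A, l x = 0 → l y = 0 :=
  mem_spn.trans (forall₂_congr fun l hl => by rw [bitv_sv hl, sign_eq_zero_iff])

variable (A x β) in
/-- The functionals that vanish at `x` but not at `β`. -/
def bitvI (l : Fn) : Prop := l ∈ A ∧ l x = 0 ∧ l β ≠ 0

variable (A x β) in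
/-- Points on the boundary of the cone over `β` seen from `x`. -/
def bitvN (y : E4) : Prop :=
  (∀ l, bitvI A x β l → 0 ≤ l y / l β) ∧ ∃ l, bitvI A x β l ∧ l y = 0

theorem bitv_pi (hI : ∃ l, bitvI A x β l) :
    ∃ t : E4 → ℝ, Continuous t ∧ ∀ y, bitvN A x β (y + t y • β) := by
  have hm : ∀ l, l ∈ A.filter (bitvI A x β) ↔ bitvI A x β l := fun l =>
    Finset.mem_filter.trans (and_iff_right_of_imp fun h => h.1)
  have h0 : (A.filter (bitvI A x β)).Nonempty := hI.imp fun l hl => (hm l).2 hl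
  refine ⟨fun y => (A.filter (bitvI A x β)).sup' h0 fun l => -(l y / l β),
    Continuous.finset_sup'_apply h0 fun l _ =>
      (l.continuous_of_finiteDimensional.div_const _).neg, fun y => ⟨fun l hl => ?_, ?_⟩⟩
  · have := Finset.le_sup' (fun l : Fn => -(l y / l β)) ((hm l).2 hl)
    rw [map_add, map_smul, smul_eq_mul, add_div, mul_div_cancel_right₀ _ hl.2.2]
    linarith
  · obtain ⟨l, hl, e⟩ := Finset.exists_mem_eq_sup' h0 fun l : Fn => -(l y / l β)
    refine ⟨l, (hm l).1 hl, ?_⟩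
    beta_reduce
    rw [map_add, map_smul, smul_eq_mul, e, neg_mul, div_mul_cancel₀ _ ((hm l).1 hl).2.2,
      add_neg_cancel]

theorem bitv_uniq {c : ℝ} (h : bitvN A x β y) (h' : bitvN A x β y')
    (e : ∀ l, bitvI A x β l → l y' = l y + c * l β) : c = 0 := by
  obtain ⟨l, hl, h0⟩ := h.2
  obtain ⟨l', hl', h0'⟩ := h'.2
  have h1 := h'.1 l hl
  have h2 := h.1 l' hl'
  rw [e l hl, h0, zero_add, mul_div_cancel_right₀ _ hl.2.2] at h1
  rw [eq_neg_of_add_eq_zero_left ((e l' hl').symm.trans h0'), neg_div,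
    mul_div_cancel_right₀ _ hl'.2.2] at h2
  linarith

theorem bitv_cmp : cmp (sv A x) (sv A y) = cmp (sv A x) (sv A y') ↔
    ∀ l ∈ A, l x = 0 → SignType.sign (l y) = SignType.sign (l y') := by
  refine funext_iff.trans (forall_congr' fun l => ?_)
  by_cases h : l ∈ A <;> by_cases h' : l x = 0 <;> simp [cmp, sv, h, h']

theorem bitv_in {b : Cell A} (hβ : sv A β = b.1) (h : sle (sv A x) b.1)
    (hy : y ∈ spn A (sv A β)) (hN : bitvN A x β y) (hL : y ∉ spn A (sv A x)) :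
    ∃ z : Cell A, z.1 = cmp (sv A x) (sv A y) ∧ sle (sv A x) z.1 ∧ sv A x ≠ z.1 ∧ z < b := by
  have h1 : sv A x ≠ cmp (sv A x) (sv A y) := fun e => hL (bitv_spn.2 fun l hl h0 => by
    have := bitv_cmp.1 ((cmp_of_sle fun _ => Or.inr rfl).trans e) l hl h0
    rwa [h0, sign_zero, eq_comm, sign_eq_zero_iff] at this)
  obtain ⟨ε, h2, h3⟩ := sv_cmp A x y
  have h4 := h3 ε h2 le_rfl
  refine ⟨⟨_, x + ε • y, fun e => h1 (funext fun l => ?_), h4⟩, rfl, sle_cmp _ _, h1,
    lt_of_le_of_ne (fun l => ?_) fun e => ?_⟩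
  · refine (sle_cmp _ (sv A y) l).elim (fun k => k.trans ?_) id
    rw [← h4, e, eq_comm, bitv_zero]
    exact fun _ => map_zero l
  · change cmp _ _ l = 0 ∨ cmp _ _ l = _
    rw [cmp]
    split_ifs with k
    · by_cases hl : l ∈ A
      · by_cases k' : l β = 0
        · exact Or.inl (bitv_zero.2 fun _ => bitv_spn.1 hy l hl k')
        · rw [← hβ, bitv_sv hl, bitv_sv hl]
          exact (bitv_sign k').1 (hN.1 l ⟨hl, bitv_zero.1 k hl, k'⟩)
      · exact Or.inl (if_neg hl)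
    · exact h l
  · obtain ⟨l, hl, h0⟩ := hN.2
    have := congrFun ((congrArg Subtype.val e).trans hβ.symm) l
    change cmp _ _ l = _ at this
    rw [cmp, if_pos (bitv_zero.2 fun _ => hl.2.1), bitv_zero.2 fun _ => h0, eq_comm,
      bitv_zero] at this
    exact hl.2.2 (this hl.1)

theorem bitv_out (h1 : sle (sv A x) (sv A y)) (h2 : sv A x ≠ sv A y) (h3 : sle (sv A y) (sv A β))
    (h4 : sv A y ≠ sv A β) :
    bitvN A x β y ∧ y ∉ spn A (sv A x) ⊔ Submodule.span ℝ {β} := by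
  have hN : bitvN A x β y := by
    refine ⟨fun l hl => (bitv_sign hl.2.2).2 ?_, ?_⟩
    · rw [← bitv_sv hl.1, ← bitv_sv hl.1]
      exact h3 l
    · obtain ⟨l, hl⟩ := Function.ne_iff.1 h4
      have k1 := (h3 l).resolve_right hl
      rw [k1, ne_comm, Ne, bitv_zero, Classical.not_imp] at hl
      exact ⟨l, ⟨hl.1, bitv_zero.1 ((h1 l).elim id (·.trans k1)) hl.1, hl.2⟩, bitv_zero.1 k1 hl.1⟩
  refine ⟨hN, fun k => h2 (funext fun l => ?_)⟩
  obtain ⟨a, ha, _, hb, rfl⟩ := Submodule.mem_sup.1 k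
  obtain ⟨c, rfl⟩ := Submodule.mem_span_singleton.1 hb
  obtain ⟨l', hl', h0⟩ := hN.2
  rw [map_add, map_smul, bitv_spn.1 ha l' hl'.1 hl'.2.1, zero_add, smul_eq_mul,
    mul_eq_zero] at h0
  refine (h1 l).elim (fun e => e.trans (bitv_zero.2 fun hl => ?_).symm) id
  rw [h0.resolve_right hl'.2.2, zero_smul, add_zero]
  exact bitv_spn.1 ha l hl (bitv_zero.1 e hl)

theorem bitv_ray {t : E4 → ℝ} (hN : ∀ y, bitvN A x β (y + t y • β)) {m u : E4} {r : ℝ}
    (hm : m ∈ spn A (sv A x) ⊔ Submodule.span ℝ {β}) (hr : 0 < r) :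
    cmp (sv A x) (sv A (m + r • u + t (m + r • u) • β)) = cmp (sv A x) (sv A (u + t u • β)) := by
  obtain ⟨a, ha, _, hb, rfl⟩ := Submodule.mem_sup.1 hm
  obtain ⟨c, rfl⟩ := Submodule.mem_span_singleton.1 hb
  have h1 : ∀ l ∈ A, l x = 0 → l (a + c • β + r • u + t (a + c • β + r • u) • β) =
      l (r • (u + t u • β)) + (c + t (a + c • β + r • u) - r * t u) * l β := fun l hl h0 => by
    simp only [map_add, map_smul, smul_eq_mul, bitv_spn.1 ha l hl h0]
    ring
  have h2 := bitv_uniq (y := r • (u + t u • β)) ⟨fun l hl => by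
    rw [map_smul, smul_eq_mul, mul_div_assoc]
    exact mul_nonneg hr.le ((hN u).1 l hl), (hN u).2.imp fun l hl => ⟨hl.1, by
      rw [map_smul, hl.2, smul_zero]⟩⟩ (hN _) fun l hl => h1 l hl.1 hl.2.1
  refine bitv_cmp.2 fun l hl h0 => ?_
  rw [h1 l hl h0, h2, zero_mul, add_zero, map_smul, smul_eq_mul, sign_mul, sign_pos hr, one_mul]

theorem bitv_ne {t : E4 → ℝ} (hN : ∀ y, bitvN A x β (y + t y • β)) {u : E4}
    (h : cmp (sv A x) (sv A (u + t u • β)) = cmp (sv A x) (sv A (-u + t (-u) • β))) :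
    u + t u • β ∈ spn A (sv A x) := by
  rw [bitv_cmp] at h
  have h1 : ∀ l : Fn, l (-u + t (-u) • β) = -l (u + t u • β) + (t u + t (-u)) * l β := fun l => by
    simp only [map_add, map_smul, map_neg, smul_eq_mul]
    ring
  obtain ⟨l', hl', h0⟩ := (hN u).2
  have h2 := h l' hl'.1 hl'.2.1
  rw [h1, h0, sign_zero, eq_comm, sign_eq_zero_iff, neg_zero, zero_add, mul_eq_zero] at h2
  refine bitv_spn.2 fun l hl h0 => ?_
  have h3 := h l hl h0
  rwa [h1, h2.resolve_right hl'.2.2, zero_mul, add_zero, Left.sign_neg, SignType.self_eq_neg_iff,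
    sign_eq_zero_iff] at h3

end aux

/-- Intervals between the cell of `x`, which may be the origin, and a cell `b`. -/
theorem itv_mid {x : E4} {b : Cell A} (h : sle (sv A x) b.1) (hne : sv A x ≠ b.1) :
    Itv {z : Cell A | sle (sv A x) z.1 ∧ sv A x ≠ z.1 ∧ z < b}
      (dm A b.1 - dm A (sv A x) - 1) := by
  obtain ⟨β, -, hβ⟩ := b.2
  have hI : ∃ l, bitvI A x β l := by
    obtain ⟨l, hl⟩ := Function.ne_iff.1 hne
    have k1 := (h l).resolve_right hl
    rw [k1, ← hβ, ne_comm, Ne, bitv_zero, Classical.not_imp] at hl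
    exact ⟨l, hl.1, bitv_zero.1 k1 hl.1, hl.2⟩
  obtain ⟨t, ht, hN⟩ := bitv_pi hI
  set M := spn A (sv A x) ⊔ Submodule.span ℝ {β} with hM
  set W := spn A (sv A β) with hW
  have hβM : β ∈ M := Submodule.mem_sup_right (Submodule.mem_span_singleton_self β)
  have h1 : Module.finrank ℝ M = dm A (sv A x) + 1 := Submodule.finrank_sup_span_singleton
    fun k => hI.elim fun l hl => hl.2.2 (bitv_spn.1 k l hl.1 hl.2.1)
  have h2 : M ≤ W := sup_le (spn_mono (hβ ▸ h))
    ((Submodule.span_singleton_le_iff_mem _ _).2 (self_mem_spn β))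
  have h3 : ∀ y ∉ M, y + t y • β ∉ spn A (sv A x) := fun y hy k =>
    hy ((M.add_mem_iff_left (M.smul_mem (t y) hβM)).1 (Submodule.mem_sup_left k))
  have h4 : ∀ y, ∃ z : Cell A, y ∈ (W : Set E4) \ M → z.1 = cmp (sv A x) (sv A (y + t y • β)) ∧
      sle (sv A x) z.1 ∧ sv A x ≠ z.1 ∧ z < b := fun y => by
    by_cases k : y ∈ (W : Set E4) \ M
    · exact (bitv_in hβ h (W.add_mem k.1 (W.smul_mem _ (h2 hβM))) (hN y) (h3 y k.2)).imp
        fun z hz _ => hz
    · exact ⟨b, fun e => absurd e k⟩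
  choose φ hφ using h4
  have h5 : {z : Cell A | sle (sv A x) z.1 ∧ sv A x ≠ z.1 ∧ z < b} = φ '' ((W : Set E4) \ M) := by
    refine Set.Subset.antisymm (fun z hz => ?_) (by rintro _ ⟨y, hy, rfl⟩; exact (hφ y hy).2)
    obtain ⟨y, -, hy⟩ := z.2
    have k1 : sle (sv A y) (sv A β) := by rw [hy, hβ]; exact hz.2.2.le
    obtain ⟨k2, k3⟩ := bitv_out (hy ▸ hz.1) (hy ▸ hz.2.1) k1 fun e =>
      hz.2.2.ne (Subtype.ext (hy.symm.trans (e.trans hβ)))
    have k4 : y ∈ (W : Set E4) \ M := ⟨spn_mono k1 (self_mem_spn y), k3⟩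
    refine ⟨y, k4, Subtype.ext ?_⟩
    rw [(hφ y k4).1, bitv_uniq (c := t y) k2 (hN y) fun l _ => by
      rw [map_add, map_smul, smul_eq_mul], zero_smul, add_zero, hy,
      cmp_of_sle hz.1]
  have h6 : dm A b.1 = Module.finrank ℝ W := by rw [← hβ]; rfl
  have h7 : 1 ≤ dm A b.1 - dm A (sv A x) - 1 → ((W : Set E4) \ M).Nonempty := fun k =>
    Set.nonempty_of_not_subset fun e => by
      have := Submodule.finrank_mono (show W ≤ M from e)
      omega
  rw [h5]
  refine ⟨fun k => ?_, fun k => ⟨(h7 (by omega)).image φ, conn_usc ?_ φ fun y hy => ?_⟩⟩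
  · obtain ⟨u, hu⟩ := h7 k.ge
    have hu' : -u ∈ (W : Set E4) \ M := ⟨W.neg_mem hu.1, fun e => hu.2 (M.neg_mem_iff.1 e)⟩
    have k1 : M ⊔ Submodule.span ℝ {u} = W := Submodule.eq_of_le_of_finrank_eq
      (sup_le h2 ((Submodule.span_singleton_le_iff_mem _ _).2 hu.1))
      (by rw [Submodule.finrank_sup_span_singleton hu.2]; omega)
    rw [← Set.ncard_pair (a := φ u) (b := φ (-u)) fun e => h3 u hu.2 (bitv_ne hN
      ((hφ u hu).1.symm.trans ((congrArg Subtype.val e).trans (hφ _ hu').1)))]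
    congr 1
    refine Set.Subset.antisymm ?_ (Set.pair_subset ⟨u, hu, rfl⟩ ⟨_, hu', rfl⟩)
    rintro _ ⟨y, hy, rfl⟩
    obtain ⟨m, hm, _, hb, rfl⟩ := Submodule.mem_sup.1 (k1.ge hy.1)
    obtain ⟨r, rfl⟩ := Submodule.mem_span_singleton.1 hb
    rcases lt_trichotomy r 0 with hr | rfl | hr
    · refine Or.inr (Subtype.ext ?_)
      rw [(hφ _ hy).1, (hφ _ hu').1, ← neg_smul_neg]
      exact bitv_ray hN hm (neg_pos.2 hr)
    · exact absurd (by simpa using hm) hy.2
    · exact Or.inl (Subtype.ext ((hφ _ hy).1.trans ((bitv_ray hN hm hr).trans (hφ _ hu).1.symm)))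
  · have k1 := Submodule.finrank_quotient_add_finrank (M.comap W.subtype)
    rw [(Submodule.comapSubtypeEquivOfLe h2).finrank_eq] at k1
    have k2 := (isConnected_compl_of_one_lt_codim (E := M.comap W.subtype) (by
      rw [← Module.finrank_eq_rank]
      exact_mod_cast (by omega))).isPreconnected.image _ continuous_subtype_val.continuousOn
    convert k2 using 1
    exact Set.ext fun y => ⟨fun hy => ⟨⟨y, hy.1⟩, hy.2, rfl⟩, by
      rintro ⟨y, hy, rfl⟩; exact ⟨y.2, hy⟩⟩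
  · have k1 : Continuous fun y => y + t y • β := continuous_id.add (ht.smul continuous_const)
    filter_upwards [self_mem_nhdsWithin,
      nhdsWithin_le_nhds (k1.continuousAt.eventually (sv_near A (y + t y • β)))] with y' k2 k3
    rw [Cell.le_iff, (hφ y hy).1, (hφ y' k2).1]
    exact cmp_mono _ k3

end KG
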