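import Pool.Agent.Work.MP_c146e2_gt.KG.ManO
import Pool.Agent.Work.MP_c146e2_gt.KG.CtSd

set_option autoImplicit false

noncomputable section

open scoped Classical

namespace KG

variable {V V' : Type}

theorem mans_lt {G : Cx V} {s t : Fc G} : s < t ↔ s.1 ⊂ t.1 := Iff.rfl

theorem mans_sub {G : Cx V} {s t : Finset V} (ht : Clq G t) (h : s ⊆ t) (hn : s.Nonempty) :
    Clq G s := ⟨hn, fun a ha b hb => ht.2 a (h ha) b (h hb)⟩

theorem mans_pos {G : Cx V} (s : Fc G) : 0 < s.1.card := s.2.1.card_pos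

theorem mans_ins {G : Cx V} {s : Finset V} (hs : Clq G s) {w : V} (hw : ∀ a ∈ s, G.r w a) :
    Clq G (insert w s) := by
  refine ⟨Finset.insert_nonempty _ _, fun a ha b hb => ?_⟩
  rcases Finset.mem_insert.1 ha with rfl | ha' <;> rcases Finset.mem_insert.1 hb with rfl | hb'
  · exact G.refl _
  · exact hw _ hb'
  · exact G.symm _ _ (hw _ ha')
  · exact hs.2 _ ha' _ hb'

theorem mans_up {G : Cx V} {S : Set (Fc G)} {s t : Fc G} (hs : s ∈ S) (ht : t ∈ S)
    (h : s.1 ⊆ t.1) : Rch (ord (Fc G)) S s t := rch_step hs ht (Or.inl h)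

theorem mans_ncard {G : Cx V} {S : Set (Fc G)} {A : Finset V} {T : Set V} (hT : ∀ x ∈ T, x ∉ A)
    (h : ∀ s : Finset V, (∃ z ∈ S, z.1 = s) ↔ ∃ x ∈ T, insert x A = s) : S.ncard = T.ncard := by
  have e : (fun z : Fc G => z.1) '' S = (fun x => insert x A) '' T := Set.ext h
  have i1 : Function.Injective fun z : Fc G => z.1 := fun _ _ e => Subtype.ext e
  have i2 : Set.InjOn (fun x => insert x A) T := fun x hx y _ e => by
    have : x ∈ insert y A := by
      have e' : insert x A = insert y A := e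
      rw [← e']
      exact Finset.mem_insert_self _ _
    exact (Finset.mem_insert.1 this).resolve_right (hT x hx)
  rw [← Set.ncard_image_of_injective S i1, e, i2.ncard_image]

theorem mans_bool {G : Cx V} {A B : Finset V} (hB : Clq G B) (hAB : A ⊆ B) :
    Itv {z : Fc G | A ⊂ z.1 ∧ z.1 ⊂ B} (B.card - A.card - 1) := by
  have cq : ∀ x ∈ B, Clq G (insert x A) := fun x hx =>
    mans_sub hB (Finset.insert_subset hx hAB) (Finset.insert_nonempty _ _)
  have ss : ∀ s : Finset V, s ⊆ B → s.card < B.card → s ⊂ B := fun s h1 h2 =>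
    Finset.ssubset_iff_subset_ne.2 ⟨h1, fun e => by rw [e] at h2; exact lt_irrefl _ h2⟩
  have mem : A.card + 2 ≤ B.card → ∀ x (hx : x ∈ B), x ∉ A →
      (⟨insert x A, cq x hx⟩ : Fc G) ∈ {z : Fc G | A ⊂ z.1 ∧ z.1 ⊂ B} := fun hc x hx hA =>
    ⟨Finset.ssubset_insert hA, ss _ (Finset.insert_subset hx hAB) (by
      rw [Finset.card_insert_of_notMem hA]; omega)⟩
  refine ⟨fun hn => ?_, fun hn => ⟨?_, ?_⟩⟩
  · rw [mans_ncard (A := A) (T := ((B \ A : Finset V) : Set V))
      (fun x hx => (Finset.mem_sdiff.1 hx).2), Set.ncard_coe_finset,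
      Finset.card_sdiff_of_subset hAB]
    · omega
    · intro s
      constructor
      · rintro ⟨z, ⟨h1, h2⟩, rfl⟩
        obtain ⟨x, hx, hA⟩ := Finset.exists_of_ssubset h1
        refine ⟨x, Finset.mem_coe.2 (Finset.mem_sdiff.2 ⟨h2.1 hx, hA⟩),
          Finset.eq_of_subset_of_card_le (Finset.insert_subset hx h1.1) ?_⟩
        have := Finset.card_lt_card h2
        rw [Finset.card_insert_of_notMem hA]
        omega
      · rintro ⟨x, hx, rfl⟩
        have hx' := Finset.mem_sdiff.1 (Finset.mem_coe.1 hx)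
        exact ⟨_, mem (by omega) x hx'.1 hx'.2, rfl⟩
  · obtain ⟨x, hx, hA⟩ := Finset.exists_mem_notMem_of_card_lt_card (s := A) (t := B) (by omega)
    exact ⟨_, mem (by omega) x hx hA⟩
  · intro z hz z' hz'
    obtain ⟨x, hx, hA⟩ := Finset.exists_of_ssubset hz.1
    obtain ⟨y, hy, hA'⟩ := Finset.exists_of_ssubset hz'.1
    have mx := mem (by omega) x (hz.2.1 hx) hA
    have my := mem (by omega) y (hz'.2.1 hy) hA'
    have hs : insert x (insert y A) ⊆ B :=
      Finset.insert_subset (hz.2.1 hx) (Finset.insert_subset (hz'.2.1 hy) hAB)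
    have mxy : (⟨insert x (insert y A), mans_sub hB hs (Finset.insert_nonempty _ _)⟩ : Fc G) ∈
        {z : Fc G | A ⊂ z.1 ∧ z.1 ⊂ B} := by
      refine ⟨(Finset.ssubset_insert hA').trans_subset (Finset.subset_insert _ _), ss _ hs ?_⟩
      have h1 := Finset.card_insert_le x (insert y A)
      have h2 := Finset.card_insert_le y A
      show (insert x (insert y A)).card < B.card
      omega
    exact (((rch_symm (mans_up mx hz (Finset.insert_subset hx hz.1.1))).trans
      (mans_up mx mxy (Finset.insert_subset_insert _ (Finset.subset_insert _ _)))).trans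
      (rch_symm (mans_up my mxy (Finset.subset_insert _ _)))).trans
      (mans_up my hz' (Finset.insert_subset hy hz'.1.1))

theorem mans_meets {s t : Finset V} {U : Set V} (h : Meets s U) (hst : s ⊆ t) : Meets t U :=
  h.imp fun _ ha => ⟨hst ha.1, ha.2⟩

theorem mans_top {G : Cx V} {U : Set V} (h : PMan G U) (a : Fc G) (ha : Meets a.1 U) :
    Itv {z : Fc G | a < z} (3 - (a.1.card - 1)) := by
  have hp := mans_pos a
  have lkm : ∀ z : Fc G, a < z → ∃ w ∈ z.1, w ∈ lk G a.1 := fun z hz => by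
    obtain ⟨w, hw, hA⟩ := Finset.exists_of_ssubset (mans_lt.1 hz)
    exact ⟨w, hw, hA, fun b hb => z.2.2 _ hw _ ((mans_lt.1 hz).1 hb)⟩
  have mem : ∀ w (hw : w ∈ lk G a.1), (⟨insert w a.1, mans_ins a.2 hw.2⟩ : Fc G) ∈
      {z : Fc G | a < z} := fun w hw => mans_lt.2 (Finset.ssubset_insert hw.1)
  refine ⟨fun hn => ?_, fun hn => ?_⟩
  · rw [mans_ncard (A := a.1) (T := lk G a.1) fun x hx => hx.1]
    · exact h.tri _ a.2 ha (by omega)
    · intro s
      constructor
      · rintro ⟨z, hz, rfl⟩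
        obtain ⟨w, hw, hl⟩ := lkm z hz
        have hz' := (mans_lt.1 hz).1
        refine ⟨w, hl, Finset.eq_of_subset_of_card_le (Finset.insert_subset hw hz') ?_⟩
        have := h.dim _ z.2 (mans_meets ha hz')
        rw [Finset.card_insert_of_notMem hl.1]
        omega
      · rintro ⟨x, hx, rfl⟩
        exact ⟨_, mem x hx, rfl⟩
  · obtain ⟨⟨w₀, hw₀⟩, hc⟩ := h.con _ a.2 ha (by omega)
    refine ⟨⟨_, mem w₀ hw₀⟩, fun z hz z' hz' => ?_⟩
    obtain ⟨w, hw, hl⟩ := lkm z hz
    obtain ⟨w', hw', hl'⟩ := lkm z' hz'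
    let f : V → Fc G := fun x => if hx : x ∈ lk G a.1 then ⟨insert x a.1, mans_ins a.2 hx.2⟩ else a
    have hf : ∀ x (hx : x ∈ lk G a.1), f x = ⟨insert x a.1, mans_ins a.2 hx.2⟩ := fun x hx =>
      dif_pos hx
    have hr : Rch (ord (Fc G)) {z : Fc G | a < z} (f w) (f w') := by
      refine rch_map (fun x hx y hy hxy => ?_) (hc w hl w' hl')
      have cq : Clq G (insert x (insert y a.1)) := mans_ins (mans_ins a.2 hy.2) fun b hb => by
        rcases Finset.mem_insert.1 hb with rfl | hb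
        · exact hxy
        · exact hx.2 b hb
      have mxy : (⟨_, cq⟩ : Fc G) ∈ {z : Fc G | a < z} :=
        mans_lt.2 ((Finset.ssubset_insert hy.1).trans_subset (Finset.subset_insert _ _))
      rw [hf x hx, hf y hy]
      exact (mans_up (mem x hx) mxy (Finset.insert_subset_insert _ (Finset.subset_insert _ _))).trans
        (rch_symm (mans_up (mem y hy) mxy (Finset.subset_insert _ _)))
    rw [hf w hl, hf w' hl'] at hr
    exact ((rch_symm (mans_up (mem w hl) hz (Finset.insert_subset hw (mans_lt.1 hz).1))).trans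
      hr).trans (mans_up (mem w' hl') hz' (Finset.insert_subset hw' (mans_lt.1 hz').1))

theorem gp_sd [Fintype V] {G : Cx V} {U : Set V} (h : PMan G U) :
    GP (fun s : Fc G => s.1.card - 1) (up G U) := by
  refine ⟨fun s t hst => ?_, fun u hu => ?_, fun u hu x hx => mans_meets hu hx, fun u _ b _ => ?_,
    fun u _ b _ a hab => ?_, fun a ha => mans_top h a ha⟩
  · have h1 := Finset.card_lt_card (mans_lt.1 hst)
    have h2 := mans_pos s
    show s.1.card - 1 < t.1.card - 1
    omega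
  · have := h.dim _ u.2 hu
    show u.1.card - 1 ≤ 3
    omega
  · have e : {z : Fc G | z < b} = {z : Fc G | ∅ ⊂ z.1 ∧ z.1 ⊂ b.1} :=
      Set.ext fun z => ⟨fun hz => ⟨z.2.1.empty_ssubset, hz⟩, fun hz => hz.2⟩
    rw [e]
    exact mans_bool b.2 (Finset.empty_subset _)
  · have h2 := mans_pos a
    have e : b.1.card - 1 - (a.1.card - 1) - 1 = b.1.card - a.1.card - 1 := by omega
    show Itv _ (b.1.card - 1 - (a.1.card - 1) - 1)
    rw [e]
    exact mans_bool b.2 (mans_lt.1 hab).1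

theorem mans_zero [Fintype V] {G : Cx V} (v : Fc G) {x : V} (hx : v.1 = {x}) :
    (∑ z : Fc G, if v < z then (-1 : ℤ) ^ (z.1.card - 1 + 1) else 0) = chi G (lk G {x}) := by
  unfold chi
  rw [← Finset.sum_filter, ← Finset.sum_filter]
  have xm : ∀ z : Fc G, v < z → x ∈ z.1 := fun z hz =>
    (mans_lt.1 hz).1 (by rw [hx]; exact Finset.mem_singleton_self _)
  refine Finset.sum_bij (fun z _ => z.1.erase x) (fun z hz => ?_) (fun z hz z' hz' e => ?_)
    (fun s hs => ?_) fun z hz => ?_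
  · have hz' := (Finset.mem_filter.1 hz).2
    obtain ⟨w, hw, hA⟩ := Finset.exists_of_ssubset (mans_lt.1 hz')
    rw [hx, Finset.mem_singleton] at hA
    refine Finset.mem_filter.2 ⟨Finset.mem_univ _, mans_sub z.2 (Finset.erase_subset _ _)
      ⟨w, Finset.mem_erase.2 ⟨hA, hw⟩⟩, fun b hb => ⟨?_, fun c hc => ?_⟩⟩
    · exact Finset.notMem_singleton.2 (Finset.mem_erase.1 hb).1
    · rw [Finset.mem_singleton.1 hc]
      exact z.2.2 _ (Finset.mem_erase.1 hb).2 _ (xm z hz')
  · refine Subtype.ext ?_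
    have e' : z.1.erase x = z'.1.erase x := e
    rw [← Finset.insert_erase (xm z (Finset.mem_filter.1 hz).2), e',
      Finset.insert_erase (xm z' (Finset.mem_filter.1 hz').2)]
  · obtain ⟨hc, hi⟩ := (Finset.mem_filter.1 hs).2
    have hn : x ∉ s := fun hxs => (hi x hxs).1 (Finset.mem_singleton_self _)
    have cq : Clq G (insert x s) := mans_ins hc fun b hb =>
      G.symm _ _ ((hi b hb).2 x (Finset.mem_singleton_self _))
    refine ⟨⟨_, cq⟩, Finset.mem_filter.2 ⟨Finset.mem_univ _, mans_lt.2 ?_⟩, Finset.erase_insert hn⟩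
    obtain ⟨w, hw⟩ := hc.1
    rw [hx]
    refine Finset.ssubset_iff_subset_ne.2 ⟨Finset.singleton_subset_iff.2
      (Finset.mem_insert_self _ _), fun e => hn ?_⟩
    have : w ∈ ({x} : Finset V) := by
      rw [e]
      exact Finset.mem_insert_of_mem hw
    rwa [Finset.mem_singleton.1 this] at hw
  · show _ = (-1 : ℤ) ^ ((z.1.erase x).card + 1)
    rw [Finset.card_erase_of_mem (xm z (Finset.mem_filter.1 hz).2)]

theorem mans_three [Fintype V] {G : Cx V} (v : Fc G) (hv : v.1.card = 4) :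
    (∑ z : Fc G, if z < v then (-1 : ℤ) ^ (z.1.card - 1) else 0) = 2 := by
  have hne : v.1.Nonempty := v.2.1
  have e : (∑ z : Fc G, if z < v then (-1 : ℤ) ^ (z.1.card - 1) else 0) =
      ∑ s ∈ (v.1.powerset.erase v.1).erase ∅, -(-1 : ℤ) ^ s.card := by
    rw [← Finset.sum_filter]
    refine Finset.sum_bij (fun z _ => z.1) (fun z hz => ?_) (fun z _ z' _ e => Subtype.ext e)
      (fun s hs => ?_) fun z _ => ?_
    · have hz' := mans_lt.1 (Finset.mem_filter.1 hz).2
      exact Finset.mem_erase.2 ⟨z.2.1.ne_empty, Finset.mem_erase.2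
        ⟨hz'.ne, Finset.mem_powerset.2 hz'.1⟩⟩
    · obtain ⟨h1, h2⟩ := Finset.mem_erase.1 hs
      obtain ⟨h2, h3⟩ := Finset.mem_erase.1 h2
      have h3 := Finset.mem_powerset.1 h3
      exact ⟨⟨s, mans_sub v.2 h3 (Finset.nonempty_iff_ne_empty.2 h1)⟩, Finset.mem_filter.2
        ⟨Finset.mem_univ _, mans_lt.2 (Finset.ssubset_iff_subset_ne.2 ⟨h3, h2⟩)⟩, rfl⟩
    · obtain ⟨k, hk⟩ := Nat.exists_eq_succ_of_ne_zero (mans_pos z).ne'
      show _ = -(-1 : ℤ) ^ z.1.card
      rw [hk, Nat.succ_sub_one, pow_succ]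
      ring
  have h0 := Finset.sum_powerset_neg_one_pow_card_of_nonempty hne
  rw [← Finset.add_sum_erase _ _ (Finset.mem_powerset_self v.1), ← Finset.add_sum_erase _ _
    (Finset.mem_erase.2 ⟨hne.ne_empty.symm, Finset.empty_mem_powerset v.1⟩), hv] at h0
  rw [e, Finset.sum_neg_distrib]
  simp only [Finset.card_empty] at h0
  norm_num at h0 ⊢
  linarith

theorem Man.sd [Fintype V] {G : Cx V} {U : Set V} (h : Man G U) : Man (sd G) (up G U) := by
  refine GP.man (gp_sd h.toPMan) (fun v hv h0 => ?_) fun v _ h3 => mans_three v ?_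
  · have hp := mans_pos v
    obtain ⟨x, hx⟩ := Finset.card_eq_one.1 (show v.1.card = 1 by
      have : v.1.card - 1 = 0 := h0
      omega)
    obtain ⟨y, hy, hU⟩ := hv
    rw [hx, Finset.mem_singleton] at hy
    exact (mans_zero v hx).trans (h.sph x (hy ▸ hU))
  · have : v.1.card - 1 = 3 := h3
    omega

theorem up_univ (G : Cx V) : up G Set.univ = Set.univ :=
  Set.eq_univ_of_forall fun s => s.2.1.imp fun _ ha => ⟨ha, trivial⟩

theorem tv_dn [Fintype V] {G : Cx V} {Z : Set V} (h : Man G Zᶜ) : tv (sd G) (dn G Z) = tv G Z := by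
  obtain ⟨m, hm⟩ := exists_sel G Zᶜ
  have := hm.contr_up.tv h.sd
  rwa [up_compl, compl_compl] at this

theorem tv_up [Fintype V] {G : Cx V} {Z : Set V} (h : Man G Zᶜ) : tv (sd G) (up G Z) = tv G Z := by
  obtain ⟨m, hm⟩ := exists_sel G Z
  have := hm.contr_dn.tv (h.sd.mono fun s hs => s.2.1.imp fun a ha => ⟨ha, hs a ha⟩)
  rwa [dn_compl, compl_compl] at this

theorem kc_dn [Fintype V] (G : Cx V) (Z : Set V) : kc (sd G) (dn G Z) = kc G Z := by
  obtain ⟨m, hm⟩ := exists_sel G Zᶜ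
  have := hm.contr_dn.kc
  rwa [compl_compl] at this

theorem kc_up [Fintype V] (G : Cx V) (Z : Set V) : kc (sd G) (up G Z) = kc G Z := by
  obtain ⟨m, hm⟩ := exists_sel G Z
  exact hm.contr_up.kc

theorem h1_dn [Fintype V] (G : Cx V) (Z : Set V) : H1 (sd G) (dn G Z) ↔ H1 G Z := by
  obtain ⟨m, hm⟩ := exists_sel G Zᶜ
  have := hm.contr_dn.h1
  rwa [compl_compl] at this

theorem h1_up [Fintype V] (G : Cx V) (Z : Set V) : H1 (sd G) (up G Z) ↔ H1 G Z := by
  obtain ⟨m, hm⟩ := exists_sel G Z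
  exact hm.contr_up.h1

theorem S3.of_contr [Fintype V] [Fintype V'] {G' : Cx V'} {G : Cx V} {f : V' → V}
    (h : Contr G' G Set.univ Set.univ f) (hm : Man G' Set.univ) (hs : S3 G) : S3 G' := by
  refine ⟨hm, ?_, h.conn.2 hs.conn, h.h1.2 hs.h1, ?_⟩
  · obtain ⟨v⟩ := hs.ne
    obtain ⟨s', hc, -, -⟩ := h.lift (s := {v}) ⟨Finset.singleton_nonempty v, fun a ha b hb => by
      rw [Finset.mem_singleton.1 ha, Finset.mem_singleton.1 hb]
      exact G.refl v⟩ ⟨v, Finset.mem_singleton_self v, trivial⟩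
    exact ⟨hc.1.choose⟩
  · have := h.tv hm
    rw [Set.compl_univ, Set.compl_univ] at this
    rw [this]
    exact hs.tv0

theorem S3.sd [Fintype V] {G : Cx V} (h : S3 G) : S3 (sd G) := by
  obtain ⟨m, hm⟩ := exists_sel G Set.univ
  refine S3.of_contr (contr_sd G fun s => (hm s).1) ?_ h
  have := h.man.sd
  rwa [up_univ] at this

end KG
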