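import Pool.Agent.Work.MP_c146e2_gt.KG.CT
import Pool.Agent.Work.MP_c146e2_gt.KG.XS
import Pool.Agent.Work.MP_c146e2_gt.KG.ManS

set_option autoImplicit false

noncomputable section

open scoped Classical

namespace KG

variable {V V' : Type}

variable {G : Cx V} {U : Set V} {c : V → V → V → ZMod 2} {F : V → V → ZMod 2}

theorem actF_upper (G : Cx V) (U : Set V) (F : V → V → ZMod 2) : IsUpperSet (ActF G U F) := by
  rintro s t hst ⟨a, ha, b, hb, h⟩
  exact ⟨a, Fc.le_iff.1 hst ha, b, Fc.le_iff.1 hst hb, h⟩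

theorem actF_sub (G : Cx V) (U : Set V) (F : V → V → ZMod 2) : ActF G U F ⊆ up G U := by
  rintro s ⟨a, ha, -, -, h, -⟩
  exact ⟨a, ha, h⟩

theorem Disc.actc [Fintype V] (h : Disc G U c F) : ActF G U F ∩ Xs G U = ActC G U c := by
  ext s
  constructor
  · rintro ⟨⟨a, ha, b, hb, h1, h2, h3⟩, -, z, hz, h4⟩
    exact ⟨a, ha, b, hb, z, hz, h1, h2, h4, h.bd a b z
      ⟨h1, h2, h4, s.2.2 a ha b hb, s.2.2 a ha z hz, s.2.2 b hb z hz⟩ ▸ h3⟩
  · rintro ⟨a, ha, b, hb, z, hz, h1, h2, h4, h3⟩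
    exact ⟨⟨a, ha, b, hb, h1, h2, (h.bd a b z
      ⟨h1, h2, h4, s.2.2 a ha b hb, s.2.2 a ha z hz, s.2.2 b hb z hz⟩).symm ▸ h3⟩,
      ⟨a, ha, h1⟩, z, hz, h4⟩

theorem discf_pair {s : Finset V} {a b : V} (ha : a ∈ s) (hb : b ∈ s) : {a, b} ⊆ s :=
  Finset.insert_subset ha (Finset.singleton_subset_iff.2 hb)

theorem actF_conn (h : ECon G U F) : Conn (sd G) (ActF G U F) := by
  have key : ∀ e e', Relation.ReflTransGen (FStep G U F) e e' → FE G U F e → ∀ s s' : Fc G,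
      e.1 ∈ s.1 → e.2 ∈ s.1 → e'.1 ∈ s'.1 → e'.2 ∈ s'.1 → Rch (sd G) (ActF G U F) s s' := by
    intro e e' hr he
    have one : ∀ e, FE G U F e → ∀ s s' : Fc G, e.1 ∈ s.1 → e.2 ∈ s.1 → e.1 ∈ s'.1 → e.2 ∈ s'.1 →
        Rch (sd G) (ActF G U F) s s' := by
      intro e he s s' a1 a2 a3 a4
      have k : ∀ t : Fc G, e.1 ∈ t.1 → e.2 ∈ t.1 → t ∈ ActF G U F := fun t b1 b2 =>
        ⟨_, b1, _, b2, he.1, he.2.1, he.2.2.2⟩
      have k0 := k ⟨_, clq_pair he.2.2.1⟩ (by simp) (by simp)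
      exact bas_trans (rch_step (k s a1 a2) k0 (Or.inr (discf_pair a1 a2)))
        (rch_step k0 (k s' a3 a4) (Or.inl (discf_pair a3 a4)))
    induction hr with
    | refl => exact one e he
    | @tail x y _ hxy ih =>
      intro s s' a1 a2 a3 a4
      obtain ⟨b1, b2, ⟨b3, b4⟩ | b3⟩ := hxy
      · have k : Clq G (insert y.2 {x.1, x.2}) := mans_ins (clq_pair b1.2.2.1) (by
          have := G.symm _ _ b2.2.2.1
          simp only [Finset.mem_insert, Finset.mem_singleton, forall_eq_or_imp, forall_eq]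
          exact ⟨b3 ▸ this, G.symm _ _ b4⟩)
        exact bas_trans (ih s ⟨_, k⟩ a1 a2 (by simp) (by simp))
          (one y b2 _ s' (by simp [b3]) (by simp) a3 a4)
      · subst b3
        exact ih s s' a1 a2 a4 a3
  rintro s ⟨a, ha, b, hb, h1, h2, h3⟩ s' ⟨a', ha', b', hb', k1, k2, k3⟩
  have e1 : FE G U F (a, b) := ⟨h1, h2, s.2.2 a ha b hb, h3⟩
  exact key _ _ (h _ (a', b') e1 ⟨k1, k2, s'.2.2 a' ha' b' hb', k3⟩) e1 s s' ha hb ha' hb'

/-- On a simplex the cocycle has a potential. -/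
theorem discf_pot (h : Coc G U F) {x : Finset V} (hx : Clq G x) {a u v : V} (ha : a ∈ x)
    (hu : u ∈ x) (hv : v ∈ x) (ka : a ∈ U) (ku : u ∈ U) (kv : v ∈ U) : F u v = F a u + F a v := by
  rw [← h u ku a ka v kv (hx.2 u hu a ha) (hx.2 a ha v hv) (hx.2 u hu v hv),
    h.symm ka ku (hx.2 a ha u hu)]

theorem discf_z (x y : ZMod 2) : x + y ≠ 0 ↔ (x = 0 ∧ y ≠ 0) ∨ (x ≠ 0 ∧ y = 0) := by
  revert x y
  decide

theorem actF_chi [Fintype V] (h : Coc G U F) : chi (sd G) (ActF G U F) = chiF G U F := by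
  refine (chi_faces G (fun s => ∃ a ∈ s, ∃ b ∈ s, a ∈ U ∧ b ∈ U ∧ F a b ≠ 0)
    (fun s => if Ins s U then (-1) ^ s.card else 0) fun x hx ⟨a, ha, b, hb, h1, h2, h3⟩ => ?_).trans
    (Finset.sum_congr rfl fun s _ => ?_)
  · have k1 := chi_in (U := {v | v ∈ U ∧ F a v = 0}) ⟨a, ha, h1, h.self h1⟩
    have k2 := chi_in (U := {v | v ∈ U ∧ F a v ≠ 0}) ⟨b, hb, h2, h3⟩
    have k3 := chi_in ⟨a, ha, h1⟩
    refine Eq.trans ?_ ((congrArg₂ (· - ·) (congrArg₂ (· + ·) k1 k2) k3).trans (by norm_num))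
    rw [← Finset.sum_add_distrib, ← Finset.sum_sub_distrib]
    refine Finset.sum_congr rfl fun t ht => ?_
    have ht' := Finset.mem_powerset.1 ht
    by_cases e : t.Nonempty
    · by_cases e' : Ins t U
      · have e1 : (∃ a ∈ t, ∃ b ∈ t, a ∈ U ∧ b ∈ U ∧ F a b ≠ 0) ↔
            ¬ Ins t {v | v ∈ U ∧ F a v = 0} ∧ ¬ Ins t {v | v ∈ U ∧ F a v ≠ 0} := by
          constructor
          · rintro ⟨u, hu, v, hv, b1, b2, b3⟩
            rw [discf_pot h hx ha (ht' hu) (ht' hv) h1 b1 b2, discf_z] at b3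
            exact ⟨fun k => by have := (k u hu).2; have := (k v hv).2; tauto,
              fun k => by have := (k u hu).2; have := (k v hv).2; tauto⟩
          · rintro ⟨b1, b2⟩
            simp only [Ins, not_forall, Set.mem_ofPred_eq] at b1 b2
            obtain ⟨u, hu, b1⟩ := b1
            obtain ⟨v, hv, b2⟩ := b2
            refine ⟨u, hu, v, hv, e' u hu, e' v hv, ?_⟩
            rw [discf_pot h hx ha (ht' hu) (ht' hv) h1 (e' u hu) (e' v hv), discf_z]
            have := e' u hu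
            have := e' v hv
            tauto
        have e2 : ¬ (Ins t {v | v ∈ U ∧ F a v = 0} ∧ Ins t {v | v ∈ U ∧ F a v ≠ 0}) := fun k =>
          e.elim fun u hu => (k.2 u hu).2 (k.1 u hu).2
        simp only [e, e', e1, true_and, pow_succ, if_true]
        split_ifs <;> first | ring1 | tauto
      · have e1 : ∀ p : V → Prop, ¬ Ins t {v | v ∈ U ∧ p v} := fun p k => e' fun u hu => (k u hu).1
        simp [e', e1]
    · simp [e]
  · by_cases e : Ins s U
    · have e1 : (∃ a ∈ s, ∃ b ∈ s, a ∈ U ∧ b ∈ U ∧ F a b ≠ 0) ↔ ∃ a ∈ s, ∃ b ∈ s, F a b ≠ 0 :=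
        ⟨fun ⟨a, ha, b, hb, k⟩ => ⟨a, ha, b, hb, k.2.2⟩,
          fun ⟨a, ha, b, hb, k⟩ => ⟨a, ha, b, hb, e a ha, e b hb, k⟩⟩
      simp only [e, e1, true_and, if_true]
    · simp [e]

theorem actF_rest [Fintype V] (h : Coc G U F) :
    chi (sd G) (up G U \ ActF G U F) = chi G U + chiF G U F := by
  have _ := h
  refine (chi_faces G (fun s => Meets s U ∧ ¬ ∃ a ∈ s, ∃ b ∈ s, a ∈ U ∧ b ∈ U ∧ F a b ≠ 0)
    (fun s => if Ins s U then (-1) ^ (s.card + 1) else 0) fun x _ hx => ?_).trans ?_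
  · refine Eq.trans (Finset.sum_congr rfl fun t ht => ?_) (chi_in hx.1)
    have ht' := Finset.mem_powerset.1 ht
    by_cases e : t.Nonempty ∧ Ins t U
    · rw [if_pos e, if_pos ⟨e.1, chi_meets e.1 e.2, fun ⟨a, ha, b, hb, k⟩ =>
        hx.2 ⟨a, ht' ha, b, ht' hb, k⟩⟩, if_pos e.2]
    · rw [if_neg e]
      split_ifs with h1 h2
      · exact absurd ⟨h1.1, h2⟩ e
      · rfl
      · rfl
  · rw [chi, chiF, ← Finset.sum_add_distrib]
    refine Finset.sum_congr rfl fun s _ => ?_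
    by_cases e : Clq G s ∧ Ins s U
    · have e1 : (∃ a ∈ s, ∃ b ∈ s, a ∈ U ∧ b ∈ U ∧ F a b ≠ 0) ↔ ∃ a ∈ s, ∃ b ∈ s, F a b ≠ 0 :=
        ⟨fun ⟨a, ha, b, hb, k⟩ => ⟨a, ha, b, hb, k.2.2⟩,
          fun ⟨a, ha, b, hb, k⟩ => ⟨a, ha, b, hb, e.2 a ha, e.2 b hb, k⟩⟩
      simp only [e.1, e.2, e1, chi_meets e.1.1 e.2, true_and, if_true, pow_succ]
      split_ifs <;> ring1
    · rw [if_neg e, if_neg fun k : Clq G s ∧ Ins s U ∧ _ => e ⟨k.1, k.2.1⟩]
      split_ifs with h1 h2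
      · exact absurd ⟨h1.1, h2⟩ e
      · rfl
      · rfl

theorem discf_card (hm : PMan G U) (h : Coc G U F) {x : Fc G} (hx : x ∈ ActF G U F) :
    2 ≤ x.1.card ∧ x.1.card ≤ 4 := by
  refine ⟨?_, hm.dim _ x.2 (actF_sub G U F hx)⟩
  obtain ⟨a, ha, b, hb, h1, -, h3⟩ := hx
  exact Finset.one_lt_card.2 ⟨a, ha, b, hb, fun e => h3 (e ▸ h.self h1)⟩

/-- The dimension of a cell of the surface dual to `F` with its collar. -/
def discfRk (G : Cx V) (U : Set V) (F : V → V → ZMod 2) (x : Fc G) : ℕ :=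
  if x ∈ ActF G U F then x.1.card - 2 else x.1.card - 1

theorem discf_lt (hm : PMan G U) (h : Coc G U F) {x y : Fc G} (hx : x ∈ ActF G U F ∪ (up G U)ᶜ)
    (hxy : x < y) : discfRk G U F x < discfRk G U F y := by
  have k1 := Finset.card_lt_card (mans_lt.1 hxy)
  have k2 := mans_pos x
  unfold discfRk
  split_ifs with h1 h2 h2
  · have := discf_card hm h h1
    omega
  · exact absurd (actF_upper G U F hxy.le h1) h2
  · obtain ⟨a, ha, b, hb, a1, a2, a3⟩ := h2
    have k3 : ∀ v ∈ U, v ∉ x.1 := fun v hv k => hx.resolve_left h1 ⟨v, k, hv⟩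
    have k4 : a ≠ b := fun e => a3 (e ▸ h.self a1)
    have k5 := Finset.card_le_card (Finset.insert_subset ha
      (Finset.insert_subset hb (mans_lt.1 hxy).1))
    rw [Finset.card_insert_of_notMem (by simp [k4, k3 a a1]),
      Finset.card_insert_of_notMem (k3 b a2)] at k5
    omega
  · omega

theorem discf_le (hm : PMan G U) (h : Coc G U F) {x : Fc G} (hx : x ∈ ActF G U F) :
    discfRk G U F x ≤ 2 ∧ discfRk G U F x + 2 = x.1.card := by
  have := discf_card hm h hx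
  rw [discfRk, if_pos hx]
  omega

theorem actF_dim (hm : PMan G U) (h : Coc G U F) (s : Finset (Fc G)) (hs : Clq (sd G) s)
    (hi : Ins s (ActF G U F ∪ (up G U)ᶜ)) (hD : Meets s (ActF G U F)) : s.card ≤ 3 := by
  obtain ⟨d, hd, hD⟩ := hD
  refine (Finset.card_le_card_of_injOn (t := Finset.range 3) (discfRk G U F) (fun x hx => ?_)
    fun x hx y hy e => ?_).trans (Finset.card_range 3).le
  · have k : discfRk G U F x ≤ 2 := by
      rcases hs.2 x hx d hd with k | k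
      · rcases k.eq_or_lt with rfl | k
        · exact (discf_le hm h hD).1
        · exact (discf_lt hm h (hi x hx) k).le.trans (discf_le hm h hD).1
      · exact (discf_le hm h (actF_upper G U F k hD)).1
    simp only [Finset.coe_range, Set.mem_Iio]
    omega
  · by_contra k
    rcases hs.2 x hx y hy with k1 | k1
    · exact (discf_lt hm h (hi x hx) (lt_of_le_of_ne k1 k)).ne e
    · exact (discf_lt hm h (hi y hy) (lt_of_le_of_ne k1 (Ne.symm k))).ne' e

theorem discf_two {S : Set (Fc G)} (e e' : Finset V) (h : ∀ w ∈ S, w.1 = e ∨ w.1 = e') :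
    S.ncard ≤ 2 := by
  have i1 : Function.Injective fun z : Fc G => z.1 := fun _ _ e => Subtype.ext e
  rw [← Set.ncard_image_of_injective S i1]
  refine (Set.ncard_le_ncard (t := {e, e'}) ?_ (Set.toFinite _)).trans ?_
  · rintro _ ⟨w, hw, rfl⟩
    exact h w hw
  · simpa using Set.ncard_insert_le e {e'}

/-- The cells between an outer set `Z` and an active simplex with three more vertices. -/
theorem discf_mid (h : Coc G U F) {Z : Finset V} {d : Fc G} (hd : d ∈ ActF G U F) (hZ : Z ⊆ d.1)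
    (hU : ∀ v ∈ U, v ∉ Z) (hc : d.1.card = Z.card + 3) :
    {w : Fc G | w ∈ ActF G U F ∪ (up G U)ᶜ ∧ Z ⊂ w.1 ∧ w < d}.ncard ≤ 2 := by
  obtain ⟨a, ha, b, hb, a1, a2, a3⟩ := hd
  have k4 : a ≠ b := fun e => a3 (e ▸ h.self a1)
  have ci : ∀ u ∈ U, ∀ v ∈ U, u ≠ v → (insert u (insert v Z)).card = Z.card + 2 :=
    fun u hu v hv e => by
      rw [Finset.card_insert_of_notMem (by simp [e, hU u hu]),
        Finset.card_insert_of_notMem (hU v hv)]
  obtain ⟨q, hq, e⟩ := Finset.exists_eq_insert_iff.2 ⟨Finset.insert_subset ha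
    (Finset.insert_subset hb hZ), by rw [ci a a1 b a2 k4, hc]⟩
  have m : ∀ v ∈ d.1, v ∉ Z → v = q ∨ v = a ∨ v = b := fun v hv k => by
    rw [← e] at hv
    simpa [k] using hv
  have hq' : q ∈ d.1 := e ▸ Finset.mem_insert_self _ _
  refine discf_two (insert a (insert b Z)) (if q ∈ U then (if F a q = 0 then
    insert b (insert q Z) else insert a (insert q Z)) else insert q Z) ?_
  rintro w ⟨⟨u, hu, v, hv, b1, b2, b3⟩ | hw, w1, w2⟩
  · have k5 : u ≠ v := fun e => b3 (e ▸ h.self b1)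
    have w3 := mans_lt.1 w2
    have k6 : w.1 = insert u (insert v Z) := (Finset.eq_of_subset_of_card_le
      (Finset.insert_subset hu (Finset.insert_subset hv w1.1)) (by
        have := Finset.card_lt_card w3
        rw [ci u b1 v b2 k5]
        omega)).symm
    rw [discf_pot h d.2 ha (w3.1 hu) (w3.1 hv) a1 b1 b2, discf_z] at b3
    have k7 := h.self a1
    rw [k6]
    rcases m u (w3.1 hu) (hU u b1) with rfl | rfl | rfl <;>
      rcases m v (w3.1 hv) (hU v b2) with rfl | rfl | rfl <;>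
      simp_all [Finset.insert_comm]
  · obtain ⟨v, hv, hvZ⟩ := Finset.exists_of_ssubset w1
    have k5 : ∀ v ∈ w.1, v ∉ Z → v = q ∧ v ∉ U := fun v hv k => by
      have k6 : v ∉ U := fun k => hw ⟨v, hv, k⟩
      rcases m v ((mans_lt.1 w2).1 hv) k with rfl | rfl | rfl
      · exact ⟨rfl, k6⟩
      · exact absurd a1 k6
      · exact absurd a2 k6
    obtain ⟨rfl, k6⟩ := k5 v hv hvZ
    rw [if_neg k6]
    exact Or.inr (Finset.Subset.antisymm (fun x hx => by
      by_cases k : x ∈ Z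
      · exact Finset.mem_insert_of_mem k
      · exact (k5 x hx k).1 ▸ Finset.mem_insert_self _ _) (Finset.insert_subset hv w1.1))

theorem discf_lk2 {x y w : Fc G} (hw : w ∈ lk (sd G) {x, y}) :
    w < x ∨ (x < w ∧ w < y) ∨ y < w := by
  have k1 : w ≠ x := fun e => hw.1 (by simp [e])
  have k2 : w ≠ y := fun e => hw.1 (by simp [e])
  rcases hw.2 x (by simp) with k3 | k3
  · exact Or.inl (lt_of_le_of_ne k3 k1)
  · rcases hw.2 y (by simp) with k4 | k4
    · exact Or.inr (Or.inl ⟨lt_of_le_of_ne k3 k1.symm, lt_of_le_of_ne k4 k2⟩)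
    · exact Or.inr (Or.inr (lt_of_le_of_ne k4 k2.symm))

theorem discf_edg [Fintype V] (hm : PMan G U) (h : Coc G U F) {x y : Fc G} (hxy : x < y)
    (hx : x ∈ ActF G U F ∪ (up G U)ᶜ) (hy : y ∈ ActF G U F) :
    (lk (sd G) {x, y} ∩ (ActF G U F ∪ (up G U)ᶜ)).ncard ≤ 2 := by
  have r1 := discf_lt hm h hx hxy
  have r2 := discf_le hm h hy
  have key : ∀ w ∈ lk (sd G) {x, y} ∩ (ActF G U F ∪ (up G U)ᶜ),
      (w < x ∧ discfRk G U F x = 1 ∧ y.1.card = 4) ∨
      (x < w ∧ w < y ∧ discfRk G U F x = 0 ∧ y.1.card = 4) ∨ (y < w ∧ y.1.card = 3) := by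
    rintro w ⟨w1, w2⟩
    rcases discf_lk2 w1 with k | k | k
    · have := discf_lt hm h w2 k
      exact Or.inl ⟨k, by omega⟩
    · have := discf_lt hm h hx k.1
      have := discf_lt hm h w2 k.2
      exact Or.inr (Or.inl ⟨k.1, k.2, by omega⟩)
    · have := discf_lt hm h (Or.inl hy) k
      have := discf_le hm h (actF_upper G U F k.le hy)
      exact Or.inr (Or.inr ⟨k, by omega⟩)
  have fin : ∀ {T : Set (Fc G)}, T.ncard ≤ 2 →
      (∀ w ∈ lk (sd G) {x, y} ∩ (ActF G U F ∪ (up G U)ᶜ), w ∈ T) →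
      (lk (sd G) {x, y} ∩ (ActF G U F ∪ (up G U)ᶜ)).ncard ≤ 2 := fun h1 h2 =>
    (Set.ncard_le_ncard h2 (Set.toFinite _)).trans h1
  have px := mans_pos x
  by_cases c3 : y.1.card = 3
  · refine fin ((mans_top hm y (actF_sub G U F hy)).1 (by omega)).le fun w hw => ?_
    rcases key w hw with k | k | k
    · omega
    · omega
    · exact k.1
  have c4 : y.1.card = 4 := by omega
  by_cases c1 : discfRk G U F x = 1
  · have k0 : ∀ w ∈ lk (sd G) {x, y} ∩ (ActF G U F ∪ (up G U)ᶜ), ∅ ⊂ w.1 ∧ w < x := fun w hw => by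
      refine ⟨Finset.empty_ssubset.2 w.2.1, ?_⟩
      rcases key w hw with k | k | k
      · exact k.1
      · omega
      · omega
    by_cases hD : x ∈ ActF G U F
    · have := discf_le hm h hD
      exact fin (discf_mid h hD (Finset.empty_subset _) (by simp) (by simp; omega))
        fun w hw => ⟨hw.2, k0 w hw⟩
    · rw [discfRk, if_neg hD] at c1
      exact fin ((mans_bool x.2 (Finset.empty_subset _)).1 (by simp; omega)).le k0
  · have k0 : ∀ w ∈ lk (sd G) {x, y} ∩ (ActF G U F ∪ (up G U)ᶜ), x.1 ⊂ w.1 ∧ w < y :=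
      fun w hw => by
        rcases key w hw with k | k | k
        · omega
        · exact ⟨k.1, k.2.1⟩
        · omega
    by_cases hD : x ∈ ActF G U F
    · have := discf_le hm h hD
      exact fin ((mans_bool y.2 (mans_lt.1 hxy).1).1 (by omega)).le k0
    · have c0 : discfRk G U F x = x.1.card - 1 := if_neg hD
      exact fin (discf_mid h hy (mans_lt.1 hxy).1 (fun v hv k => hx.resolve_left hD ⟨v, k, hv⟩)
        (by omega)) fun w hw => ⟨hw.2, k0 w hw⟩

theorem actF_edg [Fintype V] (hm : PMan G U) (h : Coc G U F) (s : Finset (Fc G)) (hs : Clq (sd G) s)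
    (hi : Ins s (ActF G U F ∪ (up G U)ᶜ)) (hD : Meets s (ActF G U F)) (h2 : s.card = 2) :
    (lk (sd G) s ∩ (ActF G U F ∪ (up G U)ᶜ)).ncard ≤ 2 := by
  have key : ∀ x y : Fc G, x < y → s = {x, y} →
      (lk (sd G) s ∩ (ActF G U F ∪ (up G U)ᶜ)).ncard ≤ 2 := by
    rintro x y hxy rfl
    obtain ⟨d, hd, hD⟩ := hD
    refine discf_edg hm h hxy (hi x (by simp)) ?_
    rcases Finset.mem_insert.1 hd with rfl | hd
    · exact actF_upper G U F hxy.le hD
    · exact Finset.mem_singleton.1 hd ▸ hD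
  obtain ⟨x, y, hxy, e⟩ := Finset.card_eq_two.1 h2
  rcases hs.2 x (by simp [e]) y (by simp [e]) with k | k
  · exact key x y (lt_of_le_of_ne k hxy) e
  · exact key y x (lt_of_le_of_ne k hxy.symm) (e.trans (Finset.pair_comm _ _))

theorem discf_vtx (hm : PMan G U) (h : Coc G U F) {v : Fc G} (hv : v ∈ ActF G U F) :
    Conn (sd G) (lk (sd G) {v} ∩ ActF G U F) := by
  have cv := discf_card hm h hv
  have tp := mans_top hm v (actF_sub G U F hv)
  have mem : ∀ {w : Fc G}, w ∈ lk (sd G) {v} ∩ ActF G U F ↔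
      (w < v ∧ w ∈ ActF G U F) ∨ v < w := fun {w} => by
    rw [Set.mem_inter_iff, sd, mano_lk1, or_and_right]
    exact or_congr_right ⟨And.left, fun k => ⟨k, actF_upper G U F k.le hv⟩⟩
  obtain ⟨a, ha, b, hb, a1, a2, a3⟩ := id hv
  have low : ∀ {s : Finset V} (hs : Clq G s), s ⊆ v.1 → s.card < v.1.card → ∀ p ∈ s, ∀ q ∈ s,
      p ∈ U → q ∈ U → F p q ≠ 0 → (⟨s, hs⟩ : Fc G) ∈ lk (sd G) {v} ∩ ActF G U F :=
    fun hs k1 k2 p hp q hq b1 b2 b3 => mem.2 (Or.inl ⟨mans_lt.2 (Finset.ssubset_iff_subset_ne.2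
      ⟨k1, fun e => k2.ne (congrArg Finset.card e)⟩), p, hp, q, hq, b1, b2, b3⟩)
  by_cases c2 : v.1.card = 2
  · have e : lk (sd G) {v} ∩ ActF G U F = {z | v < z} := Set.ext fun w => mem.trans
      (or_iff_right fun k => by
        have := Finset.card_lt_card (mans_lt.1 k.1)
        have := discf_card hm h k.2
        omega)
    rw [e]
    exact (tp.2 (by omega)).2
  by_cases c3 : v.1.card = 3
  · obtain ⟨t, ht⟩ := Set.nonempty_of_ncard_ne_zero ((tp.1 (by omega)).trans_ne two_ne_zero)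
    have k := low (clq_pair (v.2.2 a ha b hb)) (discf_pair ha hb)
      (Finset.card_le_two.trans_lt (by omega)) a (by simp) b (by simp) a1 a2 a3
    refine conn_of_base t fun w hw => ?_
    rcases mem.1 hw with k1 | k1
    · exact rch_step hw (mem.2 (Or.inr ht)) (Or.inl (k1.1.trans ht).le)
    · exact bas_trans (rch_step hw k (Or.inr ((discf_pair ha hb).trans (mans_lt.1 k1).1)))
        (rch_step k (mem.2 (Or.inr ht)) (Or.inl ((discf_pair ha hb).trans (mans_lt.1 ht).1)))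
  have one : ∀ w ∈ lk (sd G) {v} ∩ ActF G U F, ∀ w' ∈ lk (sd G) {v} ∩ ActF G U F, ∀ p ∈ v.1,
      ∀ q ∈ v.1, p ∈ U → q ∈ U → F p q ≠ 0 → p ∈ w.1 → q ∈ w.1 → p ∈ w'.1 → q ∈ w'.1 →
      Rch (sd G) (lk (sd G) {v} ∩ ActF G U F) w w' := by
    intro w hw w' hw' p hp q hq b1 b2 b3 b4 b5 b6 b7
    have k := low (clq_pair (v.2.2 p hp q hq)) (discf_pair hp hq)
      (Finset.card_le_two.trans_lt (by omega)) p (by simp) q (by simp) b1 b2 b3
    exact bas_trans (rch_step hw k (Or.inr (discf_pair b4 b5)))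
      (rch_step k hw' (Or.inl (discf_pair b6 b7)))
  have tri : ∀ p ∈ v.1, ∀ q ∈ v.1, ∀ r ∈ v.1, p ∈ U → q ∈ U → F p q ≠ 0 →
      ∃ t ∈ lk (sd G) {v} ∩ ActF G U F, p ∈ t.1 ∧ q ∈ t.1 ∧ r ∈ t.1 := by
    intro p hp q hq r hr b1 b2 b3
    have k := Finset.insert_subset hp (discf_pair hq hr)
    exact ⟨_, low (v.2.sub k (Finset.insert_nonempty _ _)) k
      (Finset.card_le_three.trans_lt (by omega)) p (by simp) q (by simp) b1 b2 b3, by simp⟩
  obtain ⟨t, ht, t1, t2, -⟩ := tri a ha b hb a ha a1 a2 a3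
  refine conn_of_base t fun w hw => ?_
  rcases mem.1 hw with ⟨k1, p, hp, q, hq, b1, b2, b3⟩ | k1
  · have hp' := (mans_lt.1 k1).1 hp
    have hq' := (mans_lt.1 k1).1 hq
    obtain ⟨t', ht', u1, u2, u3⟩ := tri p hp' q hq' a ha b1 b2 b3
    refine bas_trans (one w hw t' ht' p hp' q hq' b1 b2 b3 hp hq u1 u2) ?_
    have key : ∀ r ∈ v.1, r ∈ U → F a r ≠ 0 → r ∈ t'.1 →
        Rch (sd G) (lk (sd G) {v} ∩ ActF G U F) t' t := fun r hr c1 c4 c5 => by
      obtain ⟨t'', ht'', v1, v2, v3⟩ := tri a ha r hr b hb a1 c1 c4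
      exact bas_trans (one t' ht' t'' ht'' a ha r hr a1 c1 c4 u3 c5 v1 v2)
        (one t'' ht'' t ht a ha b hb a1 a2 a3 v1 v3 t1 t2)
    rw [discf_pot h v.2 ha hp' hq' a1 b1 b2, discf_z] at b3
    exact b3.elim (fun k => key q hq' b2 k.2 u2) fun k => key p hp' b1 k.1 u1
  · have := Finset.card_lt_card (mans_lt.1 k1)
    have := discf_card hm h hw.2
    omega

theorem discf_bd [Fintype V] (h : Disc G U c F) (hm : PMan G U) (hne : (ActC G U c).Nonempty) :
    ∃ e, Clq (sd G) e ∧ Ins e (ActF G U F) ∧ e.card = 2 ∧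
      (lk (sd G) e ∩ ActF G U F).ncard = 1 := by
  rw [← h.actc] at hne
  obtain ⟨s, ⟨a, ha, b, hb, a1, a2, a3⟩, -, z, hz, hU⟩ := hne
  have k4 : a ≠ b := fun e => a3 (e ▸ h.coc.self a1)
  have k1 : z ∉ ({a, b} : Finset V) := by
    simp only [Finset.mem_insert, Finset.mem_singleton]
    rintro (rfl | rfl)
    exacts [hU a1, hU a2]
  obtain ⟨x, hx⟩ : ∃ x : Fc G, x.1 = insert z {a, b} := ⟨⟨_, s.2.sub
    (Finset.insert_subset hz (discf_pair ha hb)) (Finset.insert_nonempty _ _)⟩, rfl⟩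
  have c3 : x.1.card = 3 := by rw [hx, Finset.card_insert_of_notMem k1, Finset.card_pair k4]
  have xD : x ∈ ActF G U F := ⟨a, by simp [hx], b, by simp [hx], a1, a2, a3⟩
  obtain ⟨t, ht⟩ := Set.nonempty_of_ncard_ne_zero
    (((mans_top hm x (actF_sub G U F xD)).1 (by omega)).trans_ne two_ne_zero)
  replace ht : x < t := ht
  have tD := actF_upper G U F ht.le xD
  refine ⟨{x, t}, clq_pair (Or.inl ht.le), by simp [Ins, xD, tD], Finset.card_pair ht.ne,
    Set.ncard_eq_one.2 ⟨⟨_, clq_pair (s.2.2 a ha b hb)⟩, Set.eq_singleton_iff_unique_mem.2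
      ⟨⟨?_, a, by simp, b, by simp, a1, a2, a3⟩, fun w hw => ?_⟩⟩⟩
  · have k : (⟨_, clq_pair (s.2.2 a ha b hb)⟩ : Fc G) < x :=
      mans_lt.2 (hx ▸ Finset.ssubset_insert k1)
    refine ⟨?_, ?_⟩
    · simp only [Finset.mem_insert, Finset.mem_singleton, not_or]
      exact ⟨k.ne, (k.trans ht).ne⟩
    · simp only [Finset.mem_insert, Finset.mem_singleton, forall_eq_or_imp, forall_eq]
      exact ⟨Or.inl k.le, Or.inl (k.trans ht).le⟩
  · have c1 := Finset.card_lt_card (mans_lt.1 ht)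
    have c2 := discf_card hm h.coc tD
    have c4 := discf_card hm h.coc hw.2
    rcases discf_lk2 hw.1 with k | k | k
    · obtain ⟨p, hp, q, hq, b1, b2, b3⟩ := hw.2
      have k5 : p ≠ q := fun e => b3 (e ▸ h.coc.self b1)
      have k6 : ∀ r ∈ w.1, r ∈ U → r ∈ ({a, b} : Finset V) := fun r hr k' =>
        (Finset.mem_insert.1 (hx.subset ((mans_lt.1 k).1 hr))).resolve_left fun e => hU (e ▸ k')
      have := Finset.card_lt_card (mans_lt.1 k)
      refine Subtype.ext ((Finset.eq_of_subset_of_card_le (discf_pair hp hq) ?_).symm.trans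
        (Finset.eq_of_subset_of_card_le (discf_pair (k6 p hp b1) (k6 q hq b2)) ?_))
      · rw [Finset.card_pair k5]
        omega
      · rw [Finset.card_pair k5, Finset.card_pair k4]
    · have := Finset.card_lt_card (mans_lt.1 k.1)
      have := Finset.card_lt_card (mans_lt.1 k.2)
      omega
    · have := Finset.card_lt_card (mans_lt.1 k)
      omega

theorem Disc.h1 [Fintype V] (h : Disc G U c F) (hm : PMan G U) (hne : (ActC G U c).Nonempty) :
    Thin (sd G) (ActF G U F) ∧ H1 (sd G) (ActF G U F) := by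
  have th : Thin (sd G) (ActF G U F) := ⟨fun s hs hi => actF_dim hm h.coc s hs
    (fun x hx => Or.inl (hi x hx)) (chi_meets hs.1 hi), fun s hs hi h2 =>
      (Set.ncard_le_ncard (Set.inter_subset_inter_right _ Set.subset_union_left)
        (Set.toFinite _)).trans (actF_edg hm h.coc s hs (fun x hx => Or.inl (hi x hx))
          (chi_meets hs.1 hi) h2)⟩
  have cn := actF_conn h.conn
  refine ⟨th, (chi_le_kc th.dim (noCyc_bd th cn (fun v hv => discf_vtx hm h.coc hv)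
    (discf_bd h hm hne))).2.1 ?_⟩
  rw [actF_chi h.coc, h.chi, kc_eq_one.2 ⟨(h.actc ▸ hne).mono Set.inter_subset_left, cn⟩]
  rfl

theorem discf_z2 (x y z : ZMod 2) : x + y = x + z + (y + z) ∧ y + z + x + y = x + z := by
  revert x y z
  decide

theorem Disc.coor [Fintype V] (h : Disc G U c F) (hm : PMan G U) (hne : (ActC G U c).Nonempty) :
    ∃ o, Coor G U F o := by
  obtain ⟨m, hs⟩ := exists_sel G U
  have mU : ∀ s ∈ ActF G U F, m s ∈ U := fun s k => (hs s).2 (actF_sub G U F k)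
  have mr : ∀ s s', (sd G).r s s' → G.r (m s) (m s') := fun s s' k => k.elim
    (fun k => s'.2.2 _ (Fc.le_iff.1 k (hs s).1) _ (hs s').1)
    fun k => s.2.2 _ (hs s).1 _ (Fc.le_iff.1 k (hs s').1)
  obtain ⟨g, hg⟩ := (h.h1 hm hne).2 (fun s s' => F (m s) (m s')) fun x hx y hy z hz a1 a2 a3 =>
    h.coc _ (mU x hx) _ (mU y hy) _ (mU z hz) (mr _ _ a1) (mr _ _ a2) (mr _ _ a3)
  refine ⟨fun s a => F (m s) a + g s, fun s k a ha b hb a1 a2 => ?_, fun s k s' k' a ha a1 => ?_⟩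
  · rw [discf_pot h.coc s.2 (hs s).1 ha hb (mU s k) a1 a2]
    exact (discf_z2 _ _ _).1
  · have k1 := actF_upper G U F k' k
    have k2 := h.coc _ (mU s' k1) _ (mU s k) _ a1 (mr _ _ (Or.inr k')) (s.2.2 _ (hs s).1 _ ha)
      (s'.2.2 _ (hs s').1 _ (Fc.le_iff.1 k' ha))
    have k3 : F (m s') (m s) = g s' + g s := hg s' k1 s k (Or.inr k')
    rw [← k2, k3]
    exact (discf_z2 _ _ _).2

end KG
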