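import Pool.Agent.Work.MP_c146e2_gt.KG.CutA
import Pool.Agent.Work.MP_c146e2_gt.KG.DiscF

set_option autoImplicit false

noncomputable section

open scoped Classical

namespace KG

variable {V V' : Type}

def frn (G : Cx V) (U D : Set V) : Set (Fc G) :=
  {s | Ins s.1 (D ∪ Uᶜ) ∧ Meets s.1 D ∧ Meets s.1 Uᶜ}

/-- The simplices inside `D ∪ Uᶜ`. -/
def cutwT (G : Cx V) (U D : Set V) : Set (Fc G) := {s | Ins s.1 (D ∪ Uᶜ)}

theorem cutw_meets {G : Cx V} {U D : Set V} {s : Fc G}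
    (hs : s ∈ cutwT G U D ∩ (dn G U ∪ Xs G U)) : Meets s.1 D := by
  have h2 := hs.2
  rw [dn_union_xs] at h2
  obtain ⟨a, ha, hU⟩ := h2
  exact ⟨a, ha, (hs.1 a ha).resolve_right fun h => h hU⟩

theorem cutw_side {G : Cx V} {L X : Set V} {s : Set (V × Bool)} (h : s ⊆ dbV L X)
    (hr : ∀ a ∈ s, ∀ b ∈ s, (Db G L X).r a b) : ∃ i, ∀ a ∈ s, a.1 ∈ L → a.2 = i := by
  by_cases hs : ∃ a ∈ s, a.1 ∈ L
  · obtain ⟨a, ha, hL⟩ := hs
    exact ⟨a.2, fun b hb hbL => (cuta_r (h hb) (hr b hb a ha)).2.2 hbL hL⟩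
  · exact ⟨false, fun b hb hbL => absurd ⟨b, hb, hbL⟩ hs⟩

theorem cutw_ss {G : Cx V} {x y : Fc G} (h : (sd G).r x y) (hc : x.1.card < y.1.card) :
    x.1 ⊂ y.1 :=
  (xs_sub_of_card h hc).ssubset_of_ne fun e => hc.ne (congrArg _ e)

theorem cutw_edg [Fintype V] {G : Cx V} {S : Set V} {Y : Set (Fc G)} (hS : ∀ s ∈ Y, Ins s.1 S)
    (h3 : ∀ s ∈ Y, s.1.card ≤ 3) (h2 : ∀ s ∈ Y, s.1.card = 2 → (lk G s.1 ∩ S).ncard ≤ 2)
    {x y : Fc G} (hy : y ∈ Y) (hr : (sd G).r x y) (hc : x.1.card < y.1.card) :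
    (lk (sd G) {x, y} ∩ Y).ncard ≤ 2 := by
  have key : ∀ z ∈ lk (sd G) {x, y} ∩ Y, (sd G).r z x ∧ (sd G).r z y ∧ z.1.card ≠ x.1.card ∧
      z.1.card ≠ y.1.card ∧ 0 < z.1.card ∧ z.1.card ≤ 3 := by
    intro z hz
    have r1 := hz.1.2 x (by simp)
    have r2 := hz.1.2 y (by simp)
    refine ⟨r1, r2, fun e => hz.1.1 ?_, fun e => hz.1.1 ?_, mans_pos z, h3 z hz.2⟩
    · rw [xs_eq_of_card r1 e]
      simp
    · rw [xs_eq_of_card r2 e]
      simp
  have p := mans_pos x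
  have q := h3 y hy
  by_cases e2 : y.1.card = 2
  · refine le_trans ?_ (h2 y hy e2)
    rw [← Set.ncard_image_of_injective (f := fun z : Fc G => z.1) _ fun _ _ e => Subtype.ext e]
    refine le_trans (Set.ncard_le_ncard ?_ (Set.toFinite _))
      (Set.ncard_image_le (f := fun w => insert w y.1) (Set.toFinite _))
    refine subset_trans ?_ (lin_sub (G := G) (S := S)
      (T := {s | Clq G s ∧ Ins s S ∧ s.card = 3}) (fun s hs => hs) e2)
    rintro _ ⟨z, hz, rfl⟩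
    obtain ⟨-, r2, n1, n2, z0, z3⟩ := key z hz
    exact ⟨⟨z.2, hS z hz.2, (by omega : z.1.card = 3)⟩, xs_sub_of_card ((sd G).symm _ _ r2) (by omega)⟩
  by_cases e1 : x.1.card = 1
  · rw [← (mans_bool y.2 (xs_sub_of_card hr hc)).1 (by omega)]
    refine Set.ncard_le_ncard (fun z hz => ?_) (Set.toFinite _)
    obtain ⟨r1, r2, n1, n2, z0, z3⟩ := key z hz
    exact ⟨cutw_ss ((sd G).symm _ _ r1) (by omega), cutw_ss r2 (by omega)⟩
  · rw [← (mans_bool x.2 (Finset.empty_subset _)).1 (by rw [Finset.card_empty]; omega)]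
    refine Set.ncard_le_ncard (fun z hz => ?_) (Set.toFinite _)
    obtain ⟨r1, r2, n1, n2, z0, z3⟩ := key z hz
    exact ⟨Finset.empty_ssubset.2 z.2.1, cutw_ss r1 (by omega)⟩

theorem cutw_thin [Fintype V] {G : Cx V} {S : Set V} {Y : Set (Fc G)} (hS : ∀ s ∈ Y, Ins s.1 S)
    (h3 : ∀ s ∈ Y, s.1.card ≤ 3) (h2 : ∀ s ∈ Y, s.1.card = 2 → (lk G s.1 ∩ S).ncard ≤ 2) :
    Thin (sd G) Y := by
  refine ⟨fun s hs hi => ?_, fun s hs hi hc => ?_⟩
  · have := Finset.card_le_card_of_injOn (s := s) (t := Finset.Icc 1 3) (fun z => z.1.card)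
      (fun z hz => Finset.mem_coe.2 (Finset.mem_Icc.2 ⟨mans_pos z, h3 z (hi z hz)⟩))
      fun a ha b hb e => xs_eq_of_card (hs.2 a ha b hb) e
    simpa using this
  · obtain ⟨x, y, hxy, rfl⟩ := Finset.card_eq_two.1 hc
    have hr := hs.2 x (by simp) y (by simp)
    rcases lt_trichotomy x.1.card y.1.card with h | h | h
    · exact cutw_edg hS h3 h2 (hi y (by simp)) hr h
    · exact absurd (xs_eq_of_card hr h) hxy
    · rw [Finset.pair_comm]
      exact cutw_edg hS h3 h2 (hi x (by simp)) ((sd G).symm _ _ hr) h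

theorem cutw_two [Fintype V] {G : Cx V} {U D : Set V}
    (h3 : ∀ s ∈ cutwT G U D ∩ (dn G U ∪ Xs G U), s.1.card ≤ 3) {x y : Fc G × Bool}
    (hx : x ∈ cutW G U D) (hy : y ∈ cutW G U D) (nx : x.1 ∉ dn G U) (ny : y.1 ∉ dn G U)
    (hc : x.1.1.card < y.1.1.card) : (lk (DD G U) {x, y} ∩ cutW G U D).ncard ≤ 2 := by
  have hY : ∀ w ∈ cutW G U D, w.1 ∈ cutwT G U D ∩ (dn G U ∪ Xs G U) := fun w hw =>
    ⟨hw.2, hw.1.imp id And.left⟩
  have ax := mand_snd hx.1 nx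
  have ay := mand_snd hy.1 ny
  have c1 := xs_two_le ax.1.1 ax.1.2
  have c2 := h3 _ (hY y hy)
  obtain ⟨p, hp, q, hq, e⟩ := xs_pair (z := x.1.1) (by omega) ax.1.1 ax.1.2
  have key : ∀ w ∈ lk (DD G U) {x, y} ∩ cutW G U D, w.1.1 = {p} := by
    intro w hw
    have r1 := (cuta_r hw.2.1 (hw.1.2 x (by simp))).2.1
    have r2 := (cuta_r hw.2.1 (hw.1.2 y (by simp))).2.1
    have n1 : w.1.1.card ≠ x.1.1.card := fun c => hw.1.1 (by
      have e1 := xs_eq_of_card r1 c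
      rw [Prod.ext e1 ((cuta_f hw.2.1 (e1 ▸ nx)).trans ax.2.symm)]
      simp)
    have n2 : w.1.1.card ≠ y.1.1.card := fun c => hw.1.1 (by
      have e1 := xs_eq_of_card r2 c
      rw [Prod.ext e1 ((cuta_f hw.2.1 (e1 ▸ ny)).trans ay.2.symm)]
      simp)
    have z0 := mans_pos w.1
    have z3 := h3 _ (hY w hw.2)
    have hs := xs_sub_of_card r1 (by omega)
    obtain ⟨a, ha⟩ := Finset.card_eq_one.1 (show w.1.1.card = 1 by omega)
    obtain ⟨b, hb, hU⟩ := cuta_meets hw.2.1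
    have hb' := hs hb
    rw [ha, Finset.mem_singleton] at hb
    rw [e, Finset.mem_insert, Finset.mem_singleton] at hb'
    rw [ha, ← hb, hb'.resolve_right fun h => hq (h ▸ hU)]
  have := Set.ncard_le_ncard_of_injOn (s := lk (DD G U) {x, y} ∩ cutW G U D)
    (t := (Set.univ : Set Bool)) Prod.snd (fun _ _ => trivial)
    (fun a ha b hb e => Prod.ext (Subtype.ext ((key a ha).trans (key b hb).symm)) e)
  simpa using this

theorem cutW_thin [Fintype V] {G : Cx V} {U D : Set V} (hD : D ⊆ U)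
    (h3 : ∀ s, Clq G s → Ins s (D ∪ Uᶜ) → Meets s D → s.card ≤ 3)
    (h2 : ∀ s, Clq G s → Ins s (D ∪ Uᶜ) → Meets s D → s.card = 2 →
      (lk G s ∩ (D ∪ Uᶜ)).ncard ≤ 2) : Thin (DD G U) (cutW G U D) := by
  have g3 : ∀ s ∈ cutwT G U D ∩ (dn G U ∪ Xs G U), s.1.card ≤ 3 := fun s hs =>
    h3 s.1 s.2 hs.1 (cutw_meets hs)
  have hT : ∀ i, Thin (DD G U) (mandSh (dn G U) (Xs G U) (cutwT G U D) i) := fun i =>
    thin_iso (mand_bij _ _ _ i) (mand_adj _ _ _ _ i) (cutw_thin (S := D ∪ Uᶜ) (fun s hs => hs.1) g3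
      fun s hs => h2 s.1 s.2 hs.1 (cutw_meets hs))
  refine ⟨fun s hs hi => ?_, fun s hs hi hc => ?_⟩
  · obtain ⟨i, h⟩ := cutw_side (s := (s : Set (Fc G × Bool))) (fun a ha => (hi a ha).1) hs.2
    exact (hT i).dim s hs fun a ha => ⟨(hi a ha).1, (hi a ha).2, h a ha⟩
  by_cases hL : ∃ a ∈ s, a.1 ∈ dn G U
  · obtain ⟨a, ha, hL⟩ := hL
    have sh : ∀ w ∈ cutW G U D, (DD G U).r w a →
        w ∈ mandSh (dn G U) (Xs G U) (cutwT G U D) a.2 := fun w hw r =>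
      ⟨hw.1, hw.2, fun p => (cuta_r hw.1 r).2.2 p hL⟩
    refine le_trans (Set.ncard_le_ncard (fun w hw => ?_) (Set.toFinite _))
      ((hT a.2).edg s hs (fun b hb => sh b (hi b hb) (hs.2 b hb a ha)) hc)
    exact ⟨hw.1, sh w hw.2 (hw.1.2 a ha)⟩
  · obtain ⟨x, y, hxy, rfl⟩ := Finset.card_eq_two.1 hc
    have hx := hi x (by simp)
    have hy := hi y (by simp)
    have nx : x.1 ∉ dn G U := fun h => hL ⟨x, by simp, h⟩
    have ny : y.1 ∉ dn G U := fun h => hL ⟨y, by simp, h⟩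
    rcases lt_trichotomy x.1.1.card y.1.1.card with h | h | h
    · exact cutw_two g3 hx hy nx ny h
    · exact absurd (Prod.ext (xs_eq_of_card (cuta_r hx.1 (hs.2 x (by simp) y (by simp))).2.1 h)
        ((cuta_f hx.1 nx).trans (cuta_f hy.1 ny).symm)) hxy
    · rw [Finset.pair_comm]
      exact cutw_two g3 hy hx ny nx h

theorem cutw_abs {G : Cx V} {U D : Set V} (hD : D ⊆ U) :
    Absorb (sd G) (dn G D) (cutwT G U D ∩ (dn G U ∪ Xs G U)) :=
  abs_defl (mandCap G D)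
    (fun _ hs => ⟨fun a ha => Or.inl (hs a ha), Or.inl fun a ha => hD (hs a ha)⟩)
    (fun _ hs _ ha => ((mand_cap (cutw_meets hs)).1 ha).2)
    (fun _ hs _ ha => ((mand_cap (cutw_meets hs)).1 ha).1)
    fun _ hs _ ht hst _ ha => (mand_cap (cutw_meets ht)).2
      (((mand_cap (cutw_meets hs)).1 ha).imp_left fun h => hst h)

theorem cutW_h1 [Fintype V] {G : Cx V} {U D : Set V} (hD : D ⊆ U) (h1 : H1 G D) (hc : Conn G D)
    (hne : (frn G U D).Nonempty) (hb : Conn (sd G) (frn G U D)) :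
    H1 (DD G U) (cutW G U D) ∧ kc (DD G U) (cutW G U D) = 1 := by
  have e : cutW G U D = mandSh (dn G U) (Xs G U) (cutwT G U D) false ∪
      mandSh (dn G U) (Xs G U) (cutwT G U D) true :=
    (mand_union (dn G U) (Xs G U) (cutwT G U D)).symm
  have e0 : cutwT G U D ∩ Xs G U = frn G U D := Set.ext fun s =>
    ⟨fun hs => ⟨hs.1, cutw_meets ⟨hs.1, Or.inr hs.2⟩, hs.2.2⟩,
      fun hs => ⟨hs.1, bas_meets hD hs.2.1, hs.2.2⟩⟩
  have hA := cutw_abs (G := G) hD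
  have a1 : ∀ i, H1 (DD G U) (mandSh (dn G U) (Xs G U) (cutwT G U D) i) := fun i =>
    (h1_iso (mand_bij _ _ _ i) (mand_adj _ _ _ _ i)).2 (hA.h1 ((h1_dn G D).2 h1))
  have a2 : ∀ i, Conn (DD G U) (mandSh (dn G U) (Xs G U) (cutwT G U D) i) := fun i =>
    (conn_iso (mand_bij _ _ _ i) (mand_adj _ _ _ _ i)).2
      (hA.conn (kc_le_one.1 ((kc_dn G D).trans_le (kc_le_one.2 hc))))
  have b0 := mand_bij0 (dn_xs_disj G U) (cutwT G U D)
  rw [e0] at b0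
  have a3 := (conn_iso (G' := DD G U) b0 fun a ha b hb =>
    mand_adj (sd G) _ _ _ false a ha.1 b hb.1).2 hb
  obtain ⟨s, hs⟩ := hne
  obtain ⟨w, hw, -⟩ := b0.surjOn hs
  rw [e]
  refine ⟨(a1 false).union (a1 true) a3 fun a ha b hb r => ?_,
    kc_eq_one.2 ⟨⟨w, Or.inl hw.1⟩, (a2 false).union (a2 true) hw.1 hw.2 ((DD G U).refl w)⟩⟩
  rw [← e] at ha hb
  obtain ⟨i, h⟩ := cutw_side (G := sd G) (s := {a, b}) (L := dn G U) (X := Xs G U)
    (by rintro x (rfl | rfl); exacts [ha.1, hb.1]) (by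
      rintro x (rfl | rfl) y (rfl | rfl)
      exacts [(DD G U).refl _, r, (DD G U).symm _ _ r, (DD G U).refl _])
  have ha' : a ∈ mandSh (dn G U) (Xs G U) (cutwT G U D) i := ⟨ha.1, ha.2, h a (Or.inl rfl)⟩
  have hb' : b ∈ mandSh (dn G U) (Xs G U) (cutwT G U D) i := ⟨hb.1, hb.2, h b (Or.inr rfl)⟩
  cases i
  · exact Or.inl ⟨ha', hb'⟩
  · exact Or.inr ⟨ha', hb'⟩

theorem cutw_cap_le (G : Cx V) (U : Set V) (z : Fc G) : mandCap G U z ≤ z := by
  by_cases h : Meets z.1 U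
  · exact fun a ha => ((mand_cap h).1 ha).1
  · rw [mandCap, dif_neg h]

/-- The chain from the outer face of `d` to `d`. -/
def cutwP (G : Cx V) (U : Set V) (d : Fc G) : Fc (sd G) :=
  ⟨{mandCap G Uᶜ d, d}, clq_pair (Or.inl (cutw_cap_le G Uᶜ d))⟩

theorem cutw_out {G : Cx V} {U : Set V} {d : Fc G} (hd : Meets d.1 Uᶜ) :
    mandCap G Uᶜ d ∈ (up G U)ᶜ := fun ⟨_, ha, hU⟩ => ((mand_cap hd).1 ha).2 hU

theorem cutw_ins {G : Cx V} {U D : Set V} {s : Fc G} (hs : s ∈ frn G U D) {w : V}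
    (hw : w ∈ D ∪ Uᶜ) (hr : ∀ a ∈ s.1, G.r w a) :
    (⟨insert w s.1, mans_ins s.2 hr⟩ : Fc G) ∈ frn G U D :=
  ⟨fun a ha => (Finset.mem_insert.1 ha).elim (fun e => e ▸ hw) (hs.1 a),
    mans_meets hs.2.1 (Finset.subset_insert _ _), mans_meets hs.2.2 (Finset.subset_insert _ _)⟩

theorem cutw_pair {G : Cx V} {U D : Set V} {z d : V} (hz : z ∈ Uᶜ) (hd : d ∈ D) (hr : G.r z d) :
    (⟨{z, d}, clq_pair hr⟩ : Fc G) ∈ frn G U D :=
  ⟨fun a ha => (Finset.mem_insert.1 ha).elim (fun e => e ▸ Or.inr hz)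
      fun h => Finset.mem_singleton.1 h ▸ Or.inl hd,
    ⟨d, by simp, hd⟩, ⟨z, by simp, hz⟩⟩

theorem cutw_key {G : Cx V} {U : Set V} {D : Set (Fc G)} (hD : D ⊆ up G U) {C : Fc (sd G)}
    (hC : C ∈ frn (sd G) (up G U) D) {d : Fc G} (hd : d ∈ C.1) (hdD : d ∈ D) :
    d ∈ Xs G U ∧ Rch (sd (sd G)) (frn (sd G) (up G U) D) C (cutwP G U d) := by
  obtain ⟨z, hz, hzU⟩ := hC.2.2
  have hzd : z ≤ d := (C.2.2 z hz d hd).resolve_right fun h => hzU (mans_meets (hD hdD) h)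
  have hzo : ∀ a ∈ z.1, a ∈ Uᶜ := fun a ha hU => hzU ⟨a, ha, hU⟩
  have hm : Meets d.1 Uᶜ := z.2.1.imp fun a ha => ⟨hzd ha, hzo a ha⟩
  have hP : cutwP G U d ∈ frn (sd G) (up G U) D :=
    cutw_pair (cutw_out hm) hdD (Or.inl (cutw_cap_le G Uᶜ d))
  have hE := cutw_pair (G := sd G) hzU hdD (Or.inl hzd)
  have hE' := cutw_ins hP (w := z) (Or.inr hzU) fun a ha => by
    rcases Finset.mem_insert.1 ha with rfl | ha
    · exact Or.inl fun b hb => (mand_cap hm).2 ⟨hzd hb, hzo b hb⟩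
    · rw [Finset.mem_singleton.1 ha]
      exact Or.inl hzd
  refine ⟨⟨hD hdD, hm⟩, bas_trans (rch_symm (mans_up hE hC ?_))
    (bas_trans (mans_up hE hE' ?_) (rch_symm (mans_up hP hE' (Finset.subset_insert _ _))))⟩
  · exact Finset.insert_subset hz (Finset.singleton_subset_iff.2 hd)
  · exact Finset.insert_subset_insert _ (Finset.subset_insert _ _)

theorem Disc.fr [Fintype V] {G : Cx V} {U : Set V} {c : V → V → V → ZMod 2} {F : V → V → ZMod 2}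
    (h : Disc G U c F) (hc : Curve G U c) : (frn (sd G) (up G U) (ActF G U F)).Nonempty ∧
      Conn (sd (sd G)) (frn (sd G) (up G U) (ActF G U F)) := by
  have hD := actF_sub G U F
  have hA : ∀ d ∈ ActC G U c, d ∈ ActF G U F ∩ Xs G U := fun d hd => h.actc ▸ hd
  have hP : ∀ d ∈ ActC G U c, cutwP G U d ∈ frn (sd G) (up G U) (ActF G U F) := fun d hd =>
    cutw_pair (cutw_out (hA d hd).2.2) (hA d hd).1 (Or.inl (cutw_cap_le G Uᶜ d))
  have step : ∀ d ∈ ActC G U c, ∀ d' ∈ ActC G U c, d ≤ d' →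
      Rch (sd (sd G)) (frn (sd G) (up G U) (ActF G U F)) (cutwP G U d) (cutwP G U d') :=
    fun d hd d' hd' hle => by
      have hE := cutw_ins (hP d hd) (w := d') (Or.inl (hA d' hd').1) fun a ha => by
        rcases Finset.mem_insert.1 ha with rfl | ha
        · exact Or.inr ((cutw_cap_le _ _ _).trans hle)
        · rw [Finset.mem_singleton.1 ha]
          exact Or.inr hle
      exact bas_trans (mans_up (hP d hd) hE (Finset.subset_insert _ _))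
        (cutw_key hD hE (Finset.mem_insert_self _ _) (hA d' hd').1).2
  obtain ⟨d₀, hd₀⟩ := hc.ne
  refine ⟨⟨_, hP d₀ hd₀⟩, conn_of_base (cutwP G U d₀) fun C hC => ?_⟩
  obtain ⟨d, hd, hdD⟩ := hC.2.1
  obtain ⟨hX, hr⟩ := cutw_key hD hC hd hdD
  have hdc : d ∈ ActC G U c := h.actc ▸ (⟨hdD, hX⟩ : d ∈ ActF G U F ∩ Xs G U)
  exact bas_trans hr (rch_map (G' := sd G) (fun a ha b hb r => Or.elim r (step a ha b hb)
    fun r => rch_symm (step b hb a ha r)) (hc.conn d hdc d₀ hd₀))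

end KG
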