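import Pool.Agent.Work.MP_c146e2_gt.KG.CutA
import Pool.Agent.Work.MP_c146e2_gt.KG.DiscF

set_option autoImplicit false

noncomputable section

open scoped Classical

namespace KG

variable {V V' : Type}

/-- The face of `s` on the side `e`, together with the vertices outside `U`. -/
def rho {G : Cx V} (U : Set V) (o : Fc G → V → ZMod 2) (e : ZMod 2) (s : Fc G) : Fc G :=
  if h : (s.1.filter fun a => a ∉ U ∨ o s a = e).Nonempty then
    ⟨s.1.filter fun a => a ∉ U ∨ o s a = e, s.2.sub (Finset.filter_subset _ _) h⟩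
  else s

variable {G : Cx V} {U : Set V} {c : V → V → V → ZMod 2} {F : V → V → ZMod 2}
  {o : Fc G → V → ZMod 2}

theorem cutx_side (h : Coor G U F o) (e : ZMod 2) {s : Fc G} (hs : s ∈ ActF G U F) :
    ∃ a ∈ s.1, a ∈ U ∧ o s a = e := by
  obtain ⟨a, ha, b, hb, h1, h2, h3⟩ := id hs
  rw [h.pot s hs a ha b hb h1 h2] at h3
  have : ∀ x y e : ZMod 2, x + y ≠ 0 → x = e ∨ y = e := by decide
  exact (this _ _ e h3).elim (fun k => ⟨a, ha, h1, k⟩) fun k => ⟨b, hb, h2, k⟩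

theorem Coor.mem_rho (h : Coor G U F o) (e : ZMod 2) {s : Fc G} (hs : s ∈ ActF G U F) (a : V) :
    a ∈ (rho U o e s).1 ↔ a ∈ s.1 ∧ (a ∉ U ∨ o s a = e) := by
  obtain ⟨b, hb, -, h1⟩ := cutx_side h e hs
  rw [rho, dif_pos ⟨b, Finset.mem_filter.2 ⟨hb, Or.inr h1⟩⟩]
  exact Finset.mem_filter

theorem Coor.rho_mem (h : Coor G U F o) (e : ZMod 2) {s : Fc G} (hs : s ∈ ActF G U F) :
    rho U o e s ≤ s ∧ rho U o e s ∈ up G U \ ActF G U F := by
  obtain ⟨b, hb, h0, h1⟩ := cutx_side h e hs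
  refine ⟨fun a ha => ((h.mem_rho e hs a).1 ha).1, ⟨b, (h.mem_rho e hs b).2 ⟨hb, Or.inr h1⟩, h0⟩, ?_⟩
  rintro ⟨x, hx, y, hy, h2, h3, h4⟩
  rw [h.mem_rho e hs] at hx hy
  rw [h.pot s hs x hx.1 y hy.1 h2 h3, hx.2.resolve_left (not_not.2 h2),
    hy.2.resolve_left (not_not.2 h3)] at h4
  exact h4 (CharTwo.add_self_eq_zero e)

theorem Coor.rho_mono (h : Coor G U F o) (e : ZMod 2) {s s' : Fc G} (hs : s ∈ ActF G U F)
    (hle : s ≤ s') : rho U o e s ≤ rho U o e s' := by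
  intro a ha
  obtain ⟨h1, h2⟩ := (h.mem_rho e hs a).1 ha
  refine (h.mem_rho e (actF_upper G U F hle hs) a).2 ⟨hle h1, ?_⟩
  by_cases k : a ∈ U
  · exact Or.inr ((h.res s hs s' hle a h1 k).trans (h2.resolve_left (not_not.2 k)))
  · exact Or.inl k

theorem Coor.le_rho (h : Coor G U F o) {s x : Fc G} (hs : s ∈ ActF G U F) (hx : x ∉ ActF G U F)
    (hle : x ≤ s) {a : V} (ha : a ∈ x.1) (hU : a ∈ U) : x ≤ rho U o (o s a) s := by
  intro b hb
  refine (h.mem_rho _ hs b).2 ⟨hle hb, or_iff_not_imp_left.2 fun k => ?_⟩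
  have h1 : F a b = 0 := by_contra fun e => hx ⟨a, ha, b, hb, hU, not_not.1 k, e⟩
  rw [h.pot s hs a (hle ha) b (hle hb) hU (not_not.1 k)] at h1
  have : ∀ x y : ZMod 2, x + y = 0 → y = x := by decide
  exact this _ _ h1

theorem kc_le_of_rch [Fintype V] {G : Cx V} {A S : Set V} (hA : A ⊆ S)
    (h : ∀ x ∈ S, ∃ a ∈ A, Rch G S x a) : kc G S ≤ kc G A := by
  obtain ⟨R, -, hR, hR1, -⟩ := bas_roots G A
  rw [← hR]
  refine le_trans (Set.ncard_le_ncard ?_)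
    (Set.ncard_image_le (f := fun a => {b | Rch G S a b}) (s := R))
  rintro _ ⟨x, hx, rfl⟩
  obtain ⟨a, ha, r⟩ := h x hx
  obtain ⟨y, hy, r'⟩ := hR1 a ha
  have := r.trans (rch_mono hA r')
  exact ⟨y, hy, Set.ext fun z => ⟨this.trans, (rch_symm this).trans⟩⟩

theorem kc_le_ncard [Fintype V] (G : Cx V) (S : Set V) : kc G S ≤ S.ncard :=
  Set.ncard_image_le

theorem cutx_link {G : Cx V} {B : Set (Fc G)} (hB : IsUpperSet B) {s t : Fc G} (hs : s ∈ B)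
    (ht : t ∈ B) (h : ∀ a ∈ s.1, ∀ b ∈ t.1, G.r a b) : Rch (sd G) B s t := by
  let u : Fc G := ⟨s.1 ∪ t.1, s.2.1.mono Finset.subset_union_left, fun a ha b hb => by
    rcases Finset.mem_union.1 ha with ha | ha <;> rcases Finset.mem_union.1 hb with hb | hb
    exacts [s.2.2 a ha b hb, h a ha b hb, G.symm _ _ (h b hb a ha), t.2.2 a ha b hb]⟩
  have h1 : s ≤ u := Finset.subset_union_left
  have h2 : t ≤ u := Finset.subset_union_right
  exact (rch_step hs (hB h1 hs) (Or.inl h1)).trans (rch_step (hB h1 hs) ht (Or.inr h2))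

/-- An edge of an order complex. -/
def cutxE {P : Type} [PartialOrder P] {a b : P} (h : a ≤ b) : Fc (ord P) :=
  ⟨{a, b}, clq_pair (Or.inl h)⟩

theorem cutx_mem {P : Type} [PartialOrder P] {a b x : P} {h : a ≤ b} :
    x ∈ (cutxE h).1 ↔ x = a ∨ x = b := by
  simp [cutxE]

theorem cutx_meets {G : Cx V} {A B : Set V} : IsUpperSet {s : Fc G | Meets s.1 A ∧ Meets s.1 B} :=
  fun _ _ e h => ⟨h.1.imp fun _ k => ⟨e k.1, k.2⟩, h.2.imp fun _ k => ⟨e k.1, k.2⟩⟩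

theorem cutx_chi [Fintype V] {G : Cx V} {U D : Set V} (hD : D ⊆ U) :
    chi (sd G) (cutW2 G U D) = chi G D + chi G (U \ D) - chi G U := by
  have h1 := chi_cross G (Set.disjoint_sdiff_right (s := D) (t := U))
  rw [Set.union_sdiff_cancel hD] at h1
  rw [← h1]
  have h2 : ∀ x ∈ cutW2 G U D, Meets x.1 U := fun x hx => hx.2.imp fun _ k => ⟨k.1, k.2.1⟩
  refine chi_defl (mandCap G U) (fun x hx => hx.2) (fun x hx => ⟨fun a ha => ?_, ?_, ?_⟩)
    (fun x hx a ha => ((mand_cap (h2 x hx)).1 ha).1) (fun x hx => Subtype.ext ?_)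
    fun x hx y hy e a ha => ?_
  · exact ((mand_cap (h2 x hx)).1 ha).2
  · exact hx.1.imp fun a k => ⟨(mand_cap (h2 x hx)).2 ⟨k.1, hD k.2⟩, k.2⟩
  · exact hx.2.imp fun a k => ⟨(mand_cap (h2 x hx)).2 ⟨k.1, k.2.1⟩, k.2⟩
  · ext a
    rw [mand_cap (h2 x hx.2)]
    exact ⟨fun k => k.1, fun k => ⟨k, hx.1 a k⟩⟩
  · rw [mand_cap (h2 x hx)] at ha
    exact (mand_cap (h2 y hy)).2 ⟨e ha.1, ha.2⟩

theorem Disc.cut2 [Fintype V] (h : Disc G U c F) (hm : Man G U) (hne : (ActC G U c).Nonempty) :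
    H1 (sd (sd G)) (cutW2 (sd G) (up G U) (ActF G U F)) ∧
      kc (sd (sd G)) (cutW2 (sd G) (up G U) (ActF G U F)) = 2 := by
  obtain ⟨o, ho⟩ := h.coor hm.toPMan hne
  obtain ⟨d0, hd0⟩ := hne
  rw [← h.actc] at hd0
  obtain ⟨hd0, -, z, hz, hzU⟩ := hd0
  have hS := surf_xs (hm.sd.toPMan.mono (Set.sdiff_subset (t := ActF G U F)))
  have hBS : cutW2 (sd G) (up G U) (ActF G U F) ⊆ Xs (sd G) (up G U \ ActF G U F) := fun s hs =>
    ⟨hs.2, hs.1.imp fun _ k => ⟨k.1, fun e => e.2 k.2⟩⟩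
  have hchi : KG.chi (sd (sd G)) (cutW2 (sd G) (up G U) (ActF G U F)) = 2 := by
    rw [cutx_chi (actF_sub G U F), actF_chi h.coc, actF_rest h.coc, chi_up, h.chi]
    ring
  have hE : ∀ {x d : Fc G} (e : x ≤ d), x ∈ up G U \ ActF G U F → d ∈ ActF G U F →
      cutxE e ∈ cutW2 (sd G) (up G U) (ActF G U F) := fun e hx hd =>
    ⟨⟨_, cutx_mem.2 (Or.inr rfl), hd⟩, ⟨_, cutx_mem.2 (Or.inl rfl), hx⟩⟩
  have k1 : ∀ e d d' (hd : d ∈ ActF G U F) (hd' : d' ∈ ActF G U F), d ≤ d' →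
      Rch (sd (sd G)) (cutW2 (sd G) (up G U) (ActF G U F)) (cutxE (ho.rho_mem e hd).1)
        (cutxE (ho.rho_mem e hd').1) := fun e d d' hd hd' l => by
    have l1 := (ho.rho_mem e hd).1
    have l2 := (ho.rho_mem e hd').1
    have l3 := ho.rho_mono e hd l
    have m := hE (l1.trans l) (ho.rho_mem e hd).2 hd'
    refine (cutx_link cutx_meets (hE l1 (ho.rho_mem e hd).2 hd) m fun a ha b hb => ?_).trans
      (cutx_link cutx_meets m (hE l2 (ho.rho_mem e hd').2 hd') fun a ha b hb => ?_)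
    · rcases cutx_mem.1 ha with rfl | rfl <;> rcases cutx_mem.1 hb with rfl | rfl
      exacts [Or.inl le_rfl, Or.inl (l1.trans l), Or.inr l1, Or.inl l]
    · rcases cutx_mem.1 ha with rfl | rfl <;> rcases cutx_mem.1 hb with rfl | rfl
      exacts [Or.inl l3, Or.inl (l1.trans l), Or.inr l2, Or.inl le_rfl]
  have k2 : ∀ e d, Rch (sd G) (ActF G U F) d0 d → ∀ hd : d ∈ ActF G U F,
      Rch (sd (sd G)) (cutW2 (sd G) (up G U) (ActF G U F)) (cutxE (ho.rho_mem e hd0).1)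
        (cutxE (ho.rho_mem e hd).1) := fun e d r => by
    induction r with
    | refl => exact fun _ => Relation.ReflTransGen.refl
    | tail _ r ih =>
      exact fun hd => (ih r.1).trans
        (r.2.2.elim (k1 e _ _ r.1 hd) fun l => rch_symm (k1 e _ _ hd r.1 l))
  have k3 : ∀ s ∈ cutW2 (sd G) (up G U) (ActF G U F), ∃ e,
      Rch (sd (sd G)) (cutW2 (sd G) (up G U) (ActF G U F)) s (cutxE (ho.rho_mem e hd0).1) := by
    intro s hs
    obtain ⟨⟨d, d1, d2⟩, x, x1, ⟨a, a1, a2⟩, x2⟩ := id hs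
    have l : x ≤ d := (s.2.2 x x1 d d1).resolve_right fun e => x2 (actF_upper G U F e d2)
    have l1 := ho.le_rho d2 x2 l a1 a2
    have l2 := (ho.rho_mem (o d a) d2).1
    have m := hE l ⟨⟨a, a1, a2⟩, x2⟩ d2
    refine ⟨o d a, ((cutx_link cutx_meets hs m fun p hp q hq => ?_).trans
      (cutx_link cutx_meets m (hE l2 (ho.rho_mem _ d2).2 d2) fun p hp q hq => ?_)).trans
      (rch_symm (k2 _ d (actF_conn h.conn d0 hd0 d d2) d2))⟩
    · rcases cutx_mem.1 hq with rfl | rfl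
      exacts [s.2.2 p hp _ x1, s.2.2 p hp _ d1]
    · rcases cutx_mem.1 hp with rfl | rfl <;> rcases cutx_mem.1 hq with rfl | rfl
      exacts [Or.inl l1, Or.inl l, Or.inr l2, Or.inl le_rfl]
  have hk : kc (sd (sd G)) (cutW2 (sd G) (up G U) (ActF G U F)) ≤ 2 := by
    refine (kc_le_of_rch (A := {cutxE (ho.rho_mem 0 hd0).1, cutxE (ho.rho_mem 1 hd0).1}) ?_
      fun s hs => ?_).trans ((kc_le_ncard _ _).trans
        ((Set.ncard_insert_le _ _).trans (by rw [Set.ncard_singleton])))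
    · rintro _ (rfl | rfl) <;> exact hE _ (ho.rho_mem _ hd0).2 hd0
    · obtain ⟨e, r⟩ := k3 s hs
      have : ∀ e : ZMod 2, e = 0 ∨ e = 1 := by decide
      refine ⟨_, ?_, r⟩
      rcases this e with rfl | rfl
      exacts [Or.inl rfl, Or.inr rfl]
  have hn : NoCyc (sd (sd G)) (cutW2 (sd G) (up G U) (ActF G U F)) := by
    refine noCyc_sub hS hBS fun s hs => ?_
    obtain ⟨e, r⟩ := k3 s hs
    let zz : Fc G := ⟨{z}, clq_single G z⟩
    have l1 : zz ≤ rho U o e d0 :=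
      Finset.singleton_subset_iff.2 ((ho.mem_rho e hd0 z).2 ⟨hz, Or.inl hzU⟩)
    have l2 := (ho.rho_mem e hd0).1
    have z1 : zz ∉ up G U := fun ⟨a, a1, a2⟩ => hzU (Finset.mem_singleton.1 a1 ▸ a2)
    have m : cutxE l1 ∈ Xs (sd G) (up G U \ ActF G U F) :=
      ⟨⟨_, cutx_mem.2 (Or.inr rfl), (ho.rho_mem e hd0).2⟩,
        ⟨_, cutx_mem.2 (Or.inl rfl), fun k => z1 k.1⟩⟩
    refine ⟨cutxE l1, m, ?_, (rch_mono hBS r).trans (cutx_link cutx_meets
      (hBS (hE l2 (ho.rho_mem e hd0).2 hd0)) m fun p hp q hq => ?_)⟩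
    · rintro ⟨⟨a, a1, a2⟩, -⟩
      rcases cutx_mem.1 a1 with rfl | rfl
      exacts [z1 (actF_sub G U F a2), (ho.rho_mem e hd0).2.2 a2]
    · rcases cutx_mem.1 hp with rfl | rfl <;> rcases cutx_mem.1 hq with rfl | rfl
      exacts [Or.inr l1, Or.inl le_rfl, Or.inr (l1.trans l2), Or.inr l2]
  obtain ⟨h1, h2⟩ := chi_le_kc (fun s hs hi => hS.dim s hs fun a ha => hBS (hi a ha)) hn
  rw [hchi] at h1 h2
  have h3 : kc (sd (sd G)) (cutW2 (sd G) (up G U) (ActF G U F)) = 2 := by omega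
  exact ⟨h2.1 (by rw [h3]; rfl), h3⟩

end KG
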