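import Mathlib

/-! Clique complexes, the Fibonacci state sum and the notions shared by all files of the folder. -/

set_option autoImplicit false

noncomputable section

open scoped Classical

namespace KG

/-- A graph with loops; its cliques are the simplices. -/
structure Cx (V : Type) where
  r : V → V → Prop
  refl : ∀ a, r a a
  symm : ∀ a b, r a b → r b a

variable {V V' : Type}

def Clq (G : Cx V) (s : Finset V) : Prop := s.Nonempty ∧ ∀ a ∈ s, ∀ b ∈ s, G.r a b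

def Meets (s : Finset V) (U : Set V) : Prop := ∃ a ∈ s, a ∈ U

def Ins (s : Finset V) (U : Set V) : Prop := ∀ a ∈ s, a ∈ U

/-- The order complex. -/
def ord (P : Type) [PartialOrder P] : Cx P :=
  ⟨fun a b => a ≤ b ∨ b ≤ a, fun _ => Or.inl le_rfl, fun _ _ h => h.symm⟩

/-- The poset of simplices. -/
def Fc (G : Cx V) : Type := {s : Finset V // Clq G s}

instance (G : Cx V) : PartialOrder (Fc G) :=
  inferInstanceAs (PartialOrder {s : Finset V // Clq G s})

instance [Fintype V] (G : Cx V) : Fintype (Fc G) :=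
  @Fintype.ofFinite _ (inferInstanceAs (Finite {s : Finset V // Clq G s}))

theorem Fc.le_iff {G : Cx V} {s s' : Fc G} : s ≤ s' ↔ s.1 ⊆ s'.1 := Iff.rfl

/-- The barycentric subdivision. -/
def sd (G : Cx V) : Cx (Fc G) := ord (Fc G)

def up (G : Cx V) (U : Set V) : Set (Fc G) := {s | Meets s.1 U}

def dn (G : Cx V) (U : Set V) : Set (Fc G) := {s | Ins s.1 U}

/-- The frontier surface of `U`, a set of vertices of the subdivision. -/
def Xs (G : Cx V) (U : Set V) : Set (Fc G) := {s | Meets s.1 U ∧ Meets s.1 Uᶜ}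

/-- A choice of a vertex in each simplex that prefers `U`. -/
def Sel (G : Cx V) (U : Set V) (m : Fc G → V) : Prop :=
  ∀ s : Fc G, m s ∈ s.1 ∧ (Meets s.1 U → m s ∈ U)

/-- Euler characteristic of the full subcomplex on `S`. -/
def chi [Fintype V] (G : Cx V) (S : Set V) : ℤ :=
  ∑ s : Finset V, if Clq G s ∧ Ins s S then (-1) ^ (s.card + 1) else 0

def Rch (G : Cx V) (S : Set V) : V → V → Prop :=
  Relation.ReflTransGen fun a b => a ∈ S ∧ b ∈ S ∧ G.r a b

def Conn (G : Cx V) (S : Set V) : Prop := ∀ a ∈ S, ∀ b ∈ S, Rch G S a b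

/-- Number of components. -/
def kc (G : Cx V) (S : Set V) : ℕ := ((fun a => {b | Rch G S a b}) '' S).ncard

/-- No vertex of `A` is adjacent to a vertex of `B`. -/
def Sep (G : Cx V) (A B : Set V) : Prop := ∀ a ∈ A, ∀ b ∈ B, ¬ G.r a b

def lk (G : Cx V) (s : Finset V) : Set V := {w | w ∉ s ∧ ∀ a ∈ s, G.r w a}

structure PMan (G : Cx V) (U : Set V) : Prop where
  dim : ∀ s, Clq G s → Meets s U → s.card ≤ 4
  tri : ∀ s, Clq G s → Meets s U → s.card = 3 → (lk G s).ncard = 2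
  con : ∀ s, Clq G s → Meets s U → s.card ≤ 2 → (lk G s).Nonempty ∧ Conn G (lk G s)

/-- A combinatorial three-manifold at the vertices of `U`. -/
structure Man [Fintype V] (G : Cx V) (U : Set V) : Prop extends PMan G U where
  sph : ∀ v ∈ U, chi G (lk G {v}) = 2

/-- The full subcomplex on `S` is a closed surface. -/
structure Surf (G : Cx V) (S : Set V) : Prop where
  dim : ∀ s, Clq G s → Ins s S → s.card ≤ 3
  edg : ∀ s, Clq G s → Ins s S → s.card = 2 → (lk G s ∩ S).ncard = 2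
  vtx : ∀ v ∈ S, (lk G {v} ∩ S).Nonempty ∧ Conn G (lk G {v} ∩ S)

structure Thin (G : Cx V) (S : Set V) : Prop where
  dim : ∀ s, Clq G s → Ins s S → s.card ≤ 3
  edg : ∀ s, Clq G s → Ins s S → s.card = 2 → (lk G s ∩ S).ncard ≤ 2

/-- No two-cycles modulo two. -/
def NoCyc (G : Cx V) (S : Set V) : Prop :=
  ∀ T : Set (Finset V), (∀ s ∈ T, Clq G s ∧ Ins s S ∧ s.card = 3) →
    (∀ e, Clq G e → Ins e S → e.card = 2 → Even {s | s ∈ T ∧ e ⊆ s}.ncard) → T = ∅

/-! Flat connections and cocycles on full subcomplexes. -/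

def Flat {H : Type} [Group H] (G : Cx V) (U : Set V) (η : V → V → H) : Prop :=
  ∀ a ∈ U, ∀ b ∈ U, ∀ c ∈ U, G.r a b → G.r b c → G.r a c → η a b * η b c = η a c

def Coc (G : Cx V) (U : Set V) (η : V → V → ZMod 2) : Prop :=
  ∀ a ∈ U, ∀ b ∈ U, ∀ c ∈ U, G.r a b → G.r b c → G.r a c → η a b + η b c = η a c

def Cob (G : Cx V) (U : Set V) (η : V → V → ZMod 2) : Prop :=
  ∃ f : V → ZMod 2, ∀ a ∈ U, ∀ b ∈ U, G.r a b → η a b = f a + f b

def H1 (G : Cx V) (U : Set V) : Prop := ∀ η, Coc G U η → Cob G U η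

/-- The first Betti number modulo two is at most `n`. -/
def B1le (G : Cx V) (U : Set V) (n : ℕ) : Prop :=
  ∃ f : Fin n → V → V → ZMod 2, ∀ η, Coc G U η →
    ∃ x : Fin n → ZMod 2, Cob G U fun a b => η a b + ∑ i, x i * f i a b

/-- `l` is a universal flat connection. -/
def Univ {L : Type} [Group L] (G : Cx V) (U : Set V) (l : V → V → L) : Prop :=
  Flat G U l ∧ ∀ (H : Type) [Group H] (η : V → V → H), Flat G U η →
    ∃ (θ : L →* H) (β : V → H), ∀ a ∈ U, ∀ b ∈ U, G.r a b → η a b = (β a)⁻¹ * θ (l a b) * β b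

def Free (G : Cx V) (U : Set V) (g : ℕ) : Prop :=
  ∃ l : V → V → FreeGroup (Fin g), Univ G U l

/-- Every flat connection has a gauge with values in a subgroup with `n` generators. -/
def GenN (G : Cx V) (U : Set V) (n : ℕ) : Prop :=
  ∀ (H : Type) [Group H] (η : V → V → H), Flat G U η →
    ∃ (β : V → H) (f : Fin n → H), ∀ a ∈ U, ∀ b ∈ U, G.r a b →
      β a * η a b * (β b)⁻¹ ∈ Subgroup.closure (Set.range f)

/-! The state sum. -/

def ph : ℝ := Real.goldenRatio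

def D2 : ℝ := ph + 2

def act (c : V → V → Bool) (s : Finset V) : Prop := ∃ a ∈ s, ∃ b ∈ s, c a b = true

def ful (c : V → V → Bool) (s : Finset V) : Prop := ∀ a ∈ s, ∀ b ∈ s, a ≠ b → c a b = true

def w1 (c : V → V → Bool) (s : Finset V) : ℝ :=
  if act c s then
    (if s.card = 2 then ph else if s.card = 3 then ph⁻¹ else if ful c s then -1 else ph)
  else 1

def wt [Fintype V] (G : Cx V) (c : V → V → Bool) : ℝ :=
  ∏ s : Finset V, if Clq G s then w1 c s else 1

/-- Admissible colourings of the edges that vanish on `A`. -/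
structure Col (G : Cx V) (A : V → V → Prop) (c : V → V → Bool) : Prop where
  symm : ∀ a b, c a b = c b a
  supp : ∀ a b, c a b = true → G.r a b ∧ a ≠ b ∧ ¬ A a b
  tri : ∀ a b d, G.r a b → G.r b d → G.r a d → c a b = false → c b d = false → c a d = false

def SS [Fintype V] (G : Cx V) (A : V → V → Prop) : ℝ :=
  ∑ c : V → V → Bool, if Col G A c then wt G c else 0

def inZ (Z : Set V) (a b : V) : Prop := a ∈ Z ∧ b ∈ Z

/-- The invariant of the complement of a neighbourhood of `Z`. -/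
def tv [Fintype V] (G : Cx V) (Z : Set V) : ℝ := SS G (inZ Z) / D2 ^ Zᶜ.ncard

/-- The edges on which a colouring that vanishes on `A` has to vanish. -/
inductive Cl (G : Cx V) (A : V → V → Prop) : V → V → Prop
  | base {a b : V} : A a b → Cl G A a b
  | refl (a : V) : Cl G A a a
  | symm {a b : V} : Cl G A a b → Cl G A b a
  | tri {a b d : V} : G.r a b → G.r b d → G.r a d → Cl G A a b → Cl G A b d → Cl G A a d

/-- The edges from a vertex of `B` to its parent. -/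
def par (B : Set V) (p : V → V) (a b : V) : Prop := a ∈ B ∧ b = p a

/-- A forest on `B`: parents lie in `S`, and the rank goes down as long as one stays in `B`. -/
def Forest (G : Cx V) (S B : Set V) (p : V → V) : Prop :=
  ∃ rk : V → ℕ, ∀ v ∈ B, p v ∈ S ∧ G.r v (p v) ∧ (p v ∈ B → rk (p v) < rk v)

/-- `Z'` arises from `Z` without adding handles of index zero or one. -/
def Absorb (G : Cx V) (Z Z' : Set V) : Prop :=
  Z ⊆ Z' ∧ ∃ p : V → V, Forest G Z' (Z' \ Z) p ∧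
    ∀ a ∈ Z', ∀ b ∈ Z', G.r a b → Cl G (fun x y => inZ Z x y ∨ par (Z' \ Z) p x y) a b

/-! Contractions. -/

def Img (f : V' → V) (s' : Finset V') (s : Finset V) : Prop := ∀ b, b ∈ s ↔ ∃ a ∈ s', f a = b

/-- One move on an edge whose first vertex lies in `U'`; the image of the edge is unchanged. -/
def EStep (G' : Cx V') (U' : Set V') (f : V' → V) (e e' : V' × V') : Prop :=
  e.1 ∈ U' ∧ e'.1 ∈ U' ∧ G'.r e.1 e.2 ∧ G'.r e'.1 e'.2 ∧ f e.1 = f e'.1 ∧ f e.2 = f e'.2 ∧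
    ((e.2 = e'.2 ∧ G'.r e.1 e'.1) ∨ (e.1 = e'.1 ∧ G'.r e.2 e'.2))

/-- A simplicial map with contractible fibres over the simplices that meet `U`. -/
structure Contr [Fintype V'] (G' : Cx V') (G : Cx V) (U' : Set V') (U : Set V) (f : V' → V) :
    Prop where
  mem : ∀ x ∈ U', f x ∈ U
  nmem : ∀ u ∈ U', ∀ x, G'.r u x → x ∉ U' → f x ∉ U
  map : ∀ u ∈ U', ∀ x y, G'.r u x → G'.r u y → G'.r x y → G.r (f x) (f y)
  eul : ∀ s, Clq G s → Meets s U →
    (∑ s' : Finset V', if Clq G' s' ∧ Meets s' U' ∧ Img f s' s then (-1 : ℤ) ^ s'.card else 0) =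
      (-1) ^ s.card
  fib : ∃ (R : Set V') (p : V' → V'), R ⊆ U' ∧ Set.InjOn f R ∧ Forest G' U' (U' \ R) p ∧
    (∀ x ∈ U' \ R, f (p x) = f x) ∧
    ∀ x ∈ U', ∀ y ∈ U', G'.r x y → f x = f y → Cl G' (par (U' \ R) p) x y
  econn : ∀ x ∈ U', ∀ x' ∈ U', ∀ y y', G'.r x y → G'.r x' y' → f x = f x' → f y = f y' →
    f x ≠ f y → Relation.ReflTransGen (EStep G' U' f) (x, y) (x', y')

/-- `f` maps the closed star of `x` isomorphically onto the closed star of `f x`. -/
structure StarIso (G' : Cx V') (G : Cx V) (f : V' → V) (x : V') : Prop where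
  inj : ∀ y z, G'.r x y → G'.r x z → f y = f z → y = z
  adj : ∀ y z, G'.r x y → G'.r x z → (G'.r y z ↔ G.r (f y) (f z))
  sur : ∀ b, G.r (f x) b → ∃ y, G'.r x y ∧ f y = b

structure LocIso (G' : Cx V') (G : Cx V) (U' : Set V') (U : Set V) (f : V' → V) : Prop where
  bij : Set.BijOn f U' U
  nmem : ∀ u ∈ U', ∀ x, G'.r u x → x ∉ U' → f x ∉ U
  star : ∀ x ∈ U', StarIso G' G f x

/-! Graded posets. -/

def Itv {P : Type} [PartialOrder P] (S : Set P) (n : ℕ) : Prop :=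
  (n = 1 → S.ncard = 2) ∧ (2 ≤ n → S.Nonempty ∧ Conn (ord P) S)

structure GP {P : Type} [PartialOrder P] (rk : P → ℕ) (U : Set P) : Prop where
  mono : StrictMono rk
  le3 : ∀ u ∈ U, rk u ≤ 3
  upp : ∀ u ∈ U, ∀ x, u ≤ x → x ∈ U
  low : ∀ u ∈ U, ∀ b ≤ u, Itv {z | z < b} (rk b)
  mid : ∀ u ∈ U, ∀ b ≤ u, ∀ a < b, Itv {z | a < z ∧ z < b} (rk b - rk a - 1)
  top : ∀ a ∈ U, Itv {z | a < z} (3 - rk a)

/-- The zigzag order on the integers: even numbers lie below their two neighbours. -/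
def zle (i j : ℤ) : Prop := i = j ∨ (Even i ∧ (j = i + 1 ∨ j = i - 1))

/-! Spheres. -/

structure S3 [Fintype V] (G : Cx V) : Prop where
  man : Man G Set.univ
  ne : Nonempty V
  conn : Conn G Set.univ
  h1 : H1 G Set.univ
  tv0 : D2 * tv G ∅ = 1

def lowl (G : Cx V) (ht : V → ℕ) (v : V) : Set V := {w | G.r v w ∧ ht w < ht v}

def uppl (G : Cx V) (ht : V → ℕ) (v : V) : Set V := {w | G.r v w ∧ ht v < ht w}

/-- A height function with two critical points and a monotone path in `Z` between them. -/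
structure Hgt (G : Cx V) (Z : Set V) (ht : V → ℕ) (n : ℕ) (h : ℕ → V) : Prop where
  inj : Function.Injective ht
  low : ∀ v, v ≠ h 0 → (lowl G ht v).Nonempty ∧ Conn G (lowl G ht v)
  upp : ∀ v, v ≠ h n → (uppl G ht v).Nonempty ∧ Conn G (uppl G ht v)
  mem : ∀ i ≤ n, h i ∈ Z
  step : ∀ i < n, G.r (h i) (h (i + 1)) ∧ ht (h i) < ht (h (i + 1))

def Sph [Fintype V] (G : Cx V) (Z : Set V) : Prop :=
  Man G Set.univ ∧ ∃ ht n h, Hgt G Z ht n h

/-! Doubles. -/

def dbV (L X : Set V) : Set (V × Bool) := {x | x.1 ∈ L ∨ (x.1 ∈ X ∧ x.2 = false)}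

/-- Two copies of `L` glued along `X`; the other vertices are isolated. -/
def Db (G : Cx V) (L X : Set V) : Cx (V × Bool) :=
  ⟨fun x y => x = y ∨ (x ∈ dbV L X ∧ y ∈ dbV L X ∧ G.r x.1 y.1 ∧ (x.1 ∈ L → y.1 ∈ L → x.2 = y.2)),
    fun _ => Or.inl rfl, fun _ _ h => h.elim (fun e => Or.inl e.symm) fun h =>
      Or.inr ⟨h.2.1, h.1, G.symm _ _ h.2.2.1, fun a b => (h.2.2.2 b a).symm⟩⟩

structure Sided [Fintype V] (G : Cx V) (L X : Set V) : Prop where
  disj : Disjoint L X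
  nb : ∀ l ∈ L, ∀ y, G.r l y → y ∈ L ∪ X
  man : Man G L
  dim : ∀ s, Clq G s → Ins s X → s.card ≤ 3
  tri : ∀ s, Clq G s → Ins s X → s.card = 3 → (lk G s ∩ L).ncard = 1
  con : ∀ s, Clq G s → Ins s X → s.card ≤ 2 →
    (lk G s ∩ X).Nonempty ∧ Conn G (lk G s ∩ (L ∪ X))
  sph : ∀ x ∈ X, 2 * chi G (lk G {x} ∩ (L ∪ X)) - chi G (lk G {x} ∩ X) = 2

/-- The double of the neighbourhood of `U`. -/
def DD (G : Cx V) (U : Set V) : Cx (Fc G × Bool) := Db (sd G) (dn G U) (Xs G U)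

def ddV (G : Cx V) (U : Set V) : Set (Fc G × Bool) := dbV (dn G U) (Xs G U)

def qq [Fintype V] (G : Cx V) (U : Set V) : ℝ := tv (DD G U) (ddV G U)ᶜ

/-- The double of the neighbourhood of `Z` with both copies of `Z₀` removed. -/
def qin [Fintype V] (G : Cx V) (Z Z₀ : Set V) : ℝ :=
  tv (DD G Z) ((ddV G Z)ᶜ ∪ {x | x.1 ∈ dn G Z₀})

/-! Curves on the frontier and discs. -/

/-- A triangle with two vertices in `U` and the last one outside. -/
def Tr (G : Cx V) (U : Set V) (a b z : V) : Prop :=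
  a ∈ U ∧ b ∈ U ∧ z ∉ U ∧ G.r a b ∧ G.r a z ∧ G.r b z

def ActC (G : Cx V) (U : Set V) (c : V → V → V → ZMod 2) : Set (Fc G) :=
  {s | ∃ a ∈ s.1, ∃ b ∈ s.1, ∃ z ∈ s.1, a ∈ U ∧ b ∈ U ∧ z ∉ U ∧ c a b z ≠ 0}

structure Curve (G : Cx V) (U : Set V) (c : V → V → V → ZMod 2) : Prop where
  coc : ∀ a b d z, Tr G U a b z → Tr G U b d z → G.r a d → c a b z + c b d z = c a d z
  side : ∀ a b z z', Tr G U a b z → Tr G U a b z' → G.r z z' → c a b z = c a b z'
  ne : (ActC G U c).Nonempty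
  conn : Conn (sd G) (ActC G U c)

def Triv (G : Cx V) (U : Set V) (c : V → V → V → ZMod 2) : Prop :=
  ∃ f : V → V → ZMod 2, (∀ a b z, Tr G U a b z → c a b z = f a z + f b z) ∧
    ∀ a ∈ U, ∀ z ∉ U, ∀ z' ∉ U, G.r a z → G.r a z' → G.r z z' → f a z = f a z'

def pull {G : Cx V} (m : Fc G → V) (c : V → V → V → ZMod 2) (s s' z : Fc G) : ZMod 2 :=
  c (m s) (m s') (m z)

/-- The edges inside `U` on which `F` is not zero. -/
def FE (G : Cx V) (U : Set V) (F : V → V → ZMod 2) (e : V × V) : Prop :=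
  e.1 ∈ U ∧ e.2 ∈ U ∧ G.r e.1 e.2 ∧ F e.1 e.2 ≠ 0

def FStep (G : Cx V) (U : Set V) (F : V → V → ZMod 2) (e e' : V × V) : Prop :=
  FE G U F e ∧ FE G U F e' ∧ ((e'.1 = e.1 ∧ G.r e.2 e'.2) ∨ e' = e.swap)

def ECon (G : Cx V) (U : Set V) (F : V → V → ZMod 2) : Prop :=
  ∀ e e', FE G U F e → FE G U F e' → Relation.ReflTransGen (FStep G U F) e e'

def chiF [Fintype V] (G : Cx V) (U : Set V) (F : V → V → ZMod 2) : ℤ :=
  ∑ s : Finset V, if Clq G s ∧ Ins s U ∧ ∃ a ∈ s, ∃ b ∈ s, F a b ≠ 0 then (-1) ^ s.card else 0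

/-- The simplices that the surface dual to `F` meets. -/
def ActF (G : Cx V) (U : Set V) (F : V → V → ZMod 2) : Set (Fc G) :=
  {s | ∃ a ∈ s.1, ∃ b ∈ s.1, a ∈ U ∧ b ∈ U ∧ F a b ≠ 0}

structure Disc [Fintype V] (G : Cx V) (U : Set V) (c : V → V → V → ZMod 2)
    (F : V → V → ZMod 2) : Prop where
  coc : Coc G U F
  bd : ∀ a b z, Tr G U a b z → F a b = c a b z
  conn : ECon G U F
  chi : chiF G U F = 1

/-- The curve bounds a disc after some subdivisions. -/
inductive HasDisc : ∀ {V : Type} [Fintype V] (G : Cx V), Set V → (V → V → V → ZMod 2) → Prop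
  | base {V : Type} [Fintype V] {G : Cx V} {U : Set V} {c : V → V → V → ZMod 2}
      (F : V → V → ZMod 2) : Disc G U c F → HasDisc G U c
  | step {V : Type} [Fintype V] {G : Cx V} {U : Set V} {c : V → V → V → ZMod 2}
      (m : Fc G → V) : Sel G U m → HasDisc (sd G) (up G U) (pull m c) → HasDisc G U c

/-- The connection is trivial along the curve. -/
def Strip {L : Type} [Group L] (G : Cx V) (U : Set V) (c : V → V → V → ZMod 2) (l : V → V → L) :
    Prop :=
  ∃ β : V → L, ∀ a b z, Tr G U a b z → c a b z ≠ 0 → l a b = (β a)⁻¹ * β b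

/-- A co-orientation of the surface dual to `F`: `o s a` is the side of the vertex `a` of `s`. -/
structure Coor (G : Cx V) (U : Set V) (F : V → V → ZMod 2) (o : Fc G → V → ZMod 2) : Prop where
  pot : ∀ s ∈ ActF G U F, ∀ a ∈ s.1, ∀ b ∈ s.1, a ∈ U → b ∈ U → F a b = o s a + o s b
  res : ∀ s ∈ ActF G U F, ∀ s', s ≤ s' → ∀ a ∈ s.1, a ∈ U → o s' a = o s a

/-- A double cover of the open star of `U` with deck transformation `τ`. -/
structure Cov (G' : Cx V') (G : Cx V) (U' : Set V') (U : Set V) (p : V' → V) (τ : V' → V') :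
    Prop where
  mem : ∀ x, p x ∈ U ↔ x ∈ U'
  map : ∀ x y, G'.r x y → G.r (p x) (p y)
  sur : ∀ u ∈ U, ∃ x, p x = u
  star : ∀ x ∈ U', StarIso G' G p x
  inv : ∀ x, τ (τ x) = x
  tmap : ∀ x y, G'.r x y → G'.r (τ x) (τ y)
  ptau : ∀ x, p (τ x) = p x
  fib : ∀ x ∈ U', ∀ y, p y = p x → y = x ∨ y = τ x
  free : ∀ x ∈ U', τ x ≠ x

/-- The curve `c'` is one of the two lifts of `c`. -/
structure Lift (G' : Cx V') (U' : Set V') (p : V' → V) (τ : V' → V')
    (c' : V' → V' → V' → ZMod 2) (c : V → V → V → ZMod 2) : Prop where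
  sum : ∀ a b z, Tr G' U' a b z → c (p a) (p b) (p z) = c' a b z + c' (τ a) (τ b) (τ z)
  disj : ∀ a b z b' z', Tr G' U' a b z → c' a b z ≠ 0 → Tr G' U' (τ a) b' z' → c' (τ a) b' z' = 0

/-- A map of a complex without first cohomology into `U` that contains the strip of `c`. -/
structure Fill {W : Type} (P : Cx W) (G : Cx V) (U : Set V) (c : V → V → V → ZMod 2)
    (f : W → V) (s : V → W) : Prop where
  h1 : H1 P Set.univ
  mem : ∀ w, f w ∈ U
  map : ∀ w w', P.r w w' → G.r (f w) (f w')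
  sec : ∀ a b z, Tr G U a b z → c a b z ≠ 0 → f (s a) = a ∧ f (s b) = b ∧ P.r (s a) (s b)

end KG
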