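import Pool.Agent.Work.MP_c146e2_gt.KG.Pull

set_option autoImplicit false

noncomputable section

open scoped Classical

namespace KG

variable {V V' : Type}

/-- The monodromy of a covering relation, as a flat connection. -/
theorem fille_eta {G : Cx V} {U : Set V} {W : Type} [Countable W] {en : W → V} {C : W → W → Prop}
    (hm : ∀ w, en w ∈ U) (hr : ∀ {x y}, C x y → G.r (en x) (en y)) (h1 : ∀ x, C x x)
    (h2 : ∀ {x y}, C x y → C y x) (h3 : ∀ {x y z}, C x y → C y z → G.r (en x) (en z) → C x z)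
    (h4 : ∀ x, ∀ b ∈ U, G.r (en x) b → ∃ y, en y = b ∧ C x y) :
    ∃ (η : V → V → Equiv.Perm ℕ) (E : W → ℕ), Flat G U η ∧
      (∀ x y, C x y → η (en x) (en y) (E y) = E x) ∧ ∀ x y, en x = en y → E x = E y → C x y := by
  let S : ∀ u, Setoid {w // en w = u} := fun u => ⟨fun x y => C x.1 y.1, fun x => h1 x.1, h2,
    fun {x _ z} a b => h3 a b (by rw [x.2, z.2]; exact G.refl u)⟩
  have l : ∀ {a b}, b ∈ U → G.r a b → ∀ x : {w // en w = a}, ∃ y : {w // en w = b}, C x.1 y.1 :=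
    fun hb h x => (h4 x.1 _ hb (x.2.symm ▸ h)).elim fun y hy => ⟨⟨y, hy.1⟩, hy.2⟩
  have t : ∀ {a b}, G.r a b → ∀ {x : {w // en w = a}} {y} {z : {w // en w = b}},
      C x.1 y → C y z.1 → C x.1 z.1 := fun {_ _} h x _ z a b => h3 a b (by rwa [x.2, z.2])
  have F : ∀ {a b}, b ∈ U → G.r a b → ∃ F : Quotient (S a) → Quotient (S b),
      ∀ x y, C x.1 y.1 → F ⟦x⟧ = ⟦y⟧ := fun hb h => by
    choose f hf using l hb h
    exact ⟨Quotient.map f fun x y e => t (G.refl _) (h2 (hf x)) (t h e (hf y)),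
      fun x y e => Quotient.sound (t (G.refl _) (h2 (hf x)) e)⟩
  have e : ∀ u, Quotient (S u) ⊕ ℕ ≃ ℕ := fun u => nonempty_equiv_of_countable.some
  have H : ∀ a b, ∃ η : Equiv.Perm ℕ, a ∈ U → b ∈ U → G.r a b →
      (∀ n, η (e b (.inr n)) = e a (.inr n)) ∧
        ∀ x y, C x.1 y.1 → η (e b (.inl ⟦y⟧)) = e a (.inl ⟦x⟧) := fun a b => by
    by_cases h : a ∈ U ∧ b ∈ U ∧ G.r a b
    · obtain ⟨ha, hb, h⟩ := h
      have h' := G.symm _ _ h
      obtain ⟨f, hf⟩ := F hb h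
      obtain ⟨g, hg⟩ := F ha h'
      let T : Quotient (S b) ≃ Quotient (S a) := ⟨g, f, Quotient.ind fun y =>
        (l ha h' y).elim fun x k => by rw [hg _ _ k, hf _ _ (h2 k)], Quotient.ind fun x =>
        (l hb h x).elim fun y k => by rw [hf _ _ k, hg _ _ (h2 k)]⟩
      exact ⟨(e b).symm.trans ((T.sumCongr (.refl ℕ)).trans (e a)), fun _ _ _ =>
        ⟨fun n => by simp, fun x y k => by simpa [T] using hg _ _ (h2 k)⟩⟩
    · exact ⟨1, fun a b c => absurd ⟨a, b, c⟩ h⟩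
  choose η hη using H
  refine ⟨η, fun w => e _ (.inl ⟦⟨w, rfl⟩⟧), fun a ha b hb c hc ab bc ac => Equiv.ext fun m => ?_,
    fun x y k => (hη _ _ (hm x) (hm y) (hr k)).2 _ _ k, fun x y k k' => ?_⟩
  · obtain ⟨z | n, rfl⟩ := (e c).surjective m
    · obtain ⟨z, rfl⟩ := z.exists_rep
      obtain ⟨y, hy⟩ := l hb (G.symm _ _ bc) z
      obtain ⟨x, hx⟩ := l ha (G.symm _ _ ab) y
      rw [Equiv.Perm.mul_apply, (hη _ _ hb hc bc).2 y z (h2 hy), (hη _ _ ha hb ab).2 x y (h2 hx),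
        (hη _ _ ha hc ac).2 x z (t ac (h2 hx) (h2 hy))]
    · rw [Equiv.Perm.mul_apply, (hη _ _ hb hc bc).1, (hη _ _ ha hb ab).1, (hη _ _ ha hc ac).1]
  · have : ∀ u (x : {w // en w = u}), e _ (.inl ⟦⟨x.1, rfl⟩⟧) = e u (.inl ⟦x⟧) := by
      rintro u ⟨w, rfl⟩
      rfl
    exact Quotient.exact (Sum.inl_injective ((e _).injective ((this _ ⟨x, k⟩).symm.trans k')))

/-- The end of a list read as a path from `u₀`; illegal steps are skipped. -/
def filleEn (G : Cx V) (U : Set V) (u₀ : V) : List V → V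
  | [] => u₀
  | u :: w => if u ∈ U ∧ G.r (filleEn G U u₀ w) u then u else filleEn G U u₀ w

/-- Lists are adjacent when their ends are. -/
def filleG (G : Cx V) (U : Set V) (u₀ : V) : Cx (List V) :=
  ⟨fun w w' => G.r (filleEn G U u₀ w) (filleEn G U u₀ w'), fun _ => G.refl _, fun _ _ => G.symm _ _⟩

/-- The edges of the tree of lists of bounded length. -/
def filleA (N : ℕ) (w w' : List V) : Prop := (∃ u, w = u :: w') ∧ w.length ≤ N

theorem fille_mem {G : Cx V} {U : Set V} {u₀ : V} (h : u₀ ∈ U) (w : List V) :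
    filleEn G U u₀ w ∈ U := by
  induction w with
  | nil => exact h
  | cons u w ih =>
    unfold filleEn
    split_ifs with k
    exacts [k.1, ih]

theorem fille_adj (G : Cx V) (U : Set V) (u₀ u : V) (w : List V) :
    (filleG G U u₀).r w (u :: w) := by
  change G.r _ (if _ then _ else _)
  split_ifs with k
  exacts [k.2, G.refl _]

theorem fille_h1 (Q : Cx (List V)) (N : ℕ) : H1 (⟨fun x y => Q.r x.1 y.1 ∧ Cl Q (filleA N) x.1 y.1,
    fun _ => ⟨Q.refl _, .refl _⟩, fun _ _ h => ⟨Q.symm _ _ h.1, h.2.symm⟩⟩ :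
      Cx {w : List V // w.length ≤ N}) Set.univ := by
  intro η hη
  let φ : List V → ZMod 2 := List.rec 0 fun u w r =>
    r + if h : (u :: w).length ≤ N then η ⟨_, h⟩ ⟨w, Nat.le_of_succ_le h⟩ else 0
  have z : ∀ a : ZMod 2, a + a = 0 := by decide
  have key : ∀ w w', Cl Q (filleA N) w w' → Q.r w w' → ∀ h h', η ⟨w, h⟩ ⟨w', h'⟩ = φ w + φ w' := by
    intro w w' k
    induction k with
    | @base a b k =>
      obtain ⟨⟨u, rfl⟩, -⟩ := k
      intro _ h _
      change _ = φ b + _ + _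
      rw [dif_pos h, add_right_comm, z, zero_add]
    | refl a => exact fun _ h _ => (hη.self trivial).trans (z _).symm
    | @symm a b k ih =>
      intro r h h'
      rw [add_comm, ← ih (Q.symm _ _ r) h' h]
      exact hη.symm trivial trivial ⟨Q.symm _ _ r, k⟩
    | @tri a b d ab bd ad k k' ih ih' =>
      intro _ h h'
      have hb : b.length ≤ N := (k.mem (S := {w | w.length ≤ N}) fun _ _ ⟨⟨_, e⟩, l⟩ =>
        ⟨l, Nat.le_of_succ_le (e ▸ l :)⟩).elim (· ▸ h) And.right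
      rw [← hη _ trivial ⟨b, hb⟩ trivial _ trivial ⟨ab, k⟩ ⟨bd, k'⟩ ⟨ad, .tri ab bd ad k k'⟩,
        ih ab, ih' bd, add_add_add_comm, add_comm (φ b), add_add_add_comm, z, add_zero]
  exact ⟨fun x => φ x.1, fun x _ y _ h => key _ _ h.2 h.1 _ _⟩

theorem exists_fill [Fintype V] {G : Cx V} {U : Set V} {c : V → V → V → ZMod 2} (hc : Curve G U c)
    {L : Type} [Group L] {l : V → V → L} (hl : Univ G U l) (hs : Strip G U c l) :
    ∃ (W : Type) (_ : Fintype W) (P : Cx W) (f : W → V) (s : V → W), Fill P G U c f s := by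
  obtain ⟨s₀, hs₀⟩ := hc.ne
  obtain ⟨u₀, m₀, -, -, -, -, h₀, -⟩ := id hs₀
  obtain ⟨β, hβ⟩ := hs
  set en := filleEn G U u₀
  let C : List V → List V → Prop := fun x y =>
    G.r (en x) (en y) ∧ ∀ᶠ N in Filter.atTop, Cl (filleG G U u₀) (filleA N) x y
  have c2 : ∀ {x y}, C x y → C y x := fun h => ⟨G.symm _ _ h.1, h.2.mono fun _ => .symm⟩
  have c3 : ∀ {x y z}, C x y → C y z → G.r (en x) (en z) → C x z := fun h h' k =>
    ⟨k, (h.2.and h'.2).mono fun _ a => .tri h.1 h'.1 k a.1 a.2⟩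
  have c4 : ∀ u w, C w (u :: w) := fun u w => ⟨fille_adj G U u₀ u w,
    (Filter.eventually_ge_atTop _).mono fun _ h => .symm (.base ⟨⟨u, rfl⟩, h⟩)⟩
  have c5 : ∀ {w b}, b ∈ U → G.r (en w) b → en (b :: w) = b := fun a b => if_pos ⟨a, b⟩
  have hm := fille_mem (G := G) h₀
  obtain ⟨η, E, e1, e2, e3⟩ := fille_eta hm And.left
    (fun x => ⟨G.refl _, .of_forall fun _ => .refl x⟩) c2 c3
    fun x b hb h => ⟨_, c5 hb h, c4 b x⟩
  obtain ⟨θ, γ, hθ⟩ := hl.2 _ η e1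
  let hol : List V → L := List.rec 1 fun u w r => r * l (en w) (en (u :: w))
  have k1 : ∀ w, θ (hol w) (γ (en w) (E w)) = γ u₀ (E []) := fun w => by
    induction w with
    | nil => exact congrFun (congrArg _ θ.map_one) _
    | cons u w ih =>
      rw [← ih, ← e2 _ _ (c4 u w), hθ _ (hm _) _ (hm _) (c4 u w).1]
      simp [hol, en]
  have k2 : ∀ x y, en x = en y → hol x = hol y → C x y := fun x y h h' => e3 x y h <|
    (γ (en x)).injective <| (θ (hol x)).injective <| by rw [k1, h, h', k1]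
  have k3 : ∀ {a b z w}, Tr G U a b z → c a b z ≠ 0 → en w = a ∧ hol w = (β u₀)⁻¹ * β a →
      en (b :: w) = b ∧ hol (b :: w) = (β u₀)⁻¹ * β b := fun {a b z w} t n h => by
    have := c5 t.2.1 (h.1 ▸ t.2.2.2.1)
    refine ⟨this, ?_⟩
    change hol w * l _ _ = _
    rw [this, h.1, h.2, hβ a b z t n, mul_assoc, mul_inv_cancel_left]
  have ts : ∀ {a b z}, Tr G U a b z → Tr G U b a z := fun ⟨a, b, c, d, e, f⟩ =>
    ⟨b, a, c, G.symm _ _ d, f, e⟩
  have k4 : ∀ a, ∃ w, ∀ b z, Tr G U a b z → c a b z ≠ 0 →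
      en w = a ∧ hol w = (β u₀)⁻¹ * β a := fun a => by
    by_cases h : ∃ b z, Tr G U a b z ∧ c a b z ≠ 0
    · obtain ⟨b, z, t, n⟩ := h
      have q : Clq G {a, b, z} := ⟨by simp, by
        simp [G.refl, t.2.2.2, G.symm _ _ t.2.2.2.1, G.symm _ _ t.2.2.2.2.1,
          G.symm _ _ t.2.2.2.2.2]⟩
      obtain ⟨w, hw⟩ := (hc.const (g := fun a => ∃ w, en w = a ∧ hol w = (β u₀)⁻¹ * β a)
        (fun a b z t n => propext ⟨fun ⟨_, h⟩ => ⟨_, k3 t n h⟩,
          fun ⟨_, h⟩ => ⟨_, k3 (ts t) (hc.symm t ▸ n) h⟩⟩) hs₀ (s' := ⟨_, q⟩)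
        ⟨a, by simp, b, by simp, z, by simp, t.1, t.2.1, t.2.2.1, n⟩ m₀ h₀ (by simp) t.1).mp
        ⟨[], rfl, (inv_mul_cancel _).symm⟩
      exact ⟨w, fun _ _ _ _ => hw⟩
    · exact ⟨[], fun b z t n => absurd ⟨b, z, t, n⟩ h⟩
  choose s hs using k4
  have k5 : ∀ a b z, Tr G U a b z → c a b z ≠ 0 → en (s b) = b ∧ C (s a) (s b) := fun a b z t n => by
    have h1 := hs a b z t n
    have h2 := hs b a z (ts t) (hc.symm t ▸ n)
    have h3 := k3 t n h1
    exact ⟨h2.1, c3 (c4 b _) (k2 _ _ (h3.1.trans h2.1.symm) (h3.2.trans h2.2.symm))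
      (by rw [h1.1, h2.1]; exact t.2.2.2.1)⟩
  obtain ⟨N, n1, n2⟩ : ∃ N, (∀ a, (s a).length ≤ N) ∧ ∀ a b, C (s a) (s b) →
      Cl (filleG G U u₀) (filleA N) (s a) (s b) := by
    refine Filter.Eventually.exists (f := Filter.atTop) (.and ?_ ?_)
    · exact Filter.eventually_all.2 fun a => Filter.eventually_ge_atTop _
    · simp only [Filter.eventually_all]
      exact fun a b h => h.2
  exact ⟨_, (List.finite_length_le V N).fintype, _, fun x => en x.1, fun a => ⟨s a, n1 a⟩,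
    fille_h1 (filleG G U u₀) N, fun w => hm _, fun _ _ h => h.1, fun a b z t n =>
      ⟨(hs a b z t n).1, (k5 a b z t n).1, (k5 a b z t n).2.1, n2 _ _ (k5 a b z t n).2⟩⟩

end KG
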