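import Pool.Agent.Work.MP_c146e2_gt.KG.Pull

set_option autoImplicit false

noncomputable section

open scoped Classical

namespace KG

variable {V V' : Type}

structure Res (G : Cx V) (U U' : Set V) (c c' : V → V → V → ZMod 2) : Prop where
  sub : U' ⊆ U
  val : ∀ a b z, Tr G U' a b z → c' a b z = if z ∈ U then 0 else c a b z
  ends : ∀ a b z, Tr G U a b z → c a b z ≠ 0 → a ∈ U' ∧ b ∈ U'

variable {G : Cx V} {U U' : Set V} {c c' : V → V → V → ZMod 2}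

theorem Res.mono_tr (h : Res G U U' c c') {a b z : V} (t : Tr G U' a b z) (hz : z ∉ U) :
    Tr G U a b z := ⟨h.sub t.1, h.sub t.2.1, hz, t.2.2.2⟩

theorem Res.mono_key (h : Res G U U' c c') (hc : Curve G U c) {a b z w : V} (t : Tr G U' a b z)
    (hz : z ∉ U) (hw : w ∈ U) (hw' : w ∉ U') (ha : G.r a w) (hb : G.r w b) (hwz : G.r w z) :
    c a b z = 0 := by
  have t1 : Tr G U a w z := ⟨h.sub t.1, hw, hz, ha, t.2.2.2.2.1, hwz⟩
  have t2 : Tr G U w b z := ⟨hw, h.sub t.2.1, hz, hb, hwz, t.2.2.2.2.2⟩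
  rw [← hc.coc a w b z t1 t2 t.2.2.2.1, of_not_not fun q => hw' (h.ends _ _ _ t1 q).2,
    of_not_not fun q => hw' (h.ends _ _ _ t2 q).1, add_zero]

theorem Res.mono_act (h : Res G U U' c c') : ActC G U' c' = ActC G U c := by
  ext s
  constructor
  · rintro ⟨a, ha, b, hb, z, hz, h1, h2, h3, h4⟩
    rw [h.val a b z ⟨h1, h2, h3, s.2.2 _ ha _ hb, s.2.2 _ ha _ hz, s.2.2 _ hb _ hz⟩] at h4
    split_ifs at h4 with q
    exacts [absurd rfl h4, ⟨a, ha, b, hb, z, hz, h.sub h1, h.sub h2, q, h4⟩]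
  · rintro ⟨a, ha, b, hb, z, hz, h1, h2, h3, h4⟩
    obtain ⟨k1, k2⟩ :=
      h.ends a b z ⟨h1, h2, h3, s.2.2 _ ha _ hb, s.2.2 _ ha _ hz, s.2.2 _ hb _ hz⟩ h4
    have k3 : z ∉ U' := fun q => h3 (h.sub q)
    refine ⟨a, ha, b, hb, z, hz, k1, k2, k3, ?_⟩
    rwa [h.val a b z ⟨k1, k2, k3, s.2.2 _ ha _ hb, s.2.2 _ ha _ hz, s.2.2 _ hb _ hz⟩, if_neg h3]

theorem Res.curve (h : Res G U U' c c') (hc : Curve G U c) : Curve G U' c' := by
  refine ⟨fun a b d z t1 t2 r => ?_, fun a b z z' t1 t2 r => ?_, h.mono_act ▸ hc.ne,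
    h.mono_act ▸ hc.conn⟩
  · rw [h.val _ _ _ t1, h.val _ _ _ t2,
      h.val a d z ⟨t1.1, t2.2.1, t1.2.2.1, r, t1.2.2.2.2.1, t2.2.2.2.2.2⟩]
    split_ifs with q
    exacts [add_zero _, hc.coc a b d z (h.mono_tr t1 q) (h.mono_tr t2 q) r]
  · rw [h.val _ _ _ t1, h.val _ _ _ t2]
    split_ifs with q q' q'
    · rfl
    · exact (h.mono_key hc t2 q' q t1.2.2.1 t1.2.2.2.2.1 (G.symm _ _ t1.2.2.2.2.2) r).symm
    · exact h.mono_key hc t1 q q' t2.2.2.1 t2.2.2.2.2.1 (G.symm _ _ t2.2.2.2.2.2) (G.symm _ _ r)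
    · exact hc.side a b z z' (h.mono_tr t1 q) (h.mono_tr t2 q') r

theorem Res.disc [Fintype V] (h : Res G U U' c c') {F : V → V → ZMod 2} (hd : Disc G U' c' F) :
    ∃ F', Disc G U c F' := by
  have Z : ∀ a b z, Tr G U' a b z → z ∈ U → F a b = 0 := fun a b z t q => by
    rw [hd.bd a b z t, h.val a b z t, if_pos q]
  have fe : FE G U (fun a b => if a ∈ U' ∧ b ∈ U' then F a b else 0) = FE G U' F := by
    ext e
    refine ⟨fun ⟨_, _, r, q⟩ => ?_, fun ⟨a, b, r, q⟩ => ⟨h.sub a, h.sub b, r, ?_⟩⟩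
    · beta_reduce at q
      split_ifs at q with w
      exacts [⟨w.1, w.2, r, q⟩, absurd rfl q]
    · beta_reduce
      rwa [if_pos ⟨a, b⟩]
  refine ⟨fun a b => if a ∈ U' ∧ b ∈ U' then F a b else 0, fun a ha b hb d hd' r1 r2 r3 => ?_,
    fun a b z t => ?_, ?_, ?_⟩
  · by_cases q1 : a ∈ U' <;> by_cases q2 : b ∈ U' <;> by_cases q3 : d ∈ U' <;>
      simp only [q1, q2, q3, and_self, and_true, and_false, if_true, if_false, add_zero, zero_add]
    · exact hd.coc a q1 b q2 d q3 r1 r2 r3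
    · exact Z a b d ⟨q1, q2, q3, r1, r3, r2⟩ hd'
    · exact (Z a d b ⟨q1, q3, q2, r3, r1, G.symm _ _ r2⟩ hb).symm
    · exact Z b d a ⟨q2, q3, q1, r2, G.symm _ _ r1, G.symm _ _ r3⟩ ha
  · beta_reduce
    split_ifs with q
    · have t' : Tr G U' a b z := ⟨q.1, q.2, fun w => t.2.2.1 (h.sub w), t.2.2.2⟩
      rw [hd.bd a b z t', h.val a b z t', if_neg t.2.2.1]
    · exact (of_not_not fun w => q (h.ends a b z t w)).symm
  · have := hd.conn
    unfold ECon FStep at this ⊢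
    rwa [fe]
  · rw [← hd.chi]
    refine Finset.sum_congr rfl fun s _ => if_congr (and_congr_right fun k => ?_) rfl rfl
    refine ⟨fun ⟨i, a, ha, b, hb, q⟩ => ?_, fun ⟨i, a, ha, b, hb, q⟩ =>
      ⟨fun x hx => h.sub (i x hx), a, ha, b, hb, ?_⟩⟩
    · beta_reduce at q
      split_ifs at q with w
      · exact ⟨fun x hx => of_not_not fun n => q (Z a b x
          ⟨w.1, w.2, n, k.2 _ ha _ hb, k.2 _ ha _ hx, k.2 _ hb _ hx⟩ (i x hx)), a, ha, b, hb, q⟩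
      · exact absurd rfl q
    · beta_reduce
      rwa [if_pos ⟨i a ha, i b hb⟩]

theorem Res.sd (h : Res G U U' c c') (hc : Curve G U c) {m' : Fc G → V} (hm : Sel G U' m') :
    ∃ m, Sel G U m ∧ Res (sd G) (up G U) (up G U') (pull m c) (pull m' c') := by
  have : ∀ s : Fc G, ∃ x, (x ∈ s.1 ∧ (Meets s.1 U → x ∈ U)) ∧
      (Meets s.1 U' ∨ ¬ Meets s.1 U → x = m' s) := fun s => by
    by_cases q : Meets s.1 U' ∨ ¬ Meets s.1 U
    · exact ⟨m' s, ⟨(hm s).1, fun w => h.sub ((hm s).2 (q.resolve_right fun n => n w))⟩,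
        fun _ => rfl⟩
    · obtain ⟨x, h1, h2⟩ := of_not_not (not_or.1 q).2
      exact ⟨x, ⟨h1, fun _ => h2⟩, fun w => absurd w q⟩
  choose m h1 h2 using this
  refine ⟨m, h1, fun s ⟨x, a, b⟩ => ⟨x, a, h.sub b⟩, fun s s' z t => ?_, fun s s' z t q => ?_⟩
  · obtain ⟨t', l1, l2⟩ := hm.tr t
    unfold pull
    rw [h.val _ _ _ t']
    by_cases q : z ∈ up G U
    · rw [if_pos q]
      split_ifs with w
      · rfl
      · obtain ⟨x, a, b⟩ := q
        exact h.mono_key hc t' w b (fun n => t.2.2.1 ⟨x, a, n⟩) (s.2.2 _ (hm s).1 _ (l1 a))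
          (s'.2.2 _ (l2 a) _ (hm s').1) (z.2.2 _ a _ (hm z).1)
    · rw [if_neg q, if_neg fun w => q ⟨_, (hm z).1, w⟩, h2 s (Or.inl t.1), h2 s' (Or.inl t.2.1),
        h2 z (Or.inr q)]
  · obtain ⟨a, b⟩ := h.ends _ _ _ (Sel.tr h1 t).1 q
    exact ⟨⟨_, (h1 s).1, a⟩, _, (h1 s').1, b⟩

theorem mono_aux {V : Type} [Fintype V] {G : Cx V} {U' : Set V} {c' : V → V → V → ZMod 2}
    (hd : HasDisc G U' c') : ∀ (U : Set V) (c : V → V → V → ZMod 2), Res G U U' c c' →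
      Curve G U c → HasDisc G U c := by
  induction hd with
  | base F hF =>
    intro U c h _
    obtain ⟨F', h'⟩ := h.disc hF
    exact .base F' h'
  | step m' hm _ ih =>
    intro U c h hc
    obtain ⟨m, h1, h2⟩ := h.sd hc hm
    exact .step m h1 (ih _ _ h2 (hc.pull h1))

theorem Res.hasDisc [Fintype V] (h : Res G U U' c c') (hc : Curve G U c) (hd : HasDisc G U' c') :
    HasDisc G U c := mono_aux hd U c h hc

end KG
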