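import Pool.Agent.Work.MP_c146e2_gt.KG.ManS
import Pool.Agent.Work.MP_c146e2_gt.KG.XS
import Pool.Agent.Work.MP_c146e2_gt.KG.CT

set_option autoImplicit false

noncomputable section

open scoped Classical

namespace KG

variable {V V' : Type}

theorem mand_r {G : Cx V} {L X : Set V} {x y : V × Bool} (hx : x ∈ dbV L X) :
    (Db G L X).r x y ↔ y ∈ dbV L X ∧ G.r x.1 y.1 ∧ (x.1 ∈ L → y.1 ∈ L → x.2 = y.2) :=
  ⟨fun h => h.elim (fun e => e ▸ ⟨hx, G.refl _, fun _ _ => rfl⟩) fun h => h.2,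
    fun h => Or.inr ⟨hx, h⟩⟩

theorem mand_snd {L X : Set V} {x : V × Bool} (hx : x ∈ dbV L X) (h : x.1 ∉ L) :
    x.1 ∈ X ∧ x.2 = false := hx.resolve_left h

theorem mand_star [Fintype V] {G : Cx V} {L X : Set V} (h : Sided G L X) {x : V × Bool}
    (hx : x.1 ∈ L) : StarIso (Db G L X) G Prod.fst x := by
  have hw : x ∈ dbV L X := Or.inl hx
  refine ⟨fun y z hy hz e => ?_, fun y z hy hz => ?_, fun b hb => ?_⟩
  · obtain ⟨y1, -, y3⟩ := (mand_r hw).1 hy
    obtain ⟨z1, -, z3⟩ := (mand_r hw).1 hz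
    refine Prod.ext e ?_
    by_cases hL : y.1 ∈ L
    · rw [← y3 hx hL, z3 hx (e ▸ hL)]
    · rw [(mand_snd y1 hL).2, (mand_snd z1 (e ▸ hL)).2]
  · obtain ⟨y1, -, y3⟩ := (mand_r hw).1 hy
    obtain ⟨z1, -, z3⟩ := (mand_r hw).1 hz
    rw [mand_r y1]
    exact ⟨fun a => a.2.1, fun a => ⟨z1, a, fun b c => (y3 hx b).symm.trans (z3 hx c)⟩⟩
  · by_cases hL : b ∈ L
    · exact ⟨(b, x.2), (mand_r hw).2 ⟨Or.inl hL, hb, fun _ _ => rfl⟩, rfl⟩
    · exact ⟨(b, false), (mand_r hw).2 ⟨Or.inr ⟨(h.nb _ hx b hb).resolve_left hL, rfl⟩, hb,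
        fun _ c => (hL c).elim⟩, rfl⟩

/-- One sheet of the double over `T`. -/
def mandSh (L X T : Set V) (i : Bool) : Set (V × Bool) :=
  {w | w ∈ dbV L X ∧ w.1 ∈ T ∧ (w.1 ∈ L → w.2 = i)}

theorem mand_bij (L X T : Set V) (i : Bool) :
    Set.BijOn Prod.fst (mandSh L X T i) (T ∩ (L ∪ X)) := by
  refine ⟨fun w hw => ⟨hw.2.1, hw.1.imp id And.left⟩, fun y hy z hz e => Prod.ext e ?_,
    fun b hb => ?_⟩
  · by_cases hL : y.1 ∈ L
    · rw [hy.2.2 hL, hz.2.2 (e ▸ hL)]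
    · rw [(mand_snd hy.1 hL).2, (mand_snd hz.1 (e ▸ hL)).2]
  · by_cases hL : b ∈ L
    · exact ⟨(b, i), ⟨Or.inl hL, hb.1, fun _ => rfl⟩, rfl⟩
    · exact ⟨(b, false), ⟨Or.inr ⟨hb.2.resolve_left hL, rfl⟩, hb.1, fun c => (hL c).elim⟩, rfl⟩

theorem mand_adj (G : Cx V) (L X T : Set V) (i : Bool) : ∀ a ∈ mandSh L X T i,
    ∀ b ∈ mandSh L X T i, (Db G L X).r a b ↔ G.r a.1 b.1 := fun a ha b hb => by
  rw [mand_r ha.1]
  exact ⟨fun c => c.2.1, fun c => ⟨hb.1, c, fun d e => (ha.2.2 d).trans (hb.2.2 e).symm⟩⟩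

theorem mand_union (L X T : Set V) :
    mandSh L X T false ∪ mandSh L X T true = {w | w ∈ dbV L X ∧ w.1 ∈ T} := by
  refine Set.Subset.antisymm (fun w hw => hw.elim (fun a => ⟨a.1, a.2.1⟩) fun a => ⟨a.1, a.2.1⟩)
    fun w hw => ?_
  rcases Bool.eq_false_or_eq_true w.2 with e | e
  · exact Or.inr ⟨hw.1, hw.2, fun _ => e⟩
  · exact Or.inl ⟨hw.1, hw.2, fun _ => e⟩

theorem mand_bij0 {L X : Set V} (hd : Disjoint L X) (T : Set V) :
    Set.BijOn Prod.fst (mandSh L X T false ∩ mandSh L X T true) (T ∩ X) := by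
  refine ⟨fun w hw => ⟨hw.1.2.1, (mand_snd hw.1.1 fun c => ?_).1⟩,
    (mand_bij L X T false).injOn.mono Set.inter_subset_left, fun b hb => ?_⟩
  · exact Bool.false_ne_true ((hw.1.2.2 c).symm.trans (hw.2.2.2 c))
  · have hL : b ∉ L := Set.disjoint_right.1 hd hb.2
    exact ⟨(b, false), ⟨⟨Or.inr ⟨hb.2, rfl⟩, hb.1, fun c => (hL c).elim⟩,
      Or.inr ⟨hb.2, rfl⟩, hb.1, fun c => (hL c).elim⟩, rfl⟩

theorem mand_chi [Fintype V] (G : Cx V) {L X : Set V} (hd : Disjoint L X) (T : Set V) :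
    chi (Db G L X) {w | w ∈ dbV L X ∧ w.1 ∈ T} = 2 * chi G (T ∩ (L ∪ X)) - chi G (T ∩ X) := by
  have h1 := chi_union (G := Db G L X) (A := mandSh L X T false) (B := mandSh L X T true)
    fun s hs hi => by
      by_contra hn
      rw [not_or] at hn
      obtain ⟨a, ha⟩ := not_forall.1 hn.1
      obtain ⟨b, hb⟩ := not_forall.1 hn.2
      rw [Classical.not_imp] at ha hb
      have a1 := (hi a ha.1).resolve_left ha.2
      have b1 := (hi b hb.1).resolve_right hb.2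
      have a2 : a.1 ∈ L := by_contra fun c => ha.2 ⟨a1.1, a1.2.1, fun d => (c d).elim⟩
      have b2 : b.1 ∈ L := by_contra fun c => hb.2 ⟨b1.1, b1.2.1, fun d => (c d).elim⟩
      have e := ((mand_r a1.1).1 (hs.2 a ha.1 b hb.1)).2.2 a2 b2
      rw [a1.2.2 a2, b1.2.2 b2] at e
      exact Bool.false_ne_true e.symm
  rw [mand_union, chi_iso (mand_bij L X T false) (mand_adj G L X T false),
    chi_iso (mand_bij L X T true) (mand_adj G L X T true),
    chi_iso (mand_bij0 hd T) fun a ha b hb => mand_adj G L X T false a ha.1 b hb.1] at h1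
  omega

theorem mand_clq {G : Cx V} {L X : Set V} {s : Finset (V × Bool)}
    (hs : Clq (Db G L X) s) (hm : Meets s (dbV L X)) (hn : ¬ Meets s {x | x.1 ∈ L}) :
    Clq G (s.image Prod.fst) ∧ Ins (s.image Prod.fst) X ∧ (s.image Prod.fst).card = s.card ∧
      lk (Db G L X) s = {w | w ∈ dbV L X ∧ w.1 ∈ lk G (s.image Prod.fst)} := by
  obtain ⟨x, hx, hw⟩ := hm
  have h1 : ∀ a ∈ s, a ∈ dbV L X := fun a ha => ((mand_r hw).1 (hs.2 x hx a ha)).1
  have h2 : ∀ a ∈ s, a.1 ∉ L := fun a ha c => hn ⟨a, ha, c⟩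
  have h3 : ∀ a ∈ s, a.1 ∈ X ∧ a.2 = false := fun a ha => mand_snd (h1 a ha) (h2 a ha)
  refine ⟨⟨hs.1.image _, fun a ha b hb => ?_⟩, fun a ha => ?_,
    Finset.card_image_of_injOn fun a ha b hb e => Prod.ext e ((h3 a ha).2.trans (h3 b hb).2.symm),
    Set.ext fun w => ⟨fun hl => ?_, fun hl => ⟨fun c => hl.2.1 (Finset.mem_image_of_mem _ c),
      fun a ha => (mand_r hl.1).2 ⟨h1 a ha, hl.2.2 _ (Finset.mem_image_of_mem _ ha),
        fun _ c => (h2 a ha c).elim⟩⟩⟩⟩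
  · obtain ⟨a', ha', rfl⟩ := Finset.mem_image.1 ha
    obtain ⟨b', hb', rfl⟩ := Finset.mem_image.1 hb
    exact ((mand_r (h1 a' ha')).1 (hs.2 a' ha' b' hb')).2.1
  · obtain ⟨a', ha', rfl⟩ := Finset.mem_image.1 ha
    exact (h3 a' ha').1
  · have h4 : w ∈ dbV L X := ((mand_r hw).1 ((Db G L X).symm _ _ (hl.2 x hx))).1
    refine ⟨h4, fun c => ?_, fun a ha => ?_⟩
    · obtain ⟨a, ha, e⟩ := Finset.mem_image.1 c
      have e' : a = w := Prod.ext e ((h3 a ha).2.trans (mand_snd h4 (e ▸ h2 a ha)).2.symm)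
      exact hl.1 (e' ▸ ha)
    · obtain ⟨a', ha', rfl⟩ := Finset.mem_image.1 ha
      exact ((mand_r h4).1 (hl.2 a' ha')).2.1

theorem Sided.db [Fintype V] {G : Cx V} {L X : Set V} (h : Sided G L X) :
    Man (Db G L X) (dbV L X) := by
  have hL : Man (Db G L X) {x | x.1 ∈ L} :=
    man_pull (U := L) (fun x hx => ⟨hx, mand_star h hx⟩) h.man
  refine ⟨⟨fun s hs hm => ?_, fun s hs hm hc => ?_, fun s hs hm hc => ?_⟩, fun v hv => ?_⟩
  · by_cases hn : Meets s {x | x.1 ∈ L}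
    · exact hL.dim s hs hn
    · obtain ⟨a1, a2, a3, -⟩ := mand_clq hs hm hn
      have := h.dim _ a1 a2
      omega
  · by_cases hn : Meets s {x | x.1 ∈ L}
    · exact hL.tri s hs hn hc
    obtain ⟨a1, a2, a3, a4⟩ := mand_clq hs hm hn
    obtain ⟨l, hl⟩ := Set.ncard_eq_one.1 (h.tri _ a1 a2 (a3.trans hc))
    have hl' : l ∈ lk G (s.image Prod.fst) ∩ L := hl ▸ Set.mem_singleton l
    rw [a4, Set.ncard_eq_two]
    refine ⟨(l, false), (l, true), by simp, Set.Subset.antisymm (fun w hw => ?_) fun w hw => ?_⟩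
    · have h1 : w.1 ∈ L := by
        by_contra c
        have := h.dim _ (xs_clq_insert a1 hw.2) fun a ha =>
          (Finset.mem_insert.1 ha).elim (fun e => e ▸ (mand_snd hw.1 c).1) (a2 a)
        rw [Finset.card_insert_of_notMem hw.2.1] at this
        omega
      have h2 : w.1 ∈ ({l} : Set V) := hl ▸ ⟨hw.2, h1⟩
      rcases Bool.eq_false_or_eq_true w.2 with e | e
      · exact Or.inr (Prod.ext h2 e)
      · exact Or.inl (Prod.ext h2 e)
    · rcases hw with rfl | rfl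
      · exact ⟨Or.inl hl'.2, hl'.1⟩
      · exact ⟨Or.inl hl'.2, hl'.1⟩
  · by_cases hn : Meets s {x | x.1 ∈ L}
    · exact hL.con s hs hn hc
    obtain ⟨a1, a2, a3, a4⟩ := mand_clq hs hm hn
    obtain ⟨⟨x, hx⟩, hc⟩ := h.con _ a1 a2 (a3 ▸ hc)
    obtain ⟨y, hy, -⟩ := (mand_bij0 h.disj _).surjOn hx
    rw [a4, ← mand_union]
    exact ⟨⟨y, Or.inl hy.1⟩, ((conn_iso (mand_bij L X _ false) (mand_adj G L X _ false)).2 hc).union
      ((conn_iso (mand_bij L X _ true) (mand_adj G L X _ true)).2 hc) hy.1 hy.2 (Or.inl rfl)⟩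
  · by_cases hn : v.1 ∈ L
    · exact hL.sph v hn
    obtain ⟨-, -, -, a4⟩ := mand_clq (clq_single (Db G L X) v)
      ⟨v, Finset.mem_singleton_self v, hv⟩ fun ⟨a, ha, c⟩ => hn (Finset.mem_singleton.1 ha ▸ c)
    rw [a4, mand_chi G h.disj, Finset.image_singleton]
    exact h.sph _ (mand_snd hv hn).1

/-- The part of a simplex that lies in `U`. -/
def mandCap (G : Cx V) (U : Set V) (z : Fc G) : Fc G :=
  if h : Meets z.1 U then ⟨z.1.filter (· ∈ U), xs_clq_sub z.2 (Finset.filter_subset _ _)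
    (h.imp fun _ ha => Finset.mem_filter.2 ha)⟩ else z

theorem mand_cap {G : Cx V} {U : Set V} {z : Fc G} (h : Meets z.1 U) {a : V} :
    a ∈ (mandCap G U z).1 ↔ a ∈ z.1 ∧ a ∈ U := by
  have e : (mandCap G U z).1 = z.1.filter (· ∈ U) := congrArg Subtype.val (dif_pos h)
  rw [e]
  exact Finset.mem_filter

theorem mand_lkL {G : Cx V} {U : Set V} {s : Finset (Fc G)} (hi : Ins s (Xs G U)) {b : Fc G}
    (hb : b ∈ s) (hm : ∀ x ∈ s, b ≤ x) {z : Fc G} :
    z ∈ lk (sd G) s ∩ dn G U ↔ z.1 ⊆ b.1 ∧ Ins z.1 U := by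
  refine ⟨fun hz => ⟨(hz.1.2 b hb).resolve_right fun c => ?_, hz.2⟩, fun hz => ⟨⟨fun c => ?_,
    fun a ha => Or.inl ((Fc.le_iff.2 hz.1).trans (hm a ha))⟩, hz.2⟩⟩
  · obtain ⟨a, ha, hU⟩ := (hi b hb).2
    exact hU (hz.2 a (c ha))
  · obtain ⟨a, ha, hU⟩ := (hi z c).2
    exact hU (hz.2 a ha)

theorem mand_cyc [Fintype V] {G : Cx V} {S : Set V} (h : Surf G S) {x : V} (hx : x ∈ S) :
    chi G (lk G {x} ∩ S) = 0 := by
  refine chi_cycle (fun s hs hi => ?_) fun v hv => ?_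
  · have h1 : x ∈ lk G s := ⟨fun c => (hi x c).1.1 (Finset.mem_singleton_self x), fun a ha =>
      G.symm _ _ ((hi a ha).1.2 x (Finset.mem_singleton_self x))⟩
    have := h.dim _ (xs_clq_insert hs h1) fun a ha =>
      (Finset.mem_insert.1 ha).elim (fun e => e ▸ hx) fun c => (hi a c).2
    rw [Finset.card_insert_of_notMem h1.1] at this
    omega
  · have h1 : v ≠ x := fun e => hv.1.1 (Finset.mem_singleton.2 e)
    have e : lk G {v} ∩ (lk G {x} ∩ S) = lk G {v, x} ∩ S := by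
      ext w
      simp only [lk, Set.mem_inter_iff, Set.mem_ofPred_eq, Finset.mem_insert, Finset.mem_singleton,
        forall_eq_or_imp, forall_eq, not_or]
      tauto
    rw [e]
    exact h.edg _ (clq_pair (hv.1.2 x (Finset.mem_singleton_self x))) (fun a ha =>
      (Finset.mem_insert.1 ha).elim (fun e => e ▸ hv.2) fun c => Finset.mem_singleton.1 c ▸ hx)
      (Finset.card_pair h1)

theorem mand_one [Fintype V] {G : Cx V} {U : Set V} {x : Fc G} (hx : x ∈ Xs G U) :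
    chi (sd G) (lk (sd G) {x} ∩ up G U) = 1 := by
  have e : lk (sd G) {x} ∩ up G U = {z | z < x ∧ Meets z.1 U} ∪ {z | x < z} := by
    ext z
    constructor
    · rintro ⟨h1, h2⟩
      exact (mano_lk1.1 h1).imp (fun c => ⟨c, h2⟩) id
    · rintro (c | c)
      · exact ⟨mano_lk1.2 (Or.inl c.1), c.2⟩
      · exact ⟨mano_lk1.2 (Or.inr c), xs_meets_mono hx.1 (Fc.le_iff.1 (le_of_lt c))⟩
  have h1 : chi (sd G) {z | z < x ∧ Meets z.1 U} = chi (sd G) {z | z.1 ⊆ x.1 ∧ Ins z.1 U} := by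
    refine chi_defl (mandCap G U) (fun z hz => ⟨lt_of_le_of_ne (Fc.le_iff.2 hz.1) fun c => ?_,
      z.2.1.imp fun a ha => ⟨ha, hz.2 a ha⟩⟩) (fun z hz => ⟨fun a ha => ?_, fun a ha => ?_⟩)
      (fun z hz => Fc.le_iff.2 fun a ha => ((mand_cap hz.2).1 ha).1) (fun z hz => ?_)
      fun z hz y hy c => Fc.le_iff.2 fun a ha => ?_
    · obtain ⟨a, ha, hU⟩ := hx.2
      exact hU (hz.2 a (c ▸ ha))
    · exact Fc.le_iff.1 hz.1.le ((mand_cap hz.2).1 ha).1
    · exact ((mand_cap hz.2).1 ha).2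
    · refine Subtype.ext (Finset.ext fun a => ?_)
      rw [mand_cap (z.2.1.imp fun a ha => ⟨ha, hz.2 a ha⟩)]
      exact ⟨And.left, fun c => ⟨c, hz.2 a c⟩⟩
    · exact (mand_cap hy.2).2 (((mand_cap hz.2).1 ha).imp_left fun d => Fc.le_iff.1 c d)
  have h2 : chi (sd G) {z | z.1 ⊆ x.1 ∧ Ins z.1 U} = 1 :=
    chi_cone (c := mandCap G U x)
      ⟨fun a ha => ((mand_cap hx.1).1 ha).1, fun a ha => ((mand_cap hx.1).1 ha).2⟩
      fun z hz => xs_r_of_sub fun a ha => (mand_cap hx.1).2 ⟨hz.1 ha, hz.2 a ha⟩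
  have h3 := chi_join (G := sd G) (A := {z | z < x ∧ Meets z.1 U}) (B := {z | x < z})
    (Set.disjoint_left.2 fun z a b => lt_asymm a.1 b) fun a ha b hb => Or.inl (ha.1.trans hb).le
  rw [h1, h2, ← e] at h3
  omega

theorem sided_sd [Fintype V] {G : Cx V} {U : Set V} (h : Man G U) :
    Sided (sd G) (dn G U) (Xs G U) := by
  have hS := surf_xs h.toPMan
  refine ⟨dn_xs_disj G U, fun l hl y hy => ?_,
    h.sd.mono fun s hs => s.2.1.imp fun a ha => ⟨ha, hs a ha⟩, hS.dim, fun s hs hi hc => ?_,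
    fun s hs hi hc => ⟨?_, ?_⟩, fun x hx => ?_⟩
  · rcases hy with c | c
    · rw [dn_union_xs]
      exact l.2.1.imp fun a ha => ⟨c ha, hl a ha⟩
    · exact Or.inl fun a ha => hl a (c ha)
  · obtain ⟨b, hb, hm⟩ := exists_bot (P := Fc G) ⟨s, hs⟩
    have h2 : b.1.card = 2 := by
      by_contra c
      have h3 : s.card ≤ ({3, 4} : Finset ℕ).card := by
        refine Finset.card_le_card_of_injOn (fun x => x.1.card) (fun x hx => ?_)
          fun x hx y hy e => xs_eq_of_card (hs.2 x hx y hy) e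
        have a1 := xs_card h.toPMan (hi x hx)
        have a2 := xs_card h.toPMan (hi b hb)
        have a3 := Finset.card_le_card (Fc.le_iff.1 (hm x hx))
        simp only [Finset.coe_insert, Finset.coe_singleton, Set.mem_insert_iff,
          Set.mem_singleton_iff]
        omega
      rw [hc] at h3
      simp at h3
    obtain ⟨p, hp, q, hq, e⟩ := xs_pair h2 (hi b hb).1 (hi b hb).2
    refine Set.ncard_eq_one.2 ⟨⟨{p}, clq_single G p⟩, Set.ext fun z => ?_⟩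
    rw [mand_lkL hi hb hm, e]
    constructor
    · rintro ⟨a1, a2⟩
      refine Subtype.ext (Finset.eq_singleton_iff_nonempty_unique_mem.2 ⟨z.2.1, fun a ha => ?_⟩)
      exact (Finset.mem_insert.1 (a1 ha)).resolve_right fun c =>
        hq (Finset.mem_singleton.1 c ▸ a2 a ha)
    · rintro rfl
      exact ⟨Finset.singleton_subset_iff.2 (Finset.mem_insert_self _ _),
        fun a ha => Finset.mem_singleton.1 ha ▸ hp⟩
  · have := hs.1.card_pos
    rcases (show s.card = 1 ∨ s.card = 2 by omega) with c | c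
    · obtain ⟨v, rfl⟩ := Finset.card_eq_one.1 c
      exact (hS.vtx v (hi v (Finset.mem_singleton_self v))).1
    · exact Set.nonempty_of_ncard_ne_zero ((hS.edg s hs hi c).trans_ne two_ne_zero)
  · obtain ⟨b, hb, hm⟩ := exists_bot (P := Fc G) ⟨s, hs⟩
    have hb' := (hi b hb).1
    have m : ∀ z : Fc G, z.1 ⊆ b.1 ∧ Ins z.1 U → z ∈ lk (sd G) s ∩ (dn G U ∪ Xs G U) :=
      fun z hz => ((mand_lkL hi hb hm).2 hz).imp_right Or.inl
    have ht := m (mandCap G U b)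
      ⟨fun a ha => ((mand_cap hb').1 ha).1, fun a ha => ((mand_cap hb').1 ha).2⟩
    refine conn_of_base (mandCap G U b) fun z hz => ?_
    have hz' : Meets z.1 U := by
      have := hz.2
      rwa [dn_union_xs] at this
    rcases hz.1.2 b hb with c | c
    · have hr := m (mandCap G U z)
        ⟨fun a ha => c ((mand_cap hz').1 ha).1, fun a ha => ((mand_cap hz').1 ha).2⟩
      exact (rch_step hz hr (xs_r_of_sup fun a ha => ((mand_cap hz').1 ha).1)).trans
        (rch_step hr ht (xs_r_of_sub fun a ha =>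
          (mand_cap hb').2 (((mand_cap hz').1 ha).imp_left fun d => c d)))
    · exact rch_step hz ht (xs_r_of_sup fun a ha => c ((mand_cap hb').1 ha).1)
  · rw [dn_union_xs, mand_one hx, mand_cyc hS hx]
    rfl

theorem Man.dd [Fintype V] {G : Cx V} {U : Set V} (h : Man G U) : Man (DD G U) (ddV G U) :=
  (sided_sd h).db

end KG
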