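import Pool.Agent.Work.MP_c146e2_gt.KG.CT

set_option autoImplicit false

noncomputable section

open scoped Classical

namespace KG

variable {V V' : Type}

variable {G : Cx V} {U : Set V} {c : V → V → V → ZMod 2}

theorem pull_le {s z : Fc G} (hs : s ∈ up G U) (hz : z ∉ up G U) (h : (sd G).r s z) : z ≤ s := by
  refine Or.resolve_left h fun e => hz ?_
  obtain ⟨a, ha, h1⟩ := hs
  exact ⟨a, e ha, h1⟩

theorem pull_r {m : Fc G → V} (hm : Sel G U m) {s t : Fc G} (h : (sd G).r s t) :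
    G.r (m s) (m t) := by
  rcases h with h | h
  · exact t.2.2 _ (h (hm s).1) _ (hm t).1
  · exact s.2.2 _ (hm s).1 _ (h (hm t).1)

theorem pull_tr {s : Fc G} {a b z : V} (ha : a ∈ s.1) (hb : b ∈ s.1) (hz : z ∈ s.1) (h1 : a ∈ U)
    (h2 : b ∈ U) (h3 : z ∉ U) : Tr G U a b z :=
  ⟨h1, h2, h3, s.2.2 _ ha _ hb, s.2.2 _ ha _ hz, s.2.2 _ hb _ hz⟩

theorem pull_tri {a b z : V} (h1 : G.r a b) (h2 : G.r a z) (h3 : G.r b z) :
    ∃ D : Fc G, a ∈ D.1 ∧ b ∈ D.1 ∧ z ∈ D.1 ∧ ∀ v ∈ D.1, v = a ∨ v = b ∨ v = z := by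
  refine ⟨⟨{a, b, z}, Finset.insert_nonempty _ _, fun x hx y hy => ?_⟩, by simp, by simp, by simp,
    fun v hv => by simpa using hv⟩
  simp only [Finset.mem_insert, Finset.mem_singleton] at hx hy
  rcases hx with rfl | rfl | rfl <;> rcases hy with rfl | rfl | rfl <;>
    first | exact G.refl _ | assumption | exact G.symm _ _ (by assumption)

theorem Sel.tr {m : Fc G → V} (hm : Sel G U m) {s s' z : Fc G} (h : Tr (sd G) (up G U) s s' z) :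
    Tr G U (m s) (m s') (m z) ∧ z ≤ s ∧ z ≤ s' := by
  obtain ⟨h1, h2, h3, h4, h5, h6⟩ := h
  have a1 := pull_le h1 h3 h5
  have a2 := pull_le h2 h3 h6
  exact ⟨⟨(hm s).2 h1, (hm s').2 h2, fun e => h3 ⟨_, (hm z).1, e⟩, pull_r hm h4, pull_r hm h5,
    pull_r hm h6⟩, a1, a2⟩

theorem Curve.self (hc : Curve G U c) {a z : V} (ha : a ∈ U) (hz : z ∉ U) (h : G.r a z) :
    c a a z = 0 := by
  have t : Tr G U a a z := ⟨ha, ha, hz, G.refl a, h, h⟩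
  exact add_eq_left.1 (hc.coc a a a z t t (G.refl a))

theorem Curve.symm (hc : Curve G U c) {a b z : V} (h : Tr G U a b z) : c b a z = c a b z := by
  obtain ⟨h1, h2, h3, h4, h5, h6⟩ := h
  have e := hc.coc a b a z ⟨h1, h2, h3, h4, h5, h6⟩ ⟨h2, h1, h3, G.symm _ _ h4, h6, h5⟩ (G.refl a)
  rw [hc.self h1 h3 h5] at e
  rw [eq_neg_of_add_eq_zero_right e, ZMod.neg_eq_self_mod_two]

/-- In an active simplex every vertex of `U` is the end of an active edge. -/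
theorem Curve.ends (hc : Curve G U c) {s : Fc G} (hs : s ∈ ActC G U c) {x z : V} (hx : x ∈ s.1)
    (hU : x ∈ U) (hz : z ∈ s.1) (hzU : z ∉ U) : ∃ y ∈ s.1, y ∈ U ∧ c x y z ≠ 0 := by
  obtain ⟨a, ha, b, hb, w, hw, h1, h2, h3, h4⟩ := hs
  rw [hc.side a b w z (pull_tr ha hb hw h1 h2 h3) (pull_tr ha hb hz h1 h2 hzU) (s.2.2 _ hw _ hz),
    ← hc.coc a x b z (pull_tr ha hx hz h1 hU hzU) (pull_tr hx hb hz hU h2 hzU) (s.2.2 _ ha _ hb),
    ← hc.symm (pull_tr ha hx hz h1 hU hzU)] at h4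
  by_cases e : c x a z = 0
  · rw [e, zero_add] at h4
    exact ⟨b, hb, h2, h4⟩
  · exact ⟨a, ha, h1, e⟩

/-- A function that is constant along active edges is constant on their ends. -/
theorem Curve.const (hc : Curve G U c) {α : Type} {g : V → α}
    (hg : ∀ a b z, Tr G U a b z → c a b z ≠ 0 → g a = g b) {s s' : Fc G} (hs : s ∈ ActC G U c)
    (hs' : s' ∈ ActC G U c) {x x' : V} (hx : x ∈ s.1) (hU : x ∈ U) (hx' : x' ∈ s'.1)
    (hU' : x' ∈ U) : g x = g x' := by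
  have loc : ∀ t ∈ ActC G U c, ∀ u ∈ t.1, u ∈ U → ∀ v ∈ t.1, v ∈ U → g u = g v := by
    intro t ht u hu hu' v hv hv'
    obtain ⟨-, -, -, -, z, hz, -, -, hz', -⟩ := id ht
    by_cases e : c u v z = 0
    · obtain ⟨y, hy, hy', h1⟩ := hc.ends ht hu hu' hz hz'
      have h2 := hc.coc u v y z (pull_tr hu hv hz hu' hv' hz') (pull_tr hv hy hz hv' hy' hz')
        (t.2.2 _ hu _ hy)
      rw [e, zero_add] at h2
      exact (hg u y z (pull_tr hu hy hz hu' hy' hz') h1).trans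
        (hg v y z (pull_tr hv hy hz hv' hy' hz') (h2 ▸ h1)).symm
    · exact hg u v z (pull_tr hu hv hz hu' hv' hz') e
  have key : ∀ t, Rch (sd G) (ActC G U c) s t → ∀ v ∈ t.1, v ∈ U → g x = g v := by
    intro t ht
    induction ht with
    | refl => exact loc s hs x hx hU
    | tail _ h2 ih =>
      intro v hv hv'
      obtain ⟨h3, h4, h5 | h5⟩ := h2
      · obtain ⟨a, ha, -, -, -, -, ha', -⟩ := id h3
        exact (ih a ha ha').trans (loc _ h4 a (h5 ha) ha' v hv hv')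
      · exact ih v (h5 hv) hv'
  exact key s' (hc.conn s hs s' hs') x' hx' hU'

theorem pull_four {x₁ x₂ x₃ x₄ : Fc G} (h1 : x₁ ≤ x₂) (h2 : x₂ ≤ x₃) (h3 : x₃ ≤ x₄) :
    ∃ C : Fc (sd G), x₁ ∈ C.1 ∧ x₂ ∈ C.1 ∧ x₃ ∈ C.1 ∧ x₄ ∈ C.1 ∧ ∀ y ∈ C.1, y ≤ x₄ := by
  have h4 := h1.trans h2
  have h5 := h2.trans h3
  have h6 := h4.trans h3
  refine ⟨⟨{x₁, x₂, x₃, x₄}, Finset.insert_nonempty _ _, fun x hx y hy => ?_⟩, by simp, by simp,
    by simp, by simp, fun y hy => ?_⟩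
  · simp only [Finset.mem_insert, Finset.mem_singleton] at hx hy
    rcases hx with rfl | rfl | rfl | rfl <;> rcases hy with rfl | rfl | rfl | rfl <;>
      first | exact Or.inl le_rfl | exact Or.inl (by assumption) | exact Or.inr (by assumption)
  · simp only [Finset.mem_insert, Finset.mem_singleton] at hy
    rcases hy with rfl | rfl | rfl | rfl <;> first | assumption | exact le_rfl

/-- Two simplices that share an active triangle are joined. -/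
theorem pull_share {s d z : V} (h1 : s ∈ U) (h2 : d ∈ U) (h3 : z ∉ U) (h4 : c s d z ≠ 0)
    {C C' : Fc G} (a1 : s ∈ C.1) (a2 : d ∈ C.1) (a3 : z ∈ C.1) (b1 : s ∈ C'.1) (b2 : d ∈ C'.1)
    (b3 : z ∈ C'.1) : Rch (sd G) (ActC G U c) C C' := by
  obtain ⟨D, d1, d2, d3, hD⟩ := pull_tri (C.2.2 _ a1 _ a2) (C.2.2 _ a1 _ a3) (C.2.2 _ a2 _ a3)
  have hle : ∀ E : Fc G, s ∈ E.1 → d ∈ E.1 → z ∈ E.1 → D ≤ E := fun E e1 e2 e3 v hv => by
    rcases hD v hv with rfl | rfl | rfl <;> assumption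
  have hact : ∀ E : Fc G, s ∈ E.1 → d ∈ E.1 → z ∈ E.1 → E ∈ ActC G U c := fun E e1 e2 e3 =>
    ⟨s, e1, d, e2, z, e3, h1, h2, h3, h4⟩
  exact (rch_step (hact C a1 a2 a3) (hact D d1 d2 d3) (Or.inr (hle C a1 a2 a3))).trans
    (rch_step (hact D d1 d2 d3) (hact C' b1 b2 b3) (Or.inl (hle C' b1 b2 b3)))

theorem pull_loc (hc : Curve G U c) {m : Fc G → V} (hm : Sel G U m) {d : Fc G}
    (hd : d ∈ ActC G U c) : ∃ K, K ∈ ActC (sd G) (up G U) (KG.pull m c) ∧ (∀ y ∈ K.1, y ≤ d) ∧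
      ∀ C ∈ ActC (sd G) (up G U) (KG.pull m c), (∀ y ∈ C.1, y ≤ d) →
        Rch (sd (sd G)) (ActC (sd G) (up G U) (KG.pull m c)) C K := by
  obtain ⟨a₀, ha₀, -, -, w, hw, ha₀', -, hw', -⟩ := id hd
  have ud : d ∈ up G U := ⟨a₀, ha₀, ha₀'⟩
  have x1 := (hm d).1
  have x2 := (hm d).2 ud
  have key : ∀ z s s' : Fc G, z ≤ d → s ≤ d → s' ≤ d → z ∉ up G U → s ∈ up G U → s' ∈ up G U →
      KG.pull m c s s' z = c (m d) (m s) w + c (m d) (m s') w := by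
    intro z s s' l1 l2 l3 u1 u2 u3
    have b1 := l2 (hm s).1
    have b2 := l3 (hm s').1
    have b3 := l1 (hm z).1
    have c1 := (hm s).2 u2
    have c2 := (hm s').2 u3
    have c3 : m z ∉ U := fun e => u1 ⟨_, (hm z).1, e⟩
    rw [KG.pull, hc.side _ _ _ w (pull_tr b1 b2 b3 c1 c2 c3) (pull_tr b1 b2 hw c1 c2 hw')
      (d.2.2 _ b3 _ hw), ← hc.coc _ (m d) _ w (pull_tr b1 x1 hw c1 x2 hw')
      (pull_tr x1 b2 hw x2 c2 hw') (d.2.2 _ b1 _ b2), hc.symm (pull_tr x1 b1 hw x2 c1 hw')]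
  have act : ∀ z s : Fc G, z ≤ d → s ≤ d → z ∉ up G U → s ∈ up G U → c (m d) (m s) w ≠ 0 →
      KG.pull m c s d z ≠ 0 := by
    intro z s l1 l2 u1 u2 e
    rwa [key z s d l1 l2 le_rfl u1 u2 ud, hc.self x2 hw' (d.2.2 _ x1 _ hw), add_zero]
  have flt : ∀ (s : Fc G) (P : V → Prop) (v : V), v ∈ s.1 → P v →
      ∃ t : Fc G, ∀ u, u ∈ t.1 ↔ u ∈ s.1 ∧ P u := fun s P v h1 h2 =>
    ⟨⟨s.1.filter P, s.2.sub (Finset.filter_subset _ _) ⟨v, Finset.mem_filter.2 ⟨h1, h2⟩⟩⟩,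
      fun _ => Finset.mem_filter⟩
  obtain ⟨Z, hZ⟩ := flt d (fun v => v ∉ U) w hw hw'
  obtain ⟨N, hN⟩ := flt d (fun v => v ∉ U ∨ c (m d) v w ≠ 0) w hw (Or.inl hw')
  obtain ⟨y, hy, hy', hyc⟩ := hc.ends hd x1 x2 hw hw'
  have uZ : Z ∉ up G U := fun ⟨v, hv, h⟩ => ((hZ v).1 hv).2 h
  have uN : N ∈ up G U := ⟨y, (hN y).2 ⟨hy, Or.inr hyc⟩, hy'⟩
  have lZN : Z ≤ N := fun v hv => (hN v).2 ⟨((hZ v).1 hv).1, Or.inl ((hZ v).1 hv).2⟩
  have lN : N ≤ d := fun v hv => ((hN v).1 hv).1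
  have side : ∀ s : Fc G, s ≤ N → s ∈ up G U → c (m d) (m s) w ≠ 0 := fun s l u =>
    ((hN _).1 (l (hm s).1)).2.resolve_left fun e => e ((hm s).2 u)
  obtain ⟨K, k1, -, k3, k4, k5⟩ := pull_four (le_refl Z) lZN lN
  have aK := act Z N (lZN.trans lN) lN uZ uN (side N le_rfl uN)
  refine ⟨K, ⟨N, k3, d, k4, Z, k1, uN, ud, uZ, aK⟩, k5, fun C hC hle => ?_⟩
  obtain ⟨s, hs, s', hs', z, hz, u1, u2, u3, e⟩ := hC
  obtain ⟨C₁, hC₁⟩ : ∃ C₁ : Fc (sd G), C₁.1 = insert d C.1 := by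
    refine ⟨⟨_, Finset.insert_nonempty _ _, fun p hp q hq => ?_⟩, rfl⟩
    rcases Finset.mem_insert.1 hp with hp | hp <;> rcases Finset.mem_insert.1 hq with hq | hq
    · rw [hp, hq]; exact Or.inl le_rfl
    · rw [hp]; exact Or.inr (hle q hq)
    · rw [hq]; exact Or.inl (hle p hp)
    · exact C.2.2 p hp q hq
  have m1 : ∀ p ∈ C.1, p ∈ C₁.1 := fun p hp => hC₁ ▸ Finset.mem_insert_of_mem hp
  have m2 : d ∈ C₁.1 := hC₁ ▸ Finset.mem_insert_self _ _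
  refine (pull_share u1 u2 u3 e hs hs' hz (m1 s hs) (m1 s' hs') (m1 z hz)).trans ?_
  obtain ⟨s₀, hs₀, u0, e0⟩ : ∃ s₀ ∈ C.1, s₀ ∈ up G U ∧ c (m d) (m s₀) w ≠ 0 := by
    rw [key z s s' (hle z hz) (hle s hs) (hle s' hs') u3 u1 u2] at e
    by_cases e1 : c (m d) (m s) w = 0
    · rw [e1, zero_add] at e
      exact ⟨s', hs', u2, e⟩
    · exact ⟨s, hs, u1, e1⟩
  have lz := hle z hz
  have l0 := hle s₀ hs₀
  have lz0 : z ≤ s₀ := pull_le u0 u3 (C.2.2 _ hs₀ _ hz)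
  have lzZ : z ≤ Z := fun v hv => (hZ v).2 ⟨lz hv, fun h => u3 ⟨v, hv, h⟩⟩
  have n0 : m s₀ ∈ N.1 := (hN _).2 ⟨l0 (hm s₀).1, Or.inr e0⟩
  obtain ⟨s₁, h₁⟩ := flt s₀ (fun v => v ∈ N.1) (m s₀) (hm s₀).1 n0
  have l10 : s₁ ≤ s₀ := fun v hv => ((h₁ v).1 hv).1
  have l1N : s₁ ≤ N := fun v hv => ((h₁ v).1 hv).2
  have lz1 : z ≤ s₁ := fun v hv => (h₁ v).2 ⟨lz0 hv, lZN (lzZ hv)⟩
  have u4 : s₁ ∈ up G U := ⟨m s₀, (h₁ _).2 ⟨(hm s₀).1, n0⟩, (hm s₀).2 u0⟩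
  obtain ⟨C₂, p1, p2, p3, p4, -⟩ := pull_four lz1 l10 l0
  obtain ⟨C₃, q1, q2, q3, q4, -⟩ := pull_four lz1 l1N lN
  obtain ⟨C₄, r1, r2, r3, r4, -⟩ := pull_four lzZ lZN lN
  exact (pull_share u0 ud u3 (act z s₀ lz l0 u3 u0 e0) (m1 _ hs₀) m2 (m1 z hz) p3 p4 p1).trans
    ((pull_share u4 ud u3 (act z s₁ lz (l10.trans l0) u3 u4 (side s₁ l1N u4)) p2 p4 p1 q2 q4
      q1).trans ((pull_share uN ud u3 (act z N lz lN u3 uN (side N le_rfl uN)) q3 q4 q1 r3 r4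
        r1).trans (pull_share uN ud uZ aK r3 r4 r2 k3 k4 k1)))

theorem Curve.pull (hc : Curve G U c) {m : Fc G → V} (hm : Sel G U m) :
    Curve (sd G) (up G U) (KG.pull m c) := by
  obtain ⟨d₀, hd₀⟩ := hc.ne
  obtain ⟨K₀, hK₀, -⟩ := pull_loc hc hm hd₀
  refine ⟨fun a b d z h1 h2 h3 => hc.coc _ _ _ _ (hm.tr h1).1 (hm.tr h2).1 (pull_r hm h3),
    fun a b z z' h1 h2 h3 => hc.side _ _ _ _ (hm.tr h1).1 (hm.tr h2).1 (pull_r hm h3),
    ⟨K₀, hK₀⟩, ?_⟩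
  have : Nonempty (Fc (sd G)) := ⟨K₀⟩
  choose! K h1 h2 h3 using fun d hd => pull_loc (d := d) hc hm hd
  refine conn_of_base (K d₀) fun C hC => ?_
  obtain ⟨d, hd, hle⟩ := exists_top (P := Fc G) C
  have ha : d ∈ ActC G U c := by
    obtain ⟨s, hs, s', hs', z, hz, a1, a2, a3, a4⟩ := hC
    exact ⟨_, hle s hs (hm s).1, _, hle s' hs' (hm s').1, _, hle z hz (hm z).1, (hm s).2 a1,
      (hm s').2 a2, fun e => a3 ⟨_, (hm z).1, e⟩, a4⟩
  refine (h3 d ha C hC hle).trans (rch_map (fun a ha b hb hab => ?_) (hc.conn d ha d₀ hd₀))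
  rcases hab with hab | hab
  · exact h3 b hb _ (h1 a ha) fun y hy => (h2 a ha y hy).trans hab
  · exact rch_symm (h3 a ha _ (h1 b hb) fun y hy => (h2 b hb y hy).trans hab)

theorem Triv.of_pull (hc : Curve G U c) {m : Fc G → V} (hm : Sel G U m)
    (h : Triv (sd G) (up G U) (pull m c)) : Triv G U c := by
  obtain ⟨f, h1, h2⟩ := h
  obtain ⟨p, hp⟩ : ∃ p : V → Fc G, ∀ z, (p z).1 = {z} := ⟨fun z => ⟨_, clq_single G z⟩, fun _ => rfl⟩
  obtain ⟨q, hq⟩ : ∃ q : V → V → Fc G, ∀ a z, G.r a z → (q a z).1 = {a, z} :=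
    ⟨fun a z => if h : G.r a z then ⟨_, clq_pair h⟩ else p z, fun a z h => by simp only [dif_pos h]⟩
  have mp : ∀ z, m (p z) = z := fun z => Finset.mem_singleton.1 (hp z ▸ (hm (p z)).1)
  have np : ∀ z, z ∉ U → p z ∉ up G U := by
    rintro z hz ⟨v, hv, h⟩
    rw [hp, Finset.mem_singleton] at hv
    exact hz (hv ▸ h)
  have uq : ∀ a ∈ U, ∀ z, G.r a z → q a z ∈ up G U := fun a ha z h =>
    ⟨a, by rw [hq a z h]; exact Finset.mem_insert_self _ _, ha⟩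
  have mq : ∀ a ∈ U, ∀ z ∉ U, G.r a z → m (q a z) = a := by
    intro a ha z hz h
    have e := (hm (q a z)).1
    rw [hq a z h, Finset.mem_insert, Finset.mem_singleton] at e
    exact e.resolve_right fun e' => hz (e' ▸ (hm _).2 (uq a ha z h))
  have key : ∀ (D : Fc G) a z, a ∈ D.1 → z ∈ D.1 → a ∈ U → z ∉ U →
      c a (m D) z = f (q a z) (p z) + f D (p z) := by
    intro D a z ha hz ha' hz'
    have r := D.2.2 _ ha _ hz
    have l1 : q a z ≤ D := Fc.le_iff.2 (by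
      rw [hq a z r]; exact Finset.insert_subset ha (Finset.singleton_subset_iff.2 hz))
    have l2 : p z ≤ q a z := Fc.le_iff.2 (by rw [hq a z r, hp]; exact Finset.subset_insert _ _)
    have e := h1 (q a z) D (p z) ⟨uq a ha' z r, ⟨a, ha, ha'⟩, np z hz', Or.inl l1, Or.inr l2,
      Or.inr (l2.trans l1)⟩
    rwa [KG.pull, mp, mq a ha' z hz' r] at e
  refine ⟨fun a z => f (q a z) (p z), fun a b z t => ?_, fun a ha z hz z' hz' r1 r2 r3 => ?_⟩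
  · obtain ⟨t1, t2, t3, t4, t5, t6⟩ := t
    obtain ⟨D, ha, hb, hz, -⟩ := pull_tri t4 t5 t6
    have hx := (hm D).1
    have hx' := (hm D).2 ⟨a, ha, t1⟩
    rw [← hc.coc a (m D) b z (pull_tr ha hx hz t1 hx' t3) (pull_tr hx hb hz hx' t2 t3) t4,
      hc.symm (pull_tr hb hx hz t2 hx' t3), key D a z ha hz t1 t3, key D b z hb hz t2 t3]
    have e := CharTwo.add_self_eq_zero (f D (p z))
    linear_combination e
  · obtain ⟨D, a1, a2, a3, hD⟩ := pull_tri r1 r2 r3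
    have e0 : m D = a := by
      have hx' := (hm D).2 ⟨a, a1, ha⟩
      rcases hD _ (hm D).1 with e | e | e
      · exact e
      · exact absurd (e ▸ hx') hz
      · exact absurd (e ▸ hx') hz'
    have e1 := key D a z a1 a2 ha hz
    have e2 := key D a z' a1 a3 ha hz'
    rw [e0, hc.self ha hz r1] at e1
    rw [e0, hc.self ha hz' r2] at e2
    have l0 : q z z' ≤ D := Fc.le_iff.2 (by
      rw [hq z z' r3]; exact Finset.insert_subset a2 (Finset.singleton_subset_iff.2 a3))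
    have l1 : p z ≤ q z z' := Fc.le_iff.2 (by
      rw [hq z z' r3, hp]; exact Finset.singleton_subset_iff.2 (Finset.mem_insert_self _ _))
    have l2 : p z' ≤ q z z' := Fc.le_iff.2 (by rw [hq z z' r3, hp]; exact Finset.subset_insert _ _)
    have nq : q z z' ∉ up G U := by
      rintro ⟨v, hv, h⟩
      rw [hq z z' r3, Finset.mem_insert, Finset.mem_singleton] at hv
      rcases hv with e | e
      · exact hz (e ▸ h)
      · exact hz' (e ▸ h)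
    have e3 := h2 D ⟨a, a1, ha⟩ _ (np z hz) _ nq (Or.inr (l1.trans l0)) (Or.inr l0) (Or.inl l1)
    have e4 := h2 D ⟨a, a1, ha⟩ _ (np z' hz') _ nq (Or.inr (l2.trans l0)) (Or.inr l0) (Or.inl l2)
    linear_combination e2 - e1 - e3 + e4

end KG
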