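import Pool.Agent.Work.MP_c146e2_gt.KG.Dual
import Pool.Agent.Work.MP_c146e2_gt.KG.Pull
import Pool.Agent.Work.MP_c146e2_gt.KG.ManD

set_option autoImplicit false

noncomputable section

open scoped Classical

namespace KG

variable {V V' : Type}

theorem topd_ne {W : Type} {B : Set W} {a b : W} :
    ((if a ∈ B then 1 else 0) + if b ∈ B then 1 else 0 : ZMod 2) ≠ 0 ↔
      (a ∈ B ∧ b ∉ B) ∨ (a ∉ B ∧ b ∈ B) := by
  by_cases ha : a ∈ B <;> by_cases hb : b ∈ B <;> simp [ha, hb]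
  decide

theorem chiF_ind [Fintype V] (G : Cx V) {U B : Set V} (hB : B ⊆ U) :
    chiF G U (fun a b => (if a ∈ B then 1 else 0) + if b ∈ B then 1 else 0) =
      chi G B + chi G (U \ B) - chi G U := by
  unfold chiF chi
  rw [← Finset.sum_add_distrib, ← Finset.sum_sub_distrib]
  refine Finset.sum_congr rfl fun s _ => ?_
  by_cases hs : Clq G s
  swap
  · simp [hs]
  obtain ⟨x, hx⟩ := hs.1
  by_cases hU : Ins s U
  swap
  · have h1 : ¬ Ins s B := fun c => hU fun a ha => hB (c a ha)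
    have h2 : ¬ Ins s (U \ B) := fun c => hU fun a ha => (c a ha).1
    simp [hU, h1, h2]
  by_cases h1 : Ins s B
  · have h2 : ¬ Ins s (U \ B) := fun c => (c x hx).2 (h1 x hx)
    rw [if_neg, if_pos ⟨hs, h1⟩, if_neg fun c => h2 c.2, if_pos ⟨hs, hU⟩]
    · ring
    · rintro ⟨-, -, a, ha, b, hb, c⟩
      exact (topd_ne.1 c).elim (fun d => d.2 (h1 b hb)) fun d => d.1 (h1 a ha)
  by_cases h2 : Ins s (U \ B)
  · rw [if_neg, if_neg fun c => h1 c.2, if_pos ⟨hs, h2⟩, if_pos ⟨hs, hU⟩]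
    · ring
    · rintro ⟨-, -, a, ha, b, hb, c⟩
      exact (topd_ne.1 c).elim (fun d => (h2 a ha).2 d.1) fun d => (h2 b hb).2 d.2
  · rw [if_pos, if_neg fun c => h1 c.2, if_neg fun c => h2 c.2, if_pos ⟨hs, hU⟩]
    · ring
    · obtain ⟨a, ha⟩ := not_forall.1 h1
      obtain ⟨b, hb⟩ := not_forall.1 h2
      rw [Classical.not_imp] at ha hb
      exact ⟨hs, hU, a, ha.1, b, hb.1, topd_ne.2 (Or.inr ⟨ha.2,
        by_contra fun c => hb.2 ⟨hU b hb.1, c⟩⟩)⟩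

theorem topd_cap {G : Cx V} {U : Set V} {z : Fc G} (h : z ∈ up G U) :
    mandCap G U z ∈ dn G U ∧ mandCap G U z ≤ z :=
  ⟨fun _ ha => ((mand_cap h).1 ha).2, fun _ ha => ((mand_cap h).1 ha).1⟩

theorem topd_mono {G : Cx V} {U : Set V} {y z : Fc G} (hy : y ∈ up G U) (hz : z ∈ up G U)
    (h : y ≤ z) : mandCap G U y ≤ mandCap G U z := fun _ ha =>
  (mand_cap hz).2 (((mand_cap hy).1 ha).imp_left fun d => Fc.le_iff.1 h d)

theorem topd_up {G : Cx V} {U : Set V} {z : Fc G} (h : z ∈ dn G U) : z ∈ up G U :=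
  z.2.1.imp fun a ha => ⟨ha, h a ha⟩

theorem topd_econ {G : Cx V} {U : Set V} {B : Set (Fc G)} (hB : B ⊆ Xs G U)
    (hc : Conn (sd G) B) :
    ECon (sd G) (up G U) fun a b => (if a ∈ B then 1 else 0) + if b ∈ B then 1 else 0 := by
  set F : Fc G → Fc G → ZMod 2 := fun a b => (if a ∈ B then 1 else 0) + if b ∈ B then 1 else 0
  have hsymm : ∀ {e e'}, Relation.ReflTransGen (FStep (sd G) (up G U) F) e e' →
      Relation.ReflTransGen (FStep (sd G) (up G U) F) e' e := fun h => by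
    induction h with
    | refl => exact .refl
    | tail _ h ih =>
      exact .head ⟨h.2.1, h.1, h.2.2.imp (fun c => ⟨c.1.symm, (sd G).symm _ _ c.2⟩)
        fun c => by rw [c, Prod.swap_swap]⟩ ih
  have nb : ∀ z ∈ dn G U, z ∉ B := fun z hz c => Set.disjoint_left.1 (dn_xs_disj G U) hz (hB c)
  have fe : ∀ s ∈ B, ∀ z ∈ dn G U, z ≤ s →
      FE (sd G) (up G U) F (s, z) ∧ FE (sd G) (up G U) F (z, s) := fun s hs z hz h =>
    ⟨⟨(hB hs).1, topd_up hz, Or.inr h, topd_ne.2 (Or.inl ⟨hs, nb z hz⟩)⟩,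
      topd_up hz, (hB hs).1, Or.inl h, topd_ne.2 (Or.inr ⟨nb z hz, hs⟩)⟩
  have fc : ∀ s ∈ B, FE (sd G) (up G U) F (s, mandCap G U s) ∧
      FE (sd G) (up G U) F (mandCap G U s, s) := fun s hs =>
    fe s hs _ (topd_cap (hB hs).1).1 (topd_cap (hB hs).1).2
  have h1 : ∀ s ∈ B, ∀ t, FE (sd G) (up G U) F (s, t) →
      Relation.ReflTransGen (FStep (sd G) (up G U) F) (s, t) (s, mandCap G U s) := by
    intro s hs t ht
    rcases ht.2.2.1 with c | c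
    · exact .single ⟨ht, (fc s hs).1, Or.inl ⟨rfl, Or.inr ((topd_cap (hB hs).1).2.trans c)⟩⟩
    · have a1 := topd_cap ht.2.1
      have a2 := (fe s hs _ a1.1 (a1.2.trans c)).1
      exact .head ⟨ht, a2, Or.inl ⟨rfl, Or.inr a1.2⟩⟩
        (.single ⟨a2, (fc s hs).1, Or.inl ⟨rfl, Or.inl (topd_mono ht.2.1 (hB hs).1 c)⟩⟩)
  have h2 : ∀ e, FE (sd G) (up G U) F e →
      ∃ s ∈ B, Relation.ReflTransGen (FStep (sd G) (up G U) F) e (s, mandCap G U s) := by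
    rintro ⟨a, b⟩ he
    rcases topd_ne.1 he.2.2.2 with c | c
    · exact ⟨a, c.1, h1 a c.1 b he⟩
    · have he' : FE (sd G) (up G U) F (b, a) :=
        ⟨he.2.1, he.1, (sd G).symm _ _ he.2.2.1, topd_ne.2 (Or.inl ⟨c.2, c.1⟩)⟩
      exact ⟨b, c.2, .head ⟨he, he', Or.inr rfl⟩ (h1 b c.2 a he')⟩
  have h3 : ∀ s ∈ B, ∀ t ∈ B, s ≤ t → Relation.ReflTransGen (FStep (sd G) (up G U) F)
      (s, mandCap G U s) (t, mandCap G U t) := fun s hs t ht h => by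
    have a1 := topd_cap (hB hs).1
    have a2 := fe t ht _ a1.1 (a1.2.trans h)
    exact .head ⟨(fc s hs).1, (fc s hs).2, Or.inr rfl⟩
      (.head ⟨(fc s hs).2, a2.2, Or.inl ⟨rfl, Or.inl h⟩⟩
        (.head ⟨a2.2, a2.1, Or.inr rfl⟩ (h1 t ht _ a2.1)))
  have h4 : ∀ s t, Rch (sd G) B s t → Relation.ReflTransGen (FStep (sd G) (up G U) F)
      (s, mandCap G U s) (t, mandCap G U t) := fun s t h => by
    induction h with
    | refl => exact .refl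
    | tail _ h ih =>
      exact ih.trans (h.2.2.elim (h3 _ h.1 _ h.2.1) fun c => hsymm (h3 _ h.2.1 _ h.1 c))
  intro e e' he he'
  obtain ⟨s, hs, a1⟩ := h2 e he
  obtain ⟨t, ht, a2⟩ := h2 e' he'
  exact (a1.trans (h4 s t (hc s hs t ht))).trans (hsymm a2)

theorem disc_of_half [Fintype V] {G : Cx V} {U : Set V} {B : Set (Fc G)} (hB : B ⊆ Xs G U)
    (hc : Conn (sd G) B) (h1 : chi (sd G) B = 1) {c : Fc G → Fc G → Fc G → ZMod 2}
    (hb : ∀ s s' z, Tr (sd G) (up G U) s s' z →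
      c s s' z = (if s ∈ B then 1 else 0) + if s' ∈ B then 1 else 0) :
    ∃ F, Disc (sd G) (up G U) c F := by
  refine ⟨fun a b => (if a ∈ B then 1 else 0) + if b ∈ B then 1 else 0,
    fun a _ b _ d _ _ _ _ => ?_, fun a b z h => (hb a b z h).symm, topd_econ hB hc, ?_⟩
  · rw [add_assoc, ← add_assoc (if b ∈ B then 1 else 0), lin_add_self, zero_add]
  · have h2 : chi (sd G) (up G U \ B) = chi (sd G) (dn G U) :=
      chi_defl (mandCap G U) (fun z hz => ⟨topd_up hz, fun c =>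
        Set.disjoint_left.1 (dn_xs_disj G U) hz (hB c)⟩) (fun z hz => (topd_cap hz.1).1)
        (fun z hz => (topd_cap hz.1).2)
        (fun z hz => le_antisymm (topd_cap (topd_up hz)).2 fun a ha =>
          (mand_cap (topd_up hz)).2 ⟨ha, hz a ha⟩)
        fun y hy z hz c => topd_mono hy.1 hz.1 c
    rw [chiF_ind (sd G) (U := up G U) fun s hs => (hB hs).1, h1, h2, chi_dn, chi_up]
    ring

/-- A component of a surface. -/
theorem topd_comp [Fintype V] {G : Cx V} {S : Set V} (hS : Surf G S) (h1 : H1 G S) {x : V}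
    (hx : x ∈ S) : Surf G {y | Rch G S x y} ∧ Conn G {y | Rch G S x y} ∧
      chi G {y | Rch G S x y} = 2 := by
  have a1 : {y | Rch G S x y} ⊆ S := fun y hy => rch_mem hy hx
  have a2 : ∀ s, Clq G s → Ins s {y | Rch G S x y} → lk G s ∩ {y | Rch G S x y} = lk G s ∩ S :=
    fun s hs hi => Set.ext fun w => ⟨fun c => ⟨c.1, a1 c.2⟩, fun c => by
      obtain ⟨a, ha⟩ := hs.1
      exact ⟨c.1, Relation.ReflTransGen.tail (hi a ha)
        ⟨a1 (hi a ha), c.2, G.symm _ _ (c.1.2 a ha)⟩⟩⟩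
  have a3 : Surf G {y | Rch G S x y} := by
    refine ⟨fun s hs hi => hS.dim s hs fun a ha => a1 (hi a ha), fun s hs hi hc => ?_,
      fun v hv => ?_⟩
    · rw [a2 s hs hi]
      exact hS.edg s hs (fun a ha => a1 (hi a ha)) hc
    · rw [a2 _ (clq_single G v) fun a ha => Finset.mem_singleton.1 ha ▸ hv]
      exact hS.vtx v (a1 hv)
  have a4 : Conn G {y | Rch G S x y} := by
    refine conn_of_base x fun y hy => rch_symm ?_
    have hy' : Rch G S x y := hy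
    induction hy' with
    | refl => exact .refl
    | tail h h' ih => exact (ih h).tail ⟨h, h.tail h', h'.2.2⟩
  refine ⟨a3, a4, ?_⟩
  rw [a3.chi_le.2.2 (h1.comp a1 fun a ha b hb c => hb.2 (Relation.ReflTransGen.tail ha
    ⟨a1 ha, hb.1, c⟩)),
    (kc_eq_one (S := {y | Rch G S x y})).2 ⟨⟨x, Relation.ReflTransGen.refl⟩, a4⟩]
  rfl

section

variable {G : Cx V} {U : Set V} {c : V → V → V → ZMod 2} {m : Fc G → V}

theorem topd_tr {d : Fc G} {a b z : V} (ha : a ∈ d.1) (ha' : a ∈ U) (hb : b ∈ d.1) (hb' : b ∈ U)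
    (hz : z ∈ d.1) (hz' : z ∉ U) : Tr G U a b z :=
  ⟨ha', hb', hz', d.2.2 _ ha _ hb, d.2.2 _ ha _ hz, d.2.2 _ hb _ hz⟩

theorem topd_max {s t : Fc G} (h : (sd G).r s t) : ∃ d, s ≤ d ∧ t ≤ d ∧ (d = s ∨ d = t) :=
  h.elim (fun e => ⟨t, e, le_rfl, Or.inr rfl⟩) fun e => ⟨s, le_rfl, e, Or.inl rfl⟩

theorem topd_com {s t : Fc G} (hs : s ∈ Xs G U) (ht : t ∈ Xs G U) (h : (sd G).r s t) :
    ∃ z ∈ s.1, z ∈ t.1 ∧ z ∉ U :=
  h.elim (fun e => hs.2.imp fun _ a => ⟨a.1, e a.1, a.2⟩)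
    fun e => ht.2.imp fun _ a => ⟨e a.1, a.1, a.2⟩

theorem topd_pot (hc : Curve G U c) (hm : Sel G U m) (h1 : H1 (sd G) (Xs G U)) :
    ∃ g : Fc G → ZMod 2, ∀ s ∈ Xs G U, ∀ t ∈ Xs G U, (sd G).r s t → ∀ z ∈ s.1, z ∈ t.1 → z ∉ U →
      c (m s) (m t) z = g s + g t := by
  have key : ∀ s ∈ Xs G U, ∀ t ∈ Xs G U, (sd G).r s t → ∀ z ∈ s.1, z ∈ t.1 → z ∉ U →
      (if ∃ z ∈ s.1, z ∈ t.1 ∧ z ∉ U ∧ c (m s) (m t) z ≠ 0 then 1 else 0) = c (m s) (m t) z := by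
    intro s hs t ht h z z1 z2 z3
    obtain ⟨d, d1, d2, -⟩ := topd_max h
    split_ifs with e
    · obtain ⟨y, y1, -, y3, y4⟩ := e
      rw [← lin_one y4]
      exact hc.side _ _ _ _
        (topd_tr (d1 (hm s).1) ((hm s).2 hs.1) (d2 (hm t).1) ((hm t).2 ht.1) (d1 y1) y3)
        (topd_tr (d1 (hm s).1) ((hm s).2 hs.1) (d2 (hm t).1) ((hm t).2 ht.1) (d1 z1) z3)
        (s.2.2 _ y1 _ z1)
    · exact Eq.symm (by_contra fun f => e ⟨z, z1, z2, z3, f⟩)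
  obtain ⟨g, hg⟩ := h1
    (fun s t => if ∃ z ∈ s.1, z ∈ t.1 ∧ z ∉ U ∧ c (m s) (m t) z ≠ 0 then 1 else 0)
    fun a ha b hb d hd ab bd ad => by
      obtain ⟨z, z1, z2, z3, z4⟩ : ∃ z ∈ a.1, z ∈ b.1 ∧ z ∈ d.1 ∧ z ∉ U := by
        rcases ab with e | e
        · exact (topd_com ha hd ad).imp fun _ f => ⟨f.1, e f.1, f.2⟩
        · exact (topd_com hb hd bd).imp fun _ f => ⟨e f.1, f⟩
      obtain ⟨x, x1, x2, -⟩ := topd_max ab
      obtain ⟨y, y1, y2, -⟩ := topd_max bd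
      obtain ⟨w, w1, w2, -⟩ := topd_max ad
      beta_reduce
      rw [key a ha b hb ab z z1 z2 z4, key b hb d hd bd z z2 z3 z4, key a ha d hd ad z z1 z3 z4]
      exact hc.coc _ _ _ _
        (topd_tr (x1 (hm a).1) ((hm a).2 ha.1) (x2 (hm b).1) ((hm b).2 hb.1) (x1 z1) z4)
        (topd_tr (y1 (hm b).1) ((hm b).2 hb.1) (y2 (hm d).1) ((hm d).2 hd.1) (y1 z2) z4)
        (w.2.2 _ (w1 (hm a).1) _ (w2 (hm d).1))
  exact ⟨g, fun s hs t ht h z z1 z2 z3 => (key s hs t ht h z z1 z2 z3).symm.trans (hg s hs t ht h)⟩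

theorem topd_act {d : Fc G} (hd : d ∈ ActC G U c) : d ∈ Xs G U := by
  obtain ⟨a, ha, -, -, z, hz, h1, -, h2, -⟩ := hd
  exact ⟨⟨a, ha, h1⟩, z, hz, h2⟩

theorem topd_z (x y e : ZMod 2) : (x + y + y = e ↔ x = e) ∧ (x ≠ e → 1 + x = e) ∧
    (x ≠ y → x + y ≠ 0) ∧ e + 1 ≠ e ∧ (if x = 1 then 1 else 0) = x ∧ (x ≠ 1 ↔ x = 0) := by
  revert x y e
  decide

theorem topd_loc (hc : Curve G U c) (hm : Sel G U m) {g : Fc G → ZMod 2}
    (hg : ∀ s ∈ Xs G U, ∀ t ∈ Xs G U, (sd G).r s t → ∀ z ∈ s.1, z ∈ t.1 → z ∉ U →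
      c (m s) (m t) z = g s + g t) {d : Fc G} (hd : d ∈ ActC G U c) (e : ZMod 2) {B : Set (Fc G)}
    (hB : ∀ s, s ≤ d → (s ∈ B ↔ s ∈ Xs G U ∧ g s = e)) :
    ∃ T ∈ B, T ≤ d ∧ ∀ s ∈ B, s ≤ d → Rch (sd G) B s T := by
  have hX := topd_act hd
  obtain ⟨z, z1, z2⟩ := hX.2
  have md := (hm d).2 hX.1
  have h1 : ∀ s ∈ Xs G U, s ≤ d → (g s = e ↔ c (m s) (m d) z + g d = e) := fun s hs h => by
    obtain ⟨y, y1, y2⟩ := hs.2
    rw [← hc.side _ _ y z (topd_tr (h (hm s).1) ((hm s).2 hs.1) (hm d).1 md (h y1) y2)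
      (topd_tr (h (hm s).1) ((hm s).2 hs.1) (hm d).1 md z1 z2) (d.2.2 _ (h y1) _ z1),
      hg s hs d hX (Or.inl h) y y1 (h y1) y2, (topd_z _ _ _).1]
  have h2 : ∀ s : Fc G, s ≤ d → Meets s.1 Uᶜ → ∀ a ∈ s.1, a ∈ U → c a (m d) z + g d = e →
      ∃ t ∈ B, ∀ b, b ∈ t.1 ↔ b ∈ s.1 ∧ (b ∉ U ∨ c b (m d) z + g d = e) := by
    intro s h hs a a1 a2 a3
    let t : Fc G := ⟨s.1.filter fun b => b ∉ U ∨ c b (m d) z + g d = e,
      xs_clq_sub s.2 (Finset.filter_subset _ _) ⟨a, Finset.mem_filter.2 ⟨a1, Or.inr a3⟩⟩⟩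
    have ht : ∀ b, b ∈ t.1 ↔ b ∈ s.1 ∧ (b ∉ U ∨ c b (m d) z + g d = e) := fun b =>
      Finset.mem_filter
    have tX : t ∈ Xs G U := ⟨⟨a, (ht a).2 ⟨a1, Or.inr a3⟩, a2⟩,
      hs.imp fun y hy => ⟨(ht y).2 ⟨hy.1, Or.inl hy.2⟩, hy.2⟩⟩
    have td : t ≤ d := fun b hb => h ((ht b).1 hb).1
    exact ⟨t, (hB t td).2 ⟨tX, (h1 t tX td).2
      (((ht _).1 (hm t).1).2.resolve_left (not_not.2 ((hm t).2 tX.1)))⟩, ht⟩
  obtain ⟨a, a1, a2, a3⟩ : ∃ a ∈ d.1, a ∈ U ∧ c a (m d) z + g d = e := by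
    by_cases h : g d = e
    · exact ⟨m d, (hm d).1, md, by rw [hc.self md z2 (d.2.2 _ (hm d).1 _ z1), zero_add, h]⟩
    · obtain ⟨y, y1, y2, y3⟩ := hc.ends hd (hm d).1 md z1 z2
      exact ⟨y, y1, y2, by
        rw [hc.symm (topd_tr (hm d).1 md y1 y2 z1 z2), lin_one y3, (topd_z _ 0 _).2.1 h]⟩
  obtain ⟨T, T1, T2⟩ := h2 d le_rfl hX.2 a a1 a2 a3
  refine ⟨T, T1, fun b hb => ((T2 b).1 hb).1, fun s hs h => ?_⟩
  obtain ⟨s1, s2⟩ := (hB s h).1 hs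
  obtain ⟨t, t1, t2⟩ := h2 s h s1.2 (m s) (hm s).1 ((hm s).2 s1.1) ((h1 s s1 h).1 s2)
  exact (rch_step hs t1 (Or.inr fun b hb => ((t2 b).1 hb).1)).trans
    (rch_step t1 T1 (Or.inl fun b hb => (T2 b).2 (((t2 b).1 hb).imp_left fun f => h f)))

end

theorem top_disc [Fintype V] {G : Cx V} {U : Set V} {c : V → V → V → ZMod 2} (hm : Man G U)
    (h1 : H1 G U) (hc : Curve G U c) : HasDisc G U c := by
  obtain ⟨m, hs⟩ := exists_sel G U
  obtain ⟨g, hg⟩ := topd_pot hc hs (h1_xs hm h1)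
  obtain ⟨d₀, hd₀⟩ := hc.ne
  obtain ⟨a1, a2, a3⟩ := topd_comp (surf_xs hm.toPMan) (h1_xs hm h1) (topd_act hd₀)
  set Y := {y | Rch (sd G) (Xs G U) d₀ y}
  have y1 : Y ⊆ Xs G U := fun y hy => rch_mem hy (topd_act hd₀)
  have y2 : ∀ s ∈ Y, ∀ t ∈ Xs G U, (sd G).r s t → t ∈ Y := fun s hs t ht h =>
    Relation.ReflTransGen.tail hs ⟨y1 hs, ht, h⟩
  have y3 : ∀ d ∈ ActC G U c, d ∈ Y := fun d hd =>
    rch_mono (fun _ => topd_act) (hc.conn d₀ hd₀ d hd)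
  have y4 : ∀ s ∈ Xs G U, ∀ t ∈ Xs G U, (sd G).r s t → g s ≠ g t →
      ∃ d ∈ ActC G U c, s ≤ d := fun s s1 t t1 h e => by
    obtain ⟨z, z1, z2, z3⟩ := topd_com s1 t1 h
    obtain ⟨d, d1, d2, -⟩ := topd_max h
    exact ⟨d, ⟨m s, d1 (hs s).1, m t, d2 (hs t).1, z, d1 z1, (hs s).2 s1.1, (hs t).2 t1.1, z3,
      hg s s1 t t1 h z z1 z2 z3 ▸ (topd_z _ _ 0).2.2.1 e⟩, d1⟩
  have loc := fun e d (hd : d ∈ ActC G U c) => topd_loc hc hs hg hd e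
    (B := {s | s ∈ Y ∧ g s = e}) fun s h => ⟨fun f => ⟨y1 f.1, f.2⟩,
      fun f => ⟨y2 d (y3 d hd) s f.1 (Or.inr h), f.2⟩⟩
  have key : ∀ e, Conn (sd G) {s | s ∈ Y ∧ g s = e} ∧ chi (sd G) {s | s ∈ Y ∧ g s = e} ≤ 1 := by
    intro e
    have : Nonempty (Fc G) := ⟨d₀⟩
    choose! T T1 T2 T3 using loc e
    obtain ⟨x, x1, -⟩ := loc (e + 1) d₀ hd₀
    have x2 : g x ≠ e := x1.2 ▸ (topd_z 0 0 e).2.2.2.1
    have b1 : ∀ d ∈ ActC G U c, Rch (sd G) {s | s ∈ Y ∧ g s = e} (T d) (T d₀) := fun d hd =>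
      rch_map (G' := sd G) (fun a ha b hb h => h.elim (fun f => T3 b hb _ (T1 a ha) ((T2 a ha).trans f))
        fun f => rch_symm (T3 a ha _ (T1 b hb) ((T2 b hb).trans f))) (hc.conn d hd d₀ hd₀)
    have b2 : Conn (sd G) {s | s ∈ Y ∧ g s = e} := by
      refine conn_of_base (T d₀) fun s hs => ?_
      have h := a2 s hs.1 x x1.1
      induction h using Relation.ReflTransGen.head_induction_on with
      | refl => exact (x2 hs.2).elim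
      | @head s t h _ ih =>
        by_cases f : g t = e
        · exact (rch_step hs ⟨h.2.1, f⟩ h.2.2).trans (ih ⟨h.2.1, f⟩)
        · obtain ⟨d, d1, d2⟩ := y4 s (y1 h.1) t (y1 h.2.1) h.2.2 fun f' => f (f' ▸ hs.2)
          exact (T3 d d1 s hs d2).trans (b1 d d1)
    refine ⟨b2, ?_⟩
    have b3 := (chi_le_kc (fun s s1 s2 => a1.dim s s1 fun a ha => (s2 a ha).1)
      (noCyc_sub (B := {s | s ∈ Y ∧ g s = e}) a1 (fun _ f => f.1)
        fun b hb => ⟨x, x1.1, fun f => x2 f.2, a2 b hb.1 x x1.1⟩)).1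
    rwa [kc_eq_one.2 ⟨⟨_, T1 d₀ hd₀⟩, b2⟩] at b3
  have c1 := a1.chi_add (B := {s | s ∈ Y ∧ g s = 1}) fun _ f => f.1
  have c2 : Y \ {s | s ∈ Y ∧ g s = 1} = {s | s ∈ Y ∧ g s = 0} := Set.ext fun s =>
    ⟨fun f => ⟨f.1, (topd_z _ 0 0).2.2.2.2.2.1 fun f' => f.2 ⟨f.1, f'⟩⟩,
      fun f => ⟨f.1, fun f' => (topd_z _ 0 0).2.2.2.2.2.2 f.2 f'.2⟩⟩
  rw [a3, c2] at c1
  have c3 := (key 0).2
  have c4 := (key 1).2
  obtain ⟨F, hF⟩ := disc_of_half (B := {s | s ∈ Y ∧ g s = 1}) (c := pull m c) (fun _ f => y1 f.1)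
    (key 1).1 (by omega) fun s t z h => by
      obtain ⟨t1, t2, t3⟩ := hs.tr h
      have s1 : s ∈ Xs G U := ⟨h.1, m z, t2 (hs z).1, t1.2.2.1⟩
      have s2 : t ∈ Xs G U := ⟨h.2.1, m z, t3 (hs z).1, t1.2.2.1⟩
      refine (hg s s1 t s2 h.2.2.2.1 _ (t2 (hs z).1) (t3 (hs z).1) t1.2.2.1).trans ?_
      by_cases f : s ∈ Y
      · have f' := y2 s f t s2 h.2.2.2.1
        simp only [Set.mem_ofPred_eq, f, f', true_and, (topd_z _ 0 0).2.2.2.2.1]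
      · have f' : t ∉ Y := fun f' => f (y2 t f' s s1 ((sd G).symm _ _ h.2.2.2.1))
        have f'' : g s = g t := by_contra fun e => by
          obtain ⟨d, d1, d2⟩ := y4 s s1 t s2 h.2.2.2.1 e
          exact f (y2 d (y3 d d1) s s1 (Or.inr d2))
        rw [if_neg fun e => f e.1, if_neg fun e => f' e.1, f'', lin_add_self, add_zero]
  exact HasDisc.step m hs (HasDisc.base F hF)

end KG
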