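import Pool.Agent.Work.MP_c146e2_gt.KG.Desc
import Pool.Agent.Work.MP_c146e2_gt.KG.TopD
import Pool.Agent.Work.MP_c146e2_gt.KG.FillE
import Pool.Agent.Work.MP_c146e2_gt.KG.Mono

set_option autoImplicit false

noncomputable section

open scoped Classical

namespace KG

variable {V V' : Type}

theorem tower {W : Type} [Fintype W] {P : Cx W} (k : ℕ) : ∀ {V : Type} [Fintype V] {G : Cx V}
    {U : Set V} {c : V → V → V → ZMod 2} {f : W → V} {s : V → W}, meas G f ≤ k → Man G U →
    Curve G U c → Fill P G U c f s → HasDisc G U c := by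
  induction k using Nat.strong_induction_on with
  | _ k ih =>
    intro V _ G U c f s hk hm hc hf
    have hr : Res G U (Set.range f) c fun a b z => if z ∈ U then 0 else c a b z :=
      ⟨Set.range_subset_iff.2 hf.mem, fun _ _ _ _ => rfl, fun a b z t h =>
        ⟨⟨_, (hf.sec a b z t h).1⟩, ⟨_, (hf.sec a b z t h).2.1⟩⟩⟩
    have hf' : Fill P G (Set.range f) (fun a b z => if z ∈ U then 0 else c a b z) f s :=
      ⟨hf.h1, fun w => ⟨w, rfl⟩, hf.map, fun a b z t h => by
        have hz : z ∉ U := fun e => h (if_pos e)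
        exact hf.sec a b z (hr.mono_tr t hz) fun e => h ((if_neg hz).trans e)⟩
    have hm' := hm.mono hr.sub
    have hc' := hr.curve hc
    refine hr.hasDisc hc ?_
    by_cases h1 : H1 G (Set.range f)
    · exact top_disc hm' h1 hc'
    · obtain ⟨η, h2⟩ := not_forall.1 h1
      obtain ⟨hη, hn⟩ := Classical.not_imp.1 h2
      obtain ⟨f', e1, e2, e3⟩ := cov_lift hf.h1 hf.map hη hn
      have hv := cov_cv hη
      obtain ⟨k1, k2, k3⟩ := lift_spec hv hc' hf' e1 e2
      exact descent (ih _ (e3.trans_le hk) le_rfl (hv.man hm') k1 k3) hv hm' k1 hc' k2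

theorem dehn [Fintype V] {G : Cx V} {U : Set V} {c : V → V → V → ZMod 2} (hm : Man G U)
    (hc : Curve G U c) {L : Type} [Group L] {l : V → V → L} (hl : Univ G U l)
    (hs : Strip G U c l) : HasDisc G U c := by
  obtain ⟨W, _, P, f, s, hf⟩ := exists_fill hc hl hs
  exact tower _ le_rfl hm hc hf

end KG
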