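import Pool.Agent.Work.MP_c146e2_gt.KG.Bas

set_option autoImplicit false

noncomputable section

open scoped Classical

namespace KG

variable {V V' : Type}

def adm (a b c : Bool) : Bool := (a || b || !c) && (a || c || !b) && (b || c || !a)

def dd (a : Bool) : ℝ := if a then ph else 1

def th (a b c : Bool) : ℝ := if a || b || c then ph⁻¹ else 1

/-- Weight of a tetrahedron with edge colours `ab ac ad bc bd cd`. -/
def TT (ab ac ad bc bd cd : Bool) : ℝ :=
  if adm ab ac bc && adm ab ad bd && adm ac ad cd && adm bc bd cd then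
    (if ab && ac && ad && bc && bd && cd then -1
      else if ab || ac || ad || bc || bd || cd then ph else 1)
  else 0

/-- Weight of a corner. -/
def kap (y x z : Bool) : ℝ := if adm y x z then dd z * th y x z else 0

def kap' (y x z : Bool) : ℝ := dd z * th y x z

/-- Product in the ring of pairs `a + b ph`. -/
def g1M (x y : ℤ × ℤ) : ℤ × ℤ := (x.1 * y.1 + x.2 * y.2, x.1 * y.2 + x.2 * y.1 + x.2 * y.2)

def g1A (x y : ℤ × ℤ) : ℤ × ℤ := (x.1 + y.1, x.2 + y.2)

def g1E (x : ℤ × ℤ) : ℝ := x.1 + x.2 * ph

theorem g1_mul (x y : ℤ × ℤ) : g1E x * g1E y = g1E (g1M x y) := by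
  simp only [g1E, g1M]
  push_cast
  linear_combination (x.2 * y.2 : ℝ) * ph_sq

theorem g1_add (x y : ℤ × ℤ) : g1E x + g1E y = g1E (g1A x y) := by
  simp only [g1E, g1A]
  push_cast
  ring

def g1d (a : Bool) : ℤ × ℤ := if a then (0, 1) else (1, 0)

def g1t (a b c : Bool) : ℤ × ℤ := if a || b || c then (-1, 1) else (1, 0)

def g1T (ab ac ad bc bd cd : Bool) : ℤ × ℤ :=
  if adm ab ac bc && adm ab ad bd && adm ac ad cd && adm bc bd cd then
    (if ab && ac && ad && bc && bd && cd then (-1, 0)
      else if ab || ac || ad || bc || bd || cd then (0, 1) else (1, 0))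
  else (0, 0)

def g1k (y x z : Bool) : ℤ × ℤ := if adm y x z then g1M (g1d z) (g1t y x z) else (0, 0)

theorem g1_dd (a : Bool) : dd a = g1E (g1d a) := by
  unfold dd g1d; split_ifs <;> simp [g1E]

theorem g1_th (a b c : Bool) : th a b c = g1E (g1t a b c) := by
  unfold th g1t; split_ifs <;> simp [g1E, ph_inv, sub_eq_neg_add]

theorem g1_TT (ab ac ad bc bd cd : Bool) : TT ab ac ad bc bd cd = g1E (g1T ab ac ad bc bd cd) := by
  unfold TT g1T; split_ifs <;> simp [g1E]

theorem g1_kap (y x z : Bool) : kap y x z = g1E (g1k y x z) := by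
  unfold kap g1k; split_ifs
  · rw [g1_dd, g1_th, g1_mul]
  · simp [g1E]

theorem dd_pos (a : Bool) : 0 < dd a := by
  have := ph_pos
  unfold dd; split_ifs <;> positivity

theorem th_pos (a b c : Bool) : 0 < th a b c := by
  have := ph_pos
  unfold th; split_ifs <;> positivity

theorem adm_comm (a b c : Bool) : adm a b c = adm b a c ∧ adm a b c = adm a c b := by
  revert a b c; decide

theorem th_comm (a b c : Bool) : th a b c = th b a c ∧ th a b c = th a c b := by
  simp only [g1_th]
  constructor <;> refine congrArg g1E ?_ <;> revert a b c <;> decide +kernel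

/-- The two generating symmetries and one more. -/
theorem TT_comm (ab ac ad bc bd cd : Bool) :
    TT ab ac ad bc bd cd = TT ab bc bd ac ad cd ∧ TT ab ac ad bc bd cd = TT ac ab ad bc cd bd ∧
      TT ab ac ad bc bd cd = TT ab ad ac bd bc cd := by
  simp only [g1_TT]
  refine ⟨?_, ?_, ?_⟩ <;> refine congrArg g1E ?_ <;> revert ab ac ad bc bd cd <;> decide +kernel

/-- The move 1-4 on the tetrahedron `v a b c` with the new edge to `a` of colour zero. -/
theorem id14 (xa xb xc ab ac bc : Bool) :
    (∑ y : Bool, ∑ zb : Bool, ∑ zc : Bool, dd y * kap y xa false * kap y xb zb * kap y xc zc *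
      (th false zb ab * th false zc ac * th zb zc bc) * TT false zb zc ab ac bc *
      (TT y xa xb false zb ab * TT y xa xc false zc ac * TT y xb xc zb zc bc)) =
      TT xa xb xc ab ac bc := by
  simp only [Fintype.sum_bool, g1_dd, g1_th, g1_TT, g1_kap, g1_mul, g1_add]
  refine congrArg g1E ?_
  revert xa xb xc ab ac bc
  decide +kernel

/-- The move 2-3 on the tetrahedra `v a b c` and `v v' a b`. -/
theorem id23 (y xa xb xc za zb ab ac bc : Bool) :
    th xa xb ab * TT xa xb xc ab ac bc * TT y xa xb za zb ab =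
      ∑ zc : Bool, kap y xc zc * (th za zc ac * th zb zc bc) * TT za zb zc ab ac bc *
        (TT y xa xc za zc ac * TT y xb xc zb zc bc) := by
  simp only [Fintype.sum_bool, g1_th, g1_TT, g1_kap, g1_mul, g1_add]
  refine congrArg g1E ?_
  revert y xa xb xc za zb ab ac bc
  decide +kernel

/-- Removing the vertex `u` of valence two with neighbour `a`. -/
theorem idzip (y xa zu za za' b : Bool) (h1 : adm y xa za = true) (h2 : adm zu za b = true) :
    (∑ xu : Bool, dd xu * th xu xa b * kap y xu zu * (th zu za b * th zu za' b) *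
      (TT y xu xa zu za b * TT y xu xa zu za' b)) =
      if za = za' then dd zu * th zu za b / kap' y xa za else 0 := by
  have hk : kap' y xa za ≠ 0 := (mul_pos (dd_pos _) (th_pos _ _ _)).ne'
  split_ifs with h
  · rw [eq_div_iff hk]
    simp only [kap', Fintype.sum_bool, g1_dd, g1_th, g1_TT, g1_kap, g1_mul, g1_add]
    refine congrArg g1E ?_
    clear hk
    revert y xa zu za za' b
    decide +kernel
  · simp only [Fintype.sum_bool, g1_dd, g1_th, g1_TT, g1_kap, g1_mul, g1_add]
    rw [show (0 : ℝ) = g1E (0, 0) by simp [g1E]]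
    refine congrArg g1E ?_
    clear hk
    revert y xa zu za za' b
    decide +kernel

theorem idend (z : Bool) :
    (∑ y : Bool, ∑ x : Bool, dd y * dd x * if adm y x z then 1 else 0) = D2 * dd z := by
  have := ph_sq
  cases z <;> simp [dd, adm, D2] <;> linarith

theorem w1_two {c : V → V → Bool} (hs : ∀ a b, c a b = c b a) (h0 : ∀ a, c a a = false) {a b : V}
    (hab : a ≠ b) : w1 c {a, b} = dd (c a b) := by
  have h1 : act c {a, b} ↔ c a b = true := by simp [act, h0, hs b a]
  rw [w1, dd, Finset.card_pair hab, if_pos rfl]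
  exact if_congr h1 rfl rfl

theorem w1_three {c : V → V → Bool} (hs : ∀ a b, c a b = c b a) (h0 : ∀ a, c a a = false)
    {a b d : V} (hab : a ≠ b) (had : a ≠ d) (hbd : b ≠ d) :
    w1 c {a, b, d} = th (c a b) (c a d) (c b d) := by
  have h1 : act c {a, b, d} ↔ (c a b || c a d || c b d) = true := by
    simp only [act, Finset.mem_insert, Finset.mem_singleton, exists_eq_or_imp, exists_eq_left, h0,
      hs b a, hs d a, hs d b]
    cases c a b <;> cases c a d <;> cases c b d <;> simp
  have h2 : ({a, b, d} : Finset V).card = 3 := Finset.card_eq_three.2 ⟨a, b, d, hab, had, hbd, rfl⟩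
  rw [w1, th, h2, if_neg (show ¬ 3 = 2 by norm_num), if_pos rfl]
  exact if_congr h1 rfl rfl

theorem w1_four {c : V → V → Bool} (hs : ∀ a b, c a b = c b a) (h0 : ∀ a, c a a = false)
    {a b d e : V} (hab : a ≠ b) (had : a ≠ d) (hae : a ≠ e) (hbd : b ≠ d) (hbe : b ≠ e)
    (hde : d ≠ e) (h1 : adm (c a b) (c a d) (c b d) = true) (h2 : adm (c a b) (c a e) (c b e) = true)
    (h3 : adm (c a d) (c a e) (c d e) = true) (h4 : adm (c b d) (c b e) (c d e) = true) :
    w1 c {a, b, d, e} = TT (c a b) (c a d) (c a e) (c b d) (c b e) (c d e) := by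
  have h5 : act c {a, b, d, e} ↔
      (c a b || c a d || c a e || c b d || c b e || c d e) = true := by
    simp only [act, Finset.mem_insert, Finset.mem_singleton, exists_eq_or_imp, exists_eq_left, h0,
      hs b a, hs d a, hs d b, hs e a, hs e b, hs e d]
    cases c a b <;> cases c a d <;> cases c b d <;> cases c a e <;> cases c b e <;>
      cases c d e <;> simp
  have h6 : ful c {a, b, d, e} ↔
      (c a b && c a d && c a e && c b d && c b e && c d e) = true := by
    simp only [ful, Finset.mem_insert, Finset.mem_singleton, forall_eq_or_imp, forall_eq,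
      hs b a, hs d a, hs d b, hs e a, hs e b, hs e d]
    simp [hab, had, hae, hbd, hbe, hde, hab.symm, had.symm, hae.symm, hbd.symm, hbe.symm, hde.symm]
    tauto
  have h7 : ({a, b, d, e} : Finset V).card = 4 := by
    rw [Finset.card_insert_of_notMem (by simp [hab, had, hae]),
      Finset.card_eq_three.2 ⟨b, d, e, hbd, hbe, hde, rfl⟩]
  rw [w1, TT, h7, h1, h2, h3, h4, if_neg (show ¬ 4 = 2 by norm_num),
    if_neg (show ¬ 4 = 3 by norm_num), if_congr h5 rfl rfl, if_congr h6 rfl rfl]
  cases c a b <;> cases c a d <;> cases c b d <;> cases c a e <;> cases c b e <;>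
    cases c d e <;> simp

theorem w1_one {c : V → V → Bool} (h0 : ∀ a, c a a = false) (a : V) : w1 c {a} = 1 := by
  rw [w1, if_neg (by simp [act, h0])]

end KG
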