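import Pool.Agent.Work.MP_c146e2_gt.KG.G2

set_option autoImplicit false

noncomputable section

open scoped Classical

namespace KG

variable {V V' : Type}

theorem g4_prod {α : Type} [Fintype α] {F F' : α → ℝ} (a : α) {c : ℝ} (h1 : F a = c) (h2 : F' a = 1)
    (h : ∀ i, i ≠ a → F i = F' i) : ∏ i, F i = c * ∏ i, F' i := by
  rw [← Finset.mul_prod_erase _ F (Finset.mem_univ a),
    ← Finset.mul_prod_erase _ F' (Finset.mem_univ a), h1, h2, one_mul]
  exact congrArg _ (Finset.prod_congr rfl fun i hi => h i (Finset.ne_of_mem_erase hi))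

theorem g4_prod2 {α β : Type} [Fintype α] [Fintype β] {F F' : α → β → ℝ} (a : β) {c : ℝ}
    (h1 : ∏ j, F j a = c) (h2 : ∀ j, F' j a = 1) (h : ∀ j i, i ≠ a → F j i = F' j i) :
    ∏ j, ∏ i, F j i = c * ∏ j, ∏ i, F' j i := by
  rw [← h1, ← Finset.prod_mul_distrib]
  exact Finset.prod_congr rfl fun j _ => g4_prod a rfl (h2 j) (h j)

theorem g4_pow {α : Type} [Fintype α] {F : α → ℝ} (s : Set α) {c : ℝ} (h1 : ∀ i ∈ s, F i = c)
    (h2 : ∀ i ∉ s, F i = 1) : ∏ i, F i = c ^ s.ncard := by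
  rw [← Finset.prod_subset (Finset.subset_univ s.toFinset) fun i _ hi => h2 i (by simpa using hi),
    Finset.prod_congr rfl fun i hi => h1 i (by simpa using hi), Finset.prod_const,
    Set.ncard_eq_toFinset_card']

theorem g4_sum [Fintype V] (u : V) (F : (V → Bool) → ℝ) :
    ∑ x, F x = ∑ x, if x u = false then ∑ c, F (Function.update x u c) else 0 := by
  have h1 : Function.Involutive fun x : V → Bool => Function.update x u (!x u) := fun x => by simp
  have h2 := Equiv.sum_comp h1.toPerm fun x => if x u = true then F x else 0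
  have h3 : ∀ x, F x = (if x u = true then F x else 0) + if x u = false then F x else 0 :=
    fun x => by cases x u <;> simp
  rw [Finset.sum_congr rfl fun x _ => h3 x, Finset.sum_add_distrib, ← h2, ← Finset.sum_add_distrib]
  refine Finset.sum_congr rfl fun x _ => ?_
  cases h : x u
  · have h4 : Function.update x u false = x := by rw [← h, Function.update_eq_self]
    simp [h, h4]
  · simp [h]

theorem g4_alg {d p2 p2' p3 p3' p4 p4' p5 p6 p6' p7 p7' p8 p8' p9 p9' p10 p10' f2 f3 f6 f7 f9 f10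
    k : ℝ} (q K K' : ℝ) (h2 : p2 = f2 * p2') (h3 : p3 = f3 * p3') (h4 : p4 = p4')
    (h6 : p6 = f6 * p6') (h7 : p7' = f7 * p7) (h8 : p8 = K * p8') (h9 : p9 = K' * q)
    (h9' : p9' = f9 * q) (h10 : p10' = f10 * p10) (hK : K * K' = k) :
    d * p2 * p3 * p4 * p5 * p6 * p7 * p8 * p9 * p10 * (f7 * f9 * f10) =
      d * p2' * p3' * p4' * p5 * p6' * p7' * p8' * p9' * p10' * (f2 * f3 * k * f6) := by
  subst h2 h3 h4 h6 h7 h8 h9 h9' h10 hK
  ring

theorem g4_kap (y x z : Bool) (n : ℕ) :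
    kap y x z ^ (n + 1) * (kap' y x z)⁻¹ ^ n = kap y x z := by
  have hk : kap' y x z ≠ 0 := (mul_pos (dd_pos _) (th_pos _ _ _)).ne'
  unfold kap
  split_ifs
  · change kap' y x z ^ (n + 1) * _ = kap' y x z
    rw [pow_succ', mul_assoc, ← mul_pow, mul_inv_cancel₀ hk, one_pow, mul_one]
  · rw [pow_succ, mul_zero, zero_mul]

theorem g4_thW {x x' : V → Bool} (b : V → V → Bool) {e : Finset V} (h : ∀ v ∈ e, x v = x' v) :
    thW x b e = thW x' b e := by
  unfold thW
  exact if_congr (or_congr_left (exists_congr fun v => and_congr_right fun hv => by rw [h v hv]))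
    rfl rfl

theorem g4_sqW {x x' : V → Bool} (y : Bool) (z : V → Bool) (b : V → V → Bool) {e : Finset V}
    (h : ∀ v ∈ e, x v = x' v) : sqW y x z b e = sqW y x' z b e := by
  unfold sqW
  refine if_congr (and_congr (forall₂_congr fun v hv => by rw [h v hv])
    (forall₂_congr fun v hv => forall₂_congr fun w hw => by rw [h v hv, h w hw])) ?_ rfl
  refine if_congr (and_congr_right fun _ => and_congr_left fun _ =>
    forall₂_congr fun v hv => by rw [h v hv]) rfl ?_
  exact if_congr (or_congr_right (or_congr_left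
    (exists_congr fun v => and_congr_right fun hv => by rw [h v hv]))) rfl rfl

theorem g4_zE {ζ : Finset V → V → Bool} {D : Set (Finset V)} {e t : Finset V} {v : V} {z : Bool}
    (ht : t ∈ D) (he : e ⊆ t) (h : ∀ s ∈ D, e ⊆ s → ζ s v = z) : zE ζ D e v = z := by
  unfold zE
  cases z
  · refine decide_eq_false ?_
    rintro ⟨s, h1, h2, h3⟩
    rw [h s h1 h2] at h3
    exact Bool.false_ne_true h3
  · exact decide_eq_true ⟨t, ht, he, h t ht he⟩

theorem g4_key [Fintype V] {G : Cx V} {S : Set V} (h : Surf G S) {b : V → V → Bool}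
    (hs : ∀ a a', b a a' = b a' a) (h0 : ∀ a, b a a = false)
    {R R' : Set (Finset V)} {I I' : Set V} {u a : V} (hR' : ∀ e, e ∈ R' ↔ e = {u, a} ∨ e ∈ R)
    (hI' : ∀ v, v ∈ I' ↔ v = u ∨ v ∈ I) (hR : R ⊆ Edg G S) (hua : u ≠ a) (huI : u ∉ I)
    (haI : a ∉ I) (he : {u, a} ∈ Edg G S) (heR : {u, a} ∉ R)
    (hu : ∀ e ∈ Edg G S, u ∈ e → e ≠ {u, a} → e ∈ R) {t t' : Finset V} (ht : t ∈ Tri G S)
    (ht' : t' ∈ Tri G S) (htt : t ≠ t') (het : {u, a} ⊆ t) (het' : {u, a} ⊆ t')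
    (h2 : ∀ s ∈ Tri G S, {u, a} ⊆ s → s = t ∨ s = t') (y : Bool) {x x₀ : V → Bool}
    (hx : ∀ v, v ≠ u → x v = x₀ v) {ζ : Finset V → V → Bool} {z : Bool}
    (hz : ∀ s ∈ Tri G S, u ∈ s → ζ s u = z) :
    PhiW G S b (Tri G S) R I y x ζ * (thW (zE ζ (Tri G S) {u, a}) b {u, a} *
      (kap' y (x₀ a) (zE ζ (Tri G S) {u, a} a))⁻¹ * dd z) =
    PhiW G S b (Tri G S) R' I' y x₀ ζ *
      (dd (x u) * th (x u) (x₀ a) (b u a) * kap y (x u) z *
        (th z (ζ t a) (b u a) * TT y (x u) (x₀ a) z (ζ t a) (b u a) *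
          (th z (ζ t' a) (b u a) * TT y (x u) (x₀ a) z (ζ t' a) (b u a)))) := by
  have m1 : u ∈ ({u, a} : Finset V) := Finset.mem_insert_self _ _
  have n1 : {u, a} ∈ R' := (hR' _).2 (Or.inl rfl)
  have n2 : u ∈ I' := (hI' _).2 (Or.inl rfl)
  have huS : u ∈ S := he.2.1 u m1
  have hxe : ∀ e ∈ Edg G S, e ∉ R → e ≠ {u, a} → ∀ v ∈ e, x v = x₀ v :=
    fun e h1 h3 h4 v hv => hx v fun h5 => h3 (hu e h1 (h5 ▸ hv) h4)
  have hc : {e | e ∈ Edg G S ∧ u ∈ e} = insert {u, a} {e | e ∈ R ∧ u ∈ e} := by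
    ext e
    constructor
    · exact fun k => (em (e = {u, a})).imp id fun k' => ⟨hu e k.1 k.2 k', k.2⟩
    · rintro (rfl | k)
      exacts [⟨he, m1⟩, ⟨hR k.1, k.2⟩]
  have hc' : {s | s ∈ Tri G S ∧ u ∈ s}.ncard = {e | e ∈ R ∧ u ∈ e}.ncard + 1 := by
    rw [(star_card h huS).1, hc, Set.ncard_insert_of_notMem fun k => heR k.1]
  unfold PhiW
  refine g4_alg (∏ e : Finset V, ∏ v : V, if e ∈ R ∧ v ∈ e ∧ v ∉ I' then
      (kap' y (x₀ v) (zE ζ (Tri G S) e v))⁻¹ else 1) _ _ ?_ ?_ ?_ ?_ ?_ ?_ ?_ ?_ ?_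
    (g4_kap y (x u) z {e | e ∈ R ∧ u ∈ e}.ncard)
  · refine g4_prod u (if_pos ⟨huS, huI⟩) (if_neg fun k => k.2 n2) fun v hv => ?_
    rw [hx v hv]
    exact if_congr (by simp [hv, hI']) rfl rfl
  · refine g4_prod {u, a} ((if_pos ⟨he, heR⟩).trans ?_)
      (if_neg fun k => k.2 n1) fun e k => ?_
    · rw [thW_eq hs h0 x hua, hx a hua.symm]
    · exact if_ctx_congr (by simp [k, hR']) (fun k' => g4_thW b
        (hxe e k'.1 (fun k'' => k'.2 ((hR' _).2 (Or.inr k''))) k)) fun _ => rfl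
  · exact Finset.prod_congr rfl fun s _ => by rw [if_neg fun k => k.2 k.1, if_neg fun k => k.2 k.1]
  · refine g4_prod2 {u, a} ?_ (fun s => if_neg fun k => k.2.2.2 n1)
      fun s e k => ?_
    · rw [Fintype.prod_eq_mul t t' htt fun s k => if_neg fun k' => (h2 s k'.1 k'.2.2.1).elim k.1 k.2,
        if_pos ⟨ht, he, het, heR⟩, if_pos ⟨ht', he, het', heR⟩, thW_eq hs h0 _ hua,
        thW_eq hs h0 _ hua, sqW_eq hs h0 _ _ _ hua, sqW_eq hs h0 _ _ _ hua, hx a hua.symm,
        hz t ht (het m1), hz t' ht' (het' m1)]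
    · refine if_ctx_congr (by simp [k, hR']) (fun k' => ?_) fun _ => rfl
      rw [g4_sqW y _ b (hxe e k'.2.1 (fun k'' => k'.2.2.2 ((hR' _).2 (Or.inr k''))) k)]
  · exact g4_prod {u, a} (if_pos n1) (if_neg heR) fun e k =>
      if_congr (by simp [k, hR']) rfl rfl
  · refine g4_prod2 u ?_ (fun s => if_neg fun k => k.2.2 n2) fun s v hv => ?_
    · rw [← hc']
      exact g4_pow _ (fun s k => by rw [if_pos ⟨k.1, k.2, huI⟩, hz s k.1 k.2])
        fun s k => if_neg fun k' => k ⟨k'.1, k'.2.1⟩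
    · rw [hx v hv]
      exact if_congr (by simp [hv, hI']) rfl rfl
  · refine g4_prod2 u ?_ (fun s => if_neg fun k => k.2.2 n2) fun s v hv => ?_
    · refine g4_pow _ (fun e k => ?_) fun s k => if_neg fun k' => k ⟨k'.1, k'.2.1⟩
      obtain ⟨s, k1, -, -, -, k2, -⟩ := edge_two h (hR k.1)
      rw [if_pos ⟨k.1, k.2, huI⟩, g4_zE k1 k2 fun s' k3 k4 => hz s' k3 (k4 k.2)]
    · rw [hx v hv]
      exact if_congr (by simp [hv, hI']) rfl rfl
  · refine g4_prod {u, a} ?_ (Finset.prod_eq_one fun v _ => if_neg fun k => heR k.1) fun e k =>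
      Finset.prod_congr rfl fun v _ => if_congr (by simp [k, hR']) rfl rfl
    refine (Fintype.prod_eq_single a fun v hv => if_neg fun k => ?_).trans
      (if_pos ⟨n1, by simp, by simp [hI', hua.symm, haI]⟩)
    rcases Finset.mem_insert.1 k.2.1 with k' | k'
    · exact k.2.2 (k' ▸ n2)
    · exact hv (Finset.mem_singleton.1 k')
  · refine g4_prod u ((if_pos n2).trans ?_) (if_neg huI) fun v hv =>
      if_congr (by simp [hv, hI']) rfl rfl
    rw [g4_zE ht (Finset.singleton_subset_iff.2 (het m1)) fun s k k' =>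
      hz s k (Finset.singleton_subset_iff.1 k')]

theorem phi_zip [Fintype V] {G : Cx V} {S : Set V} (h : Surf G S) {b : V → V → Bool}
    (hs : ∀ a a', b a a' = b a' a) (h0 : ∀ a, b a a = false) (t₀ : Finset V) (w : V)
    {R : Set (Finset V)} {I : Set V} {u a : V} (hR : R ⊆ Edg G S) (hI : I ⊆ S)
    (hRI : ∀ e ∈ Edg G S, e ∉ R → ∀ v ∈ e, v ∉ I) (he : {u, a} ∈ Edg G S) (heR : {u, a} ∉ R)
    (hu : ∀ e ∈ Edg G S, u ∈ e → e ≠ {u, a} → e ∈ R) :
    Phi G S b t₀ w (Tri G S) R I =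
      Phi G S b t₀ w (Tri G S) (insert {u, a} R) (insert u I) := by
  have _ := hI
  have m1 : u ∈ ({u, a} : Finset V) := Finset.mem_insert_self _ _
  have m2 : a ∈ ({u, a} : Finset V) := by simp
  have huS : u ∈ S := he.2.1 u m1
  have huI := hRI _ he heR u m1
  have haI := hRI _ he heR a m2
  have hua : u ≠ a := by
    rintro rfl
    simpa using he.2.2
  obtain ⟨t, ht, t', ht', htt, het, het', h2⟩ := edge_two h he
  unfold Phi
  refine Finset.sum_congr rfl fun y _ => ?_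
  rw [g4_sum u]
  refine Finset.sum_congr rfl fun x _ => ?_
  split_ifs with hxu
  swap
  · exact (Finset.sum_eq_zero fun ζ _ => if_neg fun k => hxu (k.1 u (Or.inr (Or.inl rfl)))).symm
  rw [Finset.sum_comm]
  refine Finset.sum_congr rfl fun ζ _ => ?_
  have hup : ∀ c, PhiC S t₀ w (Tri G S) R I (Function.update x u c) ζ ↔
      PhiC S t₀ w (Tri G S) R I x ζ := fun c =>
    and_congr_left' (forall₂_congr fun v hv => by
      rw [Function.update_of_ne (by rintro rfl; exact hv.elim (fun k => k huS) huI)])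
  by_cases hC : PhiC S t₀ w (Tri G S) R I x ζ
  swap
  · rw [Finset.sum_eq_zero fun c _ => if_neg fun k => hC ((hup c).1 k), if_neg]
    exact fun k => hC ⟨fun v hv => k.1 v (hv.imp_right Or.inr), k.2.1, k.2.2.1,
      fun e k' => k.2.2.2 e (Or.inr k')⟩
  have hz : ∀ s ∈ Tri G S, u ∈ s → ζ s u = ζ t u := fun s k k' =>
    star_const h huS a (fun s => ζ s u) (fun e k1 k2 k3 s₁ k4 s₂ k5 k6 k7 =>
      hC.2.2.2 e (hu e k1 k2 k3) s₁ k4 s₂ k5 k6 k7 u k2) s k t ht k' (het m1)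
  have hC' : PhiC S t₀ w (Tri G S) (insert {u, a} R) (insert u I) x ζ ↔ ζ t a = ζ t' a := by
    refine ⟨fun k => k.2.2.2 _ (Or.inl rfl) t ht t' ht' het het' a m2, fun k => ⟨?_, hC.2.1,
      hC.2.2.1, ?_⟩⟩
    · rintro v (hv | rfl | hv)
      exacts [hC.1 v (Or.inl hv), hxu, hC.1 v (Or.inr hv)]
    · rintro e (rfl | k')
      · intro s₁ k1 s₂ k2 k3 k4 v hv
        rcases Finset.mem_insert.1 hv with rfl | hv
        · rw [hz s₁ k1 (k3 m1), hz s₂ k2 (k4 m1)]
        · rw [Finset.mem_singleton.1 hv]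
          rcases h2 s₁ k1 k3 with rfl | rfl <;> rcases h2 s₂ k2 k4 with rfl | rfl
          exacts [rfl, k, k.symm, rfl]
      · exact hC.2.2.2 e k'
  have hQ : thW (zE ζ (Tri G S) {u, a}) b {u, a} *
      (kap' y (x a) (zE ζ (Tri G S) {u, a} a))⁻¹ * dd (ζ t u) ≠ 0 := by
    rw [thW_eq hs h0 _ hua]
    exact mul_ne_zero (mul_ne_zero (th_pos _ _ _).ne'
      (inv_ne_zero (mul_pos (dd_pos _) (th_pos _ _ _)).ne')) (dd_pos _).ne'
  refine mul_right_cancel₀ hQ ?_
  rw [Finset.sum_congr rfl fun c _ => if_pos ((hup c).2 hC), Finset.sum_mul,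
    Finset.sum_congr rfl fun c _ => g4_key (R' := insert {u, a} R) (I' := insert u I) h hs h0
      (fun _ => Iff.rfl) (fun _ => Iff.rfl) hR hua huI haI he heR hu ht ht' htt het het' h2 y
      (fun v hv => Function.update_of_ne hv c x) hz, ← Finset.mul_sum]
  simp only [Function.update_self]
  by_cases hW : PhiW G S b (Tri G S) (insert {u, a} R) (insert u I) y x ζ = 0
  · rw [hW, zero_mul, ite_self, zero_mul]
  have a1 : adm y (x a) (ζ t a) = true := by
    by_contra k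
    refine hW ?_
    unfold PhiW
    refine mul_eq_zero_of_left (mul_eq_zero_of_left (mul_eq_zero_of_right _ ?_) _) _
    refine Finset.prod_eq_zero (Finset.mem_univ t) (Finset.prod_eq_zero (Finset.mem_univ a) ?_)
    rw [if_pos ⟨ht, het m2, by simp [hua.symm, haI]⟩, kap, if_neg k]
  have a2 : adm (ζ t u) (ζ t a) (b u a) = true := by
    by_contra k
    refine hW ?_
    unfold PhiW
    refine mul_eq_zero_of_left (mul_eq_zero_of_left (mul_eq_zero_of_left (mul_eq_zero_of_left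
      (mul_eq_zero_of_left (mul_eq_zero_of_right _ ?_) _) _) _) _) _
    refine Finset.prod_eq_zero (Finset.mem_univ t) ?_
    rw [if_pos ht, tetW, if_neg fun k' => k (k'.1 u (het m1) a (het m2))]
  rw [(Finset.sum_congr rfl fun c _ => by ring).trans
    (idzip y (x a) (ζ t u) (ζ t a) (ζ t' a) (b u a) a1 a2)]
  by_cases k : ζ t a = ζ t' a
  · have e1 : zE ζ (Tri G S) {u, a} u = ζ t u := g4_zE ht het fun s k1 k2 => hz s k1 (k2 m1)
    have e2 : zE ζ (Tri G S) {u, a} a = ζ t a := g4_zE ht het fun s k1 k2 => by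
      rcases h2 s k1 k2 with rfl | rfl
      exacts [rfl, k.symm]
    rw [if_pos k, if_pos (hC'.2 k), thW_eq hs h0 _ hua, e1, e2]
    ring
  · rw [if_neg k, if_neg fun k' => k (hC'.1 k'), mul_zero, zero_mul]

end KG
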