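import Pool.Agent.Work.MP_c146e2_gt.KG.G2

set_option autoImplicit false

noncomputable section

open scoped Classical

namespace KG

variable {V V' : Type}

theorem g5_sum {α β : Type} [Fintype α] [Fintype β] (Z : β → α) (P : β → Prop) {C : α → Prop}
    {_ : ∀ a, Decidable (C a)} (hi : ∀ p q, P p → P q → Z p = Z q → p = q)
    (hC : ∀ a, C a ↔ ∃ p, P p ∧ Z p = a) (F : α → ℝ) :
    ∑ a, (if C a then F a else 0) = ∑ p, if P p then F (Z p) else 0 := by
  rw [← Finset.sum_filter, ← Finset.sum_filter]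
  refine (Finset.sum_nbij Z (fun p hp => ?_) (fun p hp q hq => hi p q ?_ ?_) (fun a ha => ?_)
    fun _ _ => rfl).symm
  · exact Finset.mem_filter.2 ⟨Finset.mem_univ _, (hC _).2 ⟨p, (Finset.mem_filter.1 hp).2, rfl⟩⟩
  · exact (Finset.mem_filter.1 hp).2
  · exact (Finset.mem_filter.1 hq).2
  · obtain ⟨p, h1, h2⟩ := (hC a).1 (Finset.mem_filter.1 ha).2
    exact ⟨p, Finset.mem_filter.2 ⟨Finset.mem_univ _, h1⟩, h2⟩

section

variable {α : Type} [Fintype α] {p q : α → Prop} {_ : ∀ a, Decidable (p a)}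
  [∀ a, Decidable (q a)] {f g : α → ℝ}

theorem g5_congr (h : ∀ a, p a ↔ q a) (hf : ∀ a, q a → f a = g a) :
    ∏ a, (if p a then f a else 1) = ∏ a, if q a then g a else 1 :=
  Finset.prod_congr rfl fun a _ => ite_congr (propext (h a)) (hf a) fun _ => rfl

theorem g5_fin (s : Finset α) (h : ∀ a, p a ↔ a ∈ s) :
    ∏ a, (if p a then f a else 1) = ∏ a ∈ s, f a := by
  rw [← Finset.prod_filter]
  exact Finset.prod_congr (Finset.ext fun a => by simp [h]) fun _ _ => rfl

theorem g5_one (h : ∀ a, ¬ p a) : ∏ a, (if p a then f a else 1) = 1 :=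
  Finset.prod_eq_one fun a _ => if_neg (h a)

theorem g5_single (c : α) (h : ∀ a, p a ↔ a = c) : ∏ a, (if p a then f a else 1) = f c :=
  (g5_fin {c} fun a => (h a).trans Finset.mem_singleton.symm).trans (Finset.prod_singleton _ _)

theorem g5_split {c : α} (hc : p c) (h : ∀ a, q a ↔ p a ∧ a ≠ c) :
    ∏ a, (if p a then f a else 1) = f c * ∏ a, if q a then f a else 1 := by
  have e : ∏ a, (if a = c then f a else 1) = f c := g5_single c fun _ => Iff.rfl
  rw [← e, ← Finset.prod_mul_distrib]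
  refine Finset.prod_congr rfl fun a _ => ?_
  by_cases e : a = c
  · rw [if_pos e, if_pos (e ▸ hc), if_neg fun h1 => ((h a).1 h1).2 e, mul_one]
  · rw [if_neg e, one_mul]
    exact ite_congr (propext ((h a).trans (and_iff_left e)).symm) (fun _ => rfl) fun _ => rfl

theorem g5_pow (c : ℝ) (hf : ∀ a, p a → f a = c) :
    ∏ a, (if p a then f a else 1) = c ^ {a | p a}.ncard := by
  rw [g5_fin {a | p a}.toFinset fun a => by simp, Set.ncard_eq_toFinset_card', ← Finset.prod_const]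
  exact Finset.prod_congr rfl fun a ha => hf a (by simpa using ha)

end

theorem g5_ten {a1 a2 a3 a4 a5 a6 a7 a8 a9 a10 b2 b3 b4 b5 b6 b7 b8 b9 b10 c : ℝ} (h2 : a2 = b2)
    (h3 : a3 = b3) (h4 : a4 = b4) (h5 : a5 = b5) (h6 : a6 = b6) (h7 : a7 = b7) (h8 : a8 = b8)
    (h9 : a9 = b9) (h10 : a10 = b10) (h : a1 * b2 * b3 * b4 * b5 * b6 * b7 * b8 * b9 * b10 = c) :
    a1 * a2 * a3 * a4 * a5 * a6 * a7 * a8 * a9 * a10 = c := by
  rw [h2, h3, h4, h5, h6, h7, h8, h9, h10, h]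

theorem g5_edges {G : Cx V} {S : Set V} {w a c : V} (ht : {w, a, c} ∈ Tri G S) (h1 : w ≠ a)
    (h2 : w ≠ c) (h3 : a ≠ c) (e : Finset V) : e ∈ Edg G S ∧ e ⊆ {w, a, c} ↔
      e ∈ ({{w, a}, {w, c}, {a, c}} : Finset (Finset V)) := by
  simp only [Finset.mem_insert, Finset.mem_singleton]
  constructor
  · rintro ⟨he, hs⟩
    obtain ⟨p, q, hpq, rfl⟩ := Finset.card_eq_two.1 he.2.2
    have hp := hs (Finset.mem_insert_self _ _)
    have hq := hs (Finset.mem_insert_of_mem (Finset.mem_singleton_self _))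
    simp only [Finset.mem_insert, Finset.mem_singleton] at hp hq
    rcases hp with rfl | rfl | rfl <;> rcases hq with rfl | rfl | rfl <;>
      simp [Finset.pair_comm] at hpq ⊢
  · have key : ∀ p q, p ≠ q → ({p, q} : Finset V) ⊆ {w, a, c} →
        {p, q} ∈ Edg G S ∧ ({p, q} : Finset V) ⊆ {w, a, c} := fun p q hpq h =>
      ⟨⟨⟨Finset.insert_nonempty _ _, fun x hx y hy => ht.1.2 x (h hx) y (h hy)⟩,
        fun x hx => ht.2.1 x (h hx), Finset.card_pair hpq⟩, h⟩
    rintro (rfl | rfl | rfl)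
    exacts [key _ _ h1 (by simp [Finset.subset_iff]), key _ _ h2 (by simp [Finset.subset_iff]),
      key _ _ h3 (by simp [Finset.subset_iff])]

theorem g5_three {α : Type} [DecidableEq α] {p q r : α} (h1 : p ≠ q) (h2 : p ≠ r) (h3 : q ≠ r)
    (f : α → ℝ) : ∏ x ∈ ({p, q, r} : Finset α), f x = f p * (f q * f r) := by
  rw [Finset.prod_insert (by simp [h1, h2]), Finset.prod_pair h3]

theorem g5_W [Fintype V] {G : Cx V} {S : Set V} {b : V → V → Bool}
    (hs : ∀ a a', b a a' = b a' a) (h0 : ∀ a, b a a = false) {w a c : V} (ht : {w, a, c} ∈ Tri G S)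
    (h1 : w ≠ a) (h2 : w ≠ c) (h3 : a ≠ c) {D R : Set (Finset V)} {I : Set V}
    (hD : ∀ t, t ∈ D ↔ t = {w, a, c}) (hR : ∀ e, e ∉ R) (hI : ∀ u, u ∉ I) (y : Bool) (x : V → Bool)
    (ζ : Finset V → V → Bool) : PhiW G S b D R I y x ζ = (∏ u : V, if u ∈ S then dd (x u) else 1) *
      (∏ e : Finset V, if e ∈ Edg G S then thW x b e else 1) *
      (∏ t : Finset V, if t ∈ Tri G S ∧ t ∉ D then tetW x b t else 1) *
      (fun zw za zc => dd y * kap y (x w) zw * kap y (x a) za * kap y (x c) zc *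
        (th zw za (b w a) * th zw zc (b w c) * th za zc (b a c)) *
        TT zw za zc (b w a) (b w c) (b a c) * (TT y (x w) (x a) zw za (b w a) *
          TT y (x w) (x c) zw zc (b w c) * TT y (x a) (x c) za zc (b a c)))
        (ζ {w, a, c} w) (ζ {w, a, c} a) (ζ {w, a, c} c) := by
  have n1 : ({w, a} : Finset V) ≠ {w, c} := fun h => by
    simpa [h1.symm, h3] using (Finset.ext_iff.1 h a).1
  have n2 : ({w, a} : Finset V) ≠ {a, c} := fun h => by simpa [h1, h2] using (Finset.ext_iff.1 h w).1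
  have n3 : ({w, c} : Finset V) ≠ {a, c} := fun h => by simpa [h1, h2] using (Finset.ext_iff.1 h w).1
  have e6 : (∏ t : Finset V, ∏ e : Finset V, if t ∈ D ∧ e ∈ Edg G S ∧ e ⊆ t ∧ e ∉ R then
      thW (ζ t) b e * sqW y x (ζ t) b e else 1) =
      ∏ e ∈ {{w, a}, {w, c}, {a, c}}, thW (ζ {w, a, c}) b e * sqW y x (ζ {w, a, c}) b e := by
    rw [Finset.prod_eq_single {w, a, c} (fun t _ h => g5_one fun _ k => h ((hD t).1 k.1)) (by simp)]
    exact g5_fin _ fun e => Iff.trans (by simp [hD, hR]) (g5_edges ht h1 h2 h3 e)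
  have e8 : (∏ t : Finset V, ∏ u : V, if t ∈ D ∧ u ∈ t ∧ u ∉ I then kap y (x u) (ζ t u) else 1) =
      ∏ u ∈ {w, a, c}, kap y (x u) (ζ {w, a, c} u) := by
    rw [Finset.prod_eq_single {w, a, c} (fun t _ h => g5_one fun _ k => h ((hD t).1 k.1)) (by simp)]
    exact g5_fin _ fun u => by simp [hD, hI]
  refine g5_ten (g5_congr (q := fun u => u ∈ S) (fun u => and_iff_left (hI u)) fun _ _ => rfl)
    (g5_congr (q := fun e => e ∈ Edg G S) (fun e => and_iff_left (hR e)) fun _ _ => rfl) rfl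
    (g5_single {w, a, c} hD) e6 (g5_one hR) e8
    (Finset.prod_eq_one fun e _ => g5_one fun _ k => hR e k.1) (g5_one hI) ?_
  rw [g5_three n1 n2 n3, g5_three h1 h2 h3, tetW_eq hs h0 _ h1 h2 h3, thW_eq hs h0 _ h1,
    thW_eq hs h0 _ h2, thW_eq hs h0 _ h3, sqW_eq hs h0 _ _ _ h1, sqW_eq hs h0 _ _ _ h2,
    sqW_eq hs h0 _ _ _ h3]
  ring

theorem phi_start [Fintype V] {G : Cx V} {S : Set V} {b : V → V → Bool}
    (hs : ∀ a a', b a a' = b a' a) (h0 : ∀ a, b a a = false) {t₀ : Finset V} (ht : t₀ ∈ Tri G S)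
    {w : V} (hw : w ∈ t₀) : Phi G S b t₀ w {t₀} ∅ ∅ = ZL G S b fun _ => True := by
  obtain ⟨a, c, h3, e⟩ := Finset.card_eq_two.1
    ((Finset.card_erase_of_mem hw).trans (by rw [ht.2.2]))
  have h1 : w ≠ a := (Finset.ne_of_mem_erase (e ▸ Finset.mem_insert_self a {c})).symm
  have h2 : w ≠ c := (Finset.ne_of_mem_erase
    (e ▸ Finset.mem_insert_of_mem (Finset.mem_singleton_self c))).symm
  obtain rfl : t₀ = {w, a, c} := by rw [← e, Finset.insert_erase hw]
  have hD : ∀ t, t ∈ ({{w, a, c}} : Set (Finset V)) ↔ t = {w, a, c} := fun _ => Iff.rfl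
  generalize ({{w, a, c}} : Set (Finset V)) = D at hD
  rw [Phi, ZL, Finset.sum_comm]
  refine Finset.sum_congr rfl fun x _ => ?_
  split_ifs with hx
  swap
  · exact Finset.sum_eq_zero fun y _ => Finset.sum_eq_zero fun ζ _ =>
      if_neg fun h => hx ⟨fun u hu => h.1 u (Or.inl hu), trivial⟩
  let Z : Bool × Bool → Finset V → V → Bool := fun z t u =>
    if t = {w, a, c} then if u = a then z.1 else if u = c then z.2 else false else false
  have Zw : ∀ z, Z z {w, a, c} w = false := fun z => by simp [Z, h1, h2]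
  have Za : ∀ z, Z z {w, a, c} a = z.1 := fun z => by simp [Z]
  have Zc : ∀ z, Z z {w, a, c} c = z.2 := fun z => by simp [Z, h3.symm]
  have hC : ∀ ζ, PhiC S {w, a, c} w D ∅ ∅ x ζ ↔ ∃ z, True ∧ Z z = ζ := fun ζ => by
    constructor
    · rintro ⟨-, k1, k2, -⟩
      refine ⟨(ζ {w, a, c} a, ζ {w, a, c} c), trivial, funext fun t => funext fun u => ?_⟩
      simp only [Z]
      split_ifs with e1 e2 e3
      · rw [e1, e2]
      · rw [e1, e3]
      · by_cases e4 : u = w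
        · rw [e1, e4, k2]
        · exact (k1 t u (Or.inr (by simp [e1, e2, e3, e4]))).symm
      · exact (k1 t u (Or.inl (mt (hD t).1 e1))).symm
    · rintro ⟨z, -, rfl⟩
      refine ⟨fun u hu => hx.1 u (hu.resolve_right id), fun t u h => ?_, Zw z, fun _ h => h.elim⟩
      simp only [Z]
      split_ifs with e1 e2 e3
      · exact absurd h (by simp [e1, e2, hD])
      · exact absurd h (by simp [e1, e3, hD])
      · rfl
      · rfl
  rw [g5_split (q := fun t => t ∈ Tri G S ∧ t ∉ D) ht fun t => and_congr_right' (hD t).not,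
    tetW_eq hs h0 x h1 h2 h3, ← id14, Finset.sum_mul, Finset.mul_sum]
  refine Finset.sum_congr rfl fun y _ => ?_
  rw [g5_sum Z (fun _ => True) (fun p q _ _ h => Prod.ext (by rw [← Za, h, Za])
    (by rw [← Zc, h, Zc])) hC, ← Fintype.sum_prod_type', Finset.sum_mul, Finset.mul_sum]
  refine Finset.sum_congr rfl fun z _ => ?_
  rw [if_pos trivial, g5_W (R := ∅) (I := ∅) hs h0 ht h1 h2 h3 hD (fun _ => id) fun _ => id, Zw, Za,
    Zc]
  ring

theorem g5_thW {x x' : V → Bool} (b : V → V → Bool) {e : Finset V} (h : ∀ a ∈ e, x a = x' a) :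
    thW x b e = thW x' b e := by
  have : (∃ a ∈ e, x a = true) ↔ ∃ a ∈ e, x' a = true :=
    exists_congr fun a => and_congr_right fun ha => by rw [h a ha]
  simp only [thW, this]

theorem g5_tetW {x x' : V → Bool} (b : V → V → Bool) {t : Finset V} (h : ∀ a ∈ t, x a = x' a) :
    tetW x b t = tetW x' b t := by
  have h1 : (∃ a ∈ t, x a = true) ↔ ∃ a ∈ t, x' a = true :=
    exists_congr fun a => and_congr_right fun ha => by rw [h a ha]
  have h2 : (∀ a ∈ t, x a = true) ↔ ∀ a ∈ t, x' a = true :=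
    forall₂_congr fun a ha => by rw [h a ha]
  have h3 : (∀ a ∈ t, ∀ a' ∈ t, adm (x a) (x a') (b a a') = true) ↔
      ∀ a ∈ t, ∀ a' ∈ t, adm (x' a) (x' a') (b a a') = true :=
    forall₂_congr fun a ha => forall₂_congr fun a' ha' => by rw [h a ha, h a' ha']
  exact if_congr (and_congr_left' h3) (if_congr (and_congr_left' h2) rfl
    (if_congr (or_congr_left h1) rfl rfl)) rfl

/-- corner colours that depend on the vertex only -/
def g5Z (D : Set (Finset V)) (x : V → Bool) (t : Finset V) (u : V) : Bool :=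
  if t ∈ D ∧ u ∈ t then x u else false

theorem g5_Z {D : Set (Finset V)} (x : V → Bool) {t : Finset V} {u : V} (ht : t ∈ D) (hu : u ∈ t) :
    g5Z D x t u = x u := if_pos ⟨ht, hu⟩

theorem g5_zE {D : Set (Finset V)} (x : V → Bool) {e t : Finset V} {u : V} (ht : t ∈ D)
    (he : e ⊆ t) (hu : u ∈ e) : zE (g5Z D x) D e u = x u := by
  rw [zE, Bool.eq_iff_iff, decide_eq_true_iff]
  exact ⟨fun ⟨s, h1, h2, h3⟩ => g5_Z x h1 (h2 hu) ▸ h3, fun h => ⟨t, ht, he, g5_Z x ht (he hu) ▸ h⟩⟩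

theorem g5_kap (y x z : Bool) {m : ℕ} (hm : 0 < m) :
    kap y x z ^ m * (kap' y x z)⁻¹ ^ m = if adm y x z then 1 else 0 := by
  rw [← mul_pow, kap, kap']
  split_ifs
  · rw [mul_inv_cancel₀ (mul_pos (dd_pos _) (th_pos _ _ _)).ne', one_pow]
  · rw [zero_mul, zero_pow hm.ne']

theorem phi_end [Fintype V] {G : Cx V} {S : Set V} (h : Surf G S) {b : V → V → Bool}
    (hs : ∀ a a', b a a' = b a' a) (h0 : ∀ a, b a a = false) {t₀ : Finset V} (ht : t₀ ∈ Tri G S)
    {w : V} (hw : w ∈ t₀) {w₀ : V} (hw₀ : w₀ ∈ S) :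
    Phi G S b t₀ w (Tri G S) (Edg G S) (S \ {w₀}) = D2 * ZL G S b fun x => x w = false := by
  have hv : ∀ u ∈ S, ∃ t ∈ Tri G S, u ∈ t := fun u hu =>
    Set.nonempty_of_ncard_ne_zero ((star_card h hu).2.trans_eq (star_card h hu).1.symm).ne'
  have he : ∀ e ∈ Edg G S, ∃ t ∈ Tri G S, e ⊆ t := fun e he => by
    obtain ⟨t, h1, _, _, _, h2, _⟩ := edge_two h he
    exact ⟨t, h1, h2⟩
  have hI' : ∀ u, u ∈ S \ {w₀} ↔ u ∈ S ∧ u ≠ w₀ := fun _ => Iff.rfl
  generalize S \ {w₀} = I at hI'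
  have hI : ∀ u ∈ S, u ∉ I ↔ u = w₀ := fun u hu => by simp [hI', hu]
  let Z : (V → Bool) × Bool → (V → Bool) × (Finset V → V → Bool) := fun p =>
    (fun u => if u = w₀ then p.2 else false, g5Z (Tri G S) p.1)
  let P : (V → Bool) × Bool → Prop := fun p => (∀ u ∉ S, p.1 u = false) ∧ p.1 w = false
  have hi : ∀ p q, P p → P q → Z p = Z q → p = q := fun p q hp hq e => by
    refine Prod.ext (funext fun u => ?_) (by simpa [Z] using congrFun (congrArg Prod.fst e) w₀)
    by_cases hu : u ∈ S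
    · obtain ⟨t, h1, h2⟩ := hv u hu
      rw [← g5_Z p.1 h1 h2, ← g5_Z q.1 h1 h2]
      exact congrFun (congrFun (congrArg Prod.snd e) t) u
    · rw [hp.1 u hu, hq.1 u hu]
  have hC : ∀ r : (V → Bool) × (Finset V → V → Bool),
      PhiC S t₀ w (Tri G S) (Edg G S) I r.1 r.2 ↔ ∃ p, P p ∧ Z p = r := fun r => by
    constructor
    · rintro ⟨k0, k1, k2, k3⟩
      have k4 : ∀ t ∈ Tri G S, ∀ u ∈ t, decide (∃ s ∈ Tri G S, r.2 s u = true) = r.2 t u := by
        intro t ht u hu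
        rw [Bool.eq_iff_iff, decide_eq_true_iff]
        refine ⟨fun ⟨s, h1, h2⟩ => ?_, fun h1 => ⟨t, ht, h1⟩⟩
        have h3 : u ∈ s := by_contra fun h3 => by simp [k1 s u (Or.inr h3)] at h2
        rw [← h2]
        exact star_const h (ht.2.1 u hu) u (fun t => r.2 t u)
          (fun e he h4 _ t ht t' ht' h5 h6 => k3 e he t ht t' ht' h5 h6 u h4) t ht s h1 hu h3
      refine ⟨(fun u => decide (∃ s ∈ Tri G S, r.2 s u = true), r.1 w₀),
        ⟨fun u hu => decide_eq_false fun ⟨s, h1, h2⟩ => ?_, (k4 _ ht _ hw).trans k2⟩,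
        Prod.ext (funext fun u => ?_) (funext fun t => funext fun u => ?_)⟩
      · simp [k1 s u (Or.inr fun h3 => hu (h1.2.1 u h3))] at h2
      · simp only [Z]
        split_ifs with e
        · rw [e]
        · exact (k0 u (by_cases (fun hu : u ∈ S => Or.inr ((hI' u).2 ⟨hu, e⟩)) Or.inl)).symm
      · simp only [Z, g5Z]
        split_ifs with e
        · exact k4 t e.1 u e.2
        · exact (k1 t u (not_and_or.1 e)).symm
    · rintro ⟨p, hp, rfl⟩
      refine ⟨fun u hu => if_neg ?_, fun t u hu => if_neg (not_and_or.2 hu),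
        (g5_Z _ ht hw).trans hp.2, fun e _ t h1 t' h2 h3 h4 u hu =>
          (g5_Z _ h1 (h3 hu)).trans (g5_Z _ h2 (h4 hu)).symm⟩
      rintro rfl
      exact hu.elim (fun k => k hw₀) fun k => ((hI' _).1 k).2 rfl
  rw [Phi, ZL, Finset.mul_sum, Finset.sum_congr rfl fun y _ => (Fintype.sum_prod_type' _).symm.trans
    ((g5_sum Z P hi hC fun r => PhiW G S b (Tri G S) (Edg G S) I y r.1 r.2).trans
      (Fintype.sum_prod_type _)), Finset.sum_comm]
  refine Finset.sum_congr rfl fun x _ => ?_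
  split_ifs with hx
  swap
  · simp
  rw [g5_split (q := fun u => u ∈ I) hw₀ hI', mul_assoc, mul_assoc,
    ← mul_assoc D2, ← idend, Finset.sum_mul]
  refine Finset.sum_congr rfl fun y _ => ?_
  rw [Finset.sum_mul]
  refine Finset.sum_congr rfl fun z _ => ?_
  rw [PhiW, ← g5_kap y z (x w₀) (star_card h hw₀).2]
  have key : ∀ (D : Set (Finset V)) (F : Finset V → V → ℝ) (c : ℝ), (∀ t ∈ D, Ins t S) →
      (∀ t ∈ D, w₀ ∈ t → F t w₀ = c) → (∏ t : Finset V, ∏ u : V,
        if t ∈ D ∧ u ∈ t ∧ u ∉ I then F t u else 1) = c ^ {t | t ∈ D ∧ w₀ ∈ t}.ncard := by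
    intro D F c k1 k2
    rw [Finset.prod_comm, Finset.prod_eq_single w₀ (fun u _ k => g5_one fun t k' =>
      k ((hI u (k1 t k'.1 u k'.2.1)).1 k'.2.2)) (by simp), g5_pow c fun t k => k2 t k.1 k.2.1]
    simp only [(hI _ hw₀).2 rfl, not_false_iff, and_true]
  have e2 : (∏ u : V, if u ∈ S ∧ u ∉ I then dd ((Z (x, z)).1 u) else 1) = dd z := by
    rw [g5_single w₀ fun u => ⟨fun k => (hI u k.1).1 k.2, fun k => k.symm ▸ ⟨hw₀, (hI _ hw₀).2 rfl⟩⟩]
    exact congrArg dd (if_pos rfl)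
  refine g5_ten e2 (g5_one fun _ k => k.2 k.1) (g5_one fun _ k => k.2 k.1)
    (g5_congr (q := fun t => t ∈ Tri G S) (g := fun t => tetW x b t) (fun _ => Iff.rfl)
      fun t k => g5_tetW b fun u hu => g5_Z x k hu)
    (Finset.prod_eq_one fun _ _ => g5_one fun _ k => k.2.2.2 k.2.1)
    (g5_congr (q := fun e => e ∈ Edg G S) (g := fun e => thW x b e) (fun _ => Iff.rfl)
      fun e k => g5_thW b fun u hu => (he e k).elim fun t k' => g5_zE x k'.1 k'.2 hu)
    (key _ _ (kap y z (x w₀)) (fun _ k => k.2.1) fun t k k' =>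
      congrArg₂ (kap y) (if_pos rfl) (g5_Z x k k'))
    (key _ _ (kap' y z (x w₀))⁻¹ (fun _ k => k.2.1) fun e k k' => congrArg (·⁻¹)
      (congrArg₂ (kap' y) (if_pos rfl) ((he e k).elim fun t k'' => g5_zE x k''.1 k''.2 k')))
    (g5_congr (q := fun u => u ∈ I) (g := fun u => dd (x u)) (fun _ => Iff.rfl) fun u k => congrArg dd
      ((hv u ((hI' u).1 k).1).elim fun t k' => g5_zE x k'.1 (Finset.singleton_subset_iff.2 k'.2)
        (Finset.mem_singleton_self u))) ?_
  rw [(star_card h hw₀).1]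
  ring

end KG
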