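import Pool.Agent.Work.MP_c146e2_gt.KG.G3
import Pool.Agent.Work.MP_c146e2_gt.KG.G4
import Pool.Agent.Work.MP_c146e2_gt.KG.G5

set_option autoImplicit false

noncomputable section

open scoped Classical

namespace KG

variable {V V' : Type}

theorem gauge2 [Fintype V] {G : Cx V} {S : Set V} (h : Surf G S) (hc : Conn G S)
    (h2 : chi G S = 2) {b : V → V → Bool} (hs : ∀ a a', b a a' = b a' a) (h0 : ∀ a, b a a = false)
    {w : V} (hw : w ∈ S) : (ZL G S b fun _ => True) = D2 * ZL G S b fun x => x w = false := by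
  obtain ⟨e1, e2⟩ := star_card h hw
  obtain ⟨t, ht, hwt⟩ := Set.nonempty_of_ncard_ne_zero (e1.trans_ne e2.ne')
  obtain ⟨w₀, hw₀, e⟩ := collapse h hc h2 ht
    (fun D R I => Phi G S b t w D R I = ZL G S b fun _ => True) (phi_start hs h0 ht hwt)
    (fun D R t₁ t' e a1 a2 a3 a4 a5 a6 a7 a8 a9 a10 q =>
      (phi_grow h hs h0 w a1 a2 a3 a4 a5 a6 a7 a8 a9 a10).symm.trans q)
    fun R I u a a1 a2 a3 a4 a5 a6 q => (phi_zip h hs h0 t w a1 a2 a3 a4 a5 a6).symm.trans q
  exact e.symm.trans (phi_end h hs h0 ht hwt hw₀)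

theorem g6_adm (p q r : Bool) : adm p q r = true ↔ (p = false → q = false → r = false) ∧
    (p = false → r = false → q = false) ∧ (q = false → r = false → p = false) := by
  revert p q r
  decide

theorem g6_lk {G : Cx V} {v u : V} : u ∈ lk G {v} ↔ u ≠ v ∧ G.r u v := by simp [lk]

/-- The colouring with spokes `x` at `v` and colours `b` elsewhere. -/
def g6glue (v : V) (b : V → V → Bool) (x : V → Bool) : V → V → Bool :=
  fun a a' => if a = v then x a' else if a' = v then x a else b a a'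

theorem g6_left (v : V) (b : V → V → Bool) (x : V → Bool) (a : V) : g6glue v b x v a = x a :=
  if_pos rfl

theorem g6_right {v : V} (b : V → V → Bool) (x : V → Bool) (a : V) : g6glue v b x a v = x a := by
  by_cases h : a = v
  · rw [h, g6_left]
  · exact (if_neg h).trans (if_pos rfl)

theorem g6_off {v : V} (b : V → V → Bool) (x : V → Bool) {a a' : V} (h : a ≠ v) (h' : a' ≠ v) :
    g6glue v b x a a' = b a a' := (if_neg h).trans (if_neg h')

/-- The conditions away from `v`. -/
structure g6K (G : Cx V) (v : V) (A : V → V → Prop) (b : V → V → Bool) : Prop where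
  symm : ∀ a a', b a a' = b a' a
  supp : ∀ a a', b a a' = true → a ≠ v ∧ a' ≠ v ∧ G.r a a' ∧ a ≠ a' ∧ ¬ A a a'
  tri : ∀ a a' d, a ≠ v → a' ≠ v → d ≠ v → G.r a a' → G.r a' d → G.r a d → b a a' = false →
    b a' d = false → b a d = false

theorem g6K.zero {G : Cx V} {v : V} {A : V → V → Prop} {b : V → V → Bool} (h : g6K G v A b)
    (a : V) : b a a = false := Bool.eq_false_iff.2 fun e => (h.supp a a e).2.2.2.1 rfl

def g6P (v : V) (A : V → V → Prop) (x : V → Bool) : Prop :=
  ∀ u, u ≠ v → x u = true → ¬ A v u ∧ ¬ A u v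

def g6A (G : Cx V) (v : V) (b : V → V → Bool) (x : V → Bool) : Prop :=
  ∀ a ∈ lk G {v}, ∀ a' ∈ lk G {v}, G.r a a' → adm (x a) (x a') (b a a') = true

theorem g6_col {G : Cx V} {v : V} {A : V → V → Prop} {b : V → V → Bool} {x : V → Bool}
    (hb : ∀ a, b v a = false ∧ b a v = false) : Col G A (g6glue v b x) ↔
      g6K G v A b ∧ ((∀ u ∉ lk G {v}, x u = false) ∧ g6P v A x) ∧ g6A G v b x := by
  constructor
  · intro h
    refine ⟨⟨fun a a' => ?_, fun a a' e => ?_, fun a a' d n1 n2 n3 r1 r2 r3 => ?_⟩,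
      ⟨fun u hu => Bool.eq_false_iff.2 fun e => ?_, fun u _ e => ?_⟩, fun a ha a' ha' r => ?_⟩
    · by_cases h1 : a = v
      · rw [h1, (hb a').1, (hb a').2]
      by_cases h2 : a' = v
      · rw [h2, (hb a).1, (hb a).2]
      rw [← g6_off b x h1 h2, ← g6_off b x h2 h1, h.symm]
    · have h1 : a ≠ v := fun h1 => by rw [h1, (hb a').1] at e; exact Bool.noConfusion e
      have h2 : a' ≠ v := fun h2 => by rw [h2, (hb a).2] at e; exact Bool.noConfusion e
      exact ⟨h1, h2, h.supp a a' ((g6_off b x h1 h2).trans e)⟩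
    · rw [← g6_off b x n1 n2, ← g6_off b x n2 n3, ← g6_off b x n1 n3]
      exact h.tri a a' d r1 r2 r3
    · have h1 := h.supp u v ((g6_right b x u).trans e)
      exact hu (g6_lk.2 ⟨h1.2.1, h1.1⟩)
    · exact ⟨(h.supp v u ((g6_left v b x u).trans e)).2.2,
        (h.supp u v ((g6_right b x u).trans e)).2.2⟩
    · obtain ⟨n1, r1⟩ := g6_lk.1 ha
      obtain ⟨n2, r2⟩ := g6_lk.1 ha'
      have t1 := h.tri a v a' r1 (G.symm _ _ r2) r
      have t2 := h.tri v a a' (G.symm _ _ r1) r (G.symm _ _ r2)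
      have t3 := h.tri a a' v r r2 r1
      simp only [g6_left, g6_right, g6_off b x n1 n2] at t1 t2 t3
      exact (g6_adm _ _ _).2 ⟨t1, t2, fun p q => t3 q p⟩
  · rintro ⟨hK, ⟨hx, hP⟩, hA⟩
    have hS : ∀ u, x u = true → u ≠ v ∧ G.r u v := fun u e => g6_lk.1
      (not_not.1 fun hu => by rw [hx u hu] at e; exact Bool.noConfusion e)
    have hv : x v = false := hx v fun h => (g6_lk.1 h).1 rfl
    refine ⟨fun a a' => ?_, fun a a' e => ?_, fun a a' d r1 r2 r3 => ?_⟩
    · by_cases h1 : a = v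
      · rw [h1, g6_left, g6_right]
      by_cases h2 : a' = v
      · rw [h2, g6_left, g6_right]
      rw [g6_off b x h1 h2, g6_off b x h2 h1, hK.symm]
    · by_cases h1 : a = v
      · rw [h1, g6_left] at e
        rw [h1]
        exact ⟨G.symm _ _ (hS _ e).2, (hS _ e).1.symm, (hP _ (hS _ e).1 e).1⟩
      by_cases h2 : a' = v
      · rw [h2, g6_right] at e
        rw [h2]
        exact ⟨(hS _ e).2, h1, (hP _ h1 e).2⟩
      rw [g6_off b x h1 h2] at e
      exact (hK.supp a a' e).2.2
    · by_cases h1 : a = v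
      · subst h1
        by_cases h2 : a' = a
        · rw [h2]
          exact fun _ q => q
        by_cases h3 : d = a
        · rw [h3]
          exact fun _ _ => (g6_left _ b x _).trans hv
        rw [g6_left, g6_left, g6_off b x h2 h3]
        exact ((g6_adm _ _ _).1 (hA a' (g6_lk.2 ⟨h2, G.symm _ _ r1⟩) d
          (g6_lk.2 ⟨h3, G.symm _ _ r3⟩) r2)).2.1
      by_cases h2 : a' = v
      · subst h2
        by_cases h3 : d = a'
        · rw [h3]
          exact fun p _ => p
        rw [g6_left, g6_right, g6_off b x h1 h3]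
        exact ((g6_adm _ _ _).1 (hA a (g6_lk.2 ⟨h1, r1⟩) d (g6_lk.2 ⟨h3, G.symm _ _ r2⟩) r3)).1
      by_cases h3 : d = v
      · subst h3
        rw [g6_right, g6_right, g6_off b x h1 h2]
        exact fun p q => ((g6_adm _ _ _).1
          (hA a (g6_lk.2 ⟨h1, r3⟩) a' (g6_lk.2 ⟨h2, r2⟩) r1)).2.2 q p
      rw [g6_off b x h1 h2, g6_off b x h2 h3, g6_off b x h1 h3]
      exact hK.tri a a' d h1 h2 h3 r1 r2 r3

theorem g6_w1_off {v : V} (b : V → V → Bool) (x : V → Bool) {s : Finset V} (h : v ∉ s) :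
    w1 (g6glue v b x) s = w1 b s := by
  have e : ∀ a ∈ s, ∀ a' ∈ s, g6glue v b x a a' = b a a' := fun a ha a' ha' =>
    g6_off b x (fun e => h (e ▸ ha)) fun e => h (e ▸ ha')
  have e1 : act (g6glue v b x) s ↔ act b s :=
    exists_congr fun a => and_congr_right fun ha => exists_congr fun a' =>
      and_congr_right fun ha' => by rw [e a ha a' ha']
  have e2 : ful (g6glue v b x) s ↔ ful b s :=
    forall₂_congr fun a ha => forall₂_congr fun a' ha' => by rw [e a ha a' ha']
  simp only [w1, e1, e2]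

theorem g6_w1_on {v : V} (b : V → V → Bool) {x : V → Bool} (hv : x v = false) {s : Finset V}
    (h : v ∉ s) : w1 (g6glue v b x) (insert v s) =
      if (∃ a ∈ s, x a = true) ∨ act b s then
        (if s.card = 1 then ph else if s.card = 2 then ph⁻¹ else
          if (∀ a ∈ s, x a = true) ∧ ful b s then -1 else ph) else 1 := by
  have n : ∀ a ∈ s, a ≠ v := fun a ha e => h (e ▸ ha)
  have e1 : act (g6glue v b x) (insert v s) ↔ (∃ a ∈ s, x a = true) ∨ act b s := by
    constructor
    · rintro ⟨a, ha₀, a', ha', e⟩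
      rcases Finset.mem_insert.1 ha₀ with rfl | ha
      · rw [g6_left] at e
        rcases Finset.mem_insert.1 ha' with rfl | ha'
        · rw [hv] at e
          exact Bool.noConfusion e
        · exact Or.inl ⟨a', ha', e⟩
      · rcases Finset.mem_insert.1 ha' with rfl | ha'
        · exact Or.inl ⟨a, ha, (g6_right b x a).symm.trans e⟩
        · exact Or.inr ⟨a, ha, a', ha', (g6_off b x (n a ha) (n a' ha')).symm.trans e⟩
    · rintro (⟨a, ha, e⟩ | ⟨a, ha, a', ha', e⟩)
      · exact ⟨v, Finset.mem_insert_self _ _, a, Finset.mem_insert_of_mem ha,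
          (g6_left v b x a).trans e⟩
      · exact ⟨a, Finset.mem_insert_of_mem ha, a', Finset.mem_insert_of_mem ha',
          (g6_off b x (n a ha) (n a' ha')).trans e⟩
  have e2 : ful (g6glue v b x) (insert v s) ↔ (∀ a ∈ s, x a = true) ∧ ful b s := by
    constructor
    · intro f
      exact ⟨fun a ha => (g6_left v b x a).symm.trans (f v (Finset.mem_insert_self _ _) a
        (Finset.mem_insert_of_mem ha) (n a ha).symm), fun a ha a' ha' e =>
        (g6_off b x (n a ha) (n a' ha')).symm.trans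
          (f a (Finset.mem_insert_of_mem ha) a' (Finset.mem_insert_of_mem ha') e)⟩
    · rintro ⟨f, g⟩ a ha₀ a' ha' e
      rcases Finset.mem_insert.1 ha₀ with rfl | ha
      · exact (g6_left _ b x a').trans (f a' ((Finset.mem_insert.1 ha').resolve_left e.symm))
      · rcases Finset.mem_insert.1 ha' with rfl | ha'
        · exact (g6_right b x a).trans (f a ha)
        · exact (g6_off b x (n a ha) (n a' ha')).trans (g a ha a' ha' e)
  simp only [w1, e1, e2, Finset.card_insert_of_notMem h, Nat.reduceEqDiff]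

theorem g6_clq {G : Cx V} {v : V} {s : Finset V} (hs : s.Nonempty) :
    v ∉ s ∧ Clq G (insert v s) ↔ Clq G s ∧ Ins s (lk G {v}) := by
  constructor
  · rintro ⟨h, -, c⟩
    exact ⟨⟨hs, fun a ha a' ha' => c a (Finset.mem_insert_of_mem ha) a'
      (Finset.mem_insert_of_mem ha')⟩, fun a ha => g6_lk.2 ⟨fun e => h (e ▸ ha),
        c a (Finset.mem_insert_of_mem ha) v (Finset.mem_insert_self _ _)⟩⟩
  · rintro ⟨c, i⟩
    refine ⟨fun h => (g6_lk.1 (i v h)).1 rfl, Finset.insert_nonempty _ _, fun a ha₀ a' ha' => ?_⟩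
    rcases Finset.mem_insert.1 ha₀ with rfl | ha
    · rcases Finset.mem_insert.1 ha' with rfl | ha'
      · exact G.refl _
      · exact G.symm _ _ (g6_lk.1 (i a' ha')).2
    · rcases Finset.mem_insert.1 ha' with rfl | ha'
      · exact (g6_lk.1 (i a ha)).2
      · exact c.2 a ha a' ha'

theorem g6_split [Fintype V] (v : V) (f : Finset V → ℝ) :
    ∏ s, f s = (∏ s, if v ∉ s then f s else 1) * ∏ s, if v ∉ s then f (insert v s) else 1 := by
  rw [← Finset.prod_filter, ← Finset.prod_filter,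
    ← Finset.prod_filter_mul_prod_filter_not Finset.univ (fun s => v ∉ s) f]
  congr 1
  refine (Finset.prod_nbij' (insert v) (fun s => s.erase v) ?_ ?_ ?_ ?_ fun _ _ => rfl).symm
  · simp
  · simp
  · exact fun s hs => Finset.erase_insert (Finset.mem_filter.1 hs).2
  · exact fun s hs => Finset.insert_erase (not_not.1 (Finset.mem_filter.1 hs).2)

theorem g6_vert [Fintype V] (G : Cx V) (S : Set V) {b : V → V → Bool} (h0 : ∀ a, b a a = false)
    (x : V → Bool) : (∏ u : V, if u ∈ S then dd (x u) else 1) =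
      ∏ s : Finset V, if Clq G s ∧ Ins s S ∧ s.card = 1 then
        (if (∃ a ∈ s, x a = true) ∨ act b s then ph else 1) else 1 := by
  refine Finset.prod_of_injOn (fun u => ({u} : Finset V))
    (Finset.singleton_injective.injOn) (fun _ _ => Finset.mem_univ _) (fun s _ hs => ?_)
    fun u _ => ?_
  · refine if_neg fun h => ?_
    obtain ⟨u, rfl⟩ := Finset.card_eq_one.1 h.2.2
    exact hs ⟨u, Finset.mem_coe.2 (Finset.mem_univ _), rfl⟩
  · simp [Clq, Ins, G.refl, act, h0, dd]

theorem g6_wt [Fintype V] {G : Cx V} {v : V} (h : Surf G (lk G {v})) {A : V → V → Prop}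
    {b : V → V → Bool} {x : V → Bool} (hK : g6K G v A b) (hv : x v = false) (hA : g6A G v b x) :
    wt G (g6glue v b x) = (∏ s : Finset V, if v ∉ s ∧ Clq G s then w1 b s else 1) *
      ((∏ u : V, if u ∈ lk G {v} then dd (x u) else 1) *
        (∏ e : Finset V, if e ∈ Edg G (lk G {v}) then thW x b e else 1) *
        ∏ t : Finset V, if t ∈ Tri G (lk G {v}) then tetW x b t else 1) := by
  rw [wt, g6_split v, g6_vert G _ hK.zero]
  congr 1
  · refine Finset.prod_congr rfl fun s _ => ?_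
    by_cases hs : v ∈ s
    · simp [hs]
    · simp only [hs, not_false_eq_true, if_true, true_and, g6_w1_off b x hs]
  rw [← Finset.prod_mul_distrib, ← Finset.prod_mul_distrib]
  refine Finset.prod_congr rfl fun s _ => ?_
  rw [← ite_and]
  rcases s.eq_empty_or_nonempty with rfl | hs
  · rw [g6_w1_on b hv (Finset.notMem_empty v)]
    simp [Edg, Tri, act]
  by_cases hc : Clq G s ∧ Ins s (lk G {v})
  swap
  · rw [if_neg (mt (g6_clq hs).1 hc), if_neg fun h => hc ⟨h.1, h.2.1⟩,
      if_neg fun h => hc ⟨h.1, h.2.1⟩, if_neg fun h => hc ⟨h.1, h.2.1⟩, mul_one, mul_one]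
  have h1 := (g6_clq hs).2 hc
  have h3 := h.dim s hc.1 hc.2
  have h4 := hs.card_pos
  rw [if_pos h1, g6_w1_on b hv h1.1]
  have eE : s ∈ Edg G (lk G {v}) ↔ s.card = 2 := ⟨fun h => h.2.2, fun h => ⟨hc.1, hc.2, h⟩⟩
  have eT : s ∈ Tri G (lk G {v}) ↔ s.card = 3 := ⟨fun h => h.2.2, fun h => ⟨hc.1, hc.2, h⟩⟩
  simp only [eE, eT, hc.1, hc.2, true_and]
  obtain e | e | e : s.card = 1 ∨ s.card = 2 ∨ s.card = 3 := by omega
  · simp [e]
  · simp [e, thW]
  · have n : ∀ a ∈ s, a ≠ v := fun a ha e => h1.1 (e ▸ ha)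
    have c1 : ∀ a ∈ s, ∀ a' ∈ s, adm (x a) (x a') (b a a') = true := fun a ha a' ha' =>
      hA a (hc.2 a ha) a' (hc.2 a' ha') (hc.1.2 a ha a' ha')
    have t : ∀ a ∈ s, ∀ a' ∈ s, ∀ d ∈ s, b a a' = false → b a' d = false → b a d = false :=
      fun a ha a' ha' d hd => hK.tri a a' d (n a ha) (n a' ha') (n d hd) (hc.1.2 a ha a' ha')
        (hc.1.2 a' ha' d hd) (hc.1.2 a ha d hd)
    have c2 : ∀ a ∈ s, ∀ a' ∈ s, ∀ d ∈ s, adm (b a a') (b a d) (b a' d) = true :=
      fun a ha a' ha' d hd => (g6_adm _ _ _).2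
        ⟨fun p q => t a' ha' a ha d hd ((hK.symm _ _).trans p) q, t a ha a' ha' d hd,
          fun p q => t a ha d hd a' ha' p ((hK.symm _ _).trans q)⟩
    rw [tetW, if_pos (And.intro c1 c2)]
    simp only [e, Nat.reduceEqDiff, if_false, if_true, one_mul]
    by_cases f : (∀ a ∈ s, x a = true) ∧ ful b s
    · obtain ⟨a, ha⟩ := hs
      rw [if_pos f, if_pos (Or.inl ⟨a, ha, f.1 a ha⟩), if_pos f]
    · simp only [if_neg f]

theorem g6_zero [Fintype V] {G : Cx V} {v : V} (h : Surf G (lk G {v})) {b : V → V → Bool}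
    (h0 : ∀ a, b a a = false) {x : V → Bool} (hA : ¬ g6A G v b x) :
    (∏ t : Finset V, if t ∈ Tri G (lk G {v}) then tetW x b t else 1) = 0 := by
  simp only [g6A, not_forall] at hA
  obtain ⟨a, ha, a', ha', r, hn⟩ := hA
  have n : a ≠ a' := fun e => hn (by rw [← e, h0]; cases x a <;> rfl)
  have he : ({a, a'} : Finset V) ∈ Edg G (lk G {v}) := by
    refine ⟨⟨Finset.insert_nonempty _ _, ?_⟩, ?_, Finset.card_pair n⟩
    · simp [G.refl, r, G.symm _ _ r]
    · simp [Ins, ha, ha']
  obtain ⟨t, ht, -, -, -, hs, -, -⟩ := edge_two h he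
  refine Finset.prod_eq_zero (Finset.mem_univ t) ?_
  rw [if_pos ht, tetW, if_neg fun c => hn (c.1 a (hs (by simp)) a' (hs (by simp)))]

theorem g6_SS [Fintype V] {G : Cx V} {v : V} (h : Surf G (lk G {v})) (A : V → V → Prop) :
    SS G A = ∑ b : V → V → Bool, if g6K G v A b then
      (∏ s : Finset V, if v ∉ s ∧ Clq G s then w1 b s else 1) * ZL G (lk G {v}) b (g6P v A)
      else 0 := by
  have h1 : ∑ q ∈ Finset.univ.filter (fun q : (V → V → Bool) × (V → Bool) =>
      ∀ a, q.1 v a = false ∧ q.1 a v = false),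
      (if Col G A (g6glue v q.1 q.2) then wt G (g6glue v q.1 q.2) else 0) = SS G A := by
    refine Finset.sum_of_injOn (fun q => g6glue v q.1 q.2) (fun q hq q' hq' e => ?_)
      (fun _ _ => Finset.mem_univ _) (fun c _ hc => if_neg fun h => hc ?_) fun _ _ => rfl
    · have p := (Finset.mem_filter.1 hq).2
      have p' := (Finset.mem_filter.1 hq').2
      have e' : ∀ a a', g6glue v q.1 q.2 a a' = g6glue v q'.1 q'.2 a a' := fun a a' =>
        congrFun (congrFun e a) a'
      refine Prod.ext (funext fun a => funext fun a' => ?_) (funext fun a => ?_)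
      · by_cases h1 : a = v
        · rw [h1, (p a').1, (p' a').1]
        by_cases h2 : a' = v
        · rw [h2, (p a).2, (p' a).2]
        rw [← g6_off q.1 q.2 h1 h2, e', g6_off _ _ h1 h2]
      · rw [← g6_left v q.1 q.2 a, e', g6_left]
    · refine ⟨(fun a a' => if a = v ∨ a' = v then false else c a a', c v),
        Finset.mem_coe.2 (Finset.mem_filter.2 ⟨Finset.mem_univ _, fun a => by simp⟩),
        funext fun a => funext fun a' => ?_⟩
      by_cases h1 : a = v
      · rw [h1]
        exact g6_left _ _ _ _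
      by_cases h2 : a' = v
      · rw [h2]
        exact (g6_right _ _ _).trans (h.symm _ _)
      exact (g6_off _ _ h1 h2).trans (if_neg (not_or.2 ⟨h1, h2⟩))
  rw [← h1, Finset.sum_filter, Fintype.sum_prod_type]
  refine Finset.sum_congr rfl fun b _ => ?_
  by_cases hK : g6K G v A b
  · have hb : ∀ a, b v a = false ∧ b a v = false := fun a =>
      ⟨Bool.eq_false_iff.2 fun e => (hK.supp _ _ e).1 rfl,
        Bool.eq_false_iff.2 fun e => (hK.supp _ _ e).2.1 rfl⟩
    rw [if_pos hK, ZL, Finset.mul_sum]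
    refine Finset.sum_congr rfl fun x _ => ?_
    rw [if_pos hb]
    by_cases hx : (∀ u ∉ lk G {v}, x u = false) ∧ g6P v A x
    · rw [if_pos hx]
      by_cases hA : g6A G v b x
      · rw [if_pos ((g6_col hb).2 ⟨hK, hx, hA⟩),
          g6_wt h hK (hx.1 v fun h => (g6_lk.1 h).1 rfl) hA]
      · rw [if_neg fun c => hA ((g6_col hb).1 c).2.2, g6_zero h hK.zero hA, mul_zero, mul_zero]
    · rw [if_neg hx, if_neg fun c => hx ((g6_col hb).1 c).2.1, mul_zero]
  · rw [if_neg hK]
    refine Finset.sum_eq_zero fun x _ => ?_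
    split_ifs with hb c
    · exact absurd ((g6_col hb).1 c).1 hK
    · rfl
    · rfl

theorem gauge [Fintype V] {G : Cx V} {v w : V} (h : Man G {v}) {A : V → V → Prop}
    (hA : ∀ x, x ≠ v → ¬ A v x ∧ ¬ A x v) (hw : G.r v w) (hvw : w ≠ v) :
    SS G A = D2 * SS G fun a b => A a b ∨ (a = v ∧ b = w) := by
  have hS := h.toPMan.surf (Set.mem_singleton v)
  have hc := (h.con {v} ⟨Finset.singleton_nonempty v, by simp [G.refl]⟩
    ⟨v, Finset.mem_singleton_self v, rfl⟩ (by simp)).2
  have e1 : g6P v A = fun _ => True := funext fun x => eq_true fun u hu _ => hA u hu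
  have e2 : g6P v (fun a b => A a b ∨ (a = v ∧ b = w)) = fun x => x w = false :=
    funext fun x => propext ⟨fun p => Bool.eq_false_iff.2 fun e =>
      (p w hvw e).1 (Or.inr ⟨rfl, rfl⟩), fun p u hu e => ⟨fun q => q.elim (hA u hu).1 fun q => by
        rw [q.2, p] at e
        exact Bool.noConfusion e, fun q => q.elim (hA u hu).2 fun q => hu q.1⟩⟩
  have e3 : ∀ b, g6K G v (fun a b => A a b ∨ (a = v ∧ b = w)) b ↔ g6K G v A b := fun b =>
    ⟨fun k => ⟨k.symm, fun a a' e => by have := k.supp a a' e; tauto, k.tri⟩,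
      fun k => ⟨k.symm, fun a a' e => by have := k.supp a a' e; tauto, k.tri⟩⟩
  rw [g6_SS hS, g6_SS hS, e1, e2, Finset.mul_sum]
  refine Finset.sum_congr rfl fun b _ => ?_
  by_cases hK : g6K G v A b
  · rw [if_pos hK, if_pos ((e3 b).2 hK), gauge2 hS hc (h.sph v rfl) hK.symm hK.zero
      (g6_lk.2 ⟨hvw, G.symm _ _ hw⟩), mul_left_comm]
  · rw [if_neg hK, if_neg (mt (e3 b).1 hK), mul_zero]

theorem gauge_forest [Fintype V] {G : Cx V} {S B : Set V} {p : V → V} (h : Man G B)
    (hp : Forest G S B p) {A : V → V → Prop} (hA : ∀ v ∈ B, ∀ x, x ≠ v → ¬ A v x ∧ ¬ A x v) :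
    SS G A = D2 ^ B.ncard * SS G fun a b => A a b ∨ par B p a b := by
  obtain ⟨rk, hp⟩ := hp
  generalize hn : B.ncard = n
  induction n generalizing B with
  | zero =>
    rw [(Set.ncard_eq_zero B.toFinite).1 hn]
    simp [par]
  | succ n ih =>
    obtain ⟨v, hv, hm⟩ := Set.exists_max_image B rk B.toFinite
      (Set.nonempty_of_ncard_ne_zero (by omega))
    have h1 := ih (B := B \ {v}) (h.mono Set.sdiff_subset) (fun u hu => hA u hu.1)
      (fun u hu => ⟨(hp u hu.1).1, (hp u hu.1).2.1, fun q => (hp u hu.1).2.2 q.1⟩)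
      (by rw [Set.ncard_sdiff_singleton_of_mem hv, hn]; rfl)
    have h2 := gauge (w := p v) (A := fun a b => A a b ∨ par (B \ {v}) p a b)
      (h.mono (Set.singleton_subset_iff.2 hv))
      (fun x hx => ⟨fun q => q.elim (hA v hv x hx).1 fun q => q.1.2 rfl,
        fun q => q.elim (hA v hv x hx).2 fun q => by
          have := (hp x q.1.1).2.2 (q.2 ▸ hv)
          rw [← q.2] at this
          exact this.not_ge (hm x q.1.1)⟩)
      (hp v hv).2.1 fun e => by
        have := (hp v hv).2.2 (e.symm ▸ hv)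
        rw [e] at this
        exact this.false
    rw [h1, h2, pow_succ, mul_assoc]
    congr 3
    funext a b
    refine propext ⟨?_, ?_⟩
    · rintro ((q | q) | ⟨rfl, rfl⟩)
      exacts [Or.inl q, Or.inr ⟨q.1.1, q.2⟩, Or.inr ⟨hv, rfl⟩]
    · rintro (q | q)
      · exact Or.inl (Or.inl q)
      · by_cases e : a = v
        · exact Or.inr ⟨e, e ▸ q.2⟩
        · exact Or.inl (Or.inr ⟨⟨q.1, e⟩, q.2⟩)

end KG
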