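import Pool.Agent.Work.MP_c146e2_gt.KG.G1

set_option autoImplicit false

noncomputable section

open scoped Classical

namespace KG

variable {V V' : Type}

structure HCol (G : Cx V) (S Z : Set V) (c : V → V → Bool) : Prop where
  symm : ∀ a b, c a b = c b a
  supp : ∀ a b, c a b = true → G.r a b ∧ a ≠ b ∧ a ∈ S ∧ b ∈ S ∧ ¬ inZ Z a b
  tri : ∀ a ∈ S, ∀ b ∈ S, ∀ d ∈ S, G.r a b → G.r b d → G.r a d → c a b = false → c b d = false →
    c a d = false

def wX [Fintype V] (G : Cx V) (X : Set V) (b : V → V → Bool) : ℝ :=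
  if HCol G X ∅ b then ∏ s : Finset V, if Clq G s ∧ Ins s X then w1 b s else 1 else 0

def half [Fintype V] (G : Cx V) (L X Z : Set V) (b : V → V → Bool) : ℝ :=
  ∑ c : V → V → Bool, if HCol G (L ∪ X) Z c ∧ ∀ x ∈ X, ∀ y ∈ X, c x y = b x y then
    ∏ s : Finset V, if Clq G s ∧ Meets s L ∧ Ins s (L ∪ X) then w1 c s else 1 else 0

def splitT (S' : Set V') (f : V' → V) (c : V → V → Bool) : V' → V' → Bool :=
  fun x y => if x ∈ S' ∧ y ∈ S' then c (f x) (f y) else false

theorem split_T {S' : Set V'} {f : V' → V} {c : V → V → Bool} {x y : V'} (hx : x ∈ S')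
    (hy : y ∈ S') : splitT S' f c x y = c (f x) (f y) := if_pos ⟨hx, hy⟩

theorem split_off {G : Cx V} {S Z : Set V} {c : V → V → Bool} (h : HCol G S Z c) {a b : V}
    (k : ¬ (a ∈ S ∧ b ∈ S)) : c a b = false :=
  Bool.eq_false_iff.2 fun e => k ⟨(h.supp a b e).2.2.1, (h.supp a b e).2.2.2.1⟩

theorem split_ext {G : Cx V} {S Z Z' : Set V} {c c' : V → V → Bool} (h : HCol G S Z c)
    (h' : HCol G S Z' c') (k : ∀ a ∈ S, ∀ b ∈ S, c a b = c' a b) : c = c' := by
  funext a b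
  by_cases e : a ∈ S ∧ b ∈ S
  · exact k a e.1 b e.2
  · rw [split_off h e, split_off h' e]

theorem split_col {G' : Cx V'} {G : Cx V} {S' Z' : Set V'} {S Z : Set V} {f : V' → V}
    {c : V → V → Bool} (hm : ∀ a ∈ S', f a ∈ S)
    (hr : ∀ a ∈ S', ∀ b ∈ S', G'.r a b ↔ G.r (f a) (f b)) (hZ : ∀ a ∈ S', a ∈ Z' → f a ∈ Z)
    (h : HCol G S Z c) : HCol G' S' Z' (splitT S' f c) := by
  refine ⟨fun a b => ?_, fun a b k => ?_, fun a ha b hb d hd h1 h2 h3 => ?_⟩
  · unfold splitT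
    rw [h.symm]
    exact if_congr and_comm rfl rfl
  · by_cases k1 : a ∈ S' ∧ b ∈ S'
    · rw [split_T k1.1 k1.2] at k
      obtain ⟨h1, h2, -, -, h3⟩ := h.supp _ _ k
      exact ⟨(hr a k1.1 b k1.2).2 h1, fun e => h2 (congrArg f e), k1.1, k1.2,
        fun e => h3 ⟨hZ a k1.1 e.1, hZ b k1.2 e.2⟩⟩
    · exact absurd ((if_neg k1).symm.trans k) Bool.false_ne_true
  · rw [split_T ha hb, split_T hb hd, split_T ha hd]
    exact h.tri _ (hm a ha) _ (hm b hb) _ (hm d hd) ((hr a ha b hb).1 h1) ((hr b hb d hd).1 h2)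
      ((hr a ha d hd).1 h3)

theorem split_push {G' : Cx V'} {G : Cx V} {S' Z' : Set V'} {S Z : Set V} {f : V' → V}
    {c' : V' → V' → Bool} (hf : Set.BijOn f S' S)
    (hr : ∀ a ∈ S', ∀ b ∈ S', G'.r a b ↔ G.r (f a) (f b)) (hZ : ∀ a ∈ S', f a ∈ Z → a ∈ Z')
    (h : HCol G' S' Z' c') :
    ∃ c, HCol G S Z c ∧ ∀ x ∈ S', ∀ y ∈ S', c (f x) (f y) = c' x y := by
  have k : ∀ x ∈ S', ∀ y ∈ S',
      decide (∃ a ∈ S', ∃ b ∈ S', f a = f x ∧ f b = f y ∧ c' a b = true) = c' x y := by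
    intro x hx y hy
    rw [Bool.eq_iff_iff, decide_eq_true_iff]
    refine ⟨?_, fun e => ⟨x, hx, y, hy, rfl, rfl, e⟩⟩
    rintro ⟨a, ha, b, hb, h1, h2, h3⟩
    rwa [← hf.injOn ha hx h1, ← hf.injOn hb hy h2]
  refine ⟨fun u v => decide (∃ a ∈ S', ∃ b ∈ S', f a = u ∧ f b = v ∧ c' a b = true),
    ⟨fun u v => ?_, fun u v e => ?_, fun u hu v hv w hw h1 h2 h3 => ?_⟩, k⟩
  · rw [decide_eq_decide]
    constructor <;> exact fun ⟨a, ha, b, hb, h1, h2, h3⟩ => ⟨b, hb, a, ha, h2, h1, h.symm a b ▸ h3⟩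
  · obtain ⟨a, ha, b, hb, rfl, rfl, h3⟩ := of_decide_eq_true e
    obtain ⟨h1, h2, -, -, h4⟩ := h.supp _ _ h3
    exact ⟨(hr a ha b hb).1 h1, fun e => h2 (hf.injOn ha hb e), hf.mapsTo ha, hf.mapsTo hb,
      fun e => h4 ⟨hZ a ha e.1, hZ b hb e.2⟩⟩
  · obtain ⟨a, ha, rfl⟩ := hf.surjOn hu
    obtain ⟨b, hb, rfl⟩ := hf.surjOn hv
    obtain ⟨d, hd, rfl⟩ := hf.surjOn hw
    rw [k a ha b hb, k b hb d hd, k a ha d hd]
    exact h.tri a ha b hb d hd ((hr a ha b hb).2 h1) ((hr b hb d hd).2 h2) ((hr a ha d hd).2 h3)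

theorem split_sum [Fintype V] [Fintype V'] {G' : Cx V'} {G : Cx V} {S' Z' : Set V'} {S Z : Set V}
    {f : V' → V} (hf : Set.BijOn f S' S)
    (hr : ∀ a ∈ S', ∀ b ∈ S', G'.r a b ↔ G.r (f a) (f b)) (hZ : ∀ a ∈ S', a ∈ Z' ↔ f a ∈ Z)
    {F' : (V' → V' → Bool) → ℝ} {F : (V → V → Bool) → ℝ}
    (h : ∀ c' c, (∀ x ∈ S', ∀ y ∈ S', c' x y = c (f x) (f y)) → F' c' = F c) :
    (∑ c', if HCol G' S' Z' c' then F' c' else 0) = ∑ c, if HCol G S Z c then F c else 0 := by
  rw [← Finset.sum_filter, ← Finset.sum_filter]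
  have hc := fun c => split_col (c := c) hf.mapsTo hr fun a ha => (hZ a ha).1
  refine (Finset.sum_nbij (splitT S' f) ?_ ?_ ?_ ?_).symm
  · simpa using hc
  · intro c h1 d h2 e
    refine split_ext (Finset.mem_filter.1 h1).2 (Finset.mem_filter.1 h2).2 fun u hu v hv => ?_
    obtain ⟨a, ha, rfl⟩ := hf.surjOn hu
    obtain ⟨b, hb, rfl⟩ := hf.surjOn hv
    rw [← split_T (c := c) ha hb, e, split_T ha hb]
  · intro c' h1
    have h2 := (Finset.mem_filter.1 h1).2
    obtain ⟨c, h3, h4⟩ := split_push hf hr (fun a ha => (hZ a ha).2) h2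
    exact ⟨c, by simpa using h3, split_ext (hc c h3) h2 fun a ha b hb =>
      (split_T ha hb).trans (h4 a ha b hb)⟩
  · exact fun c _ => (h _ c fun x hx y hy => split_T hx hy).symm

theorem split_w1 {f : V' → V} {c' : V' → V' → Bool} {c : V → V → Bool} {s : Finset V'}
    (hf : Set.InjOn f s) (h : ∀ a ∈ s, ∀ b ∈ s, c' a b = c (f a) (f b)) :
    w1 c' s = w1 c (s.image f) := by
  have h1 : act c' s ↔ act c (s.image f) := by
    simp only [act, Finset.mem_image, exists_exists_and_eq_and]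
    exact exists_congr fun a => and_congr_right fun ha => exists_congr fun b =>
      and_congr_right fun hb => by rw [h a ha b hb]
  have h2 : ful c' s ↔ ful c (s.image f) := by
    simp only [ful, Finset.forall_mem_image]
    exact forall₂_congr fun a ha => forall₂_congr fun b hb => by
      rw [h a ha b hb, hf.ne_iff ha hb]
  unfold w1
  rw [Finset.card_image_of_injOn hf, h1, h2]

theorem split_w1' {c' c : V → V → Bool} {s : Finset V} (h : ∀ a ∈ s, ∀ b ∈ s, c' a b = c a b) :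
    w1 c' s = w1 c s := by
  have k := split_w1 (f := id) (c := c) (Set.injOn_id _) h
  rwa [Finset.image_id] at k

theorem split_prod [Fintype V] [Fintype V'] {S' : Set V'} {S : Set V} {f : V' → V}
    (hf : Set.BijOn f S' S) {p' : Finset V' → Prop} {p : Finset V → Prop} {d' : DecidablePred p'}
    {d : DecidablePred p} (h1 : ∀ s, p' s → Ins s S') (h2 : ∀ s, p s → Ins s S)
    (h3 : ∀ s, Ins s S' → (p' s ↔ p (s.image f))) {c' : V' → V' → Bool} {c : V → V → Bool}
    (hc : ∀ a ∈ S', ∀ b ∈ S', c' a b = c (f a) (f b)) :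
    (∏ s, if p' s then w1 c' s else 1) = ∏ s, if p s then w1 c s else 1 := by
  rw [← Finset.prod_filter, ← Finset.prod_filter]
  refine Finset.prod_nbij (Finset.image f) ?_ ?_ ?_ ?_
  · simpa using fun s hs => (h3 s (h1 s hs)).1 hs
  · intro s hs t ht e
    have k1 : (s : Set V') ⊆ S' := h1 s (Finset.mem_filter.1 hs).2
    have k2 : (t : Set V') ⊆ S' := h1 t (Finset.mem_filter.1 ht).2
    rw [← Finset.coe_inj, ← hf.injOn.image_eq_image_iff k1 k2, ← Finset.coe_image, e,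
      Finset.coe_image]
  · intro s hs
    have k1 := (Finset.mem_filter.1 hs).2
    obtain ⟨t, k2, rfl⟩ := Finset.subset_set_image_iff.1 fun a ha => hf.surjOn (h2 s k1 a ha)
    exact ⟨t, by simpa using (h3 t k2).2 k1, rfl⟩
  · intro s hs
    have k1 := h1 s (Finset.mem_filter.1 hs).2
    exact split_w1 (hf.injOn.mono k1) fun a ha b hb => hc a (k1 a ha) b (k1 b hb)

theorem split_clq {G' : Cx V'} {G : Cx V} {S' : Set V'} {f : V' → V}
    (hr : ∀ a ∈ S', ∀ b ∈ S', G'.r a b ↔ G.r (f a) (f b)) {s : Finset V'} (hs : Ins s S') :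
    Clq G' s ↔ Clq G (s.image f) := by
  simp only [Clq, Finset.image_nonempty, Finset.forall_mem_image]
  exact and_congr_right fun _ => forall₂_congr fun a ha => forall₂_congr fun b hb =>
    hr a (hs a ha) b (hs b hb)

theorem split_ins {S' : Set V'} {S : Set V} {f : V' → V} (hf : Set.MapsTo f S' S) {s : Finset V'}
    (hs : Ins s S') : Ins (s.image f) S :=
  Finset.forall_mem_image.2 fun a ha => hf (hs a ha)

theorem split_univ {G : Cx V} {Z : Set V} {c : V → V → Bool} (h : Col G (inZ Z) c) (S : Set V) :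
    HCol G S Z (splitT S id c) :=
  split_col (G := G) (S := Set.univ) (fun _ _ => trivial) (fun _ _ _ _ => Iff.rfl)
    (fun _ _ => id) ⟨h.symm, fun a b e => ⟨(h.supp a b e).1, (h.supp a b e).2.1, trivial, trivial,
      (h.supp a b e).2.2⟩, fun a _ b _ d _ => h.tri a b d⟩

theorem split_or {G : Cx V} {L X R Z : Set V} (hs : Sep G L R) {b c d : V → V → Bool}
    (hd : HCol G (R ∪ X) Z d) (k1 : ∀ x ∈ X, ∀ y ∈ X, c x y = b x y)
    (k2 : ∀ x ∈ X, ∀ y ∈ X, d x y = b x y) :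
    ∀ x ∈ L ∪ X, ∀ y ∈ L ∪ X, (c x y || d x y) = c x y := by
  intro x hx y hy
  have k : ∀ z ∈ L ∪ X, z ∈ R ∪ X → z ∈ X := fun z h1 h2 =>
    h1.elim (fun h1 => h2.elim (fun h2 => absurd (G.refl z) (hs z h1 z h2)) id) id
  by_cases e : x ∈ R ∪ X ∧ y ∈ R ∪ X
  · rw [k1 x (k x hx e.1) y (k y hy e.2), k2 x (k x hx e.1) y (k y hy e.2), Bool.or_self]
  · rw [split_off hd e, Bool.or_false]

theorem split_side {G : Cx V} {L X R : Set V} (hs : Sep G L R)
    (hJ : ∀ j ∉ L ∪ X ∪ R, ∀ y, G.r j y → y = j) {s : Set V} (h : ∀ a ∈ s, ∀ b ∈ s, G.r a b) :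
    s.Subsingleton ∨ s ⊆ L ∪ X ∨ s ⊆ R ∪ X := by
  by_cases k : s ⊆ L ∪ X ∪ R
  · refine Or.inr (or_iff_not_imp_left.2 fun k1 a ha => ?_)
    obtain ⟨b, hb, k2⟩ := Set.not_subset.1 k1
    rcases k ha with (k3 | k3) | k3
    exacts [absurd (h a ha b hb) (hs a k3 b ((k hb).resolve_left k2)), Or.inr k3, Or.inl k3]
  · obtain ⟨j, hj, k1⟩ := Set.not_subset.1 k
    exact Or.inl fun a ha b hb => (hJ j k1 a (h j hj a ha)).trans (hJ j k1 b (h j hj b hb)).symm

theorem split_wt [Fintype V] {G : Cx V} {L X R : Set V} (hLX : Disjoint L X) (hRX : Disjoint R X)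
    (hs : Sep G L R) (hJ : ∀ j ∉ L ∪ X ∪ R, ∀ y, G.r j y → y = j) {c : V → V → Bool}
    (h0 : ∀ a, c a a = false) :
    wt G c = (∏ s : Finset V, if Clq G s ∧ Ins s X then w1 (splitT X id c) s else 1) *
      (∏ s : Finset V, if Clq G s ∧ Meets s L ∧ Ins s (L ∪ X) then
        w1 (splitT (L ∪ X) id c) s else 1) *
      ∏ s : Finset V, if Clq G s ∧ Meets s R ∧ Ins s (R ∪ X) then
        w1 (splitT (R ∪ X) id c) s else 1 := by
  rw [← Finset.prod_mul_distrib, ← Finset.prod_mul_distrib]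
  refine Finset.prod_congr rfl fun s _ => ?_
  have k : ∀ (S : Set V) (p : Prop) (_ : Decidable p), (p → Ins s S) →
      (if p then w1 (splitT S id c) s else 1) = if p then w1 c s else 1 := fun S p _ h =>
    if_ctx_congr Iff.rfl (fun e => split_w1' fun a ha b hb => split_T (h e a ha) (h e b hb))
      fun _ => rfl
  rw [k _ _ _ fun e => e.2, k _ _ _ fun e => e.2.2, k _ _ _ fun e => e.2.2]
  by_cases hq : Clq G s
  · have n1 : ∀ {L : Set V}, Disjoint L X → Meets s L → ¬ Ins s X := fun h ⟨a, ha, h1⟩ h2 =>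
      Set.disjoint_left.1 h h1 (h2 a ha)
    have n2 : Meets s L → ¬ Meets s R := fun ⟨a, ha, h1⟩ ⟨b, hb, h2⟩ =>
      hs a h1 b h2 (hq.2 a ha b hb)
    have n3 : ∀ {L : Set V}, Ins s (L ∪ X) → Meets s L ∨ Ins s X := fun h =>
      or_iff_not_imp_left.2 fun h1 a ha => (h a ha).resolve_left fun h2 => h1 ⟨a, ha, h2⟩
    rcases split_side hs hJ (s := (s : Set V)) hq.2 with e | e | e
    · obtain ⟨a, ha⟩ := hq.1
      obtain rfl : s = {a} := Finset.eq_singleton_iff_unique_mem.2 ⟨ha, fun b hb => e hb ha⟩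
      simp only [w1_one h0, ite_self, mul_one]
    · rcases n3 (L := L) e with e1 | e1
      · simp [hq, e1, n1 hLX e1, n2 e1, show Ins s (L ∪ X) from e]
      · simp [hq, e1, mt (n1 hLX) (not_not.2 e1), mt (n1 hRX) (not_not.2 e1)]
    · rcases n3 (L := R) e with e1 | e1
      · simp [hq, e1, n1 hRX e1, mt n2 (not_not.2 e1), show Ins s (R ∪ X) from e]
      · simp [hq, e1, mt (n1 hLX) (not_not.2 e1), mt (n1 hRX) (not_not.2 e1)]
  · simp [hq]

theorem split_main [Fintype V] {G : Cx V} {L X R Z : Set V} (hLX : Disjoint L X)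
    (hRX : Disjoint R X) (hs : Sep G L R) (hJ : ∀ j ∉ L ∪ X ∪ R, ∀ y, G.r j y → y = j) :
    SS G (inZ Z) = ∑ b : V → V → Bool, wX G X b * half G L X Z b * half G R X Z b := by
  have hs' : Sep G R L := fun a ha b hb e => hs b hb a ha (G.symm _ _ e)
  simp only [half, mul_assoc, Finset.sum_mul_sum, ← Fintype.sum_prod_type']
  simp only [Finset.mul_sum, ← Fintype.sum_prod_type']
  rw [SS, ← Finset.sum_filter]
  refine Finset.sum_of_injOn
    (fun c => (splitT X id c, splitT (L ∪ X) id c, splitT (R ∪ X) id c)) ?_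
    (fun _ _ => Finset.mem_univ _) ?_ ?_
  · have k : ∀ c d, Col G (inZ Z) c → splitT (L ∪ X) id c = splitT (L ∪ X) id d →
        splitT (R ∪ X) id c = splitT (R ∪ X) id d → ∀ a b, c a b = true → d a b = true := by
      intro c d hc e1 e2 a b e
      obtain ⟨h1, h2, -⟩ := hc.supp a b e
      rcases split_side hs hJ (s := {a, b}) (by simp [G.refl, h1, G.symm _ _ h1]) with k | k | k
      · exact absurd (k (by simp) (by simp)) h2
      · rw [Set.pair_subset_iff] at k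
        exact (split_T k.1 k.2).symm.trans (e1 ▸ (split_T k.1 k.2).trans e)
      · rw [Set.pair_subset_iff] at k
        exact (split_T k.1 k.2).symm.trans (e2 ▸ (split_T k.1 k.2).trans e)
    intro c hc d hd e
    simp only [Prod.mk.injEq] at e
    funext a b
    exact Bool.eq_iff_iff.2 ⟨k c d (Finset.mem_filter.1 hc).2 e.2.1 e.2.2 a b,
      k d c (Finset.mem_filter.1 hd).2 e.2.1.symm e.2.2.symm a b⟩
  · rintro ⟨b, c, d⟩ - hn
    by_contra h0
    obtain ⟨h1, h2, h3⟩ : HCol G X ∅ b ∧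
        (HCol G (L ∪ X) Z c ∧ ∀ x ∈ X, ∀ y ∈ X, c x y = b x y) ∧
        HCol G (R ∪ X) Z d ∧ ∀ x ∈ X, ∀ y ∈ X, d x y = b x y :=
      ⟨(ite_ne_right_iff.1 (left_ne_zero_of_mul h0)).1,
        (ite_ne_right_iff.1 (left_ne_zero_of_mul (right_ne_zero_of_mul h0))).1,
        (ite_ne_right_iff.1 (right_ne_zero_of_mul (right_ne_zero_of_mul h0))).1⟩
    have k1 := split_or hs h3.1 h2.2 h3.2
    have k2 : ∀ x ∈ R ∪ X, ∀ y ∈ R ∪ X, (c x y || d x y) = d x y := fun x hx y hy => by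
      rw [Bool.or_comm, split_or hs' h2.1 h3.2 h2.2 x hx y hy]
    have su : ∀ x y, (c x y || d x y) = true → G.r x y ∧ x ≠ y ∧ ¬ inZ Z x y := fun x y e =>
      (Bool.or_eq_true_iff.1 e).elim
        (fun e => ⟨(h2.1.supp x y e).1, (h2.1.supp x y e).2.1, (h2.1.supp x y e).2.2.2.2⟩)
        fun e => ⟨(h3.1.supp x y e).1, (h3.1.supp x y e).2.1, (h3.1.supp x y e).2.2.2.2⟩
    have hc : Col G (inZ Z) fun x y => c x y || d x y := by
      refine ⟨fun x y => by rw [h2.1.symm, h3.1.symm], su, fun x y z r1 r2 r3 => ?_⟩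
      rcases split_side hs hJ (s := {x, y, z})
        (by simp [G.refl, r1, r2, r3, G.symm _ _ r1, G.symm _ _ r2, G.symm _ _ r3]) with k | k | k
      · exact fun _ _ => Bool.eq_false_iff.2 fun e => (su x z e).2.1 (k (by simp) (by simp))
      · have m1 := k (a := x) (by simp)
        have m2 := k (a := y) (by simp)
        have m3 := k (a := z) (by simp)
        rw [k1 x m1 y m2, k1 y m2 z m3, k1 x m1 z m3]
        exact h2.1.tri x m1 y m2 z m3 r1 r2 r3
      · have m1 := k (a := x) (by simp)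
        have m2 := k (a := y) (by simp)
        have m3 := k (a := z) (by simp)
        rw [k2 x m1 y m2, k2 y m2 z m3, k2 x m1 z m3]
        exact h3.1.tri x m1 y m2 z m3 r1 r2 r3
    refine hn ⟨_, Finset.mem_coe.2 (Finset.mem_filter.2 ⟨Finset.mem_univ _, hc⟩), ?_⟩
    simp only [Prod.mk.injEq]
    exact ⟨split_ext (split_univ hc X) h1 fun x hx y hy => (split_T hx hy).trans
        ((k1 x (Or.inr hx) y (Or.inr hy)).trans (h2.2 x hx y hy)),
      split_ext (split_univ hc _) h2.1 fun x hx y hy => (split_T hx hy).trans (k1 x hx y hy),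
      split_ext (split_univ hc _) h3.1 fun x hx y hy => (split_T hx hy).trans (k2 x hx y hy)⟩
  · intro c hc
    have h1 := (Finset.mem_filter.1 hc).2
    have k : ∀ L : Set V, HCol G (L ∪ X) Z (splitT (L ∪ X) id c) ∧
        ∀ x ∈ X, ∀ y ∈ X, splitT (L ∪ X) id c x y = splitT X id c x y := fun L =>
      ⟨split_univ h1 _, fun x hx y hy =>
        (split_T (S' := L ∪ X) (Or.inr hx) (Or.inr hy)).trans (split_T hx hy).symm⟩
    have k0 : HCol G X ∅ (splitT X id c) :=
      ⟨(split_univ h1 X).symm, fun a b e => by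
        obtain ⟨e1, e2, e3, e4, -⟩ := (split_univ h1 X).supp a b e
        exact ⟨e1, e2, e3, e4, fun e => e.1⟩, (split_univ h1 X).tri⟩
    dsimp only
    rw [wX, if_pos k0, if_pos (k L), if_pos (k R), ← mul_assoc]
    exact split_wt hLX hRX hs hJ fun a => Bool.eq_false_iff.2 fun e => (h1.supp a a e).2.1 rfl

theorem wX_nonneg [Fintype V] {G : Cx V} {X : Set V} (h : ∀ s, Clq G s → Ins s X → s.card ≤ 3)
    (b : V → V → Bool) : 0 ≤ wX G X b := by
  unfold wX
  split_ifs with k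
  · refine Finset.prod_nonneg fun s _ => ?_
    split_ifs with k1
    · unfold w1
      split_ifs with e1 e2 e3 e4
      · exact ph_pos.le
      · exact (inv_pos.2 ph_pos).le
      · obtain ⟨x, hx, y, hy, e⟩ := e1
        have := Finset.one_lt_card.2 ⟨x, hx, y, hy, (k.supp x y e).2.1⟩
        have := h s k1.1 k1.2
        omega
      · exact ph_pos.le
      · exact zero_le_one
    · exact zero_le_one
  · exact le_rfl

theorem split [Fintype V] {G : Cx V} {L X R Z : Set V} (hLX : Disjoint L X) (hRX : Disjoint R X)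
    (hs : Sep G L R) (hJ : ∀ j ∉ L ∪ X ∪ R, ∀ y, G.r j y → y = j) (hZ : Disjoint Z X) :
    SS G (inZ Z) = ∑ b : V → V → Bool, wX G X b * half G L X Z b * half G R X Z b := by
  exact split_main hLX hRX hs hJ

theorem half_iso [Fintype V] [Fintype V'] {G' : Cx V'} {G : Cx V} {L' X' Z' : Set V'}
    {L X Z : Set V} {f : V' → V} (hd : Disjoint L X) (hL : Set.BijOn f L' L)
    (hX : Set.BijOn f X' X)
    (hr : ∀ a ∈ L' ∪ X', ∀ b ∈ L' ∪ X', G'.r a b ↔ G.r (f a) (f b))
    (hZ : ∀ a ∈ L' ∪ X', a ∈ Z' ↔ f a ∈ Z) {b' : V' → V' → Bool} {b : V → V → Bool}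
    (hb : ∀ x ∈ X', ∀ y ∈ X', b' x y = b (f x) (f y)) : half G' L' X' Z' b' = half G L X Z b := by
  have hf : Set.BijOn f (L' ∪ X') (L ∪ X) := by
    refine hL.union hX fun x hx y hy e => ?_
    rcases hx with hx | hx <;> rcases hy with hy | hy
    exacts [hL.injOn hx hy e, absurd (hX.mapsTo hy) (e ▸ Set.disjoint_left.1 hd (hL.mapsTo hx)),
      absurd (hX.mapsTo hx) (e ▸ Set.disjoint_left.1 hd (hL.mapsTo hy)), hX.injOn hx hy e]
  simp only [half, ite_and (HCol _ _ _ _)]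
  refine split_sum hf hr hZ fun c' c hc => if_congr ⟨fun k u hu v hv => ?_, fun k x hx y hy => ?_⟩
    (split_prod hf (fun _ e => e.2.2) (fun _ e => e.2.2) (fun s hs => ?_) hc) rfl
  · obtain ⟨x, hx, rfl⟩ := hX.surjOn hu
    obtain ⟨y, hy, rfl⟩ := hX.surjOn hv
    rw [← hc x (Or.inr hx) y (Or.inr hy), k x hx y hy, hb x hx y hy]
  · rw [hc x (Or.inr hx) y (Or.inr hy), k _ (hX.mapsTo hx) _ (hX.mapsTo hy), hb x hx y hy]
  · refine and_congr (split_clq hr hs) (and_congr ?_ (iff_of_true hs (split_ins hf.mapsTo hs)))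
    simp only [Meets, Finset.mem_image, exists_exists_and_eq_and]
    exact exists_congr fun a => and_congr_right fun ha => ⟨fun e => hL.mapsTo e, fun e =>
      (hs a ha).resolve_right fun e1 => Set.disjoint_left.1 hd e (hX.mapsTo e1)⟩

theorem sum_wX_iso [Fintype V] [Fintype V'] {G' : Cx V'} {G : Cx V} {X' : Set V'} {X : Set V}
    {f : V' → V} (hX : Set.BijOn f X' X)
    (hr : ∀ a ∈ X', ∀ b ∈ X', G'.r a b ↔ G.r (f a) (f b)) {Φ' : (V' → V' → Bool) → ℝ}
    {Φ : (V → V → Bool) → ℝ}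
    (h : ∀ b' b, (∀ x ∈ X', ∀ y ∈ X', b' x y = b (f x) (f y)) → Φ' b' = Φ b) :
    (∑ b', wX G' X' b' * Φ' b') = ∑ b, wX G X b * Φ b := by
  simp only [wX, ite_mul, zero_mul]
  refine split_sum hX hr (Z := ∅) (Z' := ∅) (fun _ _ => Iff.rfl) fun c' c hc => ?_
  rw [h c' c hc]
  congr 1
  exact split_prod hX (fun _ e => e.2) (fun _ e => e.2) (fun s hs =>
    and_congr (split_clq hr hs) (iff_of_true hs (split_ins hX.mapsTo hs))) hc

theorem split_col0 (G : Cx V) (S Z : Set V) : HCol G S Z fun _ _ => false :=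
  ⟨fun _ _ => rfl, fun _ _ e => absurd e Bool.false_ne_true, fun _ _ _ _ _ _ _ _ _ _ _ => rfl⟩

theorem split_w0 (s : Finset V) : w1 (fun _ _ => false) s = 1 :=
  if_neg fun ⟨_, _, _, _, e⟩ => Bool.false_ne_true e

theorem split_zero [Fintype V] {G : Cx V} {L X R W : Set V} (hLX : Disjoint L X)
    (hRX : Disjoint R X) (hs : Sep G L R) (hJ : ∀ j, j ∈ L ∪ X ∪ R) (hW : X ⊆ W) :
    SS G (inZ W) = half G L X W (fun _ _ => false) * half G R X W fun _ _ => false := by
  rw [split_main hLX hRX hs fun j h => absurd (hJ j) h,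
    Finset.sum_eq_single_of_mem (fun _ _ => false) (Finset.mem_univ _)]
  · simp only [wX, if_pos (split_col0 G X ∅), split_w0, ite_self, Finset.prod_const_one, one_mul]
  · intro b _ hb
    by_cases k : HCol G X ∅ b
    · rw [half, Finset.sum_eq_zero, mul_zero, zero_mul]
      refine fun c _ => if_neg fun e => hb (split_ext k (split_col0 G X ∅) fun x hx y hy => ?_)
      rw [← e.2 x hx y hy]
      exact Bool.eq_false_iff.2 fun e1 => (e.1.supp x y e1).2.2.2.2 ⟨hW hx, hW hy⟩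
    · rw [wX, if_neg k, zero_mul, zero_mul]

theorem split_one [Fintype V] {G : Cx V} {L X W : Set V} (hW : L ∪ X ⊆ W) :
    half G L X W (fun _ _ => false) = 1 := by
  rw [half, Finset.sum_eq_single_of_mem (fun _ _ => false) (Finset.mem_univ _)]
  · rw [if_pos ⟨split_col0 _ _ _, fun _ _ _ _ => rfl⟩]
    simp only [split_w0, ite_self, Finset.prod_const_one]
  · refine fun c _ hc => if_neg fun e => hc (split_ext e.1 (split_col0 G _ ∅) fun x hx y hy => ?_)
    exact Bool.eq_false_iff.2 fun e1 => (e.1.supp x y e1).2.2.2.2 ⟨hW hx, hW hy⟩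

theorem fac [Fintype V] {G : Cx V} {Z L R : Set V} (hZ : Zᶜ = L ∪ R) (hs : Sep G L R) :
    tv G Z = tv G Lᶜ * tv G Rᶜ := by
  have hm : ∀ x, x ∈ Z ↔ x ∉ L ∧ x ∉ R := fun x => by
    rw [← not_or, ← Set.mem_union, ← hZ, Set.mem_compl_iff, not_not]
  have hd : ∀ x ∈ L, x ∉ R := fun x h1 h2 => hs x h1 x h2 (G.refl x)
  have hL : Disjoint L Z := Set.disjoint_left.2 fun x h1 h2 => ((hm x).1 h2).1 h1
  have hR : Disjoint R Z := Set.disjoint_left.2 fun x h1 h2 => ((hm x).1 h2).2 h1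
  have hJ : ∀ j, j ∈ L ∪ Z ∪ R := fun j => by
    have := hm j
    simp only [Set.mem_union]
    tauto
  have k : ∀ {L : Set V}, Disjoint L Z →
      half G L Z Lᶜ (fun _ _ => false) = half G L Z Z fun _ _ => false := fun h =>
    half_iso h (Set.bijOn_id _) (Set.bijOn_id _) (fun _ _ _ _ => Iff.rfl)
      (fun a ha => ⟨ha.resolve_left, fun e => Set.disjoint_right.1 h e⟩) fun _ _ _ _ => rfl
  unfold tv
  rw [split_zero hL hR hs hJ subset_rfl, split_zero hL hR hs hJ hL.subset_compl_left,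
    split_zero hL hR hs hJ hR.subset_compl_left, k hL, k hR,
    split_one (W := Lᶜ) (Set.union_subset (fun x h1 h2 => hd x h2 h1) hL.subset_compl_left),
    split_one (W := Rᶜ) (Set.union_subset hd hR.subset_compl_left), compl_compl, compl_compl, hZ,
    Set.ncard_union_eq (Set.disjoint_left.2 hd), pow_add, mul_one, one_mul, div_mul_div_comm]

end KG
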