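import Pool.Agent.Work.MP_c146e2_gt.KG.Bas
import Pool.Agent.Work.MP_c146e2_gt.KG.Chi
import Pool.Agent.Work.MP_c146e2_gt.KG.Lin

set_option autoImplicit false

noncomputable section

open scoped Classical

namespace KG

variable {V V' : Type}

theorem tree_clq2 {G : Cx V} {a b : V} (h : G.r a b) : Clq G {a, b} := by
  refine ⟨⟨a, by simp⟩, ?_⟩
  intro x hx y hy
  simp only [Finset.mem_insert, Finset.mem_singleton] at hx hy
  rcases hx with rfl | rfl <;> rcases hy with rfl | rfl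
  · exact G.refl _
  · exact h
  · exact G.symm _ _ h
  · exact G.refl _

theorem tree_clq3 {G : Cx V} {a b c : V} (hab : G.r a b) (hbc : G.r b c) (hac : G.r a c) :
    Clq G {a, b, c} := by
  refine ⟨⟨a, by simp⟩, ?_⟩
  intro x hx y hy
  simp only [Finset.mem_insert, Finset.mem_singleton] at hx hy
  rcases hx with rfl | rfl | rfl <;> rcases hy with rfl | rfl | rfl <;>
    first
      | exact G.refl _
      | assumption
      | (apply G.symm; assumption)

theorem tree_clq1 (G : Cx V) (a : V) : Clq G {a} := by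
  refine ⟨⟨a, by simp⟩, ?_⟩
  intro x hx y hy
  simp only [Finset.mem_singleton] at hx hy
  subst hx; subst hy
  exact G.refl _

/-- The edge spanned by two adjacent vertices. -/
def treeEdge (G : Cx V) (a b : V) : Fc G :=
  if h : G.r a b then ⟨{a, b}, tree_clq2 h⟩ else ⟨{a}, tree_clq1 G a⟩

theorem tree_edge_val {G : Cx V} {a b : V} (h : G.r a b) : (treeEdge G a b).1 = {a, b} := by
  unfold treeEdge
  rw [dif_pos h]

theorem tree_edge_le {G : Cx V} {a b : V} {s : Fc G} (ha : a ∈ s.1) (hb : b ∈ s.1) :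
    treeEdge G a b ≤ s := by
  rw [Fc.le_iff, tree_edge_val (s.2.2 a ha b hb)]
  intro x hx
  simp only [Finset.mem_insert, Finset.mem_singleton] at hx
  rcases hx with rfl | rfl <;> assumption

theorem tree_edge_xs {G : Cx V} {U : Set V} {a b : V} (h : G.r a b) (hab : ¬ (a ∈ U ↔ b ∈ U)) :
    treeEdge G a b ∈ Xs G U := by
  have hv := tree_edge_val h
  by_cases ha : a ∈ U
  · have hb : b ∉ U := fun hb => hab ⟨fun _ => hb, fun _ => ha⟩
    exact ⟨⟨a, by rw [hv]; simp, ha⟩, ⟨b, by rw [hv]; simp, hb⟩⟩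
  · have hb : b ∈ U := by
      by_contra hb
      exact hab ⟨fun h => (ha h).elim, fun h => (hb h).elim⟩
    exact ⟨⟨b, by rw [hv]; simp, hb⟩, ⟨a, by rw [hv]; simp, ha⟩⟩

theorem tree_xs_up {G : Cx V} {U : Set V} {s s' : Fc G} (h : s ≤ s') (hs : s ∈ Xs G U) :
    s' ∈ Xs G U := by
  obtain ⟨⟨a, ha, haU⟩, ⟨b, hb, hbU⟩⟩ := hs
  exact ⟨⟨a, Fc.le_iff.1 h ha, haU⟩, ⟨b, Fc.le_iff.1 h hb, hbU⟩⟩

theorem tree_rch_via {G : Cx V} {U : Set V} {s s' t : Fc G} (h : s ≤ t) (h' : s' ≤ t)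
    (hs : s ∈ Xs G U) (hs' : s' ∈ Xs G U) : Rch (sd G) (Xs G U) s s' := by
  have ht := tree_xs_up h hs
  exact (rch_step (G := sd G) hs ht (Or.inl h)).trans (rch_step (G := sd G) ht hs' (Or.inr h'))

/-- A vertex of the simplex that lies in `U` if possible. -/
def treePick {G : Cx V} (U : Set V) (s : Fc G) : V :=
  if h : Meets s.1 U then h.choose else s.2.1.choose

theorem tree_pick_spec {G : Cx V} {U : Set V} {s : Fc G} (h : Meets s.1 U) :
    treePick U s ∈ s.1 ∧ treePick U s ∈ U := by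
  unfold treePick
  rw [dif_pos h]
  exact h.choose_spec

theorem tree_pick_eq {G : Cx V} {U : Set V} {f : V → ZMod 2} (hf : f ∈ LC G U) {s : Fc G} {u : V}
    (hu : u ∈ s.1) (huU : u ∈ U) : f (treePick U s) = f u := by
  have h := tree_pick_spec (s := s) ⟨u, hu, huU⟩
  exact hf.1 _ h.2 _ huU (s.2.2 _ h.1 _ hu)

/-- The comparison map on locally constant functions. -/
def treeMap (G : Cx V) (U : Set V) :
    (LC G U × LC G Uᶜ) →ₗ[ZMod 2] LC (sd G) (Xs G U) where
  toFun p := ⟨fun s => if s ∈ Xs G U then p.1.1 (treePick U s) + p.2.1 (treePick Uᶜ s) else 0, by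
    have key : ∀ s s' : Fc G, s ∈ Xs G U → s ≤ s' →
        p.1.1 (treePick U s') + p.2.1 (treePick Uᶜ s') =
          p.1.1 (treePick U s) + p.2.1 (treePick Uᶜ s) := by
      intro s s' hs hle
      have h1 := tree_pick_spec hs.1
      have h2 := tree_pick_spec hs.2
      rw [tree_pick_eq p.1.2 (Fc.le_iff.1 hle h1.1) h1.2,
        tree_pick_eq p.2.2 (Fc.le_iff.1 hle h2.1) h2.2]
    refine ⟨fun s hs s' hs' h => ?_, fun s hs => if_neg hs⟩
    simp only [if_pos hs, if_pos hs']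
    rcases h with h | h
    · exact (key s s' hs h).symm
    · exact key s' s hs' h⟩
  map_add' p q := by
    apply Subtype.ext
    funext s
    by_cases hs : s ∈ Xs G U
    · simp only [Prod.fst_add, Prod.snd_add, Submodule.coe_add, Pi.add_apply, if_pos hs]
      ring
    · simp only [Submodule.coe_add, Pi.add_apply, if_neg hs, add_zero]
  map_smul' c p := by
    apply Subtype.ext
    funext s
    by_cases hs : s ∈ Xs G U
    · simp only [Prod.smul_fst, Prod.smul_snd, Submodule.coe_smul, Pi.smul_apply, if_pos hs,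
        RingHom.id_apply, smul_add]
    · simp only [Submodule.coe_smul, Pi.smul_apply, if_neg hs, RingHom.id_apply, smul_zero]

theorem tree_map_apply {G : Cx V} {U : Set V} (p : LC G U × LC G Uᶜ) {s : Fc G} {u z : V}
    (hu : u ∈ s.1) (huU : u ∈ U) (hz : z ∈ s.1) (hzU : z ∉ U) :
    (treeMap G U p).1 s = p.1.1 u + p.2.1 z := by
  have hs : s ∈ Xs G U := ⟨⟨u, hu, huU⟩, ⟨z, hz, hzU⟩⟩
  show (if s ∈ Xs G U then p.1.1 (treePick U s) + p.2.1 (treePick Uᶜ s) else 0) = _
  rw [if_pos hs, tree_pick_eq p.1.2 hu huU, tree_pick_eq p.2.2 hz hzU]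

/-- The restriction of a function to `U`. -/
def treeCut (U : Set V) (f : V → ZMod 2) : V → ZMod 2 := fun a => if a ∈ U then f a else 0

theorem tree_cut_mem {G : Cx V} {U : Set V} {f : V → ZMod 2}
    (h : ∀ a ∈ U, ∀ b ∈ U, G.r a b → f a = f b) : treeCut U f ∈ LC G U :=
  ⟨fun a ha b hb hab => by simp only [treeCut, if_pos ha, if_pos hb, h a ha b hb hab],
    fun a ha => by simp only [treeCut, if_neg ha]⟩

theorem tree_z2 {x y : ZMod 2} (h : x + y = 0) : x = y := by
  revert x y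
  decide

theorem tree_z2' (x : ZMod 2) : x + x = 0 := by
  revert x
  decide

theorem tree_surj {G : Cx V} (h1 : H1 G Set.univ) (U : Set V) :
    Function.Surjective (treeMap G U) := by
  intro σ
  let η : V → V → ZMod 2 := fun a b => if (a ∈ U ↔ b ∈ U) then 0 else σ.1 (treeEdge G a b)
  have hη : ∀ (s : Fc G) (a b : V), a ∈ s.1 → b ∈ s.1 →
      η a b = if (a ∈ U ↔ b ∈ U) then 0 else σ.1 s := by
    intro s a b ha hb
    by_cases hab : (a ∈ U ↔ b ∈ U)
    · simp only [η, if_pos hab]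
    · simp only [η, if_neg hab]
      have hx := tree_edge_xs (s.2.2 a ha b hb) hab
      have hle := tree_edge_le ha hb
      exact σ.2.1 _ hx _ (tree_xs_up hle hx) (Or.inl hle)
  have hcoc : Coc G Set.univ η := by
    intro a _ b _ c _ hab hbc hac
    let s : Fc G := ⟨{a, b, c}, tree_clq3 hab hbc hac⟩
    have ha : a ∈ s.1 := by simp [s]
    have hb : b ∈ s.1 := by simp [s]
    have hc : c ∈ s.1 := by simp [s]
    rw [hη s a b ha hb, hη s b c hb hc, hη s a c ha hc]
    by_cases h1 : a ∈ U <;> by_cases h2 : b ∈ U <;> by_cases h3 : c ∈ U <;>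
      simp [h1, h2, h3, tree_z2']
  obtain ⟨φ, hφ⟩ := h1 η hcoc
  have hsame : ∀ a b, G.r a b → (a ∈ U ↔ b ∈ U) → φ a = φ b := by
    intro a b hab hU
    have := hφ a trivial b trivial hab
    simp only [η, if_pos hU] at this
    exact tree_z2 this.symm
  refine ⟨(⟨treeCut U φ, tree_cut_mem fun a ha b hb hab =>
      hsame a b hab ⟨fun _ => hb, fun _ => ha⟩⟩,
    ⟨treeCut Uᶜ φ, tree_cut_mem fun a ha b hb hab =>
      hsame a b hab ⟨fun h => (ha h).elim, fun h => (hb h).elim⟩⟩), ?_⟩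
  apply Subtype.ext
  funext s
  by_cases hs : s ∈ Xs G U
  · obtain ⟨⟨u, hu, huU⟩, ⟨z, hz, hzU⟩⟩ := hs
    rw [tree_map_apply _ hu huU hz hzU]
    have hzU' : z ∈ Uᶜ := hzU
    have hne : ¬ (u ∈ U ↔ z ∈ U) := fun h => hzU (h.1 huU)
    simp only [treeCut, if_pos huU, if_pos hzU']
    rw [← hφ u trivial z trivial (s.2.2 u hu z hz), hη s u z hu hz, if_neg hne]
  · rw [σ.2.2 s hs]
    exact (treeMap G U _).2.2 s hs

theorem tree_ker {G : Cx V} (hne : Nonempty V) (hc : Conn G Set.univ) (U : Set V) :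
    Module.finrank (ZMod 2) (LinearMap.ker (treeMap G U)) = 1 := by
  let e : LC G U × LC G Uᶜ := (⟨treeCut U fun _ => 1, tree_cut_mem fun _ _ _ _ _ => rfl⟩,
    ⟨treeCut Uᶜ fun _ => 1, tree_cut_mem fun _ _ _ _ _ => rfl⟩)
  obtain ⟨v⟩ := hne
  have he : e ≠ 0 := by
    intro h
    by_cases hv : v ∈ U
    · have := congrArg (fun p : LC G U × LC G Uᶜ => p.1.1 v) h
      simp [e, treeCut, hv] at this
    · have := congrArg (fun p : LC G U × LC G Uᶜ => p.2.1 v) h
      simp [e, treeCut, hv] at this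
  have hker : LinearMap.ker (treeMap G U) = Submodule.span (ZMod 2) {e} := by
    apply le_antisymm
    · intro p hp
      rw [LinearMap.mem_ker] at hp
      let h : V → ZMod 2 := fun a => p.1.1 a + p.2.1 a
      have hU : ∀ a ∈ U, h a = p.1.1 a := fun a ha => by
        simp only [h, p.2.2.2 a (fun h' => h' ha), add_zero]
      have hU' : ∀ a, a ∉ U → h a = p.2.1 a := fun a ha => by
        simp only [h, p.1.2.2 a ha, zero_add]
      have hcross : ∀ a b, G.r a b → a ∈ U → b ∉ U → h a = h b := by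
        intro a b hab ha hb
        have hv := tree_edge_val hab
        have := tree_map_apply p (s := treeEdge G a b) (u := a) (z := b) (by rw [hv]; simp) ha
          (by rw [hv]; simp) hb
        rw [hp] at this
        rw [hU a ha, hU' b hb]
        exact tree_z2 this.symm
      have hconst : ∀ a, h a = h v := by
        intro a
        refine rch_const (G := G) (S := Set.univ) (f := h) ?_ (hc a trivial v trivial)
        intro a _ b _ hab
        by_cases ha : a ∈ U <;> by_cases hb : b ∈ U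
        · rw [hU a ha, hU b hb]; exact p.1.2.1 a ha b hb hab
        · exact hcross a b hab ha hb
        · exact (hcross b a (G.symm _ _ hab) hb ha).symm
        · rw [hU' a ha, hU' b hb]; exact p.2.2.1 a ha b hb hab
      rw [Submodule.mem_span_singleton]
      refine ⟨h v, ?_⟩
      apply Prod.ext
      · apply Subtype.ext
        funext a
        by_cases ha : a ∈ U
        · rw [← hU a ha, hconst a]
          simp [e, treeCut, ha]
        · rw [p.1.2.2 a ha]
          simp [e, treeCut, ha]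
      · apply Subtype.ext
        funext a
        by_cases ha : a ∈ U
        · rw [p.2.2.2 a (fun h' => h' ha)]
          simp [e, treeCut, ha]
        · rw [← hU' a ha, hconst a]
          simp [e, treeCut, ha]
    · rw [Submodule.span_le, Set.singleton_subset_iff]
      show treeMap G U e = 0
      apply Subtype.ext
      funext s
      by_cases hs : s ∈ Xs G U
      · obtain ⟨⟨u, hu, huU⟩, ⟨z, hz, hzU⟩⟩ := hs
        rw [tree_map_apply _ hu huU hz hzU]
        have hzU' : z ∈ Uᶜ := hzU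
        simp only [e, treeCut, if_pos huU, if_pos hzU']
        exact tree_z2' 1
      · exact (treeMap G U _).2.2 s hs
  rw [hker, finrank_span_singleton he]

theorem tree_reroute {G : Cx V} {S T : Set V} (hc : Conn G S) (L : V → Set V)
    (hsub : ∀ t ∈ T, t ∈ S → L t ⊆ S \ T) (hcon : ∀ t ∈ T, t ∈ S → Conn G (L t))
    (hne : ∀ t ∈ T, t ∈ S → (L t).Nonempty)
    (ha : ∀ t ∈ T, t ∈ S → ∀ x ∈ S, x ∉ T → G.r t x → x ∈ L t)
    (hb : ∀ t ∈ T, t ∈ S → ∀ t' ∈ T, t' ∈ S → G.r t t' → ∃ x, x ∈ L t ∧ x ∈ L t') :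
    Conn G (S \ T) := by
  let f : V → V := fun v => if h : v ∈ T ∧ v ∈ S then (hne v h.1 h.2).choose else v
  have hfT : ∀ t ∈ T, t ∈ S → f t ∈ L t := by
    intro t ht hS
    simp only [f, dif_pos (And.intro ht hS)]
    exact (hne t ht hS).choose_spec
  have hfN : ∀ v, v ∉ T → f v = v := by
    intro v hv
    have : ¬ (v ∈ T ∧ v ∈ S) := fun h => hv h.1
    simp only [f, dif_neg this]
  have hto : ∀ t ∈ T, t ∈ S → ∀ x ∈ L t, Rch G (S \ T) (f t) x := fun t ht hS x hx =>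
    rch_mono (hsub t ht hS) (hcon t ht hS _ (hfT t ht hS) _ hx)
  intro a ha' b hb'
  have := rch_map (G' := G) (G := G) (S' := S) (S := S \ T) (f := f) ?_ (hc a ha'.1 b hb'.1)
  · rwa [hfN a ha'.2, hfN b hb'.2] at this
  intro x hx y hy hxy
  by_cases hxT : x ∈ T <;> by_cases hyT : y ∈ T
  · obtain ⟨w, hw, hw'⟩ := hb x hxT hx y hyT hy hxy
    exact (hto x hxT hx w hw).trans (rch_symm (hto y hyT hy w hw'))
  · rw [hfN y hyT]
    exact hto x hxT hx y (ha x hxT hx y hy hyT hxy)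
  · rw [hfN x hxT]
    exact rch_symm (hto y hyT hy x (ha y hyT hy x hx hxT (G.symm _ _ hxy)))
  · rw [hfN x hxT, hfN y hyT]
    exact rch_step ⟨hx, hxT⟩ ⟨hy, hyT⟩ hxy

theorem tree_mem_lk {G : Cx V} {t w : V} : w ∈ lk G {t} ↔ w ≠ t ∧ G.r w t := by
  simp [lk]

theorem tree_no_tri {G : Cx V} {T : Set V} (hT : ∀ s, Clq G s → Ins s T → s.card ≤ 2) {a b c : V}
    (ha : a ∈ T) (hb : b ∈ T) (hc : c ∈ T) (hab : G.r a b) (hbc : G.r b c) (hac : G.r a c)
    (h1 : a ≠ b) (h2 : b ≠ c) (h3 : a ≠ c) : False := by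
  have := hT {a, b, c} (tree_clq3 hab hbc hac) (by
    intro x hx
    simp only [Finset.mem_insert, Finset.mem_singleton] at hx
    rcases hx with rfl | rfl | rfl <;> assumption)
  rw [Finset.card_eq_three.2 ⟨a, b, c, h1, h3, h2, rfl⟩] at this
  omega

theorem tree_kc [Fintype V] {G : Cx V} (hne : Nonempty V) (hc : Conn G Set.univ)
    (h1 : H1 G Set.univ) (U : Set V) : kc (sd G) (Xs G U) + 1 = kc G U + kc G Uᶜ := by
  have h := LinearMap.finrank_range_add_finrank_ker (treeMap G U)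
  rw [tree_ker hne hc U, LinearMap.range_eq_top.2 (tree_surj h1 U), finrank_top,
    Module.finrank_prod, lc_finrank, lc_finrank, lc_finrank] at h
  exact h

theorem surf_rem [Fintype V] {G : Cx V} {S T : Set V} (h : Surf G S) (hc : Conn G S)
    (hT : ∀ a ∈ T, ∀ b ∈ T, a ∈ S → b ∈ S → G.r a b → a = b) :
    Conn G (S \ T) ∧ (S.Nonempty → (S \ T).Nonempty) := by
  have hsub : ∀ t ∈ T, t ∈ S → lk G {t} ∩ S ⊆ S \ T := by
    intro t ht htS w hw
    have hw1 := tree_mem_lk.1 hw.1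
    exact ⟨hw.2, fun hwT => hw1.1 (hT w hwT t ht hw.2 htS hw1.2)⟩
  refine ⟨tree_reroute hc (fun t => lk G {t} ∩ S) hsub (fun t _ htS => (h.vtx t htS).2)
    (fun t _ htS => (h.vtx t htS).1) ?_ ?_, ?_⟩
  · intro t ht _ x hx hxT htx
    exact ⟨tree_mem_lk.2 ⟨fun e => hxT (e ▸ ht), G.symm _ _ htx⟩, hx⟩
  · intro t ht htS t' ht' htS' htt
    obtain rfl := hT t ht t' ht' htS htS' htt
    obtain ⟨x, hx⟩ := (h.vtx t htS).1
    exact ⟨x, hx, hx⟩
  · rintro ⟨v, hv⟩
    by_cases hvT : v ∈ T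
    · exact (h.vtx v hv).1.mono (hsub v hvT hv)
    · exact ⟨v, hv, hvT⟩

theorem tree_link [Fintype V] {G : Cx V} {T : Set V} (h : PMan G T)
    (hT : ∀ s, Clq G s → Ins s T → s.card ≤ 2) {t : V} (ht : t ∈ T) :
    Conn G (lk G {t} \ T) ∧ (lk G {t} \ T).Nonempty := by
  have h1 := h.con {t} (tree_clq1 G t) ⟨t, by simp, ht⟩ (by simp)
  have := surf_rem (T := T) (h.surf ht) h1.2 (by
    intro a ha b hb ha' hb' hab
    by_contra hne
    rw [tree_mem_lk] at ha' hb'
    exact tree_no_tri hT ha hb ht hab hb'.2 ha'.2 hne hb'.1 ha'.1)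
  exact ⟨this.1, this.2 h1.1⟩

theorem tree_common [Fintype V] {G : Cx V} {T : Set V} (h : PMan G T)
    (hT : ∀ s, Clq G s → Ins s T → s.card ≤ 2) {t t' : V} (ht : t ∈ T) (ht' : t' ∈ T)
    (htt : G.r t t') : ∃ x, x ∈ lk G {t} \ T ∧ x ∈ lk G {t'} \ T := by
  by_cases he : t = t'
  · subst he
    obtain ⟨x, hx⟩ := (tree_link h hT ht).2
    exact ⟨x, hx, hx⟩
  obtain ⟨w, hw1, hw2⟩ := (h.con {t, t'} (tree_clq2 htt) ⟨t, by simp, ht⟩ Finset.card_le_two).1
  simp only [Finset.mem_insert, Finset.mem_singleton, not_or] at hw1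
  have hwt := hw2 t (by simp)
  have hwt' := hw2 t' (by simp)
  have hwT : w ∉ T := fun hw => tree_no_tri hT hw ht ht' hwt htt hwt' hw1.1 he hw1.2
  exact ⟨w, ⟨tree_mem_lk.2 ⟨hw1.1, hwt⟩, hwT⟩, ⟨tree_mem_lk.2 ⟨hw1.2, hwt'⟩, hwT⟩⟩

theorem man_rem [Fintype V] {G : Cx V} {S T : Set V} (h : PMan G T) (hc : Conn G S)
    (hS : ∀ t ∈ T, ∀ x, G.r t x → x ∈ S) (hT : ∀ s, Clq G s → Ins s T → s.card ≤ 2) :
    Conn G (S \ T) ∧ (T.Nonempty → (S \ T).Nonempty) := by
  have hsub : ∀ t ∈ T, lk G {t} \ T ⊆ S \ T := by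
    intro t ht w hw
    exact ⟨hS t ht w (G.symm _ _ (tree_mem_lk.1 hw.1).2), hw.2⟩
  refine ⟨tree_reroute hc (fun t => lk G {t} \ T) (fun t ht _ => hsub t ht)
    (fun t ht _ => (tree_link h hT ht).1) (fun t ht _ => (tree_link h hT ht).2) ?_ ?_, ?_⟩
  · intro t ht _ x _ hxT htx
    exact ⟨tree_mem_lk.2 ⟨fun e => hxT (e ▸ ht), G.symm _ _ htx⟩, hxT⟩
  · intro t ht _ t' ht' _ htt
    exact tree_common h hT ht ht' htt
  · rintro ⟨t, ht⟩
    exact (tree_link h hT ht).2.mono (hsub t ht)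

theorem conn_xs [Fintype V] {G : Cx V} {B : Set V} (h : PMan G B) (hc : Conn G B)
    (hB : ∀ s, Clq G s → Ins s B → s.card ≤ 2) : Conn (sd G) (Xs G B) := by
  have hx : ∀ b ∈ B, ∀ w ∈ lk G {b} \ B, G.r b w ∧ treeEdge G b w ∈ Xs G B := by
    intro b hb w hw
    have hr : G.r b w := G.symm _ _ (tree_mem_lk.1 hw.1).2
    exact ⟨hr, tree_edge_xs hr fun e => hw.2 (e.1 hb)⟩
  have hsame : ∀ b ∈ B, ∀ w ∈ lk G {b} \ B, ∀ w' ∈ lk G {b} \ B,
      Rch (sd G) (Xs G B) (treeEdge G b w) (treeEdge G b w') := by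
    intro b hb w hw w' hw'
    refine rch_map (G' := G) (G := sd G) (S' := lk G {b} \ B) (f := treeEdge G b) ?_
      ((tree_link h hB hb).1 w hw w' hw')
    intro x hx' y hy' hxy
    let s : Fc G := ⟨{b, x, y}, tree_clq3 (hx b hb x hx').1 hxy (hx b hb y hy').1⟩
    exact tree_rch_via (t := s) (tree_edge_le (by simp [s]) (by simp [s]))
      (tree_edge_le (by simp [s]) (by simp [s])) (hx b hb x hx').2 (hx b hb y hy').2
  let w : V → V := fun b => if hb : b ∈ B then (tree_link h hB hb).2.choose else b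
  have hw : ∀ b ∈ B, w b ∈ lk G {b} \ B := by
    intro b hb
    simp only [w, dif_pos hb]
    exact (tree_link h hB hb).2.choose_spec
  have hmove : ∀ b ∈ B, ∀ b' ∈ B,
      Rch (sd G) (Xs G B) (treeEdge G b (w b)) (treeEdge G b' (w b')) := by
    intro b hb b' hb'
    refine rch_map (G' := G) (G := sd G) (S' := B) (f := fun b => treeEdge G b (w b)) ?_
      (hc b hb b' hb')
    intro x hx' y hy' hxy
    obtain ⟨z, hz, hz'⟩ := tree_common h hB hx' hy' hxy
    let s : Fc G := ⟨{x, y, z}, tree_clq3 hxy (hx y hy' z hz').1 (hx x hx' z hz).1⟩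
    exact ((hsame x hx' _ (hw x hx') z hz).trans
      (tree_rch_via (t := s) (tree_edge_le (by simp [s]) (by simp [s]))
        (tree_edge_le (by simp [s]) (by simp [s])) (hx x hx' z hz).2 (hx y hy' z hz').2)).trans
      (hsame y hy' z hz' _ (hw y hy'))
  have hto : ∀ s ∈ Xs G B, ∃ b ∈ B, Rch (sd G) (Xs G B) s (treeEdge G b (w b)) := by
    intro s hs
    obtain ⟨⟨b, hb, hbB⟩, ⟨z, hz, hzB⟩⟩ := hs
    have hzl : z ∈ lk G {b} \ B :=
      ⟨tree_mem_lk.2 ⟨fun e => hzB (e ▸ hbB), s.2.2 z hz b hb⟩, hzB⟩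
    refine ⟨b, hbB, Relation.ReflTransGen.trans ?_ (hsame b hbB z hzl _ (hw b hbB))⟩
    exact tree_rch_via le_rfl (tree_edge_le hb hz) ⟨⟨b, hb, hbB⟩, ⟨z, hz, hzB⟩⟩
      (hx b hbB z hzl).2
  intro s hs s' hs'
  obtain ⟨b, hb, h1⟩ := hto s hs
  obtain ⟨b', hb', h2⟩ := hto s' hs'
  exact (h1.trans (hmove b hb b' hb')).trans (rch_symm h2)

end KG
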