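import Pool.Agent.Work.MP_c146e2_gt.KG.Dual
import Pool.Agent.Work.MP_c146e2_gt.KG.CT
import Pool.Agent.Work.MP_c146e2_gt.KG.BDef
import Pool.Agent.Work.MP_c146e2_gt.KG.BCyc
import Pool.Agent.Work.MP_c146e2_gt.KG.BGrA
import Pool.Agent.Work.MP_c146e2_gt.KG.BRef
import Pool.Agent.Work.MP_c146e2_gt.KG.SC
import Pool.Agent.Work.MP_c146e2_gt.KG.Tree
import Pool.Agent.Work.MP_c146e2_gt.KG.Lin
import Pool.Agent.Work.MP_c146e2_gt.KG.Abs
import Pool.Agent.Work.MP_c146e2_gt.KG.BArr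
import Pool.Agent.Work.MP_c146e2_gt.KG.BGP
import Pool.Agent.Work.MP_c146e2_gt.KG.Bas
import Pool.Agent.Work.MP_c146e2_gt.KG.ManD
import Pool.Agent.Work.MP_c146e2_gt.KG.BGrB
import Pool.Agent.Work.MP_c146e2_gt.KG.CutX
import Pool.Agent.Work.MP_c146e2_gt.KG.CtB
import Pool.Agent.Work.MP_c146e2_gt.KG.ManS
import Pool.Agent.Work.MP_c146e2_gt.KG.Split
import Pool.Agent.Work.MP_c146e2_gt.KG.Defs
import Pool.Agent.Work.MP_c146e2_gt.KG.CtSd
import Pool.Agent.Work.MP_c146e2_gt.KG.CvC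
import Pool.Agent.Work.MP_c146e2_gt.KG.Dehn
import Pool.Agent.Work.MP_c146e2_gt.KG.CutW
import Pool.Agent.Work.MP_c146e2_gt.KG.G6
import Pool.Agent.Work.MP_c146e2_gt.KG.Chi
import Pool.Agent.Work.MP_c146e2_gt.KG.G1
import Pool.Agent.Work.MP_c146e2_gt.KG.BGrD

-- merged part: Pool.Agent.Work.MP_c146e2_gt.KG.Al10
section
-- merged part: Pool.Agent.Work.MP_c146e2_gt.KG.SphA
section
set_option autoImplicit false

noncomputable section

open scoped Classical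

namespace KG

variable {V V' : Type}

theorem spha_min [Fintype V] {G : Cx V} {Z : Set V} {ht : V → ℕ} {n : ℕ} {h : ℕ → V}
    (hh : Hgt G Z ht n h) (v : V) : ht (h 0) ≤ ht v ∧ ht v ≤ ht (h n) := by
  have : Nonempty V := ⟨v⟩
  obtain ⟨a, ha⟩ := Finite.exists_min ht
  obtain ⟨b, hb⟩ := Finite.exists_max ht
  constructor
  · by_cases e : a = h 0
    · exact e ▸ ha v
    · obtain ⟨w, hw⟩ := (hh.low a e).1
      exact absurd hw.2 (not_lt.2 (ha w))
  · by_cases e : b = h n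
    · exact e ▸ hb v
    · obtain ⟨w, hw⟩ := (hh.upp b e).1
      exact absurd hw.2 (not_lt.2 (hb w))

theorem spha_low [Fintype V] {G : Cx V} {Z : Set V} {ht : V → ℕ} {n : ℕ} {h : ℕ → V}
    (hm : Man G Set.univ) (hh : Hgt G Z ht n h) (θ : ℕ) :
    H1 G (insert (h 0) {v | ht v < θ}) ∧ Conn G (insert (h 0) {v | ht v < θ}) ∧
      tv G (insert (h 0) {v | ht v < θ}) = tv G {h 0} := by
  induction θ with
  | zero =>
    have e : insert (h 0) {v | ht v < 0} = {h 0} := by simp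
    rw [e]
    refine ⟨fun η hη => ⟨fun _ => 0, fun a ha b hb _ => ?_⟩,
      conn_of_base (h 0) fun a ha => ha ▸ Relation.ReflTransGen.refl, rfl⟩
    obtain rfl : b = a := hb.trans ha.symm
    rw [hη.self ha, add_zero]
  | succ θ ih =>
    by_cases hv : ∃ v, v ≠ h 0 ∧ ht v = θ
    · obtain ⟨v, h0, hv⟩ := hv
      have e : insert (h 0) {w | ht w < θ + 1} = insert v (insert (h 0) {w | ht w < θ}) := by
        ext w
        simp only [Set.mem_insert_iff, Set.mem_ofPred_eq, Nat.lt_succ_iff_lt_or_eq, ← hv,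
          hh.inj.eq_iff]
        tauto
      have e' : lk G {v} ∩ insert (h 0) {w | ht w < θ} = lowl G ht v := by
        ext w
        simp only [Set.mem_inter_iff, abs_lk, Set.mem_insert_iff, Set.mem_ofPred_eq, lowl, ← hv]
        refine ⟨fun h1 => ⟨G.symm _ _ h1.1.2, h1.2.elim (fun h2 => ?_) id⟩, fun h1 =>
          ⟨⟨fun h2 => (h2 ▸ h1.2).false, G.symm _ _ h1.1⟩, Or.inr h1.2⟩⟩
        exact h2 ▸ lt_of_le_of_ne (spha_min hh v).1 fun h3 => h0 (hh.inj h3).symm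
      have ha : Absorb G (insert (h 0) {w | ht w < θ}) (insert v (insert (h 0) {w | ht w < θ})) :=
        abs_flip (e' ▸ (hh.low v h0).1) (e' ▸ (hh.low v h0).2)
      rw [e]
      exact ⟨ha.h1 ih.1, ha.conn ih.2.1, (ha.tv (hm.mono (Set.subset_univ _))).trans ih.2.2⟩
    · have e : insert (h 0) {w | ht w < θ + 1} = insert (h 0) {w | ht w < θ} := by
        ext w
        have := not_exists.1 hv w
        simp only [Set.mem_insert_iff, Set.mem_ofPred_eq, Nat.lt_succ_iff_lt_or_eq]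
        tauto
      rwa [e]

theorem spha_upp [Fintype V] {G : Cx V} {Z : Set V} {ht : V → ℕ} {n : ℕ} {h : ℕ → V}
    (hh : Hgt G Z ht n h) (θ : ℕ) : Conn G {v | ht v < θ}ᶜ := by
  have key : ∀ k v, ht (h n) - ht v = k → v ∈ {v | ht v < θ}ᶜ → Rch G {v | ht v < θ}ᶜ v (h n) := by
    intro k
    induction k using Nat.strong_induction_on with
    | _ k ih =>
      intro v hk hv
      by_cases e : v = h n
      · exact e ▸ Relation.ReflTransGen.refl
      obtain ⟨w, h1, h2⟩ := (hh.upp v e).1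
      have h3 := (spha_min hh w).2
      have hw : w ∈ {v | ht v < θ}ᶜ := fun h4 => hv (h2.trans h4)
      exact (rch_step hv hw h1).trans (ih _ (by omega) w rfl hw)
  exact conn_of_base (h n) fun a ha => key _ a rfl ha

theorem Hgt.s3 [Fintype V] {G : Cx V} {Z : Set V} {ht : V → ℕ} {n : ℕ} {h : ℕ → V}
    (hm : Man G Set.univ) (hh : Hgt G Z ht n h) : S3 G := by
  have e : insert (h 0) {v | ht v < ht (h n) + 1} = Set.univ :=
    Set.eq_univ_of_forall fun v => Or.inr (Nat.lt_succ_of_le (spha_min hh v).2)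
  obtain ⟨h1, h2, h3⟩ := spha_low hm hh (ht (h n) + 1)
  rw [e] at h1 h2 h3
  refine ⟨hm, ⟨h 0⟩, h2, h1, ?_⟩
  have h4 : SS G (inZ ∅) = SS G (inZ {h 0}) :=
    SS_congr (fun a b _ h => h.1.elim) fun a b _ h => (h.1.trans h.2.symm : a = b) ▸ Cl.refl a
  have h5 : D2 ≠ 0 := (one_pos.trans one_lt_D2).ne'
  rw [← tv_univ G, h3, tv, tv, h4, abs_ncard (Set.empty_subset {h 0}), Set.sdiff_empty,
    Set.ncard_singleton, pow_succ]
  field_simp

theorem Sph.s3 [Fintype V] {G : Cx V} {Z : Set V} (h : Sph G Z) : S3 G := by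
  obtain ⟨hm, _, _, _, hh⟩ := h
  exact hh.s3 hm

theorem Sph.mono [Fintype V] {G : Cx V} {Z Z' : Set V} (h : Sph G Z) (hZ : Z ⊆ Z') : Sph G Z' := by
  obtain ⟨hm, ht, n, h, hh⟩ := h
  exact ⟨hm, ht, n, h, hh.inj, hh.low, hh.upp, fun i hi => hZ (hh.mem i hi), hh.step⟩

theorem Hgt.level [Fintype V] {G : Cx V} {Z : Set V} {ht : V → ℕ} {n : ℕ} {h : ℕ → V}
    (hm : Man G Set.univ) (hh : Hgt G Z ht n h) (θ : ℕ) :
    Surf (sd G) (Xs G {v | ht v < θ}) ∧ H1 (sd G) (Xs G {v | ht v < θ}) ∧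
      Conn (sd G) (Xs G {v | ht v < θ}) := by
  have h0 : H1 G {v | ht v < θ} ∧ Conn G {v | ht v < θ} := by
    by_cases e : ht (h 0) < θ
    · have := spha_low hm hh θ
      rw [Set.insert_eq_of_mem (s := {v | ht v < θ}) e] at this
      exact ⟨this.1, this.2.1⟩
    · have : ∀ a, a ∉ {v | ht v < θ} := fun a ha => e ((spha_min hh a).1.trans_lt ha)
      exact ⟨fun _ _ => ⟨fun _ => 0, fun a ha => (this a ha).elim⟩, fun a ha => (this a ha).elim⟩
  have hs := hh.s3 hm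
  have hU : Man G {v | ht v < θ} := hm.mono (Set.subset_univ _)
  have h1 := tree_kc hs.ne hs.conn hs.h1 {v | ht v < θ}
  have h2 := kc_le_one.2 h0.2
  have h3 := kc_le_one.2 (spha_upp hh θ)
  exact ⟨surf_xs hU.toPMan, h1_xs hU h0.1, kc_le_one.1 (by omega)⟩

theorem Hgt.min [Fintype V] {G : Cx V} {Z : Set V} {ht : V → ℕ} {n : ℕ} {h : ℕ → V}
    (hh : Hgt G Z ht n h) (v : V) : ht (h 0) ≤ ht v ∧ ht v ≤ ht (h n) := spha_min hh v

end KG
end
end

-- merged part: Pool.Agent.Work.MP_c146e2_gt.KG.Al0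
section
set_option autoImplicit false

noncomputable section

open scoped Classical

namespace KG

variable {V V' : Type}

/-- The simplex `s` meets the layer `j`; vertices sit in odd layers. -/
def Val {G : Cx V} (pos : V → ℤ) (s : Fc G) (j : ℤ) : Prop :=
  (∃ a ∈ s.1, pos a ≤ j) ∧ ∃ b ∈ s.1, j ≤ pos b

/-- The cells of the sliced complex. -/
def SP (G : Cx V) (pos : V → ℤ) : Type := {x : Fc G × ℤ // Val pos x.1 x.2}

theorem al0_trans {i j k : ℤ} (h : zle i j) (h' : zle j k) : zle i k := by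
  unfold zle at *
  simp only [Int.even_iff] at *
  omega

theorem al0_antisymm {i j : ℤ} (h : zle i j) (h' : zle j i) : i = j := by
  unfold zle at *
  simp only [Int.even_iff] at *
  omega

instance (G : Cx V) (pos : V → ℤ) : PartialOrder (SP G pos) where
  le x y := x.1.1 ≤ y.1.1 ∧ zle x.1.2 y.1.2
  le_refl _ := ⟨le_rfl, Or.inl rfl⟩
  le_trans _ _ _ h h' := ⟨h.1.trans h'.1, al0_trans h.2 h'.2⟩
  le_antisymm _ _ h h' := Subtype.ext (Prod.ext (h.1.antisymm h'.1) (al0_antisymm h.2 h'.2))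

theorem SP.le_iff {G : Cx V} {pos : V → ℤ} {x y : SP G pos} :
    x ≤ y ↔ x.1.1 ≤ y.1.1 ∧ zle x.1.2 y.1.2 := Iff.rfl

instance [Fintype V] (G : Cx V) (pos : V → ℤ) : Finite (SP G pos) := by
  obtain ⟨a, ha⟩ := (Set.finite_range pos).bddBelow
  obtain ⟨b, hb⟩ := (Set.finite_range pos).bddAbove
  have h : ((Set.univ : Set (Fc G)) ×ˢ Set.Icc a b).Finite :=
    Set.finite_univ.prod (Set.finite_Icc _ _)
  refine (h.subset fun x (hx : Val pos x.1 x.2) => ⟨trivial, ?_⟩).to_subtype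
  obtain ⟨⟨u, -, hu⟩, w, -, hw⟩ := hx
  exact ⟨(ha ⟨u, rfl⟩).trans hu, hw.trans (hb ⟨w, rfl⟩)⟩

instance [Fintype V] (G : Cx V) (pos : V → ℤ) : Fintype (SP G pos) := Fintype.ofFinite _

structure PosOK (pos : V → ℤ) : Prop where
  inj : Function.Injective pos
  odd : ∀ v, Odd (pos v)

def lay {G : Cx V} (pos : V → ℤ) (Y : Fc G → ℤ → Prop) : Set (SP G pos) := {x | Y x.1.1 x.1.2}

def adjL {G : Cx V} (s : Fc G) (j : ℤ) (s' : Fc G) (j' : ℤ) : Prop :=
  (s ≤ s' ∧ zle j j') ∨ (s' ≤ s ∧ zle j' j)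

/-- No vertex sits in the layer `j`. -/
def NV (pos : V → ℤ) (j : ℤ) : Prop := ∀ v, pos v ≠ j

def WL (G : Cx V) (pos : V → ℤ) (j : ℤ) : Set (Fc G) := {s | Val pos s j}

def Abss (G : Cx V) : Set V → Set V → Prop := Relation.ReflTransGen (Absorb G)

/-- At most `n` changes of colour on a path from `R` inside `W`. -/
inductive Dle (G : Cx V) (W : Set V) (z : V → Prop) (R : Set V) : ℕ → V → Prop
  | root {x : V} : x ∈ R → Dle G W z R 0 x
  | same {n : ℕ} {x y : V} : Dle G W z R n x → y ∈ W → G.r x y → (z x ↔ z y) → Dle G W z R n y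
  | step {n : ℕ} {x y : V} : Dle G W z R n x → y ∈ W → G.r x y → Dle G W z R (n + 1) y

def dep (G : Cx V) (W : Set V) (z : V → Prop) (R : Set V) (x : V) : ℕ := sInf {n | Dle G W z R n x}

structure DepOK (G : Cx V) (W : Set V) (z : V → Prop) (R : Set V) : Prop where
  sub : R ⊆ W
  col : ∀ x ∈ R, z x
  rch : ∀ x ∈ W, ∃ y ∈ R, Rch G W y x

/-! The schedule: centres `1 + 2 M a`, middle levels `1 + 2 M a + M`, vertices at the centres with
`a` divisible by three. -/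

def MM [Fintype V] (G : Cx V) : ℕ := 2 * Fintype.card (Fc G) + 3

def psn [Fintype V] (G : Cx V) (ht : V → ℕ) (v : V) : ℤ := 1 + 6 * (MM G : ℤ) * ht v

/-- The nearest centre. -/
def cen [Fintype V] (G : Cx V) (j : ℤ) : ℤ := j - ((j - 1 + MM G) % (2 * MM G) - MM G)

/-- The distance to the nearest middle level. -/
def kp [Fintype V] (G : Cx V) (j : ℤ) : ℕ := MM G - (j - cen G j).natAbs

def Y1 [Fintype V] (G : Cx V) (Z : Set V) (ht : V → ℕ) (s : Fc G) (j : ℤ) : Prop :=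
  Ins s.1 Z ∨ ∃ v ∈ s.1, v ∈ Z ∧ |j - psn G ht v| ≤ 2 * MM G

def Rt {G : Cx V} (n : ℕ) (h : ℕ → V) (s : Fc G) : Prop :=
  ∃ i ≤ n, s.1 = {h i} ∨ (i < n ∧ s.1 = {h i, h (i + 1)})

/-- The depth inside a layer. -/
def dp [Fintype V] (G : Cx V) (Z : Set V) (ht : V → ℕ) (n : ℕ) (h : ℕ → V) (s : Fc G) (j : ℤ) : ℕ :=
  dep (sd G) (WL G (psn G ht) j) (fun t => Y1 G Z ht t j) {t | Rt n h t ∧ Val (psn G ht) t j} s

def Y2 [Fintype V] (G : Cx V) (Z : Set V) (ht : V → ℕ) (n : ℕ) (h : ℕ → V) (e : ℕ) (s : Fc G)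
    (j : ℤ) : Prop :=
  Even (min (dp G Z ht n h s j) (max (kp G j) e))

/-- The depth in the sliced complex after the surgeries. -/
def D3 [Fintype V] (G : Cx V) (Z : Set V) (ht : V → ℕ) (n : ℕ) (h : ℕ → V) (s : Fc G) (j : ℤ) : ℕ :=
  if hv : Val (psn G ht) s j then
    dep (ord (SP G (psn G ht))) Set.univ (fun x => Y2 G Z ht n h 0 x.1.1 x.1.2)
      (lay (psn G ht) fun t _ => Rt n h t) ⟨(s, j), hv⟩
  else 0

def PhiA [Fintype V] (G : Cx V) (Z : Set V) (ht : V → ℕ) (n : ℕ) (h : ℕ → V) (s : Fc G) (j : ℤ) :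
    ℕ :=
  if NV (psn G ht) (cen G j) then D3 G Z ht n h s j else min (dp G Z ht n h s j) (kp G j)

end KG
end
end

-- merged part: Pool.Agent.Work.MP_c146e2_gt.KG.Al3
section
set_option autoImplicit false

noncomputable section

open scoped Classical

namespace KG

variable {V V' : Type}

theorem al3_up {G : Cx V} {pos : V → ℤ} {s s' : Fc G} {j : ℤ} (h : Val pos s j) (hs : s ≤ s') :
    Val pos s' j :=
  ⟨h.1.imp fun _ ha => ⟨Fc.le_iff.1 hs ha.1, ha.2⟩, h.2.imp fun _ ha => ⟨Fc.le_iff.1 hs ha.1, ha.2⟩⟩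

theorem al3_nv {G : Cx V} {pos : V → ℤ} {s : Fc G} {j d : ℤ} (hd : d = 1 ∨ d = -1)
    (h : Val pos s j) (hn : NV pos j) : Val pos s (j + d) := by
  obtain ⟨⟨a, ha, h1⟩, b, hb, h2⟩ := h
  have := hn a
  have := hn b
  exact ⟨⟨a, ha, by omega⟩, b, hb, by omega⟩

theorem al3_ev {G : Cx V} {pos : V → ℤ} (hp : PosOK pos) {s : Fc G} {j d : ℤ} (hd : d = 1 ∨ d = -1)
    (h : Val pos s j) (he : Even j) : Val pos s (j + d) :=
  al3_nv hd h fun v e => by
    have h1 := hp.odd v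
    rw [e, ← Int.not_even_iff_odd] at h1
    exact h1 he

theorem al3_zle {j d : ℤ} (hd : d = 1 ∨ d = -1) : zle j (j + d) ∨ zle (j + d) j := by
  unfold zle
  simp only [Int.even_iff]
  omega

theorem al3_r {G : Cx V} {pos : V → ℤ} {x y : SP G pos} :
    (ord (SP G pos)).r x y ↔ adjL x.1.1 x.1.2 y.1.1 y.1.2 := Iff.rfl

theorem al3_adj_same {G : Cx V} {s s' : Fc G} {j j' : ℤ} (h : adjL s j s' j') (i : ℤ) :
    adjL s i s' i :=
  h.imp (fun h => ⟨h.1, Or.inl rfl⟩) fun h => ⟨h.1, Or.inl rfl⟩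

theorem al3_adj_self {G : Cx V} (s : Fc G) {j d : ℤ} (hd : d = 1 ∨ d = -1) :
    adjL s j s (j + d) :=
  (al3_zle hd).imp (fun h => ⟨le_rfl, h⟩) fun h => ⟨le_rfl, h⟩

theorem al3_bound [Fintype V] (G : Cx V) (pos : V → ℤ) {d : ℤ} (hd : d = 1 ∨ d = -1) :
    ∃ N : ℤ, ∀ (s : Fc G) j, Val pos s j → d * j < N := by
  obtain ⟨a, ha⟩ := (Set.finite_range pos).bddBelow
  obtain ⟨b, hb⟩ := (Set.finite_range pos).bddAbove
  refine ⟨max b (-a) + 1, fun s j ⟨⟨u, _, hu⟩, w, _, hw⟩ => ?_⟩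
  have h1 := ha ⟨u, rfl⟩
  have h2 := hb ⟨w, rfl⟩
  rcases hd with rfl | rfl <;> omega

theorem eat [Fintype V] {G : Cx V} {pos : V → ℤ} (hp : PosOK pos) {Y B : Fc G → ℤ → Prop} {d : ℤ}
    (hd : d = 1 ∨ d = -1) (hB : ∀ s j, Val pos s j → B s j → NV pos j)
    (E1 : ∀ s j s', Val pos s j → B s j → Val pos s' (j + d) → adjL s j s' (j + d) →
      Y s' j ∨ B s' j → Y s' (j + d) ∨ B s' (j + d))
    (E2 : ∀ s j s', Val pos s j → B s j → Val pos s' (j - d) → adjL s j s' (j - d) →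
      Y s' (j - d) → Y s' j) :
    Absorb (ord (SP G pos)) (lay pos Y) (lay pos fun s j => Y s j ∨ B s j) := by
  obtain ⟨N, hN⟩ := al3_bound G pos hd
  have h0 : ∀ x : SP G pos, ∃ y : SP G pos, B x.1.1 x.1.2 → y.1.1 = x.1.1 ∧ y.1.2 = x.1.2 + d := by
    intro x
    by_cases hx : B x.1.1 x.1.2
    · exact ⟨⟨(x.1.1, x.1.2 + d), al3_nv hd x.2 (hB _ _ x.2 hx)⟩, fun _ => ⟨rfl, rfl⟩⟩
    · exact ⟨x, fun h => absurd h hx⟩
  choose p hpp using h0
  have hpr : ∀ x : SP G pos, B x.1.1 x.1.2 → (ord (SP G pos)).r x (p x) := fun x hx => by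
    rw [al3_r, (hpp x hx).1, (hpp x hx).2]
    exact al3_adj_self _ hd
  have hpm : ∀ x : SP G pos, B x.1.1 x.1.2 → p x ∈ lay pos Y ∪ lay pos B := fun x hx => by
    show Y (p x).1.1 (p x).1.2 ∨ B (p x).1.1 (p x).1.2
    rw [(hpp x hx).1, (hpp x hx).2]
    exact E1 _ _ _ x.2 hx (al3_nv hd x.2 (hB _ _ x.2 hx)) (al3_adj_self _ hd) (Or.inr hx)
  set C := Cl (ord (SP G pos))
    (fun x y => inZ (lay pos Y) x y ∨ par (lay pos B \ lay pos Y) p x y) with hC
  let P : ℤ → Prop := fun j => ∀ a ∈ lay pos Y ∪ lay pos B, ∀ b ∈ lay pos Y ∪ lay pos B,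
    a.1.2 = j → b.1.2 = j → (ord (SP G pos)).r a b → C a b
  have hU : ∀ a ∈ lay pos Y ∪ lay pos B, ∀ b ∈ lay pos Y ∪ lay pos B, b.1.2 = a.1.2 + d →
      P (a.1.2 + d) → (ord (SP G pos)).r a b → C a b := by
    intro a ha b hb e hP hab
    by_cases h1 : a ∈ lay pos Y
    · by_cases h2 : b ∈ lay pos Y
      · exact Cl.base (Or.inl ⟨h1, h2⟩)
      · have h3 : B b.1.1 b.1.2 := hb.resolve_left h2
        have e' : b.1.2 - d = a.1.2 := by omega
        have h4 : Val pos a.1.1 (a.1.2 + d) := by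
          rcases al3_r.1 hab with h | h
          · refine al3_ev hp hd a.2 ?_
            rcases h.2 with h5 | h5
            · omega
            · exact h5.1
          · exact e ▸ al3_up b.2 h.1
        have h5 : Y a.1.1 b.1.2 := E2 b.1.1 b.1.2 a.1.1 b.2 h3 (e' ▸ a.2)
          (e' ▸ al3_r.1 ((ord _).symm _ _ hab)) (e' ▸ h1)
        let c : SP G pos := ⟨(a.1.1, a.1.2 + d), h4⟩
        have hc : c ∈ lay pos Y := by
          show Y a.1.1 (a.1.2 + d)
          exact e ▸ h5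
        have hcb : (ord (SP G pos)).r c b := by
          show adjL a.1.1 (a.1.2 + d) b.1.1 b.1.2
          rw [e]
          exact al3_adj_same (al3_r.1 hab) _
        exact Cl.tri (b := c) (al3_adj_self _ hd) hcb hab (Cl.base (Or.inl ⟨h1, hc⟩))
          (hP c (Or.inl hc) b hb rfl e hcb)
    · have h3 : B a.1.1 a.1.2 := ha.resolve_left h1
      have hcb : (ord (SP G pos)).r (p a) b := by
        rw [al3_r, (hpp a h3).1, (hpp a h3).2, e]
        exact al3_adj_same (al3_r.1 hab) _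
      exact Cl.tri (hpr a h3) hcb hab (Cl.base (Or.inr ⟨⟨h3, h1⟩, rfl⟩))
        (hP _ (hpm a h3) b hb (hpp a h3).2 e hcb)
  have hstep : ∀ j, P (j + d) → P j := by
    intro j hP
    have key : ∀ a ∈ lay pos Y ∪ lay pos B, ∀ b ∈ lay pos Y ∪ lay pos B,
        a.1.2 = j → b.1.2 = j → a ≤ b → C a b := by
      intro a ha b hb ea eb hab
      by_cases h1 : a ∈ lay pos Y ∧ b ∈ lay pos Y
      · exact Cl.base (Or.inl h1)
      have h2 : B a.1.1 j ∨ B b.1.1 j := by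
        by_cases h3 : a ∈ lay pos Y
        · exact Or.inr (eb ▸ hb.resolve_left fun h => h1 ⟨h3, h⟩)
        · exact Or.inl (ea ▸ ha.resolve_left h3)
      have va : Val pos a.1.1 j := ea ▸ a.2
      have vb : Val pos b.1.1 j := eb ▸ b.2
      have ma : Y a.1.1 j ∨ B a.1.1 j := ea ▸ ha
      have mb : Y b.1.1 j ∨ B b.1.1 j := eb ▸ hb
      have hn : NV pos j := h2.elim (hB _ _ va) (hB _ _ vb)
      obtain ⟨c, hc, ec, hac, hbc⟩ : ∃ c ∈ lay pos Y ∪ lay pos B, c.1.2 = j + d ∧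
          (ord (SP G pos)).r a c ∧ (ord (SP G pos)).r b c := by
        rcases al3_zle (j := j) hd with h | h
        · have r1 : adjL a.1.1 j b.1.1 (j + d) := Or.inl ⟨hab.1, h⟩
          have r2 : adjL b.1.1 j b.1.1 (j + d) := al3_adj_self _ hd
          refine ⟨⟨(b.1.1, j + d), al3_nv hd vb hn⟩, ?_, rfl, ?_, ?_⟩
          · exact h2.elim (fun h3 => E1 _ _ _ va h3 (al3_nv hd vb hn) r1 mb)
              fun h3 => E1 _ _ _ vb h3 (al3_nv hd vb hn) r2 mb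
          · rw [al3_r, ea]
            exact r1
          · rw [al3_r, eb]
            exact r2
        · have r1 : adjL a.1.1 j a.1.1 (j + d) := al3_adj_self _ hd
          have r2 : adjL b.1.1 j a.1.1 (j + d) := Or.inr ⟨hab.1, h⟩
          refine ⟨⟨(a.1.1, j + d), al3_nv hd va hn⟩, ?_, rfl, ?_, ?_⟩
          · exact h2.elim (fun h3 => E1 _ _ _ va h3 (al3_nv hd va hn) r1 ma)
              fun h3 => E1 _ _ _ vb h3 (al3_nv hd va hn) r2 ma
          · rw [al3_r, ea]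
            exact r1
          · rw [al3_r, eb]
            exact r2
      exact Cl.tri hac ((ord _).symm _ _ hbc) (Or.inl hab)
        (hU a ha c hc (by rw [ec, ea]) (ea ▸ hP) hac)
        (hU b hb c hc (by rw [ec, eb]) (eb ▸ hP) hbc).symm
    intro a ha b hb ea eb hab
    rcases hab with h | h
    · exact key a ha b hb ea eb h
    · exact (key b hb a ha eb ea h).symm
  have hall : ∀ n : ℕ, ∀ j, N - d * j ≤ n → P j := by
    intro n
    induction n with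
    | zero =>
      intro j hj a _ _ _ ea
      have := hN _ _ a.2
      rw [ea] at this
      omega
    | succ n ih =>
      intro j hj
      refine hstep j (ih _ ?_)
      rcases hd with rfl | rfl <;> omega
  have hP : ∀ j, P j := fun j => hall (N - d * j).toNat j (Int.self_le_toNat _)
  refine absorb_of (Z := lay pos Y) (B := lay pos B) (p := p)
    ⟨fun x => (N - d * x.1.2).toNat, fun v hv => ⟨hpm v hv.1, hpr v hv.1, fun _ => ?_⟩⟩
    fun a ha b hb hab => ?_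
  · have h1 := hN _ _ v.2
    show (N - d * (p v).1.2).toNat < (N - d * v.1.2).toNat
    rw [(hpp v hv.1).2]
    rcases hd with rfl | rfl <;> omega
  · have h1 : b.1.2 = a.1.2 ∨ b.1.2 = a.1.2 + d ∨ a.1.2 = b.1.2 + d := by
      rcases al3_r.1 hab with h | h <;> rcases h.2 with h | h <;> omega
    rcases h1 with h1 | h1 | h1
    · exact hP _ a (Or.inr ha.1) b hb rfl h1 hab
    · exact hU a (Or.inr ha.1) b hb h1 (hP _) hab
    · exact (hU b hb a (Or.inr ha.1) h1 (hP _) ((ord _).symm _ _ hab)).symm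

theorem al3_abss {G : Cx V} {A B : Set V} (h : Abss G A B) : Reach G A B ∧ Reach G Aᶜ Bᶜ := by
  induction h with
  | refl => exact ⟨Relation.ReflTransGen.refl, Relation.ReflTransGen.refl⟩
  | tail _ hab ih =>
    refine ⟨ih.1.tail (Or.inl hab), ih.2.tail (Or.inr ?_)⟩
    rw [compl_compl, compl_compl]
    exact hab

theorem reach_class {G : Cx V} (P : Prop) {z z' : V → Prop}
    (h : Abss G {x | z x ↔ P} {x | z' x ↔ P}) : Reach G {x | z x} {x | z' x} := by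
  by_cases hP : P
  · simp only [hP, iff_true] at h
    exact (al3_abss h).1
  · simp only [hP, iff_false] at h
    have h2 := (al3_abss h).2
    have e : ∀ w : V → Prop, {x | ¬ w x}ᶜ = {x | w x} := fun w => Set.ext fun x => not_not
    rwa [e, e] at h2

theorem cone {G : Cx V} {pos : V → ℤ} (hp : PosOK pos) (Z : Set V) :
    Absorb (ord (SP G pos)) (lay pos fun s _ => Ins s.1 Z)
      (lay pos fun s j => Ins s.1 Z ∨ ∃ v ∈ s.1, v ∈ Z ∧ j = pos v) := by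
  have h0 : ∀ x : SP G pos, ∃ y : SP G pos, (∃ v ∈ x.1.1.1, v ∈ Z ∧ x.1.2 = pos v) →
      ∃ v ∈ x.1.1.1, v ∈ Z ∧ x.1.2 = pos v ∧ y.1.1.1 = {v} ∧ y.1.2 = pos v := by
    intro x
    by_cases hx : ∃ v ∈ x.1.1.1, v ∈ Z ∧ x.1.2 = pos v
    · obtain ⟨v, h1, h2, h3⟩ := hx
      have hc : Clq G {v} := ⟨Finset.singleton_nonempty v, fun a ha b hb => by
        rw [Finset.mem_singleton.1 ha, Finset.mem_singleton.1 hb]
        exact G.refl v⟩
      exact ⟨⟨(⟨{v}, hc⟩, pos v), ⟨v, Finset.mem_singleton_self v, le_rfl⟩, v,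
        Finset.mem_singleton_self v, le_rfl⟩, fun _ => ⟨v, h1, h2, h3, rfl, rfl⟩⟩
    · exact ⟨x, fun h => absurd h hx⟩
  choose p hpp using h0
  have hle : ∀ x y : SP G pos, (∃ v ∈ x.1.1.1, v ∈ Z ∧ x.1.2 = pos v) →
      (∃ v ∈ y.1.1.1, y.1.2 = pos v) → x.1.2 = y.1.2 → p x ≤ y := by
    intro x y hx ⟨w, hw, ew⟩ e
    obtain ⟨v, h1, h2, h3, h4, h5⟩ := hpp x hx
    have : v = w := hp.inj (by omega)
    refine ⟨Fc.le_iff.2 ?_, Or.inl (by omega)⟩
    rw [h4, this]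
    exact Finset.singleton_subset_iff.2 hw
  have hin : ∀ x : SP G pos, (∃ v ∈ x.1.1.1, v ∈ Z ∧ x.1.2 = pos v) → Ins (p x).1.1.1 Z := by
    intro x hx a ha
    obtain ⟨v, h1, h2, h3, h4, h5⟩ := hpp x hx
    rw [h4, Finset.mem_singleton] at ha
    exact ha ▸ h2
  have hpa : ∀ x : SP G pos, (∃ v ∈ x.1.1.1, v ∈ Z ∧ x.1.2 = pos v) → p x ≤ x := fun x hx =>
    hle x x hx (hx.imp fun v hv => ⟨hv.1, hv.2.2⟩) rfl
  refine absorb_of (Z := lay pos fun s _ => Ins s.1 Z)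
    (B := lay pos fun s j => ∃ v ∈ s.1, v ∈ Z ∧ j = pos v) (p := p)
    ⟨fun _ => 0, fun v hv => ⟨Or.inl (hin v hv.1), Or.inr (hpa v hv.1),
      fun h => absurd (hin v hv.1) h.2⟩⟩ fun a ha b hb hab => ?_
  have c0 := Cl.base (G := ord (SP G pos)) (A := fun x y => inZ (lay pos fun s _ => Ins s.1 Z) x y ∨
    par ((lay pos fun s j => ∃ v ∈ s.1, v ∈ Z ∧ j = pos v) \ lay pos fun s _ => Ins s.1 Z) p x y)
    (Or.inr ⟨ha, rfl⟩)
  obtain ⟨v, h1, h2, h3⟩ := id ha.1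
  by_cases hb0 : Ins b.1.1.1 Z
  · have hba : b ≤ a := hab.resolve_left fun h => ha.2 fun x hx => hb0 x (Fc.le_iff.1 h.1 hx)
    have hsub : insert v b.1.1.1 ⊆ a.1.1.1 := Finset.insert_subset h1 (Fc.le_iff.1 hba.1)
    have hc : Clq G (insert v b.1.1.1) := ⟨Finset.insert_nonempty _ _, fun x hx y hy =>
      a.1.1.2.2 x (hsub hx) y (hsub hy)⟩
    let c : SP G pos := ⟨(⟨insert v b.1.1.1, hc⟩, a.1.2),
      ⟨v, Finset.mem_insert_self _ _, h3.ge⟩, v, Finset.mem_insert_self _ _, h3.le⟩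
    have hcZ : Ins c.1.1.1 Z := fun x hx => by
      rcases Finset.mem_insert.1 hx with e | e
      · exact e ▸ h2
      · exact hb0 x e
    have hca : c ≤ a := ⟨Fc.le_iff.2 hsub, Or.inl rfl⟩
    have hbc : b ≤ c := ⟨Fc.le_iff.2 (Finset.subset_insert _ _), hba.2⟩
    have hpc : p a ≤ c := hle a c ha.1 ⟨v, Finset.mem_insert_self _ _, h3⟩ rfl
    exact Cl.tri (b := c) (Or.inr hca) (Or.inr hbc) hab
      (Cl.tri (Or.inr (hpa a ha.1)) (Or.inl hpc) (Or.inr hca) c0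
        (Cl.base (Or.inl ⟨hin a ha.1, hcZ⟩))) (Cl.base (Or.inl ⟨hcZ, hb0⟩))
  · have hb1 := hb.resolve_left hb0
    obtain ⟨w, k1, k2, k3⟩ := id hb1
    have e : a.1.2 = b.1.2 := by
      have o1 := Int.odd_iff.1 (hp.odd v)
      have o2 := Int.odd_iff.1 (hp.odd w)
      rcases al3_r.1 hab with h | h <;> rcases h.2 with h | h
      · exact h
      · have := Int.even_iff.1 h.1
        omega
      · exact h.symm
      · have := Int.even_iff.1 h.1
        omega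
    have e2 : p a = p b := by
      obtain ⟨x, x1, x2, x3, x4, x5⟩ := hpp a ha.1
      obtain ⟨y, y1, y2, y3, y4, y5⟩ := hpp b hb1
      exact le_antisymm (hle a _ ha.1 ⟨y, y4 ▸ Finset.mem_singleton_self y, y5⟩ (by omega))
        (hle b _ hb1 ⟨x, x4 ▸ Finset.mem_singleton_self x, x5⟩ (by omega))
    refine Cl.tri (Or.inr (hpa a ha.1)) (Or.inl (e2 ▸ hpa b hb1)) hab c0 (Cl.symm ?_)
    exact Cl.base (Or.inr ⟨⟨hb1, hb0⟩, e2⟩)

theorem al3_lay {G : Cx V} {pos : V → ℤ} {x y : SP G pos} (hx : Even x.1.2) (hy : Even y.1.2)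
    (h : (ord (SP G pos)).r x y) : y.1.2 = x.1.2 ∧ (sd G).r x.1.1 y.1.1 := by
  have h1 := Int.even_iff.1 hx
  have h2 := Int.even_iff.1 hy
  refine ⟨?_, (al3_r.1 h).imp And.left And.left⟩
  rcases al3_r.1 h with h | h <;> rcases h.2 with h | h <;> omega

theorem al3_lay' {G : Cx V} {pos : V → ℤ} {x y : SP G pos} (e : y.1.2 = x.1.2)
    (h : (sd G).r x.1.1 y.1.1) : (ord (SP G pos)).r x y :=
  Or.imp (fun h => ⟨h, Or.inl e.symm⟩) (fun h => ⟨h, Or.inl e⟩) h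

theorem al3_rch {G : Cx V} {pos : V → ℤ} {T : Fc G → ℤ → Prop} (hT : ∀ s j, T s j → Val pos s j)
    {a b : SP G pos} (e : b.1.2 = a.1.2) (h : Rch (sd G) {s | T s a.1.2} a.1.1 b.1.1) :
    Rch (ord (SP G pos)) (lay pos T) a b := by
  have key : ∀ t, Rch (sd G) {s | T s a.1.2} a.1.1 t → ∀ b : SP G pos, b.1.2 = a.1.2 →
      b.1.1 = t → Rch (ord (SP G pos)) (lay pos T) a b := by
    intro t h
    induction h with
    | refl =>
      intro b e1 e2
      have : b = a := Subtype.ext (Prod.ext e2 e1)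
      exact this ▸ Relation.ReflTransGen.refl
    | @tail u t _ hut ih =>
      intro b e1 e2
      let c : SP G pos := ⟨(u, a.1.2), hT _ _ hut.1⟩
      refine (ih c rfl rfl).trans (rch_step hut.1 ?_ (al3_lay' e1 (e2 ▸ hut.2.2)))
      show T b.1.1 b.1.2
      rw [e1, e2]
      exact hut.2.1
  exact key _ h b e rfl

theorem al3_rch' {G : Cx V} {pos : V → ℤ} {T : Fc G → ℤ → Prop} (hT : ∀ s j, T s j → Even j)
    {a b : SP G pos} (h : Rch (ord (SP G pos)) (lay pos T) a b) :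
    b.1.2 = a.1.2 ∧ Rch (sd G) {s | T s a.1.2} a.1.1 b.1.1 := by
  induction h with
  | refl => exact ⟨rfl, Relation.ReflTransGen.refl⟩
  | tail _ hut ih =>
    obtain ⟨e, r⟩ := al3_lay (hT _ _ hut.1) (hT _ _ hut.2.1) hut.2.2
    refine ⟨e.trans ih.1, ih.2.trans (rch_step ?_ ?_ r)⟩
    · exact ih.1 ▸ hut.1
    · exact (e.trans ih.1) ▸ hut.2.1

theorem discs [Fintype V] {G : Cx V} {pos : V → ℤ} {Y S : Fc G → ℤ → Prop}
    (hev : ∀ s j, S s j → Even j ∧ Val pos s j) (ht : ∀ j, Thin (sd G) {s | S s j})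
    (h1 : ∀ j, H1 (sd G) {s | S s j})
    (hr : ∀ s j, S s j → ∃ y, S y j ∧ Y y j ∧ Rch (sd G) {s | S s j} s y)
    (hY : ∀ j y y' a a', S y j → Y y j → S y' j → Y y' j → S a j → ¬ Y a j → S a' j → ¬ Y a' j →
      (sd G).r a y → (sd G).r a' y' → Rch (sd G) {s | S s j ∧ ¬ Y s j} a a' →
      Rch (sd G) {s | S s j ∧ Y s j} y y')
    (hout : ∀ s j s' j', S s j → ¬ Y s j → Val pos s' j' → Y s' j' → adjL s j s' j' →
      S s' j ∧ Y s' j) :
    Absorb (ord (SP G pos)) (lay pos Y) (lay pos fun s j => Y s j ∨ S s j) := by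
  let L : ℤ → Set (SP G pos) := fun j => {x | S x.1.1 x.1.2 ∧ x.1.2 = j}
  have hb : ∀ j, Set.BijOn (fun x : SP G pos => x.1.1) (L j) {s | S s j} := fun j =>
    ⟨fun x hx => show S x.1.1 j from hx.2 ▸ hx.1,
      fun x hx y hy e => Subtype.ext (Prod.ext e (hx.2.trans hy.2.symm)),
      fun s hs => ⟨⟨(s, j), (hev s j hs).2⟩, ⟨hs, rfl⟩, rfl⟩⟩
  have hl : ∀ x ∈ lay pos S, ∀ y ∈ lay pos S, (ord (SP G pos)).r x y →
      y.1.2 = x.1.2 ∧ (sd G).r x.1.1 y.1.1 := fun x hx y hy h =>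
    al3_lay (hev _ _ hx).1 (hev _ _ hy).1 h
  have hrr : ∀ j, ∀ a ∈ L j, ∀ b ∈ L j, (ord (SP G pos)).r a b ↔ (sd G).r a.1.1 b.1.1 :=
    fun j a ha b hb => ⟨fun h => (hl a ha.1 b hb.1 h).2, al3_lay' (hb.2.trans ha.2.symm)⟩
  have hins : ∀ s, Clq (ord (SP G pos)) s → Ins s (lay pos S) → ∃ x ∈ s, Ins s (L x.1.2) :=
    fun s hs hi => by
      obtain ⟨x, hx⟩ := hs.1
      exact ⟨x, hx, fun y hy => ⟨hi y hy, (hl x (hi x hx) y (hi y hy) (hs.2 x hx y hy)).1⟩⟩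
  refine abs_sc (Y := lay pos Y) (S := lay pos S) ⟨fun s hs hi => ?_, fun s hs hi hc => ?_⟩
    (fun η hη => ?_) (fun a ha => ?_) (fun y hy y' hy' a ha a' ha' r r' h => ?_)
    fun a ha y hy r => ?_
  · obtain ⟨x, -, hx⟩ := hins s hs hi
    exact (thin_iso (hb _) (hrr _) (ht _)).dim s hs hx
  · obtain ⟨x, hx, hx'⟩ := hins s hs hi
    refine le_trans (Set.ncard_le_ncard ?_ (Set.toFinite _))
      ((thin_iso (hb _) (hrr _) (ht _)).edg s hs hx' hc)
    exact fun w hw => ⟨hw.1, hw.2,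
      (hl x (hi x hx) w hw.2 ((ord _).symm _ _ (hw.1.2 x hx))).1⟩
  · have h2 : ∀ j, Cob (ord (SP G pos)) (L j) η := fun j =>
      (h1_iso (hb j) (hrr j)).2 (h1 j) η fun a ha b hb c hc => hη a ha.1 b hb.1 c hc.1
    choose f hf using h2
    refine ⟨fun x => f x.1.2 x, fun a ha b hb hab => ?_⟩
    have e := (hl a ha b hb hab).1
    show η a b = f a.1.2 a + f b.1.2 b
    rw [e]
    exact hf _ a ⟨ha, rfl⟩ b ⟨hb, e⟩ hab
  · obtain ⟨y, y1, y2, y3⟩ := hr _ _ ha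
    exact ⟨⟨(y, a.1.2), (hev _ _ y1).2⟩, ⟨y1, y2⟩,
      al3_rch (fun s j h => (hev s j h).2) rfl y3⟩
  · obtain ⟨e1, r1⟩ := hl a ha.1 y hy.1 r
    obtain ⟨e2, r2⟩ := hl a' ha'.1 y' hy'.1 r'
    obtain ⟨e3, r3⟩ := al3_rch' (T := fun s j => S s j ∧ ¬ Y s j) (fun s j h => (hev s j h.1).1) h
    have e4 : y'.1.2 = a.1.2 := e2.trans e3
    refine al3_rch (T := fun s j => S s j ∧ Y s j) (fun s j h => (hev s j h.1).2)
      (e4.trans e1.symm) ?_
    rw [e1]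
    exact hY a.1.2 y.1.1 y'.1.1 a.1.1 a'.1.1 (e1 ▸ hy.1) (e1 ▸ hy.2) (e4 ▸ hy'.1) (e4 ▸ hy'.2)
      ha.1 ha.2 (e3 ▸ ha'.1) (e3 ▸ ha'.2) r1 r2 r3
  · obtain ⟨k1, k2⟩ := hout _ _ _ _ ha.1 ha.2 y.2 hy.1 (al3_r.1 r)
    refine ⟨⟨(y.1.1, a.1.2), (hev _ _ k1).2⟩, ⟨k1, k2⟩, al3_adj_same (al3_r.1 r) _, ?_⟩
    exact (al3_r.1 r).imp (fun h => ⟨le_rfl, h.2⟩) fun h => ⟨le_rfl, h.2⟩

end KG
end
end

-- merged part: Pool.Agent.Work.MP_c146e2_gt.KG.Al5
section
set_option autoImplicit false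

noncomputable section

open scoped Classical

namespace KG

variable {V V' : Type}

variable {G : Cx V} {W R : Set V} {z : V → Prop}

theorem al5_le {n : ℕ} {x : V} (h : Dle G W z R n x) : dep G W z R x ≤ n := Nat.sInf_le h

theorem al5_mem (h : DepOK G W z R) {n : ℕ} {x : V} (hx : Dle G W z R n x) : x ∈ W := by
  cases hx with
  | root hx => exact h.sub hx
  | same _ hy _ _ => exact hy
  | step _ hy _ => exact hy

theorem al5_dle (h : DepOK G W z R) {x : V} (hx : x ∈ W) : Dle G W z R (dep G W z R x) x := by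
  obtain ⟨y, hy, hr⟩ := h.rch x hx
  refine Nat.sInf_mem (s := {n | Dle G W z R n x}) ?_
  clear hx
  induction hr with
  | refl => exact ⟨0, Dle.root hy⟩
  | tail _ k ih => exact ih.elim fun n hn => ⟨n + 1, Dle.step hn k.2.1 k.2.2⟩

theorem dep_root {x : V} (hx : x ∈ R) : dep G W z R x = 0 := Nat.le_zero.1 (al5_le (.root hx))

theorem DepOK.adj (h : DepOK G W z R) {x y : V} (hx : x ∈ W) (hy : y ∈ W) (hr : G.r x y) :
    dep G W z R y ≤ dep G W z R x + 1 := al5_le (.step (al5_dle h hx) hy hr)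

theorem DepOK.same (h : DepOK G W z R) {x y : V} (hx : x ∈ W) (hy : y ∈ W) (hr : G.r x y)
    (hz : z x ↔ z y) : dep G W z R x = dep G W z R y :=
  le_antisymm (al5_le (.same (al5_dle h hy) hx (G.symm _ _ hr) hz.symm))
    (al5_le (.same (al5_dle h hx) hy hr hz))

theorem DepOK.par (h : DepOK G W z R) {x : V} (hx : x ∈ W) : z x ↔ Even (dep G W z R x) := by
  have k : ∀ n x, Dle G W z R n x → ∃ m ≤ n, Dle G W z R m x ∧ (z x ↔ Even m) := by
    intro n x hx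
    induction hx with
    | root hx => exact ⟨0, le_rfl, .root hx, iff_of_true (h.col _ hx) Even.zero⟩
    | same _ hy hr hz ih =>
      exact ih.imp fun m hm => ⟨hm.1, .same hm.2.1 hy hr hz, hz.symm.trans hm.2.2⟩
    | @step n x y _ hy hr ih =>
      obtain ⟨m, h1, h2, h3⟩ := ih
      by_cases hz : z x ↔ z y
      · exact ⟨m, by omega, .same h2 hy hr hz, hz.symm.trans h3⟩
      · exact ⟨m + 1, by omega, .step h2 hy hr, by rw [Nat.even_add_one]; tauto⟩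
  obtain ⟨m, h1, h2, h3⟩ := k _ x (al5_dle h hx)
  rwa [le_antisymm (al5_le h2) h1]

theorem al5_down (h : DepOK G W z R) {e : ℕ} {x : V} (hx : x ∈ W) (he : e ≤ dep G W z R x) :
    ∃ y ∈ W, dep G W z R y = e ∧ Rch G {w | w ∈ W ∧ e ≤ dep G W z R w} x y := by
  obtain ⟨y, hy, hr⟩ := h.rch x hx
  induction hr with
  | refl => exact ⟨y, hx, le_antisymm ((dep_root hy).trans_le e.zero_le) he, .refl⟩
  | @tail b c _ k ih =>
    by_cases hb : e ≤ dep G W z R b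
    · obtain ⟨w, h1, h2, h3⟩ := ih k.1 hb
      exact ⟨w, h1, h2, .head ⟨⟨hx, he⟩, ⟨k.1, hb⟩, G.symm _ _ k.2.2⟩ h3⟩
    · have := h.adj k.1 k.2.1 k.2.2
      exact ⟨c, hx, by omega, .refl⟩

theorem DepOK.lt [Fintype V] (h : DepOK G W z R) {x : V} (hx : x ∈ W) :
    dep G W z R x < Fintype.card V := by
  have k : Finset.range (dep G W z R x + 1) ⊆ Finset.univ.image (dep G W z R) := fun e he => by
    obtain ⟨y, -, h1, -⟩ := al5_down h hx (Nat.lt_succ_iff.1 (Finset.mem_range.1 he))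
    exact Finset.mem_image.2 ⟨y, Finset.mem_univ _, h1⟩
  simpa using (Finset.card_le_card k).trans Finset.card_image_le

theorem DepOK.path (h : DepOK G W z R) {x : V} (hx : x ∈ W) :
    ∃ y ∈ R, Rch G {w | w ∈ W ∧ dep G W z R w ≤ dep G W z R x} y x := by
  have k : ∀ n x, Dle G W z R n x → ∃ y ∈ R, Rch G {w | w ∈ W ∧ dep G W z R w ≤ n} y x := by
    intro n x hx
    induction hx with
    | root hx => exact ⟨_, hx, .refl⟩
    | same hx hy hr hz ih =>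
      exact ih.imp fun w hw => ⟨hw.1, hw.2.tail
        ⟨⟨al5_mem h hx, al5_le hx⟩, ⟨hy, al5_le (.same hx hy hr hz)⟩, hr⟩⟩
    | step hx hy hr ih =>
      exact ih.imp fun w hw => ⟨hw.1, (rch_mono (fun _ h => And.intro h.1 (h.2.trans (Nat.le_succ _)))
        hw.2).tail ⟨⟨al5_mem h hx, (al5_le hx).trans (Nat.le_succ _)⟩,
          ⟨hy, al5_le (.step hx hy hr)⟩, hr⟩⟩
  exact k _ x (al5_dle h hx)

theorem DepOK.lip (h : DepOK G W z R) (g : V → ℕ) (h0 : ∀ x ∈ R, g x = 0)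
    (h1 : ∀ x ∈ W, ∀ y ∈ W, G.r x y → g y ≤ g x + 1 ∧ ((z x ↔ z y) → g x = g y)) {x : V}
    (hx : x ∈ W) : g x ≤ dep G W z R x := by
  have k : ∀ n x, Dle G W z R n x → g x ≤ n := by
    intro n x hx
    induction hx with
    | root hx => exact (h0 _ hx).le
    | same hx hy hr hz ih => exact ((h1 _ (al5_mem h hx) _ hy hr).2 hz).ge.trans ih
    | step hx hy hr ih => exact (h1 _ (al5_mem h hx) _ hy hr).1.trans (Nat.succ_le_succ ih)
  exact k _ x (al5_dle h hx)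

theorem DepOK.ge (h : DepOK G W z R) {E : Set V} (hE : E ⊆ W) (hR : Disjoint R E) {d : ℕ}
    (hd : ∀ x ∈ E, ∀ y ∈ W \ E, G.r x y → d ≤ dep G W z R y) : ∀ x ∈ E, d ≤ dep G W z R x := by
  have k0 : ∀ n x y, Dle G W z R n x → G.r x y → y ∈ E → (x ∈ E → d ≤ n) → d ≤ n :=
    fun n x y hx hr hy ih => (em (x ∈ E)).elim ih fun hn =>
      (hd y hy x ⟨al5_mem h hx, hn⟩ (G.symm _ _ hr)).trans (al5_le hx)
  have k : ∀ n x, Dle G W z R n x → x ∈ E → d ≤ n := by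
    intro n x hx
    induction hx with
    | root hx => exact fun hy => (Set.disjoint_left.1 hR hx hy).elim
    | same hx _ hr _ ih => exact fun hy => k0 _ _ _ hx hr hy ih
    | step hx _ hr ih => exact fun hy => (k0 _ _ _ hx hr hy ih).trans (Nat.le_succ _)
  exact fun x hx => k _ x (al5_dle h (hE hx)) hx

theorem DepOK.mono (h : DepOK G W z R) {W' R' : Set V} {z' : V → Prop} (hW : W ⊆ W') (hR : R ⊆ R')
    (hz : ∀ x ∈ W, z x ↔ z' x) {x : V} (hx : x ∈ W) : dep G W' z' R' x ≤ dep G W z R x := by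
  have k : ∀ n x, Dle G W z R n x → Dle G W' z' R' n x := by
    intro n x hx
    induction hx with
    | root hx => exact .root (hR hx)
    | same hx hy hr k ih =>
      exact .same ih (hW hy) hr ((hz _ (al5_mem h hx)).symm.trans (k.trans (hz _ hy)))
    | step _ hy hr ih => exact .step ih (hW hy) hr
  exact al5_le (k _ x (al5_dle h hx))

theorem DepOK.down (h : DepOK G W z R) {e : ℕ} {x : V} (hx : x ∈ W) (he : e ≤ dep G W z R x) :
    ∃ y ∈ W, dep G W z R y = e ∧ Rch G {w | w ∈ W ∧ e ≤ dep G W z R w} x y := al5_down h hx he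

theorem DepOK.h1 [Fintype V] {r : V} (h : DepOK G W z {r}) (hW : Surf G W) (h1 : H1 G W) (e : ℕ) :
    H1 G {w | w ∈ W ∧ e ≤ dep G W z {r} w} := by
  refine h1_dual hW h1 (fun _ h => h.1) (conn_of_base r fun a ha => ?_)
  obtain ⟨y, rfl, hy⟩ := h.path ha.1
  exact rch_symm (rch_mono (fun w hw => And.intro hw.1 fun k => ha.2 ⟨ha.1, k.2.trans hw.2⟩) hy)

theorem DepOK.nbr {r : V} (h : DepOK G W z {r}) (h1 : H1 G W) {e : ℕ} {a a' n n' : V} (ha : a ∈ W)
    (hea : e < dep G W z {r} a) (hr : Rch G {w | w ∈ W ∧ e < dep G W z {r} w} a a') (hn : n ∈ W)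
    (hn' : n' ∈ W) (hen : dep G W z {r} n ≤ e) (hen' : dep G W z {r} n' ≤ e) (han : G.r a n)
    (han' : G.r a' n') : Rch G {w | w ∈ W ∧ dep G W z {r} w = e} n n' := by
  set S := {w | w ∈ W ∧ e < dep G W z {r} w} with hS
  have hQ : ∀ y, Rch G S a y → y ∈ S := fun y hy => rch_mem hy ⟨ha, hea⟩
  have h2 : ∀ b c, Rch G S a b → c ∈ W \ {y | Rch G S a y} → G.r b c → dep G W z {r} c ≤ e :=
    fun b c hb hc k => not_lt.1 fun hl => hc.2 (hb.tail ⟨hQ b hb, ⟨hc.1, hl⟩, k⟩)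
  have h3 : ∀ y ∈ W, dep G W z {r} y ≤ e → y ∈ W \ {y | Rch G S a y} := fun y hy k =>
    ⟨hy, fun hq => (hQ y hq).2.not_ge k⟩
  refine rch_mono (fun w hw => And.intro hw.1.1 (of_decide_eq_true hw.2))
    (nbr_comp h1 (Q := {y | Rch G S a y}) (fun y hy => (hQ y hy).1)
      (conn_of_base a fun y hy => rch_symm ?_) (conn_of_base r fun y hy => ?_)
      (fun y => decide (dep G W z {r} y = e)) true (fun q hq m hm k => decide_eq_true ?_)
      .refl hr (h3 n hn hen) (h3 n' hn' hen') han han')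
  · induction hy with
    | refl => exact .refl
    | tail hb k ih => exact ih.tail ⟨hb, hb.tail k, k.2.2⟩
  · obtain ⟨w, rfl, hw⟩ := h.rch y hy.1
    induction hw with
    | refl => exact .refl
    | @tail b c _ k ih =>
      by_cases hb : Rch G S a b
      · obtain ⟨_, rfl, hv⟩ := h.path hy.1
        exact rch_symm (rch_mono (fun v hv => h3 v hv.1 (hv.2.trans (h2 b c hb hy k.2.2))) hv)
      · exact .head ⟨hy, ⟨k.1, hb⟩, G.symm _ _ k.2.2⟩ (ih ⟨k.1, hb⟩)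
  · have h4 := h2 q m hq hm k
    have h5 := h.adj hm.1 (hQ q hq).1 (G.symm _ _ k)
    have h6 := (hQ q hq).2
    omega

end KG
end
end

-- merged part: Pool.Agent.Work.MP_c146e2_gt.KG.Al6
section
set_option autoImplicit false

noncomputable section

open scoped Classical

namespace KG

variable {V V' : Type}

variable [Fintype V] {G : Cx V} {Z : Set V} {ht : V → ℕ} {n : ℕ} {h : ℕ → V}

theorem al6_M (G : Cx V) : (3 : ℤ) ≤ MM G := by
  unfold MM
  omega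

theorem al6_five {M : ℤ} (hM : 0 < M) (a b : ℤ) :
    (b ≤ a - 2 ∧ 2 * M * b ≤ 2 * M * a - 4 * M) ∨ (b = a - 1 ∧ 2 * M * b = 2 * M * a - 2 * M) ∨
      (b = a ∧ 2 * M * b = 2 * M * a) ∨ (b = a + 1 ∧ 2 * M * b = 2 * M * a + 2 * M) ∨
      (a + 2 ≤ b ∧ 2 * M * a + 4 * M ≤ 2 * M * b) := by
  have : b ≤ a - 2 ∨ b = a - 1 ∨ b = a ∨ b = a + 1 ∨ a + 2 ≤ b := by omega
  rcases this with h | h | h | h | h
  · exact Or.inl ⟨h, by nlinarith⟩
  · exact Or.inr (Or.inl ⟨h, by rw [h]; ring⟩)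
  · exact Or.inr (Or.inr (Or.inl ⟨h, by rw [h]⟩))
  · exact Or.inr (Or.inr (Or.inr (Or.inl ⟨h, by rw [h]; ring⟩)))
  · exact Or.inr (Or.inr (Or.inr (Or.inr ⟨h, by nlinarith⟩)))

theorem al6_psn (G : Cx V) (ht : V → ℕ) (v : V) :
    psn G ht v = 1 + 2 * (MM G : ℤ) * (3 * (ht v : ℤ)) := by
  unfold psn
  ring

/-- The position of a vertex relative to a centre. -/
theorem al6_tri (G : Cx V) (ht : V → ℕ) (v : V) (a : ℤ) :
    (3 * (ht v : ℤ) ≤ a - 2 ∧ psn G ht v ≤ 1 + 2 * (MM G : ℤ) * a - 4 * MM G) ∨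
      (3 * (ht v : ℤ) = a - 1 ∧ psn G ht v = 1 + 2 * (MM G : ℤ) * a - 2 * MM G) ∨
      (3 * (ht v : ℤ) = a ∧ psn G ht v = 1 + 2 * (MM G : ℤ) * a) ∨
      (3 * (ht v : ℤ) = a + 1 ∧ psn G ht v = 1 + 2 * (MM G : ℤ) * a + 2 * MM G) ∨
      (a + 2 ≤ 3 * (ht v : ℤ) ∧ 1 + 2 * (MM G : ℤ) * a + 4 * MM G ≤ psn G ht v) := by
  have hM := al6_M G
  have := al6_five (M := MM G) (by omega) a (3 * (ht v : ℤ))
  rw [al6_psn]
  omega

/-- The positions of two vertices. -/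
theorem al6_two (G : Cx V) (ht : V → ℕ) (v w : V) :
    (ht w < ht v ∧ psn G ht w ≤ psn G ht v - 4 * MM G) ∨
      (ht w = ht v ∧ psn G ht w = psn G ht v) ∨
      (ht v < ht w ∧ psn G ht v + 4 * MM G ≤ psn G ht w) := by
  have := al6_tri G ht w (3 * (ht v : ℤ))
  rw [← al6_psn] at this
  omega

theorem psn_ok (hh : Hgt G Z ht n h) : PosOK (psn G ht) := by
  refine ⟨fun v w e => hh.inj ?_, fun v => ⟨(MM G : ℤ) * (3 * (ht v : ℤ)), ?_⟩⟩
  · have := al6_two G ht v w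
    have := al6_M G
    omega
  · rw [al6_psn]
    ring

theorem cen_iff (G : Cx V) (j c : ℤ) : cen G j = c ↔
    (∃ a : ℤ, c = 1 + 2 * (MM G : ℤ) * a) ∧ -(MM G : ℤ) ≤ j - c ∧ j - c < MM G := by
  have hM := al6_M G
  have h0 : (0 : ℤ) < 2 * MM G := by omega
  have h1 := Int.emod_nonneg (j - 1 + MM G) h0.ne'
  have h2 := Int.emod_lt_of_pos (j - 1 + MM G) h0
  have h3 := Int.emod_add_mul_ediv (j - 1 + MM G) (2 * MM G)
  unfold cen
  constructor
  · rintro rfl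
    exact ⟨⟨(j - 1 + MM G) / (2 * MM G), by omega⟩, by omega, by omega⟩
  · rintro ⟨⟨a, rfl⟩, h4, h5⟩
    have := al6_five (M := MM G) (by omega) a ((j - 1 + MM G) / (2 * MM G))
    omega

theorem al6_dp {j j' : ℤ} (hV : ∀ t : Fc G, Val (psn G ht) t j ↔ Val (psn G ht) t j')
    (hY : ∀ t : Fc G, Y1 G Z ht t j ↔ Y1 G Z ht t j') (s : Fc G) :
    dp G Z ht n h s j = dp G Z ht n h s j' := by
  unfold dp WL
  simp only [hV, hY]

omit [Fintype V] in
theorem al6_val {pos : V → ℤ} {j j' : ℤ} (h1 : ∀ v, pos v ≤ j ↔ pos v ≤ j')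
    (h2 : ∀ v, j ≤ pos v ↔ j' ≤ pos v) (t : Fc G) : Val pos t j ↔ Val pos t j' := by
  unfold Val
  simp only [h1, h2]

theorem al6_y1 {j j' : ℤ}
    (h1 : ∀ v, |j - psn G ht v| ≤ 2 * MM G → |j' - psn G ht v| ≤ 2 * MM G) {t : Fc G}
    (hy : Y1 G Z ht t j) : Y1 G Z ht t j' :=
  hy.imp id fun ⟨v, a, b, c⟩ => ⟨v, a, b, h1 v c⟩

omit [Fintype V] in
theorem al6_vmono {pos : V → ℤ} {j : ℤ} {s t : Fc G} (hst : s ≤ t) (hs : Val pos s j) :
    Val pos t j :=
  ⟨let ⟨a, h1, h2⟩ := hs.1; ⟨a, hst h1, h2⟩, let ⟨a, h1, h2⟩ := hs.2; ⟨a, hst h1, h2⟩⟩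

omit [Fintype V] in
theorem al6_lt (hh : Hgt G Z ht n h) {i i' : ℕ} (h1 : i < i') (h2 : i' ≤ n) :
    ht (h i) < ht (h i') := by
  induction i', h1 using Nat.le_induction with
  | base => exact (hh.step i h2).2
  | succ m hm ih => exact (ih (by omega)).trans (hh.step m h2).2

/-- Every layer which is not empty contains a root. -/
theorem al6_root (hh : Hgt G Z ht n h) {j : ℤ} {s : Fc G} (hs : Val (psn G ht) s j) :
    ∃ t : Fc G, Rt n h t ∧ Val (psn G ht) t j := by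
  obtain ⟨⟨a, -, ha⟩, b, -, hb⟩ := hs
  have hM := al6_M G
  have h0 : psn G ht (h 0) ≤ j := by
    have := al6_two G ht a (h 0)
    have := (hh.min a).1
    omega
  have hn : j ≤ psn G ht (h n) := by
    have := al6_two G ht b (h n)
    have := (hh.min b).2
    omega
  have key : ∀ m ≤ n, j ≤ psn G ht (h m) → ∃ t : Fc G, Rt n h t ∧ Val (psn G ht) t j := by
    intro m
    induction m with
    | zero =>
      exact fun hm e => ⟨⟨{h 0}, clq_single G _⟩, ⟨0, hm, Or.inl rfl⟩,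
        ⟨_, Finset.mem_singleton_self _, h0⟩, _, Finset.mem_singleton_self _, e⟩
    | succ m ih =>
      intro hm e
      by_cases hj : j ≤ psn G ht (h m)
      · exact ih (by omega) hj
      · exact ⟨⟨{h m, h (m + 1)}, clq_pair (hh.step m hm).1⟩, ⟨m, by omega, Or.inr ⟨hm, rfl⟩⟩,
          ⟨h m, by simp, by omega⟩, h (m + 1), by simp, e⟩
  exact key n le_rfl hn

theorem al6_wl {j : ℤ} (hj : NV (psn G ht) j) : ∃ θ, WL G (psn G ht) j = Xs G {v | ht v < θ} := by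
  have hM := al6_M G
  have hex : ∃ θ : ℕ, j < 1 + 2 * (MM G : ℤ) * (3 * (θ : ℤ)) := by
    refine ⟨j.natAbs, ?_⟩
    have h1 : j ≤ (j.natAbs : ℤ) := Int.le_natAbs
    have h2 : (0 : ℤ) ≤ j.natAbs := Int.natCast_nonneg _
    nlinarith
  have key : ∀ v, psn G ht v ≤ j ↔ ht v < Nat.find hex := fun v => by
    rw [Nat.lt_find_iff, al6_psn]
    refine ⟨fun e m hm => ?_, fun e => not_lt.1 (e _ le_rfl)⟩
    have := al6_five (M := MM G) (by omega) (3 * (m : ℤ)) (3 * (ht v : ℤ))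
    omega
  refine ⟨Nat.find hex, Set.ext fun s => ?_⟩
  refine and_congr (exists_congr fun v => and_congr_right fun _ => key v)
    (exists_congr fun v => and_congr_right fun _ => ?_)
  have h1 := key v
  have h2 := hj v
  change j ≤ psn G ht v ↔ ¬ ht v < Nat.find hex
  omega

theorem layer (hm : Man G Set.univ) (hh : Hgt G Z ht n h) {j : ℤ} (hj : NV (psn G ht) j) :
    Surf (sd G) (WL G (psn G ht) j) ∧ H1 (sd G) (WL G (psn G ht) j) ∧
      Conn (sd G) (WL G (psn G ht) j) ∧ ((WL G (psn G ht) j).Nonempty →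
        ∃ r, {t : Fc G | Rt n h t ∧ Val (psn G ht) t j} = {r}) := by
  obtain ⟨θ, hθ⟩ := al6_wl (G := G) hj
  have hl := hh.level hm θ
  rw [← hθ] at hl
  refine ⟨hl.1, hl.2.1, hl.2.2, fun ⟨s, hs⟩ => ?_⟩
  have hM := al6_M G
  have key : ∀ t : Fc G, Rt n h t → Val (psn G ht) t j → ∃ i < n, t.1 = {h i, h (i + 1)} ∧
      psn G ht (h i) < j ∧ j < psn G ht (h (i + 1)) := by
    rintro t ⟨i, hi, e | ⟨hi', e⟩⟩ ⟨⟨a, ha, h1⟩, b, hb, h2⟩
    · rw [e, Finset.mem_singleton] at ha hb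
      subst ha hb
      exact absurd (le_antisymm h1 h2) (hj _)
    · refine ⟨i, hi', e, ?_⟩
      rw [e, Finset.mem_insert, Finset.mem_singleton] at ha hb
      have h3 := (hh.step i hi').2
      have h4 := al6_two G ht (h i) (h (i + 1))
      have h5 := hj (h i)
      have h6 := hj (h (i + 1))
      rcases ha with rfl | rfl <;> rcases hb with rfl | rfl <;> omega
  obtain ⟨r, hr⟩ := al6_root hh hs
  refine ⟨r, Set.eq_singleton_iff_unique_mem.2 ⟨hr, fun t ht' => ?_⟩⟩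
  obtain ⟨i, hi, e, h1, h2⟩ := key t ht'.1 ht'.2
  obtain ⟨i', hi', e', h1', h2'⟩ := key r hr.1 hr.2
  have hii : i = i' := by
    by_contra hne
    rcases lt_or_gt_of_ne hne with hlt | hlt
    · have h3 := al6_two G ht (h (i + 1)) (h i')
      rcases Nat.lt_or_eq_of_le (Nat.succ_le_of_lt hlt) with h4 | h4
      · have := al6_lt hh h4 hi'.le
        simp only [Nat.succ_eq_add_one] at this
        omega
      · simp only [Nat.succ_eq_add_one] at h4
        rw [h4] at h2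
        omega
    · have h3 := al6_two G ht (h (i' + 1)) (h i)
      rcases Nat.lt_or_eq_of_le (Nat.succ_le_of_lt hlt) with h4 | h4
      · have := al6_lt hh h4 hi.le
        simp only [Nat.succ_eq_add_one] at this
        omega
      · simp only [Nat.succ_eq_add_one] at h4
        rw [h4] at h2'
        omega
  subst hii
  exact Subtype.ext (e.trans e'.symm)

theorem al6_nvu (G : Cx V) (ht : V → ℕ) (v : V) : NV (psn G ht) (psn G ht v + 1) := fun w => by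
  have := al6_two G ht v w
  have := al6_M G
  omega

theorem al6_nvd (G : Cx V) (ht : V → ℕ) (v : V) : NV (psn G ht) (psn G ht v - 1) := fun w => by
  have := al6_two G ht v w
  have := al6_M G
  omega

theorem al6_subu {v : V} {t : Fc G} (hs : Val (psn G ht) t (psn G ht v + 1)) :
    Val (psn G ht) t (psn G ht v) := by
  obtain ⟨⟨a, ha, h1⟩, b, hb, h2⟩ := hs
  have := al6_nvu G ht v a
  exact ⟨⟨a, ha, by omega⟩, b, hb, by omega⟩

theorem al6_subd {v : V} {t : Fc G} (hs : Val (psn G ht) t (psn G ht v - 1)) :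
    Val (psn G ht) t (psn G ht v) := by
  obtain ⟨⟨a, ha, h1⟩, b, hb, h2⟩ := hs
  have := al6_nvd G ht v b
  exact ⟨⟨a, ha, by omega⟩, b, hb, by omega⟩

theorem al6_out (hh : Hgt G Z ht n h) {v : V} {t : Fc G} (hs : Val (psn G ht) t (psn G ht v))
    (hv : v ∉ t.1) : Val (psn G ht) t (psn G ht v + 1) ∧ Val (psn G ht) t (psn G ht v - 1) := by
  obtain ⟨⟨a, ha, h1⟩, b, hb, h2⟩ := hs
  have h3 : psn G ht a ≠ psn G ht v := fun e => hv ((psn_ok hh).inj e ▸ ha)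
  have h4 : psn G ht b ≠ psn G ht v := fun e => hv ((psn_ok hh).inj e ▸ hb)
  exact ⟨⟨⟨a, ha, by omega⟩, b, hb, by omega⟩, ⟨a, ha, by omega⟩, b, hb, by omega⟩

omit [Fintype V] in
theorem al6_sgl {v : V} {t : Fc G} (hv : v ∈ t.1) : (⟨{v}, clq_single G v⟩ : Fc G) ≤ t :=
  Fc.le_iff.2 (Finset.singleton_subset_iff.2 hv)

omit [Fintype V] in
theorem al6_vself {pos : V → ℤ} {v : V} {t : Fc G} (hv : v ∈ t.1) : Val pos t (pos v) :=
  ⟨⟨v, hv, le_rfl⟩, v, hv, le_rfl⟩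

omit [Fintype V] in
/-- The simplices at `v` which meet a connected set of neighbours of `v`. -/
theorem al6_star {v : V} {L : Set V} (hL : ∀ w ∈ L, G.r v w) (hne : L.Nonempty) (hc : Conn G L)
    {S : Set (Fc G)} (hS : ∀ t, t ∈ S ↔ v ∈ t.1 ∧ ∃ w ∈ t.1, w ∈ L) :
    S.Nonempty ∧ Conn (sd G) S := by
  have he : ∀ w ∈ L, (treeEdge G v w).1 = {v, w} := fun w hw => by
    rw [treeEdge, dif_pos (hL w hw)]
  have hm : ∀ w ∈ L, treeEdge G v w ∈ S := fun w hw =>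
    (hS _).2 (by rw [he w hw]; exact ⟨by simp, w, by simp, hw⟩)
  have hle : ∀ t ∈ S, ∀ w ∈ t.1, w ∈ L → Rch (sd G) S (treeEdge G v w) t := fun t ht' w h1 h2 => by
    refine rch_step (hm w h2) ht' (Or.inl (Fc.le_iff.2 ?_))
    rw [he w h2, Finset.insert_subset_iff, Finset.singleton_subset_iff]
    exact ⟨((hS t).1 ht').1, h1⟩
  obtain ⟨w₀, hw₀⟩ := hne
  refine ⟨⟨_, hm w₀ hw₀⟩, conn_of_base (treeEdge G v w₀) fun t ht' => ?_⟩
  obtain ⟨-, w, h1, h2⟩ := (hS t).1 ht'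
  refine bas_trans (rch_symm (hle t ht' w h1 h2)) (rch_map (fun a ha b hb hab => ?_) (hc w h2 w₀ hw₀))
  have hT : (⟨{v, a, b}, tree_clq3 (hL a ha) hab (hL b hb)⟩ : Fc G) ∈ S :=
    (hS _).2 ⟨by simp, a, by simp, ha⟩
  exact bas_trans (hle _ hT a (by simp) ha) (rch_symm (hle _ hT b (by simp) hb))

theorem star_up (hh : Hgt G Z ht n h) {v : V} (hv : v ≠ h n) :
    {t : Fc G | v ∈ t.1 ∧ Val (psn G ht) t (psn G ht v + 1)}.Nonempty ∧
      Conn (sd G) {t : Fc G | v ∈ t.1 ∧ Val (psn G ht) t (psn G ht v + 1)} := by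
  have hM := al6_M G
  refine al6_star (v := v) (fun w hw => hw.1) (hh.upp v hv).1 (hh.upp v hv).2 fun t => ?_
  refine and_congr_right fun hvt => ⟨fun ⟨_, b, hb, h2⟩ => ⟨b, hb, t.2.2 v hvt b hb, ?_⟩,
    fun ⟨b, hb, h2⟩ => ⟨⟨v, hvt, by omega⟩, b, hb, ?_⟩⟩
  · have := al6_two G ht v b
    omega
  · have := al6_two G ht v b
    have := h2.2
    omega

theorem al6_star_dn (hh : Hgt G Z ht n h) {v : V} (hv : v ≠ h 0) :
    {t : Fc G | v ∈ t.1 ∧ Val (psn G ht) t (psn G ht v - 1)}.Nonempty ∧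
      Conn (sd G) {t : Fc G | v ∈ t.1 ∧ Val (psn G ht) t (psn G ht v - 1)} := by
  have hM := al6_M G
  refine al6_star (v := v) (fun w hw => hw.1) (hh.low v hv).1 (hh.low v hv).2 fun t => ?_
  refine and_congr_right fun hvt => ⟨fun ⟨⟨b, hb, h2⟩, _⟩ => ⟨b, hb, t.2.2 v hvt b hb, ?_⟩,
    fun ⟨b, hb, h2⟩ => ⟨⟨b, hb, ?_⟩, v, hvt, by omega⟩⟩
  · have := al6_two G ht v b
    omega
  · have := al6_two G ht v b
    have := h2.2
    omega

theorem al6_neu (hh : Hgt G Z ht n h) {v : V} {t : Fc G}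
    (hs : Val (psn G ht) t (psn G ht v + 1)) : v ≠ h n := by
  rintro rfl
  obtain ⟨-, b, -, h2⟩ := hs
  have := al6_two G ht (h n) b
  have := (hh.min b).2
  have := al6_M G
  omega

theorem al6_ned (hh : Hgt G Z ht n h) {v : V} {t : Fc G}
    (hs : Val (psn G ht) t (psn G ht v - 1)) : v ≠ h 0 := by
  rintro rfl
  obtain ⟨⟨b, -, h2⟩, -⟩ := hs
  have := al6_two G ht (h 0) b
  have := (hh.min b).1
  have := al6_M G
  omega

theorem al6_conn (hm : Man G Set.univ) (hh : Hgt G Z ht n h) (j : ℤ) :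
    Conn (sd G) (WL G (psn G ht) j) := by
  by_cases hj : NV (psn G ht) j
  · exact (layer hm hh hj).2.2.1
  obtain ⟨v, hv⟩ := not_forall.1 hj
  obtain rfl := not_not.1 hv
  have hc : (⟨{v}, clq_single G v⟩ : Fc G) ∈ WL G (psn G ht) (psn G ht v) :=
    al6_vself (Finset.mem_singleton_self v)
  refine conn_of_base ⟨{v}, clq_single G v⟩ fun s hs => ?_
  by_cases hvs : v ∈ s.1
  · exact rch_step hs hc (Or.inr (al6_sgl hvs))
  have h1 := (al6_out hh hs hvs).1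
  obtain ⟨t, hvt, h2⟩ := (star_up hh (al6_neu hh h1)).1
  exact bas_trans (rch_mono (fun _ => al6_subu) ((layer hm hh (al6_nvu G ht v)).2.2.1 s h1 t h2))
    (rch_step (al6_vself hvt) hc (Or.inr (al6_sgl hvt)))

theorem depok (hm : Man G Set.univ) (hh : Hgt G Z ht n h) (j : ℤ) :
    DepOK (sd G) (WL G (psn G ht) j) (fun t => Y1 G Z ht t j)
      {t | Rt n h t ∧ Val (psn G ht) t j} := by
  refine ⟨fun t ht' => ht'.2, ?_, fun x hx => ?_⟩
  · rintro t ⟨⟨i, hi, e | ⟨hi', e⟩⟩, -⟩ <;> refine Or.inl fun a ha => ?_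
    · rw [e, Finset.mem_singleton] at ha
      exact ha ▸ hh.mem i hi
    · rw [e, Finset.mem_insert, Finset.mem_singleton] at ha
      rcases ha with rfl | rfl
      exacts [hh.mem i hi, hh.mem (i + 1) hi']
  · obtain ⟨r, hr⟩ := al6_root hh hx
    exact ⟨r, hr, al6_conn hm hh j r hr.2 x hx⟩

/-- Nothing changes between two consecutive centres. -/
theorem zone {a j j' : ℤ} (h1 : 1 + 2 * (MM G : ℤ) * a < j) (h2 : j < 1 + 2 * (MM G : ℤ) * (a + 1))
    (h3 : 1 + 2 * (MM G : ℤ) * a < j') (h4 : j' < 1 + 2 * (MM G : ℤ) * (a + 1)) (s : Fc G) :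
    NV (psn G ht) j ∧ (Val (psn G ht) s j ↔ Val (psn G ht) s j') ∧
      (Y1 G Z ht s j ↔ Y1 G Z ht s j') ∧ dp G Z ht n h s j = dp G Z ht n h s j' := by
  have hM := al6_M G
  have e : 2 * (MM G : ℤ) * (a + 1) = 2 * (MM G : ℤ) * a + 2 * MM G := by ring
  rw [e] at h2 h4
  have hV : ∀ t : Fc G, Val (psn G ht) t j ↔ Val (psn G ht) t j' :=
    al6_val (fun v => by have := al6_tri G ht v a; omega)
      fun v => by have := al6_tri G ht v a; omega
  have hY : ∀ t : Fc G, Y1 G Z ht t j ↔ Y1 G Z ht t j' := fun t =>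
    ⟨al6_y1 fun v => by have := al6_tri G ht v a; rw [abs_le, abs_le]; omega,
      al6_y1 fun v => by have := al6_tri G ht v a; rw [abs_le, abs_le]; omega⟩
  exact ⟨fun v => by have := al6_tri G ht v a; omega, hV s, hY s, al6_dp hV hY s⟩

/-- At a centre without vertex the set `Y1` grows in the direction `d`. -/
theorem mslab {a c : ℤ} (hc : c = 1 + 2 * (MM G : ℤ) * a) (hv : NV (psn G ht) c) :
    ∃ d : ℤ, (d = 1 ∨ d = -1) ∧ ∀ s : Fc G,
      (Val (psn G ht) s c ↔ Val (psn G ht) s (c + d)) ∧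
      (Val (psn G ht) s c ↔ Val (psn G ht) s (c - d)) ∧ (Y1 G Z ht s (c - d) → Y1 G Z ht s (c + d)) ∧
      dp G Z ht n h s c = dp G Z ht n h s (c + d) := by
  have hM := al6_M G
  obtain ⟨d, hd, hd'⟩ : ∃ d : ℤ, (d = 1 ∧ a % 3 ≠ 1 ∨ d = -1 ∧ a % 3 = 1) ∧ (d = 1 ∨ d = -1) := by
    by_cases h3 : a % 3 = 1
    exacts [⟨-1, Or.inr ⟨rfl, h3⟩, Or.inr rfl⟩, ⟨1, Or.inl ⟨rfl, h3⟩, Or.inl rfl⟩]
  have hV : ∀ t : Fc G, Val (psn G ht) t c ↔ Val (psn G ht) t (c + d) :=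
    al6_val (fun v => by have := al6_tri G ht v a; have := hv v; omega)
      fun v => by have := al6_tri G ht v a; have := hv v; omega
  have hV' : ∀ t : Fc G, Val (psn G ht) t c ↔ Val (psn G ht) t (c - d) :=
    al6_val (fun v => by have := al6_tri G ht v a; have := hv v; omega)
      fun v => by have := al6_tri G ht v a; have := hv v; omega
  have hY : ∀ t : Fc G, Y1 G Z ht t c ↔ Y1 G Z ht t (c + d) := fun t =>
    ⟨al6_y1 fun v => by have := al6_tri G ht v a; rw [abs_le, abs_le]; omega,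
      al6_y1 fun v => by have := al6_tri G ht v a; rw [abs_le, abs_le]; omega⟩
  exact ⟨d, hd', fun s => ⟨hV s, hV' s,
    al6_y1 fun v => by have := al6_tri G ht v a; rw [abs_le, abs_le]; omega, al6_dp hV hY s⟩⟩

theorem al6_col (hh : Hgt G Z ht n h) {v : V} {t : Fc G} (hv : v ∈ t.1) :
    Y1 G Z ht t (psn G ht v) ↔ v ∈ Z := by
  have hM := al6_M G
  refine ⟨?_, fun hz => Or.inr ⟨v, hv, hz, by rw [abs_le]; omega⟩⟩
  rintro (h1 | ⟨w, -, h1, h2⟩)
  · exact h1 v hv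
  · have := al6_two G ht v w
    rw [abs_le] at h2
    exact hh.inj (show ht w = ht v by omega) ▸ h1

/-- The depth in a layer next to a vertex. -/
theorem al6_side (hm : Man G Set.univ) (hh : Hgt G Z ht n h) {v : V} {q : ℤ}
    (h1 : ∀ t : Fc G, Val (psn G ht) t q → Val (psn G ht) t (psn G ht v))
    (h2 : ∀ t : Fc G, Val (psn G ht) t (psn G ht v) → v ∉ t.1 → Val (psn G ht) t q)
    (h3 : ∀ t : Fc G, Y1 G Z ht t q ↔ Y1 G Z ht t (psn G ht v))
    (h4 : {t : Fc G | v ∈ t.1 ∧ Val (psn G ht) t q}.Nonempty ∧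
      Conn (sd G) {t : Fc G | v ∈ t.1 ∧ Val (psn G ht) t q})
    (h5 : ∀ i ≤ n, v = h i → ∃ t : Fc G, v ∈ t.1 ∧ Val (psn G ht) t q ∧ Rt n h t)
    {s : Fc G} (hs : Val (psn G ht) s q) :
    dp G Z ht n h s q = dp G Z ht n h s (psn G ht v) := by
  have dq := depok hm hh q
  have dv := depok hm hh (psn G ht v)
  refine le_antisymm ?_ (dq.mono (W' := WL G (psn G ht) (psn G ht v))
    (R' := {t | Rt n h t ∧ Val (psn G ht) t (psn G ht v)}) h1 (fun t ht' => ⟨ht'.1, h1 t ht'.2⟩)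
    (fun t _ => h3 t) hs)
  obtain ⟨⟨t₀, ht₀⟩, hc⟩ := h4
  have hD : ∀ t : Fc G, v ∈ t.1 → Val (psn G ht) t q →
      dp G Z ht n h t q = dp G Z ht n h t₀ q := fun t a b =>
    rch_const (f := fun t => dp G Z ht n h t q) (fun x hx y hy hxy => dq.same hx.2 hy.2 hxy
      (by rw [h3, h3, al6_col hh hx.1, al6_col hh hy.1])) (hc t ⟨a, b⟩ t₀ ht₀)
  have hin : ∀ t : Fc G, Val (psn G ht) t (psn G ht v) → ¬ Val (psn G ht) t q → v ∈ t.1 :=
    fun t a b => by_contra fun c => b (h2 t a c)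
  have hmix : ∀ x y : Fc G, Val (psn G ht) y (psn G ht v) → (sd G).r x y →
      Val (psn G ht) x q → ¬ Val (psn G ht) y q → dp G Z ht n h x q = dp G Z ht n h t₀ q := by
    rintro x y hy (hxy | hxy) a b
    · exact absurd (al6_vmono hxy a) b
    · exact hD x (Fc.le_iff.1 hxy (hin y hy b)) a
  have key := dv.lip (fun t => if Val (psn G ht) t q then dp G Z ht n h t q else dp G Z ht n h t₀ q)
    (fun x hx => ?_) (fun x hx y hy hxy => ?_) (h1 s hs)
  · rwa [if_pos hs] at key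
  · split_ifs with hq
    · exact dep_root ⟨hx.1, hq⟩
    · have hvx := hin x hx.2 hq
      obtain ⟨i, hi, e⟩ : ∃ i ≤ n, v = h i := by
        obtain ⟨i, hi, e | ⟨hi', e⟩⟩ := hx.1
        · exact ⟨i, hi, Finset.mem_singleton.1 (e ▸ hvx)⟩
        · rw [e, Finset.mem_insert, Finset.mem_singleton] at hvx
          exact hvx.elim (fun e => ⟨i, hi, e⟩) fun e => ⟨i + 1, hi', e⟩
      obtain ⟨t, a, b, c⟩ := h5 i hi e
      rw [← hD t a b]
      exact dep_root ⟨c, b⟩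
  · split_ifs with hy' hx' hx'
    · exact ⟨dq.adj hx' hy' hxy, fun e => dq.same hx' hy' hxy (by rw [h3, h3]; exact e)⟩
    · have := hmix y x hx ((sd G).symm _ _ hxy) hy' hx'
      exact ⟨by omega, fun _ => this.symm⟩
    · have := hmix x y hy hxy hx' hy'
      exact ⟨by omega, fun _ => this⟩
    · exact ⟨by omega, fun _ => rfl⟩

theorem vslab (hm : Man G Set.univ) (hh : Hgt G Z ht n h) (v : V) :
    (∀ s j, |j - psn G ht v| < 2 * MM G → Val (psn G ht) s j →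
      Val (psn G ht) s (psn G ht v) ∧ dp G Z ht n h s j = dp G Z ht n h s (psn G ht v)) ∧
    ∀ s s' : Fc G, v ∈ s.1 → v ∈ s'.1 →
      dp G Z ht n h s (psn G ht v) = dp G Z ht n h s' (psn G ht v) := by
  have hM := al6_M G
  have hp := al6_psn G ht v
  refine ⟨fun s j hj hs => ?_, fun s s' a b => ?_⟩
  · rw [abs_lt] at hj
    rcases lt_trichotomy j (psn G ht v) with hl | rfl | hl
    · have e : 2 * (MM G : ℤ) * (3 * (ht v : ℤ) - 1) =
          2 * (MM G : ℤ) * (3 * (ht v : ℤ)) - 2 * MM G := by ring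
      have e' : 3 * (ht v : ℤ) - 1 + 1 = 3 * (ht v : ℤ) := by ring
      obtain ⟨-, z1, -, z2⟩ := zone (G := G) (Z := Z) (ht := ht) (n := n) (h := h)
        (a := 3 * (ht v : ℤ) - 1) (j := j) (j' := psn G ht v - 1) (by omega) (by rw [e']; omega)
        (by omega) (by rw [e']; omega) s
      have hs' := z1.1 hs
      have hne := al6_ned hh hs'
      refine ⟨al6_subd hs', z2.trans (al6_side hm hh (fun _ => al6_subd)
        (fun _ a b => (al6_out hh a b).2) (fun t => ⟨al6_y1 fun w => ?_, al6_y1 fun w => ?_⟩)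
        (al6_star_dn hh hne) (fun i hi e => ?_) hs')⟩
      · have := al6_two G ht v w
        rw [abs_le, abs_le]
        omega
      · have := al6_two G ht v w
        rw [abs_le, abs_le]
        omega
      · obtain ⟨m, rfl⟩ : ∃ m, i = m + 1 := ⟨i - 1, by
          have : i ≠ 0 := fun e0 => hne (e0 ▸ e)
          omega⟩
        have h6 := (hh.step m hi).2
        have h7 := al6_two G ht (h m) (h (m + 1))
        refine ⟨⟨{h m, h (m + 1)}, clq_pair (hh.step m hi).1⟩, by simp [e],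
          ⟨⟨h m, by simp, ?_⟩, h (m + 1), by simp, ?_⟩, m, by omega, Or.inr ⟨hi, rfl⟩⟩ <;>
        rw [e] <;> omega
    · exact ⟨hs, rfl⟩
    · have e : 2 * (MM G : ℤ) * (3 * (ht v : ℤ) + 1) =
          2 * (MM G : ℤ) * (3 * (ht v : ℤ)) + 2 * MM G := by ring
      obtain ⟨-, z1, -, z2⟩ := zone (G := G) (Z := Z) (ht := ht) (n := n) (h := h)
        (a := 3 * (ht v : ℤ)) (j := j) (j' := psn G ht v + 1) (by omega) (by omega)
        (by omega) (by omega) s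
      have hs' := z1.1 hs
      have hne := al6_neu hh hs'
      refine ⟨al6_subu hs', z2.trans (al6_side hm hh (fun _ => al6_subu)
        (fun _ a b => (al6_out hh a b).1) (fun t => ⟨al6_y1 fun w => ?_, al6_y1 fun w => ?_⟩)
        (star_up hh hne) (fun i hi e => ?_) hs')⟩
      · have := al6_two G ht v w
        rw [abs_le, abs_le]
        omega
      · have := al6_two G ht v w
        rw [abs_le, abs_le]
        omega
      · have hi' : i < n := lt_of_le_of_ne hi fun e0 => hne (e0 ▸ e)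
        have h6 := (hh.step i hi').2
        have h7 := al6_two G ht (h i) (h (i + 1))
        refine ⟨⟨{h i, h (i + 1)}, clq_pair (hh.step i hi').1⟩, by simp [e],
          ⟨⟨h i, by simp, ?_⟩, h (i + 1), by simp, ?_⟩, i, hi, Or.inr ⟨hi', rfl⟩⟩ <;>
        rw [e] <;> omega
  · have dv := depok hm hh (psn G ht v)
    have hc : v ∈ (⟨{v}, clq_single G v⟩ : Fc G).1 := Finset.mem_singleton_self v
    have key : ∀ t : Fc G, v ∈ t.1 → dp G Z ht n h ⟨{v}, clq_single G v⟩ (psn G ht v) =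
        dp G Z ht n h t (psn G ht v) := fun t c =>
      dv.same (al6_vself hc) (al6_vself c) (Or.inl (al6_sgl c))
        (by rw [al6_col hh hc, al6_col hh c])
    exact (key s a).symm.trans (key s' b)

end KG
end
end

-- merged part: Pool.Agent.Work.MP_c146e2_gt.KG.Al7
section
set_option autoImplicit false

noncomputable section

open scoped Classical

namespace KG

variable {V V' : Type}

variable [Fintype V] {G : Cx V} {Z : Set V} {ht : V → ℕ} {n : ℕ} {h : ℕ → V}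

omit [Fintype V] in
theorem al7_lay {pos : V → ℤ} {A B : Fc G → ℤ → Prop} (h : ∀ s j, Val pos s j → (A s j ↔ B s j)) :
    lay pos A = lay pos B := Set.ext fun x => h _ _ x.2

theorem al7_gap (G : Cx V) (ht : V → ℕ) (v w : V) :
    psn G ht v ≤ psn G ht w ∨ psn G ht w + 6 * MM G ≤ psn G ht v := by
  unfold psn
  rcases le_or_gt (ht v : ℤ) (ht w) with h | h
  · left; gcongr
  · right; nlinarith [mul_le_mul_of_nonneg_left (Int.add_one_le_of_lt h) (MM G).cast_nonneg]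

theorem al7_M (G : Cx V) : MM G = 2 * Fintype.card (Fc G) + 3 := rfl

theorem stage1 (hh : Hgt G Z ht n h) : Reach (ord (SP G (psn G ht)))
    (lay (psn G ht) fun s _ => Ins s.1 Z) (lay (psn G ht) (Y1 G Z ht)) := by
  have hp := psn_ok hh
  have hM := al7_M G
  have g := al7_gap G ht
  have h1 := eat (G := G) hp (Y := fun s j => Ins s.1 Z ∨ ∃ v ∈ s.1, v ∈ Z ∧ j = psn G ht v)
    (B := fun s j => ∃ v ∈ s.1, v ∈ Z ∧ psn G ht v < j ∧ j ≤ psn G ht v + 2 * MM G)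
    (Or.inr rfl) (fun s j _ ⟨v, _, _, a⟩ w e => by have := g w v; omega)
    (fun s j s' _ ⟨v, _, _, a⟩ _ _ b => by
      rcases b with (b | ⟨w, _, _, b⟩) | ⟨w, b1, b2, b⟩
      · exact .inl (.inl b)
      · have := g w v; omega
      · by_cases e : j + -1 = psn G ht w
        exacts [.inl (.inr ⟨w, b1, b2, e⟩), .inr ⟨w, b1, b2, by omega⟩])
    fun s j s' _ ⟨v, _, _, a⟩ _ _ b => b.imp_right fun ⟨w, _, _, b⟩ => by have := g w v; omega
  have h2 := eat (G := G) hp (Y := fun s j => (Ins s.1 Z ∨ ∃ v ∈ s.1, v ∈ Z ∧ j = psn G ht v) ∨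
      ∃ v ∈ s.1, v ∈ Z ∧ psn G ht v < j ∧ j ≤ psn G ht v + 2 * MM G)
    (B := fun s j => ∃ v ∈ s.1, v ∈ Z ∧ j < psn G ht v ∧ psn G ht v ≤ j + 2 * MM G)
    (Or.inl rfl) (fun s j _ ⟨v, _, _, a⟩ w e => by have := g v w; omega)
    (fun s j s' _ ⟨v, _, _, a⟩ _ _ b => by
      rcases b with ((b | ⟨w, _, _, b⟩) | ⟨w, _, _, b⟩) | ⟨w, b1, b2, b⟩
      · exact .inl (.inl (.inl b))
      · have := g v w; omega
      · have := g v w; omega
      · by_cases e : j + 1 = psn G ht w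
        exacts [.inl (.inl (.inr ⟨w, b1, b2, e⟩)), .inr ⟨w, b1, b2, by omega⟩])
    fun s j s' _ ⟨v, _, _, a⟩ _ _ b => by
      rcases b with (b | ⟨w, _, _, b⟩) | ⟨w, _, _, b⟩
      · exact .inl (.inl b)
      all_goals have := g v w; omega
  refine .tail (.tail (.single (.inl (cone hp Z))) (.inl h1))
    (.inl ((congrArg _ (al7_lay fun s j _ => ?_)).mp h2))
  simp only [Y1, or_assoc, ← exists_or, ← and_or_left, abs_le]
  refine or_congr_right (exists_congr fun v => and_congr_right' (and_congr_right' ?_))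
  omega

theorem al7_kp {a j : ℤ} (h1 : 1 + 2 * (MM G : ℤ) * a < j) (h2 : j < 1 + 2 * (MM G : ℤ) * (a + 1)) :
    kp G j = (j - (1 + 2 * (MM G : ℤ) * a + MM G)).natAbs := by
  rw [mul_add] at h2
  by_cases h : j - (1 + 2 * (MM G : ℤ) * a) < MM G
  · rw [kp, (cen_iff G j _).2 ⟨⟨a, rfl⟩, by omega, h⟩]; omega
  · rw [kp, (cen_iff G j _).2 ⟨⟨a + 1, rfl⟩, by rw [mul_add]; omega, by rw [mul_add]; omega⟩,
      mul_add]
    omega

theorem al7_loc (Z : Set V) (ht : V → ℕ) (n : ℕ) (h : ℕ → V) {e : ℕ}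
    (he : e < Fintype.card (Fc G)) {j : ℤ} (hj : kp G j ≤ e) :
    ∃ m : ℤ, Even m ∧ NV (psn G ht) j ∧ ∀ j', j - 2 ≤ j' → j' ≤ j + 2 →
      kp G j' = (j' - m).natAbs ∧ ∀ s : Fc G, (Val (psn G ht) s j ↔ Val (psn G ht) s j') ∧
        dp G Z ht n h s j = dp G Z ht n h s j' := by
  have hM := al7_M G
  obtain ⟨a, h1, h2⟩ : ∃ a, 1 + 2 * (MM G : ℤ) * a < j ∧ j < 1 + 2 * (MM G : ℤ) * (a + 1) := by
    obtain ⟨⟨a, ha⟩, h1, h2⟩ := (cen_iff G j _).1 rfl
    rw [kp] at hj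
    by_cases h : cen G j < j
    · exact ⟨a, by omega, by rw [mul_add]; omega⟩
    · exact ⟨a - 1, by rw [mul_sub]; omega, by rw [sub_add_cancel]; omega⟩
  have h3 := al7_kp h1 h2
  refine ⟨1 + 2 * (MM G : ℤ) * a + MM G, ⟨MM G * a + Fintype.card (Fc G) + 2, by
    rw [mul_assoc]; omega⟩, fun v => ?_, fun j' b b' => ?_⟩
  · exact (zone (Z := Z) (n := n) (h := h) h1 h2 h1 h2 ⟨{v}, clq_single G v⟩).1 v
  · have h4 : 1 + 2 * (MM G : ℤ) * a < j' := by omega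
    have h5 : j' < 1 + 2 * (MM G : ℤ) * (a + 1) := by rw [mul_add] at h2 ⊢; omega
    exact ⟨al7_kp h4 h5, fun s => ⟨(zone (Z := Z) (n := n) (h := h) h1 h2 h4 h5 s).2.1,
      (zone h1 h2 h4 h5 s).2.2.2⟩⟩

variable (G Z ht n h) in
/-- The colour class that grows. -/
def al7Y (e k : ℕ) (s : Fc G) (j : ℤ) : Prop := Y2 G Z ht n h k s j ↔ Even e

variable (G Z ht n h) in
/-- The discs on the middle levels. -/
def al7S (e : ℕ) (s : Fc G) (j : ℤ) : Prop :=
  kp G j = 0 ∧ Val (psn G ht) s j ∧ e ≤ dp G Z ht n h s j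

variable (G Z ht n h) in
/-- The layers on one side of the discs. -/
def al7B (e : ℕ) (d : ℤ) (s : Fc G) (j : ℤ) : Prop :=
  e < dp G Z ht n h s j ∧ kp G j ≤ e ∧ kp G (j + d) < kp G j

theorem al7_eat (hh : Hgt G Z ht n h) {e : ℕ} (he : e < Fintype.card (Fc G)) {d : ℤ}
    (hd : d = 1 ∨ d = -1) (Q : Prop) : Absorb (ord (SP G (psn G ht)))
      (lay (psn G ht) fun s j => (al7Y G Z ht n h e (e + 1) s j ∨ al7S G Z ht n h e s j) ∨
        Q ∧ al7B G Z ht n h e (-d) s j)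
      (lay (psn G ht) fun s j => ((al7Y G Z ht n h e (e + 1) s j ∨ al7S G Z ht n h e s j) ∨
        Q ∧ al7B G Z ht n h e (-d) s j) ∨ al7B G Z ht n h e d s j) := by
  refine eat (psn_ok hh) hd (fun s j _ b => (al7_loc Z ht n h he b.2.1).choose_spec.2.1)
    (fun s j s' _ ⟨_, b2, b3⟩ v _ => ?_) fun s j s' _ ⟨_, b2, b3⟩ v _ => ?_
  all_goals
    obtain ⟨m, -, -, hm⟩ := al7_loc Z ht n h he b2
    have k0 := (hm j (by omega) (by omega)).1
    obtain ⟨k1, d1⟩ := hm (j + d) (by omega) (by omega)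
    have k2 := (hm (j + d + d) (by omega) (by omega)).1
    obtain ⟨k3, d3⟩ := hm (j - d) (by omega) (by omega)
    have k4 := (hm (j - d - d) (by omega) (by omega)).1
    obtain ⟨a1, a2, a3⟩ : kp G (j - d) = kp G j + 1 ∧ kp G (j - d - d) = kp G j + 2 ∧
      (kp G (j + d) = 0 ∨ kp G (j + d + d) < kp G (j + d)) := by omega
    clear k0 k1 k2 k3 k4
    simp only [al7Y, Y2, al7S, al7B, v, ← (d1 s').2, ← (d3 s').2, true_and, ← sub_eq_add_neg,
      max_eq_right (by omega : kp G j ≤ e + 1), max_eq_right (by omega : kp G (j + d) ≤ e + 1),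
      max_eq_right (by omega : kp G (j - d) ≤ e + 1)]
    by_cases hy : (Even (min (dp G Z ht n h s' j) (e + 1)) ↔ Even e) <;>
      by_cases hv : Val (psn G ht) s' j <;> by_cases hQ : Q <;>
      simp only [hy, hv, hQ, true_and, false_and, and_false, or_false, true_or, false_or,
        implies_true] <;> omega

theorem al7_discs (hm : Man G Set.univ) (hh : Hgt G Z ht n h) {e : ℕ}
    (he : e < Fintype.card (Fc G)) : Absorb (ord (SP G (psn G ht)))
      (lay (psn G ht) (al7Y G Z ht n h e (e + 1)))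
      (lay (psn G ht) fun s j => al7Y G Z ht n h e (e + 1) s j ∨ al7S G Z ht n h e s j) := by
  have hev : ∀ j, kp G j = 0 → Even j ∧ NV (psn G ht) j := fun j hj => by
    obtain ⟨m, h1, h2, h3⟩ := al7_loc Z ht n h he (hj.trans_le e.zero_le)
    have := (h3 j (by omega) (by omega)).1
    exact ⟨(show m = j by omega) ▸ h1, h2⟩
  have hy : ∀ {s j}, al7S G Z ht n h e s j →
      (al7Y G Z ht n h e (e + 1) s j ↔ dp G Z ht n h s j = e) := fun ⟨a, _, b⟩ => by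
    simp only [al7Y, Y2, a, Nat.even_iff]
    omega
  have hr : ∀ {s j}, al7S G Z ht n h e s j → ∃ r, DepOK (sd G) (WL G (psn G ht) j)
      (fun t => Y1 G Z ht t j) {r} ∧ ∀ t, dp G Z ht n h t j =
        dep (sd G) (WL G (psn G ht) j) (fun t => Y1 G Z ht t j) {r} t := fun {s j} hs => by
    obtain ⟨r, hr⟩ := (layer hm hh (hev j hs.1).2).2.2.2 ⟨s, hs.2.1⟩
    exact ⟨r, hr ▸ depok hm hh j, fun t => by rw [dp, hr]⟩
  refine discs (fun s j hs => ⟨(hev j hs.1).1, hs.2.1⟩) (fun j => ?_) (fun j => ?_)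
    (fun s j hs => ?_) (fun j y y' a a' y1 y2 y3 y4 a1 a2 a3 a4 r1 r2 r3 => ?_)
    fun s j s' j' s1 s2 v y ad => ?_
  · by_cases hj : kp G j = 0
    · exact (layer hm hh (hev j hj).2).1.thin fun s hs => hs.2.1
    · exact (layer hm hh (j := 0) fun v e => Int.not_odd_zero (e ▸ (psn_ok hh).odd v)).1.thin
        fun s hs => absurd hs.1 hj
  · rcases Set.eq_empty_or_nonempty {s | al7S G Z ht n h e s j} with h0 | ⟨s, hs⟩
    · rw [h0]
      exact fun _ _ => ⟨0, fun _ ha => ha.elim⟩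
    · obtain ⟨r, h1, h2⟩ := hr hs
      have h3 := layer hm hh (hev j hs.1).2
      convert h1.h1 h3.1 h3.2.1 e using 2 with t
      simp only [al7S, hs.1, true_and, h2]
      rfl
  · obtain ⟨y, y1, y2, y3⟩ := (depok hm hh j).down hs.2.1 hs.2.2
    have : al7S G Z ht n h e y j := ⟨hs.1, y1, y2.ge⟩
    exact ⟨y, this, (hy this).2 y2, rch_mono (fun t ht => And.intro hs.1 ht) y3⟩
  · obtain ⟨r, h1, h2⟩ := hr y1
    have lt : ∀ {t}, al7S G Z ht n h e t j → ¬ al7Y G Z ht n h e (e + 1) t j →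
        e < dep (sd G) (WL G (psn G ht) j) (fun t => Y1 G Z ht t j) {r} t := fun b c =>
      h2 _ ▸ lt_of_le_of_ne b.2.2 fun e => c ((hy b).2 e.symm)
    refine rch_mono (fun t b => ?_) (h1.nbr (layer hm hh (hev j y1.1).2).2.1 a1.2.1 (lt a1 a2)
      (rch_mono (fun t b => And.intro b.1.2.1 (lt b.1 b.2)) r3) y1.2.1 y3.2.1
      (h2 _ ▸ ((hy y1).1 y2).le) (h2 _ ▸ ((hy y3).1 y4).le) r1 r2)
    obtain ⟨t1, t2⟩ := b
    rw [← h2] at t2
    exact ⟨⟨y1.1, t1, t2.ge⟩, (hy ⟨y1.1, t1, t2.ge⟩).2 t2⟩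
  · obtain ⟨m, -, -, h3⟩ := al7_loc Z ht n h he (s1.1.trans_le e.zero_le)
    have hj : j - 1 ≤ j' ∧ j' ≤ j + 1 := by
      rcases ad with ⟨-, h | h⟩ | ⟨-, h | h⟩ <;> omega
    have k0 := (h3 j (by omega) (by omega)).1
    obtain ⟨k1, k2⟩ := h3 j' (by omega) (by omega)
    have v' := (k2 s').1.2 v
    have k3 : dp G Z ht n h s j ≤ dp G Z ht n h s' j + 1 :=
      (depok hm hh j).adj v' s1.2.1 (ad.symm.imp And.left And.left)
    have := s1.1
    have := s1.2.2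
    rw [hy s1] at s2
    refine ⟨⟨s1.1, v', by omega⟩, ?_⟩
    simp only [al7Y, Y2, ← (k2 s').2, Nat.even_iff] at y ⊢
    omega

theorem stage2_step (hm : Man G Set.univ) (hh : Hgt G Z ht n h) {e : ℕ}
    (he : e < Fintype.card (Fc G)) : Reach (ord (SP G (psn G ht)))
      (lay (psn G ht) (Y2 G Z ht n h (e + 1))) (lay (psn G ht) (Y2 G Z ht n h e)) := by
  refine reach_class (Even e) (z := fun x : SP G (psn G ht) => Y2 G Z ht n h (e + 1) x.1.1 x.1.2)
    (z' := fun x => Y2 G Z ht n h e x.1.1 x.1.2) ?_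
  have h1 := al7_eat hh he (.inr rfl) False
  have h2 := al7_eat hh he (.inl rfl) True
  simp only [false_and, or_false, true_and] at h1 h2
  refine .tail (.tail (.single (al7_discs hm hh he)) h1)
    ((congrArg _ (al7_lay (B := al7Y G Z ht n h e e) fun s j v => ?_)).mp h2)
  simp only [al7Y, Y2, al7S, al7B, v, true_and, Nat.even_iff]
  by_cases hj : kp G j ≤ e
  · obtain ⟨m, -, -, h3⟩ := al7_loc Z ht n h he hj
    have := (h3 j (by omega) (by omega)).1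
    have := (h3 (j + 1) (by omega) (by omega)).1
    have := (h3 (j + -1) (by omega) (by omega)).1
    omega
  · omega

theorem stage2 (hm : Man G Set.univ) (hh : Hgt G Z ht n h) : Reach (ord (SP G (psn G ht)))
    (lay (psn G ht) (Y1 G Z ht)) (lay (psn G ht) (Y2 G Z ht n h 0)) := by
  have h1 : ∀ e ≤ Fintype.card (Fc G), Reach (ord (SP G (psn G ht)))
      (lay (psn G ht) (Y2 G Z ht n h e)) (lay (psn G ht) (Y2 G Z ht n h 0)) := fun e he => by
    induction e with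
    | zero => exact .refl
    | succ e ih => exact (stage2_step hm hh he).trans (ih (by omega))
  refine al7_lay (fun s j v => ?_) ▸ h1 _ le_rfl
  have : dp G Z ht n h s j < _ := (depok hm hh j).lt v
  rw [Y2, min_eq_left (by omega)]
  exact ((depok hm hh j).par v).symm

end KG
end
end

-- merged part: Pool.Agent.Work.MP_c146e2_gt.KG.Al4
section
set_option autoImplicit false

noncomputable section

open scoped Classical

namespace KG

variable {V V' : Type}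

/-- A closure edge between two cells, given by simplices and layers. -/
def al4C {G : Cx V} (pos : V → ℤ) (A : SP G pos → SP G pos → Prop) (s : Fc G) (j : ℤ) (s' : Fc G)
    (j' : ℤ) : Prop :=
  ∃ (h : Val pos s j) (h' : Val pos s' j'), Cl (ord (SP G pos)) A ⟨(s, j), h⟩ ⟨(s', j'), h'⟩

theorem al4_symm {G : Cx V} {pos : V → ℤ} {A : SP G pos → SP G pos → Prop} {s s' : Fc G}
    {j j' : ℤ} (h : al4C pos A s j s' j') : al4C pos A s' j' s j :=
  let ⟨h1, h2, h3⟩ := h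
  ⟨h2, h1, h3.symm⟩

theorem al4_tri {G : Cx V} {pos : V → ℤ} {A : SP G pos → SP G pos → Prop} {s s' s'' : Fc G}
    {j j' j'' : ℤ} (a1 : adjL s j s' j') (a2 : adjL s' j' s'' j'') (a3 : adjL s j s'' j'')
    (h : al4C pos A s j s' j') (h' : al4C pos A s' j' s'' j'') : al4C pos A s j s'' j'' :=
  let ⟨h1, h2, h3⟩ := h
  let ⟨_, h5, h6⟩ := h'
  ⟨h1, h5, Cl.tri (G := ord (SP G pos)) (a := ⟨(s, j), h1⟩) (b := ⟨(s', j'), h2⟩)
    (d := ⟨(s'', j''), h5⟩) a1 a2 a3 h3 h6⟩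

theorem al4_vert {G : Cx V} (s : Fc G) (j : ℤ) {d : ℤ} (hd : d = 1 ∨ d = -1) :
    adjL s j s (j + d) := by
  unfold adjL zle
  simp only [le_refl, true_and, Int.even_iff]
  omega

theorem al4_lay {G : Cx V} {s s' : Fc G} (j : ℤ) (h : (sd G).r s s') : adjL s j s' j :=
  Or.imp (fun h => ⟨h, Or.inl rfl⟩) (fun h => ⟨h, Or.inl rfl⟩) h

theorem al4_r {G : Cx V} {s s' : Fc G} {j j' : ℤ} (h : adjL s j s' j') : (sd G).r s s' :=
  Or.imp And.left And.left h

theorem al4_cases {G : Cx V} {s s' : Fc G} {j j' : ℤ} (h : adjL s j s' j') :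
    j' = j ∨ j' = j + 1 ∨ j' = j + -1 := by
  unfold adjL zle at h
  omega

theorem al4_mid {G : Cx V} {s s' : Fc G} (j : ℤ) {d : ℤ} (hd : d = 1 ∨ d = -1)
    (h : (sd G).r s s') : ∃ t, (t = s ∨ t = s') ∧ adjL s j t (j + d) ∧ adjL s' j t (j + d) := by
  have hz : zle j (j + d) ∨ zle (j + d) j := by
    unfold zle
    simp only [Int.even_iff]
    omega
  rcases hz with hz | hz <;> rcases h with h | h
  · exact ⟨s', Or.inr rfl, Or.inl ⟨h, hz⟩, Or.inl ⟨le_rfl, hz⟩⟩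
  · exact ⟨s, Or.inl rfl, Or.inl ⟨le_rfl, hz⟩, Or.inl ⟨h, hz⟩⟩
  · exact ⟨s, Or.inl rfl, Or.inr ⟨le_rfl, hz⟩, Or.inr ⟨h, hz⟩⟩
  · exact ⟨s', Or.inr rfl, Or.inr ⟨h, hz⟩, Or.inr ⟨le_rfl, hz⟩⟩

theorem al4_nv {G : Cx V} {pos : V → ℤ} {s : Fc G} {j d : ℤ} (hd : d = 1 ∨ d = -1)
    (hj : NV pos j) (h : Val pos s j) : Val pos s (j + d) := by
  obtain ⟨⟨a, ha, h1⟩, b, hb, h2⟩ := h
  have h3 := hj a
  have h4 := hj b
  exact ⟨⟨a, ha, by omega⟩, b, hb, by omega⟩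

/-- The edges from `(s, j)` to the next layer. -/
theorem al4_side {G : Cx V} {pos : V → ℤ} {A : SP G pos → SP G pos → Prop}
    {Y : Fc G → ℤ → Prop} (hA : ∀ x y, inZ (lay pos Y) x y → A x y) {s s' : Fc G} {j d : ℤ}
    (hd : d = 1 ∨ d = -1) (hc : al4C pos A s j s (j + d)) (hy : Y s (j + d))
    (hv : Val pos s' (j + d)) (hy' : Y s' (j + d)) (ha : adjL s j s' (j + d)) :
    al4C pos A s j s' (j + d) :=
  al4_tri (al4_vert s j hd) (al4_lay _ (al4_r ha)) ha hc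
    ⟨hc.2.1, hv, Cl.base (hA _ _ ⟨hy, hy'⟩)⟩

/-- An edge inside a layer against the edge to the next layer. -/
theorem al4_iff {G : Cx V} {pos : V → ℤ} {A : SP G pos → SP G pos → Prop}
    {Y B : Fc G → ℤ → Prop} (hA : ∀ x y, inZ (lay pos Y) x y → A x y) {j d : ℤ}
    (hd : d = 1 ∨ d = -1)
    (hY : ∀ s s', Val pos s j → B s j → Val pos s' (j + d) → adjL s j s' (j + d) → Y s' (j + d))
    {s s' : Fc G} (hr : (sd G).r s s') (hv : Val pos s j) (hw : Val pos s (j + d))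
    (hv' : Val pos s' j) (hw' : Val pos s' (j + d)) (hb : B s j)
    (hs' : Y s' j ∨ (B s' j ∧ al4C pos A s' j s' (j + d))) :
    al4C pos A s j s' j ↔ al4C pos A s j s (j + d) := by
  obtain ⟨t, ht, a1, a2⟩ := al4_mid j hd hr
  have vt : Val pos t (j + d) := by
    rcases ht with rfl | rfl
    · exact hw
    · exact hw'
  have yt : Y t (j + d) := hY s t hv hb vt a1
  have ys : Y s (j + d) := hY s s hv hb hw (al4_vert s j hd)
  have c2 : al4C pos A s' j t (j + d) := by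
    rcases hs' with h | ⟨h, h'⟩
    · exact ⟨hv', vt, Cl.base (hA _ _ ⟨h, yt⟩)⟩
    · exact al4_side hA hd h' (hY s' s' hv' h hw' (al4_vert s' j hd)) vt yt a2
  constructor
  · intro h
    have c1 := al4_tri (al4_lay j hr) a2 a1 h c2
    exact al4_tri a1 (al4_lay _ (al4_r (Or.symm a1))) (al4_vert s j hd) c1
      ⟨vt, hw, Cl.base (hA _ _ ⟨yt, ys⟩)⟩
  · intro h
    exact al4_tri a1 (Or.symm a2) (al4_lay j hr) (al4_side hA hd h ys vt yt a1) (al4_symm c2)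

/-- The edges to the other side of a pocket. -/
theorem al4_down {G : Cx V} {pos : V → ℤ} {A : SP G pos → SP G pos → Prop}
    {Y B : Fc G → ℤ → Prop} (hA : ∀ x y, inZ (lay pos Y) x y → A x y) {j d : ℤ}
    (hd : d = 1 ∨ d = -1)
    (hY : ∀ s s', Val pos s j → B s j → Val pos s' (j + d) → adjL s j s' (j + d) → Y s' (j + d))
    (hn : ∀ s s', Val pos s j → B s j → Val pos s' j → (sd G).r s s' → Y s' j ∨ B s' j)
    (hL : ∀ s s', Val pos s j → B s j → Val pos s' j → (sd G).r s s' → al4C pos A s j s' j)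
    {W : Set (Fc G)} (hW : ∀ s ∈ W, Val pos s j ∧ Val pos s (j + d)) {s₀ s : Fc G}
    (h0 : ¬ B s₀ j) (h : Rch (sd G) W s₀ s) (hb : B s j) : al4C pos A s j s (j + d) := by
  induction h with
  | refl => exact absurd hb h0
  | @tail s' s _ h ih =>
    obtain ⟨h1, h2, h3⟩ := h
    have hr := (sd G).symm _ _ h3
    refine (al4_iff hA hd hY hr (hW s h2).1 (hW s h2).2 (hW s' h1).1 (hW s' h1).2 hb ?_).1
      (hL s s' (hW s h2).1 hb (hW s' h1).1 hr)
    rcases hn s s' (hW s h2).1 hb (hW s' h1).1 hr with h4 | h4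
    · exact Or.inl h4
    · exact Or.inr ⟨h4, ih h4⟩

theorem al4_frame {G : Cx V} {pos : V → ℤ} {Y B : Fc G → ℤ → Prop} {p : SP G pos → SP G pos}
    (hf : Forest (ord (SP G pos)) (lay pos Y ∪ lay pos B) (lay pos B \ lay pos Y) p)
    (h : ∀ s j s' j', Val pos s j → B s j → Val pos s' j' → adjL s j s' j' →
      al4C pos (fun x y => inZ (lay pos Y) x y ∨ par (lay pos B \ lay pos Y) p x y) s j s' j') :
    Absorb (ord (SP G pos)) (lay pos Y) (lay pos fun s j => Y s j ∨ B s j) :=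
  absorb_of (Z := lay pos Y) (B := lay pos B) hf fun a ha b _ hab =>
    (h a.1.1 a.1.2 b.1.1 b.1.2 a.2 ha.1 b.2 hab).2.2

theorem fill [Fintype V] {G : Cx V} {pos : V → ℤ} (hp : PosOK pos) {Y B : Fc G → ℤ → Prop}
    (hB : ∀ s j, Val pos s j → B s j → NV pos j)
    (hn : ∀ s j s' j', Val pos s j → B s j → Val pos s' j' → adjL s j s' j' → Y s' j' ∨ B s' j')
    (hl : ∀ s j s' j', Val pos s j → B s j → Val pos s' j' → B s' j' → adjL s j s' j' → j = j')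
    (hW : ∀ j, NV pos j → Conn (sd G) (WL G pos j))
    (hr : ∀ s j, Val pos s j → B s j → ∃ s₀, Val pos s₀ j ∧ ¬ B s₀ j) :
    Absorb (ord (SP G pos)) (lay pos Y) (lay pos fun s j => Y s j ∨ B s j) := by
  have hY : ∀ j d, (d = 1 ∨ d = -1) → ∀ s s', Val pos s j → B s j → Val pos s' (j + d) →
      adjL s j s' (j + d) → Y s' (j + d) := fun j d hd s s' hv hb hv' ha =>
    (hn s j s' _ hv hb hv' ha).resolve_right fun h => by
      have := hl s j s' _ hv hb hv' h ha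
      omega
  have h1 : (1 : ℤ) = 1 ∨ (1 : ℤ) = -1 := Or.inl rfl
  have h2 : (-1 : ℤ) = 1 ∨ (-1 : ℤ) = -1 := Or.inr rfl
  obtain ⟨p, hp'⟩ : ∃ p : SP G pos → SP G pos, ∀ x : SP G pos, B x.1.1 x.1.2 →
      (p x).1 = (x.1.1, x.1.2 + 1) :=
    ⟨fun x => if h : B x.1.1 x.1.2 then ⟨(x.1.1, x.1.2 + 1), al4_nv h1 (hB _ _ x.2 h) x.2⟩ else x,
      fun x h => by simp only [dif_pos h]⟩
  have hpY : ∀ x : SP G pos, B x.1.1 x.1.2 → p x ∈ lay pos Y := fun x h => by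
    change Y (p x).1.1 (p x).1.2
    rw [hp' x h]
    exact hY _ 1 h1 _ _ x.2 h (al4_nv h1 (hB _ _ x.2 h) x.2) (al4_vert _ _ h1)
  refine al4_frame (p := p) ⟨fun _ => 0, fun x hx => ⟨Or.inl (hpY x hx.1), ?_,
    fun h => absurd (hpY x hx.1) h.2⟩⟩ ?_
  · change adjL x.1.1 x.1.2 (p x).1.1 (p x).1.2
    rw [hp' x hx.1]
    exact al4_vert _ _ h1
  generalize hA : (fun x y => inZ (lay pos Y) x y ∨ par (lay pos B \ lay pos Y) p x y) = A
  have hA1 : ∀ x y, inZ (lay pos Y) x y → A x y := fun x y h => hA ▸ Or.inl h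
  have hU : ∀ s j, Val pos s j → B s j → al4C pos A s j s (j + 1) := fun s j hv hb => by
    have hw := al4_nv h1 (hB s j hv hb) hv
    refine ⟨hv, hw, Cl.base ?_⟩
    by_cases hy : Y s j
    · exact hA1 _ _ ⟨hy, hY j 1 h1 s s hv hb hw (al4_vert s j h1)⟩
    · rw [← hA]
      exact Or.inr ⟨⟨hb, hy⟩, Subtype.ext (hp' ⟨(s, j), hv⟩ hb).symm⟩
  have hL : ∀ j s s', Val pos s j → B s j → Val pos s' j → (sd G).r s s' →
      al4C pos A s j s' j := fun j s s' hv hb hv' h =>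
    (al4_iff hA1 h1 (hY j 1 h1) h hv (al4_nv h1 (hB s j hv hb) hv) hv'
      (al4_nv h1 (hB s j hv hb) hv') hb
      ((hn s j s' j hv hb hv' (al4_lay j h)).imp_right fun h' => ⟨h', hU s' j hv' h'⟩)).2
      (hU s j hv hb)
  intro s j s' j' hv hb hv' ha
  have hj := hB s j hv hb
  rcases al4_cases ha with rfl | rfl | rfl
  · exact hL _ s s' hv hb hv' (al4_r ha)
  · exact al4_side hA1 h1 (hU s j hv hb) (hY j 1 h1 s s hv hb (al4_nv h1 hj hv) (al4_vert s j h1))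
      hv' (hY j 1 h1 s s' hv hb hv' ha) ha
  · obtain ⟨s₀, h3, h4⟩ := hr s j hv hb
    exact al4_side hA1 h2 (al4_down hA1 h2 (hY j _ h2)
      (fun s s' hv hb hv' h => hn s j s' j hv hb hv' (al4_lay j h)) (hL j) (W := WL G pos j)
      (fun s hs => ⟨hs, al4_nv h2 hj hs⟩) h4 (hW j hj s₀ h3 s hv) hb)
      (hY j _ h2 s s hv hb (al4_nv h2 hj hv) (al4_vert s j h2)) hv'
      (hY j _ h2 s s' hv hb hv' ha) ha

theorem solid [Fintype V] {G : Cx V} {pos : V → ℤ} (hp : PosOK pos) {Y B : Fc G → ℤ → Prop} {d : ℤ}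
    (hd : d = 1 ∨ d = -1) (hB : ∀ s j, Val pos s j → B s j → NV pos j)
    (hYB : ∀ s j, Val pos s j → B s j → ¬ Y s j)
    (hn : ∀ s j s' j', Val pos s j → B s j → Val pos s' j' → adjL s j s' j' → Y s' j' ∨ B s' j')
    (hM1 : ∀ s j s', Val pos s j → B s j → ¬ B s (j - d) → Val pos s' j → B s' j →
      (sd G).r s s' → ¬ B s' (j - d))
    (hM2 : ∀ s j s', Val pos s j → B s j → ¬ B s (j - d) → Val pos s' (j - d) →
      adjL s j s' (j - d) → ¬ B s' (j - d))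
    (hW : ∀ j, NV pos j → Conn (sd G) (WL G pos j))
    (hr : ∀ s j, Val pos s j → B s j → ∃ s₀, Val pos s₀ j ∧ ¬ B s₀ j) :
    Abss (ord (SP G pos)) (lay pos Y) (lay pos fun s j => Y s j ∨ B s j) := by
  have hd' : -d = 1 ∨ -d = -1 := by omega
  have e1 : Absorb (ord (SP G pos)) (lay pos Y)
      (lay pos fun s j => Y s j ∨ (B s j ∧ B s (j - d))) := by
    refine eat hp hd (fun s j hv hb => hB s j hv hb.1) (fun s j s' hv hb hv' ha _ => ?_)
      fun s j s' hv hb hv' ha hy => ?_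
    · refine (hn s j s' _ hv hb.1 hv' ha).imp_right fun h => ⟨h, ?_⟩
      by_contra h'
      have := hM2 s' (j + d) s hv' h h'
      rw [add_sub_cancel_right] at this
      exact this hv (Or.symm ha) hb.1
    · have h1 : Val pos s (j - d) := by
        rw [sub_eq_add_neg]
        exact al4_nv hd' (hB s j hv hb.1) hv
      have h2 : Val pos s' j := by
        have := al4_nv hd (hB s _ h1 hb.2) hv'
        rwa [sub_add_cancel] at this
      refine (hn s j s' j hv hb.1 h2 (al4_lay j (al4_r ha))).resolve_right fun h => ?_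
      exact hM1 s' j s h2 h (fun h' => hYB s' _ hv' h' hy) hv hb.1 (al4_r (Or.symm ha)) hb.2
  have e2 : Absorb (ord (SP G pos)) (lay pos fun s j => Y s j ∨ (B s j ∧ B s (j - d)))
      (lay pos fun s j => (Y s j ∨ (B s j ∧ B s (j - d))) ∨ (B s j ∧ ¬ B s (j - d))) := by
    refine fill hp (fun s j hv hb => hB s j hv hb.1) (fun s j s' j' hv hb hv' ha => ?_)
      (fun s j s' j' hv hb hv' hb' ha => ?_) hW fun s j hv hb => ?_
    · have := hn s j s' j' hv hb.1 hv' ha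
      tauto
    · by_contra hj
      have h3 := al4_cases ha
      have h4 : j' = j - d ∨ j = j' - d := by omega
      rcases h4 with rfl | rfl
      · exact hM2 s j s' hv hb.1 hb.2 hv' ha hb'.1
      · exact hM2 s' j' s hv' hb'.1 hb'.2 hv (Or.symm ha) hb.1
    · obtain ⟨s₀, h1, h2⟩ := hr s j hv hb.1
      exact ⟨s₀, h1, fun h => h2 h.1⟩
  have e3 : (lay pos fun s j => (Y s j ∨ (B s j ∧ B s (j - d))) ∨ (B s j ∧ ¬ B s (j - d))) =
      (lay pos fun s j => Y s j ∨ B s j : Set (SP G pos)) := by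
    ext x
    simp only [lay, Set.mem_ofPred_eq]
    tauto
  rw [e3] at e2
  exact (Relation.ReflTransGen.single e1).tail e2

/-- The simplex with one vertex. -/
def al4v (G : Cx V) (v : V) : Fc G :=
  ⟨{v}, Finset.singleton_nonempty v, fun a ha b hb => by
    rw [Finset.mem_singleton.1 ha, Finset.mem_singleton.1 hb]
    exact G.refl v⟩

theorem al4_mem (G : Cx V) (v : V) : v ∈ (al4v G v).1 := Finset.mem_singleton_self v

theorem al4_le {G : Cx V} {v : V} {s : Fc G} (h : v ∈ s.1) : al4v G v ≤ s :=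
  Fc.le_iff.2 (Finset.singleton_subset_iff.2 h)

theorem al4_val {G : Cx V} {pos : V → ℤ} {v : V} {s : Fc G} (h : v ∈ s.1) : Val pos s (pos v) :=
  ⟨⟨v, h, le_rfl⟩, v, h, le_rfl⟩

theorem al4_nval {G : Cx V} {pos : V → ℤ} (v : V) : ¬ Val pos (al4v G v) (pos v + 1) := by
  rintro ⟨-, b, hb, h⟩
  rw [Finset.mem_singleton.1 hb] at h
  omega

theorem al4_top {G : Cx V} {pos : V → ℤ} (hp : PosOK pos) {v : V} {s : Fc G}
    (h : Val pos s (pos v)) (h' : ¬ Val pos s (pos v + 1)) : v ∈ s.1 := by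
  obtain ⟨⟨a, ha, h1⟩, b, hb, h2⟩ := h
  have h3 : ¬ pos v + 1 ≤ pos b := fun h3 => h' ⟨⟨a, ha, by omega⟩, b, hb, h3⟩
  have h4 : pos b = pos v := by omega
  exact hp.inj h4 ▸ hb

theorem al4_upv {G : Cx V} {pos : V → ℤ} {s s' : Fc G} {j : ℤ} (h : s ≤ s') (hv : Val pos s j) :
    Val pos s' j :=
  let ⟨⟨a, ha, h1⟩, b, hb, h2⟩ := hv
  ⟨⟨a, Fc.le_iff.1 h ha, h1⟩, b, Fc.le_iff.1 h hb, h2⟩

theorem al4_even {pos : V → ℤ} (hp : PosOK pos) (v : V) {d : ℤ} (hd : d = 1 ∨ d = -1) :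
    NV pos (pos v + d) := fun w h => by
  have h1 := hp.odd v
  have h2 := hp.odd w
  rw [Int.odd_iff] at h1 h2
  omega

theorem al4_odd {G : Cx V} {pos : V → ℤ} (hp : PosOK pos) {v : V} {d : ℤ} (hd : d = 1 ∨ d = -1)
    {s s' : Fc G} (h : adjL s (pos v) s' (pos v + d)) : s' ≤ s := by
  have h1 := hp.odd v
  rw [Int.odd_iff] at h1
  refine (h.resolve_left fun h2 => ?_).1
  have h3 := h2.2
  unfold zle at h3
  simp only [Int.even_iff] at h3
  omega

theorem fillV [Fintype V] {G : Cx V} {pos : V → ℤ} (hp : PosOK pos) {Y B : Fc G → ℤ → Prop}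
    (hB : ∀ s j, Val pos s j → B s j → ∃ v, pos v = j)
    (hYB : ∀ s j, Val pos s j → B s j → ¬ Y s j)
    (hn : ∀ s j s' j', Val pos s j → B s j → Val pos s' j' → adjL s j s' j' → Y s' j' ∨ B s' j')
    (hst : ∀ v (s s' : Fc G), v ∈ s.1 → v ∈ s'.1 → B s (pos v) → B s' (pos v))
    (hW : ∀ j, NV pos j → Conn (sd G) (WL G pos j))
    (hr : ∀ s j, Val pos s j → B s j → ∃ s₀, Val pos s₀ (j - 1) ∧ ¬ B s₀ j)
    (hup : ∀ v (s : Fc G), v ∈ s.1 → B s (pos v) →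
      {t : Fc G | v ∈ t.1 ∧ Val pos t (pos v + 1)}.Nonempty ∧
        Conn (sd G) {t : Fc G | v ∈ t.1 ∧ Val pos t (pos v + 1)}) :
    Absorb (ord (SP G pos)) (lay pos Y) (lay pos fun s j => Y s j ∨ B s j) := by
  have h1 : (1 : ℤ) = 1 ∨ (1 : ℤ) = -1 := Or.inl rfl
  have h2 : (-1 : ℤ) = 1 ∨ (-1 : ℤ) = -1 := Or.inr rfl
  have hY : ∀ v d, (d = 1 ∨ d = -1) → ∀ s s', Val pos s (pos v) → B s (pos v) →
      Val pos s' (pos v + d) → adjL s (pos v) s' (pos v + d) → Y s' (pos v + d) :=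
    fun v d hd s s' hv hb hv' ha => (hn s _ s' _ hv hb hv' ha).resolve_right fun h => by
      obtain ⟨w, hw⟩ := hB s' _ hv' h
      exact al4_even hp v hd w hw
  have hex : ∀ x : SP G pos, ∃ y : SP G pos, ∀ v, pos v = x.1.2 →
      B x.1.1 x.1.2 → (Val pos x.1.1 (pos v + 1) → y.1 = (x.1.1, pos v + 1)) ∧
      (¬ Val pos x.1.1 (pos v + 1) → x.1.1 ≠ al4v G v → y.1 = (al4v G v, pos v)) ∧
      (x.1.1 = al4v G v → y.1.2 = pos v ∧ v ∈ y.1.1.1 ∧ Val pos y.1.1 (pos v + 1)) := by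
    intro x
    by_cases hb : B x.1.1 x.1.2
    swap
    · exact ⟨x, fun v _ h => absurd h hb⟩
    obtain ⟨v, hv⟩ := hB _ _ x.2 hb
    have hu : ∀ w, pos w = x.1.2 → w = v := fun w hw => hp.inj (hw.trans hv.symm)
    by_cases h3 : Val pos x.1.1 (pos v + 1)
    · refine ⟨⟨(x.1.1, pos v + 1), h3⟩, fun w hw _ => ?_⟩
      obtain rfl := hu w hw
      exact ⟨fun _ => rfl, fun h => absurd h3 h, fun h => absurd (h ▸ h3) (al4_nval w)⟩
    by_cases h4 : x.1.1 = al4v G v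
    · obtain ⟨t, ht⟩ := (hup v x.1.1 (h4 ▸ al4_mem G v) (hv ▸ hb)).1
      refine ⟨⟨(t, pos v), al4_val ht.1⟩, fun w hw _ => ?_⟩
      obtain rfl := hu w hw
      exact ⟨fun h => absurd h h3, fun _ h => absurd h4 h, fun _ => ⟨rfl, ht.1, ht.2⟩⟩
    · refine ⟨⟨(al4v G v, pos v), al4_val (al4_mem G v)⟩, fun w hw _ => ?_⟩
      obtain rfl := hu w hw
      exact ⟨fun h => absurd h h3, fun _ _ => rfl, fun h => absurd h h4⟩
  choose p hp' using hex
  refine al4_frame (p := p) ⟨fun x => if Val pos x.1.1 (x.1.2 + 1) then 0 else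
    if x.1.1.1.card = 1 then 1 else 2, fun x hx => ?_⟩ ?_
  · obtain ⟨⟨s, j⟩, hv⟩ := x
    have hb : B s j := hx.1
    obtain ⟨v, rfl⟩ := hB s j hv hb
    obtain ⟨q1, q2, q3⟩ := hp' ⟨(s, pos v), hv⟩ v rfl hb
    generalize p ⟨(s, pos v), hv⟩ = y at q1 q2 q3
    obtain ⟨⟨t, i⟩, ht⟩ := y
    dsimp only at q1 q2 q3 ht hv ⊢
    by_cases h3 : Val pos s (pos v + 1)
    · obtain ⟨rfl, rfl⟩ := Prod.mk.inj (q1 h3)
      have hy := hY v 1 h1 t t hv hb h3 (al4_vert t _ h1)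
      exact ⟨Or.inl hy, al4_vert t _ h1, fun h => absurd hy h.2⟩
    have hs := al4_top hp hv h3
    by_cases h4 : s = al4v G v
    · obtain ⟨rfl, q4, q5⟩ := q3 h4
      refine ⟨Or.inr (hst v s t hs q4 hb), al4_lay _ (Or.inl (h4 ▸ al4_le q4)), fun _ => ?_⟩
      rw [if_pos q5, if_neg h3]
      split_ifs <;> omega
    · obtain ⟨rfl, rfl⟩ := Prod.mk.inj (q2 h3 h4)
      refine ⟨Or.inr (hst v s _ hs (al4_mem G v) hb), al4_lay _ (Or.inr (al4_le hs)), fun _ => ?_⟩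
      have h5 : ¬ s.1.card = 1 := fun h => h4 (Subtype.ext (by
        obtain ⟨a, ha⟩ := Finset.card_eq_one.1 h
        rw [ha] at hs ⊢
        rw [Finset.mem_singleton.1 hs]
        rfl))
      have h6 : (al4v G v).1.card = 1 := Finset.card_singleton v
      rw [if_neg (al4_nval v), if_neg h3, if_neg h5, if_pos h6]
      omega
  generalize hA : (fun x y => inZ (lay pos Y) x y ∨ par (lay pos B \ lay pos Y) p x y) = A
  have hA1 : ∀ x y, inZ (lay pos Y) x y → A x y := fun x y h => hA ▸ Or.inl h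
  have hA2 : ∀ s j (hv : Val pos s j) t i, B s j → (p ⟨(s, j), hv⟩).1 = (t, i) →
      al4C pos A s j t i := fun s j hv t i hb h => by
    have ht : Val pos t i := by
      have := (p ⟨(s, j), hv⟩).2
      rwa [h] at this
    refine ⟨hv, ht, Cl.base ?_⟩
    rw [← hA]
    exact Or.inr ⟨⟨hb, hYB s j hv hb⟩, Subtype.ext h.symm⟩
  have hU : ∀ v s, Val pos s (pos v) → B s (pos v) → Val pos s (pos v + 1) →
      al4C pos A s (pos v) s (pos v + 1) := fun v s hv hb hw =>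
    hA2 s _ hv _ _ hb ((hp' ⟨(s, pos v), hv⟩ v rfl hb).1 hw)
  have hL1 : ∀ v s s', Val pos s (pos v) → B s (pos v) → Val pos s' (pos v) → (sd G).r s s' →
      Val pos s (pos v + 1) → Val pos s' (pos v + 1) → al4C pos A s (pos v) s' (pos v) :=
    fun v s s' hv hb hv' h hw hw' =>
      (al4_iff hA1 h1 (hY v 1 h1) h hv hw hv' hw' hb
        ((hn s _ s' _ hv hb hv' (al4_lay _ h)).imp_right fun h' => ⟨h', hU v s' hv' h' hw'⟩)).2
        (hU v s hv hb hw)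
  have hS : ∀ v (t : Fc G), v ∈ t.1 → B t (pos v) → al4C pos A (al4v G v) (pos v) t (pos v) := by
    intro v t ht hb
    have hv0 : Val pos (al4v G v) (pos v) := al4_val (al4_mem G v)
    have hb0 := hst v t _ ht (al4_mem G v) hb
    by_cases h3 : Val pos t (pos v + 1)
    · obtain ⟨q1, q2, q3⟩ := (hp' ⟨(al4v G v, pos v), hv0⟩ v rfl hb0).2.2 rfl
      have c0 := hA2 _ _ hv0 (p ⟨(al4v G v, pos v), hv0⟩).1.1 (pos v) hb0 (Prod.ext rfl q1)
      have hc := (hup v t ht hb).2 _ ⟨q2, q3⟩ t ⟨ht, h3⟩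
      generalize (p ⟨(al4v G v, pos v), hv0⟩).1.1 = s₀ at q2 q3 c0 hc
      clear ht hb h3
      induction hc with
      | refl => exact c0
      | @tail t t' _ h ih =>
        obtain ⟨h4, h5, h6⟩ := h
        exact al4_tri (al4_lay _ (Or.inl (al4_le h4.1))) (al4_lay _ h6)
          (al4_lay _ (Or.inl (al4_le h5.1))) ih
          (hL1 v t t' (al4_val h4.1) (hst v _ t (al4_mem G v) h4.1 hb0) (al4_val h5.1) h6 h4.2 h5.2)
    by_cases h4 : t = al4v G v
    · rw [h4]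
      exact ⟨hv0, hv0, Cl.refl _⟩
    · exact al4_symm (hA2 t _ (al4_val ht) _ _ hb
        ((hp' ⟨(t, pos v), al4_val ht⟩ v rfl hb).2.1 h3 h4))
  have hL : ∀ v s s', Val pos s (pos v) → B s (pos v) → Val pos s' (pos v) → (sd G).r s s' →
      al4C pos A s (pos v) s' (pos v) := by
    intro v s s' hv hb hv' h
    by_cases h3 : Val pos s (pos v + 1) ∧ Val pos s' (pos v + 1)
    · exact hL1 v s s' hv hb hv' h h3.1 h3.2
    have h4 : v ∈ s.1 ∧ v ∈ s'.1 := by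
      rcases h with h | h
      · have h5 := al4_top hp hv fun h5 => h3 ⟨h5, al4_upv h h5⟩
        exact ⟨h5, Fc.le_iff.1 h h5⟩
      · have h5 := al4_top hp hv' fun h5 => h3 ⟨al4_upv h h5, h5⟩
        exact ⟨Fc.le_iff.1 h h5, h5⟩
    exact al4_tri (al4_lay _ (Or.inr (al4_le h4.1))) (al4_lay _ (Or.inl (al4_le h4.2)))
      (al4_lay _ h) (al4_symm (hS v s h4.1 hb)) (hS v s' h4.2 (hst v s s' h4.1 h4.2 hb))
  intro s j s' j' hv hb hv' ha
  obtain ⟨v, rfl⟩ := hB s j hv hb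
  rcases al4_cases ha with rfl | rfl | rfl
  · exact hL v s s' hv hb hv' (al4_r ha)
  · have hw := al4_upv (al4_odd hp h1 ha) hv'
    exact al4_side hA1 h1 (hU v s hv hb hw) (hY v 1 h1 s s hv hb hw (al4_vert s _ h1))
      hv' (hY v 1 h1 s s' hv hb hv' ha) ha
  · have hw := al4_upv (al4_odd hp h2 ha) hv'
    obtain ⟨s₀, h3, h4⟩ := hr s _ hv hb
    have hj := al4_even hp v h2
    refine al4_side hA1 h2 (al4_down hA1 h2 (hY v _ h2)
      (fun s s' hv hb hv' h => hn s _ s' _ hv hb hv' (al4_lay _ h)) (hL v)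
      (W := WL G pos (pos v + -1)) (fun s hs => ⟨?_, hs⟩) h4 (hW _ hj s₀ h3 s hw) hb)
      (hY v _ h2 s s hv hb hw (al4_vert s _ h2)) hv' (hY v _ h2 s s' hv hb hv' ha) ha
    have := al4_nv h1 hj hs
    rwa [neg_add_cancel_right] at this

end KG
end
end

-- merged part: Pool.Agent.Work.MP_c146e2_gt.KG.Al1
section
set_option autoImplicit false

noncomputable section

open scoped Classical

namespace KG

variable {V V' : Type}

def spRk {G : Cx V} {pos : V → ℤ} (x : SP G pos) : ℕ :=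
  if Even x.1.2 then x.1.1.1.card - 2 else x.1.1.1.card - 1

def al1V (pos : V → ℤ) (t : Finset V) (i : ℤ) : Prop :=
  (∃ a ∈ t, pos a ≤ i) ∧ ∃ c ∈ t, i ≤ pos c

def al1L {G : Cx V} {pos : V → ℤ} (b : SP G pos) (t : Finset V) (i : ℤ) : Prop :=
  t ⊆ b.1.1.1 ∧ al1V pos t i ∧ zle i b.1.2 ∧ ¬ (t = b.1.1.1 ∧ i = b.1.2)

theorem al1_mono {pos : V → ℤ} {t t' : Finset V} {i : ℤ} (h : al1V pos t i) (ht : t ⊆ t') :
    al1V pos t' i :=
  ⟨h.1.imp fun _ k => ⟨ht k.1, k.2⟩, h.2.imp fun _ k => ⟨ht k.1, k.2⟩⟩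

theorem al1_two_le {pos : V → ℤ} (hp : PosOK pos) {t : Finset V} {i : ℤ} (h : al1V pos t i)
    (hi : Even i) : 2 ≤ t.card := by
  obtain ⟨⟨a, ha, h1⟩, c, hc, h2⟩ := h
  refine Finset.one_lt_card.2 ⟨a, ha, c, hc, ?_⟩
  rintro rfl
  have := hp.odd a
  rw [Int.odd_iff] at this
  rw [Int.even_iff] at hi
  omega

theorem al1_ext {G : Cx V} {pos : V → ℤ} {x y : SP G pos} (h1 : x.1.1.1 = y.1.1.1)
    (h2 : x.1.2 = y.1.2) : x = y := Subtype.ext (Prod.ext (Subtype.ext h1) h2)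

theorem al1_lt {G : Cx V} {pos : V → ℤ} {z b : SP G pos} : z < b ↔ al1L b z.1.1.1 z.1.2 :=
  ⟨fun h => ⟨h.le.1, z.2, h.le.2, fun e => h.ne (al1_ext e.1 e.2)⟩,
    fun h => lt_of_le_of_ne ⟨h.1, h.2.2.1⟩ fun e => h.2.2.2 (e ▸ ⟨rfl, rfl⟩)⟩

theorem al1_ex {G : Cx V} {pos : V → ℤ} {b : SP G pos} {t : Finset V} {i : ℤ} (h : al1L b t i) :
    ∃ z < b, z.1.1.1 = t ∧ z.1.2 = i :=
  ⟨⟨(⟨t, xs_clq_sub b.1.1.2 h.1 (h.2.1.1.imp fun _ k => k.1)⟩, i), h.2.1⟩, al1_lt.2 h, rfl, rfl⟩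

theorem al1_pair {G : Cx V} {pos : V → ℤ} {b : SP G pos} (t1 : Finset V) (i1 : ℤ) (t2 : Finset V)
    (i2 : ℤ) (hne : ¬ (t1 = t2 ∧ i1 = i2))
    (h : ∀ t i, al1L b t i ↔ (t = t1 ∧ i = i1) ∨ (t = t2 ∧ i = i2)) :
    {z | z < b}.ncard = 2 := by
  obtain ⟨x, -, rfl, rfl⟩ := al1_ex ((h _ _).2 (Or.inl ⟨rfl, rfl⟩))
  obtain ⟨y, -, rfl, rfl⟩ := al1_ex ((h _ _).2 (Or.inr ⟨rfl, rfl⟩))
  refine Set.ncard_eq_two.2 ⟨x, y, fun e => hne (e ▸ ⟨rfl, rfl⟩), Set.ext fun z => ?_⟩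
  refine (al1_lt.trans (h _ _)).trans (or_congr ?_ ?_) <;>
    exact ⟨fun e => al1_ext e.1 e.2, fun e => e ▸ ⟨rfl, rfl⟩⟩

theorem al1_conn {G : Cx V} {pos : V → ℤ} {b : SP G pos} {t0 : Finset V} {i0 : ℤ}
    (h0 : al1L b t0 i0) (h : ∀ Q : Finset V → ℤ → Prop,
      (∀ t i t' i', al1L b t i → al1L b t' i' → t ⊆ t' → zle i i' → (Q t i ↔ Q t' i')) →
      Q t0 i0 → ∀ t i, al1L b t i → Q t i) :
    {z | z < b}.Nonempty ∧ Conn (ord (SP G pos)) {z | z < b} := by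
  obtain ⟨c, hc, rfl, rfl⟩ := al1_ex h0
  refine ⟨⟨c, hc⟩, conn_of_base c fun z hz => h
    (fun t i => ∀ z < b, z.1.1.1 = t → z.1.2 = i → Rch (ord (SP G pos)) {z | z < b} z c)
    (fun t i t' i' h1 h2 h3 h4 => ?_) (fun z _ e1 e2 => al1_ext e1 e2 ▸ bas_refl _ _ _) _ _
    (al1_lt.1 hz) z hz rfl rfl⟩
  obtain ⟨x, hx, rfl, rfl⟩ := al1_ex h1
  obtain ⟨y, hy, rfl, rfl⟩ := al1_ex h2
  have hr : Rch (ord (SP G pos)) {z | z < b} x y := rch_step hx hy (Or.inl ⟨h3, h4⟩)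
  exact ⟨fun k z _ e1 e2 => al1_ext e1 e2 ▸ bas_trans (rch_symm hr) (k x hx rfl rfl),
    fun k z _ e1 e2 => al1_ext e1 e2 ▸ bas_trans hr (k y hy rfl rfl)⟩

theorem al1_sub2 {s : Finset V} {a c : V} (ha : a ∈ s) (hc : c ∈ s) : ({a, c} : Finset V) ⊆ s :=
  Finset.insert_subset ha (Finset.singleton_subset_iff.2 hc)

theorem al1_V2 {pos : V → ℤ} {a c : V} {i : ℤ} (ha : pos a ≤ i) (hc : i ≤ pos c) :
    al1V pos {a, c} i := ⟨⟨a, by simp, ha⟩, c, by simp, hc⟩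

theorem al1_L {G : Cx V} {pos : V → ℤ} {b : SP G pos} {t : Finset V} (h1 : t ⊆ b.1.1.1)
    (h2 : al1V pos t b.1.2) (h3 : t.card < b.1.1.1.card) : al1L b t b.1.2 :=
  ⟨h1, h2, Or.inl rfl, fun e => h3.ne (congrArg _ e.1)⟩

theorem al1_eq {i j : ℤ} (h : zle i j) (hj : Even j) : i = j := by
  unfold zle at h
  simp only [Int.even_iff] at *
  omega

theorem al1_even3 {G : Cx V} {pos : V → ℤ} (hp : PosOK pos) (b : SP G pos) (hj : Even b.1.2)
    (hc : b.1.1.1.card = 3) : {z | z < b}.ncard = 2 := by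
  have hm : ∀ t, al1V pos t b.1.2 ↔
      Meets t {v | pos v ≤ b.1.2} ∧ Meets t {v | pos v ≤ b.1.2}ᶜ := fun t =>
    and_congr_right fun _ => exists_congr fun c => and_congr_right fun _ => by
      have := hp.odd c
      rw [Int.odd_iff] at this
      rw [Int.even_iff] at hj
      change _ ↔ ¬ pos c ≤ b.1.2
      omega
  obtain ⟨e1, e2, hne, h⟩ := xs_tri_edges hc ((hm _).1 b.2).1 ((hm _).1 b.2).2
  refine al1_pair e1 b.1.2 e2 b.1.2 (fun e => hne e.1) fun t i => ?_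
  rw [← or_and_right, ← h, ← hm]
  refine ⟨fun ⟨h1, h2, h3, h4⟩ => ?_, ?_⟩
  · obtain rfl := al1_eq h3 hj
    have := al1_two_le hp h2 hj
    have := Finset.card_lt_card (ssubset_of_subset_of_ne h1 fun e => h4 ⟨e, rfl⟩)
    exact ⟨⟨h1, by omega, h2⟩, rfl⟩
  · rintro ⟨⟨h1, h2, h3⟩, rfl⟩
    exact al1_L h1 h3 (by omega)

theorem al1_even4 {G : Cx V} {pos : V → ℤ} (b : SP G pos) (hj : Even b.1.2)
    (hc : 4 ≤ b.1.1.1.card) : {z | z < b}.Nonempty ∧ Conn (ord (SP G pos)) {z | z < b} := by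
  obtain ⟨⟨p', hp', kp'⟩, q', hq', kq'⟩ := b.2
  have l2 : ∀ a ∈ b.1.1.1, ∀ c ∈ b.1.1.1, pos a ≤ b.1.2 → b.1.2 ≤ pos c → al1L b {a, c} b.1.2 :=
    fun a ha c hc' h1 h2 =>
      al1_L (al1_sub2 ha hc') (al1_V2 h1 h2) (Finset.card_le_two.trans_lt (by omega))
  have l3 : ∀ w ∈ b.1.1.1, ∀ a ∈ b.1.1.1, ∀ c ∈ b.1.1.1, pos a ≤ b.1.2 → b.1.2 ≤ pos c →
      al1L b {w, a, c} b.1.2 := fun w hw a ha c hc' h1 h2 =>
    al1_L (Finset.insert_subset hw (al1_sub2 ha hc'))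
      (al1_mono (al1_V2 h1 h2) (Finset.subset_insert _ _))
      (Finset.card_le_three.trans_lt (by omega))
  refine al1_conn (l2 p' hp' q' hq' kp' kq') fun Q hQ h0 t i h => ?_
  obtain rfl := al1_eq h.2.2.1 hj
  obtain ⟨⟨p, hp, kp⟩, q, hq, kq⟩ := h.2.1
  have z : zle b.1.2 b.1.2 := Or.inl rfl
  have a1 := (hQ _ _ _ _ (l2 p' hp' q' hq' kp' kq') (l3 q' hq' p' hp' q (h.1 hq) kp' kq)
    (by intro x; simp only [Finset.mem_insert, Finset.mem_singleton]; tauto) z).1 h0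
  have a2 := (hQ _ _ _ _ (l2 p' hp' q (h.1 hq) kp' kq) (l3 q' hq' p' hp' q (h.1 hq) kp' kq)
    (Finset.subset_insert _ _) z).2 a1
  have a3 := (hQ _ _ _ _ (l2 p' hp' q (h.1 hq) kp' kq) (l3 p' hp' p (h.1 hp) q (h.1 hq) kp kq)
    (Finset.insert_subset_insert _ (Finset.subset_insert _ _)) z).1 a2
  have a4 := (hQ _ _ _ _ (l2 p (h.1 hp) q (h.1 hq) kp kq)
    (l3 p' hp' p (h.1 hp) q (h.1 hq) kp kq) (Finset.subset_insert _ _) z).2 a3
  exact (hQ _ _ _ _ (l2 p (h.1 hp) q (h.1 hq) kp kq) h (al1_sub2 hp hq) z).1 a4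

theorem al1_odd2 {G : Cx V} {pos : V → ℤ} (hp : PosOK pos) (b : SP G pos) (hj : ¬ Even b.1.2)
    (hc : b.1.1.1.card = 2) : {z | z < b}.ncard = 2 := by
  obtain ⟨p, q, hpq, hs⟩ : ∃ p q, pos p < pos q ∧ b.1.1.1 = {p, q} := by
    obtain ⟨p, q, h, e⟩ := Finset.card_eq_two.1 hc
    rcases lt_or_gt_of_ne (hp.inj.ne h) with k | k
    · exact ⟨p, q, k, e⟩
    · exact ⟨q, p, k, e.trans (Finset.pair_comm _ _)⟩
  have hne : p ≠ q := fun e => hpq.ne (congrArg pos e)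
  have n1 : ({p} : Finset V) ≠ {p, q} := fun e => by
    have := congrArg Finset.card e
    rw [Finset.card_pair hne, Finset.card_singleton] at this
    omega
  have n2 : ({q} : Finset V) ≠ {p, q} := fun e => by
    have := congrArg Finset.card e
    rw [Finset.card_pair hne, Finset.card_singleton] at this
    omega
  have v1 : ∀ v i, al1V pos {v} i ↔ pos v = i := fun v i => by
    simp only [al1V, Finset.mem_singleton, exists_eq_left]
    omega
  have v2 : ∀ i, al1V pos {p, q} i ↔ pos p ≤ i ∧ i ≤ pos q := fun i => by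
    simp only [al1V, Finset.mem_insert, Finset.mem_singleton, exists_eq_or_imp, exists_eq_left]
    omega
  have hb := (v2 _).1 (hs ▸ b.2 : al1V pos {p, q} b.1.2)
  have o1 := Int.odd_iff.1 (hp.odd p)
  have o2 := Int.odd_iff.1 (hp.odd q)
  rw [Int.even_iff] at hj
  have key : ∀ t i, al1L b t i ↔ ((t = {p} ∧ i = b.1.2) ∧ pos p = b.1.2 ∨
      (t = {p, q} ∧ i = b.1.2 - 1) ∧ pos p ≠ b.1.2) ∨ ((t = {q} ∧ i = b.1.2) ∧ pos q = b.1.2 ∨
      (t = {p, q} ∧ i = b.1.2 + 1) ∧ pos q ≠ b.1.2) := by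
    intro t i
    rw [al1L, hs, zle, Int.even_iff]
    constructor
    · rintro ⟨h1, h2, h3, h4⟩
      have ht : t = {p} ∨ t = {q} ∨ t = {p, q} := by
        obtain ⟨a, ha, -⟩ := h2.1
        have h5 : ∀ x ∈ t, x = p ∨ x = q := fun x hx => by simpa using h1 hx
        by_cases c1 : p ∈ t <;> by_cases c2 : q ∈ t
        · exact Or.inr (Or.inr (h1.antisymm (al1_sub2 c1 c2)))
        · exact Or.inl (Finset.eq_singleton_iff_unique_mem.2
            ⟨c1, fun x hx => (h5 x hx).resolve_right fun e => c2 (e ▸ hx)⟩)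
        · exact Or.inr (Or.inl (Finset.eq_singleton_iff_unique_mem.2
            ⟨c2, fun x hx => (h5 x hx).resolve_left fun e => c1 (e ▸ hx)⟩))
        · exact (h5 a ha).elim (fun e => (c1 (e ▸ ha)).elim) fun e => (c2 (e ▸ ha)).elim
      rcases ht with rfl | rfl | rfl
      · rw [v1] at h2
        exact Or.inl (Or.inl ⟨⟨rfl, by omega⟩, by omega⟩)
      · rw [v1] at h2
        exact Or.inr (Or.inl ⟨⟨rfl, by omega⟩, by omega⟩)
      · rw [v2] at h2
        have h5 : i ≠ b.1.2 := fun e => h4 ⟨rfl, e⟩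
        by_cases h6 : i = b.1.2 - 1
        · exact Or.inl (Or.inr ⟨⟨rfl, h6⟩, by omega⟩)
        · exact Or.inr (Or.inr ⟨⟨rfl, by omega⟩, by omega⟩)
    · rintro ((⟨⟨rfl, rfl⟩, h⟩ | ⟨⟨rfl, rfl⟩, h⟩) | ⟨⟨rfl, rfl⟩, h⟩ | ⟨⟨rfl, rfl⟩, h⟩)
      · exact ⟨by simp, (v1 _ _).2 h, by omega, fun e => n1 e.1⟩
      · exact ⟨subset_rfl, (v2 _).2 (by omega), by omega, fun e => by omega⟩
      · exact ⟨by simp, (v1 _ _).2 h, by omega, fun e => n2 e.1⟩
      · exact ⟨subset_rfl, (v2 _).2 (by omega), by omega, fun e => by omega⟩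
  by_cases c1 : pos p = b.1.2 <;> by_cases c2 : pos q = b.1.2
  · omega
  · exact al1_pair {p} b.1.2 {p, q} (b.1.2 + 1) (fun e => n1 e.1) fun t i => by
      rw [key]; tauto
  · exact al1_pair {p, q} (b.1.2 - 1) {q} b.1.2 (fun e => n2 e.1.symm) fun t i => by
      rw [key]; tauto
  · exact al1_pair {p, q} (b.1.2 - 1) {p, q} (b.1.2 + 1) (fun e => by omega) fun t i => by
      rw [key]; tauto

theorem al1_odd3 {G : Cx V} {pos : V → ℤ} (hp : PosOK pos) (b : SP G pos) (hj : ¬ Even b.1.2)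
    (hc : 3 ≤ b.1.1.1.card) : {z | z < b}.Nonempty ∧ Conn (ord (SP G pos)) {z | z < b} := by
  obtain ⟨lo, hlo, klo⟩ := Finset.exists_min_image b.1.1.1 pos b.1.1.2.1
  obtain ⟨hi, hhi, khi⟩ := Finset.exists_max_image b.1.1.1 pos b.1.1.2.1
  have v0 : ∀ i, al1V pos b.1.1.1 i → al1V pos {lo, hi} i := fun i ⟨⟨a, ha, h1⟩, c, hc', h2⟩ =>
    al1_V2 ((klo a ha).trans h1) (h2.trans (khi c hc'))
  have l0 : al1L b {lo, hi} b.1.2 :=
    al1_L (al1_sub2 hlo hhi) (v0 _ b.2) (Finset.card_le_two.trans_lt (by omega))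
  refine al1_conn l0 fun Q hQ h0 => ?_
  have c1 : ∀ t i, al1L b t i → i ≠ b.1.2 → Q t i := fun t i h hi' => by
    have h1 : al1L b b.1.1.1 i := ⟨subset_rfl, al1_mono h.2.1 h.1, h.2.2.1, fun e => hi' e.2⟩
    have h2 : al1L b {lo, hi} i := ⟨l0.1, v0 _ h1.2.1, h.2.2.1, fun e => hi' e.2⟩
    exact (hQ _ _ _ _ h h1 h.1 (Or.inl rfl)).2 ((hQ _ _ _ _ h2 h1 l0.1 (Or.inl rfl)).1
      ((hQ _ _ _ _ h2 l0 subset_rfl h.2.2.1).2 h0))
  have c2 : ∀ t, al1L b t b.1.2 → ∀ w ∈ t, pos w ≠ b.1.2 → Q t b.1.2 := fun t h w hw hw' => by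
    obtain ⟨⟨a, ha, h1⟩, c, hc', h2⟩ := h.2.1
    rw [Int.even_iff] at hj
    obtain ⟨i, z, v, e⟩ : ∃ i, zle i b.1.2 ∧ al1V pos t i ∧ i ≠ b.1.2 := by
      rcases lt_or_gt_of_ne hw' with k | k
      · exact ⟨b.1.2 - 1, Or.inr ⟨Int.even_iff.2 (by omega), by omega⟩,
          ⟨⟨w, hw, by omega⟩, c, hc', by omega⟩, by omega⟩
      · exact ⟨b.1.2 + 1, Or.inr ⟨Int.even_iff.2 (by omega), by omega⟩,
          ⟨⟨a, ha, by omega⟩, w, hw, by omega⟩, by omega⟩
    have h3 : al1L b t i := ⟨h.1, v, z, fun k => e k.2⟩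
    exact (hQ _ _ _ _ h3 h subset_rfl z).1 (c1 _ _ h3 e)
  intro t i h
  obtain rfl | e := eq_or_ne i b.1.2
  swap
  · exact c1 t i h e
  by_cases hw : ∃ w ∈ t, pos w ≠ b.1.2
  · obtain ⟨w, hw, hw'⟩ := hw
    exact c2 t h w hw hw'
  push Not at hw
  obtain ⟨v, hv, -⟩ := h.2.1.1
  obtain ⟨w, hw1, hw2⟩ := Finset.exists_mem_ne (s := b.1.1.1) (by omega) v
  have h1 : al1L b {w, v} b.1.2 := al1_L (al1_sub2 hw1 (h.1 hv))
    ⟨⟨v, by simp, (hw v hv).le⟩, v, by simp, (hw v hv).ge⟩ (Finset.card_le_two.trans_lt (by omega))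
  refine (hQ _ _ _ _ h h1 (fun x hx => ?_) (Or.inl rfl)).2
    (c2 _ h1 w (by simp) fun k => hw2 (hp.inj (k.trans (hw v hv).symm)))
  rw [hp.inj ((hw x hx).trans (hw v hv).symm)]
  simp

theorem sp_contr [Fintype V] (G : Cx V) (pos : V → ℤ) :
    Contr (ord (SP G pos)) (sd G) Set.univ Set.univ fun x => x.1.1 :=
  contr_zig (fun x : SP G pos => x.1.1) (fun x => x.1.2) (fun s => s.1.inf' s.2.1 pos)
    (fun s => s.1.sup' s.2.1 pos)
    (fun s => by
      obtain ⟨a, ha⟩ := s.2.1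
      exact (Finset.inf'_le pos ha).trans (Finset.le_sup' pos ha))
    (fun _ _ => Iff.rfl)
    (fun x => ⟨(Finset.inf'_le_iff _).2 x.2.1, (Finset.le_sup'_iff _).2 x.2.2⟩)
    (fun s j h1 h2 => ⟨⟨(s, j), (Finset.inf'_le_iff _).1 h1, (Finset.le_sup'_iff _).1 h2⟩, rfl, rfl⟩)
    fun x s h => ⟨⟨(s, x.1.2), al1_mono x.2 h⟩, rfl, h, Or.inl rfl⟩

theorem sp_mono {G : Cx V} {pos : V → ℤ} (hp : PosOK pos) : StrictMono (spRk (G := G) (pos := pos)) := by
  intro x y h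
  obtain ⟨h1, h2, h3, h4⟩ := al1_lt.1 h
  have c1 := Finset.card_le_card h1
  have c2 := Finset.card_pos.2 x.1.1.2.1
  have c3 := al1_two_le hp h2
  unfold spRk
  rcases h3 with e | ⟨e, e'⟩
  · have := Finset.card_lt_card (ssubset_of_subset_of_ne h1 fun k => h4 ⟨k, e⟩)
    rw [← e]
    split_ifs with k
    · have := c3 k
      omega
    · omega
  · have := c3 e
    rw [if_pos e, if_neg (by rw [Int.even_iff] at *; omega)]
    omega

theorem sp_low {G : Cx V} {pos : V → ℤ} (hp : PosOK pos) (b : SP G pos) (h4 : b.1.1.1.card ≤ 4) :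
    Itv {z | z < b} (spRk b) := by
  unfold spRk
  split_ifs with hj
  · exact ⟨fun h => al1_even3 hp b hj (by omega), fun h => al1_even4 b hj (by omega)⟩
  · exact ⟨fun h => al1_odd2 hp b hj (by omega), fun h => al1_odd3 hp b hj (by omega)⟩

end KG
end
end

-- merged part: Pool.Agent.Work.MP_c146e2_gt.KG.Al2
section
set_option autoImplicit false

noncomputable section

open scoped Classical

namespace KG

variable {V V' : Type}

theorem al2_up {G : Cx V} {pos : V → ℤ} {s t : Fc G} {j : ℤ} (h : Val pos s j) (hst : s ≤ t) :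
    Val pos t j :=
  ⟨h.1.imp fun _ ha => ⟨Fc.le_iff.1 hst ha.1, ha.2⟩, h.2.imp fun _ ha => ⟨Fc.le_iff.1 hst ha.1, ha.2⟩⟩

theorem al2_zle {G : Cx V} {pos : V → ℤ} (hp : PosOK pos) {s : Fc G} {i j : ℤ} (h : Val pos s i)
    (hij : zle i j) : Val pos s j := by
  obtain ⟨⟨a, ha, h1⟩, b, hb, h2⟩ := h
  have h3 := Int.odd_iff.1 (hp.odd a)
  have h4 := Int.odd_iff.1 (hp.odd b)
  unfold zle at hij
  rw [Int.even_iff] at hij
  exact ⟨⟨a, ha, by omega⟩, b, hb, by omega⟩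

theorem al2_two {G : Cx V} {pos : V → ℤ} (hp : PosOK pos) {s : Fc G} {i : ℤ} (h : Val pos s i)
    (hi : Even i) : 2 ≤ s.1.card := by
  obtain ⟨⟨a, ha, h1⟩, b, hb, h2⟩ := h
  have h3 := Int.odd_iff.1 (hp.odd a)
  rw [Int.even_iff] at hi
  refine Finset.one_lt_card.2 ⟨a, ha, b, hb, ?_⟩
  rintro rfl
  omega

theorem al2_ext {G : Cx V} {pos : V → ℤ} {x y : SP G pos} (h : x.1.1 = y.1.1)
    (h' : x.1.2 = y.1.2) : x = y := Subtype.ext (Prod.ext h h')

theorem al2_lt {G : Cx V} {pos : V → ℤ} {x y : SP G pos} :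
    x < y ↔ x.1.1 ≤ y.1.1 ∧ zle x.1.2 y.1.2 ∧ (x.1.1 < y.1.1 ∨ x.1.2 ≠ y.1.2) := by
  rw [lt_iff_le_and_ne, SP.le_iff, and_assoc]
  refine and_congr_right fun h => and_congr_right fun _ => ⟨fun hn => ?_, fun hn e => ?_⟩
  · by_contra hc
    rw [not_or, not_not] at hc
    exact hn (al2_ext (h.eq_or_lt.resolve_right hc.1) hc.2)
  · rw [e] at hn
    exact hn.elim (lt_irrefl _) fun k => k rfl

theorem al2_le {G : Cx V} {pos : V → ℤ} {T : Set (SP G pos)} {x y : SP G pos} (hx : x ∈ T)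
    (hy : y ∈ T) (h : x.1.1 ≤ y.1.1) (h' : zle x.1.2 y.1.2) : Rch (ord (SP G pos)) T x y :=
  rch_step hx hy (Or.inl ⟨h, h'⟩)

theorem al2_layer {G : Cx V} {pos : V → ℤ} {T : Set (SP G pos)} {S : Set (Fc G)} {j : ℤ} {n : ℕ}
    (h1 : ∀ x ∈ T, x.1.2 = j ∧ x.1.1 ∈ S) (h2 : ∀ r ∈ S, ∃ x ∈ T, x.1.1 = r) (h : Itv S n) :
    Itv T n := by
  have hb : Set.BijOn (fun x : SP G pos => x.1.1) T S :=
    ⟨fun x hx => (h1 x hx).2, fun x hx y hy e => al2_ext e ((h1 x hx).1.trans (h1 y hy).1.symm), h2⟩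
  refine ⟨fun hn => ?_, fun hn => ⟨?_, (conn_iso hb fun a ha b hb' => ?_).2 (h.2 hn).2⟩⟩
  · rw [← h.1 hn, ← hb.image_eq, hb.injOn.ncard_image]
  · obtain ⟨r, hr⟩ := (h.2 hn).1
    obtain ⟨x, hx, -⟩ := h2 r hr
    exact ⟨x, hx⟩
  · have e : a.1.2 = b.1.2 := (h1 a ha).1.trans (h1 b hb').1.symm
    exact or_congr ⟨fun k => k.1, fun k => ⟨k, Or.inl e⟩⟩ ⟨fun k => k.1, fun k => ⟨k, Or.inl e.symm⟩⟩

theorem al2_card {G : Cx V} {s t : Fc G} (h : s ≤ t) (hc : t.1.card ≤ s.1.card) : s = t :=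
  Subtype.ext (Finset.eq_of_subset_of_card_le (Fc.le_iff.1 h) hc)

theorem al2_mid {G : Cx V} {pos : V → ℤ} (hp : PosOK pos) {a b : SP G pos} (hab : a < b) :
    Itv {z | a < z ∧ z < b} (spRk b - spRk a - 1) := by
  obtain ⟨h1, h2, h3⟩ := al2_lt.1 hab
  have hc := Finset.card_le_card (Fc.le_iff.1 h1)
  have hpos := mans_pos a.1.1
  by_cases e : a.1.2 = b.1.2
  · have e1 : spRk b - spRk a - 1 = b.1.1.1.card - a.1.1.1.card - 1 := by
      unfold spRk
      rw [← e]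
      split_ifs with he
      · have := al2_two hp a.2 he
        omega
      · omega
    rw [e1]
    refine al2_layer (j := a.1.2) (fun x hx => ?_) (fun r hr => ?_)
      (mans_bool b.1.1.2 (Fc.le_iff.1 h1))
    · obtain ⟨-, a2, a3⟩ := al2_lt.1 hx.1
      obtain ⟨-, b2, b3⟩ := al2_lt.1 hx.2
      have e2 : a.1.2 = x.1.2 := al0_antisymm a2 (e ▸ b2)
      exact ⟨e2.symm, a3.resolve_right fun k => k e2, b3.resolve_right fun k => k (e2 ▸ e)⟩
    · have r1 : a.1.1 < r := hr.1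
      have r2 : r < b.1.1 := hr.2
      exact ⟨⟨(r, a.1.2), al2_up a.2 r1.le⟩, ⟨al2_lt.2 ⟨r1.le, Or.inl rfl, Or.inl r1⟩,
        al2_lt.2 ⟨r2.le, Or.inl e, Or.inl r2⟩⟩, rfl⟩
  · obtain ⟨he, hk⟩ := h2.resolve_left e
    have ho : ¬ Even b.1.2 := by
      rw [Int.even_iff] at he ⊢
      omega
    have h2t := al2_two hp a.2 he
    have e1 : spRk b - spRk a - 1 = b.1.1.1.card - a.1.1.1.card := by
      unfold spRk
      rw [if_pos he, if_neg ho]
      omega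
    have m1 : ∀ r (r1 : a.1.1 < r), r ≤ b.1.1 →
        (⟨(r, a.1.2), al2_up a.2 r1.le⟩ : SP G pos) ∈ {z | a < z ∧ z < b} := fun r r1 r2 =>
      ⟨al2_lt.2 ⟨r1.le, Or.inl rfl, Or.inl r1⟩, al2_lt.2 ⟨r2, h2, Or.inr e⟩⟩
    have m2 : ∀ r (r1 : a.1.1 ≤ r), r < b.1.1 →
        (⟨(r, b.1.2), al2_up (al2_zle hp a.2 h2) r1⟩ : SP G pos) ∈ {z | a < z ∧ z < b} :=
      fun r r1 r2 => ⟨al2_lt.2 ⟨r1, h2, Or.inr e⟩, al2_lt.2 ⟨r2.le, Or.inl rfl, Or.inl r2⟩⟩
    have cs : ∀ z ∈ {z | a < z ∧ z < b}, a.1.1 ≤ z.1.1 ∧ z.1.1 ≤ b.1.1 ∧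
        ((z.1.2 = a.1.2 ∧ a.1.1 < z.1.1) ∨ (z.1.2 = b.1.2 ∧ z.1.1 < b.1.1)) := fun z hz => by
      obtain ⟨a1, a2, a3⟩ := al2_lt.1 hz.1
      obtain ⟨b1, b2, b3⟩ := al2_lt.1 hz.2
      refine ⟨a1, b1, ?_⟩
      by_cases k : a.1.2 = z.1.2
      · exact Or.inl ⟨k.symm, a3.resolve_right fun k' => k' k⟩
      · have k' : z.1.2 = b.1.2 := by
          unfold zle at a2 b2
          simp only [Int.even_iff] at a2 b2
          omega
        exact Or.inr ⟨k', b3.resolve_right fun k'' => k'' k'⟩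
    rw [e1]
    have hlt : 1 ≤ b.1.1.1.card - a.1.1.1.card → a.1.1 < b.1.1 := fun hn =>
      lt_of_le_of_ne h1 fun k => by rw [k] at hn; omega
    refine ⟨fun hn => ?_, fun hn => ?_⟩
    · have l := hlt hn.ge
      refine Set.ncard_eq_two.2 ⟨⟨(b.1.1, a.1.2), al2_up a.2 h1⟩,
        ⟨(a.1.1, b.1.2), al2_zle hp a.2 h2⟩, fun k => e (congrArg (fun x => x.1.2) k), ?_⟩
      ext z
      constructor
      · intro hz
        obtain ⟨c1, c2, ⟨c3, c4⟩ | ⟨c3, c4⟩⟩ := cs z hz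
        · have := Finset.card_lt_card (mans_lt.1 c4)
          exact Or.inl (al2_ext (al2_card (t := b.1.1) c2 (by omega)) c3)
        · have := Finset.card_lt_card (mans_lt.1 c4)
          exact Or.inr (al2_ext (al2_card (s := a.1.1) c1 (by omega)).symm c3)
      · rintro (rfl | rfl)
        · exact m1 _ l le_rfl
        · exact m2 _ le_rfl l
    · have l := hlt (by omega)
      obtain ⟨x, hx, hx'⟩ := Finset.exists_of_ssubset (mans_lt.1 l)
      let r : Fc G := ⟨insert x a.1.1.1, mans_sub b.1.1.2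
        (Finset.insert_subset hx (Fc.le_iff.1 h1)) (Finset.insert_nonempty _ _)⟩
      have r1 : a.1.1 < r := mans_lt.2 (Finset.ssubset_insert hx')
      have r2 : r < b.1.1 := lt_of_le_of_ne (Finset.insert_subset hx (Fc.le_iff.1 h1)) fun k => by
        have : (insert x a.1.1.1).card = b.1.1.1.card := congrArg (fun y : Fc G => y.1.card) k
        rw [Finset.card_insert_of_notMem hx'] at this
        omega
      refine ⟨⟨_, m1 _ l le_rfl⟩, conn_of_base ⟨(b.1.1, a.1.2), al2_up a.2 h1⟩ fun z hz => ?_⟩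
      obtain ⟨c1, c2, ⟨c3, -⟩ | ⟨c3, -⟩⟩ := cs z hz
      · exact al2_le hz (m1 _ l le_rfl) c2 (Or.inl c3)
      · exact (((rch_symm (al2_le (m2 _ le_rfl l) hz c1 (Or.inl c3.symm))).trans
          (al2_le (m2 _ le_rfl l) (m2 r r1.le r2) r1.le (Or.inl rfl))).trans
          (rch_symm (al2_le (m1 r r1 r2.le) (m2 r r1.le r2) le_rfl h2))).trans
          (al2_le (m1 r r1 r2.le) (m1 _ l le_rfl) r2.le (Or.inl rfl))

theorem al2_top {G : Cx V} {pos : V → ℤ} (hp : PosOK pos) (h : PMan G Set.univ) (a : SP G pos) :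
    Itv {z | a < z} (3 - spRk a) := by
  have hm : ∀ s : Fc G, Meets s.1 Set.univ := fun s => s.2.1.imp fun _ hv => ⟨hv, trivial⟩
  have ht := mans_top h a.1.1 (hm _)
  by_cases he : Even a.1.2
  · have h2 := al2_two hp a.2 he
    have h4 : ∀ s : Fc G, s.1.card ≤ 4 := fun s => h.dim _ s.2 (hm s)
    have z1 : zle a.1.2 (a.1.2 + 1) := Or.inr ⟨he, Or.inl rfl⟩
    have z2 : zle a.1.2 (a.1.2 - 1) := Or.inr ⟨he, Or.inr rfl⟩
    have m0 : ∀ r (r1 : a.1.1 < r), (⟨(r, a.1.2), al2_up a.2 r1.le⟩ : SP G pos) ∈ {z | a < z} :=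
      fun r r1 => al2_lt.2 ⟨r1.le, Or.inl rfl, Or.inl r1⟩
    have m1 : ∀ r (r1 : a.1.1 ≤ r),
        (⟨(r, a.1.2 + 1), al2_up (al2_zle hp a.2 z1) r1⟩ : SP G pos) ∈ {z | a < z} :=
      fun r r1 => al2_lt.2 ⟨r1, z1, Or.inr (lt_add_one _).ne⟩
    have m2 : ∀ r (r1 : a.1.1 ≤ r),
        (⟨(r, a.1.2 - 1), al2_up (al2_zle hp a.2 z2) r1⟩ : SP G pos) ∈ {z | a < z} :=
      fun r r1 => al2_lt.2 ⟨r1, z2, Or.inr (sub_one_lt _).ne'⟩
    have cs : ∀ z ∈ {z | a < z}, a.1.1 ≤ z.1.1 ∧ ((z.1.2 = a.1.2 ∧ a.1.1 < z.1.1) ∨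
        z.1.2 = a.1.2 + 1 ∨ z.1.2 = a.1.2 - 1) := fun z hz => by
      obtain ⟨a1, a2, a3⟩ := al2_lt.1 hz
      refine ⟨a1, ?_⟩
      rcases a2 with k | k
      · exact Or.inl ⟨k.symm, a3.resolve_right fun k' => k' k⟩
      · exact Or.inr k.2
    unfold spRk
    rw [if_pos he]
    refine ⟨fun hn => ?_, fun hn => ?_⟩
    · refine Set.ncard_eq_two.2 ⟨⟨(a.1.1, a.1.2 + 1), al2_zle hp a.2 z1⟩,
        ⟨(a.1.1, a.1.2 - 1), al2_zle hp a.2 z2⟩, fun k => ?_, ?_⟩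
      · have : a.1.2 + 1 = a.1.2 - 1 := congrArg (fun x : SP G pos => x.1.2) k
        omega
      · ext z
        constructor
        · intro hz
          have c0 := h4 z.1.1
          obtain ⟨c1, ⟨-, c3⟩ | c3 | c3⟩ := cs z hz
          · have := Finset.card_lt_card (mans_lt.1 c3)
            omega
          · exact Or.inl (al2_ext (al2_card c1 (by omega)).symm c3)
          · exact Or.inr (al2_ext (al2_card c1 (by omega)).symm c3)
        · rintro (rfl | rfl)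
          · exact m1 _ le_rfl
          · exact m2 _ le_rfl
    · obtain ⟨r, r1⟩ : {z : Fc G | a.1.1 < z}.Nonempty := by
        by_cases k : 3 - (a.1.1.1.card - 1) = 1
        · exact Set.nonempty_of_ncard_ne_zero (by rw [ht.1 k]; norm_num)
        · exact (ht.2 (by omega)).1
      have r1 : a.1.1 < r := r1
      refine ⟨⟨_, m1 _ le_rfl⟩, conn_of_base ⟨(a.1.1, a.1.2 + 1), al2_zle hp a.2 z1⟩ fun z hz => ?_⟩
      obtain ⟨c1, ⟨c2, -⟩ | c2 | c2⟩ := cs z hz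
      · exact (al2_le hz (m1 _ c1) le_rfl (by rw [c2]; exact z1)).trans
          (rch_symm (al2_le (m1 _ le_rfl) (m1 _ c1) c1 (Or.inl rfl)))
      · exact rch_symm (al2_le (m1 _ le_rfl) hz c1 (Or.inl c2.symm))
      · exact ((((rch_symm (al2_le (m2 _ le_rfl) hz c1 (Or.inl c2.symm))).trans
          (al2_le (m2 _ le_rfl) (m2 r r1.le) r1.le (Or.inl rfl))).trans
          (rch_symm (al2_le (m0 r r1) (m2 r r1.le) le_rfl z2))).trans
          (al2_le (m0 r r1) (m1 r r1.le) le_rfl z1)).trans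
          (rch_symm (al2_le (m1 _ le_rfl) (m1 r r1.le) r1.le (Or.inl rfl)))
  · unfold spRk
    rw [if_neg he]
    refine al2_layer (j := a.1.2) (fun x hx => ?_) (fun r hr => ?_) ht
    · obtain ⟨-, a2, a3⟩ := al2_lt.1 hx
      have e : a.1.2 = x.1.2 := a2.resolve_right fun k => he k.1
      exact ⟨e.symm, a3.resolve_right fun k => k e⟩
    · have r1 : a.1.1 < r := hr
      exact ⟨⟨(r, a.1.2), al2_up a.2 r1.le⟩, al2_lt.2 ⟨r1.le, Or.inl rfl, Or.inl r1⟩, rfl⟩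

theorem al2_gp {G : Cx V} {pos : V → ℤ} (hp : PosOK pos) (h : PMan G Set.univ) :
    GP (spRk (G := G) (pos := pos)) Set.univ := by
  have h4 : ∀ s : Fc G, s.1.card ≤ 4 := fun s =>
    h.dim _ s.2 (s.2.1.imp fun _ hv => ⟨hv, trivial⟩)
  refine ⟨sp_mono hp, fun u _ => ?_, fun _ _ _ _ => trivial, fun _ _ b _ => sp_low hp b (h4 _),
    fun _ _ _ _ _ hab => al2_mid hp hab, fun a _ => al2_top hp h a⟩
  have := h4 u.1.1
  unfold spRk
  split_ifs <;> omega

theorem sp_man [Fintype V] {G : Cx V} {pos : V → ℤ} (hp : PosOK pos) (h : Man G Set.univ) :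
    Man (ord (SP G pos)) Set.univ := by
  refine man_of_chi (al2_gp hp h.toPMan).pman ?_
  rw [(sp_contr G pos).chi, ← up_univ, chi_up, h.chi_zero]

theorem sp_s3 [Fintype V] {G : Cx V} {pos : V → ℤ} (hp : PosOK pos) (h : S3 G) :
    S3 (ord (SP G pos)) := S3.of_contr (sp_contr G pos) (sp_man hp h.man) h.sd

end KG
end
end

-- merged part: Pool.Agent.Work.MP_c146e2_gt.KG.Al8
section
set_option autoImplicit false

noncomputable section

open scoped Classical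

namespace KG

variable {V V' : Type}

variable [Fintype V] {G : Cx V} {Z : Set V} {ht : V → ℕ} {n : ℕ} {h : ℕ → V}

theorem al8_dp {s : Fc G} {j : ℤ} (hv : Val (psn G ht) s j) (hs : Rt n h s) :
    dp G Z ht n h s j = 0 := dep_root (R := {t | Rt n h t ∧ Val (psn G ht) t j}) ⟨hs, hv⟩

theorem al8_ok (hm : Man G Set.univ) (hh : Hgt G Z ht n h) :
    DepOK (ord (SP G (psn G ht))) Set.univ (fun x => Y2 G Z ht n h 0 x.1.1 x.1.2)
      (lay (psn G ht) fun t _ => Rt n h t) := by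
  refine ⟨Set.subset_univ _, fun x hx => ?_, fun x _ => ?_⟩
  · unfold Y2
    rw [al8_dp x.2 hx, Nat.zero_min]
    exact Even.zero
  · exact ⟨⟨(⟨{h 0}, clq_single G _⟩, psn G ht (h 0)), ⟨h 0, Finset.mem_singleton_self _, le_rfl⟩,
      h 0, Finset.mem_singleton_self _, le_rfl⟩, ⟨0, n.zero_le, Or.inl rfl⟩,
      (sp_s3 (psn_ok hh) (hh.s3 hm)).conn _ trivial _ trivial⟩

theorem al8_eq {s : Fc G} {j : ℤ} (hv : Val (psn G ht) s j) : D3 G Z ht n h s j =
    dep (ord (SP G (psn G ht))) Set.univ (fun x => Y2 G Z ht n h 0 x.1.1 x.1.2)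
      (lay (psn G ht) fun t _ => Rt n h t) ⟨(s, j), hv⟩ := dif_pos hv

theorem al8_root {s : Fc G} {j : ℤ} (hv : Val (psn G ht) s j) (hs : Rt n h s) :
    D3 G Z ht n h s j = 0 := (al8_eq hv).trans (dep_root hs)

omit [Fintype V] in
theorem al8_near {s s' : Fc G} {j j' : ℤ} (ha : adjL s j s' j') :
    (sd G).r s s' ∧ j - j' ≤ 1 ∧ j' - j ≤ 1 := by
  rcases ha with ⟨h1, h2⟩ | ⟨h1, h2⟩
  · exact ⟨Or.inl h1, by unfold zle at h2; omega⟩
  · exact ⟨Or.inr h1, by unfold zle at h2; omega⟩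

theorem al8_kp (G : Cx V) {j j' : ℤ} (h1 : j - j' ≤ 1) (h2 : j' - j ≤ 1) :
    kp G j' ≤ kp G j + 1 ∧ (cen G j = cen G j' ∨ kp G j = 0 ∨ kp G j' = 0) := by
  obtain ⟨⟨a, ha⟩, h3, h4⟩ := (cen_iff G j _).1 rfl
  obtain ⟨⟨b, hb⟩, h5, h6⟩ := (cen_iff G j' _).1 rfl
  have hM : (0 : ℤ) ≤ 2 * (MM G : ℤ) := by omega
  have key : cen G j = cen G j' ∨ cen G j + 2 * MM G ≤ cen G j' ∨ cen G j' + 2 * MM G ≤ cen G j := by
    rcases lt_trichotomy a b with e | e | e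
    · have := mul_le_mul_of_nonneg_left (Int.add_one_le_of_lt e) hM
      exact Or.inr (Or.inl (by linarith))
    · exact Or.inl (by rw [ha, hb, e])
    · have := mul_le_mul_of_nonneg_left (Int.add_one_le_of_lt e) hM
      exact Or.inr (Or.inr (by linarith))
  unfold kp
  clear ha hb
  omega

theorem d3_adj (hm : Man G Set.univ) (hh : Hgt G Z ht n h) {s s' : Fc G} {j j' : ℤ}
    (hv : Val (psn G ht) s j) (hv' : Val (psn G ht) s' j') (ha : adjL s j s' j') :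
    D3 G Z ht n h s' j' ≤ D3 G Z ht n h s j + 1 ∧
      ((Y2 G Z ht n h 0 s j ↔ Y2 G Z ht n h 0 s' j') → D3 G Z ht n h s j = D3 G Z ht n h s' j') := by
  rw [al8_eq hv, al8_eq hv']
  exact ⟨(al8_ok hm hh).adj trivial trivial ha,
    (al8_ok hm hh).same (x := ⟨(s, j), hv⟩) (y := ⟨(s', j'), hv'⟩) trivial trivial ha⟩

theorem d3_par (hm : Man G Set.univ) (hh : Hgt G Z ht n h) {s : Fc G} {j : ℤ}
    (hv : Val (psn G ht) s j) : Y2 G Z ht n h 0 s j ↔ Even (D3 G Z ht n h s j) := by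
  rw [al8_eq hv]
  exact (al8_ok hm hh).par (x := ⟨(s, j), hv⟩) trivial

theorem d3_mid (hm : Man G Set.univ) (hh : Hgt G Z ht n h) (s : Fc G) {j : ℤ} (hj : kp G j = 0) :
    D3 G Z ht n h s j = 0 := by
  by_cases hv : Val (psn G ht) s j
  · have hY : ∀ t, Y2 G Z ht n h 0 t j := fun t => by
      unfold Y2
      rw [hj, Nat.max_self, Nat.min_zero]
      exact Even.zero
    obtain ⟨y, hy, hr⟩ := (depok hm hh j).rch s hv
    rw [← rch_const (f := fun t => D3 G Z ht n h t j) (fun a ha b hb hab => ?_) hr]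
    · exact al8_root hy.2 hy.1
    · exact (d3_adj hm hh ha hb (hab.imp (fun e => ⟨e, Or.inl rfl⟩) fun e => ⟨e, Or.inl rfl⟩)).2
        (iff_of_true (hY a) (hY b))
  · exact dif_neg hv

theorem d3_ge (hm : Man G Set.univ) (hh : Hgt G Z ht n h) {E : Fc G → ℤ → Prop}
    (hR : ∀ s j, Val (psn G ht) s j → E s j → ¬ Rt n h s) {d : ℕ}
    (hd : ∀ s j s' j', Val (psn G ht) s j → E s j → Val (psn G ht) s' j' → ¬ E s' j' →
      adjL s j s' j' → d ≤ D3 G Z ht n h s' j') :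
    ∀ s j, Val (psn G ht) s j → E s j → d ≤ D3 G Z ht n h s j := by
  intro s j hv hE
  rw [al8_eq hv]
  refine (al8_ok hm hh).ge (E := lay (psn G ht) E) (Set.subset_univ _)
    (Set.disjoint_right.2 fun x hx => hR _ _ x.2 hx) (fun x hx y hy hxy => ?_) _ hE
  exact (hd _ _ _ _ x.2 hx y.2 hy.2 hxy).trans_eq (al8_eq y.2)

theorem phi_adj (hm : Man G Set.univ) (hh : Hgt G Z ht n h) {s s' : Fc G} {j j' : ℤ}
    (hv : Val (psn G ht) s j) (hv' : Val (psn G ht) s' j') (ha : adjL s j s' j') :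
    PhiA G Z ht n h s' j' ≤ PhiA G Z ht n h s j + 1 := by
  obtain ⟨h1, h2, h3⟩ := al8_near ha
  obtain ⟨h4, h5⟩ := al8_kp G h2 h3
  have h6 := (d3_adj hm hh hv hv' ha).1
  rcases h5 with e | e | e
  · unfold PhiA
    rw [← e]
    split_ifs with h7
    · exact h6
    · obtain ⟨v, h8⟩ : ∃ v, psn G ht v = cen G j := by
        by_contra h9
        exact h7 fun v h10 => h9 ⟨v, h10⟩
      obtain ⟨-, b1, b2⟩ := (cen_iff G j _).1 h8.symm
      obtain ⟨-, b3, b4⟩ := (cen_iff G j' _).1 (h8.trans e).symm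
      obtain ⟨c1, c2⟩ := (vslab hm hh v).1 s j (abs_lt.2 ⟨by omega, by omega⟩) hv
      obtain ⟨c3, c4⟩ := (vslab hm hh v).1 s' j' (abs_lt.2 ⟨by omega, by omega⟩) hv'
      have c5 : dp G Z ht n h s' (psn G ht v) ≤ dp G Z ht n h s (psn G ht v) + 1 :=
        (depok hm hh (psn G ht v)).adj c1 c3 h1
      omega
  · rw [d3_mid hm hh s e] at h6
    have h7 : PhiA G Z ht n h s' j' ≤ 1 := by
      unfold PhiA
      split_ifs
      · exact h6
      · omega
    omega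
  · have h7 := d3_mid hm hh s' e
    have h8 : PhiA G Z ht n h s' j' = 0 := by
      unfold PhiA
      split_ifs
      · exact h7
      · omega
    omega

theorem phi_par (hm : Man G Set.univ) (hh : Hgt G Z ht n h) {s : Fc G} {j : ℤ}
    (hv : Val (psn G ht) s j) : Y2 G Z ht n h 0 s j ↔ Even (PhiA G Z ht n h s j) := by
  unfold PhiA
  split_ifs
  · exact d3_par hm hh hv
  · unfold Y2
    rw [Nat.max_zero]

theorem phi_zero (hm : Man G Set.univ) (hh : Hgt G Z ht n h) {s : Fc G} {j : ℤ}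
    (hv : Val (psn G ht) s j) (h0 : kp G j = 0 ∨ Rt n h s) : PhiA G Z ht n h s j = 0 := by
  unfold PhiA
  split_ifs
  · exact h0.elim (d3_mid hm hh s) (al8_root hv)
  · rcases h0 with e | e
    · rw [e, Nat.min_zero]
    · rw [al8_dp hv e, Nat.zero_min]

end KG
end
end

-- merged part: Pool.Agent.Work.MP_c146e2_gt.KG.Al9
section
set_option autoImplicit false

noncomputable section

open scoped Classical

namespace KG

variable {V V' : Type}

variable [Fintype V] {G : Cx V} {Z : Set V} {ht : V → ℕ} {n : ℕ} {h : ℕ → V}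

omit [Fintype V] in
theorem al9_hor {s s' : Fc G} (r : (sd G).r s s') (j : ℤ) : adjL s j s' j :=
  r.imp (fun x => ⟨x, Or.inl rfl⟩) fun x => ⟨x, Or.inl rfl⟩

omit [Fintype V] in
theorem al9_vert (s : Fc G) (j : ℤ) {d : ℤ} (hd : d = 1 ∨ d = -1) : adjL s j s (j + d) := by
  simp only [adjL, zle, le_refl, true_and, Int.even_iff]
  omega

omit [Fintype V] in
theorem al9_adj {s s' : Fc G} {j j' : ℤ} (h : adjL s j s' j') :
    (sd G).r s s' ∧ j' ≤ j + 1 ∧ j ≤ j' + 1 := by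
  unfold adjL zle at h
  exact ⟨h.imp And.left And.left, by omega, by omega⟩

theorem al9_zone {a c d j : ℤ} (hc : c = 1 + 2 * (MM G : ℤ) * a) (hd : d = 1 ∨ d = -1)
    (h1 : 0 < d * (c - j)) (h2 : d * (c - j) < 2 * MM G) (s : Fc G) :
    NV (psn G ht) j ∧ (Val (psn G ht) s j ↔ Val (psn G ht) s (c - d)) ∧
      dp G Z ht n h s j = dp G Z ht n h s (c - d) := by
  have hM : 3 ≤ MM G := by unfold MM; omega
  rcases hd with rfl | rfl
  · have := zone (G := G) (Z := Z) (ht := ht) (n := n) (h := h) (a := a - 1) (j := j) (j' := c - 1)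
      (by linarith) (by linarith) (by linarith) (by linarith) s
    exact ⟨this.1, this.2.1, this.2.2.2⟩
  · have := zone (G := G) (Z := Z) (ht := ht) (n := n) (h := h) (a := a) (j := j) (j' := c - -1)
      (by linarith) (by linarith) (by linarith) (by linarith) s
    exact ⟨this.1, this.2.1, this.2.2.2⟩

theorem al9_nv (h : ℕ → V) {a c d : ℤ} (hc : c = 1 + 2 * (MM G : ℤ) * a) (hd : d = 1 ∨ d = -1) (s : Fc G) :
    NV (psn G ht) (c - d) := by
  have hM : 3 ≤ MM G := by unfold MM; omega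
  exact (al9_zone (Z := ∅) (n := 0) (h := h) hc hd (by rcases hd with rfl | rfl <;> omega)
    (by rcases hd with rfl | rfl <;> omega) s).1

theorem al9_val (h : ℕ → V) {a c j : ℤ} (hc : c = 1 + 2 * (MM G : ℤ) * a) (hv : NV (psn G ht) c)
    (hj : |j - c| < 2 * MM G) (s : Fc G) : Val (psn G ht) s j ↔ Val (psn G ht) s c := by
  obtain ⟨d, hd, h1⟩ := mslab (Z := ∅) (n := 0) (h := h) hc hv
  rw [abs_lt] at hj
  rcases lt_trichotomy (d * (c - j)) 0 with x | x | x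
  · rw [(h1 s).1, ← sub_neg_eq_add]
    exact (al9_zone (Z := ∅) (n := 0) (h := h) hc (by omega) (by linarith)
      (by rcases hd with rfl | rfl <;> omega) s).2.1
  · rw [show j = c by rcases hd with rfl | rfl <;> omega]
  · rw [(h1 s).2.1]
    exact (al9_zone (Z := ∅) (n := 0) (h := h) hc hd x (by rcases hd with rfl | rfl <;> omega) s).2.1

theorem al9_kp {a c j : ℤ} (hc : c = 1 + 2 * (MM G : ℤ) * a) (hj : |j - c| ≤ MM G) :
    (kp G j : ℤ) = MM G - |j - c| := by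
  rw [abs_le] at hj
  unfold kp
  by_cases x : j - c < MM G
  · rw [(cen_iff G j c).2 ⟨⟨a, hc⟩, hj.1, x⟩, Int.abs_eq_natAbs]
    omega
  · rw [(cen_iff G j (c + 2 * MM G)).2 ⟨⟨a + 1, by linarith⟩, by omega, by
      have hM : 3 ≤ MM G := by unfold MM; omega
      omega⟩, Int.abs_eq_natAbs]
    omega

theorem al9_near {a c d j : ℤ} (hc : c = 1 + 2 * (MM G : ℤ) * a) (hd : d = 1 ∨ d = -1) {k : ℕ}
    (hk : k < MM G) (hj : j = c - d * ((MM G : ℤ) - k)) {s : Fc G} :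
    Y2 G Z ht n h 0 s j ↔ Even (min (dp G Z ht n h s (c - d)) k) := by
  have h1 : |j - c| = (MM G : ℤ) - k := by
    rw [Int.abs_eq_natAbs]
    rcases hd with rfl | rfl <;> omega
  have h2 := al9_kp hc (j := j) (by omega)
  rw [Y2, Nat.max_zero, show kp G j = k by omega, (al9_zone hc hd
    (by rcases hd with rfl | rfl <;> omega) (by rcases hd with rfl | rfl <;> omega) s).2.2]

theorem al9_far {a c d j : ℤ} (hc : c = 1 + 2 * (MM G : ℤ) * a) (hd : d = 1 ∨ d = -1) {k : ℕ}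
    (hk : k < MM G) (hj : j = c + d * ((MM G : ℤ) - k)) {s : Fc G} :
    Y2 G Z ht n h 0 s j ↔ Even (min (dp G Z ht n h s (c + d)) k) := by
  rw [al9_near hc (d := -d) (by omega) hk (by linarith), sub_neg_eq_add]

theorem al9_lt (hm : Man G Set.univ) (hh : Hgt G Z ht n h) {s : Fc G} {j : ℤ}
    (hs : Val (psn G ht) s j) : dp G Z ht n h s j + 2 < MM G := by
  have : dp G Z ht n h s j < _ := (depok hm hh j).lt hs
  unfold MM
  omega

theorem al9_cen (hm : Man G Set.univ) (hh : Hgt G Z ht n h) {a c d : ℤ}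
    (hc : c = 1 + 2 * (MM G : ℤ) * a) (hv : NV (psn G ht) c) (hd : d = 1 ∨ d = -1) {s : Fc G}
    (hs : Val (psn G ht) s c) : (Y2 G Z ht n h 0 s c ↔ Even (dp G Z ht n h s (c - d))) ∨
      (Y2 G Z ht n h 0 s c ↔ Even (dp G Z ht n h s (c + d))) := by
  obtain ⟨d', hd', h1⟩ := mslab (Z := Z) (n := n) (h := h) hc hv
  have h2 := al9_kp hc (j := c) (by simp)
  have h3 := al9_lt hm hh hs
  rw [sub_self, abs_zero] at h2
  rw [Y2, Nat.max_zero, min_eq_left (by omega), (h1 s).2.2.2]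
  rcases (by omega : d' = -d ∨ d' = d) with rfl | rfl
  · exact Or.inl (by rw [sub_eq_add_neg])
  · exact Or.inr Iff.rfl

theorem al9_column (hm : Man G Set.univ) (hh : Hgt G Z ht n h) {a c d : ℤ}
    (hc : c = 1 + 2 * (MM G : ℤ) * a) (hv : NV (psn G ht) c) (hd : d = 1 ∨ d = -1) {s : Fc G}
    (hs : Val (psn G ht) s c) {k m : ℕ} (hk : dp G Z ht n h s (c - d) = k)
    (hm' : dp G Z ht n h s (c + d) = m) (hp : Even k ↔ Even m) {j : ℤ}
    (h1 : -((MM G : ℤ) - k) ≤ d * (j - c)) (h2 : d * (j - c) ≤ (MM G : ℤ) - m) :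
    D3 G Z ht n h s (c - d * ((MM G : ℤ) - k)) = D3 G Z ht n h s j := by
  have hM : 3 ≤ MM G := by unfold MM; omega
  have col : ∀ j, -((MM G : ℤ) - k) ≤ d * (j - c) → d * (j - c) ≤ (MM G : ℤ) - m →
      Val (psn G ht) s j ∧ (Y2 G Z ht n h 0 s j ↔ Even k) := fun j h1 h2 => by
    refine ⟨(al9_val h hc hv
      (by rw [abs_lt]; rcases hd with rfl | rfl <;> omega) s).2 hs, ?_⟩
    rcases lt_trichotomy (d * (j - c)) 0 with x | x | x
    · rw [al9_near hc hd (k := (MM G + d * (j - c)).toNat) (by omega)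
        (by rcases hd with rfl | rfl <;> omega), hk, min_eq_left (by omega)]
    · rw [show j = c by rcases hd with rfl | rfl <;> omega]
      rcases al9_cen hm hh hc hv hd hs with y | y
      · rw [y, hk]
      · rw [y, hm', hp]
    · rw [al9_far hc hd (k := (MM G - d * (j - c)).toNat) (by omega)
        (by rcases hd with rfl | rfl <;> omega), hm', min_eq_left (by omega), hp]
  obtain ⟨i, hi⟩ : ∃ i : ℕ, j = c - d * ((MM G : ℤ) - k) + d * i :=
    ⟨(d * (j - c) + ((MM G : ℤ) - k)).toNat, by rcases hd with rfl | rfl <;> omega⟩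
  subst hi
  induction i with
  | zero => simp
  | succ i ih =>
    have x1 : -((MM G : ℤ) - k) ≤ d * (c - d * ((MM G : ℤ) - k) + d * i - c) := by
      rcases hd with rfl | rfl <;> omega
    have x2 : d * (c - d * ((MM G : ℤ) - k) + d * i - c) ≤ (MM G : ℤ) - m := by
      rcases hd with rfl | rfl <;> omega
    refine (ih x1 x2).trans ((d3_adj hm hh (col _ x1 x2).1 (col _ h1 h2).1 ?_).2
      ((col _ x1 x2).2.trans (col _ h1 h2).2.symm))
    convert al9_vert s _ hd using 1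
    push_cast
    ring

theorem enclose (hm : Man G Set.univ) (hh : Hgt G Z ht n h) {a c d : ℤ}
    (hc : c = 1 + 2 * (MM G : ℤ) * a) (hv : NV (psn G ht) c) (hd : d = 1 ∨ d = -1) {P : Prop}
    (hinc : ∀ t, (Y1 G Z ht t (c - d) ↔ P) → (Y1 G Z ht t (c + d) ↔ P)) {k : ℕ} (hk : Even k ↔ P)
    {s : Fc G} (hs : Val (psn G ht) s c) (hf : k < dp G Z ht n h s (c - d)) :
    D3 G Z ht n h s (c - d * ((MM G : ℤ) - k)) <
      D3 G Z ht n h s (c - d * ((MM G : ℤ) - (k + 1))) := by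
  have hM : 3 ≤ MM G := by unfold MM; omega
  have v1 : ∀ t j, |j - c| ≤ MM G → (Val (psn G ht) t j ↔ Val (psn G ht) t c) := fun t j hj =>
    al9_val h hc hv (by omega) t
  have a1 : |c - d - c| ≤ MM G := by rcases hd with rfl | rfl <;> simp <;> omega
  have a2 : |c + d - c| ≤ MM G := by rcases hd with rfl | rfl <;> simp <;> omega
  obtain ⟨W, hW⟩ : ∃ W, W = WL G (psn G ht) c := ⟨_, rfl⟩
  have mW : ∀ t, t ∈ W ↔ Val (psn G ht) t c := fun t => by rw [hW]; rfl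
  have w1 : WL G (psn G ht) (c - d) = W := Set.ext fun t => (v1 t _ a1).trans (mW t).symm
  have w2 : WL G (psn G ht) (c + d) = W := Set.ext fun t => (v1 t _ a2).trans (mW t).symm
  have D1 := depok hm hh (c - d)
  have D2 := depok hm hh (c + d)
  obtain ⟨-, H, -, hr⟩ := layer hm hh (j := c - d) (al9_nv h hc hd s)
  obtain ⟨r, hr⟩ := hr ⟨s, (v1 s _ a1).2 hs⟩
  obtain ⟨f, hf'⟩ : ∃ f, f = fun t => dp G Z ht n h t (c - d) := ⟨_, rfl⟩
  obtain ⟨g, hg'⟩ : ∃ g, g = fun t => dp G Z ht n h t (c + d) := ⟨_, rfl⟩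
  have ef : ∀ t, dp G Z ht n h t (c - d) = f t := fun t => by rw [hf']
  have eg : ∀ t, dp G Z ht n h t (c + d) = g t := fun t => by rw [hg']
  have lf : ∀ t ∈ W, f t + 2 < MM G := fun t hs => ef t ▸ al9_lt hm hh ((v1 t _ a1).2 ((mW t).1 hs))
  have lg : ∀ t ∈ W, g t + 2 < MM G := fun t hs => eg t ▸ al9_lt hm hh ((v1 t _ a2).2 ((mW t).1 hs))
  have f0 : ∀ t ∈ W, Rt n h t → f t = 0 := fun t h1 h2 =>
    (ef t).symm.trans (dep_root ⟨h2, (v1 t _ a1).2 ((mW t).1 h1)⟩)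
  have fa : ∀ x ∈ W, ∀ y ∈ W, (sd G).r x y → f y ≤ f x + 1 := fun x hx y hy r =>
    ef x ▸ ef y ▸ D1.adj (w1 ▸ hx) (w1 ▸ hy) r
  have gp : ∀ x ∈ W, f x = k → (Y1 G Z ht x (c + d) ↔ P) := fun x hx e =>
    hinc x ((D1.par (w1 ▸ hx)).trans (by rw [← hk, ← e, ← ef]; rfl))
  have sW : s ∈ W := (mW s).2 hs
  rw [ef] at hf
  obtain ⟨Q, hQ⟩ : ∃ Q, Q = {t | Rch (sd G) {w | w ∈ W ∧ k < f w} s t} := ⟨_, rfl⟩
  have mQ : ∀ t, t ∈ Q ↔ Rch (sd G) {w | w ∈ W ∧ k < f w} s t := fun t => by rw [hQ]; rfl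
  have sQ : s ∈ Q := (mQ s).2 Relation.ReflTransGen.refl
  have q1 : ∀ t ∈ Q, t ∈ W ∧ k < f t := fun t hq =>
    rch_mem (S := {w | w ∈ W ∧ k < f w}) ((mQ t).1 hq) ⟨sW, hf⟩
  have q2 : ∀ x ∈ Q, ∀ y ∈ W, (sd G).r x y → y ∉ Q → f y = k := fun x hx y hy r hn => by
    have h1 := fa y hy x (q1 x hx).1 ((sd G).symm _ _ r)
    have h2 := (q1 x hx).2
    have h3 : ¬ k < f y := fun h3 => hn ((mQ y).2 (((mQ x).1 hx).tail ⟨q1 x hx, ⟨hy, h3⟩, r⟩))
    omega
  obtain ⟨x0, hx0, y0, hy0, r0, n0⟩ : ∃ x ∈ Q, ∃ y ∈ W, (sd G).r x y ∧ y ∉ Q := by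
    obtain ⟨y, -, h2, h3⟩ := D1.down (e := k) (w1 ▸ sW) (hf.le.trans (ef s).ge)
    by_contra hn
    have : y ∈ Q := by
      clear h2
      induction h3 with
      | refl => exact sQ
      | tail _ st ih => exact by_contra fun x => hn ⟨_, ih, _, w1 ▸ st.2.1.1, st.2.2, x⟩
    exact (q1 y this).2.ne' ((ef y).symm.trans h2)
  have q3 : ∀ x ∈ Q, ∀ y ∈ W, (sd G).r x y → y ∉ Q → g y = g y0 := fun x hx y hy r' hn => by
    have e : ∀ t, dep (sd G) W (fun t => Y1 G Z ht t (c - d)) {r} t = f t := fun t => by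
      rw [← ef, ← hr, ← w1]; rfl
    have D := D1
    rw [hr, w1] at D
    have := D.nbr (e := k) (a := x) (a' := x0) (w1 ▸ H) (q1 x hx).1 (e x ▸ (q1 x hx).2)
      (by simp only [e]; exact (rch_symm ((mQ x).1 hx)).trans ((mQ x0).1 hx0)) hy hy0
      (e y ▸ (q2 x hx y hy r' hn).le) (e y0 ▸ (q2 x0 hx0 y0 hy0 r0 n0).le) r' r0
    simp only [e] at this
    refine rch_const (fun u hu w hw r => ?_) this
    rw [← eg, ← eg]
    exact D2.same (w2 ▸ hu.1) (w2 ▸ hw.1) r ((gp u hu.1 hu.2).trans (gp w hw.1 hw.2).symm)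
  have c0 : Even (g y0) ↔ P := by
    rw [← gp y0 hy0 (q2 x0 hx0 y0 hy0 r0 n0), ← eg]
    exact (D2.par (w2 ▸ hy0)).symm
  have q4 : ∀ x ∈ Q, g y0 ≤ g x := fun x hx => by
    rw [← eg x]
    refine D2.ge (E := Q) (fun t t1 => w2 ▸ (q1 t t1).1) (Set.disjoint_left.2 fun t t1 t2 => ?_)
      (fun u hu y hy r => ((q3 u hu y (w2 ▸ hy.1) r hy.2).symm.trans (eg y).symm).le) x hx
    exact absurd (f0 t (q1 t t2).1 t1.1 ▸ (q1 t t2).2) (Nat.not_lt_zero k)
  have l1 := lf s sW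
  have l2 := lg y0 hy0
  generalize g y0 = m at q3 c0 q4 l2
  have b1 : |c - d * ((MM G : ℤ) - k) - c| ≤ MM G := by
    rcases hd with rfl | rfl <;> rw [abs_le] <;> omega
  have b2 : |c + d * ((MM G : ℤ) - m) - c| ≤ MM G := by
    rcases hd with rfl | rfl <;> rw [abs_le] <;> omega
  have y1 : ∀ u ∈ W, k ≤ f u → (Y2 G Z ht n h 0 u (c - d * ((MM G : ℤ) - k)) ↔ P) :=
    fun u hu e => by rw [al9_near hc hd (k := k) (by omega) rfl, ef, min_eq_right e, hk]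
  have y2 : ∀ u ∈ W, m ≤ g u → (Y2 G Z ht n h 0 u (c + d * ((MM G : ℤ) - m)) ↔ P) :=
    fun u hu e => by rw [al9_far hc hd (k := m) (by omega) rfl, eg, min_eq_right e, c0]
  have hor : ∀ j, |j - c| ≤ MM G → ∀ x ∈ W, ∀ y ∈ W, (sd G).r x y → (Y2 G Z ht n h 0 x j ↔ P) →
      (Y2 G Z ht n h 0 y j ↔ P) → D3 G Z ht n h x j = D3 G Z ht n h y j :=
    fun j hj x hx y hy r e1 e2 => (d3_adj hm hh ((v1 x j hj).2 ((mW x).1 hx))
      ((v1 y j hj).2 ((mW y).1 hy)) (al9_hor r j)).2 (e1.trans e2.symm)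
  have inQ : ∀ j, |j - c| ≤ MM G → (∀ x ∈ Q, (Y2 G Z ht n h 0 x j ↔ P)) →
      ∀ x ∈ Q, D3 G Z ht n h s j = D3 G Z ht n h x j := fun j hj hy x hx => by
    have : ∀ t, Rch (sd G) {w | w ∈ W ∧ k < f w} s t → D3 G Z ht n h s j = D3 G Z ht n h t j := by
      intro t h1
      induction h1 with
      | refl => rfl
      | tail h2 st ih =>
        exact ih.trans (hor j hj _ st.1.1 _ st.2.1.1 st.2.2 (hy _ ((mQ _).2 h2))
          (hy _ ((mQ _).2 (h2.tail st))))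
    exact this x ((mQ x).1 hx)
  have A := inQ _ b1 fun x hx => y1 x (q1 x hx).1 (q1 x hx).2.le
  have B : ∀ x ∈ Q, ∀ y ∈ W, (sd G).r x y → y ∉ Q → ∀ j, -((MM G : ℤ) - k) ≤ d * (j - c) →
      d * (j - c) ≤ (MM G : ℤ) - m →
      D3 G Z ht n h s (c - d * ((MM G : ℤ) - k)) = D3 G Z ht n h y j := by
    intro x hx y hy r hn j j1 j2
    have e1 := q2 x hx y hy r hn
    have e2 := q3 x hx y hy r hn
    rw [A x hx, hor _ b1 x (q1 x hx).1 y hy r (y1 x (q1 x hx).1 (q1 x hx).2.le) (y1 y hy e1.ge)]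
    exact al9_column hm hh hc hv hd ((mW y).1 hy) ((ef y).trans e1) ((eg y).trans e2)
      (hk.trans c0.symm) j1 j2
  have C : ∀ x ∈ Q, D3 G Z ht n h s (c - d * ((MM G : ℤ) - k)) =
      D3 G Z ht n h x (c + d * ((MM G : ℤ) - m)) := fun x hx => by
    have := inQ _ b2 fun x hx => y2 x (q1 x hx).1 (q4 x hx)
    rw [← this x hx, this x0 hx0, hor _ b2 x0 (q1 x0 hx0).1 y0 hy0 r0
      (y2 x0 (q1 x0 hx0).1 (q4 x0 hx0)) (y2 y0 hy0 (q3 x0 hx0 y0 hy0 r0 n0).ge)]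
    exact B x0 hx0 y0 hy0 r0 n0 _ (by rcases hd with rfl | rfl <;> omega)
      (by rcases hd with rfl | rfl <;> omega)
  have b3 : |c - d * ((MM G : ℤ) - (k + 1)) - c| ≤ MM G := by
    rcases hd with rfl | rfl <;> rw [abs_le] <;> omega
  have key := d3_ge hm hh (E := fun u j => u ∈ Q ∧ -((MM G : ℤ) - k) < d * (j - c) ∧
      d * (j - c) < (MM G : ℤ) - m) (d := D3 G Z ht n h s (c - d * ((MM G : ℤ) - k)))
    (fun u j _ e r => absurd (f0 u (q1 u e.1).1 r ▸ (q1 u e.1).2) (Nat.not_lt_zero k))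
    (fun u j u' j' _ ⟨e1, e2, e3⟩ v' hn ad => ?_) s _ ((v1 s _ b3).2 hs)
    ⟨sQ, by rcases hd with rfl | rfl <;> omega, by rcases hd with rfl | rfl <;> omega⟩
  · refine lt_of_le_of_ne key fun e => ?_
    have p1 := (d3_par hm hh ((v1 s _ b1).2 hs)).symm.trans (y1 s sW hf.le)
    have p2 := d3_par hm hh ((v1 s _ b3).2 hs)
    rw [al9_near hc hd (k := k + 1) (by omega) (by push_cast; rfl), ef, min_eq_right hf, ← e, p1,
      Nat.even_add_one, hk] at p2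
    exact iff_not_self p2.symm
  · obtain ⟨r, z1, z2⟩ := al9_adj ad
    have hu' : u' ∈ W :=
      (mW u').2 ((v1 u' j' (by rcases hd with rfl | rfl <;> rw [abs_le] <;> omega)).1 v')
    by_cases t : u' ∈ Q
    · have : j' = c - d * ((MM G : ℤ) - k) ∨ j' = c + d * ((MM G : ℤ) - m) := by
        simp only [t, true_and, not_and, not_lt] at hn
        rcases hd with rfl | rfl <;> omega
      rcases this with rfl | rfl
      exacts [(A u' t).le, (C u' t).le]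
    · exact (B u e1 u' hu' r t j' (by rcases hd with rfl | rfl <;> omega)
        (by rcases hd with rfl | rfl <;> omega)).le

theorem slab_mono (hm : Man G Set.univ) (hh : Hgt G Z ht n h) {a c : ℤ}
    (hc : c = 1 + 2 * (MM G : ℤ) * a) (hv : NV (psn G ht) c) (e : ℕ) :
    ∃ d : ℤ, (d = 1 ∨ d = -1) ∧ ∀ s j s', |j - c| < MM G → Val (psn G ht) s j →
      e < D3 G Z ht n h s j → D3 G Z ht n h s (j - d) ≤ e → Val (psn G ht) s' j → (sd G).r s s' →
      D3 G Z ht n h s' (j - d) ≤ e := by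
  have hM : 3 ≤ MM G := by unfold MM; omega
  obtain ⟨d, hd, hinc⟩ : ∃ d : ℤ, (d = 1 ∨ d = -1) ∧
      ∀ t, (Y1 G Z ht t (c - d) ↔ Even e) → (Y1 G Z ht t (c + d) ↔ Even e) := by
    obtain ⟨d, hd, h1⟩ := mslab (Z := Z) (n := n) (h := h) hc hv
    by_cases he : Even e
    · exact ⟨d, hd, fun t h2 => iff_of_true ((h1 t).2.2.1 (h2.2 he)) he⟩
    · refine ⟨-d, by omega, fun t h2 => iff_of_false (fun h3 => he (h2.1 ?_)) he⟩
      rw [sub_neg_eq_add]
      exact (h1 t).2.2.1 (sub_eq_add_neg c d ▸ h3)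
  refine ⟨d, hd, fun s j s' hj vs h1 h2 vs' r => ?_⟩
  have v1 : ∀ t j, |j - c| ≤ MM G → (Val (psn G ht) t j ↔ Val (psn G ht) t c) := fun t j hj =>
    al9_val h hc hv (by omega) t
  have a1 : |c - d - c| ≤ MM G := by rcases hd with rfl | rfl <;> simp <;> omega
  have a2 : |c + d - c| ≤ MM G := by rcases hd with rfl | rfl <;> simp <;> omega
  have a3 : |j - d - c| ≤ MM G := by
    rw [abs_lt] at hj
    rcases hd with rfl | rfl <;> rw [abs_le] <;> omega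
  have hs := (v1 s j hj.le).1 vs
  have hs' := (v1 s' j hj.le).1 vs'
  have h3 := (d3_adj hm hh ((v1 s _ a3).2 hs) vs (by simpa using al9_vert s (j - d) hd)).1
  have h4 : D3 G Z ht n h s (j - d) = e := by omega
  have h5 : D3 G Z ht n h s j = e + 1 := by omega
  have p1 := d3_par hm hh ((v1 s _ a3).2 hs)
  have p2 := d3_par hm hh vs
  rw [h4] at p1
  rw [h5, Nat.even_add_one] at p2
  have l1 := al9_lt hm hh ((v1 s _ a1).2 hs)
  have l2 := al9_lt hm hh ((v1 s _ a2).2 hs)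
  have hi : (Even (dp G Z ht n h s (c - d)) ↔ Even e) → (Even (dp G Z ht n h s (c + d)) ↔ Even e) :=
    fun x => ((depok hm hh (c + d)).par ((v1 s _ a2).2 hs)).symm.trans
      (hinc s (((depok hm hh (c - d)).par ((v1 s _ a1).2 hs)).trans x))
  have hz := al9_cen hm hh hc hv hd hs
  rw [abs_lt] at hj
  by_cases t1 : d * (j - c) < 0
  · obtain ⟨k, hk⟩ : ∃ k : ℕ, (k : ℤ) = MM G + d * (j - c) - 1 := ⟨_, Int.toNat_of_nonneg (by
      rcases hd with rfl | rfl <;> omega)⟩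
    have e1 : j - d = c - d * ((MM G : ℤ) - k) := by rcases hd with rfl | rfl <;> omega
    have q1 := p1
    rw [al9_near hc hd (k := k) (by omega) e1] at q1
    rw [al9_near hc hd (k := k + 1) (by omega) (by rcases hd with rfl | rfl <;> omega)] at p2
    have k1 : k < dp G Z ht n h s (c - d) := by
      by_contra x
      rw [min_eq_left (by omega)] at q1 p2
      exact iff_not_self (q1.symm.trans p2)
    have k2 : dp G Z ht n h s (c - d) ≤ dp G Z ht n h s' (c - d) + 1 :=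
      (depok hm hh (c - d)).adj ((v1 s' _ a1).2 hs') ((v1 s _ a1).2 hs) ((sd G).symm _ _ r)
    refine ((d3_adj hm hh ((v1 s _ a3).2 hs) ((v1 s' _ a3).2 hs') (al9_hor r _)).2 ?_).ge.trans h2
    rw [al9_near hc hd (k := k) (by omega) e1, al9_near hc hd (k := k) (by omega) e1,
      min_eq_right k1.le, min_eq_right (Nat.le_of_lt_succ (k1.trans_le k2))]
  exfalso
  by_cases t2 : j = c
  · subst t2
    rw [al9_near hc hd (k := MM G - 1) (by omega) (by rcases hd with rfl | rfl <;> omega),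
      min_eq_left (by omega)] at p1
    rcases hz with x | x
    · exact iff_not_self (p1.symm.trans (x.symm.trans p2))
    · exact iff_not_self ((hi p1).symm.trans (x.symm.trans p2))
  by_cases t3 : j = c + d
  · subst t3
    rw [al9_far hc hd (k := MM G - 1) (by omega) (by rcases hd with rfl | rfl <;> omega),
      min_eq_left (by omega)] at p2
    rw [add_sub_cancel_right] at p1
    rcases hz with x | x
    · exact iff_not_self ((hi (x.symm.trans p1)).symm.trans p2)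
    · exact iff_not_self (p1.symm.trans (x.trans p2))
  obtain ⟨k, hk⟩ : ∃ k : ℕ, (k : ℤ) = MM G - d * (j - c) := ⟨_, Int.toNat_of_nonneg (by
    rcases hd with rfl | rfl <;> omega)⟩
  rw [al9_far hc hd (k := k + 1) (by rcases hd with rfl | rfl <;> omega)
    (by rcases hd with rfl | rfl <;> omega)] at p1
  rw [al9_far hc hd (k := k) (by rcases hd with rfl | rfl <;> omega)
    (by rcases hd with rfl | rfl <;> omega)] at p2
  have k1 : k < dp G Z ht n h s (c + d) := by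
    by_contra x
    rw [min_eq_left (by omega)] at p1 p2
    exact iff_not_self (p1.symm.trans p2)
  rw [min_eq_right k1.le] at p2
  have := enclose hm hh hc hv (d := -d) (by omega) (P := ¬ Even e) (fun t x => by
    rw [sub_neg_eq_add] at x
    rw [← sub_eq_add_neg]
    exact (not_iff.1 fun y =>
      iff_not_self ((hinc t y.symm).symm.trans x)).symm) p2 hs (by rwa [sub_neg_eq_add])
  rw [show c - -d * ((MM G : ℤ) - k) = j by rcases hd with rfl | rfl <;> omega,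
    show c - -d * ((MM G : ℤ) - (k + 1)) = j - d by rcases hd with rfl | rfl <;> omega] at this
  omega

end KG
end
end

-- merged part: Pool.Agent.Work.MP_c146e2_gt.KG.Al10
section
set_option autoImplicit false

noncomputable section

open scoped Classical

namespace KG

variable {V V' : Type}

variable [Fintype V] {G : Cx V} {Z : Set V} {ht : V → ℕ} {n : ℕ} {h : ℕ → V}

theorem al10_symm {s s' : Fc G} {j j' : ℤ} (ha : adjL s j s' j') : adjL s' j' s j := ha.symm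

theorem al10_near {s s' : Fc G} {j j' : ℤ} (ha : adjL s j s' j') : j' ≤ j + 1 ∧ j ≤ j' + 1 := by
  unfold adjL zle at ha
  omega

theorem al10_cen (j : ℤ) : (∃ a : ℤ, cen G j = 1 + 2 * (MM G : ℤ) * a) ∧
    -(MM G : ℤ) ≤ j - cen G j ∧ j - cen G j < MM G := (cen_iff G j _).1 rfl

theorem al10_abs {j : ℤ} (hj : kp G j ≠ 0) : |j - cen G j| < MM G := by
  unfold kp at hj
  rw [abs_lt]
  omega

theorem al10_same {j j' : ℤ} (hj : kp G j ≠ 0) (hj' : kp G j' ≠ 0) (h1 : j' ≤ j + 1)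
    (h2 : j ≤ j' + 1) : cen G j' = cen G j := by
  have a := abs_lt.1 (al10_abs hj)
  have a' := abs_lt.1 (al10_abs hj')
  by_cases e : j' - cen G j = MM G
  · obtain ⟨b, hb⟩ := (al10_cen (G := G) j).1
    have : cen G j' = cen G j + 2 * MM G :=
      (cen_iff G j' _).2 ⟨⟨b + 1, by rw [hb]; ring⟩, by omega, by omega⟩
    omega
  · exact (cen_iff G j' _).2 ⟨(al10_cen j).1, by omega, by omega⟩

theorem al10_psn (v : V) : cen G (psn G ht v) = psn G ht v :=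
  (cen_iff G _ _).2 ⟨⟨3 * ht v, by unfold psn; ring⟩, by simp, by simp [MM]; positivity⟩

theorem al10_nv {j : ℤ} (hj : NV (psn G ht) (cen G j) ∨ j ≠ cen G j) : NV (psn G ht) j := by
  rintro v rfl
  rw [al10_psn] at hj
  exact hj.elim (fun q => q v rfl) fun q => q rfl

theorem al10_even {pos : V → ℤ} (hp : PosOK pos) {s : Fc G} {i j : ℤ} (hi : Even i)
    (hv : Val pos s i) (h1 : j ≤ i + 1) (h2 : i ≤ j + 1) : Val pos s j := by
  obtain ⟨⟨a, ha, a1⟩, b, hb, b1⟩ := hv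
  have := Int.odd_iff.1 (hp.odd a)
  have := Int.odd_iff.1 (hp.odd b)
  have := Int.even_iff.1 hi
  exact ⟨⟨a, ha, by omega⟩, b, hb, by omega⟩

theorem al10_val {pos : V → ℤ} (hp : PosOK pos) {s s' : Fc G} {j j' : ℤ} (hv : Val pos s j)
    (hv' : Val pos s' j') (ha : adjL s j s' j') : Val pos s' j ∧ adjL s j s' j := by
  rcases ha with ⟨a, -⟩ | ⟨a, b⟩
  · obtain ⟨⟨x, hx, x1⟩, y, hy, y1⟩ := hv
    exact ⟨⟨⟨x, a hx, x1⟩, y, a hy, y1⟩, Or.inl ⟨a, Or.inl rfl⟩⟩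
  · refine ⟨?_, Or.inr ⟨a, Or.inl rfl⟩⟩
    rcases b with rfl | ⟨b, c⟩
    exacts [hv', al10_even hp b hv' (by omega) (by omega)]

theorem al10_lay {pos : V → ℤ} {A B : Fc G → ℤ → Prop} (h : ∀ s j, A s j ↔ B s j) :
    lay pos A = lay pos B := Set.ext fun _ => h _ _

/-- The cells that keep their colour, and the cells `B` in the layers `Q`. -/
def al10_Y (Φ : Fc G → ℤ → ℕ) (e : ℕ) (Q : ℤ → Prop) (s : Fc G) (j : ℤ) : Prop :=
  (Even (min (Φ s j) (e + 1)) ↔ Even e) ∨ (e < Φ s j ∧ Q j)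

theorem al10_not {Φ : Fc G → ℤ → ℕ} {e : ℕ} {Q : ℤ → Prop} {s : Fc G} {j : ℤ} (hB : e < Φ s j)
    (hQ : ¬ Q j) : ¬ al10_Y Φ e Q s j := by
  rintro (q | q)
  · rw [min_eq_right (by omega), Nat.even_add_one] at q
    tauto
  · exact hQ q.2

theorem al10_union {pos : V → ℤ} (Φ : Fc G → ℤ → ℕ) (e : ℕ) {Q R S : ℤ → Prop}
    (h : ∀ j, S j ↔ Q j ∨ R j) :
    (lay pos fun s j => al10_Y Φ e Q s j ∨ (e < Φ s j ∧ R j)) = lay pos (al10_Y Φ e S) :=
  al10_lay fun s j => by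
    unfold al10_Y
    rw [h]
    tauto

section step

variable (hm : Man G Set.univ) (hh : Hgt G Z ht n h) {e : ℕ} {s s' : Fc G} {j j' : ℤ}

include hm hh

theorem al10_kp (hv : Val (psn G ht) s j) (hB : e < PhiA G Z ht n h s j) :
    kp G j ≠ 0 ∧ ¬ Rt n h s :=
  ⟨fun q => by rw [phi_zero hm hh hv (Or.inl q)] at hB; omega,
    fun q => by rw [phi_zero hm hh hv (Or.inr q)] at hB; omega⟩

theorem al10_nb (Q : ℤ → Prop) (hv : Val (psn G ht) s j) (hB : e < PhiA G Z ht n h s j)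
    (hv' : Val (psn G ht) s' j') (ha : adjL s j s' j') : al10_Y (PhiA G Z ht n h) e Q s' j' ∨
      (e < PhiA G Z ht n h s' j' ∧ cen G j' = cen G j) := by
  have k := phi_adj (Z := Z) hm hh hv' hv (al10_symm ha)
  by_cases q : e < PhiA G Z ht n h s' j'
  · exact Or.inr ⟨q, al10_same (al10_kp hm hh hv hB).1 (al10_kp hm hh hv' q).1 (al10_near ha).1
      (al10_near ha).2⟩
  · exact Or.inl (Or.inl (by rw [min_eq_left (by omega), show PhiA G Z ht n h s' j' = e by omega]))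

theorem al10_root (hj : NV (psn G ht) j) (hv : Val (psn G ht) s j) :
    ∃ r : Fc G, Rt n h r ∧ Val (psn G ht) r j := by
  obtain ⟨r, hr⟩ := (layer (Z := Z) hm hh hj).2.2.2 ⟨s, hv⟩
  exact ⟨r, (Set.ext_iff.1 hr r).2 rfl⟩

theorem al10_solid {d : ℤ} (hd : d = 1 ∨ d = -1) {Q : ℤ → Prop} {R : ℤ → Prop}
    (hQ : ∀ j, R (cen G j) → ¬ Q j) (hR : ∀ c, R c → NV (psn G ht) c ∧ ((∃ a : ℤ,
      c = 1 + 2 * (MM G : ℤ) * a) → ∀ s j s', |j - c| < MM G → Val (psn G ht) s j →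
      e < D3 G Z ht n h s j → D3 G Z ht n h s (j - d) ≤ e → Val (psn G ht) s' j → (sd G).r s s' →
      D3 G Z ht n h s' (j - d) ≤ e)) :
    Abss (ord (SP G (psn G ht))) (lay (psn G ht) (al10_Y (PhiA G Z ht n h) e Q))
      (lay (psn G ht) fun s j => al10_Y (PhiA G Z ht n h) e Q s j ∨
        (e < PhiA G Z ht n h s j ∧ R (cen G j))) := by
  have M1 : ∀ s j s', Val (psn G ht) s j → (e < PhiA G Z ht n h s j ∧ R (cen G j)) →
      ¬ (e < PhiA G Z ht n h s (j - d) ∧ R (cen G (j - d))) → Val (psn G ht) s' j →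
      (sd G).r s s' → ¬ (e < PhiA G Z ht n h s' (j - d) ∧ R (cen G (j - d))) := by
    rintro s j s' hv ⟨b1, b2⟩ hn hv' hr ⟨c1, c2⟩
    have c3 := c1
    rw [PhiA, if_pos (hR _ c2).1] at c3
    have k := (al10_kp hm hh hv b1).1
    have hn' : ¬ e < PhiA G Z ht n h s (j - d) := fun q => hn ⟨q, c2⟩
    rw [PhiA, if_pos (hR _ c2).1] at hn'
    rw [PhiA, if_pos (hR _ b2).1] at b1
    exact ((hR _ b2).2 (al10_cen j).1 s j s' (al10_abs k) hv b1 (not_lt.1 hn') hv' hr).not_gt c3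
  refine solid (psn_ok hh) hd (fun s j _ b => al10_nv (Or.inl (hR _ b.2).1))
    (fun s j _ b => al10_not b.1 (hQ _ b.2)) (fun s j s' j' hv b hv' ha =>
      (al10_nb hm hh Q hv b.1 hv' ha).imp_right fun q => ⟨q.1, by rw [q.2]; exact b.2⟩)
    (fun s j s' hv b hn hv' _ hr => M1 s j s' hv b hn hv' hr)
    (fun s j s' hv b hn hv' ha => M1 s j s' hv b hn (al10_val (psn_ok hh) hv hv' ha).1
      (ha.imp And.left And.left))
    (fun j hj => (layer hm hh hj).2.2.1) fun s j hv b => ?_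
  obtain ⟨r, r1, r2⟩ := al10_root hm hh (al10_nv (Or.inl (hR _ b.2).1)) hv
  exact ⟨r, r2, fun q => (al10_kp hm hh r2 q.1).2 r1⟩

theorem al10_eat {d : ℤ} (hd : d = 1 ∨ d = -1) {Q : ℤ → Prop}
    (hQ : ∀ j, Q j → NV (psn G ht) (cen G j) ∨ d * (j - cen G j) < 0) :
    Absorb (ord (SP G (psn G ht))) (lay (psn G ht) (al10_Y (PhiA G Z ht n h) e Q))
      (lay (psn G ht) fun s j => al10_Y (PhiA G Z ht n h) e Q s j ∨ (e < PhiA G Z ht n h s j ∧
        ¬ NV (psn G ht) (cen G j) ∧ 0 < d * (j - cen G j))) := by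
  refine eat (psn_ok hh) hd (fun s j _ b => al10_nv (Or.inr fun q => ?_))
    (fun s j s' hv b hv' ha _ => (al10_nb hm hh Q hv b.1 hv' ha).imp_right fun q => ⟨q.1, ?_⟩)
    fun s j s' hv b hv' ha hY => ?_
  · have := b.2.2
    rw [← q, sub_self, mul_zero] at this
    exact this.false
  · rw [q.2]
    exact ⟨b.2.1, by have := b.2.2; rcases hd with rfl | rfl <;> omega⟩
  · obtain ⟨v1, a1⟩ := al10_val (psn_ok hh) hv hv' ha
    refine (al10_nb hm hh Q hv b.1 v1 a1).resolve_right fun q => ?_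
    obtain ⟨b1, b2, b3⟩ := b
    have k := abs_lt.1 (al10_abs (al10_kp hm hh hv b1).1)
    have c : cen G (j - d) = cen G j := (cen_iff G _ _).2 ⟨(al10_cen j).1,
      by rcases hd with rfl | rfl <;> omega, by rcases hd with rfl | rfl <;> omega⟩
    refine al10_not ?_ (fun w => ?_) hY
    · obtain ⟨v, e⟩ : ∃ v, psn G ht v = cen G j := by simpa [NV] using b2
      have q1 := q.1
      rw [PhiA, if_neg b2, ((vslab hm hh v).1 s' j (by rw [e, abs_lt]; omega) v1).2] at q1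
      rw [PhiA, c, if_neg b2, ((vslab hm hh v).1 s' (j - d) (by
        rw [e, abs_lt]; rcases hd with rfl | rfl <;> omega) hv').2]
      refine q1.trans_le (min_le_min_left _ ?_)
      unfold kp
      rw [c]
      rcases hd with rfl | rfl <;> omega
    · have := hQ _ w
      rw [c] at this
      refine this.elim b2 fun q => ?_
      rcases hd with rfl | rfl <;> omega

theorem al10_star {v : V} (hv : v ∈ s.1) (hv' : v ∈ s'.1) :
    PhiA G Z ht n h s (psn G ht v) = PhiA G Z ht n h s' (psn G ht v) := by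
  have q : ¬ NV (psn G ht) (cen G (psn G ht v)) := fun q => q v (al10_psn v).symm
  rw [PhiA, PhiA, if_neg q, if_neg q, (vslab hm hh v).2 s s' hv hv']

theorem al10_off {v : V} (hv : v ∈ s.1) (hB : e < PhiA G Z ht n h s (psn G ht v)) {i : ℕ}
    (hi : i ≤ n) : v ≠ h i := by
  rintro rfl
  let t : Fc G := ⟨{h i}, Finset.singleton_nonempty _, by simp [G.refl]⟩
  have m : h i ∈ t.1 := Finset.mem_singleton_self _
  rw [al10_star hm hh hv m] at hB
  exact (al10_kp hm hh ⟨⟨_, m, le_rfl⟩, _, m, le_rfl⟩ hB).2 ⟨i, hi, Or.inl rfl⟩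

theorem al10_fill : Absorb (ord (SP G (psn G ht)))
    (lay (psn G ht) (al10_Y (PhiA G Z ht n h) e (NV (psn G ht))))
      (lay (psn G ht) fun s j => al10_Y (PhiA G Z ht n h) e (NV (psn G ht)) s j ∨
        (e < PhiA G Z ht n h s j ∧ ¬ NV (psn G ht) j)) := by
  have hp := psn_ok hh
  refine fillV hp (fun s j _ b => by simpa [NV] using b.2) (fun s j _ b => al10_not b.1 b.2)
    (fun s j s' j' hv b hv' ha => ?_)
    (fun v s s' h1 h2 b => ⟨al10_star hm hh h1 h2 ▸ b.1, b.2⟩)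
    (fun j hj => (layer hm hh hj).2.2.1) (fun s j hv b => ?_)
    fun v s hv b => star_up hh (al10_off hm hh hv b.1 le_rfl)
  · rcases al10_nb hm hh (NV (psn G ht)) hv b.1 hv' ha with q | q
    · exact Or.inl q
    · by_cases w : NV (psn G ht) j'
      exacts [Or.inl (Or.inr ⟨q.1, w⟩), Or.inr ⟨q.1, w⟩]
  · obtain ⟨v, rfl⟩ : ∃ v, psn G ht v = j := by simpa [NV] using b.2
    have ev : Even (psn G ht v - 1) := (hp.odd v).sub_odd odd_one
    have : ∃ t : Fc G, Val (psn G ht) t (psn G ht v - 1) := by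
      by_cases m : v ∈ s.1
      · obtain ⟨w, w1, w2⟩ := (hh.low v (al10_off hm hh m b.1 (Nat.zero_le n))).1
        refine ⟨⟨{v, w}, Finset.insert_nonempty _ _, by simp [G.refl, w1, G.symm _ _ w1]⟩,
          ⟨w, by simp, ?_⟩, v, by simp, by omega⟩
        have : (0 : ℤ) < MM G := by simp [MM]; positivity
        have w3 : (ht w : ℤ) + 1 ≤ ht v := by exact_mod_cast w2
        unfold psn
        nlinarith
      · obtain ⟨⟨a, a1, a2⟩, c, c1, c2⟩ := hv
        have : psn G ht a ≠ psn G ht v := fun q => m (hp.inj q ▸ a1)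
        exact ⟨s, ⟨a, a1, by omega⟩, c, c1, by omega⟩
    obtain ⟨t, tv⟩ := this
    obtain ⟨r, r1, r2⟩ := al10_root hm hh
      (fun w q => Int.not_even_iff_odd.2 (hp.odd w) (q ▸ ev)) tv
    exact ⟨r, r2, fun q =>
      (al10_kp hm hh (al10_even hp ev r2 (by omega) (by omega)) q.1).2 r1⟩

end step

theorem stage3_step (hm : Man G Set.univ) (hh : Hgt G Z ht n h) (e : ℕ) :
    Reach (ord (SP G (psn G ht)))
      (lay (psn G ht) fun s j => Even (min (PhiA G Z ht n h s j) (e + 1)))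
      (lay (psn G ht) fun s j => Even (min (PhiA G Z ht n h s j) e)) := by
  have : ∀ c : ℤ, ∃ d : ℤ, (d = 1 ∨ d = -1) ∧ (NV (psn G ht) c → (∃ a : ℤ,
      c = 1 + 2 * (MM G : ℤ) * a) → ∀ s j s', |j - c| < MM G → Val (psn G ht) s j →
      e < D3 G Z ht n h s j → D3 G Z ht n h s (j - d) ≤ e → Val (psn G ht) s' j → (sd G).r s s' →
      D3 G Z ht n h s' (j - d) ≤ e) := fun c => by
    by_cases q : NV (psn G ht) c ∧ ∃ a : ℤ, c = 1 + 2 * (MM G : ℤ) * a
    · obtain ⟨q1, a, q2⟩ := q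
      obtain ⟨d, d1, d2⟩ := slab_mono hm hh q2 q1 e
      exact ⟨d, d1, fun _ _ => d2⟩
    · exact ⟨1, Or.inl rfl, fun a b => absurd ⟨a, b⟩ q⟩
  choose dd d1 d2 using this
  have s1 := al10_solid hm hh (e := e) (Or.inl rfl) (Q := fun _ => False)
    (R := fun c => NV (psn G ht) c ∧ dd c = 1) (fun _ _ => id)
    fun c q => ⟨q.1, q.2 ▸ d2 c q.1⟩
  rw [al10_union _ e (S := fun j => NV (psn G ht) (cen G j) ∧ dd (cen G j) = 1) (by simp)] at s1
  have s2 := al10_solid hm hh (e := e) (Or.inr rfl)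
    (Q := fun j => NV (psn G ht) (cen G j) ∧ dd (cen G j) = 1)
    (R := fun c => NV (psn G ht) c ∧ dd c = -1) (fun _ a b => by have := a.2; have := b.2; omega)
    fun c q => ⟨q.1, q.2 ▸ d2 c q.1⟩
  rw [al10_union _ e (S := fun j => NV (psn G ht) (cen G j))
    fun j => by have := d1 (cen G j); tauto] at s2
  have s3 := al10_eat hm hh (e := e) (Or.inl rfl) (Q := fun j => NV (psn G ht) (cen G j))
    fun _ => Or.inl
  rw [al10_union _ e (S := fun j => NV (psn G ht) (cen G j) ∨ -1 * (j - cen G j) < 0)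
    fun j => by rw [show -1 * (j - cen G j) < 0 ↔ 0 < 1 * (j - cen G j) by omega]; tauto] at s3
  have s4 := al10_eat hm hh (e := e) (Or.inr rfl)
    (Q := fun j => NV (psn G ht) (cen G j) ∨ -1 * (j - cen G j) < 0) fun _ => id
  rw [al10_union _ e (S := NV (psn G ht)) fun j => ?_] at s4
  · have s5 := al10_fill hm hh (e := e)
    rw [al10_union _ e (S := fun _ => True) fun j => by tauto] at s5
    have k := (((s1.trans s2).tail s3).tail s4).tail s5
    refine reach_class (Even e) (Eq.mp (congrArg₂ (Abss _) (Set.ext fun x => ?_)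
      (Set.ext fun x => Iff.symm ?_)) k)
    · simp [lay, al10_Y]
    · simp only [lay, al10_Y, Set.mem_ofPred_eq, and_true]
      by_cases q : e < PhiA G Z ht n h x.1.1 x.1.2
      · simp [q, min_eq_right q.le]
      · rw [min_eq_left (not_lt.1 q), min_eq_left (by omega)]
        simp [q]
  · refine ⟨fun q => ?_, fun q => al10_nv ?_⟩
    · by_cases w : NV (psn G ht) (cen G j)
      · exact Or.inl (Or.inl w)
      · have : j ≠ cen G j := fun r => w (r ▸ q)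
        rcases lt_or_gt_of_ne this with r | r
        · exact Or.inr ⟨w, by omega⟩
        · exact Or.inl (Or.inr (by omega))
    · rcases q with (q | q) | q
      exacts [Or.inl q, Or.inr (by omega), Or.inr (by have := q.2; omega)]

theorem stage3 (hm : Man G Set.univ) (hh : Hgt G Z ht n h) :
    Reach (ord (SP G (psn G ht))) (lay (psn G ht) (Y2 G Z ht n h 0)) Set.univ := by
  have k : ∀ e, Reach (ord (SP G (psn G ht)))
      (lay (psn G ht) fun s j => Even (min (PhiA G Z ht n h s j) e)) Set.univ := fun e => by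
    induction e with
    | zero =>
      rw [show (lay (psn G ht) fun s j => Even (min (PhiA G Z ht n h s j) 0)) = Set.univ from
        Set.eq_univ_of_forall fun x => by simp [lay]]
      exact Relation.ReflTransGen.refl
    | succ e ih => exact (stage3_step hm hh e).trans ih
  obtain ⟨N, hN⟩ :=
    (Set.finite_range fun x : SP G (psn G ht) => PhiA G Z ht n h x.1.1 x.1.2).bddAbove
  rw [show lay (psn G ht) (Y2 G Z ht n h 0)
    = lay (psn G ht) fun s j => Even (min (PhiA G Z ht n h s j) N) from Set.ext fun x => ?_]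
  · exact k N
  · simp only [lay, Set.mem_ofPred_eq]
    rw [min_eq_left (hN ⟨x, rfl⟩)]
    exact phi_par hm hh x.2

end KG
end
end
end

-- merged part: Pool.Agent.Work.MP_c146e2_gt.KG.BCirc
section
set_option autoImplicit false

noncomputable section

open scoped Classical

namespace KG

/-- The piecewise linear path through the points `p 0, …, p m`. -/
def bcircF (m : ℕ) (p : ℕ → E3) (t : ℝ) : E3 :=
  p 0 + ∑ i ∈ Finset.range m, max 0 (min 1 (t - i)) • (p (i + 1) - p i)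

theorem bcirc_cont (m : ℕ) (p : ℕ → E3) : Continuous (bcircF m p) := by
  unfold bcircF
  fun_prop

theorem bcirc_val {m : ℕ} (p : ℕ → E3) {i : ℕ} (hi : i < m) {s : ℝ} (h0 : 0 ≤ s) (h1 : s ≤ 1) :
    bcircF m p (i + s) = p i + s • (p (i + 1) - p i) := by
  unfold bcircF
  rw [← Finset.sum_subset (Finset.range_subset_range.2 (Nat.succ_le_of_lt hi)) fun j _ hj => ?_,
    Finset.sum_range_succ, Finset.sum_congr rfl (g := fun j => p (j + 1) - p j) fun j hj => ?_,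
    Finset.sum_range_sub, add_sub_cancel_left, min_eq_right h1, max_eq_right h0, ← add_assoc,
    add_sub_cancel]
  · have h2 : (j : ℝ) + 1 ≤ i := by exact_mod_cast Finset.mem_range.1 hj
    rw [min_eq_left (by linarith), max_eq_right zero_le_one, one_smul]
  · have h2 : (i : ℝ) + 1 ≤ j := by exact_mod_cast not_lt.1 (mt Finset.mem_range.2 hj)
    rw [max_eq_left ((min_le_right _ _).trans (by linarith)), zero_smul]

theorem bcirc_rep {m : ℕ} [Fact ((0 : ℝ) < m)] (x : AddCircle (m : ℝ)) :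
    ∃ i < m, ∃ s : ℝ, 0 ≤ s ∧ s < 1 ∧ ((i + s : ℝ) : AddCircle (m : ℝ)) = x := by
  obtain ⟨t, ht, rfl⟩ := AddCircle.eq_coe_Ico x
  refine ⟨⌊t⌋₊, (Nat.floor_lt ht.1).2 ht.2, t - ⌊t⌋₊, sub_nonneg.2 (Nat.floor_le ht.1), ?_, ?_⟩
  · linarith [Nat.lt_floor_add_one t]
  · rw [add_sub_cancel]

theorem circle_of_polygon {m : ℕ} (hm : 0 < m) (p : ℕ → E3) (hp : p m = p 0)
    (hinj : ∀ i < m, ∀ j < m, ∀ s t : ℝ, 0 ≤ s → s < 1 → 0 ≤ t → t < 1 →
      p i + s • (p (i + 1) - p i) = p j + t • (p (j + 1) - p j) → i = j ∧ s = t) :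
    Nonempty ((⋃ i ∈ Set.Iio m, segment ℝ (p i) (p (i + 1)) : Set E3) ≃ₜ Circle) := by
  have hm' : (0 : ℝ) < m := Nat.cast_pos.2 hm
  have : Fact ((0 : ℝ) < m) := ⟨hm'⟩
  have h0 : bcircF m p 0 = bcircF m p m := by
    obtain ⟨k, rfl⟩ := Nat.exists_eq_succ_of_ne_zero hm.ne'
    have a := bcirc_val p hm le_rfl zero_le_one
    have b := bcirc_val p (Nat.lt_succ_self k) zero_le_one le_rfl
    rw [Nat.cast_zero, add_zero, zero_smul, add_zero] at a
    rw [one_smul, add_sub_cancel] at b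
    rw [a, Nat.cast_succ, b, hp]
  have hc := AddCircle.liftIco_zero_continuous h0 (bcirc_cont m p).continuousOn
  have hv : ∀ i < m, ∀ s : ℝ, 0 ≤ s → s < 1 → AddCircle.liftIco (m : ℝ) 0 (bcircF m p)
      ((i + s : ℝ) : AddCircle (m : ℝ)) = p i + s • (p (i + 1) - p i) := fun i hi s a b => by
    have h2 : (i : ℝ) + 1 ≤ m := by exact_mod_cast hi
    rw [AddCircle.liftIco_zero_coe_apply ⟨by positivity, by linarith⟩, bcirc_val p hi a b.le]
  generalize AddCircle.liftIco (m : ℝ) 0 (bcircF m p) = g at hc hv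
  have hi : Function.Injective g := fun x y e => by
    obtain ⟨i, a1, s, a2, a3, rfl⟩ := bcirc_rep x
    obtain ⟨j, b1, t, b2, b3, rfl⟩ := bcirc_rep y
    rw [hv i a1 s a2 a3, hv j b1 t b2 b3] at e
    obtain ⟨rfl, rfl⟩ := hinj i a1 j b1 s t a2 a3 b2 b3 e
    rfl
  have hr : Set.range g = ⋃ i ∈ Set.Iio m, segment ℝ (p i) (p (i + 1)) := by
    refine Set.ext fun q => ⟨?_, fun hq => ?_⟩
    · rintro ⟨x, rfl⟩
      obtain ⟨i, a1, s, a2, a3, rfl⟩ := bcirc_rep x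
      refine Set.mem_iUnion₂.2 ⟨i, a1, ?_⟩
      rw [hv i a1 s a2 a3, segment_eq_image']
      exact ⟨s, ⟨a2, a3.le⟩, rfl⟩
    · obtain ⟨i, a1, a2⟩ := Set.mem_iUnion₂.1 hq
      rw [segment_eq_image'] at a2
      obtain ⟨s, ⟨a2, a3⟩, rfl⟩ := a2
      rcases a3.lt_or_eq with a3 | rfl
      · exact ⟨_, hv i a1 s a2 a3⟩
      · have h1 : ∀ j < m, p j ∈ Set.range g := fun j hj =>
          ⟨_, (hv j hj 0 le_rfl one_pos).trans (by rw [zero_smul, add_zero])⟩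
        dsimp only
        rw [one_smul, add_sub_cancel]
        rcases (Nat.succ_le_of_lt a1).lt_or_eq with k | k
        · exact h1 _ k
        · rw [show i + 1 = m from k, hp]
          exact h1 0 hm
  rw [← hr]
  exact ⟨(hc.isClosedEmbedding hi).isEmbedding.toHomeomorph.symm.trans
    (AddCircle.homeomorphCircle hm'.ne')⟩

end KG
end
end

-- merged part: Pool.Agent.Work.MP_c146e2_gt.KG.BGeo
section
set_option autoImplicit false

noncomputable section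

open scoped Classical

namespace KG

variable {n : ℕ × ℕ × ℕ} {K : Set (Box n)}

theorem bgeo_fc {x : ℝ} {k : ℤ} (h1 : (k : ℝ) < x) (h2 : x < k + 1) : ⌊x⌋ + ⌈x⌉ = 2 * k + 1 := by
  rw [Int.floor_eq_iff.2 ⟨h1.le, h2⟩, (Int.ceil_eq_iff (z := k + 1)).2
    ⟨by push_cast; linarith, by push_cast; linarith⟩]
  ring

theorem bgeo_zc1 {m : ℕ} {j : ZI m} {x : ℝ} (h : ⌊x⌋ + ⌈x⌉ = j.1) : zc1 m x = j := by
  have := j.2
  refine Subtype.ext ?_
  change max (-1) (min (2 * (m : ℤ) + 1) (⌊x⌋ + ⌈x⌉)) = j.1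
  omega

theorem bgeo_seg1 {m : ℕ} {i j : ZI m} (h : i ≤ j) {t : ℝ} (h0 : 0 < t) (h1 : t ≤ 1) :
    zc1 m ((i.1 : ℝ) / 2 + t * ((j.1 : ℝ) / 2 - (i.1 : ℝ) / 2)) = j := by
  rcases ZI.le_iff.1 h with e | ⟨⟨k, e⟩, e' | e'⟩
  · rw [e, sub_self, mul_zero, add_zero]
    exact congrArg Prod.fst (zc_bpt (n := (m, m, m)) (j, j, j))
  · refine bgeo_zc1 ((bgeo_fc (k := k) ?_ ?_).trans (by omega)) <;>
      rw [e', e] <;> push_cast <;> linarith
  · refine bgeo_zc1 ((bgeo_fc (k := k - 1) ?_ ?_).trans (by omega)) <;>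
      rw [e', e] <;> push_cast <;> linarith

theorem bgeo_even {m : ℕ} {i j : ZI m} (h : i ≤ j) (hj : Even j.1) : i = j := by
  simp only [ZI.le_iff, zle, Int.even_iff] at h hj
  exact Subtype.ext (by omega)

theorem bgeo_chain1 {m : ℕ} {i j k : ZI m} (h : i ≤ j) (h' : j ≤ k) : i = j ∨ j = k := by
  simp only [ZI.le_iff, zle, Int.even_iff] at h h'
  exact Or.imp Subtype.ext Subtype.ext (by omega)

theorem bgeo_abs {m : ℕ} {i j : ZI m} (h : i ≤ j) :
    (i = j ∧ ‖(i.1 : ℝ) / 2 - (j.1 : ℝ) / 2‖ = 0) ∨ ‖(i.1 : ℝ) / 2 - (j.1 : ℝ) / 2‖ = 1 / 2 := by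
  rcases ZI.le_iff.1 h with e | ⟨-, e | e⟩
  · exact Or.inl ⟨Subtype.ext e, by rw [e, sub_self, norm_zero]⟩
  · refine Or.inr ?_
    rw [e, Real.norm_eq_abs, abs_of_nonpos] <;> push_cast <;> linarith
  · refine Or.inr ?_
    rw [e, Real.norm_eq_abs, abs_of_nonneg] <;> push_cast <;> linarith

theorem bgeo_norm {a b : Box n} (h : a ≤ b) (hne : a ≠ b) : ‖bpt a - bpt b‖ = 1 / 2 := by
  change max ‖(a.1.1 : ℝ) / 2 - (b.1.1 : ℝ) / 2‖ (max ‖(a.2.1.1 : ℝ) / 2 - (b.2.1.1 : ℝ) / 2‖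
    ‖(a.2.2.1 : ℝ) / 2 - (b.2.2.1 : ℝ) / 2‖) = 1 / 2
  rcases bgeo_abs h.1 with ⟨e1, h1⟩ | h1 <;> rcases bgeo_abs h.2.1 with ⟨e2, h2⟩ | h2 <;>
    rcases bgeo_abs h.2.2 with ⟨e3, h3⟩ | h3 <;> rw [h1, h2, h3]
  · exact absurd (Prod.ext e1 (Prod.ext e2 e3)) hne
  all_goals norm_num

theorem bgeo_inv1 {m : ℕ} {x : ℝ} (h : ¬ (zc1 m x).out) :
    (Even (zc1 m x).1 → x = ((zc1 m x).1 : ℝ) / 2) ∧ ∃ a ≤ zc1 m x, ∃ t : ℝ, 0 ≤ t ∧ t ≤ 1 ∧
      (a.1 : ℝ) / 2 + t * (((zc1 m x).1 : ℝ) / 2 - (a.1 : ℝ) / 2) = x := by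
  have h1 : (zc1 m x).1 = max (-1) (min (2 * (m : ℤ) + 1) (⌊x⌋ + ⌈x⌉)) := rfl
  rw [ZI.out] at h
  generalize zc1 m x = c at h h1
  rcases (Int.floor_le x).eq_or_lt with e | e
  · have h2 : ⌈x⌉ = ⌊x⌋ := by rw [← e, Int.ceil_intCast, Int.floor_intCast]
    have h3 : x = (c.1 : ℝ) / 2 := by
      rw [show c.1 = 2 * ⌊x⌋ by omega]
      push_cast
      linarith
    exact ⟨fun _ => h3, c, le_rfl, 0, le_rfl, zero_le_one, by linarith⟩
  · have e' := Int.lt_floor_add_one x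
    have h2 := bgeo_fc e e'
    generalize ⌊x⌋ = k at e e' h1 h2
    have h3 : c.1 = 2 * k + 1 := by omega
    refine ⟨fun h4 => absurd (Int.even_iff.1 h4) (by omega), ?_⟩
    rcases le_total x (k + 1 / 2) with h4 | h4
    · refine ⟨⟨2 * k, by omega, by omega⟩, Or.inr ⟨even_two_mul k, Or.inl h3⟩, 2 * (x - k),
        by linarith, by linarith, ?_⟩
      rw [h3]
      push_cast
      ring
    · refine ⟨⟨2 * (k + 1), by omega, by omega⟩,
        Or.inr ⟨even_two_mul _, Or.inr (h3.trans (by ring))⟩, 2 * (k + 1 - x),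
        by linarith, by linarith, ?_⟩
      rw [h3]
      push_cast
      ring

theorem GK.bgeo_out (hK : GK K) {c : Box n} (hc : c ∈ K) : c ∉ Outr n :=
  fun h => hK.sep c hc c h (Or.inl le_rfl)

theorem GK.bgeo_chain (hK : GK K) {a b c : Box n} (hc : c ∈ K) (h : a ≤ b) (h' : b ≤ c) :
    a = b ∨ b = c := by
  have key : ∀ {m : ℕ} {i j k : ZI m}, i ≤ j → j ≤ k → Even k.1 → i = j ∧ j = k :=
    fun h h' e => ⟨bgeo_even h (bgeo_even h' e ▸ e), bgeo_even h' e⟩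
  rcases hK.one c hc with ⟨e, e'⟩ | ⟨e, e'⟩ | ⟨e, e'⟩
  · have h1 := key h.1 h'.1 e
    have h2 := key h.2.1 h'.2.1 e'
    exact (bgeo_chain1 h.2.2 h'.2.2).imp (fun h3 => Prod.ext h1.1 (Prod.ext h2.1 h3))
      fun h3 => Prod.ext h1.2 (Prod.ext h2.2 h3)
  · have h1 := key h.1 h'.1 e
    have h2 := key h.2.2 h'.2.2 e'
    exact (bgeo_chain1 h.2.1 h'.2.1).imp (fun h3 => Prod.ext h1.1 (Prod.ext h3 h2.1))
      fun h3 => Prod.ext h1.2 (Prod.ext h3 h2.2)
  · have h1 := key h.2.1 h'.2.1 e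
    have h2 := key h.2.2 h'.2.2 e'
    exact (bgeo_chain1 h.1 h'.1).imp (fun h3 => Prod.ext h3 (Prod.ext h1.1 h2.1))
      fun h3 => Prod.ext h3 (Prod.ext h1.2 h2.2)

theorem zc_seg {a b : Box n} (h : a ≤ b) {t : ℝ} (h0 : 0 < t) (h1 : t ≤ 1) :
    zc n (bpt a + t • (bpt b - bpt a)) = b := by
  exact Prod.ext (bgeo_seg1 h.1 h0 h1) (Prod.ext (bgeo_seg1 h.2.1 h0 h1) (bgeo_seg1 h.2.2 h0 h1))

theorem GK.mem_geo (hK : GK K) {p : E3} :
    p ∈ geo K ↔ ∃ a ∈ K, ∃ b ∈ K, a ≤ b ∧ p ∈ segment ℝ (bpt a) (bpt b) := by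
  constructor
  · intro hp
    have h0 := hK.bgeo_out hp
    simp only [Outr, Set.mem_ofPred_eq, not_or] at h0
    obtain ⟨e1, a1, l1, t1, h1, k1, f1⟩ := bgeo_inv1 h0.1
    obtain ⟨e2, a2, l2, t2, h2, k2, f2⟩ := bgeo_inv1 h0.2.1
    obtain ⟨e3, a3, l3, t3, h3, k3, f3⟩ := bgeo_inv1 h0.2.2
    have key : ∀ a ≤ zc n p, ∀ t : ℝ, 0 ≤ t → t ≤ 1 → bpt a + t • (bpt (zc n p) - bpt a) = p →
        ∃ a ∈ K, ∃ b ∈ K, a ≤ b ∧ p ∈ segment ℝ (bpt a) (bpt b) := fun a ha t h0 h1 e =>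
      ⟨a, hK.low ha hp, _, hp, ha, by rw [segment_eq_image']; exact ⟨t, ⟨h0, h1⟩, e⟩⟩
    have z : ∀ {x y : ℝ} (t : ℝ), x = y → y + t * (y - y) = x := fun t e => by
      rw [e, sub_self, mul_zero, add_zero]
    rcases hK.one _ hp with ⟨e, e'⟩ | ⟨e, e'⟩ | ⟨e, e'⟩
    · exact key (_, _, a3) ⟨le_rfl, le_rfl, l3⟩ t3 h3 k3
        (Prod.ext (z _ (e1 e)) (Prod.ext (z _ (e2 e')) f3))
    · exact key (_, a2, _) ⟨le_rfl, l2, le_rfl⟩ t2 h2 k2
        (Prod.ext (z _ (e1 e)) (Prod.ext f2 (z _ (e3 e'))))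
    · exact key (a1, _, _) ⟨l1, le_rfl, le_rfl⟩ t1 h1 k1
        (Prod.ext f1 (Prod.ext (z _ (e2 e)) (z _ (e3 e'))))
  · rintro ⟨a, ha, b, hb, hab, hp⟩
    rw [segment_eq_image'] at hp
    obtain ⟨t, ⟨h0, h1⟩, rfl⟩ := hp
    change zc n (bpt a + t • (bpt b - bpt a)) ∈ K
    rcases h0.eq_or_lt with rfl | h0
    · rwa [zero_smul, add_zero, zc_bpt]
    · rwa [zc_seg hab h0 h1]

theorem GK.seg (hK : GK K) :
    ∃ S : Finset (E3 × E3), geo K = ⋃ p ∈ S, segment ℝ p.1 p.2 := by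
  refine ⟨(Finset.univ.filter fun q : Box n × Box n => q.1 ∈ K ∧ q.2 ∈ K ∧ q.1 ≤ q.2).image
    fun q => (bpt q.1, bpt q.2), Set.ext fun p => ?_⟩
  simp only [hK.mem_geo, Set.mem_iUnion, Finset.mem_image, Finset.mem_filter, Finset.mem_univ,
    true_and]
  constructor
  · rintro ⟨a, ha, b, hb, hab, hp⟩
    exact ⟨_, ⟨(a, b), ⟨ha, hb, hab⟩, rfl⟩, hp⟩
  · rintro ⟨_, ⟨q, ⟨ha, hb, hab⟩, rfl⟩, hp⟩
    exact ⟨_, ha, _, hb, hab, hp⟩

/-- A point on two half edges of the curve. -/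
theorem GK.bgeo_key (hK : GK K) {a b a' b' : Box n} (hb : b ∈ K) (hb' : b' ∈ K) (h : a ≤ b)
    (hne : a ≠ b) (h' : a' ≤ b') (hne' : a' ≠ b') {r r' : ℝ} (h0 : 0 ≤ r) (h1 : r ≤ 1)
    (h0' : 0 ≤ r') (h1' : r' ≤ 1)
    (e : bpt a + r • (bpt b - bpt a) = bpt a' + r' • (bpt b' - bpt a')) :
    r = r' ∧ (r ≠ 1 → a = a') ∧ (r ≠ 0 → b = b') := by
  have e1 := congrArg (zc n) e
  rcases h0.eq_or_lt with rfl | h0 <;> rcases h0'.eq_or_lt with rfl | h0'
  · rw [zero_smul, zero_smul, add_zero, add_zero, zc_bpt, zc_bpt] at e1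
    exact ⟨rfl, fun _ => e1, fun h => absurd rfl h⟩
  · rw [zero_smul, add_zero, zc_bpt, zc_seg h' h0' h1'] at e1
    subst e1
    exact ((hK.bgeo_chain hb h' h).elim hne' hne).elim
  · rw [zero_smul, add_zero, zc_bpt, zc_seg h h0 h1] at e1
    subst e1
    exact ((hK.bgeo_chain hb' h h').elim hne hne').elim
  · rw [zc_seg h h0 h1, zc_seg h' h0' h1'] at e1
    subst e1
    have e2 : (1 - r) • (bpt a - bpt b) = (1 - r') • (bpt a' - bpt b) := by
      linear_combination (norm := module) e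
    have e3 := congrArg norm e2
    rw [norm_smul, norm_smul, bgeo_norm h hne, bgeo_norm h' hne', Real.norm_of_nonneg (by linarith),
      Real.norm_of_nonneg (by linarith)] at e3
    obtain rfl : r = r' := by linarith
    refine ⟨rfl, fun h2 => ?_, fun _ => rfl⟩
    have e4 := sub_left_injective (smul_right_injective _ (sub_ne_zero.2 h2.symm) e2)
    rw [← zc_bpt a, e4, zc_bpt]

theorem GK.circle (hK : GK K) : Nonempty (geo K ≃ₜ Circle) := by
  obtain ⟨m, v, hm, hper, hbij, hr, hadj⟩ := exists_cycle hK.ne hK.conn hK.two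
  have h0 : v m = v 0 := by rw [← hper 0, zero_add]
  have hs : ∀ i < m, ∃ i' < m, v (i + 1) = v i' ∧ (i' = i + 1 ∨ (i' = 0 ∧ i + 1 = m)) :=
      fun i hi => by
    rcases Nat.lt_or_ge (i + 1) m with h | h
    · exact ⟨_, h, rfl, Or.inl rfl⟩
    · have e : i + 1 = m := by omega
      exact ⟨0, by omega, e ▸ h0, Or.inr ⟨rfl, e⟩⟩
  have hk : ∀ i < m, v i ∈ K ∧ v (i + 1) ∈ K ∧ v i ≠ v (i + 1) := fun i hi => by
    obtain ⟨i', h1, h2, h3⟩ := hs i hi
    rw [h2]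
    exact ⟨hbij.mapsTo hi, hbij.mapsTo h1, fun e => by have := hbij.injOn hi h1 e; omega⟩
  have hx : ∀ i < m, ∀ j < m, v i = v (j + 1) → v (i + 1) = v j → False := fun i hi j hj e e' => by
    obtain ⟨i', h1, h2, h3⟩ := hs i hi
    obtain ⟨j', h4, h5, h6⟩ := hs j hj
    have := hbij.injOn hi h4 (e.trans h5)
    have := hbij.injOn h1 hj (h2.symm.trans e')
    omega
  have hu : geo K = ⋃ i ∈ Set.Iio m, segment ℝ (bpt (v i)) (bpt (v (i + 1))) := by
    ext p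
    simp only [hK.mem_geo, Set.mem_iUnion, exists_prop]
    constructor
    · rintro ⟨a, ha, b, hb, hab, hp⟩
      rcases hadj a ha b hb (Or.inl hab) with rfl | ⟨i, hi, ⟨rfl, rfl⟩ | ⟨rfl, rfl⟩⟩
      · obtain ⟨i, hi, rfl⟩ := hbij.surjOn ha
        rw [segment_same, Set.mem_singleton_iff] at hp
        exact ⟨i, hi, hp ▸ left_mem_segment _ _ _⟩
      · exact ⟨i, hi, hp⟩
      · exact ⟨i, hi, by rwa [segment_symm]⟩
    · rintro ⟨i, hi, hp⟩
      rcases hr i with h | h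
      · exact ⟨_, (hk i hi).1, _, (hk i hi).2.1, h, hp⟩
      · exact ⟨_, (hk i hi).2.1, _, (hk i hi).1, h, by rwa [segment_symm]⟩
  rw [hu]
  refine circle_of_polygon (by omega) (fun i => bpt (v i)) (congrArg bpt h0)
    fun i hi j hj s t s0 s1 t0 t1 e => ?_
  have fl : ∀ (x y : E3) (r : ℝ), x + r • (y - x) = y + (1 - r) • (x - y) := fun x y r => by
    module
  obtain ⟨a1, a2, a3⟩ := hk i hi
  obtain ⟨b1, b2, b3⟩ := hk j hj
  rcases hr i with h | h <;> rcases hr j with h' | h'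
  · obtain ⟨k1, k2, -⟩ := hK.bgeo_key a2 b2 h a3 h' b3 s0 s1.le t0 t1.le e
    exact ⟨hbij.injOn hi hj (k2 s1.ne), k1⟩
  · obtain ⟨k1, k2, k3⟩ := hK.bgeo_key a2 b1 h a3 h' b3.symm s0 s1.le (by linarith) (by linarith)
      (e.trans (fl _ _ t))
    exact (hx i hi j hj (k2 s1.ne) (k3 (by linarith [k1] : 0 < s).ne')).elim
  · obtain ⟨k1, k2, k3⟩ := hK.bgeo_key b2 a1 h' b3 h a3.symm t0 t1.le (by linarith) (by linarith)
      (e.symm.trans (fl _ _ s))
    exact (hx j hj i hi (k2 t1.ne) (k3 (by linarith [k1] : 0 < t).ne')).elim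
  · obtain ⟨k1, -, k3⟩ := hK.bgeo_key a1 b1 h a3.symm h' b3.symm (by linarith) (by linarith)
      (by linarith) (by linarith) ((fl _ _ s).symm.trans (e.trans (fl _ _ t)))
    exact ⟨hbij.injOn hi hj (k3 (sub_pos.2 s1).ne'), by linarith⟩

theorem GK.compl_ne (hK : GK K) : (geo K)ᶜ.Nonempty := by
  refine ⟨(-1, -1, -1), fun h => hK.bgeo_out h (Or.inl (Or.inl ?_))⟩
  change max (-1) (min (2 * (n.1 : ℤ) + 1) (⌊(-1 : ℝ)⌋ + ⌈(-1 : ℝ)⌉)) = -1
  rw [Int.floor_neg, Int.ceil_neg, Int.ceil_one, Int.floor_one]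
  omega

end KG
end
end

-- merged part: Pool.Agent.Work.MP_c146e2_gt.KG.BMain
section
-- merged part: Pool.Agent.Work.MP_c146e2_gt.KG.BFar
section
set_option autoImplicit false

noncomputable section

open scoped Classical

namespace KG

variable {V : Type} {A : Finset Fn}

theorem bfar_con [Fintype V] {G : Cx V} {v : V} (h : Man G {v}) :
    (lk G {v}).Nonempty ∧ Conn G (lk G {v}) :=
  h.con {v} (tree_clq1 G v) ⟨v, Finset.mem_singleton_self v, rfl⟩ (by simp)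

theorem bfar_h1 [Fintype V] {G : Cx V} {Z : Set V} {v : V} (h : Man G {v})
    (hc : Conn G (lk G {v} ∩ Z)) : Thin G (lk G {v} \ Z) ∧ H1 G (lk G {v} \ Z) := by
  have hW := h.toPMan.surf (v := v) rfl
  refine ⟨hW.thin Set.sdiff_subset, h1_dual hW (hW.chi_le.2.1 ?_) Set.sdiff_subset ?_⟩
  · rw [h.sph v rfl, kc_eq_one.2 (bfar_con h)]
    rfl
  · rwa [Set.sdiff_sdiff_right_self]

theorem bfar_val (R : ℝ) (w : ℝ) (p : E3) : af lx R (w, p) = p.1 - R * w := by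
  simp [af, lx, fw]

theorem free_flip [Fintype V] {G : Cx V} {Z : Set V} {v : V} {g : ℕ} (h : Man G {v})
    (hc : Conn G (lk G {v} ∩ Z)) (hf : Free G Zᶜ g) : Free G (insert v Z)ᶜ g := by
    obtain ⟨l, hl, hu⟩ := hf
    obtain ⟨ht, h1⟩ := bfar_h1 h hc
    have hs : (insert v Z)ᶜ ⊆ Zᶜ := Set.compl_subset_compl.2 (Set.subset_insert v Z)
    have hm : ∀ x ∈ Zᶜ, x ≠ v → x ∈ (insert v Z)ᶜ := fun x hx hv h => h.elim hv hx
    have hS : ∀ x ∈ Zᶜ, x ≠ v → G.r x v → x ∈ lk G {v} \ Z :=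
      fun x hx hv hr => ⟨tree_mem_lk.2 ⟨hv, hr⟩, hx⟩
    refine ⟨l, fun a ha b hb c hc => hl a (hs ha) b (hs hb) c (hs hc), fun H _ η hη => ?_⟩
    have hS' : ∀ x ∈ lk G {v} \ Z, x ∈ (insert v Z)ᶜ := fun x hx => hm x hx.2 (tree_mem_lk.1 hx.1).1
    obtain ⟨β, hβ⟩ := flat_triv ht h1 (η := η)
      fun a ha b hb c hc => hη a (hS' a ha) b (hS' b hb) c (hS' c hc)
    obtain ⟨θ, β', hθ⟩ := hu H (fun a b => if a = v then (if b = v then 1 else β b)
        else if b = v then (β a)⁻¹ else η a b) (by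
      intro a ha b hb c hc hab hbc hac
      by_cases e1 : a = v <;> by_cases e2 : b = v <;> by_cases e3 : c = v <;>
        simp only [e1, e2, e3, if_true, if_false, one_mul, mul_one, mul_inv_cancel]
      · rw [hβ b (hS b hb e2 (e1 ▸ G.symm _ _ hab)) c (hS c hc e3 (e1 ▸ G.symm _ _ hac)) hbc,
          mul_inv_cancel_left]
      · rw [hβ a (hS a ha e1 (e2 ▸ hab)) c (hS c hc e3 (e2 ▸ G.symm _ _ hbc)) hac]
      · rw [hβ a (hS a ha e1 (e3 ▸ hac)) b (hS b hb e2 (e3 ▸ hbc)) hab, mul_inv_cancel_right]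
      · exact hη a (hm a ha e1) b (hm b hb e2) c (hm c hc e3) hab hbc hac)
    refine ⟨θ, β', fun a ha b hb hab => ?_⟩
    have := hθ a (hs ha) b (hs hb) hab
    rwa [if_neg fun e => ha (Or.inl e), if_neg fun e => hb (Or.inl e)] at this

theorem conn_flip [Fintype V] {G : Cx V} {Z : Set V} {v : V} (h : Man G {v})
    (hc : Conn G (lk G {v} ∩ Z)) (h1 : chi G (lk G {v} ∩ Z) = 1) (hZ : Conn G Zᶜ) :
    Conn G (insert v Z)ᶜ ∧ (insert v Z)ᶜ.Nonempty := by
    obtain ⟨ht, hh⟩ := bfar_h1 h hc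
    have hW := h.toPMan.surf (v := v) rfl
    have h2 := hW.chi_add (B := lk G {v} ∩ Z) Set.inter_subset_left
    rw [h.sph v rfl, h1, Set.sdiff_self_inter] at h2
    obtain ⟨x, hx⟩ : (lk G {v} ∩ Z).Nonempty := by
      rw [Set.nonempty_iff_ne_empty]
      intro e
      rw [e, chi_empty] at h1
      exact zero_ne_one h1
    have h3 := (chi_le_kc ht.dim (noCyc_sub hW Set.sdiff_subset fun b hb =>
      ⟨x, hx.1, fun h => h.2 hx.2, (bfar_con h).2 b hb.1 x hx.1⟩)).2.2 hh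
    obtain ⟨h4, h5⟩ := (kc_eq_one (G := G) (S := lk G {v} \ Z)).1 (by omega)
    have e : (insert v Z)ᶜ = Zᶜ \ {v} := by
      ext y
      simp only [Set.mem_compl_iff, Set.mem_insert_iff, Set.mem_sdiff, Set.mem_singleton_iff, not_or,
        and_comm]
    have hs : lk G {v} \ Z ⊆ Zᶜ \ {v} := fun y hy => ⟨hy.2, (tree_mem_lk.1 hy.1).1⟩
    rw [e]
    refine ⟨tree_reroute hZ (fun _ => lk G {v} \ Z) (fun _ _ _ => hs) (fun _ _ _ => h5)
      (fun _ _ _ => h4) ?_ fun _ _ _ _ _ _ _ => h4.imp fun _ h => ⟨h, h⟩, h4.mono hs⟩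
    rintro t rfl - y hy hn hr
    exact ⟨tree_mem_lk.2 ⟨hn, G.symm _ _ hr⟩, hy⟩

theorem exists_far (hA : Ess A) {R : ℝ} (hR : af lx R ∈ A) :
    ∃ X Y : Cell A, Tope X ∧ X ∈ Aff A ∧ X.1 (af lx R) = 1 ∧ Y ∉ Aff A ∧ Y ≤ X ∧
      ∀ z ≤ X, z ∉ Aff A → z ≤ Y := by
    obtain ⟨y, hy, hw⟩ : ∃ y : E4, (∀ l ∈ A, l y ≠ 0) ∧ 0 < fw y := by
      obtain ⟨y, hy⟩ := exists_generic hA
      rcases (hy fw hA.fw_mem).lt_or_gt with h | h
      · refine ⟨-y, fun l hl => ?_, ?_⟩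
        · rw [map_neg]; exact neg_ne_zero.2 (hy l hl)
        · rw [map_neg]; exact neg_pos.2 h
      · exact ⟨y, hy, h⟩
    obtain ⟨Y₀, h0⟩ : ∃ Y₀ : Cell A, Y₀.1 = sv A (0, 1, 0, 0) :=
      ⟨⟨_, (0, 1, 0, 0), fun h => one_ne_zero (congrArg (fun x : E4 => x.2.1) h), rfl⟩, rfl⟩
    have h1 : Y₀.1 fw = 0 := by simp [h0, sv, fw]
    have h2 : Y₀.1 (af lx R) = 1 := by simp [h0, sv, hR, bfar_val]
    obtain ⟨X, hX⟩ := exists_cmp hA Y₀ y
    have h3 : Y₀ ≤ X := by rw [Cell.le_iff, hX]; exact sle_cmp _ _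
    have h4 : Y₀ ∉ Aff A := fun h => by
      have : Y₀.1 fw = 1 := h
      rw [h1] at this
      exact zero_ne_one this
    obtain ⟨Y, hY⟩ := (Set.toFinite {z | z ≤ X ∧ z ∉ Aff A}).exists_maximal ⟨Y₀, h3, h4⟩
    refine ⟨X, Y, fun l hl => ?_, ?_, ?_, hY.1.2, hY.1.1, fun z hz hz' => ?_⟩
    · rw [hX, cmp]
      split_ifs with h
      · rw [sv, if_pos hl]
        exact sign_ne_zero.2 (hy l hl)
      · exact h
    · show X.1 fw = 1
      rw [hX, cmp, if_pos h1, sv, if_pos hA.fw_mem, sign_pos hw]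
    · rw [hX, cmp, h2, if_neg one_ne_zero]
    · obtain ⟨x, -, hx⟩ := z.2
      obtain ⟨b, hb⟩ := exists_cmp hA Y x
      rw [hx] at hb
      have h5 : z ≤ b := by rw [Cell.le_iff, hb, cmp_comm hY.1.1 hz]; exact sle_cmp _ _
      refine h5.trans (hY.2 ⟨?_, fun h => ?_⟩ ?_)
      · rw [Cell.le_iff, hb]; exact cmp_sle hY.1.1 hz
      · have : b.1 fw = 1 := h
        rw [hb, cmp] at this
        split_ifs at this
        · exact hz' this
        · exact hY.1.2 this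
      · rw [Cell.le_iff, hb]; exact sle_cmp _ _

theorem far_link {X Y : Cell A} (hX : Tope X) (hw : X ∈ Aff A) (hY : Y ∉ Aff A) (hYX : Y ≤ X)
    (hmax : ∀ z ≤ X, z ∉ Aff A → z ≤ Y) {S : Set (Cell A)} (hS : Sep (ord (Cell A)) S {X}) :
    Y ∈ lk (ord (Cell A)) {X} ∩ (S ∪ (Aff A)ᶜ) ∧
      ∀ z ∈ lk (ord (Cell A)) {X} ∩ (S ∪ (Aff A)ᶜ), z ≤ Y := by
    refine ⟨⟨tree_mem_lk.2 ⟨fun e => hY (e ▸ hw), Or.inl hYX⟩, Or.inr hY⟩, fun z hz => ?_⟩
    obtain ⟨h1, h2⟩ := tree_mem_lk.1 hz.1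
    exact hmax z (h2.resolve_right fun h => h1 (hX.max h))
      (hz.2.resolve_left fun h => hS z h X rfl h2)

theorem far_ball (hA : Ess A) (hs : S3 (ord (Cell A))) {X Y : Cell A} (hX : Tope X)
    (hw : X ∈ Aff A) (hY : Y ∉ Aff A) (hYX : Y ≤ X) (hmax : ∀ z ≤ X, z ∉ Aff A → z ≤ Y) :
    chi (ord (Cell A)) (insert X (Aff A)ᶜ) = 1 ∧
      Conn (sd (ord (Cell A))) (Xs (ord (Cell A)) (insert X (Aff A)ᶜ)) := by
    obtain ⟨h1, h2⟩ := far_link hX hw hY hYX hmax (S := ∅) fun _ h => h.elim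
    rw [Set.empty_union] at h1 h2
    have h3 := chi_cone (G := ord (Cell A)) h1 fun z hz => Or.inl (h2 z hz)
    have h4 := conn_of_cone (G := ord (Cell A)) h1 fun z hz => Or.inl (h2 z hz)
    constructor
    · rw [chi_insert _ fun h : X ∈ (Aff A)ᶜ => h hw, chi_inf hA, h3]
      rfl
    · have h5 := conn_flip (hs.man.mono (Set.subset_univ {X})) h4 h3
        (by rw [compl_compl]; exact conn_aff hA)
      have h6 := tree_kc hs.ne hs.conn hs.h1 (insert X (Aff A)ᶜ)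
      rw [kc_eq_one.2 ⟨h5.2, h5.1⟩, kc_eq_one.2 ⟨Set.insert_nonempty _ _,
        (abs_flip ⟨Y, h1⟩ h4).conn (conn_inf hA)⟩] at h6
      exact kc_le_one.1 (by omega)

theorem far_sep (hA : Ess A) {R : ℝ} (hR : af lx R ∈ A) {X : Cell A} (hl : X.1 (af lx R) = 1)
    {Γ : Set E3} (h : Grf A Γ) (hb : ∀ p ∈ Γ, p.1 < R) :
    Sep (ord (Cell A)) (On A Γ) (insert X (Aff A)ᶜ) := by
    have h1 : On A Γ ⊆ Aff A := by
      rintro _ ⟨p, -, rfl⟩
      exact (aff_iff hA _).2 ⟨p, rfl⟩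
    rintro a ha b (rfl | hb') hr
    · obtain ⟨p, hp, rfl⟩ := ha
      have h2 : (fc A p).1 (af lx R) = -1 := by
        show sv A (1, p) (af lx R) = -1
        rw [sv, if_pos hR, bfar_val, sign_neg (by linarith [hb p hp])]
      rcases hr with hr | hr
      · have := hr (af lx R)
        rw [h2, hl] at this
        revert this
        decide
      · have := hr (af lx R)
        rw [h2, hl] at this
        revert this
        decide
    · rcases hr with hr | hr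
      · exact hb' (aff_upper hr (h1 ha))
      · exact hb' (h1 (h.low hr ha))

end KG
end
end

-- merged part: Pool.Agent.Work.MP_c146e2_gt.KG.BGam
section
set_option autoImplicit false

noncomputable section

open scoped Classical

namespace KG

variable {A : Finset Fn}

theorem bgam_par {u d : E3} (hd : d ≠ 0) (m1 : d.2.1 * u.1 = d.1 * u.2.1)
    (m2 : d.2.2 * u.1 = d.1 * u.2.2) (m3 : d.2.2 * u.2.1 = d.2.1 * u.2.2) : ∃ t : ℝ, u = t • d := by
  obtain ⟨u1, u2, u3⟩ := u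
  obtain ⟨d1, d2, d3⟩ := d
  simp only [Prod.smul_mk, smul_eq_mul, Prod.mk.injEq] at m1 m2 m3 ⊢
  by_cases h1 : d1 = 0
  · by_cases h2 : d2 = 0
    · have h3 : d3 ≠ 0 := fun h3 => hd (by rw [h1, h2, h3]; rfl)
      refine ⟨u3 / d3, ?_, ?_, ?_⟩ <;> field_simp <;> linarith
    · refine ⟨u2 / d2, ?_, ?_, ?_⟩ <;> field_simp <;> linarith
  · refine ⟨u1 / d1, ?_, ?_, ?_⟩ <;> field_simp <;> linarith

theorem bgam_af (l : E3 →ₗ[ℝ] ℝ) (c w : ℝ) (y : E3) : af l c (w, y) = l y - c * w := rfl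

theorem bgam_conv {a b s t : ℝ} (e : SignType.sign a = SignType.sign b) (hs : 0 ≤ s) (ht : 0 ≤ t)
    (hst : s + t = 1) : SignType.sign a = SignType.sign (s • a + t • b) := by
  rcases lt_trichotomy a 0 with h | h | h
  · rw [sign_neg h] at e ⊢
    exact (sign_neg (convex_Iio (𝕜 := ℝ) (0 : ℝ) h (sign_eq_neg_one_iff.1 e.symm) hs ht hst)).symm
  · rw [h, sign_zero] at e ⊢
    rw [sign_eq_zero_iff.1 e.symm, smul_zero, smul_zero, add_zero, sign_zero]
  · rw [sign_pos h] at e ⊢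
    exact (sign_pos (convex_Ioi (𝕜 := ℝ) (0 : ℝ) h (sign_eq_one_iff.1 e.symm) hs ht hst)).symm

theorem mem_seg_iff (p q x : E3) : x ∈ segment ℝ p q ↔
    (x.1 - p.1) * (x.1 - q.1) ≤ 0 ∧ (x.2.1 - p.2.1) * (x.2.1 - q.2.1) ≤ 0 ∧
      (x.2.2 - p.2.2) * (x.2.2 - q.2.2) ≤ 0 ∧
      (q.2.1 - p.2.1) * (x.1 - p.1) = (q.1 - p.1) * (x.2.1 - p.2.1) ∧
      (q.2.2 - p.2.2) * (x.1 - p.1) = (q.1 - p.1) * (x.2.2 - p.2.2) ∧
      (q.2.2 - p.2.2) * (x.2.1 - p.2.1) = (q.2.1 - p.2.1) * (x.2.2 - p.2.2) := by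
  rw [segment_eq_image']
  constructor
  · rintro ⟨t, ⟨h0, h1⟩, rfl⟩
    have k : ∀ a b : ℝ, (a + t * (b - a) - a) * (a + t * (b - a) - b) ≤ 0 := fun a b => by
      have := mul_nonneg (mul_nonneg h0 (sub_nonneg.2 h1)) (sq_nonneg (b - a))
      linarith
    simp only [Prod.fst_add, Prod.snd_add, Prod.smul_fst, Prod.smul_snd, Prod.fst_sub,
      Prod.snd_sub, smul_eq_mul]
    exact ⟨k _ _, k _ _, k _ _, by ring, by ring, by ring⟩
  · rintro ⟨h1, h2, h3, m1, m2, m3⟩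
    by_cases hd : q - p = 0
    · obtain rfl : q = p := sub_eq_zero.1 hd
      refine ⟨0, ⟨le_rfl, zero_le_one⟩, ?_⟩
      have k : ∀ a b : ℝ, (a - b) * (a - b) ≤ 0 → b = a := fun a b h => by nlinarith
      simp only [zero_smul, add_zero]
      exact Prod.ext (k _ _ h1) (Prod.ext (k _ _ h2) (k _ _ h3))
    · obtain ⟨t, ht⟩ := bgam_par (u := x - p) hd m1 m2 m3
      have e : x = p + t • (q - p) := by rw [← ht, add_sub_cancel]
      refine ⟨t, ?_, e.symm⟩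
      have e1 : x.1 = p.1 + t * (q.1 - p.1) := congrArg Prod.fst e
      have e2 : x.2.1 = p.2.1 + t * (q.2.1 - p.2.1) := congrArg (fun z : E3 => z.2.1) e
      have e3 : x.2.2 = p.2.2 + t * (q.2.2 - p.2.2) := congrArg (fun z : E3 => z.2.2) e
      have hp : 0 < (q.1 - p.1) ^ 2 + (q.2.1 - p.2.1) ^ 2 + (q.2.2 - p.2.2) ^ 2 := by
        by_contra hc
        refine hd (Prod.ext ?_ (Prod.ext ?_ ?_))
        · change q.1 - p.1 = 0
          nlinarith [sq_nonneg (q.1 - p.1), sq_nonneg (q.2.1 - p.2.1), sq_nonneg (q.2.2 - p.2.2)]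
        · change q.2.1 - p.2.1 = 0
          nlinarith [sq_nonneg (q.1 - p.1), sq_nonneg (q.2.1 - p.2.1), sq_nonneg (q.2.2 - p.2.2)]
        · change q.2.2 - p.2.2 = 0
          nlinarith [sq_nonneg (q.1 - p.1), sq_nonneg (q.2.1 - p.2.1), sq_nonneg (q.2.2 - p.2.2)]
      rw [e1] at h1
      rw [e2] at h2
      rw [e3] at h3
      have h4 : t * (t - 1) ≤ 0 := by
        refine le_of_mul_le_mul_right ?_ hp
        linarith
      constructor <;> nlinarith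

theorem zero_not_mem_segF (p q : E3) : (0 : Fn) ∉ segF p q := Finset.notMem_erase _ _

theorem af_ne_zero (c : ℝ) : af lx c ≠ 0 ∧ af ly c ≠ 0 ∧ af lz c ≠ 0 := by
  refine ⟨fun h => ?_, fun h => ?_, fun h => ?_⟩
  · simpa [bgam_af, lx] using LinearMap.congr_fun h (0, 1, 0, 0)
  · simpa [bgam_af, ly] using LinearMap.congr_fun h (0, 0, 1, 0)
  · simpa [bgam_af, lz] using LinearMap.congr_fun h (0, 0, 0, 1)

/-- The nine functionals of a segment. -/
def bgamL (p q : E3) : Finset Fn :=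
  {af lx p.1, af lx q.1, af ly p.2.1, af ly q.2.1, af lz p.2.2, af lz q.2.2,
    (q.2.1 - p.2.1) • af lx p.1 - (q.1 - p.1) • af ly p.2.1,
    (q.2.2 - p.2.2) • af lx p.1 - (q.1 - p.1) • af lz p.2.2,
    (q.2.2 - p.2.2) • af ly p.2.1 - (q.2.1 - p.2.1) • af lz p.2.2}

/-- The homogeneous form of the conditions. -/
def bgamH (p q : E3) (z : E4) : Prop :=
  af lx p.1 z * af lx q.1 z ≤ 0 ∧ af ly p.2.1 z * af ly q.2.1 z ≤ 0 ∧
    af lz p.2.2 z * af lz q.2.2 z ≤ 0 ∧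
    ((q.2.1 - p.2.1) • af lx p.1 - (q.1 - p.1) • af ly p.2.1) z = 0 ∧
    ((q.2.2 - p.2.2) • af lx p.1 - (q.1 - p.1) • af lz p.2.2) z = 0 ∧
    ((q.2.2 - p.2.2) • af ly p.2.1 - (q.2.1 - p.2.1) • af lz p.2.2) z = 0

theorem bgam_hm_iff {p q x : E3} : bgamH p q (1, x) ↔ x ∈ segment ℝ p q := by
  simp only [mem_seg_iff, bgamH, bgam_af, lx, ly, lz, LinearMap.fst_apply, LinearMap.comp_apply,
    LinearMap.snd_apply, LinearMap.sub_apply, LinearMap.smul_apply, smul_eq_mul, mul_one,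
    sub_eq_zero]

theorem bgam_hm {p q : E3} (h : segF p q ⊆ A) {z x : E4} (hle : sle (sv A z) (sv A x))
    (hx : bgamH p q x) : bgamH p q z := by
  have k : ∀ l ∈ bgamL p q, l z = 0 ∨ SignType.sign (l z) = SignType.sign (l x) := by
    intro l hl
    by_cases e : l = 0
    · exact Or.inl (by rw [e]; rfl)
    · have h1 := hle l
      simp only [sv, if_pos (h (Finset.mem_erase.2 ⟨e, hl⟩)), sign_eq_zero_iff] at h1
      exact h1
  have k1 : ∀ l ∈ bgamL p q, ∀ l' ∈ bgamL p q, l x * l' x ≤ 0 → l z * l' z ≤ 0 := by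
    intro l hl l' hl' h0
    rcases k l hl with e | e
    · rw [e, zero_mul]
    rcases k l' hl' with e' | e'
    · rw [e', mul_zero]
    rw [← sign_nonpos_iff, sign_mul] at h0 ⊢
    rwa [e, e']
  have k2 : ∀ l ∈ bgamL p q, l x = 0 → l z = 0 := by
    intro l hl h0
    refine (k l hl).elim id fun e => ?_
    rwa [h0, sign_zero, sign_eq_zero_iff] at e
  obtain ⟨h1, h2, h3, h4, h5, h6⟩ := hx
  exact ⟨k1 _ (by simp [bgamL]) _ (by simp [bgamL]) h1, k1 _ (by simp [bgamL]) _ (by simp [bgamL]) h2,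
    k1 _ (by simp [bgamL]) _ (by simp [bgamL]) h3, k2 _ (by simp [bgamL]) h4,
    k2 _ (by simp [bgamL]) h5, k2 _ (by simp [bgamL]) h6⟩

theorem seg_adapt {p q : E3} (h : segF p q ⊆ A) {x y : E3} (e : fc A x = fc A y)
    (hx : x ∈ segment ℝ p q) : y ∈ segment ℝ p q := by
  have e' : sv A (1, x) = sv A (1, y) := congrArg Subtype.val e
  exact bgam_hm_iff.1 (bgam_hm h (fun l => Or.inr (congrFun e' l).symm) (bgam_hm_iff.2 hx))

theorem seg_low (hA : Ess A) {p q : E3} (h : segF p q ⊆ A) :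
    IsLowerSet (On A (segment ℝ p q)) := by
  rintro a ⟨b, ⟨w, y⟩, hz, rfl⟩ hle ⟨x, hx, rfl⟩
  have hle' : sle (sv A (w, y)) (sv A (1, x)) := hle
  have h1 := bgam_hm h hle' (bgam_hm_iff.2 hx)
  have h2 := hle' fw
  simp only [sv, if_pos hA.fw_mem] at h2
  simp only [fw, LinearMap.fst_apply, sign_one, sign_eq_zero_iff, sign_eq_one_iff] at h2
  rcases h2 with rfl | hw
  · obtain ⟨k1, k2, k3, -⟩ := h1
    simp only [bgam_af, lx, ly, lz, LinearMap.fst_apply, LinearMap.comp_apply,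
      LinearMap.snd_apply, mul_zero, sub_zero] at k1 k2 k3
    refine (hz (Prod.ext rfl (Prod.ext ?_ (Prod.ext ?_ ?_)))).elim
    · exact mul_self_eq_zero.1 (le_antisymm k1 (mul_self_nonneg _))
    · exact mul_self_eq_zero.1 (le_antisymm k2 (mul_self_nonneg _))
    · exact mul_self_eq_zero.1 (le_antisymm k3 (mul_self_nonneg _))
  · have e : sv A (1, w⁻¹ • y) = sv A (w, y) := by
      rw [← sv_smul A hw, Prod.smul_mk, smul_eq_mul, mul_one, smul_inv_smul₀ hw.ne']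
    exact ⟨w⁻¹ • y, bgam_hm_iff.1 (bgam_hm h (fun l => Or.inr (congrFun e l)) h1), Subtype.ext e⟩

theorem seg_rk (hA : Ess A) {p q : E3} (h : segF p q ⊆ A) {s : Cell A}
    (hs : s ∈ On A (segment ℝ p q)) : crk A s ≤ 1 := by
  obtain ⟨x, hx, rfl⟩ := hs
  have k : ∀ z ∈ spn A (sv A (1, x)), ∀ l ∈ bgamL p q, l (1, x) = 0 → l z = 0 := by
    intro z hz l hl h0
    by_cases e : l = 0
    · rw [e]; rfl
    · have hl' := h (Finset.mem_erase.2 ⟨e, hl⟩)
      exact mem_spn.1 hz l hl' (by rw [sv, if_pos hl', h0, sign_zero])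
  have hle : spn A (sv A (1, x)) ≤
      Submodule.span ℝ (({(1, p), (0, q - p)} : Finset E4) : Set E4) := by
    rintro ⟨w, y⟩ hz
    obtain ⟨t, ht⟩ : ∃ t : ℝ, y - w • p = t • (q - p) := by
      by_cases hd : q - p = 0
      · obtain rfl : q = p := sub_eq_zero.1 hd
        rw [segment_same, Set.mem_singleton_iff] at hx
        subst hx
        have k1 := k _ hz (af lx x.1) (by simp [bgamL]) (by simp [bgam_af, lx])
        have k2 := k _ hz (af ly x.2.1) (by simp [bgamL]) (by simp [bgam_af, ly])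
        have k3 := k _ hz (af lz x.2.2) (by simp [bgamL]) (by simp [bgam_af, lz])
        simp only [bgam_af, lx, ly, lz, LinearMap.fst_apply, LinearMap.comp_apply,
          LinearMap.snd_apply] at k1 k2 k3
        refine ⟨0, ?_⟩
        rw [zero_smul]
        refine Prod.ext ?_ (Prod.ext ?_ ?_)
        · change y.1 - w * x.1 = 0
          linarith
        · change y.2.1 - w * x.2.1 = 0
          linarith
        · change y.2.2 - w * x.2.2 = 0
          linarith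
      · obtain ⟨-, -, -, m1, m2, m3⟩ := bgam_hm_iff.2 hx
        have k1 := k _ hz _ (by simp [bgamL]) m1
        have k2 := k _ hz _ (by simp [bgamL]) m2
        have k3 := k _ hz _ (by simp [bgamL]) m3
        simp only [bgam_af, lx, ly, lz, LinearMap.fst_apply, LinearMap.comp_apply,
          LinearMap.snd_apply, LinearMap.sub_apply, LinearMap.smul_apply, smul_eq_mul] at k1 k2 k3
        refine bgam_par hd ?_ ?_ ?_
        · change (q.2.1 - p.2.1) * (y.1 - w * p.1) = (q.1 - p.1) * (y.2.1 - w * p.2.1)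
          linarith
        · change (q.2.2 - p.2.2) * (y.1 - w * p.1) = (q.1 - p.1) * (y.2.2 - w * p.2.2)
          linarith
        · change (q.2.2 - p.2.2) * (y.2.1 - w * p.2.1) = (q.2.1 - p.2.1) * (y.2.2 - w * p.2.2)
          linarith
    have e : (w, y) = w • ((1, p) : E4) + t • ((0, q - p) : E4) := by
      refine Prod.ext (by simp) ?_
      change y = w • p + t • (q - p)
      rw [← ht, add_sub_cancel]
    rw [e]
    exact add_mem (Submodule.smul_mem _ _ (Submodule.subset_span (by simp)))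
      (Submodule.smul_mem _ _ (Submodule.subset_span (by simp)))
  have h1 := (Submodule.finrank_mono hle).trans
    ((finrank_span_finset_le_card _).trans Finset.card_le_two)
  change Module.finrank ℝ (spn A (sv A (1, x))) - 1 ≤ 1
  omega

theorem grf_seg (hA : Ess A) (T : Finset (E3 × E3)) (h : ∀ p ∈ T, segF p.1 p.2 ⊆ A) :
    Grf A (⋃ p ∈ T, segment ℝ p.1 p.2) := by
  have k : ∀ s, s ∈ On A (⋃ p ∈ T, segment ℝ p.1 p.2) ↔ ∃ p ∈ T, s ∈ On A (segment ℝ p.1 p.2) :=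
    fun s => by simp only [On, Set.image_iUnion, Set.mem_iUnion, exists_prop]
  refine ⟨fun x y e hx => ?_, fun a b hle ha => ?_, fun s hs hi => ?_⟩
  · simp only [Set.mem_iUnion] at hx ⊢
    obtain ⟨p, hp, hx⟩ := hx
    exact ⟨p, hp, seg_adapt (h p hp) e hx⟩
  · obtain ⟨p, hp, ha⟩ := (k a).1 ha
    exact (k b).2 ⟨p, hp, seg_low hA (h p hp) hle ha⟩
  · rw [← Finset.card_range 2]
    refine Finset.card_le_card_of_injOn (crk A) (fun a ha => ?_) fun a ha b hb e => ?_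
    · obtain ⟨p, hp, h1⟩ := (k a).1 (hi a ha)
      exact Finset.mem_coe.2 (Finset.mem_range.2 (Nat.lt_succ_of_le (seg_rk hA (h p hp) h1)))
    · by_contra hne
      rcases hs.2 a ha b hb with h1 | h1
      · exact (crk_mono (lt_of_le_of_ne h1 hne)).ne e
      · exact (crk_mono (lt_of_le_of_ne h1 (Ne.symm hne))).ne e.symm

theorem Grf.cells (hA : Ess A) {Γ : Set E3} (h : Grf A Γ) :
    Cells Γᶜ (On A Γ ∪ (Aff A)ᶜ)ᶜ (fc A) := by
  have k : ∀ a, a ∈ (On A Γ ∪ (Aff A)ᶜ)ᶜ ↔ a ∉ On A Γ ∧ a ∈ Aff A := fun a => by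
    simp only [Set.mem_compl_iff, Set.mem_union, not_or, not_not]
  refine ⟨fun x => ?_, fun a ha => (aff_iff hA a).1 ((k a).1 ha).2, fun a ha b hab => ?_,
    fun a _ => ?_, fun a _ x hx y hy s t hs ht hst => ?_⟩
  · rw [k]
    exact ⟨fun hx => ⟨fun ⟨y, hy, e⟩ => hx (h.adapt y x e hy), (aff_iff hA _).2 ⟨x, rfl⟩⟩,
      fun hx hx' => hx.1 ⟨x, hx', rfl⟩⟩
  · exact (k b).2 ⟨fun hb => ((k a).1 ha).1 (h.low hab hb), aff_upper hab ((k a).1 ha).2⟩
  · refine isOpen_iff_mem_nhds.2 fun x hx => ?_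
    have hc : Continuous fun y : E3 => ((1, y) : E4) := by fun_prop
    filter_upwards [hc.continuousAt.eventually (sv_near A (1, x))] with y hy
    exact le_trans hx (show fc A x ≤ fc A y from hy)
  · intro l
    by_cases hl : l ∈ A
    · refine (hx l).elim Or.inl fun e1 => (hy l).elim Or.inl fun e2 => Or.inr (e1.trans ?_)
      have e3 : sv A (1, x) l = sv A (1, y) l := e1.symm.trans e2
      have e4 : ((1, s • x + t • y) : E4) = s • ((1, x) : E4) + t • ((1, y) : E4) := by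
        simp [hst]
      change sv A (1, x) l = sv A (1, s • x + t • y) l
      simp only [sv, if_pos hl] at e3 ⊢
      rw [e4, map_add, map_smul, map_smul]
      exact bgam_conv e3 hs ht hst
    · exact Or.inl (a.zero hl)

end KG
end
end

-- merged part: Pool.Agent.Work.MP_c146e2_gt.KG.BHtA
section
set_option autoImplicit false

noncomputable section

open scoped Classical

namespace KG

variable {A : Finset Fn}

/-- The lexicographic order with the cell `X` on top. -/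
def Below (X : Cell A) (ix : Fn → ℕ) (w v : Cell A) : Prop :=
  ∃ l ∈ A, (∀ l' ∈ A, ix l' < ix l → w.1 l' = v.1 l') ∧ X.1 l * w.1 l < X.1 l * v.1 l

theorem below_neg (X : Cell A) (ix : Fn → ℕ) (w v : Cell A) :
    Below X.neg ix w v ↔ Below X ix v w := by
  have h : ∀ x a b : SignType, -x * a < -x * b ↔ x * b < x * a := by decide
  exact exists_congr fun l => and_congr_right fun _ =>
    and_congr (forall₃_congr fun _ _ _ => eq_comm) (h _ _ _)

theorem bhta_diff (ix : Fn → ℕ) {w v : Cell A} (h : w ≠ v) :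
    ∃ l ∈ A, (∀ l' ∈ A, ix l' < ix l → w.1 l' = v.1 l') ∧ w.1 l ≠ v.1 l := by
  obtain ⟨l, hl, hm⟩ := (A.filter fun l => w.1 l ≠ v.1 l).exists_min_image ix (by
    by_contra hn
    refine h (Subtype.ext (funext fun l => ?_))
    by_cases hl : l ∈ A
    · exact by_contra fun e => hn ⟨l, Finset.mem_filter.2 ⟨hl, e⟩⟩
    · rw [w.zero hl, v.zero hl])
  exact ⟨l, (Finset.mem_filter.1 hl).1, fun l' h1 h2 => by_contra fun e =>
    (hm l' (Finset.mem_filter.2 ⟨h1, e⟩)).not_gt h2, (Finset.mem_filter.1 hl).2⟩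

theorem exists_ht {X : Cell A} (hX : Tope X) {ix : Fn → ℕ} (hix : Set.InjOn ix A) :
    ∃ ht : Cell A → ℕ, Function.Injective ht ∧ ∀ w v, ht w < ht v ↔ Below X ix w v := by
  have irr : ∀ v, ¬ Below X ix v v := fun v ⟨_, _, _, h⟩ => lt_irrefl _ h
  have tr : ∀ u v w, Below X ix u v → Below X ix v w → Below X ix u w := by
    rintro u v w ⟨l, hl, h1, h2⟩ ⟨m, hm, h3, h4⟩
    rcases lt_trichotomy (ix l) (ix m) with h | h | h
    · exact ⟨l, hl, fun k hk e => (h1 k hk e).trans (h3 k hk (e.trans h)), h3 l hl h ▸ h2⟩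
    · obtain rfl := hix hl hm h
      exact ⟨l, hl, fun k hk e => (h1 k hk e).trans (h3 k hk e), h2.trans h4⟩
    · exact ⟨m, hm, fun k hk e => (h1 k hk (e.trans h)).trans (h3 k hk e), h1 m hm h ▸ h4⟩
  have tot : ∀ w v, w ≠ v → Below X ix w v ∨ Below X ix v w := fun w v h => by
    obtain ⟨l, hl, h1, h2⟩ := bhta_diff ix h
    have q : ∀ x a b : SignType, x ≠ 0 → a ≠ b → x * a < x * b ∨ x * b < x * a := by decide
    exact (q _ _ _ (hX l hl) h2).imp (fun e => ⟨l, hl, h1, e⟩)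
      fun e => ⟨l, hl, fun k hk e => (h1 k hk e).symm, e⟩
  let ht : Cell A → ℕ := fun v => (Finset.univ.filter fun u => Below X ix u v).card
  have lt : ∀ w v, Below X ix w v → ht w < ht v := fun w v h =>
    Finset.card_lt_card ⟨fun u hu => Finset.mem_filter.2
      ⟨Finset.mem_univ _, tr u w v (Finset.mem_filter.1 hu).2 h⟩, fun hs =>
      irr w (Finset.mem_filter.1 (hs (Finset.mem_filter.2 ⟨Finset.mem_univ _, h⟩))).2⟩
  refine ⟨ht, fun w v e => by_contra fun h => ?_, fun w v => ⟨fun h => ?_, lt w v⟩⟩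
  · exact (tot w v h).elim (fun b => (lt _ _ b).ne e) fun b => (lt _ _ b).ne' e
  · exact (tot w v fun e => h.ne (e ▸ rfl)).resolve_right fun b => (lt _ _ b).not_gt h

theorem below_top {X : Cell A} (hX : Tope X) (ix : Fn → ℕ) {v : Cell A} (hv : v ≠ X) :
    Below X ix v X := by
  obtain ⟨l, hl, h1, h2⟩ := bhta_diff ix hv
  have q : ∀ x a : SignType, x ≠ 0 → a ≠ x → x * a < x * x := by decide
  exact ⟨l, hl, h1, q _ _ (hX l hl) h2⟩

theorem bhta_first (ix : Fn → ℕ) {v : Cell A} (hv : ¬ Tope v) :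
    ∃ l ∈ A, v.1 l = 0 ∧ ∀ k ∈ A, v.1 k = 0 → ix l ≤ ix k := by
  obtain ⟨l, hl, hm⟩ := (A.filter fun l => v.1 l = 0).exists_min_image ix (by
    by_contra hn
    exact hv fun l hl e => hn ⟨l, Finset.mem_filter.2 ⟨hl, e⟩⟩)
  exact ⟨l, (Finset.mem_filter.1 hl).1, (Finset.mem_filter.1 hl).2,
    fun k h1 h2 => hm k (Finset.mem_filter.2 ⟨h1, h2⟩)⟩

theorem bhta_cmp {X v b : Cell A} {ix : Fn → ℕ} {l : Fn} (hl : l ∈ A) (h0 : v.1 l = 0)
    (hm : ∀ k ∈ A, v.1 k = 0 → ix l ≤ ix k) {s : Fn → SignType} (hb : b.1 = cmp v.1 s)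
    (hs : X.1 l * s l < 0) : v ≤ b ∧ Below X ix b v :=
  ⟨Cell.le_iff.2 (hb ▸ sle_cmp _ _), l, hl, fun k hk e => by
    rw [hb, cmp, if_neg fun z => (hm k hk z).not_gt e], by
    rwa [hb, cmp, if_pos h0, h0, mul_zero]⟩

theorem bhta_neg {X : Cell A} (hX : Tope X) {p : E4} (hp : sv A p = X.1) {l : Fn} (hl : l ∈ A) :
    sv A (-p) l = -X.1 l ∧ X.1 l * sv A (-p) l < 0 := by
  have e : sv A (-p) l = -X.1 l := by
    rw [← hp, sv, sv, if_pos hl, if_pos hl, map_neg, Left.sign_neg]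
  have q : ∀ x : SignType, x ≠ 0 → x * -x < 0 := by decide
  exact ⟨e, e ▸ q _ (hX l hl)⟩

/-- The lower link of a cell that is not of top dimension. -/
theorem low_thin (hA : Ess A) {X : Cell A} (hX : Tope X) {ix : Fn → ℕ} (hix : Set.InjOn ix A)
    {v : Cell A} (hv : ¬ Tope v) :
    {w | (ord (Cell A)).r v w ∧ Below X ix w v}.Nonempty ∧
      Conn (ord (Cell A)) {w | (ord (Cell A)).r v w ∧ Below X ix w v} := by
  obtain ⟨l, hl, h0, hm⟩ := bhta_first ix hv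
  obtain ⟨p, -, hp⟩ := X.2
  choose φ hφ using exists_cmp hA v
  have hC : ∀ y, l p * l y < 0 ↔ X.1 l * sv A y l < 0 := fun y => by
    rw [← hp, sv, sv, if_pos hl, if_pos hl, ← sign_mul, ← not_le, ← not_le, sign_nonneg_iff]
  have cv : Convex ℝ {y | l p * l y < 0} := convex_halfSpace_lt (l p • l).isLinear 0
  have sub : ∀ y, X.1 l * sv A y l < 0 → φ y ∈ {w | (ord (Cell A)).r v w ∧ Below X ix w v} :=
    fun y hy => let h := bhta_cmp hl h0 hm (hφ y) hy; ⟨Or.inl h.1, h.2⟩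
  have n := (bhta_neg hX hp hl).2
  refine ⟨⟨_, sub _ n⟩, (conn_usc cv.isPreconnected φ fun x _ =>
    ((sv_near A x).filter_mono nhdsWithin_le_nhds).mono fun y hy => Cell.le_iff.2 (by
      rw [hφ, hφ]; exact cmp_mono _ hy)).of_sub ?_ fun w hw => ?_⟩
  · rintro _ ⟨y, hy, rfl⟩
    exact sub y ((hC y).1 hy)
  rcases hw.1 with h | h
  · obtain ⟨q, -, hq⟩ := w.2
    obtain ⟨ε, h1, h2⟩ := sv_cmp A q (-p)
    have e := h2 ε h1 le_rfl
    rw [hq] at e
    have hy : X.1 l * sv A (q + ε • -p) l < 0 := by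
      rw [e, cmp]
      split_ifs with z
      · exact n
      · obtain ⟨k, hk, k1, k2⟩ := hw.2
        have k0 : v.1 k = 0 := (h k).resolve_right fun e => k2.ne (by rw [e])
        obtain rfl : l = k := hix hl hk ((hm k hk k0).eq_or_lt.resolve_right
          fun e => z ((k1 l hl e).trans h0))
        rwa [h0, mul_zero] at k2
    refine ⟨_, ⟨_, (hC _).2 hy, rfl⟩, rch_step hw (sub _ hy) (Or.inl (Cell.le_iff.2 ?_))⟩
    have : sle v.1 (cmp w.1 (sv A (-p))) := fun k => (h k).elim Or.inl fun e => e ▸ sle_cmp _ _ k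
    rw [hφ, e, cmp_of_sle this]
    exact sle_cmp _ _
  · exact ⟨_, ⟨_, (hC _).2 n, rfl⟩, rch_step hw (sub _ n)
      (Or.inl (h.trans (bhta_cmp hl h0 hm (hφ _) n).1))⟩

theorem low_thin_inf (hA : Ess A) {X : Cell A} (hX : Tope X) (hw : X ∈ Aff A) {ix : Fn → ℕ}
    (hix : Set.InjOn ix A) {v : Cell A} (hv : ¬ Tope v) (hv' : v ∉ Aff A) :
    ∃ w, v ≤ w ∧ Below X ix w v ∧ w ∉ Aff A := by
  obtain ⟨l, hl, h0, hm⟩ := bhta_first ix hv
  obtain ⟨p, -, hp⟩ := X.2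
  obtain ⟨w, e⟩ := exists_cmp hA v (-p)
  have h := bhta_cmp hl h0 hm e (bhta_neg hX hp hl).2
  refine ⟨w, h.1, h.2, fun z : w.1 fw = 1 => ?_⟩
  rw [e, cmp] at z
  split_ifs at z
  · rw [(bhta_neg hX hp hA.fw_mem).1, show X.1 fw = 1 from hw] at z
    exact absurd z (by decide)
  · exact hv' z

end KG
end
end

-- merged part: Pool.Agent.Work.MP_c146e2_gt.KG.BHtB
section
set_option autoImplicit false

noncomputable section

open scoped Classical

namespace KG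

open Topology

variable {A : Finset Fn}

theorem bhtb_same {a b t : ℝ} (hb : b ≠ 0) (ht : t ≤ a / b) :
    SignType.sign (a - t * b) = 0 ∨ SignType.sign (a - t * b) = SignType.sign b := by
  have e : a - t * b = (a / b - t) * b := by field_simp
  rw [e, sign_mul]
  rcases (sub_nonneg.2 ht).eq_or_lt with h | h
  · left; rw [← h, sign_zero, zero_mul]
  · right; rw [sign_pos h, one_mul]

theorem bhtb_pos {a b : ℝ} (h : SignType.sign a = SignType.sign b) (hb : b ≠ 0) : 0 < a / b := by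
  rcases hb.lt_or_gt with h' | h'
  · rw [sign_neg h', sign_eq_neg_one_iff] at h
    exact div_pos_of_neg_of_neg h h'
  · rw [sign_pos h', sign_eq_one_iff] at h
    exact div_pos h h'

theorem bhtb_opp {a b t : ℝ} (ht : 0 < t) (ha : a ≠ 0) (hb : b ≠ 0)
    (h : SignType.sign a ≠ SignType.sign b) : SignType.sign (a - t * b) = SignType.sign a := by
  rcases ha.lt_or_gt with h1 | h1 <;> rcases hb.lt_or_gt with h2 | h2
  · exact absurd ((sign_neg h1).trans (sign_neg h2).symm) h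
  · rw [sign_neg h1, sign_neg (by nlinarith [mul_pos ht h2])]
  · rw [sign_pos h1, sign_pos (by nlinarith [mul_neg_of_pos_of_neg ht h2])]
  · exact absurd ((sign_pos h1).trans (sign_pos h2).symm) h

theorem bhtb_sv {l : Fn} (hl : l ∈ A) (x : E4) : sv A x l = SignType.sign (l x) := if_pos hl

theorem bhtb_cvx (s : Fn → SignType) : Convex ℝ {y : E4 | sv A y = s} := by
  rw [convex_iff_forall_pos]
  intro y hy z hz a b ha hb _
  have h1 : sv A (a • y) = s := (sv_smul A ha y).trans hy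
  have h2 : sv A (b • z) = s := (sv_smul A hb z).trans hz
  exact (sv_add (fun l => Or.inr (by rw [h1, h2]))).trans h2

theorem bhtb_main {X v : Cell A} (hX : Tope X) (hv : Tope v) (hne : v ≠ X.neg) (hne' : v ≠ X) :
    ∃ (C : Set E4) (φ : E4 → Cell A), C.Nonempty ∧ Conn (ord (Cell A)) (φ '' C) ∧
      (∀ y ∈ C, φ y ≤ v ∧ (∃ l ∈ A, (φ y).1 l = 0) ∧ ∀ l ∈ A, (φ y).1 l = 0 → v.1 l = X.1 l) ∧
      ∀ w ≤ v, (∃ l ∈ A, v.1 l = X.1 l ∧ w.1 l = 0) → ∃ y ∈ C, w ≤ φ y := by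
  obtain ⟨p, -, hp⟩ := X.2
  obtain ⟨y0, -, hy0⟩ := v.2
  have hXl : ∀ l ∈ A, X.1 l = SignType.sign (l p) := fun l hl => by rw [← hp, bhtb_sv hl]
  have hlp : ∀ l ∈ A, l p ≠ 0 := fun l hl h => hX l hl (by rw [hXl l hl, h, sign_zero])
  obtain ⟨I, hI⟩ : ∃ I : Finset Fn, ∀ l, l ∈ I ↔ l ∈ A ∧ v.1 l = X.1 l :=
    ⟨A.filter fun l => v.1 l = X.1 l, fun l => Finset.mem_filter⟩
  have hIn : I.Nonempty := by
    by_contra h
    refine hne (Subtype.ext (funext fun l => ?_))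
    show v.1 l = -X.1 l
    by_cases hl : l ∈ A
    · have h1 : v.1 l ≠ X.1 l := fun e => h ⟨l, (hI l).2 ⟨hl, e⟩⟩
      have h2 := hv l hl
      have h3 := hX l hl
      revert h1 h2 h3
      generalize v.1 l = a
      generalize X.1 l = b
      revert a b
      decide
    · rw [v.zero hl, X.zero hl, neg_zero]
  obtain ⟨l1, hl1, hl1'⟩ : ∃ l ∈ A, v.1 l ≠ X.1 l := by
    by_contra h
    refine hne' (Subtype.ext (funext fun l => ?_))
    by_cases hl : l ∈ A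
    · by_contra e
      exact h ⟨l, hl, e⟩
    · rw [v.zero hl, X.zero hl]
  obtain ⟨t, htc, htle, htex⟩ : ∃ t : E4 → ℝ, Continuous t ∧ (∀ y, ∀ l ∈ I, t y ≤ l y / l p) ∧
      ∀ y, ∃ l ∈ I, t y = l y / l p := by
    refine ⟨fun y => I.inf' hIn fun l => l y / l p, ?_, fun y l hl => Finset.inf'_le _ hl,
      fun y => Finset.exists_mem_eq_inf' hIn _⟩
    exact Continuous.finset_inf'_apply hIn fun l _ =>
      (l.continuous_of_finiteDimensional).div_const _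
  obtain ⟨π, hπ⟩ : ∃ π : E4 → E4, ∀ y, π y = y - t y • p := ⟨_, fun _ => rfl⟩
  have hπc : Continuous π := by
    rw [show π = fun y => y - t y • p from funext hπ]
    exact continuous_id.sub (htc.smul continuous_const)
  have hπl : ∀ (l : Fn) y, l (π y) = l y - t y * l p := fun l y => by
    rw [hπ, map_sub, map_smul, smul_eq_mul]
  have hC : ∀ y, sv A y = v.1 → ∀ l ∈ A, v.1 l = SignType.sign (l y) := fun y hy l hl => by
    rw [← hy, bhtb_sv hl]
  have htp : ∀ y, sv A y = v.1 → 0 < t y := fun y hy => by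
    obtain ⟨l, hl, e⟩ := htex y
    obtain ⟨hl, hl'⟩ := (hI l).1 hl
    rw [e]
    exact bhtb_pos (by rw [← hC y hy l hl, hl', hXl l hl]) (hlp l hl)
  have hopp : ∀ y, sv A y = v.1 → ∀ l ∈ A, v.1 l ≠ X.1 l → sv A (π y) l = v.1 l :=
    fun y hy l hl h => by
      rw [bhtb_sv hl, hπl, hC y hy l hl]
      refine bhtb_opp (htp y hy) (fun e => hv l hl ?_) (hlp l hl) ?_
      · rw [hC y hy l hl, e, sign_zero]
      · rwa [← hC y hy l hl, ← hXl l hl]
  have hπ0 : ∀ y, sv A y = v.1 → π y ≠ 0 := fun y hy e => by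
    have := hopp y hy l1 hl1 hl1'
    rw [e, bhtb_sv hl1, map_zero, sign_zero] at this
    exact hv l1 hl1 this.symm
  obtain ⟨φ, hφ⟩ : ∃ φ : E4 → Cell A, ∀ y, sv A y = v.1 → (φ y).1 = sv A (π y) :=
    ⟨fun y => if h : π y ≠ 0 then ⟨sv A (π y), π y, h, rfl⟩ else v,
      fun y hy => by simp only [dif_pos (hπ0 y hy)]⟩
  refine ⟨{y | sv A y = v.1}, φ, ⟨y0, hy0⟩, ?_, fun y hy => ⟨fun l => ?_, ?_, fun l hl h => ?_⟩, ?_⟩
  · refine conn_usc (bhtb_cvx v.1).isPreconnected φ fun x hx => ?_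
    have h1 := (hπc.tendsto x).eventually (sv_near A (π x))
    filter_upwards [nhdsWithin_le_nhds h1, self_mem_nhdsWithin] with y hy hy'
    rw [Cell.le_iff, hφ x hx, hφ y hy']
    exact hy
  · rw [hφ y hy]
    by_cases hl : l ∈ A
    · by_cases h : v.1 l = X.1 l
      · rw [bhtb_sv hl, hπl, h, hXl l hl]
        exact bhtb_same (hlp l hl) (htle y l ((hI l).2 ⟨hl, h⟩))
      · exact Or.inr (hopp y hy l hl h)
    · exact Or.inl (if_neg hl)
  · obtain ⟨l, hl, e⟩ := htex y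
    have hl' := ((hI l).1 hl).1
    refine ⟨l, hl', ?_⟩
    rw [hφ y hy, bhtb_sv hl', hπl, e, div_mul_cancel₀ _ (hlp l hl'), sub_self, sign_zero]
  · by_contra h'
    rw [hφ y hy, hopp y hy l hl h'] at h
    exact hv l hl h
  · rintro w hw ⟨l0, hl0, h0, h0'⟩
    obtain ⟨η, -, hη⟩ := w.2
    have hw' : ∀ l ∈ A, w.1 l = SignType.sign (l η) := fun l hl => by rw [← hη, bhtb_sv hl]
    have ht0 : t η = 0 := by
      apply le_antisymm
      · have := htle η l0 ((hI l0).2 ⟨hl0, h0⟩)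
        rwa [sign_eq_zero_iff.1 ((hw' l0 hl0).symm.trans h0'), zero_div] at this
      · obtain ⟨l, hl, e⟩ := htex η
        obtain ⟨hl, hl'⟩ := (hI l).1 hl
        rw [e]
        rcases hw l with h | h
        · rw [sign_eq_zero_iff.1 ((hw' l hl).symm.trans h), zero_div]
        · exact (bhtb_pos (by rw [← hw' l hl, h, hl', hXl l hl]) (hlp l hl)).le
    have hc : Continuous fun s : ℝ => π (η + s • y0) :=
      hπc.comp (continuous_const.add (continuous_id.smul continuous_const))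
    have h1 : Filter.Tendsto (fun s : ℝ => π (η + s • y0)) (𝓝 0) (𝓝 η) := by
      have := hc.tendsto 0
      rwa [zero_smul, add_zero, hπ, ht0, zero_smul, sub_zero] at this
    obtain ⟨ε, hε, h2⟩ := sv_cmp A η y0
    have h3 := h1.eventually (sv_near A η)
    have h4 : ∀ᶠ s : ℝ in 𝓝[>] 0, s ∈ Set.Ioc 0 ε := Ioc_mem_nhdsGT hε
    obtain ⟨s, hs, hs'⟩ := (h4.and (nhdsWithin_le_nhds h3)).exists
    have h5 : sv A (η + s • y0) = v.1 := by
      rw [h2 s hs.1 hs.2, hη, hy0]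
      exact cmp_of_sle hw
    refine ⟨η + s • y0, h5, ?_⟩
    rw [Cell.le_iff, hφ _ h5, ← hη]
    exact hs'

theorem bhtb_below {X v w : Cell A} (hX : Tope X) (ix : Fn → ℕ) (hw : w ≤ v)
    (h : ∃ l ∈ A, w.1 l = 0) (h' : ∀ l ∈ A, w.1 l = 0 → v.1 l = X.1 l) : Below X ix w v := by
  obtain ⟨l, hl, hm⟩ := (A.filter fun l => w.1 l = 0).exists_min_image ix
    (h.imp fun l hl => Finset.mem_filter.2 hl)
  obtain ⟨hl, hl0⟩ := Finset.mem_filter.1 hl
  refine ⟨l, hl, fun l' hl' hlt => (hw l').resolve_left fun e => ?_, ?_⟩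
  · exact absurd (hm l' (Finset.mem_filter.2 ⟨hl', e⟩)) (not_le.2 hlt)
  · have h1 := hX l hl
    rw [hl0, h' l hl hl0]
    revert h1
    generalize X.1 l = a
    revert a
    decide

theorem bhtb_of {X v w : Cell A} {ix : Fn → ℕ} (hw : w ≤ v) (h : Below X ix w v) :
    ∃ l ∈ A, v.1 l = X.1 l ∧ w.1 l = 0 := by
  obtain ⟨l, hl, -, h⟩ := h
  have h0 : w.1 l = 0 := (hw l).resolve_right fun e => by
    rw [e] at h
    exact lt_irrefl _ h
  refine ⟨l, hl, ?_, h0⟩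
  rw [h0] at h
  revert h
  generalize X.1 l = a
  generalize v.1 l = b
  revert a b
  decide

theorem bhtb_le {v w : Cell A} (hv : Tope v) (h : (ord (Cell A)).r v w) : w ≤ v :=
  h.elim (fun h => (hv.max h).le) id

/-- The lower link of a cell of top dimension. -/
theorem low_tope (hA : Ess A) {X : Cell A} (hX : Tope X) {ix : Fn → ℕ} (hix : Set.InjOn ix A)
    {v : Cell A} (hv : Tope v) (hne : v ≠ X.neg) :
    {w | (ord (Cell A)).r v w ∧ Below X ix w v}.Nonempty ∧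
      Conn (ord (Cell A)) {w | (ord (Cell A)).r v w ∧ Below X ix w v} := by
  have _ := hix
  by_cases hne' : v = X
  · subst hne'
    have e : {w | (ord (Cell A)).r v w ∧ Below v ix w v} = {z | z < v} := by
      ext w
      refine ⟨fun h => lt_of_le_of_ne (bhtb_le hv h.1) fun e => ?_,
        fun h => ⟨Or.inr (le_of_lt h), below_top hv ix (ne_of_lt h)⟩⟩
      obtain ⟨l, hl, -, h0⟩ := bhtb_of (bhtb_le hv h.1) h.2
      rw [e] at h0
      exact hv l hl h0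
    rw [e]
    refine ((gp_cell hA).low v (Set.mem_univ _) v le_rfl).2 ?_
    rw [crk, (tope_iff hA v).1 hv]
    omega
  · obtain ⟨C, φ, ⟨y0, hy0⟩, hc, h1, h2⟩ := bhtb_main hX hv hne hne'
    have hs : φ '' C ⊆ {w | (ord (Cell A)).r v w ∧ Below X ix w v} := by
      rintro _ ⟨y, hy, rfl⟩
      exact ⟨Or.inr (h1 y hy).1, bhtb_below hX ix (h1 y hy).1 (h1 y hy).2.1 (h1 y hy).2.2⟩
    refine ⟨⟨φ y0, hs ⟨y0, hy0, rfl⟩⟩, hc.of_sub hs fun w hw => ?_⟩
    obtain ⟨y, hy, h⟩ := h2 w (bhtb_le hv hw.1) (bhtb_of (bhtb_le hv hw.1) hw.2)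
    exact ⟨φ y, ⟨y, hy, rfl⟩, rch_step hw (hs ⟨y, hy, rfl⟩) (Or.inl h)⟩

theorem low_tope_inf (hA : Ess A) {X : Cell A} (hX : Tope X) (hw : X ∈ Aff A) {ix : Fn → ℕ}
    (hix : Set.InjOn ix A) {v : Cell A} (hv : Tope v) (hne : v ≠ X.neg) (hv' : v ∉ Aff A) :
    ∃ w, w ≤ v ∧ Below X ix w v ∧ w ∉ Aff A := by
  have _ := hix
  have _ := hA
  obtain ⟨C, φ, ⟨y, hy⟩, -, h1, -⟩ := bhtb_main hX hv hne fun e => hv' (e ▸ hw)
  exact ⟨φ y, (h1 y hy).1, bhtb_below hX ix (h1 y hy).1 (h1 y hy).2.1 (h1 y hy).2.2,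
    fun h => hv' (aff_upper (h1 y hy).1 h)⟩

end KG
end
end

-- merged part: Pool.Agent.Work.MP_c146e2_gt.KG.BHt
section
set_option autoImplicit false

noncomputable section

open scoped Classical

namespace KG

variable {A : Finset Fn}

theorem bht_path (hA : Ess A) {X : Cell A} (hX : Tope X) (hw : X ∈ Aff A) {ix : Fn → ℕ}
    (hix : Set.InjOn ix A) {ht : Cell A → ℕ} (hht : ∀ w v, ht w < ht v ↔ Below X ix w v) :
    ∀ (k : ℕ) (v : Cell A), ht v = k → v ∉ Aff A → ∃ (n : ℕ) (h : ℕ → Cell A), h 0 = X.neg ∧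
      h n = v ∧ (∀ i ≤ n, h i ∉ Aff A) ∧
      ∀ i < n, (ord (Cell A)).r (h i) (h (i + 1)) ∧ ht (h i) < ht (h (i + 1)) := by
  intro k
  induction k using Nat.strong_induction_on with
  | _ k ih =>
    intro v hk hv
    by_cases hne : v = X.neg
    · exact ⟨0, fun _ => v, hne, rfl, fun _ _ => hv, fun _ h => absurd h (Nat.not_lt_zero _)⟩
    obtain ⟨w, h1, h2, h3⟩ : ∃ w, (ord (Cell A)).r w v ∧ Below X ix w v ∧ w ∉ Aff A := by
      by_cases ht : Tope v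
      · obtain ⟨w, h1, h2⟩ := low_tope_inf hA hX hw hix ht hne hv
        exact ⟨w, Or.inl h1, h2⟩
      · obtain ⟨w, h1, h2⟩ := low_thin_inf hA hX hw hix ht hv
        exact ⟨w, Or.inr h1, h2⟩
    obtain ⟨n, h, a1, a2, a3, a4⟩ := ih (ht w) (hk ▸ (hht _ _).2 h2) w rfl h3
    refine ⟨n + 1, fun i => if i ≤ n then h i else v, by simpa using a1, by simp, fun i _ => ?_,
      fun i hi => ?_⟩
    · dsimp only
      split_ifs with hi
      exacts [a3 i hi, hv]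
    · dsimp only
      rw [if_pos (by omega)]
      split_ifs with hi'
      · exact a4 i (by omega)
      · obtain rfl : i = n := by omega
        rw [a2]
        exact ⟨h1, (hht _ _).2 h2⟩

theorem bht_low (hA : Ess A) {X : Cell A} (hX : Tope X) {ix : Fn → ℕ} (hix : Set.InjOn ix A)
    {v : Cell A} (hne : v ≠ X.neg) :
    {w | (ord (Cell A)).r v w ∧ Below X ix w v}.Nonempty ∧
      Conn (ord (Cell A)) {w | (ord (Cell A)).r v w ∧ Below X ix w v} := by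
  by_cases ht : Tope v
  exacts [low_tope hA hX hix ht hne, low_thin hA hX hix ht]

theorem sph_cell (hA : Ess A) {X Y : Cell A} (hX : Tope X) (hw : X ∈ Aff A) (hY : Y ∉ Aff A)
    (hYX : Y ≤ X) : Sph (ord (Cell A)) (insert X (Aff A)ᶜ) := by
  obtain ⟨ix, hix⟩ : ∃ ix : Fn → ℕ, Set.InjOn ix A := Set.countable_iff_exists_injOn.1 A.countable_toSet
  obtain ⟨ht, h1, h2⟩ := exists_ht hX hix
  obtain ⟨n, h, a1, a2, a3, a4⟩ := bht_path hA hX hw hix h2 _ Y rfl hY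
  refine ⟨man_cell hA, ht, n + 1, fun i => if i ≤ n then h i else X, h1, fun v hv => ?_,
    fun v hv => ?_, fun i _ => ?_, fun i hi => ?_⟩
  · have := bht_low hA hX hix (v := v) (by simpa [a1] using hv)
    simpa only [lowl, h2] using this
  · have := bht_low hA hX.neg hix (v := v) (by simpa [Cell.neg_neg] using hv)
    simpa only [uppl, h2, below_neg] using this
  · split_ifs with hi
    exacts [Or.inr (a3 i hi), Or.inl rfl]
  · rw [if_pos (by omega)]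
    split_ifs with hi'
    · exact a4 i (by omega)
    · obtain rfl : i = n := by omega
      rw [a2]
      exact ⟨Or.inl hYX, (h2 _ _).2 (below_top hX ix fun e => hY (e ▸ hw))⟩

end KG
end
end

-- merged part: Pool.Agent.Work.MP_c146e2_gt.KG.BRep
section
set_option autoImplicit false

noncomputable section

open scoped Classical

namespace KG

open Pool.Agent.Work.MP_5036cb_gt Topology

theorem rep_mem_local {E H : Type} [TopologicalSpace E] [Group H] {X : Set E}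
    {R : (unitInterval → E) → H} (hR : IsRep X R) (S : Subgroup H)
    (hloc : ∀ x ∈ X, ∃ U ∈ 𝓝[X] x, ∀ γ, Valid (X ∩ U) γ → R γ ∈ S) {γ : unitInterval → E}
    (hγ : Valid X γ) : R γ ∈ S := by
    let Ψ : ℝ → E := fun r => γ (Set.projIcc 0 1 zero_le_one r)
    have hΨ : Continuous Ψ := hγ.1.comp continuous_projIcc
    have hm : Set.MapsTo Ψ Set.univ X := fun r _ => hγ.2 _
    obtain ⟨T, hT⟩ := hR.exists_pot (convex_univ (𝕜 := ℝ) (E := ℝ)) hΨ.continuousOn hm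
    have hlc : IsLocallyConstant fun r => (T 0)⁻¹ * T r ∈ S := by
      rw [IsLocallyConstant.iff_eventually_eq]
      intro r
      obtain ⟨U, hU, hU'⟩ := hloc (Ψ r) (hγ.2 _)
      have h1 : Ψ ⁻¹' U ∈ 𝓝 r :=
        (tendsto_nhdsWithin_iff.2 ⟨hΨ.tendsto r, Filter.Eventually.of_forall fun _ => hγ.2 _⟩) hU
      obtain ⟨ε, hε, hsub⟩ := Metric.mem_nhds_iff.1 h1
      filter_upwards [Metric.ball_mem_nhds r hε] with r' hr'
      have hv := valid_seg (convex_ball r ε) (Metric.mem_ball_self hε) hr'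
      have h2 := hT _ (hv.mono (Set.subset_univ _))
      have h3 := hU' (fun t => Ψ (seg r r' t)) ⟨hΨ.comp hv.1, fun t => ⟨hγ.2 _, hsub (hv.2 t)⟩⟩
      rw [h2, seg_zero, seg_one] at h3
      have h4 : (T 0)⁻¹ * T r' = (T 0)⁻¹ * T r * ((T r)⁻¹ * T r') := by group
      rw [h4]
      exact propext (S.mul_mem_cancel_right h3)
    have h1 := hT (fun t => (t : ℝ)) ⟨continuous_subtype_val, fun _ => Set.mem_univ _⟩
    have h2 : (fun t : unitInterval => Ψ (t : ℝ)) = γ := by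
      funext t; simp [Ψ]
    rw [h2] at h1
    have h3 := hlc.apply_eq_of_preconnectedSpace 0 1
    simp only [inv_mul_cancel, one_mem] at h3
    rw [h1]
    exact h3 ▸ trivial

theorem rep_ext_local {E H : Type} [TopologicalSpace E] [Group H] {X : Set E}
    {R R' : (unitInterval → E) → H} (hR : IsRep X R) (hR' : IsRep X R')
    (hloc : ∀ x ∈ X, ∃ U ∈ 𝓝[X] x, ∀ γ, Valid (X ∩ U) γ → R γ = R' γ) {γ : unitInterval → E}
    (hγ : Valid X γ) : R γ = R' γ := by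
    have hP : IsRep X fun γ => (R γ, R' γ) :=
      ⟨fun x hx => Prod.ext (hR.const x hx) (hR'.const x hx),
        fun F hF hX => Prod.ext (hR.square F hF hX) (hR'.square F hF hX)⟩
    exact rep_mem_local hP ((MonoidHom.fst H H).eqLocus (MonoidHom.snd H H)) hloc hγ

theorem rep_star {H : Type} [Group H] {X : Set E3} {R : (unitInterval → E3) → H} (hR : IsRep X R)
    {C : Set E3} (hC : C ⊆ X) {p : E3} (hp : p ∈ C) (hs : StarConvex ℝ p C)
    {γ : unitInterval → E3} (hγ : Valid C γ) :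
    R γ = (R (seg p (γ 0)))⁻¹ * R (seg p (γ 1)) := by
    have hc : Continuous fun q : unitInterval × unitInterval => seg p (γ q.2) q.1 := by
      have := hγ.1
      unfold seg; fun_prop
    have := hR.square _ hc fun q => hC (hs.add_smul_sub_mem (hγ.2 q.2) q.1.2.1 q.1.2.2)
    simp only [seg_zero, seg_one] at this
    rw [hR.const _ (hC hp), one_mul] at this
    rw [eq_inv_mul_iff_mul_eq]
    exact this

/-- A continuous map between subspaces extends to a map of the ambient space. -/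
theorem brep_ext {X X' : Set E3} {f : X → X'} (hf : Continuous f) :
    ∃ g : E3 → E3, ContinuousOn g X ∧ ∀ x : X, g x = f x := by
  refine ⟨fun z => if h : z ∈ X then f ⟨z, h⟩ else z, ?_, fun x => dif_pos x.2⟩
  rw [continuousOn_iff_continuous_domRestrict]
  refine (continuous_subtype_val.comp hf).congr fun x => Eq.symm ?_
  exact dif_pos x.2

theorem URep.homeo {X X' : Set E3} (e : X ≃ₜ X') {L : Type} [Group L] (h : URep X' L) :
    URep X L := by
    obtain ⟨R₀, h0, hu⟩ := h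
    obtain ⟨f, hf, ef⟩ := brep_ext e.continuous
    obtain ⟨g, hg, eg⟩ := brep_ext e.symm.continuous
    have mf : Set.MapsTo f X X' := fun x hx => (ef ⟨x, hx⟩).symm ▸ (e ⟨x, hx⟩).2
    have mg : Set.MapsTo g X' X := fun x hx => (eg ⟨x, hx⟩).symm ▸ (e.symm ⟨x, hx⟩).2
    have gf : ∀ x ∈ X, g (f x) = x := fun x hx => by
      rw [show f x = e ⟨x, hx⟩ from ef ⟨x, hx⟩, eg, e.symm_apply_apply]
    refine ⟨_, h0.comp hf mf, fun H _ R hR => ?_⟩
    obtain ⟨θ, β, hθ⟩ := hu H _ (hR.comp hg mg)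
    refine ⟨θ, fun x => β (f x), fun γ hγ => ?_⟩
    have := hθ _ (hγ.comp hf mf)
    rwa [show (fun t => g (f (γ t))) = γ from funext fun t => gf _ (hγ.2 t)] at this

end KG
end
end

-- merged part: Pool.Agent.Work.MP_c146e2_gt.KG.BPi
section
set_option autoImplicit false

noncomputable section

open scoped Classical

namespace KG

open Pool.Agent.Work.MP_5036cb_gt

open CategoryTheory in
/-- A retraction of the fundamental groupoid onto the fundamental group. -/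
theorem bpi_retr {Y : Type} [TopologicalSpace Y] (x : Y) :
    ∃ w : ∀ y z : Y, Path y z → FundamentalGroup Y x,
      (∀ y z (p q : Path y z), p.Homotopic q → w y z p = w y z q) ∧
      (∀ y, w y y (Path.refl y) = 1) ∧
      (∀ y z u (p : Path y z) (q : Path z u), w y u (p.trans q) = w y z p * w z u q) ∧
      ∀ g, ∃ p : Path x x, w x x p = g := by
  let B : ∀ y, Joined x y → (FundamentalGroupoid.mk x ⟶ FundamentalGroupoid.mk y) :=
    fun y h => FundamentalGroupoid.fromPath (Path.Homotopic.Quotient.mk h.somePath)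
  let c : ∀ y z : Y, Path y z → (FundamentalGroupoid.mk y ⟶ FundamentalGroupoid.mk z) :=
    fun y z p => FundamentalGroupoid.fromPath (Path.Homotopic.Quotient.mk p)
  have c1 : ∀ y, c y y (Path.refl y) = 𝟙 _ := fun y => rfl
  have c2 : ∀ y z u (p : Path y z) (q : Path z u), c y u (p.trans q) = c y z p ≫ c z u q :=
    fun y z u p q => rfl
  let v : ∀ y z : Y, Path y z → Joined x y →
      (FundamentalGroupoid.mk x ⟶ FundamentalGroupoid.mk x) := fun y z p h =>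
    inv (B x (Joined.refl x)) ≫ B z (h.trans ⟨p⟩) ≫ inv (c y z p) ≫ inv (B y h) ≫
      B x (Joined.refl x)
  refine ⟨fun y z p => if h : Joined x y then FundamentalGroup.fromArrow (v y z p h) else 1,
    fun y z p q hpq => ?_, fun y => ?_, fun y z u p q => ?_, fun g => ?_⟩
  · have e : c y z p = c y z q := Path.Homotopic.Quotient.eq.mpr hpq
    simp only [v, e]
  · dsimp only
    split_ifs with h
    · change v y y _ h = 𝟙 _
      simp [v, c1]
    · rfl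
  · dsimp only
    by_cases h : Joined x y
    · have h' : Joined x z := h.trans ⟨p⟩
      rw [dif_pos h, dif_pos h, dif_pos h']
      change v y u _ h = v z u q h' ≫ v y z p h
      simp [v, c2]
    · have h' : ¬ Joined x z := fun h' => h (h'.trans ⟨p.symm⟩)
      rw [dif_neg h, dif_neg h, dif_neg h', mul_one]
  · obtain ⟨p, e⟩ : ∃ p, c x x p = inv g.toArrow :=
      Path.Homotopic.Quotient.mk_surjective (x₀ := x) (x₁ := x) _
    refine ⟨p, ?_⟩
    dsimp only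
    rw [dif_pos (Joined.refl x)]
    change v x x p _ = g.toArrow
    simp [v, e]

open unitInterval in
/-- The two boundary paths of a square are homotopic. -/
theorem bpi_square {Y : Type} [TopologicalSpace Y] (H : C(I × I, Y)) :
    ∃ (b : Path (H (0, 0)) (H (1, 0))) (r : Path (H (1, 0)) (H (1, 1)))
      (l : Path (H (0, 0)) (H (0, 1))) (u : Path (H (0, 1)) (H (1, 1))),
      (∀ t, b t = H (t, 0)) ∧ (∀ t, r t = H (1, t)) ∧ (∀ t, l t = H (0, t)) ∧
      (∀ t, u t = H (t, 1)) ∧ (b.trans r).Homotopic (l.trans u) := by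
  have : ContractibleSpace I :=
    (convex_Icc (0 : ℝ) 1).contractibleSpace ⟨0, le_rfl, zero_le_one⟩
  let b : Path ((0, 0) : I × I) (1, 0) := ⟨⟨fun t => (t, 0), by fun_prop⟩, rfl, rfl⟩
  let r : Path ((1, 0) : I × I) (1, 1) := ⟨⟨fun t => (1, t), by fun_prop⟩, rfl, rfl⟩
  let l : Path ((0, 0) : I × I) (0, 1) := ⟨⟨fun t => (0, t), by fun_prop⟩, rfl, rfl⟩
  let u : Path ((0, 1) : I × I) (1, 1) := ⟨⟨fun t => (t, 1), by fun_prop⟩, rfl, rfl⟩
  refine ⟨b.map H.continuous, r.map H.continuous, l.map H.continuous, u.map H.continuous,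
    fun _ => rfl, fun _ => rfl, fun _ => rfl, fun _ => rfl, ?_⟩
  rw [← Path.map_trans, ← Path.map_trans]
  exact (SimplyConnectedSpace.paths_homotopic _ _).map H

/-- The tautological representation. -/
theorem exists_taut (X : Set E3) (x : X) :
    ∃ R : (unitInterval → E3) → FundamentalGroup X x, IsRep X R ∧
      ∀ g, ∃ γ, Valid X γ ∧ γ 0 = x.1 ∧ γ 1 = x.1 ∧ R γ = g := by
  obtain ⟨w, w0, w1, w2, w3⟩ := bpi_retr x
  let P : ∀ γ : unitInterval → E3, ∀ h : Valid X γ, Path (⟨γ 0, h.2 0⟩ : X) ⟨γ 1, h.2 1⟩ :=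
    fun γ h => ⟨⟨fun t => ⟨γ t, h.2 t⟩, h.1.subtype_mk _⟩, rfl, rfl⟩
  let R : (unitInterval → E3) → FundamentalGroup X x := fun γ =>
    if h : Valid X γ then w _ _ (P γ h) else 1
  have hv : ∀ (y z : X) (p : Path y z), Valid X fun t => (p t : E3) := fun y z p =>
    ⟨continuous_subtype_val.comp p.continuous, fun t => (p t).2⟩
  have hR : ∀ (y z : X) (p : Path y z), R (fun t => (p t : E3)) = w y z p := by
    rintro y z ⟨f, rfl, rfl⟩
    exact dif_pos (hv _ _ ⟨f, rfl, rfl⟩)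
  refine ⟨R, ⟨fun y hy => (hR _ _ (Path.refl (⟨y, hy⟩ : X))).trans (w1 _), fun H hH hX => ?_⟩,
    fun g => ?_⟩
  · obtain ⟨b, r, l, u, hb, hr, hl, hu, hh⟩ :=
      bpi_square (Y := X) ⟨fun p => ⟨H p, hX p⟩, hH.subtype_mk _⟩
    have eb := hR _ _ b
    have er := hR _ _ r
    have el := hR _ _ l
    have eu := hR _ _ u
    simp only [hb, hr, hl, hu, ContinuousMap.coe_mk] at eb er el eu
    rw [eb, er, el, eu, ← w2, ← w2]
    exact w0 _ _ _ _ hh
  · obtain ⟨p, hp⟩ := w3 g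
    exact ⟨fun t => (p t : E3), hv _ _ p, by simp, by simp, (hR _ _ p).trans hp⟩

end KG
end
end

-- merged part: Pool.Agent.Work.MP_c146e2_gt.KG.BNrv
section
set_option autoImplicit false

noncomputable section

open scoped Classical

namespace KG

open Pool.Agent.Work.MP_5036cb_gt

variable {P : Type} [PartialOrder P] {X : Set E3} {U : Set P} {F : E3 → P}

theorem bnrv_sub (h : Cells X U F) {a : P} (ha : a ∈ U) : {x | a ≤ F x} ⊆ X :=
  fun x hx => (h.mem x).2 (h.upp a ha _ hx)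

theorem bnrv_pt (h : Cells X U F) : ∃ pt : P → E3, ∀ a ∈ U, F (pt a) = a := by
  refine ⟨fun a => if ha : a ∈ U then (h.sur a ha).choose else 0, fun a ha => ?_⟩
  simp only [dif_pos ha]
  exact (h.sur a ha).choose_spec

theorem bnrv_pot (h : Cells X U F) {H : Type} [Group H] {R : (unitInterval → E3) → H}
    (hR : IsRep X R) {a : P} (ha : a ∈ U) :
    ∃ T : E3 → H, (∀ γ, Valid {x | a ≤ F x} γ → R γ = (T (γ 0))⁻¹ * T (γ 1)) ∧
      ∀ p q, a ≤ F p → a ≤ F q → R (seg p q) = (T p)⁻¹ * T q := by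
  obtain ⟨T, hT⟩ := hR.exists_pot (h.cvx a ha) (Ψ := id) continuousOn_id (bnrv_sub h ha)
  refine ⟨T, hT, fun p q hp hq => ?_⟩
  have := hT (seg p q) (valid_seg (h.cvx a ha) hp hq)
  rwa [seg_zero, seg_one] at this

theorem bnrv_flat (h : Cells X U F) {H : Type} [Group H] {R : (unitInterval → E3) → H}
    (hR : IsRep X R) {pt : P → E3} (hpt : ∀ a ∈ U, F (pt a) = a) :
    Flat (ord P) U fun a b => R (seg (pt a) (pt b)) := by
  intro a ha b hb c hc hab hbc hac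
  obtain ⟨m, hm, h1, h2, h3⟩ : ∃ m ∈ U, m ≤ a ∧ m ≤ b ∧ m ≤ c := by
    rcases hab with hab | hab
    · rcases hac with hac | hac
      · exact ⟨a, ha, le_rfl, hab, hac⟩
      · exact ⟨c, hc, hac, hac.trans hab, le_rfl⟩
    · rcases hbc with hbc | hbc
      · exact ⟨b, hb, hab, le_rfl, hbc⟩
      · exact ⟨c, hc, hbc.trans hab, hbc, le_rfl⟩
  obtain ⟨T, -, hT⟩ := bnrv_pot h hR hm
  rw [← hpt a ha] at h1
  rw [← hpt b hb] at h2
  rw [← hpt c hc] at h3
  show R (seg (pt a) (pt b)) * R (seg (pt b) (pt c)) = R (seg (pt a) (pt c))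
  rw [hT _ _ h1 h2, hT _ _ h2 h3, hT _ _ h1 h3]
  group

theorem bnrv_valid (h : Cells X U F) {pt : P → E3} (hpt : ∀ a ∈ U, F (pt a) = a) {m a b : P}
    (hm : m ∈ U) (ha : m ≤ a) (hb : m ≤ b) : Valid {x | m ≤ F x} (seg (pt a) (pt b)) := by
  refine valid_seg (h.cvx m hm) ?_ ?_
  · show m ≤ F (pt a)
    rwa [hpt a (h.upp m hm a ha)]
  · show m ≤ F (pt b)
    rwa [hpt b (h.upp m hm b hb)]

theorem Cells.univ (h : Cells X U F) {L : Type} [Group L] (hu : URep X L) :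
    ∃ l : P → P → L, Univ (ord P) U l := by
  obtain ⟨R₀, hR₀, hu⟩ := hu
  obtain ⟨pt, hpt⟩ := bnrv_pt h
  refine ⟨fun a b => R₀ (seg (pt a) (pt b)), bnrv_flat h hR₀ hpt, fun H _ η hη => ?_⟩
  rcases X.eq_empty_or_nonempty with he | hX
  · refine ⟨1, fun _ => 1, fun a ha => ?_⟩
    have : pt a ∈ X := (h.mem _).2 (by rwa [hpt a ha])
    rw [he] at this
    exact this.elim
  obtain ⟨R, hR, hloc⟩ := exists_rep_of_local X hX (fun a : U => {x | a.1 ≤ F x})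
    (fun a y => η a.1 (F y))
    (fun a x hx => mem_nhdsWithin_of_mem_nhds ((h.opn a.1 a.2).mem_nhds hx.2))
    (fun y hy => ⟨⟨F y, (h.mem y).1 hy⟩, le_refl (F y)⟩)
    (fun a b y hy => by
      have hy0 : F y ∈ U := (h.mem y).1 hy.1.1
      have hn : {x | F y ≤ F x} ∈ nhdsWithin y X :=
        mem_nhdsWithin_of_mem_nhds ((h.opn _ hy0).mem_nhds (le_refl (F y)))
      filter_upwards [hn] with y' hy'
      have hy1 : F y' ∈ U := h.upp _ hy0 _ hy'
      have ha : a.1 ≤ F y := hy.1.2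
      have hb : b.1 ≤ F y := hy.2
      rw [← hη a.1 a.2 _ hy0 _ hy1 (Or.inl ha) (Or.inl hy') (Or.inl (ha.trans hy')),
        ← hη b.1 b.2 _ hy0 _ hy1 (Or.inl hb) (Or.inl hy') (Or.inl (hb.trans hy'))]
      group)
  obtain ⟨θ, β, hβ⟩ := hu H R hR
  refine ⟨θ, fun a => β (pt a), fun a ha b hb hab => ?_⟩
  have key : ∀ m ∈ U, m ≤ a → m ≤ b →
      (η m a)⁻¹ * η m b = (β (pt a))⁻¹ * θ (R₀ (seg (pt a) (pt b))) * β (pt b) := by
    intro m hm h1 h2
    have hv := bnrv_valid h hpt hm h1 h2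
    have e1 := hβ _ (hv.mono (bnrv_sub h hm))
    have e2 := hloc ⟨m, hm⟩ _ (hv.mono fun x hx => ⟨bnrv_sub h hm hx, hx⟩)
    simp only [seg_zero, seg_one, hpt a ha, hpt b hb] at e1 e2
    rw [← e2, e1]
  rcases hab with hab | hab
  · have := key a ha le_rfl hab
    rwa [hη.self ha, inv_one, one_mul] at this
  · have := key b hb hab le_rfl
    rwa [hη.self hb, mul_one, ← hη.inv hb ha (Or.inl hab)] at this

theorem Cells.gen (h : Cells X U F) {n : ℕ} (hg : GenN (ord P) U n) (x : X) :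
    ∃ f : Fin n → FundamentalGroup X x, Subgroup.closure (Set.range f) = ⊤ := by
  obtain ⟨R, hR, hsur⟩ := exists_taut X x
  obtain ⟨pt, hpt⟩ := bnrv_pt h
  obtain ⟨β, f, hf⟩ := hg _ _ (bnrv_flat h hR hpt)
  let g : E3 → FundamentalGroup X x := fun y => β (F y) * R (seg (pt (F y)) y)
  have hmem : ∀ γ, Valid X γ →
      g (γ 0) * R γ * (g (γ 1))⁻¹ ∈ Subgroup.closure (Set.range f) := by
    intro γ hγ
    refine rep_mem_local (hR.gauge g) _ (fun y hy => ?_) hγ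
    have ha : F y ∈ U := (h.mem y).1 hy
    refine ⟨{z | F y ≤ F z},
      mem_nhdsWithin_of_mem_nhds ((h.opn _ ha).mem_nhds (le_refl (F y))), fun γ hγ => ?_⟩
    obtain ⟨T, hT, hT'⟩ := bnrv_pot h hR ha
    have h0 : F y ≤ F (γ 0) := (hγ.2 0).2
    have h1 : F y ≤ F (γ 1) := (hγ.2 1).2
    have u0 : F (γ 0) ∈ U := h.upp _ ha _ h0
    have u1 : F (γ 1) ∈ U := h.upp _ ha _ h1
    have p0 : F y ≤ F (pt (F (γ 0))) := by rwa [hpt _ u0]
    have p1 : F y ≤ F (pt (F (γ 1))) := by rwa [hpt _ u1]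
    have pa : F y ≤ F (pt (F y)) := by rw [hpt _ ha]
    have m := Subgroup.mul_mem _ (hf _ u0 _ ha (Or.inr h0)) (hf _ ha _ u1 (Or.inl h1))
    simp only [hT' _ _ p0 pa, hT' _ _ pa p1] at m
    simp only [g, hT γ (hγ.mono Set.inter_subset_right), hT' _ _ p0 h0, hT' _ _ p1 h1]
    convert m using 1
    group
  refine ⟨fun i => (MulAut.conj (g x.1)⁻¹).toMonoidHom (f i), ?_⟩
  have e : (Set.range fun i => (MulAut.conj (g x.1)⁻¹).toMonoidHom (f i)) =
      (MulAut.conj (g x.1)⁻¹).toMonoidHom '' Set.range f := by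
    rw [← Set.range_comp]
    rfl
  rw [e, ← MonoidHom.map_closure, eq_top_iff]
  intro k _
  obtain ⟨γ, hγ, h0, h1, rfl⟩ := hsur k
  have := hmem γ hγ
  rw [h0, h1] at this
  refine ⟨_, this, ?_⟩
  simp only [MulEquiv.coe_toMonoidHom, MulAut.conj_apply]
  group

end KG
end
end

-- merged part: Pool.Agent.Work.MP_c146e2_gt.KG.BStd
section
set_option autoImplicit false

noncomputable section

open scoped Classical

namespace KG

open Pool.Agent.Work.MP_5036cb_gt Topology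

theorem std_outer (g : ℕ) :
    IsPreconnected {q : ℝ × ℝ | ∀ i : ℕ, i < g → 1 < (q.1 - (2 * (i : ℝ) + 1)) ^ 2 + q.2 ^ 2} := by
  refine isPreconnected_of_forall ((-1 : ℝ), (0 : ℝ)) fun y hy => ?_
  have hB : IsPreconnected {q : ℝ × ℝ | q.1 < 0} :=
    (convex_halfSpace_lt (LinearMap.fst ℝ ℝ ℝ).isLinear 0).isPreconnected
  have hB' : ∀ q : ℝ × ℝ, q.1 < 0 → ∀ i : ℕ, i < g →
      1 < (q.1 - (2 * (i : ℝ) + 1)) ^ 2 + q.2 ^ 2 := fun q hq i _ => by
    have : (0 : ℝ) ≤ i := Nat.cast_nonneg i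
    nlinarith [sq_nonneg q.2]
  rcases le_total 0 y.2 with h | h
  · refine ⟨({y.1} ×ˢ Set.Ici y.2 ∪ Set.univ ×ˢ Set.Ioi 1) ∪ {q : ℝ × ℝ | q.1 < 0}, ?_,
      Or.inr (by simp), Or.inl (Or.inl ⟨rfl, le_refl y.2⟩), ?_⟩
    · rintro q ((⟨h1, h2⟩ | ⟨-, h2⟩) | h1) i hi
      · have h3 := hy i hi
        rw [Set.mem_singleton_iff.1 h1]
        have h4 : y.2 ≤ q.2 := h2
        nlinarith
      · have h4 : 1 < q.2 := h2
        nlinarith [sq_nonneg (q.1 - (2 * (i : ℝ) + 1))]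
      · exact hB' q h1 i hi
    · refine IsPreconnected.union ((-1 : ℝ), (2 : ℝ)) (Or.inr (by simp)) (by simp)
        (IsPreconnected.union (y.1, y.2 + 2) (by simp) ⟨trivial, ?_⟩
          (isPreconnected_singleton.prod isPreconnected_Ici)
          (isPreconnected_univ.prod isPreconnected_Ioi)) hB
      show 1 < y.2 + 2
      linarith
  · refine ⟨({y.1} ×ˢ Set.Iic y.2 ∪ Set.univ ×ˢ Set.Iio (-1)) ∪ {q : ℝ × ℝ | q.1 < 0}, ?_,
      Or.inr (by simp), Or.inl (Or.inl ⟨rfl, le_refl y.2⟩), ?_⟩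
    · rintro q ((⟨h1, h2⟩ | ⟨-, h2⟩) | h1) i hi
      · have h3 := hy i hi
        rw [Set.mem_singleton_iff.1 h1]
        have h4 : q.2 ≤ y.2 := h2
        nlinarith
      · have h4 : q.2 < -1 := h2
        nlinarith [sq_nonneg (q.1 - (2 * (i : ℝ) + 1))]
      · exact hB' q h1 i hi
    · refine IsPreconnected.union ((-1 : ℝ), (-2 : ℝ)) (Or.inr (by simp)) (by simp)
        (IsPreconnected.union (y.1, y.2 - 2) (by simp) ⟨trivial, ?_⟩
          (isPreconnected_singleton.prod isPreconnected_Iic)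
          (isPreconnected_univ.prod isPreconnected_Iio)) hB
      show y.2 - 2 < -1
      linarith

/-- The square of the distance to the centre of the circle number `i`. -/
def bstdF (i : ℕ) (q : ℝ × ℝ) : ℝ := (q.1 - (2 * (i : ℝ) + 1)) ^ 2 + q.2 ^ 2

theorem bstd_cont (i : ℕ) : Continuous (bstdF i) := by
  unfold bstdF
  fun_prop

/-- The plane without the circles. -/
def bstdW (g : ℕ) : Set (ℝ × ℝ) := {q | ∀ i : Fin g, bstdF i q ≠ 1}

/-- The region of a point of the plane. -/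
def bstdL (g : ℕ) (q : ℝ × ℝ) : Option (Fin g) :=
  if h : ∃ i : Fin g, bstdF i q < 1 then some h.choose else none

theorem bstd_uniq {i j : ℕ} {q : ℝ × ℝ} (hi : bstdF i q < 1) (hj : bstdF j q < 1) : i = j := by
  unfold bstdF at hi hj
  have a1 : (q.1 - (2 * (i : ℝ) + 1)) ^ 2 < 1 := by nlinarith [sq_nonneg q.2]
  have a2 : (q.1 - (2 * (j : ℝ) + 1)) ^ 2 < 1 := by nlinarith [sq_nonneg q.2]
  rw [sq_lt_one_iff_abs_lt_one, abs_lt] at a1 a2
  have b1 : (i : ℝ) < j + 1 := by linarith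
  have b2 : (j : ℝ) < i + 1 := by linarith
  have c1 : i < j + 1 := by exact_mod_cast b1
  have c2 : j < i + 1 := by exact_mod_cast b2
  omega

theorem bstd_some {g : ℕ} {q : ℝ × ℝ} {i : Fin g} (h : bstdL g q = some i) : bstdF i q < 1 := by
  unfold bstdL at h
  split_ifs at h with h1
  rw [← Option.some.inj h]
  exact h1.choose_spec

theorem bstd_none {g : ℕ} {q : ℝ × ℝ} (h : bstdL g q = none) (i : Fin g) : ¬ bstdF i q < 1 := by
  unfold bstdL at h
  split_ifs at h with h1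
  exact fun c => h1 ⟨i, c⟩

theorem bstd_ev {g : ℕ} {q : ℝ × ℝ} (hq : q ∈ bstdW g) :
    ∀ᶠ q' in 𝓝 q, q' ∈ bstdW g ∧ bstdL g q' = bstdL g q := by
  have h1 : ∀ᶠ q' in 𝓝 q, ∀ i : Fin g, bstdF i q' ≠ 1 ∧ (bstdF i q' < 1 ↔ bstdF i q < 1) := by
    refine Filter.eventually_all.2 fun i => ?_
    rcases lt_or_gt_of_ne (hq i) with h | h
    · filter_upwards [(isOpen_lt (bstd_cont i) continuous_const).mem_nhds h] with q' h'
      exact ⟨ne_of_lt h', iff_of_true h' h⟩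
    · filter_upwards [(isOpen_lt continuous_const (bstd_cont i)).mem_nhds h] with q' h'
      exact ⟨ne_of_gt h', iff_of_false (not_lt_of_gt h') (not_lt_of_gt h)⟩
  filter_upwards [h1] with q' h'
  refine ⟨fun i => (h' i).1, ?_⟩
  have e : (fun i : Fin g => bstdF i q' < 1) = fun i : Fin g => bstdF i q < 1 :=
    funext fun i => propext (h' i).2
  unfold bstdL
  simp only [e]

theorem bstd_disc (i : ℕ) : Convex ℝ {q : ℝ × ℝ | bstdF i q < 1} := by
  intro x hx y hy a b ha hb hab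
  simp only [bstdF, Set.mem_ofPred_eq, Prod.fst_add, Prod.smul_fst, Prod.snd_add, Prod.smul_snd,
    smul_eq_mul] at hx hy ⊢
  obtain rfl : b = 1 - a := by linarith
  have e : (a * x.1 + (1 - a) * y.1 - (2 * (i : ℝ) + 1)) ^ 2 + (a * x.2 + (1 - a) * y.2) ^ 2 =
      a * ((x.1 - (2 * (i : ℝ) + 1)) ^ 2 + x.2 ^ 2) +
        (1 - a) * ((y.1 - (2 * (i : ℝ) + 1)) ^ 2 + y.2 ^ 2) -
        a * (1 - a) * ((x.1 - y.1) ^ 2 + (x.2 - y.2) ^ 2) := by ring
  have h1 : 0 ≤ a * (1 - a) * ((x.1 - y.1) ^ 2 + (x.2 - y.2) ^ 2) := by positivity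
  rw [e]
  rcases eq_or_lt_of_le ha with rfl | ha'
  · linarith
  · nlinarith [mul_lt_mul_of_pos_left hx ha', mul_le_mul_of_nonneg_left hy.le hb]

/-- A function that is constant on convex subsets of `bstdW g` only depends on the region. -/
theorem bstd_reg {g : ℕ} {H : Type} {c : ℝ × ℝ → H}
    (hc : ∀ K ⊆ bstdW g, Convex ℝ K → ∀ a ∈ K, ∀ b ∈ K, c a = c b) :
    ∃ d : Option (Fin g) → H, ∀ q ∈ bstdW g, c q = d (bstdL g q) := by
  refine ⟨fun o => o.elim (c (-1, 0)) fun i => c (2 * (i : ℕ) + 1, 0), fun q hq => ?_⟩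
  rcases h : bstdL g q with _ | i
  · have hW : {q : ℝ × ℝ | ∀ i : ℕ, i < g → 1 < (q.1 - (2 * (i : ℝ) + 1)) ^ 2 + q.2 ^ 2} ⊆
        bstdW g := fun x hx i => (hx i i.2).ne'
    refine (std_outer g).induction₂' (fun a b => c a = c b) (fun x hx => ?_)
      (fun _ _ _ _ _ _ => Eq.trans) (fun i hi => ?_) fun i _ => ?_
    · obtain ⟨ε, hε, hb⟩ := Metric.eventually_nhds_iff_ball.1 (bstd_ev (hW hx))
      refine Filter.Eventually.filter_mono nhdsWithin_le_nhds ?_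
      filter_upwards [Metric.ball_mem_nhds x hε] with y hy
      have := hc _ (fun z hz => (hb z hz).1) (convex_ball x ε) x (Metric.mem_ball_self hε) y hy
      exact ⟨this, this.symm⟩
    · exact lt_of_le_of_ne (not_lt.1 (bstd_none h ⟨i, hi⟩)) (hq ⟨i, hi⟩).symm
    · have : (0 : ℝ) ≤ i := Nat.cast_nonneg i
      show 1 < (-1 - (2 * (i : ℝ) + 1)) ^ 2 + 0 ^ 2
      nlinarith
  · refine hc _ (fun x hx j e => ?_) (bstd_disc i) q (bstd_some h) _ (by simp [bstdF])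
    have hx' : bstdF i x < 1 := hx
    by_cases hij : (i : ℕ) = j
    · rw [hij] at hx'
      exact hx'.ne e
    · unfold bstdF at hx' e
      have a1 : (x.1 - (2 * ((i : ℕ) : ℝ) + 1)) ^ 2 < 1 := by nlinarith [sq_nonneg x.2]
      have a2 : (x.1 - (2 * ((j : ℕ) : ℝ) + 1)) ^ 2 ≤ 1 := by nlinarith [sq_nonneg x.2]
      rw [sq_lt_one_iff_abs_lt_one, abs_lt] at a1
      rw [sq_le_one_iff_abs_le_one, abs_le] at a2
      have b1 : ((i : ℕ) : ℝ) < (j : ℕ) + 1 := by linarith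
      have b2 : ((j : ℕ) : ℝ) < (i : ℕ) + 1 := by linarith
      have c1 : (i : ℕ) < j + 1 := by exact_mod_cast b1
      have c2 : (j : ℕ) < i + 1 := by exact_mod_cast b2
      omega

theorem bstd_mem {g : ℕ} {p : E3} : p ∈ (stdS g)ᶜ ↔ p.2.2 ≠ 0 ∨ (p.1, p.2.1) ∈ bstdW g := by
  rw [Set.mem_compl_iff, stdS, Set.mem_ofPred_eq, not_and_or]
  exact or_congr_right ⟨fun h i e => h ⟨i, i.2, e⟩, fun h ⟨i, hi, e⟩ => h ⟨i, hi⟩ e⟩

theorem bstd_star (g : ℕ) {e : ℝ} (he : e * e = 1) :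
    StarConvex ℝ (((0 : ℝ), (0 : ℝ), e) : E3) ((stdS g)ᶜ ∩ {p | 0 ≤ e * p.2.2}) := by
  intro y hy a b ha hb hab
  have h1 : e * (a • (((0 : ℝ), (0 : ℝ), e) : E3) + b • y).2.2 = a + b * (e * y.2.2) := by
    simp only [Prod.snd_add, Prod.smul_snd, smul_eq_mul]
    linear_combination a * he
  have h2 : 0 ≤ b * (e * y.2.2) := mul_nonneg hb hy.2
  refine ⟨?_, (add_nonneg ha h2).trans_eq h1.symm⟩
  rcases eq_or_lt_of_le ha with rfl | ha'
  · rw [zero_add] at hab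
    rw [hab, zero_smul, one_smul, zero_add]
    exact hy.1
  · refine bstd_mem.2 (Or.inl fun c => ?_)
    rw [c, mul_zero] at h1
    linarith

theorem bstd_pot {g : ℕ} {H : Type} [Group H] {R : (unitInterval → E3) → H}
    (hR : IsRep (stdS g)ᶜ R) {e : ℝ} (he : e * e = 1) : ∃ T : E3 → H, ∀ γ, Valid (stdS g)ᶜ γ →
      (∀ t, 0 ≤ e * (γ t).2.2) → R γ = (T (γ 0))⁻¹ * T (γ 1) :=
  ⟨fun q => R (seg ((0 : ℝ), (0 : ℝ), e) q), fun γ hγ h =>
    rep_star hR Set.inter_subset_left ⟨bstd_mem.2 (Or.inl fun c => by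
      have c' : e = 0 := c
      rw [c', mul_zero] at he
      exact zero_ne_one he), by
        show 0 ≤ e * e
        rw [he]
        exact zero_le_one⟩ (bstd_star g he) ⟨hγ.1, fun t => ⟨hγ.2 t, h t⟩⟩⟩

theorem bstd_ev3 {g : ℕ} {p : E3} (hp : (p.1, p.2.1) ∈ bstdW g) :
    ∀ᶠ p' : E3 in 𝓝 p, (p'.1, p'.2.1) ∈ bstdW g ∧ bstdL g (p'.1, p'.2.1) = bstdL g (p.1, p.2.1) :=
  (Continuous.tendsto (f := fun p : E3 => (p.1, p.2.1)) (by fun_prop) p).eventually (bstd_ev hp)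

theorem bstd_rep (g : ℕ) : ∃ R₀ : (unitInterval → E3) → FreeGroup (Fin g), IsRep (stdS g)ᶜ R₀ ∧
    (∀ γ, Valid (stdS g)ᶜ γ → (∀ t, 0 < (γ t).2.2 ∨ ((γ t).1, (γ t).2.1) ∈ bstdW g) → R₀ γ = 1) ∧
    ∀ γ, Valid (stdS g)ᶜ γ → (∀ t, (γ t).2.2 < 0) →
      R₀ γ = ((bstdL g ((γ 0).1, (γ 0).2.1)).elim 1 FreeGroup.of)⁻¹ *
        (bstdL g ((γ 1).1, (γ 1).2.1)).elim 1 FreeGroup.of := by
  have hz : Continuous fun p : E3 => p.2.2 := by fun_prop
  obtain ⟨R₀, h1, h2⟩ := exists_rep_of_local (stdS g)ᶜ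
    ⟨((0 : ℝ), (0 : ℝ), (1 : ℝ)), bstd_mem.2 (Or.inl one_ne_zero)⟩
    (fun b : Bool => {p : E3 | (if b then 0 < p.2.2 else p.2.2 < 0) ∨ (p.1, p.2.1) ∈ bstdW g})
    (fun b p => if b then 1 else (bstdL g (p.1, p.2.1)).elim 1 FreeGroup.of)
    (fun b x hx => by
      refine nhdsWithin_le_nhds ?_
      rcases hx.2 with h | h
      · cases b
        · exact Filter.mem_of_superset ((isOpen_lt hz continuous_const).mem_nhds h)
            fun _ c => Or.inl c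
        · exact Filter.mem_of_superset ((isOpen_lt continuous_const hz).mem_nhds h)
            fun _ c => Or.inl c
      · exact Filter.mem_of_superset (bstd_ev3 h) fun _ c => Or.inr c.1)
    (fun y hy => by
      rcases bstd_mem.1 hy with h | h
      · rcases lt_or_gt_of_ne h with h | h
        · exact ⟨false, Or.inl h⟩
        · exact ⟨true, Or.inl h⟩
      · exact ⟨true, Or.inr h⟩)
    (fun i j y hy => by
      by_cases e : i = j
      · subst e
        exact Filter.Eventually.of_forall fun _ => by rw [mul_inv_cancel, mul_inv_cancel]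
      have h : (y.1, y.2.1) ∈ bstdW g := by
        by_contra c
        have a1 := hy.1.2.resolve_right c
        have a2 := hy.2.resolve_right c
        cases i <;> cases j
        · exact e rfl
        · exact lt_asymm (show y.2.2 < 0 from a1) a2
        · exact lt_asymm (show y.2.2 < 0 from a2) a1
        · exact e rfl
      refine Filter.Eventually.filter_mono nhdsWithin_le_nhds ?_
      filter_upwards [bstd_ev3 h] with y' h'
      rw [h'.2])
  refine ⟨R₀, h1, fun γ hγ h => ?_, fun γ hγ h => ?_⟩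
  · simpa using h2 true γ ⟨hγ.1, fun t => ⟨hγ.2 t, h t⟩⟩
  · exact h2 false γ ⟨hγ.1, fun t => ⟨hγ.2 t, Or.inl (h t)⟩⟩

theorem urep_std (g : ℕ) : URep (stdS g)ᶜ (FreeGroup (Fin g)) := by
  have hz : Continuous fun p : E3 => p.2.2 := by fun_prop
  obtain ⟨R₀, h0, h1, h2⟩ := bstd_rep g
  refine ⟨R₀, h0, fun H _ R hR => ?_⟩
  obtain ⟨Tp, hp⟩ := bstd_pot hR (e := 1) (one_mul 1)
  obtain ⟨Tm, hm⟩ := bstd_pot hR (e := -1) (by norm_num)
  obtain ⟨d, hd⟩ := bstd_reg (g := g)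
    (c := fun q => Tp (q.1, q.2, 0) * (Tm (q.1, q.2, 0))⁻¹) fun K hK hc a ha b hb => by
      have hv := valid_seg hc ha hb
      have hv' : Valid (stdS g)ᶜ fun t => ((seg a b t).1, (seg a b t).2, (0 : ℝ)) :=
        ⟨by have := hv.1; fun_prop, fun t => bstd_mem.2 (Or.inr (hK (hv.2 t)))⟩
      have e := (hp _ hv' fun _ => by simp).symm.trans (hm _ hv' fun _ => by simp)
      simp only [seg_zero, seg_one] at e
      calc _ = Tp (a.1, a.2, 0) * ((Tm (a.1, a.2, 0))⁻¹ * Tm (b.1, b.2, 0)) *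
            (Tm (b.1, b.2, 0))⁻¹ := by group
        _ = _ := by rw [← e]; group
  let θ : FreeGroup (Fin g) →* H := FreeGroup.lift fun i => d none * (d (some i))⁻¹
  have hθ : ∀ o : Option (Fin g), θ (o.elim 1 FreeGroup.of) = d none * (d o)⁻¹ := by
    rintro (_ | i)
    · simp
    · simp [θ]
  let β : E3 → H := fun p => if 0 ≤ p.2.2 then Tp p else d (bstdL g (p.1, p.2.1)) * Tm p
  refine ⟨θ, β, fun γ hγ => ?_⟩
  have hR' := (h0.map θ).gauge fun p => (β p)⁻¹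
  simp only [inv_inv] at hR'
  refine rep_ext_local hR hR' (fun x hx => ?_) hγ
  rcases lt_trichotomy x.2.2 0 with h | h | h
  · refine ⟨{p | p.2.2 < 0}, nhdsWithin_le_nhds ((isOpen_lt hz continuous_const).mem_nhds h),
      fun γ hγ => ?_⟩
    have a1 : ∀ t, (γ t).2.2 < 0 := fun t => (hγ.2 t).2
    have a2 := hγ.mono Set.inter_subset_left
    simp only [β, if_neg (a1 _).not_ge]
    rw [h2 γ a2 a1, hm γ a2 fun t => by linarith [a1 t], map_mul, map_inv, hθ, hθ]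
    group
  · have hW := (bstd_mem.1 hx).resolve_left (not_not.2 h)
    obtain ⟨ε, hε, hb⟩ := Metric.eventually_nhds_iff_ball.1 (bstd_ev3 hW)
    have hN : Metric.ball x ε ⊆ (stdS g)ᶜ := fun p c => bstd_mem.2 (Or.inr (hb p c).1)
    have hx0 := Metric.mem_ball_self (x := x) hε
    refine ⟨Metric.ball x ε, nhdsWithin_le_nhds (Metric.ball_mem_nhds x hε), fun γ hγ => ?_⟩
    have key : ∀ p ∈ Metric.ball x ε, β p = Tp x * R (seg x p) := fun p c => by
      have hv := (valid_seg (convex_ball x ε) hx0 c).mono hN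
      have hs : ∀ t, (seg x p t).2.2 = t * p.2.2 := fun t => by simp [seg, h]
      by_cases e : 0 ≤ p.2.2
      · rw [hp _ hv fun t => by rw [hs, one_mul]; exact mul_nonneg t.2.1 e, seg_zero, seg_one]
        simp only [β, if_pos e]
        group
      · have e1 := hd _ hW
        have e2 : ((x.1, x.2.1, 0) : E3) = x := by rw [← h]
        simp only [e2] at e1
        rw [hm _ hv fun t => by
          rw [hs]
          nlinarith [mul_nonneg t.2.1 (neg_nonneg.2 (not_le.1 e).le)], seg_zero, seg_one]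
        simp only [β, if_neg e]
        rw [(hb p c).2, ← e1]
        group
    have a2 := hγ.mono Set.inter_subset_right
    rw [h1 γ (hγ.mono Set.inter_subset_left) fun t => Or.inr (hb _ (a2.2 t)).1,
      key _ (a2.2 0), key _ (a2.2 1),
      rep_star hR hN hx0 ((convex_ball x ε).starConvex hx0) a2, map_one]
    group
  · refine ⟨{p | 0 < p.2.2}, nhdsWithin_le_nhds ((isOpen_lt continuous_const hz).mem_nhds h),
      fun γ hγ => ?_⟩
    have a1 : ∀ t, 0 < (γ t).2.2 := fun t => (hγ.2 t).2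
    have a2 := hγ.mono Set.inter_subset_left
    simp only [β, if_pos (a1 _).le]
    rw [h1 γ a2 fun t => Or.inl (a1 t), hp γ a2 fun t => by linarith [a1 t], map_one, mul_one]

end KG
end
end

-- merged part: Pool.Agent.Work.MP_c146e2_gt.KG.Qin0
section
set_option autoImplicit false

noncomputable section

open scoped Classical

namespace KG

variable {V V' : Type}

/-- A graph `Γ`, a closed curve `K` in it and a ball `I` far from it. -/
structure GKI [Fintype V] (G : Cx V) (Γ K I : Set V) : Prop where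
  man : Man G Set.univ
  sub : K ⊆ Γ
  sep : Sep G Γ I
  gr : ∀ s, Clq G s → Ins s Γ → s.card ≤ 2
  connK : Conn G K
  chiK : chi G K = 0
  chiI : chi G I = 1
  connI : Conn (sd G) (Xs G I)

def zp {G : Cx V} (Z : Set V) (x : Fc G × Bool) : Finset V := x.1.1.filter (· ∈ Z)

def qcls (G : Cx V) (Γ K I : Set V) (x : Fc G × Bool) : Option (Finset V ⊕ Bool × Bool) :=
  if x ∉ ddV G (Γ ∪ I) then none
  else if Meets x.1.1 K then some (Sum.inr (false, decide (Ins x.1.1 K ∧ x.2 = true)))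
  else if Meets x.1.1 I then some (Sum.inr (true, decide (Ins x.1.1 I ∧ x.2 = true)))
  else some (Sum.inl (zp (Γ ∪ I) x))

/-- The second copy of `S`. -/
def cop (G : Cx V) (S : Set V) : Set (Fc G × Bool) := {x | Ins x.1.1 S ∧ x.2 = true}

def qY (G : Cx V) (Z : Set V) (a b : V) : Set (Fc (DD G Z)) :=
  {s | (∃ x ∈ s.1, zp Z x = {a}) ∧ ∃ x ∈ s.1, zp Z x = {a, b}}

end KG
end
end

-- merged part: Pool.Agent.Work.MP_c146e2_gt.KG.BArM
section
set_option autoImplicit false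

noncomputable section

open scoped Classical

namespace KG

theorem barm_bound (T : Finset (E3 × E3)) :
    ∃ R : ℝ, ∀ x ∈ ⋃ p ∈ T, segment ℝ p.1 p.2, x.1 < R := by
  obtain ⟨R, hR⟩ := (T.finite_toSet.image fun p => max p.1.1 p.2.1).bddAbove
  refine ⟨R + 1, fun x hx => ?_⟩
  obtain ⟨p, hp, hx⟩ := Set.mem_iUnion₂.1 hx
  have h1 : max p.1.1 p.2.1 ≤ R := hR ⟨p, hp, rfl⟩
  have h2 := ((mem_seg_iff _ _ _).1 hx).1
  by_contra h
  have h3 : 0 < x.1 - p.1.1 := by linarith [le_max_left p.1.1 p.2.1, not_lt.1 h]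
  have h4 : 0 < x.1 - p.2.1 := by linarith [le_max_right p.1.1 p.2.1, not_lt.1 h]
  exact absurd (mul_pos h3 h4) (not_lt.2 h2)

theorem arr_main {n : ℕ × ℕ × ℕ} {K : Set (Box n)} (hK : GK K) (T : Finset (E3 × E3))
    (hs : geo K ⊆ ⋃ p ∈ T, segment ℝ p.1 p.2) {g : ℕ}
    (e : ((⋃ p ∈ T, segment ℝ p.1 p.2)ᶜ : Set E3) ≃ₜ ((stdS g)ᶜ : Set E3)) :
    ∃ (V : Type) (_ : Fintype V) (G : Cx V) (Γ' K' I : Set V), GKI G Γ' K' I ∧ Sph G I ∧
      (Γ' ∪ I)ᶜ.Nonempty ∧ Free G (Γ' ∪ I)ᶜ g ∧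
      tv G (K' ∪ I) = tv (ord (Box n)) (K ∪ Outr n) := by
  obtain ⟨R, hR⟩ := barm_bound T
  obtain ⟨A, hAe⟩ : ∃ A : Finset Fn,
    A = insert (af lx R) (grA n ∪ T.biUnion fun p => segF p.1 p.2) := ⟨_, rfl⟩
  have h0 : grA n ⊆ A := hAe ▸ Finset.subset_union_left.trans (Finset.subset_insert _ _)
  have hT : ∀ p ∈ T, segF p.1 p.2 ⊆ A := fun p hp => hAe ▸
    ((Finset.subset_biUnion_of_mem (fun p : E3 × E3 => segF p.1 p.2) hp).trans
      Finset.subset_union_right).trans (Finset.subset_insert _ _)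
  have hl : af lx R ∈ A := hAe ▸ Finset.mem_insert_self _ _
  have hA : Ess A := by
    refine ⟨(ess_grA n).1.trans h0, fun h => ?_⟩
    rw [hAe, Finset.mem_insert, Finset.mem_union, Finset.mem_biUnion] at h
    rcases h with h | h | ⟨p, -, h⟩
    · exact (af_ne_zero R).1 h.symm
    · exact (ess_grA n).2 h
    · exact zero_not_mem_segF _ _ h
  have hG := grf_seg hA T hT
  generalize (⋃ p ∈ T, segment ℝ p.1 p.2) = Γ at hs e hR hG
  obtain ⟨X, Y, hX, hw, hXl, hY, hYX, hmax⟩ := exists_far hA hl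
  have hsph := sph_cell hA hX hw hY hYX
  have hball := far_ball hA hsph.s3 hX hw hY hYX hmax
  have hsep := far_sep hA hl hXl hG hR
  have hsub : On A (geo K) ⊆ On A Γ := Set.image_mono hs
  have hlk : ∀ S ⊆ On A Γ, (lk (ord (Cell A)) {X} ∩ (S ∪ (Aff A)ᶜ)).Nonempty ∧
      Conn (ord (Cell A)) (lk (ord (Cell A)) {X} ∩ (S ∪ (Aff A)ᶜ)) := fun S hS => by
    obtain ⟨h1, h2⟩ := far_link hX hw hY hYX hmax (S := S) fun a ha b hb =>
      hsep a (hS ha) b (Or.inl hb)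
    exact ⟨⟨Y, h1⟩, conn_of_cone h1 fun z hz => Or.inl (h2 z hz)⟩
  have hm := man_cell hA
  refine ⟨Cell A, inferInstance, ord (Cell A), On A Γ, On A (geo K), insert X (Aff A)ᶜ,
    ⟨hm, hsub, hsep, hG.dim, ?_, ?_, hball.1, hball.2⟩, hsph, ⟨fc A (R, 0, 0), ?_⟩, ?_, ?_⟩
  · rw [on_geo h0 hA, conn_res (ess_grA n) hA]
    exact (grid_knot hK).1
  · rw [on_geo h0 hA, chi_res (ess_grA n) hA]
    exact (grid_knot hK).2
  · rintro (⟨p, hp, h⟩ | h | h)
    · exact lt_irrefl _ (hR _ (hG.adapt _ _ h hp))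
    · rw [← h] at hXl
      simp [fc, sv, hl, af, lx, fw] at hXl
    · exact h ((aff_iff hA _).2 ⟨_, rfl⟩)
  · rw [Set.union_insert]
    exact free_flip (hm.mono (Set.subset_univ _)) (hlk _ le_rfl).2
      ((hG.cells hA).univ ((urep_std g).homeo e))
  · rw [Set.union_insert,
      (abs_flip (hlk _ hsub).1 (hlk _ hsub).2).tv (hm.mono (Set.subset_univ _)), ← tv_grid hK,
      ← tv_res (ess_grA n) hA h0, Set.preimage_union, Set.preimage_compl,
      aff_res (ess_grA n) h0, on_geo h0 hA]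

end KG
end
end

-- merged part: Pool.Agent.Work.MP_c146e2_gt.KG.Alex
section
set_option autoImplicit false

noncomputable section

open scoped Classical

namespace KG

variable {V V' : Type}

theorem Sph.aa [Fintype V] {G : Cx V} {Z : Set V} (h : Sph G Z) : AA G Z := by
  obtain ⟨hm, ht, n, h, hh⟩ := h
  have hp := psn_ok hh
  have a1 : AA (ord (SP G (psn G ht))) (lay (psn G ht) fun s _ => Ins s.1 Z) :=
    aa_reach (sp_s3 hp (hh.s3 hm)) (((stage1 hh).trans (stage2 hm hh)).trans (stage3 hm hh))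
  have a2 : AA (sd G) (dn G Z) := aa_contr (sp_contr G (psn G ht)) (sp_man hp hm) a1
  obtain ⟨m, hs⟩ := exists_sel G Zᶜ
  have e : m ⁻¹' Z = dn G Z := by
    ext s
    constructor
    · intro h1 a ha
      by_contra h2
      exact (hs s).2 ⟨a, ha, h2⟩ h1
    · intro h1
      exact h1 _ (hs s).1
  have a3 : Man (sd G) Set.univ := up_univ G ▸ hm.sd
  exact aa_contr (contr_sd G fun s => (hs s).1) a3 (e ▸ a2)

theorem alexander [Fintype V] {G : Cx V} {Z : Set V} (h : Sph G Z) (h1 : H1 (sd G) (Xs G Zᶜ)) :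
    D2 * tv G Z = D2 ^ kc G Z :=
  h.aa (h1_of_xs h.s3.h1 (xs_compl G Z ▸ h1))

end KG
end
end

-- merged part: Pool.Agent.Work.MP_c146e2_gt.KG.Ext
section
set_option autoImplicit false

noncomputable section

open scoped Classical

namespace KG

variable {V V' : Type}

variable [Fintype V] {G : Cx V} {U : Set V} {c : V → V → V → ZMod 2} {F : V → V → ZMod 2}

theorem Disc.ext (h : Disc G U c F) (hm : PMan G U) (hne : (ActC G U c).Nonempty) {H : Type}
    [Group H] {η : Fc G → Fc G → H} (hη : Flat (sd G) (up G U \ ActF G U F) η) :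
    ∃ η', Flat (sd G) (up G U) η' ∧
      ∀ a ∈ up G U \ ActF G U F, ∀ b ∈ up G U \ ActF G U F, η' a b = η a b := by
  obtain ⟨o, ho⟩ := h.coor hm hne
  obtain ⟨m, hs⟩ := exists_sel G U
  obtain ⟨t1, t2⟩ := h.h1 hm hne
  have hr : ∀ e, ∀ d ∈ ActF G U F, ∀ d' ∈ ActF G U F, (sd G).r d d' →
      (sd G).r (rho U o e d) (rho U o e d') := fun e d hd d' hd' r =>
    r.imp (ho.rho_mono e hd) (ho.rho_mono e hd')
  choose β hβ using fun e => flat_triv t1 t2 (η := fun d d' => η (rho U o e d) (rho U o e d'))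
    fun a ha b hb d hd r1 r2 r3 => hη _ (ho.rho_mem e ha).2 _ (ho.rho_mem e hb).2 _
      (ho.rho_mem e hd).2 (hr e a ha b hb r1) (hr e b hb d hd r2) (hr e a ha d hd r3)
  obtain ⟨k, hk⟩ : ∃ k : Fc G → Fc G → H, ∀ x d,
    k x d = η x (rho U o (o d (m x)) d) * (β (o d (m x)) d)⁻¹ := ⟨_, fun _ _ => rfl⟩
  have hle : ∀ x ∉ ActF G U F, ∀ d ∈ ActF G U F, (sd G).r x d → x ≤ d := fun x hx d hd r =>
    r.resolve_right fun e => hx (actF_upper G U F e hd)
  have hx : ∀ x ∈ up G U \ ActF G U F, ∀ d ∈ ActF G U F, x ≤ d → x ≤ rho U o (o d (m x)) d :=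
    fun x hx d hd l => ho.le_rho hd hx.2 l (hs x).1 ((hs x).2 hx.1)
  have e0 : ∀ x ∈ up G U \ ActF G U F, ∀ y ∈ up G U \ ActF G U F, ∀ d ∈ ActF G U F, x ≤ y →
      y ≤ d → o d (m y) = o d (m x) := fun x h1 y h2 d hd l1 l2 =>
    ((ho.mem_rho _ hd _).1 (ho.le_rho hd h2.2 l2 (l1 (hs x).1) ((hs x).2 h1.1)
      (hs y).1)).2.resolve_left fun n => n ((hs y).2 h2.1)
  have k1 : ∀ x ∈ up G U \ ActF G U F, ∀ y ∈ up G U \ ActF G U F, ∀ d ∈ ActF G U F,
      (sd G).r x y → (sd G).r x d → (sd G).r y d → η x y * k y d = k x d := by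
    intro x h1 y h2 d hd r1 r2 r3
    have l1 := hle x h1.2 d hd r2
    have l2 := hle y h2.2 d hd r3
    have e : o d (m y) = o d (m x) :=
      r1.elim (fun l => e0 x h1 y h2 d hd l l2) fun l => (e0 y h2 x h1 d hd l l1).symm
    rw [hk, hk, ← mul_assoc, hη x h1 y h2 _ (ho.rho_mem _ hd).2 r1 (Or.inl (hx y h2 d hd l2))
      (Or.inl (e ▸ hx x h1 d hd l1)), e]
  have k0 : ∀ x ∈ up G U \ ActF G U F, ∀ d ∈ ActF G U F, ∀ d' ∈ ActF G U F, x ≤ d → d ≤ d' →
      k x d = k x d' := by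
    intro x h1 d hd d' hd' l1 l2
    have l3 := hx x h1 d hd l1
    have l4 := ho.rho_mono (o d (m x)) hd l2
    rw [hk, hk, ho.res d hd d' l2 _ (l1 (hs x).1) ((hs x).2 h1.1),
      ← hη x h1 _ (ho.rho_mem _ hd).2 _ (ho.rho_mem _ hd').2 (Or.inl l3) (Or.inl l4)
        (Or.inl (l3.trans l4)), hβ _ d hd d' hd' (Or.inl l2), mul_assoc, mul_inv_cancel_right]
  have k2 : ∀ x ∈ up G U \ ActF G U F, ∀ d ∈ ActF G U F, ∀ d' ∈ ActF G U F,
      (sd G).r d d' → (sd G).r x d → (sd G).r x d' → k x d = k x d' :=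
    fun x h1 d hd d' hd' r1 r2 r3 => r1.elim (k0 x h1 d hd d' hd' (hle x h1.2 d hd r2))
      fun l => (k0 x h1 d' hd' d hd (hle x h1.2 d' hd' r3) l).symm
  have sy := (sd G).symm
  refine ⟨fun a b => if a ∈ ActF G U F then (if b ∈ ActF G U F then 1 else (k b a)⁻¹)
    else if b ∈ ActF G U F then k a b else η a b, fun a ha b hb d hd r1 r2 r3 => ?_,
    fun a ha b hb => by simp only [ha.2, hb.2, if_false]⟩
  by_cases c1 : a ∈ ActF G U F <;> by_cases c2 : b ∈ ActF G U F <;>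
    by_cases c3 : d ∈ ActF G U F <;> simp only [c1, c2, c3, if_true, if_false]
  · exact mul_one 1
  · rw [one_mul, k2 d ⟨hd, c3⟩ a c1 b c2 r1 (sy _ _ r3) (sy _ _ r2)]
  · rw [k2 b ⟨hb, c2⟩ a c1 d c3 r3 (sy _ _ r1) r2, inv_mul_cancel]
  · rw [← k1 b ⟨hb, c2⟩ d ⟨hd, c3⟩ a c1 r2 (sy _ _ r1) (sy _ _ r3), mul_inv_rev,
      inv_mul_cancel_right]
  · rw [mul_one, k2 a ⟨ha, c1⟩ b c2 d c3 r2 r1 r3]
  · rw [← k1 a ⟨ha, c1⟩ d ⟨hd, c3⟩ b c2 r3 r1 (sy _ _ r2), mul_inv_cancel_right]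
  · exact k1 a ⟨ha, c1⟩ b ⟨hb, c2⟩ d c3 r1 r3 r2
  · exact hη a ⟨ha, c1⟩ b ⟨hb, c2⟩ d ⟨hd, c3⟩ r1 r2 r3

theorem Disc.free (h : Disc G U c F) (hm : PMan G U) (hne : (ActC G U c).Nonempty) {g : ℕ}
    (hf : Free G U g) : Free (sd G) (up G U \ ActF G U F) g := by
  obtain ⟨m, hs⟩ := exists_sel G U
  obtain ⟨l, h1, h2⟩ := hs.contr_up.free hf
  refine ⟨l, fun a ha b hb d hd => h1 a ha.1 b hb.1 d hd.1, fun H _ η hη => ?_⟩
  obtain ⟨η', k1, k2⟩ := h.ext hm hne hη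
  obtain ⟨θ, β, k3⟩ := h2 H η' k1
  exact ⟨θ, β, fun a ha b hb r => (k2 a ha b hb).symm.trans (k3 a ha.1 b hb.1 r)⟩

theorem Disc.b1le (h : Disc G U c F) (hm : PMan G U) (hne : (ActC G U c).Nonempty)
    (ht : ¬ Triv G U c) {n : ℕ} (hb : B1le G U (n + 1)) :
    B1le (sd G) (up G U \ ActF G U F) n := by
  obtain ⟨m, hs⟩ := exists_sel G U
  obtain ⟨f, hf⟩ := hs.contr_up.b1le hb
  obtain ⟨x0, g0, h0⟩ := hf (fun s t => F (m s) (m t))
    (coc_iff_flat.2 (hs.contr_up.pull (coc_iff_flat.1 h.coc)))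
  obtain ⟨j, hj⟩ : ∃ j, x0 j ≠ 0 := by
    by_contra hn
    push Not at hn
    obtain ⟨g, hg⟩ := hs.contr_up.cob h.coc ⟨g0, fun a ha b hb r => by
      simpa [hn] using h0 a ha b hb r⟩
    exact ht ⟨fun a _ => g a, fun a b z t => (h.bd a b z t).symm.trans
      (hg a t.1 b t.2.1 t.2.2.2.1), fun _ _ _ _ _ _ _ _ _ => rfl⟩
  refine ⟨fun i => f (j.succAbove i), fun η hη => ?_⟩
  obtain ⟨η', k1, k2⟩ := h.ext hm hne (coc_iff_flat.1 hη)
  obtain ⟨x, g, k3⟩ := hf (fun a b => (η' a b).toAdd) (coc_iff_flat.2 k1)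
  refine ⟨fun i => x (j.succAbove i) + x j * x0 (j.succAbove i), fun a => g a + x j * g0 a,
    fun a ha b hb r => ?_⟩
  have e1 := h0 a ha.1 b hb.1 r
  have e2 := k3 a ha.1 b hb.1 r
  have e3 : F (m a) (m b) = 0 := by
    by_contra hn
    rcases r with r | r
    · exact hb.2 ⟨_, r (hs a).1, _, (hs b).1, (hs a).2 ha.1, (hs b).2 hb.1, hn⟩
    · exact ha.2 ⟨_, (hs a).1, _, r (hs b).1, (hs a).2 ha.1, (hs b).2 hb.1, hn⟩
  dsimp only at e1 e2 ⊢
  rw [k2 a ha b hb, toAdd_ofAdd, Fin.sum_univ_succAbove _ j] at e2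
  rw [e3, Fin.sum_univ_succAbove _ j, lin_one hj] at e1
  simp only [add_mul, mul_assoc, Finset.sum_add_distrib, ← Finset.mul_sum]
  linear_combination e2 + x j * e1 - lin_add_self (x j * f j a b)

theorem Disc.kc_le (h : Disc G U c F) (hne : (ActC G U c).Nonempty) :
    kc (sd G) (up G U \ ActF G U F)ᶜ ≤ kc G Uᶜ := by
  obtain ⟨d, hd⟩ := hne
  have hD : d ∈ ActF G U F := (h.actc.ge hd).1
  obtain ⟨-, -, -, -, z, hz, -, -, hU, -⟩ := hd
  have s1 : dn G Uᶜ ⊆ (up G U \ ActF G U F)ᶜ := fun x hx k => (up_compl G U).ge hx k.1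
  have s2 : ActF G U F ⊆ (up G U \ ActF G U F)ᶜ := fun x hx k => k.2 hx
  have hv : ctsdV G z ∈ dn G Uᶜ := fun a ha => Finset.mem_singleton.1 ha ▸ hU
  rw [← kc_dn G Uᶜ]
  refine kc_le_of_rch s1 fun x hx => ?_
  by_cases c1 : x ∈ ActF G U F
  · exact ⟨_, hv, bas_trans (rch_mono s2 (actF_conn h.conn x c1 d hD))
      (rch_step (s2 hD) (s1 hv) (Or.inr (ctsdV_le hz)))⟩
  · exact ⟨x, (up_compl G U).le fun k => hx ⟨k, c1⟩, bas_refl _ _ _⟩

theorem Disc.ne (h : Disc G U c F) (hne : (ActC G U c).Nonempty) :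
    (up G U \ ActF G U F).Nonempty := by
  obtain ⟨-, a, -, -, -, -, -, ha, -⟩ := hne
  refine ⟨ctsdV G a, ⟨a, Finset.mem_singleton_self a, ha⟩, ?_⟩
  rintro ⟨x, hx, y, hy, -, -, k⟩
  rw [Finset.mem_singleton.1 hx, Finset.mem_singleton.1 hy] at k
  exact k (h.coc.self ha)

end KG
end
end

-- merged part: Pool.Agent.Work.MP_c146e2_gt.KG.Q1a
section
set_option autoImplicit false

noncomputable section

open scoped Classical

namespace KG

variable {P : Type} [PartialOrder P]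

/-- An upper set `W`, split into a lower set `L` and a rest whose elements have a largest
element outside `W` below them. -/
structure q1H (W L X : Set P) (z : P → P) : Prop where
  un : ∀ a, a ∈ W ↔ a ∈ L ∨ a ∈ X
  lo : ∀ a ∈ L, ∀ b, b ≤ a → b ∈ L
  hi : ∀ a ∈ W, ∀ b, a ≤ b → b ∈ W
  zn : ∀ s ∈ W, s ∉ L → z s ∉ W
  zl : ∀ s ∈ W, s ∉ L → z s ≤ s
  zm : ∀ s ∈ W, s ∉ L → ∀ n, n ∉ W → n ≤ s → n ≤ z s

theorem q1_top {x : Fc (ord P)} {s : P} (h1 : s ∈ x.1) (h2 : ∀ a ∈ x.1, a ≤ s) : ctop x = s :=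
  le_antisymm (h2 _ (ctop_mem x)) (le_ctop h1)

theorem q1_mono {x y : Fc (ord P)} (h : x ≤ y) : ctop x ≤ ctop y := le_ctop (h (ctop_mem x))

/-- Insertion of an element into a chain. -/
def q1I (a : P) (x : Fc (ord P)) : Fc (ord P) :=
  if h : Clq (ord P) (insert a x.1) then ⟨_, h⟩ else x

theorem q1I_mem {a : P} {x : Fc (ord P)} (h : ∀ b ∈ x.1, a ≤ b ∨ b ≤ a) {b : P} :
    b ∈ (q1I a x).1 ↔ b = a ∨ b ∈ x.1 := by
  have h1 : Clq (ord P) (insert a x.1) := mans_ins x.2 h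
  simp only [q1I, dif_pos h1, Finset.mem_insert]

/-- The elements of a chain that lie outside `W` or are equal to `s`. -/
def q1F (W : Set P) (s : P) (x : Fc (ord P)) : Fc (ord P) :=
  if h : (x.1.filter fun a => a ∉ W ∨ a = s).Nonempty then
    ⟨_, x.2.sub (Finset.filter_subset _ _) h⟩ else x

theorem q1F_mem {W : Set P} {s : P} {x : Fc (ord P)} (h : s ∈ x.1) {a : P} :
    a ∈ (q1F W s x).1 ↔ a ∈ x.1 ∧ (a ∉ W ∨ a = s) := by
  have h1 : (x.1.filter fun a => a ∉ W ∨ a = s).Nonempty :=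
    ⟨s, Finset.mem_filter.2 ⟨h, Or.inr rfl⟩⟩
  simp only [q1F, dif_pos h1, Finset.mem_filter]

theorem q1S_mem {s a : P} : a ∈ (ctsdV (ord P) s).1 ↔ a = s := Finset.mem_singleton

theorem q1S_top (s : P) : ctop (ctsdV (ord P) s) = s := q1S_mem.1 (ctop_mem _)

/-- The map from the double of the subdivision to the double. -/
def q1f (L : Set P) (v : Fc (ord P) × Bool) : P × Bool :=
  (ctop v.1, if ctop v.1 ∈ L then v.2 else false)

theorem q1f_eq {L : Set P} {u v : Fc (ord P) × Bool} :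
    q1f L u = q1f L v ↔ ctop u.1 = ctop v.1 ∧ (ctop u.1 ∈ L → u.2 = v.2) := by
  simp only [q1f, Prod.mk.injEq]
  refine and_congr_right fun e => ?_
  rw [← e]
  by_cases k : ctop u.1 ∈ L <;> simp [k]

variable {W L X : Set P} {z : P → P}

theorem q1_val_ins {x : Fc (ord P)} (h : Ins x.1 W) (i : Bool) : (x, i) ∈ ddV (ord P) W := Or.inl h

theorem q1_val_cr {x : Fc (ord P)} (h : ctop x ∈ W) (h' : Meets x.1 Wᶜ) :
    (x, false) ∈ ddV (ord P) W := Or.inr ⟨⟨⟨_, ctop_mem x, h⟩, h'⟩, rfl⟩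

theorem q1_val_top (h : q1H W L X z) {v : Fc (ord P) × Bool} (hv : v ∈ ddV (ord P) W) :
    ctop v.1 ∈ W := by
  rcases hv with k | ⟨⟨⟨a, k1, k2⟩, -⟩, -⟩
  · exact k _ (ctop_mem _)
  · exact h.hi a k2 _ (le_ctop k1)

theorem q1_val_false {v : Fc (ord P) × Bool} (hv : v ∈ ddV (ord P) W) (k : ¬ Ins v.1.1 W) :
    v.2 = false := (hv.resolve_left k).2

theorem q1_nins {x : Fc (ord P)} : Meets x.1 Wᶜ ↔ ¬ Ins x.1 W :=
  ⟨fun ⟨a, k1, k2⟩ k => k2 (k a k1), fun k => by_contra fun k' => k fun a ha =>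
    by_contra fun e => k' ⟨a, ha, e⟩⟩

theorem q1_insL (h : q1H W L X z) {x : Fc (ord P)} (k : ctop x ∈ L) : Ins x.1 W :=
  fun a ha => (h.un a).2 (Or.inl (h.lo _ k a (le_ctop ha)))

theorem q1_sing {s : P} (hs : s ∈ W) : Ins (ctsdV (ord P) s).1 W :=
  fun _ ha => q1S_mem.1 ha ▸ hs

theorem q1_adj {u v : Fc (ord P) × Bool} (hu : u ∈ ddV (ord P) W) (hv : v ∈ ddV (ord P) W)
    (h : u.1 ≤ v.1) (h' : Ins v.1.1 W → u.2 = v.2) : (DD (ord P) W).r u v :=
  Or.inr ⟨hu, hv, Or.inl h, fun _ k => h' k⟩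

theorem q1_adj' {u v : Fc (ord P) × Bool} (hu : u ∈ ddV (ord P) W) (h : (DD (ord P) W).r u v) :
    v ∈ ddV (ord P) W ∧ (u.1 ≤ v.1 ∨ v.1 ≤ u.1) ∧ (Ins u.1.1 W → Ins v.1.1 W → u.2 = v.2) := by
  rcases h with rfl | h
  · exact ⟨hu, Or.inl le_rfl, fun _ _ => rfl⟩
  · exact h.2

theorem q1_chiC [Fintype P] (h : q1H W L X z) {T : Finset P} (hT : Clq (ord P) T)
    (hW : ∀ s ∈ T, s ∈ W ∧ s ∉ L) :
    chi (sd (ord P)) {x | ctop x ∈ T ∧ Meets x.1 Wᶜ} = 1 := by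
  obtain ⟨m, hm, hle⟩ := exists_top (⟨T, hT⟩ : Fc (ord P))
  obtain ⟨m1, m2⟩ := hW m hm
  have i1 : ∀ x : Fc (ord P), ctop x ∈ T → ∀ b, b ∈ (q1I m x).1 ↔ b = m ∨ b ∈ x.1 :=
    fun x hx b => q1I_mem fun c hc => Or.inr ((le_ctop hc).trans (hle _ hx))
  have i2 : ∀ x : Fc (ord P), ctop x = m → (∀ a ∈ x.1, a ∉ W ∨ a = m) →
      ∀ b, b ∈ (q1I (z m) x).1 ↔ b = z m ∨ b ∈ x.1 :=
    fun x hx k b => q1I_mem fun c hc => (k c hc).elim
      (fun e => Or.inr (h.zm m m1 m2 c e (hx ▸ le_ctop hc))) fun e => Or.inl (e ▸ h.zl m m1 m2)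
  have i3 : ∀ x : Fc (ord P), ctop x = m → m ∈ x.1 := fun x hx => hx ▸ ctop_mem x
  have e1 : chi (sd (ord P)) {x | ctop x ∈ T ∧ Meets x.1 Wᶜ} =
      chi (sd (ord P)) {x | ctop x = m ∧ Meets x.1 Wᶜ} := by
    refine chi_infl (q1I m) (fun x hx => ⟨hx.1 ▸ hm, hx.2⟩) (fun x hx => ⟨q1_top
      ((i1 x hx.1 _).2 (Or.inl rfl)) fun a ha => ?_, mans_meets hx.2 fun a ha =>
      (i1 x hx.1 _).2 (Or.inr ha)⟩) (fun x hx a ha => (i1 x hx.1 _).2 (Or.inr ha))
      (fun x hx => Subtype.ext (Finset.ext fun a => ?_)) fun x hx y hy k a ha => ?_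
    · exact ((i1 x hx.1 _).1 ha).elim le_of_eq fun e => (le_ctop e).trans (hle _ hx.1)
    · rw [i1 x (hx.1 ▸ hm)]
      exact or_iff_right_of_imp fun e => e ▸ i3 x hx.1
    · exact (i1 y hy.1 _).2 (((i1 x hx.1 _).1 ha).imp_right fun e => k e)
  have e2 : chi (sd (ord P)) {x | ctop x = m ∧ Meets x.1 Wᶜ} =
      chi (sd (ord P)) {x | (ctop x = m ∧ Meets x.1 Wᶜ) ∧ ∀ a ∈ x.1, a ∉ W ∨ a = m} := by
    refine chi_defl (q1F W m) (fun x hx => hx.1) (fun x hx => ⟨⟨q1_top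
      ((q1F_mem (i3 x hx.1)).2 ⟨i3 x hx.1, Or.inr rfl⟩) fun a ha => ?_, ?_⟩, fun a ha =>
      ((q1F_mem (i3 x hx.1)).1 ha).2⟩) (fun x hx a ha => ((q1F_mem (i3 x hx.1)).1 ha).1)
      (fun x hx => Subtype.ext (Finset.ext fun a => ?_)) fun x hx y hy k a ha => ?_
    · exact hx.1 ▸ le_ctop ((q1F_mem (i3 x hx.1)).1 ha).1
    · obtain ⟨a, k1, k2⟩ := hx.2
      exact ⟨a, (q1F_mem (i3 x hx.1)).2 ⟨k1, Or.inl k2⟩, k2⟩
    · rw [q1F_mem (i3 x hx.1.1)]
      exact and_iff_left_of_imp (hx.2 a)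
    · exact (q1F_mem (i3 y hy.1)).2 (((q1F_mem (i3 x hx.1)).1 ha).imp_left fun e => k e)
  have e3 : chi (sd (ord P)) {x | (ctop x = m ∧ Meets x.1 Wᶜ) ∧ ∀ a ∈ x.1, a ∉ W ∨ a = m} =
      chi (sd (ord P))
        {x | ((ctop x = m ∧ Meets x.1 Wᶜ) ∧ ∀ a ∈ x.1, a ∉ W ∨ a = m) ∧ z m ∈ x.1} := by
    refine chi_infl (q1I (z m)) (fun x hx => hx.1) (fun x hx => ⟨⟨⟨q1_top
      ((i2 x hx.1.1 hx.2 _).2 (Or.inr (i3 x hx.1.1))) fun a ha => ?_, mans_meets hx.1.2 fun a ha =>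
      (i2 x hx.1.1 hx.2 _).2 (Or.inr ha)⟩, fun a ha => ?_⟩, (i2 x hx.1.1 hx.2 _).2 (Or.inl rfl)⟩)
      (fun x hx a ha => (i2 x hx.1.1 hx.2 _).2 (Or.inr ha))
      (fun x hx => Subtype.ext (Finset.ext fun a => ?_)) fun x hx y hy k a ha => ?_
    · exact ((i2 x hx.1.1 hx.2 _).1 ha).elim (fun e => e ▸ h.zl m m1 m2)
        fun e => hx.1.1 ▸ le_ctop e
    · exact ((i2 x hx.1.1 hx.2 _).1 ha).elim (fun e => Or.inl (e ▸ h.zn m m1 m2)) (hx.2 a)
    · rw [i2 x hx.1.1.1 hx.1.2]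
      exact or_iff_right_of_imp fun e => e ▸ hx.2
    · exact (i2 y hy.1.1 hy.2 _).2 (((i2 x hx.1.1 hx.2 _).1 ha).imp_right fun e => k e)
  have i4 := i2 (ctsdV (ord P) m) (q1S_top m) fun a ha => Or.inr (q1S_mem.1 ha)
  rw [e1, e2, e3]
  refine chi_cone (c := q1I (z m) (ctsdV (ord P) m)) ⟨⟨⟨q1_top ((i4 _).2 (Or.inr (q1S_mem.2 rfl)))
    fun a ha => ?_, z m, (i4 _).2 (Or.inl rfl), h.zn m m1 m2⟩, fun a ha => ?_⟩,
    (i4 _).2 (Or.inl rfl)⟩ fun x hx => Or.inr fun a ha => ?_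
  · exact ((i4 _).1 ha).elim (fun e => e ▸ h.zl m m1 m2) fun e => (q1S_mem.1 e).le
  · exact ((i4 _).1 ha).elim (fun e => Or.inl (e ▸ h.zn m m1 m2)) fun e => Or.inr (q1S_mem.1 e)
  · exact ((i4 _).1 ha).elim (fun e => e ▸ hx.2) fun e => q1S_mem.1 e ▸ i3 x hx.1.1.1

/-- One sheet over a set of chains. -/
def q1E (W : Set P) (S : Set (Fc (ord P))) (i : Bool) : Set (Fc (ord P) × Bool) :=
  {v | v ∈ ddV (ord P) W ∧ v.1 ∈ S ∧ (Ins v.1.1 W → v.2 = i)}

theorem q1_chiE [Fintype P] {S : Set (Fc (ord P))} (hS : ∀ x ∈ S, ctop x ∈ W) (i : Bool) :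
    chi (DD (ord P) W) (q1E W S i) = chi (sd (ord P)) S := by
  refine chi_iso (f := Prod.fst) ⟨fun v hv => hv.2.1, fun u hu v hv e => Prod.ext e ?_,
    fun x hx => ?_⟩ fun u hu v hv => ⟨fun k => (q1_adj' hu.1 k).2.1, fun k =>
      Or.inr ⟨hu.1, hv.1, k, fun k1 k2 => (hu.2.2 k1).trans (hv.2.2 k2).symm⟩⟩
  · by_cases k : Ins u.1.1 W
    · exact (hu.2.2 k).trans (hv.2.2 (e ▸ k)).symm
    · exact (q1_val_false hu.1 k).trans (q1_val_false hv.1 (e ▸ k)).symm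
  · by_cases k : Ins x.1 W
    · exact ⟨(x, i), ⟨q1_val_ins k i, hx, fun _ => rfl⟩, rfl⟩
    · exact ⟨(x, false), ⟨q1_val_cr (hS x hx) (q1_nins.2 k), hx, fun e => (k e).elim⟩, rfl⟩

theorem q1_chi [Fintype P] (h : q1H W L X z) (T : Finset (P × Bool))
    (hT : Clq (Db (ord P) L X) T) (hI : Ins T (dbV L X)) :
    chi (DD (ord P) W) (ddV (ord P) W ∩ q1f L ⁻¹' (T : Set (P × Bool))) = 1 := by
  obtain ⟨i, hi⟩ : ∃ i, ∀ q ∈ T, q.1 ∈ L → q.2 = i := by
    by_cases k : ∃ q ∈ T, q.1 ∈ L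
    · obtain ⟨q, k1, k2⟩ := k
      exact ⟨q.2, fun q' k3 k4 => (hT.2 q' k3 q k1).elim (fun e => by rw [e])
        fun e => e.2.2.2 k4 k2⟩
    · exact ⟨true, fun q k1 k2 => (k ⟨q, k1, k2⟩).elim⟩
  have h1 : Clq (ord P) (T.image Prod.fst) := by
    refine ⟨hT.1.image _, fun a ha b hb => ?_⟩
    obtain ⟨q, k1, rfl⟩ := Finset.mem_image.1 ha
    obtain ⟨q', k2, rfl⟩ := Finset.mem_image.1 hb
    exact (hT.2 q k1 q' k2).elim (fun e => Or.inl (by rw [e])) fun e => e.2.2.1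
  have h2 : ∀ s ∈ T.image Prod.fst, s ∈ W := fun s hs => by
    obtain ⟨q, k1, rfl⟩ := Finset.mem_image.1 hs
    exact (h.un _).2 ((hI q k1).imp_right And.left)
  have h3 : ∀ v, q1f L v ∈ T ↔ ctop v.1 ∈ T.image Prod.fst ∧ (ctop v.1 ∈ L → v.2 = i) := by
    refine fun v => ⟨fun k => ⟨Finset.mem_image.2 ⟨_, k, rfl⟩, fun e => ?_⟩, fun ⟨k1, k2⟩ => ?_⟩
    · have := hi _ k e
      simpa [q1f, e] using this
    · obtain ⟨q, k3, k4⟩ := Finset.mem_image.1 k1
      rw [show q1f L v = q from Prod.ext k4.symm ?_]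
      · exact k3
      · by_cases e : ctop v.1 ∈ L
        · simp only [q1f, if_pos e, k2 e, hi q k3 (k4 ▸ e)]
        · simp only [q1f, if_neg e]
          exact ((hI q k3).resolve_left (k4 ▸ e)).2.symm
  generalize T.image Prod.fst = T1 at h1 h2 h3
  have hb : ∀ a b : Bool, a ≠ b → a = !b := by decide
  have hb' : ∀ a : Bool, a ≠ !a := by decide
  have h4 : ddV (ord P) W ∩ q1f L ⁻¹' (T : Set (P × Bool)) =
      q1E W (ctop ⁻¹' (T1 : Set P)) i ∪ q1E W {x | ctop x ∈ T1 ∧ ctop x ∉ L} (!i) := by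
    refine Set.ext fun v => ⟨fun ⟨k1, k2⟩ => ?_, fun k => ?_⟩
    · obtain ⟨k3, k4⟩ := (h3 v).1 k2
      by_cases e : v.2 = i
      · exact Or.inl ⟨k1, k3, fun _ => e⟩
      · exact Or.inr ⟨k1, ⟨k3, fun e' => e (k4 e')⟩, fun _ => hb _ _ e⟩
    · rcases k with k | k
      · exact ⟨k.1, (h3 v).2 ⟨k.2.1, fun e => k.2.2 (q1_insL h e)⟩⟩
      · exact ⟨k.1, (h3 v).2 ⟨k.2.1.1, fun e => (k.2.1.2 e).elim⟩⟩
  have h5 : q1E W (ctop ⁻¹' (T1 : Set P)) i ∩ q1E W {x | ctop x ∈ T1 ∧ ctop x ∉ L} (!i) =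
      q1E W {x | (ctop x ∈ T1 ∧ ctop x ∉ L) ∧ Meets x.1 Wᶜ} i := by
    refine Set.ext fun v => ⟨fun ⟨k1, k2⟩ => ⟨k1.1, ⟨k2.2.1, q1_nins.2 fun e => ?_⟩, k1.2.2⟩,
      fun k => ⟨⟨k.1, k.2.1.1.1, k.2.2⟩, k.1, k.2.1.1, fun e => (q1_nins.1 k.2.1.2 e).elim⟩⟩
    exact hb' i ((k1.2.2 e).symm.trans (k2.2.2 e))
  have h6 := chi_union (G := DD (ord P) W) (A := q1E W (ctop ⁻¹' (T1 : Set P)) i)
    (B := q1E W {x | ctop x ∈ T1 ∧ ctop x ∉ L} (!i)) fun s hs k => by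
      by_contra e
      simp only [Ins, not_or, not_forall] at e
      obtain ⟨⟨a, a1, a2⟩, b, b1, b2⟩ := e
      have a3 := (k a a1).resolve_left a2
      have b3 := (k b b1).resolve_right b2
      have a4 : Ins a.1.1 W := by_contra fun e => a2 ⟨a3.1, a3.2.1.1, fun e' => (e e').elim⟩
      have b4 : Ins b.1.1 W := by_contra fun e =>
        b2 ⟨b3.1, ⟨b3.2.1, fun e' => e (q1_insL h e')⟩, fun e' => (e e').elim⟩
      exact hb' i ((b3.2.2 b4).symm.trans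
        (((q1_adj' b3.1 (hs.2 b b1 a a1)).2.2 b4 a4).trans (a3.2.2 a4)))
  rw [h5, q1_chiE (S := ctop ⁻¹' (T1 : Set P)) fun x hx => h2 _ hx,
    q1_chiE (S := {x | ctop x ∈ T1 ∧ ctop x ∉ L}) fun x hx => h2 _ hx.1,
    q1_chiE (S := {x | (ctop x ∈ T1 ∧ ctop x ∉ L) ∧ Meets x.1 Wᶜ}) fun x hx => h2 _ hx.1.1,
    ctsd_chi (ord P) ctop_mem T1 h1, ← h4] at h6
  by_cases k : (T1.filter (· ∉ L)).Nonempty
  · have h7 := h1.sub (Finset.filter_subset _ _) k
    have h8 := ctsd_chi (ord P) ctop_mem _ h7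
    have h9 := q1_chiC h h7 fun s hs =>
      ⟨h2 s (Finset.mem_filter.1 hs).1, (Finset.mem_filter.1 hs).2⟩
    simp only [Finset.mem_filter] at h9
    rw [show ctop ⁻¹' ((T1.filter (· ∉ L) : Finset P) : Set P) =
      {x : Fc (ord P) | ctop x ∈ T1 ∧ ctop x ∉ L} from Set.ext fun x => Finset.mem_filter] at h8
    linarith
  · have h7 : ∀ x : Fc (ord P), ¬ (ctop x ∈ T1 ∧ ctop x ∉ L) :=
      fun x e => k ⟨_, Finset.mem_filter.2 e⟩
    simp only [h7, false_and, Set.ofPred_false, chi_empty] at h6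
    linarith

end KG
end
end

-- merged part: Pool.Agent.Work.MP_c146e2_gt.KG.Q1
section
set_option autoImplicit false

noncomputable section

open scoped Classical

namespace KG

variable {V V' : Type}

section

variable {P : Type} [PartialOrder P] {W L X : Set P} {z : P → P}

/-- The chain with the two elements `a ≤ s`. -/
def q1P (a s : P) : Fc (ord P) := q1I a (ctsdV (ord P) s)

theorem q1P_mem {a s : P} (h : a ≤ s) {b : P} : b ∈ (q1P a s).1 ↔ b = a ∨ b = s :=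
  (q1I_mem fun _ hc => Or.inl (q1S_mem.1 hc ▸ h)).trans (or_congr_right q1S_mem)

theorem q1P_top {a s : P} (h : a ≤ s) : ctop (q1P a s) = s :=
  q1_top ((q1P_mem h).2 (Or.inr rfl)) fun _ hb => ((q1P_mem h).1 hb).elim (fun e => e ▸ h) le_of_eq

theorem q1P_le {a s : P} (h : a ≤ s) {x : Fc (ord P)} (ha : a ∈ x.1) (hs : s ∈ x.1) :
    q1P a s ≤ x := fun _ hb => ((q1P_mem h).1 hb).elim (fun e => e ▸ ha) fun e => e ▸ hs

theorem q1S_le {x : Fc (ord P)} : ctsdV (ord P) (ctop x) ≤ x := ctsdV_le (ctop_mem x)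

theorem q1Z_val (h : q1H W L X z) {s : P} (h1 : s ∈ W) (h2 : s ∉ L) :
    Meets (q1P (z s) s).1 Wᶜ ∧ (q1P (z s) s, false) ∈ ddV (ord P) W :=
  have k : Meets (q1P (z s) s).1 Wᶜ := ⟨z s, (q1P_mem (h.zl s h1 h2)).2 (Or.inl rfl), h.zn s h1 h2⟩
  ⟨k, q1_val_cr ((q1P_top (h.zl s h1 h2)).symm ▸ h1) k⟩

/-- The roots. -/
def q1R (W L : Set P) : Set (Fc (ord P) × Bool) :=
  {v | v ∈ ddV (ord P) W ∧ v.1 = ctsdV (ord P) (ctop v.1) ∧ (ctop v.1 ∉ L → v.2 = false)}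

/-- The parents. -/
def q1p (z : P → P) (v : Fc (ord P) × Bool) : Fc (ord P) × Bool :=
  if v.1 = ctsdV (ord P) (ctop v.1) then (q1P (z (ctop v.1)) (ctop v.1), false)
  else (ctsdV (ord P) (ctop v.1), v.2)

theorem q1_sv (h : q1H W L X z) {v : Fc (ord P) × Bool} (hv : v ∈ ddV (ord P) W) :
    (ctsdV (ord P) (ctop v.1), v.2) ∈ ddV (ord P) W ∧
      (DD (ord P) W).r (ctsdV (ord P) (ctop v.1), v.2) v :=
  have k := q1_val_ins (q1_sing (q1_val_top h hv)) v.2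
  ⟨k, q1_adj k hv q1S_le fun _ => rfl⟩

theorem q1_fib (h : q1H W L X z) : ∃ (R : Set (Fc (ord P) × Bool))
    (p : Fc (ord P) × Bool → Fc (ord P) × Bool), R ⊆ ddV (ord P) W ∧ Set.InjOn (q1f L) R ∧
      Forest (DD (ord P) W) (ddV (ord P) W) (ddV (ord P) W \ R) p ∧
      (∀ x ∈ ddV (ord P) W \ R, q1f L (p x) = q1f L x) ∧
      ∀ x ∈ ddV (ord P) W, ∀ y ∈ ddV (ord P) W, (DD (ord P) W).r x y → q1f L x = q1f L y →
        Cl (DD (ord P) W) (par (ddV (ord P) W \ R) p) x y := by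
  have hb : ∀ a : Bool, a ≠ false → a = true := by decide
  have h0 : ∀ v ∈ ddV (ord P) W \ q1R W L, v.1 = ctsdV (ord P) (ctop v.1) →
      ctop v.1 ∉ L ∧ v.2 = true := fun v hv e =>
    ⟨fun k => hv.2 ⟨hv.1, e, fun k' => (k' k).elim⟩, hb _ fun k => hv.2 ⟨hv.1, e, fun _ => k⟩⟩
  refine ⟨q1R W L, q1p z, fun v hv => hv.1, fun u hu v hv e => ?_,
    ⟨fun v => if ctop v.1 ∉ L ∧ v.2 = true ∧ v.1 = ctsdV (ord P) (ctop v.1) then 1
      else if ctop v.1 ∉ L ∧ v.2 = true then 2 else 0, fun v hv => ?_⟩, fun v hv => ?_, ?_⟩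
  · obtain ⟨e1, e2⟩ := q1f_eq.1 e
    refine Prod.ext (by rw [hu.2.1, hv.2.1, e1]) ?_
    by_cases k : ctop u.1 ∈ L
    · exact e2 k
    · rw [hu.2.2 k, hv.2.2 (e1 ▸ k)]
  · have h1 := q1_val_top h hv.1
    by_cases e : v.1 = ctsdV (ord P) (ctop v.1)
    · obtain ⟨k1, k2⟩ := h0 v hv e
      obtain ⟨k3, k4⟩ := q1Z_val h h1 k1
      rw [q1p, if_pos e]
      refine ⟨k4, q1_adj hv.1 k4 (e.le.trans (ctsdV_le ((q1P_mem (h.zl _ h1 k1)).2 (Or.inr rfl))))
        fun k => (q1_nins.1 k3 k).elim, fun _ => ?_⟩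
      dsimp only
      rw [if_neg (by simp), if_neg (by simp), if_pos ⟨k1, k2, e⟩]
      exact one_pos
    · rw [q1p, if_neg e]
      refine ⟨(q1_sv h hv.1).1, (DD (ord P) W).symm _ _ (q1_sv h hv.1).2, fun k => ?_⟩
      have k1 := h0 _ k (by rw [q1S_top])
      rw [q1S_top] at k1
      dsimp only at k1 ⊢
      rw [q1S_top, if_pos ⟨k1.1, k1.2, rfl⟩, if_neg fun k2 => e k2.2.2, if_pos k1]
      exact one_lt_two
  · unfold q1p
    split_ifs with e
    · have k := (h0 v hv e).1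
      have k1 := q1P_top (h.zl _ (q1_val_top h hv.1) k)
      exact q1f_eq.2 ⟨k1, fun k2 => (k (k1 ▸ k2)).elim⟩
    · exact q1f_eq.2 ⟨q1S_top _, fun _ => rfl⟩
  generalize hA : par (ddV (ord P) W \ q1R W L) (q1p z) = A
  have ha : ∀ v ∈ ddV (ord P) W, Cl (DD (ord P) W) A v (ctsdV (ord P) (ctop v.1), v.2) := by
    intro v hv
    by_cases e : v.1 = ctsdV (ord P) (ctop v.1)
    · rw [← e]
      exact Cl.refl v
    · exact Cl.base (hA ▸ ⟨⟨hv, fun k => e k.2.1⟩, by rw [q1p, if_neg e]⟩)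
  have hs : ∀ u ∈ ddV (ord P) W, ∀ v ∈ ddV (ord P) W, (DD (ord P) W).r u v →
      ctop u.1 = ctop v.1 → u.2 = v.2 → Cl (DD (ord P) W) A u v := by
    intro u hu v hv r e1 e2
    have k := ha u hu
    have k' := (q1_sv h hu).2
    rw [e1, e2] at k k'
    exact Cl.tri ((DD (ord P) W).symm _ _ k') (q1_sv h hv).2 r k (ha v hv).symm
  have hc : ∀ s ∈ W, s ∉ L → ∀ y : Fc (ord P), ctop y = s → Meets y.1 Wᶜ →
      Cl (DD (ord P) W) A (ctsdV (ord P) s, true) (y, false) := by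
    intro s s1 s2
    have v0 := q1_val_ins (q1_sing s1) true
    have a1 : ∀ y : Fc (ord P), ctop y = s → Meets y.1 Wᶜ → (y, false) ∈ ddV (ord P) W ∧
        (DD (ord P) W).r (ctsdV (ord P) s, true) (y, false) := fun y e k =>
      have k1 := q1_val_cr (e ▸ s1) k
      ⟨k1, q1_adj v0 k1 (e ▸ q1S_le) fun k2 => (q1_nins.1 k k2).elim⟩
    have a2 : ∀ y y' : Fc (ord P), ctop y = s → Meets y.1 Wᶜ → ctop y' = s → y ≤ y' →
        (Cl (DD (ord P) W) A (ctsdV (ord P) s, true) (y, false) ↔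
          Cl (DD (ord P) W) A (ctsdV (ord P) s, true) (y', false)) := by
      intro y y' e k e' l
      obtain ⟨b1, b2⟩ := a1 y e k
      obtain ⟨b3, b4⟩ := a1 y' e' (mans_meets k l)
      have r := q1_adj b1 b3 l fun _ => rfl
      have c := hs _ b1 _ b3 r (e.trans e'.symm) rfl
      exact ⟨fun q => Cl.tri b2 r b4 q c, fun q => Cl.tri b4 ((DD (ord P) W).symm _ _ r) b2 q c.symm⟩
    intro y e k
    have sy : s ∈ y.1 := e ▸ ctop_mem y
    have zl := h.zl s s1 s2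
    have i1 : ∀ b, b ∈ (q1I (z s) (q1F W s y)).1 ↔ b = z s ∨ b ∈ (q1F W s y).1 := fun b =>
      q1I_mem fun c hc => ((q1F_mem sy).1 hc).2.elim
        (fun q => Or.inr (h.zm s s1 s2 c q (e ▸ le_ctop ((q1F_mem sy).1 hc).1)))
        fun q => Or.inl (q ▸ zl)
    have s3 : s ∈ (q1F W s y).1 := (q1F_mem sy).2 ⟨sy, Or.inr rfl⟩
    have t1 : ctop (q1F W s y) = s := q1_top s3 fun a q => e ▸ le_ctop ((q1F_mem sy).1 q).1
    have t2 : ctop (q1I (z s) (q1F W s y)) = s := q1_top ((i1 _).2 (Or.inr s3)) fun a q =>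
      ((i1 _).1 q).elim (fun q' => q' ▸ zl) fun q' => t1 ▸ le_ctop q'
    have m1 : Meets (q1F W s y).1 Wᶜ := by
      obtain ⟨a, q1, q2⟩ := k
      exact ⟨a, (q1F_mem sy).2 ⟨q1, Or.inl q2⟩, q2⟩
    refine (a2 _ y t1 m1 e fun a q => ((q1F_mem sy).1 q).1).1
      ((a2 _ _ t1 m1 t2 fun a q => (i1 _).2 (Or.inr q)).2
        ((a2 _ _ (q1P_top zl) (q1Z_val h s1 s2).1 t2
          (q1P_le zl ((i1 _).2 (Or.inl rfl)) ((i1 _).2 (Or.inr s3)))).1 (Cl.base ?_)))
    rw [← hA]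
    refine ⟨⟨v0, fun q => ?_⟩, ?_⟩
    · have := q.2.2 (by rwa [q1S_top])
      simp at this
    · simp only [q1p, q1S_top, if_true]
  have hd : ∀ u ∈ ddV (ord P) W, ∀ v ∈ ddV (ord P) W, (DD (ord P) W).r u v →
      ctop u.1 = ctop v.1 → u.2 = true → v.2 = false → Cl (DD (ord P) W) A u v := by
    intro u hu v hv r e1 e2 e3
    have k1 : Ins u.1.1 W := by_contra fun k => by simp [q1_val_false hu k] at e2
    have k2 : ¬ Ins v.1.1 W := fun k => by simp [(q1_adj' hu r).2.2 k1 k, e3] at e2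
    have k3 := hc _ (q1_val_top h hv) (fun k => k2 (q1_insL h k)) v.1 rfl (q1_nins.2 k2)
    have k4 := ha u hu
    have k5 := q1_sv h hu
    rw [e1, e2] at k4 k5
    rw [← e3] at k3
    exact Cl.tri ((DD (ord P) W).symm _ _ k5.2)
      (q1_adj k5.1 hv q1S_le fun k => (k2 k).elim) r k4 k3
  intro x hx y hy r e
  have e1 := (q1f_eq.1 e).1
  by_cases k : x.2 = y.2
  · exact hs x hx y hy r e1 k
  · cases k1 : x.2
    · exact (hd y hy x hx ((DD (ord P) W).symm _ _ r) e1.symm (hb _ fun k2 => k (k1.trans k2.symm))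
        k1).symm
    · exact hd x hx y hy r e1 k1 (by_contra fun k2 => k (k1.trans (hb _ k2).symm))

theorem q1_symm {G' : Cx V'} {U' : Set V'} {f : V' → V} {e e' : V' × V'}
    (h : Relation.ReflTransGen (EStep G' U' f) e e') :
    Relation.ReflTransGen (EStep G' U' f) e' e := by
  induction h with
  | refl => exact .refl
  | tail _ h ih =>
    obtain ⟨a, b, h1, h2, h3, h4, h5⟩ := h
    exact .head ⟨b, a, h2, h1, h3.symm, h4.symm,
      h5.imp (fun h => ⟨h.1.symm, G'.symm _ _ h.2⟩) fun h => ⟨h.1.symm, G'.symm _ _ h.2⟩⟩ ih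

theorem q1_swap {G' : Cx V'} {U' : Set V'} {f : V' → V} (hc : ∀ u ∈ U', ∀ x, G'.r u x → x ∈ U')
    {e e' : V' × V'} (h : Relation.ReflTransGen (EStep G' U' f) e e') :
    Relation.ReflTransGen (EStep G' U' f) e.swap e'.swap := by
  induction h with
  | refl => exact .refl
  | tail _ h ih =>
    obtain ⟨a, b, h1, h2, h3, h4, h5⟩ := h
    exact ih.tail ⟨hc _ a _ h1, hc _ b _ h2, G'.symm _ _ h1, G'.symm _ _ h2, h4, h3, h5.symm⟩

theorem q1_mv1 {G' : Cx V'} {U' : Set V'} {f : V' → V} {x x' y : V'} (a : x ∈ U') (b : x' ∈ U')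
    (h1 : G'.r x y) (h2 : G'.r x' y) (h3 : G'.r x x') (h4 : f x = f x') :
    EStep G' U' f (x, y) (x', y) := ⟨a, b, h1, h2, h4, rfl, Or.inl ⟨rfl, h3⟩⟩

theorem q1_mv2 {G' : Cx V'} {U' : Set V'} {f : V' → V} {x y y' : V'} (a : x ∈ U')
    (h1 : G'.r x y) (h2 : G'.r x y') (h3 : G'.r y y') (h4 : f y = f y') :
    EStep G' U' f (x, y) (x, y') := ⟨a, a, h1, h2, rfl, h4, Or.inr ⟨rfl, h3⟩⟩

theorem q1_can (h : q1H W L X z) {x y : Fc (ord P) × Bool} (hx : x ∈ ddV (ord P) W)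
    (r : (DD (ord P) W).r x y) (l : x.1 ≤ y.1) :
    Relation.ReflTransGen (EStep (DD (ord P) W) (ddV (ord P) W) (q1f L)) (x, y)
      (if ctop x.1 ∈ L then ((ctsdV (ord P) (ctop x.1), x.2), (q1P (ctop x.1) (ctop y.1), x.2))
        else ((q1P (z (ctop x.1)) (ctop x.1), false),
          (q1I (z (ctop x.1)) (q1P (ctop x.1) (ctop y.1)), false))) := by
  obtain ⟨hy, -, r'⟩ := q1_adj' hx r
  have r1 : Ins y.1.1 W → x.2 = y.2 := fun k => r' (fun a ha => k a (l ha)) k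
  have s1 := q1_val_top h hx
  have s2 := q1_val_top h hy
  have l1 := q1_mono l
  obtain ⟨v1, v2⟩ := q1_sv h hx
  have v3 : (DD (ord P) W).r (ctsdV (ord P) (ctop x.1), x.2) y := q1_adj v1 hy (q1S_le.trans l) r1
  have v4 : (q1P (ctop x.1) (ctop y.1), x.2) ∈ ddV (ord P) W :=
    q1_val_ins (fun a ha => ((q1P_mem l1).1 ha).elim (fun e => e ▸ s1) fun e => e ▸ s2) _
  have v5 : (DD (ord P) W).r (ctsdV (ord P) (ctop x.1), x.2) (q1P (ctop x.1) (ctop y.1), x.2) :=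
    q1_adj v1 v4 (ctsdV_le ((q1P_mem l1).2 (Or.inl rfl))) fun _ => rfl
  refine .head (q1_mv1 hx v1 r v3 ((DD (ord P) W).symm _ _ v2)
    (q1f_eq.2 ⟨(q1S_top _).symm, fun _ => rfl⟩)) (.head (q1_mv2 v1 v3 v5
      ((DD (ord P) W).symm _ _ (q1_adj v4 hy (q1P_le l1 (l (ctop_mem _)) (ctop_mem _)) r1))
      (q1f_eq.2 ⟨(q1P_top l1).symm, fun k => (r1 (q1_insL h k)).symm⟩)) ?_)
  split_ifs with k
  · exact .refl
  have zl := h.zl _ s1 k
  have i1 : ∀ b, b ∈ (q1I (z (ctop x.1)) (q1P (ctop x.1) (ctop y.1))).1 ↔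
      b = z (ctop x.1) ∨ b ∈ (q1P (ctop x.1) (ctop y.1)).1 := fun b =>
    q1I_mem fun c hc => Or.inl (((q1P_mem l1).1 hc).elim (fun e => e ▸ zl) fun e => e ▸ zl.trans l1)
  have t1 : ctop (q1I (z (ctop x.1)) (q1P (ctop x.1) (ctop y.1))) = ctop y.1 :=
    q1_top ((i1 _).2 (Or.inr ((q1P_mem l1).2 (Or.inr rfl)))) fun a q =>
      ((i1 _).1 q).elim (fun e => e ▸ zl.trans l1) fun e => (le_ctop e).trans (q1P_top l1).le
  have m1 : Meets (q1I (z (ctop x.1)) (q1P (ctop x.1) (ctop y.1))).1 Wᶜ :=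
    ⟨_, (i1 _).2 (Or.inl rfl), h.zn _ s1 k⟩
  have w1 := q1_val_cr (t1.symm ▸ s2) m1
  have w2 : ctop x.1 ∈ (q1I (z (ctop x.1)) (q1P (ctop x.1) (ctop y.1))).1 :=
    (i1 _).2 (Or.inr ((q1P_mem l1).2 (Or.inl rfl)))
  have w3 := q1_adj v1 w1 (ctsdV_le w2) fun q => (q1_nins.1 m1 q).elim
  obtain ⟨m2, w4⟩ := q1Z_val h s1 k
  exact .head (q1_mv2 v1 v5 w3
      (q1_adj v4 w1 (fun a q => (i1 _).2 (Or.inr q)) fun q => (q1_nins.1 m1 q).elim)
      (q1f_eq.2 ⟨(q1P_top l1).trans t1.symm, fun q =>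
        (k (h.lo _ q _ (l1.trans (q1P_top l1).ge))).elim⟩))
    (.single (q1_mv1 v1 w4 w3 (q1_adj w4 w1 (q1P_le zl ((i1 _).2 (Or.inl rfl)) w2) fun _ => rfl)
      (q1_adj v1 w4 (ctsdV_le ((q1P_mem zl).2 (Or.inr rfl))) fun q => (q1_nins.1 m2 q).elim)
      (q1f_eq.2 ⟨(q1S_top _).trans (q1P_top zl).symm,
        fun q => (k (q1S_top (ctop x.1) ▸ q)).elim⟩)))

theorem q1_contr [Fintype P] (h : q1H W L X z) :
    Contr (DD (ord P) W) (Db (ord P) L X) (ddV (ord P) W) (dbV L X) (q1f L) := by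
  have hc : ∀ u ∈ ddV (ord P) W, ∀ x, (DD (ord P) W).r u x → x ∈ ddV (ord P) W :=
    fun u hu x r => (q1_adj' hu r).1
  have hm : ∀ x ∈ ddV (ord P) W, q1f L x ∈ dbV L X := fun x hx => by
    by_cases k : ctop x.1 ∈ L
    · exact Or.inl k
    · exact Or.inr ⟨((h.un _).1 (q1_val_top h hx)).resolve_left k, if_neg k⟩
  have he : ∀ x ∈ ddV (ord P) W, ∀ x' ∈ ddV (ord P) W, ∀ y y', (DD (ord P) W).r x y →
      (DD (ord P) W).r x' y' → q1f L x = q1f L x' → q1f L y = q1f L y' → q1f L x ≠ q1f L y →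
      x.1 ≤ y.1 → Relation.ReflTransGen (EStep (DD (ord P) W) (ddV (ord P) W) (q1f L))
        (x, y) (x', y') := by
    intro x hx x' hx' y y' r r' e1 e2 n l
    obtain ⟨a1, a2⟩ := q1f_eq.1 e1
    obtain ⟨a3, -⟩ := q1f_eq.1 e2
    have l' : x'.1 ≤ y'.1 := (q1_adj' hx' r').2.1.resolve_right fun q => by
      have a4 : ctop x.1 = ctop y.1 := le_antisymm (q1_mono l) (a1 ▸ a3 ▸ q1_mono q)
      exact n (q1f_eq.2 ⟨a4, fun k => (q1_adj' hx r).2.2 (q1_insL h k) (q1_insL h (a4 ▸ k))⟩)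
    have c := q1_can h hx' r' l'
    rw [← a1, ← a3] at c
    refine (q1_can h hx r l).trans (q1_symm ?_)
    split_ifs at c ⊢ with k
    · rwa [a2 k]
    · exact c
  refine ⟨hm, fun u hu x r n => (n (hc u hu x r)).elim, fun u hu x y r1 r2 r => ?_,
    eul_of_chi' hc (fun u hu x r => r.elim (fun e => e ▸ hu) fun e => e.2.1) (q1_chi h),
    q1_fib h, fun x hx x' hx' y y' r r' e1 e2 n => ?_⟩
  · have hx := hc u hu x r1
    obtain ⟨hy, a1, a2⟩ := q1_adj' hx r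
    refine Or.inr ⟨hm x hx, hm y hy, a1.imp q1_mono q1_mono, fun k1 k2 => ?_⟩
    exact (if_pos k1).trans ((a2 (q1_insL h k1) (q1_insL h k2)).trans (if_pos k2).symm)
  · rcases (q1_adj' hx r).2.1 with l | l
    · exact he x hx x' hx' y y' r r' e1 e2 n l
    · exact q1_swap hc (he y (hc x hx y r) y' (hc x' hx' y' r') x x' ((DD (ord P) W).symm _ _ r)
        ((DD (ord P) W).symm _ _ r') e2 e1 n.symm l)

end

theorem q1_hyp (G : Cx V) (U : Set V) : ∃ z, q1H (up G U) (dn G U) (Xs G U) z := by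
  have h : ∀ s : Fc G, ∃ t : Fc G, s ∉ dn G U → ∀ a, a ∈ t.1 ↔ a ∈ s.1 ∧ a ∉ U := fun s => by
    by_cases k : (s.1.filter (· ∉ U)).Nonempty
    · exact ⟨⟨_, s.2.sub (Finset.filter_subset _ _) k⟩, fun _ a => Finset.mem_filter⟩
    · exact ⟨s, fun e => (e fun a ha => by_contra fun q => k ⟨a, Finset.mem_filter.2 ⟨ha, q⟩⟩).elim⟩
  choose z hz using h
  exact ⟨z, fun a => by rw [← dn_union_xs]; rfl, fun a ha b l c hc => ha c (l hc),
    fun a ha b l => mans_meets ha l, fun s _ k ⟨a, h1, h2⟩ => ((hz s k a).1 h1).2 h2,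
    fun s _ k a ha => ((hz s k a).1 ha).1,
    fun s _ k n hn l a ha => (hz s k a).2 ⟨l ha, fun e => hn ⟨a, ha, e⟩⟩⟩

theorem qq_sd [Fintype V] {G : Cx V} {U : Set V} (h : Man G U) : qq (sd G) (up G U) = qq G U := by
  obtain ⟨z, hz⟩ := q1_hyp G U
  exact (q1_contr hz).tv h.sd.dd

end KG
end
end

-- merged part: Pool.Agent.Work.MP_c146e2_gt.KG.SphB
section
set_option autoImplicit false

noncomputable section

open scoped Classical

namespace KG

variable {V V' : Type}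

theorem sphb_top {G : Cx V} (ht : V → ℕ) (s : Fc G) : ∃ v ∈ s.1, s.1.sup ht = ht v :=
  Finset.exists_mem_eq_sup _ s.2.1 ht

theorem sphb_ht [Fintype V] {G : Cx V} (hd : ∀ s, Clq G s → s.card ≤ 4) (ht : V → ℕ) :
    ∃ k : Fc G → ℕ, Function.Injective k ∧ ∀ s t : Fc G, s.1 ⊂ t.1 →
      (s.1.sup ht < t.1.sup ht → k s < k t) ∧ (s.1.sup ht = t.1.sup ht → k t < k s) := by
  let N := Fintype.card (Fc G)
  let e := Fintype.equivFin (Fc G)
  have key : ∀ (a b : ℕ) (s t : Fc G), a < b → a * N + (e s).1 < b * N + (e t).1 := by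
    intro a b s t h
    have h1 : (e s).1 < N := (e s).2
    have h2 : (a + 1) * N ≤ b * N := Nat.mul_le_mul_right _ h
    rw [add_mul, one_mul] at h2
    omega
  refine ⟨fun s => (s.1.sup ht * 5 + (4 - s.1.card)) * N + (e s).1, fun s t h => ?_,
    fun s t h => ⟨fun h1 => key _ _ _ _ (by omega), fun h1 => key _ _ _ _ ?_⟩⟩
  · rcases lt_trichotomy (s.1.sup ht * 5 + (4 - s.1.card)) (t.1.sup ht * 5 + (4 - t.1.card)) with
      h1 | h1 | h1
    · exact absurd h (key _ _ _ _ h1).ne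
    · have h2 : (s.1.sup ht * 5 + (4 - s.1.card)) * N + (e s).1 =
        (t.1.sup ht * 5 + (4 - t.1.card)) * N + (e t).1 := h
      rw [h1] at h2
      exact e.injective (Fin.ext (Nat.add_left_cancel h2))
    · exact absurd h (key _ _ _ _ h1).ne'
  · have h2 := Finset.card_lt_card h
    have h3 := hd _ t.2
    omega

section

variable {G : Cx V} {ht : V → ℕ} {k : Fc G → ℕ}
  (hk : ∀ s t : Fc G, s.1 ⊂ t.1 →
    (s.1.sup ht < t.1.sup ht → k s < k t) ∧ (s.1.sup ht = t.1.sup ht → k t < k s))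

include hk

theorem sphb_lt {s t : Fc G} : (sd G).r s t ∧ k s < k t ↔
    (s.1 ⊂ t.1 ∧ s.1.sup ht < t.1.sup ht) ∨ (t.1 ⊂ s.1 ∧ t.1.sup ht = s.1.sup ht) := by
  constructor
  · rintro ⟨h1, h2⟩
    have ne : s.1 ≠ t.1 := fun e => h2.ne (congrArg k (Subtype.ext e))
    rcases h1 with h1 | h1
    · have h3 : s.1 ⊂ t.1 := Finset.ssubset_iff_subset_ne.2 ⟨h1, ne⟩
      refine Or.inl ⟨h3, lt_of_le_of_ne (Finset.sup_mono h1) fun e => ?_⟩
      exact lt_asymm h2 ((hk s t h3).2 e)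
    · have h3 : t.1 ⊂ s.1 := Finset.ssubset_iff_subset_ne.2 ⟨h1, ne.symm⟩
      refine Or.inr ⟨h3, ?_⟩
      by_contra e
      exact lt_asymm h2 ((hk t s h3).1 (lt_of_le_of_ne (Finset.sup_mono h1) e))
  · rintro (⟨h1, h2⟩ | ⟨h1, h2⟩)
    · exact ⟨Or.inl h1.1, (hk s t h1).1 h2⟩
    · exact ⟨Or.inr h1.1, (hk t s h1).2 h2⟩

theorem sphb_low {s t : Fc G} : t ∈ lowl (sd G) k s ↔
    (t.1 ⊂ s.1 ∧ t.1.sup ht < s.1.sup ht) ∨ (s.1 ⊂ t.1 ∧ s.1.sup ht = t.1.sup ht) :=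
  Iff.trans ⟨fun h => ⟨(sd G).symm _ _ h.1, h.2⟩, fun h => ⟨(sd G).symm _ _ h.1, h.2⟩⟩ (sphb_lt hk)

theorem sphb_upp {s t : Fc G} : t ∈ uppl (sd G) k s ↔
    (s.1 ⊂ t.1 ∧ s.1.sup ht < t.1.sup ht) ∨ (t.1 ⊂ s.1 ∧ t.1.sup ht = s.1.sup ht) := sphb_lt hk

theorem sphb_low1 (hi : Function.Injective ht) {s : Fc G} {v : V} (hs : s.1 = {v})
    (h : (lowl G ht v).Nonempty ∧ Conn G (lowl G ht v)) :
    (lowl (sd G) k s).Nonempty ∧ Conn (sd G) (lowl (sd G) k s) := by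
  have e1 : lk G {v} ∩ {w | ht w < ht v} = lowl G ht v := by
    ext w
    constructor
    · rintro ⟨⟨-, h1⟩, h2⟩
      exact ⟨G.symm _ _ (h1 v (Finset.mem_singleton_self v)), h2⟩
    · rintro ⟨h1, h2⟩
      refine ⟨⟨fun e => ?_, fun a ha => ?_⟩, h2⟩
      · rw [Finset.mem_singleton.1 e] at h2; exact lt_irrefl _ h2
      · rw [Finset.mem_singleton.1 ha]; exact G.symm _ _ h1
  have e2 : lowl (sd G) k s = {t : Fc G | {v} ⊂ t.1 ∧ ∀ w ∈ t.1, w ∉ ({v} : Finset V) →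
      w ∈ {w | ht w < ht v}} := by
    ext t
    rw [sphb_low hk, hs, Finset.sup_singleton]
    constructor
    · rintro (⟨h1, -⟩ | ⟨h1, h2⟩)
      · exact absurd (Finset.ssubset_singleton_iff.1 h1) t.2.1.ne_empty
      · refine ⟨h1, fun w hw hv => lt_of_le_of_ne (h2 ▸ Finset.le_sup hw) fun e => hv ?_⟩
        exact Finset.mem_singleton.2 (hi e)
    · rintro ⟨h1, h2⟩
      refine Or.inr ⟨h1, le_antisymm (Finset.le_sup (h1.1 (Finset.mem_singleton_self v)))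
        (Finset.sup_le fun w hw => ?_)⟩
      by_cases e : w ∈ ({v} : Finset V)
      · rw [Finset.mem_singleton.1 e]
      · exact le_of_lt (h2 w hw e)
  rw [e2]
  exact conn_cof (clq_single G v) (e1 ▸ h.1) (e1 ▸ h.2)

theorem sphb_upp1 {s : Fc G} {v : V} (hs : s.1 = {v})
    (h : (uppl G ht v).Nonempty ∧ Conn G (uppl G ht v)) :
    (uppl (sd G) k s).Nonempty ∧ Conn (sd G) (uppl (sd G) k s) := by
  have e1 : lk G {v} ∩ {w | ht v < ht w} = uppl G ht v := by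
    ext w
    constructor
    · rintro ⟨⟨-, h1⟩, h2⟩
      exact ⟨G.symm _ _ (h1 v (Finset.mem_singleton_self v)), h2⟩
    · rintro ⟨h1, h2⟩
      refine ⟨⟨fun e => ?_, fun a ha => ?_⟩, h2⟩
      · rw [Finset.mem_singleton.1 e] at h2; exact lt_irrefl _ h2
      · rw [Finset.mem_singleton.1 ha]; exact G.symm _ _ h1
  obtain ⟨h1, h2⟩ := conn_cof (clq_single G v) (e1 ▸ h.1) (e1 ▸ h.2)
  have sub : {t : Fc G | {v} ⊂ t.1 ∧ ∀ w ∈ t.1, w ∉ ({v} : Finset V) →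
      w ∈ {w | ht v < ht w}} ⊆ uppl (sd G) k s := by
    rintro t ⟨h3, h4⟩
    rw [sphb_upp hk, hs, Finset.sup_singleton]
    obtain ⟨w, hw, hv⟩ := Finset.exists_of_ssubset h3
    exact Or.inl ⟨h3, lt_of_lt_of_le (h4 w hw hv) (Finset.le_sup hw)⟩
  refine ⟨h1.mono sub, h2.of_sub sub fun t hm => ?_⟩
  have h3 := hm
  rw [sphb_upp hk, hs, Finset.sup_singleton] at h3
  rcases h3 with ⟨h3, h4⟩ | ⟨h3, -⟩
  · obtain ⟨w, hw, e⟩ := sphb_top ht t
    rw [e] at h4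
    have hv : v ∈ t.1 := h3.1 (Finset.mem_singleton_self v)
    have ne : w ≠ v := fun e => h4.ne' (congrArg ht e)
    have m : (⟨{v, w}, clq_pair (t.2.2 v hv w hw)⟩ : Fc G) ∈ {t : Fc G | {v} ⊂ t.1 ∧
        ∀ w ∈ t.1, w ∉ ({v} : Finset V) → w ∈ {w | ht v < ht w}} := by
      refine ⟨Finset.ssubset_iff_subset_ne.2 ⟨by simp, fun e => ne ?_⟩, fun x hx hxv => ?_⟩
      · have : w ∈ ({v} : Finset V) := by
          have e' : ({v} : Finset V) = {v, w} := e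
          rw [e']; simp
        exact Finset.mem_singleton.1 this
      · have hx' : x ∈ ({v, w} : Finset V) := hx
        rcases Finset.mem_insert.1 hx' with e | e
        · exact absurd (Finset.mem_singleton.2 e) hxv
        · rw [Finset.mem_singleton.1 e]; exact h4
    refine ⟨_, m, rch_step hm (sub m) (Or.inr ?_)⟩
    exact Finset.insert_subset hv (Finset.singleton_subset_iff.2 hw)
  · exact absurd (Finset.ssubset_singleton_iff.1 h3) t.2.1.ne_empty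

theorem sphb_low2 (hi : Function.Injective ht) {s : Fc G} {v : V} (hv : v ∈ s.1)
    (e : s.1.sup ht = ht v) (hs : s.1 ≠ {v}) :
    (lowl (sd G) k s).Nonempty ∧ Conn (sd G) (lowl (sd G) k s) := by
  have ne : (s.1.erase v).Nonempty := by
    rw [Finset.nonempty_iff_ne_empty]
    intro h
    rcases (Finset.erase_eq_empty_iff _ _).1 h with h | h
    · exact s.2.1.ne_empty h
    · exact hs h
  let c : Fc G := ⟨s.1.erase v, s.2.sub (Finset.erase_subset _ _) ne⟩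
  have hc : c ∈ lowl (sd G) k s := by
    rw [sphb_low hk]
    refine Or.inl ⟨Finset.erase_ssubset hv, ?_⟩
    obtain ⟨w, hw, e2⟩ := sphb_top ht c
    rw [e2]
    refine lt_of_le_of_ne (Finset.le_sup (Finset.mem_of_mem_erase hw)) fun e3 => ?_
    exact Finset.ne_of_mem_erase hw (hi (e3.trans e))
  refine ⟨⟨c, hc⟩, conn_of_cone hc fun t h => ?_⟩
  rcases (sphb_low hk).1 h with ⟨h1, h2⟩ | ⟨h1, -⟩
  · refine Or.inl (Finset.subset_erase.2 ⟨h1.1, fun h3 => ?_⟩)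
    exact absurd (e ▸ h2) (not_lt.2 (Finset.le_sup h3))
  · exact Or.inr ((Finset.erase_subset _ _).trans h1.1)

theorem sphb_upp2 (hi : Function.Injective ht) {s : Fc G} {v : V} (hv : v ∈ s.1)
    (e : s.1.sup ht = ht v) (hs : s.1 ≠ {v}) :
    (uppl (sd G) k s).Nonempty ∧ Conn (sd G) (uppl (sd G) k s) := by
  let c : Fc G := ⟨{v}, clq_single G v⟩
  have h0 : ({v} : Finset V) ⊆ s.1 := Finset.singleton_subset_iff.2 hv
  have hc : c ∈ uppl (sd G) k s := by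
    rw [sphb_upp hk]
    exact Or.inr ⟨Finset.ssubset_iff_subset_ne.2 ⟨h0, hs.symm⟩, by rw [e]; exact Finset.sup_singleton⟩
  refine ⟨⟨c, hc⟩, conn_of_cone hc fun t h => Or.inr ?_⟩
  rcases (sphb_upp hk).1 h with ⟨h1, -⟩ | ⟨-, h2⟩
  · exact h0.trans h1.1
  · obtain ⟨w, hw, e2⟩ := sphb_top ht t
    have : w = v := hi (e2.symm.trans (h2.trans e))
    exact Finset.singleton_subset_iff.2 (this ▸ hw)

end

theorem Sph.sd [Fintype V] {G : Cx V} {Z : Set V} (h : Sph G Z) : Sph (sd G) (dn G Z) := by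
  obtain ⟨hm, ht, n, h, hh⟩ := h
  refine ⟨up_univ G ▸ hm.sd, ?_⟩
  obtain ⟨k, hi, hk⟩ := sphb_ht (G := G)
    (fun s hs => hm.dim s hs (hs.1.imp fun a ha => ⟨ha, trivial⟩)) ht
  let p : ℕ → Fc G := fun i => if c : i % 2 = 1 ∧ i / 2 < n then
    ⟨{h (i / 2), h (i / 2 + 1)}, clq_pair (hh.step _ c.2).1⟩ else ⟨{h (i / 2)}, clq_single G _⟩
  have p0 : ∀ j, (p (2 * j)).1 = {h j} := fun j => by
    have e1 : 2 * j / 2 = j := by omega
    simp only [p]
    rw [dif_neg (by omega), e1]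
  have p1 : ∀ j < n, (p (2 * j + 1)).1 = {h j, h (j + 1)} := fun j hj => by
    have e1 : (2 * j + 1) / 2 = j := by omega
    simp only [p]
    rw [dif_pos (by omega)]
    simp only [e1]
  refine ⟨k, 2 * n, p, hi, fun s hs => ?_, fun s hs => ?_, fun i hi => ?_, fun i hi => ?_⟩
  · obtain ⟨v, hv, e⟩ := sphb_top ht s
    by_cases c : s.1 = {v}
    · refine sphb_low1 hk hh.inj c (hh.low v fun e2 => hs (Subtype.ext ?_))
      rw [c, e2]; exact (p0 0).symm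
    · exact sphb_low2 hk hh.inj hv e c
  · obtain ⟨v, hv, e⟩ := sphb_top ht s
    by_cases c : s.1 = {v}
    · refine sphb_upp1 hk c (hh.upp v fun e2 => hs (Subtype.ext ?_))
      rw [c, e2]; exact (p0 n).symm
    · exact sphb_upp2 hk hh.inj hv e c
  · obtain ⟨j, rfl | rfl⟩ := Nat.even_or_odd' i
    · intro a ha
      rw [p0, Finset.mem_singleton] at ha
      exact ha ▸ hh.mem j (by omega)
    · intro a ha
      rw [p1 j (by omega), Finset.mem_insert, Finset.mem_singleton] at ha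
      rcases ha with rfl | rfl
      · exact hh.mem j (by omega)
      · exact hh.mem _ (by omega)
  · rw [sphb_lt hk]
    obtain ⟨j, rfl | rfl⟩ := Nat.even_or_odd' i
    · have h1 := (hh.step j (by omega)).2
      have ne : h (j + 1) ≠ h j := fun e => h1.ne' (congrArg ht e)
      rw [p0, p1 j (by omega)]
      refine Or.inl ⟨Finset.ssubset_iff_subset_ne.2 ⟨by simp, fun e => ne ?_⟩, ?_⟩
      · exact Finset.mem_singleton.1 (by rw [e]; simp)
      · rw [Finset.sup_singleton]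
        exact lt_of_lt_of_le h1 (Finset.le_sup (by simp))
    · have h1 := (hh.step j (by omega)).2
      have ne : h j ≠ h (j + 1) := fun e => h1.ne (congrArg ht e)
      rw [p1 j (by omega), show 2 * j + 1 + 1 = 2 * (j + 1) by ring, p0]
      refine Or.inr ⟨Finset.ssubset_iff_subset_ne.2 ⟨by simp, fun e => ne ?_⟩, ?_⟩
      · exact Finset.mem_singleton.1 (by rw [e]; simp)
      · rw [Finset.sup_insert, Finset.sup_singleton]
        exact (sup_eq_right.2 h1.le).symm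

end KG
end
end

-- merged part: Pool.Agent.Work.MP_c146e2_gt.KG.CS
section
set_option autoImplicit false

noncomputable section

open scoped Classical

namespace KG

variable {V V' : Type}

/-- One copy of a set in the double. -/
def csC (A : Set V) (t : Bool) : Set (V × Bool) := {x | x.1 ∈ A ∧ x.2 = t}

theorem cs_bij (A : Set V) (t : Bool) : Set.BijOn Prod.fst (csC A t) A := by
  refine ⟨fun x hx => hx.1, ?_, fun a ha => ⟨(a, t), ⟨ha, rfl⟩, rfl⟩⟩
  intro x hx y hy h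
  exact Prod.ext h (hx.2.trans hy.2.symm)

theorem cs_ncard (A : Set V) (t : Bool) : (csC A t).ncard = A.ncard :=
  (cs_bij A t).ncard_eq

theorem cs_rel {G : Cx V} {L X : Set V} (hd : Disjoint L X) (t : Bool) :
    ∀ a ∈ csC L t ∪ csC X false, ∀ b ∈ csC L t ∪ csC X false,
      (Db G L X).r a b ↔ G.r a.1 b.1 := by
  intro a ha b hb
  have hd' := Set.disjoint_left.1 hd
  have hav : a ∈ dbV L X := ha.elim (fun h => Or.inl h.1) fun h => Or.inr h
  have hbv : b ∈ dbV L X := hb.elim (fun h => Or.inl h.1) fun h => Or.inr h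
  constructor
  · rintro (h | h)
    · rw [h]; exact G.refl _
    · exact h.2.2.1
  · intro h
    refine Or.inr ⟨hav, hbv, h, fun h1 h2 => ?_⟩
    rcases ha with ha | ha
    · rcases hb with hb | hb
      · exact ha.2.trans hb.2.symm
      · exact absurd hb.1 (hd' h2)
    · exact absurd ha.1 (hd' h1)

theorem cs_half [Fintype V] {G : Cx V} {L X Z : Set V} (hd : Disjoint L X) (t : Bool)
    {b' : V × Bool → V × Bool → Bool} {b : V → V → Bool}
    (hb : ∀ x ∈ csC X false, ∀ y ∈ csC X false, b' x y = b x.1 y.1) :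
    half (Db G L X) (csC L t) (csC X false) ((dbV L X)ᶜ ∪ {x | x.1 ∈ Z}) b' = half G L X Z b := by
  refine half_iso (f := Prod.fst) hd (cs_bij L t) (cs_bij X false) (cs_rel hd t) ?_ hb
  intro a ha
  have hav : a ∈ dbV L X := ha.elim (fun h => Or.inl h.1) fun h => Or.inr h
  exact ⟨fun h => h.elim (fun h => absurd hav h) id, fun h => Or.inr h⟩

theorem ss_db [Fintype V] {G : Cx V} {L X Z : Set V} (hd : Disjoint L X) (hZ : Z ⊆ L) :
    SS (Db G L X) (inZ ((dbV L X)ᶜ ∪ {x | x.1 ∈ Z})) =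
      ∑ b : V → V → Bool, wX G X b * half G L X Z b ^ 2 := by
  have hd' := Set.disjoint_left.1 hd
  have h1 : ∀ t, Disjoint (csC L t) (csC X false) := fun t =>
    Set.disjoint_left.2 fun x hx hy => hd' hx.1 hy.1
  have hs : Sep (Db G L X) (csC L false) (csC L true) := by
    rintro a ha b hb (h | h)
    · have := ha.2.symm.trans (h ▸ hb.2 : a.2 = true)
      exact absurd this (by decide)
    · have := ha.2.symm.trans ((h.2.2.2 ha.1 hb.1).trans hb.2)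
      exact absurd this (by decide)
  have hJ : ∀ j ∉ csC L false ∪ csC X false ∪ csC L true, ∀ y, (Db G L X).r j y → y = j := by
    rintro j hj y (h | h)
    · exact h.symm
    · exfalso
      apply hj
      rcases h.1 with h' | h'
      · rcases hb : j.2 with _ | _
        · exact Or.inl (Or.inl ⟨h', hb⟩)
        · exact Or.inr ⟨h', hb⟩
      · exact Or.inl (Or.inr h')
  have hZ' : Disjoint ((dbV L X)ᶜ ∪ {x : V × Bool | x.1 ∈ Z}) (csC X false) := by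
    refine Set.disjoint_left.2 ?_
    rintro x (hx | hx) hy
    · exact hx (Or.inr hy)
    · exact hd' (hZ hx) hy.1
  rw [split (h1 false) (h1 true) hs hJ hZ']
  simp only [mul_assoc]
  refine sum_wX_iso (f := Prod.fst) (cs_bij X false)
    (fun a ha b hb => cs_rel hd false a (Or.inr ha) b (Or.inr hb)) ?_
  intro b' b hb
  rw [cs_half hd false hb, cs_half hd true hb, sq]

theorem cs_D2 : 0 < D2 := by
  have := Real.goldenRatio_pos
  unfold D2 ph
  linarith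

theorem tv_db_nonneg [Fintype V] {G : Cx V} {L X Z : Set V} (hd : Disjoint L X) (hZ : Z ⊆ L)
    (h : ∀ s, Clq G s → Ins s X → s.card ≤ 3) :
    0 ≤ tv (Db G L X) ((dbV L X)ᶜ ∪ {x | x.1 ∈ Z}) := by
  unfold tv
  rw [ss_db hd hZ]
  exact div_nonneg (Finset.sum_nonneg fun b _ => mul_nonneg (wX_nonneg h b) (sq_nonneg _))
    (pow_pos cs_D2 _).le

theorem cs_count [Fintype V] {L X Z : Set V} (hd : Disjoint L X) (hZ : Z ⊆ L) :
    ((dbV L X)ᶜ ∪ {x : V × Bool | x.1 ∈ Z})ᶜ.ncard = 2 * (L \ Z).ncard + X.ncard := by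
  have hd' := Set.disjoint_left.1 hd
  have he : ((dbV L X)ᶜ ∪ {x : V × Bool | x.1 ∈ Z})ᶜ =
      (csC (L \ Z) false ∪ csC (L \ Z) true) ∪ csC X false := by
    ext ⟨a, t⟩
    have h1 := @hZ a
    have h2 := @hd' a
    cases t <;> simp [csC, dbV] <;> tauto
  rw [he, Set.ncard_union_eq, Set.ncard_union_eq, cs_ncard, cs_ncard, cs_ncard, two_mul]
  · exact Set.disjoint_left.2 fun x hx hy => absurd (hx.2.symm.trans hy.2) (by decide)
  · refine Set.disjoint_left.2 ?_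
    rintro x (hx | hx) hy <;> exact hd' hx.1.1 hy.1

theorem cs_weighted {ι : Type} [Fintype ι] {w f g : ι → ℝ} (hw : ∀ i, 0 ≤ w i) :
    (∑ i, w i * f i * g i) ^ 2 ≤ (∑ i, w i * f i ^ 2) * ∑ i, w i * g i ^ 2 := by
  refine Finset.sum_sq_le_sum_mul_sum_of_sq_le_mul _ (fun i _ => mul_nonneg (hw i) (sq_nonneg _))
    (fun i _ => mul_nonneg (hw i) (sq_nonneg _)) fun i _ => le_of_eq (by ring)

theorem cs_db [Fintype V] {G : Cx V} {L X R Z : Set V} (hLX : Disjoint L X) (hRX : Disjoint R X)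
    (hs : Sep G L R) (hu : L ∪ X ∪ R = Set.univ) (hZ : Z ⊆ R)
    (h : ∀ s, Clq G s → Ins s X → s.card ≤ 3) :
    tv G Z ^ 2 ≤ tv (Db G L X) (dbV L X)ᶜ * tv (Db G R X) ((dbV R X)ᶜ ∪ {x | x.1 ∈ Z}) := by
  have hLR : ∀ a ∈ L, a ∉ R := fun a ha hb => hs a ha a hb (G.refl a)
  have hLX' := Set.disjoint_left.1 hLX
  have hRX' := Set.disjoint_left.1 hRX
  have hZX : Disjoint Z X := hRX.mono_left hZ
  have hE : (dbV L X)ᶜ = (dbV L X)ᶜ ∪ {x : V × Bool | x.1 ∈ (∅ : Set V)} := by simp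
  have hh : ∀ b, half G L X Z b = half G L X ∅ b := fun b =>
    half_iso (f := id) hLX (Set.bijOn_id L) (Set.bijOn_id X) (fun _ _ _ _ => Iff.rfl)
      (fun a ha => ⟨fun hz => ha.elim (fun h1 => (hLR a h1 (hZ hz)).elim)
        fun h1 => (hRX' (hZ hz) h1).elim, fun hz => hz.elim⟩) fun _ _ _ _ => rfl
  have hc : Zᶜ.ncard = L.ncard + X.ncard + (R \ Z).ncard := by
    have he : Zᶜ = (L ∪ X) ∪ (R \ Z) := by
      ext a
      have h1 : a ∈ L ∪ X ∪ R := hu ▸ Set.mem_univ a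
      have h2 := @hZ a
      have h3 := hLR a
      have h4 := @hRX' a
      simp only [Set.mem_union, Set.mem_compl_iff, Set.mem_sdiff] at h1 ⊢
      tauto
    rw [he, Set.ncard_union_eq, Set.ncard_union_eq hLX]
    refine Set.disjoint_left.2 ?_
    rintro a (ha | ha) hb
    · exact hLR a ha hb.1
    · exact hRX' hb.1 ha
  rw [hE]
  unfold tv
  rw [ss_db hLX (Set.empty_subset L), ss_db hRX hZ, cs_count hLX (Set.empty_subset L),
    cs_count hRX hZ, hc, split hLX hRX hs (fun j hj => absurd (hu ▸ Set.mem_univ j) hj) hZX,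
    div_pow, div_mul_div_comm, ← pow_mul, ← pow_add, Set.sdiff_empty]
  have he : (L.ncard + X.ncard + (R \ Z).ncard) * 2 =
      2 * L.ncard + X.ncard + (2 * (R \ Z).ncard + X.ncard) := by ring
  rw [he]
  refine div_le_div_of_nonneg_right ?_ (pow_pos cs_D2 _).le
  simp only [hh]
  exact cs_weighted (wX_nonneg h)

end KG
end
end

-- merged part: Pool.Agent.Work.MP_c146e2_gt.KG.Cv0
section
set_option autoImplicit false

noncomputable section

open scoped Classical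

namespace KG

variable {V V' : Type}

/-- After some subdivisions there is an essential curve along which a universal connection is
trivial. -/
inductive HasCurve : ∀ {V : Type} [Fintype V] (G : Cx V), Set V → ℕ → Prop
  | base {V : Type} [Fintype V] {G : Cx V} {U : Set V} {g : ℕ} (l : V → V → FreeGroup (Fin g))
      (c : V → V → V → ZMod 2) : Univ G U l → Curve G U c → ¬ Triv G U c → Strip G U c l →
      HasCurve G U g
  | step {V : Type} [Fintype V] {G : Cx V} {U : Set V} {g : ℕ} :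
      HasCurve (sd G) (up G U) g → HasCurve G U g

end KG
end
end

-- merged part: Pool.Agent.Work.MP_c146e2_gt.KG.CvA
section
set_option autoImplicit false

noncomputable section

open scoped Classical

namespace KG

variable {V V' : Type}

theorem cva_a {α : Type} [DecidableEq α] {x : FreeGroup α} {a : α × Bool}
    (h : x.toWord.head? = some a) : ((FreeGroup.mk [a])⁻¹ * x).norm + 1 = x.norm := by
  obtain ⟨w, e⟩ := List.head?_eq_some_iff.1 h
  have h1 : FreeGroup.IsReduced w :=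
    List.IsChain.of_cons (e ▸ FreeGroup.isReduced_toWord (x := x) : FreeGroup.IsReduced (a :: w))
  have h2 : (FreeGroup.mk [a])⁻¹ * x = FreeGroup.mk w := by
    rw [inv_mul_eq_iff_eq_mul, FreeGroup.mul_mk, ← FreeGroup.mk_toWord (x := x), e]
    rfl
  rw [h2, FreeGroup.norm, FreeGroup.norm, FreeGroup.toWord_mk, h1.reduce_eq, e, List.length_cons]

theorem cva_b {α : Type} [DecidableEq α] {x y : FreeGroup α} {a : α × Bool}
    (h : y.toWord.head? = some a) (h' : x.toWord.head? ≠ some a) :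
    (x⁻¹ * y).norm = x.norm + y.norm := by
  have h1 : FreeGroup.IsReduced (x⁻¹.toWord ++ y.toWord) := by
    refine List.IsChain.append FreeGroup.isReduced_toWord FreeGroup.isReduced_toWord ?_
    intro u hu v hv e
    rw [FreeGroup.toWord_inv, FreeGroup.invRev, List.getLast?_reverse, List.head?_map] at hu
    obtain ⟨b, hb, rfl⟩ := Option.map_eq_some_iff.1 hu
    obtain rfl : a = v := Option.some.inj (h.symm.trans hv)
    have k : b.2 ≠ a.2 := fun k => h' (hb.trans (congrArg some (Prod.ext e k)))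
    exact Bool.not_eq_iff.2 k
  rw [FreeGroup.norm, FreeGroup.toWord_mul, h1.reduce_eq, List.length_append,
    ← FreeGroup.norm_inv_eq (x := x)]
  rfl

theorem cva_one {α : Type} [DecidableEq α] (a : α × Bool) : (FreeGroup.mk [a]).norm = 1 := rfl

/-- A point of the hull of `P` that is closer to all points of `P` than the diameter. -/
theorem fg_center {α : Type} [DecidableEq α] {P : Set (FreeGroup α)} {d : ℕ} (hd : 1 ≤ d)
    (h1 : 1 ∈ P) (h : ∀ p ∈ P, ∀ q ∈ P, (p⁻¹ * q).norm ≤ d + 1) :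
    ∃ γ : FreeGroup α, (∀ y : FreeGroup α, ∃ p ∈ P, (y⁻¹ * γ).norm ≤ (y⁻¹ * p).norm) ∧
      ∀ p ∈ P, (γ⁻¹ * p).norm ≤ d := by
  by_cases k : ∀ p ∈ P, p.norm ≤ d
  · exact ⟨1, fun y => ⟨1, h1, le_rfl⟩, by simpa using k⟩
  push Not at k
  obtain ⟨q, hq, k⟩ := k
  obtain ⟨a, ha⟩ : ∃ a, q.toWord.head? = some a := by
    cases e : q.toWord with
    | nil =>
      rw [FreeGroup.norm, e] at k
      exact absurd k (Nat.not_lt_zero _)
    | cons a w => exact ⟨a, rfl⟩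
  refine ⟨FreeGroup.mk [a], fun y => ?_, fun r hr => ?_⟩
  · by_cases e : y.toWord.head? = some a
    · refine ⟨1, h1, ?_⟩
      have := cva_a e
      rw [← FreeGroup.norm_inv_eq, mul_inv_rev, inv_inv] at this
      rw [mul_one, FreeGroup.norm_inv_eq]
      omega
    · refine ⟨q, hq, (FreeGroup.norm_mul_le _ _).trans ?_⟩
      rw [cva_b ha e, FreeGroup.norm_inv_eq, cva_one]
      omega
  · by_cases e : r.toWord.head? = some a
    · have h2 := cva_a e
      have h3 := h 1 h1 r hr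
      rw [inv_one, one_mul] at h3
      omega
    · have h2 := h r hr q hq
      rw [cva_b ha e] at h2
      rw [FreeGroup.norm_eq_zero.1 (show r.norm = 0 by omega), mul_one, FreeGroup.norm_inv_eq,
        cva_one]
      exact hd

theorem fg_short {α : Type} [DecidableEq α] {x : FreeGroup α} (h : x.norm ≤ 1) :
    x = 1 ∨ (∃ i, x = FreeGroup.of i) ∨ ∃ i, x = (FreeGroup.of i)⁻¹ := by
  rw [← FreeGroup.mk_toWord (x := x)]
  rw [FreeGroup.norm] at h
  generalize x.toWord = w at h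
  match w, h with
  | [], _ => exact Or.inl rfl
  | [(i, true)], _ => exact Or.inr (Or.inl ⟨i, rfl⟩)
  | [(i, false)], _ => exact Or.inr (Or.inr ⟨i, rfl⟩)

/-- A third point near both ends of an edge of the tree is one of the ends. -/
theorem fg_two {α : Type} [DecidableEq α] {x : FreeGroup α} {i : α} (h : x.norm ≤ 1)
    (h' : (x⁻¹ * FreeGroup.of i).norm ≤ 1) : x = 1 ∨ x = FreeGroup.of i := by
  refine or_iff_not_imp_left.2 fun h0 => ?_
  by_cases e : x.toWord.head? = some (i, true)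
  · have h1 : ((FreeGroup.of i)⁻¹ * x).norm + 1 = x.norm := cva_a e
    exact (inv_mul_eq_one.1 (FreeGroup.norm_eq_zero.1 (by omega))).symm
  · rw [cva_b (y := FreeGroup.of i) rfl e, FreeGroup.norm_of] at h'
    exact absurd (FreeGroup.norm_eq_zero.1 (by omega)) h0

theorem fg_ne_inv {α : Type} (i j : α) : FreeGroup.of i ≠ (FreeGroup.of j)⁻¹ := by
  intro h
  have := congrArg FreeGroup.toWord h
  simp [FreeGroup.invRev] at this

end KG
end
end

-- merged part: Pool.Agent.Work.MP_c146e2_gt.KG.CvB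
section
set_option autoImplicit false

noncomputable section

open scoped Classical

namespace KG

variable {V V' : Type}

theorem Univ.gauge {L : Type} [Group L] {G : Cx V} {U : Set V} {l : V → V → L} (h : Univ G U l)
    (γ : V → L) : Univ G U fun a b => (γ a)⁻¹ * l a b * γ b := by
  refine ⟨fun a ha b hb c hc h1 h2 h3 => ?_, fun H _ η hη => ?_⟩
  · beta_reduce
    rw [← h.1 a ha b hb c hc h1 h2 h3]
    group
  · obtain ⟨θ, β, hβ⟩ := h.2 H η hη
    refine ⟨θ, fun a => (θ (γ a))⁻¹ * β a, fun a ha b hb hab => ?_⟩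
    rw [hβ a ha b hb hab]
    simp only [map_mul, map_inv]
    group

theorem short_step [Fintype V] {G : Cx V} {U : Set V} {g d : ℕ} {l : V → V → FreeGroup (Fin g)}
    (h : Univ G U l) (hd : 1 ≤ d) (hl : ∀ a ∈ U, ∀ b ∈ U, G.r a b → (l a b).norm ≤ d + 1) :
    ∃ l' : Fc G → Fc G → FreeGroup (Fin g), Univ (sd G) (up G U) l' ∧
      ∀ a ∈ up G U, ∀ b ∈ up G U, (sd G).r a b → (l' a b).norm ≤ d := by
  obtain ⟨m, hm⟩ := exists_sel G U
  have key : ∀ s : Fc G, ∃ γ : FreeGroup (Fin g), s ∈ up G U →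
      (∀ y : FreeGroup (Fin g), ∃ a ∈ s.1, a ∈ U ∧ (y⁻¹ * γ).norm ≤ (y⁻¹ * l (m s) a).norm) ∧
        ∀ a ∈ s.1, a ∈ U → (γ⁻¹ * l (m s) a).norm ≤ d := by
    intro s
    by_cases hs : s ∈ up G U
    · have h0 := (hm s).1
      have hU := (hm s).2 hs
      obtain ⟨γ, h1, h2⟩ := fg_center (P := {p | ∃ a ∈ s.1, a ∈ U ∧ p = l (m s) a}) hd
        ⟨m s, h0, hU, (h.1.self hU).symm⟩ (by
          rintro _ ⟨a, ha, haU, rfl⟩ _ ⟨b, hb, hbU, rfl⟩
          rw [← h.1.inv hU haU (s.2.2 _ h0 _ ha),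
            h.1 a haU _ hU b hbU (s.2.2 _ ha _ h0) (s.2.2 _ h0 _ hb) (s.2.2 _ ha _ hb)]
          exact hl a haU b hbU (s.2.2 _ ha _ hb))
      refine ⟨γ, fun _ => ⟨fun y => ?_, fun a ha haU => h2 _ ⟨a, ha, haU, rfl⟩⟩⟩
      obtain ⟨_, ⟨a, ha, haU, rfl⟩, hp⟩ := h1 y
      exact ⟨a, ha, haU, hp⟩
    · exact ⟨1, fun h => absurd h hs⟩
  choose γ hγ using key
  have hu := (hm.contr_up.univ h).gauge γ
  have main : ∀ s ∈ up G U, ∀ t ∈ up G U, s ≤ t →
      ((γ t)⁻¹ * l (m t) (m s) * γ s).norm ≤ d := by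
    intro s hs t ht hst
    have hst' := Fc.le_iff.1 hst
    have m1 := hst' (hm s).1
    have m2 := (hm t).1
    have u1 := (hm s).2 hs
    have u2 := (hm t).2 ht
    obtain ⟨a, ha, haU, hp⟩ := (hγ s hs).1 ((l (m t) (m s))⁻¹ * γ t)
    have e := h.1 _ u2 _ u1 a haU (t.2.2 _ m2 _ m1) (t.2.2 _ m1 _ (hst' ha))
      (t.2.2 _ m2 _ (hst' ha))
    have h3 := (hγ t ht).2 a (hst' ha) haU
    rw [← e] at h3
    simp only [mul_inv_rev, inv_inv, mul_assoc] at hp h3 ⊢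
    exact hp.trans h3
  refine ⟨_, hu, fun a ha b hb hab => ?_⟩
  rcases hab with hab | hab
  · have := hu.1.inv hb ha (Or.inr hab)
    rw [this, FreeGroup.norm_inv_eq]
    exact main a ha b hb hab
  · exact main b hb a ha hab

end KG
end
end

-- merged part: Pool.Agent.Work.MP_c146e2_gt.KG.CvD
section
set_option autoImplicit false

noncomputable section

open scoped Classical

namespace KG

variable {V V' : Type}

/-- Push the curve off the wall: select the positive side for the curve and the negative side for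
the connection. -/
theorem push_off {G : Cx V} {U : Set V} {g : ℕ} {l : V → V → FreeGroup (Fin g)} (h : Flat G U l)
    (hl : ∀ a ∈ U, ∀ b ∈ U, G.r a b → (l a b).norm ≤ 1) :
    ∃ m n : Fc G → V, Sel G U m ∧ Sel G U n ∧ ∀ s ∈ up G U, ∀ t ∈ up G U, (sd G).r s t →
      l (m s) (m t) ≠ 1 → l (n s) (n t) = 1 := by
  obtain ⟨m0, hm0⟩ := exists_sel G U
  have key : ∀ s : Fc G, ∃ p : V × V, (p.1 ∈ s.1 ∧ (Meets s.1 U → p.1 ∈ U)) ∧
      (p.2 ∈ s.1 ∧ (Meets s.1 U → p.2 ∈ U)) ∧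
      ((∃ i, l p.2 p.1 = FreeGroup.of i) ∨ ∀ a ∈ s.1, ∀ b ∈ s.1, a ∈ U → b ∈ U → l a b = 1) := by
    intro s
    by_cases hw : ∃ a ∈ s.1, ∃ b ∈ s.1, a ∈ U ∧ b ∈ U ∧ ∃ i, l a b = FreeGroup.of i
    · obtain ⟨a, ha, b, hb, haU, hbU, hi⟩ := hw
      exact ⟨(b, a), ⟨hb, fun _ => hbU⟩, ⟨ha, fun _ => haU⟩, Or.inl hi⟩
    · refine ⟨(m0 s, m0 s), hm0 s, hm0 s, Or.inr fun a ha b hb haU hbU => ?_⟩
      have r := s.2.2 a ha b hb
      rcases fg_short (hl a haU b hbU r) with e | e | ⟨i, e⟩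
      · exact e
      · exact absurd ⟨a, ha, b, hb, haU, hbU, e⟩ hw
      · exact absurd ⟨b, hb, a, ha, hbU, haU, i, by rw [h.inv haU hbU r, e, inv_inv]⟩ hw
  choose p h1 h2 h3 using key
  have main : ∀ s ∈ up G U, ∀ t ∈ up G U, s ≤ t → l (p t).1 (p s).1 ≠ 1 →
      l (p t).2 (p s).2 = 1 := by
    intro s hs t ht hst hne
    have hst' := Fc.le_iff.1 hst
    have a1 := hst' (h1 s).1
    have a2 := hst' (h2 s).1
    have b1 := (h1 t).1
    have b2 := (h2 t).1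
    have u1 := (h1 s).2 hs
    have u2 := (h2 s).2 hs
    have v1 := (h1 t).2 ht
    have v2 := (h2 t).2 ht
    have fl : ∀ a ∈ t.1, ∀ b ∈ t.1, ∀ c ∈ t.1, a ∈ U → b ∈ U → c ∈ U → l a b * l b c = l a c :=
      fun a ha b hb c hc x y z => h a x b y c z (t.2.2 _ ha _ hb) (t.2.2 _ hb _ hc)
        (t.2.2 _ ha _ hc)
    rcases h3 t with ⟨i, hi⟩ | ht0
    · have two : ∀ a ∈ t.1, a ∈ U → l (p t).2 a = 1 ∨ l (p t).2 a = FreeGroup.of i := by
        intro a ha haU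
        refine fg_two (hl _ v2 a haU (t.2.2 _ b2 _ ha)) ?_
        rw [← hi, ← h.inv v2 haU (t.2.2 _ b2 _ ha), fl a ha _ b2 _ b1 haU v2 v1]
        exact hl _ haU _ v1 (t.2.2 _ ha _ b1)
      have e1 : l (p t).2 (p s).1 = 1 := by
        refine (two _ a1 u1).resolve_right fun e => hne ?_
        have := fl _ b2 _ b1 _ a1 v2 v1 u1
        rw [hi, e] at this
        simpa using this
      have e2 := fl _ b2 _ a2 _ a1 v2 u2 u1
      rw [e1] at e2
      rcases h3 s with ⟨j, hj⟩ | hs0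
      · refine (two _ a2 u2).resolve_right fun e => ?_
        rw [e, hj] at e2
        exact fg_ne_inv i j (eq_inv_of_mul_eq_one_left e2)
      · rwa [hs0 _ (h2 s).1 _ (h1 s).1 u2 u1, mul_one] at e2
    · exact absurd (ht0 _ b1 _ a1 v1 u1) hne
  refine ⟨fun s => (p s).1, fun s => (p s).2, h1, h2, fun s hs t ht r hne => ?_⟩
  rcases r with r | r
  · have hst' := Fc.le_iff.1 r
    have q1 := h.inv ((h1 t).2 ht) ((h1 s).2 hs) (t.2.2 _ (h1 t).1 _ (hst' (h1 s).1))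
    have q2 := h.inv ((h2 t).2 ht) ((h2 s).2 hs) (t.2.2 _ (h2 t).1 _ (hst' (h2 s).1))
    simp only at hne ⊢
    rw [q2, main s hs t ht r fun e => hne (by rw [q1, e, inv_one]), inv_one]
  · exact main t ht s hs r hne

end KG
end
end

-- merged part: Pool.Agent.Work.MP_c146e2_gt.KG.CvMain
section
set_option autoImplicit false

noncomputable section

open scoped Classical

namespace KG

variable {V V' : Type}

theorem cvmain_one [Fintype V] {G : Cx V} {U : Set V} {g : ℕ} (h1 : H1 G Set.univ)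
    {l : V → V → FreeGroup (Fin g)} (hu : Univ G U l)
    (hl : ∀ a ∈ U, ∀ b ∈ U, G.r a b → (l a b).norm ≤ 1) (hn : ¬ H1 G U) : HasCurve G U g := by
  obtain ⟨m, n, hm, hn', hp⟩ := push_off hu.1 hl
  unfold H1 at hn
  push Not at hn
  obtain ⟨η, hη, hc⟩ := hn
  obtain ⟨θ, β, hβ⟩ := hu.2 _ _ (coc_iff_flat.1 hη)
  have c1 : Coc G U fun a b => (θ (l a b)).toAdd := by
    intro a ha b hb c hc x y z
    beta_reduce
    rw [← hu.1 a ha b hb c hc x y z, map_mul, toAdd_mul]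
  have c2 : ¬ Cob G U fun a b => (θ (l a b)).toAdd := by
    rintro ⟨f, hf⟩
    refine hc ⟨fun a => f a + (β a).toAdd, fun a ha b hb r => ?_⟩
    have e := congrArg Multiplicative.toAdd (hβ a ha b hb r)
    simp only [toAdd_ofAdd, toAdd_mul, toAdd_inv] at e
    have e' := hf a ha b hb r
    beta_reduce at e' ⊢
    rw [e, e', ZMod.neg_eq_self_mod_two]
    ring
  have c3 : Coc (sd G) (up G U) fun s t => (θ (l (m s) (m t))).toAdd := by
    intro a ha b hb c hc x y z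
    have e := (hm.contr_up.pull hu.1) a ha b hb c hc x y z
    beta_reduce at e ⊢
    rw [← e, map_mul, toAdd_mul]
  have h1' : H1 (sd G) Set.univ := (contr_sd G fun s => (hm s).1).h1.2 h1
  obtain ⟨c, k1, k2, k3⟩ := exists_comp (G := sd G) (U := up G U)
    (c := fun s t _ => (θ (l (m s) (m t))).toAdd)
    (fun a b d z x y r => c3 a x.1 b x.2.1 d y.2.1 x.2.2.2.1 y.2.2.2.1 r) (fun _ _ _ _ _ _ _ => rfl)
    fun h => c2 (hm.contr_up.cob c1 (cob_of_triv h1' c3 h))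
  refine .step (.base _ c (hn'.contr_up.univ hu) k1 k2 ⟨fun _ => 1, fun a b z x y => ?_⟩)
  beta_reduce
  rw [hp a x.1 b x.2.1 x.2.2.2.1 fun e => k3 a b z x y (by simp [e])]
  simp

theorem cvmain_ind {g : ℕ} (d : ℕ) : ∀ {V : Type} [Fintype V] {G : Cx V} {U : Set V},
    H1 G Set.univ → ∀ {l : V → V → FreeGroup (Fin g)}, Univ G U l →
      (∀ a ∈ U, ∀ b ∈ U, G.r a b → (l a b).norm ≤ d + 1) → ¬ H1 G U → HasCurve G U g := by
  induction d with
  | zero => exact fun h1 _ hu hl hn => cvmain_one h1 hu hl hn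
  | succ d ih =>
    intro V _ G U h1 l hu hl hn
    obtain ⟨m, hm⟩ := exists_sel G U
    obtain ⟨l', hu', hl'⟩ := short_step hu (Nat.succ_le_succ d.zero_le) hl
    exact .step (ih ((contr_sd G fun s => (hm s).1).h1.2 h1) hu' hl'
      fun h => hn (hm.contr_up.h1.1 h))

theorem curve_ex [Fintype V] {G : Cx V} {U : Set V} {g : ℕ} (h1 : H1 G Set.univ)
    (hf : Free G U g) (hn : ¬ H1 G U) : HasCurve G U g := by
  obtain ⟨l, hu⟩ := hf
  exact cvmain_ind (Finset.univ.sup fun p : V × V => (l p.1 p.2).norm) h1 hu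
    (fun a _ b _ _ => (Finset.le_sup (f := fun p : V × V => (l p.1 p.2).norm)
      (Finset.mem_univ (a, b))).trans (Nat.le_succ _)) hn

end KG
end
end

-- merged part: Pool.Agent.Work.MP_c146e2_gt.KG.Hb
section
set_option autoImplicit false

noncomputable section

open scoped Classical

namespace KG

variable {V V' : Type}

def Claim (n : ℕ) : Prop := ∀ (V : Type) [Fintype V] (G : Cx V) (U : Set V) (g : ℕ), Sph G Uᶜ →
  U.Nonempty → Free G U g → B1le G U n → D2 ^ 2 * qq G U ≤ D2 ^ (n + kc G Uᶜ)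

variable [Fintype V] {G : Cx V} {U : Set V} {c : V → V → V → ZMod 2} {g n : ℕ}

theorem hb_man (hs : Sph G Uᶜ) : Man G U := hs.1.mono (Set.subset_univ U)

theorem hb_sph (hs : Sph G Uᶜ) : Sph (sd G) (up G U)ᶜ := up_compl G U ▸ hs.sd

theorem hb_sd (hs : Sph G Uᶜ) {k : ℕ}
    (h : D2 ^ 2 * qq (sd G) (up G U) ≤ D2 ^ (k + kc (sd G) (up G U)ᶜ)) :
    D2 ^ 2 * qq G U ≤ D2 ^ (k + kc G Uᶜ) := by
  rwa [qq_sd (hb_man hs), up_compl, kc_dn] at h

theorem main_h1 (hs : Sph G Uᶜ) (hne : U.Nonempty) (h1 : H1 G U) :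
    D2 ^ 2 * qq G U ≤ D2 ^ kc G Uᶜ := by
  have h2 := h1_xs (hb_man hs) h1
  have h3 := qq_fin (hb_man hs) h2
  have h4 := alexander hs (by rwa [compl_compl])
  have h5 := tree_kc hs.s3.ne hs.s3.conn hs.s3.h1 U
  have h6 := kc_pos (G := G) hne
  have h7 := one_lt_D2
  refine le_of_mul_le_mul_left ?_ (pow_pos (one_pos.trans h7) (kc (sd G) (Xs G U)))
  rw [mul_left_comm, h3, ← mul_pow, h4, ← pow_mul, ← pow_add]
  exact pow_le_pow_right₀ h7.le (by omega)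

theorem cut_base (ih : Claim n) (hs : Sph G Uᶜ) (hf : Free G U g) (hb : B1le G U (n + 1))
    (hc : Curve G U c) (ht : ¬ Triv G U c) {F : V → V → ZMod 2} (hd : Disc G U c F) :
    D2 ^ 2 * qq G U ≤ D2 ^ (n + 1 + kc G Uᶜ) := by
  have hm := hb_man hs
  have hD : ActF G U F ⊆ up G U := fun s ⟨a, ha, _, _, h, _⟩ => ⟨a, ha, h⟩
  have h1 := cutW_h1 hD (hd.h1 hm.toPMan hc.ne).2 (actF_conn hd.conn) (hd.fr hc).1 (hd.fr hc).2
  have h2 := cut_abs hm.sd hD (cutW_thin hD (actF_dim hm.toPMan hd.coc)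
    (actF_edg hm.toPMan hd.coc)) h1.1 h1.2 (hd.cut2 hm hc.ne).1 (hd.cut2 hm hc.ne).2
  have h3 := ih _ _ _ g ((hb_sph hs).mono (Set.compl_subset_compl.2 Set.sdiff_subset)) (hd.ne hc.ne)
    (hd.free hm.toPMan hc.ne hf) (hd.b1le hm.toPMan hc.ne ht hb)
  have h4 := hd.kc_le hc.ne
  have h7 := one_lt_D2
  rw [← qq_sd hm, h2, mul_left_comm]
  refine (mul_le_mul_of_nonneg_left h3 (one_pos.trans h7).le).trans ?_
  rw [← pow_succ']
  exact pow_le_pow_right₀ h7.le (by omega)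

theorem cut_disc (ih : Claim n) (hd : HasDisc G U c) (hs : Sph G Uᶜ) (hf : Free G U g)
    (hb : B1le G U (n + 1)) (hc : Curve G U c) (ht : ¬ Triv G U c) :
    D2 ^ 2 * qq G U ≤ D2 ^ (n + 1 + kc G Uᶜ) := by
  induction hd with
  | base F h => exact cut_base ih hs hf hb hc ht h
  | step m hm _ k =>
    exact hb_sd hs (k (hb_sph hs) (hm.contr_up.free hf) (hm.contr_up.b1le hb) (hc.pull hm)
      fun h => ht (h.of_pull hc hm))

theorem cut_curve (ih : Claim n) (hd : HasCurve G U g) (hs : Sph G Uᶜ) (hb : B1le G U (n + 1)) :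
    D2 ^ 2 * qq G U ≤ D2 ^ (n + 1 + kc G Uᶜ) := by
  induction hd with
  | base l c h1 h2 h3 h4 => exact cut_disc ih (dehn (hb_man hs) h2 h1 h4) hs ⟨l, h1⟩ hb h2 h3
  | @step _ _ G U _ _ k =>
    exact hb_sd hs (k (hb_sph hs) ((exists_sel G U).choose_spec.contr_up.b1le hb))

theorem claim_all (n : ℕ) : Claim n := by
  induction n with
  | zero =>
    intro V _ G U g hs hne _ ⟨f, hb⟩
    rw [zero_add]
    exact main_h1 hs hne fun η h => by simpa using hb η h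
  | succ n ih =>
    intro V _ G U g hs hne hf hb
    by_cases h : H1 G U
    · exact (main_h1 hs hne h).trans (pow_le_pow_right₀ one_lt_D2.le (by omega))
    · exact cut_curve ih (curve_ex hs.s3.h1 hf h) hs hb

end KG
end
end

-- merged part: Pool.Agent.Work.MP_c146e2_gt.KG.QinA
section
set_option autoImplicit false

noncomputable section

open scoped Classical

namespace KG

variable {V V' : Type}

section aux

variable {G : Cx V} {Γ K I Z : Set V} {r s t : Fc G} {x y : Fc G × Bool}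

theorem qina_meets (h : Ins s.1 Z) : Meets s.1 Z := s.2.1.imp fun a ha => ⟨ha, h a ha⟩

theorem qina_val : (s, false) ∈ ddV G Z ↔ Meets s.1 Z := by
  refine ⟨fun h => h.elim qina_meets fun h => h.1.1, fun h => ?_⟩
  by_cases k : Ins s.1 Z
  · exact Or.inl k
  · exact Or.inr ⟨⟨h, by_contra fun k' => k fun a ha => by_contra fun hn => k' ⟨a, ha, hn⟩⟩, rfl⟩

theorem qina_val' : (s, true) ∈ ddV G Z ↔ Ins s.1 Z :=
  ⟨fun h => h.elim id fun h => Bool.noConfusion h.2, Or.inl⟩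

theorem qina_adj (hs : Meets s.1 Z) (h : s ≤ t) : (DD G Z).r (s, false) (t, false) :=
  Or.inr ⟨qina_val.2 hs, qina_val.2 (mans_meets hs h), Or.inl h, fun _ _ => rfl⟩

theorem qina_not (h : Sep G Γ I) (h1 : Meets s.1 Γ) : ¬ Meets s.1 I :=
  fun ⟨b, hb, hb'⟩ => h1.elim fun a ha => h a ha.2 b hb' (s.2.2 a ha.1 b hb)

theorem qina_or (h : Sep G Γ I) (hs : Ins s.1 (Γ ∪ I)) : Ins s.1 Γ ∨ Ins s.1 I := by
  by_cases k : Meets s.1 Γ
  · exact Or.inl fun a ha => (hs a ha).resolve_right fun k' => qina_not h k ⟨a, ha, k'⟩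
  · exact Or.inr fun a ha => (hs a ha).resolve_left fun k' => k ⟨a, ha, k'⟩

theorem qina_zp : zp Z x = zp Z y ↔ ∀ v ∈ Z, v ∈ x.1.1 ↔ v ∈ y.1.1 := by
  simp only [zp, Finset.ext_iff, Finset.mem_filter, and_congr_left_iff]

theorem qina_cls (hx : x ∈ ddV G (Γ ∪ I)) (hy : y ∈ ddV G (Γ ∪ I)) :
    qcls G Γ K I x = qcls G Γ K I y ↔ (Meets x.1.1 K ∧ Meets y.1.1 K ∧
      (Ins x.1.1 K ∧ x.2 = true ↔ Ins y.1.1 K ∧ y.2 = true)) ∨
    (¬ Meets x.1.1 K ∧ ¬ Meets y.1.1 K) ∧ (Meets x.1.1 I ∧ Meets y.1.1 I ∧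
      (Ins x.1.1 I ∧ x.2 = true ↔ Ins y.1.1 I ∧ y.2 = true) ∨
    ¬ Meets x.1.1 I ∧ ¬ Meets y.1.1 I ∧ zp (Γ ∪ I) x = zp (Γ ∪ I) y) := by
  rw [qcls, qcls, if_neg (not_not.2 hx), if_neg (not_not.2 hy)]
  by_cases h1 : Meets x.1.1 K <;> by_cases h2 : Meets y.1.1 K <;>
    by_cases h3 : Meets x.1.1 I <;> by_cases h4 : Meets y.1.1 I <;>
    simp only [h1, h2, h3, h4, if_true, if_false, Option.some.injEq, Sum.inr.injEq, Sum.inl.injEq,
      Prod.mk.injEq, decide_eq_decide, true_and, false_and, and_false, or_false, false_or,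
      not_true, not_false_iff, and_self, reduceCtorEq]

variable (G) in
/-- The proper cofaces whose new vertices lie outside `Z`. -/
def qinaC (Z : Set V) (r : Fc G) : Set (Fc G) := {t | r.1 ⊂ t.1 ∧ ∀ v ∈ t.1, v ∉ r.1 → v ∈ Zᶜ}

theorem qina_cof [Fintype V] (h : GKI G Γ K I) (hr : Ins r.1 Γ) :
    (qinaC G (Γ ∪ I) r).Nonempty ∧ Conn (sd G) (qinaC G (Γ ∪ I) r) := by
  have h1 := h.gr _ r.2 hr
  have h2 : lk G r.1 ∩ (Γ ∪ I)ᶜ = lk G r.1 \ Γ := by
    obtain ⟨a, ha⟩ := r.2.1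
    exact Set.ext fun w => and_congr_right fun hw => ⟨fun k k' => k (Or.inl k'), fun k k' =>
      k'.elim k fun k' => h.sep a (hr a ha) w k' (G.symm _ _ (hw.2 a ha))⟩
  suffices k : Conn G (lk G r.1 \ Γ) ∧ (lk G r.1 \ Γ).Nonempty from
    conn_cof r.2 (h2 ▸ k.2) (h2 ▸ k.1)
  by_cases h3 : r.1.card = 1
  · obtain ⟨a, ha⟩ := Finset.card_eq_one.1 h3
    rw [ha]
    exact tree_link (h.man.toPMan.mono (Set.subset_univ _)) h.gr
      (hr a (ha ▸ Finset.mem_singleton_self a))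
  · rw [sdiff_eq_left.2 (Set.disjoint_left.2 fun w hw hw' => ?_)]
    · exact (h.man.con _ r.2 (qina_meets fun _ _ => Set.mem_univ _) h1).symm
    · have h4 := h.gr _ (mans_ins r.2 hw.2) fun a ha =>
        (Finset.mem_insert.1 ha).elim (· ▸ hw') (hr a)
      have h5 := mans_pos r
      rw [Finset.card_insert_of_notMem hw.1] at h4
      omega

theorem qina_cadj (h : t ∈ qinaC G Z r) (hr : Ins r.1 Z) : (DD G Z).r (r, true) (t, false) := by
  refine Or.inr ⟨Or.inl hr, qina_val.2 (mans_meets (qina_meets hr) h.1.1), Or.inl h.1.1,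
    fun _ k => ?_⟩
  obtain ⟨v, h1, h2⟩ := Finset.exists_of_ssubset h.1
  exact absurd (k v h1) (h.2 v h1 h2)

theorem qina_ccls (hs : Sep G Γ I) (hK : K ⊆ Γ) (h : t ∈ qinaC G (Γ ∪ I) r) (hr : Ins r.1 Γ)
    (hn : ¬ Ins r.1 K) : qcls G Γ K I (r, true) = qcls G Γ K I (t, false) := by
  have h1 : Ins r.1 (Γ ∪ I) := fun a ha => Or.inl (hr a ha)
  have h2 : ∀ v ∈ t.1, v ∈ Γ ∪ I → v ∈ r.1 := fun v hv k => by_contra fun k' => h.2 v hv k' k
  rw [qina_cls (qina_val'.2 h1) (qina_val.2 (mans_meets (qina_meets h1) h.1.1))]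
  by_cases k : Meets r.1 K
  · exact Or.inl ⟨k, mans_meets k h.1.1,
      iff_of_false (fun e => hn e.1) fun e => Bool.noConfusion e.2⟩
  · exact Or.inr ⟨⟨k, fun ⟨a, ha, ha'⟩ => k ⟨a, h2 a ha (Or.inl (hK ha')), ha'⟩⟩, Or.inr
      ⟨qina_not hs (qina_meets hr), qina_not hs (mans_meets (qina_meets hr) h.1.1),
        qina_zp.2 fun v hv => ⟨fun e => h.1.1 e, fun e => h2 v e hv⟩⟩⟩

/-- A simplex of the graph that meets `K` without lying in it is maximal in the graph. -/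
theorem qina_max [Fintype V] (h : GKI G Γ K I) (hr : Ins r.1 Γ) (h1 : Meets r.1 K)
    (h2 : ¬ Ins r.1 K) (hrt : r ≤ t) : ∀ v ∈ t.1, v ∈ Γ ∪ I → v ∈ r.1 := by
  intro v hv hz
  by_contra k
  have h3 : v ∈ Γ := hz.resolve_right fun e =>
    qina_not h.sep (mans_meets (qina_meets hr) hrt) ⟨v, hv, e⟩
  have h4 := h.gr _ (mans_ins r.2 fun a ha => t.2.2 v hv a (hrt ha)) fun a ha =>
    (Finset.mem_insert.1 ha).elim (· ▸ h3) (hr a)
  rw [Finset.card_insert_of_notMem k] at h4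
  obtain ⟨a, ha, ha'⟩ := h1
  exact h2 fun b hb => Finset.card_le_one.1 (by omega) a ha b hb ▸ ha'

theorem qina_rho (hK : K ⊆ Z) : ∃ ρ : Fc G → Fc G, ∀ s, Meets s.1 Z → ∀ v,
    v ∈ (ρ s).1 ↔ v ∈ s.1 ∧ (Meets s.1 K → v ∈ K) ∧ v ∈ Z := by
  refine Classical.skolem (p := fun (s t : Fc G) => Meets s.1 Z → ∀ v,
    v ∈ t.1 ↔ v ∈ s.1 ∧ (Meets s.1 K → v ∈ K) ∧ v ∈ Z).1 fun s => ?_
  by_cases k : Meets s.1 Z
  · refine ⟨⟨s.1.filter fun v => (Meets s.1 K → v ∈ K) ∧ v ∈ Z,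
      mans_sub s.2 (Finset.filter_subset _ _) ?_⟩, fun _ v => Finset.mem_filter⟩
    by_cases k' : Meets s.1 K
    · obtain ⟨a, ha, ha'⟩ := k'
      exact ⟨a, Finset.mem_filter.2 ⟨ha, fun _ => ha', hK ha'⟩⟩
    · obtain ⟨a, ha, ha'⟩ := k
      exact ⟨a, Finset.mem_filter.2 ⟨ha, fun e => absurd e k', ha'⟩⟩
  · exact ⟨s, fun e => absurd e k⟩

variable (G K I) in
/-- The zero set. -/
def qinaN (Z : Set V) : Set (Fc G × Bool) := (ddV G Z)ᶜ ∪ {x | x.1 ∈ dn G (K ∪ I)}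

variable (G Γ K I) in
/-- The vertices that have a parent. -/
def qinaB : Set (Fc G × Bool) :=
  (qinaN G K I (Γ ∪ I))ᶜ \ (fun r => (r, false)) '' dn G (Γ \ K)

theorem qina_bval (h : x ∈ qinaB G Γ K I) : x ∈ ddV G (Γ ∪ I) :=
  by_contra fun k => h.1 (Or.inl k)

theorem qina_btop (hs : Sep G Γ I) : (r, true) ∈ qinaB G Γ K I ↔ Ins r.1 Γ ∧ ¬ Ins r.1 K := by
  refine ⟨fun h => ⟨(qina_or hs (qina_val'.1 (qina_bval h))).resolve_right fun k =>
    h.1 (Or.inr fun a ha => Or.inr (k a ha)), fun k => h.1 (Or.inr fun a ha => Or.inl (k a ha))⟩,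
    fun h => ⟨fun k => k.elim (fun k => k (Or.inl fun a ha => Or.inl (h.1 a ha))) fun k =>
      h.2 fun a ha => (k a ha).resolve_right fun e => qina_not hs (qina_meets h.1) ⟨a, ha, e⟩, ?_⟩⟩
  rintro ⟨_, -, e⟩
  exact Bool.noConfusion (congrArg Prod.snd e)

/-- The parent map. -/
def qinaP (ρ σ : Fc G → Fc G) (x : Fc G × Bool) : Fc G × Bool :=
  (if x.2 then σ x.1 else ρ x.1, false)

variable {ρ σ : Fc G → Fc G}
  (hρ : ∀ s, Meets s.1 (Γ ∪ I) → ∀ v,
    v ∈ (ρ s).1 ↔ v ∈ s.1 ∧ (Meets s.1 K → v ∈ K) ∧ v ∈ Γ ∪ I)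
  (hσ : ∀ r, Ins r.1 Γ → σ r ∈ qinaC G (Γ ∪ I) r)

include hρ

theorem qina_le (hs : Meets s.1 (Γ ∪ I)) : ρ s ≤ s ∧ Ins (ρ s).1 (Γ ∪ I) :=
  ⟨fun v hv => ((hρ s hs v).1 hv).1, fun v hv => ((hρ s hs v).1 hv).2.2⟩

theorem qina_low (hS : Sep G Γ I) (hs : Meets s.1 (Γ ∪ I)) (h : Meets s.1 K ∨ Meets s.1 I) :
    Ins (ρ s).1 (K ∪ I) := fun v hv => by
  obtain ⟨h1, h2, h3⟩ := (hρ s hs v).1 hv
  exact h.elim (fun k => Or.inl (h2 k)) fun k =>
    Or.inr (h3.resolve_left fun e => qina_not hS ⟨v, h1, e⟩ k)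

theorem qina_ff (hS : Sep G Γ I) (hs : Meets s.1 (Γ ∪ I)) (hst : s ≤ t)
    (h : qcls G Γ K I (s, false) = qcls G Γ K I (t, false)) :
    Cl (DD G (Γ ∪ I)) (fun a b => inZ (qinaN G K I (Γ ∪ I)) a b ∨
      par (qinaB G Γ K I) (qinaP ρ σ) a b) (s, false) (t, false) := by
  have c1 : ∀ s : Fc G, Meets s.1 (Γ ∪ I) → Cl (DD G (Γ ∪ I)) (fun a b =>
      inZ (qinaN G K I (Γ ∪ I)) a b ∨ par (qinaB G Γ K I) (qinaP ρ σ) a b) (s, false)
      (ρ s, false) := fun s hs => by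
    by_cases k : (s, false) ∈ qinaB G Γ K I
    · exact Cl.base (Or.inr ⟨k, rfl⟩)
    by_cases k' : (s, false) ∈ qinaN G K I (Γ ∪ I)
    · exact Cl.base (Or.inl ⟨k', Or.inr fun v hv =>
        k'.resolve_left (not_not.2 (qina_val.2 hs)) v ((qina_le hρ hs).1 hv)⟩)
    obtain ⟨r, h1, e⟩ := not_not.1 fun e => k ⟨k', e⟩
    obtain rfl : r = s := congrArg Prod.fst e
    rw [show ρ r = r from le_antisymm (qina_le hρ hs).1 fun v hv => (hρ r hs v).2
      ⟨hv, fun ⟨a, ha, ha'⟩ => absurd ha' (h1 a ha).2, Or.inl (h1 v hv).1⟩]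
    exact Cl.refl _
  have ht := mans_meets hs hst
  have h1 := qina_le hρ hs
  have h2 := qina_le hρ ht
  have h3 := qina_meets h1.2
  rw [qina_cls (qina_val.2 hs) (qina_val.2 ht)] at h
  have h4 : ρ s ≤ ρ t := fun v hv => by
    obtain ⟨a1, a2, a3⟩ := (hρ s hs v).1 hv
    exact (hρ t ht v).2 ⟨hst a1, fun k => a2 (h.elim (·.1) fun e => absurd k e.1.2), a3⟩
  refine Cl.tri (Cx.symm _ _ _ (qina_adj h3 h1.1)) (qina_adj h3 (h1.1.trans hst))
    (qina_adj hs hst) (c1 s hs) (Cl.tri (qina_adj h3 h4) (qina_adj (qina_meets h2.2) h2.1)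
      (qina_adj h3 (h1.1.trans hst)) ?_ (c1 t ht).symm)
  rcases h with h | ⟨-, h | h⟩
  · exact Cl.base (Or.inl ⟨Or.inr (qina_low hρ hS hs (Or.inl h.1)),
      Or.inr (qina_low hρ hS ht (Or.inl h.2.1))⟩)
  · exact Cl.base (Or.inl ⟨Or.inr (qina_low hρ hS hs (Or.inr h.1)),
      Or.inr (qina_low hρ hS ht (Or.inr h.2.1))⟩)
  · rw [le_antisymm h4 fun v hv => ?_]
    · exact Cl.refl _
    obtain ⟨a1, a2, a3⟩ := (hρ t ht v).1 hv
    exact (hρ s hs v).2 ⟨(qina_zp.1 h.2.2 v a3).2 a1, fun k => a2 (mans_meets k hst), a3⟩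

include hσ

theorem qina_forest (hS : Sep G Γ I) :
    Forest (DD G (Γ ∪ I)) Set.univ (qinaB G Γ K I) (qinaP ρ σ) := by
  refine ⟨fun x => x.2.toNat, ?_⟩
  rintro ⟨s, _ | _⟩ hx
  · have hs := qina_val.1 (qina_bval hx)
    have h1 := qina_le hρ hs
    refine ⟨Set.mem_univ _, Cx.symm _ _ _ (qina_adj (qina_meets h1.2) h1.1), fun k => ?_⟩
    have h2 : ¬ (Meets s.1 K ∨ Meets s.1 I) := fun e => k.1 (Or.inr (qina_low hρ hS hs e))
    exact absurd ⟨ρ s, fun v hv => ⟨(h1.2 v hv).resolve_right fun e =>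
      h2 (Or.inr ⟨v, h1.1 hv, e⟩), fun e => h2 (Or.inl ⟨v, h1.1 hv, e⟩)⟩, rfl⟩ k.2
  · exact ⟨Set.mem_univ _, qina_cadj (hσ s ((qina_btop hS).1 hx).1)
      (qina_val'.1 (qina_bval hx)),
      fun _ => Nat.one_pos⟩

theorem qina_one (hS : Sep G Γ I) (hK : K ⊆ Γ) (hr : (DD G (Γ ∪ I)).r x y)
    (h : inZ (qinaN G K I (Γ ∪ I)) x y ∨ par (qinaB G Γ K I) (qinaP ρ σ) x y) :
    qcls G Γ K I x = qcls G Γ K I y := by
  rcases hr with rfl | ⟨hx, hy, hxy, e⟩
  · rfl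
  have hS' : Sep G K I := fun a ha => hS a (hK ha)
  rcases h with ⟨h1, h2⟩ | ⟨h, rfl⟩
  · have h3 := h1.resolve_left (not_not.2 hx)
    have h4 := h2.resolve_left (not_not.2 hy)
    have h5 : ∀ {s : Fc G}, Ins s.1 (K ∪ I) → Ins s.1 (Γ ∪ I) := fun k a ha =>
      (k a ha).imp_left fun e => hK e
    have h6 : ∀ {s t : Fc G}, s ≤ t ∨ t ≤ s → Ins s.1 K → ¬ Ins t.1 I := fun k k1 k2 =>
      k.elim (fun k => qina_not hS' (mans_meets (qina_meets k1) k) (qina_meets k2))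
        fun k => qina_not hS' (qina_meets k1) (mans_meets (qina_meets k2) k)
    rw [qina_cls hx hy, e (h5 h3) (h5 h4)]
    rcases qina_or hS' h3 with k | k <;> rcases qina_or hS' h4 with k' | k'
    · exact Or.inl ⟨qina_meets k, qina_meets k', and_congr_left' (iff_of_true k k')⟩
    · exact absurd k' (h6 hxy k)
    · exact absurd k (h6 hxy.symm k')
    · exact Or.inr ⟨⟨fun e => qina_not hS' e (qina_meets k), fun e =>
        qina_not hS' e (qina_meets k')⟩,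
        Or.inl ⟨qina_meets k, qina_meets k', and_congr_left' (iff_of_true k k')⟩⟩
  obtain ⟨s, _ | _⟩ := x
  · have hs := qina_val.1 hx
    have h1 := (qina_le hρ hs).1
    have h2 : ∀ {p q : Prop}, p ∧ false = true ↔ q ∧ false = true :=
      iff_of_false (fun e => Bool.noConfusion e.2) fun e => Bool.noConfusion e.2
    rw [qina_cls hx hy]
    by_cases k : Meets s.1 K
    · exact Or.inl ⟨k, qina_meets fun v hv => ((hρ s hs v).1 hv).2.1 k, h2⟩
    have h3 : ∀ v ∈ s.1, v ∈ Γ ∪ I → v ∈ (ρ s).1 := fun v hv e =>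
      (hρ s hs v).2 ⟨hv, fun e => absurd e k, e⟩
    refine Or.inr ⟨⟨k, fun e => k (mans_meets e h1)⟩, ?_⟩
    by_cases k' : Meets s.1 I
    · exact Or.inl ⟨k', k'.imp fun a ha => ⟨h3 a ha.1 (Or.inr ha.2), ha.2⟩, h2⟩
    · exact Or.inr ⟨k', fun e => k' (mans_meets e h1),
        qina_zp.2 fun v hv => ⟨fun e => h3 v e hv, fun e => h1 e⟩⟩
  · obtain ⟨h1, h2⟩ := (qina_btop hS).1 h
    exact qina_ccls hS hK (hσ s h1) h1 h2

theorem qina_tf [Fintype V] (hG : GKI G Γ K I) (hr : (DD G (Γ ∪ I)).r (r, true) (t, false))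
    (h : qcls G Γ K I (r, true) = qcls G Γ K I (t, false)) :
    Cl (DD G (Γ ∪ I)) (fun a b => inZ (qinaN G K I (Γ ∪ I)) a b ∨
      par (qinaB G Γ K I) (qinaP ρ σ) a b) (r, true) (t, false) := by
  obtain ⟨hx, hy, hxy, e⟩ := hr.resolve_left fun e => Bool.noConfusion (congrArg Prod.snd e)
  have h1 := qina_val'.1 hx
  have h2 : ¬ Ins t.1 (Γ ∪ I) := fun k => Bool.noConfusion (e h1 k)
  have h3 : r ≤ t := hxy.resolve_right fun k => h2 fun a ha => h1 a (k ha)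
  rw [qina_cls hx hy] at h
  have h4 : (Ins r.1 Γ ∧ ¬ Ins r.1 K) ∧ ∀ v ∈ t.1, v ∈ Γ ∪ I → v ∈ r.1 := by
    rcases h with ⟨a1, -, a2⟩ | ⟨⟨a1, -⟩, ⟨a2, -, a3⟩ | ⟨a2, -, a3⟩⟩
    · have a3 := (qina_or hG.sep h1).resolve_right fun k =>
        qina_not hG.sep (a1.imp fun a ha => ⟨ha.1, hG.sub ha.2⟩) (qina_meets k)
      have a4 : ¬ Ins r.1 K := fun k => Bool.noConfusion (a2.1 ⟨k, rfl⟩).2
      exact ⟨⟨a3, a4⟩, qina_max hG a3 a1 a4 h3⟩
    · exact Bool.noConfusion (a3.1 ⟨(qina_or hG.sep h1).resolve_left fun k =>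
        qina_not hG.sep (qina_meets k) a2, rfl⟩).2
    · exact ⟨⟨(qina_or hG.sep h1).resolve_right fun k => a2 (qina_meets k),
        fun k => a1 (qina_meets k)⟩, fun v hv k => (qina_zp.1 a3 v k).2 hv⟩
  have h5 : t ∈ qinaC G (Γ ∪ I) r :=
    ⟨⟨h3, fun k => h2 fun a ha => h1 a (k ha)⟩, fun v hv k k' => k (h4.2 v hv k')⟩
  have h6 : ∀ a ∈ qinaC G (Γ ∪ I) r, Meets a.1 (Γ ∪ I) := fun a ha =>
    mans_meets (qina_meets h1) ha.1.1
  refine Cl.fan (S := (fun t => (t, false)) '' qinaC G (Γ ∪ I) r) ?_ ?_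
    ⟨σ r, hσ r h4.1.1, rfl⟩ (Cl.base (Or.inr ⟨(qina_btop hG.sep).2 h4.1, rfl⟩))
    (rch_map (f := fun t => (t, false)) (fun a ha b hb k => rch_step (Set.mem_image_of_mem _ ha)
      (Set.mem_image_of_mem _ hb) ?_) ((qina_cof hG h4.1.1).2 _ (hσ r h4.1.1) t h5))
  · rintro _ ⟨a, ha, rfl⟩
    exact qina_cadj ha h1
  · rintro _ ⟨a, ha, rfl⟩ _ ⟨b, hb, rfl⟩ k
    have h7 := (qina_ccls hG.sep hG.sub ha h4.1.1 h4.1.2).symm.trans
      (qina_ccls hG.sep hG.sub hb h4.1.1 h4.1.2)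
    rcases k with k | ⟨-, -, k | k, -⟩
    · exact k ▸ Cl.refl _
    · exact qina_ff hρ hG.sep (h6 a ha) k h7
    · exact (qina_ff hρ hG.sep (h6 b hb) k h7.symm).symm
  · exact k.elim (qina_adj (h6 a ha)) fun k => Cx.symm _ _ _ (qina_adj (h6 b hb) k)

omit hρ hσ in
theorem qina_tt [Fintype V] (hG : GKI G Γ K I) (hr : Ins r.1 (Γ ∪ I)) (ht : Ins t.1 (Γ ∪ I))
    (hrt : r ≤ t) (h : qcls G Γ K I (r, true) = qcls G Γ K I (t, true)) :
    r = t ∨ inZ (qinaN G K I (Γ ∪ I)) (r, true) (t, true) := by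
  have h1 : ∀ {s : Fc G}, Ins s.1 (Γ ∪ I) → Meets s.1 I → Ins s.1 (K ∪ I) := fun k k' a ha =>
    Or.inr ((k a ha).resolve_left fun e => qina_not hG.sep ⟨a, ha, e⟩ k')
  rw [qina_cls (qina_val'.2 hr) (qina_val'.2 ht)] at h
  rcases h with ⟨a1, -, a2⟩ | ⟨-, ⟨a2, a3, -⟩ | ⟨-, -, a3⟩⟩
  · by_cases k : Ins r.1 K
    · exact Or.inr ⟨Or.inr fun a ha => Or.inl (k a ha),
        Or.inr fun a ha => Or.inl ((a2.1 ⟨k, rfl⟩).1 a ha)⟩
    · exact Or.inl (le_antisymm hrt fun v hv => qina_max hG ((qina_or hG.sep hr).resolve_right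
        fun k => qina_not hG.sep (a1.imp fun a ha => ⟨ha.1, hG.sub ha.2⟩) (qina_meets k))
        a1 k hrt v hv (ht v hv))
  · exact Or.inr ⟨Or.inr (h1 hr a2), Or.inr (h1 ht a3)⟩
  · exact Or.inl (le_antisymm hrt fun v hv => (qina_zp.1 a3 v (ht v hv)).2 hv)

theorem qina_two [Fintype V] (hG : GKI G Γ K I) (hr : (DD G (Γ ∪ I)).r x y)
    (h : qcls G Γ K I x = qcls G Γ K I y) :
    Cl (DD G (Γ ∪ I)) (fun a b => inZ (qinaN G K I (Γ ∪ I)) a b ∨
      par (qinaB G Γ K I) (qinaP ρ σ) a b) x y := by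
  obtain ⟨s, _ | _⟩ := x <;> obtain ⟨t, _ | _⟩ := y
  · rcases hr with k | ⟨hx, hy, k | k, -⟩
    · exact k ▸ Cl.refl _
    · exact qina_ff hρ hG.sep (qina_val.1 hx) k h
    · exact (qina_ff hρ hG.sep (qina_val.1 hy) k h.symm).symm
  · exact (qina_tf hρ hσ hG (Cx.symm _ _ _ hr) h.symm).symm
  · exact qina_tf hρ hσ hG hr h
  · rcases hr with k | ⟨hx, hy, k | k, -⟩
    · exact k ▸ Cl.refl _
    · exact (qina_tt hG (qina_val'.1 hx) (qina_val'.1 hy) k h).elim (· ▸ Cl.refl _)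
        fun e => Cl.base (Or.inl e)
    · exact (qina_tt hG (qina_val'.1 hy) (qina_val'.1 hx) k h.symm).elim (· ▸ Cl.refl _)
        fun e => Cl.base (Or.inl e.symm)

end aux

theorem qin_gauge [Fintype V] {G : Cx V} {Γ K I : Set V} (h : GKI G Γ K I) :
    qin G (Γ ∪ I) (K ∪ I) * D2 ^ (dn G (Γ \ K)).ncard =
      SS (DD G (Γ ∪ I)) fun x y => qcls G Γ K I x = qcls G Γ K I y := by
  obtain ⟨ρ, hρ⟩ := qina_rho (G := G) (h.sub.trans (Set.subset_union_left (t := I)))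
  have h0 : ∀ r : Fc G, ∃ t, Ins r.1 Γ → t ∈ qinaC G (Γ ∪ I) r := fun r => by
    by_cases k : Ins r.1 Γ
    · exact (qina_cof h k).1.imp fun t ht _ => ht
    · exact ⟨r, fun e => absurd e k⟩
  choose σ hσ using h0
  have h1 := gauge_forest ((h.man.mono (Set.subset_univ _)).dd.mono fun x => qina_bval)
    (qina_forest hρ hσ h.sep) (A := inZ (qinaN G K I (Γ ∪ I)))
    fun v hv x _ => ⟨fun e => hv.1 e.1, fun e => hv.1 e.2⟩
  have h2 : (qinaB G Γ K I).ncard + (dn G (Γ \ K)).ncard = (qinaN G K I (Γ ∪ I))ᶜ.ncard := by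
    rw [← Set.ncard_image_of_injective (dn G _) (Prod.mk_left_injective false)]
    refine Set.ncard_sdiff_add_ncard_of_subset (t := (qinaN G K I (Γ ∪ I))ᶜ) ?_
    rintro _ ⟨r, hr, rfl⟩ (k | k)
    · exact k (Or.inl fun a ha => Or.inl (hr a ha).1)
    · obtain ⟨a, ha⟩ := r.2.1
      exact (k a ha).elim (hr a ha).2 fun e => h.sep a (hr a ha).1 a e (G.refl a)
  have h3 : D2 ≠ 0 := (one_pos.trans one_lt_D2).ne'
  rw [← SS_congr (fun a b e k => Cl.base (qina_one hρ hσ h.sep h.sub e k))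
    fun a b e k => qina_two hρ hσ h e k, qin, tv]
  erw [h1, ← h2]
  rw [pow_add]
  field_simp

end KG
end
end

-- merged part: Pool.Agent.Work.MP_c146e2_gt.KG.QinB
section
set_option autoImplicit false

noncomputable section

open scoped Classical

namespace KG

variable {V V' : Type}

/-- The chains that cross from `A` to a connected set `B` are connected. -/
theorem qinb_conn {G : Cx V} {A B B0 : Set V} (ρ : V → V) (hB : B ⊆ B0)
    (h0 : ∀ y ∈ A, ∀ x ∈ B0, G.r y x → x ∈ B) (hc : Conn G B)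
    (h1 : ∀ x ∈ B, ρ x ∈ A ∧ G.r (ρ x) x)
    (h2 : ∀ y ∈ A, ∀ x ∈ B, G.r y x → G.r y (ρ x))
    (h3 : ∀ x ∈ B, ∀ x' ∈ B, G.r x x' → G.r (ρ x) x' ∨ G.r (ρ x') x) :
    Conn (sd G) {s | Meets s.1 A ∧ Meets s.1 B0} := by
  generalize hY : {s : Fc G | Meets s.1 A ∧ Meets s.1 B0} = Y
  have hm : ∀ s : Fc G, ∀ y ∈ A, ∀ x ∈ B, y ∈ s.1 → x ∈ s.1 → s ∈ Y :=
    fun s y hy x hx h h' => hY ▸ ⟨⟨y, h, hy⟩, x, h', hB hx⟩
  have he : ∀ y ∈ A, ∀ x ∈ B, ∀ s : Fc G, y ∈ s.1 → x ∈ s.1 →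
      Rch (sd G) Y s (treeEdge G y x) := by
    intro y hy x hx s h h'
    have hr := s.2.2 y h x h'
    refine rch_step (hm s y hy x hx h h') (hm _ y hy x hx ?_ ?_) (Or.inr (tree_edge_le h h'))
    all_goals rw [tree_edge_val hr]; simp
  have key : ∀ y ∈ A, ∀ x ∈ B, ∀ s : Fc G, y ∈ s.1 → x ∈ s.1 →
      Rch (sd G) Y s (treeEdge G (ρ x) x) := by
    intro y hy x hx s h h'
    have hr := s.2.2 y h x h'
    have ht := tree_clq3 (h2 y hy x hx hr) (h1 x hx).2 hr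
    exact ((he y hy x hx s h h').trans (rch_symm (he y hy x hx ⟨_, ht⟩ (by simp) (by simp)))).trans
      (he _ (h1 x hx).1 x hx ⟨_, ht⟩ (by simp) (by simp))
  have step : ∀ x ∈ B, ∀ x' ∈ B, G.r x x' → G.r (ρ x) x' →
      Rch (sd G) Y (treeEdge G (ρ x) x) (treeEdge G (ρ x') x') := by
    intro x hx x' hx' hr hr'
    have ht := tree_clq3 (h1 x hx).2 hr hr'
    exact (rch_symm (key _ (h1 x hx).1 x hx ⟨_, ht⟩ (by simp) (by simp))).trans
      (key _ (h1 x hx).1 x' hx' ⟨_, ht⟩ (by simp) (by simp))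
  subst hY
  rintro s ⟨⟨y, hys, hy⟩, x, hxs, hx⟩ s' ⟨⟨y', hys', hy'⟩, x', hxs', hx'⟩
  have hx1 := h0 y hy x hx (s.2.2 y hys x hxs)
  have hx1' := h0 y' hy' x' hx' (s'.2.2 y' hys' x' hxs')
  refine ((key y hy x hx1 s hys hxs).trans ?_).trans (rch_symm (key y' hy' x' hx1' s' hys' hxs'))
  refine rch_map (f := fun x => treeEdge G (ρ x) x) (fun u hu v hv huv => ?_) (hc x hx1 x' hx1')
  rcases h3 u hu v hv huv with h | h
  · exact step u hu v hv huv h
  · exact rch_symm (step v hv u hu (G.symm _ _ huv) h)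

/-- The face of a simplex that lies in `T`. -/
def qinbCut {G : Cx V} (T : Set V) (s : Fc G) : Fc G :=
  if h : Meets s.1 T then ⟨s.1.filter (· ∈ T), s.2.sub (Finset.filter_subset _ _)
    ⟨h.choose, Finset.mem_filter.2 h.choose_spec⟩⟩ else s

theorem qinb_cut {G : Cx V} {T : Set V} {s : Fc G} (h : Meets s.1 T) {v : V} :
    v ∈ (qinbCut T s).1 ↔ v ∈ s.1 ∧ v ∈ T := by
  rw [qinbCut, dif_pos h]
  exact Finset.mem_filter

theorem qinb_r {G : Cx V} {Z : Set V} {x y : Fc G × Bool} (hx : x ∈ ddV G Z) (hy : y ∈ ddV G Z)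
    (h : x.1.1 ⊆ y.1.1) (h' : Ins y.1.1 Z → x.2 = y.2) : (DD G Z).r x y :=
  Or.inr ⟨hx, hy, Or.inl h, fun _ => h'⟩

theorem qinb_val {G : Cx V} {Z : Set V} {s : Fc G} (h : Meets s.1 Z) : (s, false) ∈ ddV G Z := by
  have : s ∈ dn G Z ∪ Xs G Z := by rw [dn_union_xs]; exact h
  exact this.imp id fun h => ⟨h, rfl⟩

theorem qinb_meets {G : Cx V} {Z : Set V} {x : Fc G × Bool} (h : x ∈ ddV G Z) : Meets x.1.1 Z := by
  rcases h with h | h
  · obtain ⟨v, hv⟩ := x.1.2.1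
    exact ⟨v, hv, h v hv⟩
  · exact h.1.1

theorem qinb_cop {G : Cx V} {Z S : Set V} (hS : S ⊆ Z) :
    Set.BijOn Prod.fst (cop G S) (dn G S) ∧
      ∀ x ∈ cop G S, ∀ y ∈ cop G S, (DD G Z).r x y ↔ (sd G).r x.1 y.1 := by
  refine ⟨⟨fun x hx => hx.1, fun x hx y hy e => Prod.ext e (hx.2.trans hy.2.symm),
    fun s hs => ⟨(s, true), ⟨hs, rfl⟩, rfl⟩⟩, fun x hx y hy => ⟨fun h => ?_, fun h => ?_⟩⟩
  · rcases h with rfl | h
    · exact (sd G).refl _
    · exact h.2.2.1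
  · exact Or.inr ⟨Or.inl fun v hv => hS (hx.1 v hv), Or.inl fun v hv => hS (hy.1 v hv), h,
      fun _ _ => hx.2.trans hy.2.symm⟩

theorem qinb_chi [Fintype V] {G : Cx V} {Z S : Set V} (h : Man G Set.univ) (hS : S ⊆ Z) :
    Man (DD G Z) (cop G S) ∧ chi (sd (DD G Z)) (Xs (DD G Z) (cop G S)) = 2 * chi G S := by
  have hm : Man (DD G Z) (cop G S) := (Man.dd (h.mono (Set.subset_univ Z))).mono
    fun x hx => Or.inl fun v hv => hS (hx.1 v hv)
  refine ⟨hm, ?_⟩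
  rw [hm.chi_xs, chi_iso (qinb_cop hS).1 (qinb_cop hS).2, chi_dn]

/-- The first copy of a set of simplices that meet `Z`. -/
theorem qinb_fst {G : Cx V} {Z : Set V} {T : Set (Fc G)} (hT : ∀ s ∈ T, Meets s.1 Z) :
    Set.BijOn Prod.fst {x : Fc G × Bool | x.1 ∈ T ∧ x.2 = false} T ∧
      ∀ x ∈ {x : Fc G × Bool | x.1 ∈ T ∧ x.2 = false},
        ∀ y ∈ {x : Fc G × Bool | x.1 ∈ T ∧ x.2 = false}, (DD G Z).r x y ↔ (sd G).r x.1 y.1 := by
  refine ⟨⟨fun x hx => hx.1, fun x hx y hy e => Prod.ext e (hx.2.trans hy.2.symm),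
    fun s hs => ⟨(s, false), ⟨hs, rfl⟩, rfl⟩⟩, ?_⟩
  rintro ⟨s, i⟩ ⟨hs, rfl⟩ ⟨t, j⟩ ⟨ht, rfl⟩
  refine ⟨fun h => ?_, fun h => Or.inr ⟨qinb_val (hT _ hs), qinb_val (hT _ ht), h, fun _ _ => rfl⟩⟩
  rcases h with h | h
  · rw [h]; exact (sd G).refl _
  · exact h.2.2.1

/-- The vertices of the double over the simplices that contain an edge. -/
theorem qinb_B [Fintype V] {G : Cx V} {Z : Set V} (h : Man G Set.univ) {a b : V} (ha : a ∈ Z)
    (hb : b ∈ Z) (hab : G.r a b) (hne : a ≠ b)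
    (h2 : ∀ s : Fc G, a ∈ s.1 → b ∈ s.1 → ∀ v ∈ s.1, v ∈ Z → v = a ∨ v = b) :
    Conn (DD G Z) {x | x ∈ ddV G Z ∧ a ∈ x.1.1 ∧ b ∈ x.1.1} ∧
      chi (DD G Z) {x | x ∈ ddV G Z ∧ a ∈ x.1.1 ∧ b ∈ x.1.1} = 2 := by
  obtain ⟨e, he⟩ : ∃ e : Fc G, e.1 = {a, b} := ⟨⟨_, clq_pair hab⟩, rfl⟩
  have hea : a ∈ e.1 := by simp [he]
  have heb : b ∈ e.1 := by simp [he]
  have hle : ∀ s : Fc G, a ∈ s.1 → b ∈ s.1 → e ≤ s := by
    intro s h1 h3 v hv
    rw [he, Finset.mem_insert, Finset.mem_singleton] at hv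
    rcases hv with rfl | rfl <;> assumption
  have heZ : Ins e.1 Z := by
    intro v hv
    rw [he, Finset.mem_insert, Finset.mem_singleton] at hv
    rcases hv with rfl | rfl <;> assumption
  have hnot : ∀ s : Fc G, e < s → ¬ Ins s.1 Z := by
    intro s hs hi
    refine hs.not_ge fun v hv => ?_
    rw [he, Finset.mem_insert, Finset.mem_singleton]
    exact h2 s (hs.le hea) (hs.le heb) v hv (hi v hv)
  have hT : ∀ s ∈ {z : Fc G | e < z}, Meets s.1 Z :=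
    fun s (hs : e < s) => ⟨a, Fc.le_iff.1 hs.le hea, ha⟩
  have hrk : e.1.card - 1 = 1 := by rw [he, Finset.card_pair hne]
  have hu : e ∈ up G Set.univ := ⟨a, hea, trivial⟩
  have hgp := gp_sd h.toPMan
  have c1 := mano_chi_top hgp hu (by simp only [hrk]; omega)
  have c2 := (mano_top hgp hu).2.2 (by simp only [hrk]; omega)
  simp only [hrk] at c1
  have hv : ∀ i, (e, i) ∈ ddV G Z := fun i => Or.inl heZ
  have hj : ∀ i, ∀ y ∈ {x : Fc G × Bool | x.1 ∈ {z : Fc G | e < z} ∧ x.2 = false},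
      (DD G Z).r (e, i) y := by
    rintro i ⟨t, j⟩ ⟨ht, rfl⟩
    exact qinb_r (hv i) (qinb_val (hT _ ht)) (le_of_lt ht) fun hi => (hnot t ht hi).elim
  have hB : {x | x ∈ ddV G Z ∧ a ∈ x.1.1 ∧ b ∈ x.1.1} = ({(e, false)} ∪ {(e, true)}) ∪
      {x : Fc G × Bool | x.1 ∈ {z : Fc G | e < z} ∧ x.2 = false} := by
    ext ⟨s, i⟩
    constructor
    · rintro ⟨h0, h1, h3⟩
      rcases (hle s h1 h3).eq_or_lt with rfl | hlt
      · cases i
        · exact Or.inl (Or.inl rfl)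
        · exact Or.inl (Or.inr rfl)
      · exact Or.inr ⟨hlt, h0.elim (fun hi => (hnot s hlt hi).elim) fun h => h.2⟩
    · rintro ((h0 | h0) | ⟨h0, rfl⟩)
      · rw [h0]; exact ⟨hv _, hea, heb⟩
      · rw [h0]; exact ⟨hv _, hea, heb⟩
      · have h1 : e.1 ⊆ s.1 := Fc.le_iff.1 (le_of_lt h0)
        exact ⟨qinb_val (hT _ h0), h1 hea, h1 heb⟩
  rw [hB]
  constructor
  · refine Conn.of_sub ((conn_iso (qinb_fst hT).1 (qinb_fst hT).2).2 c2.2)
      Set.subset_union_right fun x hx => ?_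
    obtain ⟨t, ht⟩ := c2.1
    rcases hx with (rfl | rfl) | hx
    · exact ⟨(t, false), ⟨ht, rfl⟩, rch_step (Or.inl (Or.inl rfl)) (Or.inr ⟨ht, rfl⟩)
        (hj _ _ ⟨ht, rfl⟩)⟩
    · exact ⟨(t, false), ⟨ht, rfl⟩, rch_step (Or.inl (Or.inr rfl)) (Or.inr ⟨ht, rfl⟩)
        (hj _ _ ⟨ht, rfl⟩)⟩
    · exact ⟨x, hx, Relation.ReflTransGen.refl⟩
  · have c3 : ∀ i, chi (DD G Z) {(e, i)} = 1 := fun i =>
      chi_cone (c := (e, i)) rfl fun x hx => by rw [hx]; exact (DD G Z).refl _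
    have c4 : chi (DD G Z) ({(e, false)} ∪ {(e, true)}) = 2 := by
      rw [chi_sep, c3, c3]
      · rfl
      · rintro x rfl y rfl (h0 | h0)
        · exact Bool.false_ne_true (congrArg Prod.snd h0)
        · exact Bool.false_ne_true (h0.2.2.2 heZ heZ)
    have c5 := chi_join (G := DD G Z) (A := {(e, false)} ∪ {(e, true)})
      (B := {x : Fc G × Bool | x.1 ∈ {z : Fc G | e < z} ∧ x.2 = false})
      (Set.disjoint_left.2 (by rintro x (rfl | rfl) hx <;> exact lt_irrefl e hx.1))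
      (by rintro x (rfl | rfl) y hy <;> exact hj _ y hy)
    rw [c4, chi_iso (qinb_fst hT).1 (qinb_fst hT).2] at c5
    have c6 : chi (sd G) {z : Fc G | e < z} = 0 := by
      have : chi (sd G) {z : Fc G | e < z} = chi (ord (Fc G)) {z : Fc G | e < z} := rfl
      norm_num at c1
      exact this.trans c1
    rw [c6] at c5
    linarith

theorem qinb_Y [Fintype V] {G : Cx V} {Z : Set V} (h : Man G Set.univ) {a b : V} (ha : a ∈ Z)
    (hb : b ∈ Z) (hab : G.r a b) (hne : a ≠ b)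
    (h2 : ∀ s : Fc G, a ∈ s.1 → b ∈ s.1 → ∀ v ∈ s.1, v ∈ Z → v = a ∨ v = b) :
    Conn (sd (DD G Z)) (qY G Z a b) ∧ chi (sd (DD G Z)) (qY G Z a b) = 2 := by
  obtain ⟨cB, xB⟩ := qinb_B h ha hb hab hne h2
  obtain ⟨B, hB⟩ : ∃ B : Set (Fc G × Bool), B = {x | x ∈ ddV G Z ∧ a ∈ x.1.1 ∧ b ∈ x.1.1} :=
    ⟨_, rfl⟩
  obtain ⟨A, hA⟩ : ∃ A : Set (Fc G × Bool),
    A = {x | x ∈ ddV G Z ∧ a ∈ x.1.1 ∧ ∀ v ∈ x.1.1, v ∈ Z → v = a} := ⟨_, rfl⟩
  rw [← hB] at cB xB
  have mA : ∀ x, x ∈ A ↔ x ∈ ddV G Z ∧ a ∈ x.1.1 ∧ ∀ v ∈ x.1.1, v ∈ Z → v = a := by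
    intro x; rw [hA]; rfl
  have mB : ∀ x, x ∈ B ↔ x ∈ ddV G Z ∧ a ∈ x.1.1 ∧ b ∈ x.1.1 := by
    intro x; rw [hB]; rfl
  have nA : ∀ x ∈ A, b ∉ x.1.1 := fun x hx hb' => hne (((mA x).1 hx).2.2 b hb' hb).symm
  have zA : ∀ x : Fc G × Bool, zp Z x = {a} ↔ a ∈ x.1.1 ∧ ∀ v ∈ x.1.1, v ∈ Z → v = a := by
    intro x
    rw [Finset.eq_singleton_iff_unique_mem]
    simp only [zp, Finset.mem_filter]
    exact ⟨fun h => ⟨h.1.1, fun v h1 h3 => h.2 v ⟨h1, h3⟩⟩,
      fun h => ⟨⟨h.1, ha⟩, fun v hv => h.2 v hv.1 hv.2⟩⟩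
  have zB : ∀ x : Fc G × Bool, zp Z x = {a, b} ↔ a ∈ x.1.1 ∧ b ∈ x.1.1 := by
    intro x
    simp only [zp, Finset.ext_iff, Finset.mem_filter, Finset.mem_insert, Finset.mem_singleton]
    refine ⟨fun h => ⟨((h a).2 (Or.inl rfl)).1, ((h b).2 (Or.inr rfl)).1⟩, fun h v =>
      ⟨fun hv => h2 x.1 h.1 h.2 v hv.1 hv.2, ?_⟩⟩
    rintro (rfl | rfl)
    · exact ⟨h.1, ha⟩
    · exact ⟨h.2, hb⟩
  have E1 : qY G Z a b = {s | Meets s.1 A ∧ Meets s.1 B} := by
    ext s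
    constructor
    · rintro ⟨⟨x, hx, h3⟩, y, hy, h4⟩
      rw [zA] at h3
      rw [zB] at h4
      rcases s.2.2 x hx y hy with rfl | h5
      · exact (hne (h3.2 b h4.2 hb).symm).elim
      · exact ⟨⟨x, hx, (mA x).2 ⟨h5.1, h3⟩⟩, y, hy, (mB y).2 ⟨h5.2.1, h4⟩⟩
    · rintro ⟨⟨x, hx, h3⟩, y, hy, h4⟩
      exact ⟨⟨x, hx, (zA x).2 ((mA x).1 h3).2⟩, y, hy, (zB y).2 ((mB y).1 h4).2⟩
  have E2 : {s : Fc (DD G Z) | Meets s.1 A ∧ Meets s.1 B} =
      {s | Ins s.1 (A ∪ B) ∧ Meets s.1 A ∧ Meets s.1 B} := by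
    ext s
    refine ⟨fun hs => ⟨fun y hy => ?_, hs⟩, fun hs => hs.2⟩
    obtain ⟨⟨x, hx, h3⟩, x', hx', h4⟩ := hs
    rcases s.2.2 y hy x hx with rfl | h5
    · exact Or.inl h3
    rcases s.2.2 y hy x' hx' with rfl | h6
    · exact Or.inr h4
    rw [mA] at h3
    rw [mB] at h4
    rcases h5.2.2.1 with h7 | h7
    · obtain ⟨v, hv, hvZ⟩ := qinb_meets h5.1
      exact Or.inl ((mA y).2 ⟨h5.1, h3.2.2 v (h7 hv) hvZ ▸ hv,
        fun w hw hwZ => h3.2.2 w (h7 hw) hwZ⟩)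
    · by_cases hby : b ∈ y.1.1
      · exact Or.inr ((mB y).2 ⟨h5.1, h7 h3.2.1, hby⟩)
      · rcases h6.2.2.1 with h8 | h8
        · refine Or.inl ((mA y).2 ⟨h5.1, h7 h3.2.1, fun w hw hwZ => ?_⟩)
          exact (h2 x'.1 h4.2.1 h4.2.2 w (h8 hw) hwZ).resolve_right fun e => hby (e ▸ hw)
        · exact (hby (h8 h4.2.2)).elim
  obtain ⟨ρ, hρ⟩ : ∃ ρ : Fc G × Bool → Fc G × Bool, ∀ x, ρ x = (qinbCut {b}ᶜ x.1, x.2) :=
    ⟨_, fun _ => rfl⟩
  have r2 : ∀ x, (ρ x).2 = x.2 := fun x => by rw [hρ]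
  have r1 : ∀ x, a ∈ x.1.1 → ∀ v, v ∈ (ρ x).1.1 ↔ v ∈ x.1.1 ∧ v ≠ b := fun x hx v => by
    rw [hρ]; exact qinb_cut ⟨a, hx, hne⟩
  have rL : ∀ x, a ∈ x.1.1 → Ins (ρ x).1.1 Z → Ins x.1.1 Z := by
    intro x hx hi v hv
    by_cases e : v = b
    · exact e ▸ hb
    · exact hi v ((r1 x hx v).2 ⟨hv, e⟩)
  have mAB : ∀ x ∈ A ∪ B, x ∈ ddV G Z ∧ a ∈ x.1.1 ∧ ∀ v ∈ x.1.1, v ∈ Z → v = a ∨ v = b := by
    rintro x (hx | hx)
    · rw [mA] at hx
      exact ⟨hx.1, hx.2.1, fun v h3 h4 => Or.inl (hx.2.2 v h3 h4)⟩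
    · rw [mB] at hx
      exact ⟨hx.1, hx.2.1, h2 x.1 hx.2.1 hx.2.2⟩
  have rA : ∀ x ∈ A ∪ B, ρ x ∈ A := by
    intro x hx
    obtain ⟨h3, h4, h5⟩ := mAB x hx
    have h6 := (r1 x h4 a).2 ⟨h4, hne⟩
    refine (mA _).2 ⟨?_, h6, fun v hv hvZ => ?_⟩
    · rcases h3 with h3 | h3
      · exact Or.inl fun v hv => h3 v ((r1 x h4 v).1 hv).1
      · have := qinb_val (s := (ρ x).1) ⟨a, h6, ha⟩
        rwa [← h3.2, ← r2 x] at this
    · rw [r1 x h4] at hv
      exact (h5 v hv.1 hvZ).resolve_right hv.2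
  have vA : ∀ x ∈ A, x ∈ ddV G Z := fun x hx => ((mA x).1 hx).1
  have rs : ∀ x ∈ A ∪ B, (ρ x).1.1 ⊆ x.1.1 := fun x hx v hv => ((r1 x (mAB x hx).2.1 v).1 hv).1
  constructor
  · rw [E1]
    refine qinb_conn ρ subset_rfl (fun _ _ _ hx _ => hx) cB (fun x hx => ⟨rA x (Or.inr hx),
      qinb_r (vA _ (rA x (Or.inr hx))) (mAB x (Or.inr hx)).1 (rs x (Or.inr hx)) fun _ => r2 x⟩)
      (fun y hy x hx hr => ?_) fun x hx x' hx' hr => ?_
    · have h3 := (mB x).1 hx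
      rcases hr with rfl | hr
      · exact (nA y hy h3.2.2).elim
      rcases hr.2.2.1 with h4 | h4
      · refine Or.inr ⟨hr.1, vA _ (rA x (Or.inr hx)), Or.inl fun v hv => ?_, fun h5 h6 => ?_⟩
        · exact (r1 x h3.2.1 v).2 ⟨h4 hv, fun e => nA y hy (e ▸ hv)⟩
        · rw [r2]; exact hr.2.2.2 h5 (rL x h3.2.1 h6)
      · exact (nA y hy (h4 h3.2.2)).elim
    · have key : ∀ x ∈ B, ∀ x' ∈ B, x.1.1 ⊆ x'.1.1 → (Ins x.1.1 Z → Ins x'.1.1 Z → x.2 = x'.2) →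
          (DD G Z).r (ρ x) x' := fun x hx x' hx' h3 h4 =>
        qinb_r (vA _ (rA x (Or.inr hx))) (mAB x' (Or.inr hx')).1 ((rs x (Or.inr hx)).trans h3)
          fun h5 => (r2 x).trans (h4 (fun v hv => h5 v (h3 hv)) h5)
      rcases hr with rfl | hr
      · exact Or.inl (key x hx x hx subset_rfl fun _ _ => rfl)
      rcases hr.2.2.1 with h4 | h4
      · exact Or.inl (key x hx x' hx' h4 hr.2.2.2)
      · exact Or.inr (key x' hx' x hx h4 fun h5 h6 => (hr.2.2.2 h6 h5).symm)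
  · have hd : Disjoint A B := Set.disjoint_left.2 fun x hx hx' => nA x hx ((mB x).1 hx').2.2
    have e : DD G Z = @ord _ (dbO (dn G Z) (Xs G Z) (dn_lower G Z) (dn_xs_disj G Z)) :=
      db_eq_ord _ _
    have c : chi (DD G Z) (A ∪ B) = chi (DD G Z) A := by
      rw [e]
      refine @chi_defl _ _ (dbO (dn G Z) (Xs G Z) (dn_lower G Z) (dn_xs_disj G Z)) _ _ ρ
        Set.subset_union_left rA (fun x hx => ?_) (fun x hx => ?_) fun x hx y hy hxy => ?_
      · exact Or.inr ⟨vA _ (rA x hx), (mAB x hx).1, rs x hx, fun _ => r2 x⟩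
      · refine Prod.ext (Subtype.ext (Finset.ext fun v => ?_)) (r2 x)
        rw [r1 x ((mA x).1 hx).2.1]
        exact ⟨fun h => h.1, fun h => ⟨h, fun e => nA x hx (e ▸ h)⟩⟩
      · rcases hxy with rfl | hxy
        · exact Or.inl rfl
        refine Or.inr ⟨vA _ (rA x hx), vA _ (rA y hy), fun v hv => ?_, fun h3 => ?_⟩
        · rw [r1 x (mAB x hx).2.1] at hv
          exact (r1 y (mAB y hy).2.1 v).2 ⟨hxy.2.2.1 hv.1, hv.2⟩
        · rw [r2, r2]; exact hxy.2.2.2 (rL y (mAB y hy).2.1 h3)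
    rw [E1, E2, chi_cross _ hd, c, xB]
    ring

theorem qY_spec [Fintype V] {G : Cx V} {Γ K I : Set V} (h : GKI G Γ K I) {a b : V} (ha : a ∈ Γ)
    (hb : b ∈ Γ) (hab : G.r a b) (hne : a ≠ b) :
    Conn (sd (DD G (Γ ∪ I))) (qY G (Γ ∪ I) a b) ∧
      chi (sd (DD G (Γ ∪ I))) (qY G (Γ ∪ I) a b) = 2 := by
  refine qinb_Y h.man (Or.inl ha) (Or.inl hb) hab hne fun s h1 h2 v hv hvZ => ?_
  by_contra hn
  rw [not_or] at hn
  rcases hvZ with hv' | hv'
  · exact tree_no_tri h.gr ha hb hv' hab (s.2.2 b h2 v hv) (s.2.2 a h1 v hv) hne (Ne.symm hn.2)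
      (Ne.symm hn.1)
  · exact h.sep a ha v hv' (s.2.2 a h1 v hv)

theorem copK_spec [Fintype V] {G : Cx V} {Γ K I : Set V} (h : GKI G Γ K I) :
    Conn (sd (DD G (Γ ∪ I))) (Xs (DD G (Γ ∪ I)) (cop G K)) ∧
      chi (sd (DD G (Γ ∪ I))) (Xs (DD G (Γ ∪ I)) (cop G K)) = 0 := by
  have hS : K ⊆ Γ ∪ I := h.sub.trans Set.subset_union_left
  obtain ⟨hm, hc⟩ := qinb_chi h.man hS
  refine ⟨conn_xs hm.toPMan ((conn_iso (qinb_cop hS).1 (qinb_cop hS).2).2 ?_) fun s hs hi => ?_,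
    by rw [hc, h.chiK, mul_zero]⟩
  · rw [← kc_le_one, kc_dn, kc_le_one]
    exact h.connK
  · refine (Finset.card_le_card_of_injOn (t := Finset.Icc 1 2) (fun x => x.1.1.card)
      (fun x hx => ?_) fun x hx y hy e => ?_).trans (by simp)
    · exact Finset.mem_coe.2 (Finset.mem_Icc.2 ⟨mans_pos _,
        h.gr _ x.1.2 fun v hv => h.sub ((hi x hx).1 v hv)⟩)
    · exact (qinb_cop hS).1.injOn (hi x hx) (hi y hy) (xs_eq_of_card
        (((qinb_cop hS).2 x (hi x hx) y (hi y hy)).1 (hs.2 x hx y hy)) e)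

theorem copI_spec [Fintype V] {G : Cx V} {Γ K I : Set V} (h : GKI G Γ K I) :
    Conn (sd (DD G (Γ ∪ I))) (Xs (DD G (Γ ∪ I)) (cop G I)) ∧
      chi (sd (DD G (Γ ∪ I))) (Xs (DD G (Γ ∪ I)) (cop G I)) = 2 := by
  have hS : I ⊆ Γ ∪ I := Set.subset_union_right
  refine ⟨?_, by rw [(qinb_chi h.man hS).2, h.chiI, mul_one]⟩
  have hI : ∀ s : Fc G, Meets s.1 I → Ins s.1 (Γ ∪ I) → Ins s.1 I := by
    rintro s ⟨v, hv, hvI⟩ hi w hw
    exact (hi w hw).resolve_left fun hw' => h.sep w hw' v hvI (s.2.2 w hw v hv)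
  have hT : ∀ s ∈ Xs G I, Meets s.1 (Γ ∪ I) := fun s ⟨⟨v, hv, hvI⟩, _⟩ => ⟨v, hv, Or.inr hvI⟩
  have hN : ∀ s ∈ Xs G I, ¬ Ins s.1 (Γ ∪ I) := fun s ⟨h1, v, hv, hvI⟩ hi => hvI (hI s h1 hi v hv)
  have hA : ∀ s ∈ Xs G I, (qinbCut I s, true) ∈ cop G I :=
    fun s hs => ⟨fun v hv => ((qinb_cut hs.1).1 hv).2, rfl⟩
  have hV : ∀ y ∈ cop G I, y ∈ ddV G (Γ ∪ I) := fun y hy => Or.inl fun v hv => hS (hy.1 v hv)
  have key : ∀ s ∈ Xs G I, ∀ t ∈ Xs G I, s.1 ⊆ t.1 →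
      (DD G (Γ ∪ I)).r (qinbCut I s, true) (t, false) := fun s hs t ht hst =>
    qinb_r (hV _ (hA s hs)) (qinb_val (hT t ht)) (fun v hv => hst ((qinb_cut hs.1).1 hv).1)
      fun hi => (hN t ht hi).elim
  refine qinb_conn (B := {x : Fc G × Bool | x.1 ∈ Xs G I ∧ x.2 = false})
    (fun x => (qinbCut I x.1, true)) (fun x hx hx' => ?_) (fun y hy x hx hr => ?_)
    ((conn_iso (qinb_fst hT).1 (qinb_fst hT).2).2 h.connI) ?_ ?_ ?_
  · exact Bool.false_ne_true (hx.2.symm.trans hx'.2)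
  · rcases hr with rfl | hr
    · exact (hx hy).elim
    have hn : ¬ Ins x.1.1 I := fun hi => hx ⟨hi, (hr.2.2.2 (fun v hv => hS (hy.1 v hv))
      fun v hv => hS (hi v hv)).symm.trans hy.2⟩
    have hm : Meets x.1.1 I := by
      rcases hr.2.2.1 with h4 | h4
      · obtain ⟨v, hv⟩ := y.1.2.1
        exact ⟨v, h4 hv, hy.1 v hv⟩
      · exact (hn fun v hv => hy.1 v (h4 hv)).elim
    refine ⟨⟨hm, ?_⟩, hr.2.1.elim (fun hi => (hn (hI _ hm hi)).elim) fun h => h.2⟩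
    by_contra hc
    exact hn fun v hv => by_contra fun hv' => hc ⟨v, hv, hv'⟩
  · rintro ⟨s, i⟩ ⟨hs, rfl⟩
    exact ⟨hA s hs, key s hs s hs subset_rfl⟩
  · rintro y hy ⟨s, i⟩ ⟨hs, rfl⟩ hr
    refine qinb_r (hV y hy) (hV _ (hA s hs)) (fun v hv => (qinb_cut hs.1).2 ⟨?_, hy.1 v hv⟩)
      fun _ => hy.2
    rcases hr with rfl | hr
    · exact hv
    rcases hr.2.2.1 with h4 | h4
    · exact h4 hv
    · exact (hN s hs fun w hw => hS (hy.1 w (h4 hw))).elim
  · rintro ⟨s, i⟩ ⟨hs, rfl⟩ ⟨t, j⟩ ⟨ht, rfl⟩ hr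
    rcases ((qinb_fst hT).2 _ ⟨hs, rfl⟩ _ ⟨ht, rfl⟩).1 hr with h4 | h4
    · exact Or.inl (key s hs t ht h4)
    · exact Or.inr (key t ht s hs h4)

end KG
end
end

-- merged part: Pool.Agent.Work.MP_c146e2_gt.KG.Rigid
section
set_option autoImplicit false

noncomputable section

open scoped Classical

namespace KG

variable {V V' : Type}

theorem rigid_zpow {ι : Type} (t : Finset ι) {w : ℝ} (hw : w ≠ 0) (e : ι → ℤ) :
    ∏ i ∈ t, w ^ e i = w ^ ∑ i ∈ t, e i := by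
  induction t using Finset.induction_on with
  | empty => simp
  | insert i t hi ih => rw [Finset.prod_insert hi, Finset.sum_insert hi, zpow_add₀ hw, ih]

theorem rigid_pow {x A : Finset V} (h : A ⊆ x) (hA : A.Nonempty) :
    (∑ t ∈ x.powerset, if t ⊆ A then (-1 : ℤ) ^ t.card else 0) = 0 := by
  rw [← Finset.sum_filter, ← Finset.sum_powerset_neg_one_pow_card_of_nonempty hA]
  refine Finset.sum_congr (Finset.ext fun t => ?_) fun _ _ => rfl
  simp only [Finset.mem_filter, Finset.mem_powerset]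
  exact and_iff_right_of_imp fun k => k.trans h

theorem rigid_alt {ι : Type} (cls : V → ι) {x : Finset V} {a b : V} (ha : a ∈ x) (hb : b ∈ x)
    (hn : cls a ≠ cls b) (h : ∀ d ∈ x, cls d = cls a ∨ cls d = cls b) :
    (∑ t ∈ x.powerset, if ∃ a ∈ t, ∃ b ∈ t, cls a ≠ cls b then (-1 : ℤ) ^ t.card else 0) = 1 := by
  have h1 := Finset.sum_powerset_neg_one_pow_card_of_nonempty (x := x) ⟨a, ha⟩
  have h2 := rigid_pow (Finset.filter_subset (fun d => cls d = cls a) x)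
    ⟨a, Finset.mem_filter.2 ⟨ha, rfl⟩⟩
  have h3 := rigid_pow (Finset.filter_subset (fun d => cls d = cls b) x)
    ⟨b, Finset.mem_filter.2 ⟨hb, rfl⟩⟩
  have h4 : (∑ t ∈ x.powerset, if t = ∅ then (-1 : ℤ) ^ t.card else 0) = 1 := by
    rw [Finset.sum_ite_eq', if_pos (Finset.empty_mem_powerset x)]
    rfl
  have h5 : ∀ t ∈ x.powerset, (if ∃ a ∈ t, ∃ b ∈ t, cls a ≠ cls b then (-1 : ℤ) ^ t.card else 0) =
      (-1 : ℤ) ^ t.card - (if t ⊆ x.filter fun d => cls d = cls a then (-1 : ℤ) ^ t.card else 0) -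
        (if t ⊆ x.filter fun d => cls d = cls b then (-1 : ℤ) ^ t.card else 0) +
        if t = ∅ then (-1 : ℤ) ^ t.card else 0 := by
    intro t ht
    rw [Finset.mem_powerset] at ht
    have k1 : ∀ e, (t ⊆ x.filter fun d => cls d = cls e) ↔ ∀ d ∈ t, cls d = cls e := fun e =>
      ⟨fun k d hd => (Finset.mem_filter.1 (k hd)).2,
        fun k d hd => Finset.mem_filter.2 ⟨ht hd, k d hd⟩⟩
    simp only [k1]
    rcases t.eq_empty_or_nonempty with rfl | ⟨d, hd⟩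
    · simp
    rw [if_neg (Finset.ne_empty_of_mem hd)]
    by_cases k : ∃ a ∈ t, ∃ b ∈ t, cls a ≠ cls b
    · rw [if_pos k]
      obtain ⟨u, hu, v, hv, n⟩ := k
      rw [if_neg fun e => n ((e u hu).trans (e v hv).symm),
        if_neg fun e => n ((e u hu).trans (e v hv).symm)]
      ring
    · rw [if_neg k]
      push Not at k
      rcases h d (ht hd) with e | e
      · rw [if_pos fun u hu => (k u hu d hd).trans e,
          if_neg fun e' => hn (e.symm.trans (e' d hd))]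
        ring
      · rw [if_neg fun e' => hn ((e' d hd).symm.trans e),
          if_pos fun u hu => (k u hu d hd).trans e]
        ring
  rw [Finset.sum_congr rfl h5, Finset.sum_add_distrib, Finset.sum_sub_distrib,
    Finset.sum_sub_distrib, h1, h2, h3, h4]
  rfl

section

variable {G : Cx V} {ι : Type} {cls : V → ι} {c : V → V → Bool}

theorem rigid_tri (hc : Col G (fun a b => cls a = cls b) c) {a b d : V} (h1 : G.r a b)
    (h2 : G.r b d) (h3 : G.r a d) (h : cls a = cls b) : c a d = c b d := by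
  have h0 : c a b = false := Bool.eq_false_iff.2 fun k => (hc.supp a b k).2.2 h
  have e1 := hc.tri a b d h1 h2 h3 h0
  have e2 := hc.tri b a d (G.symm _ _ h1) h3 h2 ((hc.symm b a).trans h0)
  cases k : c a d
  · exact (e2 k).symm
  · cases k' : c b d
    · exact k.symm.trans (e1 k')
    · rfl

theorem rigid_same (hc : Col G (fun a b => cls a = cls b) c)
    (h2 : ∀ a b d, G.r a b → G.r b d → G.r a d → cls a = cls b ∨ cls b = cls d ∨ cls a = cls d)
    {s : Finset V} (hs : Clq G s) {a b a' b' : V} (ha : a ∈ s) (hb : b ∈ s) (ha' : a' ∈ s)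
    (hb' : b' ∈ s) (n : cls a ≠ cls b) (n' : cls a' ≠ cls b') : c a b = c a' b' := by
  have t : ∀ x ∈ s, ∀ y ∈ s, ∀ z ∈ s, cls x = cls y → c x z = c y z := fun x hx y hy z hz =>
    rigid_tri hc (hs.2 x hx y hy) (hs.2 y hy z hz) (hs.2 x hx z hz)
  have k1 := (h2 a b a' (hs.2 a ha b hb) (hs.2 b hb a' ha') (hs.2 a ha a' ha')).resolve_left n
  have k2 := (h2 a b b' (hs.2 a ha b hb) (hs.2 b hb b' hb') (hs.2 a ha b' hb')).resolve_left n
  rcases k1 with k1 | k1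
  · rw [t a ha b' hb' b hb (k2.resolve_left fun e => n' (k1.symm.trans e)), hc.symm,
      t b hb a' ha' b' hb' k1]
  · rw [t a ha a' ha' b hb k1, hc.symm,
      t b hb b' hb' a' ha' (k2.resolve_right fun e => n' (k1.symm.trans e)), hc.symm]

theorem rigid_w1 (hc : Col G (fun a b => cls a = cls b) c)
    (h2 : ∀ a b d, G.r a b → G.r b d → G.r a d → cls a = cls b ∨ cls b = cls d ∨ cls a = cls d)
    {s : Finset V} (hs : Clq G s) (h4 : s.card ≤ 4) (ha : act c s) :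
    w1 c s = ph ^ ((-1 : ℤ) ^ s.card) := by
  have h1 : 2 ≤ s.card := by
    obtain ⟨a, ha, b, hb, k⟩ := ha
    exact Finset.one_lt_card.2 ⟨a, ha, b, hb, (hc.supp a b k).2.1⟩
  rw [w1, if_pos ha]
  obtain k | k | k : s.card = 2 ∨ s.card = 3 ∨ s.card = 4 := by omega
  · simp [k]
  · rw [k]
    norm_num
  · rw [if_neg (by omega), if_neg (by omega), if_neg, k]
    · norm_num
    · intro e
      obtain ⟨a, b, d, ha, hb, hd, n1, n2, n3⟩ := Finset.two_lt_card_iff.1 (show 2 < s.card by omega)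
      rcases h2 a b d (hs.2 a ha b hb) (hs.2 b hb d hd) (hs.2 a ha d hd) with q | q | q
      · exact (hc.supp _ _ (e a ha b hb n1)).2.2 q
      · exact (hc.supp _ _ (e b hb d hd n3)).2.2 q
      · exact (hc.supp _ _ (e a ha d hd n2)).2.2 q

end

theorem rigid [Fintype V] {G : Cx V} {ι J : Type} [Fintype J] (cls : V → ι)
    (h2 : ∀ a b d, G.r a b → G.r b d → G.r a d → cls a = cls b ∨ cls b = cls d ∨ cls a = cls d)
    (h4 : ∀ s, Clq G s → s.card ≤ 4) (Y : J → Set (Fc G))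
    (hY : ∀ s : Fc G, (∃ a ∈ s.1, ∃ b ∈ s.1, cls a ≠ cls b) ↔ ∃ j, s ∈ Y j)
    (hc : ∀ j, Conn (sd G) (Y j)) (hs : ∀ j j', j ≠ j' → Sep (sd G) (Y j) (Y j')) :
    (SS G fun a b => cls a = cls b) ≤ ∏ j, (1 + ph ^ chi (sd G) (Y j)) := by
  have hu : ∀ j j' s s', s ∈ Y j → s' ∈ Y j' → s ≤ s' → j = j' := fun j j' s s' k k' e =>
    by_contra fun n => hs j j' n s k s' k' (Or.inl e)
  have hchi : ∀ j, chi (sd G) (Y j) = ∑ s : Fc G, if s ∈ Y j then (-1 : ℤ) ^ s.1.card else 0 := by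
    refine fun j => chi_mu _ fun x hx => ?_
    obtain ⟨a, ha, b, hb, n⟩ := (hY x).2 ⟨j, hx⟩
    refine Eq.trans ?_ (rigid_alt cls ha hb n fun d hd => ((h2 a b d (x.2.2 a ha b hb)
      (x.2.2 b hb d hd) (x.2.2 a ha d hd)).resolve_left n).symm.imp Eq.symm Eq.symm)
    rw [← Finset.sum_filter, ← Finset.sum_filter]
    refine Finset.sum_bij (fun y _ => y.1) (fun y hy => ?_) (fun _ _ _ _ e => Subtype.ext e)
      (fun t ht => ?_) fun _ _ => rfl
    · obtain ⟨-, k1, k2⟩ := Finset.mem_filter.1 hy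
      exact Finset.mem_filter.2 ⟨Finset.mem_powerset.2 k2, (hY y).2 ⟨j, k1⟩⟩
    · obtain ⟨k1, k2⟩ := Finset.mem_filter.1 ht
      rw [Finset.mem_powerset] at k1
      have k3 : Clq G t := x.2.sub k1 (k2.imp fun _ k => k.1)
      obtain ⟨j', hj'⟩ := (hY ⟨t, k3⟩).1 k2
      exact ⟨⟨t, k3⟩, Finset.mem_filter.2 ⟨Finset.mem_univ _,
        hu j' j _ x hj' hx k1 ▸ hj', k1⟩, rfl⟩
  obtain ⟨T, hT⟩ : ∃ T : (V → V → Bool) → Finset J, ∀ c j, j ∈ T c ↔ ∃ s ∈ Y j, act c s.1 :=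
    ⟨fun c => Finset.univ.filter fun j => ∃ s ∈ Y j, act c s.1, fun c j => by simp⟩
  have hact : ∀ c, Col G (fun a b => cls a = cls b) c → ∀ j, ∀ s ∈ Y j, act c s.1 ↔ j ∈ T c := by
    intro c k j s hsj
    have k1 : ∀ x ∈ Y j, ∀ y : Fc G, x ≤ y → act c x.1 = act c y.1 := by
      intro x hx y e
      obtain ⟨a, ha, b, hb, n⟩ := (hY x).2 ⟨j, hx⟩
      refine propext ⟨fun ⟨u, hu, v, hv, q⟩ => ⟨u, e hu, v, e hv, q⟩, fun ⟨u, hu, v, hv, q⟩ =>
        ⟨a, ha, b, hb, (rigid_same k h2 y.2 (e ha) (e hb) hu hv n (k.supp u v q).2.2).trans q⟩⟩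
    refine ⟨fun q => (hT c j).2 ⟨s, hsj, q⟩, fun q => ?_⟩
    obtain ⟨s', q1, q2⟩ := (hT c j).1 q
    exact (rch_const (f := fun s : Fc G => act c s.1) (fun x hx y hy r =>
      Or.elim r (k1 x hx y) fun e => (k1 y hy x e).symm) (hc j s' q1 s hsj)).mp q2
  have hinj : ∀ c c', Col G (fun a b => cls a = cls b) c → Col G (fun a b => cls a = cls b) c' →
      T c = T c' → ∀ a b, c a b = true → c' a b = true := by
    intro c c' k k' e a b q
    obtain ⟨r, -, n⟩ := k.supp a b q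
    obtain ⟨j, hj⟩ := (hY ⟨{a, b}, clq_pair r⟩).1 ⟨a, by simp, b, by simp, n⟩
    obtain ⟨u, hu, v, hv, q'⟩ :=
      (hact c' k' j _ hj).2 (e ▸ (hact c k j _ hj).1 ⟨a, by simp, b, by simp, q⟩)
    exact (rigid_same k' h2 (clq_pair r) (by simp) (by simp) hu hv n (k'.supp u v q').2.2).trans q'
  have hwt : ∀ c, Col G (fun a b => cls a = cls b) c →
      wt G c = ∏ j ∈ T c, ph ^ chi (sd G) (Y j) := by
    intro c k
    have k1 : wt G c = ∏ s : Fc G, w1 c s.1 := by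
      rw [wt, ← Finset.prod_filter]
      exact Finset.prod_subtype (p := Clq G) _ (by simp) _
    simp only [k1, hchi, ← rigid_zpow _ ph_pos.ne']
    rw [Finset.prod_comm]
    refine Finset.prod_congr rfl fun s _ => ?_
    by_cases q : act c s.1
    · obtain ⟨j, hj⟩ := (hY s).1 (by
        obtain ⟨u, hu, v, hv, q⟩ := q
        exact ⟨u, hu, v, hv, (k.supp u v q).2.2⟩)
      rw [Finset.prod_eq_single_of_mem j ((hact c k j s hj).1 q), if_pos hj,
        rigid_w1 k h2 s.2 (h4 _ s.2) q]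
      intro j' _ n
      rw [if_neg fun e => n (hu j' j s s e hj le_rfl), zpow_zero]
    · rw [w1, if_neg q, Finset.prod_eq_one]
      intro j hj
      rw [if_neg fun e => q ((hact c k j s e).2 hj), zpow_zero]
  rw [SS, ← Finset.sum_filter, Finset.sum_congr rfl fun c k => hwt c (Finset.mem_filter.1 k).2,
    ← Finset.sum_image (f := fun t : Finset J => ∏ j ∈ t, ph ^ chi (sd G) (Y j)) (g := T),
    Finset.prod_one_add]
  · exact Finset.sum_le_sum_of_subset_of_nonneg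
      (fun t _ => Finset.mem_powerset.2 (Finset.subset_univ t))
      fun t _ _ => Finset.prod_nonneg fun j _ => zpow_nonneg ph_pos.le _
  · intro c k c' k' e
    have q := (Finset.mem_filter.1 k).2
    have q' := (Finset.mem_filter.1 k').2
    exact funext fun a => funext fun b =>
      Bool.eq_iff_iff.2 ⟨hinj c c' q q' e a b, hinj c' c q' q e.symm a b⟩

end KG
end
end

-- merged part: Pool.Agent.Work.MP_c146e2_gt.KG.QinC
section
set_option autoImplicit false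

noncomputable section

open scoped Classical

namespace KG

variable {V V' : Type}

theorem qinc_cmp {G : Cx V} {Z : Set V} {x y : Fc G × Bool} (h : (DD G Z).r x y) :
    x.1.1 ⊆ y.1.1 ∨ y.1.1 ⊆ x.1.1 := by
  rcases h with rfl | h
  · exact Or.inl subset_rfl
  · exact h.2.2.1

theorem qinc_zp_cmp {G : Cx V} {Z : Set V} {x y : Fc G × Bool} (h : (DD G Z).r x y) :
    zp Z x ⊆ zp Z y ∨ zp Z y ⊆ zp Z x :=
  (qinc_cmp h).imp (Finset.filter_subset_filter _) (Finset.filter_subset_filter _)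

theorem qinc_val {G : Cx V} {Z : Set V} {x y : Fc G × Bool} (h : (DD G Z).r x y)
    (hx : x ∈ ddV G Z) : y ∈ ddV G Z := by
  rcases h with rfl | h
  · exact hx
  · exact h.2.1

theorem qinc_val_ne {G : Cx V} {Z : Set V} {x y : Fc G × Bool} (h : (DD G Z).r x y)
    (hne : x ≠ y) : x ∈ ddV G Z := (h.resolve_left hne).1

theorem qinc_meets {G : Cx V} {Z : Set V} {x : Fc G × Bool} (hx : x ∈ ddV G Z) :
    Meets x.1.1 Z := by
  rcases hx with hx | hx
  · obtain ⟨a, ha⟩ := x.1.2.1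
    exact ⟨a, ha, hx a ha⟩
  · exact hx.1.1

theorem qinc_mem_zp {G : Cx V} {Z : Set V} {x : Fc G × Bool} {a : V} :
    a ∈ zp Z x ↔ a ∈ x.1.1 ∧ a ∈ Z := Finset.mem_filter

section

variable [Fintype V] {G : Cx V} {Γ K I : Set V}

theorem qinc_not (h : GKI G Γ K I) {s : Fc G} (h1 : Meets s.1 Γ) (h2 : Meets s.1 I) : False := by
  obtain ⟨a, ha, ha'⟩ := h1
  obtain ⟨b, hb, hb'⟩ := h2
  exact h.sep a ha' b hb' (s.2.2 a ha b hb)

theorem qinc_notK (h : GKI G Γ K I) {s : Fc G} (h2 : Meets s.1 I) : ¬ Meets s.1 K :=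
  fun ⟨a, ha, ha'⟩ => qinc_not h ⟨a, ha, h.sub ha'⟩ h2

theorem qinc_A (h : GKI G Γ K I) {x y : Fc G × Bool} (hx : x ∈ cop G K)
    (hr : (DD G (Γ ∪ I)).r x y) : y ∈ ddV G (Γ ∪ I) ∧ Meets y.1.1 K := by
  refine ⟨qinc_val hr (Or.inl fun a ha => Or.inl (h.sub (hx.1 a ha))), ?_⟩
  rcases qinc_cmp hr with h1 | h1
  · obtain ⟨a, ha⟩ := x.1.2.1
    exact ⟨a, h1 ha, hx.1 a ha⟩
  · obtain ⟨a, ha⟩ := y.1.2.1
    exact ⟨a, ha, hx.1 a (h1 ha)⟩

theorem qinc_B (h : GKI G Γ K I) {x y : Fc G × Bool} (hx : x ∈ ddV G (Γ ∪ I))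
    (hm : Meets x.1.1 I) (hr : (DD G (Γ ∪ I)).r x y) : y ∈ ddV G (Γ ∪ I) ∧ Meets y.1.1 I := by
  refine ⟨qinc_val hr hx, ?_⟩
  rcases qinc_cmp hr with h1 | h1
  · obtain ⟨a, ha, ha'⟩ := hm
    exact ⟨a, h1 ha, ha'⟩
  · obtain ⟨a, ha, ha' | ha'⟩ := qinc_meets (qinc_val hr hx)
    · exact (qinc_not h ⟨a, h1 ha, ha'⟩ hm).elim
    · exact ⟨a, ha, ha'⟩

theorem qinc_copI {x : Fc G × Bool} (hx : x ∈ cop G I) :
    x ∈ ddV G (Γ ∪ I) ∧ Meets x.1.1 I := by
  refine ⟨Or.inl fun a ha => Or.inr (hx.1 a ha), ?_⟩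
  obtain ⟨a, ha⟩ := x.1.2.1
  exact ⟨a, ha, hx.1 a ha⟩

theorem qinc_clsK {x : Fc G × Bool} (hx : x ∈ ddV G (Γ ∪ I)) (hm : Meets x.1.1 K) :
    qcls G Γ K I x = some (Sum.inr (false, decide (x ∈ cop G K))) := by
  rw [qcls, if_neg (not_not.2 hx), if_pos hm]
  exact congrArg (fun p => some (Sum.inr (false, p))) (decide_eq_decide.2 Iff.rfl)

theorem qinc_clsI (h : GKI G Γ K I) {x : Fc G × Bool} (hx : x ∈ ddV G (Γ ∪ I))
    (hm : Meets x.1.1 I) : qcls G Γ K I x = some (Sum.inr (true, decide (x ∈ cop G I))) := by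
  rw [qcls, if_neg (not_not.2 hx), if_neg (qinc_notK h hm), if_pos hm]
  exact congrArg (fun p => some (Sum.inr (true, p))) (decide_eq_decide.2 Iff.rfl)

theorem qinc_cls0 {x : Fc G × Bool} (hx : x ∈ ddV G (Γ ∪ I)) (hK : ¬ Meets x.1.1 K)
    (hI : ¬ Meets x.1.1 I) : qcls G Γ K I x = some (Sum.inl (zp (Γ ∪ I) x)) := by
  rw [qcls, if_neg (not_not.2 hx), if_neg hK, if_neg hI]

theorem qinc_meetsK (h : GKI G Γ K I) {x : Fc G × Bool} :
    Meets x.1.1 K ↔ Meets (zp (Γ ∪ I) x) K :=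
  ⟨fun ⟨a, ha, ha'⟩ => ⟨a, qinc_mem_zp.2 ⟨ha, Or.inl (h.sub ha')⟩, ha'⟩,
    fun ⟨a, ha, ha'⟩ => ⟨a, (qinc_mem_zp.1 ha).1, ha'⟩⟩

theorem qinc_cls_eq (h : GKI G Γ K I) {x y : Fc G × Bool} (hx : x ∈ ddV G (Γ ∪ I))
    (hy : y ∈ ddV G (Γ ∪ I)) (hxI : ¬ Meets x.1.1 I) (hyI : ¬ Meets y.1.1 I) (hxK : x ∉ cop G K)
    (hyK : y ∉ cop G K) (e : zp (Γ ∪ I) x = zp (Γ ∪ I) y ∨ (Meets x.1.1 K ∧ Meets y.1.1 K)) :
    qcls G Γ K I x = qcls G Γ K I y := by
  have k : Meets x.1.1 K → Meets y.1.1 K → qcls G Γ K I x = qcls G Γ K I y := fun h1 h2 => by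
    rw [qinc_clsK hx h1, qinc_clsK hy h2, decide_eq_false hxK, decide_eq_false hyK]
  rcases e with e | e
  · by_cases h1 : Meets x.1.1 K
    · exact k h1 ((qinc_meetsK h).2 (e ▸ (qinc_meetsK h).1 h1))
    · rw [qinc_cls0 hx h1 hxI, qinc_cls0 hy
        (fun h2 => h1 ((qinc_meetsK h).2 (e ▸ (qinc_meetsK h).1 h2))) hyI, e]
  · exact k e.1 e.2

theorem qinc_zp_in {x : Fc G × Bool} (hI : ¬ Meets x.1.1 I) : Ins (zp (Γ ∪ I) x) Γ :=
  fun a ha => (qinc_mem_zp.1 ha).2.resolve_right fun h => hI ⟨a, (qinc_mem_zp.1 ha).1, h⟩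

theorem qinc_zp_card (h : GKI G Γ K I) {x : Fc G × Bool} (hx : x ∈ ddV G (Γ ∪ I))
    (hI : ¬ Meets x.1.1 I) : (zp (Γ ∪ I) x).card = 1 ∨ (zp (Γ ∪ I) x).card = 2 := by
  obtain ⟨a, ha, ha'⟩ := qinc_meets hx
  have hne : (zp (Γ ∪ I) x).Nonempty := ⟨a, qinc_mem_zp.2 ⟨ha, ha'⟩⟩
  have h1 := h.gr _ (x.1.2.sub (fun a ha => (qinc_mem_zp.1 ha).1) hne) (qinc_zp_in hI)
  have h2 := hne.card_pos
  omega

theorem qinc_zp_eq {Z : Set V} {x y : Fc G × Bool} (hr : (DD G Z).r x y)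
    (e : (zp Z x).card = (zp Z y).card) : zp Z x = zp Z y :=
  (qinc_zp_cmp hr).elim (fun h => Finset.eq_of_subset_of_card_le h e.ge)
    fun h => (Finset.eq_of_subset_of_card_le h e.le).symm

theorem qinc_bool {α : Type} (f : Bool → α) (p q r : Bool) :
    f p = f q ∨ f q = f r ∨ f p = f r := by
  cases p <;> cases q <;> cases r <;> simp

theorem qinc_h2 (h : GKI G Γ K I) (x y z : Fc G × Bool) (hxy : (DD G (Γ ∪ I)).r x y)
    (hyz : (DD G (Γ ∪ I)).r y z) (hxz : (DD G (Γ ∪ I)).r x z) :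
    qcls G Γ K I x = qcls G Γ K I y ∨ qcls G Γ K I y = qcls G Γ K I z ∨
      qcls G Γ K I x = qcls G Γ K I z := by
  by_cases hne : x = y
  · exact Or.inl (by rw [hne])
  have hx := qinc_val_ne hxy hne
  have hy := qinc_val hxy hx
  have hz := qinc_val hxz hx
  have kK : ∀ w ∈ cop G K, (DD G (Γ ∪ I)).r w x → (DD G (Γ ∪ I)).r w y → (DD G (Γ ∪ I)).r w z →
      qcls G Γ K I x = qcls G Γ K I y ∨ qcls G Γ K I y = qcls G Γ K I z ∨
        qcls G Γ K I x = qcls G Γ K I z := fun w hw h1 h2 h3 => by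
    rw [qinc_clsK hx (qinc_A h hw h1).2, qinc_clsK hy (qinc_A h hw h2).2,
      qinc_clsK hz (qinc_A h hw h3).2]
    exact qinc_bool (fun p => some (Sum.inr (false, p))) _ _ _
  by_cases hxK : x ∈ cop G K
  · exact kK x hxK (Cx.refl _ _) hxy hxz
  by_cases hyK : y ∈ cop G K
  · exact kK y hyK (Cx.symm _ _ _ hxy) (Cx.refl _ _) hyz
  by_cases hzK : z ∈ cop G K
  · exact kK z hzK (Cx.symm _ _ _ hxz) (Cx.symm _ _ _ hyz) (Cx.refl _ _)
  by_cases hxI : Meets x.1.1 I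
  · rw [qinc_clsI h hx hxI, qinc_clsI h hy (qinc_B h hx hxI hxy).2,
      qinc_clsI h hz (qinc_B h hx hxI hxz).2]
    exact qinc_bool (fun p => some (Sum.inr (true, p))) _ _ _
  have hyI : ¬ Meets y.1.1 I := fun e => hxI (qinc_B h hy e (Cx.symm _ _ _ hxy)).2
  have hzI : ¬ Meets z.1.1 I := fun e => hxI (qinc_B h hz e (Cx.symm _ _ _ hxz)).2
  have c1 := qinc_zp_card h hx hxI
  have c2 := qinc_zp_card h hy hyI
  have c3 := qinc_zp_card h hz hzI
  by_cases e1 : (zp (Γ ∪ I) x).card = (zp (Γ ∪ I) y).card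
  · exact Or.inl (qinc_cls_eq h hx hy hxI hyI hxK hyK (Or.inl (qinc_zp_eq hxy e1)))
  by_cases e2 : (zp (Γ ∪ I) y).card = (zp (Γ ∪ I) z).card
  · exact Or.inr (Or.inl (qinc_cls_eq h hy hz hyI hzI hyK hzK (Or.inl (qinc_zp_eq hyz e2))))
  · exact Or.inr (Or.inr (qinc_cls_eq h hx hz hxI hzI hxK hzK
      (Or.inl (qinc_zp_eq hxz (by omega)))))

theorem qinc_h4 (h : GKI G Γ K I) (s : Finset (Fc G × Bool)) (hs : Clq (DD G (Γ ∪ I)) s) :
    s.card ≤ 4 := by
  by_cases hm : Meets s (ddV G (Γ ∪ I))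
  · exact (h.man.mono (Set.subset_univ _)).dd.dim s hs hm
  · refine le_trans (Finset.card_le_one.2 fun a ha b hb => ?_) (by norm_num)
    by_contra hne
    exact hm ⟨a, ha, qinc_val_ne (hs.2 a ha b hb) hne⟩

/-- Oriented edges of the graph that start outside the curve. -/
def qincP (G : Cx V) (Γ K : Set V) (p : V × V) : Prop :=
  p.1 ∈ Γ ∧ p.1 ∉ K ∧ p.2 ∈ Γ ∧ G.r p.1 p.2 ∧ p.1 ≠ p.2

/-- The pieces. -/
def qincY (G : Cx V) (Γ K I : Set V) :
    Bool ⊕ {p : V × V // qincP G Γ K p} → Set (Fc (DD G (Γ ∪ I)))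
  | Sum.inl false => Xs (DD G (Γ ∪ I)) (cop G K)
  | Sum.inl true => Xs (DD G (Γ ∪ I)) (cop G I)
  | Sum.inr p => qY G (Γ ∪ I) p.1.1 p.1.2

theorem qinc_pair (h : GKI G Γ K I) {s : Fc (DD G (Γ ∪ I))} {x y : Fc G × Bool} (hx : x ∈ s.1)
    (hy : y ∈ s.1) (hxI : ¬ Meets x.1.1 I) (hyI : ¬ Meets y.1.1 I)
    (c1 : (zp (Γ ∪ I) x).card = 1) (c2 : (zp (Γ ∪ I) y).card = 2)
    (hK : ¬ (Meets x.1.1 K ∧ Meets y.1.1 K)) : ∃ j, s ∈ qincY G Γ K I j := by
  obtain ⟨a, ha⟩ := Finset.card_eq_one.1 c1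
  have hsub : zp (Γ ∪ I) x ⊆ zp (Γ ∪ I) y :=
    (qinc_zp_cmp (s.2.2 x hx y hy)).resolve_right fun e => by
      have := Finset.card_le_card e
      omega
  have hax : a ∈ zp (Γ ∪ I) x := ha ▸ Finset.mem_singleton_self a
  have hay := hsub hax
  obtain ⟨b, hab, hb⟩ : ∃ b, a ≠ b ∧ zp (Γ ∪ I) y = {a, b} := by
    obtain ⟨u, v, huv, e⟩ := Finset.card_eq_two.1 c2
    rw [e, Finset.mem_insert, Finset.mem_singleton] at hay
    rcases hay with rfl | rfl
    · exact ⟨v, huv, e⟩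
    · exact ⟨u, huv.symm, e.trans (Finset.pair_comm _ _)⟩
  have hby : b ∈ zp (Γ ∪ I) y := by rw [hb]; simp
  refine ⟨Sum.inr ⟨(a, b), qinc_zp_in hxI a hax, fun e => hK ⟨⟨a, (qinc_mem_zp.1 hax).1, e⟩,
    ⟨a, (qinc_mem_zp.1 hay).1, e⟩⟩, qinc_zp_in hyI b hby,
    y.1.2.2 a (qinc_mem_zp.1 hay).1 b (qinc_mem_zp.1 hby).1, hab⟩, ⟨x, hx, ha⟩, y, hy, hb⟩

theorem qinc_single (h : GKI G Γ K I) {x : Fc G × Bool} {a : V} (ha : a ∈ Γ) (haK : a ∉ K)
    (e : zp (Γ ∪ I) x = {a}) : ¬ Meets x.1.1 K ∧ ¬ Meets x.1.1 I := by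
  have hax : a ∈ zp (Γ ∪ I) x := e ▸ Finset.mem_singleton_self a
  refine ⟨fun h1 => ?_, fun h1 => qinc_not h ⟨a, (qinc_mem_zp.1 hax).1, ha⟩ h1⟩
  obtain ⟨c, hc, hc'⟩ := (qinc_meetsK h).1 h1
  rw [e, Finset.mem_singleton] at hc
  exact haK (hc ▸ hc')

theorem qinc_hY (h : GKI G Γ K I) (s : Fc (DD G (Γ ∪ I))) :
    (∃ x ∈ s.1, ∃ y ∈ s.1, qcls G Γ K I x ≠ qcls G Γ K I y) ↔ ∃ j, s ∈ qincY G Γ K I j := by
  constructor
  · rintro ⟨x, hx, y, hy, hne⟩
    have hr := s.2.2 x hx y hy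
    have hr' := s.2.2 y hy x hx
    have vx := qinc_val_ne hr fun e => hne (by rw [e])
    have vy := qinc_val hr vx
    by_cases hxK : x ∈ cop G K
    · refine ⟨Sum.inl false, ⟨x, hx, hxK⟩, y, hy, fun hyK => hne ?_⟩
      rw [qinc_clsK vx (qinc_A h hyK hr').2, qinc_clsK vy (qinc_A h hxK hr).2,
        decide_eq_true hxK, decide_eq_true hyK]
    by_cases hyK : y ∈ cop G K
    · exact ⟨Sum.inl false, ⟨y, hy, hyK⟩, x, hx, hxK⟩
    by_cases hxI : Meets x.1.1 I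
    · rw [qinc_clsI h vx hxI, qinc_clsI h vy (qinc_B h vx hxI hr).2] at hne
      by_cases h1 : x ∈ cop G I
      · exact ⟨Sum.inl true, ⟨x, hx, h1⟩, y, hy, fun h2 => hne (by
          rw [decide_eq_true h1, decide_eq_true h2])⟩
      · refine ⟨Sum.inl true, ⟨y, hy, ?_⟩, x, hx, h1⟩
        by_contra h2
        exact hne (by rw [decide_eq_false h1, decide_eq_false h2])
    have hyI : ¬ Meets y.1.1 I := fun e => hxI (qinc_B h vy e hr').2
    have k := mt (qinc_cls_eq h vx vy hxI hyI hxK hyK) hne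
    rw [not_or] at k
    have k1 := mt (qinc_zp_eq hr) k.1
    rcases qinc_zp_card h vx hxI with c1 | c1 <;> rcases qinc_zp_card h vy hyI with c2 | c2
    · exact absurd (c1.trans c2.symm) k1
    · exact qinc_pair h hx hy hxI hyI c1 c2 k.2
    · exact qinc_pair h hy hx hyI hxI c2 c1 fun e => k.2 e.symm
    · exact absurd (c1.trans c2.symm) k1
  · rintro ⟨(_ | _) | ⟨⟨a, b⟩, ha, haK, hb, hab, hne⟩, hs⟩
    · obtain ⟨⟨x, hx, hxK⟩, y, hy, hyK⟩ := hs
      have h1 := qinc_A h hxK (Cx.refl _ x)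
      have h2 := qinc_A h hxK (s.2.2 x hx y hy)
      refine ⟨x, hx, y, hy, ?_⟩
      rw [qinc_clsK h1.1 h1.2, qinc_clsK h2.1 h2.2, decide_eq_true hxK, decide_eq_false hyK]
      simp
    · obtain ⟨⟨x, hx, hxI⟩, y, hy, hyI⟩ := hs
      have h1 := qinc_copI (Γ := Γ) hxI
      have h2 := qinc_B h h1.1 h1.2 (s.2.2 x hx y hy)
      refine ⟨x, hx, y, hy, ?_⟩
      rw [qinc_clsI h h1.1 h1.2, qinc_clsI h h2.1 h2.2, decide_eq_true hxI, decide_eq_false hyI]
      simp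
    · obtain ⟨⟨x, hx, e1⟩, y, hy, e2⟩ := hs
      have hz : zp (Γ ∪ I) x ≠ zp (Γ ∪ I) y := fun e => by
        have : b ∈ zp (Γ ∪ I) x := by rw [e, e2]; simp
        rw [e1, Finset.mem_singleton] at this
        exact hne this.symm
      have vx := qinc_val_ne (s.2.2 x hx y hy) fun e => hz (by rw [e])
      have vy := qinc_val (s.2.2 x hx y hy) vx
      have k := qinc_single h ha haK e1
      refine ⟨x, hx, y, hy, ?_⟩
      rw [qinc_cls0 vx k.1 k.2]
      by_cases h1 : Meets y.1.1 K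
      · rw [qinc_clsK vy h1]; simp
      · rw [qinc_cls0 vy h1 fun e => k.2 (qinc_B h vy e (s.2.2 y hy x hx)).2]
        simpa using hz

theorem qinc_up {j : Bool ⊕ {p : V × V // qincP G Γ K p}} {s t : Fc (DD G (Γ ∪ I))} (hst : s ≤ t)
    (hs : s ∈ qincY G Γ K I j) : t ∈ qincY G Γ K I j := by
  rcases j with (_ | _) | p <;> obtain ⟨⟨x, hx, h1⟩, y, hy, h2⟩ := hs <;>
    exact ⟨⟨x, hst hx, h1⟩, y, hst hy, h2⟩

theorem qinc_disj (h : GKI G Γ K I) {j j' : Bool ⊕ {p : V × V // qincP G Γ K p}}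
    {s : Fc (DD G (Γ ∪ I))} (hs : s ∈ qincY G Γ K I j) (hs' : s ∈ qincY G Γ K I j') : j = j' := by
  have k1 : s ∈ qincY G Γ K I (Sum.inl false) → s ∈ qincY G Γ K I (Sum.inl true) → False := by
    rintro ⟨⟨x, hx, h1⟩, -⟩ ⟨⟨y, hy, h2⟩, -⟩
    exact qinc_notK h (qinc_copI (Γ := Γ) h2).2 (qinc_A h h1 (s.2.2 x hx y hy)).2
  have k2 : ∀ b p, s ∈ qincY G Γ K I (Sum.inl b) → s ∈ qincY G Γ K I (Sum.inr p) → False := by
    rintro (_ | _) p ⟨⟨x, hx, h1⟩, -⟩ ⟨⟨y, hy, h2⟩, -⟩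
    · exact (qinc_single h p.2.1 p.2.2.1 h2).1 (qinc_A h h1 (s.2.2 x hx y hy)).2
    · have h3 := qinc_copI (Γ := Γ) h1
      exact (qinc_single h p.2.1 p.2.2.1 h2).2 (qinc_B h h3.1 h3.2 (s.2.2 x hx y hy)).2
  rcases j with (_ | _) | p <;> rcases j' with (_ | _) | q
  · rfl
  · exact (k1 hs hs').elim
  · exact (k2 _ _ hs hs').elim
  · exact (k1 hs' hs).elim
  · rfl
  · exact (k2 _ _ hs hs').elim
  · exact (k2 _ _ hs' hs).elim
  · exact (k2 _ _ hs' hs).elim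
  · obtain ⟨⟨a, b⟩, hp⟩ := p
    obtain ⟨⟨a', b'⟩, hq⟩ := q
    obtain ⟨⟨x, hx, e1⟩, y, hy, e2⟩ := hs
    obtain ⟨⟨x', hx', e1'⟩, y', hy', e2'⟩ := hs'
    have h1 := qinc_zp_eq (s.2.2 x hx x' hx') (by rw [e1, e1']; simp)
    rw [e1, e1', Finset.singleton_inj] at h1
    obtain rfl : a = a' := h1
    have n1 : a ≠ b := hp.2.2.2.2
    have n2 : a ≠ b' := hq.2.2.2.2
    have h2 := qinc_zp_eq (s.2.2 y hy y' hy')
      (by rw [e2, e2', Finset.card_pair n1, Finset.card_pair n2])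
    have h3 : b ∈ zp (Γ ∪ I) y' := by rw [← h2, e2]; simp
    rw [e2', Finset.mem_insert, Finset.mem_singleton] at h3
    obtain rfl : b = b' := h3.resolve_left n1.symm
    rfl

theorem qinc_ncard (G : Cx V) (S : Set V) :
    ((dn G S).ncard : ℤ) = ∑ s : Finset V, if Clq G s ∧ Ins s S then 1 else 0 := by
  have e : Subtype.val '' (dn G S : Set {s : Finset V // Clq G s}) =
      ↑(Finset.univ.filter fun s : Finset V => Clq G s ∧ Ins s S) := by
    ext s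
    simp only [Set.mem_image, Finset.coe_filter, Finset.mem_univ, true_and, Set.mem_setOf_eq]
    exact ⟨fun ⟨t, ht, e⟩ => e ▸ ⟨t.2, ht⟩, fun h => ⟨⟨s, h.1⟩, h.2, rfl⟩⟩
  have e2 := Set.ncard_image_of_injective (dn G S : Set {s : Finset V // Clq G s})
    Subtype.val_injective
  rw [Finset.sum_boole]
  exact congrArg _ (e2.symm.trans ((congrArg Set.ncard e).trans (Set.ncard_coe_finset _)))

theorem qinc_term (h : GKI G Γ K I) (s : Finset V) :
    (if Clq G s ∧ Ins s Γ then (-1 : ℤ) ^ (s.card + 1) else 0) +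
      ((Finset.univ.filter (qincP G Γ K)).filter fun p => ({p.1, p.2} : Finset V) = s).card =
    (if Clq G s ∧ Ins s K then (-1 : ℤ) ^ (s.card + 1) else 0) +
      if Clq G s ∧ Ins s (Γ \ K) then 1 else 0 := by
  by_cases hs : Clq G s ∧ Ins s Γ
  · have h1 := h.gr s hs.1 hs.2
    have h2 := hs.1.1.card_pos
    obtain h3 | h3 : s.card = 1 ∨ s.card = 2 := by omega
    · obtain ⟨u, rfl⟩ := Finset.card_eq_one.1 h3
      have hu : u ∈ Γ := hs.2 u (Finset.mem_singleton_self u)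
      rw [Finset.filter_eq_empty_iff.2 fun p hp e => by
        have := congrArg Finset.card e
        rw [Finset.card_pair (Finset.mem_filter.1 hp).2.2.2.2.2, Finset.card_singleton] at this
        omega]
      by_cases hK : u ∈ K <;> simp [hs.1, Ins, hu, hK]
    · obtain ⟨u, v, huv, rfl⟩ := Finset.card_eq_two.1 h3
      have hu : u ∈ Γ := hs.2 u (by simp)
      have hv : v ∈ Γ := hs.2 v (by simp)
      have hr : G.r u v := hs.1.2 u (by simp) v (by simp)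
      have e : ((Finset.univ.filter (qincP G Γ K)).filter
          fun p => ({p.1, p.2} : Finset V) = {u, v}) =
          ({(u, v), (v, u)} : Finset (V × V)).filter fun p => p.1 ∉ K := by
        ext ⟨a, b⟩
        simp only [Finset.mem_filter, Finset.mem_univ, true_and, Finset.mem_insert,
          Finset.mem_singleton, Prod.mk.injEq]
        constructor
        · rintro ⟨hp, e⟩
          refine ⟨?_, hp.2.1⟩
          have hne : a ≠ b := hp.2.2.2.2
          have ha : a ∈ ({u, v} : Finset V) := by rw [← e]; simp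
          have hb : b ∈ ({u, v} : Finset V) := by rw [← e]; simp
          rw [Finset.mem_insert, Finset.mem_singleton] at ha hb
          rcases ha with rfl | rfl <;> rcases hb with rfl | rfl
          · exact absurd rfl hne
          · exact Or.inl ⟨rfl, rfl⟩
          · exact Or.inr ⟨rfl, rfl⟩
          · exact absurd rfl hne
        · rintro ⟨⟨rfl, rfl⟩ | ⟨rfl, rfl⟩, hK⟩
          · exact ⟨⟨hu, hK, hv, hr, huv⟩, rfl⟩
          · exact ⟨⟨hv, hK, hu, G.symm _ _ hr, huv.symm⟩, Finset.pair_comm _ _⟩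
      have hne : (u, v) ≠ (v, u) := fun e => huv (congrArg Prod.fst e)
      rw [e, Finset.card_filter, Finset.sum_pair hne, h3]
      by_cases h4 : u ∈ K <;> by_cases h5 : v ∈ K <;> simp [hs.1, Ins, hu, hv, h4, h5]
  · rw [if_neg hs, if_neg fun e : Clq G s ∧ Ins s K => hs ⟨e.1, fun a ha => h.sub (e.2 a ha)⟩,
      if_neg fun e : Clq G s ∧ Ins s (Γ \ K) => hs ⟨e.1, fun a ha => (e.2 a ha).1⟩,
      Finset.filter_eq_empty_iff.2 fun p hp e => hs (by
        have hp := (Finset.mem_filter.1 hp).2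
        rw [← e]
        refine ⟨clq_pair hp.2.2.2.1, fun a ha => ?_⟩
        rw [Finset.mem_insert, Finset.mem_singleton] at ha
        rcases ha with rfl | rfl
        · exact hp.1
        · exact hp.2.2.1)]
    simp

theorem qinc_count (h : GKI G Γ K I) :
    chi G Γ + Fintype.card {p : V × V // qincP G Γ K p} = (dn G (Γ \ K)).ncard := by
  have e := Finset.card_eq_sum_card_fiberwise (s := Finset.univ.filter (qincP G Γ K))
    (t := Finset.univ) (f := fun p => ({p.1, p.2} : Finset V)) fun _ _ => Finset.mem_univ _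
  have e2 := Finset.sum_congr (s₁ := Finset.univ) rfl fun s _ => qinc_term h s
  rw [Finset.sum_add_distrib, Finset.sum_add_distrib, ← Nat.cast_sum, ← e, ← qinc_ncard] at e2
  rw [Fintype.card_subtype]
  have e3 := h.chiK
  unfold chi at e3 ⊢
  rw [e3, zero_add] at e2
  convert e2

end

theorem qin_le [Fintype V] {G : Cx V} {Γ K I : Set V} (h : GKI G Γ K I) :
    qin G (Γ ∪ I) (K ∪ I) ≤ 2 * D2 ^ (1 - chi G Γ) := by
  have h1 := rigid (G := DD G (Γ ∪ I)) (qcls G Γ K I) (qinc_h2 h) (qinc_h4 h) (qincY G Γ K I)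
    (qinc_hY h) (by
      rintro ((_ | _) | p)
      · exact (copK_spec h).1
      · exact (copI_spec h).1
      · exact (qY_spec h p.2.1 p.2.2.2.1 p.2.2.2.2.1 p.2.2.2.2.2).1)
    (fun j j' hne s hs t ht hr => hne (hr.elim (fun e => qinc_disj h (qinc_up e hs) ht)
      fun e => qinc_disj h hs (qinc_up e ht)))
  have hD : 1 + ph ^ (2 : ℤ) = D2 := by
    rw [zpow_ofNat, ph_sq, D2]; ring
  have h2 : ∀ p : {p : V × V // qincP G Γ K p},
      1 + ph ^ chi (sd (DD G (Γ ∪ I))) (qincY G Γ K I (Sum.inr p)) = D2 := fun p => by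
    rw [← hD]
    exact congrArg (fun n : ℤ => 1 + ph ^ n)
      (qY_spec h p.2.1 p.2.2.2.1 p.2.2.2.2.1 p.2.2.2.2.2).2
  have h3 : chi (sd (DD G (Γ ∪ I))) (qincY G Γ K I (Sum.inl false)) = 0 := (copK_spec h).2
  have h4 : chi (sd (DD G (Γ ∪ I))) (qincY G Γ K I (Sum.inl true)) = 2 := (copI_spec h).2
  rw [← qin_gauge h, Fintype.prod_sum_type, Fintype.prod_bool, h3, h4, hD,
    Finset.prod_congr rfl fun p _ => h2 p, Finset.prod_const, Finset.card_univ] at h1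
  have hp : 0 < D2 := lt_trans one_pos one_lt_D2
  refine le_of_mul_le_mul_right (h1.trans (le_of_eq ?_)) (pow_pos hp _)
  rw [← zpow_natCast D2 (Set.ncard _), ← qinc_count h, mul_assoc 2, ← zpow_add₀ hp.ne',
    show 1 - chi G Γ + (chi G Γ + (Fintype.card {p : V × V // qincP G Γ K p} : ℤ)) =
      1 + (Fintype.card {p : V × V // qincP G Γ K p} : ℤ) by ring, zpow_add₀ hp.ne', zpow_natCast,
    zpow_zero, zpow_one]
  ring

end KG
end
end

-- merged part: Pool.Agent.Work.MP_c146e2_gt.KG.Comb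
section
set_option autoImplicit false

noncomputable section

open scoped Classical

namespace KG

variable {V V' : Type}

theorem comb_cs [Fintype V] {G : Cx V} (hm : Man G Set.univ) {Z Z₀ : Set V} (hZ : Z₀ ⊆ Z) :
    tv G Z₀ ^ 2 ≤ qq G Zᶜ * qin G Z Z₀ ∧ 0 ≤ qq G Zᶜ ∧ 0 ≤ qin G Z Z₀ := by
  have hs : Surf (sd G) (Xs G Z) := surf_xs (hm.toPMan.mono (Set.subset_univ _))
  have hd : ∀ s, Clq (sd G) s → Ins s (Xs G Z) → s.card ≤ 3 := hs.dim
  have hsub : dn G Z₀ ⊆ dn G Z := fun s hs a ha => hZ (hs a ha)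
  have h1 : Disjoint (dn G Zᶜ) (Xs G Z) := by rw [← xs_compl]; exact dn_xs_disj G _
  have hsep : Sep (sd G) (dn G Zᶜ) (dn G Z) := by
    intro a ha b hb r
    rcases r with r | r
    · obtain ⟨x, hx⟩ := a.2.1
      exact ha x hx (hb x (r hx))
    · obtain ⟨x, hx⟩ := b.2.1
      exact ha x (r hx) (hb x hx)
  have hu : dn G Zᶜ ∪ Xs G Z ∪ dn G Z = Set.univ := by
    rw [← xs_compl, dn_union_xs, ← dn_compl, Set.compl_union_self]
  refine ⟨?_, ?_, tv_db_nonneg (dn_xs_disj G Z) hsub hd⟩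
  · have := cs_db h1 (dn_xs_disj G Z) hsep hu hsub hd
    rw [tv_dn (hm.mono (Set.subset_univ _))] at this
    unfold qq qin DD ddV
    rw [xs_compl]
    exact this
  · have := tv_db_nonneg (G := sd G) h1 (Set.empty_subset _) hd
    unfold qq DD ddV
    rw [xs_compl]
    simpa using this

theorem comb_bound [Fintype V] {G : Cx V} {Γ K I : Set V} (h : GKI G Γ K I) (hs : Sph G (Γ ∪ I))
    (hne : (Γ ∪ I)ᶜ.Nonempty) {g : ℕ} (hf : Free G (Γ ∪ I)ᶜ g) :
    tv G (K ∪ I) ^ 2 ≤ 2 * D2 ^ (2 * g) := by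
  obtain ⟨h1, h2, h3⟩ := comb_cs h.man (Z := Γ ∪ I) (Z₀ := K ∪ I)
    (Set.union_subset_union_left _ h.sub)
  have c := claim_all g V G (Γ ∪ I)ᶜ g (by rwa [compl_compl]) hne hf hf.b1le
  rw [compl_compl] at c
  have s3 := hs.s3
  have t := tree_kc s3.ne s3.conn s3.h1 (Γ ∪ I)
  have k := kc_pos (G := G) hne
  have top := top_ineq (h.man.toPMan.mono (Set.subset_univ (Γ ∪ I)ᶜ)) hf.b1le
  have x1 := (h.man.mono (Set.subset_univ (Γ ∪ I)ᶜ)).chi_xs
  have x2 := (h.man.mono (Set.subset_univ (Γ ∪ I))).chi_xs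
  rw [xs_compl] at top x1
  have x3 := chi_sep h.sep
  rw [h.chiI] at x3
  have hD := one_lt_D2
  have hD0 : 0 < D2 := by linarith
  have q := qin_le h
  have e : D2 ^ (g + kc G (Γ ∪ I)) * D2 ^ (1 - chi G Γ) ≤ D2 ^ 2 * D2 ^ (2 * g) := by
    rw [← zpow_natCast, ← zpow_add₀ hD0.ne', ← pow_add, ← zpow_natCast]
    apply zpow_le_zpow_right₀ hD.le
    push_cast
    omega
  have p : 0 < D2 ^ (1 - chi G Γ) := zpow_pos hD0 _
  have : D2 ^ 2 * tv G (K ∪ I) ^ 2 ≤ D2 ^ 2 * (2 * D2 ^ (2 * g)) := by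
    calc D2 ^ 2 * tv G (K ∪ I) ^ 2 ≤ D2 ^ 2 * (qq G (Γ ∪ I)ᶜ * (2 * D2 ^ (1 - chi G Γ))) := by
          gcongr
          exact h1.trans (mul_le_mul_of_nonneg_left q h2)
      _ = 2 * ((D2 ^ 2 * qq G (Γ ∪ I)ᶜ) * D2 ^ (1 - chi G Γ)) := by ring
      _ ≤ 2 * (D2 ^ (g + kc G (Γ ∪ I)) * D2 ^ (1 - chi G Γ)) := by gcongr
      _ ≤ 2 * (D2 ^ 2 * D2 ^ (2 * g)) := by gcongr
      _ = _ := by ring
  exact le_of_mul_le_mul_left this (by positivity)

end KG
end
end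

-- merged part: Pool.Agent.Work.MP_c146e2_gt.KG.BMain
section
set_option autoImplicit false

noncomputable section

open scoped Classical

namespace KG

variable {V V' : Type}

theorem man_grid (N L : ℕ) : Man (ord (Gr N L)) (inner N L) := man_gr N L

theorem bridge {N L : ℕ} {ty : ℤ → ℤ → CT} (h : Grid N L ty) (hne : (Kc N L ty).Nonempty)
    (hc : Conn (ord (Gr N L)) (Kc N L ty)) {n : ℕ} (hg : GenN (ord (Gr N L)) (Uc N L ty) n)
    (hbig : 2 * D2 ^ (2 * n) < tv (ord (Gr N L)) (Uc N L ty)ᶜ ^ 2) :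
    ∃ K : Set (ℝ × ℝ × ℝ),
      (∃ S : Finset ((ℝ × ℝ × ℝ) × (ℝ × ℝ × ℝ)), K = ⋃ p ∈ S, segment ℝ p.1 p.2) ∧
      Nonempty (K ≃ₜ Circle) ∧
      ∃ x : (Kᶜ : Set (ℝ × ℝ × ℝ)), ∃ n : ℕ,
        (∃ f : Fin n → FundamentalGroup (Kᶜ : Set (ℝ × ℝ × ℝ)) x,
          Subgroup.closure (Set.range f) = ⊤) ∧
        ∀ Γ : Set (ℝ × ℝ × ℝ), ∀ g : ℕ,
          (∃ T : Finset ((ℝ × ℝ × ℝ) × (ℝ × ℝ × ℝ)), Γ = ⋃ p ∈ T, segment ℝ p.1 p.2) →
          K ⊆ Γ →
          Nonempty ((Γᶜ : Set (ℝ × ℝ × ℝ)) ≃ₜ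
            (({y : ℝ × ℝ × ℝ | y.2.2 = 0 ∧ ∃ i : ℕ, i < g ∧
                (y.1 - (2 * (i : ℝ) + 1)) ^ 2 + y.2.1 ^ 2 = 1}ᶜ : Set (ℝ × ℝ × ℝ)))) →
          n < g := by
  have hK := h.gk hne hc
  obtain ⟨x, hx⟩ := hK.compl_ne
  refine ⟨geo _, hK.seg, hK.circle, ⟨x, hx⟩, n, (cells_box hK.low).gen (h.genN hg) _, ?_⟩
  rintro Γ g ⟨T, rfl⟩ hs ⟨e⟩
  obtain ⟨W, _, G, Γ', K', I, h1, h2, h3, h4, h5⟩ := arr_main hK T hs e
  have h6 := comb_bound h1 (h2.mono Set.subset_union_right) h3 h4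
  rw [h5, h.tv_eq] at h6
  have h7 := (pow_lt_pow_iff_right₀ one_lt_D2).1
    (lt_of_mul_lt_mul_left (hbig.trans_le h6) zero_le_two)
  omega

end KG
end
end
end
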