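import Pool.Agent.Work.MP_c146e2_gt.KG.CtC
import Pool.Agent.Work.MP_c146e2_gt.KG.CT

set_option autoImplicit false

noncomputable section

open scoped Classical

namespace KG

variable {V V' : Type}

/-- The double cover of the star of `U` given by a cocycle. -/
def cvG (G : Cx V) (U : Set V) (η : V → V → ZMod 2) : Cx (V × ZMod 2) :=
  ⟨fun x y => x = y ∨ (G.r x.1 y.1 ∧ (x.1 ∉ U → x.2 = 0) ∧ (y.1 ∉ U → y.2 = 0) ∧
      (x.1 ∈ U → y.1 ∈ U → y.2 = x.2 + η x.1 y.1 ∧ x.2 = y.2 + η y.1 x.1)),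
    fun _ => Or.inl rfl, fun _ _ h => h.elim (fun e => Or.inl e.symm) fun h =>
      Or.inr ⟨G.symm _ _ h.1, h.2.2.1, h.2.1, fun a b => (h.2.2.2 b a).symm⟩⟩

def cvT (U : Set V) (x : V × ZMod 2) : V × ZMod 2 := if x.1 ∈ U then (x.1, x.2 + 1) else x

theorem cova_two (a b : ZMod 2) : a + b + b = a := by
  revert a b
  decide

theorem cova_fst (U : Set V) (x : V × ZMod 2) : (cvT U x).1 = x.1 := by
  unfold cvT
  split_ifs <;> rfl

theorem cova_map {G : Cx V} {U : Set V} {η : V → V → ZMod 2} {x y : V × ZMod 2}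
    (h : (cvG G U η).r x y) : G.r x.1 y.1 :=
  h.elim (fun e => e ▸ G.refl _) fun h => h.1

theorem cova_nb {G : Cx V} {U : Set V} {η : V → V → ZMod 2} (hη : Coc G U η) {x y : V × ZMod 2}
    (hx : x.1 ∈ U) : (cvG G U η).r x y ↔
      G.r x.1 y.1 ∧ y.2 = if y.1 ∈ U then x.2 + η x.1 y.1 else 0 := by
  constructor
  · rintro (rfl | ⟨h1, -, h3, h4⟩)
    · exact ⟨G.refl _, by rw [if_pos hx, hη.self hx, add_zero]⟩
    · refine ⟨h1, ?_⟩
      split_ifs with hy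
      exacts [(h4 hx hy).1, h3 hy]
  · rintro ⟨h1, h2⟩
    refine Or.inr ⟨h1, fun a => absurd hx a, fun a => by rw [h2, if_neg a], fun _ a => ?_⟩
    rw [if_pos a] at h2
    exact ⟨h2, by rw [h2, hη.symm hx a h1, cova_two]⟩

theorem cov_cv {G : Cx V} {U : Set V} {η : V → V → ZMod 2} (hη : Coc G U η) :
    Cov (cvG G U η) G {x | x.1 ∈ U} U Prod.fst (cvT U) := by
  refine ⟨fun _ => Iff.rfl, fun _ _ => cova_map, fun u _ => ⟨(u, 0), rfl⟩, fun x hx => ⟨?_, ?_, ?_⟩,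
    fun x => ?_, ?_, cova_fst U, fun x hx y e => ?_, fun x hx e => ?_⟩
  · intro y z hy hz e
    rw [cova_nb hη hx] at hy hz
    exact Prod.ext e (by rw [hy.2, hz.2, e])
  · intro y z hy hz
    rw [cova_nb hη hx] at hy hz
    refine ⟨cova_map, fun h => Or.inr ⟨h, fun a => by rw [hy.2, if_neg a],
      fun a => by rw [hz.2, if_neg a], fun a b => ?_⟩⟩
    rw [hy.2, hz.2, if_pos a, if_pos b, add_assoc, add_assoc, hη _ hx _ a _ b hy.1 h hz.1,
      hη _ hx _ b _ a hz.1 (G.symm _ _ h) hy.1]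
    exact ⟨rfl, rfl⟩
  · exact fun b hb => ⟨(b, if b ∈ U then x.2 + η x.1 b else 0), (cova_nb hη hx).2 ⟨hb, rfl⟩, rfl⟩
  · by_cases hx : x.1 ∈ U
    · simp only [cvT, if_pos hx]
      exact Prod.ext rfl (cova_two x.2 1)
    · simp only [cvT, if_neg hx]
  · rintro x y (rfl | ⟨h1, h2, h3, h4⟩)
    · exact Or.inl rfl
    refine Or.inr ?_
    rw [cova_fst, cova_fst]
    refine ⟨h1, fun a => ?_, fun a => ?_, fun a b => ?_⟩
    · rw [cvT, if_neg a, h2 a]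
    · rw [cvT, if_neg a, h3 a]
    · simp only [cvT, if_pos a, if_pos b]
      exact ⟨by rw [add_right_comm, ← (h4 a b).1], by rw [add_right_comm, ← (h4 a b).2]⟩
  · have h : ∀ a b : ZMod 2, a = b ∨ a = b + 1 := by decide
    rw [cvT, if_pos (show x.1 ∈ U from hx)]
    exact (h y.2 x.2).imp (Prod.ext e) (Prod.ext e)
  · have h : ∀ a : ZMod 2, a + 1 ≠ a := by decide
    rw [cvT, if_pos (show x.1 ∈ U from hx)] at e
    exact h _ (congrArg Prod.snd e)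

def meas {W : Type} [Fintype W] (G : Cx V) (f : W → V) : ℕ :=
  (Fintype.card W - (Set.range f).ncard) * (Fintype.card W ^ 2 + 1) +
    {e : V × V | e.1 ∈ Set.range f ∧ e.2 ∈ Set.range f ∧ G.r e.1 e.2}.ncard

theorem cova_range {W : Type} [Fintype W] (f : W → V) : (Set.range f).ncard ≤ Fintype.card W := by
  rw [← Set.image_univ, ← Nat.card_eq_fintype_card, ← Set.ncard_univ]
  exact Set.ncard_image_le Set.finite_univ

theorem cova_edge {W : Type} [Fintype W] (G : Cx V) (f : W → V) :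
    {e : V × V | e.1 ∈ Set.range f ∧ e.2 ∈ Set.range f ∧ G.r e.1 e.2}.Finite ∧
      {e : V × V | e.1 ∈ Set.range f ∧ e.2 ∈ Set.range f ∧ G.r e.1 e.2}.ncard ≤
        Fintype.card W ^ 2 := by
  have h : {e : V × V | e.1 ∈ Set.range f ∧ e.2 ∈ Set.range f ∧ G.r e.1 e.2} ⊆
      Set.range fun w : W × W => (f w.1, f w.2) := by
    rintro ⟨_, _⟩ ⟨⟨w, rfl⟩, ⟨w', rfl⟩, -⟩
    exact ⟨(w, w'), rfl⟩
  refine ⟨(Set.finite_range _).subset h,
    (Set.ncard_le_ncard h (Set.finite_range _)).trans ((cova_range _).trans ?_)⟩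
  rw [Fintype.card_prod, sq]

theorem cov_lift {W : Type} [Fintype W] {P : Cx W} (h1 : H1 P Set.univ) {G : Cx V} {f : W → V}
    (hf : ∀ w w', P.r w w' → G.r (f w) (f w')) {η : V → V → ZMod 2}
    (hη : Coc G (Set.range f) η) (hn : ¬ Cob G (Set.range f) η) :
    ∃ f' : W → V × ZMod 2, (∀ w, (f' w).1 = f w) ∧
      (∀ w w', P.r w w' → (cvG G (Set.range f) η).r (f' w) (f' w')) ∧
      meas (cvG G (Set.range f) η) f' < meas G f := by
  obtain ⟨g, hg⟩ := h1 (fun w w' => η (f w) (f w')) fun a _ b _ c _ h1 h2 h3 =>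
    hη _ ⟨a, rfl⟩ _ ⟨b, rfl⟩ _ ⟨c, rfl⟩ (hf _ _ h1) (hf _ _ h2) (hf _ _ h3)
  refine ⟨fun w => (f w, g w), fun _ => rfl, fun w w' h => (cova_nb hη ⟨w, rfl⟩).2
    ⟨hf _ _ h, ?_⟩, ?_⟩
  · have e : η (f w) (f w') = g w + g w' := hg w trivial w' trivial h
    simp only
    rw [if_pos ⟨w', rfl⟩, e, add_comm (g w) (g w'), add_comm, cova_two]
  have hr : Prod.fst '' Set.range (fun w => (f w, g w)) = Set.range f := by
    rw [← Set.range_comp]
    rfl
  have hfin := Set.finite_range fun w => (f w, g w)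
  have h2 : (Set.range f).ncard ≤ (Set.range fun w => (f w, g w)).ncard :=
    hr ▸ Set.ncard_image_le hfin
  have h3 := cova_range fun w => (f w, g w)
  unfold meas
  rcases h2.lt_or_eq with h4 | h4
  · have h5 := (cova_edge (cvG G (Set.range f) η) fun w => (f w, g w)).2
    have h6 : Fintype.card W - (Set.range fun w => (f w, g w)).ncard + 1 ≤
      Fintype.card W - (Set.range f).ncard := by omega
    have h7 := Nat.mul_le_mul_right (Fintype.card W ^ 2 + 1) h6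
    rw [add_mul] at h7
    omega
  rw [← h4]
  refine Nat.add_lt_add_left ?_ _
  have hi : Set.InjOn Prod.fst (Set.range fun w => (f w, g w)) :=
    Set.injOn_of_ncard_image_eq (by rw [hr, h4]) hfin
  rw [← Set.InjOn.ncard_image (f := fun e : (V × ZMod 2) × V × ZMod 2 => (e.1.1, e.2.1))
    fun e he e' he' h => Prod.ext (hi he.1 he'.1 (Prod.ext_iff.1 h).1)
      (hi he.2.1 he'.2.1 (Prod.ext_iff.1 h).2)]
  refine Set.ncard_lt_ncard ⟨?_, fun hsub => hn ?_⟩ (cova_edge G f).1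
  · rintro _ ⟨⟨_, _⟩, ⟨⟨w, rfl⟩, ⟨w', rfl⟩, h⟩, rfl⟩
    exact ⟨⟨w, rfl⟩, ⟨w', rfl⟩, cova_map h⟩
  · have hk : ∀ w, (if h : f w ∈ Set.range f then g h.choose else 0) = g w := fun w => by
      have hw : f w ∈ Set.range f := ⟨w, rfl⟩
      rw [dif_pos hw]
      exact congrArg Prod.snd (hi ⟨hw.choose, rfl⟩ ⟨w, rfl⟩ hw.choose_spec)
    refine ⟨fun a => if h : a ∈ Set.range f then g h.choose else 0, fun a ha b hb hab => ?_⟩
    obtain ⟨⟨_, _⟩, ⟨⟨w, rfl⟩, ⟨w', rfl⟩, h⟩, e⟩ := hsub (show (a, b) ∈ _ from ⟨ha, hb, hab⟩)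
    obtain ⟨rfl, rfl⟩ := Prod.ext_iff.1 e
    have h5 := ((cova_nb hη ⟨w, rfl⟩).1 h).2
    simp only at h5 ⊢
    rw [if_pos ⟨w', rfl⟩] at h5
    rw [hk, hk, h5, add_comm, add_comm (g w), cova_two]

/-- The image of a simplex. -/
def fmap {G' : Cx V'} {G : Cx V} (f : V' → V) (hf : ∀ x y, G'.r x y → G.r (f x) (f y)) (s : Fc G') :
    Fc G :=
  ⟨s.1.image f, s.2.1.image f, fun a ha b hb => by
    obtain ⟨x, hx, rfl⟩ := Finset.mem_image.1 ha
    obtain ⟨y, hy, rfl⟩ := Finset.mem_image.1 hb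
    exact hf _ _ (s.2.2 x hx y hy)⟩

variable {G' : Cx V'} {G : Cx V} {U' : Set V'} {U : Set V} {p : V' → V} {τ : V' → V'}

theorem Cov.tmem (h : Cov G' G U' U p τ) (x : V') : τ x ∈ U' ↔ x ∈ U' := by
  rw [← h.mem, ← h.mem, h.ptau]

theorem Cov.tr (h : Cov G' G U' U p τ) {a b z : V'} (ht : Tr G' U' a b z) :
    Tr G U (p a) (p b) (p z) ∧ Tr G' U' (τ a) (τ b) (τ z) := by
  obtain ⟨h1, h2, h3, h4, h5, h6⟩ := ht
  exact ⟨⟨(h.mem a).2 h1, (h.mem b).2 h2, fun e => h3 ((h.mem z).1 e), h.map _ _ h4, h.map _ _ h5,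
    h.map _ _ h6⟩, (h.tmem a).2 h1, (h.tmem b).2 h2, fun e => h3 ((h.tmem z).1 e), h.tmap _ _ h4,
    h.tmap _ _ h5, h.tmap _ _ h6⟩

theorem Cov.injOn (h : Cov G' G U' U p τ) {s : Finset V'} (hs : Clq G' s) (hU : Meets s U') :
    Set.InjOn p s := by
  obtain ⟨x, hx, hx'⟩ := hU
  exact fun a ha b hb e => (h.star x hx').inj a b (hs.2 x hx a ha) (hs.2 x hx b hb) e

theorem Cov.lift_clq (h : Cov G' G U' U p τ) (s : Fc G) {x : V'} (hx : x ∈ U') (hs : p x ∈ s.1) :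
    ∃ s' : Fc G', x ∈ s'.1 ∧ fmap p h.map s' = s := by
  have hst := h.star x hx
  have hex : ∀ b, ∃ y, b ∈ s.1 → G'.r x y ∧ p y = b := fun b => by
    by_cases hb : b ∈ s.1
    · obtain ⟨y, hy⟩ := hst.sur b (s.2.2 _ hs b hb)
      exact ⟨y, fun _ => hy⟩
    · exact ⟨x, fun h => absurd h hb⟩
  choose g hg using hex
  refine ⟨⟨s.1.image g, s.2.1.image g, fun a ha b hb => ?_⟩, Finset.mem_image.2 ⟨p x, hs, ?_⟩,
    Subtype.ext ?_⟩
  · obtain ⟨a', ha', rfl⟩ := Finset.mem_image.1 ha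
    obtain ⟨b', hb', rfl⟩ := Finset.mem_image.1 hb
    rw [hst.adj _ _ (hg a' ha').1 (hg b' hb').1, (hg a' ha').2, (hg b' hb').2]
    exact s.2.2 a' ha' b' hb'
  · exact hst.inj _ _ (hg _ hs).1 (G'.refl x) (hg _ hs).2
  · change (s.1.image g).image p = s.1
    rw [Finset.image_image]
    exact (Finset.image_congr (g := id) fun b hb => (hg b hb).2).trans Finset.image_id

theorem cova_mono {f : V' → V} (hf : ∀ x y, G'.r x y → G.r (f x) (f y)) {s t : Fc G'} (h : s ≤ t) :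
    fmap f hf s ≤ fmap f hf t := Finset.image_subset_image h

theorem cova_mem {f : V' → V} (hf : ∀ x y, G'.r x y → G.r (f x) (f y)) {s : Fc G'} {b : V} :
    b ∈ (fmap f hf s).1 ↔ ∃ a ∈ s.1, f a = b := Finset.mem_image

theorem cova_le (h : Cov G' G U' U p τ) {x : V'} (hx : x ∈ U') {s t : Fc G'}
    (hs : ∀ a ∈ s.1, G'.r x a) (ht : ∀ a ∈ t.1, G'.r x a)
    (hst : fmap p h.map s ≤ fmap p h.map t) : s ≤ t := fun a ha => by
  obtain ⟨b, hb, e⟩ := (cova_mem h.map).1 (hst ((cova_mem h.map).2 ⟨a, ha, rfl⟩))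
  exact (h.star x hx).inj b a (ht b hb) (hs a ha) e ▸ hb

theorem cova_eq (h : Cov G' G U' U p τ) {x : V'} (hx : x ∈ U') {s t : Fc G'}
    (hs : ∀ a ∈ s.1, G'.r x a) (ht : ∀ a ∈ t.1, G'.r x a)
    (hst : fmap p h.map s = fmap p h.map t) : s = t :=
  le_antisymm (cova_le h hx hs ht hst.le) (cova_le h hx ht hs hst.ge)

theorem cova_near {x : V'} {s t : Fc G'} (hx : x ∈ s.1) (h : (sd G').r s t) :
    ∀ a ∈ t.1, G'.r x a := fun a ha =>
  h.elim (fun h => t.2.2 x (h hx) a ha) fun h => s.2.2 x hx a (h ha)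

theorem Cov.sd (h : Cov G' G U' U p τ) :
    Cov (sd G') (sd G) (up G' U') (up G U) (fmap p h.map) (fmap τ h.tmap) := by
  have hp : ∀ s : Fc G', fmap p h.map (fmap τ h.tmap s) = fmap p h.map s := fun s => by
    refine Subtype.ext ?_
    change (s.1.image τ).image p = s.1.image p
    rw [Finset.image_image]
    exact Finset.image_congr fun a _ => h.ptau a
  refine ⟨fun s => ⟨?_, ?_⟩, fun s t => Or.imp (cova_mono _) (cova_mono _), ?_, ?_, fun s => ?_,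
    fun s t => Or.imp (cova_mono _) (cova_mono _), hp, ?_, ?_⟩
  · rintro ⟨b, hb, hU⟩
    obtain ⟨a, ha, rfl⟩ := (cova_mem h.map).1 hb
    exact ⟨a, ha, (h.mem a).1 hU⟩
  · rintro ⟨a, ha, hU⟩
    exact ⟨p a, (cova_mem h.map).2 ⟨a, ha, rfl⟩, (h.mem a).2 hU⟩
  · rintro u ⟨a, ha, hU⟩
    obtain ⟨x, rfl⟩ := h.sur a hU
    obtain ⟨s, -, e⟩ := h.lift_clq u ((h.mem x).1 hU) ha
    exact ⟨s, e⟩
  · rintro s ⟨x, hx, hU⟩
    refine ⟨fun y z hy hz => cova_eq h hU (cova_near hx hy) (cova_near hx hz),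
      fun y z hy hz => ⟨Or.imp (cova_mono _) (cova_mono _),
        Or.imp (cova_le h hU (cova_near hx hy) (cova_near hx hz))
          (cova_le h hU (cova_near hx hz) (cova_near hx hy))⟩, ?_⟩
    rintro b (hb | hb)
    · obtain ⟨t, h1, rfl⟩ := h.lift_clq b hU (hb ((cova_mem h.map).2 ⟨x, hx, rfl⟩))
      exact ⟨t, Or.inl (cova_le h hU (s.2.2 x hx) (t.2.2 x h1) hb), rfl⟩
    · have h1 : ∀ c ∈ b.1, ∃ a ∈ s.1.filter (fun a => p a ∈ b.1), p a = c := fun c hc => by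
        obtain ⟨a, ha, rfl⟩ := (cova_mem h.map).1 (hb hc)
        exact ⟨a, Finset.mem_filter.2 ⟨ha, hc⟩, rfl⟩
      obtain ⟨c, hc⟩ := b.2.1
      obtain ⟨a, ha, -⟩ := h1 c hc
      refine ⟨⟨s.1.filter fun a => p a ∈ b.1, s.2.sub (Finset.filter_subset _ _) ⟨a, ha⟩⟩,
        Or.inr (Finset.filter_subset _ _), Subtype.ext (Finset.ext fun c => ?_)⟩
      rw [cova_mem]
      exact ⟨fun ⟨a, ha, e⟩ => e ▸ (Finset.mem_filter.1 ha).2, h1 c⟩
  · refine Subtype.ext ?_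
    change (s.1.image τ).image τ = s.1
    rw [Finset.image_image]
    exact (Finset.image_congr (g := id) fun a _ => h.inv a).trans Finset.image_id
  · rintro s ⟨x, hx, hU⟩ t e
    obtain ⟨y, hy, e'⟩ := (cova_mem h.map).1 (e.ge ((cova_mem h.map).2 ⟨x, hx, rfl⟩))
    rcases h.fib x hU y e' with rfl | rfl
    · exact Or.inl (cova_eq h hU (t.2.2 _ hy) (s.2.2 _ hx) e)
    · exact Or.inr (cova_eq h ((h.tmem x).2 hU) (t.2.2 _ hy)
        ((fmap τ h.tmap s).2.2 _ ((cova_mem h.tmap).2 ⟨x, hx, rfl⟩)) (e.trans (hp s).symm))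
  · rintro s ⟨x, hx, hU⟩ e
    have h1 : τ x ∈ s.1 := e.le ((cova_mem h.tmap).2 ⟨x, hx, rfl⟩)
    exact h.free x hU ((h.star x hU).inj _ _ (s.2.2 x hx _ h1) (G'.refl x) (h.ptau x))

theorem Cov.man [Fintype V] [Fintype V'] (h : Cov G' G U' U p τ) (hm : Man G U) : Man G' U' := by
  exact man_pull (fun x hx => ⟨(h.mem x).2 hx, h.star x hx⟩) hm

end KG
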