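import Pool.Agent.Work.MP_c146e2_gt.KG.CovA
import Pool.Agent.Work.MP_c146e2_gt.KG.Pull

set_option autoImplicit false

noncomputable section

open scoped Classical

namespace KG

variable {V V' : Type}

def liftC {W : Type} (p : V' → V) (f' : W → V') (s : V → W) (c : V → V → V → ZMod 2) (x y z : V') :
    ZMod 2 := if f' (s (p x)) = x then c (p x) (p y) (p z) else 0

variable {G' : Cx V'} {G : Cx V} {U' : Set V'} {U : Set V} {p : V' → V} {τ : V' → V'}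
  {c' : V' → V' → V' → ZMod 2} {c : V → V → V → ZMod 2}

theorem covl_tr {s : Fc G} {a b z : V} (ha : a ∈ s.1) (hb : b ∈ s.1) (hz : z ∈ s.1) (h1 : a ∈ U)
    (h2 : b ∈ U) (h3 : z ∉ U) : Tr G U a b z :=
  ⟨h1, h2, h3, s.2.2 a ha b hb, s.2.2 a ha z hz, s.2.2 b hb z hz⟩

theorem covl_mem {f : V' → V} (hf : ∀ x y, G'.r x y → G.r (f x) (f y)) {s : Fc G'} {a : V} :
    a ∈ (fmap f hf s).1 ↔ ∃ x ∈ s.1, f x = a := Finset.mem_image

theorem covl_up {s s' : Fc G} (hs : s ∈ ActC G U c) (h : s ≤ s') : s' ∈ ActC G U c := by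
  obtain ⟨a, ha, b, hb, z, hz, h'⟩ := hs
  exact ⟨a, h ha, b, h hb, z, h hz, h'⟩

theorem covl_meets {s : Fc G} (hs : s ∈ ActC G U c) : s ∈ up G U := by
  obtain ⟨a, ha, b, hb, z, hz, h', -⟩ := hs
  exact ⟨a, ha, h'⟩

theorem lift_spec (h : Cov G' G U' U p τ) (hc : Curve G U c) {W : Type} {P : Cx W} {f : W → V}
    {s : V → W} (hf : Fill P G U c f s) {f' : W → V'} (h1 : ∀ w, p (f' w) = f w)
    (h2 : ∀ w w', P.r w w' → G'.r (f' w) (f' w')) :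
    Curve G' U' (liftC p f' s c) ∧ Lift G' U' p τ (liftC p f' s c) c ∧
      Fill P G' U' (liftC p f' s c) f' fun x => s (p x) := by
  have hA : ∀ x y z, Tr G' U' x y z → c (p x) (p y) (p z) ≠ 0 →
      (f' (s (p x)) = x ↔ f' (s (p y)) = y) ∧ p (f' (s (p x))) = p x := by
    intro x y z ht h0
    obtain ⟨e1, e2, e3⟩ := hf.sec _ _ _ (h.tr ht).1 h0
    have e4 := h2 _ _ e3
    refine ⟨⟨fun k => ?_, fun k => ?_⟩, (h1 _).trans e1⟩
    · rw [k] at e4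
      exact (h.star x ht.1).inj _ _ e4 ht.2.2.2.1 ((h1 _).trans e2)
    · rw [k] at e4
      exact (h.star y ht.2.1).inj _ _ (G'.symm _ _ e4) (G'.symm _ _ ht.2.2.2.1) ((h1 _).trans e1)
  have hne : ∀ x y z, liftC p f' s c x y z ≠ 0 ↔ f' (s (p x)) = x ∧ c (p x) (p y) (p z) ≠ 0 := by
    intro x y z
    unfold liftC
    split_ifs with k <;> simp [k]
  have hfree : ∀ x ∈ U', f' (s (p x)) = x → f' (s (p (τ x))) ≠ τ x := fun x hx k k' => by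
    rw [h.ptau, k] at k'
    exact h.free x hx k'.symm
  have hB : ∀ d ∈ ActC G' U' (liftC p f' s c), fmap p h.map d ∈ ActC G U c ∧
      ∀ x ∈ d.1, x ∈ U' → f' (s (p x)) = x := by
    rintro d ⟨a, ha, b, hb, z, hz, k1, k2, k3, k4⟩
    obtain ⟨k5, k6⟩ := (hne _ _ _).1 k4
    refine ⟨⟨p a, (covl_mem _).2 ⟨a, ha, rfl⟩, p b, (covl_mem _).2 ⟨b, hb, rfl⟩, p z,
      (covl_mem _).2 ⟨z, hz, rfl⟩, (h.mem _).2 k1, (h.mem _).2 k2, fun k => k3 ((h.mem _).1 k), k6⟩,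
      fun x hx hU => ?_⟩
    have t1 := covl_tr ha hx hz k1 hU k3
    have t2 := covl_tr hx hb hz hU k2 k3
    have e := hc.coc _ _ _ _ (h.tr t1).1 (h.tr t2).1 (h.map _ _ (d.2.2 a ha b hb))
    by_cases k : c (p a) (p x) (p z) = 0
    · rw [k, zero_add] at e
      exact (hA _ _ _ t2 (e ▸ k6)).1.2 ((hA _ _ _ (covl_tr ha hb hz k1 k2 k3) k6).1.1 k5)
    · exact (hA _ _ _ t1 k).1.1 k5
  have hC : ∀ d : Fc G', fmap p h.map d ∈ ActC G U c →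
      (∀ x ∈ d.1, x ∈ U' → f' (s (p x)) = x) → d ∈ ActC G' U' (liftC p f' s c) := by
    rintro d ⟨a, ha, b, hb, z, hz, k1, k2, k3, k4⟩ hg
    obtain ⟨x, hx, rfl⟩ := (covl_mem _).1 ha
    obtain ⟨y, hy, rfl⟩ := (covl_mem _).1 hb
    obtain ⟨w, hw, rfl⟩ := (covl_mem _).1 hz
    exact ⟨x, hx, y, hy, w, hw, (h.mem _).1 k1, (h.mem _).1 k2, fun k => k3 ((h.mem _).2 k),
      (hne _ _ _).2 ⟨hg x hx ((h.mem _).1 k1), k4⟩⟩
  have hD : ∀ d ∈ ActC G' U' (liftC p f' s c), ∀ d' ∈ ActC G' U' (liftC p f' s c),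
      fmap p h.map d' = fmap p h.map d → d' = d := by
    intro d hd d' hd' e
    refine (h.sd.fib d (covl_meets hd) d' e).resolve_right fun k => ?_
    obtain ⟨x, hx, hU⟩ := covl_meets hd
    exact hfree x hU ((hB d hd).2 x hx hU)
      ((hB d' hd').2 _ (k ▸ (covl_mem _).2 ⟨x, hx, rfl⟩) ((h.tmem x).2 hU))
  refine ⟨⟨fun a b d z t1 t2 r => ?_, fun a b z z' t1 t2 r => ?_, ?_, fun d hd d' hd' => ?_⟩,
    ⟨fun a b z t => ?_, fun a b z b' z' t k _ => ?_⟩,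
    ⟨hf.h1, fun w => (h.mem _).1 (h1 w ▸ hf.mem w), h2, fun a b z t k => ?_⟩⟩
  · have t3 : Tr G' U' a d z := ⟨t1.1, t2.2.1, t1.2.2.1, r, t1.2.2.2.2.1, t2.2.2.2.2.2⟩
    have e := hc.coc _ _ _ _ (h.tr t1).1 (h.tr t2).1 (h.map _ _ r)
    unfold liftC
    by_cases k : c (p a) (p b) (p z) = 0
    · rw [k, zero_add] at e
      by_cases k' : c (p a) (p d) (p z) = 0
      · simp [k, e, k']
      · simp [k, e, (hA _ _ _ t3 k').1, (hA _ _ _ t2 (e ▸ k')).1]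
    · rw [← (hA _ _ _ t1 k).1, ← e]
      split_ifs
      · rfl
      · exact add_zero _
  · unfold liftC
    rw [hc.side _ _ _ _ (h.tr t1).1 (h.tr t2).1 (h.map _ _ r)]
  · obtain ⟨d, a, ha, b, hb, z, hz, k1, k2, k3, k4⟩ := hc.ne
    have e : p (f' (s a)) = a := (h1 _).trans (hf.sec _ _ _ (covl_tr ha hb hz k1 k2 k3) k4).1
    obtain ⟨d', hx, rfl⟩ := h.lift_clq d (x := f' (s a)) ((h.mem _).1 (e.symm ▸ k1)) (e.symm ▸ ha)
    obtain ⟨y, hy, rfl⟩ := (covl_mem _).1 hb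
    obtain ⟨w, hw, rfl⟩ := (covl_mem _).1 hz
    exact ⟨d', _, hx, y, hy, w, hw, (h.mem _).1 (e.symm ▸ k1), (h.mem _).1 k2,
      fun k => k3 ((h.mem _).2 k), (hne _ _ _).2 ⟨by rw [e], by rwa [e]⟩⟩
  · have key : ∀ e, Rch (sd G) (ActC G U c) (fmap p h.map d) e →
        ∀ e' ∈ ActC G' U' (liftC p f' s c), fmap p h.map e' = e →
          Rch (sd G') (ActC G' U' (liftC p f' s c)) d e' := by
      intro e he
      induction he with
      | refl => exact fun e' he' k => hD d hd e' he' k ▸ Relation.ReflTransGen.refl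
      | @tail b e _ k ih =>
        rintro e' he' rfl
        obtain ⟨b', k1, rfl⟩ := (h.sd.star e' (covl_meets he')).sur b ((sd G).symm _ _ k.2.2)
        have k2 : b' ∈ ActC G' U' (liftC p f' s c) := k1.elim (covl_up he') fun k3 =>
          hC b' k.1 fun x hx => (hB e' he').2 x (k3 hx)
        exact (ih b' k2 rfl).tail ⟨k2, he', (sd G').symm _ _ k1⟩
    exact key _ (hc.conn _ (hB d hd).1 _ (hB d' hd').1) d' hd' rfl
  · unfold liftC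
    rw [h.ptau, h.ptau, h.ptau]
    by_cases k : c (p a) (p b) (p z) = 0
    · simp [k]
    · rcases h.fib a t.1 _ (hA _ _ _ t k).2 with e | e
      · rw [if_pos e, if_neg (e.symm ▸ (h.free a t.1).symm), add_zero]
      · rw [if_pos e, if_neg (e.symm ▸ h.free a t.1), zero_add]
  · exact if_neg (hfree a t.1 ((hne _ _ _).1 k).1)
  · obtain ⟨k1, k2⟩ := (hne _ _ _).1 k
    exact ⟨k1, (hA _ _ _ t k2).1.1 k1, (hf.sec _ _ _ (h.tr t).1 k2).2.2⟩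

theorem Lift.not_both (hl : Lift G' U' p τ c' c) (h : Cov G' G U' U p τ) (hc' : Curve G' U' c')
    {s : Fc G'} (hs : s ∈ ActC G' U' c') : fmap τ h.tmap s ∉ ActC G' U' c' := by
  intro ht
  obtain ⟨a, ha, b, hb, z, hz, k1, k2, k3, k4⟩ := hs
  have m1 : τ a ∈ (fmap τ h.tmap s).1 := (covl_mem _).2 ⟨a, ha, rfl⟩
  have m2 : τ z ∈ (fmap τ h.tmap s).1 := (covl_mem _).2 ⟨z, hz, rfl⟩
  have m3 : τ z ∉ U' := fun k => k3 ((h.tmem z).1 k)
  obtain ⟨y, hy, k5, k6⟩ := hc'.ends ht m1 ((h.tmem a).2 k1) m2 m3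
  exact k6 (hl.disj a b z y _ (covl_tr ha hb hz k1 k2 k3) k4
    (covl_tr m1 hy m2 ((h.tmem a).2 k1) k5 m3))

theorem sel_desc (h : Cov G' G U' U p τ) (hc' : Curve G' U' c') (hc : Curve G U c)
    (hl : Lift G' U' p τ c' c) {m' : Fc G' → V'} (hm : Sel G' U' m') : ∃ m, Sel G U m ∧
      Lift (sd G') (up G' U') (fmap p h.map) (fmap τ h.tmap) (pull m' c') (pull m c) := by
  have h0 : ∀ s : Fc G, ∃ a, (a ∈ s.1 ∧ (Meets s.1 U → a ∈ U)) ∧
      ∀ s' ∈ ActC G' U' c', fmap p h.map s' = s → a = p (m' s') := by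
    intro s
    by_cases k : ∃ s' ∈ ActC G' U' c', fmap p h.map s' = s
    · obtain ⟨s', k1, rfl⟩ := k
      refine ⟨p (m' s'), ⟨(covl_mem _).2 ⟨_, (hm s').1, rfl⟩, fun _ =>
        (h.mem _).2 ((hm s').2 (covl_meets k1))⟩, fun t ht e => ?_⟩
      rcases h.sd.fib s' (covl_meets k1) t e with rfl | rfl
      · rfl
      · exact absurd ht (hl.not_both h hc' k1)
    · by_cases k' : Meets s.1 U
      · obtain ⟨a, ha, hU⟩ := k'
        exact ⟨a, ⟨ha, fun _ => hU⟩, fun t ht e => absurd ⟨t, ht, e⟩ k⟩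
      · obtain ⟨a, ha⟩ := s.2.1
        exact ⟨a, ⟨ha, fun k2 => absurd k2 k'⟩, fun t ht e => absurd ⟨t, ht, e⟩ k⟩
  choose m hS hE using h0
  have hU : ∀ t ∈ up G' U', ∀ a, p a = m (fmap p h.map t) → a ∈ U' := fun t ht a e =>
    (h.mem a).1 (e ▸ (hS _).2 ((h.sd.mem t).2 ht))
  have hZ : ∀ t ∈ up G' U', ∀ a ∈ t.1, ∀ w ∈ t.1, w ∉ U' → p a = m (fmap p h.map t) →
      c' a (m' t) w = 0 := by
    intro t ht a ha w hw hw' e
    by_cases k : t ∈ ActC G' U' c'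
    · rw [← h.injOn t.2 ht ha (hm t).1 (e.trans (hE _ t k rfl))]
      exact hc'.self (hU t ht a e) hw' (t.2.2 a ha w hw)
    · by_contra k'
      exact k ⟨a, ha, _, (hm t).1, w, hw, hU t ht a e, (hm t).2 ht, hw', k'⟩
  have hbig : ∀ s s' z, Tr (sd G') (up G' U') s s' z → ∃ d, s ≤ d ∧ s' ≤ d := fun s s' z t =>
    t.2.2.2.1.elim (fun k => ⟨s', k, le_rfl⟩) fun k => ⟨s, le_rfl, k⟩
  have hK : ∀ s s' z, Tr (sd G') (up G' U') s s' z → ∀ a ∈ s.1, ∀ b ∈ s'.1, ∀ w ∈ z.1,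
      p a = m (fmap p h.map s) → p b = m (fmap p h.map s') →
      Tr G' U' a b w ∧ c' a b w = pull m' c' s s' z := by
    intro s s' z t a ha b hb w hw e1 e2
    obtain ⟨t0, l1, l2⟩ := hm.tr t
    obtain ⟨d, d1, d2⟩ := hbig s s' z t
    have w0 : w ∉ U' := fun k => t.2.2.1 ⟨w, hw, k⟩
    have wd := d1 (l1 hw)
    have a0 := hU s t.1 a e1
    have b0 := hU s' t.2.1 b e2
    have t1 := covl_tr (d1 ha) (d1 (hm s).1) wd a0 t0.1 w0
    have t2 := covl_tr (d1 (hm s).1) (d2 (hm s').1) wd t0.1 t0.2.1 w0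
    have t3 := covl_tr (d2 hb) (d2 (hm s').1) wd b0 t0.2.1 w0
    have t4 := covl_tr (d1 ha) (d2 hb) wd a0 b0 w0
    have q1 := hc'.coc _ _ _ _ t1 t2 (d.2.2 _ (d1 ha) _ (d2 (hm s').1))
    have q2 := hc'.coc _ _ _ _ t4 t3 (d.2.2 _ (d1 ha) _ (d2 (hm s').1))
    rw [hZ s t.1 a ha w (l1 hw) w0 e1, zero_add] at q1
    rw [hZ s' t.2.1 b hb w (l2 hw) w0 e2, add_zero] at q2
    exact ⟨t4, q2.trans (q1.symm.trans (hc'.side _ _ _ _ t2 t0 (z.2.2 _ hw _ (hm z).1)))⟩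
  refine ⟨m, hS, fun s s' z t => ?_, fun s s' z b' z' t k t' => ?_⟩
  · obtain ⟨a, ha, e1⟩ := (covl_mem h.map).1 (hS (fmap p h.map s)).1
    obtain ⟨b, hb, e2⟩ := (covl_mem h.map).1 (hS (fmap p h.map s')).1
    obtain ⟨w, hw, e3⟩ := (covl_mem h.map).1 (hS (fmap p h.map z)).1
    obtain ⟨t1, q1⟩ := hK s s' z t a ha b hb w hw e1 e2
    obtain ⟨-, q2⟩ := hK _ _ _ (h.sd.tr t).2 (τ a) ((covl_mem _).2 ⟨a, ha, rfl⟩) (τ b)
      ((covl_mem _).2 ⟨b, hb, rfl⟩) (τ w) ((covl_mem _).2 ⟨w, hw, rfl⟩)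
      (by rw [h.ptau, h.sd.ptau, e1]) (by rw [h.ptau, h.sd.ptau, e2])
    rw [← q1, ← q2, ← hl.sum a b w t1, e1, e2, e3]
    rfl
  · obtain ⟨t0, l1, -⟩ := hm.tr t
    obtain ⟨d, d1, d2⟩ := hbig s s' z t
    have zd := d1 (l1 (hm z).1)
    have hd : d ∈ ActC G' U' c' :=
      ⟨_, d1 (hm s).1, _, d2 (hm s').1, _, zd, t0.1, t0.2.1, t0.2.2.1, k⟩
    have t1 := (hm.tr t').1
    obtain ⟨x, hx, e⟩ := (covl_mem h.tmap).1 (hm (fmap τ h.tmap s)).1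
    have xU : x ∈ U' := (h.tmem x).1 (e ▸ t1.1)
    obtain ⟨y, hy, k1, k2⟩ := hc'.ends hd (d1 hx) xU zd t0.2.2.1
    rw [← e] at t1
    have := hl.disj x y _ _ _ (covl_tr (d1 hx) hy zd xU k1 t0.2.2.1) k2 t1
    rwa [e] at this

end KG
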