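import Pool.Agent.Work.MP_c146e2_gt.KG.ManD
import Pool.Agent.Work.MP_c146e2_gt.KG.Abs
import Pool.Agent.Work.MP_c146e2_gt.KG.CtA
import Pool.Agent.Work.MP_c146e2_gt.KG.Split

set_option autoImplicit false

noncomputable section

open scoped Classical

namespace KG

variable {V V' : Type}

def cutW (G : Cx V) (U D : Set V) : Set (Fc G × Bool) := {x | x ∈ ddV G U ∧ Ins x.1.1 (D ∪ Uᶜ)}

def cutW2 (G : Cx V) (U D : Set V) : Set (Fc G) := {s | Meets s.1 D ∧ Meets s.1 (U \ D)}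

theorem cuta_r {G : Cx V} {L X : Set V} {x y : V × Bool} (hx : x ∈ dbV L X)
    (h : (Db G L X).r x y) : y ∈ dbV L X ∧ G.r x.1 y.1 ∧ (x.1 ∈ L → y.1 ∈ L → x.2 = y.2) := by
  rcases h with rfl | h
  · exact ⟨hx, G.refl _, fun _ _ => rfl⟩
  · exact h.2

theorem cuta_f {L X : Set V} {x : V × Bool} (hx : x ∈ dbV L X) (h : x.1 ∉ L) : x.2 = false :=
  (hx.resolve_left h).2

theorem cuta_xs [Fintype V] {G : Cx V} {U : Set V} (h : Man G U) {W : Set (Fc G)}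
    (hW : W ⊆ Xs G U) (h1 : H1 (sd G) W) :
    tv (DD G U) ((ddV G U)ᶜ ∪ {x | x.1 ∈ W ∧ x.2 = false}) = D2 ^ kc (sd G) W * qq G U := by
  have hv : {x : Fc G × Bool | x.1 ∈ W ∧ x.2 = false} ⊆ ddV G U := fun x hx =>
    Or.inr ⟨hW hx.1, hx.2⟩
  have hb : Set.BijOn Prod.fst {x : Fc G × Bool | x.1 ∈ W ∧ x.2 = false} W :=
    ⟨fun x hx => hx.1, fun x hx y hy e => Prod.ext e (hx.2.trans hy.2.symm),
      fun s hs => ⟨(s, false), ⟨hs, rfl⟩, rfl⟩⟩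
  have hr : ∀ a ∈ {x : Fc G × Bool | x.1 ∈ W ∧ x.2 = false},
      ∀ b ∈ {x : Fc G × Bool | x.1 ∈ W ∧ x.2 = false}, (DD G U).r a b ↔ (sd G).r a.1 b.1 :=
    fun a ha b hb => ⟨fun r => (cuta_r (hv ha) r).2.1,
      fun r => Or.inr ⟨hv ha, hv hb, r, fun _ _ => ha.2.trans hb.2.symm⟩⟩
  rw [abs_roots (Z₀ := (ddV G U)ᶜ) (h.dd.mono hv) (thin_iso hb hr ((surf_xs h.toPMan).thin hW)) ((h1_iso hb hr).2 h1)
    fun a ha b hb => db_sep _ _ _ a ha b (hv hb), kc_iso hb hr]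
  rfl

theorem cuta_half [Fintype V] {G : Cx V} {U : Set V} (h : Man G U) (i : Bool) :
    tv (DD G U) {x | x.1 ∈ dn G U ∧ x.2 = i}ᶜ = tv G Uᶜ := by
  have hv : {x : Fc G × Bool | x.1 ∈ dn G U ∧ x.2 = i} ⊆ ddV G U := fun x hx => Or.inl hx.1
  have hl : LocIso (DD G U) (sd G) {x | x.1 ∈ dn G U ∧ x.2 = i} (dn G U) Prod.fst := by
    refine ⟨⟨fun x hx => hx.1, fun x hx y hy e => Prod.ext e (hx.2.trans hy.2.symm),
      fun s hs => ⟨(s, i), ⟨hs, rfl⟩, rfl⟩⟩, fun u hu x r hx hL =>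
      hx ⟨hL, ((cuta_r (hv hu) r).2.2 hu.1 hL).symm.trans hu.2⟩, fun x hx => ⟨?_, ?_, ?_⟩⟩
    · intro y z ry rz e
      have a := cuta_r (hv hx) ry
      have b := cuta_r (hv hx) rz
      refine Prod.ext e ?_
      by_cases hL : y.1 ∈ dn G U
      · exact (a.2.2 hx.1 hL).symm.trans (b.2.2 hx.1 (e ▸ hL))
      · exact (cuta_f a.1 hL).trans (cuta_f b.1 (e ▸ hL)).symm
    · intro y z ry rz
      have a := cuta_r (hv hx) ry
      have b := cuta_r (hv hx) rz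
      exact ⟨fun r => (cuta_r a.1 r).2.1, fun r => Or.inr ⟨a.1, b.1, r, fun p q =>
        (a.2.2 hx.1 p).symm.trans (b.2.2 hx.1 q)⟩⟩
    · intro b r
      by_cases hL : b ∈ dn G U
      · exact ⟨(b, x.2), Or.inr ⟨hv hx, Or.inl hL, r, fun _ _ => rfl⟩, rfl⟩
      · exact ⟨(b, false), Or.inr ⟨hv hx, Or.inr ⟨((sided_sd h).nb _ hx.1 _ r).resolve_left hL, rfl⟩,
          r, fun _ q => absurd q hL⟩, rfl⟩
  rw [hl.contr.tv (h.dd.mono hv), dn_compl]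
  exact tv_up (by rwa [compl_compl])

theorem cuta_meets {G : Cx V} {U : Set V} {x : Fc G × Bool} (hx : x ∈ ddV G U) :
    Meets x.1.1 U := by
  rcases hx with hx | hx
  · exact x.1.2.1.imp fun a ha => ⟨ha, hx a ha⟩
  · exact hx.1.1

theorem cuta_abs {G : Cx V} {U D : Set V} (hD : D ⊆ U) :
    Absorb (DD G U) ((ddV G U)ᶜ ∪ cutW G U D)
      ((ddV G U)ᶜ ∪ {x | x ∈ ddV G U ∧ Meets x.1.1 D}) := by
  have cq : ∀ s : Fc G, Meets s.1 D → Clq G (s.1.filter (· ∈ D ∪ Uᶜ)) := fun s hs =>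
    s.2.sub (Finset.filter_subset _ _) (hs.imp fun a ha => Finset.mem_filter.2 ⟨ha.1, Or.inl ha.2⟩)
  obtain ⟨ρ, h0, h1⟩ : ∃ ρ : Fc G × Bool → Fc G × Bool, (∀ x ∉ ddV G U, ρ x = x) ∧
      ∀ x ∈ ddV G U, Meets x.1.1 D → (ρ x).1.1 = x.1.1.filter (· ∈ D ∪ Uᶜ) ∧ (ρ x).2 = x.2 := by
    refine ⟨fun x => if h : x ∈ ddV G U ∧ Meets x.1.1 D then (⟨_, cq x.1 h.2⟩, x.2) else x,
      fun x hx => dif_neg fun h => hx h.1, fun x hx hm => ?_⟩
    have e : (if h : x ∈ ddV G U ∧ Meets x.1.1 D then ((⟨_, cq x.1 h.2⟩ : Fc G), x.2) else x) =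
      (⟨_, cq x.1 hm⟩, x.2) := dif_pos ⟨hx, hm⟩
    exact ⟨congrArg (·.1.1) e, congrArg (·.2) e⟩
  have hle : ∀ x ∈ ddV G U, Meets x.1.1 D → (ρ x).1 ≤ x.1 := fun x hx hm =>
    Fc.le_iff.2 (by rw [(h1 x hx hm).1]; exact Finset.filter_subset _ _)
  have hL : ∀ x ∈ ddV G U, Meets x.1.1 D → (ρ x).1 ∈ dn G U → x.1 ∈ dn G U :=
    fun x hx hm h a ha => by_contra fun hU => hU (h a (by
      rw [(h1 x hx hm).1]; exact Finset.mem_filter.2 ⟨ha, Or.inr hU⟩))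
  have hv : ∀ x ∈ ddV G U, Meets x.1.1 D → ρ x ∈ ddV G U := fun x hx hm => by
    by_cases h : (ρ x).1 ∈ dn G U
    · exact Or.inl h
    · refine Or.inr ⟨⟨?_, ?_⟩, ?_⟩
      · rw [(h1 x hx hm).1]
        exact hm.imp fun a ha => ⟨Finset.mem_filter.2 ⟨ha.1, Or.inl ha.2⟩, hD ha.2⟩
      · exact by_contra fun hn => h fun a ha => by_contra fun hU => hn ⟨a, ha, hU⟩
      · rw [(h1 x hx hm).2]
        exact cuta_f hx fun hx' => h (dn_lower G U (hle x hx hm) hx')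
  have key : ∀ x ∈ ddV G U, Meets x.1.1 D → ∀ y ∈ ddV G U, Meets y.1.1 D → x.1 ≤ y.1 →
      (x.1 ∈ dn G U → y.1 ∈ dn G U → x.2 = y.2) →
      (DD G U).r (ρ x) (ρ y) ∧ (DD G U).r y (ρ x) := fun x hx mx y hy my hxy e =>
    ⟨Or.inr ⟨hv x hx mx, hv y hy my, Or.inl (Fc.le_iff.2 (by
      rw [(h1 x hx mx).1, (h1 y hy my).1]
      exact Finset.filter_subset_filter _ hxy)), fun p q => by
        rw [(h1 x hx mx).2, (h1 y hy my).2]
        exact e (hL x hx mx p) (hL y hy my q)⟩,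
    Or.inr ⟨hy, hv x hx mx, Or.inr ((hle x hx mx).trans hxy), fun p q => by
      rw [(h1 x hx mx).2]
      exact (e (hL x hx mx q) p).symm⟩⟩
  refine abs_retr ρ (Set.union_subset_union_right _ fun x hx => ⟨hx.1, ?_⟩) ?_ ?_ ?_
  · obtain ⟨a, ha, hU⟩ := cuta_meets hx.1
    exact ⟨a, ha, (hx.2 a ha).resolve_right fun h => h hU⟩
  · rintro x (hx | hx)
    · rw [h0 x hx]
      exact Or.inl hx
    · refine Or.inr ⟨hv x hx.1 hx.2, ?_⟩
      rw [(h1 x hx.1 hx.2).1]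
      exact fun a ha => (Finset.mem_filter.1 ha).2
  · rintro x (hx | hx)
    · rw [h0 x hx]
      exact (DD G U).refl _
    · exact (key x hx.1 hx.2 x hx.1 hx.2 le_rfl fun _ _ => rfl).2
  · rintro x (hx | hx) y hy r
    · obtain rfl : x = y := r.resolve_right fun h => hx h.1
      rw [h0 x hx]
      exact ⟨r, Or.inl r⟩
    · obtain ⟨vy, c, e⟩ := cuta_r hx.1 r
      have my := (hy.resolve_left fun h => h vy).2
      rcases c with c | c
      · exact (key x hx.1 hx.2 y vy my c e).imp id Or.inr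
      · exact (key y vy my x hx.1 hx.2 c fun p q => (e q p).symm).imp ((DD G U).symm _ _) Or.inl

theorem cuta_loc {G : Cx V} {U D : Set V} :
    LocIso (DD G U) (DD G (U \ D)) {x | x ∈ ddV G U ∧ ¬ Meets x.1.1 D}
      {x | x ∈ ddV G (U \ D) ∧ ¬ Meets x.1.1 D}
      fun x => (x.1, if Meets x.1.1 D then false else x.2) := by
  obtain ⟨f, hf⟩ : ∃ f : Fc G × Bool → Fc G × Bool,
      f = fun x => (x.1, if Meets x.1.1 D then false else x.2) := ⟨_, rfl⟩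
  rw [← hf]
  have f1 : ∀ x, (f x).1 = x.1 := fun x => by rw [hf]
  have f0 : ∀ x, ¬ Meets x.1.1 D → f x = x := fun x hx => by
    rw [hf]
    exact Prod.ext rfl (if_neg hx)
  have f2 : ∀ x, Meets x.1.1 D → (f x).2 = false := fun x hx => by
    rw [hf]
    exact if_pos hx
  have hdn : ∀ s : Fc G, s ∈ dn G (U \ D) ↔ s ∈ dn G U ∧ ¬ Meets s.1 D := fun s =>
    ⟨fun h => ⟨fun a ha => (h a ha).1, fun ⟨a, ha, hD⟩ => (h a ha).2 hD⟩,
      fun h a ha => ⟨h.1 a ha, fun hD => h.2 ⟨a, ha, hD⟩⟩⟩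
  have hv : ∀ x : Fc G × Bool, ¬ Meets x.1.1 D → (x ∈ ddV G (U \ D) ↔ x ∈ ddV G U) := fun x hx =>
    or_congr ((hdn _).trans (and_iff_left hx)) (and_congr_left' (and_congr
      ⟨fun h => h.imp fun a ha => ⟨ha.1, ha.2.1⟩,
        fun h => h.imp fun a ha => ⟨ha.1, ha.2, fun hD => hx ⟨a, ha.1, hD⟩⟩⟩
      ⟨fun h => h.imp fun a ha => ⟨ha.1, fun hU => ha.2 ⟨hU, fun hD => hx ⟨a, ha.1, hD⟩⟩⟩,
        fun h => h.imp fun a ha => ⟨ha.1, fun hU => ha.2 hU.1⟩⟩))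
  have hle : ∀ s t : Fc G, ¬ Meets s.1 D → Meets t.1 D → (sd G).r s t → s ≤ t :=
    fun s t hs ht r => r.resolve_right fun h => hs (ht.imp fun a ha => ⟨h ha.1, ha.2⟩)
  refine ⟨⟨fun x hx => ?_, fun x hx y hy e => ?_, fun x hx => ⟨x, ⟨(hv x hx.2).1 hx.1, hx.2⟩,
    f0 x hx.2⟩⟩, fun u hu x r hx h => ?_, fun x hx => ?_⟩
  · rw [f0 x hx.2]
    exact ⟨(hv x hx.2).2 hx.1, hx.2⟩
  · rwa [f0 x hx.2, f0 y hy.2] at e
  · exact hx ⟨(cuta_r hu.1 r).1, f1 x ▸ h.2⟩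
  have same : ∀ y z, (DD G U).r x y → (DD G U).r x z → Meets y.1.1 D → y.1 ∈ dn G U →
      z.1 ∈ dn G U → y.2 = z.2 := fun y z ry rz my p q => by
    have a := cuta_r hx.1 ry
    have hL := dn_lower G U (hle _ _ hx.2 my a.2.1) p
    exact (a.2.2 hL p).symm.trans ((cuta_r hx.1 rz).2.2 hL q)
  have inj : ∀ y z, (DD G U).r x y → (DD G U).r x z → f y = f z → y = z := fun y z ry rz e => by
    have e1 : y.1 = z.1 := by rw [← f1 y, e, f1]
    by_cases my : Meets y.1.1 D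
    · refine Prod.ext e1 ?_
      by_cases hL : y.1 ∈ dn G U
      · exact same y z ry rz my hL (e1 ▸ hL)
      · exact (cuta_f (cuta_r hx.1 ry).1 hL).trans (cuta_f (cuta_r hx.1 rz).1 (e1 ▸ hL)).symm
    · rwa [f0 y my, f0 z (e1 ▸ my)] at e
  have val : ∀ y, (DD G U).r x y → f y ∈ ddV G (U \ D) := fun y ry => by
    have a := cuta_r hx.1 ry
    by_cases my : Meets y.1.1 D
    · refine Or.inr ⟨?_, f2 y my⟩
      rw [f1]
      exact ⟨(cuta_meets ((hv x hx.2).2 hx.1)).imp fun b hb => ⟨hle _ _ hx.2 my a.2.1 hb.1, hb.2⟩,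
        my.imp fun b hb => ⟨hb.1, fun h => h.2 hb.2⟩⟩
    · rw [f0 y my]
      exact (hv y my).2 a.1
  refine ⟨inj, fun y z ry rz => ⟨fun r => ?_, fun r => ?_⟩, fun b r => ?_⟩
  · have c := (cuta_r (cuta_r hx.1 ry).1 r).2
    refine Or.inr ⟨val y ry, val z rz, by rw [f1, f1]; exact c.1, fun p q => ?_⟩
    rw [f1, hdn] at p q
    rw [f0 y p.2, f0 z q.2]
    exact c.2 p.1 q.1
  · have c := (cuta_r (val y ry) r).2
    rw [f1, f1] at c
    refine Or.inr ⟨(cuta_r hx.1 ry).1, (cuta_r hx.1 rz).1, c.1, fun p q => ?_⟩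
    by_cases my : Meets y.1.1 D
    · exact same y z ry rz my p q
    by_cases mz : Meets z.1.1 D
    · exact (same z y rz ry mz q p).symm
    have := c.2 ((hdn _).2 ⟨p, my⟩) ((hdn _).2 ⟨q, mz⟩)
    rwa [f0 y my, f0 z mz] at this
  · rw [f0 x hx.2] at r
    have c := cuta_r ((hv x hx.2).2 hx.1) r
    by_cases mb : Meets b.1.1 D
    · have hb : b.2 = false := cuta_f c.1 fun h => ((hdn _).1 h).2 mb
      by_cases hL : b.1 ∈ dn G U
      · exact ⟨(b.1, x.2), Or.inr ⟨hx.1, Or.inl hL, c.2.1, fun _ _ => rfl⟩,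
          Prod.ext (f1 _) ((f2 (b.1, x.2) mb).trans hb.symm)⟩
      · refine ⟨(b.1, false), Or.inr ⟨hx.1, Or.inr ⟨⟨?_, ?_⟩, rfl⟩, c.2.1, fun _ q => absurd q hL⟩,
          Prod.ext (f1 _) ((f2 (b.1, false) mb).trans hb.symm)⟩
        · exact (cuta_meets c.1).imp fun a ha => ⟨ha.1, ha.2.1⟩
        · exact by_contra fun hn => hL fun a ha => by_contra fun hU => hn ⟨a, ha, hU⟩
    · exact ⟨b, Or.inr ⟨hx.1, (hv b mb).1 c.1, c.2.1, fun p q =>
        c.2.2 ((hdn _).2 ⟨p, hx.2⟩) ((hdn _).2 ⟨q, mb⟩)⟩, f0 b mb⟩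

theorem cut_abs [Fintype V] {G : Cx V} {U D : Set V} (h : Man G U) (hD : D ⊆ U)
    (t1 : Thin (DD G U) (cutW G U D)) (h1 : H1 (DD G U) (cutW G U D))
    (k1 : kc (DD G U) (cutW G U D) = 1) (h2 : H1 (sd G) (cutW2 G U D))
    (k2 : kc (sd G) (cutW2 G U D) = 2) : qq G U = D2 * qq G (U \ D) := by
  have e1 := abs_roots (Z₀ := (ddV G U)ᶜ) (h.dd.mono fun x hx => hx.1) t1 h1
    fun a ha b hb => db_sep _ _ _ a ha b hb.1
  have e2 := (cuta_abs (G := G) hD).tv (h.dd.mono fun x hx => by_contra fun hn => hx.2 (Or.inl hn))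
  have e3 := (cuta_loc (G := G) (U := U) (D := D)).contr.tv (h.dd.mono fun x hx => hx.1)
  have e4 := cuta_xs (h.mono (Set.diff_subset (t := D))) (W := cutW2 G U D)
    (fun s hs => ⟨hs.2, hs.1.imp fun a ha => ⟨ha.1, fun h => h.2 ha.2⟩⟩) h2
  have s1 : {x | x ∈ ddV G U ∧ ¬ Meets x.1.1 D}ᶜ =
      (ddV G U)ᶜ ∪ {x | x ∈ ddV G U ∧ Meets x.1.1 D} := by
    ext x
    refine ⟨fun hx => or_iff_not_imp_left.2 fun hn => ⟨not_not.1 hn, by_contra fun hm =>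
      hx ⟨not_not.1 hn, hm⟩⟩, fun hx hn => hx.elim (fun h => h hn.1) fun h => hn.2 h.2⟩
  have s2 : {x | x ∈ ddV G (U \ D) ∧ ¬ Meets x.1.1 D}ᶜ =
      (ddV G (U \ D))ᶜ ∪ {x | x.1 ∈ cutW2 G U D ∧ x.2 = false} := by
    ext x
    constructor
    · intro hx
      refine or_iff_not_imp_left.2 fun hn => ?_
      have hv := not_not.1 hn
      have hm : Meets x.1.1 D := by_contra fun hm => hx ⟨hv, hm⟩
      exact ⟨⟨hm, cuta_meets hv⟩, cuta_f hv fun hL => hm.elim fun a ha => (hL a ha.1).2 ha.2⟩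
    · rintro (hx | hx) hn
      · exact hx hn.1
      · exact hn.2 hx.1.1
  rw [s1, s2, e2, e1, e4, k1, k2] at e3
  have hp : D2 ≠ 0 := (zero_lt_one.trans one_lt_D2).ne'
  refine mul_left_cancel₀ hp ?_
  rw [pow_one, pow_two, mul_assoc] at e3
  exact e3

theorem qq_fin [Fintype V] {G : Cx V} {U : Set V} (h : Man G U) (h1 : H1 (sd G) (Xs G U)) :
    D2 ^ kc (sd G) (Xs G U) * qq G U = tv G Uᶜ ^ 2 := by
  rw [← cuta_xs h subset_rfl h1, fac (L := {x | x.1 ∈ dn G U ∧ x.2 = false})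
    (R := {x | x.1 ∈ dn G U ∧ x.2 = true}), cuta_half h, cuta_half h, pow_two]
  · ext x
    constructor
    · intro hx
      have hv : x ∈ ddV G U := by_contra fun hn => hx (Or.inl hn)
      have hL : x.1 ∈ dn G U := hv.resolve_right fun hn => hx (Or.inr hn)
      exact (Bool.eq_false_or_eq_true x.2).symm.imp (fun e => ⟨hL, e⟩) fun e => ⟨hL, e⟩
    · intro hx hn
      have hL : x.1 ∈ dn G U := hx.elim (·.1) (·.1)
      rcases hn with hn | hn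
      · exact hn (Or.inl hL)
      · exact Set.disjoint_left.1 (dn_xs_disj G U) hL hn.1
  · intro a ha b hb r
    have := (cuta_r (Or.inl ha.1) r).2.2 ha.1 hb.1
    rw [ha.2, hb.2] at this
    exact Bool.false_ne_true this

end KG
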