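import Pool.Agent.Work.MP_c146e2_gt.KG.CT

set_option autoImplicit false

noncomputable section

open scoped Classical

namespace KG

variable {V V' : Type}

/-- The part of `c` in the component of `r`. -/
def cvcPart (G : Cx V) (U : Set V) (c : V → V → V → ZMod 2) (r : Fc G) (a b z : V) : ZMod 2 :=
  if ∃ s : Fc G, Rch (sd G) (ActC G U c) r s ∧ a ∈ s.1 ∧ b ∈ s.1 ∧ z ∈ s.1 then c a b z else 0

theorem cvc_clq {G : Cx V} {w : V} {r : Finset V} (h1 : Clq G r) (h2 : ∀ a ∈ r, G.r w a) :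
    Clq G (insert w r) := by
  refine ⟨Finset.insert_nonempty _ _, fun a ha b hb => ?_⟩
  rcases Finset.mem_insert.1 ha with ha | ha <;> rcases Finset.mem_insert.1 hb with hb | hb
  · rw [ha, hb]; exact G.refl _
  · rw [ha]; exact h2 b hb
  · rw [hb]; exact G.symm _ _ (h2 a ha)
  · exact h1.2 a ha b hb

theorem cvc_three {G : Cx V} {a b z : V} (h1 : G.r a b) (h2 : G.r a z) (h3 : G.r b z) :
    ∃ t : Fc G, a ∈ t.1 ∧ b ∈ t.1 ∧ z ∈ t.1 ∧ ∀ x ∈ t.1, x = a ∨ x = b ∨ x = z := by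
  have hc : Clq G (insert a {b, z}) := cvc_clq (clq_pair h3) fun x hx => by
    simp only [Finset.mem_insert, Finset.mem_singleton] at hx
    rcases hx with rfl | rfl
    · exact h1
    · exact h2
  refine ⟨⟨_, hc⟩, by simp, by simp, by simp, fun x hx => ?_⟩
  simpa only [Finset.mem_insert, Finset.mem_singleton] using hx

theorem cvc_four {G : Cx V} {a b d z : V} (h1 : G.r a b) (h2 : G.r a d) (h3 : G.r a z)
    (h4 : G.r b d) (h5 : G.r b z) (h6 : G.r d z) :
    ∃ t : Fc G, a ∈ t.1 ∧ b ∈ t.1 ∧ d ∈ t.1 ∧ z ∈ t.1 := by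
  obtain ⟨t, m1, m2, m3, ht⟩ := cvc_three h4 h5 h6
  have hc : Clq G (insert a t.1) := cvc_clq t.2 fun x hx => by
    rcases ht x hx with rfl | rfl | rfl
    · exact h1
    · exact h2
    · exact h3
  exact ⟨⟨_, hc⟩, Finset.mem_insert_self _ _, Finset.mem_insert_of_mem m1,
    Finset.mem_insert_of_mem m2, Finset.mem_insert_of_mem m3⟩

theorem cvc_face {G : Cx V} {U : Set V} {c : V → V → V → ZMod 2} {s t : Fc G} {a b z : V}
    (ha : a ∈ U) (hb : b ∈ U) (hz : z ∉ U) (hc : c a b z ≠ 0) (sa : a ∈ s.1) (sb : b ∈ s.1)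
    (sz : z ∈ s.1) (ta : a ∈ t.1) (tb : b ∈ t.1) (tz : z ∈ t.1) :
    Rch (sd G) (ActC G U c) s t := by
  obtain ⟨m, m1, m2, m3, hm⟩ := cvc_three (s.2.2 a sa b sb) (s.2.2 a sa z sz) (s.2.2 b sb z sz)
  have hs : s ∈ ActC G U c := ⟨a, sa, b, sb, z, sz, ha, hb, hz, hc⟩
  have ht : t ∈ ActC G U c := ⟨a, ta, b, tb, z, tz, ha, hb, hz, hc⟩
  have hm' : m ∈ ActC G U c := ⟨a, m1, b, m2, z, m3, ha, hb, hz, hc⟩
  have l1 : m ≤ s := Fc.le_iff.2 fun x hx => by
    rcases hm x hx with rfl | rfl | rfl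
    · exact sa
    · exact sb
    · exact sz
  have l2 : m ≤ t := Fc.le_iff.2 fun x hx => by
    rcases hm x hx with rfl | rfl | rfl
    · exact ta
    · exact tb
    · exact tz
  exact bas_trans (rch_step hs hm' (Or.inr l1)) (rch_step hm' ht (Or.inl l2))

theorem cvc_val {G : Cx V} {U : Set V} {c : V → V → V → ZMod 2} (r : Fc G) {t : Fc G} {a b z : V}
    (ha : a ∈ U) (hb : b ∈ U) (hz : z ∉ U) (ta : a ∈ t.1) (tb : b ∈ t.1) (tz : z ∈ t.1) :
    cvcPart G U c r a b z = if Rch (sd G) (ActC G U c) r t then c a b z else 0 := by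
  unfold cvcPart
  by_cases hc : c a b z = 0
  · simp only [hc, ite_self]
  · refine if_congr ⟨?_, fun h => ⟨t, h, ta, tb, tz⟩⟩ rfl rfl
    rintro ⟨s, hs, sa, sb, sz⟩
    exact bas_trans hs (cvc_face ha hb hz hc sa sb sz ta tb tz)

theorem cvc_act {G : Cx V} {U : Set V} {c : V → V → V → ZMod 2} {r : Fc G}
    (hr : r ∈ ActC G U c) (s : Fc G) :
    s ∈ ActC G U (cvcPart G U c r) ↔ Rch (sd G) (ActC G U c) r s := by
  constructor
  · rintro ⟨a, sa, b, sb, z, sz, ha, hb, hz, hc⟩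
    rw [cvc_val r ha hb hz sa sb sz] at hc
    by_contra h
    exact hc (if_neg h)
  · intro h
    obtain ⟨a, sa, b, sb, z, sz, ha, hb, hz, hc⟩ := rch_mem h hr
    refine ⟨a, sa, b, sb, z, sz, ha, hb, hz, ?_⟩
    rw [cvc_val r ha hb hz sa sb sz, if_pos h]
    exact hc

theorem cvc_curve {G : Cx V} {U : Set V} {c : V → V → V → ZMod 2}
    (coc : ∀ a b d z, Tr G U a b z → Tr G U b d z → G.r a d → c a b z + c b d z = c a d z)
    (side : ∀ a b z z', Tr G U a b z → Tr G U a b z' → G.r z z' → c a b z = c a b z')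
    {r : Fc G} (hr : r ∈ ActC G U c) : Curve G U (cvcPart G U c r) := by
  refine ⟨fun a b d z h1 h2 h3 => ?_, fun a b z z' h1 h2 h3 => ?_,
    ⟨r, (cvc_act hr r).2 (bas_refl _ _ _)⟩, ?_⟩
  · obtain ⟨t, ta, tb, td, tz⟩ := cvc_four h1.2.2.2.1 h3 h1.2.2.2.2.1 h2.2.2.2.1 h1.2.2.2.2.2
      h2.2.2.2.2.2
    rw [cvc_val r h1.1 h1.2.1 h1.2.2.1 ta tb tz, cvc_val r h2.1 h2.2.1 h1.2.2.1 tb td tz,
      cvc_val r h1.1 h2.2.1 h1.2.2.1 ta td tz]
    split_ifs
    · exact coc a b d z h1 h2 h3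
    · exact add_zero 0
  · obtain ⟨t, ta, tb, tz, tz'⟩ := cvc_four h1.2.2.2.1 h1.2.2.2.2.1 h2.2.2.2.2.1 h1.2.2.2.2.2
      h2.2.2.2.2.2 h3
    rw [cvc_val r h1.1 h1.2.1 h1.2.2.1 ta tb tz, cvc_val r h1.1 h1.2.1 h2.2.2.1 ta tb tz']
    split_ifs
    · exact side a b z z' h1 h2 h3
    · rfl
  · have key : ∀ s, Rch (sd G) (ActC G U c) r s → Rch (sd G) (ActC G U (cvcPart G U c r)) r s := by
      intro s hs
      induction hs with
      | refl => exact bas_refl _ _ _
      | tail hab hbc ih =>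
        exact bas_trans ih (rch_step ((cvc_act hr _).2 hab)
          ((cvc_act hr _).2 (Relation.ReflTransGen.tail hab hbc)) hbc.2.2)
    exact conn_of_base r fun s hs => rch_symm (key s ((cvc_act hr s).1 hs))

/-- An essential system of curves has an essential component. -/
theorem exists_comp [Fintype V] {G : Cx V} {U : Set V} {c : V → V → V → ZMod 2}
    (coc : ∀ a b d z, Tr G U a b z → Tr G U b d z → G.r a d → c a b z + c b d z = c a d z)
    (side : ∀ a b z z', Tr G U a b z → Tr G U a b z' → G.r z z' → c a b z = c a b z')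
    (h : ¬ Triv G U c) :
    ∃ c', Curve G U c' ∧ ¬ Triv G U c' ∧ ∀ a b z, Tr G U a b z → c' a b z ≠ 0 → c a b z ≠ 0 := by
  obtain ⟨R, hRS, -, hR1, hR2⟩ := bas_roots (sd G) (ActC G U c)
  by_contra hcon
  have hall : ∀ r ∈ R, Triv G U (cvcPart G U c r) := by
    intro r hr
    by_contra h1
    refine hcon ⟨_, cvc_curve coc side (hRS hr), h1, fun a b z _ h2 h3 => h2 ?_⟩
    unfold cvcPart
    simp only [h3, ite_self]
  choose! f hf1 hf2 using hall
  refine h ⟨fun a z => ∑ r ∈ R.toFinset, f r a z, fun a b z habz => ?_,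
    fun a ha z hz z' hz' h1 h2 h3 => ?_⟩
  · have hsum : c a b z = ∑ r ∈ R.toFinset, cvcPart G U c r a b z := by
      obtain ⟨t, ta, tb, tz, -⟩ := cvc_three habz.2.2.2.1 habz.2.2.2.2.1 habz.2.2.2.2.2
      have hv : ∀ r, cvcPart G U c r a b z =
          if Rch (sd G) (ActC G U c) r t then c a b z else 0 := fun r =>
        cvc_val r habz.1 habz.2.1 habz.2.2.1 ta tb tz
      simp only [hv]
      by_cases hc : c a b z = 0
      · simp only [hc, ite_self, Finset.sum_const_zero]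
      · have ht : t ∈ ActC G U c := ⟨a, ta, b, tb, z, tz, habz.1, habz.2.1, habz.2.2.1, hc⟩
        obtain ⟨x, hx, htx⟩ := hR1 t ht
        rw [Finset.sum_eq_single x, if_pos (rch_symm htx)]
        · intro y hy hyx
          exact if_neg fun h1 => hyx (hR2 y (Set.mem_toFinset.1 hy) x hx (bas_trans h1 htx))
        · intro h1
          exact absurd (Set.mem_toFinset.2 hx) h1
    rw [hsum, ← Finset.sum_add_distrib]
    exact Finset.sum_congr rfl fun r hr => hf1 r (Set.mem_toFinset.1 hr) a b z habz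
  · exact Finset.sum_congr rfl fun r hr =>
      hf2 r (Set.mem_toFinset.1 hr) a ha z hz z' hz' h1 h2 h3

/-- A cocycle that is trivial on the frontier extends by zero. -/
theorem cob_of_triv {G : Cx V} {U : Set V} (h1 : H1 G Set.univ) {η : V → V → ZMod 2}
    (hη : Coc G U η) (h : Triv G U fun a b _ => η a b) : Cob G U η := by
  obtain ⟨f, hf1, hf2⟩ := h
  have z1 : ∀ x y : ZMod 2, x + y + y = x := by decide
  have z2 : ∀ x y : ZMod 2, x + (x + y) = y := by decide
  have z3 : ∀ x : ZMod 2, x + x = 0 := by decide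
  obtain ⟨g, hg⟩ := h1 (fun x y => if x ∈ U then (if y ∈ U then η x y else f x y)
      else (if y ∈ U then f y x else 0)) (by
    intro a _ b _ d _ hab hbd had
    by_cases ha : a ∈ U <;> by_cases hb : b ∈ U <;> by_cases hd : d ∈ U <;>
      simp only [ha, hb, hd, if_true, if_false]
    · exact hη a ha b hb d hd hab hbd had
    · have := hf1 a b d ⟨ha, hb, hd, hab, had, hbd⟩
      simp only at this
      rw [this]
      exact z1 _ _
    · have := hf1 a d b ⟨ha, hd, hb, had, hab, G.symm _ _ hbd⟩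
      simp only at this
      rw [this]
    · rw [add_zero]
      exact hf2 a ha b hb d hd hab had hbd
    · have := hf1 b d a ⟨hb, hd, ha, hbd, G.symm _ _ hab, G.symm _ _ had⟩
      simp only at this
      rw [this]
      exact z2 _ _
    · rw [hf2 b hb a ha d hd (G.symm _ _ hab) hbd had]
      exact z3 _
    · rw [zero_add]
      exact hf2 d hd b hb a ha (G.symm _ _ hbd) (G.symm _ _ had) (G.symm _ _ hab)
    · exact add_zero 0)
  refine ⟨g, fun a ha b hb hab => ?_⟩
  have := hg a (Set.mem_univ _) b (Set.mem_univ _) hab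
  simp only [if_pos ha, if_pos hb] at this
  exact this

end KG
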