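import Pool.Agent.Work.MP_c146e2_gt.KG.DsA
import Pool.Agent.Work.MP_c146e2_gt.KG.Bas

set_option autoImplicit false

noncomputable section

namespace KG

theorem dsc_z (au av aw bu bv bw e s : ZMod 2) (f1 : au + av ≠ 0) (f2 : bv + bw ≠ 0) :
    (av + bv + e = 0 → au + bv + e = 1 ∧ av + bw + e = 1 ∧ au + bw + e = 0 ∧
      (au + aw ≠ 0 → aw + bw + e = 1) ∧ (¬ au + aw ≠ 0 → aw + bw + e = 0) ∧
      (bw + bu ≠ 0 → au + bu + e = 1) ∧ (¬ bw + bu ≠ 0 → au + bu + e = 0) ∧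
      (s + e + 1 = av ↔ ¬ s = bv)) ∧
    (¬ av + bv + e = 0 → av + bv + e = 1 ∧ au + bv + e = 0 ∧ av + bw + e = 0 ∧ au + bw + e = 1 ∧
      (au + aw ≠ 0 → aw + bw + e = 0) ∧ (¬ au + aw ≠ 0 → aw + bw + e = 1) ∧
      (bw + bu ≠ 0 → au + bu + e = 0) ∧ (¬ bw + bu ≠ 0 → au + bu + e = 1) ∧
      (s + e + 1 = av ↔ s = bv)) := by
  have k : ∀ x y : ZMod 2, x + y ≠ 0 → y = x + 1 := by decide
  have c : ∀ x : ZMod 2, x = 0 ∨ x = 1 := by decide
  obtain rfl := k _ _ f1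
  obtain rfl := k _ _ f2
  clear f1 f2 k
  rcases c au with rfl | rfl <;> rcases c bv with rfl | rfl <;> rcases c e with rfl | rfl <;>
    refine ⟨fun q => ⟨?_, ?_, ?_, ?_, ?_, ?_, ?_, ?_⟩,
      fun q => ⟨?_, ?_, ?_, ?_, ?_, ?_, ?_, ?_, ?_⟩⟩ <;>
    · revert aw bu s
      revert q
      decide

end KG

open scoped Classical

namespace KG

variable {V V' : Type}

theorem dsc_one {x : ZMod 2} (h : x ≠ 0) : x = 1 := by
  revert x
  decide

theorem dsc_fe_swap {G : Cx V} {U : Set V} {H : V → V → ZMod 2} (hc : Coc G U H) {a b : V}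
    (h : FE G U H (a, b)) : FE G U H (b, a) :=
  ⟨h.2.1, h.1, G.symm _ _ h.2.2.1, by
    have := hc.symm h.1 h.2.1 h.2.2.1
    exact fun e => h.2.2.2 (this.symm.trans e)⟩

theorem dsc_symm {G : Cx V} {U : Set V} {H : V → V → ZMod 2} {e e' : V × V}
    (h : Relation.ReflTransGen (FStep G U H) e e') : Relation.ReflTransGen (FStep G U H) e' e := by
  induction h with
  | refl => exact .refl
  | tail _ hs ih =>
    refine Relation.ReflTransGen.head ⟨hs.2.1, hs.1, ?_⟩ ih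
    rcases hs.2.2 with h | h
    · exact Or.inl ⟨h.1.symm, G.symm _ _ h.2⟩
    · exact Or.inr (by rw [h, Prod.swap_swap])

theorem dsc_up {G : Cx V} {U : Set V} {r r' : Fc G} (hr : r ∈ up G U) (h : r ≤ r') :
    r' ∈ up G U := by
  obtain ⟨a, ha, hU⟩ := hr
  exact ⟨a, Fc.le_iff.1 h ha, hU⟩

section
variable {G : Cx V} {U : Set V} {H : Fc G → Fc G → ZMod 2} {t r r' : Fc G}

theorem dsc_fe (hc : Coc (sd G) (up G U) H) (hr : r ∈ up G U) (h : r ≤ t) (h1 : H r t = 1) :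
    FE (sd G) (up G U) H (r, t) ∧ FE (sd G) (up G U) H (t, r) := by
  have : FE (sd G) (up G U) H (r, t) :=
    ⟨hr, dsc_up hr h, Or.inl h, by simp only [h1]; decide⟩
  exact ⟨this, dsc_fe_swap hc this⟩

theorem dsc_out (hc : Coc (sd G) (up G U) H) (hr : r ∈ up G U) (h : r ≤ r') (h' : r' ≤ t)
    (h1 : H r t = 1) (h0 : H r' t = 0) :
    Relation.ReflTransGen (FStep (sd G) (up G U) H) (r, r') (t, r) := by
  have hr' := dsc_up hr h
  have e := hc r hr r' hr' t (dsc_up hr' h') (Or.inl h) (Or.inl h') (Or.inl (h.trans h'))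
  rw [h0, h1, add_zero] at e
  have a := dsc_fe hc hr h e
  have b := dsc_fe hc hr (h.trans h') h1
  exact (Relation.ReflTransGen.single ⟨a.1, b.1, Or.inl ⟨rfl, Or.inl h'⟩⟩).tail
    ⟨b.1, b.2, Or.inr rfl⟩

theorem dsc_in (hc : Coc (sd G) (up G U) H) (hr : r ∈ up G U) (h : r ≤ r') (h' : r' ≤ t)
    (h0 : H r t = 0) (h1 : H r' t = 1) :
    Relation.ReflTransGen (FStep (sd G) (up G U) H) (r, r') (t, r') := by
  have hr' := dsc_up hr h
  have e := hc r hr r' hr' t (dsc_up hr' h') (Or.inl h) (Or.inl h') (Or.inl (h.trans h'))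
  rw [h0, h1] at e
  have e' : H r r' = 1 := dsc_one fun e0 => by
    rw [e0] at e
    exact absurd e (by decide)
  have a := dsc_fe hc hr h e'
  have b := dsc_fe hc hr' h' h1
  exact ((Relation.ReflTransGen.single ⟨a.1, a.2, Or.inr rfl⟩).tail
    ⟨a.2, b.1, Or.inl ⟨rfl, Or.inl (h.trans h')⟩⟩).tail ⟨b.1, b.2, Or.inr rfl⟩

theorem dsc_mv (hc : Coc (sd G) (up G U) H) (hr : r ∈ up G U) (h : r ≤ r') (h' : r' ≤ t)
    (h0 : H r t = 1) (h1 : H r' t = 1) :
    Relation.ReflTransGen (FStep (sd G) (up G U) H) (t, r) (t, r') :=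
  .single ⟨(dsc_fe hc hr (h.trans h') h0).2, (dsc_fe hc (dsc_up hr h) h' h1).2,
    Or.inl ⟨rfl, Or.inl h⟩⟩

end

theorem dsc_pr {G : Cx V} {x y : V} (h : G.r x y) : (pr G x y).1 = {x, y} := by
  simp only [pr, dif_pos h]

theorem dsc_pr_symm {G : Cx V} {x y : V} (h : G.r x y) : pr G y x = pr G x y := by
  apply Subtype.ext
  rw [dsc_pr h, dsc_pr (G.symm _ _ h), Finset.pair_comm]

theorem dsc_clq {G : Cx V} {u v w : V} (h1 : G.r u v) (h2 : G.r v w) (h3 : G.r u w) :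
    Clq G {u, v, w} := by
  refine ⟨Finset.insert_nonempty _ _, fun x hx y hy => ?_⟩
  simp only [Finset.mem_insert, Finset.mem_singleton] at hx hy
  rcases hx with rfl | rfl | rfl <;> rcases hy with rfl | rfl | rfl <;>
    first | exact G.refl _ | assumption | exact G.symm _ _ (by assumption)

theorem dsc_tr {G : Cx V} {u v w : V} (h : Clq G {u, v, w}) : (tr3 G u v w).1 = {u, v, w} := by
  simp only [tr3, dif_pos h]

theorem dsc_sg_up {G : Cx V} {U : Set V} {x : V} (hx : x ∈ U) : sg G x ∈ up G U :=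
  ⟨x, Finset.mem_singleton_self x, hx⟩

theorem dsc_le1 {G : Cx V} {x y : V} (h : G.r x y) : sg G x ≤ pr G x y := by
  rw [Fc.le_iff, dsc_pr h]
  simp [sg]

theorem dsc_le2 {G : Cx V} {x y : V} (h : G.r x y) : sg G y ≤ pr G x y := by
  rw [Fc.le_iff, dsc_pr h]
  simp [sg]

theorem dsc_le3 {G : Cx V} {x y : V} (h : G.r x y) {t : Fc G} (hx : x ∈ t.1) (hy : y ∈ t.1) :
    pr G x y ≤ t := by
  rw [Fc.le_iff, dsc_pr h]
  intro z hz
  simp only [Finset.mem_insert, Finset.mem_singleton] at hz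
  rcases hz with rfl | rfl <;> assumption

variable {G : Cx V} {U : Set V} {τ : V → V} {T : Fc G → Fc G} {h : V → ℤ} {m : Fc G → V}
  {F : V → V → ZMod 2} {o : Fc G → V → ZMod 2} {ε : Fc G → ZMod 2}

theorem dsc_dbl_mono {s s' : Finset V} (hs : s ⊆ s') (hd : Dbl G U τ h F s) :
    Dbl G U τ h F s' := by
  obtain ⟨u, hu, v, hv, w, hw, ht⟩ := hd
  exact ⟨u, hs hu, v, hs hv, w, hs hw, ht⟩

theorem dsc_ndbl (x y : V) : ¬ Dbl G U τ h F {x, y} := by
  rintro ⟨u, hu, v, hv, w, hw, -, -, -, -, -, -, h1, h2, -⟩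
  simp only [Finset.mem_insert, Finset.mem_singleton] at hu hv hw
  rcases hu with rfl | rfl <;> rcases hv with rfl | rfl <;> rcases hw with rfl | rfl <;> omega

theorem dsc_ndbl_pr {x y : V} (hr : G.r x y) : ¬ Dbl G U τ h F (pr G x y).1 := by
  rw [dsc_pr hr]
  exact dsc_ndbl x y

theorem dsc_ndbl_sg (x : V) : ¬ Dbl G U τ h F (sg G x).1 := fun hd =>
  dsc_ndbl x x (dsc_dbl_mono (by simp [sg]) hd)

theorem DS.dsc_sg (d : DS G U τ T h m F o) (x : V) : m (sg G x) = x ∧ m (T (sg G x)) = τ x := by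
  have : ∀ y, m (sg G y) = y := fun y => Finset.mem_singleton.1 (d.sel (sg G y)).1
  exact ⟨this x, by rw [d.T_sg, this]⟩

theorem DS.dsc_mpr (d : DS G U τ T h m F o) {x y : V} (hx : x ∈ U) (hy : y ∈ U) (hr : G.r x y)
    (hlt : h x < h y) : m (pr G x y) = x ∧ m (T (pr G x y)) = τ y := by
  constructor
  · refine d.m_eq (by simp [dsc_pr hr]) hx fun b hb _ => ?_
    rw [dsc_pr hr] at hb
    simp only [Finset.mem_insert, Finset.mem_singleton] at hb
    rcases hb with rfl | rfl <;> omega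
  · refine d.mT_eq (by simp [dsc_pr hr]) hy fun b hb _ => ?_
    rw [dsc_pr hr] at hb
    simp only [Finset.mem_insert, Finset.mem_singleton] at hb
    rcases hb with rfl | rfl <;> omega

theorem DS.dsc_mtr (d : DS G U τ T h m F o) {u v w : V} (hu : u ∈ U) (hw : w ∈ U)
    (hc : Clq G {u, v, w}) (h1 : h u < h v) (h2 : h v < h w) :
    m (tr3 G u v w) = u ∧ m (T (tr3 G u v w)) = τ w := by
  constructor
  · refine d.m_eq (by simp [dsc_tr hc]) hu fun b hb _ => ?_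
    rw [dsc_tr hc] at hb
    simp only [Finset.mem_insert, Finset.mem_singleton] at hb
    rcases hb with rfl | rfl | rfl <;> omega
  · refine d.mT_eq (by simp [dsc_tr hc]) hw fun b hb _ => ?_
    rw [dsc_tr hc] at hb
    simp only [Finset.mem_insert, Finset.mem_singleton] at hb
    rcases hb with rfl | rfl | rfl <;> omega

theorem dsc_nd_lt {x y : V} (hlt : h x < h y) : nd G h (x, y) = (sg G y, pr G x y) := by
  simp only [nd, if_pos hlt]

theorem dsc_nd_gt {x y : V} (hr : G.r x y) (hlt : h x < h y) :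
    nd G h (y, x) = (sg G y, pr G x y) := by
  simp only [nd, if_neg (not_lt.2 hlt.le), dsc_pr_symm hr]

theorem DS.dsc_ne (d : DS G U τ T h m F o) {x y : V} (he : FE G U F (x, y)) :
    h x < h y ∨ h y < h x := by
  refine lt_or_gt_of_ne fun e => he.2.2.2 ?_
  have : x = y := d.hinj he.1 he.2.1 e
  subst this
  exact d.coc.self he.1

theorem DS.nd_fe (d : DS G U τ T h m F o) (ε : Fc G → ZMod 2) {e : V × V} (he : FE G U F e) :
    FE (sd G) (up G U) (GG G U τ T h m F o ε) (nd G h e) := by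
  obtain ⟨x, y⟩ := e
  have key : ∀ x y, FE G U F (x, y) → h x < h y →
      FE (sd G) (up G U) (GG G U τ T h m F o ε) (sg G y, pr G x y) := by
    intro x y he hlt
    have hr : G.r x y := he.2.2.1
    refine ⟨dsc_sg_up he.2.1, dsc_up (dsc_sg_up he.2.1) (dsc_le2 hr), Or.inl (dsc_le2 hr), ?_⟩
    show GG G U τ T h m F o ε (sg G y) (pr G x y) ≠ 0
    rw [← dsc_pr_symm hr, d.gg_hi ε he.2.1 he.1 (G.symm _ _ hr) hlt]
    exact (dsc_fe_swap d.coc he).2.2.2
  rcases d.dsc_ne he with hlt | hlt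
  · rw [dsc_nd_lt hlt]
    exact key x y he hlt
  · rw [dsc_nd_gt (G.symm _ _ he.2.2.1) hlt]
    exact key y x (dsc_fe_swap d.coc he) hlt

theorem DS.nd_swap (d : DS G U τ T h m F o) {x y : V} (he : FE G U F (x, y)) :
    nd G h (y, x) = nd G h (x, y) := by
  rcases d.dsc_ne he with hlt | hlt
  · rw [dsc_nd_lt hlt, dsc_nd_gt he.2.2.1 hlt]
  · rw [dsc_nd_lt hlt, dsc_nd_gt (G.symm _ _ he.2.2.1) hlt]

theorem DS.dsc_arc (d : DS G U τ T h m F o) (ε : Fc G → ZMod 2) {u v w : V} (hu : u ∈ U)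
    (hv : v ∈ U) (hw : w ∈ U) (r1 : G.r u v) (r2 : G.r v w) (r3 : G.r u w) (h1 : h u < h v)
    (h2 : h v < h w) (hn : ¬ Dbl G U τ h F {u, v, w}) :
    (F u v ≠ 0 → F u w ≠ 0 → Relation.ReflTransGen
      (FStep (sd G) (up G U) (GG G U τ T h m F o ε)) (sg G v, pr G u v) (sg G w, pr G u w)) ∧
    (F u v ≠ 0 → F v w ≠ 0 → Relation.ReflTransGen
      (FStep (sd G) (up G U) (GG G U τ T h m F o ε)) (sg G v, pr G u v) (sg G w, pr G v w)) ∧
    (F u w ≠ 0 → F v w ≠ 0 → Relation.ReflTransGen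
      (FStep (sd G) (up G U) (GG G U τ T h m F o ε)) (sg G w, pr G u w) (sg G w, pr G v w)) := by
  have hc := dsc_clq r1 r2 r3
  have ht := dsc_tr hc
  have mt := d.dsc_mtr hu hw hc h1 h2
  set t := tr3 G u v w
  have tu : u ∈ t.1 := by simp [ht]
  have tv : v ∈ t.1 := by simp [ht]
  have tw : w ∈ t.1 := by simp [ht]
  have l1 := dsc_le3 r1 tu tv
  have l2 := dsc_le3 r2 tv tw
  have l3 := dsc_le3 r3 tu tw
  have nt : ¬ Dbl G U τ h F t.1 := ht ▸ hn
  have cc := d.gg_coc ε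
  have fu := d.coc.self hu
  have fw := d.coc.self ((d.tmem w).2 hw)
  have s1 := d.coc.symm hu hv r1
  have s3 := d.coc.symm hu hw r3
  have tri := d.coc u hu v hv w hw r1 r2 r3
  have cv : GG G U τ T h m F o ε (sg G v) t = F u v + F (τ v) (τ w) := by
    simp only [GG, ee, if_neg nt, if_neg (dsc_ndbl_sg v), mt.1, mt.2, (d.dsc_sg v).1,
      (d.dsc_sg v).2, add_zero, s1]
  have cw : GG G U τ T h m F o ε (sg G w) t = F u w := by
    simp only [GG, ee, if_neg nt, if_neg (dsc_ndbl_sg w), mt.1, mt.2, (d.dsc_sg w).1,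
      (d.dsc_sg w).2, add_zero, s3, fw]
  have cuv : GG G U τ T h m F o ε (pr G u v) t = F (τ v) (τ w) := by
    simp only [GG, ee, if_neg nt, if_neg (dsc_ndbl_pr r1), mt.1, mt.2, (d.dsc_mpr hu hv r1 h1).1,
      (d.dsc_mpr hu hv r1 h1).2, add_zero, zero_add, fu]
  have cvw : GG G U τ T h m F o ε (pr G v w) t = F u v := by
    simp only [GG, ee, if_neg nt, if_neg (dsc_ndbl_pr r2), mt.1, mt.2, (d.dsc_mpr hv hw r2 h2).1,
      (d.dsc_mpr hv hw r2 h2).2, add_zero, s1, fw]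
  have cuw : GG G U τ T h m F o ε (pr G u w) t = 0 := by
    simp only [GG, ee, if_neg nt, if_neg (dsc_ndbl_pr r3), mt.1, mt.2,
      (d.dsc_mpr hu hw r3 (h1.trans h2)).1, (d.dsc_mpr hu hw r3 (h1.trans h2)).2, add_zero, fu, fw]
  have hb : F u v ≠ 0 → F (τ v) (τ w) = 0 := fun a => by
    by_contra b
    exact hn ⟨u, by simp, v, by simp, w, by simp, hu, hv, hw, r1, r2, r3, h1, h2, a, b⟩
  have uv := dsc_sg_up (G := G) hv
  have uw := dsc_sg_up (G := G) hw
  refine ⟨fun a b => ?_, fun a b => ?_, fun a b => ?_⟩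
  · rw [hb a] at cv cuv
    rw [dsc_one a] at cv cvw
    rw [dsc_one b] at cw
    rw [add_zero] at cv
    exact ((dsc_out cc uv (dsc_le2 r1) l1 cv cuv).trans
      (dsc_mv cc uv (dsc_le1 r2) l2 cv cvw)).trans
      ((dsc_symm (dsc_mv cc uw (dsc_le2 r2) l2 cw cvw)).trans
        (dsc_symm (dsc_out cc uw (dsc_le2 r3) l3 cw cuw)))
  · rw [hb a] at cv cuv
    rw [dsc_one a] at cv cvw tri
    rw [dsc_one b] at tri
    rw [add_zero] at cv
    rw [← tri] at cw
    have cw' : GG G U τ T h m F o ε (sg G w) t = 0 := cw.trans (by decide)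
    exact ((dsc_out cc uv (dsc_le2 r1) l1 cv cuv).trans
      (dsc_mv cc uv (dsc_le1 r2) l2 cv cvw)).trans
      (dsc_symm (dsc_in cc uw (dsc_le2 r2) l2 cw' cvw))
  · rw [dsc_one a] at cw tri
    rw [dsc_one b] at tri
    have : F u v = 0 := by simpa using tri
    rw [this] at cvw
    exact (dsc_out cc uw (dsc_le2 r3) l3 cw cuw).trans
      (dsc_symm (dsc_out cc uw (dsc_le2 r2) l2 cw cvw))

theorem DS.dsc_arc' (d : DS G U τ T h m F o) (ε : Fc G → ZMod 2) {x y y' : V}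
    (h1 : FE G U F (x, y)) (h2 : FE G U F (x, y')) (hr : G.r y y')
    (hn : ¬ Dbl G U τ h F {x, y, y'}) (hlt : h y < h y') :
    Relation.ReflTransGen (FStep (sd G) (up G U) (GG G U τ T h m F o ε)) (nd G h (x, y))
      (nd G h (x, y')) := by
  have hx : x ∈ U := h1.1
  have hy : y ∈ U := h1.2.1
  have hy' : y' ∈ U := h2.2.1
  have r1 : G.r x y := h1.2.2.1
  have r2 : G.r x y' := h2.2.2.1
  have f1 : F x y ≠ 0 := h1.2.2.2
  have f2 : F x y' ≠ 0 := h2.2.2.2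
  have f1' : F y x ≠ 0 := (dsc_fe_swap d.coc h1).2.2.2
  have f2' : F y' x ≠ 0 := (dsc_fe_swap d.coc h2).2.2.2
  rcases d.dsc_ne h1 with a | a
  · rw [dsc_nd_lt a, dsc_nd_lt (a.trans hlt)]
    exact (d.dsc_arc ε hx hy hy' r1 hr r2 a hlt hn).1 f1 f2
  · rcases d.dsc_ne h2 with b | b
    · rw [dsc_nd_gt (G.symm _ _ r1) a, dsc_nd_lt b]
      refine (d.dsc_arc ε hy hx hy' (G.symm _ _ r1) r2 hr a b ?_).2.1 f1' f2
      rwa [Finset.insert_comm]
    · rw [dsc_nd_gt (G.symm _ _ r1) a, dsc_nd_gt (G.symm _ _ r2) b]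
      refine (d.dsc_arc ε hy hy' hx hr (G.symm _ _ r2) (G.symm _ _ r1) hlt b ?_).2.2 f1' f2'
      rwa [Finset.pair_comm y' x, Finset.insert_comm]

theorem DS.arc (d : DS G U τ T h m F o) (ε : Fc G → ZMod 2) {x y y' : V} (h1 : FE G U F (x, y))
    (h2 : FE G U F (x, y')) (hr : G.r y y') (hn : ¬ Dbl G U τ h F {x, y, y'}) :
    Relation.ReflTransGen (FStep (sd G) (up G U) (GG G U τ T h m F o ε)) (nd G h (x, y))
      (nd G h (x, y')) := by
  rcases lt_trichotomy (h y) (h y') with a | a | a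
  · exact d.dsc_arc' ε h1 h2 hr hn a
  · have : y = y' := d.hinj h1.2.1 h2.2.1 a
    subst this
    exact .refl
  · refine dsc_symm (d.dsc_arc' ε h2 h1 (G.symm _ _ hr) ?_ a)
    rwa [Finset.pair_comm y' y]

theorem DS.arc2 (d : DS G U τ T h m F o) (he : EpsOK G U τ T h F ε) {u v w : V}
    (ht : DT G U τ h F u v w) (s : ZMod 2) :
    Relation.ReflTransGen (FStep (sd G) (up G U) (GG G U τ T h m F o ε))
      (nd G h (wing G τ F o u v w s))
      (T (nd G h (wing G τ F o (τ w) (τ v) (τ u) (s + ε (tr3 G u v w) + 1))).1,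
        T (nd G h (wing G τ F o (τ w) (τ v) (τ u) (s + ε (tr3 G u v w) + 1))).2) := by
  obtain ⟨-, -, -, -, -, -, k1, k2, -, -⟩ := d.dt ht
  have ht0 := ht
  obtain ⟨hu, hv, hw, r1, r2, r3, h1, h2, f1, f2⟩ := ht
  have hc := dsc_clq r1 r2 r3
  have htt := dsc_tr hc
  have hT := d.T_tr3 hc
  simp only [wing, d.inv]
  rw [← hT]
  set t := tr3 G u v w
  have tu : u ∈ t.1 := by simp [htt]
  have tv : v ∈ t.1 := by simp [htt]
  have tw : w ∈ t.1 := by simp [htt]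
  have l1 := dsc_le3 r1 tu tv
  have l2 := dsc_le3 r2 tv tw
  have l3 := dsc_le3 r3 tu tw
  have dt : Dbl G U τ h F t.1 := ⟨u, tu, v, tv, w, tw, ht0⟩
  obtain ⟨a1, a2, -⟩ := d.dbl_act dt
  have cc := d.gg_coc ε
  have cs : ∀ x, sg G x ≤ t → GG G U τ T h m F o ε (sg G x) t = o t x + o (T t) (τ x) + ε t := by
    intro x hx
    rw [d.gg_pot he a1 a2 hx le_rfl, if_neg (dsc_ndbl_sg x), if_pos dt, (d.dsc_sg x).1,
      (d.dsc_sg x).2]
  have cp : ∀ x ∈ U, ∀ y ∈ U, G.r x y → h x < h y → pr G x y ≤ t →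
      GG G U τ T h m F o ε (pr G x y) t = o t x + o (T t) (τ y) + ε t := by
    intro x hx y hy r hl hle
    rw [d.gg_pot he a1 a2 hle le_rfl, if_neg (dsc_ndbl_pr r), if_pos dt,
      (d.dsc_mpr hx hy r hl).1, (d.dsc_mpr hx hy r hl).2]
  have cu := cs u ((dsc_le1 r1).trans l1)
  have cv := cs v ((dsc_le2 r1).trans l1)
  have cw := cs w ((dsc_le2 r2).trans l2)
  have cuv := cp u hu v hv r1 h1 l1
  have cvw := cp v hv w hw r2 h2 l2
  have cuw := cp u hu w hw r3 (h1.trans h2) l3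
  have tT : ∀ x ∈ t.1, τ x ∈ (T t).1 := fun x hx => (d.timg t _).2 (by rwa [d.inv])
  have p1 := d.coor.pot t a1 u tu v tv hu hv
  have p2 := d.coor.pot t a1 u tu w tw hu hw
  have p3 := d.coor.pot _ a2 _ (tT v tv) _ (tT w tw) ((d.tmem v).2 hv) ((d.tmem w).2 hw)
  have p4 := d.coor.pot _ a2 _ (tT w tw) _ (tT u tu) ((d.tmem w).2 hw) ((d.tmem u).2 hu)
  rw [p1] at f1
  rw [p3] at f2
  rw [p2, p4]
  have n1 : (T (nd G h (τ w, τ v)).1, T (nd G h (τ w, τ v)).2) = (sg G v, pr G v w) := by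
    rw [dsc_nd_lt k1, d.T_sg, d.T_pr, d.inv, d.inv, dsc_pr_symm r2]
  have n2 : (T (nd G h (τ w, τ u)).1, T (nd G h (τ w, τ u)).2) = (sg G u, pr G u w) := by
    rw [dsc_nd_lt (k1.trans k2), d.T_sg, d.T_pr, d.inv, d.inv, dsc_pr_symm r3]
  have n3 : (T (nd G h (τ v, τ u)).1, T (nd G h (τ v, τ u)).2) = (sg G u, pr G u v) := by
    rw [dsc_nd_lt k2, d.T_sg, d.T_pr, d.inv, d.inv, dsc_pr_symm r1]
  have uu := dsc_sg_up (G := G) hu
  have uv := dsc_sg_up (G := G) hv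
  have uw := dsc_sg_up (G := G) hw
  generalize o t u = au at *
  generalize o t v = av at *
  generalize o t w = aw at *
  generalize o (T t) (τ u) = bu at *
  generalize o (T t) (τ v) = bv at *
  generalize o (T t) (τ w) = bw at *
  generalize ε t = e at *
  obtain ⟨z1, z2⟩ := dsc_z au av aw bu bv bw e s f1 f2
  have e1 := dsc_le1 r1
  have e2 := dsc_le2 r1
  have e3 := dsc_le1 r2
  have e4 := dsc_le2 r2
  have e5 := dsc_le1 r3
  have e6 := dsc_le2 r3
  by_cases q : av + bv + e = 0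
  · obtain ⟨y1, y2, y3, y4, y5, y6, y7, y8⟩ := z1 q
    rw [q] at cv
    rw [y1] at cuv
    rw [y2] at cvw
    rw [y3] at cuw
    by_cases i1 : s = bv
    · rw [if_pos i1, if_neg (fun i => y8.1 i i1), dsc_nd_lt h1]
      refine (dsc_in cc uv e2 l1 cv cuv).trans ?_
      by_cases i2 : bw + bu ≠ 0
      · rw [if_pos i2, n2]
        rw [y6 i2] at cu
        exact (dsc_symm (dsc_mv cc uu e1 l1 cu cuv)).trans (dsc_symm (dsc_out cc uu e5 l3 cu cuw))
      · rw [if_neg i2, n3]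
        rw [y7 i2] at cu
        exact dsc_symm (dsc_in cc uu e1 l1 cu cuv)
    · rw [if_neg i1, if_pos (y8.2 i1), n1]
      refine Relation.ReflTransGen.trans ?_ (dsc_symm (dsc_in cc uv e3 l2 cv cvw))
      by_cases i2 : au + aw ≠ 0
      · rw [if_pos i2, dsc_nd_lt (h1.trans h2)]
        rw [y4 i2] at cw
        exact (dsc_out cc uw e6 l3 cw cuw).trans (dsc_mv cc uw e4 l2 cw cvw)
      · rw [if_neg i2, dsc_nd_lt h2]
        rw [y5 i2] at cw
        exact dsc_in cc uw e4 l2 cw cvw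
  · obtain ⟨y0, y1, y2, y3, y4, y5, y6, y7, y8⟩ := z2 q
    rw [y0] at cv
    rw [y1] at cuv
    rw [y2] at cvw
    rw [y3] at cuw
    by_cases i1 : s = bv
    · rw [if_pos i1, if_pos (y8.2 i1), dsc_nd_lt h1, n1]
      exact (dsc_out cc uv e2 l1 cv cuv).trans (dsc_symm (dsc_out cc uv e3 l2 cv cvw))
    · rw [if_neg i1, if_neg (fun i => i1 (y8.1 i))]
      refine Relation.ReflTransGen.trans (b := (t, pr G u w)) ?_ ?_
      · by_cases i2 : au + aw ≠ 0
        · rw [if_pos i2, dsc_nd_lt (h1.trans h2)]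
          rw [y4 i2] at cw
          exact dsc_in cc uw e6 l3 cw cuw
        · rw [if_neg i2, dsc_nd_lt h2]
          rw [y5 i2] at cw
          exact (dsc_out cc uw e4 l2 cw cvw).trans (dsc_mv cc uw e6 l3 cw cuw)
      · by_cases i2 : bw + bu ≠ 0
        · rw [if_pos i2, n2]
          rw [y6 i2] at cu
          exact dsc_symm (dsc_in cc uu e5 l3 cu cuw)
        · rw [if_neg i2, n3]
          rw [y7 i2] at cu
          exact (dsc_symm (dsc_mv cc uu e5 l3 cu cuw)).trans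
            (dsc_symm (dsc_out cc uu e1 l1 cu cuv))

end KG
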