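import Pool.Agent.Work.MP_c146e2_gt.KG.DsA

set_option autoImplicit false

noncomputable section

open scoped Classical

namespace KG

variable {V V' : Type}

variable {G : Cx V} {U : Set V} {τ : V → V} {T : Fc G → Fc G} {h : V → ℤ} {m : Fc G → V}
  {F : V → V → ZMod 2} {o : Fc G → V → ZMod 2}

theorem DS.wing_fe (d : DS G U τ T h m F o) {u v w : V} (ht : DT G U τ h F u v w) (s : ZMod 2) :
    FE G U F (wing G τ F o u v w s) := by
  obtain ⟨hu, hv, hw, ruv, rvw, ruw, -, -, f1, -⟩ := ht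
  unfold wing
  split_ifs with h1 h2
  · exact ⟨hu, hv, ruv, f1⟩
  · exact ⟨hu, hw, ruw, h2⟩
  · refine ⟨hv, hw, rvw, fun h3 => h2 ?_⟩
    have h4 : F v w = 0 := h3
    rw [← d.coc u hu v hv w hw ruv rvw ruw, h4, add_zero]
    exact f1

/-- The side of the second sheet on which the first sheet crosses the edge `e`. -/
def dsdSide (τ : V → V) (h : V → ℤ) (b : V → ZMod 2) (e : V × V) : ZMod 2 :=
  b (τ (if h e.1 < h e.2 then e.2 else e.1))

theorem dsd_lt {b : V → ZMod 2} {x y : V} (hl : h x < h y) :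
    dsdSide τ h b (x, y) = b (τ y) ∧ dsdSide τ h b (y, x) = b (τ y) :=
  ⟨by simp only [dsdSide, if_pos hl], by simp only [dsdSide, if_neg (not_lt.2 hl.le)]⟩

theorem dsd_ne (d : DS G U τ T h m F o) {x y : V} (he : FE G U F (x, y)) :
    h x < h y ∨ h y < h x := by
  refine lt_or_gt_of_ne fun h1 => he.2.2.2 ?_
  have h2 : x = y := d.hinj he.1 he.2.1 h1
  subst h2
  exact d.coc.self he.1

theorem dsd_swap (d : DS G U τ T h m F o) {x y : V} (he : FE G U F (x, y)) : FE G U F (y, x) :=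
  ⟨he.2.1, he.1, G.symm _ _ he.2.2.1, fun h1 => he.2.2.2
    ((d.coc.symm he.1 he.2.1 he.2.2.1).symm.trans h1)⟩

theorem dsd_side_swap (d : DS G U τ T h m F o) {b : V → ZMod 2} {x y : V}
    (he : FE G U F (x, y)) : dsdSide τ h b (y, x) = dsdSide τ h b (x, y) := by
  rcases dsd_ne d he with h1 | h1
  · rw [(dsd_lt h1).1, (dsd_lt h1).2]
  · rw [(dsd_lt h1).1, (dsd_lt h1).2]

theorem dsd_tmem (d : DS G U τ T h m F o) {S : Fc G} {x : V} (hx : x ∈ S.1) : τ x ∈ (T S).1 :=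
  (d.timg S _).2 (by rw [d.inv]; exact hx)

theorem dsd_act (d : DS G U τ T h m F o) {u v w : V} (ht : DT G U τ h F u v w) {S : Fc G}
    (hS : u ∈ S.1 ∧ v ∈ S.1 ∧ w ∈ S.1) : S ∈ ActF G U F ∧ T S ∈ ActF G U F :=
  ⟨⟨u, hS.1, v, hS.2.1, ht.1, ht.2.1, ht.2.2.2.2.2.2.2.2.1⟩,
    ⟨τ v, dsd_tmem d hS.2.1, τ w, dsd_tmem d hS.2.2, (d.tmem _).2 ht.2.1, (d.tmem _).2 ht.2.2.1,
      ht.2.2.2.2.2.2.2.2.2⟩⟩

theorem dsd_one (d : DS G U τ T h m F o) {g : V × V → ZMod 2} (hg : PF G U τ h F g) {S : Fc G}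
    (hA : S ∈ ActF G U F) (hB : T S ∈ ActF G U F) {x y y' : V} (hx : x ∈ S.1) (hy : y ∈ S.1)
    (hy' : y' ∈ S.1) (he : FE G U F (x, y)) (he' : FE G U F (x, y'))
    (hs : dsdSide τ h (o (T S)) (x, y) = dsdSide τ h (o (T S)) (x, y')) :
    g (x, y) = g (x, y') := by
  refine hg.2 x y y' he he' (S.2.2 y hy y' hy') ?_
  rintro ⟨u, hu, v, hv, w, hw, -, -, -, -, -, -, l1, l2, f1, f2⟩
  have hb : ∀ p ∈ S.1, ∀ q ∈ S.1, p ∈ U → q ∈ U → o (T S) (τ p) = o (T S) (τ q) →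
      F (τ p) (τ q) = 0 := fun p hp q hq up uq h1 => by
    rw [d.coor.pot _ hB _ (dsd_tmem d hp) _ (dsd_tmem d hq) ((d.tmem _).2 up) ((d.tmem _).2 uq),
      h1]
    exact CharTwo.add_self_eq_zero _
  have ux : x ∈ U := he.1
  have uy : y ∈ U := he.2.1
  have uy' : y' ∈ U := he'.2.1
  have f3 : F y y' = 0 ∧ F y' y = 0 := by
    have h1 : F x y ≠ 0 := he.2.2.2
    have h2 : F x y' ≠ 0 := he'.2.2.2
    rw [d.coor.pot _ hA _ hx _ hy ux uy] at h1
    rw [d.coor.pot _ hA _ hx _ hy' ux uy'] at h2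
    rw [d.coor.pot _ hA _ hy _ hy' uy uy', d.coor.pot _ hA _ hy' _ hy uy' uy]
    have key : ∀ a b c : ZMod 2, a + b ≠ 0 → a + c ≠ 0 → b + c = 0 ∧ c + b = 0 := by decide
    exact key _ _ _ h1 h2
  simp only [Finset.mem_insert, Finset.mem_singleton] at hu hv hw
  have l3 := l1.trans l2
  rcases hu with rfl | rfl | rfl <;> rcases hv with rfl | rfl | rfl <;>
    rcases hw with rfl | rfl | rfl <;>
    first
    | exact lt_irrefl _ l1
    | exact lt_irrefl _ l2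
    | exact lt_irrefl _ l3
    | exact f1 f3.1
    | exact f1 f3.2
    | exact f2 (hb _ hy _ hy' uy uy' (by rwa [(dsd_lt l1).1, (dsd_lt l3).1] at hs))
    | exact f2 (hb _ hy' _ hy uy' uy (by rw [(dsd_lt l1).1, (dsd_lt l3).1] at hs; exact hs.symm))
    | exact f2 (hb _ hx _ hy' ux uy' (by rwa [(dsd_lt l1).2, (dsd_lt l2).1] at hs))
    | exact f2 (hb _ hx _ hy ux uy (by rw [(dsd_lt l1).2, (dsd_lt l2).1] at hs; exact hs.symm))

theorem dsd_top {b : V → ZMod 2} {x y x' y' : V} (h1 : h x < h y ∨ h y < h x)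
    (h2 : h x' < h y' ∨ h y' < h x') (h3 : h x < h y' ∨ h y' < h x)
    (h4 : h x' < h y ∨ h y < h x') (hs : dsdSide τ h b (x, y) = dsdSide τ h b (x', y')) :
    dsdSide τ h b (x, y') = dsdSide τ h b (x, y) ∨ dsdSide τ h b (x', y) = dsdSide τ h b (x, y) := by
  rcases h1 with h1 | h1
  · rcases h4 with h4 | h4
    · exact Or.inr (by rw [(dsd_lt h1).1, (dsd_lt h4).1])
    rcases h2 with h2 | h2
    · exact Or.inl (by rw [hs, (dsd_lt h2).1, (dsd_lt ((h1.trans h4).trans h2)).1])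
    · exact Or.inr (by rw [hs, (dsd_lt h2).2, (dsd_lt h4).2])
  · rcases h3 with h3 | h3
    · rcases h2 with h2 | h2
      · exact Or.inl (by rw [hs, (dsd_lt h2).1, (dsd_lt h3).1])
      · exact Or.inr (by rw [hs, (dsd_lt h2).2, (dsd_lt ((h1.trans h3).trans h2)).2])
    · exact Or.inl (by rw [(dsd_lt h1).2, (dsd_lt h3).2])

theorem dsd_par (d : DS G U τ T h m F o) {g : V × V → ZMod 2} (hg : PF G U τ h F g) {S : Fc G}
    (hA : S ∈ ActF G U F) (hB : T S ∈ ActF G U F) {x y x' y' : V} (hx : x ∈ S.1) (hy : y ∈ S.1)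
    (hx' : x' ∈ S.1) (hy' : y' ∈ S.1) (he : FE G U F (x, y)) (he' : FE G U F (x', y'))
    (ha : o S x = o S x')
    (hs : dsdSide τ h (o (T S)) (x, y) = dsdSide τ h (o (T S)) (x', y')) :
    g (x, y) = g (x', y') := by
  have e1 : FE G U F (x, y') := ⟨he.1, he'.2.1, S.2.2 _ hx _ hy', by
    have h2 : F x' y' ≠ 0 := he'.2.2.2
    rw [d.coor.pot _ hA _ hx' _ hy' he'.1 he'.2.1, ← ha] at h2
    show F x y' ≠ 0
    rwa [d.coor.pot _ hA _ hx _ hy' he.1 he'.2.1]⟩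
  have e2 : FE G U F (x', y) := ⟨he'.1, he.2.1, S.2.2 _ hx' _ hy, by
    have h2 : F x y ≠ 0 := he.2.2.2
    rw [d.coor.pot _ hA _ hx _ hy he.1 he.2.1, ha] at h2
    show F x' y ≠ 0
    rwa [d.coor.pot _ hA _ hx' _ hy he'.1 he.2.1]⟩
  rcases dsd_top (dsd_ne d he) (dsd_ne d he') (dsd_ne d e1) (dsd_ne d e2) hs with h1 | h1
  · rw [dsd_one d hg hA hB hx hy hy' he e1 h1.symm, ← hg.1 _ _ e1, ← hg.1 _ _ he']
    exact dsd_one d hg hA hB hy' hx hx' (dsd_swap d e1) (dsd_swap d he')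
      (by rw [dsd_side_swap d e1, dsd_side_swap d he', h1, hs])
  · rw [← dsd_one d hg hA hB hx' hy hy' e2 he' (h1.trans hs), ← hg.1 _ _ e2, ← hg.1 _ _ he]
    exact dsd_one d hg hA hB hy hx hx' (dsd_swap d he) (dsd_swap d e2)
      (by rw [dsd_side_swap d e2, dsd_side_swap d he, h1])

/-- Two crossed edges of one simplex on the same side of the second sheet. -/
theorem dsd_all (d : DS G U τ T h m F o) {g : V × V → ZMod 2} (hg : PF G U τ h F g) {S : Fc G}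
    (hA : S ∈ ActF G U F) (hB : T S ∈ ActF G U F) {e e' : V × V} (hx : e.1 ∈ S.1 ∧ e.2 ∈ S.1)
    (hx' : e'.1 ∈ S.1 ∧ e'.2 ∈ S.1) (he : FE G U F e) (he' : FE G U F e')
    (hs : dsdSide τ h (o (T S)) e = dsdSide τ h (o (T S)) e') : g e = g e' := by
  obtain ⟨x, y⟩ := e
  obtain ⟨x', y'⟩ := e'
  by_cases ha : o S x = o S x'
  · exact dsd_par d hg hA hB hx.1 hx.2 hx'.1 hx'.2 he he' ha hs
  · rw [← hg.1 _ _ he']
    refine dsd_par d hg hA hB hx.1 hx.2 hx'.2 hx'.1 he (dsd_swap d he') ?_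
      (by rw [dsd_side_swap d he', hs])
    have h2 : F x' y' ≠ 0 := he'.2.2.2
    rw [d.coor.pot _ hA _ hx'.1 _ hx'.2 he'.1 he'.2.1] at h2
    have key : ∀ a b c : ZMod 2, a ≠ b → b + c ≠ 0 → a = c := by decide
    exact key _ _ _ ha h2

theorem dsd_wing (d : DS G U τ T h m F o) {u v w : V} (ht : DT G U τ h F u v w) {S : Fc G}
    (hS : u ∈ S.1 ∧ v ∈ S.1 ∧ w ∈ S.1) (s : ZMod 2) :
    ((wing G τ F o u v w s).1 ∈ S.1 ∧ (wing G τ F o u v w s).2 ∈ S.1) ∧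
      dsdSide τ h (o (T S)) (wing G τ F o u v w s) = s := by
  have hB := (dsd_act d ht hS).2
  obtain ⟨hu, hv, hw, -, -, -, l1, l2, -, f2⟩ := ht
  have hsub : ({τ w, τ v, τ u} : Finset V) ⊆ (T S).1 := by
    intro z hz
    simp only [Finset.mem_insert, Finset.mem_singleton] at hz
    rcases hz with rfl | rfl | rfl
    exacts [dsd_tmem d hS.2.2, dsd_tmem d hS.2.1, dsd_tmem d hS.1]
  have hc : Clq G {τ w, τ v, τ u} :=
    ⟨⟨τ w, by simp⟩, fun a ha b hb => (T S).2.2 a (hsub ha) b (hsub hb)⟩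
  have h1 : o (tr3 G (τ w) (τ v) (τ u)) (τ v) = o (T S) (τ v) := by
    rw [tr3, dif_pos hc]
    exact (d.coor.res ⟨_, hc⟩ ⟨τ v, by simp, τ w, by simp, (d.tmem _).2 hv, (d.tmem _).2 hw, f2⟩
      (T S) hsub (τ v) (by simp) ((d.tmem _).2 hv)).symm
  rw [d.coor.pot _ hB _ (dsd_tmem d hS.2.1) _ (dsd_tmem d hS.2.2) ((d.tmem _).2 hv)
    ((d.tmem _).2 hw)] at f2
  have key : ∀ a b c : ZMod 2, a ≠ b → b + c ≠ 0 → c = a := by decide
  unfold wing
  rw [h1]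
  split_ifs with h2 h3
  · exact ⟨⟨hS.1, hS.2.1⟩, (dsd_lt l1).1.trans h2.symm⟩
  · exact ⟨⟨hS.1, hS.2.2⟩, (dsd_lt (l1.trans l2)).1.trans (key _ _ _ h2 f2)⟩
  · exact ⟨⟨hS.2.1, hS.2.2⟩, (dsd_lt l2).1.trans (key _ _ _ h2 f2)⟩

theorem DS.wing_adj (d : DS G U τ T h m F o) {u v w u' v' w' : V} (ht : DT G U τ h F u v w)
    (ht' : DT G U τ h F u' v' w') (S : Fc G) (hS : u ∈ S.1 ∧ v ∈ S.1 ∧ w ∈ S.1)
    (hS' : u' ∈ S.1 ∧ v' ∈ S.1 ∧ w' ∈ S.1) {g : V × V → ZMod 2} (hg : PF G U τ h F g) (s : ZMod 2) :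
    g (wing G τ F o u v w s) = g (wing G τ F o u' v' w' s) := by
  obtain ⟨hA, hB⟩ := dsd_act d ht hS
  exact dsd_all d hg hA hB (dsd_wing d ht hS s).1 (dsd_wing d ht' hS' s).1 (d.wing_fe ht s)
    (d.wing_fe ht' s) ((dsd_wing d ht hS s).2.trans (dsd_wing d ht' hS' s).2.symm)

theorem DS.wing_A (d : DS G U τ T h m F o) (hc : ECon G U F) {g : V × V → ZMod 2}
    (hg : PF G U τ h F g)
    (hA : ∀ u v w, DT G U τ h F u v w → g (wing G τ F o u v w 0) = g (wing G τ F o u v w 1)) :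
    ∀ e e', FE G U F e → FE G U F e' → g e = g e' := by
  have step : ∀ e e', FStep G U F e e' → g e = g e' := by
    rintro ⟨x, y⟩ ⟨x', y'⟩ ⟨he, he', ⟨h1, h2⟩ | h1⟩
    · have h3 : x' = x := h1
      subst h3
      by_cases hD : Dbl G U τ h F {x', y, y'}
      · obtain ⟨u, hu, v, hv, w, hw, ht⟩ := hD
        have hc : Clq G {x', y, y'} := by
          refine ⟨⟨x', by simp⟩, fun a ha b hb => ?_⟩
          simp only [Finset.mem_insert, Finset.mem_singleton] at ha hb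
          have r1 : G.r x' y := he.2.2.1
          have r2 : G.r x' y' := he'.2.2.1
          have r3 : G.r y y' := h2
          rcases ha with rfl | rfl | rfl <;> rcases hb with rfl | rfl | rfl <;>
            first
            | exact G.refl _
            | assumption
            | exact G.symm _ _ (by assumption)
        have hS : u ∈ (⟨_, hc⟩ : Fc G).1 ∧ v ∈ (⟨_, hc⟩ : Fc G).1 ∧ w ∈ (⟨_, hc⟩ : Fc G).1 :=
          ⟨hu, hv, hw⟩
        obtain ⟨a1, a2⟩ := dsd_act d ht hS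
        have key : ∀ e : V × V, e.1 ∈ (⟨_, hc⟩ : Fc G).1 ∧ e.2 ∈ (⟨_, hc⟩ : Fc G).1 →
            FE G U F e → g e = g (wing G τ F o u v w 0) := fun e m1 m2 => by
          rw [dsd_all d hg a1 a2 m1 (dsd_wing d ht hS _).1 m2 (d.wing_fe ht _)
            (dsd_wing d ht hS _).2.symm]
          have two : ∀ a : ZMod 2, a = 0 ∨ a = 1 := by decide
          rcases two (dsdSide τ h (o (T ⟨_, hc⟩)) e) with h4 | h4 <;> rw [h4]
          exact (hA u v w ht).symm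
        rw [key (x', y) ⟨by simp, by simp⟩ he, key (x', y') ⟨by simp, by simp⟩ he']
      · exact hg.2 _ _ _ he he' h2 hD
    · rw [h1]
      exact (hg.1 x y he).symm
  intro e e' he he'
  have h1 := hc e e' he he'
  clear he'
  induction h1 with
  | refl => rfl
  | tail _ h2 ih => exact ih.trans (step _ _ h2)

end KG
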