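import Pool.Agent.Work.MP_c146e2_gt.KG.CovA

set_option autoImplicit false

noncomputable section

open scoped Classical

namespace KG

variable {V V' : Type}

/-- The projection of an invariant cocycle. -/
def projF (G' : Cx V') (U' : Set V') (p : V' → V) (H : V' → V' → ZMod 2) (a b : V) : ZMod 2 :=
  if ∃ x ∈ U', ∃ y ∈ U', G'.r x y ∧ p x = a ∧ p y = b ∧ H x y ≠ 0 then 1 else 0

section cover

variable {G' : Cx V'} {G : Cx V} {U' : Set V'} {U : Set V} {p : V' → V} {τ : V' → V'}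

theorem proj_tmem (h : Cov G' G U' U p τ) {x : V'} (hx : x ∈ U') : τ x ∈ U' :=
  (h.mem _).1 (by rw [h.ptau]; exact (h.mem x).2 hx)

theorem proj_val (h : Cov G' G U' U p τ) {H : V' → V' → ZMod 2}
    (ht : ∀ x ∈ U', ∀ y ∈ U', G'.r x y → H (τ x) (τ y) = H x y) {x y : V'} (hx : x ∈ U')
    (hy : y ∈ U') (hxy : G'.r x y) : projF G' U' p H (p x) (p y) = H x y := by
  unfold projF
  by_cases h0 : H x y = 0
  · rw [if_neg, h0]
    rintro ⟨x', hx', y', -, h1, h2, h3, h4⟩
    rcases h.fib x hx x' h2 with rfl | rfl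
    · rw [(h.star _ hx).inj y' y h1 hxy h3] at h4
      exact h4 h0
    · rw [(h.star _ hx').inj y' (τ y) h1 (h.tmap _ _ hxy) (h3.trans (h.ptau y).symm),
        ht x hx y hy hxy] at h4
      exact h4 h0
  · rw [if_pos ⟨x, hx, y, hy, hxy, rfl, rfl, h0⟩]
    revert h0
    generalize H x y = w
    revert w
    decide

theorem proj_lift (h : Cov G' G U' U p τ) {a : V} (ha : a ∈ U) : ∃ x ∈ U', p x = a := by
  obtain ⟨x, hx⟩ := h.sur a ha
  exact ⟨x, (h.mem x).1 (hx ▸ ha), hx⟩

theorem proj_tri (h : Cov G' G U' U p τ) {a b d : V} (ha : a ∈ U) (h1 : G.r a b) (h2 : G.r a d)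
    (h3 : G.r b d) : ∃ x y z, x ∈ U' ∧ p x = a ∧ p y = b ∧ p z = d ∧ G'.r x y ∧ G'.r x z ∧
      G'.r y z := by
  obtain ⟨x, hx, rfl⟩ := proj_lift h ha
  obtain ⟨y, hy, rfl⟩ := (h.star x hx).sur b h1
  obtain ⟨z, hz, rfl⟩ := (h.star x hx).sur d h2
  exact ⟨x, y, z, hx, rfl, rfl, rfl, hy, hz, ((h.star x hx).adj y z hy hz).2 h3⟩

theorem proj_fe (h : Cov G' G U' U p τ) {H : V' → V' → ZMod 2}
    (ht : ∀ x ∈ U', ∀ y ∈ U', G'.r x y → H (τ x) (τ y) = H x y) {e : V' × V'}
    (he : FE G' U' H e) : FE G U (projF G' U' p H) (p e.1, p e.2) := by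
  refine ⟨(h.mem _).2 he.1, (h.mem _).2 he.2.1, h.map _ _ he.2.2.1, ?_⟩
  show projF G' U' p H (p e.1) (p e.2) ≠ 0
  rw [proj_val h ht he.1 he.2.1 he.2.2.1]
  exact he.2.2.2

theorem proj_fe_lift (h : Cov G' G U' U p τ) {H : V' → V' → ZMod 2}
    (ht : ∀ x ∈ U', ∀ y ∈ U', G'.r x y → H (τ x) (τ y) = H x y) {e : V × V}
    (he : FE G U (projF G' U' p H) e) : ∃ e', FE G' U' H e' ∧ (p e'.1, p e'.2) = e := by
  obtain ⟨a, b⟩ := e
  obtain ⟨h1, h2, h3, h4⟩ := he
  obtain ⟨x, hx, rfl⟩ := proj_lift h h1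
  obtain ⟨y, hy, rfl⟩ := (h.star x hx).sur b h3
  have hyU : y ∈ U' := (h.mem y).1 h2
  refine ⟨(x, y), ⟨hx, hyU, hy, ?_⟩, rfl⟩
  rw [← proj_val h ht hx hyU hy]
  exact h4

theorem proj_symm {F : V → V → ZMod 2} {e e' : V × V} (h : FStep G U F e e') :
    FStep G U F e' e := by
  refine ⟨h.2.1, h.1, ?_⟩
  rcases h.2.2 with h1 | h1
  · exact Or.inl ⟨h1.1.symm, G.symm _ _ h1.2⟩
  · exact Or.inr (by rw [h1, Prod.swap_swap])

theorem proj_step (h : Cov G' G U' U p τ) {H : V' → V' → ZMod 2}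
    (ht : ∀ x ∈ U', ∀ y ∈ U', G'.r x y → H (τ x) (τ y) = H x y) {e e' : V' × V'}
    (he : FStep G' U' H e e') :
    FStep G U (projF G' U' p H) (p e.1, p e.2) (p e'.1, p e'.2) := by
  refine ⟨proj_fe h ht he.1, proj_fe h ht he.2.1, ?_⟩
  rcases he.2.2 with h1 | h1
  · exact Or.inl ⟨congrArg p h1.1, h.map _ _ h1.2⟩
  · exact Or.inr (by rw [h1]; rfl)

theorem proj_act (h : Cov G' G U' U p τ) {H : V' → V' → ZMod 2}
    (ht : ∀ x ∈ U', ∀ y ∈ U', G'.r x y → H (τ x) (τ y) = H x y) {s : Finset V'} (hs : Clq G' s) :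
    (Ins s U' ∧ ∃ a ∈ s, ∃ b ∈ s, H a b ≠ 0) ↔
      (Ins (s.image p) U ∧ ∃ a ∈ s.image p, ∃ b ∈ s.image p, projF G' U' p H a b ≠ 0) := by
  have hi : Ins s U' ↔ Ins (s.image p) U := by
    constructor
    · intro h1 a ha
      obtain ⟨x, hx, rfl⟩ := Finset.mem_image.1 ha
      exact (h.mem x).2 (h1 x hx)
    · intro h1 x hx
      exact (h.mem x).1 (h1 _ (Finset.mem_image_of_mem p hx))
  constructor
  · rintro ⟨h1, x, hx, y, hy, hxy⟩
    refine ⟨hi.1 h1, _, Finset.mem_image_of_mem p hx, _, Finset.mem_image_of_mem p hy, ?_⟩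
    rw [proj_val h ht (h1 x hx) (h1 y hy) (hs.2 x hx y hy)]
    exact hxy
  · rintro ⟨h1, a, ha, b, hb, hab⟩
    obtain ⟨x, hx, rfl⟩ := Finset.mem_image.1 ha
    obtain ⟨y, hy, rfl⟩ := Finset.mem_image.1 hb
    refine ⟨hi.2 h1, x, hx, y, hy, ?_⟩
    rw [← proj_val h ht (hi.2 h1 x hx) (hi.2 h1 y hy) (hs.2 x hx y hy)]
    exact hab

theorem proj_chi [Fintype V] [Fintype V'] (h : Cov G' G U' U p τ) {H : V' → V' → ZMod 2}
    (ht : ∀ x ∈ U', ∀ y ∈ U', G'.r x y → H (τ x) (τ y) = H x y) :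
    chiF G' U' H = 2 * chiF G U (projF G' U' p H) := by
  unfold chiF
  rw [← Finset.sum_fiberwise Finset.univ (fun s : Finset V' => s.image p), Finset.mul_sum]
  refine Finset.sum_congr rfl fun s _ => ?_
  by_cases hQ : Clq G s ∧ Ins s U ∧ ∃ a ∈ s, ∃ b ∈ s, projF G' U' p H a b ≠ 0
  · rw [if_pos hQ]
    obtain ⟨a, ha⟩ := hQ.1.1
    obtain ⟨x, hx, rfl⟩ := proj_lift h (hQ.2.1 a ha)
    have hx' := proj_tmem h hx
    obtain ⟨s1, c1, m1, e1, u1⟩ := ctc_lift (h.star x hx) hQ.1 ha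
    obtain ⟨s2, c2, m2, e2, u2⟩ := ctc_lift (h.star _ hx') hQ.1 (by rw [h.ptau]; exact ha)
    have hne : s1 ≠ s2 := by
      rintro rfl
      exact h.free x hx ((h.star x hx).inj _ _ (c1.2 x m1 _ m2) (G'.refl x) (h.ptau x))
    have k1 : s1.card = s.card := by rw [e1, (ctc_image (h.star x hx) c1 m1).2]
    have k2 : s2.card = s.card := by rw [e2, (ctc_image (h.star _ hx') c2 m2).2]
    have q1 : Clq G' s1 ∧ Ins s1 U' ∧ ∃ a ∈ s1, ∃ b ∈ s1, H a b ≠ 0 :=
      ⟨c1, (proj_act h ht c1).2 (e1 ▸ hQ.2)⟩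
    have q2 : Clq G' s2 ∧ Ins s2 U' ∧ ∃ a ∈ s2, ∃ b ∈ s2, H a b ≠ 0 :=
      ⟨c2, (proj_act h ht c2).2 (e2 ▸ hQ.2)⟩
    rw [← Finset.sum_subset (s₁ := {s1, s2}), Finset.sum_pair hne, if_pos q1, if_pos q2, k1, k2,
      two_mul]
    · intro t htt
      simp only [Finset.mem_insert, Finset.mem_singleton] at htt
      rw [Finset.mem_filter]
      rcases htt with rfl | rfl
      · exact ⟨Finset.mem_univ _, e1.symm⟩
      · exact ⟨Finset.mem_univ _, e2.symm⟩
    · intro t h1 h2
      refine if_neg fun h3 => h2 ?_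
      have e3 := (Finset.mem_filter.1 h1).2
      obtain ⟨y, hy, hyx⟩ := Finset.mem_image.1 (e3 ▸ ha : p x ∈ t.image p)
      simp only [Finset.mem_insert, Finset.mem_singleton]
      rcases h.fib x hx y hyx with rfl | rfl
      · exact Or.inl (u1 t h3.1 hy e3.symm)
      · exact Or.inr (u2 t h3.1 hy e3.symm)
  · rw [if_neg hQ, mul_zero]
    refine Finset.sum_eq_zero fun t h1 => if_neg fun h3 => hQ ?_
    rw [← (Finset.mem_filter.1 h1).2]
    obtain ⟨x, hx⟩ := h3.1.1
    exact ⟨(ctc_image (h.star x (h3.2.1 x hx)) h3.1 hx).1, (proj_act h ht h3.1).1 h3.2⟩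

end cover

theorem Cov.proj [Fintype V] [Fintype V'] {G' : Cx V'} {G : Cx V} {U' : Set V'} {U : Set V}
    {p : V' → V} {τ : V' → V'} (h : Cov G' G U' U p τ) {H : V' → V' → ZMod 2} (hc : Coc G' U' H)
    (ht : ∀ x ∈ U', ∀ y ∈ U', G'.r x y → H (τ x) (τ y) = H x y) {c : V → V → V → ZMod 2}
    (hb : ∀ x y z, Tr G' U' x y z → H x y = c (p x) (p y) (p z))
    (hconn : ∀ Φ : V' × V' → ZMod 2, (∀ e e', FStep G' U' H e e' → Φ e = Φ e') →
      (∀ e, FE G' U' H e → Φ (τ e.1, τ e.2) = Φ e) →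
      ∀ e e', FE G' U' H e → FE G' U' H e' → Φ e = Φ e')
    (hchi : chiF G' U' H = 2) : ∃ F, Disc G U c F := by
  refine ⟨projF G' U' p H, fun a ha b hb' d hd h1 h2 h3 => ?_, fun a b z habz => ?_,
    fun e e' he he' => ?_, ?_⟩
  · obtain ⟨x, y, z, hx, rfl, rfl, rfl, r1, r2, r3⟩ := proj_tri h ha h1 h3 h2
    have hy := (h.mem y).1 hb'
    have hz := (h.mem z).1 hd
    rw [proj_val h ht hx hy r1, proj_val h ht hy hz r3, proj_val h ht hx hz r2]
    exact hc x hx y hy z hz r1 r3 r2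
  · obtain ⟨ha, hb', hz, h1, h2, h3⟩ := habz
    obtain ⟨x, y, w, hx, rfl, rfl, rfl, r1, r2, r3⟩ := proj_tri h ha h1 h2 h3
    have hy := (h.mem y).1 hb'
    rw [proj_val h ht hx hy r1]
    exact hb x y w ⟨hx, hy, fun hw => hz ((h.mem w).2 hw), r1, r2, r3⟩
  · obtain ⟨f, hf, rfl⟩ := proj_fe_lift h ht he
    obtain ⟨f', hf', rfl⟩ := proj_fe_lift h ht he'
    have key := hconn (fun g => if Relation.ReflTransGen (FStep G U (projF G' U' p H))
      (p f.1, p f.2) (p g.1, p g.2) then 1 else 0) (fun g g' hg => if_congr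
        ⟨fun h1 => h1.tail (proj_step h ht hg), fun h1 => h1.tail (proj_symm (proj_step h ht hg))⟩
        rfl rfl) (fun g _ => by simp only [h.ptau]) f f' hf hf'
    simp only [if_pos Relation.ReflTransGen.refl] at key
    by_contra h1
    rw [if_neg h1] at key
    exact absurd key (by decide)
  · have := proj_chi h ht
    omega

/-- Two ports with the same values on their wings and on the wings of their partners. -/
def projS {S N : Type} (τ : S → S) (wing : S → ZMod 2 → N) (P : (N → ZMod 2) → Prop)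
    (t t' : S) : Prop :=
  ∀ g, P g → ∀ s, g (wing t s) = g (wing t' s) ∧ g (wing (τ t) s) = g (wing (τ t') s)

def projR {S N : Type} (τ : S → S) (wing : S → ZMod 2 → N) (P : (N → ZMod 2) → Prop)
    (t t' : S) : Prop := projS τ wing P t t' ∨ projS τ wing P t (τ t')

section ports

variable {S N : Type} {τ : S → S} {wing : S → ZMod 2 → N} {P C : (N → ZMod 2) → Prop}

theorem projR_refl (t : S) : projR τ wing P t t := Or.inl fun _ _ _ => ⟨rfl, rfl⟩

theorem projR_symm (hτ : ∀ t, τ (τ t) = t) {t t' : S} (h : projR τ wing P t t') :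
    projR τ wing P t' t := by
  rcases h with h | h
  · exact Or.inl fun g hg s => ⟨(h g hg s).1.symm, (h g hg s).2.symm⟩
  · refine Or.inr fun g hg s => ?_
    have := h g hg s
    rw [hτ] at this ⊢
    exact ⟨this.2.symm, this.1.symm⟩

theorem projR_trans (hτ : ∀ t, τ (τ t) = t) {t t' t'' : S} (h : projR τ wing P t t')
    (h' : projR τ wing P t' t'') : projR τ wing P t t'' := by
  rcases h with h | h <;> rcases h' with h' | h'
  · exact Or.inl fun g hg s => ⟨(h g hg s).1.trans (h' g hg s).1, (h g hg s).2.trans (h' g hg s).2⟩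
  · exact Or.inr fun g hg s => ⟨(h g hg s).1.trans (h' g hg s).1, (h g hg s).2.trans (h' g hg s).2⟩
  · refine Or.inr fun g hg s => ?_
    have h1 := h g hg s
    have h2 := h' g hg s
    rw [hτ] at h1 ⊢
    exact ⟨h1.1.trans h2.2, h1.2.trans h2.1⟩
  · refine Or.inl fun g hg s => ?_
    have h1 := h g hg s
    have h2 := h' g hg s
    rw [hτ] at h1 h2
    exact ⟨h1.1.trans h2.2, h1.2.trans h2.1⟩

theorem projR_tau (hτ : ∀ t, τ (τ t) = t) (t : S) : projR τ wing P t (τ t) :=
  Or.inr fun _ _ _ => by rw [hτ]; exact ⟨rfl, rfl⟩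

/-- On a class on which the wings are glued, the difference of the two wings is constant. -/
theorem projR_diff {t t' : S} (hτ : ∀ t, τ (τ t) = t) (h : projR τ wing P t t') {g : N → ZMod 2}
    (hg : P g) {i : ZMod 2} (hi : ∀ s, g (wing t s) = g (wing (τ t) (s + i))) :
    g (wing t' 0) + g (wing t' 1) = g (wing t 0) + g (wing t 1) := by
  rcases h with h | h
  · rw [(h g hg 0).1, (h g hg 1).1]
  · have h0 := (h g hg 0).2
    have h1 := (h g hg 1).2
    rw [hτ] at h0 h1
    rw [← h0, ← h1, hi 0, hi 1]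
    have z : ∀ j : ZMod 2, j = 0 ∨ j = 1 := by decide
    rcases z i with rfl | rfl
    · rfl
    · rw [add_comm]
      rfl

theorem proj_ind (hτ : ∀ t, τ (τ t) = t) (hP : ∀ g g', P g → P g' → P (g + g'))
    (hA : ∀ g, P g → (∀ t, g (wing t 0) = g (wing t 1)) → C g)
    (hC : ∀ g, P g → C g → ∀ t t' s s', g (wing t s) = g (wing t' s')) (A : Finset S) :
    ∃ ε : S → ZMod 2, (∀ t t', projR τ wing P t t' → ε t = ε t') ∧ ∀ g, P g →
      (∀ t, (∃ a ∈ A, projR τ wing P a t) → ∀ s, g (wing t s) = g (wing (τ t) (s + ε t))) →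
      (∀ t, ¬ (∃ a ∈ A, projR τ wing P a t) → g (wing t 0) = g (wing t 1)) → C g := by
  induction A using Finset.induction_on with
  | empty =>
    exact ⟨fun _ => 0, fun _ _ _ => rfl, fun g hg _ h2 => hA g hg fun t => h2 t (by simp)⟩
  | insert t0 A _ ih =>
    obtain ⟨ε, hε, hg⟩ := ih
    by_cases h0 : ∃ a ∈ A, projR τ wing P a t0
    · obtain ⟨a, ha, hat⟩ := h0
      refine ⟨ε, hε, fun g h1 h2 h3 => hg g h1 (fun t ⟨b, hb, hbt⟩ =>
        h2 t ⟨b, Finset.mem_insert_of_mem hb, hbt⟩) fun t ht => h3 t ?_⟩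
      rintro ⟨b, hb, hbt⟩
      rcases Finset.mem_insert.1 hb with rfl | hb
      · exact ht ⟨a, ha, projR_trans hτ hat hbt⟩
      · exact ht ⟨b, hb, hbt⟩
    · by_contra hcon
      have z1 : ∀ x y : ZMod 2, x = y ↔ x + y = 0 := by decide
      have bad : ∀ i : ZMod 2, ∃ g, P g ∧
          (∀ t, (∃ a ∈ A, projR τ wing P a t) → ∀ s, g (wing t s) = g (wing (τ t) (s + ε t))) ∧
          (∀ s, g (wing t0 s) = g (wing (τ t0) (s + i))) ∧
          (∀ t, ¬ (∃ a ∈ A, projR τ wing P a t) → ¬ projR τ wing P t0 t →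
            g (wing t 0) = g (wing t 1)) ∧ g (wing t0 0) + g (wing t0 1) = 1 := by
        intro i
        by_contra hno
        refine hcon ⟨fun t => if projR τ wing P t0 t then i else ε t, fun t t' htt => ?_,
          fun g h1 h2 h3 => ?_⟩
        · by_cases h4 : projR τ wing P t0 t
          · simp only [if_pos h4, if_pos (projR_trans hτ h4 htt)]
          · have h5 : ¬ projR τ wing P t0 t' := fun h5 =>
              h4 (projR_trans hτ h5 (projR_symm hτ htt))
            simp only [if_neg h4, if_neg h5]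
            exact hε t t' htt
        · have a1 : ∀ t, (∃ a ∈ A, projR τ wing P a t) →
              ∀ s, g (wing t s) = g (wing (τ t) (s + ε t)) := by
            rintro t ⟨a, ha, hat⟩ s
            have h4 : ¬ projR τ wing P t0 t := fun h4 =>
              h0 ⟨a, ha, projR_trans hτ hat (projR_symm hτ h4)⟩
            have := h2 t ⟨a, Finset.mem_insert_of_mem ha, hat⟩ s
            simp only [if_neg h4] at this
            exact this
          have a2 : ∀ s, g (wing t0 s) = g (wing (τ t0) (s + i)) := by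
            intro s
            have := h2 t0 ⟨t0, Finset.mem_insert_self _ _, projR_refl t0⟩ s
            simp only [if_pos (projR_refl t0)] at this
            exact this
          have a3 : ∀ t, ¬ (∃ a ∈ A, projR τ wing P a t) → ¬ projR τ wing P t0 t →
              g (wing t 0) = g (wing t 1) := by
            intro t h4 h5
            refine h3 t ?_
            rintro ⟨b, hb, hbt⟩
            rcases Finset.mem_insert.1 hb with rfl | hb
            · exact h5 hbt
            · exact h4 ⟨b, hb, hbt⟩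
          refine hg g h1 a1 fun t h4 => ?_
          by_cases h5 : projR τ wing P t0 t
          · rw [z1, projR_diff hτ h5 h1 a2]
            by_contra h6
            refine hno ⟨g, h1, a1, a2, a3, ?_⟩
            revert h6
            generalize g (wing t0 0) + g (wing t0 1) = w
            revert w
            decide
          · exact a3 t h4 h5
      obtain ⟨g0, p0, a0, b0, c0, d0⟩ := bad 0
      obtain ⟨g1, p1, a1, b1, c1, d1⟩ := bad 1
      have hsum : C (g0 + g1) := by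
        refine hg _ (hP _ _ p0 p1) (fun t ht s => ?_) fun t ht => ?_
        · simp only [Pi.add_apply]
          rw [a0 t ht s, a1 t ht s]
        · simp only [Pi.add_apply]
          by_cases h5 : projR τ wing P t0 t
          · have e0 := (projR_diff hτ h5 p0 b0).trans d0
            have e1 := (projR_diff hτ h5 p1 b1).trans d1
            revert e0 e1
            generalize g0 (wing t 0) = x
            generalize g0 (wing t 1) = y
            generalize g1 (wing t 0) = z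
            generalize g1 (wing t 1) = w
            revert x y z w
            decide
          · rw [c0 t ht h5, c1 t ht h5]
      have e1 := hC _ (hP _ _ p0 p1) hsum t0 (τ t0) 0 0
      have e2 : g0 (wing t0 0) = g0 (wing (τ t0) 0) := b0 0
      have e3 : g1 (wing t0 1) = g1 (wing (τ t0) 0) := b1 1
      simp only [Pi.add_apply] at e1
      rw [← e2, ← e3] at e1
      revert e1 d1
      generalize g0 (wing t0 0) = x
      generalize g1 (wing t0 0) = y
      generalize g1 (wing t0 1) = z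
      revert x y z
      decide

end ports

theorem ports {S N : Type} [Finite S] (τ : S → S) (hτ : ∀ t, τ (τ t) = t) (adj : S → S → Prop)
    (hadj : ∀ t t', adj t t' → adj (τ t) (τ t')) (wing : S → ZMod 2 → N)
    (P C : (N → ZMod 2) → Prop) (hP : ∀ g g', P g → P g' → P (g + g'))
    (hw : ∀ t t', adj t t' → ∀ g, P g → ∀ s, g (wing t s) = g (wing t' s))
    (hA : ∀ g, P g → (∀ t, g (wing t 0) = g (wing t 1)) → C g)
    (hC : ∀ g, P g → C g → ∀ t t' s s', g (wing t s) = g (wing t' s')) :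
    ∃ ε : S → ZMod 2, (∀ t, ε (τ t) = ε t) ∧ (∀ t t', adj t t' → ε t = ε t') ∧
      ∀ g, P g → (∀ t s, g (wing t s) = g (wing (τ t) (s + ε t))) → C g := by
  have := Fintype.ofFinite S
  obtain ⟨ε, hε, hg⟩ := proj_ind hτ hP hA hC (Finset.univ : Finset S)
  refine ⟨ε, fun t => (hε _ _ (projR_tau hτ t)).symm, fun t t' h => hε _ _ (Or.inl fun g h1 s =>
    ⟨hw t t' h g h1 s, hw _ _ (hadj t t' h) g h1 s⟩), fun g h1 h2 =>
      hg g h1 (fun t _ => h2 t) fun t ht => absurd ⟨t, Finset.mem_univ t, projR_refl t⟩ ht⟩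

end KG
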