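import Pool.Agent.Work.MP_c146e2_gt.KG.DsB
import Pool.Agent.Work.MP_c146e2_gt.KG.DsC
import Pool.Agent.Work.MP_c146e2_gt.KG.DsD
import Pool.Agent.Work.MP_c146e2_gt.KG.Proj
import Pool.Agent.Work.MP_c146e2_gt.KG.CovL
import Pool.Agent.Work.MP_c146e2_gt.KG.DiscF

set_option autoImplicit false

noncomputable section

open scoped Classical

namespace KG

variable {V V' : Type}

section
variable [Fintype V] {G : Cx V} {U : Set V} {τ : V → V} {T : Fc G → Fc G} {h : V → ℤ}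
  {m : Fc G → V} {F : V → V → ZMod 2} {o : Fc G → V → ZMod 2}

omit [Fintype V] in
theorem desc_clq {u v w : V} (ht : DT G U τ h F u v w) : Clq G {u, v, w} := by
  obtain ⟨-, -, -, h1, h2, h3, -⟩ := ht
  refine ⟨⟨u, by simp⟩, fun a ha b hb => ?_⟩
  simp only [Finset.mem_insert, Finset.mem_singleton] at ha hb
  rcases ha with rfl | rfl | rfl <;> rcases hb with rfl | rfl | rfl <;>
    first | exact G.refl _ | assumption | exact G.symm _ _ (by assumption)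

omit [Fintype V] in
theorem desc_tr3 {u v w : V} (ht : DT G U τ h F u v w) :
    u ∈ (tr3 G u v w).1 ∧ v ∈ (tr3 G u v w).1 ∧ w ∈ (tr3 G u v w).1 := by
  have k : tr3 G u v w = ⟨{u, v, w}, desc_clq ht⟩ := dif_pos (desc_clq ht)
  rw [k]
  simp

theorem desc_const {α β : Type} {R : α → α → Prop} {Φ : α → β} (hΦ : ∀ e e', R e e' → Φ e = Φ e')
    {e e' : α} (hr : Relation.ReflTransGen R e e') : Φ e = Φ e' := by
  induction hr with
  | refl => rfl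
  | tail _ h2 ih => exact ih.trans (hΦ _ _ h2)

theorem desc_fe {W : Type} {H : Cx W} {S : Set W} {K : W → W → ZMod 2} {e e' : W × W}
    (he : FE H S K e) (hr : Relation.ReflTransGen (FStep H S K) e e') : FE H S K e' := by
  induction hr with
  | refl => exact he
  | tail _ h2 _ => exact h2.2.1

theorem DS.eps (d : DS G U τ T h m F o) (hc : ECon G U F) : ∃ ε, EpsOK G U τ T h F ε ∧
    ∀ g, PF G U τ h F g → (∀ u v w, DT G U τ h F u v w → ∀ s, g (wing G τ F o u v w s) =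
      g (wing G τ F o (τ w) (τ v) (τ u) (s + ε (tr3 G u v w) + 1))) →
      ∀ e e', FE G U F e → FE G U F e' → g e = g e' := by
  obtain ⟨ε0, e1, e2, e3⟩ := ports (S := {t : V × V × V // DT G U τ h F t.1 t.2.1 t.2.2})
    (N := V × V) (fun t => ⟨(τ t.1.2.2, τ t.1.2.1, τ t.1.1), d.dt t.2⟩)
    (fun t => Subtype.ext (by simp only [d.inv]))
    (fun t t' => ∃ S : Fc G, (t.1.1 ∈ S.1 ∧ t.1.2.1 ∈ S.1 ∧ t.1.2.2 ∈ S.1) ∧
      (t'.1.1 ∈ S.1 ∧ t'.1.2.1 ∈ S.1 ∧ t'.1.2.2 ∈ S.1))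
    (fun t t' ⟨S, h1, h2⟩ => ⟨T S, by
      simp only [d.timg, d.inv]
      exact ⟨⟨h1.2.2, h1.2.1, h1.1⟩, h2.2.2, h2.2.1, h2.1⟩⟩)
    (fun t s => wing G τ F o t.1.1 t.1.2.1 t.1.2.2 s) (PF G U τ h F)
    (fun g => ∀ e e', FE G U F e → FE G U F e' → g e = g e')
    (fun g g' hg hg' => ⟨fun x y k => by
        simp only [Pi.add_apply, hg.1 x y k, hg'.1 x y k],
      fun x y y' k1 k2 k3 k4 => by
        simp only [Pi.add_apply, hg.2 x y y' k1 k2 k3 k4, hg'.2 x y y' k1 k2 k3 k4]⟩)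
    (fun t t' ⟨S, h1, h2⟩ g hg s => d.wing_adj t.2 t'.2 S h1 h2 hg s)
    (fun g hg hA => d.wing_A hc hg fun u v w ht => hA ⟨(u, v, w), ht⟩)
    (fun g _ hC t t' s s' => hC _ _ (d.wing_fe t.2 s) (d.wing_fe t'.2 s'))
  have h0 : ∀ s : Fc G, ∃ x : ZMod 2,
      (∀ t : {t : V × V × V // DT G U τ h F t.1 t.2.1 t.2.2},
        (t.1.1 ∈ s.1 ∧ t.1.2.1 ∈ s.1 ∧ t.1.2.2 ∈ s.1) → x = ε0 t + 1) ∧
      (¬ Dbl G U τ h F s.1 → x = 0) := by
    intro s
    by_cases k : Dbl G U τ h F s.1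
    · obtain ⟨u, hu, v, hv, w, hw, ht⟩ := id k
      exact ⟨ε0 ⟨(u, v, w), ht⟩ + 1, fun t k' => by
        rw [e2 ⟨(u, v, w), ht⟩ t ⟨s, ⟨hu, hv, hw⟩, k'⟩], fun k' => absurd k k'⟩
    · exact ⟨0, fun t k' => absurd ⟨_, k'.1, _, k'.2.1, _, k'.2.2, t.2⟩ k, fun _ => rfl⟩
  choose ε hε hε0 using h0
  refine ⟨ε, ⟨fun s => ?_, fun s s' hs k => ?_⟩, fun g hg hr => e3 g hg fun t s => ?_⟩
  · by_cases k : Dbl G U τ h F s.1
    · obtain ⟨u, hu, v, hv, w, hw, ht⟩ := k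
      rw [hε s ⟨(u, v, w), ht⟩ ⟨hu, hv, hw⟩, ← e1 ⟨(u, v, w), ht⟩]
      refine hε (T s) _ ?_
      simp only [d.timg, d.inv]
      exact ⟨hw, hv, hu⟩
    · rw [hε0 s k, hε0 (T s) fun k' => k (d.dbl_iff.1 k')]
  · obtain ⟨u, hu, v, hv, w, hw, ht⟩ := k
    rw [hε s ⟨(u, v, w), ht⟩ ⟨hu, hv, hw⟩, hε s' ⟨(u, v, w), ht⟩ ⟨hs hu, hs hv, hs hw⟩]
  · have k := hr _ _ _ t.2 s
    rw [hε _ t (desc_tr3 t.2)] at k
    have k' : ∀ x y : ZMod 2, x + (y + 1) + 1 = x + y := by decide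
    rw [k'] at k
    exact k

theorem DS.conn (d : DS G U τ T h m F o) (hc : ECon G U F) : ∃ ε, EpsOK G U τ T h F ε ∧
    ∀ Φ : Fc G × Fc G → ZMod 2,
      (∀ e e', FStep (sd G) (up G U) (GG G U τ T h m F o ε) e e' → Φ e = Φ e') →
      (∀ e, FE (sd G) (up G U) (GG G U τ T h m F o ε) e → Φ (T e.1, T e.2) = Φ e) →
      ∀ e e', FE (sd G) (up G U) (GG G U τ T h m F o ε) e →
        FE (sd G) (up G U) (GG G U τ T h m F o ε) e' → Φ e = Φ e' := by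
  obtain ⟨ε, he, hk⟩ := d.eps hc
  refine ⟨ε, he, fun Φ h1 h2 => ?_⟩
  have key := hk (fun e => Φ (nd G h e))
    ⟨fun x y k => by simp only [d.nd_swap k],
      fun x y y' k1 k2 k3 k4 => desc_const h1 (d.arc ε k1 k2 k3 k4)⟩
    (fun u v w ht s => (desc_const h1 (d.arc2 he ht s)).trans
      (h2 _ (d.nd_fe ε (d.wing_fe (d.dt ht) _))))
  have h3 : ∀ e, FE (sd G) (up G U) (GG G U τ T h m F o ε) e →
      ∃ e0, FE G U F e0 ∧ Φ e = Φ (nd G h e0) := by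
    intro e hf
    obtain ⟨x, hx, y, hy, hr, hne, hp⟩ := d.node he hf
    have f1 := desc_fe hf hp
    have f2 : GG G U τ T h m F o ε (sg G x) (pr G x y) ≠ 0 := f1.2.2.2
    rcases lt_or_gt_of_ne (fun k => hne (d.hinj hx hy k)) with hlt | hlt
    · rw [d.gg_lo ε hx hy hr hlt] at f2
      refine ⟨(τ x, τ y), ⟨(d.tmem x).2 hx, (d.tmem y).2 hy, d.tmap x y hr, f2⟩, ?_⟩
      have k : nd G h (τ x, τ y) = (T (sg G x), T (pr G x y)) := by
        have k' : ¬ h (τ x) < h (τ y) := by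
          rw [d.hneg x hx, d.hneg y hy]
          omega
        simp only [nd, if_neg k', d.T_sg, d.T_pr]
      rw [k]
      exact (desc_const h1 hp).trans (h2 _ f1).symm
    · rw [d.gg_hi ε hx hy hr hlt] at f2
      refine ⟨(x, y), ⟨hx, hy, hr, f2⟩, ?_⟩
      have k : nd G h (x, y) = (sg G x, pr G x y) := by
        simp only [nd, if_neg (not_lt.2 hlt.le)]
      rw [k]
      exact desc_const h1 hp
  intro e e' hf hf'
  obtain ⟨e0, k1, k2⟩ := h3 e hf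
  obtain ⟨e0', k1', k2'⟩ := h3 e' hf'
  rw [k2, k2']
  exact key e0 e0' k1 k1'

end

section
variable [Fintype V] [Fintype V'] {G' : Cx V'} {G : Cx V} {U' : Set V'} {U : Set V} {p : V' → V}
  {τ : V' → V'} {c' : V' → V' → V' → ZMod 2} {c : V → V → V → ZMod 2}

theorem exists_ds (hv : Cov G' G U' U p τ) (hm : Man G U) (hc' : Curve G' U' c')
    (hl : Lift G' U' p τ c' c) {F : V' → V' → ZMod 2} (hd : Disc G' U' c' F) :
    ∃ h m o, DS G' U' τ (fmap τ hv.tmap) h m F o := by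
  obtain ⟨n, hn⟩ := Countable.exists_injective_nat V'
  obtain ⟨h, hh⟩ : ∃ h : V' → ℤ, ∀ x, h x =
      if n x < n (τ x) then (n x : ℤ) + 1 else -((n (τ x) : ℤ) + 1) := ⟨_, fun _ => rfl⟩
  have h0 : ∀ s : Fc G', ∃ a, (a ∈ s.1 ∧ (Meets s.1 U' → a ∈ U')) ∧
      ∀ b ∈ s.1, b ∈ U' → h a ≤ h b := by
    intro s
    by_cases k : Meets s.1 U'
    · obtain ⟨x, hx, hx'⟩ := k
      obtain ⟨a, ha, hmin⟩ := Finset.exists_min_image (s.1.filter (· ∈ U')) h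
        ⟨x, Finset.mem_filter.2 ⟨hx, hx'⟩⟩
      rw [Finset.mem_filter] at ha
      exact ⟨a, ⟨ha.1, fun _ => ha.2⟩, fun b hb hb' => hmin b (Finset.mem_filter.2 ⟨hb, hb'⟩)⟩
    · obtain ⟨a, ha⟩ := s.2.1
      exact ⟨a, ⟨ha, fun k' => absurd k' k⟩, fun b hb hb' => absurd ⟨b, hb, hb'⟩ k⟩
  choose m hm1 hm2 using h0
  obtain ⟨o, ho⟩ := hd.coor (hv.man hm).toPMan hc'.ne
  have timg : ∀ (s : Fc G') x, x ∈ (fmap τ hv.tmap s).1 ↔ τ x ∈ s.1 := fun s x =>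
    (cova_mem hv.tmap).trans ⟨fun ⟨a, ha, e⟩ => by rw [← e, hv.inv]; exact ha,
      fun k => ⟨τ x, k, hv.inv x⟩⟩
  refine ⟨h, m, o, (hv.man hm).toPMan.dim, hv.inv, hv.tmap, hv.tmem, timg,
    fun x _ y _ e => ?_, fun x hx => ?_, hm1, hm2, hd.coc, ho, fun s h1 h2 a ha => ?_⟩
  · rw [hh, hh] at e
    split_ifs at e with k1 k2 k2
    · exact hn (by omega)
    · omega
    · omega
    · have e' : τ x = τ y := hn (by omega)
      rw [← hv.inv x, e', hv.inv]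
  · have k : n (τ x) ≠ n x := fun e => hv.free x hx (hn e)
    rw [hh, hh, hv.inv]
    split_ifs <;> omega
  · by_contra k
    have k1 : s ∈ ActC G' U' c' := hd.actc ▸ ⟨h1, actF_sub G' U' F h1, a, ha, k⟩
    have k2 : fmap τ hv.tmap s ∈ ActC G' U' c' := hd.actc ▸ ⟨h2, actF_sub G' U' F h2, τ a,
      (timg s _).2 (by rw [hv.inv]; exact ha), fun k' => k ((hv.tmem a).1 k')⟩
    exact hl.not_both hv hc' k1 k2

theorem desc_base (hv : Cov G' G U' U p τ) (hm : Man G U) (hc' : Curve G' U' c') (hc : Curve G U c)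
    (hl : Lift G' U' p τ c' c) {F : V' → V' → ZMod 2} (hd : Disc G' U' c' F) : HasDisc G U c := by
  obtain ⟨h, m, o, d⟩ := exists_ds hv hm hc' hl hd
  obtain ⟨ε, he, hk⟩ := d.conn hd.conn
  obtain ⟨m0, hm0, hl0⟩ := sel_desc hv hc' hc hl d.sel
  have hz : ∀ x z : Fc G', z ≤ x → z ∉ up G' U' →
      ee G' U' τ (fmap τ hv.tmap) h m F o ε x = 0 := fun x z k1 k2 => if_neg fun k => by
    obtain ⟨a, ha⟩ := z.2.1
    exact k2 ⟨a, ha, (d.dbl_act k).2.2 a (k1 ha)⟩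
  obtain ⟨F0, hF0⟩ := hv.sd.proj (c := pull m0 c) (d.gg_coc ε) (fun x _ y _ _ => d.gg_inv he x y)
    (fun x y z ht => by
      obtain ⟨t1, t2, t3⟩ := d.sel.tr ht
      have t4 := (d.sel.tr (hv.sd.tr ht).2).1
      rw [hl0.sum x y z ht]
      unfold GG
      rw [hz x z t2 ht.2.2.1, hz y z t3 ht.2.2.1, add_zero, add_zero, hd.bd _ _ _ t1,
        hd.bd _ _ _ t4]
      rfl) hk (by rw [d.gg_chi he, hd.chi]; rfl)
  exact HasDisc.step m0 hm0 (HasDisc.base F0 hF0)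

end

theorem descent [Fintype V'] {G' : Cx V'} {U' : Set V'} {c' : V' → V' → V' → ZMod 2}
    (hd : HasDisc G' U' c') : ∀ {V : Type} [Fintype V] {G : Cx V} {U : Set V} {p : V' → V}
      {τ : V' → V'} {c : V → V → V → ZMod 2}, Cov G' G U' U p τ → Man G U → Curve G' U' c' →
      Curve G U c → Lift G' U' p τ c' c → HasDisc G U c := by
  induction hd with
  | base F hF => exact fun hv hm hc' hc hl => desc_base hv hm hc' hc hl hF
  | step m' hm' _ ih =>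
    intro V _ G U p τ c hv hm hc' hc hl
    obtain ⟨m0, hm0, hl0⟩ := sel_desc hv hc' hc hl hm'
    exact HasDisc.step m0 hm0 (ih hv.sd hm.sd (hc'.pull hm') (hc.pull hm0) hl0)

end KG
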