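import Pool.Agent.Work.MP_c146e2_gt.KG.CT

set_option autoImplicit false

noncomputable section

open scoped Classical

namespace KG

variable {V V' : Type}

/-- A disc `F` with a co-orientation `o` in a double cover with deck transformation `τ`; `T` is the
action on simplices, `h` a height that changes sign, `m` the lowest vertex. -/
structure DS (G : Cx V) (U : Set V) (τ : V → V) (T : Fc G → Fc G) (h : V → ℤ) (m : Fc G → V)
    (F : V → V → ZMod 2) (o : Fc G → V → ZMod 2) : Prop where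
  dim : ∀ s, Clq G s → Meets s U → s.card ≤ 4
  inv : ∀ x, τ (τ x) = x
  tmap : ∀ x y, G.r x y → G.r (τ x) (τ y)
  tmem : ∀ x, τ x ∈ U ↔ x ∈ U
  timg : ∀ s x, x ∈ (T s).1 ↔ τ x ∈ s.1
  hinj : Set.InjOn h U
  hneg : ∀ x ∈ U, h (τ x) = -h x
  sel : Sel G U m
  hmin : ∀ s : Fc G, ∀ a ∈ s.1, a ∈ U → h (m s) ≤ h a
  coc : Coc G U F
  coor : Coor G U F o
  ins : ∀ s ∈ ActF G U F, T s ∈ ActF G U F → Ins s.1 U

/-- A triangle that contains a double point. -/
def DT (G : Cx V) (U : Set V) (τ : V → V) (h : V → ℤ) (F : V → V → ZMod 2) (u v w : V) : Prop :=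
  u ∈ U ∧ v ∈ U ∧ w ∈ U ∧ G.r u v ∧ G.r v w ∧ G.r u w ∧ h u < h v ∧ h v < h w ∧ F u v ≠ 0 ∧
    F (τ v) (τ w) ≠ 0

def Dbl (G : Cx V) (U : Set V) (τ : V → V) (h : V → ℤ) (F : V → V → ZMod 2) (s : Finset V) : Prop :=
  ∃ u ∈ s, ∃ v ∈ s, ∃ w ∈ s, DT G U τ h F u v w

structure EpsOK (G : Cx V) (U : Set V) (τ : V → V) (T : Fc G → Fc G) (h : V → ℤ)
    (F : V → V → ZMod 2) (ε : Fc G → ZMod 2) : Prop where
  inv : ∀ s, ε (T s) = ε s
  mono : ∀ s s' : Fc G, s ≤ s' → Dbl G U τ h F s.1 → ε s' = ε s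

def ee (G : Cx V) (U : Set V) (τ : V → V) (T : Fc G → Fc G) (h : V → ℤ) (m : Fc G → V)
    (F : V → V → ZMod 2) (o : Fc G → V → ZMod 2) (ε : Fc G → ZMod 2) (s : Fc G) : ZMod 2 :=
  if Dbl G U τ h F s.1 then ε s + o s (m s) + o (T s) (m (T s)) else 0

/-- The resolved surface. -/
def GG (G : Cx V) (U : Set V) (τ : V → V) (T : Fc G → Fc G) (h : V → ℤ) (m : Fc G → V)
    (F : V → V → ZMod 2) (o : Fc G → V → ZMod 2) (ε : Fc G → ZMod 2) (s s' : Fc G) : ZMod 2 :=
  F (m s) (m s') + F (m (T s)) (m (T s')) + ee G U τ T h m F o ε s + ee G U τ T h m F o ε s'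

def sg (G : Cx V) (x : V) : Fc G := ⟨{x}, clq_single G x⟩

def pr (G : Cx V) (x y : V) : Fc G := if h : G.r x y then ⟨{x, y}, clq_pair h⟩ else sg G x

def tr3 (G : Cx V) (u v w : V) : Fc G := if h : Clq G {u, v, w} then ⟨{u, v, w}, h⟩ else sg G u

/-- The half of the edge `e` at its upper end. -/
def nd (G : Cx V) (h : V → ℤ) (e : V × V) : Fc G × Fc G :=
  (sg G (if h e.1 < h e.2 then e.2 else e.1), pr G e.1 e.2)

/-- The two ends of the arc of the disc in the triangle `u v w`. -/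
def wing (G : Cx V) (τ : V → V) (F : V → V → ZMod 2) (o : Fc G → V → ZMod 2) (u v w : V)
    (s : ZMod 2) : V × V :=
  if s = o (tr3 G (τ w) (τ v) (τ u)) (τ v) then (u, v) else if F u w ≠ 0 then (u, w) else (v, w)

/-- Functions on the edges that do not change across triangles without double point. -/
def PF (G : Cx V) (U : Set V) (τ : V → V) (h : V → ℤ) (F : V → V → ZMod 2) (g : V × V → ZMod 2) :
    Prop :=
  (∀ x y, FE G U F (x, y) → g (y, x) = g (x, y)) ∧
    ∀ x y y', FE G U F (x, y) → FE G U F (x, y') → G.r y y' → ¬ Dbl G U τ h F {x, y, y'} →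
      g (x, y) = g (x, y')

end KG
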