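import Pool.Agent.Work.MP_c146e2_gt.KG.Ds0

set_option autoImplicit false

noncomputable section

open scoped Classical

namespace KG

variable {V V' : Type}

variable {G : Cx V} {U : Set V} {τ : V → V} {T : Fc G → Fc G} {h : V → ℤ} {m : Fc G → V}
  {F : V → V → ZMod 2} {o : Fc G → V → ZMod 2} {ε : Fc G → ZMod 2}

theorem dsa_mem_sg {x z : V} : z ∈ (sg G x).1 ↔ z = x := Finset.mem_singleton

theorem dsa_mem_pr {x y z : V} (hr : G.r x y) : z ∈ (pr G x y).1 ↔ z = x ∨ z = y := by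
  have e : pr G x y = ⟨{x, y}, clq_pair hr⟩ := dif_pos hr
  rw [e]
  exact Finset.mem_insert.trans (or_congr_right Finset.mem_singleton)

theorem dsa_sg_le {s : Fc G} {x : V} (hx : x ∈ s.1) : sg G x ≤ s := fun _ hz =>
  dsa_mem_sg.1 hz ▸ hx

theorem dsa_pr_le {s : Fc G} {x y : V} (hx : x ∈ s.1) (hy : y ∈ s.1) : pr G x y ≤ s := by
  intro z hz
  rcases (dsa_mem_pr (s.2.2 x hx y hy)).1 hz with rfl | rfl
  · exact hx
  · exact hy

theorem dsa_adj {s s' : Fc G} (hr : (sd G).r s s') {a b : V} (ha : a ∈ s.1) (hb : b ∈ s'.1) :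
    G.r a b := by
  rcases hr with hr | hr
  · exact s'.2.2 a (hr ha) b hb
  · exact s.2.2 a ha b (hr hb)

theorem dsa_nd {s : Finset V} {x y : V} (hs : ∀ z ∈ s, z = x ∨ z = y) : ¬Dbl G U τ h F s := by
  rintro ⟨u, hu, v, hv, w, hw, -, -, -, -, -, -, l1, l2, -⟩
  rcases hs u hu with a | a <;> rcases hs v hv with b | b <;> rcases hs w hw with c | c <;>
    rw [a, b] at l1 <;> rw [b, c] at l2 <;> omega

theorem dsa_nd_sg (x : V) : ¬Dbl G U τ h F (sg G x).1 :=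
  dsa_nd (x := x) (y := x) fun _ hz => Or.inl (dsa_mem_sg.1 hz)

theorem dsa_nd_pr {x y : V} (hr : G.r x y) : ¬Dbl G U τ h F (pr G x y).1 :=
  dsa_nd fun _ hz => (dsa_mem_pr hr).1 hz

theorem DS.dsa_mem (d : DS G U τ T h m F o) {s : Fc G} {a : V} (ha : a ∈ s.1) :
    τ a ∈ (T s).1 := (d.timg s _).2 (by rwa [d.inv])

theorem DS.dsa_eq (d : DS G U τ T h m F o) {x z : V} : τ z = x ↔ z = τ x :=
  ⟨fun e => by rw [← e, d.inv], fun e => by rw [e, d.inv]⟩

theorem DS.dsa_m_sg (d : DS G U τ T h m F o) (x : V) : m (sg G x) = x :=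
  dsa_mem_sg.1 (d.sel _).1

theorem DS.TT (d : DS G U τ T h m F o) (s : Fc G) : T (T s) = s := by
  refine Subtype.ext (Finset.ext fun x => ?_)
  rw [d.timg, d.timg, d.inv]

theorem DS.le_iff (d : DS G U τ T h m F o) {s s' : Fc G} : T s ≤ T s' ↔ s ≤ s' := by
  have h1 : ∀ s s' : Fc G, s ≤ s' → T s ≤ T s' := fun s s' hs x hx =>
    (d.timg s' x).2 (hs ((d.timg s x).1 hx))
  refine ⟨fun h2 => ?_, h1 s s'⟩
  have h3 := h1 _ _ h2
  rwa [d.TT, d.TT] at h3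

theorem DS.up_iff (d : DS G U τ T h m F o) {s : Fc G} : T s ∈ up G U ↔ s ∈ up G U := by
  constructor
  · rintro ⟨a, ha, hU⟩
    exact ⟨τ a, (d.timg s a).1 ha, (d.tmem a).2 hU⟩
  · rintro ⟨a, ha, hU⟩
    exact ⟨τ a, d.dsa_mem ha, (d.tmem a).2 hU⟩

theorem DS.sel2 (d : DS G U τ T h m F o) : Sel G U fun s => τ (m (T s)) := by
  intro s
  exact ⟨(d.timg s _).1 (d.sel (T s)).1, fun hs => (d.tmem _).2 ((d.sel (T s)).2 (d.up_iff.2 hs))⟩

theorem DS.hmax (d : DS G U τ T h m F o) (s : Fc G) {a : V} (ha : a ∈ s.1) (hU : a ∈ U) :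
    h a ≤ h (τ (m (T s))) := by
  have h1 := d.hmin (T s) (τ a) (d.dsa_mem ha) ((d.tmem a).2 hU)
  have h2 := d.hneg _ ((d.sel (T s)).2 (d.up_iff.2 ⟨a, ha, hU⟩))
  have h3 := d.hneg a hU
  omega

theorem DS.m_eq (d : DS G U τ T h m F o) {s : Fc G} {a : V} (ha : a ∈ s.1) (hU : a ∈ U)
    (hm : ∀ b ∈ s.1, b ∈ U → h a ≤ h b) : m s = a := by
  have h1 := (d.sel s).2 ⟨a, ha, hU⟩
  exact d.hinj h1 hU (le_antisymm (d.hmin s a ha hU) (hm _ (d.sel s).1 h1))

theorem DS.mT_eq (d : DS G U τ T h m F o) {s : Fc G} {a : V} (ha : a ∈ s.1) (hU : a ∈ U)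
    (hm : ∀ b ∈ s.1, b ∈ U → h b ≤ h a) : m (T s) = τ a := by
  refine d.m_eq (d.dsa_mem ha) ((d.tmem a).2 hU) fun b hb hbU => ?_
  have h1 := hm (τ b) ((d.timg s b).1 hb) ((d.tmem b).2 hbU)
  have h2 := d.hneg a hU
  have h3 := d.hneg b hbU
  omega

theorem DS.T_sg (d : DS G U τ T h m F o) (x : V) : T (sg G x) = sg G (τ x) := by
  refine Subtype.ext (Finset.ext fun z => ?_)
  rw [d.timg, dsa_mem_sg, dsa_mem_sg, d.dsa_eq]

theorem DS.T_pr (d : DS G U τ T h m F o) (x y : V) : T (pr G x y) = pr G (τ x) (τ y) := by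
  by_cases hr : G.r x y
  · refine Subtype.ext (Finset.ext fun z => ?_)
    rw [d.timg, dsa_mem_pr hr, dsa_mem_pr (d.tmap _ _ hr), d.dsa_eq, d.dsa_eq]
  · have hr' : ¬G.r (τ x) (τ y) := fun h1 => hr (by simpa only [d.inv] using d.tmap _ _ h1)
    have e : pr G x y = sg G x := dif_neg hr
    have e' : pr G (τ x) (τ y) = sg G (τ x) := dif_neg hr'
    rw [e, e', d.T_sg]

theorem DS.T_tr3 (d : DS G U τ T h m F o) {u v w : V} (hc : Clq G {u, v, w}) :
    T (tr3 G u v w) = tr3 G (τ w) (τ v) (τ u) := by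
  have hc' : Clq G {τ w, τ v, τ u} := by
    refine ⟨Finset.insert_nonempty _ _, fun a ha b hb => ?_⟩
    have key : ∀ a ∈ ({τ w, τ v, τ u} : Finset V), τ a ∈ ({u, v, w} : Finset V) := by
      intro a ha
      simp only [Finset.mem_insert, Finset.mem_singleton] at ha ⊢
      rcases ha with rfl | rfl | rfl <;> simp [d.inv]
    simpa only [d.inv] using d.tmap _ _ (hc.2 _ (key a ha) _ (key b hb))
  refine Subtype.ext (Finset.ext fun z => ?_)
  have e : (tr3 G u v w).1 = {u, v, w} := congrArg Subtype.val (dif_pos hc)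
  have e' : (tr3 G (τ w) (τ v) (τ u)).1 = {τ w, τ v, τ u} := congrArg Subtype.val (dif_pos hc')
  rw [d.timg, e, e']
  simp only [Finset.mem_insert, Finset.mem_singleton, d.dsa_eq]
  tauto

theorem DS.dt (d : DS G U τ T h m F o) {u v w : V} (ht : DT G U τ h F u v w) :
    DT G U τ h F (τ w) (τ v) (τ u) := by
  obtain ⟨hu, hv, hw, r1, r2, r3, l1, l2, f1, f2⟩ := ht
  have hu' := (d.tmem u).2 hu
  have hv' := (d.tmem v).2 hv
  have hw' := (d.tmem w).2 hw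
  have e1 := d.hneg u hu
  have e2 := d.hneg v hv
  have e3 := d.hneg w hw
  refine ⟨hw', hv', hu', G.symm _ _ (d.tmap _ _ r2), G.symm _ _ (d.tmap _ _ r1),
    G.symm _ _ (d.tmap _ _ r3), by omega, by omega, ?_, ?_⟩
  · rwa [d.coc.symm hv' hw' (d.tmap _ _ r2)]
  · rwa [d.inv, d.inv, d.coc.symm hu hv r1]

theorem DS.dbl_iff (d : DS G U τ T h m F o) {s : Fc G} :
    Dbl G U τ h F (T s).1 ↔ Dbl G U τ h F s.1 := by
  have h1 : ∀ s : Fc G, Dbl G U τ h F s.1 → Dbl G U τ h F (T s).1 := by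
    rintro s ⟨u, hu, v, hv, w, hw, ht⟩
    exact ⟨_, d.dsa_mem hw, _, d.dsa_mem hv, _, d.dsa_mem hu, d.dt ht⟩
  refine ⟨fun h2 => ?_, h1 s⟩
  have h3 := h1 _ h2
  rwa [d.TT] at h3

theorem DS.dbl_act (d : DS G U τ T h m F o) {s : Fc G} (hs : Dbl G U τ h F s.1) :
    s ∈ ActF G U F ∧ T s ∈ ActF G U F ∧ Ins s.1 U := by
  have h1 : ∀ s : Fc G, Dbl G U τ h F s.1 → s ∈ ActF G U F := by
    rintro s ⟨u, hu, v, hv, w, hw, ht⟩
    exact ⟨u, hu, v, hv, ht.1, ht.2.1, ht.2.2.2.2.2.2.2.2.1⟩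
  exact ⟨h1 s hs, h1 _ (d.dbl_iff.2 hs), d.ins s (h1 s hs) (h1 _ (d.dbl_iff.2 hs))⟩

theorem DS.gg_coc (d : DS G U τ T h m F o) (ε : Fc G → ZMod 2) :
    Coc (sd G) (up G U) (GG G U τ T h m F o ε) := by
  have h1 : Coc (sd G) (up G U) fun s s' => F (m s) (m s') := by
    intro a ha b hb c hc r1 r2 r3
    exact d.coc _ ((d.sel a).2 ha) _ ((d.sel b).2 hb) _ ((d.sel c).2 hc)
      (dsa_adj r1 (d.sel a).1 (d.sel b).1) (dsa_adj r2 (d.sel b).1 (d.sel c).1)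
      (dsa_adj r3 (d.sel a).1 (d.sel c).1)
  have h2 : ∀ a b : Fc G, (sd G).r a b → (sd G).r (T a) (T b) := fun a b r =>
    r.imp d.le_iff.2 d.le_iff.2
  intro a ha b hb c hc r1 r2 r3
  have e1 := h1 a ha b hb c hc r1 r2 r3
  have e2 := h1 _ (d.up_iff.2 ha) _ (d.up_iff.2 hb) _ (d.up_iff.2 hc) (h2 _ _ r1) (h2 _ _ r2)
    (h2 _ _ r3)
  have e3 := CharTwo.add_self_eq_zero (ee G U τ T h m F o ε b)
  unfold GG
  linear_combination e1 + e2 + e3

theorem DS.gg_inv (d : DS G U τ T h m F o) (he : EpsOK G U τ T h F ε) (s s' : Fc G) :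
    GG G U τ T h m F o ε (T s) (T s') = GG G U τ T h m F o ε s s' := by
  have h1 : ∀ s, ee G U τ T h m F o ε (T s) = ee G U τ T h m F o ε s := by
    intro s
    unfold ee
    rw [d.dbl_iff, he.inv, d.TT, add_right_comm]
  unfold GG
  rw [h1, h1, d.TT, d.TT, add_comm (F (m (T s)) (m (T s')))]

theorem DS.gg_pot (d : DS G U τ T h m F o) (he : EpsOK G U τ T h F ε) {s : Fc G}
    (h1 : s ∈ ActF G U F) (h2 : T s ∈ ActF G U F) {r r' : Fc G} (hr : r ≤ s) (hr' : r' ≤ s) :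
    GG G U τ T h m F o ε r r' =
      (if Dbl G U τ h F r.1 then ε s else o s (m r) + o (T s) (m (T r))) +
        if Dbl G U τ h F r'.1 then ε s else o s (m r') + o (T s) (m (T r')) := by
  have i1 := d.ins s h1 h2
  have i2 := d.ins (T s) h2 (by rwa [d.TT])
  have k1 : ∀ r ≤ s, m r ∈ s.1 := fun r hr => hr (d.sel r).1
  have k2 : ∀ r ≤ s, m (T r) ∈ (T s).1 := fun r hr => d.le_iff.2 hr (d.sel (T r)).1
  have key : ∀ r ≤ s, o s (m r) + o (T s) (m (T r)) + ee G U τ T h m F o ε r =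
      if Dbl G U τ h F r.1 then ε s else o s (m r) + o (T s) (m (T r)) := by
    intro r hr
    unfold ee
    split_ifs with hd
    · obtain ⟨a1, a2, -⟩ := d.dbl_act hd
      rw [d.coor.res r a1 s hr _ (d.sel r).1 (i1 _ (k1 r hr)),
        d.coor.res (T r) a2 (T s) (d.le_iff.2 hr) _ (d.sel (T r)).1 (i2 _ (k2 r hr)),
        he.mono r s hr hd]
      linear_combination CharTwo.add_self_eq_zero (o r (m r) + o (T r) (m (T r)))
    · exact add_zero _
  rw [← key r hr, ← key r' hr']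
  unfold GG
  rw [d.coor.pot s h1 _ (k1 r hr) _ (k1 r' hr') (i1 _ (k1 r hr)) (i1 _ (k1 r' hr')),
    d.coor.pot (T s) h2 _ (k2 r hr) _ (k2 r' hr') (i2 _ (k2 r hr)) (i2 _ (k2 r' hr'))]
  ring

theorem DS.dsa_hi (d : DS G U τ T h m F o) (ε : Fc G → ZMod 2) {x y : V} (hx : x ∈ U)
    (hy : y ∈ U) (hr : G.r x y) (hlt : h y < h x) :
    GG G U τ T h m F o ε (sg G x) (pr G x y) = F x y := by
  have e1 : m (pr G x y) = y := d.m_eq ((dsa_mem_pr hr).2 (Or.inr rfl)) hy fun b hb _ => by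
    rcases (dsa_mem_pr hr).1 hb with rfl | rfl <;> omega
  have e2 : m (T (pr G x y)) = τ x := d.mT_eq ((dsa_mem_pr hr).2 (Or.inl rfl)) hx fun b hb _ => by
    rcases (dsa_mem_pr hr).1 hb with rfl | rfl <;> omega
  unfold GG ee
  rw [if_neg (dsa_nd_sg x), if_neg (dsa_nd_pr hr), d.T_sg, d.dsa_m_sg, d.dsa_m_sg, e1, e2,
    d.coc.self ((d.tmem x).2 hx), add_zero, add_zero, add_zero]

theorem dsa_swap {η : V → V → ZMod 2} (hc : Coc G U η) {a b : V} (hf : FE G U η (a, b)) :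
    FStep G U η (a, b) (b, a) :=
  ⟨hf, ⟨hf.2.1, hf.1, G.symm _ _ hf.2.2.1, by
    rw [hc.symm hf.1 hf.2.1 hf.2.2.1]
    exact hf.2.2.2⟩, Or.inr rfl⟩

theorem dsa_two (a b : ZMod 2) : a + b ≠ 0 → a ≠ 0 → b = 0 := by
  revert a b
  decide

/-- the edge is joined to the half of an edge of `G` -/
def DsaGoal (G : Cx V) (U : Set V) (η : Fc G → Fc G → ZMod 2) (e : Fc G × Fc G) : Prop :=
  ∃ x ∈ U, ∃ y ∈ U, G.r x y ∧ x ≠ y ∧
    Relation.ReflTransGen (FStep (sd G) (up G U) η) e (sg G x, pr G x y)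

theorem DsaGoal.head {η : Fc G → Fc G → ZMod 2} {e e' : Fc G × Fc G}
    (h1 : FStep (sd G) (up G U) η e e') (h2 : DsaGoal G U η e') : DsaGoal G U η e := by
  obtain ⟨x, hx, y, hy, hr, hne, hp⟩ := h2
  exact ⟨x, hx, y, hy, hr, hne, hp.head h1⟩

theorem DS.dsa_step (d : DS G U τ T h m F o) (ε : Fc G → ZMod 2) (s' : Fc G)
    (ih : ∀ r r' : Fc G, r < s' → r' < s' → FE (sd G) (up G U) (GG G U τ T h m F o ε) (r, r') →
      DsaGoal G U (GG G U τ T h m F o ε) (r, r'))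
    {s : Fc G} (hlt : s < s') (hs : s ∈ up G U) (h0 : GG G U τ T h m F o ε s' s ≠ 0) :
    DsaGoal G U (GG G U τ T h m F o ε) (s', s) := by
  have hc := d.gg_coc ε
  generalize hη : GG G U τ T h m F o ε = η at ih h0 hc
  obtain ⟨x, hx, hxU⟩ := hs
  have hs' : s' ∈ up G U := ⟨x, hlt.le hx, hxU⟩
  have fe : ∀ r ≤ s', r ∈ up G U → η s' r ≠ 0 → FE (sd G) (up G U) η (s', r) :=
    fun r hr hU h1 => ⟨hs', hU, Or.inr hr, h1⟩
  have prop : ∀ r r' : Fc G, r < s' → r' < s' → r ∈ up G U → r' ∈ up G U → (sd G).r r r' →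
      (η s' r' ≠ 0 → DsaGoal G U η (s', r')) → η s' r ≠ 0 → DsaGoal G U η (s', r) := by
    intro r r' l1 l2 u1 u2 hr q h1
    by_cases h2 : η s' r' = 0
    · have st := dsa_swap hc (fe r l1.le u1 h1)
      have h3 := hc r u1 s' hs' r' u2 (Or.inl l1.le) (Or.inr l2.le) hr
      have h4 : FE (sd G) (up G U) η (r, r') := ⟨u1, u2, hr, by
        rw [← h3, h2, add_zero]
        exact st.2.1.2.2.2⟩
      exact DsaGoal.head st (DsaGoal.head ⟨st.2.1, h4, Or.inl ⟨rfl, Or.inr l2.le⟩⟩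
        (ih r r' l1 l2 h4))
    · exact DsaGoal.head ⟨fe r l1.le u1 h1, fe r' l2.le u2 h2, Or.inl ⟨rfl, hr⟩⟩ (q h2)
  have usg : ∀ y ∈ U, sg G y ∈ up G U := fun y hy => ⟨y, dsa_mem_sg.2 rfl, hy⟩
  have upr : ∀ y ∈ U, ∀ z, G.r y z → pr G y z ∈ up G U := fun y hy z hr =>
    ⟨y, (dsa_mem_pr hr).2 (Or.inl rfl), hy⟩
  have lx : sg G x < s' := (dsa_sg_le hx).trans_lt hlt
  have hx' : x ∈ s'.1 := hlt.le hx
  have dir : ∀ y ∈ U, y ∈ s'.1 → pr G x y = s' → η s' (sg G x) ≠ 0 →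
      DsaGoal G U η (s', sg G x) := by
    intro y hy hy' e h1
    refine ⟨x, hxU, y, hy, s'.2.2 x hx' y hy', ?_, ?_⟩
    · rintro rfl
      refine lx.not_ge fun z hz => ?_
      rw [← e, dsa_mem_pr (G.refl x), or_self] at hz
      exact dsa_mem_sg.2 hz
    · rw [e]
      exact Relation.ReflTransGen.single (dsa_swap hc (fe _ lx.le (usg x hxU) h1))
  have con : ∀ y ∈ U, ∀ r < s', y ∈ r.1 → (η s' r ≠ 0 → DsaGoal G U η (s', r)) →
      η s' (sg G x) ≠ 0 → DsaGoal G U η (s', sg G x) := by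
    intro y hy r lr hyr q
    have hy' : y ∈ s'.1 := lr.le hyr
    have hr := s'.2.2 x hx' y hy'
    rcases (dsa_pr_le hx' hy').eq_or_lt with e | l
    · exact dir y hy hy' e
    · have ly : sg G y < s' := (dsa_sg_le hyr).trans_lt lr
      refine prop _ _ lx l (usg x hxU) (upr x hxU y hr)
        (Or.inl (dsa_sg_le ((dsa_mem_pr hr).2 (Or.inl rfl)))) ?_
      refine prop _ _ l ly (upr x hxU y hr) (usg y hy)
        (Or.inr (dsa_sg_le ((dsa_mem_pr hr).2 (Or.inr rfl)))) ?_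
      exact prop _ _ ly lr (usg y hy) ⟨y, hyr, hy⟩ (Or.inl (dsa_sg_le hyr)) q
  refine prop _ _ hlt lx ⟨x, hx, hxU⟩ (usg x hxU) (Or.inr (dsa_sg_le hx)) ?_ h0
  by_cases hd : Dbl G U τ h F s'.1
  · obtain ⟨u, hu, v, hv, w, hw, uU, vU, -, r1, -, -, l1, l2, f1, -⟩ := hd
    have r1' := G.symm _ _ r1
    have l : pr G v u < s' := by
      refine lt_of_le_of_ne (dsa_pr_le hv hu) fun e => ?_
      rw [← e, dsa_mem_pr r1'] at hw
      rcases hw with rfl | rfl <;> omega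
    have lv : sg G v ≤ pr G v u := dsa_sg_le ((dsa_mem_pr r1').2 (Or.inl rfl))
    have e1 : η (sg G v) (pr G v u) ≠ 0 := by
      rw [← hη, d.dsa_hi ε vU uU r1' l1, d.coc.symm uU vU r1]
      exact f1
    rw [← hc _ (usg v vU) s' hs' _ (upr v vU u r1') (Or.inl (lv.trans l.le)) (Or.inr l.le)
      (Or.inl lv), hc.symm hs' (usg v vU) (Or.inr (lv.trans l.le))] at e1
    by_cases h1 : η s' (sg G v) = 0
    · exact con v vU _ (lv.trans_lt l) (dsa_mem_sg.2 rfl) fun h2 => absurd h1 h2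
    · exact con v vU _ l (lv (dsa_mem_sg.2 rfl)) fun h2 => absurd (dsa_two _ _ e1 h1) h2
  · obtain ⟨a1, a2⟩ := d.sel s'
    obtain ⟨b1, b2⟩ := d.sel2 s'
    have a3 := a2 hs'
    have b3 := b2 hs'
    have hr := s'.2.2 _ a1 _ b1
    have le := dsa_pr_le a1 b1
    rcases le.eq_or_lt with e | l
    · have hx2 := hx'
      rw [← e, dsa_mem_pr hr] at hx2
      rcases hx2 with e1 | e1
      · exact dir _ b3 b1 (by rw [e1]; exact e)
      · refine dir _ a3 a1 (le_antisymm (dsa_pr_le hx' a1) fun z hz => ?_)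
        rw [← e, dsa_mem_pr hr, ← e1] at hz
        exact (dsa_mem_pr (s'.2.2 _ hx' _ a1)).2 hz.symm
    · refine con _ a3 _ l ((dsa_mem_pr hr).2 (Or.inl rfl)) fun h2 => absurd ?_ h2
      have e1 : m (pr G (m s') (τ (m (T s')))) = m s' :=
        d.m_eq ((dsa_mem_pr hr).2 (Or.inl rfl)) a3 fun b hb hbU => d.hmin s' b (le hb) hbU
      have e2 : m (T (pr G (m s') (τ (m (T s'))))) = τ (τ (m (T s'))) :=
        d.mT_eq ((dsa_mem_pr hr).2 (Or.inr rfl)) b3 fun b hb hbU => d.hmax s' (le hb) hbU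
      rw [← hη]
      unfold GG ee
      rw [if_neg hd, if_neg (dsa_nd_pr hr), e1, e2, d.inv, d.coc.self a3,
        d.coc.self ((d.tmem _).1 b3), add_zero, add_zero, add_zero]

theorem DS.dsa_node (d : DS G U τ T h m F o) (ε : Fc G → ZMod 2) (n : ℕ) :
    ∀ s s' : Fc G, s.1.card ≤ n → s'.1.card ≤ n →
      FE (sd G) (up G U) (GG G U τ T h m F o ε) (s, s') →
      DsaGoal G U (GG G U τ T h m F o ε) (s, s') := by
  induction n with
  | zero =>
    intro s _ h1 _ _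
    exact absurd (Finset.card_pos.2 s.2.1) (by omega)
  | succ n ih =>
    have cl : ∀ r s : Fc G, r < s → r.1.card < s.1.card := fun r s l =>
      Finset.card_lt_card (Finset.ssubset_iff_subset_ne.2 ⟨l.le, fun e => l.ne (Subtype.ext e)⟩)
    have key : ∀ s s' : Fc G, s'.1.card ≤ n + 1 → s ≤ s' →
        FE (sd G) (up G U) (GG G U τ T h m F o ε) (s', s) →
        DsaGoal G U (GG G U τ T h m F o ε) (s', s) := by
      intro s s' h1 le hf
      refine d.dsa_step ε s' (fun r r' l1 l2 => ih r r' ?_ ?_) (lt_of_le_of_ne le ?_) hf.2.1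
        hf.2.2.2
      · have := cl _ _ l1
        omega
      · have := cl _ _ l2
        omega
      · rintro rfl
        exact hf.2.2.2 ((d.gg_coc ε).self hf.1)
    intro s s' h1 h2 hf
    rcases hf.2.2.1 with le | le
    · have st := dsa_swap (d.gg_coc ε) hf
      exact DsaGoal.head st (key s s' h2 le st.2.1)
    · exact key s' s h1 le hf

theorem DS.node (d : DS G U τ T h m F o) (he : EpsOK G U τ T h F ε) {e : Fc G × Fc G}
    (hf : FE (sd G) (up G U) (GG G U τ T h m F o ε) e) : ∃ x ∈ U, ∃ y ∈ U, G.r x y ∧ x ≠ y ∧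
      Relation.ReflTransGen (FStep (sd G) (up G U) (GG G U τ T h m F o ε)) e (sg G x, pr G x y) := by
  have _ := he
  obtain ⟨s, s'⟩ := e
  exact d.dsa_node ε (s.1.card + s'.1.card) s s' (Nat.le_add_right _ _) (Nat.le_add_left _ _) hf

theorem DS.gg_hi (d : DS G U τ T h m F o) (ε : Fc G → ZMod 2) {x y : V} (hx : x ∈ U) (hy : y ∈ U)
    (hr : G.r x y) (hlt : h y < h x) : GG G U τ T h m F o ε (sg G x) (pr G x y) = F x y := by
  exact d.dsa_hi ε hx hy hr hlt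

theorem DS.gg_lo (d : DS G U τ T h m F o) (ε : Fc G → ZMod 2) {x y : V} (hx : x ∈ U) (hy : y ∈ U)
    (hr : G.r x y) (hlt : h x < h y) :
    GG G U τ T h m F o ε (sg G x) (pr G x y) = F (τ x) (τ y) := by
  have e1 : m (pr G x y) = x := d.m_eq ((dsa_mem_pr hr).2 (Or.inl rfl)) hx fun b hb _ => by
    rcases (dsa_mem_pr hr).1 hb with rfl | rfl <;> omega
  have e2 : m (T (pr G x y)) = τ y := d.mT_eq ((dsa_mem_pr hr).2 (Or.inr rfl)) hy fun b hb _ => by
    rcases (dsa_mem_pr hr).1 hb with rfl | rfl <;> omega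
  unfold GG ee
  rw [if_neg (dsa_nd_sg x), if_neg (dsa_nd_pr hr), d.T_sg, d.dsa_m_sg, d.dsa_m_sg, e1, e2,
    d.coc.self hx, zero_add, add_zero, add_zero]

end KG
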