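import Pool.Agent.Work.MP_c146e2_gt.KG.DsA
import Pool.Agent.Work.MP_c146e2_gt.KG.CtSd
import Pool.Agent.Work.MP_c146e2_gt.KG.Chi

set_option autoImplicit false

noncomputable section

open scoped Classical

namespace KG

variable {V V' : Type}

/-- The order with the pairs on which `H` vanishes. -/
@[reducible] def dsbO {P : Type} [PartialOrder P] {S : Set P} {H : P → P → ZMod 2}
    (hc : Coc (ord P) S H) : PartialOrder P where
  le y x := y = x ∨ (y ∈ S ∧ x ∈ S ∧ y ≤ x ∧ H y x = 0)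
  lt y x := (y = x ∨ (y ∈ S ∧ x ∈ S ∧ y ≤ x ∧ H y x = 0)) ∧
    ¬ (x = y ∨ (x ∈ S ∧ y ∈ S ∧ x ≤ y ∧ H x y = 0))
  lt_iff_le_not_ge _ _ := Iff.rfl
  le_refl _ := Or.inl rfl
  le_trans a b c h1 h2 := by
    rcases h1 with rfl | h1
    · exact h2
    rcases h2 with rfl | h2
    · exact Or.inr h1
    have h3 := h1.2.2.1.trans h2.2.2.1
    refine Or.inr ⟨h1.1, h2.2.1, h3, ?_⟩
    rw [← hc a h1.1 b h1.2.1 c h2.2.1 (Or.inl h1.2.2.1) (Or.inl h2.2.2.1) (Or.inl h3),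
      h1.2.2.2, h2.2.2.2, add_zero]
  le_antisymm a b h1 h2 := by
    rcases h1 with rfl | h1
    · rfl
    rcases h2 with rfl | h2
    · rfl
    exact h1.2.2.1.antisymm h2.2.2.1

theorem dsb_r {P : Type} [PartialOrder P] {S : Set P} {H : P → P → ZMod 2}
    (hc : Coc (ord P) S H) {a b : P} (ha : a ∈ S) (hb : b ∈ S) :
    (@ord P (dsbO hc)).r a b ↔ (ord P).r a b ∧ H a b = 0 := by
  constructor
  · rintro ((rfl | h) | (rfl | h))
    · exact ⟨Or.inl le_rfl, hc.self ha⟩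
    · exact ⟨Or.inl h.2.2.1, h.2.2.2⟩
    · exact ⟨Or.inl le_rfl, hc.self ha⟩
    · exact ⟨Or.inr h.2.2.1, (hc.symm hb ha (Or.inl h.2.2.1)).trans h.2.2.2⟩
  · rintro ⟨h | h, h0⟩
    · exact Or.inl (Or.inr ⟨ha, hb, h, h0⟩)
    · exact Or.inr (Or.inr ⟨hb, ha, h, (hc.symm ha hb (Or.inr h)).trans h0⟩)

theorem chiF_top {P : Type} [Fintype P] [PartialOrder P] {S : Set P} {H : P → P → ZMod 2}
    (hc : Coc (ord P) S H) : chiF (ord P) S H = -chi (ord P) S +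
      ∑ x : P, if x ∈ S then 1 - chi (ord P) {y | y ∈ S ∧ y < x ∧ H y x = 0} else 0 := by
  have h1 : chiF (ord P) S H = -chi (ord P) S + chi (@ord P (dsbO hc)) S := by
    unfold chiF chi
    rw [← Finset.sum_neg_distrib, ← Finset.sum_add_distrib]
    refine Finset.sum_congr rfl fun s _ => ?_
    by_cases hs : Clq (ord P) s ∧ Ins s S
    · have e : Clq (@ord P (dsbO hc)) s ↔ ¬ ∃ a ∈ s, ∃ b ∈ s, H a b ≠ 0 := by
        constructor
        · rintro h ⟨a, ha, b, hb, h0⟩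
          exact h0 ((dsb_r hc (hs.2 a ha) (hs.2 b hb)).1 (h.2 a ha b hb)).2
        · intro h
          refine ⟨hs.1.1, fun a ha b hb => (dsb_r hc (hs.2 a ha) (hs.2 b hb)).2
            ⟨hs.1.2 a ha b hb, ?_⟩⟩
          by_contra h0
          exact h ⟨a, ha, b, hb, h0⟩
      rw [if_pos hs]
      by_cases ha : ∃ a ∈ s, ∃ b ∈ s, H a b ≠ 0
      · rw [if_pos ⟨hs.1, hs.2, ha⟩, if_neg fun h => e.1 h.1 ha]
        ring
      · rw [if_neg fun h => ha h.2.2, if_pos ⟨e.2 ha, hs.2⟩]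
        ring
    · rw [if_neg hs, if_neg fun h => hs ⟨h.1, h.2.1⟩, if_neg fun h => hs ⟨⟨h.1.1, fun a ha b hb =>
        ((dsb_r hc (h.2 a ha) (h.2 b hb)).1 (h.1.2 a ha b hb)).1⟩, h.2⟩]
      ring
  rw [h1, @chi_top P _ (dsbO hc) S]
  congr 1
  refine Finset.sum_congr rfl fun x _ => ?_
  by_cases hx : x ∈ S
  · rw [if_pos hx, if_pos hx]
    congr 1
    have e : {y | y ∈ S ∧ (dsbO hc).lt y x} = {y | y ∈ S ∧ y < x ∧ H y x = 0} := by
      ext y
      constructor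
      · rintro ⟨hy, rfl | h, h'⟩
        · exact absurd (Or.inl rfl) h'
        · exact ⟨hy, lt_of_le_of_ne h.2.2.1 fun e => h' (Or.inl e.symm), h.2.2.2⟩
      · rintro ⟨hy, h, h0⟩
        exact ⟨hy, Or.inr ⟨hy, hx, h.le, h0⟩, fun h' => h'.elim h.ne' fun h' => h.not_ge h'.2.2.1⟩
    refine (congrArg (chi (@ord P (dsbO hc))) e).trans ?_
    refine chi_iso (f := id) (Set.bijOn_id _) fun a ha b hb => ?_
    rw [dsb_r hc ha.1 hb.1]
    refine and_iff_left_of_imp fun hr => ?_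
    rw [← hc a ha.1 x hx b hb.1 (Or.inl ha.2.1.le) (Or.inr hb.2.1.le) hr, ha.2.2,
      hc.symm hb.1 hx (Or.inl hb.2.1.le), hb.2.2, add_zero]
  · rw [if_neg hx, if_neg hx]

theorem Contr.chiF [Fintype V] [Fintype V'] {G' : Cx V'} {G : Cx V} {U' : Set V'} {U : Set V}
    {f : V' → V} (hc : Contr G' G U' U f) (F : V → V → ZMod 2) :
    chiF G' U' (fun x y => F (f x) (f y)) = KG.chiF G U F := by
  have key : ∀ s : Finset V, (if Clq G s ∧ Ins s U ∧ ∃ a ∈ s, ∃ b ∈ s, F a b ≠ 0 then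
      (-1 : ℤ) ^ s.card else 0) = ∑ s' : Finset V', if s'.image f = s then
        (if Clq G' s' ∧ Ins s' U' ∧ ∃ a ∈ s', ∃ b ∈ s', F (f a) (f b) ≠ 0 then (-1) ^ s'.card
          else 0) else 0 := by
    intro s
    by_cases hs : Clq G s ∧ Ins s U ∧ ∃ a ∈ s, ∃ b ∈ s, F a b ≠ 0
    · rw [if_pos hs, ← hc.eul s hs.1 (chi_meets hs.1.1 hs.2.1)]
      refine Finset.sum_congr rfl fun s' _ => ?_
      have e : Img f s' s ↔ s'.image f = s := by
        rw [Finset.ext_iff]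
        exact forall_congr' fun b => by rw [Finset.mem_image]; exact iff_comm
      rw [← ite_and]
      refine if_congr ⟨fun h => ⟨e.1 h.2.2, h.1, fun a ha => ?_, ?_⟩,
        fun h => ⟨h.2.1, chi_meets h.2.1.1 h.2.2.1, e.2 h.1⟩⟩ rfl rfl
      · obtain ⟨u, hu, hU⟩ := h.2.1
        by_contra h0
        exact hc.nmem u hU a (h.1.2 u hu a ha) h0 (hs.2.1 _ ((h.2.2 _).2 ⟨a, ha, rfl⟩))
      · obtain ⟨a, ha, b, hb, h0⟩ := hs.2.2
        obtain ⟨a', ha', rfl⟩ := (h.2.2 a).1 ha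
        obtain ⟨b', hb', rfl⟩ := (h.2.2 b).1 hb
        exact ⟨a', ha', b', hb', h0⟩
    · rw [if_neg hs]
      refine (Finset.sum_eq_zero fun s' _ => ?_).symm
      rw [← ite_and]
      refine if_neg ?_
      rintro ⟨rfl, h1, h2, a, ha, b, hb, h0⟩
      refine hs ⟨⟨h1.1.image f, fun x hx y hy => ?_⟩, fun x hx => ?_, _,
        Finset.mem_image_of_mem f ha, _, Finset.mem_image_of_mem f hb, h0⟩
      · obtain ⟨x, hx', rfl⟩ := Finset.mem_image.1 hx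
        obtain ⟨y, hy', rfl⟩ := Finset.mem_image.1 hy
        exact hc.map a (h2 a ha) x y (h1.2 a ha x hx') (h1.2 a ha y hy') (h1.2 x hx' y hy')
      · obtain ⟨x, hx', rfl⟩ := Finset.mem_image.1 hx
        exact hc.mem x (h2 x hx')
  unfold KG.chiF
  rw [Finset.sum_congr rfl fun s _ => key s, Finset.sum_comm]
  refine Finset.sum_congr rfl fun s' _ => ?_
  rw [Finset.sum_ite_eq, if_pos (Finset.mem_univ _)]

variable [Fintype V] {G : Cx V} {U : Set V} {τ : V → V} {T : Fc G → Fc G} {h : V → ℤ}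
  {m : Fc G → V} {F : V → V → ZMod 2} {o : Fc G → V → ZMod 2} {ε : Fc G → ZMod 2}

theorem DS.chiF_tau (d : DS G U τ T h m F o) :
    chiF G U (fun x y => F (τ x) (τ y)) = chiF G U F := by
  have hi : Function.Involutive (Finset.image τ) := fun s => by
    rw [Finset.image_image, show τ ∘ τ = id from funext d.inv, Finset.image_id]
  have hj : Function.Injective τ := Function.Involutive.injective d.inv
  refine Fintype.sum_bijective _ hi.bijective _ _ fun s => ?_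
  rw [Finset.card_image_of_injective _ hj]
  refine if_congr ?_ rfl rfl
  simp only [Clq, Ins, Finset.image_nonempty, Finset.forall_mem_image, Finset.exists_mem_image,
    d.tmem]
  refine and_congr_left' (and_congr_right' (forall₂_congr fun a _ => forall₂_congr fun b _ => ?_))
  exact ⟨d.tmap a b, fun h1 => by simpa only [d.inv] using d.tmap _ _ h1⟩

def dsbI (z : ZMod 2) : ℤ := 1 - z.val

theorem dsbI_eq (z : ZMod 2) (x : ℤ) : (if z = 0 then x else 0) = dsbI z * x := by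
  have h : ∀ z : ZMod 2, (z = 0 ∧ dsbI z = 1) ∨ (z ≠ 0 ∧ dsbI z = 0) := by decide
  rcases h z with ⟨h1, h2⟩ | ⟨h1, h2⟩
  · rw [if_pos h1, h2, one_mul]
  · rw [if_neg h1, h2, zero_mul]

def dsbR (s : Fc G) (x : Finset V) : Fc G := if h : Clq G x then ⟨x, h⟩ else s

def dsbC (φ : Fc G → ZMod 2) (s : Fc G) : ℤ := chi (sd G) {r | r < s ∧ φ r = 0}

def dsbG (φ : Fc G → ZMod 2) (s : Fc G) (x : Finset V) : ℤ :=
  dsbI (φ (dsbR s x)) * (1 - dsbC φ (dsbR s x))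

omit [Fintype V] in
theorem dsb_val {s : Fc G} {x : Finset V} (h1 : x.Nonempty) (h2 : x ⊆ s.1) : (dsbR s x).1 = x :=
  congrArg Subtype.val (dif_pos (c := Clq G x)
    ⟨h1, fun a ha b hb => s.2.2 a (h2 ha) b (h2 hb)⟩)

omit [Fintype V] in
theorem dsb_self (s r : Fc G) : dsbR s r.1 = r := dif_pos r.2

theorem dsb_rec (φ : Fc G → ZMod 2) (s : Fc G) {x : Finset V} (h1 : x.Nonempty) (h2 : x ⊆ s.1) :
    dsbC φ (dsbR s x) = ∑ t ∈ x.powerset, dsbG φ s t - dsbG φ s ∅ - dsbG φ s x := by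
  have e := dsb_val h1 h2
  have h3 : dsbC φ (dsbR s x) = ∑ r : Fc G, if r.1 ⊂ x then dsbG φ s r.1 else 0 := by
    unfold dsbC
    rw [sd, chi_top]
    refine Finset.sum_congr rfl fun r _ => ?_
    have h4 : r < dsbR s x ↔ r.1 ⊂ x := by
      rw [← e]
      simp only [dsb_self]
      exact Iff.rfl
    by_cases hr : r.1 ⊂ x
    · rw [if_pos hr, dsbG, dsb_self, ← dsbI_eq]
      by_cases h0 : φ r = 0
      · rw [if_pos h0, if_pos (show r ∈ {r | r < dsbR s x ∧ φ r = 0} from ⟨h4.2 hr, h0⟩), dsbC]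
        congr 2
        ext y
        exact ⟨fun h => ⟨h.2, h.1.2⟩, fun h => ⟨⟨h.1.trans (h4.2 hr), h.2⟩, h.1⟩⟩
      · rw [if_neg h0, if_neg fun h => h0 h.2]
    · rw [if_neg hr, if_neg fun h => hr (h4.1 h.1)]
  rw [h3, chi_fc G fun t => if t ⊂ x then dsbG φ s t else 0,
    ← Finset.add_sum_erase _ _ (Finset.mem_powerset_self x), ← Finset.add_sum_erase
    (x.powerset.erase x) _ (Finset.mem_erase.2 ⟨h1.ne_empty.symm, Finset.empty_mem_powerset x⟩)]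
  have h5 : (∑ t : Finset V, if Clq G t then if t ⊂ x then dsbG φ s t else 0 else 0) =
      ∑ t ∈ (x.powerset.erase x).erase ∅, dsbG φ s t := by
    rw [← Finset.sum_filter, ← Finset.sum_filter]
    refine Finset.sum_congr ?_ fun _ _ => rfl
    ext t
    simp only [Finset.mem_filter, Finset.mem_univ, true_and, Finset.mem_erase,
      Finset.mem_powerset, Finset.ssubset_iff_subset_ne, ← Finset.nonempty_iff_ne_empty]
    exact ⟨fun h => ⟨h.1.1, h.2.2, h.2.1⟩, fun h =>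
      ⟨⟨h.1, fun a ha b hb => s.2.2 a (h2 (h.2.2 ha)) b (h2 (h.2.2 hb))⟩, h.2.2, h.2.1⟩⟩
  rw [h5]
  ring

def dsbP3 (x y z xy xz yz : ZMod 2) : ℤ :=
  dsbI x + dsbI y + dsbI z + dsbI xy * (1 - (dsbI x + dsbI y)) +
    dsbI xz * (1 - (dsbI x + dsbI z)) + dsbI yz * (1 - (dsbI y + dsbI z))

def dsbP4 (x y z w xy xz xw yz yw zw xyz xyw xzw yzw : ZMod 2) : ℤ :=
  dsbP3 x y z xy xz yz + dsbI w + dsbI xw * (1 - (dsbI x + dsbI w)) +
    dsbI yw * (1 - (dsbI y + dsbI w)) + dsbI zw * (1 - (dsbI z + dsbI w)) +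
    dsbI xyz * (1 - dsbP3 x y z xy xz yz) + dsbI xyw * (1 - dsbP3 x y w xy xw yw) +
    dsbI xzw * (1 - dsbP3 x z w xz xw zw) + dsbI yzw * (1 - dsbP3 y z w yz yw zw)

omit [Fintype V] in
theorem dsb_pw (g : Finset V → ℤ) (x : V) : ∑ t ∈ ({x} : Finset V).powerset, g t = g ∅ + g {x} := by
  rw [← LawfulSingleton.insert_empty_eq, Finset.sum_powerset_insert (Finset.notMem_empty x)]
  simp

theorem dsb_c1 (φ : Fc G → ZMod 2) {s : Fc G} {x : V} (hx : x ∈ s.1) :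
    dsbG φ s {x} = dsbI (φ (dsbR s {x})) := by
  rw [dsbG, dsb_rec φ s (Finset.singleton_nonempty x) (Finset.singleton_subset_iff.2 hx), dsb_pw]
  ring

theorem dsb_c2 (φ : Fc G → ZMod 2) {s : Fc G} {x y : V} (hx : x ∈ s.1) (hy : y ∈ s.1)
    (n : x ≠ y) : dsbG φ s {x, y} = dsbI (φ (dsbR s {x, y})) *
      (1 - (dsbI (φ (dsbR s {x})) + dsbI (φ (dsbR s {y})))) := by
  rw [dsbG, dsb_rec φ s (Finset.insert_nonempty _ _) (by simp [Finset.insert_subset_iff, hx, hy]),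
    Finset.sum_powerset_insert (by simpa using n), dsb_pw, dsb_pw,
    LawfulSingleton.insert_empty_eq, dsb_c1 φ hx, dsb_c1 φ hy]
  ring

theorem dsb_c3 (φ : Fc G → ZMod 2) {s : Fc G} {x y z : V} (hx : x ∈ s.1) (hy : y ∈ s.1)
    (hz : z ∈ s.1) (n1 : x ≠ y) (n2 : x ≠ z) (n3 : y ≠ z) : dsbC φ (dsbR s {x, y, z}) =
      dsbP3 (φ (dsbR s {x})) (φ (dsbR s {y})) (φ (dsbR s {z})) (φ (dsbR s {x, y}))
        (φ (dsbR s {x, z})) (φ (dsbR s {y, z})) := by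
  rw [dsb_rec φ s (Finset.insert_nonempty _ _) (by simp [Finset.insert_subset_iff, hx, hy, hz]),
    Finset.sum_powerset_insert (by simp [n1, n2]), Finset.sum_powerset_insert (by simpa using n3),
    Finset.sum_powerset_insert (by simpa using n3), dsb_pw, dsb_pw, dsb_pw, dsb_pw]
  simp only [LawfulSingleton.insert_empty_eq]
  rw [dsb_c1 φ hx, dsb_c1 φ hy, dsb_c1 φ hz, dsb_c2 φ hx hy n1, dsb_c2 φ hx hz n2,
    dsb_c2 φ hy hz n3, dsbP3]
  ring

theorem dsb_c4 (φ : Fc G → ZMod 2) {s : Fc G} {x y z w : V} (hx : x ∈ s.1) (hy : y ∈ s.1)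
    (hz : z ∈ s.1) (hw : w ∈ s.1) (n1 : x ≠ y) (n2 : x ≠ z) (n3 : x ≠ w) (n4 : y ≠ z)
    (n5 : y ≠ w) (n6 : z ≠ w) : dsbC φ (dsbR s {x, y, z, w}) =
      dsbP4 (φ (dsbR s {x})) (φ (dsbR s {y})) (φ (dsbR s {z})) (φ (dsbR s {w}))
        (φ (dsbR s {x, y})) (φ (dsbR s {x, z})) (φ (dsbR s {x, w})) (φ (dsbR s {y, z}))
        (φ (dsbR s {y, w})) (φ (dsbR s {z, w})) (φ (dsbR s {x, y, z})) (φ (dsbR s {x, y, w}))
        (φ (dsbR s {x, z, w})) (φ (dsbR s {y, z, w})) := by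
  have e1 : x ∉ ({y, z, w} : Finset V) := by simp [n1, n2, n3]
  have e2 : y ∉ ({z, w} : Finset V) := by simp [n4, n5]
  have e3 : z ∉ ({w} : Finset V) := by simp [n6]
  rw [dsb_rec φ s (Finset.insert_nonempty _ _) (by simp [Finset.insert_subset_iff, hx, hy, hz, hw])]
  simp only [Finset.sum_powerset_insert e1, Finset.sum_powerset_insert e2,
    Finset.sum_powerset_insert e3, dsb_pw, LawfulSingleton.insert_empty_eq]
  rw [dsb_c1 φ hx, dsb_c1 φ hy, dsb_c1 φ hz, dsb_c1 φ hw, dsb_c2 φ hx hy n1, dsb_c2 φ hx hz n2,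
    dsb_c2 φ hx hw n3, dsb_c2 φ hy hz n4, dsb_c2 φ hy hw n5, dsb_c2 φ hz hw n6,
    dsbG.eq_1 φ s {x, y, z}, dsbG.eq_1 φ s {x, y, w}, dsbG.eq_1 φ s {x, z, w},
    dsbG.eq_1 φ s {y, z, w}, dsb_c3 φ hx hy hz n1 n2 n4, dsb_c3 φ hx hy hw n1 n3 n5,
    dsb_c3 φ hx hz hw n2 n3 n6, dsb_c3 φ hy hz hw n4 n5 n6, dsbP4]
  simp only [dsbP3]
  ring

theorem dsb_f3 : ∀ a0 a1 a2 b0 b1 b2 e : ZMod 2, (a0 + a1) * (b1 + b2) = 1 →
    dsbP3 (a0 + b0 + e) (a1 + b1 + e) (a2 + b2 + e) (a0 + b1 + e) (a0 + b2 + e) (a1 + b2 + e) +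
      dsbP3 0 0 0 0 0 0 =
    dsbP3 (a0 + a0) (a1 + a0) (a2 + a0) (a0 + a0) (a0 + a0) (a1 + a0) +
      dsbP3 (b0 + b2) (b1 + b2) (b2 + b2) (b1 + b2) (b2 + b2) (b2 + b2) := by
  decide +kernel

theorem dsb_f4 : ∀ a0 a1 a2 a3 b0 b1 b2 b3 e : ZMod 2, (a0 + a1) * (b1 + b2) = 1 ∨
    (a0 + a1) * (b1 + b3) = 1 ∨ (a0 + a2) * (b2 + b3) = 1 ∨ (a1 + a2) * (b2 + b3) = 1 →
    dsbP4 (a0 + b0 + e) (a1 + b1 + e) (a2 + b2 + e) (a3 + b3 + e) (a0 + b1 + e) (a0 + b2 + e)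
      (a0 + b3 + e) (a1 + b2 + e) (a1 + b3 + e) (a2 + b3 + e)
      ((1 + (a0 + a1) * (b1 + b2)) * (a0 + b2 + e)) ((1 + (a0 + a1) * (b1 + b3)) * (a0 + b3 + e))
      ((1 + (a0 + a2) * (b2 + b3)) * (a0 + b3 + e)) ((1 + (a1 + a2) * (b2 + b3)) * (a1 + b3 + e)) +
      dsbP4 0 0 0 0 0 0 0 0 0 0 0 0 0 0 =
    dsbP4 (a0 + a0) (a1 + a0) (a2 + a0) (a3 + a0) (a0 + a0) (a0 + a0) (a0 + a0) (a1 + a0)
      (a1 + a0) (a2 + a0) (a0 + a0) (a0 + a0) (a0 + a0) (a1 + a0) +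
      dsbP4 (b0 + b3) (b1 + b3) (b2 + b3) (b3 + b3) (b1 + b3) (b2 + b3) (b3 + b3) (b2 + b3)
      (b3 + b3) (b3 + b3) (b2 + b3) (b3 + b3) (b3 + b3) (b3 + b3) := by
  decide +kernel

omit [Fintype V] in
theorem DS.dsb_face (d : DS G U τ T h m F o) (he : EpsOK G U τ T h F ε) {s : Fc G}
    (hs : Dbl G U τ h F s.1) {x : Finset V} (hx : x ⊆ s.1) {u w lo hi : V} (hu : u ∈ x)
    (hw : w ∈ x) (hb : ∀ b ∈ x, h u ≤ h b ∧ h b ≤ h w) (e1 : m s = lo) (e2 : m (T s) = τ hi) :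
    GG G U τ T h m F o ε (dsbR s x) s =
        (if Dbl G U τ h F x then ε s else o s u + o (T s) (τ w)) + ε s ∧
      F (m (dsbR s x)) (m s) = o s u + o s lo ∧
      F (m (T (dsbR s x))) (m (T s)) = o (T s) (τ w) + o (T s) (τ hi) := by
  obtain ⟨a1, a2, a3⟩ := d.dbl_act hs
  have e := dsb_val ⟨u, hu⟩ hx
  have le : dsbR s x ≤ s := by
    rw [Fc.le_iff, e]
    exact hx
  have e3 : m (dsbR s x) = u :=
    d.m_eq (e.symm ▸ hu) (a3 _ (hx hu)) fun b hb' _ => (hb b (e ▸ hb')).1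
  have e4 : m (T (dsbR s x)) = τ w :=
    d.mT_eq (e.symm ▸ hw) (a3 _ (hx hw)) fun b hb' _ => (hb b (e ▸ hb')).2
  have i2 := d.ins (T s) a2 (by rwa [d.TT])
  refine ⟨?_, ?_, ?_⟩
  · rw [d.gg_pot he a1 a2 le le_rfl, if_pos hs, e, e3, e4]
  · rw [e3, d.coor.pot s a1 _ (hx hu) _ (d.sel s).1 (a3 _ (hx hu)) (a3 _ (d.sel s).1), e1]
  · rw [e4, d.coor.pot (T s) a2 _ (d.dsa_mem (hx hw)) _ (d.sel _).1 (i2 _ (d.dsa_mem (hx hw)))
      (i2 _ (d.sel _).1), e2]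

omit [Fintype V] in
theorem DS.dsb_1 (d : DS G U τ T h m F o) (he : EpsOK G U τ T h F ε) {s : Fc G}
    (hs : Dbl G U τ h F s.1) {lo hi : V} (e1 : m s = lo) (e2 : m (T s) = τ hi) {u : V}
    (hu : u ∈ s.1) : GG G U τ T h m F o ε (dsbR s {u}) s = o s u + o (T s) (τ u) + ε s ∧
      F (m (dsbR s {u})) (m s) = o s u + o s lo ∧
      F (m (T (dsbR s {u}))) (m (T s)) = o (T s) (τ u) + o (T s) (τ hi) := by
  have k := d.dsb_face he hs (Finset.singleton_subset_iff.2 hu) (Finset.mem_singleton_self u)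
    (Finset.mem_singleton_self u) (by simp) e1 e2
  rwa [if_neg (dsa_nd (x := u) (y := u) (by simp))] at k

omit [Fintype V] in
theorem DS.dsb_2 (d : DS G U τ T h m F o) (he : EpsOK G U τ T h F ε) {s : Fc G}
    (hs : Dbl G U τ h F s.1) {lo hi : V} (e1 : m s = lo) (e2 : m (T s) = τ hi) {u w : V}
    (hu : u ∈ s.1) (hw : w ∈ s.1) (l : h u < h w) :
    GG G U τ T h m F o ε (dsbR s {u, w}) s = o s u + o (T s) (τ w) + ε s ∧
      F (m (dsbR s {u, w})) (m s) = o s u + o s lo ∧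
      F (m (T (dsbR s {u, w}))) (m (T s)) = o (T s) (τ w) + o (T s) (τ hi) := by
  have k := d.dsb_face he hs (x := {u, w}) (u := u) (w := w)
    (by simp [Finset.insert_subset_iff, hu, hw]) (by simp) (by simp) (by simp [l.le]) e1 e2
  rwa [if_neg (dsa_nd (x := u) (y := w) (by simp))] at k

omit [Fintype V] in
theorem DS.dsb_dt (d : DS G U τ T h m F o) {s : Fc G} (hs : Dbl G U τ h F s.1) {u v w : V}
    (hu : u ∈ s.1) (hv : v ∈ s.1) (hw : w ∈ s.1) (l1 : h u < h v) (l2 : h v < h w) :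
    DT G U τ h F u v w ↔ (o s u + o s v) * (o (T s) (τ v) + o (T s) (τ w)) = 1 := by
  obtain ⟨a1, a2, a3⟩ := d.dbl_act hs
  have i2 := d.ins (T s) a2 (by rwa [d.TT])
  have k : ∀ a b : ZMod 2, a * b = 1 ↔ a ≠ 0 ∧ b ≠ 0 := by decide
  rw [k, ← d.coor.pot s a1 _ hu _ hv (a3 _ hu) (a3 _ hv), ← d.coor.pot (T s) a2 _ (d.dsa_mem hv) _
    (d.dsa_mem hw) (i2 _ (d.dsa_mem hv)) (i2 _ (d.dsa_mem hw))]
  exact ⟨fun h => h.2.2.2.2.2.2.2.2, fun h => ⟨a3 _ hu, a3 _ hv, a3 _ hw, s.2.2 _ hu _ hv,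
    s.2.2 _ hv _ hw, s.2.2 _ hu _ hw, l1, l2, h⟩⟩

omit [Fintype V] in
theorem DS.dsb_3 (d : DS G U τ T h m F o) (he : EpsOK G U τ T h F ε) {s : Fc G}
    (hs : Dbl G U τ h F s.1) {lo hi : V} (e1 : m s = lo) (e2 : m (T s) = τ hi) {u v w : V}
    (hu : u ∈ s.1) (hv : v ∈ s.1) (hw : w ∈ s.1) (l1 : h u < h v) (l2 : h v < h w) :
    GG G U τ T h m F o ε (dsbR s {u, v, w}) s =
        (1 + (o s u + o s v) * (o (T s) (τ v) + o (T s) (τ w))) * (o s u + o (T s) (τ w) + ε s) ∧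
      F (m (dsbR s {u, v, w})) (m s) = o s u + o s lo ∧
      F (m (T (dsbR s {u, v, w}))) (m (T s)) = o (T s) (τ w) + o (T s) (τ hi) := by
  have k := d.dsb_face he hs (x := {u, v, w}) (u := u) (w := w)
    (by simp [Finset.insert_subset_iff, hu, hv, hw]) (by simp) (by simp)
    (by simp [l1.le, l2.le, (l1.trans l2).le]) e1 e2
  refine ⟨k.1.trans ?_, k.2⟩
  have e : Dbl G U τ h F {u, v, w} ↔ DT G U τ h F u v w := by
    refine ⟨?_, fun h => ⟨u, by simp, v, by simp, w, by simp, h⟩⟩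
    rintro ⟨a, ha, b, hb, c, hc, ht⟩
    have l3 := ht.2.2.2.2.2.2.1
    have l4 := ht.2.2.2.2.2.2.2.1
    simp only [Finset.mem_insert, Finset.mem_singleton] at ha hb hc
    rcases ha with rfl | rfl | rfl <;> rcases hb with rfl | rfl | rfl <;>
      rcases hc with rfl | rfl | rfl <;> first | exact ht | omega
  have k1 : ∀ p q e : ZMod 2, p = 1 → e + e = (1 + p) * (q + e) := by decide
  have k2 : ∀ p q e : ZMod 2, ¬ p = 1 → q + e = (1 + p) * (q + e) := by decide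
  split_ifs with hd
  · exact k1 _ _ _ ((d.dsb_dt hs hu hv hw l1 l2).1 (e.1 hd))
  · exact k2 _ _ _ fun h0 => hd (e.2 ((d.dsb_dt hs hu hv hw l1 l2).2 h0))

/-- the identity for a simplex with a double point -/
def DsbL (G : Cx V) (U : Set V) (τ : V → V) (T : Fc G → Fc G) (h : V → ℤ) (m : Fc G → V)
    (F : V → V → ZMod 2) (o : Fc G → V → ZMod 2) (ε : Fc G → ZMod 2) (s : Fc G) : Prop :=
  dsbC (fun r => GG G U τ T h m F o ε r s) s + dsbC (fun _ => 0) s =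
    dsbC (fun r => F (m r) (m s)) s + dsbC (fun r => F (m (T r)) (m (T s))) s

theorem DS.dsb_l3 (d : DS G U τ T h m F o) (he : EpsOK G U τ T h F ε) {s : Fc G} {x y z : V}
    (e : s.1 = {x, y, z}) (ht : DT G U τ h F x y z) : DsbL G U τ T h m F o ε s := by
  have hx : x ∈ s.1 := by simp [e]
  have hy : y ∈ s.1 := by simp [e]
  have hz : z ∈ s.1 := by simp [e]
  have hs : Dbl G U τ h F s.1 := ⟨x, hx, y, hy, z, hz, ht⟩
  have l1 := ht.2.2.2.2.2.2.1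
  have l2 := ht.2.2.2.2.2.2.2.1
  have l3 := l1.trans l2
  have n : ∀ {a b : V}, h a < h b → a ≠ b := fun l e => l.ne (congrArg h e)
  have e1 : m s = x := d.m_eq hx ht.1 (by simp +contextual [e, l1.le, l3.le])
  have e2 : m (T s) = τ z := d.mT_eq hz ht.2.2.1 (by simp +contextual [e, l2.le, l3.le])
  have k : ∀ φ : Fc G → ZMod 2, dsbC φ s = _ := fun φ =>
    (congrArg (dsbC φ) ((dsb_self s s).symm.trans (congrArg (dsbR s) e))).trans
      (dsb_c3 φ hx hy hz (n l1) (n l3) (n l2))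
  have c1 := @DS.dsb_1 _ _ _ _ _ _ _ _ _ _ d he s hs _ _ e1 e2
  have c2 := @DS.dsb_2 _ _ _ _ _ _ _ _ _ _ d he s hs _ _ e1 e2
  unfold DsbL
  rw [k, k, k, k]
  simp only [c1 hx, c1 hy, c1 hz, c2 hx hy l1, c2 hx hz l3, c2 hy hz l2]
  exact dsb_f3 _ _ _ _ _ _ _ ((d.dsb_dt hs hx hy hz l1 l2).1 ht)

theorem DS.dsb_l4 (d : DS G U τ T h m F o) (he : EpsOK G U τ T h F ε) {s : Fc G} {x y z w : V}
    (e : s.1 = {x, y, z, w}) (l1 : h x < h y) (l2 : h y < h z) (l3 : h z < h w)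
    (hs : Dbl G U τ h F s.1) (ht : DT G U τ h F x y z ∨ DT G U τ h F x y w ∨ DT G U τ h F x z w ∨
      DT G U τ h F y z w) : DsbL G U τ T h m F o ε s := by
  have hx : x ∈ s.1 := by simp [e]
  have hy : y ∈ s.1 := by simp [e]
  have hz : z ∈ s.1 := by simp [e]
  have hw : w ∈ s.1 := by simp [e]
  have l4 := l1.trans l2
  have l5 := l2.trans l3
  have l6 := l4.trans l3
  have hU := (d.dbl_act hs).2.2
  have n : ∀ {a b : V}, h a < h b → a ≠ b := fun l e => l.ne (congrArg h e)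
  have e1 : m s = x := d.m_eq hx (hU _ hx) (by simp +contextual [e, l1.le, l4.le, l6.le])
  have e2 : m (T s) = τ w := d.mT_eq hw (hU _ hw) (by simp +contextual [e, l3.le, l5.le, l6.le])
  have k : ∀ φ : Fc G → ZMod 2, dsbC φ s = _ := fun φ =>
    (congrArg (dsbC φ) ((dsb_self s s).symm.trans (congrArg (dsbR s) e))).trans
      (dsb_c4 φ hx hy hz hw (n l1) (n l4) (n l6) (n l2) (n l5) (n l3))
  have c1 := @DS.dsb_1 _ _ _ _ _ _ _ _ _ _ d he s hs _ _ e1 e2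
  have c2 := @DS.dsb_2 _ _ _ _ _ _ _ _ _ _ d he s hs _ _ e1 e2
  have c3 := @DS.dsb_3 _ _ _ _ _ _ _ _ _ _ d he s hs _ _ e1 e2
  unfold DsbL
  rw [k, k, k, k]
  simp only [c1 hx, c1 hy, c1 hz, c1 hw, c2 hx hy l1, c2 hx hz l4, c2 hx hw l6, c2 hy hz l2,
    c2 hy hw l5, c2 hz hw l3, c3 hx hy hz l1 l2, c3 hx hy hw l1 l5, c3 hx hz hw l4 l3,
    c3 hy hz hw l2 l3]
  refine dsb_f4 _ _ _ _ _ _ _ _ _ ?_
  rwa [← d.dsb_dt hs hx hy hz l1 l2, ← d.dsb_dt hs hx hy hw l1 l5, ← d.dsb_dt hs hx hz hw l4 l3,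
    ← d.dsb_dt hs hy hz hw l2 l3]

theorem DS.dsb_l (d : DS G U τ T h m F o) (he : EpsOK G U τ T h F ε) {s : Fc G}
    (hs : Dbl G U τ h F s.1) : DsbL G U τ T h m F o ε s := by
  have hU := (d.dbl_act hs).2.2
  obtain ⟨u, hu, v, hv, w, hw, ht⟩ := id hs
  have l1 := ht.2.2.2.2.2.2.1
  have l2 := ht.2.2.2.2.2.2.2.1
  have n : ∀ {a b : V}, h a < h b → a ≠ b := fun l e => l.ne (congrArg h e)
  have sub : ({u, v, w} : Finset V) ⊆ s.1 := by simp [Finset.insert_subset_iff, hu, hv, hw]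
  by_cases e : s.1 ⊆ {u, v, w}
  · exact d.dsb_l3 he (e.antisymm sub) ht
  obtain ⟨z, hz, hz'⟩ := Finset.not_subset.1 e
  have c3 : ({u, v, w} : Finset V).card = 3 :=
    Finset.card_eq_three.2 ⟨u, v, w, n l1, n (l1.trans l2), n l2, rfl⟩
  have e4 : s.1 = {z, u, v, w} := by
    refine (Finset.eq_of_subset_of_card_le (Finset.insert_subset hz sub) ?_).symm
    rw [Finset.card_insert_of_notMem hz', c3]
    exact d.dim _ s.2 ⟨u, hu, ht.1⟩
  simp only [Finset.mem_insert, Finset.mem_singleton, not_or] at hz'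
  have n' : ∀ {a : V}, a ∈ s.1 → z ≠ a → h z ≠ h a := fun ha ne e =>
    ne (d.hinj (hU _ hz) (hU _ ha) e)
  rcases (n' hu hz'.1).lt_or_gt with l3 | l3
  · exact d.dsb_l4 he e4 l3 l1 l2 hs (Or.inr (Or.inr (Or.inr ht)))
  rw [Finset.insert_comm] at e4
  rcases (n' hv hz'.2.1).lt_or_gt with l4 | l4
  · exact d.dsb_l4 he e4 l3 l4 l2 hs (Or.inr (Or.inr (Or.inl ht)))
  rw [Finset.insert_comm z] at e4
  rcases (n' hw hz'.2.2).lt_or_gt with l5 | l5
  · exact d.dsb_l4 he e4 l1 l4 l5 hs (Or.inr (Or.inl ht))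
  rw [Finset.pair_comm z] at e4
  exact d.dsb_l4 he e4 l1 l2 l5 hs (Or.inl ht)

omit [Fintype V] in
theorem DS.dsb_no (d : DS G U τ T h m F o) {s r r' : Fc G} (hd : ¬ Dbl G U τ h F s.1)
    (hr : r ∈ up G U) (hr' : r' ∈ up G U) (l : r ≤ s) (l' : r' ≤ s) (hc : (sd G).r r r')
    (h1 : F (m r) (m s) ≠ 0) : F (m (T r')) (m (T s)) = 0 := by
  by_contra h2
  have hs : s ∈ up G U := by
    obtain ⟨a, ha, hU⟩ := hr
    exact ⟨a, l ha, hU⟩
  obtain ⟨u1, u2⟩ := d.sel s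
  obtain ⟨i1, i2⟩ := d.sel r
  obtain ⟨w1, w2⟩ := d.sel2 s
  obtain ⟨j1, j2⟩ := d.sel2 r'
  replace u2 := u2 hs
  replace i2 := i2 hr
  replace w2 := w2 hs
  replace j2 := j2 hr'
  dsimp only at w1 w2 j1 j2
  have l1 : h (m s) < h (m r) := lt_of_le_of_ne (d.hmin s _ (l i1) i2) fun e => h1 (by
    rw [d.hinj u2 i2 e]
    exact d.coc.self i2)
  have l2 : h (τ (m (T r'))) < h (τ (m (T s))) := lt_of_le_of_ne (d.hmax s (l' j1) j2) fun e =>
    h2 (by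
      have e' := congrArg τ (d.hinj j2 w2 e)
      rw [d.inv, d.inv] at e'
      rw [e']
      exact d.coc.self ((d.tmem _).1 w2))
  have l3 : h (m r) ≤ h (τ (m (T r'))) := hc.elim (fun le => d.hmax r' (le i1) i2) fun le =>
    d.hmin r _ (le j1) j2
  rw [← d.inv (m (T r')), ← d.inv (m (T s))] at h2
  generalize τ (m (T r')) = j at *
  generalize τ (m (T s)) = w at *
  have r0 := s.2.2
  have f1 : F (m s) (m r) ≠ 0 := by rwa [d.coc.symm i2 u2 (r0 _ (l i1) _ u1)]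
  have e := d.coc _ ((d.tmem _).2 i2) _ ((d.tmem _).2 j2) _ ((d.tmem _).2 w2)
    (d.tmap _ _ (r0 _ (l i1) _ (l' j1))) (d.tmap _ _ (r0 _ (l' j1) _ w1))
    (d.tmap _ _ (r0 _ (l i1) _ w1))
  by_cases h3 : F (τ (m r)) (τ j) = 0
  · rw [h3, zero_add] at e
    exact hd ⟨_, u1, _, l i1, _, w1, u2, i2, w2, r0 _ u1 _ (l i1), r0 _ (l i1) _ w1,
      r0 _ u1 _ w1, l1, l3.trans_lt l2, f1, e ▸ h2⟩
  · refine hd ⟨_, u1, _, l i1, _, l' j1, u2, i2, j2, r0 _ u1 _ (l i1), r0 _ (l i1) _ (l' j1),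
      r0 _ u1 _ (l' j1), l1, lt_of_le_of_ne l3 fun e => h3 ?_, f1, h3⟩
    rw [d.hinj i2 j2 e]
    exact d.coc.self ((d.tmem _).2 j2)

theorem DS.loc (d : DS G U τ T h m F o) (he : EpsOK G U τ T h F ε) {s : Fc G} (hs : s ∈ up G U) :
    chi (sd G) {r | r ∈ up G U ∧ r < s ∧ GG G U τ T h m F o ε r s = 0} +
        chi (sd G) {r | r ∈ up G U ∧ r < s} =
      chi (sd G) {r | r ∈ up G U ∧ r < s ∧ F (m r) (m s) = 0} +
        chi (sd G) {r | r ∈ up G U ∧ r < s ∧ F (m (T r)) (m (T s)) = 0} := by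
  have _ := hs
  by_cases hd : Dbl G U τ h F s.1
  · have hU := (d.dbl_act hd).2.2
    have k : ∀ r : Fc G, r < s → r ∈ up G U := fun r l =>
      chi_meets r.2.1 fun a ha => hU a (l.le ha)
    have k1 : ∀ φ : Fc G → ZMod 2, chi (sd G) {r | r ∈ up G U ∧ r < s ∧ φ r = 0} = dsbC φ s :=
      fun φ => congrArg _ (Set.ext fun r => and_iff_right_of_imp fun l => k r l.1)
    have k2 : chi (sd G) {r | r ∈ up G U ∧ r < s} = dsbC (fun _ => 0) s :=
      congrArg _ (Set.ext fun r => ⟨fun l => ⟨l.2, rfl⟩, fun l => ⟨k r l.1, l.1⟩⟩)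
    rw [k1, k1, k1, k2]
    exact d.dsb_l he hd
  · have k : ∀ r r' : Fc G, r ∈ up G U ∧ r < s → r' ∈ up G U ∧ r' < s → (sd G).r r r' →
        F (m r) (m s) = 0 ∨ F (m (T r')) (m (T s)) = 0 := fun r r' h1 h2 hc =>
      or_iff_not_imp_left.2 (d.dsb_no hd h1.1 h2.1 h1.2.le h2.2.le hc)
    have g : ∀ r < s, GG G U τ T h m F o ε r s = F (m r) (m s) + F (m (T r)) (m (T s)) := by
      intro r l
      have h1 : ¬ Dbl G U τ h F r.1 := fun ⟨u, hu, v, hv, w, hw, ht⟩ =>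
        hd ⟨u, l.le hu, v, l.le hv, w, l.le hw, ht⟩
      unfold GG ee
      rw [if_neg hd, if_neg h1, add_zero, add_zero]
    rw [add_comm]
    refine Eq.trans ?_ (chi_union ?_)
    · congr 2
      · ext r
        refine ⟨fun h1 => (k r r h1 h1 ((sd G).refl r)).imp (fun h2 => ⟨h1.1, h1.2, h2⟩)
          fun h2 => ⟨h1.1, h1.2, h2⟩, fun h1 => h1.elim (fun h => ⟨h.1, h.2.1⟩) fun h =>
            ⟨h.1, h.2.1⟩⟩
      · ext r
        refine ⟨fun h1 => ?_, fun h1 => ⟨h1.1.1, h1.1.2.1, ?_⟩⟩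
        · have h2 := h1.2.2
          rw [g r h1.2.1] at h2
          rcases k r r ⟨h1.1, h1.2.1⟩ ⟨h1.1, h1.2.1⟩ ((sd G).refl r) with h3 | h3
          · rw [h3, zero_add] at h2
            exact ⟨⟨h1.1, h1.2.1, h3⟩, h1.1, h1.2.1, h2⟩
          · rw [h3, add_zero] at h2
            exact ⟨⟨h1.1, h1.2.1, h2⟩, h1.1, h1.2.1, h3⟩
        · rw [g r h1.1.2.1, h1.1.2.2, h1.2.2.2, add_zero]
    · intro t ht hi
      have hi' : ∀ r ∈ t, r ∈ up G U ∧ r < s := fun r hr =>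
        (hi r hr).elim (fun h => ⟨h.1, h.2.1⟩) fun h => ⟨h.1, h.2.1⟩
      refine or_iff_not_imp_left.2 fun h1 r' hr' => ⟨(hi' r' hr').1, (hi' r' hr').2, ?_⟩
      by_contra h2
      exact h1 fun r hr => ⟨(hi' r hr).1, (hi' r hr).2,
        (k r r' (hi' r hr) (hi' r' hr') (ht.2 r hr r' hr')).resolve_right h2⟩

theorem DS.gg_chi (d : DS G U τ T h m F o) (he : EpsOK G U τ T h F ε) :
    chiF (sd G) (up G U) (GG G U τ T h m F o ε) = 2 * chiF G U F := by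
  have h1 : Coc (sd G) (up G U) fun s s' => F (m s) (m s') := by
    intro a ha b hb c hc r1 r2 r3
    exact d.coc _ ((d.sel a).2 ha) _ ((d.sel b).2 hb) _ ((d.sel c).2 hc)
      (dsa_adj r1 (d.sel a).1 (d.sel b).1) (dsa_adj r2 (d.sel b).1 (d.sel c).1)
      (dsa_adj r3 (d.sel a).1 (d.sel c).1)
  have h2 : Coc (sd G) (up G U) fun s s' => F (m (T s)) (m (T s')) := by
    have h2 : ∀ a b : Fc G, (sd G).r a b → (sd G).r (T a) (T b) := fun a b r =>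
      r.imp d.le_iff.2 d.le_iff.2
    intro a ha b hb c hc r1 r2 r3
    exact h1 _ (d.up_iff.2 ha) _ (d.up_iff.2 hb) _ (d.up_iff.2 hc) (h2 _ _ r1) (h2 _ _ r2)
      (h2 _ _ r3)
  have h0 : Coc (sd G) (up G U) fun _ _ => 0 := fun _ _ _ _ _ _ _ _ _ => add_zero _
  have e1 : chiF (sd G) (up G U) (fun s s' => F (m s) (m s')) = chiF G U F :=
    d.sel.contr_up.chiF F
  have e2 : chiF (sd G) (up G U) (fun s s' => F (m (T s)) (m (T s'))) = chiF G U F := by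
    have e := d.sel2.contr_up.chiF fun x y => F (τ x) (τ y)
    simp only [d.inv] at e
    exact e.trans d.chiF_tau
  have e0 : chiF (sd G) (up G U) (fun _ _ => 0) = 0 :=
    Finset.sum_eq_zero fun s _ => if_neg fun ⟨_, _, _, _, _, _, h⟩ => h rfl
  have t := chiF_top (d.gg_coc ε)
  have t0 := chiF_top h0
  have t1 := chiF_top h1
  have t2 := chiF_top h2
  have key : ((∑ x : Fc G, if x ∈ up G U then 1 - chi (ord (Fc G))
      {y | y ∈ up G U ∧ y < x ∧ GG G U τ T h m F o ε y x = 0} else 0) +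
      ∑ x : Fc G, if x ∈ up G U then 1 - chi (ord (Fc G))
        {y | y ∈ up G U ∧ y < x ∧ (0 : ZMod 2) = 0} else 0) =
      (∑ x : Fc G, if x ∈ up G U then 1 - chi (ord (Fc G))
        {y | y ∈ up G U ∧ y < x ∧ F (m y) (m x) = 0} else 0) +
      ∑ x : Fc G, if x ∈ up G U then 1 - chi (ord (Fc G))
        {y | y ∈ up G U ∧ y < x ∧ F (m (T y)) (m (T x)) = 0} else 0 := by
    rw [← Finset.sum_add_distrib, ← Finset.sum_add_distrib]
    refine Finset.sum_congr rfl fun x _ => ?_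
    split_ifs with hx
    · have k := d.loc he hx
      simp only [and_true]
      unfold sd at k
      linear_combination -k
    · rfl
  unfold sd at e0 e1 e2 ⊢
  linear_combination t + t0 - t1 - t2 + key - e0 + e1 + e2

end KG
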