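import Pool.Agent.Work.MP_c146e2_gt.KG.Bas

set_option autoImplicit false

noncomputable section

open scoped Classical

namespace KG

variable {V V' : Type}

open Finset Module

/-- The simplices with `k` vertices inside `U`. -/
abbrev TopC (G : Cx V) (U : Set V) (k : ℕ) : Type :=
  {s : Finset V // Clq G s ∧ Ins s U ∧ s.card = k}

section

variable {G : Cx V} {U : Set V} {s t : Finset V} {w : V}

theorem top_meets (h : Clq G s) (h' : Ins s U) : Meets s U :=
  let ⟨a, ha⟩ := h.1
  ⟨a, ha, h' a ha⟩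

theorem top_meets_mono (h : Meets s U) (hs : s ⊆ t) : Meets t U :=
  let ⟨a, ha, hU⟩ := h
  ⟨a, hs ha, hU⟩

theorem top_sub (h : Clq G t) (hs : s ⊆ t) (hn : s.Nonempty) : Clq G s :=
  ⟨hn, fun a ha b hb => h.2 a (hs ha) b (hs hb)⟩

theorem top_ins (h : Clq G s) (hw : w ∈ lk G s) : Clq G (insert w s) := by
  refine ⟨insert_nonempty _ _, fun a ha b hb => ?_⟩
  rcases mem_insert.1 ha with e | ha' <;> rcases mem_insert.1 hb with e' | hb'
  exacts [e ▸ e' ▸ G.refl _, e ▸ hw.2 b hb', e' ▸ G.symm _ _ (hw.2 a ha'), h.2 a ha' b hb']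

theorem top_lk (h : Clq G t) (hs : s ⊆ t) (hw : w ∈ t) (hn : w ∉ s) : w ∈ lk G s :=
  ⟨hn, fun a ha => h.2 w hw a (hs ha)⟩

theorem top_sum [Fintype V] (h : Clq G s) {k : ℕ} (hk : s.card + 1 = k) (φ : Finset V → ZMod 2) :
    (∑ t, if Clq G t ∧ t.card = k ∧ s ⊆ t then φ t else 0) =
      ∑ w, if w ∈ lk G s then φ (insert w s) else 0 := by
  rw [← sum_filter, ← sum_filter]
  refine (sum_bij (fun w _ => insert w s) (fun w hw => ?_) (fun w hw w' _ e => ?_)
    (fun t ht => ?_) fun _ _ => rfl).symm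
  · have hw := (mem_filter.1 hw).2
    exact mem_filter.2 ⟨mem_univ _, top_ins h hw, by rw [card_insert_of_notMem hw.1, hk],
      subset_insert _ _⟩
  · exact (insert_inj (mem_filter.1 hw).2.1).1 e
  · obtain ⟨h1, h2, h3⟩ := (mem_filter.1 ht).2
    obtain ⟨w, hw, rfl⟩ := exists_eq_insert_iff.2 ⟨h3, by omega⟩
    exact ⟨w, mem_filter.2 ⟨mem_univ _, top_lk h1 h3 (mem_insert_self _ _) hw⟩, rfl⟩

theorem top_two [Fintype V] {S : Set V} {a b : V} (hab : a ≠ b) (hS : S = {a, b})
    (φ : V → ZMod 2) : (∑ w, if w ∈ S then φ w else 0) = φ a + φ b := by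
  rw [← sum_filter, ← sum_pair hab]
  congr 1
  ext w
  simp [hS]

theorem top_ext (h : PMan G U) : ∀ (k : ℕ) {s : Finset V}, Clq G s → Meets s U → s.card + k = 4 →
    ∃ t, Clq G t ∧ t.card = 4 ∧ s ⊆ t
  | 0, s, hs, _, hk => ⟨s, hs, hk, Subset.rfl⟩
  | k + 1, s, hs, hU, hk => by
    obtain ⟨w, hw⟩ : (lk G s).Nonempty := by
      rcases Nat.lt_or_ge s.card 3 with h3 | h3
      · exact (h.con s hs hU (by omega)).1
      · exact Set.nonempty_of_ncard_ne_zero (by rw [h.tri s hs hU (by omega)]; norm_num)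
    obtain ⟨t, h1, h2, h3⟩ := top_ext h k (top_ins hs hw) (top_meets_mono hU (subset_insert _ _))
      (by rw [card_insert_of_notMem hw.1]; omega)
    exact ⟨t, h1, h2, (subset_insert _ _).trans h3⟩

/-- A tetrahedron over each simplex. -/
theorem top_tau (h : PMan G U) : ∃ τ : Finset V → Finset V, ∀ s, Clq G s → Meets s U →
    Clq G (τ s) ∧ (τ s).card = 4 ∧ s ⊆ τ s := by
  have : ∀ s, ∃ t, Clq G s → Meets s U → Clq G t ∧ t.card = 4 ∧ s ⊆ t := fun s => by
    by_cases hs : Clq G s ∧ Meets s U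
    · obtain ⟨t, ht⟩ := top_ext h (4 - s.card) hs.1 hs.2 (by have := h.dim s hs.1 hs.2; omega)
      exact ⟨t, fun _ _ => ht⟩
    · exact ⟨s, fun h1 h2 => absurd ⟨h1, h2⟩ hs⟩
  exact ⟨fun s => (this s).choose, fun s => (this s).choose_spec⟩

/-- `g` is constant on the tetrahedra over a simplex with `k` vertices. -/
def TopP (G : Cx V) (U : Set V) (g : Finset V → ZMod 2) (k : ℕ) : Prop :=
  ∀ s, Clq G s → Meets s U → s.card = k → ∀ t t', Clq G t → t.card = 4 → s ⊆ t →
    Clq G t' → t'.card = 4 → s ⊆ t' → g t = g t'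

theorem top_down (h : PMan G U) {g : Finset V → ZMod 2} {k : ℕ} (hk : k ≤ 2)
    (hg : TopP G U g (k + 1)) : TopP G U g k := by
  obtain ⟨τ, hτ⟩ := top_tau h
  intro s hs hU hc
  have m : ∀ w, Meets (insert w s) U := fun w => top_meets_mono hU (subset_insert _ _)
  have key : ∀ w ∈ lk G s, ∀ t, Clq G t → t.card = 4 → insert w s ⊆ t →
      g t = g (τ (insert w s)) := fun w hw t h1 h2 h3 =>
    let ⟨a1, a2, a3⟩ := hτ _ (top_ins hs hw) (m w)
    hg _ (top_ins hs hw) (m w) (by rw [card_insert_of_notMem hw.1, hc]) _ _ h1 h2 h3 a1 a2 a3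
  have ex : ∀ t, Clq G t → t.card = 4 → s ⊆ t → ∃ w ∈ lk G s, g t = g (τ (insert w s)) :=
    fun t h1 h2 h3 => by
      obtain ⟨w, w1, w2⟩ := exists_mem_notMem_of_card_lt_card (s := s) (t := t) (by omega)
      exact ⟨w, top_lk h1 h3 w1 w2, key w (top_lk h1 h3 w1 w2) t h1 h2 (insert_subset w1 h3)⟩
  intro t t' h1 h2 h3 h4 h5 h6
  obtain ⟨w, hw, e⟩ := ex t h1 h2 h3
  obtain ⟨w', hw', e'⟩ := ex t' h4 h5 h6
  rw [e, e']
  refine rch_const (f := fun w => g (τ (insert w s))) (fun a ha b hb hab => ?_)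
    ((h.con s hs hU (by omega)).2 w hw w' hw')
  rcases eq_or_ne a b with rfl | hne
  · rfl
  have hl : a ∈ lk G (insert b s) := ⟨by simp [hne, ha.1], fun x hx => by
    rcases mem_insert.1 hx with rfl | hx
    exacts [hab, ha.2 x hx]⟩
  obtain ⟨a1, a2, a3⟩ := hτ _ (top_ins (top_ins hs hb) hl)
    (top_meets_mono (m b) (subset_insert _ _))
  exact (key a ha _ a1 a2 ((insert_subset_insert _ (subset_insert _ _)).trans a3)).symm.trans
    (key b hb _ a1 a2 ((subset_insert _ _).trans a3))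

theorem top_chi [Fintype V] (h : PMan G U) : chi G U = Fintype.card (TopC G U 1)
    - Fintype.card (TopC G U 2) + Fintype.card (TopC G U 3) - Fintype.card (TopC G U 4) := by
  simp only [Fintype.card_subtype, card_filter, Nat.cast_sum, chi, ← sum_sub_distrib,
    ← sum_add_distrib]
  refine sum_congr rfl fun s _ => ?_
  by_cases hs : Clq G s ∧ Ins s U
  · have h1 := h.dim s hs.1 (top_meets hs.1 hs.2)
    have h2 := hs.1.1.card_pos
    generalize hc : s.card = c at h1 h2
    interval_cases c <;> simp [hs]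
  · simp only [← and_assoc, hs, false_and, if_false]
    simp

/-- The incidence matrix of edges and triangles. -/
def topM (G : Cx V) (U : Set V) : Matrix (TopC G U 2) (TopC G U 3) (ZMod 2) :=
  fun e r => if e.1 ⊆ r.1 then 1 else 0

theorem top_ends (e : TopC G U 2) : ∃ p : V × V, p.1 ≠ p.2 ∧ e.1 = {p.1, p.2} :=
  let ⟨a, b, h⟩ := card_eq_two.1 e.2.2.2
  ⟨(a, b), h⟩

theorem top_sing {a : V} (ha : a ∈ U) : Clq G {a} ∧ Ins {a} U ∧ ({a} : Finset V).card = 1 :=
  ⟨⟨singleton_nonempty _, fun x hx y hy => by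
    rw [mem_singleton.1 hx, mem_singleton.1 hy]; exact G.refl _⟩,
    fun x hx => by rwa [mem_singleton.1 hx], card_singleton _⟩

theorem top_pair {a b : V} (ha : a ∈ U) (hb : b ∈ U) (h : G.r a b) (hab : a ≠ b) :
    Clq G {a, b} ∧ Ins {a, b} U ∧ ({a, b} : Finset V).card = 2 :=
  ⟨top_ins (top_sing hb).1 ⟨by simpa, fun x hx => by rwa [mem_singleton.1 hx]⟩,
    fun x hx => by rcases mem_insert.1 hx with rfl | hx; exacts [ha, mem_singleton.1 hx ▸ hb],
    card_pair hab⟩

/-- A function on the edges as a function of two vertices. -/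
def topE (x : TopC G U 2 → ZMod 2) (s : Finset V) : ZMod 2 :=
  if h : Clq G s ∧ Ins s U ∧ s.card = 2 then x ⟨s, h⟩ else 0

theorem top_coc [Fintype V] {x : TopC G U 2 → ZMod 2} (hx : (topM G U).transpose.mulVec x = 0) :
    Coc G U fun a b => topE x {a, b} := by
  have z : ∀ a, topE x {a, a} = 0 := fun a => dif_neg fun h => by simpa using h.2.2
  intro a ha b hb c hc hab hbc hac
  rcases eq_or_ne a b with rfl | n1
  · simp only [z, zero_add]
  rcases eq_or_ne b c with rfl | n2
  · simp only [z, add_zero]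
  rcases eq_or_ne a c with rfl | n3
  · simp only [z, pair_comm b a, CharTwo.add_self_eq_zero]
  have hl : a ∈ lk G {b, c} := ⟨by simp [n1, n3], fun y hy => by
    rcases mem_insert.1 hy with rfl | hy
    exacts [hab, mem_singleton.1 hy ▸ hac]⟩
  have hr : Clq G {a, b, c} ∧ Ins {a, b, c} U ∧ ({a, b, c} : Finset V).card = 3 :=
    ⟨top_ins (top_pair hb hc hbc n2).1 hl, fun y hy => by
      rcases mem_insert.1 hy with rfl | hy
      exacts [ha, (top_pair hb hc hbc n2).2.1 y hy], by
      rw [card_insert_of_notMem hl.1, card_pair n2]⟩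
  have e := congrFun hx ⟨_, hr⟩
  simp only [Matrix.mulVec, dotProduct, Matrix.transpose_apply, topM, ite_mul, one_mul, zero_mul,
    ← sum_filter, Pi.zero_apply] at e
  have e2 : filter (fun e : TopC G U 2 => e.1 ⊆ {a, b, c}) univ = {⟨_, top_pair ha hb hab n1⟩,
      ⟨_, top_pair hb hc hbc n2⟩, ⟨_, top_pair ha hc hac n3⟩} := by
    ext e
    obtain ⟨p, p1, p2⟩ := top_ends e
    simp only [mem_filter, mem_univ, true_and, mem_insert, mem_singleton, Subtype.ext_iff, p2,
      insert_subset_iff, singleton_subset_iff]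
    constructor
    · rintro ⟨h1 | h1 | h1, h2 | h2 | h2⟩ <;> first
        | exact absurd (h1.trans h2.symm) p1
        | (rw [h1, h2]
           first
            | exact Or.inl rfl
            | exact Or.inr (Or.inl rfl)
            | exact Or.inr (Or.inr rfl)
            | exact Or.inl (pair_comm _ _)
            | exact Or.inr (Or.inl (pair_comm _ _))
            | exact Or.inr (Or.inr (pair_comm _ _)))
    · intro h
      have m1 : p.1 ∈ ({p.1, p.2} : Finset V) := mem_insert_self _ _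
      have m2 : p.2 ∈ ({p.1, p.2} : Finset V) := mem_insert_of_mem (mem_singleton_self _)
      rcases h with h | h | h <;> rw [h, mem_insert, mem_singleton] at m1 m2
      · exact ⟨m1.imp_right Or.inl, m2.imp_right Or.inl⟩
      · exact ⟨Or.inr m1, Or.inr m2⟩
      · exact ⟨m1.imp_right Or.inr, m2.imp_right Or.inr⟩
  have d : ∀ {x y z u v : V}, x ≠ u → x ≠ v → ({x, y} : Finset V) ≠ {u, v} := fun h1 h2 e => by
    have := e ▸ mem_insert_self _ _
    simp_all
  rw [e2, sum_insert, sum_pair] at e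
  · simp only [topE, dif_pos (top_pair ha hb hab n1), dif_pos (top_pair hb hc hbc n2),
      dif_pos (top_pair ha hc hac n3)]
    rw [← add_assoc] at e
    exact (CharTwo.add_eq_zero.1 e)
  · exact fun e => d (z := a) n1.symm n2 ((Subtype.ext_iff.1 e).trans (by rfl)) |>.elim
  · simp only [mem_insert, mem_singleton, Subtype.ext_iff, not_or]
    exact ⟨d (z := a) n1 n3, fun e => d (z := a) n1.symm n2 ((pair_comm _ _).trans e)⟩

theorem top_inj {A B : Type} [AddCommGroup A] [Module (ZMod 2) A] [AddCommGroup B]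
    [Module (ZMod 2) B] [Module.Finite (ZMod 2) B] (φ : A →ₗ[ZMod 2] B) (K : Submodule (ZMod 2) B)
    (h : ∀ a, φ a ∈ K) (hi : ∀ a, φ a = 0 → a = 0) : finrank (ZMod 2) A ≤ finrank (ZMod 2) K :=
  LinearMap.finrank_le_finrank_of_injective (f := φ.codRestrict K h)
    ((injective_iff_map_eq_zero _).2 fun a e => hi a (Subtype.ext_iff.1 e))

theorem top_co [Fintype V] {n : ℕ} (hb : B1le G U n) :
    finrank (ZMod 2) (LinearMap.ker (topM G U).transpose.mulVecLin) + kc G U ≤
      n + Fintype.card (TopC G U 1) := by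
  obtain ⟨f, hf⟩ := hb
  choose en e1 e2 using fun e : TopC G U 2 => top_ends e
  have m1 : ∀ e, (en e).1 ∈ e.1 := fun e => by rw [e2 e]; simp
  have m2 : ∀ e, (en e).2 ∈ e.1 := fun e => by rw [e2 e]; simp
  let L : ((Fin n → ZMod 2) × (TopC G U 1 → ZMod 2)) →ₗ[ZMod 2] (TopC G U 2 → ZMod 2) :=
    { toFun := fun p e => ∑ i, p.1 i * f i (en e).1 (en e).2 +
        (p.2 ⟨_, top_sing (e.2.2.1 _ (m1 e))⟩ + p.2 ⟨_, top_sing (e.2.2.1 _ (m2 e))⟩)
      map_add' := fun p q => by
        ext e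
        simp only [Prod.fst_add, Prod.snd_add, Pi.add_apply, add_mul, sum_add_distrib]
        ring
      map_smul' := fun c p => by
        ext e
        simp only [Prod.smul_fst, Prod.smul_snd, Pi.smul_apply, smul_eq_mul, RingHom.id_apply,
          mul_add, mul_sum, mul_assoc] }
  let J : LC G U →ₗ[ZMod 2] ((Fin n → ZMod 2) × (TopC G U 1 → ZMod 2)) :=
    { toFun := fun g => (0, fun s => ∑ v ∈ s.1, g.1 v)
      map_add' := fun p q => by
        ext <;> simp [sum_add_distrib]
      map_smul' := fun c p => by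
        ext <;> simp [mul_sum] }
  have h1 : LinearMap.ker (topM G U).transpose.mulVecLin ≤ LinearMap.range L := fun x hx => by
    obtain ⟨y, g, hg⟩ := hf _ (top_coc hx)
    refine ⟨(y, fun s => ∑ v ∈ s.1, g v), funext fun e => ?_⟩
    have := hg _ (e.2.2.1 _ (m1 e)) _ (e.2.2.1 _ (m2 e)) (e.2.1.2 _ (m1 e) _ (m2 e))
    simp only [← e2 e, topE, dif_pos e.2] at this
    simp only [L, LinearMap.coe_mk, AddHom.coe_mk, sum_singleton, ← this]
    rw [add_left_comm, CharTwo.add_self_eq_zero, add_zero]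
  have h2 := top_inj J (LinearMap.ker L) (fun g => funext fun e => by
    simp only [L, J, LinearMap.coe_mk, AddHom.coe_mk, sum_singleton, Pi.zero_apply, zero_mul,
      sum_const_zero, zero_add]
    rw [g.2.1 _ (e.2.2.1 _ (m1 e)) _ (e.2.2.1 _ (m2 e)) (e.2.1.2 _ (m1 e) _ (m2 e)),
      CharTwo.add_self_eq_zero]) fun g e => Subtype.ext (funext fun v => by
    by_cases hv : v ∈ U
    · simpa [J] using congrFun (congrArg Prod.snd e) ⟨_, top_sing hv⟩
    · exact g.2.2 v hv)
  have h3 := L.finrank_range_add_finrank_ker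
  have h4 := Submodule.finrank_mono h1
  rw [lc_finrank] at h2
  rw [finrank_prod, finrank_fintype_fun_eq_card, finrank_fintype_fun_eq_card,
    Fintype.card_fin] at h3
  omega

/-- The sum over the tetrahedra that contain `r`. -/
def topS [Fintype V] (G : Cx V) (g : Finset V → ZMod 2) (r : Finset V) : ZMod 2 :=
  ∑ t, if Clq G t ∧ t.card = 4 ∧ r ⊆ t then g t else 0

theorem top_tri [Fintype V] (h : PMan G U) (g : Finset V → ZMod 2) (hs : Clq G s) (hU : Meets s U)
    (hc : s.card = 3) : ∃ a b, lk G s = {a, b} ∧ topS G g s = g (insert a s) + g (insert b s) := by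
  obtain ⟨a, b, hab, e⟩ := Set.ncard_eq_two.1 (h.tri s hs hU hc)
  exact ⟨a, b, e, by rw [topS, top_sum hs (by omega), top_two hab e fun w => g (insert w s)]⟩

theorem top_three [Fintype V] (h : PMan G U) {g : Finset V → ZMod 2}
    (hg : ∀ s, Clq G s → Meets s U → s.card = 3 → topS G g s = 0) : TopP G U g 3 := by
  intro s hs hU hc
  obtain ⟨a, b, e, e'⟩ := top_tri h g hs hU hc
  rw [hg s hs hU hc, eq_comm, CharTwo.add_eq_zero] at e'
  have key : ∀ t, Clq G t → t.card = 4 → s ⊆ t → g t = g (insert a s) := fun t h1 h2 h3 => by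
    obtain ⟨w, hw, rfl⟩ := exists_eq_insert_iff.2 ⟨h3, by omega⟩
    have := top_lk h1 h3 (mem_insert_self _ _) hw
    rw [e] at this
    rcases this with rfl | rfl
    exacts [rfl, e'.symm]
  exact fun t t' h1 h2 h3 h4 h5 h6 => (key t h1 h2 h3).trans (key t' h4 h5 h6).symm

theorem top_dd [Fintype V] (g : Finset V → ZMod 2) (hs : Clq G s) (hc : s.card = 2) :
    (∑ r, if Clq G r ∧ r.card = 3 ∧ s ⊆ r then topS G g r else 0) = 0 := by
  rw [top_sum hs (by omega)]
  have e : ∀ w, (if w ∈ lk G s then topS G g (insert w s) else 0) = ∑ u,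
      if w ∈ lk G s ∧ u ∈ lk G s ∧ u ≠ w ∧ G.r u w then g (insert u (insert w s)) else 0 := by
    intro w
    by_cases hw : w ∈ lk G s
    · rw [if_pos hw, topS, top_sum (top_ins hs hw) (by rw [card_insert_of_notMem hw.1]; omega)]
      refine sum_congr rfl fun u _ => if_congr ?_ rfl rfl
      simp only [lk, Set.mem_ofPred_eq, mem_insert, not_or, forall_eq_or_imp] at hw ⊢
      tauto
    · simp [hw]
  simp only [e]
  rw [← Fintype.sum_prod_type']
  refine sum_involution (fun p _ => p.swap) (fun p _ => ?_) (fun p _ hp e => hp ?_)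
    (fun _ _ => mem_univ _) fun _ _ => rfl
  · rw [CharTwo.add_eq_zero, Prod.fst_swap, Prod.snd_swap, insert_comm]
    exact if_congr ⟨fun ⟨a, b, c, d⟩ => ⟨b, a, c.symm, G.symm _ _ d⟩,
      fun ⟨a, b, c, d⟩ => ⟨b, a, c.symm, G.symm _ _ d⟩⟩ rfl rfl
  · exact if_neg fun hh => hh.2.2.1 (congrArg Prod.fst e)

/-- A function on the tetrahedra from its inside values and a function on the frontier. -/
def topG (G : Cx V) (U : Set V) :
    ((TopC G U 4 → ZMod 2) × LC (sd G) (Xs G U)) →ₗ[ZMod 2] (Finset V → ZMod 2) where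
  toFun p t := if h : Clq G t ∧ Ins t U ∧ t.card = 4 then p.1 ⟨t, h⟩
    else if h : Clq G t then p.2.1 ⟨t, h⟩ else 0
  map_add' p q := by
    ext t
    simp only [Pi.add_apply]
    split_ifs <;> simp
  map_smul' c p := by
    ext t
    simp only [Pi.smul_apply]
    split_ifs <;> simp

theorem top_cross (p : (TopC G U 4 → ZMod 2) × LC (sd G) (Xs G U)) {x : Fc G} (hx : x ∈ Xs G U)
    (ht : Clq G t) (h : x.1 ⊆ t) : topG G U p t = p.2.1 x := by
  have hx2 := top_meets_mono hx.2 h
  have : ¬ (Clq G t ∧ Ins t U ∧ t.card = 4) := fun hh => let ⟨a, ha, h2⟩ := hx2; h2 (hh.2.1 a ha)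
  simp only [topG, LinearMap.coe_mk, AddHom.coe_mk, dif_neg this, dif_pos ht]
  exact (p.2.2.1 x hx ⟨t, ht⟩ ⟨top_meets_mono hx.1 h, hx2⟩ (Or.inl h)).symm

theorem top_zero [Fintype V] (h : PMan G U) (p : (TopC G U 4 → ZMod 2) × LC (sd G) (Xs G U))
    (hs : Clq G s) (hU : Meets s U) (hc : s.card = 3) (hn : ¬ Ins s U) :
    topS G (topG G U p) s = 0 := by
  obtain ⟨a, b, e, e'⟩ := top_tri h (topG G U p) hs hU hc
  have hx : (⟨s, hs⟩ : Fc G) ∈ Xs G U := ⟨hU, by
    by_contra hh
    exact hn fun a ha => by_contra fun h2 => hh ⟨a, ha, h2⟩⟩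
  rw [e', top_cross p hx (top_ins hs (by simp [e])) (subset_insert _ _),
    top_cross p hx (top_ins hs (by simp [e])) (subset_insert _ _), CharTwo.add_self_eq_zero]

theorem top_ho [Fintype V] (h : PMan G U) : Fintype.card (TopC G U 4) + kc (sd G) (Xs G U) ≤
    finrank (ZMod 2) (LinearMap.ker (topM G U).mulVecLin) + kc G U := by
  obtain ⟨τ, hτ⟩ := top_tau h
  let Φ : ((TopC G U 4 → ZMod 2) × LC (sd G) (Xs G U)) →ₗ[ZMod 2] (TopC G U 3 → ZMod 2) :=
    { toFun := fun p r => topS G (topG G U p) r.1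
      map_add' := fun p q => by
        ext r
        simp only [topS, map_add, Pi.add_apply, ← sum_add_distrib]
        exact sum_congr rfl fun t _ => by split_ifs <;> simp
      map_smul' := fun c p => by
        ext r
        simp only [topS, map_smul, Pi.smul_apply, smul_eq_mul, RingHom.id_apply, mul_sum, mul_ite,
          mul_zero] }
  let J : LinearMap.ker Φ →ₗ[ZMod 2] (V → ZMod 2) :=
    { toFun := fun p v => if v ∈ U then topG G U p.1 (τ {v}) else 0
      map_add' := fun p q => by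
        ext v
        simp only [Submodule.coe_add, map_add, Pi.add_apply]
        split_ifs <;> simp
      map_smul' := fun c p => by
        ext v
        simp only [Submodule.coe_smul, map_smul, Pi.smul_apply]
        split_ifs <;> simp }
  have h1 : LinearMap.range Φ ≤ LinearMap.ker (topM G U).mulVecLin := by
    rintro _ ⟨p, rfl⟩
    refine funext fun e => ?_
    rw [Pi.zero_apply, ← top_dd (topG G U p) e.2.1 e.2.2.2]
    simp only [Matrix.mulVecLin_apply, Matrix.mulVec, dotProduct, topM, ite_mul, one_mul, zero_mul,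
      Φ, LinearMap.coe_mk, AddHom.coe_mk]
    rw [← sum_subtype (filter (fun s => Clq G s ∧ Ins s U ∧ s.card = 3) univ) (by simp)
      (fun r => if e.1 ⊆ r then topS G (topG G U p) r else 0), sum_filter]
    refine sum_congr rfl fun r _ => ?_
    by_cases hr : Clq G r ∧ r.card = 3 ∧ e.1 ⊆ r
    · by_cases hi : Ins r U
      · simp [hr, hi]
      · rw [if_pos hr, top_zero h p hr.1 (top_meets_mono (top_meets e.2.1 e.2.2.1) hr.2.2) hr.2.1 hi]
        simp
    · rw [if_neg hr]
      split_ifs with a b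
      exacts [absurd ⟨a.1, a.2.2, b⟩ hr, rfl, rfl]
  have key : ∀ p : LinearMap.ker Φ, ∀ v ∈ U, ∀ t, Clq G t → t.card = 4 → v ∈ t →
      topG G U p.1 (τ {v}) = topG G U p.1 t := fun p v hv t t1 t2 t3 => by
    have := top_down h (k := 1) (by norm_num) (top_down h (k := 2) le_rfl (top_three h
      (g := topG G U p.1) fun s hs hU hc => by
        by_cases hi : Ins s U
        · exact congrFun p.2 ⟨s, hs, hi, hc⟩
        · exact top_zero h _ hs hU hc hi))
    have m : Meets {v} U := ⟨v, mem_singleton_self _, hv⟩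
    obtain ⟨a1, a2, a3⟩ := hτ _ (top_sing hv).1 m
    exact this _ (top_sing hv).1 m (card_singleton _) _ _ a1 a2 a3 t1 t2 (by simpa)
  have h2 := top_inj J (LC G U) (fun p => ⟨fun a ha b hb hab => by
    rcases eq_or_ne a b with rfl | hne
    · rfl
    obtain ⟨a1, a2, a3⟩ := hτ _ (top_pair ha hb hab hne).1 ⟨a, by simp, ha⟩
    simp only [J, LinearMap.coe_mk, AddHom.coe_mk, if_pos ha, if_pos hb]
    rw [key p a ha _ a1 a2 (a3 (by simp)), key p b hb _ a1 a2 (a3 (by simp))],
    fun a ha => if_neg ha⟩) fun p e => by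
      have z : ∀ t, Clq G t → t.card = 4 → Meets t U → topG G U p.1 t = 0 :=
        fun t t1 t2 ⟨v, t3, hv⟩ => by
          rw [← key p v hv t t1 t2 t3]
          exact (if_pos hv).symm.trans (congrFun e v)
      refine Subtype.ext (Prod.ext (funext fun t => ?_) (Subtype.ext (funext fun x => ?_)))
      · exact (dif_pos t.2).symm.trans (z t.1 t.2.1 t.2.2.2 (top_meets t.2.1 t.2.2.1))
      · by_cases hx : x ∈ Xs G U
        · obtain ⟨a1, a2, a3⟩ := hτ _ x.2 hx.1
          exact (top_cross p.1 hx a1 a3).symm.trans (z _ a1 a2 (top_meets_mono hx.1 a3))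
        · exact p.1.2.2.2 x hx
  have h3 := Φ.finrank_range_add_finrank_ker
  have h4 := Submodule.finrank_mono h1
  rw [lc_finrank] at h2
  rw [finrank_prod, finrank_fintype_fun_eq_card, lc_finrank] at h3
  omega

end

theorem top_ineq [Fintype V] {G : Cx V} {U : Set V} {n : ℕ} (h : PMan G U) (hb : B1le G U n) :
    (kc (sd G) (Xs G U) : ℤ) ≤ chi G U + n := by
  have h1 := top_co hb
  have h2 := top_ho h
  have h3 := (topM G U).mulVecLin.finrank_range_add_finrank_ker
  have h4 := (topM G U).transpose.mulVecLin.finrank_range_add_finrank_ker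
  have h5 : finrank (ZMod 2) (LinearMap.range (topM G U).transpose.mulVecLin) =
    finrank (ZMod 2) (LinearMap.range (topM G U).mulVecLin) := Matrix.rank_transpose _
  rw [finrank_fintype_fun_eq_card] at h3 h4
  rw [top_chi h]
  omega

end KG
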