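import Pool.Agent.Work.MP_c146e2_gt.KG.ManS
import Pool.Agent.Work.MP_c146e2_gt.KG.XS
import Pool.Agent.Work.MP_c146e2_gt.KG.Top
import Pool.Agent.Work.MP_c146e2_gt.KG.Tree
import Pool.Agent.Work.MP_c146e2_gt.KG.Abs
import Pool.Agent.Work.MP_c146e2_gt.KG.Split

set_option autoImplicit false

noncomputable section

open scoped Classical

namespace KG

variable {V V' : Type}

theorem h1_xs [Fintype V] {G : Cx V} {U : Set V} (h : Man G U) (h1 : H1 G U) :
    H1 (sd G) (Xs G U) := by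
  have hb : B1le G U 0 := ⟨fun i => i.elim0, fun η hη => ⟨fun i => i.elim0, by
    simpa using h1 η hη⟩⟩
  have a1 := top_ineq h.toPMan hb
  have a2 := h.chi_xs
  have a3 := (surf_xs h.toPMan).chi_le
  refine a3.2.1 ?_
  have a4 := a3.1
  push_cast at a1
  omega

theorem dual_xs {G : Cx V} {U : Set V} {x b : Fc G} (hx : x ∉ up G U) (hb : b ∈ up G U)
    (h : (sd G).r x b) : b ∈ Xs G U := by
  refine ⟨hb, ?_⟩
  rcases h with h | h
  · obtain ⟨v, hv⟩ := x.2.1
    exact ⟨v, Fc.le_iff.1 h hv, fun hU => hx ⟨v, hv, hU⟩⟩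
  · obtain ⟨v, hv, hU⟩ := hb
    exact absurd ⟨v, Fc.le_iff.1 h hv, hU⟩ hx

theorem dual_z1 (x y z a b c : ZMod 2) (h : x + y = z) : x + a + b + (y + b + c) = z + a + c := by
  subst h
  revert x y a b c
  decide

theorem dual_z2 (a b : ZMod 2) : a + b + a + b = 0 := by
  revert a b
  decide

theorem dual_z3 (x a b c d : ZMod 2) (h : x + a + b = c + d) : x = c + a + (d + b) := by
  revert x a b c d
  decide

theorem h1_of_xs [Fintype V] {G : Cx V} {U : Set V} (h : H1 G Set.univ) (h1 : H1 (sd G) (Xs G U)) :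
    H1 G U := by
  intro η hη
  obtain ⟨m, hm⟩ := exists_sel G U
  have hc := hm.contr_up
  have hp : Coc (sd G) (up G U) fun s t => η (m s) (m t) := fun a ha b hb c hc' r1 r2 r3 =>
    hη _ (hc.mem a ha) _ (hc.mem b hb) _ (hc.mem c hc') (ctb_map hc ha r1) (ctb_map hc hb r2)
      (ctb_map hc ha r3)
  obtain ⟨f, hf⟩ := h1 (fun s t => η (m s) (m t)) fun a ha b hb c hc' =>
    hp a ha.1 b hb.1 c hc'.1
  let θ : Fc G → Fc G → ZMod 2 := fun a b =>
    if a ∈ up G U ∧ b ∈ up G U then η (m a) (m b) + f a + f b else 0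
  have hz : ∀ x b c, x ∉ up G U → (sd G).r x b → (sd G).r x c → (sd G).r b c → θ b c = 0 := by
    intro x b c hx r1 r2 r3
    simp only [θ]
    split_ifs with hh
    · have e : η (m b) (m c) = f b + f c := hf b (dual_xs hx hh.1 r1) c (dual_xs hx hh.2 r2) r3
      rw [e]
      exact dual_z2 _ _
    · rfl
  have hθ : Coc (sd G) Set.univ θ := by
    intro a _ b _ c _ r1 r2 r3
    by_cases ha : a ∈ up G U
    · by_cases hb : b ∈ up G U
      · by_cases hc' : c ∈ up G U
        · simp only [θ, ha, hb, hc', and_self, if_true]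
          exact dual_z1 _ _ _ _ _ _ (hp a ha b hb c hc' r1 r2 r3)
        · rw [hz c a b hc' ((sd G).symm _ _ r3) ((sd G).symm _ _ r2) r1]
          simp [θ, hc']
      · rw [hz b a c hb ((sd G).symm _ _ r1) r2 r3]
        simp [θ, hb]
    · rw [hz a b c ha r1 r3 r2]
      simp [θ, ha]
  have hu : H1 (sd G) Set.univ := up_univ G ▸ (h1_up G Set.univ).2 h
  obtain ⟨g, hg⟩ := hu θ hθ
  refine hc.cob hη ⟨fun a => g a + f a, fun a ha b hb r => ?_⟩
  have := hg a trivial b trivial r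
  simp only [θ, ha, hb, and_self, if_true] at this
  exact dual_z3 _ _ _ _ _ this

theorem dual_tv [Fintype V] {G : Cx V} (h : S3 G) {U : Set V} (h1 : H1 (sd G) (Xs G U)) :
    D2 ^ 2 * (tv G U * tv G Uᶜ) = D2 ^ (kc G U + kc G Uᶜ) := by
  have hs := h.sd
  have hU : Man G U := h.man.mono (Set.subset_univ _)
  have a1 := abs_roots (Z₀ := ∅) (hs.man.mono (Set.subset_univ _))
    ((surf_xs hU.toPMan).thin subset_rfl) h1 fun _ ha => ha.elim
  have a2 : (Xs G U)ᶜ = dn G U ∪ dn G Uᶜ := by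
    ext s
    simp only [Xs, dn, Meets, Ins, Set.mem_compl_iff, Set.mem_union, Set.mem_ofPred_eq]
    constructor
    · intro hn
      by_contra hc
      push Not at hc
      obtain ⟨⟨a, ha, ha'⟩, b, hb, hb'⟩ := hc
      exact hn ⟨⟨b, hb, hb'⟩, a, ha, ha'⟩
    · rintro (hh | hh) ⟨⟨a, ha, ha'⟩, b, hb, hb'⟩
      · exact hb' (hh b hb)
      · exact hh a ha ha'
  have a3 : Sep (sd G) (dn G U) (dn G Uᶜ) := by
    rintro a ha b hb (r | r)
    · obtain ⟨v, hv⟩ := a.2.1
      exact hb v (Fc.le_iff.1 r hv) (ha v hv)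
    · obtain ⟨v, hv⟩ := b.2.1
      exact hb v hv (ha v (Fc.le_iff.1 r hv))
  have a4 := fac a2 a3
  rw [dn_compl, dn_compl, compl_compl, tv_up (h.man.mono (Set.subset_univ _)),
    tv_up (h.man.mono (Set.subset_univ _))] at a4
  rw [Set.empty_union, a4] at a1
  rw [← tree_kc h.ne h.conn h.h1 U, mul_comm (tv G U), a1]
  linear_combination D2 ^ (kc (sd G) (Xs G U) + 1) * hs.tv0

/-- The numerical form of the theorem of Alexander for `Z`. -/
def AA [Fintype V] (G : Cx V) (Z : Set V) : Prop := H1 G Z → D2 * tv G Z = D2 ^ kc G Z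

theorem aa_compl [Fintype V] {G : Cx V} (h : S3 G) {Z : Set V} (ha : AA G Z) : AA G Zᶜ := by
  intro h1
  have a1 : H1 (sd G) (Xs G Z) := xs_compl G Z ▸ h1_xs (h.man.mono (Set.subset_univ _)) h1
  have a2 := ha (h1_of_xs h.h1 a1)
  have a3 := dual_tv h a1
  have a4 : D2 ^ kc G Z ≠ 0 := pow_ne_zero _ (zero_lt_one.trans one_lt_D2).ne'
  refine mul_left_cancel₀ a4 ?_
  rw [← pow_add, ← a3, ← a2]
  ring

theorem dual_abs [Fintype V] {G : Cx V} (h : S3 G) {Z Z' : Set V} (hZ : Absorb G Z Z')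
    (ha : AA G Z') : AA G Z := by
  intro h1
  rw [← hZ.tv (h.man.mono (Set.subset_univ _)), ← hZ.kc]
  exact ha (hZ.h1 h1)

def Reach (G : Cx V) : Set V → Set V → Prop :=
  Relation.ReflTransGen fun Z Z' => Absorb G Z Z' ∨ Absorb G Zᶜ Z'ᶜ

theorem aa_reach [Fintype V] {G : Cx V} (h : S3 G) {Z : Set V} (hr : Reach G Z Set.univ) :
    AA G Z := by
  induction hr using Relation.ReflTransGen.head_induction_on with
  | refl =>
    intro _
    have := h.ne
    rw [tv_univ, kc_eq_one.2 ⟨Set.univ_nonempty, h.conn⟩, mul_one, pow_one]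
  | head hZ _ ih =>
    rcases hZ with hZ | hZ
    · exact dual_abs h hZ ih
    · have := aa_compl h (dual_abs h hZ (aa_compl h ih))
      rwa [compl_compl] at this

theorem aa_contr [Fintype V] [Fintype V'] {G' : Cx V'} {G : Cx V} {f : V' → V}
    (h : Contr G' G Set.univ Set.univ f) (hm : Man G' Set.univ) {Z : Set V}
    (ha : AA G' (f ⁻¹' Z)) : AA G Z := by
  intro h1
  have a1 := h.restrict (Set.subset_univ Z)
  have a2 := (h.restrict (Set.subset_univ Zᶜ)).tv (hm.mono (Set.subset_univ _))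
  rw [Set.univ_inter] at a1
  rw [Set.univ_inter, Set.preimage_compl, compl_compl, compl_compl] at a2
  rw [← a2, ← a1.kc]
  exact ha (a1.h1.2 h1)

end KG
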