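import Pool.Agent.Work.MP_c146e2_gt.KG.G1
import Pool.Agent.Work.MP_c146e2_gt.KG.Chi

set_option autoImplicit false

noncomputable section

open scoped Classical

namespace KG

variable {V V' : Type}

def Edg (G : Cx V) (S : Set V) : Set (Finset V) := {e | Clq G e ∧ Ins e S ∧ e.card = 2}

def Tri (G : Cx V) (S : Set V) : Set (Finset V) := {t | Clq G t ∧ Ins t S ∧ t.card = 3}

def thW (x : V → Bool) (b : V → V → Bool) (e : Finset V) : ℝ :=
  if (∃ a ∈ e, x a = true) ∨ act b e then ph⁻¹ else 1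

def tetW (x : V → Bool) (b : V → V → Bool) (t : Finset V) : ℝ :=
  if (∀ a ∈ t, ∀ a' ∈ t, adm (x a) (x a') (b a a') = true) ∧
      ∀ a ∈ t, ∀ a' ∈ t, ∀ a'' ∈ t, adm (b a a') (b a a'') (b a' a'') = true then
    (if (∀ a ∈ t, x a = true) ∧ ful b t then -1
      else if (∃ a ∈ t, x a = true) ∨ act b t then ph else 1)
  else 0

def sqW (y : Bool) (x z : V → Bool) (b : V → V → Bool) (e : Finset V) : ℝ :=
  if (∀ a ∈ e, adm y (x a) (z a) = true) ∧
      ∀ a ∈ e, ∀ a' ∈ e, adm (x a) (x a') (b a a') = true ∧ adm (z a) (z a') (b a a') = true then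
    (if y = true ∧ (∀ a ∈ e, x a = true ∧ z a = true) ∧ ful b e then -1
      else if y = true ∨ (∃ a ∈ e, x a = true ∨ z a = true) ∨ act b e then ph else 1)
  else 0

theorem thW_eq {b : V → V → Bool} (hs : ∀ a a', b a a' = b a' a) (h0 : ∀ a, b a a = false)
    (x : V → Bool) {a a' : V} (h : a ≠ a') : thW x b {a, a'} = th (x a) (x a') (b a a') := by
  have _ := h
  unfold thW th
  refine if_congr ?_ rfl rfl
  simp only [act, Finset.mem_insert, Finset.mem_singleton, exists_eq_or_imp, exists_eq_left, h0,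
    hs a' a]
  cases x a <;> cases x a' <;> cases b a a' <;> simp

theorem tetW_eq {b : V → V → Bool} (hs : ∀ a a', b a a' = b a' a) (h0 : ∀ a, b a a = false)
    (x : V → Bool) {a a' c : V} (h : a ≠ a') (h' : a ≠ c) (h'' : a' ≠ c) :
    tetW x b {a, a', c} = TT (x a) (x a') (x c) (b a a') (b a c) (b a' c) := by
  unfold tetW TT
  refine if_congr ?_ (if_congr ?_ rfl (if_congr ?_ rfl rfl)) rfl
  · simp only [Finset.mem_insert, Finset.mem_singleton, forall_eq_or_imp, forall_eq, h0,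
      hs a' a, hs c a, hs c a']
    generalize x a = p1, x a' = p2, x c = p3, b a a' = q1, b a c = q2, b a' c = q3
    simp only [← Bool.and_eq_true]
    revert p1 p2 p3 q1 q2 q3
    decide +kernel
  · simp only [ful, Finset.mem_insert, Finset.mem_singleton, forall_eq_or_imp, forall_eq,
      hs a' a, hs c a, hs c a', ne_eq, not_true_eq_false, h, h', h'', h.symm, h'.symm, h''.symm,
      not_false_eq_true, forall_const, IsEmpty.forall_iff]
    generalize x a = p1, x a' = p2, x c = p3, b a a' = q1, b a c = q2, b a' c = q3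
    revert p1 p2 p3 q1 q2 q3
    decide +kernel
  · simp only [act, Finset.mem_insert, Finset.mem_singleton, exists_eq_or_imp, exists_eq_left, h0,
      hs a' a, hs c a, hs c a']
    generalize x a = p1, x a' = p2, x c = p3, b a a' = q1, b a c = q2, b a' c = q3
    revert p1 p2 p3 q1 q2 q3
    decide +kernel

theorem sqW_eq {b : V → V → Bool} (hs : ∀ a a', b a a' = b a' a) (h0 : ∀ a, b a a = false)
    (y : Bool) (x z : V → Bool) {a a' : V} (h : a ≠ a') :
    sqW y x z b {a, a'} = TT y (x a) (x a') (z a) (z a') (b a a') := by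
  unfold sqW TT
  refine if_congr ?_ (if_congr ?_ rfl (if_congr ?_ rfl rfl)) rfl
  · simp only [Finset.mem_insert, Finset.mem_singleton, forall_eq_or_imp, forall_eq, h0,
      hs a' a]
    generalize x a = p1, x a' = p2, z a = p3, z a' = q1, b a a' = q2
    revert y p1 p2 p3 q1 q2
    decide +kernel
  · simp only [ful, Finset.mem_insert, Finset.mem_singleton, forall_eq_or_imp, forall_eq,
      hs a' a, ne_eq, not_true_eq_false, h, h.symm,
      not_false_eq_true, forall_const, IsEmpty.forall_iff]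
    generalize x a = p1, x a' = p2, z a = p3, z a' = q1, b a a' = q2
    revert y p1 p2 p3 q1 q2
    decide +kernel
  · simp only [act, Finset.mem_insert, Finset.mem_singleton, exists_eq_or_imp, exists_eq_left, h0,
      hs a' a]
    generalize x a = p1, x a' = p2, z a = p3, z a' = q1, b a a' = q2
    revert y p1 p2 p3 q1 q2
    decide +kernel

/-- The cone over the surface `S`. -/
def ZL [Fintype V] (G : Cx V) (S : Set V) (b : V → V → Bool) (P : (V → Bool) → Prop) : ℝ :=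
  ∑ x : V → Bool, if (∀ u ∉ S, x u = false) ∧ P x then
    (∏ u : V, if u ∈ S then dd (x u) else 1) *
      (∏ e : Finset V, if e ∈ Edg G S then thW x b e else 1) *
      ∏ t : Finset V, if t ∈ Tri G S then tetW x b t else 1
    else 0

def zE (ζ : Finset V → V → Bool) (D : Set (Finset V)) (e : Finset V) (u : V) : Bool :=
  decide (∃ t ∈ D, e ⊆ t ∧ ζ t u = true)

/-- The constraints on the spokes `x` and on the corner colours `ζ`. -/
def PhiC (S : Set V) (t₀ : Finset V) (w : V) (D R : Set (Finset V)) (I : Set V) (x : V → Bool)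
    (ζ : Finset V → V → Bool) : Prop :=
  (∀ u, u ∉ S ∨ u ∈ I → x u = false) ∧ (∀ t u, t ∉ D ∨ u ∉ t → ζ t u = false) ∧ ζ t₀ w = false ∧
    ∀ e ∈ R, ∀ t ∈ D, ∀ t' ∈ D, e ⊆ t → e ⊆ t' → ∀ u ∈ e, ζ t u = ζ t' u

def PhiW [Fintype V] (G : Cx V) (S : Set V) (b : V → V → Bool) (D R : Set (Finset V)) (I : Set V)
    (y : Bool) (x : V → Bool) (ζ : Finset V → V → Bool) : ℝ :=
  dd y * (∏ u : V, if u ∈ S ∧ u ∉ I then dd (x u) else 1) *
    (∏ e : Finset V, if e ∈ Edg G S ∧ e ∉ R then thW x b e else 1) *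
    (∏ t : Finset V, if t ∈ Tri G S ∧ t ∉ D then tetW x b t else 1) *
    (∏ t : Finset V, if t ∈ D then tetW (ζ t) b t else 1) *
    (∏ t : Finset V, ∏ e : Finset V, if t ∈ D ∧ e ∈ Edg G S ∧ e ⊆ t ∧ e ∉ R then
      thW (ζ t) b e * sqW y x (ζ t) b e else 1) *
    (∏ e : Finset V, if e ∈ R then thW (zE ζ D e) b e else 1) *
    (∏ t : Finset V, ∏ u : V, if t ∈ D ∧ u ∈ t ∧ u ∉ I then kap y (x u) (ζ t u) else 1) *
    (∏ e : Finset V, ∏ u : V, if e ∈ R ∧ u ∈ e ∧ u ∉ I then (kap' y (x u) (zE ζ D e u))⁻¹ else 1) *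
    ∏ u : V, if u ∈ I then dd (zE ζ D {u} u) else 1

/-- Two cone points; `D`, `R`, `I` are the triangles, edges, vertices that belong to the second. -/
def Phi [Fintype V] (G : Cx V) (S : Set V) (b : V → V → Bool) (t₀ : Finset V) (w : V)
    (D R : Set (Finset V)) (I : Set V) : ℝ :=
  ∑ y : Bool, ∑ x : V → Bool, ∑ ζ : Finset V → V → Bool,
    if PhiC S t₀ w D R I x ζ then PhiW G S b D R I y x ζ else 0

/-- The finite set of all points with a property. -/
def g2F {α : Type} [Fintype α] (p : α → Prop) : Finset α := Finset.univ.filter p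

theorem g2_mem {α : Type} [Fintype α] {p : α → Prop} {x : α} : x ∈ g2F p ↔ p x := by
  simp [g2F]

theorem g2_ncard {α : Type} [Fintype α] (p : α → Prop) : {x | p x}.ncard = (g2F p).card := by
  rw [← Set.ncard_coe_finset]
  congr 1
  ext x
  simp [g2F]

theorem g2_dc {α β : Type} [Fintype α] [Fintype β] (p : α → Prop) (q : β → Prop)
    (r : α → β → Prop) : ∑ a ∈ g2F p, (g2F fun b => q b ∧ r a b).card =
      ∑ b ∈ g2F q, (g2F fun a => p a ∧ r a b).card := by
  have h1 := Finset.sum_card_bipartiteAbove_eq_sum_card_bipartiteBelow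
    (s := g2F p) (t := g2F q) (r := r)
  refine Eq.trans (Finset.sum_congr rfl fun a _ => ?_) (h1.trans (Finset.sum_congr rfl
    fun b _ => ?_))
  · refine congrArg Finset.card ?_
    ext b
    simp only [Finset.mem_bipartiteAbove, g2_mem]
  · refine congrArg Finset.card ?_
    ext a
    simp only [Finset.mem_bipartiteBelow, g2_mem]

theorem g2_edg {G : Cx V} {S : Set V} {a c : V} (ha : a ∈ S) (hc : c ∈ S) (hr : G.r a c)
    (hne : a ≠ c) : ({a, c} : Finset V) ∈ Edg G S := by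
  refine ⟨⟨Finset.insert_nonempty _ _, ?_⟩, ?_, Finset.card_pair hne⟩
  · simp only [Finset.mem_insert, Finset.mem_singleton, forall_eq_or_imp, forall_eq]
    exact ⟨⟨G.refl _, hr⟩, G.symm _ _ hr, G.refl _⟩
  · simp only [Ins, Finset.mem_insert, Finset.mem_singleton, forall_eq_or_imp, forall_eq]
    exact ⟨ha, hc⟩

theorem g2_edg_sub {G : Cx V} {S : Set V} {t : Finset V} (ht : t ∈ Tri G S) {a c : V}
    (ha : a ∈ t) (hc : c ∈ t) (hne : a ≠ c) : ({a, c} : Finset V) ∈ Edg G S :=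
  g2_edg (ht.2.1 a ha) (ht.2.1 c hc) (ht.1.2 a ha c hc) hne

theorem g2_pair_sub {t : Finset V} {a c : V} (ha : a ∈ t) (hc : c ∈ t) :
    ({a, c} : Finset V) ⊆ t := by
  intro v hv
  rcases Finset.mem_insert.1 hv with rfl | hv
  · exact ha
  · rw [Finset.mem_singleton.1 hv]
    exact hc

theorem g2_edg_at {G : Cx V} {S : Set V} {e : Finset V} (he : e ∈ Edg G S) {u : V} (hu : u ∈ e) :
    ∃ a, u ≠ a ∧ e = {u, a} := by
  obtain ⟨p, q, hpq, rfl⟩ := Finset.card_eq_two.1 he.2.2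
  rcases Finset.mem_insert.1 hu with rfl | hu
  · exact ⟨q, hpq, rfl⟩
  · rw [Finset.mem_singleton.1 hu]
    exact ⟨p, hpq.symm, Finset.pair_comm _ _⟩

theorem g2_tri_ins {G : Cx V} {S : Set V} {e : Finset V} (he : e ∈ Edg G S) {w : V}
    (hw : w ∈ lk G e ∩ S) : insert w e ∈ Tri G S := by
  refine ⟨⟨Finset.insert_nonempty _ _, ?_⟩, ?_, ?_⟩
  · intro a ha c hc
    rcases Finset.mem_insert.1 ha with h1 | h1 <;> rcases Finset.mem_insert.1 hc with h2 | h2
    · rw [h1, h2]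
      exact G.refl _
    · rw [h1]
      exact hw.1.2 c h2
    · rw [h2]
      exact G.symm _ _ (hw.1.2 a h1)
    · exact he.1.2 a h1 c h2
  · intro a ha
    rcases Finset.mem_insert.1 ha with rfl | ha
    · exact hw.2
    · exact he.2.1 a ha
  · rw [Finset.card_insert_of_notMem hw.1.1, he.2.2]

theorem g2_tri_eq {G : Cx V} {S : Set V} {e s : Finset V} (he : e ∈ Edg G S) (hs : s ∈ Tri G S)
    (hes : e ⊆ s) : ∃ w ∈ lk G e ∩ S, s = insert w e := by
  obtain ⟨w, hw, rfl⟩ := Finset.exists_eq_insert_iff.2 ⟨hes, by rw [he.2.2, hs.2.2]⟩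
  exact ⟨w, ⟨⟨hw, fun a ha => hs.1.2 w (Finset.mem_insert_self _ _) a
    (Finset.mem_insert_of_mem ha)⟩, hs.2.1 w (Finset.mem_insert_self _ _)⟩, rfl⟩

/-- The two triangles on an edge. -/
theorem edge_two [Fintype V] {G : Cx V} {S : Set V} (h : Surf G S) {e : Finset V}
    (he : e ∈ Edg G S) : ∃ t ∈ Tri G S, ∃ t' ∈ Tri G S, t ≠ t' ∧ e ⊆ t ∧ e ⊆ t' ∧
      ∀ s ∈ Tri G S, e ⊆ s → s = t ∨ s = t' := by
  obtain ⟨w, w', hww, hl⟩ := Set.ncard_eq_two.1 (h.edg e he.1 he.2.1 he.2.2)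
  have hw : w ∈ lk G e ∩ S := by rw [hl]; simp
  have hw' : w' ∈ lk G e ∩ S := by rw [hl]; simp
  refine ⟨insert w e, g2_tri_ins he hw, insert w' e, g2_tri_ins he hw', fun hh => ?_,
    Finset.subset_insert _ _, Finset.subset_insert _ _, fun s hs hes => ?_⟩
  · have : w ∈ insert w' e := hh ▸ Finset.mem_insert_self _ _
    rcases Finset.mem_insert.1 this with h1 | h1
    · exact hww h1
    · exact hw.1.1 h1
  · obtain ⟨v, hv, rfl⟩ := g2_tri_eq he hs hes
    rw [hl] at hv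
    rcases hv with rfl | rfl
    · exact Or.inl rfl
    · exact Or.inr rfl

theorem g2_tri_deg [Fintype V] {G : Cx V} {S : Set V} {t : Finset V} (ht : t ∈ Tri G S) {u : V}
    (hu : u ∈ t) : (g2F fun e => (e ∈ Edg G S ∧ u ∈ e) ∧ e ⊆ t).card = 2 := by
  have h1 : (t.erase u).card = 2 := by rw [Finset.card_erase_of_mem hu, ht.2.2]
  rw [← h1]
  symm
  refine Finset.card_bij (fun a _ => ({u, a} : Finset V)) ?_ ?_ ?_
  · intro a ha
    obtain ⟨h2, h3⟩ := Finset.mem_erase.1 ha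
    exact g2_mem.2 ⟨⟨g2_edg_sub ht hu h3 h2.symm, Finset.mem_insert_self _ _⟩, g2_pair_sub hu h3⟩
  · intro a ha c _ hac
    have : a ∈ ({u, c} : Finset V) := hac ▸ by simp
    rcases Finset.mem_insert.1 this with h2 | h2
    · exact absurd h2 (Finset.mem_erase.1 ha).1
    · exact Finset.mem_singleton.1 h2
  · intro e he
    have he := g2_mem.1 he
    obtain ⟨a, h2, rfl⟩ := g2_edg_at he.1.1 he.1.2
    exact ⟨a, Finset.mem_erase.2 ⟨h2.symm, he.2 (by simp)⟩, rfl⟩

theorem g2_count [Fintype V] (G : Cx V) (S : Set V) (u : V) (P : Finset V → Prop) :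
    ∑ e ∈ g2F fun e => e ∈ Edg G S ∧ u ∈ e, (g2F fun t => t ∈ Tri G S ∧ e ⊆ t ∧ P t).card =
      2 * (g2F fun t => t ∈ Tri G S ∧ u ∈ t ∧ P t).card := by
  have h1 := g2_dc (fun e => e ∈ Edg G S ∧ u ∈ e) (fun t => t ∈ Tri G S ∧ u ∈ t ∧ P t)
    (fun e t => e ⊆ t)
  rw [mul_comm, ← smul_eq_mul, ← Finset.sum_const]
  refine Eq.trans (Finset.sum_congr rfl fun e he => ?_) (h1.trans (Finset.sum_congr rfl
    fun t ht => ?_))
  · have he := g2_mem.1 he
    refine congrArg Finset.card ?_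
    ext t
    simp only [g2_mem]
    exact ⟨fun h => ⟨⟨h.1, h.2.1 he.2, h.2.2⟩, h.2.1⟩, fun h => ⟨h.1.1, h.2, h.1.2.2⟩⟩
  · have ht := g2_mem.1 ht
    exact g2_tri_deg ht.1 ht.2.1

theorem g2_even [Fintype V] {G : Cx V} {S : Set V} (h : Surf G S) {e : Finset V}
    (he : e ∈ Edg G S) (g : Finset V → Bool) :
    Even (g2F fun t => t ∈ Tri G S ∧ e ⊆ t ∧ g t = true).card ↔
      ∀ t ∈ Tri G S, ∀ t' ∈ Tri G S, e ⊆ t → e ⊆ t' → g t = g t' := by
  obtain ⟨t, ht, t', ht', hne, h1, h2, h3⟩ := edge_two h he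
  have e1 : (g2F fun t => t ∈ Tri G S ∧ e ⊆ t ∧ g t = true) =
      ({t, t'} : Finset (Finset V)).filter fun s => g s = true := by
    ext s
    simp only [Finset.mem_filter, g2_mem, Finset.mem_insert, Finset.mem_singleton]
    constructor
    · exact fun hs => ⟨h3 s hs.1 hs.2.1, hs.2.2⟩
    · rintro ⟨rfl | rfl, hs⟩
      · exact ⟨ht, h1, hs⟩
      · exact ⟨ht', h2, hs⟩
  have e2 : (∀ t ∈ Tri G S, ∀ t' ∈ Tri G S, e ⊆ t → e ⊆ t' → g t = g t') ↔ g t = g t' := by
    refine ⟨fun hh => hh t ht t' ht' h1 h2, fun hh s hs s' hs' a1 a2 => ?_⟩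
    rcases h3 s hs a1 with b1 | b1 <;> rcases h3 s' hs' a2 with b2 | b2 <;> rw [b1, b2]
    · exact hh
    · exact hh.symm
  rw [e1, e2, Finset.card_filter, Finset.sum_pair hne]
  cases g t <;> cases g t' <;> simp

theorem g2_star_all [Fintype V] {G : Cx V} {S : Set V} (h : Surf G S) {u : V} (hu : u ∈ S)
    (g : Finset V → Bool)
    (hg : ∀ e ∈ Edg G S, u ∈ e → ∀ t ∈ Tri G S, ∀ t' ∈ Tri G S, e ⊆ t → e ⊆ t' → g t = g t') :
    ∀ t ∈ Tri G S, ∀ t' ∈ Tri G S, u ∈ t → u ∈ t' → g t = g t' := by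
  let f : V → Prop := fun w => ∃ s ∈ Tri G S, u ∈ s ∧ w ∈ s ∧ g s = true
  have hf : ∀ s ∈ Tri G S, u ∈ s → ∀ w ∈ s, u ≠ w → (f w ↔ g s = true) := by
    intro s hs hus w hw hne
    refine ⟨fun ⟨s', hs', a1, a2, a3⟩ => ?_, fun hh => ⟨s, hs, hus, hw, hh⟩⟩
    rw [hg {u, w} (g2_edg_sub hs hus hw hne) (Finset.mem_insert_self _ _) s hs s' hs'
      (g2_pair_sub hus hw) (g2_pair_sub a1 a2)]
    exact a3
  have hlk : ∀ w ∈ lk G {u} ∩ S, u ≠ w ∧ G.r w u := fun w hw =>
    ⟨fun hh => hw.1.1 (Finset.mem_singleton.2 hh.symm), hw.1.2 u (Finset.mem_singleton_self _)⟩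
  have hstep : ∀ w ∈ lk G {u} ∩ S, ∀ w' ∈ lk G {u} ∩ S, G.r w w' → f w = f w' := by
    intro w hw w' hw' hr
    by_cases hww : w = w'
    · rw [hww]
    have he := g2_edg hw.2 hw'.2 hr hww
    have hs : insert u ({w, w'} : Finset V) ∈ Tri G S := by
      refine g2_tri_ins he ⟨⟨?_, ?_⟩, hu⟩
      · simp [(hlk w hw).1, (hlk w' hw').1]
      · simp only [Finset.mem_insert, Finset.mem_singleton, forall_eq_or_imp, forall_eq]
        exact ⟨G.symm _ _ (hlk w hw).2, G.symm _ _ (hlk w' hw').2⟩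
    exact propext ((hf _ hs (by simp) w (by simp) (hlk w hw).1).trans
      (hf _ hs (by simp) w' (by simp) (hlk w' hw').1).symm)
  have hex : ∀ s ∈ Tri G S, u ∈ s → ∃ w ∈ s, w ∈ lk G {u} ∩ S := by
    intro s hs hus
    obtain ⟨w, hw, hne⟩ := Finset.exists_mem_ne (s := s) (by rw [hs.2.2]; norm_num) u
    refine ⟨w, hw, ⟨by simpa using hne, fun a ha => ?_⟩, hs.2.1 w hw⟩
    rw [Finset.mem_singleton.1 ha]
    exact hs.1.2 w hw u hus
  intro t ht t' ht' a1 a2
  obtain ⟨w, hw, hw1⟩ := hex t ht a1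
  obtain ⟨w', hw', hw2⟩ := hex t' ht' a2
  have h3 : f w = f w' := rch_const hstep ((h.vtx u hu).2 w hw1 w' hw2)
  have h4 := hf t ht a1 w hw (hlk w hw1).1
  have h5 := hf t' ht' a2 w' hw' (hlk w' hw2).1
  rw [h3] at h4
  exact Bool.eq_iff_iff.2 (h4.symm.trans h5)

theorem star_const [Fintype V] {G : Cx V} {S : Set V} (h : Surf G S) {u : V} (hu : u ∈ S) (a : V)
    (g : Finset V → Bool)
    (hg : ∀ e ∈ Edg G S, u ∈ e → e ≠ {u, a} → ∀ t ∈ Tri G S, ∀ t' ∈ Tri G S, e ⊆ t → e ⊆ t' →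
      g t = g t') : ∀ t ∈ Tri G S, ∀ t' ∈ Tri G S, u ∈ t → u ∈ t' → g t = g t' := by
  refine g2_star_all h hu g fun e he hue => ?_
  by_cases hea : e = {u, a}
  · refine (g2_even h he g).1 ?_
    have h1 := g2_count G S u fun t => g t = true
    have hm : e ∈ g2F fun e => e ∈ Edg G S ∧ u ∈ e := g2_mem.2 ⟨he, hue⟩
    rw [← Finset.add_sum_erase _ _ hm] at h1
    have h2 : Even (∑ e' ∈ (g2F fun e => e ∈ Edg G S ∧ u ∈ e).erase e,
        (g2F fun t => t ∈ Tri G S ∧ e' ⊆ t ∧ g t = true).card) := by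
      refine Finset.even_sum _ fun e' he' => ?_
      obtain ⟨b1, b2⟩ := Finset.mem_erase.1 he'
      obtain ⟨b2, b3⟩ := g2_mem.1 b2
      exact (g2_even h b2 g).2 (hg e' b2 b3 (hea ▸ b1))
    have h3 : Even (2 * (g2F fun t => t ∈ Tri G S ∧ u ∈ t ∧ g t = true).card) :=
      even_two_mul _
    rw [← h1] at h3
    exact (Nat.even_add.1 h3).2 h2
  · exact hg e he hue hea

theorem star_card [Fintype V] {G : Cx V} {S : Set V} (h : Surf G S) {u : V} (hu : u ∈ S) :
    {t | t ∈ Tri G S ∧ u ∈ t}.ncard = {e | e ∈ Edg G S ∧ u ∈ e}.ncard ∧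
      0 < {e | e ∈ Edg G S ∧ u ∈ e}.ncard := by
  rw [g2_ncard, g2_ncard]
  constructor
  · have h1 := g2_count G S u fun _ => True
    simp only [and_true] at h1
    have h2 : ∀ e ∈ g2F fun e => e ∈ Edg G S ∧ u ∈ e,
        (g2F fun t => t ∈ Tri G S ∧ e ⊆ t).card = 2 := by
      intro e he
      obtain ⟨t, ht, t', ht', hne, a1, a2, a3⟩ := edge_two h (g2_mem.1 he).1
      refine Finset.card_eq_two.2 ⟨t, t', hne, ?_⟩
      ext s
      simp only [g2_mem, Finset.mem_insert, Finset.mem_singleton]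
      constructor
      · exact fun hs => a3 s hs.1 hs.2
      · rintro (rfl | rfl)
        · exact ⟨ht, a1⟩
        · exact ⟨ht', a2⟩
    rw [Finset.sum_congr rfl h2, Finset.sum_const, smul_eq_mul] at h1
    omega
  · obtain ⟨w, hw⟩ := (h.vtx u hu).1
    refine Finset.card_pos.2 ⟨{u, w}, g2_mem.2 ⟨?_, Finset.mem_insert_self _ _⟩⟩
    exact g2_edg hu hw.2 (G.symm _ _ (hw.1.2 u (Finset.mem_singleton_self _)))
      fun hh => hw.1.1 (Finset.mem_singleton.2 hh.symm)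

theorem g2_chi [Fintype V] {G : Cx V} {S : Set V} (h : Surf G S) :
    chi G S = S.ncard - (Edg G S).ncard + (Tri G S).ncard := by
  have h1 : S.ncard = (g2F fun s : Finset V => Clq G s ∧ Ins s S ∧ s.card = 1).card := by
    rw [← g2_ncard, ← Set.ncard_image_of_injective S
      (f := fun v => ({v} : Finset V)) Finset.singleton_injective]
    congr 1
    ext s
    constructor
    · rintro ⟨v, hv, rfl⟩
      refine ⟨⟨Finset.singleton_nonempty _, ?_⟩, ?_, Finset.card_singleton _⟩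
      · simp [G.refl]
      · simpa [Ins] using hv
    · rintro ⟨-, h2, h3⟩
      obtain ⟨v, rfl⟩ := Finset.card_eq_one.1 h3
      exact ⟨v, h2 v (Finset.mem_singleton_self _), rfl⟩
  rw [h1, Edg, Tri, g2_ncard, g2_ncard, chi]
  simp only [g2F, Finset.card_filter]
  push_cast
  rw [← Finset.sum_sub_distrib, ← Finset.sum_add_distrib]
  refine Finset.sum_congr rfl fun s _ => ?_
  by_cases hs : Clq G s ∧ Ins s S
  · have h3 := h.dim s hs.1 hs.2
    have h4 := Finset.card_pos.2 hs.1.1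
    have h5 : s.card = 1 ∨ s.card = 2 ∨ s.card = 3 := by omega
    rcases h5 with h5 | h5 | h5 <;> norm_num [hs.1, hs.2, h5]
  · rw [if_neg hs, if_neg fun hh => hs ⟨hh.1, hh.2.1⟩, if_neg fun hh => hs ⟨hh.1, hh.2.1⟩,
      if_neg fun hh => hs ⟨hh.1, hh.2.1⟩]
    norm_num

/-- The set `W` is connected through the edges outside `R`. -/
def g2C (G : Cx V) (S : Set V) (R : Set (Finset V)) (W : Set V) : Prop :=
  ∀ f : V → Prop, (∀ a c, ({a, c} : Finset V) ∈ Edg G S → ({a, c} : Finset V) ∉ R → f a = f c) →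
    ∀ a ∈ W, ∀ c ∈ W, f a = f c

theorem g2_start {G : Cx V} {S : Set V} (hc : Conn G S) : g2C G S ∅ S := by
  intro f hf a ha c hc'
  refine rch_const (fun p hp q hq hr => ?_) (hc a ha c hc')
  by_cases hpq : p = q
  · rw [hpq]
  · exact hf p q (g2_edg hp hq hr hpq) (Set.notMem_empty _)

theorem g2_grow_ex [Fintype V] {G : Cx V} {S : Set V} (h : Surf G S) (hc : Conn G S)
    {D : Set (Finset V)} (hD : D ⊆ Tri G S) {t₀ : Finset V} (h0 : t₀ ∈ D) {t₁ : Finset V}
    (h1 : t₁ ∈ Tri G S) (h1' : t₁ ∉ D) :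
    ∃ t ∈ Tri G S, t ∉ D ∧ ∃ t' ∈ D, ∃ e ∈ Edg G S, e ⊆ t ∧ e ⊆ t' := by
  by_contra hn
  have hg : ∀ u ∈ S, ∀ t ∈ Tri G S, ∀ t' ∈ D, u ∈ t → u ∈ t' → t ∈ D := by
    intro u hu t ht t' ht' a1 a2
    have := g2_star_all h hu (fun s => decide (s ∈ D)) (fun e he _ s hs s' hs' b1 b2 => by
      refine decide_eq_decide.2 ⟨fun b3 => ?_, fun b3 => ?_⟩
      · by_contra b4
        exact hn ⟨s', hs', b4, s, b3, e, he, b2, b1⟩
      · by_contra b4
        exact hn ⟨s, hs, b4, s', b3, e, he, b1, b2⟩) t ht t' (hD ht') a1 a2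
    exact (decide_eq_decide.1 this).2 ht'
  have hf := g2_start hc (fun u => ∃ s ∈ D, u ∈ s) fun a c he _ => by
    obtain ⟨s, hs, -, -, -, b1, -⟩ := edge_two h he
    have ha : a ∈ s := b1 (by simp)
    have hc' : c ∈ s := b1 (by simp)
    refine propext ⟨fun ⟨s', b2, b3⟩ => ?_, fun ⟨s', b2, b3⟩ => ?_⟩
    · exact ⟨s, hg a (hs.2.1 a ha) s hs s' b2 ha b3, hc'⟩
    · exact ⟨s, hg c (hs.2.1 c hc') s hs s' b2 hc' b3, ha⟩
  obtain ⟨u, hu⟩ := (hD h0).1.1
  obtain ⟨v, hv⟩ := h1.1.1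
  have h2 := hf u ((hD h0).2.1 u hu) v (h1.2.1 v hv)
  obtain ⟨s, b1, b2⟩ : ∃ s ∈ D, v ∈ s := h2.mp ⟨t₀, h0, hu⟩
  exact h1' (hg v (h1.2.1 v hv) t₁ h1 s b1 hv b2)

theorem g2_grow_conn {G : Cx V} {S : Set V} {R : Set (Finset V)} (hC : g2C G S R S)
    {t e : Finset V} (ht : t ∈ Tri G S) (he : e ∈ Edg G S) (het : e ⊆ t)
    (hR : ∀ e' ∈ R, ¬ e' ⊆ t) : g2C G S (insert e R) S := by
  intro f hf
  refine hC f fun a c hac hn => ?_
  by_cases hh : ({a, c} : Finset V) = e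
  · obtain ⟨w, hw, hs⟩ := g2_tri_eq he ht het
    have hwt : w ∈ t := hs ▸ Finset.mem_insert_self _ _
    have key : ∀ p ∈ e, f p = f w := by
      intro p hp
      have hpw : p ≠ w := fun b => hw.1.1 (b ▸ hp)
      refine hf p w (g2_edg_sub ht (het hp) hwt hpw) fun b => ?_
      rcases Set.mem_insert_iff.1 b with b | b
      · exact hw.1.1 (b ▸ by simp)
      · exact hR _ b (g2_pair_sub (het hp) hwt)
    rw [key a (hh ▸ by simp), key c (hh ▸ by simp)]
  · exact hf a c hac fun b => (Set.mem_insert_iff.1 b).elim hh hn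

theorem g2_phase1 [Fintype V] {G : Cx V} {S : Set V} (h : Surf G S) (hc : Conn G S)
    {t₀ : Finset V} (Q : Set (Finset V) → Set (Finset V) → Prop)
    (hgrow : ∀ D R t t' e, D ⊆ Tri G S → R ⊆ Edg G S → t₀ ∈ D →
      (∀ e' ∈ R, ∀ s ∈ Tri G S, e' ⊆ s → s ∈ D) → t ∈ Tri G S → t ∉ D → t' ∈ D → e ∈ Edg G S →
      e ⊆ t → e ⊆ t' → Q D R → Q (insert t D) (insert e R)) (n : ℕ) :
    ∀ D R, (Tri G S \ D).ncard = n → D ⊆ Tri G S → R ⊆ Edg G S → t₀ ∈ D →
      (∀ e' ∈ R, ∀ s ∈ Tri G S, e' ⊆ s → s ∈ D) → R.ncard + 1 = D.ncard → g2C G S R S → Q D R →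
      ∃ R ⊆ Edg G S, R.ncard + 1 = (Tri G S).ncard ∧ g2C G S R S ∧ Q (Tri G S) R := by
  induction n with
  | zero =>
    intro D R hn hD hR _ _ h5 h6 h7
    have h8 : D = Tri G S :=
      hD.antisymm (Set.sdiff_eq_empty.1 ((Set.ncard_eq_zero (Set.toFinite _)).1 hn))
    rw [h8] at h5 h7
    exact ⟨R, hR, h5, h6, h7⟩
  | succ n ih =>
    intro D R hn hD hR h3 h4 h5 h6 h7
    obtain ⟨t₁, b1, b2⟩ : (Tri G S \ D).Nonempty := Set.nonempty_of_ncard_ne_zero (by omega)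
    obtain ⟨t, ht, htD, t', ht', e, he, a1, a2⟩ := g2_grow_ex h hc hD h3 b1 b2
    have hR' : ∀ e' ∈ R, ¬ e' ⊆ t := fun e' he' b => htD (h4 e' he' t ht b)
    refine ih (insert t D) (insert e R) ?_ (Set.insert_subset ht hD) (Set.insert_subset he hR)
      (Set.mem_insert_of_mem _ h3) ?_ ?_ (g2_grow_conn h6 ht he a1 hR')
      (hgrow D R t t' e hD hR h3 h4 ht htD ht' he a1 a2 h7)
    · have : Tri G S \ insert t D = (Tri G S \ D) \ {t} := by
        ext s
        simp only [Set.mem_sdiff, Set.mem_insert_iff, Set.mem_singleton_iff]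
        tauto
      rw [this, Set.ncard_sdiff_singleton_of_mem (show t ∈ Tri G S \ D from ⟨ht, htD⟩), hn]
      rfl
    · intro e' he' s hs b
      rcases Set.mem_insert_iff.1 he' with rfl | he'
      · obtain ⟨p, -, q, -, -, -, -, c⟩ := edge_two h he
        have hne : t ≠ t' := fun d => htD (d ▸ ht')
        have : s = t ∨ s = t' := by
          rcases c s hs b with c1 | c1 <;> rcases c t ht a1 with c2 | c2 <;>
            rcases c t' (hD ht') a2 with c3 | c3 <;>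
            first
            | exact Or.inl (c1.trans c2.symm)
            | exact Or.inr (c1.trans c3.symm)
            | exact absurd (c2.trans c3.symm) hne
        rcases this with c1 | c1 <;> rw [c1]
        · exact Set.mem_insert _ _
        · exact Set.mem_insert_of_mem _ ht'
      · exact Set.mem_insert_of_mem _ (h4 e' he' s hs b)
    · rw [Set.ncard_insert_of_notMem (fun b => hR' e b a1), Set.ncard_insert_of_notMem htD, h5]

theorem g2_leaf [Fintype V] {G : Cx V} {S : Set V} {R : Set (Finset V)} {W : Set V}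
    (h1 : ∀ e ∈ Edg G S, e ∉ R → ∀ v ∈ e, v ∈ W) (h2 : g2C G S R W)
    (h3 : (Edg G S \ R).ncard + 1 = W.ncard) (h4 : (Edg G S \ R).ncard ≠ 0) :
    ∃ u a, ({u, a} : Finset V) ∈ Edg G S ∧ ({u, a} : Finset V) ∉ R ∧
      ∀ e ∈ Edg G S, u ∈ e → e ≠ {u, a} → e ∈ R := by
  have hd := g2_dc (fun u => u ∈ W) (fun e => e ∈ Edg G S \ R) fun u e => u ∈ e
  have h5 : ∀ e ∈ g2F fun e => e ∈ Edg G S \ R, (g2F fun u => u ∈ W ∧ u ∈ e).card = 2 := by
    intro e he
    have he := g2_mem.1 he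
    rw [← he.1.2.2]
    refine congrArg Finset.card ?_
    ext u
    rw [g2_mem]
    exact ⟨fun b => b.2, fun b => ⟨h1 e he.1 he.2 u b, b⟩⟩
  rw [Finset.sum_congr rfl h5, Finset.sum_const, smul_eq_mul, ← g2_ncard,
    Set.ofPred_mem_eq] at hd
  have h6 : ∃ u ∈ W, (g2F fun e => e ∈ Edg G S \ R ∧ u ∈ e).card ≤ 1 := by
    by_contra hn
    have h7 := Finset.card_nsmul_le_sum (g2F fun u => u ∈ W)
      (fun u => (g2F fun e => e ∈ Edg G S \ R ∧ u ∈ e).card) 2 fun u hu => by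
        by_contra b
        exact hn ⟨u, g2_mem.1 hu, by omega⟩
    rw [hd, ← g2_ncard, Set.ofPred_mem_eq, smul_eq_mul] at h7
    omega
  obtain ⟨u, hu, h7⟩ := h6
  have h8 : ∃ e ∈ Edg G S \ R, u ∈ e := by
    by_contra hn
    obtain ⟨v, hv, hvu⟩ := Set.exists_ne_of_one_lt_ncard (s := W) (by omega) u
    have := h2 (fun x => x = u) (fun a c b1 b2 => propext
      ⟨fun b => absurd ⟨_, ⟨b1, b2⟩, by simp [b]⟩ hn, fun b => absurd ⟨_, ⟨b1, b2⟩, by simp [b]⟩ hn⟩)
      u hu v hv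
    exact hvu (this.mp rfl)
  obtain ⟨e, he, hue⟩ := h8
  obtain ⟨a, -, rfl⟩ := g2_edg_at he.1 hue
  refine ⟨u, a, he.1, he.2, fun e' b1 b2 b3 => ?_⟩
  by_contra b4
  exact b3 (Finset.card_le_one.1 h7 _ (g2_mem.2 ⟨⟨b1, b4⟩, b2⟩) _ (g2_mem.2 ⟨he, hue⟩))

theorem g2_phase2 [Fintype V] {G : Cx V} {S : Set V} (Q : Set (Finset V) → Set V → Prop)
    (hzip : ∀ R I u a, R ⊆ Edg G S → I ⊆ S → (∀ e ∈ Edg G S, e ∉ R → ∀ v ∈ e, v ∉ I) →
      {u, a} ∈ Edg G S → {u, a} ∉ R → (∀ e ∈ Edg G S, u ∈ e → e ≠ {u, a} → e ∈ R) →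
      Q R I → Q (insert {u, a} R) (insert u I)) (n : ℕ) :
    ∀ R I, (Edg G S \ R).ncard = n → R ⊆ Edg G S → I ⊆ S →
      (∀ e ∈ Edg G S, e ∉ R → ∀ v ∈ e, v ∉ I) → g2C G S R (S \ I) →
      (Edg G S \ R).ncard + 1 = (S \ I).ncard → Q R I → ∃ w₀ ∈ S, Q (Edg G S) (S \ {w₀}) := by
  induction n with
  | zero =>
    intro R I hn hR hI _ _ h5 h6
    have h8 : R = Edg G S :=
      hR.antisymm (Set.sdiff_eq_empty.1 ((Set.ncard_eq_zero (Set.toFinite _)).1 hn))
    rw [hn] at h5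
    obtain ⟨w, hw⟩ := Set.ncard_eq_one.1 h5.symm
    have h9 : w ∈ S \ I := hw ▸ Set.mem_singleton w
    refine ⟨w, h9.1, ?_⟩
    rw [← hw, Set.sdiff_sdiff_cancel_left hI, ← h8]
    exact h6
  | succ n ih =>
    intro R I hn hR hI h3 h4 h5 h6
    obtain ⟨u, a, b1, b2, b3⟩ := g2_leaf (W := S \ I)
      (fun e he hr v hv => ⟨he.2.1 v hv, h3 e he hr v hv⟩) h4 h5 (by omega)
    have hu : u ∈ S \ I := ⟨b1.2.1 u (by simp), h3 _ b1 b2 u (by simp)⟩
    have hau : a ≠ u := by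
      rintro rfl
      have := b1.2.2
      simp at this
    have e1 : (Edg G S \ insert {u, a} R).ncard = n := by
      have : Edg G S \ insert {u, a} R = (Edg G S \ R) \ {{u, a}} := by
        ext s
        simp only [Set.mem_sdiff, Set.mem_insert_iff, Set.mem_singleton_iff]
        tauto
      rw [this, Set.ncard_sdiff_singleton_of_mem
        (show ({u, a} : Finset V) ∈ Edg G S \ R from ⟨b1, b2⟩), hn]
      rfl
    have hout : ∀ e ∈ Edg G S, e ∉ insert {u, a} R → u ∉ e := fun e he hr hue =>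
      hr (Set.mem_insert_of_mem _ (b3 e he hue fun b => hr (b ▸ Set.mem_insert _ _)))
    refine ih (insert {u, a} R) (insert u I) e1 (Set.insert_subset b1 hR)
      (Set.insert_subset hu.1 hI) ?_ ?_ ?_ (hzip R I u a hR hI h3 b1 b2 b3 h6)
    · intro e he hr v hv b
      rcases Set.mem_insert_iff.1 b with b | b
      · exact hout e he hr (b ▸ hv)
      · exact h3 e he (fun c => hr (Set.mem_insert_of_mem _ c)) v hv b
    · intro f hf p hp q hq
      have key := h4 (fun x => if x = u then f a else f x) (fun x y c1 c2 => ?_) p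
        ⟨hp.1, fun c => hp.2 (Set.mem_insert_of_mem _ c)⟩ q
        ⟨hq.1, fun c => hq.2 (Set.mem_insert_of_mem _ c)⟩
      · have c1 : p ≠ u := fun c => hp.2 (c ▸ Set.mem_insert _ _)
        have c2 : q ≠ u := fun c => hq.2 (c ▸ Set.mem_insert _ _)
        simpa only [if_neg c1, if_neg c2] using key
      · by_cases c3 : ({x, y} : Finset V) = {u, a}
        · have c4 : ∀ z ∈ ({u, a} : Finset V), (if z = u then f a else f z) = f a := by
            intro z hz
            rcases Finset.mem_insert.1 hz with hz | hz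
            · rw [if_pos hz]
            · rw [Finset.mem_singleton.1 hz, if_neg hau]
          exact (c4 x (c3 ▸ by simp)).trans (c4 y (c3 ▸ by simp)).symm
        · have c4 : ({x, y} : Finset V) ∉ insert {u, a} R := fun c =>
            (Set.mem_insert_iff.1 c).elim c3 c2
          have c5 := hout _ c1 c4
          have c6 : x ≠ u := fun c => c5 (by simp [c])
          have c7 : y ≠ u := fun c => c5 (by simp [c])
          simp only [if_neg c6, if_neg c7]
          exact hf x y c1 c4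
    · have : S \ insert u I = (S \ I) \ {u} := by
        ext s
        simp only [Set.mem_sdiff, Set.mem_insert_iff, Set.mem_singleton_iff]
        tauto
      rw [e1, this, Set.ncard_sdiff_singleton_of_mem hu, ← h5, hn]
      rfl

theorem collapse [Fintype V] {G : Cx V} {S : Set V} (h : Surf G S) (hc : Conn G S)
    (h2 : chi G S = 2) {t₀ : Finset V} (ht : t₀ ∈ Tri G S)
    (Q : Set (Finset V) → Set (Finset V) → Set V → Prop) (h0 : Q {t₀} ∅ ∅)
    (hgrow : ∀ D R t t' e, D ⊆ Tri G S → R ⊆ Edg G S → t₀ ∈ D →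
      (∀ e' ∈ R, ∀ s ∈ Tri G S, e' ⊆ s → s ∈ D) → t ∈ Tri G S → t ∉ D → t' ∈ D → e ∈ Edg G S →
      e ⊆ t → e ⊆ t' → Q D R ∅ → Q (insert t D) (insert e R) ∅)
    (hzip : ∀ R I u a, R ⊆ Edg G S → I ⊆ S → (∀ e ∈ Edg G S, e ∉ R → ∀ v ∈ e, v ∉ I) →
      {u, a} ∈ Edg G S → {u, a} ∉ R → (∀ e ∈ Edg G S, u ∈ e → e ≠ {u, a} → e ∈ R) →
      Q (Tri G S) R I → Q (Tri G S) (insert {u, a} R) (insert u I)) :
    ∃ w₀ ∈ S, Q (Tri G S) (Edg G S) (S \ {w₀}) := by
  obtain ⟨R, hR, a1, a2, a3⟩ := g2_phase1 h hc (t₀ := t₀) (fun D R => Q D R ∅) hgrow _ {t₀} ∅ rfl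
    (Set.singleton_subset_iff.2 ht) (Set.empty_subset _) rfl (fun _ b => b.elim) (by simp)
    (g2_start hc) h0
  refine g2_phase2 (Q (Tri G S)) hzip _ R ∅ rfl hR (Set.empty_subset _)
    (fun _ _ _ _ _ b => b.elim) (by rwa [Set.sdiff_empty]) ?_ a3
  have a4 := g2_chi h
  have a5 := Set.ncard_sdiff_add_ncard_of_subset hR
  rw [Set.sdiff_empty]
  omega

end KG
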