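import Pool.Agent.Work.MP_c146e2_gt.KG.G2

set_option autoImplicit false

noncomputable section

open scoped Classical

namespace KG

variable {V V' : Type}

theorem g3_one {α : Type} [Fintype α] (F F' : α → ℝ) (x0 : α) (k : ℝ)
    (h : ∀ x, x ≠ x0 → F' x = F x) (h0 : F' x0 = k * F x0) : ∏ x, F' x = k * ∏ x, F x := by
  rw [← Finset.mul_prod_erase Finset.univ F' (Finset.mem_univ x0),
    ← Finset.mul_prod_erase Finset.univ F (Finset.mem_univ x0), h0, mul_assoc,
    Finset.prod_congr rfl fun x hx => h x (Finset.ne_of_mem_erase hx)]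

theorem g3_fin {α : Type} [Fintype α] (s : Finset α) (F f : α → ℝ) (h : ∀ u ∈ s, F u = f u)
    (h' : ∀ u, u ∉ s → F u = 1) : ∏ u, F u = ∏ u ∈ s, f u := by
  rw [← Finset.prod_subset (Finset.subset_univ s) fun u _ hu => h' u hu]
  exact Finset.prod_congr rfl h

theorem g3_abs (y x x' z z' b : Bool) :
    TT y x x' z z' b * (kap y x z * (kap' y x z)⁻¹) = TT y x x' z z' b := by
  have hk : kap' y x z ≠ 0 := (mul_pos (dd_pos _) (th_pos _ _ _)).ne'
  by_cases h : adm y x z = true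
  · have : kap y x z = kap' y x z := by rw [kap, if_pos h, kap']
    rw [this, mul_inv_cancel₀ hk, mul_one]
  · have : TT y x x' z z' b = 0 := by
      rw [TT, if_neg]
      simp only [Bool.and_eq_true]
      exact fun hh => h hh.1.1.1
    rw [this, zero_mul]

theorem g3_id (y xa xb xc za zb ab ac bc : Bool) :
    th xa xb ab * TT xa xb xc ab ac bc * (th za zb ab * TT y xa xb za zb ab) =
      ∑ zc : Bool, TT za zb zc ab ac bc *
        (th za zc ac * TT y xa xc za zc ac * (th zb zc bc * TT y xb xc zb zc bc)) * th za zb ab *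
        (kap y xa za * (kap y xb zb * kap y xc zc)) * ((kap' y xa za)⁻¹ * (kap' y xb zb)⁻¹) := by
  have h1 : th xa xb ab * TT xa xb xc ab ac bc * (th za zb ab * TT y xa xb za zb ab) =
      th za zb ab * (th xa xb ab * TT xa xb xc ab ac bc * TT y xa xb za zb ab) := by ring
  rw [h1, id23, Finset.mul_sum]
  refine Finset.sum_congr rfl fun zc _ => ?_
  have e1 := g3_abs y xa xc za zc ac
  have e2 := g3_abs y xb xc zb zc bc
  generalize TT y xa xc za zc ac = A at e1 ⊢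
  generalize TT y xb xc zb zc bc = B at e2 ⊢
  calc _ = th za zb ab * (kap y xc zc * (th za zc ac * th zb zc bc) * TT za zb zc ab ac bc *
        (A * (kap y xa za * (kap' y xa za)⁻¹) * (B * (kap y xb zb * (kap' y xb zb)⁻¹)))) := by
        rw [e1, e2]
    _ = _ := by ring

theorem g3_edg {G : Cx V} {S : Set V} {t e : Finset V} (ht : t ∈ Tri G S) (het : e ⊆ t)
    (hc : e.card = 2) : e ∈ Edg G S :=
  ⟨⟨Finset.card_pos.1 (by omega), fun a ha b hb => ht.1.2 a (het ha) b (het hb)⟩,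
    fun a ha => ht.2.1 a (het ha), hc⟩

theorem g3_sub {a a' c : V} {e : Finset V} (hc : e.card = 2) (he : e ⊆ {a, a', c})
    (hne : e ≠ {a, a'}) (h1 : e ≠ {a, c}) : e = {a', c} := by
  obtain ⟨p, q, hpq, rfl⟩ := Finset.card_eq_two.1 hc
  have hp := he (Finset.mem_insert_self p {q})
  have hq := he (Finset.mem_insert_of_mem (Finset.mem_singleton_self q))
  simp only [Finset.mem_insert, Finset.mem_singleton] at hp hq
  rcases hp with rfl | rfl | rfl <;> rcases hq with rfl | rfl | rfl <;>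
    first
    | exact absurd rfl hpq
    | exact absurd rfl hne
    | exact absurd rfl h1
    | exact absurd (Finset.pair_comm _ _) hne
    | exact absurd (Finset.pair_comm _ _) h1
    | rfl
    | exact Finset.pair_comm _ _

/-- The factors that the step does not change. -/
def g3C [Fintype V] (G : Cx V) (S : Set V) (b : V → V → Bool) (D D' R R' : Set (Finset V))
    (I : Set V) (y : Bool) (x : V → Bool) (ζ : Finset V → V → Bool) : ℝ :=
  dd y * (∏ u : V, if u ∈ S ∧ u ∉ I then dd (x u) else 1) *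
    (∏ e : Finset V, if e ∈ Edg G S ∧ e ∉ R' then thW x b e else 1) *
    (∏ t : Finset V, if t ∈ Tri G S ∧ t ∉ D' then tetW x b t else 1) *
    (∏ t : Finset V, if t ∈ D then tetW (ζ t) b t else 1) *
    (∏ t : Finset V, ∏ e : Finset V, if t ∈ D ∧ e ∈ Edg G S ∧ e ⊆ t ∧ e ∉ R' then
      thW (ζ t) b e * sqW y x (ζ t) b e else 1) *
    (∏ e : Finset V, if e ∈ R then thW (zE ζ D e) b e else 1) *
    (∏ t : Finset V, ∏ u : V, if t ∈ D ∧ u ∈ t ∧ u ∉ I then kap y (x u) (ζ t u) else 1) *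
    (∏ e : Finset V, ∏ u : V, if e ∈ R ∧ u ∈ e ∧ u ∉ I then (kap' y (x u) (zE ζ D e u))⁻¹ else 1)

theorem g3_old [Fintype V] {G : Cx V} {S : Set V} {b : V → V → Bool}
    {D D' R R' : Set (Finset V)} {I : Set V} {t t' e : Finset V} (hI : ∀ u, u ∉ I)
    (hD' : ∀ s, s ∈ D' ↔ s = t ∨ s ∈ D) (hR' : ∀ s, s ∈ R' ↔ s = e ∨ s ∈ R)
    (ht : t ∈ Tri G S) (htD : t ∉ D) (ht' : t' ∈ D) (he : e ∈ Edg G S) (heR : e ∉ R)
    (het' : e ⊆ t') (htwo : ∀ s ∈ D, e ⊆ s → s = t') (y : Bool) (x : V → Bool)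
    (ζ : Finset V → V → Bool) :
    PhiW G S b D R I y x ζ = thW x b e * tetW x b t * (thW (ζ t') b e * sqW y x (ζ t') b e) *
      g3C G S b D D' R R' I y x ζ := by
  have f3 : (∏ e : Finset V, if e ∈ Edg G S ∧ e ∉ R then thW x b e else 1) =
      thW x b e * ∏ e : Finset V, if e ∈ Edg G S ∧ e ∉ R' then thW x b e else 1 := by
    refine g3_one _ _ e _ (fun s hs => ?_) ?_
    · exact if_congr (by rw [hR']; simp [hs]) rfl rfl
    · rw [if_pos ⟨he, heR⟩, if_neg (fun hh => hh.2 ((hR' e).2 (Or.inl rfl))), mul_one]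
  have f4 : (∏ t : Finset V, if t ∈ Tri G S ∧ t ∉ D then tetW x b t else 1) =
      tetW x b t * ∏ t : Finset V, if t ∈ Tri G S ∧ t ∉ D' then tetW x b t else 1 := by
    refine g3_one _ _ t _ (fun s hs => ?_) ?_
    · exact if_congr (by rw [hD']; simp [hs]) rfl rfl
    · rw [if_pos ⟨ht, htD⟩, if_neg (fun hh => hh.2 ((hD' t).2 (Or.inl rfl))), mul_one]
  have f6 : (∏ t : Finset V, ∏ e : Finset V, if t ∈ D ∧ e ∈ Edg G S ∧ e ⊆ t ∧ e ∉ R then
      thW (ζ t) b e * sqW y x (ζ t) b e else 1) = (thW (ζ t') b e * sqW y x (ζ t') b e) *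
      ∏ t : Finset V, ∏ e : Finset V, if t ∈ D ∧ e ∈ Edg G S ∧ e ⊆ t ∧ e ∉ R' then
        thW (ζ t) b e * sqW y x (ζ t) b e else 1 := by
    refine g3_one _ _ t' _ (fun s hs => ?_) ?_
    · refine Finset.prod_congr rfl fun e' _ => if_congr ?_ rfl rfl
      refine and_congr_right fun h1 => and_congr_right fun _ => and_congr_right fun h3 => ?_
      have : e' ≠ e := fun hh => hs (htwo s h1 (hh ▸ h3))
      rw [hR']; simp [this]
    · refine g3_one _ _ e _ (fun s hs => ?_) ?_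
      · exact if_congr (by rw [hR']; simp [hs]) rfl rfl
      · rw [if_pos ⟨ht', he, het', heR⟩, if_neg (fun hh => hh.2.2.2 ((hR' e).2 (Or.inl rfl))),
          mul_one]
  have f10 : (∏ u : V, if u ∈ I then dd (zE ζ D {u} u) else 1) = 1 :=
    Finset.prod_eq_one fun u _ => if_neg (hI u)
  unfold PhiW g3C
  rw [f3, f4, f6, f10]
  ring

theorem g3_new [Fintype V] {G : Cx V} {S : Set V} {b : V → V → Bool}
    {D D' R R' : Set (Finset V)} {I : Set V} {t t' e e₁ e₂ : Finset V} (hI : ∀ u, u ∉ I)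
    (hD' : ∀ s, s ∈ D' ↔ s = t ∨ s ∈ D) (hR' : ∀ s, s ∈ R' ↔ s = e ∨ s ∈ R)
    (htD : t ∉ D) (ht' : t' ∈ D) (hRt : ∀ s ∈ R, ¬ s ⊆ t) (het : e ⊆ t)
    (het' : e ⊆ t') (htwo : ∀ s ∈ D, e ⊆ s → s = t') (h12 : e₁ ≠ e₂)
    (hed : ∀ s, s ∈ Edg G S ∧ s ⊆ t ∧ s ≠ e ↔ s = e₁ ∨ s = e₂) (y : Bool) (x : V → Bool)
    {ζ ζ' : Finset V → V → Bool} (hζ : ∀ s, s ≠ t → ζ' s = ζ s) (hζt : ∀ u ∈ e, ζ' t u = ζ t' u) :
    PhiW G S b D' R' I y x ζ' = tetW (ζ' t) b t *
      (thW (ζ' t) b e₁ * sqW y x (ζ' t) b e₁ * (thW (ζ' t) b e₂ * sqW y x (ζ' t) b e₂)) *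
      thW (ζ t') b e * (∏ u ∈ t, kap y (x u) (ζ' t u)) * (∏ u ∈ e, (kap' y (x u) (ζ t' u))⁻¹) *
      g3C G S b D D' R R' I y x ζ := by
  have heR : e ∉ R := fun hh => hRt e hh het
  have htD' : t ∈ D' := (hD' t).2 (Or.inl rfl)
  have heR' : e ∈ R' := (hR' e).2 (Or.inl rfl)
  have hz : ∀ s ∈ R, zE ζ' D' s = zE ζ D s := by
    intro s hs
    funext u
    unfold zE
    refine decide_eq_decide.2 ⟨?_, ?_⟩
    · rintro ⟨r, hr, h1, h2⟩
      have hrt : r ≠ t := fun hh => hRt s hs (hh ▸ h1)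
      exact ⟨r, ((hD' r).1 hr).resolve_left hrt, h1, by rw [← hζ r hrt]; exact h2⟩
    · rintro ⟨r, hr, h1, h2⟩
      have hrt : r ≠ t := fun hh => htD (hh ▸ hr)
      exact ⟨r, (hD' r).2 (Or.inr hr), h1, by rw [hζ r hrt]; exact h2⟩
  have hze : ∀ u ∈ e, zE ζ' D' e u = ζ t' u := by
    intro u hu
    have htt : t' ≠ t := fun hh => htD (hh ▸ ht')
    unfold zE
    rw [Bool.eq_iff_iff]
    refine (@decide_eq_true_iff _ (Classical.propDecidable _)).trans ?_
    constructor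
    · rintro ⟨r, hr, h1, h2⟩
      rcases (hD' r).1 hr with rfl | hr
      · rw [← hζt u hu]; exact h2
      · obtain rfl := htwo r hr h1
        rw [← hζ r htt]; exact h2
    · intro h2
      exact ⟨t, htD', het, by rw [hζt u hu]; exact h2⟩
  have f5 : (∏ t : Finset V, if t ∈ D' then tetW (ζ' t) b t else 1) =
      tetW (ζ' t) b t * ∏ t : Finset V, if t ∈ D then tetW (ζ t) b t else 1 := by
    refine g3_one _ _ t _ (fun s hs => ?_) ?_
    · exact if_congr (by rw [hD']; simp [hs]) (by rw [hζ s hs]) rfl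
    · rw [if_pos htD', if_neg htD, mul_one]
  have f6 : (∏ t : Finset V, ∏ e : Finset V, if t ∈ D' ∧ e ∈ Edg G S ∧ e ⊆ t ∧ e ∉ R' then
      thW (ζ' t) b e * sqW y x (ζ' t) b e else 1) =
      (thW (ζ' t) b e₁ * sqW y x (ζ' t) b e₁ * (thW (ζ' t) b e₂ * sqW y x (ζ' t) b e₂)) *
      ∏ t : Finset V, ∏ e : Finset V, if t ∈ D ∧ e ∈ Edg G S ∧ e ⊆ t ∧ e ∉ R' then
        thW (ζ t) b e * sqW y x (ζ t) b e else 1 := by
    refine g3_one _ _ t _ (fun s hs => ?_) ?_
    · refine Finset.prod_congr rfl fun e' _ => if_congr ?_ (by rw [hζ s hs]) rfl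
      rw [hD']; simp [hs]
    · have hc : ∀ s, t ∈ D' ∧ s ∈ Edg G S ∧ s ⊆ t ∧ s ∉ R' ↔ s = e₁ ∨ s = e₂ := by
        intro s
        rw [← hed, hR']
        constructor
        · rintro ⟨_, h1, h2, h3⟩
          exact ⟨h1, h2, fun hh => h3 (Or.inl hh)⟩
        · rintro ⟨h1, h2, h3⟩
          exact ⟨htD', h1, h2, fun hh => hh.elim h3 fun h4 => hRt s h4 h2⟩
      rw [Finset.prod_eq_one (s := Finset.univ) (f := fun e : Finset V =>
        if t ∈ D ∧ e ∈ Edg G S ∧ e ⊆ t ∧ e ∉ R' then thW (ζ t) b e * sqW y x (ζ t) b e else 1)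
        (fun s _ => if_neg fun hh => htD hh.1), mul_one,
        Fintype.prod_eq_mul e₁ e₂ h12 (fun s hs => if_neg fun hh =>
          ((hc s).1 hh).elim hs.1 hs.2), if_pos ((hc e₁).2 (Or.inl rfl)),
        if_pos ((hc e₂).2 (Or.inr rfl))]
  have f7 : (∏ e : Finset V, if e ∈ R' then thW (zE ζ' D' e) b e else 1) =
      thW (ζ t') b e * ∏ e : Finset V, if e ∈ R then thW (zE ζ D e) b e else 1 := by
    refine g3_one _ _ e _ (fun s hs => ?_) ?_
    · by_cases h1 : s ∈ R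
      · rw [if_pos ((hR' s).2 (Or.inr h1)), if_pos h1, hz s h1]
      · rw [if_neg (fun hh => ((hR' s).1 hh).elim hs h1), if_neg h1]
    · rw [if_pos heR', if_neg heR, mul_one]
      unfold thW
      refine if_congr (or_congr_left ?_) rfl rfl
      exact exists_congr fun u => and_congr_right fun hu => by rw [hze u hu]
  have f8 : (∏ t : Finset V, ∏ u : V, if t ∈ D' ∧ u ∈ t ∧ u ∉ I then kap y (x u) (ζ' t u) else 1) =
      (∏ u ∈ t, kap y (x u) (ζ' t u)) *
      ∏ t : Finset V, ∏ u : V, if t ∈ D ∧ u ∈ t ∧ u ∉ I then kap y (x u) (ζ t u) else 1 := by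
    refine g3_one _ _ t _ (fun s hs => ?_) ?_
    · refine Finset.prod_congr rfl fun u _ => if_congr ?_ (by rw [hζ s hs]) rfl
      rw [hD']; simp [hs]
    · rw [Finset.prod_eq_one (s := Finset.univ) (f := fun u : V =>
        if t ∈ D ∧ u ∈ t ∧ u ∉ I then kap y (x u) (ζ t u) else 1)
        (fun s _ => if_neg fun hh => htD hh.1), mul_one]
      exact g3_fin t _ _ (fun u hu => if_pos ⟨htD', hu, hI u⟩) fun u hu => if_neg fun hh =>
        hu hh.2.1
  have f9 : (∏ e : Finset V, ∏ u : V, if e ∈ R' ∧ u ∈ e ∧ u ∉ I then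
      (kap' y (x u) (zE ζ' D' e u))⁻¹ else 1) = (∏ u ∈ e, (kap' y (x u) (ζ t' u))⁻¹) *
      ∏ e : Finset V, ∏ u : V, if e ∈ R ∧ u ∈ e ∧ u ∉ I then
        (kap' y (x u) (zE ζ D e u))⁻¹ else 1 := by
    refine g3_one _ _ e _ (fun s hs => ?_) ?_
    · refine Finset.prod_congr rfl fun u _ => ?_
      by_cases h1 : s ∈ R
      · rw [hz s h1]
        exact if_congr (by rw [hR']; simp [hs]) rfl rfl
      · rw [if_neg (fun hh => ((hR' s).1 hh.1).elim hs h1), if_neg fun hh => h1 hh.1]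
    · rw [Finset.prod_eq_one (s := Finset.univ) (f := fun u : V =>
        if e ∈ R ∧ u ∈ e ∧ u ∉ I then (kap' y (x u) (zE ζ D e u))⁻¹ else 1)
        (fun s _ => if_neg fun hh => heR hh.1), mul_one]
      refine g3_fin e _ _ (fun u hu => ?_) fun u hu => if_neg fun hh => hu hh.2.1
      rw [if_pos ⟨heR', hu, hI u⟩, hze u hu]
  have f10 : (∏ u : V, if u ∈ I then dd (zE ζ' D' {u} u) else 1) = 1 :=
    Finset.prod_eq_one fun u _ => if_neg (hI u)
  unfold PhiW g3C
  rw [f5, f6, f7, f8, f9, f10]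
  ring

/-- The corner colours after the step. -/
def g3U (t t' e : Finset V) (c : V) (ζ : Finset V → V → Bool) (z : Bool) : Finset V → V → Bool :=
  Function.update ζ t fun u => if u = c then z else if u ∈ e then ζ t' u else false

theorem g3_sum [Fintype V] {S : Set V} {t₀ : Finset V} {w c : V}
    {D D' R R' : Set (Finset V)} {I : Set V} {t t' e : Finset V}
    (hD' : ∀ s, s ∈ D' ↔ s = t ∨ s ∈ D) (hR' : ∀ s, s ∈ R' ↔ s = e ∨ s ∈ R) (ht₀ : t₀ ∈ D)
    (htD : t ∉ D) (ht' : t' ∈ D) (hRt : ∀ s ∈ R, ¬ s ⊆ t) (het : e ⊆ t)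
    (het' : e ⊆ t') (htwo : ∀ s ∈ D, e ⊆ s → s = t') (hce : c ∉ e)
    (htc : ∀ u, u ∈ t ↔ u = c ∨ u ∈ e) (x : V → Bool) (W : (Finset V → V → Bool) → ℝ) :
    (∑ ζ' : Finset V → V → Bool, if PhiC S t₀ w D' R' I x ζ' then W ζ' else 0) =
      ∑ ζ : Finset V → V → Bool, if PhiC S t₀ w D R I x ζ then
        ∑ z : Bool, W (g3U t t' e c ζ z) else 0 := by
  have hne : ∀ s ∈ D, s ≠ t := fun s hs hh => htD (hh ▸ hs)
  have htD' : t ∈ D' := (hD' t).2 (Or.inl rfl)
  have h1 : ∀ ζ : Finset V → V → Bool, (if PhiC S t₀ w D R I x ζ then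
      ∑ z : Bool, W (g3U t t' e c ζ z) else 0) =
      ∑ z : Bool, if PhiC S t₀ w D R I x ζ then W (g3U t t' e c ζ z) else 0 := by
    intro ζ
    split_ifs
    · rfl
    · simp
  have hU : ∀ ζ z s, s ≠ t → g3U t t' e c ζ z s = ζ s := fun ζ z s hs =>
    Function.update_of_ne hs _ _
  have hUt : ∀ ζ z u, g3U t t' e c ζ z t u = if u = c then z else if u ∈ e then ζ t' u else false :=
    fun ζ z u => by rw [g3U, Function.update_self]
  have hUe : ∀ ζ z, ∀ u ∈ e, g3U t t' e c ζ z t u = ζ t' u := fun ζ z u hu => by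
    rw [hUt, if_neg (fun hh : u = c => hce (hh ▸ hu)), if_pos hu]
  have hleft : ∀ ζ', PhiC S t₀ w D' R' I x ζ' →
      g3U t t' e c (Function.update ζ' t fun _ => false) (ζ' t c) = ζ' := by
    intro ζ' hζ'
    funext s u
    by_cases hs : s = t
    · rw [hs, hUt]
      split_ifs with h2 h3
      · rw [h2]
      · rw [Function.update_of_ne (hne t' ht')]
        exact hζ'.2.2.2 e ((hR' e).2 (Or.inl rfl)) t' ((hD' t').2 (Or.inr ht')) t htD' het' het u h3
      · exact (hζ'.2.1 t u (Or.inr fun hh => ((htc u).1 hh).elim h2 h3)).symm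
    · rw [hU _ _ s hs, Function.update_of_ne hs]
  rw [Finset.sum_congr rfl fun ζ _ => h1 ζ, ← Fintype.sum_prod_type', ← Finset.sum_filter,
    ← Finset.sum_filter]
  refine Finset.sum_nbij' (fun ζ' => (Function.update ζ' t fun _ => false, ζ' t c))
    (fun p => g3U t t' e c p.1 p.2) ?_ ?_ ?_ ?_ ?_
  · intro ζ' hζ'
    rw [Finset.mem_filter] at hζ' ⊢
    obtain ⟨a1, a2, a3, a4⟩ := hζ'.2
    refine ⟨Finset.mem_univ _, a1, fun s u hs => ?_, ?_, fun e' he' s hs s' hs' b1 b2 u hu => ?_⟩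
    · by_cases hst : s = t
      · simp only [hst, Function.update_self]
      · simp only [Function.update_of_ne hst]
        exact a2 s u (hs.imp_left fun h2 h3 => ((hD' s).1 h3).elim hst h2)
    · simp only [Function.update_of_ne (hne t₀ ht₀)]
      exact a3
    · simp only [Function.update_of_ne (hne s hs), Function.update_of_ne (hne s' hs')]
      exact a4 e' ((hR' e').2 (Or.inr he')) s ((hD' s).2 (Or.inr hs)) s' ((hD' s').2 (Or.inr hs'))
        b1 b2 u hu
  · rintro ⟨ζ, z⟩ hζ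
    rw [Finset.mem_filter] at hζ ⊢
    obtain ⟨a1, a2, a3, a4⟩ := hζ.2
    refine ⟨Finset.mem_univ _, a1, fun s u hs => ?_, ?_, fun e' he' s hs s' hs' b1 b2 u hu => ?_⟩
    · by_cases hst : s = t
      · have hu : u ∉ t := hst ▸ hs.resolve_left fun hh => hh (hst ▸ htD')
        rw [hst, hUt, if_neg fun hh => hu ((htc u).2 (Or.inl hh)),
          if_neg fun hh => hu ((htc u).2 (Or.inr hh))]
      · rw [hU _ _ s hst]
        exact a2 s u (hs.imp_left fun h2 h3 => h2 ((hD' s).2 (Or.inr h3)))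
    · rw [hU _ _ t₀ (hne t₀ ht₀)]
      exact a3
    · rcases (hR' e').1 he' with rfl | he'
      · have key : ∀ r ∈ D', e' ⊆ r → g3U t t' e' c ζ z r u = ζ t' u := by
          intro r hr hr'
          rcases (hD' r).1 hr with rfl | hr
          · exact hUe _ _ u hu
          · rw [hU _ _ r (hne r hr), htwo r hr hr']
        exact (key s hs b1).trans (key s' hs' b2).symm
      · have c1 : s ≠ t := fun hh => hRt e' he' (hh ▸ b1)
        have c2 : s' ≠ t := fun hh => hRt e' he' (hh ▸ b2)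
        rw [hU _ _ s c1, hU _ _ s' c2]
        exact a4 e' he' s (((hD' s).1 hs).resolve_left c1) s' (((hD' s').1 hs').resolve_left c2)
          b1 b2 u hu
  · intro ζ' hζ'
    exact hleft ζ' (Finset.mem_filter.1 hζ').2
  · rintro ⟨ζ, z⟩ hζ
    have a2 := (Finset.mem_filter.1 hζ).2.2.1
    refine Prod.ext ?_ ?_
    · funext s u
      by_cases hst : s = t
      · simp only [hst, Function.update_self]
        exact (a2 t u (Or.inl htD)).symm
      · simp only [Function.update_of_ne hst]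
        rw [hU _ _ s hst]
    · simp only [hUt, if_true]
  · intro ζ' hζ'
    rw [hleft ζ' (Finset.mem_filter.1 hζ').2]

theorem phi_grow [Fintype V] {G : Cx V} {S : Set V} (h : Surf G S) {b : V → V → Bool}
    (hs : ∀ a a', b a a' = b a' a) (h0 : ∀ a, b a a = false) {t₀ : Finset V} (w : V)
    {D R : Set (Finset V)} {t t' e : Finset V} (hD : D ⊆ Tri G S) (hR : R ⊆ Edg G S) (ht₀ : t₀ ∈ D)
    (hRD : ∀ e' ∈ R, ∀ s ∈ Tri G S, e' ⊆ s → s ∈ D) (ht : t ∈ Tri G S) (htD : t ∉ D) (ht' : t' ∈ D)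
    (he : e ∈ Edg G S) (het : e ⊆ t) (het' : e ⊆ t') :
    Phi G S b t₀ w D R ∅ = Phi G S b t₀ w (insert t D) (insert e R) ∅ := by
  have _ := hR
  have hRt : ∀ s ∈ R, ¬ s ⊆ t := fun s h1 h2 => htD (hRD s h1 t ht h2)
  have htt : t' ≠ t := fun hh => htD (hh ▸ ht')
  have htwo : ∀ s ∈ D, e ⊆ s → s = t' := by
    intro s h1 h2
    obtain ⟨r, -, r', -, -, -, -, h3⟩ := edge_two h he
    have hst : s ≠ t := fun hh => htD (hh ▸ h1)
    rcases h3 s (hD h1) h2 with a1 | a1 <;> rcases h3 t ht het with a2 | a2 <;>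
      rcases h3 t' (hD ht') het' with a3 | a3 <;>
      first
      | exact a1.trans a3.symm
      | exact absurd (a1.trans a2.symm) hst
      | exact absurd (a3.trans a2.symm) htt
  obtain ⟨c, hce, hct⟩ : ∃ c, c ∉ e ∧ insert c e = t :=
    Finset.exists_eq_insert_iff.2 ⟨het, by rw [he.2.2, ht.2.2]⟩
  obtain ⟨a, a', haa, hea⟩ := Finset.card_eq_two.1 he.2.2
  have hac : a ≠ c := fun hh => hce (by rw [← hh, hea]; simp)
  have hac' : a' ≠ c := fun hh => hce (by rw [← hh, hea]; simp)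
  have hta : t = {a, a', c} := by
    rw [← hct, hea]
    ext u
    simp only [Finset.mem_insert, Finset.mem_singleton]
    tauto
  have htc : ∀ u, u ∈ t ↔ u = c ∨ u ∈ e := fun u => by rw [← hct, Finset.mem_insert]
  have h12 : ({a, c} : Finset V) ≠ {a', c} := by
    intro hh
    have : a ∈ ({a', c} : Finset V) := hh ▸ Finset.mem_insert_self a {c}
    simp [haa, hac] at this
  have hed : ∀ s, s ∈ Edg G S ∧ s ⊆ t ∧ s ≠ e ↔ s = {a, c} ∨ s = {a', c} := by
    intro s
    constructor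
    · rintro ⟨h1, h2, h3⟩
      by_cases h4 : s = {a, c}
      · exact Or.inl h4
      · exact Or.inr (g3_sub h1.2.2 (hta ▸ h2) (hea ▸ h3) h4)
    · rintro (rfl | rfl)
      · have h2 : ({a, c} : Finset V) ⊆ t := by rw [hta]; intro u; simp; tauto
        exact ⟨g3_edg ht h2 (Finset.card_pair hac), h2, fun hh => hce (by rw [← hh]; simp)⟩
      · have h2 : ({a', c} : Finset V) ⊆ t := by rw [hta]; intro u; simp; tauto
        exact ⟨g3_edg ht h2 (Finset.card_pair hac'), h2, fun hh => hce (by rw [← hh]; simp)⟩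
  have hD' : ∀ s, s ∈ insert t D ↔ s = t ∨ s ∈ D := fun s => Set.mem_insert_iff
  have hR' : ∀ s, s ∈ insert e R ↔ s = e ∨ s ∈ R := fun s => Set.mem_insert_iff
  have hI : ∀ u : V, u ∉ (∅ : Set V) := fun u => Set.notMem_empty u
  generalize insert t D = D' at hD' ⊢
  generalize insert e R = R' at hR' ⊢
  generalize (∅ : Set V) = I at hI ⊢
  unfold Phi
  refine Finset.sum_congr rfl fun y _ => Finset.sum_congr rfl fun x _ => ?_
  rw [g3_sum hD' hR' ht₀ htD ht' hRt het het' htwo hce htc x]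
  refine Finset.sum_congr rfl fun ζ _ => if_congr Iff.rfl ?_ rfl
  have hae : a ∈ e := by rw [hea]; simp
  have hae' : a' ∈ e := by rw [hea]; simp
  have hU : ∀ z s, s ≠ t → g3U t t' e c ζ z s = ζ s := fun z s hs =>
    Function.update_of_ne hs _ _
  have hUe : ∀ z, ∀ u ∈ e, g3U t t' e c ζ z t u = ζ t' u := fun z u hu => by
    rw [g3U, Function.update_self, if_neg (fun hh : u = c => hce (hh ▸ hu)), if_pos hu]
  have hUc : ∀ z, g3U t t' e c ζ z t c = z := fun z => by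
    rw [g3U, Function.update_self, if_pos rfl]
  rw [g3_old hI hD' hR' ht htD ht' he (fun hh => hRt e hh het) het' htwo,
    Finset.sum_congr rfl fun z _ => g3_new hI hD' hR' htD ht' hRt het het' htwo h12 hed y x
      (hU z) (hUe z), ← Finset.sum_mul]
  congr 1
  have hz : ∀ z, ∃ Z : V → Bool, g3U t t' e c ζ z t = Z ∧ Z a = ζ t' a ∧ Z a' = ζ t' a' ∧ Z c = z :=
    fun z => ⟨_, rfl, hUe z a hae, hUe z a' hae', hUc z⟩
  choose Z hZ hZa hZa' hZc using hz
  simp only [hZ]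
  rw [hea, hta, thW_eq hs h0 x haa, tetW_eq hs h0 x haa hac hac', thW_eq hs h0 _ haa,
    sqW_eq hs h0 y x _ haa, g3_id]
  refine Finset.sum_congr rfl fun z _ => ?_
  rw [tetW_eq hs h0 _ haa hac hac', thW_eq hs h0 _ hac, thW_eq hs h0 _ hac', sqW_eq hs h0 y x _ hac,
    sqW_eq hs h0 y x _ hac', Finset.prod_insert (by simp [haa, hac]),
    Finset.prod_pair hac', Finset.prod_pair haa, hZa, hZa', hZc]

end KG
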