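import Pool.Agent.Work.MP_c146e2_gt.KG.Grid
import Pool.Agent.Work.MP_c146e2_gt.GenA

set_option autoImplicit false

noncomputable section

open scoped Classical

namespace KG

variable {V V' : Type}

open RankGenus

/-- The row of a local picture. -/
inductive RowOf : Kind × ℕ → List CT → Prop
  | cre (A B : List CT) (n : ℕ) : (∀ t ∈ A, t = .E ∨ t = .V) → (∀ t ∈ B, t = .E ∨ t = .V) →
      RowOf (.cre, A.count .V) (A ++ .DR :: (List.replicate n .H ++ .DL :: B))
  | ann (A B : List CT) (n : ℕ) : (∀ t ∈ A, t = .E ∨ t = .V) → (∀ t ∈ B, t = .E ∨ t = .V) →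
      RowOf (.ann, A.count .V) (A ++ .UR :: (List.replicate n .H ++ .UL :: B))
  | ov (A B : List CT) (n n' : ℕ) : (∀ t ∈ A, t = .E ∨ t = .V) → (∀ t ∈ B, t = .E ∨ t = .V) →
      RowOf (.ov, A.count .V)
        (A ++ .DR :: (List.replicate n .H ++ .X :: (List.replicate n' .H ++ .UL :: B)))
  | un (A B : List CT) (n n' : ℕ) : (∀ t ∈ A, t = .E ∨ t = .V) → (∀ t ∈ B, t = .E ∨ t = .V) →
      RowOf (.un, A.count .V)
        (A ++ .UR :: (List.replicate n .H ++ .X :: (List.replicate n' .H ++ .DL :: B)))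

/-- `top` marks the columns in which a strand enters from above. -/
inductive Lay : List Bool → Word → List (List CT) → Prop
  | nil (top : List Bool) : (∀ b ∈ top, b = false) → Lay top [] []
  | cons {g : Kind × ℕ} {r : List CT} {w : Word} {rows : List (List CT)} :
      RowOf g r → Lay (r.map CT.dn) w rows → Lay (r.map CT.up) (g :: w) (r :: rows)

def tyOf (rows : List (List CT)) (i k : ℤ) : CT :=
  if 0 < i ∧ 0 < k then (rows.getD (k - 1).toNat []).getD (i - 1).toNat .E else .E

/-- Labels `v i k` of the vertical edge below and `h i k` of the horizontal edge to the right of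
the lattice point `(i, k)`. -/
structure ELab {α : Type} (S : Sys α) (ty : ℤ → ℤ → CT) (v h : ℤ → ℤ → α) : Prop where
  eV : ∀ i k, ty i k = .V → v i (k - 1) = v i k
  eH : ∀ i k, ty i k = .H → h (i - 1) k = h i k
  eX : ∀ i k, ty i k = .X → v i (k - 1) = v i k ∧ h (i - 1) k = S.o (v i k) (h i k) ∧
    S.dual (h i k) = S.u (S.dual (h (i - 1) k)) (v i k)
  eDR : ∀ i k, ty i k = .DR → v i k = h i k
  eDL : ∀ i k, ty i k = .DL → v i k = S.dual (h (i - 1) k)
  eUR : ∀ i k, ty i k = .UR → h i k = S.dual (v i (k - 1))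
  eUL : ∀ i k, ty i k = .UL → v i (k - 1) = h (i - 1) k

/-- The labels of the marked columns, the first column having number `j`. -/
def labs {α : Type} (f : ℤ → α) : ℤ → List Bool → List α
  | _, [] => []
  | j, b :: t => if b then f j :: labs f (j + 1) t else labs f (j + 1) t

/-- A vertical strand passes over the base cell. -/
def vrt (ty : ℤ → ℤ → CT) (c : ℤ × ℤ × ℤ) : Bool := onK ty (c.1, 4, c.2.2)

/-- A horizontal strand passes over the base cell. -/
def hrz (ty : ℤ → ℤ → CT) (c : ℤ × ℤ × ℤ) : Bool := onK ty (c.1, 2, c.2.2)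

/-- Cells above the diagram. -/
def isP (ty : ℤ → ℤ → CT) (c : ℤ × ℤ × ℤ) : Bool := decide (5 ≤ c.2.1) || (decide (3 ≤ c.2.1) && !vrt ty c)

/-- Cells below the diagram. -/
def isQ (ty : ℤ → ℤ → CT) (c : ℤ × ℤ × ℤ) : Bool := decide (c.2.1 ≤ 1) ||
  (!hrz ty c && (c.2.1 == 2 || (c.2.1 == 3 && vrt ty c)))

/-- The cell between the two strands of a crossing. -/
def isM (ty : ℤ → ℤ → CT) (c : ℤ × ℤ × ℤ) : Bool :=
  c.1 % 2 == 0 && c.2.1 == 3 && c.2.2 % 2 == 0 && ty (c.1 / 2) (c.2.2 / 2) == .X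

end KG
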