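import Pool.Agent.Work.MP_c146e2_gt.KG.KL0
import Pool.Agent.Work.MP_c146e2_gt.KG.GridEqs

set_option autoImplicit false

noncomputable section

open scoped Classical

namespace KG

variable {V V' : Type}

open RankGenus

theorem kl1_split {A R r₁ r₂ : List CT} {c : CT} (h : A ++ c :: R = r₁ ++ r₂) :
    (∃ A₂, A = r₁ ++ A₂ ∧ r₂ = A₂ ++ c :: R) ∨ ∃ R₁, r₁ = A ++ c :: R₁ ∧ R = R₁ ++ r₂ := by
  rcases List.append_eq_append_iff.1 h with ⟨a, h1, h2⟩ | ⟨a, h1, h2⟩
  · rcases List.cons_eq_append_iff.1 h2 with ⟨rfl, h3⟩ | ⟨l, rfl, h3⟩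
    · exact Or.inl ⟨[], by rw [h1, List.append_nil, List.append_nil], h3⟩
    · exact Or.inr ⟨l, h1, h3⟩
  · exact Or.inl ⟨a, h1, h2⟩

theorem kl1_pas {A₁ A₂ : List CT} (h : ∀ t ∈ A₁ ++ A₂, t = .E ∨ t = .V) :
    ∀ t ∈ A₁ ++ .E :: A₂, t = .E ∨ t = .V := by
  intro t ht
  simp only [List.mem_append, List.mem_cons] at ht h
  rcases ht with ht | ht | ht
  exacts [h t (Or.inl ht), Or.inl ht, h t (Or.inr ht)]

theorem kl1_cnt (A₁ A₂ : List CT) : (A₁ ++ A₂).count .V = (A₁ ++ .E :: A₂).count .V := by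
  simp

theorem kl1_rep {A₁ A₂ : List CT} {n : ℕ} (h : List.replicate n CT.H = A₁ ++ A₂) :
    List.replicate (n + 1) CT.H = A₁ ++ .H :: A₂ := by
  obtain ⟨h1, h2⟩ := List.eq_replicate_iff.1 h.symm
  refine (List.eq_replicate_iff.2 ⟨?_, fun t ht => ?_⟩).symm
  · simp only [List.length_append, List.length_cons] at h1 ⊢
    omega
  · simp only [List.mem_append, List.mem_cons] at ht h2
    rcases ht with ht | ht | ht
    exacts [h2 t (Or.inl ht), ht, h2 t (Or.inr ht)]

theorem kl1_row {g : Kind × ℕ} {r r₁ r₂ : List CT} (h : RowOf g r) (e : r = r₁ ++ r₂) :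
    ∃ t, (t = CT.E ∨ t = CT.H) ∧ RowOf g (r₁ ++ t :: r₂) := by
  cases h with
  | cre A B n hA hB =>
    rcases kl1_split e with ⟨A₂, rfl, rfl⟩ | ⟨R₁, rfl, e₁⟩
    · exact ⟨_, Or.inl rfl, by
        simpa only [kl1_cnt r₁ A₂, List.append_assoc, List.cons_append] using
          RowOf.cre _ B n (kl1_pas hA) hB⟩
    rcases kl1_split e₁ with ⟨A₂, e₃, rfl⟩ | ⟨R₂, rfl, rfl⟩
    · exact ⟨_, Or.inr rfl, by
        simpa only [kl1_rep e₃, List.append_assoc, List.cons_append] using
          RowOf.cre A B (n + 1) hA hB⟩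
    · exact ⟨_, Or.inl rfl, by
        simpa only [List.append_assoc, List.cons_append] using RowOf.cre A _ n hA (kl1_pas hB)⟩
  | ann A B n hA hB =>
    rcases kl1_split e with ⟨A₂, rfl, rfl⟩ | ⟨R₁, rfl, e₁⟩
    · exact ⟨_, Or.inl rfl, by
        simpa only [kl1_cnt r₁ A₂, List.append_assoc, List.cons_append] using
          RowOf.ann _ B n (kl1_pas hA) hB⟩
    rcases kl1_split e₁ with ⟨A₂, e₃, rfl⟩ | ⟨R₂, rfl, rfl⟩
    · exact ⟨_, Or.inr rfl, by
        simpa only [kl1_rep e₃, List.append_assoc, List.cons_append] using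
          RowOf.ann A B (n + 1) hA hB⟩
    · exact ⟨_, Or.inl rfl, by
        simpa only [List.append_assoc, List.cons_append] using RowOf.ann A _ n hA (kl1_pas hB)⟩
  | ov A B n n' hA hB =>
    rcases kl1_split e with ⟨A₂, rfl, rfl⟩ | ⟨R₁, rfl, e₁⟩
    · exact ⟨_, Or.inl rfl, by
        simpa only [kl1_cnt r₁ A₂, List.append_assoc, List.cons_append] using
          RowOf.ov _ B n n' (kl1_pas hA) hB⟩
    rcases kl1_split e₁ with ⟨A₂, e₃, rfl⟩ | ⟨R₂, rfl, e₂⟩
    · exact ⟨_, Or.inr rfl, by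
        simpa only [kl1_rep e₃, List.append_assoc, List.cons_append] using
          RowOf.ov A B (n + 1) n' hA hB⟩
    rcases kl1_split e₂ with ⟨A₂, e₃, rfl⟩ | ⟨R₃, rfl, rfl⟩
    · exact ⟨_, Or.inr rfl, by
        simpa only [kl1_rep e₃, List.append_assoc, List.cons_append] using
          RowOf.ov A B n (n' + 1) hA hB⟩
    · exact ⟨_, Or.inl rfl, by
        simpa only [List.append_assoc, List.cons_append] using RowOf.ov A _ n n' hA (kl1_pas hB)⟩
  | un A B n n' hA hB =>
    rcases kl1_split e with ⟨A₂, rfl, rfl⟩ | ⟨R₁, rfl, e₁⟩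
    · exact ⟨_, Or.inl rfl, by
        simpa only [kl1_cnt r₁ A₂, List.append_assoc, List.cons_append] using
          RowOf.un _ B n n' (kl1_pas hA) hB⟩
    rcases kl1_split e₁ with ⟨A₂, e₃, rfl⟩ | ⟨R₂, rfl, e₂⟩
    · exact ⟨_, Or.inr rfl, by
        simpa only [kl1_rep e₃, List.append_assoc, List.cons_append] using
          RowOf.un A B (n + 1) n' hA hB⟩
    rcases kl1_split e₂ with ⟨A₂, e₃, rfl⟩ | ⟨R₃, rfl, rfl⟩
    · exact ⟨_, Or.inr rfl, by
        simpa only [kl1_rep e₃, List.append_assoc, List.cons_append] using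
          RowOf.un A B n (n' + 1) hA hB⟩
    · exact ⟨_, Or.inl rfl, by
        simpa only [List.append_assoc, List.cons_append] using RowOf.un A _ n n' hA (kl1_pas hB)⟩

/-- A free column can be inserted anywhere. -/
theorem kl1_ins {top : List Bool} {w : Word} {rows : List (List CT)} (h : Lay top w rows) :
    ∀ P Q, top = P ++ Q → ∃ rows', Lay (P ++ false :: Q) w rows' := by
  induction h with
  | nil top h =>
    rintro P Q rfl
    refine ⟨[], Lay.nil _ fun b hb => ?_⟩
    simp only [List.mem_append, List.mem_cons] at hb h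
    rcases hb with hb | hb | hb
    exacts [h b (Or.inl hb), hb, h b (Or.inr hb)]
  | @cons g r w rows hr _ ih =>
    intro P Q e
    obtain ⟨r₁, r₂, e', rfl, rfl⟩ := List.map_eq_append_iff.1 e
    obtain ⟨t, ht, hr'⟩ := kl1_row hr e'
    obtain ⟨rows', h'⟩ := ih (r₁.map CT.dn) (r₂.map CT.dn) (by rw [e', List.map_append])
    have h1 : t.dn = false ∧ t.up = false := by rcases ht with rfl | rfl <;> exact ⟨rfl, rfl⟩
    have h2 := Lay.cons hr' (rows := rows') (w := w) (by
      rw [List.map_append, List.map_cons, h1.1]; exact h')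
    rw [List.map_append, List.map_cons, h1.2] at h2
    exact ⟨_, h2⟩

theorem kl1_first {T : List Bool} {j : ℕ} (h : T.count true = j + 1) :
    ∃ n T', T = List.replicate n false ++ true :: T' ∧ T'.count true = j := by
  induction T with
  | nil => simp at h
  | cons b T ih =>
    cases b
    · obtain ⟨n, T', rfl, h'⟩ := ih (by simpa using h)
      exact ⟨n + 1, T', rfl, h'⟩
    · exact ⟨0, T, rfl, by simpa using h⟩

theorem kl1_cut {T : List Bool} {i j : ℕ} (h : T.count true = i + j) :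
    ∃ T₁ T₂, T = T₁ ++ T₂ ∧ T₁.count true = i ∧ T₂.count true = j := by
  induction i generalizing j with
  | zero => exact ⟨[], T, rfl, rfl, by simpa using h⟩
  | succ i ih =>
    obtain ⟨T₁, T₂, rfl, h1, h2⟩ := ih (j := j + 1) (by omega)
    obtain ⟨n, T', rfl, h3⟩ := kl1_first h2
    exact ⟨T₁ ++ (List.replicate n false ++ [true]), T', by simp,
      by simp [h1, List.count_replicate], h3⟩

theorem kl1_cut2 {T : List Bool} {i j : ℕ} (h : T.count true = i + (j + 1 + 1)) :
    ∃ T₁ n T₂, T = T₁ ++ true :: (List.replicate n false ++ true :: T₂) ∧ T₁.count true = i ∧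
      T₂.count true = j := by
  obtain ⟨T₁, T₂, rfl, h1, h2⟩ := kl1_cut h
  obtain ⟨n, T₃, rfl, h3⟩ := kl1_first h2
  obtain ⟨n', T₄, rfl, h4⟩ := kl1_first h3
  exact ⟨T₁ ++ List.replicate n false, n', T₄, by simp, by simp [h1, List.count_replicate], h4⟩

theorem kl1_lift (T : List Bool) : ∃ A : List CT, (∀ t ∈ A, t = .E ∨ t = .V) ∧
    A.map CT.up = T ∧ A.map CT.dn = T ∧ A.count .V = T.count true := by
  induction T with
  | nil => exact ⟨[], by simp, rfl, rfl, rfl⟩
  | cons b T ih =>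
    obtain ⟨A, h1, h2, h3, h4⟩ := ih
    cases b
    · exact ⟨.E :: A, List.forall_mem_cons.2 ⟨Or.inl rfl, h1⟩, by rw [List.map_cons, h2]; rfl,
        by rw [List.map_cons, h3]; rfl, by simp [h4]⟩
    · exact ⟨.V :: A, List.forall_mem_cons.2 ⟨Or.inr rfl, h1⟩, by rw [List.map_cons, h2]; rfl,
        by rw [List.map_cons, h3]; rfl, by simp [h4]⟩

theorem exists_lay {L cs : List Bool} {w : Word} (h : Run boolSys L w cs []) :
    ∃ top rows, Lay top w rows ∧ top.count true = L.length ∧ top ≠ [] := by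
  obtain ⟨M, hM, h'⟩ : ∃ M, M = [] ∧ Run boolSys L w cs M := ⟨[], rfl, h⟩
  clear h
  induction h' with
  | nil L =>
    subst hM
    exact ⟨[false], [], Lay.nil _ (by simp), rfl, by simp⟩
  | cre P Q x _ ih =>
    obtain ⟨top, rows, h1, h2, -⟩ := ih hM
    rw [List.length_append, List.length_cons, List.length_cons] at h2
    obtain ⟨T₁, n, T₂, rfl, h3, h4⟩ := kl1_cut2 h2
    obtain ⟨A, a1, a2, a3, a4⟩ := kl1_lift T₁
    obtain ⟨B, b1, b2, b3, -⟩ := kl1_lift T₂
    have h5 := Lay.cons (RowOf.cre A B n a1 b1) (rows := rows) (by simpa [a3, b3, CT.dn] using h1)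
    rw [a4, h3] at h5
    exact ⟨_, _, h5, by simp [a2, b2, CT.up, h3, h4, List.count_replicate], by simp⟩
  | ann P Q x _ ih =>
    obtain ⟨top, rows, h1, h2, -⟩ := ih hM
    rw [List.length_append] at h2
    obtain ⟨T₁, T₂, rfl, h3, h4⟩ := kl1_cut h2
    obtain ⟨rows₁, h1⟩ := kl1_ins h1 _ _ rfl
    obtain ⟨rows₂, h1⟩ := kl1_ins h1 _ _ rfl
    obtain ⟨A, a1, a2, a3, a4⟩ := kl1_lift T₁
    obtain ⟨B, b1, b2, b3, -⟩ := kl1_lift T₂
    have h5 := Lay.cons (RowOf.ann A B 0 a1 b1) (rows := rows₂)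
      (by simpa [a3, b3, CT.dn] using h1)
    rw [a4, h3] at h5
    exact ⟨_, _, h5, by simp [a2, b2, CT.up, h3, h4], by simp⟩
  | ov P Q a b _ ih =>
    obtain ⟨top, rows, h1, h2, -⟩ := ih hM
    rw [List.length_append, List.length_cons, List.length_cons] at h2
    obtain ⟨T₁, n, T₂, rfl, h3, h4⟩ := kl1_cut2 h2
    obtain ⟨rows₁, h1⟩ := kl1_ins h1 (T₁ ++ true :: (List.replicate n false ++ [true])) T₂
      (by simp)
    obtain ⟨A, a1, a2, a3, a4⟩ := kl1_lift T₁
    obtain ⟨B, b1, b2, b3, -⟩ := kl1_lift T₂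
    have h5 := Lay.cons (RowOf.ov A B n 0 a1 b1) (rows := rows₁)
      (by simpa [a3, b3, CT.dn] using h1)
    rw [a4, h3] at h5
    exact ⟨_, _, h5, by simp [a2, b2, CT.up, h3, h4, List.count_replicate], by simp⟩
  | un P Q a b _ ih =>
    obtain ⟨top, rows, h1, h2, -⟩ := ih hM
    rw [List.length_append, List.length_cons, List.length_cons] at h2
    obtain ⟨T₁, n, T₂, rfl, h3, h4⟩ := kl1_cut2 h2
    obtain ⟨rows₁, h1⟩ := kl1_ins h1 _ _ rfl
    obtain ⟨A, a1, a2, a3, a4⟩ := kl1_lift T₁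
    obtain ⟨B, b1, b2, b3, -⟩ := kl1_lift T₂
    have h5 := Lay.cons (RowOf.un A B 0 n a1 b1) (rows := rows₁)
      (by simpa [a3, b3, CT.dn] using h1)
    rw [a4, h3] at h5
    exact ⟨_, _, h5, by simp [a2, b2, CT.up, h3, h4, List.count_replicate], by simp⟩

theorem Lay.len {top : List Bool} {w : Word} {rows : List (List CT)} (h : Lay top w rows) :
    rows.length = w.length ∧ ∀ r ∈ rows, r.length = top.length := by
  induction h with
  | nil => simp
  | cons _ _ ih =>
    rw [List.length_map] at ih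
    rw [List.length_cons, List.length_cons, ih.1, List.length_map]
    exact ⟨rfl, List.forall_mem_cons.2 ⟨rfl, ih.2⟩⟩

theorem tyOf_cons (r : List CT) (rows : List (List CT)) (i : ℤ) {k : ℤ} (hk : 0 < k) :
    tyOf (r :: rows) i (k + 1) = tyOf rows i k := by
  have h1 : (k + 1 - 1).toNat = (k - 1).toNat + 1 := by omega
  have h2 : 0 < k + 1 := by omega
  simp only [tyOf, h1, h2, hk, List.getD_cons_succ]

theorem kl1_one (r : List CT) (rows : List (List CT)) (i : ℤ) :
    tyOf (r :: rows) i 1 = if 0 < i then r.getD (i - 1).toNat .E else .E := by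
  simp only [tyOf, sub_self, Int.toNat_zero, List.getD_cons_zero, one_pos, and_true]

theorem kl1_vert {top : List Bool} {w : Word} {rows : List (List CT)} (h : Lay top w rows) :
    (∀ i, (tyOf rows i 1).up = if 0 < i then top.getD (i - 1).toNat false else false) ∧
      ∀ i k, 0 < k → (tyOf rows i k).dn = (tyOf rows i (k + 1)).up := by
  induction h with
  | nil top h =>
    have h1 : ∀ i k, tyOf [] i k = .E := fun i k => by simp [tyOf]
    refine ⟨fun i => ?_, fun i k _ => by rw [h1, h1]; rfl⟩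
    rw [h1]
    split_ifs
    · rcases lt_or_ge (i - 1).toNat top.length with h2 | h2
      · rw [List.getD_eq_getElem _ _ h2, h _ (List.getElem_mem h2)]
        rfl
      · rw [List.getD_eq_default _ _ h2]
        rfl
    · rfl
  | @cons g r w rows _ _ ih =>
    refine ⟨fun i => ?_, fun i k hk => ?_⟩
    · rw [kl1_one]
      split_ifs
      · exact (List.getD_map r CT.E CT.up).symm
      · rfl
    · rw [tyOf_cons r rows i hk]
      rcases (show k = 1 ∨ 0 < k - 1 by omega) with rfl | h1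
      · rw [ih.1, kl1_one]
        split_ifs
        · exact (List.getD_map r CT.E CT.dn).symm
        · rfl
      · obtain ⟨k, rfl⟩ : ∃ k', k = k' + 1 := ⟨k - 1, by omega⟩
        rw [tyOf_cons r rows i (by omega), ih.2 i k (by omega)]

/-- The horizontal edges of a row fit together; `b` tells if an edge enters from the left. -/
def kl1Hor : Bool → List CT → Prop
  | b, [] => b = false
  | b, t :: r => t.lf = b ∧ kl1Hor t.rt r

theorem kl1Hor_pas {A R : List CT} (hA : ∀ t ∈ A, t = .E ∨ t = .V) (h : kl1Hor false R) :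
    kl1Hor false (A ++ R) := by
  induction A with
  | nil => exact h
  | cons t A ih =>
    obtain ⟨h1, h2⟩ := List.forall_mem_cons.1 hA
    rcases h1 with rfl | rfl <;> exact ⟨rfl, ih h2⟩

theorem kl1Hor_rep {R : List CT} (n : ℕ) (h : kl1Hor true R) :
    kl1Hor true (List.replicate n .H ++ R) := by
  induction n with
  | zero => exact h
  | succ n ih => exact ⟨rfl, ih⟩

theorem kl1Hor_row {g : Kind × ℕ} {r : List CT} (h : RowOf g r) : kl1Hor false r := by
  have h0 : ∀ B : List CT, (∀ t ∈ B, t = .E ∨ t = .V) → kl1Hor false B := fun B hB => by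
    simpa only [List.append_nil] using kl1Hor_pas (R := []) hB rfl
  cases h with
  | cre A B n hA hB => exact kl1Hor_pas hA ⟨rfl, kl1Hor_rep n ⟨rfl, h0 B hB⟩⟩
  | ann A B n hA hB => exact kl1Hor_pas hA ⟨rfl, kl1Hor_rep n ⟨rfl, h0 B hB⟩⟩
  | ov A B n n' hA hB =>
    exact kl1Hor_pas hA ⟨rfl, kl1Hor_rep n ⟨rfl, kl1Hor_rep n' ⟨rfl, h0 B hB⟩⟩⟩
  | un A B n n' hA hB =>
    exact kl1Hor_pas hA ⟨rfl, kl1Hor_rep n ⟨rfl, kl1Hor_rep n' ⟨rfl, h0 B hB⟩⟩⟩

theorem kl1Hor_getD {b : Bool} {r : List CT} (h : kl1Hor b r) :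
    (r.getD 0 .E).lf = b ∧ ∀ j, (r.getD j .E).rt = (r.getD (j + 1) .E).lf := by
  induction r generalizing b with
  | nil => exact ⟨Eq.symm h, fun _ => rfl⟩
  | cons t r ih =>
    refine ⟨h.1, fun j => ?_⟩
    cases j with
    | zero => exact (ih h.2).1.symm
    | succ j => exact (ih h.2).2 j

theorem kl1Hor_lay {top : List Bool} {w : Word} {rows : List (List CT)} (h : Lay top w rows) :
    ∀ r ∈ rows, kl1Hor false r := by
  induction h with
  | nil => simp
  | cons hr _ ih => exact List.forall_mem_cons.2 ⟨kl1Hor_row hr, ih⟩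

theorem kl1_getD (rows : List (List CT)) (n : ℕ) : rows.getD n [] ∈ rows ∨ rows.getD n [] = [] := by
  rcases lt_or_ge n rows.length with h | h
  · rw [List.getD_eq_getElem _ _ h]
    exact Or.inl (List.getElem_mem h)
  · exact Or.inr (List.getD_eq_default _ _ h)

theorem Lay.grid {top : List Bool} {w : Word} {rows : List (List CT)} (h : Lay top w rows)
    (h0 : top.count true = 0) (hne : top ≠ []) (hw : w ≠ []) :
    Grid top.length rows.length (tyOf rows) := by
  have h1 : ∀ i k, i ≤ 0 ∨ k ≤ 0 → tyOf rows i k = .E := fun i k hik => if_neg (by omega)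
  refine ⟨List.length_pos_iff.2 hne, h.len.1 ▸ List.length_pos_iff.2 hw, fun i k => ?_,
    fun i k => ?_, fun i k hik => ?_⟩
  · rcases lt_trichotomy k 0 with hk | rfl | hk
    · rw [h1 i k (Or.inr hk.le), h1 i (k + 1) (Or.inr hk)]
      rfl
    · rw [h1 i 0 (Or.inr le_rfl), zero_add, (kl1_vert h).1]
      split_ifs
      · rcases lt_or_ge (i - 1).toNat top.length with h2 | h2
        · rw [List.getD_eq_getElem _ _ h2]
          exact (Bool.eq_false_iff.2 fun h3 =>
            List.count_eq_zero.1 h0 (h3 ▸ List.getElem_mem h2)).symm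
        · rw [List.getD_eq_default _ _ h2]
          rfl
      · rfl
    · exact (kl1_vert h).2 i k hk
  · have h2 : kl1Hor false (rows.getD (k - 1).toNat []) := by
      rcases kl1_getD rows (k - 1).toNat with h2 | h2
      · exact kl1Hor_lay h _ h2
      · rw [h2]
        rfl
    rcases le_or_gt k 0 with hk | hk
    · rw [h1 _ k (Or.inr hk), h1 _ k (Or.inr hk)]
      rfl
    rcases lt_trichotomy i 0 with hi | rfl | hi
    · rw [h1 i k (Or.inl hi.le), h1 (i + 1) k (Or.inl hi)]
      rfl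
    · rw [h1 0 k (Or.inl le_rfl), tyOf, if_pos ⟨by omega, hk⟩]
      exact (kl1Hor_getD h2).1.symm
    · rw [tyOf, tyOf, if_pos ⟨hi, hk⟩, if_pos ⟨by omega, hk⟩,
        show (i + 1 - 1).toNat = (i - 1).toNat + 1 by omega]
      exact (kl1Hor_getD h2).2 _
  · rw [tyOf]
    split_ifs with h2
    · rcases (show (top.length : ℤ) < i ∨ (rows.length : ℤ) < k by omega) with h3 | h3
      · refine List.getD_eq_default _ _ ?_
        rcases kl1_getD rows (k - 1).toNat with h4 | h4
        · rw [h.len.2 _ h4]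
          omega
        · rw [h4]
          exact Nat.zero_le _
      · rw [List.getD_eq_default rows _ (by omega)]
        rfl
    · rfl

end KG
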