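import Pool.Agent.Work.MP_c146e2_gt.KG.KL1
import Pool.Agent.Work.MP_c146e2_gt.KG.GridEqs

set_option autoImplicit false

noncomputable section

open scoped Classical

namespace KG

variable {V V' : Type}

open RankGenus

theorem labs_append {α : Type} (f : ℤ → α) (j : ℤ) (a b : List Bool) :
    labs f j (a ++ b) = labs f j a ++ labs f (j + a.length) b := by
  induction a generalizing j with
  | nil => simp [labs]
  | cons x a ih =>
    have e : j + ((x :: a).length : ℕ) = j + 1 + a.length := by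
      rw [List.length_cons]
      push_cast
      ring
    rw [e]
    cases x <;> simp [labs, ih]

theorem mem_labs {α : Type} (f : ℤ → α) (j : ℤ) (a : List Bool) (x : α) :
    x ∈ labs f j a ↔ ∃ n : ℕ, a.getD n false = true ∧ x = f (j + n) := by
  induction a generalizing j with
  | nil => simp [labs]
  | cons b a ih =>
    have e : ∀ n : ℕ, j + ((n + 1 : ℕ) : ℤ) = j + 1 + n := fun n => by
      push_cast
      ring
    rw [← Nat.or_exists_add_one]
    simp only [List.getD_cons_zero, List.getD_cons_succ, e, ← ih, Nat.cast_zero, add_zero]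
    cases b <;> simp [labs]

/-- The conditions at one lattice point; `f` above, `g` below, `h` to the right. -/
def kl2C {α : Type} (S : Sys α) (f g h : ℤ → α) (i : ℤ) : CT → Prop
  | .E => True
  | .V => f i = g i
  | .H => h (i - 1) = h i
  | .X => f i = g i ∧ h (i - 1) = S.o (g i) (h i) ∧ S.dual (h i) = S.u (S.dual (h (i - 1))) (g i)
  | .DR => g i = h i
  | .DL => g i = S.dual (h (i - 1))
  | .UR => h i = S.dual (f i)
  | .UL => f i = h (i - 1)

def kl2R (C : ℤ → CT → Prop) : ℤ → List CT → Prop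
  | _, [] => True
  | j, t :: r => C j t ∧ kl2R C (j + 1) r

theorem kl2_iff {C : ℤ → CT → Prop} (h0 : ∀ i, C i .E) (j : ℤ) (r : List CT) :
    kl2R C j r ↔ ∀ n : ℕ, C (j + n) (r.getD n .E) := by
  induction r generalizing j with
  | nil => simp [kl2R, h0]
  | cons t r ih =>
    have e : ∀ n : ℕ, j + ((n + 1 : ℕ) : ℤ) = j + 1 + n := fun n => by
      push_cast
      ring
    rw [← Nat.and_forall_add_one]
    simp only [kl2R, ih, List.getD_cons_zero, List.getD_cons_succ, e, Nat.cast_zero, add_zero]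

section

variable {α : Type} {S : Sys α} {f g h : ℤ → α}

theorem kl2_pas {A : List CT} (hA : ∀ t ∈ A, t = .E ∨ t = .V) {r : List CT} {j : ℤ}
    (hc : kl2R (kl2C S f g h) j (A ++ r)) : ∃ (L : List α) (a : ℤ), L.length = A.count .V ∧
      kl2R (kl2C S f g h) a r ∧ labs f j ((A ++ r).map CT.up) = L ++ labs f a (r.map CT.up) ∧
      labs g j ((A ++ r).map CT.dn) = L ++ labs g a (r.map CT.dn) ∧ ∀ P : α → Prop,
        kl2R (fun i t => t.rt = true → P (h i)) a r →
          kl2R (fun i t => t.rt = true → P (h i)) j (A ++ r) := by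
  induction A generalizing j with
  | nil => exact ⟨[], j, rfl, hc, rfl, rfl, fun _ h => h⟩
  | cons t A ih =>
    obtain ⟨L, a, h1, h2, h3, h4, h5⟩ := ih (fun t ht => hA t (List.mem_cons_of_mem _ ht)) hc.2
    rcases hA t List.mem_cons_self with rfl | rfl
    · exact ⟨L, a, by simpa using h1, h2, h3, h4, fun P hP => ⟨fun e => by simp [CT.rt] at e, h5 P hP⟩⟩
    · have e : f j = g j := hc.1
      exact ⟨f j :: L, a, by simpa using h1, h2, congrArg (f j :: ·) h3,
        e ▸ congrArg (g j :: ·) h4, fun P hP => ⟨fun e => by simp [CT.rt] at e, h5 P hP⟩⟩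

theorem kl2_end {B : List CT} (hB : ∀ t ∈ B, t = .E ∨ t = .V) {j : ℤ}
    (hc : kl2R (kl2C S f g h) j B) : labs g j (B.map CT.dn) = labs f j (B.map CT.up) ∧
      ∀ P : α → Prop, kl2R (fun i t => t.rt = true → P (h i)) j B := by
  obtain ⟨L, a, -, -, h3, h4, h5⟩ := kl2_pas hB (r := []) (by rwa [List.append_nil])
  rw [List.append_nil] at h3 h4 h5
  exact ⟨h4.trans h3.symm, fun P => h5 P trivial⟩

theorem kl2_rep {n : ℕ} {r : List CT} {j : ℤ}
    (hc : kl2R (kl2C S f g h) (j + 1) (List.replicate n .H ++ r)) : ∃ a : ℤ, h (a - 1) = h j ∧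
      kl2R (kl2C S f g h) a r ∧
      labs f (j + 1) ((List.replicate n CT.H ++ r).map CT.up) = labs f a (r.map CT.up) ∧
      labs g (j + 1) ((List.replicate n CT.H ++ r).map CT.dn) = labs g a (r.map CT.dn) ∧
      ∀ P : α → Prop, P (h j) → kl2R (fun i t => t.rt = true → P (h i)) a r →
        kl2R (fun i t => t.rt = true → P (h i)) (j + 1) (List.replicate n .H ++ r) := by
  induction n generalizing j with
  | zero => exact ⟨j + 1, by rw [add_sub_cancel_right], hc, rfl, rfl, fun _ _ h => h⟩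
  | succ n ih =>
    obtain ⟨a, h1, h2, h3, h4, h5⟩ := ih hc.2
    have e : h (j + 1 - 1) = h (j + 1) := hc.1
    rw [add_sub_cancel_right] at e
    exact ⟨a, h1.trans e.symm, h2, h3, h4, fun P hP hr => ⟨fun _ => e ▸ hP, h5 P (e ▸ hP) hr⟩⟩

theorem kl2_row (hS : ∀ x, S.dual (S.dual x) = x) {k : Kind × ℕ} {r : List CT} (hr : RowOf k r)
    (hc : kl2R (kl2C S f g h) 1 r) : ∃ c : List α, (∀ w cs M,
      Run S (labs g 1 (r.map CT.dn)) w cs M → Run S (labs f 1 (r.map CT.up)) (k :: w) (c ++ cs) M) ∧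
      ∀ P : α → Prop, S.Closed P → (∀ x ∈ labs f 1 (r.map CT.up), P x) → (∀ x ∈ c, P x) →
        kl2R (fun i t => t.rt = true → P (h i)) 1 r := by
  have no : ∀ {t : CT} {Q : Prop}, t.rt = false → t.rt = true → Q := fun h h' => by
    rw [h] at h'
    exact absurd h' Bool.false_ne_true
  cases hr with
  | cre A B n hA hB =>
    obtain ⟨L, a, h1, ⟨c1, h2⟩, h3, h4, h5⟩ := kl2_pas hA hc
    obtain ⟨b, g1, ⟨c2, g2⟩, g3, g4, g5⟩ := kl2_rep h2
    obtain ⟨e1, e2⟩ := kl2_end hB g2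
    have c1 : g a = h a := c1
    have c2 : g b = S.dual (h (b - 1)) := c2
    have u1 : _ = L ++ labs f (b + 1) (B.map CT.up) := h3.trans (congrArg (L ++ ·) g3)
    have u2 := h4.trans (congrArg (fun t => L ++ g a :: t) (g4.trans (congrArg (g b :: ·) e1)))
    rw [u1, u2, ← h1, c2, g1, ← c1]
    refine ⟨[g a], fun w cs M => Run.cre _ _ _, fun P _ _ hP => h5 P ?_⟩
    have p1 : P (h a) := c1 ▸ hP _ List.mem_cons_self
    exact ⟨fun _ => p1, g5 P p1 ⟨no rfl, e2 P⟩⟩
  | ann A B n hA hB =>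
    obtain ⟨L, a, h1, ⟨c1, h2⟩, h3, h4, h5⟩ := kl2_pas hA hc
    obtain ⟨b, g1, ⟨c2, g2⟩, g3, g4, g5⟩ := kl2_rep h2
    obtain ⟨e1, e2⟩ := kl2_end hB g2
    have c1 : h a = S.dual (f a) := c1
    have c2 : f b = h (b - 1) := c2
    have u1 : _ = L ++ f a :: f b :: labs f (b + 1) (B.map CT.up) :=
      h3.trans (congrArg (fun t => L ++ f a :: t) g3)
    have u2 := h4.trans (congrArg (L ++ ·) (g4.trans e1))
    rw [u1, u2, ← h1, c2, g1, c1]
    refine ⟨[], fun w cs M => Run.ann _ _ _, fun P hP hL _ => h5 P ?_⟩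
    have p1 : P (h a) := c1 ▸ hP.dual _ (hL _ (by simp))
    exact ⟨fun _ => p1, g5 P p1 ⟨no rfl, e2 P⟩⟩
  | ov A B n n' hA hB =>
    obtain ⟨L, a, h1, ⟨c1, h2⟩, h3, h4, h5⟩ := kl2_pas hA hc
    obtain ⟨b, g1, ⟨⟨c2, c3, -⟩, g2⟩, g3, g4, g5⟩ := kl2_rep h2
    obtain ⟨d, k1, ⟨c4, k2⟩, k3, k4, k5⟩ := kl2_rep g2
    obtain ⟨e1, e2⟩ := kl2_end hB k2
    have c1 : g a = h a := c1
    have c4 : f d = h (d - 1) := c4
    have u1 : _ = L ++ f b :: f d :: labs f (d + 1) (B.map CT.up) :=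
      h3.trans (congrArg (L ++ ·) (g3.trans (congrArg (f b :: ·) k3)))
    have u2 := h4.trans (congrArg (fun t => L ++ g a :: t)
      (g4.trans (congrArg (g b :: ·) (k4.trans e1))))
    have c5 : h a = S.o (f b) (f d) := by rw [← g1, c3, c2, c4, k1]
    rw [u1, u2, ← h1, c1, c5, ← c2]
    refine ⟨[], fun w cs M => Run.ov _ _ _ _, fun P hP hL _ => h5 P ?_⟩
    have p1 : P (h a) := c5 ▸ hP.o _ _ (hL _ (by simp)) (hL _ (by simp))
    have p2 : P (h b) := by
      rw [← k1, ← c4]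
      exact hL _ (by simp)
    exact ⟨fun _ => p1, g5 P p1 ⟨fun _ => p2, k5 P p2 ⟨no rfl, e2 P⟩⟩⟩
  | un A B n n' hA hB =>
    obtain ⟨L, a, h1, ⟨c1, h2⟩, h3, h4, h5⟩ := kl2_pas hA hc
    obtain ⟨b, g1, ⟨⟨c2, -, c3⟩, g2⟩, g3, g4, g5⟩ := kl2_rep h2
    obtain ⟨d, k1, ⟨c4, k2⟩, k3, k4, k5⟩ := kl2_rep g2
    obtain ⟨e1, e2⟩ := kl2_end hB k2
    have c1 : h a = S.dual (f a) := c1
    have c4 : g d = S.dual (h (d - 1)) := c4
    have u1 : _ = L ++ f a :: f b :: labs f (d + 1) (B.map CT.up) :=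
      h3.trans (congrArg (fun t => L ++ f a :: t) (g3.trans (congrArg (f b :: ·) k3)))
    have u2 := h4.trans (congrArg (L ++ ·) (g4.trans (congrArg (g b :: ·)
      (k4.trans (congrArg (g d :: ·) e1)))))
    have c5 : S.dual (h b) = S.u (f a) (f b) := by rw [c3, g1, c1, hS, c2]
    rw [u1, u2, ← h1, c4, k1, c5, ← c2]
    refine ⟨[], fun w cs M => Run.un _ _ _ _, fun P hP hL _ => h5 P ?_⟩
    have p1 : P (h a) := c1 ▸ hP.dual _ (hL _ (by simp))
    have p2 : P (h b) := by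
      rw [← hS (h b), c5]
      exact hP.dual _ (hP.u _ _ (hL _ (by simp)) (hL _ (by simp)))
    exact ⟨fun _ => p1, g5 P p1 ⟨fun _ => p2, k5 P p2 ⟨no rfl, e2 P⟩⟩⟩

end

theorem kl2_out {rows : List (List CT)} {i k : ℤ} (h : tyOf rows i k ≠ .E) : 0 < i ∧ 0 < k :=
  by_contra fun hn => h (if_neg hn)

theorem kl2_one (r : List CT) (rows : List (List CT)) (n : ℕ) :
    tyOf (r :: rows) (1 + n) 1 = r.getD n .E := by
  rw [tyOf, if_pos ⟨by omega, one_pos⟩]
  simp

theorem kl2_shift {α : Type} {S : Sys α} {r : List CT} {rows : List (List CT)} {v h : ℤ → ℤ → α}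
    (he : ELab S (tyOf (r :: rows)) v h) :
    ELab S (tyOf rows) (fun i k => v i (k + 1)) fun i k => h i (k + 1) := by
  have key : ∀ {i k : ℤ} {t : CT}, t ≠ .E → tyOf rows i k = t → tyOf (r :: rows) i (k + 1) = t :=
    fun ht e => (tyOf_cons r rows _ (kl2_out (e ▸ ht)).2).trans e
  have e : ∀ k : ℤ, k - 1 + 1 = k + 1 - 1 := fun k => by ring
  refine ⟨fun i k ht => ?_, fun i k ht => he.eH _ _ (key (by simp) ht), fun i k ht => ?_,
    fun i k ht => he.eDR _ _ (key (by simp) ht), fun i k ht => he.eDL _ _ (key (by simp) ht),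
    fun i k ht => ?_, fun i k ht => ?_⟩ <;> rw [e]
  exacts [he.eV _ _ (key (by simp) ht), he.eX _ _ (key (by simp) ht), he.eUR _ _ (key (by simp) ht),
    he.eUL _ _ (key (by simp) ht)]

theorem lay_run {α : Type} {S : Sys α} (hS : ∀ x, S.dual (S.dual x) = x) {top : List Bool}
    {w : Word} {rows : List (List CT)} (hl : Lay top w rows) {v h : ℤ → ℤ → α}
    (he : ELab S (tyOf rows) v h) : ∃ cs, Run S (labs (fun i => v i 0) 1 top) w cs [] ∧
      ∀ P : α → Prop, S.Closed P → (∀ x ∈ labs (fun i => v i 0) 1 top, P x) → (∀ c ∈ cs, P c) →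
        ∀ i k, ((tyOf rows i k).dn = true → P (v i k)) ∧ ((tyOf rows i k).rt = true → P (h i k)) := by
  induction hl generalizing v h with
  | nil top ht =>
    have e : labs (fun i => v i 0) 1 top = [] := List.eq_nil_iff_forall_not_mem.2 fun x hx => by
      obtain ⟨n, hn, -⟩ := (mem_labs _ _ _ _).1 hx
      rcases lt_or_ge n top.length with h | h
      · rw [List.getD_eq_getElem _ _ h, ht _ (List.getElem_mem h)] at hn
        exact Bool.false_ne_true hn
      · rw [List.getD_eq_default _ _ h] at hn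
        exact Bool.false_ne_true hn
    rw [e]
    exact ⟨[], Run.nil _, fun P _ _ _ i k => by simp [tyOf, CT.dn, CT.rt]⟩
  | @cons g r w rows hr _ ih =>
    obtain ⟨cs, h1, h2⟩ := ih (kl2_shift he)
    have hc : kl2R (kl2C S (fun i => v i 0) (fun i => v i 1) fun i => h i 1) 1 r :=
      (kl2_iff (fun _ => trivial) _ _).2 fun n => by
        rw [← kl2_one r rows]
        cases ht : tyOf (r :: rows) (1 + n) 1
        exacts [trivial, he.eV _ _ ht, he.eH _ _ ht, he.eX _ _ ht, he.eUL _ _ ht, he.eUR _ _ ht,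
          he.eDL _ _ ht, he.eDR _ _ ht]
    obtain ⟨c, h3, h4⟩ := kl2_row hS hr hc
    refine ⟨c ++ cs, h3 _ _ _ h1, fun P hP hL hcs i k => ?_⟩
    have hc1 : ∀ x ∈ c, P x := fun x hx => hcs x (List.mem_append_left _ hx)
    have hb := (h3 _ _ _ (Run.nil _)).all hP hL (by rwa [List.append_nil])
    by_cases ht : tyOf (r :: rows) i k = .E
    · rw [ht]
      simp [CT.dn, CT.rt]
    obtain ⟨hi, hk⟩ := kl2_out ht
    rcases (show k = 1 ∨ 0 < k - 1 by omega) with rfl | hk'
    · obtain ⟨n, rfl⟩ : ∃ n : ℕ, i = 1 + n := ⟨(i - 1).toNat, by omega⟩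
      rw [kl2_one]
      refine ⟨fun e => hb _ ((mem_labs _ _ _ _).2 ⟨n, ?_, rfl⟩),
        (kl2_iff (fun _ e => by simp [CT.rt] at e) _ _).1 (h4 P hP hL hc1) n⟩
      rw [← e]
      exact List.getD_map r .E CT.dn
    · have := h2 P hP hb (fun x hx => hcs x (List.mem_append_right _ hx)) i (k - 1)
      rwa [← tyOf_cons r rows i hk', sub_add_cancel] at this

theorem close_run {α : Type} {S : Sys α} {T : Word} (hT : IsKnot T) {cs : List α}
    (h : Run S [] (close T) cs []) : ∃ x cs' M, cs = x :: cs' ∧ Run S [x] T cs' M := by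
  obtain ⟨x, cs', rfl, h1⟩ := (Run.cre_iff [] [] rfl).1 h
  obtain ⟨M, c1, c2, rfl, h2, h3⟩ := h1.split
  obtain rfl : c2 = [] := List.eq_nil_of_length_eq_zero h3.count.1
  obtain ⟨M', -, h4⟩ := Run.of_suffix (L := [x]) [S.dual x] hT.width h2
  exact ⟨x, _, M', rfl, by rwa [List.append_nil]⟩

theorem lay_close {α : Type} {S : Sys α} (hS : ∀ x, S.dual (S.dual x) = x) {T : Word}
    (hT : IsKnot T) {top : List Bool} {rows : List (List CT)} (hl : Lay top (close T) rows)
    (h0 : top.count true = 0) {v h : ℤ → ℤ → α} (he : ELab S (tyOf rows) v h) :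
    ∃ x cs M, Run S [x] T cs M ∧ ∀ P : α → Prop, S.Closed P → P x → (∀ c ∈ cs, P c) →
      ∀ i k, ((tyOf rows i k).dn = true → P (v i k)) ∧ ((tyOf rows i k).rt = true → P (h i k)) := by
  obtain ⟨cs, h1, h2⟩ := lay_run hS hl he
  have e : labs (fun i => v i 0) 1 top = [] := List.eq_nil_iff_forall_not_mem.2 fun x hx => by
    obtain ⟨n, hn, -⟩ := (mem_labs _ _ _ _).1 hx
    rcases lt_or_ge n top.length with h | h
    · rw [List.getD_eq_getElem _ _ h] at hn
      exact List.count_eq_zero.1 h0 (hn ▸ List.getElem_mem h)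
    · rw [List.getD_eq_default _ _ h] at hn
      exact Bool.false_ne_true hn
  rw [e] at h1 h2
  obtain ⟨x, cs', M, rfl, h3⟩ := close_run hT h1
  exact ⟨x, cs', M, h3, fun P hP hx hc => h2 P hP (by simp) (List.forall_mem_cons.2 ⟨hx, hc⟩)⟩

end KG
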