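import Pool.Agent.Work.MP_c146e2_gt.KG.KR1
import Pool.Agent.Work.MP_c146e2_gt.F5

/-! The local tensor that relates the shadow model to the doubled model. -/

set_option autoImplicit false

namespace KG

open RankGenus RankGenus.Kind

/-- A bond `(x, y, r)` holds the two charges of the doubled model and the colour of the region. -/
def exM : B3 → B3 → List (Cy × B3)
  | (false, false, false), (false, false, false) =>
      [(⟨1, 0, 0, 0⟩, (false, false, false)),
        (⟨0, 0, -1, -1⟩, (true, true, true))]
  | (false, false, false), (true, true, false) =>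
      [(⟨0, 0, -1, -1⟩, (false, false, false)),
        (⟨-1, 0, 0, 0⟩, (true, true, true))]
  | (false, false, false), (true, true, true) =>
      [(⟨0, 1, 0, -1⟩, (true, true, true))]
  | (false, true, true), (false, true, true) =>
      [(⟨1, 0, 0, 0⟩, (false, false, true)),
        (⟨0, 1, 1, 1⟩, (true, true, false)),
        (⟨-1, -2, -1, 0⟩, (true, true, true))]
  | (false, true, true), (true, false, true) =>
      [(⟨1, 0, 0, 0⟩, (false, false, true)),
        (⟨-1, -1, 0, 0⟩, (true, true, false)),
        (⟨1, 2, 2, 1⟩, (true, true, true))]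
  | (false, true, true), (true, true, false) =>
      [(⟨0, -2, -2, -1⟩, (true, true, true))]
  | (false, true, true), (true, true, true) =>
      [(⟨1, 0, 0, 0⟩, (false, false, true)),
        (⟨0, 0, -1, -1⟩, (true, true, false)),
        (⟨1, 0, 0, 0⟩, (true, true, true))]
  | (true, false, true), (false, true, true) =>
      [(⟨1, 0, 0, 0⟩, (false, true, false)),
        (⟨-1, -1, 0, 0⟩, (true, false, true)),
        (⟨1, 2, 2, 1⟩, (true, true, true))]
  | (true, false, true), (true, false, true) =>
      [(⟨1, 0, 0, 0⟩, (false, true, false)),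
        (⟨0, 1, 1, 1⟩, (true, false, true)),
        (⟨-1, -2, -1, 0⟩, (true, true, true))]
  | (true, false, true), (true, true, false) =>
      [(⟨0, -2, -2, -1⟩, (true, true, true))]
  | (true, false, true), (true, true, true) =>
      [(⟨1, 0, 0, 0⟩, (false, true, false)),
        (⟨0, 0, -1, -1⟩, (true, false, true)),
        (⟨1, 0, 0, 0⟩, (true, true, true))]
  | (true, true, false), (false, false, false) =>
      [(⟨1, 0, 0, 0⟩, (false, true, true)),
        (⟨1, 0, -1, -1⟩, (true, false, false)),
        (⟨0, 0, -1, -1⟩, (true, true, true))]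
  | (true, true, false), (true, true, false) =>
      [(⟨0, 0, -1, -1⟩, (false, true, true)),
        (⟨0, 0, 1, 1⟩, (true, false, false)),
        (⟨-1, 0, 0, 0⟩, (true, true, true))]
  | (true, true, false), (true, true, true) =>
      [(⟨2, 1, 1, 1⟩, (true, false, true)),
        (⟨2, 1, 1, 1⟩, (true, true, false)),
        (⟨-2, -1, -1, -1⟩, (true, true, true))]
  | (true, true, true), (false, true, true) =>
      [(⟨1, 0, 0, 0⟩, (false, true, true)),
        (⟨1, 1, 1, 1⟩, (true, false, true)),
        (⟨0, -1, 0, 0⟩, (true, true, false)),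
        (⟨-1, 0, 0, 0⟩, (true, true, true))]
  | (true, true, true), (true, false, true) =>
      [(⟨1, 0, 0, 0⟩, (false, true, true)),
        (⟨0, -1, 0, 0⟩, (true, false, true)),
        (⟨1, 1, 1, 1⟩, (true, true, false)),
        (⟨-1, 0, 0, 0⟩, (true, true, true))]
  | (true, true, true), (true, true, false) =>
      [(⟨0, -2, -2, -1⟩, (true, false, false)),
        (⟨-1, 1, 0, 0⟩, (true, true, true))]
  | (true, true, true), (true, true, true) =>
      [(⟨1, 0, 0, 0⟩, (false, true, true)),
        (⟨2, 0, 1, 1⟩, (true, false, true)),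
        (⟨2, 0, 1, 1⟩, (true, true, false)),
        (⟨-2, 0, -2, -2⟩, (true, true, true))]
  | _, _ => []

def nb (t d : B3) : B3 := (d.2.1, d.2.2, t.2.2)

def okB (b : B3) : Bool := adm b.1 b.2.1 b.2.2

/-- The letters of the doubled model and the last bond. -/
def exsM : B3 → List B3 → List (Cy × B3 × List B3)
  | b, [] => [(1, b, [])]
  | b, t :: c => (exM b t).flatMap fun p =>
      (exsM (nb t p.2) c).map fun q => (p.1 * q.1, q.2.1, p.2 :: q.2.2)

def nz {β : Type} (L : List (Cy × β)) : List (Cy × β) := L.filter fun p => p.1 != 0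

def kmL (k : Kind) (b : B3) (a : List B3) : List (Cy × B3 × List B3) :=
  (exsM b a).flatMap fun p =>
    ((sysD.rule k (ab b) p.2.2).map fun q => (q.1, p.2.1, q.2)).map fun q => (p.1 * q.1, q.2)

def kmR (k : Kind) (b : B3) (a : List B3) : List (Cy × B3 × List B3) :=
  (nz (ruleT k b.2.2 a)).flatMap fun p => (exsM b p.2).map fun q => (p.1 * q.1, q.2)

def uK (k : Kind) : Cy := if k = cre then Cy.D2 else 1

def vK (k : Kind) : Cy := if k = ann then Cy.D2 else 1

/-- Add a term to a formal sum. -/
def insK {β : Type} [DecidableEq β] (x : Cy) (k : β) : List (Cy × β) → List (Cy × β)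
  | [] => [(x, k)]
  | q :: t => if k = q.2 then (x + q.1, k) :: t else q :: insK x k t

def zeroB {β : Type} [DecidableEq β] (L : List (Cy × β)) : Bool :=
  (L.foldr (fun p M => insK p.1 p.2 M) []).all fun p => p.1 == 0

def kmB (k : Kind) (b : B3) : Bool := (allL eB3 k.inn).all fun a =>
  zeroB ((kmL k b a).map (fun q => (uK k * q.1, q.2)) ++
    (kmR k b a).map fun q => (-vK k * q.1, q.2))

theorem pair_insK {β : Type} [DecidableEq β] (x : Cy) (k : β) (L : List (Cy × β)) (f : β → Cy) :
    pair (insK x k L) f = x * f k + pair L f := by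
  induction L with
  | nil => simp [insK]
  | cons q t ih =>
    rw [insK]
    split_ifs with h
    · rw [pair_cons, pair_cons, ← h]
      ring
    · rw [pair_cons, pair_cons, ih]
      ring

theorem pair_of_zeroB {β : Type} [DecidableEq β] {L : List (Cy × β)} (h : zeroB L = true)
    (f : β → Cy) : pair L f = 0 := by
  have h1 : ∀ L : List (Cy × β), pair (L.foldr (fun p M => insK p.1 p.2 M) []) f = pair L f := by
    intro L
    induction L with
    | nil => rfl
    | cons p t ih => rw [List.foldr_cons, pair_insK, ih, pair_cons]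
  rw [← h1]
  refine List.sum_eq_zero fun x hx => ?_
  obtain ⟨p, hp, rfl⟩ := List.mem_map.1 hx
  rw [eq_of_beq (List.all_eq_true.1 h p hp), zero_mul]

theorem km_ok : ∀ b ∈ eB3, ∀ t ∈ eB3, ∀ p ∈ exM b t, okB (nb t p.2) = true := by decide +kernel

theorem km_ca : ∀ k ∈ [cre, ann], ∀ b ∈ eB3, okB b = true → kmB k b = true := by decide +kernel

/-! The fast form of the test `kmB`. -/

section
open RankGenus.N5

def kfEnc (t : B3 × List B3) : ℕ := encL (t.1 :: t.2)

theorem kfEnc_inj : Function.Injective kfEnc := fun _ _ h =>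
  Prod.ext (List.cons.inj (encL_inj h)).1 (List.cons.inj (encL_inj h)).2

noncomputable def kfNf {δ : Type} (t : B3 × List B3) (k : B3 × List B3 → δ) : δ :=
  Prod.rec (fun x c => nf3 x fun x => nfL c fun c => k (x, c)) t

theorem kfNf_eq {δ : Type} (t : B3 × List B3) (k : B3 × List B3 → δ) : kfNf t k = k t :=
  (nf3_eq t.1 fun x => nfL t.2 fun c => k (x, c)).trans (nfL_eq _ _)

def kfZ (x : ℤ × ℤ) : Bool := Nat.beq (Nat.add x.1.natAbs x.2.natAbs) 0

theorem kfZ_eq {x : ℤ × ℤ} (h : kfZ x = true) : x = (0, 0) := by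
  have := Nat.eq_of_beq_eq_true h
  simp only [Nat.add_eq] at this
  exact Prod.ext (by simp only; omega) (by simp only; omega)

theorem kf_g1P {L : List (ℤ × ℤ)} (h : (0, 0) ∈ L) : g1P L = (0, 0) := by
  induction L with
  | nil => cases h
  | cons x t ih =>
    have e : g1P (x :: t) = g1M x (g1P t) := rfl
    rcases List.mem_cons.1 h with rfl | h
    · simp [e, g1M]
    · simp [e, ih h, g1M]

/-- `g1Y` with an early exit. -/
def kfY (U D L R : B2) (nw ne sw se s : Bool) : ℤ × ℤ :=
  cond (U.1 == D.1 && (L.2 == R.2 && !(kfZ (g1T s U.1 U.2 L.1 L.2 nw) ||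
    (kfZ (g1T s U.1 U.2 R.1 L.2 ne) || (kfZ (g1T s U.1 D.2 L.1 L.2 sw) ||
      kfZ (g1T s U.1 D.2 R.1 L.2 se))))))
    (g1Y U D L R nw ne sw se s) (0, 0)

theorem kfY_eq (U D L R : B2) (nw ne sw se s : Bool) :
    kfY U D L R nw ne sw se s = g1Y U D L R nw ne sw se s := by
  rw [kfY, Bool.cond_eq_ite]
  split_ifs with h
  · rfl
  · rw [g1Y]
    split_ifs with h'
    · rw [← Bool.and_assoc, h', Bool.true_and, Bool.not_eq_true', Bool.not_eq_false] at h
      simp only [Bool.or_eq_true] at h
      refine (kf_g1P ?_).symm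
      rcases h with h | h | h | h <;> simp [kfZ_eq h]
    · rfl

def kfT (U D L R : B2) (nw ne sw se : Bool) (M : List (ℤ × ℤ)) (c : List B3) :
    List (Cy × List B3) :=
  cond (kfZ (g1A (kfY U D L R nw ne sw se false) (kfY U D L R nw ne sw se true))) []
    [(toCy (g1P (g1A (kfY U D L R nw ne sw se false) (kfY U D L R nw ne sw se true) :: M)), c)]

theorem pair_kfT (U D L R : B2) (nw ne sw se : Bool) (M : List (ℤ × ℤ)) (c : List B3)
    (f : List B3 → Cy) : pair (kfT U D L R nw ne sw se M c) f =
      toCy (g1P (g1X U D L R nw ne sw se :: M)) * f c := by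
  rw [kfT, kfY_eq, kfY_eq, ← g1X]
  cases h : kfZ (g1X U D L R nw ne sw se)
  · simp
  · rw [kf_g1P (by simp [kfZ_eq h]), show toCy (0, 0) = 0 from rfl]
    simp

/-- `ruleT` without most of its vanishing terms. -/
def kfR : Kind → Bool → List B3 → List (Cy × List B3)
  | ov, l, [s, t] => eB3.flatMap fun p => eB2.flatMap fun q =>
      kfT (ab s) q (ab p) (ab t) l s.2.2 p.2.2 t.2.2 [g1w (ab p), g1w q, g1d p.2.2]
        [p, (q.1, q.2, t.2.2)]
  | un, l, [s, t] => eB3.flatMap fun p => eB2.flatMap fun q =>
      kfT (ab t) (ab p) (ab s) q s.2.2 t.2.2 l p.2.2 [g1w (ab p), g1w q, g1d p.2.2]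
        [p, (q.1, q.2, t.2.2)]
  | k, l, a => ruleT k l a

theorem kf_flat {α β : Type} (L : List α) (g : α → List (Cy × β)) (f : β → Cy) :
    pair (L.flatMap g) f = (L.map fun a => pair (g a) f).sum := by
  induction L with
  | nil => rfl
  | cons a t ih => rw [List.flatMap_cons, pair_append, ih, List.map_cons, List.sum_cons]

theorem pair_kfR (k : Kind) (l : Bool) (a : List B3) (f : List B3 → Cy) :
    pair (kfR k l a) f = pair (ruleT k l a) f := by
  unfold kfR
  split
  · simp only [ruleT, kf_flat, pair_kfT]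
    simp only [pair, List.map_map, Function.comp_def]
  · simp only [ruleT, kf_flat, pair_kfT]
    simp only [pair, List.map_map, Function.comp_def]
  · rfl

noncomputable def kmF (k : Kind) (x y r : Bool) : Bool := (allL eB3 k.inn).all fun a =>
  nfL a fun a =>
    (bind kfEnc kfNf (fun t => (sysD.rule k (x, y) t.2).map fun q => (q.1, t.1, q.2))
      (insM kfEnc kfNf (of (uK k)) (exsM (x, y, r) a) [])
      (bind kfEnc kfNf (exsM (x, y, r)) (insM encL nfL (of (-vK k)) (kfR k r a) []) [])).all
      fun p => isZ p.1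

section
variable {β : Type} [DecidableEq β]

theorem kf_keys (x : Cy) (k : β) (L : List (Cy × β)) (c : β) :
    c ∈ (insK x k L).map Prod.snd ↔ c = k ∨ c ∈ L.map Prod.snd := by
  induction L with
  | nil => simp [insK]
  | cons q t ih =>
    rw [insK]
    split_ifs with h
    · simp [h]
    · simp only [List.map_cons, List.mem_cons, ih]
      tauto

theorem kf_nodup (x : Cy) (k : β) (L : List (Cy × β)) (h : (L.map Prod.snd).Nodup) :
    ((insK x k L).map Prod.snd).Nodup := by
  induction L with
  | nil => simp [insK]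
  | cons q t ih =>
    rw [List.map_cons, List.nodup_cons] at h
    rw [insK]
    split_ifs with e
    · rw [List.map_cons, List.nodup_cons, e]
      exact h
    · rw [List.map_cons, List.nodup_cons, kf_keys]
      exact ⟨fun h' => h'.elim (fun h' => e h'.symm) h.1, ih h.2⟩

theorem kf_coef {L : List (Cy × β)} (h : (L.map Prod.snd).Nodup) {p : Cy × β} (hp : p ∈ L) :
    pair L (fun b => if b = p.2 then 1 else 0) = p.1 := by
  induction L with
  | nil => cases hp
  | cons q t ih =>
    rw [List.map_cons, List.nodup_cons] at h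
    rw [pair_cons]
    rcases List.mem_cons.1 hp with rfl | hp
    · rw [if_pos rfl, mul_one, pair_congr (g := fun _ => 0) fun q hq =>
        if_neg fun e : q.2 = p.2 => h.1 (List.mem_map.2 ⟨q, hq, e⟩), pair_zero, add_zero]
    · rw [if_neg fun e : q.2 = p.2 => h.1 (List.mem_map.2 ⟨p, hp, e.symm⟩), mul_zero, zero_add,
        ih h.2 hp]

theorem kf_zeroB {L : List (Cy × β)} (h : ∀ f, pair L f = 0) : zeroB L = true := by
  have h1 : ∀ L : List (Cy × β), ((L.foldr (fun p M => insK p.1 p.2 M) []).map Prod.snd).Nodup ∧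
      ∀ f, pair (L.foldr (fun p M => insK p.1 p.2 M) []) f = pair L f := by
    intro L
    induction L with
    | nil => exact ⟨List.nodup_nil, fun _ => rfl⟩
    | cons p t ih =>
      exact ⟨kf_nodup _ _ _ ih.1, fun f => by rw [List.foldr_cons, pair_insK, ih.2, pair_cons]⟩
  exact List.all_eq_true.2 fun p hp => beq_iff_eq.2 (by rw [← kf_coef (h1 L).1 hp, (h1 L).2, h])

theorem kf_nz {β : Type} (L : List (Cy × β)) (f : β → Cy) : pair (nz L) f = pair L f := by
  induction L with
  | nil => rfl
  | cons p L ih =>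
    rw [nz, List.filter_cons]
    split_ifs with h
    · rw [pair_cons, pair_cons, ← ih, nz]
    · rw [pair_cons, ← ih, nz, show p.1 = 0 by simpa using h, zero_mul, zero_add]

end

theorem kmB_of {k : Kind} {x y r : Bool} (h : kmF k x y r = true) : kmB k (x, y, r) = true := by
  refine List.all_eq_true.2 fun a ha => kf_zeroB fun f => ?_
  have h1 := List.all_eq_true.1 h a ha
  rw [nfL_eq] at h1
  have h2 := pr_isZ h1 f
  rw [pr_bind kfEnc_inj kfNf_eq, pr_bind kfEnc_inj kfNf_eq, pr_insM kfEnc_inj kfNf_eq,
    pr_insM encL_inj nfL_eq, ev_of, ev_of, pair_kfR] at h2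
  rw [pair_append, ls_scale, ls_scale, kmL, pair_bind (exsM (x, y, r) a)
    fun p => (sysD.rule k (ab (x, y, r)) p.2).map fun q => (q.1, p.1, q.2), kmR,
    pair_bind _ (exsM (x, y, r)), kf_nz]
  simpa [ab] using h2

theorem km_of {k : Kind} (h : (kmF k false false false && (kmF k false true true &&
    (kmF k true false true && (kmF k true true false && kmF k true true true)))) = true) :
    ∀ b ∈ eB3, okB b = true → kmB k b = true := by
  simp only [Bool.and_eq_true] at h
  rintro ⟨_ | _, _ | _, _ | _⟩ - hb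
  exacts [kmB_of h.1, absurd hb (by decide), absurd hb (by decide), kmB_of h.2.1,
    absurd hb (by decide), kmB_of h.2.2.1, kmB_of h.2.2.2.1, kmB_of h.2.2.2.2]

end

end KG
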