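import Pool.Agent.Work.MP_c146e2_gt.KG.KL0
import Pool.Agent.Work.MP_c146e2_gt.KG.GridEqs
import Pool.Agent.Work.MP_c146e2_gt.KG.G1
import Pool.Agent.Work.MP_c146e2_gt.LSb
import Pool.Agent.Work.MP_c146e2_gt.KG.G6
import Pool.Agent.Work.MP_c146e2_gt.Tab
import Pool.Agent.Work.MP_c146e2_gt.KG.KL1

-- merged part: Pool.Agent.Work.MP_c146e2_gt.KG.KS0
section
set_option autoImplicit false

noncomputable section

open scoped Classical

namespace KG

variable {V V' : Type}

open RankGenus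

abbrev BB : Type := Bool × Bool

abbrev Z3 : Type := ℤ × ℤ × ℤ

def ddC (a : Bool) : Cy := if a then Cy.ph else 1

def diC (a : Bool) : Cy := if a then Cy.phi else 1

def thC (a b c : Bool) : Cy := if a || b || c then Cy.phi else 1

def ttC (ab ac ad bc bd cd : Bool) : Cy :=
  if adm ab ac bc && adm ab ad bd && adm ac ad cd && adm bc bd cd then
    (if ab && ac && ad && bc && bd && cd then -1
      else if ab || ac || ad || bc || bd || cd then Cy.ph else 1)
  else 0

/-- A face with label `u.1`. -/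
def wF (u : BB) : Cy := if u.2 then 0 else ddC u.1

def indE (act : Bool) (u : BB) (r r' : Bool) : Bool :=
  if act then adm u.1 u.2 r && adm u.1 u.2 r' else !u.1 && !u.2 && r == r'

/-- An edge between faces with labels `r`, `r'`; on a strand `u` is the pair of colours towards
the upper and the lower half space. -/
def wE (act : Bool) (u : BB) (r r' : Bool) : Cy :=
  if indE act u r r' then
    (if act then ddC u.1 * ddC u.2 * (thC u.1 u.2 r * thC u.1 u.2 r') else diC r)
  else 0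

def wS (u a b : BB) : Cy := if !u.1 && !u.2 && a == b then (if a.1 == a.2 then 1 else Cy.ph) else 0

/-- A lattice point with label `u`, edge labels up, down, left, right and four face labels. -/
def wV (t : CT) (u U D L R : BB) (nw ne sw se : Bool) : Cy :=
  match t with
  | .E => if !u.1 && !u.2 then ddC nw else 0
  | .V => wS u U D
  | .H => wS u L R
  | .UL => wS u U L
  | .UR => wS u U R
  | .DL => wS u D L
  | .DR => wS u D R
  | .X => if !u.2 && U.1 == D.1 && L.2 == R.2 then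
      ddC u.1 * diC U.1 * diC L.2 * (thC u.1 U.1 L.1 * thC u.1 U.1 R.1) *
        (thC u.1 U.2 L.2 * thC u.1 D.2 L.2) *
        (ttC u.1 U.1 U.2 L.1 L.2 nw * ttC u.1 U.1 U.2 R.1 L.2 ne) *
        (ttC u.1 U.1 D.2 L.1 L.2 sw * ttC u.1 U.1 D.2 R.1 L.2 se)
    else 0

/-- The weight of the cell `(x, z)` of the plane. -/
def wB (ty : ℤ → ℤ → CT) (val : ℤ → ℤ → BB) (x z : ℤ) : Cy :=
  if x % 2 = 0 then
    if z % 2 = 0 then
      wV (ty (x / 2) (z / 2)) (val x z) (val x (z - 1)) (val x (z + 1)) (val (x - 1) z)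
        (val (x + 1) z) (val (x - 1) (z - 1)).1 (val (x + 1) (z - 1)).1 (val (x - 1) (z + 1)).1
        (val (x + 1) (z + 1)).1
    else wE (ty (x / 2) (z / 2)).dn (val x z) (val (x - 1) z).1 (val (x + 1) z).1
  else if z % 2 = 0 then wE (ty (x / 2) (z / 2)).rt (val x z) (val x (z - 1)).1 (val x (z + 1)).1
  else wF (val x z)

def extV {N L : ℕ} (v : Fin (2 * L + 3) → Fin (2 * N + 3) → BB) (x z : ℤ) : BB :=
  if h : 0 ≤ x ∧ x.toNat < 2 * N + 3 ∧ 0 ≤ z ∧ z.toNat < 2 * L + 3 then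
    v ⟨z.toNat, h.2.2.2⟩ ⟨x.toNat, h.2.1⟩
  else (false, false)

def shadow (N L : ℕ) (ty : ℤ → ℤ → CT) : Cy :=
  ∑ v : Fin (2 * L + 3) → Fin (2 * N + 3) → BB,
    ∏ z : Fin (2 * L + 3), ∏ x : Fin (2 * N + 3), wB ty (extV v) (x : ℕ) (z : ℕ)

/-! The colouring given by labels. -/

/-- The type of the stack of cells over `(x, z)`. -/
def stk (ty : ℤ → ℤ → CT) (x z : ℤ) : CT :=
  if x % 2 = 0 then
    if z % 2 = 0 then ty (x / 2) (z / 2) else if (ty (x / 2) (z / 2)).dn then .V else .E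
  else if z % 2 = 0 then (if (ty (x / 2) (z / 2)).rt then .H else .E) else .E

/-- Classes of cells: `0` below, `1` above, `2` on the link, `3` inside a crossing, `4` the over
strand of a crossing. -/
def kl (t : CT) (y : ℤ) : ℕ :=
  match t with
  | .E => if y ≤ 2 then 0 else 1
  | .V => if y ≤ 3 then 0 else if y = 4 then 2 else 1
  | .H => if y ≤ 1 then 0 else if y = 2 then 2 else 1
  | .X => if y ≤ 1 then 0 else if y = 2 then 2 else if y = 3 then 3 else if y = 4 then 4 else 1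
  | _ => if y ≤ 1 then 0 else if y ≤ 4 then 2 else 1

def odd1 (x : ℤ) : ℤ := if x % 2 = 0 then x + 1 else x

/-- The label that gives the colour of the edge `c < e` with stack types `t`, `t'`. -/
def nm0 (t t' : CT) (c e : Z3) : Option (ℤ × ℤ × Bool) :=
  let A := kl t c.2.1
  let B := kl t' e.2.1
  if A ≤ 1 ∧ B ≤ 1 then (if A = B then none else some (odd1 e.1, odd1 e.2.2, false))
  else if 2 ≤ B then (if A = 4 ∧ B = 3 then some (c.1, c.2.2, false) else none)
  else if (c.1 + c.2.2) % 2 = 1 then some (c.1, c.2.2, B == 0)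
  else match t with
    | .X => if A = 4 then (if B = 0 then some (c.1, e.2.2, true) else some (c.1, c.2.2 - 1, false))
        else if B = 0 then some (c.1 - 1, c.2.2, true) else some (e.1, c.2.2, false)
    | .H => some (c.1 - 1, c.2.2, B == 0)
    | _ => if t.up then some (c.1, c.2.2 - 1, B == 0) else some (c.1, c.2.2 + 1, B == 0)

def nm (s : ℤ → ℤ → CT) (c e : Z3) : Option (ℤ × ℤ × Bool) := nm0 (s c.1 c.2.2) (s e.1 e.2.2) c e

def lab (val : ℤ → ℤ → BB) : Option (ℤ × ℤ × Bool) → Bool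
  | none => false
  | some n => if n.2.2 then (val n.1 n.2.1).2 else (val n.1 n.2.1).1

def cz (s : ℤ → ℤ → CT) (val : ℤ → ℤ → BB) (c e : Z3) : Bool := lab val (nm s c e)

def nbz (x : ℤ) : List ℤ := if x % 2 = 0 then [x, x - 1, x + 1] else [x]

/-- The cells strictly above `c`, with no bound on the first and last coordinate. -/
def ups (c : Z3) : List Z3 :=
  ((nbz c.1).flatMap fun x => (nbz c.2.1).flatMap fun y => (nbz c.2.2).map fun z => (x, y, z)).filter
    fun e => decide (e ≠ c ∧ 0 ≤ e.2.1 ∧ e.2.1 ≤ 6)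

/-- The weight of all chains with least element `a`. -/
def LW (col : Z3 → Z3 → Bool) (a : Z3) : Cy :=
  ((ups a).map fun e => ddC (col a e) * ((ups e).map fun f =>
    (if adm (col a e) (col a f) (col e f) then thC (col a e) (col a f) (col e f) else 0) *
      ((ups f).map fun g =>
        ttC (col a e) (col a f) (col a g) (col e f) (col e g) (col f g)).prod).prod).prod

def LSt (col : Z3 → Z3 → Bool) (x z : ℤ) : Cy :=
  (([0, 1, 2, 3, 4, 5, 6] : List ℤ).map fun y => LW col (x, y, z)).prod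

/-- The labels that are used. -/
def used (s : ℤ → ℤ → CT) (x z : ℤ) (b : Bool) : Bool :=
  if x % 2 = 0 then (if z % 2 = 0 then s x z == .X && !b else s x z == .V)
  else if z % 2 = 0 then s x z == .H else !b

/-- The heights of the edge over `(x, z)` whose colour is the label. -/
def srcH (x : ℤ) (b : Bool) : ℤ × ℤ := if x % 2 = 0 then (4, if b then 3 else 5) else (2, if b then 1 else 3)

def srcY (x z : ℤ) (b : Bool) : ℤ × ℤ := if x % 2 = 0 ∧ z % 2 = 0 then (4, 3) else srcH x b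

def Unu (s : ℤ → ℤ → CT) (val : ℤ → ℤ → BB) (x z : ℤ) : Prop :=
  (used s x z false = false → (val x z).1 = false) ∧ (used s x z true = false → (val x z).2 = false)

section
variable {N L : ℕ}

def inB (N L : ℕ) (c : Z3) : Prop := (0 ≤ c.1 ∧ c.1 ≤ 2 * N + 2) ∧ (0 ≤ c.2.1 ∧ c.2.1 ≤ 6) ∧
  (0 ≤ c.2.2 ∧ c.2.2 ≤ 2 * L + 2)

def parG (ty : ℤ → ℤ → CT) (c : Gr N L) : Gr N L :=
  let e : Z3 := (c.1.1, if kl (stk ty c.1.1 c.1.2.2) c.1.2.1 = 1 then c.1.2.1 + 1 else c.1.2.1 - 1,
    c.1.2.2)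
  if h : inB N L e then ⟨e, h⟩ else c

def AG (N L : ℕ) (ty : ℤ → ℤ → CT) (a b : Gr N L) : Prop :=
  inZ (Uc N L ty)ᶜ a b ∨ par (Uc N L ty) (parG ty) a b

/-- A colouring as a function on all triples. -/
def extC (c : Gr N L → Gr N L → Bool) (a e : Z3) : Bool :=
  if h : inB N L a ∧ inB N L e then c ⟨a, h.1⟩ ⟨e, h.2⟩ else false

def varsZ (ty : ℤ → ℤ → CT) (c : Gr N L → Gr N L → Bool) (x z : ℤ) : BB :=
  (used (stk ty) x z false && extC c (x, (srcY x z false).1, z) (x, (srcY x z false).2, z),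
    used (stk ty) x z true && extC c (x, (srcY x z true).1, z) (x, (srcY x z true).2, z))

def mkC (ty : ℤ → ℤ → CT) (val : ℤ → ℤ → BB) (a e : Gr N L) : Bool :=
  if a < e then cz (stk ty) val a.1 e.1 else if e < a then cz (stk ty) val e.1 a.1 else false

/-- The labels of the faces along the walls vanish. -/
def BdZ (N L : ℕ) (val : ℤ → ℤ → BB) : Prop :=
  ∀ x z, x % 2 = 1 → z % 2 = 1 → (x ≤ 1 ∨ 2 * (N : ℤ) + 1 ≤ x ∨ z ≤ 1 ∨ 2 * (L : ℤ) + 1 ≤ z) →
    (val x z).1 = false

end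

end KG
end
end

-- merged part: Pool.Agent.Work.MP_c146e2_gt.KG.KS1
section
set_option autoImplicit false

noncomputable section

open scoped Classical

namespace KG

variable {V V' : Type}

variable {N L : ℕ} {ty : ℤ → ℤ → CT}

theorem ks1_onK (ty : ℤ → ℤ → CT) (c : Z3) : onK ty c = true ↔
    kl (stk ty c.1 c.2.2) c.2.1 = 2 ∨ kl (stk ty c.1 c.2.2) c.2.1 = 4 := by
  obtain ⟨x, y, z⟩ := c
  simp only [onK, stk]
  generalize ty (x / 2) (z / 2) = t
  by_cases hx : x % 2 = 0 <;> by_cases hz : z % 2 = 0 <;> cases t <;>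
    simp only [hx, hz, if_true, if_false, kl, CT.lf, CT.rt, CT.up, CT.dn, CT.corner, Bool.or_eq_true,
      Bool.and_eq_true, beq_iff_eq, Bool.false_eq_true] <;> (try split_ifs) <;> simp <;> omega

theorem kl_uc (c : Gr N L) (hc : c ∈ inner N L) : c ∈ Uc N L ty ↔
    kl (stk ty c.1.1 c.1.2.2) c.1.2.1 ≠ 2 ∧ kl (stk ty c.1.1 c.1.2.2) c.1.2.1 ≠ 4 := by
  have := ks1_onK ty c.1
  simp only [Uc, Kc, Set.mem_sdiff, Set.mem_ofPred_eq, hc, true_and, this, not_or]

theorem stk_wall (hg : Grid N L ty) {x z : ℤ}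
    (h : x ≤ 1 ∨ 2 * (N : ℤ) + 1 ≤ x ∨ z ≤ 1 ∨ 2 * (L : ℤ) + 1 ≤ z) : stk ty x z = .E := by
  unfold stk
  split_ifs with h1 h2 h3 h4 h5
  · exact hg.out _ _ (by omega)
  · by_cases q : 2 * (L : ℤ) + 1 ≤ z
    · rw [hg.vert, hg.out _ _ (by omega)] at h3
      exact Bool.noConfusion h3
    · rw [hg.out _ _ (by omega)] at h3
      exact Bool.noConfusion h3
  · rfl
  · by_cases q : 2 * (N : ℤ) + 1 ≤ x
    · rw [hg.hor, hg.out _ _ (by omega)] at h5
      exact Bool.noConfusion h5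
    · rw [hg.out _ _ (by omega)] at h5
      exact Bool.noConfusion h5
  · rfl
  · rfl

theorem ks1_up {t : CT} {y : ℤ} (h : kl t y = 1) : kl t (y + 1) = 1 ∧ 3 ≤ y := by
  cases t <;> simp only [kl] at h ⊢ <;> split_ifs at h ⊢ <;> omega

theorem ks1_dn {t : CT} {y : ℤ} (h : kl t y = 0) : kl t (y - 1) = 0 ∧ y ≤ 3 := by
  cases t <;> simp only [kl] at h ⊢ <;> split_ifs at h ⊢ <;> omega

theorem ks1_three {t : CT} {y : ℤ} (h : kl t y = 3) : t = .X ∧ y = 3 := by
  cases t <;> simp only [kl] at h ⊢ <;> split_ifs at h ⊢ <;> first | omega | exact ⟨trivial, by omega⟩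

theorem ks1_le (t : CT) (y : ℤ) : kl t y ≤ 4 := by
  cases t <;> simp only [kl] <;> split_ifs <;> omega

theorem ks1_ends (t : CT) : kl t 0 = 0 ∧ kl t 6 = 1 := by
  cases t <;> exact ⟨rfl, rfl⟩

theorem ks1_E (y : ℤ) : kl .E y ≤ 1 := by
  simp only [kl]
  split_ifs <;> omega

theorem ks1_X {x z : ℤ} (h : stk ty x z = .X) : x % 2 = 0 ∧ z % 2 = 0 := by
  unfold stk at h
  split_ifs at h with h1 h2
  exact ⟨h1, h2⟩

theorem ks1_par (ty : ℤ → ℤ → CT) {c : Gr N L} (h : 0 < c.1.2.1 ∧ c.1.2.1 < 6) :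
    (parG ty c).1 = (c.1.1,
      if kl (stk ty c.1.1 c.1.2.2) c.1.2.1 = 1 then c.1.2.1 + 1 else c.1.2.1 - 1, c.1.2.2) := by
  unfold parG
  have : inB N L (c.1.1,
      if kl (stk ty c.1.1 c.1.2.2) c.1.2.1 = 1 then c.1.2.1 + 1 else c.1.2.1 - 1, c.1.2.2) :=
    ⟨c.2.1, by dsimp only; split_ifs <;> omega, c.2.2.2⟩
  simp only [dif_pos this]

theorem ks1_zle {i j : ℤ} : zle i j ↔ i = j ∨ (i % 2 = 0 ∧ (j = i + 1 ∨ j = i - 1)) := by
  rw [zle, Int.even_iff]

theorem ks1_r {a b : Gr N L} (h : a ≤ b ∨ b ≤ a) : (ord (Gr N L)).r a b := h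

theorem tv_gauge (hm : Man (ord (Gr N L)) (inner N L)) :
    tv (ord (Gr N L)) (Uc N L ty)ᶜ = SS (ord (Gr N L)) (AG N L ty) := by
  have hF : Forest (ord (Gr N L)) Set.univ (Uc N L ty) (parG ty) := by
    refine ⟨fun c => if kl (stk ty c.1.1 c.1.2.2) c.1.2.1 = 1 then (6 - c.1.2.1).toNat
      else c.1.2.1.toNat, fun v hv => ⟨trivial, ?_, fun _ => ?_⟩⟩
    · have h1 := hv.1.2.1
      refine ks1_r ?_
      simp only [Gr.le_iff, ks1_par ty h1, ks1_zle, true_or, true_and, and_true]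
      split_ifs <;> omega
    · have h1 := hv.1.2.1
      simp only [ks1_par ty h1]
      by_cases q : kl (stk ty v.1.1 v.1.2.2) v.1.2.1 = 1
      · simp only [q, if_true, (ks1_up q).1]
        omega
      · have q' : ¬ kl (stk ty v.1.1 v.1.2.2) (v.1.2.1 - 1) = 1 := fun k => q (by
          have := (ks1_up k).1
          rwa [sub_add_cancel] at this)
        simp only [q, q', if_false]
        omega
  have h1 := gauge_forest (B := Uc N L ty) (hm.mono Set.sdiff_subset) hF (A := inZ (Uc N L ty)ᶜ)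
    fun v hv x _ => ⟨fun k => k.1 hv, fun k => k.2 hv⟩
  have h2 : (0 : ℝ) < D2 := by
    have := Real.goldenRatio_pos
    unfold D2 ph
    linarith
  rw [tv, h1, compl_compl, mul_div_cancel_left₀ _ (pow_pos h2 _).ne']
  rfl

theorem ks1_out {a b : Gr N L} (ha : a ∉ Uc N L ty) (hb : b ∉ Uc N L ty) :
    Cl (ord (Gr N L)) (AG N L ty) a b := Cl.base (Or.inl ⟨ha, hb⟩)

theorem ks1_gen (P : Gr N L → Prop) {d T : ℤ} (hd : (d = 1 ∧ T = 6) ∨ (d = -1 ∧ T = 0))
    (hu : ∀ c, P c → c.1.2.1 ≠ T → ∃ u : Gr N L, u.1.1 = c.1.1 ∧ u.1.2.1 = c.1.2.1 + d ∧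
      u.1.2.2 = c.1.2.2 ∧ P u ∧ Cl (ord (Gr N L)) (AG N L ty) c u) (n : ℕ) :
    ∀ c e : Gr N L, c ≤ e → P c → P e → (T - c.1.2.1).natAbs + (T - e.1.2.1).natAbs ≤ n →
      Cl (ord (Gr N L)) (AG N L ty) c e := by
  have h0 : ∀ c e : Gr N L, c.1.2.1 = T → e.1.2.1 = T → Cl (ord (Gr N L)) (AG N L ty) c e :=
    fun c e h1 h2 => ks1_out (fun k => by have := k.1.2.1; omega) fun k => by
      have := k.1.2.1; omega
  induction n with
  | zero => exact fun c e _ _ _ h => h0 c e (by omega) (by omega)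
  | succ n ih =>
    intro c e h pc pe hn
    have bc := c.2.2.1
    have be := e.2.2.1
    have h' := h
    obtain ⟨h1, h2, h3⟩ := h'
    rw [ks1_zle] at h2
    by_cases q : c.1.2.1 = e.1.2.1
    · by_cases qT : c.1.2.1 = T
      · exact h0 c e qT (q ▸ qT)
      obtain ⟨u, u1, u2, u3, pu, cu⟩ := hu c pc qT
      obtain ⟨w, w1, w2, w3, pw, cw⟩ := hu e pe (q ▸ qT)
      have uw : u ≤ w := ⟨by rw [u1, w1]; exact h1, by rw [ks1_zle]; omega, by rw [u3, w3]; exact h3⟩
      have k := ih u w uw pu pw (by omega)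
      by_cases o : c.1.2.1 % 2 = 0
      · have a1 : c ≤ u := ⟨by rw [u1]; exact zle_refl _, by rw [ks1_zle]; omega,
          by rw [u3]; exact zle_refl _⟩
        have a2 : e ≤ w := ⟨by rw [w1]; exact zle_refl _, by rw [ks1_zle]; omega,
          by rw [w3]; exact zle_refl _⟩
        exact Cl.tri (ks1_r (Or.inl (a1.trans uw))) (ks1_r (Or.inr a2)) (ks1_r (Or.inl h))
          (Cl.tri (ks1_r (Or.inl a1)) (ks1_r (Or.inl uw)) (ks1_r (Or.inl (a1.trans uw))) cu k)
          cw.symm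
      · have a1 : u ≤ c := ⟨by rw [u1]; exact zle_refl _, by rw [ks1_zle]; omega,
          by rw [u3]; exact zle_refl _⟩
        have a2 : w ≤ e := ⟨by rw [w1]; exact zle_refl _, by rw [ks1_zle]; omega,
          by rw [w3]; exact zle_refl _⟩
        exact Cl.tri (ks1_r (Or.inr a1)) (ks1_r (Or.inl (uw.trans a2))) (ks1_r (Or.inl h)) cu
          (Cl.tri (ks1_r (Or.inl uw)) (ks1_r (Or.inl a2)) (ks1_r (Or.inl (uw.trans a2))) k cw.symm)
    · by_cases q' : e.1.2.1 = c.1.2.1 + d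
      · obtain ⟨u, u1, u2, u3, pu, cu⟩ := hu c pc (by omega)
        have a1 : c ≤ u := ⟨by rw [u1]; exact zle_refl _, by rw [ks1_zle]; omega,
          by rw [u3]; exact zle_refl _⟩
        have a2 : u ≤ e := ⟨by rw [u1]; exact h1, by rw [ks1_zle]; omega, by rw [u3]; exact h3⟩
        exact Cl.tri (ks1_r (Or.inl a1)) (ks1_r (Or.inl a2)) (ks1_r (Or.inl h)) cu
          (ih u e a2 pu pe (by omega))
      · obtain ⟨w, w1, w2, w3, pw, cw⟩ := hu e pe (by omega)
        have a1 : c ≤ w := ⟨by rw [w1]; exact h1, by rw [ks1_zle]; omega, by rw [w3]; exact h3⟩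
        have a2 : w ≤ e := ⟨by rw [w1]; exact zle_refl _, by rw [ks1_zle]; omega,
          by rw [w3]; exact zle_refl _⟩
        exact Cl.tri (ks1_r (Or.inl a1)) (ks1_r (Or.inl a2)) (ks1_r (Or.inl h))
          (ih c w a1 pc pw (by omega)) cw.symm

/-- The edge to the parent is a closure edge also on the walls. -/
theorem ks1_edge {c : Gr N L} (h : 0 < c.1.2.1 ∧ c.1.2.1 < 6)
    (hk : kl (stk ty c.1.1 c.1.2.2) c.1.2.1 ≤ 1) :
    Cl (ord (Gr N L)) (AG N L ty) c (parG ty c) := by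
  by_cases q : c ∈ Uc N L ty
  · exact Cl.base (Or.inr ⟨q, rfl⟩)
  · refine ks1_out q fun k => q ?_
    have h1 := k.1.1
    have h3 := k.1.2.2
    rw [ks1_par ty h] at h1 h3
    exact (kl_uc c ⟨h1, h, h3⟩).2 ⟨by omega, by omega⟩

theorem ks1_same {c e : Gr N L} (h : c ≤ e) (h1 : kl (stk ty c.1.1 c.1.2.2) c.1.2.1 ≤ 1)
    (h2 : kl (stk ty c.1.1 c.1.2.2) c.1.2.1 = kl (stk ty e.1.1 e.1.2.2) e.1.2.1) :
    Cl (ord (Gr N L)) (AG N L ty) c e := by
  by_cases q : kl (stk ty c.1.1 c.1.2.2) c.1.2.1 = 1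
  · refine ks1_gen (fun c => kl (stk ty c.1.1 c.1.2.2) c.1.2.1 = 1) (Or.inl ⟨rfl, rfl⟩)
      (fun a pa ha => ?_) _ c e h q (h2 ▸ q) le_rfl
    have b := a.2.2.1
    have u := ks1_up pa
    have k : 0 < a.1.2.1 ∧ a.1.2.1 < 6 := by omega
    refine ⟨parG ty a, ?_, ?_, ?_, ?_, ks1_edge k pa.le⟩ <;> simp only [ks1_par ty k, pa, if_true]
    exact u.1
  · have q0 : kl (stk ty c.1.1 c.1.2.2) c.1.2.1 = 0 := by omega
    refine ks1_gen (fun c => kl (stk ty c.1.1 c.1.2.2) c.1.2.1 = 0) (Or.inr ⟨rfl, rfl⟩)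
      (fun a pa ha => ?_) _ c e h q0 (h2 ▸ q0) le_rfl
    have b := a.2.2.1
    have u := ks1_dn pa
    have k : 0 < a.1.2.1 ∧ a.1.2.1 < 6 := by omega
    refine ⟨parG ty a, ?_, ?_, ?_, ?_, ks1_edge k (by omega)⟩ <;>
      simp only [ks1_par ty k, pa, zero_ne_one, if_false]
    · rfl
    · exact u.1

/-- The link is a lower set. -/
theorem ks1_low (hg : Grid N L ty) {c e : Z3} (h1 : zle c.1 e.1) (h2 : zle c.2.1 e.2.1)
    (h3 : zle c.2.2 e.2.2) (he : onK ty e = true) : onK ty c = true := by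
  obtain ⟨x, y, z⟩ := c
  obtain ⟨x', y', z'⟩ := e
  simp only [ks1_zle] at h1 h2 h3
  by_cases hx : x' % 2 = 0 <;> by_cases hz : z' % 2 = 0
  · obtain rfl : x = x' := by omega
    obtain rfl : z = z' := by omega
    simp only [onK, hx, hz, if_true] at he ⊢
    revert he
    generalize ty (x / 2) (z / 2) = t
    cases t <;> simp [CT.lf, CT.rt, CT.up, CT.dn, CT.corner] <;> omega
  · obtain rfl : x = x' := by omega
    simp only [onK, hx, hz, if_true, if_false, Bool.and_eq_true, beq_iff_eq] at he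
    obtain rfl : y = 4 := by omega
    rcases h3 with rfl | ⟨h3, rfl | rfl⟩
    · simp [onK, hx, hz, he.2]
    · have : (z + 1) / 2 = z / 2 := by omega
      rw [this] at he
      simp [onK, hx, h3, he.2]
    · have : z / 2 = (z - 1) / 2 + 1 := by omega
      rw [hg.vert, ← this] at he
      simp [onK, hx, h3, he.2]
  · obtain rfl : z = z' := by omega
    simp only [onK, hx, hz, if_true, if_false, Bool.and_eq_true, beq_iff_eq] at he
    obtain rfl : y = 2 := by omega
    rcases h1 with rfl | ⟨h1, rfl | rfl⟩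
    · simp [onK, hx, hz, he.2]
    · have : (x + 1) / 2 = x / 2 := by omega
      rw [this] at he
      simp [onK, hz, h1, he.2]
    · have : x / 2 = (x - 1) / 2 + 1 := by omega
      rw [hg.hor, ← this] at he
      simp [onK, hz, h1, he.2]
  · simp [onK, hx, hz] at he

theorem cl_none (hg : Grid N L ty) {c e : Gr N L} (h : c ≤ e) (hn : nm (stk ty) c.1 e.1 = none) :
    Cl (ord (Gr N L)) (AG N L ty) c e := by
  unfold nm nm0 at hn
  dsimp only at hn
  split_ifs at hn with a1 a2 a3 a4 a5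
  · exact ks1_same h a1.1 a2
  · by_cases q : kl (stk ty e.1.1 e.1.2.2) e.1.2.1 = 3
    · obtain ⟨t, y⟩ := ks1_three q
      obtain ⟨p1, p3⟩ := ks1_X t
      obtain ⟨h1, h2, h3⟩ := h
      rw [ks1_zle] at h1 h2 h3
      have e1 : c.1.1 = e.1.1 := by omega
      have e3 : c.1.2.2 = e.1.2.2 := by omega
      have : c.1.2.1 = 3 ∨ c.1.2.1 = 2 ∨ c.1.2.1 = 4 := by omega
      rcases this with k | k | k
      · obtain rfl : c = e := Subtype.ext (Prod.ext e1 (Prod.ext (k.trans y.symm) e3))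
        exact Cl.refl _
      · by_cases u : e ∈ Uc N L ty
        · refine Cl.symm (Cl.base (Or.inr ⟨u, Subtype.ext ?_⟩))
          rw [ks1_par ty u.1.2.1, q, if_neg (by omega)]
          exact Prod.ext e1 (Prod.ext (by dsimp only; omega) e3)
        · refine ks1_out (fun k' => ((kl_uc c k'.1).1 k').1 ?_) u
          rw [e1, e3, t, k]
          rfl
      · refine absurd ⟨?_, q⟩ a4
        rw [e1, e3, t, k]
        rfl
    · have := ks1_le (stk ty e.1.1 e.1.2.2) e.1.2.1
      have he : onK ty e.1 = true := (ks1_onK ty e.1).2 (by omega)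
      exact ks1_out (fun k => k.2 (ks1_low hg h.1 h.2.1 h.2.2 he)) fun k => k.2 he
  all_goals
    exfalso
    split at hn <;> exact Option.some_ne_none _ hn

theorem ks1_bd {c e w w' : Gr N L} (h1 : c ≤ e) (h2 : w ≤ w') (h3 : w ≤ c) (h4 : w' ≤ e)
    (i : w ∉ inner N L) (i' : w' ∉ inner N L) (y : c.1.2.1 = 2 ∧ e.1.2.1 = 3 ∧ w.1.2.1 = 2 ∧ w'.1.2.1 = 3)
    (t : stk ty c.1.1 c.1.2.2 = .E ∧ stk ty e.1.1 e.1.2.2 = .E ∧ stk ty w.1.1 w.1.2.2 = .E ∧
      stk ty w'.1.1 w'.1.2.2 = .E) : Cl (ord (Gr N L)) (AG N L ty) c e := by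
  obtain ⟨y1, y2, y3, y4⟩ := y
  obtain ⟨t1, t2, t3, t4⟩ := t
  have a1 : Cl (ord (Gr N L)) (AG N L ty) w c :=
    ks1_same h3 (by rw [t3]; exact ks1_E _) (by rw [t3, t1, y3, y1])
  have a2 : Cl (ord (Gr N L)) (AG N L ty) w' e :=
    ks1_same h4 (by rw [t4]; exact ks1_E _) (by rw [t4, t2, y4, y2])
  exact Cl.tri (ks1_r (Or.inr h3)) (ks1_r (Or.inl (h3.trans h1))) (ks1_r (Or.inl h1)) a1.symm
    (Cl.tri (ks1_r (Or.inl h2)) (ks1_r (Or.inl h4)) (ks1_r (Or.inl (h3.trans h1)))
      (ks1_out (fun k => i k.1) fun k => i' k.1) a2)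

theorem cl_bd (hg : Grid N L ty) {c e : Gr N L} (h1 : c.1.1 = e.1.1) (h2 : c.1.2.2 = e.1.2.2)
    (h3 : c.1.2.1 = 2) (h4 : e.1.2.1 = 3)
    (h : c.1.1 ≤ 1 ∨ 2 * (N : ℤ) + 1 ≤ c.1.1 ∨ c.1.2.2 ≤ 1 ∨ 2 * (L : ℤ) + 1 ≤ c.1.2.2) :
    Cl (ord (Gr N L)) (AG N L ty) c e := by
  have bx := c.2.1
  have bz := c.2.2.2
  obtain ⟨x, z, hx, hz, k1, k3, o⟩ : ∃ x z : ℤ, (0 ≤ x ∧ x ≤ 2 * N + 2) ∧ (0 ≤ z ∧ z ≤ 2 * L + 2) ∧
      zle x c.1.1 ∧ zle z c.1.2.2 ∧ (x = 0 ∨ x = 2 * N + 2 ∨ z = 0 ∨ z = 2 * L + 2) := by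
    simp only [ks1_zle]
    rcases h with h | h | h | h
    · exact ⟨0, c.1.2.2, by omega, bz, by omega, by omega, by omega⟩
    · exact ⟨2 * N + 2, c.1.2.2, by omega, bz, by omega, by omega, by omega⟩
    · exact ⟨c.1.1, 0, bx, by omega, by omega, by omega, by omega⟩
    · exact ⟨c.1.1, 2 * L + 2, bx, by omega, by omega, by omega, by omega⟩
  have z23 : zle 2 3 := by rw [ks1_zle]; omega
  have s : stk ty x z = .E := stk_wall hg (by omega)
  refine ks1_bd (w := ⟨(x, 2, z), hx, by dsimp only; omega, hz⟩)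
    (w' := ⟨(x, 3, z), hx, by dsimp only; omega, hz⟩)
    ⟨h1 ▸ zle_refl _, by rw [h3, h4]; exact z23, h2 ▸ zle_refl _⟩ ⟨zle_refl _, z23, zle_refl _⟩
    ⟨k1, by rw [h3]; exact zle_refl _, k3⟩ ⟨h1 ▸ k1, by rw [h4]; exact zle_refl _, h2 ▸ k3⟩
    (fun k => ?_) (fun k => ?_) ⟨h3, h4, rfl, rfl⟩
    ⟨stk_wall hg h, by rw [← h1, ← h2]; exact stk_wall hg h, s, s⟩ <;>
  · have a := k.1
    have b := k.2.2
    dsimp only at a b
    omega

theorem ks1_nm {s : ℤ → ℤ → CT} {c e : Z3}
    (h : (kl (s c.1 c.2.2) c.2.1 ≤ 1 ∧ kl (s c.1 c.2.2) c.2.1 = kl (s e.1 e.2.2) e.2.1) ∨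
      (2 ≤ kl (s e.1 e.2.2) e.2.1 ∧ ¬ (kl (s c.1 c.2.2) c.2.1 = 4 ∧ kl (s e.1 e.2.2) e.2.1 = 3)))
    (val : ℤ → ℤ → BB) : cz s val c e = false := by
  have : nm s c e = none := by
    unfold nm nm0
    dsimp only
    rcases h with h | h
    · rw [if_pos ⟨h.1, h.2 ▸ h.1⟩, if_pos h.2]
    · rw [if_neg (by omega), if_pos h.1, if_neg h.2]
  rw [cz, this]
  rfl

theorem ks1_cz (hg : Grid N L ty) {val : ℤ → ℤ → BB} (hb : BdZ N L val) {c e : Gr N L}
    (h : c ≤ e) (he : e ∉ Uc N L ty) : cz (stk ty) val c.1 e.1 = false := by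
  by_cases k : onK ty e.1 = true
  · have := (ks1_onK ty e.1).1 k
    exact ks1_nm (Or.inr (by omega)) val
  have i : e ∉ inner N L := fun i => he ⟨i, k⟩
  obtain ⟨h1, h2, h3⟩ := h
  rw [ks1_zle] at h1 h2 h3
  have b := e.2
  by_cases y : e.1.2.1 = 0 ∨ e.1.2.1 = 6
  · have y' : c.1.2.1 = e.1.2.1 := by omega
    have a1 := ks1_ends (stk ty c.1.1 c.1.2.2)
    have a2 := ks1_ends (stk ty e.1.1 e.1.2.2)
    refine ks1_nm (Or.inl ?_) val
    rw [y']
    rcases y with y | y <;> rw [y] <;> omega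
  have o : e.1.1 = 0 ∨ e.1.1 = 2 * N + 2 ∨ e.1.2.2 = 0 ∨ e.1.2.2 = 2 * L + 2 := by
    by_contra o
    exact i ⟨by omega, by omega, by omega⟩
  have s1 : stk ty c.1.1 c.1.2.2 = .E := stk_wall hg (by omega)
  have s2 : stk ty e.1.1 e.1.2.2 = .E := stk_wall hg (by omega)
  unfold cz nm nm0
  dsimp only
  rw [s1, s2, if_pos ⟨ks1_E _, ks1_E _⟩]
  split_ifs
  · rfl
  · refine hb _ _ ?_ ?_ ?_ <;> simp only [odd1] <;> split_ifs <;> omega

/-- On the edges of `AG` the colouring given by labels vanishes. -/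
theorem mkC_AG (hg : Grid N L ty) {val : ℤ → ℤ → BB} (hb : BdZ N L val) {a e : Gr N L}
    (h : AG N L ty a e) : mkC ty val a e = false := by
  unfold mkC
  rcases h with h | ⟨h, rfl⟩
  · split_ifs with h1 h2
    · exact ks1_cz hg hb h1.le h.2
    · exact ks1_cz hg hb h2.le h.1
    · rfl
  · have p := ks1_par ty h.1.2.1
    have u := (kl_uc a h.1).1 h
    have l := ks1_le (stk ty a.1.1 a.1.2.2) a.1.2.1
    by_cases q : kl (stk ty a.1.1 a.1.2.2) a.1.2.1 = 3
    · obtain ⟨t, y⟩ := ks1_three q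
      rw [q, if_neg (by omega), y] at p
      split_ifs with h1 h2
      · have := h1.le.2.1
        rw [p, y, ks1_zle] at this
        dsimp only at this
        omega
      · refine ks1_nm (Or.inr ⟨by omega, fun k => ?_⟩) val
        have := k.1
        rw [p] at this
        dsimp only at this
        rw [t] at this
        exact absurd this (by decide)
      · rfl
    · have s : kl (stk ty (parG ty a).1.1 (parG ty a).1.2.2) (parG ty a).1.2.1 =
          kl (stk ty a.1.1 a.1.2.2) a.1.2.1 := by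
        rw [p]
        dsimp only
        split_ifs with q1
        · rw [(ks1_up q1).1, q1]
        · have q0 : kl (stk ty a.1.1 a.1.2.2) a.1.2.1 = 0 := by omega
          rw [(ks1_dn q0).1, q0]
      split_ifs with h1 h2
      · exact ks1_nm (Or.inl ⟨by omega, s.symm⟩) val
      · exact ks1_nm (Or.inl ⟨by omega, s⟩) val
      · rfl

end KG
end
end

-- merged part: Pool.Agent.Work.MP_c146e2_gt.KG.KT
section
/-! The shadow state sum as a local model on diagrams.  A letter `(a, b, r)` holds the two colours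
of a strand and the colour of the region to its right. -/

set_option autoImplicit false

namespace KG

open RankGenus RankGenus.Kind

def toCy (x : ℤ × ℤ) : Cy := ⟨x.1, 0, -x.2, -x.2⟩

theorem emb_toCy (x : ℤ × ℤ) : Cy.emb (toCy x) = (g1E x : ℝ) := by
  rw [toCy, Cy.cy_real, g1E, ph, Real.goldenRatio]
  congr 1
  push_cast
  ring

def g1P (L : List (ℤ × ℤ)) : ℤ × ℤ := L.foldr g1M (1, 0)

/-- The inverse of `g1d`. -/
def g1i (a : Bool) : ℤ × ℤ := if a then (-1, 1) else (1, 0)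

/-- The weight of an edge of the diagram. -/
def g1w (p : B2) : ℤ × ℤ := if p.1 == p.2 then (1, 0) else (-1, 1)

/-- The inverse of `g1w`. -/
def g1v (p : B2) : ℤ × ℤ := if p.1 == p.2 then (1, 0) else (0, 1)

/-- The weight of a crossing with the labels `U D L R` on its edges, `nw ne sw se` on its regions
and `s` between the two strands. -/
def g1Y (U D L R : B2) (nw ne sw se s : Bool) : ℤ × ℤ :=
  if U.1 == D.1 && L.2 == R.2 then
    g1P [g1d s, g1i U.1, g1i L.2, g1T s U.1 U.2 L.1 L.2 nw, g1T s U.1 U.2 R.1 L.2 ne,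
      g1T s U.1 D.2 L.1 L.2 sw, g1T s U.1 D.2 R.1 L.2 se, g1t s U.1 L.1, g1t s U.1 R.1,
      g1t s U.2 L.2, g1t s D.2 L.2]
  else (0, 0)

def g1X (U D L R : B2) (nw ne sw se : Bool) : ℤ × ℤ :=
  g1A (g1Y U D L R nw ne sw se false) (g1Y U D L R nw ne sw se true)

def ab (t : B3) : B2 := (t.1, t.2.1)

def okT (l : Bool) (t : B3) : Bool := adm t.1 t.2.1 l && adm t.1 t.2.1 t.2.2

def ruleT : Kind → Bool → List B3 → List (Cy × List B3)
  | cre, l, [] => eB3.map fun p =>
      (if okT l p then toCy (g1M (g1d p.2.2) (g1w (ab p))) else 0, [p, (p.1, p.2.1, l)])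
  | ann, l, [s, t] =>
      [(if okT l s && t == (s.1, s.2.1, l) then toCy (g1M (g1i l) (g1v (ab s))) else 0, [])]
  | ov, l, [s, t] => eB3.flatMap fun p => eB2.map fun q =>
      (toCy (g1P [g1X (ab s) q (ab p) (ab t) l s.2.2 p.2.2 t.2.2, g1w (ab p), g1w q, g1d p.2.2]),
        [p, (q.1, q.2, t.2.2)])
  | un, l, [s, t] => eB3.flatMap fun p => eB2.map fun q =>
      (toCy (g1P [g1X (ab t) (ab p) (ab s) q s.2.2 t.2.2 l p.2.2, g1w (ab p), g1w q, g1d p.2.2]),
        [p, (q.1, q.2, t.2.2)])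
  | _, _, _ => []

def sysT : LS B3 Bool := ⟨fun t => t.2.2, okT, ruleT⟩

def evT (w : Word) : Cy := sysT.back w false (fun _ => 1) []

end KG
end

-- merged part: Pool.Agent.Work.MP_c146e2_gt.KG.KR0
section
set_option autoImplicit false

noncomputable section

open scoped Classical

namespace KG

open RankGenus

/-- Sum over all lists of length `n`. -/
def SL (n : ℕ) (F : List BB → Cy) : Cy := ∑ v : Fin n → BB, F (List.ofFn v)

/-- The weight of a row of lattice points and of the level below it.  The arguments are the types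
of the columns, the edge and the two faces on the left, and the labels above, on and below the
row; the last column is the wall. -/
def rowW : List CT → BB → Bool → Bool → List BB → List BB → List BB → Cy
  | t :: r, L, nw, sw, U :: ne :: up, u :: R :: mid, D :: se :: dn =>
      wV t u U D L R nw ne.1 sw se.1 * wE t.rt R ne.1 se.1 * (wE t.dn D sw se.1 * wF se) *
        rowW r R ne.1 se.1 up mid dn
  | [], L, nw, sw, [U], [u], [D] =>
      wV .E u U D L (false, false) nw false sw false * wE false D sw false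
  | _, _, _, _, _, _, _ => 0

/-- The sum over all rows below a level. -/
def ZZ (N : ℕ) : List (List CT) → List BB → Cy
  | [], up => SL (2 * N + 3) fun mid => rowW (.E :: List.replicate N .E) (false, false) false false
      up mid (List.replicate (2 * N + 3) (false, false))
  | r :: rows, up => SL (2 * N + 3) fun mid => SL (2 * N + 3) fun dn =>
      rowW (.E :: r) (false, false) false false up mid dn * ZZ N rows dn

/-- The letters of a level. -/
def lets : List Bool → List BB → List B3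
  | m :: ms, U :: ne :: up => if m then (U.1, U.2, ne.1) :: lets ms up else lets ms up
  | _, _ => []

/-- Admissible levels. -/
def vld : List Bool → Bool → List BB → Prop
  | m :: ms, nw, U :: ne :: up => indE m U nw ne.1 = true ∧ vld ms ne.1 up
  | [], nw, [U] => indE false U nw false = true
  | _, _, _ => False

/-- The transfer along a row. -/
def RT (r : List CT) (L : BB) (nw sw : Bool) (up : List BB) (G : List B3 → Cy) : Cy :=
  SL (2 * r.length + 1) fun mid => SL (2 * r.length + 1) fun dn =>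
    rowW r L nw sw up mid dn * G (lets (r.map CT.dn) dn)

def RQ (r : List CT) (L : BB) (nw sw : Bool) (Φ : List B3 → (List B3 → Cy) → Cy) : Prop :=
  ∀ up G, vld (r.map CT.up) nw up → RT r L nw sw up G = Φ (lets (r.map CT.up) up) G

/-- The weight of an edge of the diagram and its inverse. -/
def wwC (p : BB) : Cy := if p.1 == p.2 then 1 else Cy.phi

def vvC (p : BB) : Cy := if p.1 == p.2 then 1 else Cy.ph

end KG
end
end

-- merged part: Pool.Agent.Work.MP_c146e2_gt.KG.KR1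
section
set_option autoImplicit false

noncomputable section

open scoped Classical

namespace KG

open RankGenus

theorem kr1_ee (ty : ℤ → ℤ → CT) (val : ℤ → ℤ → BB) (j k : ℤ) : wB ty val (2 * j) (2 * k) =
    wV (ty j k) (val (2 * j) (2 * k)) (val (2 * j) (2 * k - 1)) (val (2 * j) (2 * k + 1))
      (val (2 * j - 1) (2 * k)) (val (2 * j + 1) (2 * k)) (val (2 * j - 1) (2 * k - 1)).1
      (val (2 * j + 1) (2 * k - 1)).1 (val (2 * j - 1) (2 * k + 1)).1
      (val (2 * j + 1) (2 * k + 1)).1 := by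
  rw [wB, if_pos (by omega), if_pos (by omega), show 2 * j / 2 = j by omega,
    show 2 * k / 2 = k by omega]

theorem kr1_eo (ty : ℤ → ℤ → CT) (val : ℤ → ℤ → BB) (j k : ℤ) : wB ty val (2 * j) (2 * k + 1) =
    wE (ty j k).dn (val (2 * j) (2 * k + 1)) (val (2 * j - 1) (2 * k + 1)).1
      (val (2 * j + 1) (2 * k + 1)).1 := by
  rw [wB, if_pos (by omega), if_neg (by omega), show 2 * j / 2 = j by omega,
    show (2 * k + 1) / 2 = k by omega]

theorem kr1_oe (ty : ℤ → ℤ → CT) (val : ℤ → ℤ → BB) (j k : ℤ) : wB ty val (2 * j + 1) (2 * k) =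
    wE (ty j k).rt (val (2 * j + 1) (2 * k)) (val (2 * j + 1) (2 * k - 1)).1
      (val (2 * j + 1) (2 * k + 1)).1 := by
  rw [wB, if_neg (by omega), if_pos (by omega), show (2 * j + 1) / 2 = j by omega,
    show 2 * k / 2 = k by omega]

theorem kr1_oo (ty : ℤ → ℤ → CT) (val : ℤ → ℤ → BB) (j k : ℤ) :
    wB ty val (2 * j + 1) (2 * k + 1) = wF (val (2 * j + 1) (2 * k + 1)) := by
  rw [wB, if_neg (by omega), if_neg (by omega)]

theorem kr1_ofFn1 {α : Type} (f : ℤ → α) (j : ℤ) (n : ℕ) :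
    (List.ofFn fun i : Fin (n + 1) => f (j + (i : ℕ))) =
      f j :: List.ofFn fun i : Fin n => f (j + 1 + (i : ℕ)) := by
  rw [List.ofFn_succ]
  congr 1
  · simp
  · refine congrArg List.ofFn (funext fun i => congrArg f ?_)
    rw [Fin.val_succ]
    push_cast
    ring

theorem kr1_ofFn {α : Type} (f : ℤ → α) (j : ℤ) (n : ℕ) :
    (List.ofFn fun x : Fin (2 * (n + 1) + 1) => f (2 * j + (x : ℕ))) =
      f (2 * j) :: f (2 * j + 1) ::
        List.ofFn fun x : Fin (2 * n + 1) => f (2 * (j + 1) + (x : ℕ)) := by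
  have h := kr1_ofFn1 f (2 * j) (2 * n + 1 + 1)
  rw [kr1_ofFn1 f (2 * j + 1), show 2 * j + 1 + 1 = 2 * (j + 1) by ring] at h
  exact h

/-- The product over the columns `j, …, j + n` of a row and of the level below it. -/
theorem prod_rowW (ty : ℤ → ℤ → CT) (val : ℤ → ℤ → BB) (k : ℤ) (n : ℕ) : ∀ j : ℤ,
    ty (j + n) k = .E → (∀ z, val (2 * (j + n) + 1) z = (false, false)) →
    (∏ x : Fin (2 * n + 1), wB ty val (2 * j + (x : ℕ)) (2 * k) *
        wB ty val (2 * j + (x : ℕ)) (2 * k + 1)) =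
      rowW (List.ofFn fun i : Fin n => ty (j + (i : ℕ)) k) (val (2 * j - 1) (2 * k))
        (val (2 * j - 1) (2 * k - 1)).1 (val (2 * j - 1) (2 * k + 1)).1
        (List.ofFn fun x : Fin (2 * n + 1) => val (2 * j + (x : ℕ)) (2 * k - 1))
        (List.ofFn fun x : Fin (2 * n + 1) => val (2 * j + (x : ℕ)) (2 * k))
        (List.ofFn fun x : Fin (2 * n + 1) => val (2 * j + (x : ℕ)) (2 * k + 1)) := by
  induction n with
  | zero =>
    intro j h1 h2
    simp only [Nat.cast_zero, add_zero] at h1 h2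
    have e : ∀ {α : Type} (f : ℤ → α),
        (List.ofFn fun x : Fin (2 * 0 + 1) => f (2 * j + (x : ℕ))) = [f (2 * j)] := fun f =>
      kr1_ofFn1 f (2 * j) 0
    rw [← List.prod_ofFn, e fun x => wB ty val x (2 * k) * wB ty val x (2 * k + 1),
      e fun x => val x (2 * k - 1), e fun x => val x (2 * k), e fun x => val x (2 * k + 1),
      List.prod_singleton, kr1_ee, kr1_eo, h1, h2, h2, h2]
    rfl
  | succ n ih =>
    intro j h1 h2
    have e : j + ((n + 1 : ℕ) : ℤ) = j + 1 + n := by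
      push_cast
      ring
    rw [e] at h1 h2
    have h := ih (j + 1) h1 h2
    rw [← List.prod_ofFn, show 2 * (j + 1) - 1 = 2 * j + 1 by ring] at h
    rw [← List.prod_ofFn, kr1_ofFn fun x => wB ty val x (2 * k) * wB ty val x (2 * k + 1),
      kr1_ofFn fun x => val x (2 * k - 1), kr1_ofFn fun x => val x (2 * k),
      kr1_ofFn fun x => val x (2 * k + 1), kr1_ofFn1 fun i => ty i k, List.prod_cons,
      List.prod_cons, h, kr1_ee, kr1_eo, kr1_oe, kr1_oo, rowW]
    ring

def chn {A : Type} [Fintype A] (a0 : A) : ℕ → (ℕ → A → A → A → Cy) → A → Cy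
  | 0, φ, a => ∑ b, φ 0 a b a0
  | m + 1, φ, a => ∑ b, ∑ c, φ 0 a b c * chn a0 m (fun k => φ (k + 1)) c

theorem kr1_sum {A : Type} [Fintype A] (n : ℕ) (F : List A → Cy) :
    (∑ v : Fin (n + 1) → A, F (List.ofFn v)) = ∑ a, ∑ v : Fin n → A, F (a :: List.ofFn v) := by
  rw [← Fintype.sum_prod_type (f := fun p : A × (Fin n → A) => F (p.1 :: List.ofFn p.2))]
  refine (Fintype.sum_equiv (Fin.consEquiv fun _ => A) _ _ fun p => ?_).symm
  rw [List.ofFn_succ]
  rfl

theorem sum_chn {A : Type} [Fintype A] (a0 : A) (m : ℕ) : ∀ (φ : ℕ → A → A → A → Cy) (a : A),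
    (∑ v : Fin (2 * m + 1) → A, ∏ k ∈ Finset.range (m + 1),
      φ k ((a :: List.ofFn v).getD (2 * k) a0) ((a :: List.ofFn v).getD (2 * k + 1) a0)
        ((a :: List.ofFn v).getD (2 * k + 2) a0)) = chn a0 m φ a := by
  induction m with
  | zero =>
    intro φ a
    refine (kr1_sum 0 fun l => ∏ k ∈ Finset.range (0 + 1), φ k ((a :: l).getD (2 * k) a0)
      ((a :: l).getD (2 * k + 1) a0) ((a :: l).getD (2 * k + 2) a0)).trans ?_
    simp [chn]
  | succ m ih =>
    intro φ a
    refine (kr1_sum (2 * m + 1 + 1) fun l => ∏ k ∈ Finset.range (m + 1 + 1),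
      φ k ((a :: l).getD (2 * k) a0) ((a :: l).getD (2 * k + 1) a0)
        ((a :: l).getD (2 * k + 2) a0)).trans ?_
    refine Finset.sum_congr rfl fun b _ => ?_
    refine (kr1_sum (2 * m + 1) fun l => ∏ k ∈ Finset.range (m + 1 + 1),
      φ k ((a :: b :: l).getD (2 * k) a0) ((a :: b :: l).getD (2 * k + 1) a0)
        ((a :: b :: l).getD (2 * k + 2) a0)).trans ?_
    refine Finset.sum_congr rfl fun c _ => ?_
    rw [← ih, Finset.mul_sum]
    refine Finset.sum_congr rfl fun v _ => ?_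
    rw [Finset.prod_range_succ', mul_comm]
    rfl

theorem kr1_chn (N : ℕ) (rs : List (List CT)) : ∀ a : Fin (2 * N + 3) → BB,
    chn (fun _ => (false, false)) rs.length (fun k a b c =>
      rowW (.E :: rs.getD k (List.replicate N .E)) (false, false) false false (List.ofFn a)
        (List.ofFn b) (List.ofFn c)) a = ZZ N rs (List.ofFn a) := by
  induction rs with
  | nil =>
    intro a
    rw [ZZ, SL, ← List.ofFn_const (2 * N + 3)]
    rfl
  | cons r rs ih =>
    intro a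
    rw [ZZ, SL, List.length_cons, chn]
    refine Finset.sum_congr rfl fun b _ => Finset.sum_congr rfl fun c _ => ?_
    exact congrArg _ (ih c)

theorem kr1_pair (f : ℕ → Cy) (m : ℕ) :
    ∏ k ∈ Finset.range m, f (2 * k) * f (2 * k + 1) = ∏ z ∈ Finset.range (2 * m), f z := by
  induction m with
  | zero => rfl
  | succ m ih =>
    rw [Finset.prod_range_succ, ih, show 2 * (m + 1) = 2 * m + 1 + 1 from rfl,
      Finset.prod_range_succ, Finset.prod_range_succ, mul_assoc]

theorem kr1_ext {N L : ℕ} (v : Fin (2 * L + 3) → Fin (2 * N + 3) → BB) (i : ℕ) {z : ℤ}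
    (hz : z + 1 = i) (x : Fin (2 * N + 3)) : extV v (2 * 0 + (x : ℕ)) z =
      ((fun _ => (false, false)) :: List.ofFn v).getD i (fun _ => (false, false)) x := by
  have hx := x.2
  rcases i with _ | i
  · rw [extV, dif_neg (by omega)]
    rfl
  · obtain rfl : z = i := by omega
    rw [List.getD_cons_succ, mul_zero, zero_add]
    by_cases h : i < 2 * L + 3
    · rw [extV, dif_pos (by omega), List.getD_eq_getElem _ _ (by rwa [List.length_ofFn]),
        List.getElem_ofFn]
      rfl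
    · rw [extV, dif_neg (by omega), List.getD_eq_default _ _ (by rw [List.length_ofFn]; omega)]

theorem kr1_out {N L : ℕ} (v : Fin (2 * L + 3) → Fin (2 * N + 3) → BB) {x z : ℤ}
    (h : x < 0 ∨ 2 * (N : ℤ) + 3 ≤ x ∨ 2 * (L : ℤ) + 3 ≤ z) : extV v x z = (false, false) :=
  dif_neg (by omega)

theorem kr1_ty {N : ℕ} {rows : List (List CT)} (h : ∀ r ∈ rows, r.length = N) (k : ℕ) :
    (List.ofFn fun i : Fin (N + 1) => tyOf rows (0 + (i : ℕ)) k) =
      .E :: (List.replicate N .E :: rows).getD k (List.replicate N .E) := by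
  rw [kr1_ofFn1 fun i => tyOf rows i k, tyOf, if_neg (by omega)]
  congr 1
  rcases k with _ | k
  · rw [List.getD_cons_zero, ← List.ofFn_const]
    exact congrArg List.ofFn (funext fun i => if_neg (by omega))
  have e : ∀ i : ℕ, tyOf rows (0 + 1 + i) (k + 1 : ℕ) = (rows.getD k []).getD i .E := fun i => by
    rw [tyOf, if_pos (by omega), show (((k + 1 : ℕ) : ℤ) - 1).toNat = k by omega,
      show ((0 : ℤ) + 1 + i - 1).toNat = i by omega]
  simp only [e, List.getD_cons_succ]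
  by_cases hk : k < rows.length
  · rw [List.getD_eq_getElem _ _ hk, List.getD_eq_getElem _ _ hk]
    have hl := h _ (List.getElem_mem hk)
    refine List.ext_getElem (by simp [hl]) fun i h1 h2 => ?_
    rw [List.getElem_ofFn, List.getD_eq_getElem _ _ h2]
  · rw [List.getD_eq_default _ _ (not_lt.1 hk), List.getD_eq_default _ _ (not_lt.1 hk),
      ← List.ofFn_const]
    rfl

theorem kr1_wall {N : ℕ} {rows : List (List CT)} (h : ∀ r ∈ rows, r.length = N) (k : ℤ) :
    tyOf rows (0 + (N + 1 : ℕ)) k = .E := by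
  rw [tyOf]
  split_ifs
  · refine List.getD_eq_default _ _ ?_
    rcases kl1_getD rows (k - 1).toNat with e | e
    · rw [h _ e]
      omega
    · rw [e]
      exact Nat.zero_le _
  · rfl

theorem kr1_last {N : ℕ} (rows : List (List CT))
    (v : Fin (2 * rows.length + 3) → Fin (2 * N + 3) → BB) (x : ℤ) :
    wB (tyOf rows) (extV v) x (2 * rows.length + 3 : ℕ) = 1 := by
  have e : ∀ y, extV v y (2 * rows.length + 3 : ℕ) = (false, false) := fun y =>
    kr1_out v (by omega)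
  have t : tyOf rows (x / 2) ((2 * rows.length + 3 : ℕ) / 2) = .E := by
    rw [tyOf]
    split_ifs
    · rw [List.getD_eq_default rows _ (by omega)]
      rfl
    · rfl
  rw [wB, if_neg (show ¬ ((2 * rows.length + 3 : ℕ) : ℤ) % 2 = 0 by omega),
    if_neg (show ¬ ((2 * rows.length + 3 : ℕ) : ℤ) % 2 = 0 by omega), t, e, e, e]
  split_ifs <;> rfl

theorem shadow_ZZ {N : ℕ} {rows : List (List CT)} (h : ∀ r ∈ rows, r.length = N) :
    shadow N rows.length (tyOf rows) =
      ZZ N (List.replicate N .E :: rows) (List.replicate (2 * N + 3) (false, false)) := by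
  rw [← List.ofFn_const (2 * N + 3), ← kr1_chn, List.length_cons, ← sum_chn]
  refine Finset.sum_congr rfl fun v _ => ?_
  have h1 := Fin.prod_univ_eq_prod_range
    (fun z : ℕ => ∏ x : Fin (2 * N + 3), wB (tyOf rows) (extV v) (x : ℕ) z) (2 * rows.length + 3)
  have h2 := kr1_pair
    (fun z : ℕ => ∏ x : Fin (2 * N + 3), wB (tyOf rows) (extV v) (x : ℕ) z) (rows.length + 1 + 1)
  rw [show 2 * (rows.length + 1 + 1) = 2 * rows.length + 3 + 1 from rfl,
    Finset.prod_range_succ _ (2 * rows.length + 3),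
    Finset.prod_eq_one (s := Finset.univ) fun x _ => kr1_last rows v _, mul_one] at h2
  refine h1.trans (h2.symm.trans (Finset.prod_congr rfl fun k _ => ?_))
  have h3 := prod_rowW (tyOf rows) (extV v) k (N + 1) 0 (kr1_wall h k) fun z =>
    kr1_out v (by omega)
  rw [kr1_ty h, kr1_out v (x := 2 * 0 - 1) (by omega), kr1_out v (x := 2 * 0 - 1) (by omega),
    kr1_out v (x := 2 * 0 - 1) (by omega)] at h3
  rw [← funext (kr1_ext v (2 * k) (z := 2 * k - 1) (by omega)),
    ← funext (kr1_ext v (2 * k + 1) (z := 2 * k) (by omega)),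
    ← funext (kr1_ext v (2 * k + 2) (z := 2 * k + 1) (by omega)), ← Finset.prod_mul_distrib]
  refine Eq.trans (Finset.prod_congr rfl fun x _ => ?_) h3
  push_cast
  rw [zero_add]

end KG
end
end
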