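import Pool.Agent.Work.MP_c146e2_gt.KG.KR1

set_option autoImplicit false

noncomputable section

open scoped Classical

namespace KG

variable {V V' : Type}

variable {N L : ℕ} {ty : ℤ → ℤ → CT}

theorem ks2_nbz {i j : ℤ} : j ∈ nbz i ↔ zle i j := by
  unfold nbz zle
  rw [Int.even_iff]
  split_ifs with h
  · simp only [List.mem_cons, List.not_mem_nil, or_false]
    omega
  · simp only [List.mem_cons, List.not_mem_nil, or_false]
    omega

theorem ks2_nodup (i : ℤ) : (nbz i).Nodup := by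
  unfold nbz
  split_ifs
  · simp only [List.nodup_cons, List.mem_cons, List.not_mem_nil, or_false, not_or, List.nodup_nil,
      not_false_eq_true, and_true]
    omega
  · simp

theorem mem_ups {c e : Z3} : e ∈ ups c ↔
    e ≠ c ∧ zle c.1 e.1 ∧ zle c.2.1 e.2.1 ∧ zle c.2.2 e.2.2 ∧ 0 ≤ e.2.1 ∧ e.2.1 ≤ 6 := by
  obtain ⟨x, y, z⟩ := e
  simp only [ups, List.mem_filter, List.mem_flatMap, List.mem_map, ks2_nbz, decide_eq_true_eq,
    Prod.mk.injEq]
  constructor
  · rintro ⟨⟨_, h1, _, h2, _, h3, rfl, rfl, rfl⟩, h4, h5, h6⟩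
    exact ⟨h4, h1, h2, h3, h5, h6⟩
  · rintro ⟨h4, h1, h2, h3, h5, h6⟩
    exact ⟨⟨_, h1, _, h2, _, h3, rfl, rfl, rfl⟩, h4, h5, h6⟩

theorem nodup_ups (c : Z3) : (ups c).Nodup := by
  have := (ks2_nodup c.1).product ((ks2_nodup c.2.1).product (ks2_nodup c.2.2))
  refine List.Nodup.filter _ ?_
  convert this using 1
  simp only [SProd.sprod, List.product, List.map_flatMap, List.map_map]
  rfl

def ks2le (a e : Z3) : Prop := zle a.1 e.1 ∧ zle a.2.1 e.2.1 ∧ zle a.2.2 e.2.2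

theorem ks2_down {a e : Z3} (h : ks2le a e) (he : inB N L e) : inB N L a := by
  unfold ks2le zle at h
  unfold inB at he ⊢
  simp only [Int.even_iff] at h
  omega

def ks2mk (a : Z3) (h : inB N L a) : Gr N L := ⟨a, h⟩

theorem ks2_ext (c : Gr N L → Gr N L → Bool) {a e : Z3} (ha : inB N L a) (he : inB N L e) :
    extC c a e = c (ks2mk a ha) (ks2mk e he) := dif_pos ⟨ha, he⟩

theorem ks2_swap {G : Cx V} {A : V → V → Prop} {c : V → V → Bool} (hc : Col G A c) {a b d : V}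
    (h1 : G.r a b) (h2 : G.r b d) (h3 : G.r a d) (h : c b d = false) : c a b = c a d := by
  cases hb : c a b
  · exact (hc.tri a b d h1 h2 h3 hb h).symm
  · cases hd : c a d
    · rw [hc.tri a d b h3 (G.symm _ _ h2) h1 hd (by rw [hc.symm, h])] at hb
      exact hb.symm
    · rfl

theorem ks2_T1 (hg : Grid N L ty) {c : Gr N L → Gr N L → Bool}
    (hc : Col (ord (Gr N L)) (AG N L ty) c) {a e f : Z3} (h1 : ks2le a e) (h2 : ks2le e f)
    (hn : nm (stk ty) e f = none) : extC c a e = extC c a f := by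
  by_cases hf : inB N L f
  · have he := ks2_down h2 hf
    have ha := ks2_down h1 he
    rw [ks2_ext c ha he, ks2_ext c ha hf]
    have k1 : ks2mk a ha ≤ ks2mk e he := h1
    have k2 : ks2mk e he ≤ ks2mk f hf := h2
    exact ks2_swap hc (.inl k1) (.inl k2) (.inl (k1.trans k2)) (hc.cl (cl_none hg k2 hn))
  · rw [show extC c a f = false from dif_neg fun h => hf h.2]
    by_cases he : inB N L e
    · have ha := ks2_down h1 he
      rw [ks2_ext c ha he]
      refine hc.cl (.base (.inl ⟨fun h => ?_, fun h => ?_⟩)) <;>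
      · have := h.1
        unfold ks2le zle at h1 h2
        unfold inB at he hf ha
        simp only [Int.even_iff] at h1 h2
        simp only [inner, ks2mk, Set.mem_ofPred_eq] at this
        omega
    · exact dif_neg fun h => he h.2

theorem ks2_T2 (hg : Grid N L ty) {c : Gr N L → Gr N L → Bool}
    (hc : Col (ord (Gr N L)) (AG N L ty) c) {a b e : Z3} (h1 : ks2le a b) (h2 : ks2le b e)
    (hn : nm (stk ty) a b = none) : extC c a e = extC c b e := by
  by_cases he : inB N L e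
  · have hb := ks2_down h2 he
    have ha := ks2_down h1 hb
    rw [ks2_ext c ha he, ks2_ext c hb he, hc.symm _ (ks2mk e he), hc.symm _ (ks2mk e he)]
    have k1 : ks2mk a ha ≤ ks2mk b hb := h1
    have k2 : ks2mk b hb ≤ ks2mk e he := h2
    exact ks2_swap hc (.inr (k1.trans k2)) (.inl k1) (.inr k2) (hc.cl (cl_none hg k1 hn))
  · rw [show extC c a e = false from dif_neg fun h => he h.2,
      show extC c b e = false from dif_neg fun h => he h.2]

/-- The stacks around a lattice point of type `t` placed at the origin. -/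
def ks2sw (t : CT) (x z : ℤ) : CT :=
  if x = 0 then (if z = 0 then t else if (if z = 1 then t.dn else t.up) then .V else .E)
  else if z = 0 then (if (if x = 1 then t.rt else t.lf) then .H else .E) else .E

def ks2zb (i j : ℤ) : Bool := i == j || (i % 2 == 0 && (j == i + 1 || j == i - 1))

def ks2lb (a e : Z3) : Bool := ks2zb a.1 e.1 && ks2zb a.2.1 e.2.1 && ks2zb a.2.2 e.2.2

theorem ks2_lb {a e : Z3} (h : ks2lb a e = true) : ks2le a e := by
  simpa [ks2lb, ks2zb, ks2le, zle, Int.even_iff, and_assoc] using h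

def ks2win (a : Z3) : Bool := decide ((-1 ≤ a.1 ∧ a.1 ≤ 1) ∧ -1 ≤ a.2.2 ∧ a.2.2 ≤ 1)

def ks2mv (s : ℤ → ℤ → CT) (P Q : Z3 × Z3) : Bool :=
  (P.1 == Q.1 && ks2lb P.1 P.2 && ks2lb P.2 Q.2 && nm s P.2 Q.2 == none) ||
    (P.2 == Q.2 && ks2lb P.1 Q.1 && ks2lb Q.1 Q.2 && nm s P.1 Q.1 == none)

def ks2src (s : ℤ → ℤ → CT) (P : Z3 × Z3) : Bool :=
  match nm s P.1 P.2 with
  | none => false
  | some n => used s n.1 n.2.1 n.2.2 && P.1 == (n.1, (srcY n.1 n.2.1 n.2.2).1, n.2.1) &&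
      P.2 == (n.1, (srcY n.1 n.2.1 n.2.2).2, n.2.1)

def ks2cell (n : ℕ) : Z3 := (((n / 21 : ℕ) : ℤ) - 1, ((n / 3 % 7 : ℕ) : ℤ), ((n % 3 : ℕ) : ℤ) - 1)

def ks2pr (m : ℕ) : Z3 × Z3 := (ks2cell (m / 63), ks2cell (m % 63))

def ks2cd (a : Z3) : ℕ := (21 * (a.1 + 1) + 3 * a.2.1 + (a.2.2 + 1)).toNat

def ks2ok (s : ℤ → ℤ → CT) (m n : ℕ) : Bool :=
  (m / 63 == n / 63 || m % 63 == n % 63) &&
    (ks2mv s (ks2pr m) (ks2pr n) || ks2mv s (ks2pr n) (ks2pr m)) &&
    nm s (ks2pr m).1 (ks2pr m).2 == nm s (ks2pr n).1 (ks2pr n).2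

def ks2chk (s : ℤ → ℤ → CT) : List ℕ → List ℕ → Bool
  | _, [] => true
  | K, m :: M => ks2win (ks2pr m).1 && ks2win (ks2pr m).2 &&
      (ks2src s (ks2pr m) || K.any (ks2ok s m)) && ks2chk s (m :: K) M

/-- The edges in an order in which each is a source or one move away from an earlier one. -/
def ks2L : CT → List ℕ
  | .E => [387, 1773, 515, 1775, 1838, 1774, 3075, 1815, 3138, 1794, 3203, 1817, 1880, 3140, 1795,
      1796, 1816, 1859, 3139]
  | .V => [387, 1773, 1962, 515, 1775, 1838, 1774, 1964, 2027, 1963, 2115, 2178, 2157, 2179, 2199,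
      2154, 2155, 2158, 2159, 2180, 2200, 2201, 2196, 2197, 2151, 2152, 2153, 2156, 2198, 2193,
      2194, 2195, 2109, 2172, 2173, 2174, 2243, 2222, 2264, 2219, 2261, 2216, 2258, 2237, 3075,
      1815, 3138, 2004, 3203, 1817, 1880, 3140, 1816, 2006, 2069, 3139, 2005]
  | .H => [451, 1774, 1773, 1775, 1795, 1794, 1796, 1815, 1816, 1817, 445, 1768, 1767, 1769, 1789,
      1770, 1788, 1791, 1772, 1790, 1793, 1809, 1810, 1811, 1812, 1814, 515, 1838, 3139, 3138,
      3140, 3133, 3132, 3134, 3135, 3137, 3203, 1880, 1859]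
  | .X => [451, 1774, 1773, 1775, 1963, 1962, 1964, 445, 1768, 1767, 1769, 1789, 1770, 1788, 1791,
      1772, 1790, 1793, 1809, 1810, 1811, 1794, 1812, 1796, 1814, 1983, 1985, 515, 1838, 2027,
      2115, 2178, 2157, 2179, 2199, 2154, 2155, 2158, 2159, 2180, 2200, 2201, 2196, 2197, 2151,
      2152, 2153, 2156, 2198, 2193, 2194, 2195, 2109, 2172, 2173, 2243, 2222, 2264, 2219, 2261,
      2216, 2258, 2237, 2174, 3139, 1816, 3138, 3140, 1815, 1817, 2005, 2004, 2006, 3133, 3132,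
      3134, 3135, 3137, 3203, 1880, 2069]
  | .UL => [515, 1838, 2115, 2178, 2157, 2179, 2199, 2154, 2155, 2158, 2159, 2180, 2200, 2201, 2196,
      2197, 2151, 2152, 2153, 2156, 2177, 2198, 2193, 2194, 2195, 1962, 1963, 1964, 2174, 2004,
      2005, 2006, 1773, 1774, 1775, 1985, 1815, 1816, 1817, 1796, 2109, 2172, 1983, 1794, 1791,
      1767, 1770, 1788, 1809, 1812, 1768, 1789, 1810, 1813, 1769, 1790, 1811, 1814, 1772, 1793,
      3075, 3138, 3203, 1880, 3140, 1859, 3139]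
  | .UR => [515, 1838, 2115, 2178, 2157, 2179, 2199, 2154, 2155, 2158, 2159, 2180, 2200, 2201, 2196,
      2197, 2151, 2152, 2153, 2156, 2177, 2198, 2193, 2194, 2195, 1962, 1963, 1964, 2174, 2004,
      2005, 2006, 1773, 1774, 1775, 1985, 1815, 1816, 1817, 1796, 2109, 2172, 1983, 1794, 1791,
      1767, 1770, 1788, 1809, 1812, 1768, 1771, 1789, 1810, 1769, 1772, 1790, 1811, 1793, 1814,
      3139, 3138, 3140, 3133, 3132, 3134, 3135, 3137, 3203, 1880, 1859]
  | .DL => [515, 1838, 2027, 2243, 2180, 2222, 2264, 2159, 2179, 2201, 2219, 2261, 2155, 2156, 2158,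
      2157, 2178, 2199, 2200, 2197, 2198, 2216, 2258, 2151, 2152, 2153, 2154, 2175, 2196, 2193,
      2194, 2195, 1962, 2172, 1963, 1964, 2004, 2005, 2006, 1773, 1983, 1774, 1775, 1815, 1816,
      1817, 1794, 2237, 2174, 1985, 1796, 1793, 1769, 1772, 1790, 1811, 1814, 1768, 1789, 1810,
      1813, 1767, 1788, 1809, 1812, 1770, 1791, 3075, 3138, 3203, 1880, 3140, 2069, 3139]
  | .DR => [515, 1838, 2027, 2243, 2180, 2222, 2264, 2159, 2179, 2201, 2219, 2261, 2155, 2156, 2158,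
      2157, 2178, 2199, 2200, 2197, 2198, 2216, 2258, 2151, 2152, 2153, 2154, 2175, 2196, 2193,
      2194, 2195, 1962, 2172, 1963, 1964, 2004, 2005, 2006, 1773, 1983, 1774, 1775, 1815, 1816,
      1817, 1794, 2237, 2174, 1985, 1796, 1793, 1769, 1772, 1790, 1811, 1814, 1768, 1771, 1789,
      1810, 1767, 1770, 1788, 1809, 1791, 1812, 3139, 3138, 3140, 3133, 3132, 3134, 3135, 3137,
      3203, 1880, 2069]

def ks2cov (t : CT) : Bool :=
  [0, 1].all fun x => [0, 1, 2, 3, 4, 5, 6].all fun y => [0, 1].all fun z =>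
    (ups (x, y, z)).all fun e => nm (ks2sw t) (x, y, z) e == none ||
      ((ks2L t).contains (63 * ks2cd (x, y, z) + ks2cd e) &&
        ks2pr (63 * ks2cd (x, y, z) + ks2cd e) == ((x, y, z), e))

theorem ks2_check (t : CT) : (ks2chk (ks2sw t) [] (ks2L t) && ks2cov t) = true := by
  cases t <;> decide +kernel

theorem ks2_sound {s : ℤ → ℤ → CT} {C : Z3 → Z3 → Bool} {val : ℤ → ℤ → BB}
    (h1 : ∀ P Q : Z3 × Z3, ks2win P.1 = true → ks2win P.2 = true → ks2win Q.1 = true →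
      ks2win Q.2 = true → ks2mv s P Q = true → C P.1 P.2 = C Q.1 Q.2)
    (h2 : ∀ P : Z3 × Z3, ks2win P.1 = true → ks2src s P = true →
      C P.1 P.2 = lab val (nm s P.1 P.2)) (M : List ℕ) : ∀ K : List ℕ, ks2chk s K M = true →
    (∀ m ∈ K, ks2win (ks2pr m).1 = true ∧ ks2win (ks2pr m).2 = true ∧
      C (ks2pr m).1 (ks2pr m).2 = lab val (nm s (ks2pr m).1 (ks2pr m).2)) →
    ∀ m ∈ M, C (ks2pr m).1 (ks2pr m).2 = lab val (nm s (ks2pr m).1 (ks2pr m).2) := by
  induction M with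
  | nil => simp
  | cons m M ih =>
    intro K h hK
    simp only [ks2chk, Bool.and_eq_true, Bool.or_eq_true, List.any_eq_true] at h
    obtain ⟨⟨⟨w1, w2⟩, h3⟩, h4⟩ := h
    have hm : C (ks2pr m).1 (ks2pr m).2 = lab val (nm s (ks2pr m).1 (ks2pr m).2) := by
      rcases h3 with h3 | ⟨n, hn, h3⟩
      · exact h2 _ w1 h3
      · obtain ⟨w3, w4, k⟩ := hK n hn
        simp only [ks2ok, Bool.and_eq_true, Bool.or_eq_true, beq_iff_eq] at h3
        obtain ⟨⟨-, h5⟩, h6⟩ := h3
        rw [h6, ← k]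
        rcases h5 with h5 | h5
        · exact h1 _ _ w1 w2 w3 w4 h5
        · exact (h1 _ _ w3 w4 w1 w2 h5).symm
    intro n hn
    rcases List.mem_cons.1 hn with rfl | hn
    · exact hm
    · refine ih (m :: K) h4 (fun n hn => ?_) n hn
      rcases List.mem_cons.1 hn with rfl | hn
      · exact ⟨w1, w2, hm⟩
      · exact hK n hn

def ks2sh (i k : ℤ) (a : Z3) : Z3 := (a.1 + 2 * i, a.2.1, a.2.2 + 2 * k)

theorem ks2_stk (hg : Grid N L ty) (i k : ℤ) {x z : ℤ} (hx : -1 ≤ x ∧ x ≤ 1)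
    (hz : -1 ≤ z ∧ z ≤ 1) : stk ty (x + 2 * i) (z + 2 * k) = ks2sw (ty i k) x z := by
  have v := hg.vert i (k - 1)
  have h := hg.hor (i - 1) k
  rw [sub_add_cancel] at v h
  have a1 : ∀ j : ℤ, (-1 + 2 * j) % 2 = 1 ∧ (-1 + 2 * j) / 2 = j - 1 := fun j => by omega
  have a2 : ∀ j : ℤ, (0 + 2 * j) % 2 = 0 ∧ (0 + 2 * j) / 2 = j := fun j => by omega
  have a3 : ∀ j : ℤ, (1 + 2 * j) % 2 = 1 ∧ (1 + 2 * j) / 2 = j := fun j => by omega
  obtain ⟨x1, x2⟩ := hx
  obtain ⟨z1, z2⟩ := hz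
  interval_cases x <;> interval_cases z <;> simp only [stk, ks2sw, a1, a2, a3, v, h] <;> simp

theorem ks2_nm0 (i k : ℤ) (t t' : CT) (a e : Z3) : nm0 t t' (ks2sh i k a) (ks2sh i k e) =
    (nm0 t t' a e).map fun n => (n.1 + 2 * i, n.2.1 + 2 * k, n.2.2) := by
  have o : ∀ x j : ℤ, odd1 (x + 2 * j) = odd1 x + 2 * j := fun x j => by
    unfold odd1
    split_ifs <;> omega
  have p : (a.1 + 2 * i + (a.2.2 + 2 * k)) % 2 = (a.1 + a.2.2) % 2 := by omega
  have q : ∀ x j : ℤ, x + 2 * j - 1 = x - 1 + 2 * j := fun x j => by ring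
  have r : ∀ x j : ℤ, x + 2 * j + 1 = x + 1 + 2 * j := fun x j => by ring
  simp only [nm0, ks2sh, o, p, q, r]
  cases t <;> simp only [] <;> split_ifs <;> rfl

theorem ks2_nm (hg : Grid N L ty) (i k : ℤ) {a e : Z3} (ha : ks2win a = true)
    (he : ks2win e = true) : nm (stk ty) (ks2sh i k a) (ks2sh i k e) =
      (nm (ks2sw (ty i k)) a e).map fun n => (n.1 + 2 * i, n.2.1 + 2 * k, n.2.2) := by
  have ha := of_decide_eq_true ha
  have he := of_decide_eq_true he
  rw [nm, nm, ← ks2_nm0, ← ks2_stk hg i k ha.1 ha.2, ← ks2_stk hg i k he.1 he.2]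
  rfl

theorem ks2_shle (i k : ℤ) {a e : Z3} (h : ks2lb a e = true) :
    ks2le (ks2sh i k a) (ks2sh i k e) := by
  have h := ks2_lb h
  simp only [ks2le, zle, ks2sh, Int.even_iff] at h ⊢
  omega

theorem ks2_loc (hg : Grid N L ty) {c : Gr N L → Gr N L → Bool}
    (hc : Col (ord (Gr N L)) (AG N L ty) c) (i k : ℤ) {m : ℕ} (hm : m ∈ ks2L (ty i k)) :
    extC c (ks2sh i k (ks2pr m).1) (ks2sh i k (ks2pr m).2) =
      lab (fun x z => varsZ ty c (x + 2 * i) (z + 2 * k))
        (nm (ks2sw (ty i k)) (ks2pr m).1 (ks2pr m).2) := by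
  have h := ks2_check (ty i k)
  rw [Bool.and_eq_true] at h
  refine ks2_sound (C := fun a e => extC c (ks2sh i k a) (ks2sh i k e)) ?_ ?_ _ [] h.1
    (by simp) m hm
  · rintro ⟨a, e⟩ ⟨b, f⟩ w1 w2 w3 w4 h
    simp only [ks2mv, Bool.and_eq_true, Bool.or_eq_true, beq_iff_eq] at h
    rcases h with ⟨⟨⟨rfl, h1⟩, h2⟩, h3⟩ | ⟨⟨⟨rfl, h1⟩, h2⟩, h3⟩
    · exact ks2_T1 hg hc (ks2_shle i k h1) (ks2_shle i k h2)
        (by rw [ks2_nm hg i k w2 w4, h3]; rfl)
    · exact ks2_T2 hg hc (ks2_shle i k h1) (ks2_shle i k h2)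
        (by rw [ks2_nm hg i k w1 w3, h3]; rfl)
  · rintro ⟨a, e⟩ w h
    unfold ks2src at h
    split at h
    · exact absurd h (by simp)
    · rename_i n hn
      obtain ⟨x, z, b⟩ := n
      simp only [Bool.and_eq_true, beq_iff_eq] at h hn
      obtain ⟨⟨h1, h2⟩, h3⟩ := h
      have w := of_decide_eq_true w
      simp only [h2] at w
      have px : (x + 2 * i) % 2 = x % 2 := by omega
      have pz : (z + 2 * k) % 2 = z % 2 := by omega
      have u : used (stk ty) (x + 2 * i) (z + 2 * k) b = true := by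
        rw [← h1]
        simp only [used, px, pz, ks2_stk hg i k w.1 w.2]
      have y : srcY (x + 2 * i) (z + 2 * k) b = srcY x z b := by simp only [srcY, srcH, px, pz]
      simp only [hn]
      rw [h2, h3]
      cases b <;> simp [lab, varsZ, u, y, ks2sh]

theorem ks2_main (hg : Grid N L ty) {c : Gr N L → Gr N L → Bool}
    (hc : Col (ord (Gr N L)) (AG N L ty) c) {a e : Gr N L} (h : a < e) :
    cz (stk ty) (varsZ ty c) a.1 e.1 = c a e := by
  obtain ⟨⟨x, y, z⟩, ha⟩ := a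
  obtain ⟨⟨x', y', z'⟩, he⟩ := e
  have hle := h.le
  have hne : ¬(x = x' ∧ y = y' ∧ z = z') := by
    rintro ⟨rfl, rfl, rfl⟩
    exact h.ne rfl
  have hl := hle
  simp only [Gr.le_iff, zle, Int.even_iff] at hl
  simp only at ha he
  have e1 : ks2sh (x / 2) (z / 2) (x % 2, y, z % 2) = (x, y, z) := by
    simp only [ks2sh, Prod.mk.injEq, true_and]
    omega
  have e2 : ks2sh (x / 2) (z / 2) (x' - 2 * (x / 2), y', z' - 2 * (z / 2)) = (x', y', z') := by
    simp only [ks2sh, sub_add_cancel]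
  have hu : (x' - 2 * (x / 2), y', z' - 2 * (z / 2)) ∈ ups (x % 2, y, z % 2) := by
    simp only [mem_ups, zle, Int.even_iff, ne_eq, Prod.mk.injEq]
    omega
  have hn := ks2_nm hg (x / 2) (z / 2) (a := (x % 2, y, z % 2))
    (e := (x' - 2 * (x / 2), y', z' - 2 * (z / 2)))
    (decide_eq_true (by simp only; omega)) (decide_eq_true (by simp only; omega))
  rw [e1, e2] at hn
  have hk := ks2_check (ty (x / 2) (z / 2))
  rw [Bool.and_eq_true] at hk
  have hk := hk.2
  simp only [ks2cov, List.all_eq_true] at hk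
  have hk := hk (x % 2) (by simp only [List.mem_cons]; omega) y
    (by simp only [List.mem_cons]; omega) (z % 2) (by simp only [List.mem_cons]; omega) _ hu
  simp only [Bool.or_eq_true, Bool.and_eq_true, beq_iff_eq, List.contains_iff_mem] at hk
  rcases hk with hk | ⟨k1, k2⟩
  · rw [hk] at hn
    rw [hc.cl (cl_none hg hle hn), cz, hn]
    rfl
  · have := ks2_loc hg hc _ _ k1
    rw [k2] at this
    simp only [e1, e2] at this
    rw [ks2_ext c (a := (x, y, z)) (e := (x', y', z')) ha he] at this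
    refine Eq.trans ?_ this.symm
    rw [cz, hn]
    cases nm (ks2sw (ty (x / 2) (z / 2))) (x % 2, y, z % 2)
      (x' - 2 * (x / 2), y', z' - 2 * (z / 2)) <;> rfl

theorem mk_vars (hg : Grid N L ty) {c : Gr N L → Gr N L → Bool}
    (hc : Col (ord (Gr N L)) (AG N L ty) c) : mkC ty (varsZ ty c) = c := by
  funext a e
  unfold mkC
  split_ifs with h1 h2
  · exact ks2_main hg hc h1
  · rw [ks2_main hg hc h2, hc.symm]
  · cases h : c a e
    · rfl
    · obtain ⟨k1, k2, -⟩ := hc.supp a e h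
      rcases k1 with k | k
      · exact absurd (lt_of_le_of_ne k k2) h1
      · exact absurd (lt_of_le_of_ne k k2.symm) h2

theorem ks2_src {val : ℤ → ℤ → BB} {x z : ℤ} (hx : 0 ≤ x ∧ x ≤ 2 * (N : ℤ) + 2)
    (hz : 0 ≤ z ∧ z ≤ 2 * (L : ℤ) + 2) (b : Bool) (hu : used (stk ty) x z b = true) :
    extC (mkC (N := N) (L := L) ty val) (x, (srcY x z b).1, z) (x, (srcY x z b).2, z) =
      lab val (some (x, z, b)) := by
  have h1 : ((srcY x z b).1 = 2 ∨ (srcY x z b).1 = 4) ∧
      ((srcY x z b).2 = (srcY x z b).1 + 1 ∨ (srcY x z b).2 = (srcY x z b).1 - 1) := by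
    unfold srcY srcH
    split_ifs <;> simp
  have ha : inB N L (x, (srcY x z b).1, z) := ⟨hx, by simp only; omega, hz⟩
  have he : inB N L (x, (srcY x z b).2, z) := ⟨hx, by simp only; omega, hz⟩
  have hl : ks2mk _ ha < ks2mk _ he := by
    refine lt_of_le_of_ne ⟨zle_refl _, ?_, zle_refl _⟩ fun h => ?_
    · simp only [zle, Int.even_iff, ks2mk]
      omega
    · have := congrArg (fun q : Gr N L => q.1.2.1) h
      simp only [ks2mk] at this
      omega
  rw [ks2_ext _ ha he, mkC, if_pos hl, cz]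
  congr 1
  simp only [ks2mk]
  unfold used at hu
  rcases Int.emod_two_eq_zero_or_one x with px | px <;>
    rcases Int.emod_two_eq_zero_or_one z with pz | pz
  · simp only [px, pz, if_true, Bool.and_eq_true, beq_iff_eq, Bool.not_eq_eq_eq_not,
      Bool.not_true] at hu
    simp [nm, nm0, srcY, px, pz, hu.1, hu.2, kl]
  · have p : (x + z) % 2 = 1 := by omega
    simp only [px, pz, if_true, one_ne_zero, if_false, beq_iff_eq] at hu
    cases b <;> simp [nm, nm0, srcY, srcH, px, pz, hu, kl, p]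
  · have p : (x + z) % 2 = 1 := by omega
    simp only [px, pz, if_true, one_ne_zero, if_false, beq_iff_eq] at hu
    cases b <;> simp [nm, nm0, srcY, srcH, px, pz, hu, kl, p]
  · simp only [px, pz, one_ne_zero, if_false, Bool.not_eq_eq_eq_not, Bool.not_true] at hu
    simp [nm, nm0, srcY, srcH, px, pz, hu, kl, stk, odd1]

theorem vars_mk (hg : Grid N L ty) {val : ℤ → ℤ → BB} {x z : ℤ} (hx : 0 ≤ x ∧ x ≤ 2 * (N : ℤ) + 2)
    (hz : 0 ≤ z ∧ z ≤ 2 * (L : ℤ) + 2) (hu : Unu (stk ty) val x z) :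
    varsZ ty (mkC (N := N) (L := L) ty val) x z = val x z := by
  refine Prod.ext ?_ ?_
  · cases h : used (stk ty) x z false
    · simp [varsZ, h, hu.1 h]
    · simp [varsZ, h, ks2_src hx hz false h, lab]
  · cases h : used (stk ty) x z true
    · simp [varsZ, h, hu.2 h]
    · simp [varsZ, h, ks2_src hx hz true h, lab]

theorem vars_out (ty : ℤ → ℤ → CT) (c : Gr N L → Gr N L → Bool) {x z : ℤ}
    (h : ¬ ((0 ≤ x ∧ x ≤ 2 * (N : ℤ) + 2) ∧ 0 ≤ z ∧ z ≤ 2 * (L : ℤ) + 2)) :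
    varsZ ty c x z = (false, false) := by
  have k : ∀ y y', extC c (x, y, z) (x, y', z) = false := fun y y' =>
    dif_neg fun k => h ⟨k.1.1, k.1.2.2⟩
  simp [varsZ, k]

theorem vars_bd (hg : Grid N L ty) {c : Gr N L → Gr N L → Bool}
    (hc : Col (ord (Gr N L)) (AG N L ty) c) : BdZ N L (varsZ ty c) := by
  intro x z hx hz h
  have y : srcY x z false = (2, 3) := by simp [srcY, srcH, hx]
  have k : extC c (x, 2, z) (x, 3, z) = false := by
    unfold extC
    split_ifs with k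
    · exact hc.cl (cl_bd hg rfl rfl rfl rfl h)
    · rfl
  simp [varsZ, y, k]

end KG
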