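import Pool.Agent.Work.MP_c146e2_gt.KG.KS2

/-! The weight of a stack of cells as a finite computation. -/

set_option autoImplicit false

noncomputable section

namespace KG

open RankGenus

abbrev Ks4N : Type := ℤ × ℤ × Bool

/-- The edges of all chains with least element `a`. -/
def ks4C (a : Z3) : List (List (Z3 × Z3)) :=
  (ups a).flatMap fun e => [(a, e)] :: (ups e).flatMap fun f => [(a, e), (a, f), (e, f)] ::
    (ups f).map fun g => [(a, e), (a, f), (a, g), (e, f), (e, g), (f, g)]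

def ks4A (x z : ℤ) : List (List (Z3 × Z3)) :=
  ([0, 1, 2, 3, 4, 5, 6] : List ℤ).flatMap fun y => ks4C (x, y, z)

def ks4E : List Bool → Cy
  | [a] => ddC a
  | [a, b, c] => if adm a b c then thC a b c else 0
  | [ab, ac, ad, bc, bd, cd] => ttC ab ac ad bc bd cd
  | _ => 1

inductive Ks4K
  | one | ph | phi | neg | zero

def Ks4K.v : Ks4K → Cy
  | .one => 1
  | .ph => Cy.ph
  | .phi => Cy.phi
  | .neg => -1
  | .zero => 0

def ks4K (b : ℕ → Bool) : List ℕ → Ks4K
  | [a] => cond (b a) .ph .one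
  | [a, c, d] => cond (adm (b a) (b c) (b d)) (cond (b a || b c || b d) .phi .one) .zero
  | [ab, ac, ad, bc, bd, cd] =>
    cond (adm (b ab) (b ac) (b bc) && adm (b ab) (b ad) (b bd) && adm (b ac) (b ad) (b cd) &&
      adm (b bc) (b bd) (b cd))
      (cond (b ab && b ac && b ad && b bc && b bd && b cd) .neg
        (cond (b ab || b ac || b ad || b bc || b bd || b cd) .ph .one)) .zero
  | _ => .one

def ks4P (x : Cy) : ℕ → Cy
  | 0 => 1
  | n + 1 => x * ks4P x n

def ks4G (b : ℕ → Bool) (l : List (List ℕ × ℕ)) : ℕ → ℕ → ℕ → Cy :=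
  l.rec (fun p q s => ks4P (-1) (s % 2) * (ks4P Cy.ph (p - q) * ks4P Cy.phi (q - p)))
    fun i _ r p q s => (ks4K b i.1).rec (r p q s) (r (Nat.add p i.2.succ) q s)
      (r p (Nat.add q i.2.succ) s) (r p q (Nat.add s i.2.succ)) 0

def ks4J (i : List ℕ) : List (List ℕ × ℕ) → List (List ℕ × ℕ)
  | [] => [(i, 0)]
  | j :: t => if i = j.1 then (j.1, j.2 + 1) :: t else j :: ks4J i t

def ks4I (A : List Ks4N) : Option Ks4N → ℕ
  | none => 0
  | some n => A.idxOf n + 1

def ks4L (A : List Ks4N) (s : ℤ → ℤ → CT) (x z : ℤ) : List (List ℕ) :=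
  (ks4A x z).map fun i => i.map fun p => ks4I A (nm s p.1 p.2)

def ks4B (M k : ℕ) : Bool := Nat.beq (Nat.land (Nat.shiftRight M k) 1) 1

/-- The value of the list `L` of chains for the labels `l`. -/
def ks4V (L : List (List ℕ)) (l : List Bool) : Cy :=
  ks4G (ks4B ((false :: l).foldr Nat.bit 0)) (L.foldr ks4J []) 0 0 0

theorem ks4_K (b : ℕ → Bool) (i : List ℕ) : (ks4K b i).v = ks4E (i.map b) := by
  match i with
  | [] | [_, _] | [_, _, _, _] | [_, _, _, _, _] | _ :: _ :: _ :: _ :: _ :: _ :: _ :: _ => rfl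
  | [a] =>
    simp only [ks4K, List.map, ks4E, ddC]
    cases b a <;> rfl
  | [a, c, d] =>
    simp only [ks4K, List.map, ks4E, thC]
    cases b a <;> cases b c <;> cases b d <;> rfl
  | [ab, ac, ad, bc, bd, cd] =>
    simp only [ks4K, List.map, ks4E, ttC, Bool.cond_eq_ite]
    split_ifs <;> rfl

theorem ks4_P (x : Cy) (n : ℕ) : ks4P x n = x ^ n := by
  induction n with
  | zero => exact (pow_zero x).symm
  | succ n ih => rw [ks4P, ih, pow_succ']

theorem ks4_G (b : ℕ → Bool) (l : List (List ℕ × ℕ)) (p q s : ℕ) : ks4G b l p q s =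
    (-1) ^ s * (Cy.ph ^ p * Cy.phi ^ q) * (l.map fun j => (ks4K b j.1).v ^ (j.2 + 1)).prod := by
  induction l generalizing p q s with
  | nil =>
    change ks4P _ _ * (ks4P _ _ * ks4P _ _) = _
    rw [ks4_P, ks4_P, ks4_P, ← neg_one_pow_eq_pow_mod_two, List.map_nil, List.prod_nil, mul_one]
    congr 1
    rcases le_total p q with h | h <;> obtain ⟨k, rfl⟩ := Nat.exists_eq_add_of_le h
    · rw [Nat.add_sub_cancel_left, Nat.sub_eq_zero_of_le h, pow_add, ← mul_assoc, ← mul_pow,
        Cy.ph_mul_phi, one_pow, pow_zero]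
    · rw [Nat.add_sub_cancel_left, Nat.sub_eq_zero_of_le h, pow_add, mul_right_comm, ← mul_pow,
        Cy.ph_mul_phi, one_pow, pow_zero, mul_comm]
  | cons i l ih =>
    change Ks4K.rec (motive := fun _ => Cy) (ks4G b l p q s) (ks4G b l (p + (i.2 + 1)) q s)
      (ks4G b l p (q + (i.2 + 1)) s) (ks4G b l p q (s + (i.2 + 1))) 0 (ks4K b i.1) = _
    rw [List.map_cons, List.prod_cons]
    cases ks4K b i.1 <;> simp only [ih, Ks4K.v] <;> ring

theorem ks4_J (f : List ℕ → Cy) (l : List (List ℕ)) :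
    ((l.foldr ks4J []).map fun j => f j.1 ^ (j.2 + 1)).prod = (l.map f).prod := by
  induction l with
  | nil => rfl
  | cons i l ih =>
    rw [List.foldr_cons, List.map_cons, List.prod_cons, ← ih]
    induction l.foldr ks4J [] with
    | nil => simp [ks4J]
    | cons j t ih =>
      rw [ks4J]
      split_ifs with h
      · simp only [List.map_cons, List.prod_cons, h]
        ring
      · simp only [List.map_cons, List.prod_cons, ih]
        ring

theorem ks4_B (l : List Bool) (k : ℕ) : ks4B (l.foldr Nat.bit 0) k = l.getD k false := by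
  have e : ∀ M, ks4B M k = M.testBit k := fun M => by
    change Nat.beq ((M >>> k) &&& 1) 1 = _
    rw [Nat.testBit_eq_decide_div_mod_eq, Nat.and_one_is_mod, Nat.shiftRight_eq_div_pow,
      Bool.eq_iff_iff, Nat.beq_eq, decide_eq_true_iff]
  rw [e]
  clear e
  induction l generalizing k with
  | nil => simp
  | cons a l ih =>
    cases k with
    | zero => simp
    | succ k => simp [Nat.testBit_bit_succ, ih]

theorem ks4_flat {α β : Type} (l : List α) (f : α → List β) (g : β → Cy) :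
    ((l.flatMap f).map g).prod = (l.map fun a => ((f a).map g).prod).prod := by
  induction l with
  | nil => rfl
  | cons a l ih => simp only [List.flatMap_cons, List.map_append, List.prod_append, ih,
      List.map_cons, List.prod_cons]

theorem ks4_LSt (col : Z3 → Z3 → Bool) (x z : ℤ) :
    LSt col x z = ((ks4A x z).map fun i => ks4E (i.map fun p => col p.1 p.2)).prod := by
  rw [ks4A, ks4_flat, LSt]
  refine congrArg _ (List.map_congr_left fun y _ => ?_)
  simp only [LW, ks4C, ks4_flat, List.map_cons, List.prod_cons, List.map_map, List.map_nil]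
  rfl

def ks4s (d d' : ℤ) (c : Z3) : Z3 := (c.1 + d, c.2.1, c.2.2 + d')

theorem ks4_nbz {d : ℤ} (hd : d % 2 = 0) (x : ℤ) : nbz (x + d) = (nbz x).map (· + d) := by
  unfold nbz
  have e : (x + d) % 2 = x % 2 := by omega
  rw [e]
  split_ifs
  · simp only [List.map_cons, List.map_nil]
    rw [add_sub_right_comm, add_right_comm]
  · rfl

theorem ks4_ups {d d' : ℤ} (hd : d % 2 = 0) (hd' : d' % 2 = 0) (c : Z3) :
    ups (ks4s d d' c) = (ups c).map (ks4s d d') := by
  have e : ((nbz (c.1 + d)).flatMap fun x => (nbz c.2.1).flatMap fun y =>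
      (nbz (c.2.2 + d')).map fun z => ((x, y, z) : Z3)) = ((nbz c.1).flatMap fun x =>
      (nbz c.2.1).flatMap fun y => (nbz c.2.2).map fun z => (x, y, z)).map (ks4s d d') := by
    simp only [ks4_nbz hd, ks4_nbz hd', List.flatMap_map, List.map_flatMap, List.map_map]
    rfl
  unfold ups
  simp only [ks4s]
  rw [e, List.filter_map]
  refine congrArg _ (List.filter_congr fun e _ => decide_eq_decide.2 ?_)
  simp [ks4s, Prod.ext_iff]

theorem ks4_shift {d d' : ℤ} (hd : d % 2 = 0) (hd' : d' % 2 = 0) (col : Z3 → Z3 → Bool)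
    (x z : ℤ) : LSt col (x + d) (z + d') =
      LSt (fun c e => col (ks4s d d' c) (ks4s d d' e)) x z := by
  unfold LSt
  refine congrArg List.prod (List.map_congr_left fun y _ => ?_)
  change LW col (ks4s d d' (x, y, z)) = _
  simp only [LW, ks4_ups hd hd', List.map_map, Function.comp_def]

theorem ks4_nm {d d' : ℤ} (hd : d % 2 = 0) (hd' : d' % 2 = 0) (t t' : CT) (c e : Z3) :
    nm0 t t' (ks4s d d' c) (ks4s d d' e) =
      (nm0 t t' c e).map fun n => (n.1 + d, n.2.1 + d', n.2.2) := by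
  have e1 : ∀ {d : ℤ}, d % 2 = 0 → ∀ x, odd1 (x + d) = odd1 x + d := fun {d} h x => by
    unfold odd1
    split_ifs <;> omega
  have e2 : (c.1 + d + (c.2.2 + d')) % 2 = (c.1 + c.2.2) % 2 := by omega
  simp only [nm0, ks4s, e1 hd, e1 hd', e2, add_sub_right_comm _ d, add_sub_right_comm _ d',
    add_right_comm _ d' 1]
  cases t <;> simp only [apply_ite (Option.map _), Option.map_none, Option.map_some] <;> rfl

theorem ks4_win {x z : ℤ} {c e : Z3} (hc : c.1 ∈ nbz x ∧ c.2.2 ∈ nbz z) (he : e ∈ ups c) :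
    e.1 ∈ nbz x ∧ e.2.2 ∈ nbz z := by
  have k : ∀ x a b, a ∈ nbz x → b ∈ nbz a → b ∈ nbz x := fun x a b => by
    unfold nbz
    split_ifs <;> simp only [List.mem_cons, List.not_mem_nil, or_false] <;> omega
  simp only [ups, List.mem_filter, List.mem_flatMap, List.mem_map] at he
  obtain ⟨⟨a, h1, b, -, u, h2, rfl⟩, -⟩ := he
  exact ⟨k _ _ _ hc.1 h1, k _ _ _ hc.2 h2⟩

theorem ks4_mem {x z : ℤ} {i : List (Z3 × Z3)} (hi : i ∈ ks4A x z) {p : Z3 × Z3} (hp : p ∈ i) :
    (p.1.1 ∈ nbz x ∧ p.1.2.2 ∈ nbz z) ∧ p.2.1 ∈ nbz x ∧ p.2.2.2 ∈ nbz z := by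
  obtain ⟨y, -, hi⟩ := List.mem_flatMap.1 hi
  have k : ∀ x, x ∈ nbz x := fun x => by
    unfold nbz
    split_ifs <;> simp
  have ha : ((x, y, z) : Z3).1 ∈ nbz x ∧ ((x, y, z) : Z3).2.2 ∈ nbz z := ⟨k x, k z⟩
  obtain ⟨e, he, hi⟩ := List.mem_flatMap.1 hi
  have he' := ks4_win ha he
  rcases List.mem_cons.1 hi with rfl | hi
  · rw [List.mem_singleton.1 hp]
    exact ⟨ha, he'⟩
  obtain ⟨f, hf, hi⟩ := List.mem_flatMap.1 hi
  have hf' := ks4_win he' hf
  rcases List.mem_cons.1 hi with rfl | hi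
  · simp only [List.mem_cons, List.not_mem_nil, or_false] at hp
    rcases hp with rfl | rfl | rfl
    exacts [⟨ha, he'⟩, ⟨ha, hf'⟩, ⟨he', hf'⟩]
  obtain ⟨g, hg, rfl⟩ := List.mem_map.1 hi
  have hg' := ks4_win hf' hg
  simp only [List.mem_cons, List.not_mem_nil, or_false] at hp
  rcases hp with rfl | rfl | rfl | rfl | rfl | rfl
  exacts [⟨ha, he'⟩, ⟨ha, hf'⟩, ⟨ha, hg'⟩, ⟨he', hf'⟩, ⟨he', hg'⟩, ⟨hf', hg'⟩]

theorem ks4_red {s : ℤ → ℤ → CT} (val : ℤ → ℤ → BB) {x z d d' : ℤ} (hd : d % 2 = 0)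
    (hd' : d' % 2 = 0) {s0 : ℤ → ℤ → CT} {A : List Ks4N}
    (hs : ∀ i ∈ nbz x, ∀ k ∈ nbz z, s (i + d) (k + d') = s0 i k)
    (hA : ∀ i ∈ ks4L A s0 x z, ∀ k ∈ i, k ≤ A.length) :
    LSt (cz s val) (x + d) (z + d') = ks4V (ks4L A s0 x z)
      (A.map fun n => lab val (some (n.1 + d, n.2.1 + d', n.2.2))) := by
  rw [ks4_shift hd hd', ks4_LSt, ks4V, ks4_G, ks4_J (fun i => (ks4K _ i).v), pow_zero, pow_zero,
    pow_zero, one_mul, one_mul, one_mul, ks4L, List.map_map]
  refine congrArg _ (List.map_congr_left fun i hi => ?_)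
  rw [Function.comp_apply, ks4_K, List.map_map]
  refine congrArg _ (List.map_congr_left fun p hp => ?_)
  obtain ⟨h1, h2⟩ := ks4_mem hi hp
  have h3 := hA _ (List.mem_map_of_mem hi) _ (List.mem_map_of_mem hp)
  have e : nm s (ks4s d d' p.1) (ks4s d d' p.2) =
      (nm s0 p.1 p.2).map fun n => (n.1 + d, n.2.1 + d', n.2.2) := by
    rw [nm, nm, ← hs _ h1.1 _ h1.2, ← hs _ h2.1 _ h2.2, ← ks4_nm hd hd']
    rfl
  rw [Function.comp_apply, ks4_B, cz, e]
  revert h3
  cases nm s0 p.1 p.2 with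
  | none => exact fun _ => rfl
  | some n =>
    intro h3
    have h4 : A.idxOf n < A.length := h3
    simp [ks4I, h4]

def ks4S (t : CT) (x z : ℤ) : CT :=
  if x = 2 then (if z = 2 then t else if z = 1 then (if t.up then .V else .E)
    else (if t.dn then .V else .E))
  else if z = 2 then (if x = 1 then (if t.lf then .H else .E) else (if t.rt then .H else .E))
  else .E

def ks4N : List Ks4N := [(1, 1, false), (3, 1, false), (1, 3, false), (3, 3, false),
  (2, 1, false), (2, 1, true), (2, 3, false), (2, 3, true), (1, 2, false), (1, 2, true),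
  (3, 2, false), (3, 2, true), (2, 2, false)]

def ks4T (t : CT) : Prop := (∀ i ∈ ks4L ks4N (ks4S t) 2 2, ∀ k ∈ i, k ≤ ks4N.length) ∧
  ∀ nw ne sw se U1 U2, indE t.up (U1, U2) nw ne = true →
  ∀ D1 D2, indE t.dn (D1, D2) sw se = true → ∀ L1 L2, indE t.lf (L1, L2) nw sw = true →
  ∀ R1 R2, indE t.rt (R1, R2) ne se = true → ∀ u, (t ≠ .X → u = false) →
    ks4V (ks4L ks4N (ks4S t) 2 2) [nw, ne, sw, se, U1, U2, D1, D2, L1, L2, R1, R2, u] =
      wV t (u, false) (U1, U2) (D1, D2) (L1, L2) (R1, R2) nw ne sw se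

instance : DecidablePred ks4T := fun t => by
  unfold ks4T
  infer_instance

theorem ks4_X : ks4T .X := by decide +kernel

end KG
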