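import Pool.Agent.Work.MP_c146e2_gt.KG.KS4a

/-! The tables at lattice points that are not crossings. -/

set_option autoImplicit false

namespace KG

theorem ks4_rest : ∀ t ∈ [CT.E, .V, .H, .UL, .UR, .DL, .DR], ks4T t := by decide +kernel

theorem ks4_all (t : CT) : ks4T t := by
  cases t
  case X => exact ks4_X
  all_goals exact ks4_rest _ (by simp)

end KG
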